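import Pool.Agent.PTK.StX
import Pool.Agent.PTN.ALLQ

/-!
# PTK_ALV: the averages over all `A`, `q = 1 (mod 3)`
-/

set_option autoImplicit false

open NumberField IsDedekindDomain Finset
open scoped nonZeroDivisors Pointwise

namespace Pool.Agent.PTK

open Pool.Agent.Lib_helper18 Pool.Agent.Lib_helper18.Eis Pool.Agent.Lib_helper84.Cub
open Pool.Agent.PT Pool.Agent.PTE Pool.Agent.PT3 Pool.Agent.PTL Pool.Agent.PTN

namespace ALV

theorem hsol : ∀ A : ℤ, A ≠ 0 → CubeRank.GenBy A (CubeRank.rr A) → CubeRank.rr A < 1 →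
    ¬ ∃ X Y : ℚ, X ^ 3 + Y ^ 3 = (A : ℚ) := by
  intro A hA h1 h2
  have h3 : CubeRank.rr A = 0 := by omega
  rw [h3] at h1
  exact DOM.no_sol hA h1

theorem hone : ∀ A : ℤ, A ≠ 0 → CubeRank.GenBy A (CubeRank.rr A) → CubeRank.rr A < 2 →
    CubeRank.rr A ≤ 1 := by
  intro A _ _ h2
  omega

end ALV

/-- PTK_ALV -/
theorem ALV_thm (hCAV : Stmt_CAV) (hCBV : Stmt_CBV) (hLAW : Stmt_LAW) (hSUMA : Stmt_SUMA)
    (hNDIM : Stmt_NDIM) (hNSUM : Stmt_NSUM) (hNZER : Stmt_NZER) (hNSU1 : Stmt_NSU1)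
    (hNZE1 : Stmt_NZE1) : Stmt_ALV := by
  classical
  intro h n m k π p e r f hN hh μ hμ
  obtain ⟨-, -, hL3, hL4, -, -, hL7, -⟩ := hLAW
  have hmono : Monotone fun j : ℕ => (3 : ℝ) ^ j := fun i j hij =>
    pow_le_pow_right₀ (by norm_num) hij
  have hz : (0 : ℝ) ≤ (fun j : ℕ => (3 : ℝ) ^ j) 0 := by norm_num
  have hC := fun y : ZMod 3 × (Fin m → ZMod 3) =>
    hCAV h n m k π p e r f y.1 y.2 hN hh (fun j : ℕ => (3 : ℝ) ^ j) hmono hz
  have hB := fun y : ZMod 3 × (Fin m → ZMod 3) => hCBV h n m k π p e r f y.1 y.2 hN hh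
  -- the classes with `v = 0`
  have hdim : ∀ y : ZMod 3 × (Fin m → ZMod 3), (vN h n π p e r y.1 y.2 = 0 ∧
      ¬ (h = 0 ∧ wt ((n : ℤ) ^ 2) + y.1 = 0)) →
      vN h n π p e r y.1 y.2 = 0 ∧
        sN h n π p e r y.1 y.2 = k + if h = 1 then 1 else 0 := by
    rintro y ⟨h1, h2⟩
    have h3 := hNDIM h n m k π p e r y.1 y.2
    refine ⟨h1, ?_⟩
    rw [h1] at h3
    have hact : actR h n y.1 ↔ h = 2 := by
      unfold actR
      constructor
      · rintro (h4 | h4)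
        · exact h4
        · exact absurd h4 h2
      · exact fun h4 => Or.inl h4
    simp only [hact] at h3
    have hcase : h = 0 ∨ h = 1 ∨ h = 2 := by omega
    rcases hcase with rfl | rfl | rfl
    · simp at h3 ⊢
      omega
    · simp at h3 ⊢
      omega
    · simp at h3 ⊢
      omega
  -- the lower bound in a class
  have low : ∀ (t : ℕ) (R : ℤ → Prop),
      (∀ A : ℤ, A ≠ 0 → CubeRank.GenBy A (CubeRank.rr A) → CubeRank.rr A < t → R A) →
      ∀ d : ℝ, d ≤ 1 - LI ((k + if h = 1 then 1 else 0) + 1) t →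
      ∀ y : ZMod 3 × (Fin m → ZMod 3), (vN h n π p e r y.1 y.2 = 0 ∧
        ¬ (h = 0 ∧ wt ((n : ℤ) ^ 2) + y.1 = 0)) →
      BelowA ((3 ^ h * n : ℕ) : ℤ) 1 (Kl π y.1 y.2) (fun A => tf (R A)) (d / 3 ^ (m + 1)) := by
    intro t R hR d hdl y hy
    obtain ⟨h1, h2⟩ := hdim y hy
    have h3 := hB y t R hR
    rw [h1, h2, Nat.sub_zero] at h3
    exact (hSUMA _ 1 m π _).2.2.2 _ _ _ (div_le_div_of_nonneg_right hdl (by positivity)) h3
  have key : ∀ (t : ℕ) (R : ℤ → Prop),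
      (∀ A : ℤ, A ≠ 0 → CubeRank.GenBy A (CubeRank.rr A) → CubeRank.rr A < t → R A) →
      ∀ d : ℝ, 0 ≤ d → d ≤ 1 - LI ((k + if h = 1 then 1 else 0) + 1) t →
      BelowA ((3 ^ h * n : ℕ) : ℤ) 1 (fun _ => True) (fun A => tf (R A))
        (d * (2 / 3) ^ μ) := by
    intro t R hR d hd hdl
    by_cases h1' : h = 1
    · have hμ1 : μ = m := by rw [hμ, if_pos h1', add_zero]
      rw [hμ1]
      have hZ : 3 * 2 ^ m ≤ Nat.card {x : ZMod 3 × (Fin m → ZMod 3) //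
          vN h n π p e r x.1 x.2 = 0} := by
        have h5 := hNZE1 n m k π p e r f hN
        rw [h1']
        exact h5
      exact ALLQ.low hSUMA _ 1 m π _ (fun A => ALLA.tf_nn _) _ d hd
        (fun y hy => low t R hR d hdl y ⟨hy, fun h6 => by omega⟩) hZ
    · have hμ1 : μ = m + 1 := by rw [hμ, if_neg h1']
      rw [hμ1]
      exact ALLA.low hSUMA _ 1 m π _ (fun A => ALLA.tf_nn _) _ d hd
        (fun y hy => low t R hR d hdl y hy) (hNZER h n m k π p e r f hN)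
  refine ⟨?_, fun hk => ?_, fun hk => ?_⟩
  · by_cases h1' : h = 1
    · have hμ1 : μ = m := by rw [hμ, if_pos h1', add_zero]
      rw [hμ1]
      have hS : ∑ x : ZMod 3 × (Fin m → ZMod 3), 3 ^ vN h n π p e r x.1 x.2 ≤ 3 * 5 ^ m := by
        have h5 := hNSU1 n m k π p e r f hN
        rw [h1']
        exact h5
      exact ALLQ.up hSUMA _ 1 m π _ (fun y => vN h n π p e r y.1 y.2) _ 4 (by norm_num)
        (fun y => hC y) (fun y => hL7 _ _) hS
    · have hμ1 : μ = m + 1 := by rw [hμ, if_neg h1']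
      rw [hμ1]
      exact ALLA.up hSUMA _ 1 m π _ (fun y => vN h n π p e r y.1 y.2) _ 4 (by norm_num)
        (fun y => hC y) (fun y => hL7 _ _) (hNSUM h n m k π p e r f hN)
  · refine key 2 _ ALV.hone _ (by norm_num) ?_
    have := hL4 _ hk.add_one
    linarith
  · refine key 1 _ ALV.hsol _ (by norm_num) ?_
    have := hL3 _ hk.add_one
    linarith

end Pool.Agent.PTK
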