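import Pool.Agent.PTK.StK

/-! PTK_AV1 (helper13): the averages in a class, `q = 1 (mod 3)`. -/

set_option autoImplicit false

open Finset

namespace Pool.Agent.PTK

open Pool.Agent.Lib_helper18 Pool.Agent.Lib_helper18.Eis Pool.Agent.Lib_helper84.Cub
open Pool.Agent.PT Pool.Agent.PTE Pool.Agent.PT3 Pool.Agent.PTL Pool.Agent.PTN

namespace AV1

/-! ### scalar inequalities -/

lemma nat1 (w : ℕ) : (w : ℝ) ≤ 1 / 2 + 1 / 6 * 3 ^ w := by
  induction w with
  | zero => norm_num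
  | succ w ih =>
    rcases Nat.eq_zero_or_pos w with rfl | hw
    · norm_num
    · have h1 : (3 : ℝ) ≤ 3 ^ w := by
        calc (3 : ℝ) = 3 ^ 1 := by norm_num
          _ ≤ 3 ^ w := pow_le_pow_right₀ (by norm_num) hw
      rw [pow_succ]; push_cast; linarith

lemma nat2 (w : ℕ) : (w : ℝ) ≤ 3 / 2 + 1 / 18 * 3 ^ w := by
  induction w with
  | zero => norm_num
  | succ w ih =>
    rcases Nat.lt_or_ge w 2 with hw | hw
    · interval_cases w <;> norm_num
    · have h1 : (9 : ℝ) ≤ 3 ^ w := by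
        calc (9 : ℝ) = 3 ^ 2 := by norm_num
          _ ≤ 3 ^ w := pow_le_pow_right₀ (by norm_num) hw
      rw [pow_succ]; push_cast; linarith

/-- the sum of two bounds -/
lemma up_add {S : ℕ → Set ℕ} {G G' : ℕ → ℕ → ℝ} {x y : ℝ} (h1 : UpS S G x) (h2 : UpS S G' y) :
    UpS S (fun E q => G E q + G' E q) (x + y) := by
  obtain ⟨K, hK⟩ := h1
  obtain ⟨K', hK'⟩ := h2
  refine ⟨K + K', fun σ g1 g2 T => ?_⟩
  have a := add_le_add (hK σ g1 g2 T) (hK' σ g1 g2 T)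
  refine le_trans (le_of_eq ?_) (a.trans (le_of_eq (by ring)))
  rw [← Finset.sum_add_distrib]
  refine Finset.sum_congr rfl fun E _ => ?_
  rw [← Finset.sum_add_distrib]
  refine Finset.sum_congr rfl fun q _ => ?_
  split_ifs
  · ring
  · ring

lemma dN_cases (h n : ℕ) (w0 : ZMod 3) : dN h n w0 = 0 ∨ dN h n w0 = 1 ∨ dN h n w0 = 2 := by
  unfold dN
  split_ifs
  · exact Or.inl rfl
  · exact Or.inr (Or.inr rfl)
  · exact Or.inr (Or.inl rfl)

lemma alg1 (a b D L d x y : ℝ) (hx : x ≠ 0) (hy : y ≠ 0) :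
    ((x - 1) * (a * (2 / x / y) + b * ((3 + D) * (2 / x / y)) + L * (2 / x / y)) +
      2 * ((a + 1 + d) * (1 / x / y) + b * ((3 + D) * (1 / x / y)))) / 2 =
      (a + b * (3 + D) + ((1 - 1 / x) * L + (d + 1) / x)) / y := by
  field_simp
  ring

lemma alg2 (D x y : ℝ) (hx : x ≠ 0) (hy : y ≠ 0) :
    ((x - 1) * ((3 + D) * (4 * (2 / x / y))) + (2 * (3 * x)) * ((3 + D) * (1 / x / y))) / 2 =
      (7 - 4 / x) * (3 + D) / y := by
  field_simp
  ring

/-- the number of the patterns -/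
lemma card_pat (d : ℕ) : ((Fintype.card {δ : Fin d → ZMod 3 // δ ≠ 0} : ℕ) : ℝ) = 3 ^ d - 1 := by
  have h1 : Fintype.card {δ : Fin d → ZMod 3 // δ ≠ 0} = 3 ^ d - 1 := by
    rw [Fintype.card_subtype_compl, Fintype.card_subtype_eq, Fintype.card_fun, ZMod.card,
      Fintype.card_fin]
  rw [h1, Nat.cast_sub (Nat.one_le_pow _ _ (by norm_num))]
  push_cast
  ring

open Classical in
/-- The general bound. `N` is the number of the classes of points, `κ δ` the coranks, `R` the rank. -/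
theorem gen (hUPS : Stmt_UPS) {d : ℕ} (S : ℕ → Set ℕ)
    (TP : {δ : Fin d → ZMod 3 // δ ≠ 0} → ℕ → Set ℕ) (TZ : ℕ → Set ℕ)
    (R N : ℕ → ℕ → ℕ) (κ : {δ : Fin d → ZMod 3 // δ ≠ 0} → ℕ → ℕ → ℕ) (M : ℕ)
    (hN : ∀ E q, (E = 1 ∨ E = 2) → q.Prime → M < q → q ∈ S E → ∃ w, N E q = 3 ^ w ∧
      ((q ∈ TZ E ∧ R E q ≤ w + 1 + d) ∨ ∃ δ δ' : {δ : Fin d → ZMod 3 // δ ≠ 0}, δ ≠ δ' ∧
        q ∈ TP δ E ∧ q ∈ TP δ' E ∧ R E q ≤ w + κ δ E q ∧ R E q ≤ w + κ δ' E q))
    (F : ℕ → ℝ) (hF : Monotone F) (φ : ℕ → ℕ → ℝ) (ψ : ℕ → ℝ) (hφ : ∀ a b, 0 ≤ φ a b)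
    (hψ : ∀ a, 0 ≤ ψ a) (h1 : ∀ w a, F (w + a) ≤ φ (3 ^ w) a)
    (h2 : ∀ w, 2 * F (w + 1 + d) ≤ ψ (3 ^ w)) {x y : ℝ}
    (hx : ∀ δ : {δ : Fin d → ZMod 3 // δ ≠ 0},
      UpS (TP δ) (fun E q => φ (N E q) (κ δ E q)) x)
    (hy : UpS TZ (fun E q => ψ (N E q)) y) :
    UpS S (fun E q => F (R E q)) (((3 ^ d - 1) * x + y) / 2) := by
  have key := hUPS.1 (Option {δ : Fin d → ZMod 3 // δ ≠ 0}) S (fun E q => F (R E q))
    (fun i => Option.rec TZ TP i)
    (fun i => Option.rec (fun E q => ψ (N E q)) (fun δ E q => φ (N E q) (κ δ E q)) i)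
    (fun i => Option.rec y (fun _ => x) i) 2 M (by norm_num) ?_ ?_ ?_
  · have e : ∑ i : Option {δ : Fin d → ZMod 3 // δ ≠ 0},
        (Option.rec y (fun _ => x) i : ℝ) = (3 ^ d - 1) * x + y := by
      rw [Fintype.sum_option]
      simp only [Finset.sum_const, Finset.card_univ, nsmul_eq_mul]
      rw [card_pat, add_comm]
    rw [e] at key
    exact key
  · intro i E q
    cases i with
    | none => exact hψ _
    | some δ => exact hφ _ _
  · intro E q hE hq hM hS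
    rw [Fintype.sum_option]
    obtain ⟨w, hw, h | ⟨δ, δ', hne, hP, hP', hR, hR'⟩⟩ := hN E q hE hq hM hS
    · have a1 : 2 * F (R E q) ≤ ψ (N E q) := by
        rw [hw]
        refine le_trans ?_ (h2 w)
        have := hF h.2
        linarith
      have a2 : 0 ≤ ∑ i : {δ : Fin d → ZMod 3 // δ ≠ 0},
          (if q ∈ TP i E then φ (N E q) (κ i E q) else 0) := by
        refine Finset.sum_nonneg fun i _ => ?_
        split_ifs
        · exact hφ _ _
        · exact le_rfl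
      have a3 : (if q ∈ TZ E then ψ (N E q) else 0) = ψ (N E q) := if_pos h.1
      show 2 * F (R E q) ≤ (if q ∈ TZ E then ψ (N E q) else 0) +
        ∑ i : {δ : Fin d → ZMod 3 // δ ≠ 0}, (if q ∈ TP i E then φ (N E q) (κ i E q) else 0)
      rw [a3]
      linarith
    · have a3 : 0 ≤ (if q ∈ TZ E then ψ (N E q) else 0) := by
        split_ifs
        · exact hψ _
        · exact le_rfl
      have a4 : ∑ i ∈ ({δ, δ'} : Finset {δ : Fin d → ZMod 3 // δ ≠ 0}),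
          (if q ∈ TP i E then φ (N E q) (κ i E q) else 0) ≤
          ∑ i : {δ : Fin d → ZMod 3 // δ ≠ 0},
          (if q ∈ TP i E then φ (N E q) (κ i E q) else 0) := by
        refine Finset.sum_le_sum_of_subset_of_nonneg (Finset.subset_univ _) fun i _ _ => ?_
        split_ifs
        · exact hφ _ _
        · exact le_rfl
      rw [Finset.sum_pair hne] at a4
      have a5 : (if q ∈ TP δ E then φ (N E q) (κ δ E q) else 0) =
          φ (N E q) (κ δ E q) := if_pos hP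
      have a6 : (if q ∈ TP δ' E then φ (N E q) (κ δ' E q) else 0) =
          φ (N E q) (κ δ' E q) := if_pos hP'
      rw [a5, a6] at a4
      have b1 := (hF hR).trans (h1 w (κ δ E q))
      have b2 := (hF hR').trans (h1 w (κ δ' E q))
      rw [← hw] at b1 b2
      show 2 * F (R E q) ≤ (if q ∈ TZ E then ψ (N E q) else 0) +
        ∑ i : {δ : Fin d → ZMod 3 // δ ≠ 0}, (if q ∈ TP i E then φ (N E q) (κ i E q) else 0)
      linarith
  · intro i
    cases i with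
    | none => exact hy
    | some δ => exact hx δ

end AV1

open AV1 in
theorem AV1_thm (hUPS : Stmt_UPS) (hUPA : Stmt_UPA) (hLAM : Stmt_LAM) (hNHPT : Stmt_NHPT)
    (hPLU : Stmt_PLU) (hNBU : Stmt_NBU) (hNBZ : Stmt_NBZ) (hWGU : Stmt_WGU) (hPAT : Stmt_PAT)
    (hAVG : Stmt_AVG) (hAVZ : Stmt_AVZ) (hSPLT : SPLT) : Stmt_AV1 := by
  intro h n m k π p e r f w0 c hN hh
  obtain ⟨d, v, hd, hHB⟩ := hNHPT h n m k π p e r f w0 c hN hh
  have hHB' : HB h n π w0 c v := hHB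
  have hn : 0 < n := by
    rw [hN.eq]
    refine Nat.mul_pos (Finset.prod_pos fun i _ => pow_pos (hN.pp i).pos _)
      (Finset.prod_pos fun j _ => pow_pos (hN.rp j).pos _)
  choose s τ b X Y P Q P' Q' hPl using fun δ : {δ : Fin d → ZMod 3 // δ ≠ 0} =>
    hPLU h n m k π p e r f w0 c d v hN hh hHB' δ.1 δ.2
  obtain ⟨M, hM⟩ := hPAT d v (fun i => (hHB.1 i).1.ne)
  set S : ℕ → Set ℕ := fun E => {q | q % 3 = 1 ∧ InCT E π w0 c q} with hS
  set κ : {δ : Fin d → ZMod 3 // δ ≠ 0} → ℕ → ℕ → ℕ := fun δ E q =>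
    kU h n (b δ) (X δ) (Y δ) (P δ) (Q δ) (P' δ) (Q' δ) E q with hκ
  set N : ℕ → ℕ → ℕ := fun E q => Nat.card (WqS h n π p e r w0 c (BB h n E q)) with hNdef
  set R : ℕ → ℕ → ℕ := fun E q => CubeRank.rr (BB h n E q) with hR
  set TP : {δ : Fin d → ZMod 3 // δ ≠ 0} → ℕ → Set ℕ := fun δ E =>
    {q | q % 3 = 1 ∧ InCT E π w0 c q ∧ q ∈ Pat v δ.1} with hTP
  set TZ : ℕ → Set ℕ := fun E => {q | q % 3 = 1 ∧ InCT E π w0 c q ∧ q ∈ ZP v} with hTZ
  have main : ∀ E q, (E = 1 ∨ E = 2) → q.Prime → M + n + 3 < q → q ∈ S E → ∃ w, N E q = 3 ^ w ∧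
      ((q ∈ TZ E ∧ R E q ≤ w + 1 + d) ∨ ∃ δ δ' : {δ : Fin d → ZMod 3 // δ ≠ 0}, δ ≠ δ' ∧
        q ∈ TP δ E ∧ q ∈ TP δ' E ∧ R E q ≤ w + κ δ E q ∧ R E q ≤ w + κ δ' E q) := by
    intro E q hE hq hMq hqS
    have hqn : ¬ q ∣ n := fun hdvd => by
      have := Nat.le_of_dvd hn hdvd
      omega
    obtain ⟨ρ, hρ⟩ := hSPLT.1 q hq hqS.1
    obtain ⟨w, hw⟩ := (hWGU h n m k π p e r f w0 c E q ρ hN hh hE hq (by omega) hqS.1 hqS.2 hqn
      hρ).1
    refine ⟨w, hw, ?_⟩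
    rcases hM q hq (by omega) hqS.1 with hZ | ⟨δ, δ', hδ, hδ', hne, hP, hP'⟩
    · left
      refine ⟨⟨hqS.1, hqS.2, hZ⟩, ?_⟩
      have g := hNBZ h n m k π p e r f w0 c E q hN hh hE hq (by omega) hqS.1 hqS.2 hqn
      rw [hw, Nat.log_pow (by norm_num), ← hd] at g
      exact CubeRank.rr_le g
    · right
      refine ⟨⟨δ, hδ⟩, ⟨δ', hδ'⟩, fun hh => hne (congrArg Subtype.val hh), ⟨hqS.1, hqS.2, hP⟩,
        ⟨hqS.1, hqS.2, hP'⟩, ?_, ?_⟩
      · have g := hNBU h n m k π p e r f w0 c d v δ _ _ _ _ _ _ _ _ _ E q hN hh hδ (hPl ⟨δ, hδ⟩)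
          hE hq (by omega) hqS.1 hqS.2 hqn hP
        rw [hw, Nat.log_pow (by norm_num)] at g
        exact CubeRank.rr_le g
      · have g := hNBU h n m k π p e r f w0 c d v δ' _ _ _ _ _ _ _ _ _ E q hN hh hδ'
          (hPl ⟨δ', hδ'⟩) hE hq (by omega) hqS.1 hqS.2 hqn hP'
        rw [hw, Nat.log_pow (by norm_num)] at g
        exact CubeRank.rr_le g
  -- the averages for the patterns
  have hA := fun δ : {δ : Fin d → ZMod 3 // δ ≠ 0} =>
    hAVG h n m k π p e r f w0 c d v δ.1 _ _ _ _ _ _ _ _ _ hN hh δ.2 (hPl δ)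
  have hZ := hAVZ h n m k π p e r f w0 c d v hN hh hHB' hd
  set D := dN h n w0 with hD
  have h3d : (0 : ℝ) < 3 ^ d := by positivity
  have h3m : (0 : ℝ) < 3 ^ (m + 1) := by positivity
  have h3D : (0 : ℝ) < 3 ^ D := by positivity
  constructor
  · -- the rank
    have rank : ∀ α β z : ℝ, 0 ≤ α → 0 ≤ β → (∀ w : ℕ, (w : ℝ) ≤ α + β * 3 ^ w) →
        α + β * (3 + 3 ^ D) + 11 / 9 ≤ z → UpS S (fun E q => (R E q : ℝ)) (z / 3 ^ (m + 1)) := by
      intro α β z hα hβ hw hz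
      have g := gen hUPS S TP TZ R N κ (M + n + 3) main (fun a => (a : ℝ)) Nat.mono_cast
        (fun a b => α * 1 + β * (a : ℝ) + (b : ℝ))
        (fun a => 2 * ((α + 1 + d) * 1 + β * (a : ℝ)))
        (fun a b => by positivity) (fun a => by positivity)
        (fun w a => by
          have := hw w
          push_cast
          linarith)
        (fun w => by
          have := hw w
          push_cast
          linarith)
        (x := α * (2 / 3 ^ d / 3 ^ (m + 1)) + β * ((3 + 3 ^ D) * (2 / 3 ^ d / 3 ^ (m + 1))) +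
          Esk (d - 1) (fun c => (c : ℝ)) * (2 / 3 ^ d / 3 ^ (m + 1)))
        (y := 2 * ((α + 1 + d) * (1 / 3 ^ d / 3 ^ (m + 1)) +
          β * ((3 + 3 ^ D) * (1 / 3 ^ d / 3 ^ (m + 1)))))
        (fun δ => by
          exact up_add (up_add (hUPS.2.2 _ _ _ α hα (hA δ).2.2.2)
            (hUPS.2.2 _ _ _ β hβ (hA δ).2.1)) (hA δ).2.2.1)
        (by
          exact hUPS.2.2 _ _ _ 2 (by norm_num)
            (up_add (hUPS.2.2 _ _ _ (α + 1 + d) (by positivity) hZ.2)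
              (hUPS.2.2 _ _ _ β hβ hZ.1)))
      refine hUPS.2.1 _ _ _ _ ?_ g
      have hL := hLAM.2 d
      have e1 := alg1 α β (3 ^ D) (Esk (d - 1) (fun c => (c : ℝ))) d (3 ^ d) (3 ^ (m + 1))
        h3d.ne' h3m.ne'
      rw [e1]
      refine div_le_div_of_nonneg_right ?_ h3m.le
      linarith
    refine hUPA h n m k π p e r f w0 c 1 (fun A => (CubeRank.rr A : ℝ)) _ hN ?_
    show UpS S (fun E q => (R E q : ℝ)) (cQ D / 3 ^ (m + 1))
    rcases dN_cases h n w0 with hD0 | hD1 | hD2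
    · rw [← hD] at hD0
      refine rank (1 / 2) (1 / 6) _ (by norm_num) (by norm_num) nat1 ?_
      rw [cQ, if_pos hD0, hD0]
      norm_num
    · rw [← hD] at hD1
      refine rank (1 / 2) (1 / 6) _ (by norm_num) (by norm_num) nat1 ?_
      rw [cQ, if_neg (by omega), if_pos hD1, hD1]
      norm_num
    · rw [← hD] at hD2
      refine rank (3 / 2) (1 / 18) _ (by norm_num) (by norm_num) nat2 ?_
      rw [cQ, if_neg (by omega), if_neg (by omega), hD2]
      norm_num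
  · -- the powers
    refine hUPA h n m k π p e r f w0 c 1 (fun A => 3 ^ CubeRank.rr A) _ hN ?_
    show UpS S (fun E q => (3 : ℝ) ^ (R E q)) (7 * (3 + 3 ^ D) / 3 ^ (m + 1))
    have g := gen hUPS S TP TZ R N κ (M + n + 3) main (fun a => (3 : ℝ) ^ a)
      (fun a b hab => pow_le_pow_right₀ (by norm_num) hab)
      (fun a b => (a : ℝ) * 3 ^ b)
      (fun a => (2 * (3 * 3 ^ d)) * (a : ℝ))
      (fun a b => by positivity) (fun a => by positivity)
      (fun w a => by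
        push_cast
        rw [pow_add])
      (fun w => by
        push_cast
        rw [pow_add, pow_add, pow_one]
        linarith)
      (x := (3 + 3 ^ D) * (4 * (2 / 3 ^ d / 3 ^ (m + 1))))
      (y := (2 * (3 * 3 ^ d)) * ((3 + 3 ^ D) * (1 / 3 ^ d / 3 ^ (m + 1))))
      (fun δ => by
        exact (hA δ).1)
      (by
        exact hUPS.2.2 _ _ _ (2 * (3 * 3 ^ d)) (by positivity) hZ.1)
    refine hUPS.2.1 _ _ _ _ ?_ g
    have e1 := alg2 (3 ^ D) (3 ^ d) (3 ^ (m + 1)) h3d.ne' h3m.ne'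
    rw [e1]
    refine div_le_div_of_nonneg_right ?_ h3m.le
    refine mul_le_mul_of_nonneg_right ?_ (by positivity)
    have : (0 : ℝ) ≤ 4 / 3 ^ d := by positivity
    linarith

end Pool.Agent.PTK
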