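import Pool.Agent.PTK.StK

/-!
# PTK_KUP: from tails to averages
-/

set_option autoImplicit false

namespace Pool.Agent.PTK

open Pool.Agent.PT Pool.Agent.PTL Pool.Agent.PTN

namespace KUP

theorem log_nn {σ : ℝ} (h1 : 1 < σ) (h2 : σ ≤ 2) : 0 ≤ Real.log (1 / (σ - 1)) := by
  apply Real.log_nonneg
  rw [le_div_iff₀ (by linarith)]
  linarith

theorem Esk_one (s : ℕ) : Esk s (fun _ => (1 : ℝ)) = 1 := by
  unfold Esk
  have hf : Finite {M : Matrix (Fin s) (Fin s) (ZMod 3) // M.transpose = -M} := inferInstance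
  haveI := Fintype.ofFinite {M : Matrix (Fin s) (Fin s) (ZMod 3) // M.transpose = -M}
  haveI : Nonempty {M : Matrix (Fin s) (Fin s) (ZMod 3) // M.transpose = -M} :=
    ⟨⟨0, by simp⟩⟩
  rw [finsum_eq_sum_of_fintype]
  simp only [Finset.sum_const, Finset.card_univ, Nat.card_eq_fintype_card, nsmul_eq_mul, mul_one]
  have : (Fintype.card {M : Matrix (Fin s) (Fin s) (ZMod 3) // M.transpose = -M} : ℝ) ≠ 0 := by
    exact_mod_cast Fintype.card_ne_zero
  exact div_self this

end KUP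

open KUP in
theorem KUP_thm (hDOMG : Stmt_DOMG) (hLAW : Stmt_LAW) : Stmt_KUP := by
  intro S R s M x hx hR hT
  have key : ∀ F : ℕ → ℝ, Monotone F → 0 ≤ F 0 →
      UpS S (fun E q => F (R E q)) (Esk s (fun c => F c) * x) := by
    intro F hF h0
    obtain ⟨K, hK⟩ := hDOMG S R (fun t => x * LI s t) M s F hR hT hF h0
    refine ⟨K, fun σ h1 h2 T => ?_⟩
    refine (hK σ h1 h2 T).trans (le_of_eq ?_)
    have e := hLAW.1 s 0 F
    simp only [Nat.sub_zero, zero_add] at e
    rw [← e]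
    have : F 0 * (x * LI s 0) + ∑ t ∈ Finset.range s, (F (t + 1) - F t) * (x * LI s (t + 1)) =
        (F 0 * LI s 0 + ∑ t ∈ Finset.range s, (F (t + 1) - F t) * LI s (t + 1)) * x := by
      rw [add_mul, Finset.sum_mul]
      congr 1
      · ring
      · exact Finset.sum_congr rfl fun t _ => by ring
    rw [this]
  refine ⟨?_, ?_, ?_⟩
  · obtain ⟨K, hK⟩ := key (fun c => (3 : ℝ) ^ c)
      (fun a b h => pow_le_pow_right₀ (by norm_num) h) (by norm_num)
    refine ⟨K, fun σ h1 h2 T => (hK σ h1 h2 T).trans ?_⟩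
    have h4 := hLAW.2.2.2.2.2.2.1 s 0
    simp only [zero_add, pow_zero, mul_one] at h4
    have := mul_le_mul_of_nonneg_right (mul_le_mul_of_nonneg_right h4 hx) (log_nn h1 h2)
    linarith
  · exact key (fun c => (c : ℝ)) (fun a b h => by show (a : ℝ) ≤ (b : ℝ); exact_mod_cast h) (by simp)
  · have := key (fun _ => (1 : ℝ)) monotone_const zero_le_one
    rwa [Esk_one, one_mul] at this

end Pool.Agent.PTK
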