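import Pool.Agent.PTK.StW
import Pool.Agent.PTK.AV1
import Pool.Agent.PTK.KUP

/-!
# PTK_AM1: the averages in a class, `q = 1 (mod 3)`, all moments
-/

set_option autoImplicit false

open Finset

namespace Pool.Agent.PTK

open Pool.Agent.Lib_helper18 Pool.Agent.Lib_helper18.Eis Pool.Agent.Lib_helper84.Cub
open Pool.Agent.PT Pool.Agent.PTE Pool.Agent.PT3 Pool.Agent.PTL Pool.Agent.PTN

namespace AM1

open AV1 in
open Classical in
/-- The general bound. `N` is the number of the classes of points, `κ δ` and `κ₀` the coranks, `R` the rank. -/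
theorem gen (hUPS : Stmt_UPS) {d : ℕ} (S : ℕ → Set ℕ)
    (TP : {δ : Fin d → ZMod 3 // δ ≠ 0} → ℕ → Set ℕ) (TZ : ℕ → Set ℕ)
    (R N : ℕ → ℕ → ℕ) (κ : {δ : Fin d → ZMod 3 // δ ≠ 0} → ℕ → ℕ → ℕ) (κ₀ : ℕ → ℕ → ℕ) (M : ℕ)
    (hN : ∀ E q, (E = 1 ∨ E = 2) → q.Prime → M < q → q ∈ S E → ∃ w, N E q = 3 ^ w ∧
      ((q ∈ TZ E ∧ R E q ≤ w + (κ₀ E q + 1)) ∨ ∃ δ δ' : {δ : Fin d → ZMod 3 // δ ≠ 0}, δ ≠ δ' ∧
        q ∈ TP δ E ∧ q ∈ TP δ' E ∧ R E q ≤ w + κ δ E q ∧ R E q ≤ w + κ δ' E q))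
    (F : ℕ → ℝ) (hF : Monotone F) (φ : ℕ → ℕ → ℝ) (hφ : ∀ a b, 0 ≤ φ a b)
    (h1 : ∀ w a, F (w + a) ≤ φ (3 ^ w) a) {x y : ℝ}
    (hx : ∀ δ : {δ : Fin d → ZMod 3 // δ ≠ 0},
      UpS (TP δ) (fun E q => φ (N E q) (κ δ E q)) x)
    (hy : UpS TZ (fun E q => φ (N E q) (κ₀ E q + 1)) y) :
    UpS S (fun E q => F (R E q)) (((3 ^ d - 1) * x + 2 * y) / 2) := by
  have hy2 := hUPS.2.2 _ _ _ 2 (by norm_num) hy
  have key := hUPS.1 (Option {δ : Fin d → ZMod 3 // δ ≠ 0}) S (fun E q => F (R E q))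
    (fun i => Option.rec TZ TP i)
    (fun i => Option.rec (fun E q => 2 * φ (N E q) (κ₀ E q + 1))
      (fun δ E q => φ (N E q) (κ δ E q)) i)
    (fun i => Option.rec (2 * y) (fun _ => x) i) 2 M (by norm_num) ?_ ?_ ?_
  · have e : ∑ i : Option {δ : Fin d → ZMod 3 // δ ≠ 0},
        (Option.rec (2 * y) (fun _ => x) i : ℝ) = (3 ^ d - 1) * x + 2 * y := by
      rw [Fintype.sum_option]
      simp only [Finset.sum_const, Finset.card_univ, nsmul_eq_mul]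
      rw [card_pat, add_comm]
    rw [e] at key
    exact key
  · intro i E q
    cases i with
    | none => exact mul_nonneg (by norm_num) (hφ _ _)
    | some δ => exact hφ _ _
  · intro E q hE hq hM hS
    rw [Fintype.sum_option]
    obtain ⟨w, hw, h | ⟨δ, δ', hne, hP, hP', hR, hR'⟩⟩ := hN E q hE hq hM hS
    · have a1 : F (R E q) ≤ φ (N E q) (κ₀ E q + 1) := by
        rw [hw]
        exact (hF h.2).trans (h1 w _)
      have a2 : 0 ≤ ∑ i : {δ : Fin d → ZMod 3 // δ ≠ 0},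
          (if q ∈ TP i E then φ (N E q) (κ i E q) else 0) := by
        refine Finset.sum_nonneg fun i _ => ?_
        split_ifs
        · exact hφ _ _
        · exact le_rfl
      have a3 : (if q ∈ TZ E then 2 * φ (N E q) (κ₀ E q + 1) else 0) =
        2 * φ (N E q) (κ₀ E q + 1) := if_pos h.1
      show 2 * F (R E q) ≤ (if q ∈ TZ E then 2 * φ (N E q) (κ₀ E q + 1) else 0) +
        ∑ i : {δ : Fin d → ZMod 3 // δ ≠ 0}, (if q ∈ TP i E then φ (N E q) (κ i E q) else 0)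
      rw [a3]
      linarith
    · have a3 : 0 ≤ (if q ∈ TZ E then 2 * φ (N E q) (κ₀ E q + 1) else 0) := by
        split_ifs
        · exact mul_nonneg (by norm_num) (hφ _ _)
        · exact le_rfl
      have a4 : ∑ i ∈ ({δ, δ'} : Finset {δ : Fin d → ZMod 3 // δ ≠ 0}),
          (if q ∈ TP i E then φ (N E q) (κ i E q) else 0) ≤
          ∑ i : {δ : Fin d → ZMod 3 // δ ≠ 0},
          (if q ∈ TP i E then φ (N E q) (κ i E q) else 0) := by
        refine Finset.sum_le_sum_of_subset_of_nonneg (Finset.subset_univ _) fun i _ _ => ?_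
        split_ifs
        · exact hφ _ _
        · exact le_rfl
      rw [Finset.sum_pair hne] at a4
      have a5 : (if q ∈ TP δ E then φ (N E q) (κ δ E q) else 0) =
          φ (N E q) (κ δ E q) := if_pos hP
      have a6 : (if q ∈ TP δ' E then φ (N E q) (κ δ' E q) else 0) =
          φ (N E q) (κ δ' E q) := if_pos hP'
      rw [a5, a6] at a4
      have b1 := (hF hR).trans (h1 w (κ δ E q))
      have b2 := (hF hR').trans (h1 w (κ δ' E q))
      rw [← hw] at b1 b2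
      show 2 * F (R E q) ≤ (if q ∈ TZ E then 2 * φ (N E q) (κ₀ E q + 1) else 0) +
        ∑ i : {δ : Fin d → ZMod 3 // δ ≠ 0}, (if q ∈ TP i E then φ (N E q) (κ i E q) else 0)
      linarith
  · intro i
    cases i with
    | none => exact hy2
    | some δ => exact hx δ

lemma alg1 (a b G e1 e2 x y : ℝ) (hx : x ≠ 0) (hy : y ≠ 0) :
    ((x - 1) * (a * (1 * (1 * (2 / x / y))) + b * (G * (1 * (2 / x / y))) +
        1 * (e1 * (2 / x / y))) +
      2 * (a * (1 * (1 * (1 / x / y))) + b * (G * (1 * (1 / x / y))) +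
        1 * (e2 * (1 / x / y)))) / 2 =
      (a + b * G + ((1 - 1 / x) * e1 + 1 / x * e2)) / y := by
  field_simp
  ring

lemma alg2 (g e1 e2 x y : ℝ) (hx : x ≠ 0) (hy : y ≠ 0) :
    ((x - 1) * (g * (e1 * (2 / x / y))) + 2 * (g * (e2 * (1 / x / y)))) / 2 =
      g * ((1 - 1 / x) * e1 + 1 / x * e2) / y := by
  field_simp

/-- the bound for the moments of the number of the classes -/
lemma gM_le (hGMB : Stmt_GMB) (k j D : ℕ) (hj : j ≤ D) (hD : D ≤ 2) : gM k j ≤ cM k D := by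
  obtain ⟨g0, g1, g2, -, -, -, -, -⟩ := hGMB
  unfold cM
  split_ifs with h
  · have h3 : j = 0 ∨ j = 1 := by omega
    rcases h3 with rfl | rfl
    · rw [g0]
    · rw [g1]
  · have h3 : j = 0 ∨ j = 1 ∨ j = 2 := by omega
    rcases h3 with rfl | rfl | rfl
    · rw [g0]
      exact g2 k
    · rw [g1]
      exact g2 k
    · exact le_rfl

end AM1

open AM1 AV1 in
theorem AM1_thm (hUPS : Stmt_UPS) (hUPA : Stmt_UPA) (hLAM : Stmt_LAM) (hNHPT : Stmt_NHPT)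
    (hPLU : Stmt_PLU) (hPLE : Stmt_PLE) (hNBU : Stmt_NBU) (hNBX : Stmt_NBX) (hWGU : Stmt_WGU)
    (hPAT : Stmt_PAT) (hZPV : Stmt_ZPV) (hJPG : Stmt_JPG) (hJPZ : Stmt_JPZ) (hVDIM : Stmt_VDIM)
    (hGMB : Stmt_GMB) (hESZ : Stmt_ESZ) (hESB : Stmt_ESB) (hSPLT : SPLT) : Stmt_AM1 := by
  intro h n m k π p e r f w0 c hN hh
  obtain ⟨d, v, hd, hHB⟩ := hNHPT h n m k π p e r f w0 c hN hh
  have hHB' : HB h n π w0 c v := hHB
  have hn : 0 < n := by
    rw [hN.eq]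
    refine Nat.mul_pos (Finset.prod_pos fun i _ => pow_pos (hN.pp i).pos _)
      (Finset.prod_pos fun j _ => pow_pos (hN.rp j).pos _)
  choose s τ b X Y P Q P' Q' hPl using fun δ : {δ : Fin d → ZMod 3 // δ ≠ 0} =>
    hPLU h n m k π p e r f w0 c d v hN hh hHB' δ.1 δ.2
  obtain ⟨s₀, τ₀, b₀, X₀, Y₀, P₀, Q₀, P₀', Q₀', hs₀, hPl₀⟩ := hPLE h n m k π p e r f w0 c hN hh
  have hsd : s₀ = d := hs₀.trans hd.symm
  subst hsd
  obtain ⟨M, hM⟩ := hPAT s₀ v (fun i => (hHB.1 i).1.ne)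
  obtain ⟨M₁, hM₁⟩ := hZPV h n m k π p e r f w0 c s₀ τ₀ b₀ X₀ Y₀ P₀ Q₀ P₀' Q₀' s₀ v hN hh hPl₀ hHB'
  set S : ℕ → Set ℕ := fun E => {q | q % 3 = 1 ∧ InCT E π w0 c q} with hS
  set κ : {δ : Fin s₀ → ZMod 3 // δ ≠ 0} → ℕ → ℕ → ℕ := fun δ E q =>
    kU h n (b δ) (X δ) (Y δ) (P δ) (Q δ) (P' δ) (Q' δ) E q with hκ
  set κ₀ : ℕ → ℕ → ℕ := fun E q => kS h n b₀ X₀ Y₀ P₀ Q₀ P₀' Q₀' E q with hκ₀
  set N : ℕ → ℕ → ℕ := fun E q => Nat.card (WqS h n π p e r w0 c (BB h n E q)) with hNdef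
  set R : ℕ → ℕ → ℕ := fun E q => CubeRank.rr (BB h n E q) with hR
  set TP : {δ : Fin s₀ → ZMod 3 // δ ≠ 0} → ℕ → Set ℕ := fun δ E =>
    {q | q % 3 = 1 ∧ InCT E π w0 c q ∧ q ∈ Pat v δ.1} with hTP
  set TZ : ℕ → Set ℕ := fun E => {q | q % 3 = 1 ∧ InCT E π w0 c q ∧ q ∈ ZP b₀} with hTZ
  have main : ∀ E q, (E = 1 ∨ E = 2) → q.Prime → M + M₁ + n + 3 < q → q ∈ S E →
      ∃ w, N E q = 3 ^ w ∧ ((q ∈ TZ E ∧ R E q ≤ w + (κ₀ E q + 1)) ∨
        ∃ δ δ' : {δ : Fin s₀ → ZMod 3 // δ ≠ 0}, δ ≠ δ' ∧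
        q ∈ TP δ E ∧ q ∈ TP δ' E ∧ R E q ≤ w + κ δ E q ∧ R E q ≤ w + κ δ' E q) := by
    intro E q hE hq hMq hqS
    have hqn : ¬ q ∣ n := fun hdvd => by
      have := Nat.le_of_dvd hn hdvd
      omega
    obtain ⟨ρ, hρ⟩ := hSPLT.1 q hq hqS.1
    obtain ⟨w, hw⟩ := (hWGU h n m k π p e r f w0 c E q ρ hN hh hE hq (by omega) hqS.1 hqS.2 hqn
      hρ).1
    refine ⟨w, hw, ?_⟩
    rcases hM q hq (by omega) hqS.1 with hZ | ⟨δ, δ', hδ, hδ', hne, hP, hP'⟩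
    · left
      have hZ' : q ∈ ZP b₀ := hM₁ q hq (by omega) hZ
      refine ⟨⟨hqS.1, hqS.2, hZ'⟩, ?_⟩
      have g := hNBX h n m k π p e r f w0 c s₀ τ₀ b₀ X₀ Y₀ P₀ Q₀ P₀' Q₀' E q hN hh hPl₀ hE hq
        (by omega) hqS.1 hqS.2 hqn hZ'
      rw [hw, Nat.log_pow (by norm_num)] at g
      have g2 := CubeRank.rr_le g
      show CubeRank.rr (BB h n E q) ≤ w + (kS h n b₀ X₀ Y₀ P₀ Q₀ P₀' Q₀' E q + 1)
      omega
    · right
      refine ⟨⟨δ, hδ⟩, ⟨δ', hδ'⟩, fun hh => hne (congrArg Subtype.val hh), ⟨hqS.1, hqS.2, hP⟩,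
        ⟨hqS.1, hqS.2, hP'⟩, ?_, ?_⟩
      · have g := hNBU h n m k π p e r f w0 c s₀ v δ _ _ _ _ _ _ _ _ _ E q hN hh hδ (hPl ⟨δ, hδ⟩)
          hE hq (by omega) hqS.1 hqS.2 hqn hP
        rw [hw, Nat.log_pow (by norm_num)] at g
        exact CubeRank.rr_le g
      · have g := hNBU h n m k π p e r f w0 c s₀ v δ' _ _ _ _ _ _ _ _ _ E q hN hh hδ'
          (hPl ⟨δ', hδ'⟩) hE hq (by omega) hqS.1 hqS.2 hqn hP'
        rw [hw, Nat.log_pow (by norm_num)] at g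
        exact CubeRank.rr_le g
  -- the averages for the patterns
  have hA := fun δ : {δ : Fin s₀ → ZMod 3 // δ ≠ 0} =>
    hJPG h n m k π p e r f w0 c s₀ v δ.1 _ _ _ _ _ _ _ _ _ hN hh δ.2 (hPl δ)
  have hZ := hJPZ h n m k π p e r f w0 c s₀ τ₀ b₀ X₀ Y₀ P₀ Q₀ P₀' Q₀' hN hh hPl₀
  set D := dN h n w0 with hD
  set j := vN h n π p e r w0 c - v0N h n π p e r w0 c with hj
  have hjD : j ≤ D := by
    have := hVDIM h n m k π p e r w0 c hh
    omega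
  have hDc := dN_cases h n w0
  rw [← hD] at hDc
  have hD2 : D ≤ 2 := by omega
  have h3d : (0 : ℝ) < 3 ^ s₀ := by positivity
  have h3m : (0 : ℝ) < 3 ^ (m + 1) := by positivity
  have hmo : Monotone fun _ : ℕ => (1 : ℝ) := fun _ _ _ => le_rfl
  have hmid : Monotone fun c : ℕ => (c : ℝ) := Nat.mono_cast
  have hmid1 : Monotone fun c : ℕ => ((c + 1 : ℕ) : ℝ) := fun a b hab => by
    show ((a + 1 : ℕ) : ℝ) ≤ ((b + 1 : ℕ) : ℝ)
    exact_mod_cast Nat.succ_le_succ hab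
  constructor
  · -- the rank
    have rank : ∀ α β z : ℝ, 0 ≤ α → 0 ≤ β → (∀ w : ℕ, (w : ℝ) ≤ α + β * 3 ^ w) →
        α + β * gM 1 j + 13 / 12 ≤ z → UpS S (fun E q => (R E q : ℝ)) (z / 3 ^ (m + 1)) := by
      intro α β z hα hβ hw hz
      have g := gen hUPS S TP TZ R N κ κ₀ (M + M₁ + n + 3) main (fun a => (a : ℝ)) Nat.mono_cast
        (fun a b => α * ((a : ℝ) ^ 0 * 1) + β * ((a : ℝ) ^ 1 * 1) + 1 * ((a : ℝ) ^ 0 * (b : ℝ)))
        (fun a b => by positivity)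
        (fun w a => by
          have := hw w
          push_cast
          linarith)
        (x := α * (1 * (1 * (2 / 3 ^ s₀ / 3 ^ (m + 1)))) +
          β * (gM 1 j * (1 * (2 / 3 ^ s₀ / 3 ^ (m + 1)))) +
          1 * (Esk (s₀ - 1) (fun c => (c : ℝ)) * (2 / 3 ^ s₀ / 3 ^ (m + 1))))
        (y := α * (1 * (1 * (1 / 3 ^ s₀ / 3 ^ (m + 1)))) +
          β * (gM 1 j * (1 * (1 / 3 ^ s₀ / 3 ^ (m + 1)))) +
          1 * (Esk s₀ (fun c => ((c + 1 : ℕ) : ℝ)) * (1 / 3 ^ s₀ / 3 ^ (m + 1))))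
        (fun δ => by
          have a1 := hA δ 0 _ hmo zero_le_one
          have a2 := hA δ 1 _ hmo zero_le_one
          have a3 := hA δ 0 _ hmid (by simp)
          rw [KUP.Esk_one] at a1 a2
          refine up_add (up_add (hUPS.2.2 _ _ _ α hα a1) (hUPS.2.2 _ _ _ β hβ a2)) ?_
          exact a3.elim fun K hK => ⟨K, fun σ g1 g2 T => by
            refine le_trans (le_of_eq ?_) (hK σ g1 g2 T |>.trans (le_of_eq ?_))
            · refine Finset.sum_congr rfl fun E _ => Finset.sum_congr rfl fun q _ => ?_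
              simp only [one_mul]
              rfl
            · simp only [gM, one_mul]⟩)
        (by
          have a1 := hZ 0 _ hmo zero_le_one
          have a2 := hZ 1 _ hmo zero_le_one
          have a3 := hZ 0 _ hmid1 (by simp)
          rw [KUP.Esk_one] at a1 a2
          refine up_add (up_add (hUPS.2.2 _ _ _ α hα a1) (hUPS.2.2 _ _ _ β hβ a2)) ?_
          exact a3.elim fun K hK => ⟨K, fun σ g1 g2 T => by
            refine le_trans (le_of_eq ?_) (hK σ g1 g2 T |>.trans (le_of_eq ?_))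
            · refine Finset.sum_congr rfl fun E _ => Finset.sum_congr rfl fun q _ => ?_
              simp only [one_mul]
              rfl
            · simp only [gM, one_mul]⟩)
      refine hUPS.2.1 _ _ _ _ ?_ g
      have hL := hLAM.1 (s₀ + 1)
      have e1 := AM1.alg1 α β (gM 1 j) (Esk (s₀ - 1) (fun c => (c : ℝ)))
        (Esk s₀ (fun c => ((c + 1 : ℕ) : ℝ))) (3 ^ s₀) (3 ^ (m + 1)) h3d.ne' h3m.ne'
      rw [e1]
      refine div_le_div_of_nonneg_right ?_ h3m.le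
      have e2 := hESZ s₀ (fun c => (c : ℝ))
      rw [e2]
      linarith
    refine hUPA h n m k π p e r f w0 c 1 (fun A => (CubeRank.rr A : ℝ)) _ hN ?_
    show UpS S (fun E q => (R E q : ℝ)) (aW D / 3 ^ (m + 1))
    have hg1 := gM_le hGMB 1 j D hjD hD2
    obtain ⟨-, -, -, -, hg12, -, hM1, -⟩ := hGMB
    by_cases hD1 : D ≤ 1
    · refine rank (1 / 2) (1 / 6) _ (by norm_num) (by norm_num) nat1 ?_
      rw [cM, if_pos hD1, hM1] at hg1
      rw [aW, if_pos hD1]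
      linarith
    · refine rank (3 / 2) (1 / 18) _ (by norm_num) (by norm_num) nat2 ?_
      rw [cM, if_neg hD1, hg12] at hg1
      rw [aW, if_neg hD1]
      linarith
  · -- the powers
    intro k₀
    refine hUPA h n m k π p e r f w0 c 1 (fun A => 3 ^ (k₀ * CubeRank.rr A)) _ hN ?_
    show UpS S (fun E q => (3 : ℝ) ^ (k₀ * R E q)) (cM k₀ D * MoB k₀ / 3 ^ (m + 1))
    have hmp : Monotone fun c : ℕ => (3 : ℝ) ^ (k₀ * c) := fun a b hab =>
      pow_le_pow_right₀ (by norm_num) (Nat.mul_le_mul_left _ hab)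
    have hmp1 : Monotone fun c : ℕ => (3 : ℝ) ^ (k₀ * (c + 1)) := fun a b hab =>
      pow_le_pow_right₀ (by norm_num) (Nat.mul_le_mul_left _ (Nat.succ_le_succ hab))
    have hp0 : (0 : ℝ) ≤ 3 ^ (k₀ * 0) := by positivity
    have hp1 : (0 : ℝ) ≤ 3 ^ (k₀ * (0 + 1)) := by positivity
    have a1 := fun δ => hA δ k₀ (fun c => (3 : ℝ) ^ (k₀ * c)) hmp hp0
    have a2 := hZ k₀ (fun c => (3 : ℝ) ^ (k₀ * (c + 1))) hmp1 hp1
    have g := gen hUPS S TP TZ R N κ κ₀ (M + M₁ + n + 3) main (fun a => (3 : ℝ) ^ (k₀ * a))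
      hmp (fun a b => (a : ℝ) ^ k₀ * 3 ^ (k₀ * b))
      (fun a b => by positivity)
      (fun w a => by
        push_cast
        rw [mul_add, pow_add, ← pow_mul, mul_comm w k₀])
      (x := gM k₀ j * (Esk (s₀ - 1) (fun c => (3 : ℝ) ^ (k₀ * c)) * (2 / 3 ^ s₀ / 3 ^ (m + 1))))
      (y := gM k₀ j * (Esk s₀ (fun c => (3 : ℝ) ^ (k₀ * (c + 1))) * (1 / 3 ^ s₀ / 3 ^ (m + 1))))
      a1 a2
    refine hUPS.2.1 _ _ _ _ ?_ g
    have e1 := AM1.alg2 (gM k₀ j) (Esk (s₀ - 1) (fun c => (3 : ℝ) ^ (k₀ * c)))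
      (Esk s₀ (fun c => (3 : ℝ) ^ (k₀ * (c + 1)))) (3 ^ s₀) (3 ^ (m + 1)) h3d.ne' h3m.ne'
    rw [e1]
    refine div_le_div_of_nonneg_right ?_ h3m.le
    have e2 := hESZ s₀ (fun c => (3 : ℝ) ^ (k₀ * c))
    rw [e2]
    have e3 := hESB (s₀ + 1) k₀
    have hg1 := gM_le hGMB k₀ j D hjD hD2
    have hMB : 1 ≤ MoB k₀ := hGMB.2.2.2.2.2.1 k₀
    have hcM : 0 ≤ cM k₀ D := by
      unfold cM
      split_ifs
      · linarith
      · exact le_trans (by linarith) (hGMB.2.2.1 k₀)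
    have hE0 : 0 ≤ Esk (s₀ + 1) (fun c => (3 : ℝ) ^ (k₀ * c)) := by
      unfold Esk
      exact div_nonneg (finsum_nonneg fun M => by positivity) (Nat.cast_nonneg _)
    exact mul_le_mul hg1 e3 hE0 hcM

end Pool.Agent.PTK
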