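import Pool.Agent.PTK.StC
import Pool.Agent.PTN.DOMG
import Pool.Agent.PTN.CAB

/-! PTK_AVR (helper87): the average of the rank in a class. -/

set_option autoImplicit false

open Finset

namespace Pool.Agent.PTK

open Pool.Agent.Lib_helper18 Pool.Agent.Lib_helper18.Eis Pool.Agent.Lib_helper84.Cub
open Pool.Agent.PT Pool.Agent.PTE Pool.Agent.PT3 Pool.Agent.PTL Pool.Agent.PTN

namespace AVR

/-! ### scalar inequalities -/

lemma nat1 (w : ℕ) : (w : ℝ) ≤ 1 / 2 + 3 ^ w / 6 := by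
  induction w with
  | zero => norm_num
  | succ w ih =>
    rcases Nat.eq_zero_or_pos w with rfl | hw
    · norm_num
    · have h1 : (3 : ℝ) ≤ 3 ^ w := by
        calc (3 : ℝ) = 3 ^ 1 := by norm_num
          _ ≤ 3 ^ w := pow_le_pow_right₀ (by norm_num) hw
      rw [pow_succ]; push_cast; linarith

lemma nat2 (w : ℕ) : (w : ℝ) ≤ 3 / 2 + 3 ^ w / 18 := by
  induction w with
  | zero => norm_num
  | succ w ih =>
    rcases Nat.lt_or_ge w 2 with hw | hw
    · interval_cases w <;> norm_num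
    · have h1 : (9 : ℝ) ≤ 3 ^ w := by
        calc (9 : ℝ) = 3 ^ 2 := by norm_num
          _ ≤ 3 ^ w := pow_le_pow_right₀ (by norm_num) hw
      rw [pow_succ]; push_cast; linarith

lemma sqrt3 (t : ℝ) (ht : 0 < t) (w κ : ℕ) :
    √3 ^ (w + κ) ≤ t / 2 * 3 ^ w + 1 / (2 * t) * 3 ^ κ := by
  have h3 : √3 ^ 2 = (3 : ℝ) := Real.sq_sqrt (by norm_num)
  have hw : (3 : ℝ) ^ w = (√3 ^ w) ^ 2 := by rw [← pow_mul, mul_comm, pow_mul, h3]
  have hk : (3 : ℝ) ^ κ = (√3 ^ κ) ^ 2 := by rw [← pow_mul, mul_comm, pow_mul, h3]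
  rw [pow_add, hw, hk]
  set a := √3 ^ w
  set b := √3 ^ κ
  have h : 0 ≤ (t * a - b) ^ 2 := sq_nonneg _
  have e : t / 2 * a ^ 2 + 1 / (2 * t) * b ^ 2 - a * b = (t * a - b) ^ 2 / (2 * t) := by
    field_simp
    ring
  have : 0 ≤ (t * a - b) ^ 2 / (2 * t) := by positivity
  linarith

/-! ### the general average -/

open Classical in
theorem gen (hSPP : SPP) (hAVW : Stmt_AVW) (hAVC : Stmt_AVC) (hCLT : Stmt_CLT)
    {h n m k : ℕ} {π : Fin m → PP} {p e : Fin m → ℕ} {r f : Fin k → ℕ}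
    {w0 : ZMod 3} {c : Fin m → ZMod 3} (hN : NF n π p e r f) (hh : h ≤ 2)
    {F : ℕ → ℝ} (hF : Monotone F) (h0 : 0 ≤ F 0) {α β γ x : ℝ} (hα : 0 ≤ α) (hβ : 0 ≤ β)
    (hγ : 0 ≤ γ) (hb : ∀ w κ : ℕ, F (w + κ) ≤ α + β * 3 ^ w + γ * 3 ^ κ)
    (hx : α + β * (3 + 3 ^ dN h n w0) + γ * 4 = x) :
    AboveA ((3 ^ h * n : ℕ) : ℤ) 2 (Kl π w0 c) (fun A => F (CubeRank.rr A))
      (x / 3 ^ (m + 1)) := by
  refine CAB.above_of hSPP hN w0 c 2 hF h0
    (fun E => {q : ℕ | q % 3 = 2 ∧ InCT E π w0 c q}) (fun E q => Iff.rfl) ?_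
  obtain ⟨K1, hK1⟩ := hAVW h n m k π p e r f w0 c hN hh
  obtain ⟨κ₀, ⟨M, hM⟩, K2, hK2⟩ := hAVC h n m k π p e r f w0 c hN hh
  obtain ⟨K3, hK3⟩ := hCLT m π p hN.pp hN.p1 hN.pπ hN.pinj w0 c 2 (Or.inr rfl)
  have hFn : ∀ n, 0 ≤ F n := fun n => h0.trans (hF (Nat.zero_le n))
  refine ⟨α * K3 + β * K1 + γ * K2 + ∑ E ∈ ({1, 2} : Finset ℕ), ∑ q ∈ range (M + 1),
    F (CubeRank.rr (BB h n E q)), fun σ h1 h2 T => ?_⟩
  have a1 := hK1 σ h1 h2 T
  have a2 := hK2 σ h1 h2 T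
  have a3 := (hK3 σ h1 h2).2
  set S : ℕ → Set ℕ := fun E => {q : ℕ | q % 3 = 2 ∧ InCT E π w0 c q} with hS
  -- pointwise
  have key : ∀ E ∈ ({1, 2} : Finset ℕ), ∀ q ∈ T,
      (if q.Prime ∧ q ∈ S E then F (CubeRank.rr (BB h n E q)) * (q : ℝ) ^ (-σ) else 0) ≤
      α * BDENS.ind (S E) σ q +
      β * (if q.Prime ∧ q % 3 = 2 ∧ InCT E π w0 c q then
        (Nat.card (WqS h n π p e r w0 c (BB h n E q)) : ℝ) * (q : ℝ) ^ (-σ) else 0) +
      γ * (if q.Prime ∧ q % 3 = 2 ∧ InCT E π w0 c q then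
        (3 : ℝ) ^ κ₀ (BB h n E q) * (q : ℝ) ^ (-σ) else 0) +
      (if q ≤ M then F (CubeRank.rr (BB h n E q)) else 0) := by
    intro E hE q _
    have hE' : E = 1 ∨ E = 2 := by simpa using hE
    have hq0 : 0 ≤ (q : ℝ) ^ (-σ) := Real.rpow_nonneg (Nat.cast_nonneg q) _
    by_cases hq : q.Prime ∧ q ∈ S E
    · have hq' : q.Prime ∧ q % 3 = 2 ∧ InCT E π w0 c q := hq
      rw [if_pos hq, if_pos hq', if_pos hq', BDENS.ind_mem hq.1 hq.2]
      by_cases hqM : q ≤ M
      · rw [if_pos hqM]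
        have g1 : (q : ℝ) ^ (-σ) ≤ 1 :=
          Real.rpow_le_one_of_one_le_of_nonpos (by exact_mod_cast hq.1.one_lt.le) (by linarith)
        have g2 := mul_le_mul_of_nonneg_left g1 (hFn (CubeRank.rr (BB h n E q)))
        rw [mul_one] at g2
        have g3 : 0 ≤ α * (q : ℝ) ^ (-σ) + β * ((Nat.card (WqS h n π p e r w0 c (BB h n E q)) : ℝ) *
          (q : ℝ) ^ (-σ)) + γ * ((3 : ℝ) ^ κ₀ (BB h n E q) * (q : ℝ) ^ (-σ)) := by positivity
        linarith
      · rw [if_neg hqM, add_zero]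
        push Not at hqM
        obtain ⟨hgen, d, hd⟩ := hM E q hE' hq'.1 hqM hq'.2.1 hq'.2.2
        rw [hd, Nat.log_pow (by norm_num)] at hgen
        have g1 := hF (CubeRank.rr_le hgen)
        have g2 := g1.trans (hb d (κ₀ (BB h n E q)))
        have g3 := mul_le_mul_of_nonneg_right g2 hq0
        rw [hd]
        push_cast
        refine g3.trans (le_of_eq ?_)
        ring
    · have hq' : ¬ (q.Prime ∧ q % 3 = 2 ∧ InCT E π w0 c q) := hq
      rw [if_neg hq, if_neg hq', if_neg hq', BDENS.ind_not hq]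
      have : 0 ≤ (if q ≤ M then F (CubeRank.rr (BB h n E q)) else 0) := by
        split_ifs
        · exact hFn _
        · exact le_rfl
      linarith
  have s1 := Finset.sum_le_sum fun E hE => Finset.sum_le_sum fun q hq => key E hE q hq
  refine le_trans (le_of_eq ?_) (s1.trans ?_)
  · refine Finset.sum_congr rfl fun E _ => Finset.sum_congr rfl fun q _ => ?_
    congr
  simp only [Finset.sum_add_distrib, ← Finset.mul_sum]
  -- the four sums
  have b1 : ∑ E ∈ ({1, 2} : Finset ℕ), ∑ q ∈ T, BDENS.ind (S E) σ q ≤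
      1 / 3 ^ (m + 1) * Real.log (1 / (σ - 1)) + K3 := by
    rw [Finset.sum_pair (by norm_num : (1 : ℕ) ≠ 2)]
    exact (add_le_add (DOMG.sum_ind_le _ h1 T) (DOMG.sum_ind_le _ h1 T)).trans a3
  have b4 : ∑ E ∈ ({1, 2} : Finset ℕ), ∑ q ∈ T,
      (if q ≤ M then F (CubeRank.rr (BB h n E q)) else 0) ≤
      ∑ E ∈ ({1, 2} : Finset ℕ), ∑ q ∈ range (M + 1), F (CubeRank.rr (BB h n E q)) := by
    refine Finset.sum_le_sum fun E _ => ?_
    rw [← Finset.sum_filter]
    refine Finset.sum_le_sum_of_subset_of_nonneg ?_ fun q _ _ => hFn _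
    intro q hq
    rw [Finset.mem_range]
    have := (Finset.mem_filter.1 hq).2
    omega
  have c1 := mul_le_mul_of_nonneg_left b1 hα
  have c2 := mul_le_mul_of_nonneg_left a1 hβ
  have c3 := mul_le_mul_of_nonneg_left a2 hγ
  have e1 : x / 3 ^ (m + 1) * Real.log (1 / (σ - 1)) =
      α * (1 / 3 ^ (m + 1) * Real.log (1 / (σ - 1))) +
      β * ((3 + 3 ^ dN h n w0) / 3 ^ (m + 1) * Real.log (1 / (σ - 1))) +
      γ * (4 / 3 ^ (m + 1) * Real.log (1 / (σ - 1))) := by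
    rw [← hx]; ring
  rw [e1]
  linarith

end AVR

open AVR in
theorem AVR_thm (hSPP : SPP) (hAVW : Stmt_AVW) (hAVC : Stmt_AVC) (hCLT : Stmt_CLT) :
    Stmt_AVR := by
  classical
  intro h n m k π p e r f w0 c hN hh
  have hd : dN h n w0 = 0 ∨ dN h n w0 = 1 ∨ dN h n w0 = 2 := by
    unfold dN
    split_ifs <;> simp
  have m1 : Monotone (fun x : ℕ => (x : ℝ)) := Nat.mono_cast
  have m2 : Monotone (fun x : ℕ => √3 ^ x) := by
    refine pow_right_mono₀ ?_
    rw [show (1 : ℝ) = √1 by simp]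
    exact Real.sqrt_le_sqrt (by norm_num)
  constructor
  · rcases hd with hd | hd | hd
    · refine gen hSPP hAVW hAVC hCLT hN hh (F := fun x => (x : ℝ)) m1 (by simp) (α := 1)
        (β := 1 / 6) (γ := 1 / 6) (by norm_num) (by norm_num) (by norm_num) (fun w κ => ?_) ?_
      · have := nat1 w
        have := nat1 κ
        push_cast; linarith
      · rw [hd]; unfold aD'; norm_num
    · refine gen hSPP hAVW hAVC hCLT hN hh (F := fun x => (x : ℝ)) m1 (by simp) (α := 1)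
        (β := 1 / 6) (γ := 1 / 6) (by norm_num) (by norm_num) (by norm_num) (fun w κ => ?_) ?_
      · have := nat1 w
        have := nat1 κ
        push_cast; linarith
      · rw [hd]; unfold aD'; norm_num
    · refine gen hSPP hAVW hAVC hCLT hN hh (F := fun x => (x : ℝ)) m1 (by simp) (α := 2)
        (β := 1 / 18) (γ := 1 / 6) (by norm_num) (by norm_num) (by norm_num) (fun w κ => ?_) ?_
      · have := nat2 w
        have := nat1 κ
        push_cast; linarith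
      · rw [hd]; unfold aD'; norm_num
  · rcases hd with hd | hd | hd
    · refine gen hSPP hAVW hAVC hCLT hN hh (F := fun x => √3 ^ x) m2 (by simp) (α := 0)
        (β := 1 / 2) (γ := 1 / 2) (by norm_num) (by norm_num) (by norm_num) (fun w κ => ?_) ?_
      · have := sqrt3 1 (by norm_num) w κ
        norm_num at this ⊢; linarith
      · rw [hd]; unfold bD'; norm_num
    · refine gen hSPP hAVW hAVC hCLT hN hh (F := fun x => √3 ^ x) m2 (by simp) (α := 0)
        (β := 2 / 5) (γ := 5 / 8) (by norm_num) (by norm_num) (by norm_num) (fun w κ => ?_) ?_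
      · have := sqrt3 (4 / 5) (by norm_num) w κ
        norm_num at this ⊢; linarith
      · rw [hd]; unfold bD'; norm_num
    · refine gen hSPP hAVW hAVC hCLT hN hh (F := fun x => √3 ^ x) m2 (by simp) (α := 0)
        (β := 3 / 10) (γ := 5 / 6) (by norm_num) (by norm_num) (by norm_num) (fun w κ => ?_) ?_
      · have := sqrt3 (3 / 5) (by norm_num) w κ
        norm_num at this ⊢; linarith
      · rw [hd]; unfold bD'; norm_num

end Pool.Agent.PTK
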