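import Pool.Agent.PTK.StK
import Pool.Agent.PTK.AVR

/-! PTK_AV2 (helper69): the averages in a class, `q = 2 (mod 3)`. -/

set_option autoImplicit false

open Finset

namespace Pool.Agent.PTK

open Pool.Agent.Lib_helper18 Pool.Agent.Lib_helper18.Eis Pool.Agent.Lib_helper84.Cub
open Pool.Agent.PT Pool.Agent.PTE Pool.Agent.PT3 Pool.Agent.PTL Pool.Agent.PTN

namespace AV2

/-- the three bounds without the classes of points -/
theorem base (hUPS : Stmt_UPS) (hKUP : Stmt_KUP) (hLAM : Stmt_LAM) (hCT0 : Stmt_CT0)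
    {h n m k : ℕ} {π : Fin m → PP} {p e : Fin m → ℕ} {r f : Fin k → ℕ}
    {w0 : ZMod 3} {c : Fin m → ZMod 3} {s : ℕ} {τ : Fin s → Fin 3} {b X Y : Fin s → ℤ}
    {P Q P' Q' : Fin s → Fin s → ℤ} (hN : NF n π p e r f) (hh : h ≤ 2)
    (hS : PlS h n π w0 c τ b X Y P Q P' Q') :
    UpS (fun E => {q | q % 3 = 2 ∧ InCT E π w0 c q})
      (fun E q => 3 ^ kS h n b X Y P Q P' Q' E q) (4 * (1 / 3 ^ (m + 1))) ∧
    UpS (fun E => {q | q % 3 = 2 ∧ InCT E π w0 c q})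
      (fun E q => (kS h n b X Y P Q P' Q' E q : ℝ)) (13 / 12 * (1 / 3 ^ (m + 1))) ∧
    UpS (fun E => {q | q % 3 = 2 ∧ InCT E π w0 c q}) (fun _ _ => 1) (1 / 3 ^ (m + 1)) := by
  obtain ⟨a1, a2, a3⟩ := hKUP (fun E => {q | q % 3 = 2 ∧ InCT E π w0 c q})
    (fun E q => kS h n b X Y P Q P' Q' E q) s 0 (1 / 3 ^ (m + 1)) (by positivity)
    (fun E q _ _ _ _ => Nat.sub_le _ _)
    (hCT0 h n m k π p e r f w0 c s τ b X Y P Q P' Q' hN hh hS)
  refine ⟨a1, hUPS.2.1 _ _ _ _ ?_ a2, a3⟩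
  exact mul_le_mul_of_nonneg_right (hLAM.1 s) (by positivity)

/-- the bounds for the primes with a given class of points -/
theorem withy (hKUP : Stmt_KUP) (hCTJ : Stmt_CTJ)
    {h n m k : ℕ} {π : Fin m → PP} {p e : Fin m → ℕ} {r f : Fin k → ℕ}
    {w0 : ZMod 3} {c : Fin m → ZMod 3} {s : ℕ} {τ : Fin s → Fin 3} {b X Y : Fin s → ℤ}
    {P Q P' Q' : Fin s → Fin s → ℤ} (hN : NF n π p e r f) (hh : h ≤ 2)
    (hS : PlS h n π w0 c τ b X Y P Q P' Q')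
    {y : Fin (m + 1) → ZMod 3} (hy : y ∈ VS h n π p e r w0 c) {l : ℕ}
    {u : Fin l → Fin (m + 1) → ZMod 3} (hu : ∀ j, u j ∈ V0 h n π p e r w0 c)
    (hli : LinearIndependent (ZMod 3) (Fin.cons y u : Fin (l + 1) → Fin (m + 1) → ZMod 3)) :
    UpS (fun E => {q | q ∈ {q | q % 3 = 2 ∧ InCT E π w0 c q} ∧ Occ (BB h n E q) (zN π e y)})
      (fun E q => 3 ^ kS h n b X Y P Q P' Q' E q) (4 * (1 / 3 ^ (m + 1)) / 3 ^ l) ∧
    UpS (fun E => {q | q ∈ {q | q % 3 = 2 ∧ InCT E π w0 c q} ∧ Occ (BB h n E q) (zN π e y)})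
      (fun _ _ => 1) (1 / 3 ^ (m + 1) / 3 ^ l) := by
  have hset : ∀ E t : ℕ, {q | q ∈ {q | q ∈ {q | q % 3 = 2 ∧ InCT E π w0 c q} ∧
      Occ (BB h n E q) (zN π e y)} ∧ t ≤ kS h n b X Y P Q P' Q' E q} =
      {q | q ∈ QY h n π e w0 c y E ∧ t ≤ kS h n b X Y P Q P' Q' E q} := by
    intro E t
    ext q
    refine and_congr_left fun _ => ?_
    exact and_assoc
  obtain ⟨a1, a2, a3⟩ := hKUP
    (fun E => {q | q ∈ {q | q % 3 = 2 ∧ InCT E π w0 c q} ∧ Occ (BB h n E q) (zN π e y)})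
    (fun E q => kS h n b X Y P Q P' Q' E q) s 0 (1 / 3 ^ l / 3 ^ (m + 1)) (by positivity)
    (fun E q _ _ _ _ => Nat.sub_le _ _)
    (fun t => by
      obtain ⟨K, hK⟩ := hCTJ h n m k π p e r f w0 c s τ b X Y P Q P' Q' hN hh hS y hy l u hu hli t
      refine ⟨K, fun σ h1 h2 => ?_⟩
      have e1 := hK σ h1 h2
      rw [← hset, ← hset] at e1
      exact e1)
  have e1 : 4 * ((1 : ℝ) / 3 ^ l / 3 ^ (m + 1)) = 4 * (1 / 3 ^ (m + 1)) / 3 ^ l := by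
    field_simp
  have e2 : ((1 : ℝ) / 3 ^ l / 3 ^ (m + 1)) = 1 / 3 ^ (m + 1) / 3 ^ l := by
    field_simp
  rw [e1] at a1
  rw [e2] at a3
  exact ⟨a1, a3⟩

/-- the two bounds with the number of the classes of points -/
theorem wq (hUPS : Stmt_UPS) (hKUP : Stmt_KUP) (hLAM : Stmt_LAM) (hWSUM : Stmt_WSUM)
    (hCTJ : Stmt_CTJ) (hCT0 : Stmt_CT0)
    {h n m k : ℕ} {π : Fin m → PP} {p e : Fin m → ℕ} {r f : Fin k → ℕ}
    {w0 : ZMod 3} {c : Fin m → ZMod 3} {s : ℕ} {τ : Fin s → Fin 3} {b X Y : Fin s → ℤ}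
    {P Q P' Q' : Fin s → Fin s → ℤ} (hN : NF n π p e r f) (hh : h ≤ 2)
    (hS : PlS h n π w0 c τ b X Y P Q P' Q') :
    UpS (fun E => {q | q % 3 = 2 ∧ InCT E π w0 c q})
      (fun E q => (Nat.card (WqS h n π p e r w0 c (BB h n E q)) : ℝ) *
        3 ^ kS h n b X Y P Q P' Q' E q)
      ((3 + 3 ^ dN h n w0) * (4 * (1 / 3 ^ (m + 1)))) ∧
    UpS (fun E => {q | q % 3 = 2 ∧ InCT E π w0 c q})
      (fun E q => (Nat.card (WqS h n π p e r w0 c (BB h n E q)) : ℝ) * 1)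
      ((3 + 3 ^ dN h n w0) * (1 / 3 ^ (m + 1))) := by
  obtain ⟨b1, b2, b3⟩ := base hUPS hKUP hLAM hCT0 hN hh hS
  constructor
  · exact hWSUM h n m k π p e r f w0 c hN hh (fun E => {q | q % 3 = 2 ∧ InCT E π w0 c q})
      (fun E q => 3 ^ kS h n b X Y P Q P' Q' E q) (4 * (1 / 3 ^ (m + 1))) (by positivity)
      (fun E q => by positivity) b1
      (fun y hy l u hu hli => (withy hKUP hCTJ hN hh hS hy hu hli).1)
  · exact hWSUM h n m k π p e r f w0 c hN hh (fun E => {q | q % 3 = 2 ∧ InCT E π w0 c q})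
      (fun _ _ => 1) (1 / 3 ^ (m + 1)) (by positivity)
      (fun E q => by positivity) b3
      (fun y hy l u hu hli => (withy hKUP hCTJ hN hh hS hy hu hli).2)

theorem nf_pos {n m k : ℕ} {π : Fin m → PP} {p e : Fin m → ℕ} {r f : Fin k → ℕ}
    (hN : NF n π p e r f) : 0 < n := by
  rw [hN.eq]
  exact Nat.mul_pos (Finset.prod_pos fun i _ => pow_pos (hN.pp i).pos _)
    (Finset.prod_pos fun j _ => pow_pos (hN.rp j).pos _)

/-- the rank for large `q` -/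
theorem rk (hNBW : Stmt_NBW) (hWGR : Stmt_WGR)
    {h n m k : ℕ} {π : Fin m → PP} {p e : Fin m → ℕ} {r f : Fin k → ℕ}
    {w0 : ZMod 3} {c : Fin m → ZMod 3} {s : ℕ} {τ : Fin s → Fin 3} {b X Y : Fin s → ℤ}
    {P Q P' Q' : Fin s → Fin s → ℤ} (hN : NF n π p e r f) (hh : h ≤ 2)
    (hS : PlS h n π w0 c τ b X Y P Q P' Q') {E q : ℕ} (hE : E = 1 ∨ E = 2) (hq : q.Prime)
    (hM : max 3 n < q) (hqS : q % 3 = 2 ∧ InCT E π w0 c q) :
    ∃ d : ℕ, Nat.card (WqS h n π p e r w0 c (BB h n E q)) = 3 ^ d ∧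
      CubeRank.rr (BB h n E q) ≤ d + kS h n b X Y P Q P' Q' E q := by
  have h3 : 3 < q := lt_of_le_of_lt (le_max_left _ _) hM
  have hnq : n < q := lt_of_le_of_lt (le_max_right _ _) hM
  have hdv : ¬ q ∣ n := fun hd => absurd (Nat.le_of_dvd (nf_pos hN) hd) (by omega)
  obtain ⟨⟨d, hd⟩, -⟩ := hWGR h n m k π p e r f w0 c E q hN hh hE hq h3 hqS.1 hqS.2 hdv
  have hg := hNBW h n m k π p e r f w0 c s τ b X Y P Q P' Q' E q hN hh hS.adm hS.sys hS.sw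
    hS.lam hS.gen hE hq h3 hqS.1 hqS.2 hdv
  rw [hd, Nat.log_pow (by norm_num)] at hg
  exact ⟨d, hd, CubeRank.rr_le hg⟩

/-- the average of the rank from a bound `w ≤ α + β 3 ^ w` -/
theorem rank_avg (hUPS : Stmt_UPS) (hKUP : Stmt_KUP) (hLAM : Stmt_LAM)
    (hWSUM : Stmt_WSUM) (hCTJ : Stmt_CTJ) (hCT0 : Stmt_CT0) (hNBW : Stmt_NBW) (hWGR : Stmt_WGR)
    {h n m k : ℕ} {π : Fin m → PP} {p e : Fin m → ℕ} {r f : Fin k → ℕ}
    {w0 : ZMod 3} {c : Fin m → ZMod 3} {s : ℕ} {τ : Fin s → Fin 3} {b X Y : Fin s → ℤ}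
    {P Q P' Q' : Fin s → Fin s → ℤ} (hN : NF n π p e r f) (hh : h ≤ 2)
    (hS : PlS h n π w0 c τ b X Y P Q P' Q') {α β : ℝ} (hα : 0 ≤ α) (hβ : 0 ≤ β)
    (hw : ∀ w : ℕ, (w : ℝ) ≤ α + β * 3 ^ w) :
    UpS (fun E => {q | q % 3 = 2 ∧ InCT E π w0 c q})
      (fun E q => (CubeRank.rr (BB h n E q) : ℝ))
      ((α + β * (3 + 3 ^ dN h n w0) + 13 / 12) / 3 ^ (m + 1)) := by
  obtain ⟨b1, b2, b3⟩ := base hUPS hKUP hLAM hCT0 hN hh hS
  obtain ⟨c1, c2⟩ := wq hUPS hKUP hLAM hWSUM hCTJ hCT0 hN hh hS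
  have d3 := hUPS.2.2 _ _ _ α hα b3
  have d2 := hUPS.2.2 _ _ _ β hβ c2
  set S : ℕ → Set ℕ := fun E => {q | q % 3 = 2 ∧ InCT E π w0 c q} with hSdef
  have key := hUPS.1 (Fin 3) S (fun E q => (CubeRank.rr (BB h n E q) : ℝ)) (fun _ => S)
    ![fun _ _ => α * 1,
      fun E q => β * ((Nat.card (WqS h n π p e r w0 c (BB h n E q)) : ℝ) * 1),
      fun E q => (kS h n b X Y P Q P' Q' E q : ℝ)]
    ![α * (1 / 3 ^ (m + 1)), β * ((3 + 3 ^ dN h n w0) * (1 / 3 ^ (m + 1))),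
      13 / 12 * (1 / 3 ^ (m + 1))] 1 (max 3 n) one_pos
    (fun i E q => by
      fin_cases i
      · show (0 : ℝ) ≤ α * 1
        linarith
      · show (0 : ℝ) ≤ β * ((Nat.card (WqS h n π p e r w0 c (BB h n E q)) : ℝ) * 1)
        positivity
      · show (0 : ℝ) ≤ (kS h n b X Y P Q P' Q' E q : ℝ)
        positivity)
    (fun E q hE hq hM hqS => by
      obtain ⟨d, hd, hr⟩ := rk hNBW hWGR hN hh hS hE hq hM hqS
      rw [Fin.sum_univ_three]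
      rw [if_pos hqS, if_pos hqS, if_pos hqS]
      show 1 * (CubeRank.rr (BB h n E q) : ℝ) ≤ α * 1 +
        β * ((Nat.card (WqS h n π p e r w0 c (BB h n E q)) : ℝ) * 1) +
        (kS h n b X Y P Q P' Q' E q : ℝ)
      rw [hd]
      have h1 : (CubeRank.rr (BB h n E q) : ℝ) ≤ (d : ℝ) + (kS h n b X Y P Q P' Q' E q : ℝ) := by
        exact_mod_cast hr
      have h2 := hw d
      push_cast
      linarith)
    (fun i => by
      fin_cases i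
      · exact d3
      · exact d2
      · exact b2)
  have e1 : (∑ i : Fin 3, (![α * (1 / 3 ^ (m + 1)),
      β * ((3 + 3 ^ dN h n w0) * (1 / 3 ^ (m + 1))), 13 / 12 * (1 / 3 ^ (m + 1))] : Fin 3 → ℝ) i) / 1
      = (α + β * (3 + 3 ^ dN h n w0) + 13 / 12) / 3 ^ (m + 1) := by
    rw [Fin.sum_univ_three]
    simp only [Matrix.cons_val_zero, Matrix.cons_val_one, Matrix.cons_val]
    ring
  rw [e1] at key
  exact key

/-- the average of `3 ^ r` -/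
theorem pow_avg (hUPS : Stmt_UPS) (hKUP : Stmt_KUP) (hLAM : Stmt_LAM)
    (hWSUM : Stmt_WSUM) (hCTJ : Stmt_CTJ) (hCT0 : Stmt_CT0) (hNBW : Stmt_NBW) (hWGR : Stmt_WGR)
    {h n m k : ℕ} {π : Fin m → PP} {p e : Fin m → ℕ} {r f : Fin k → ℕ}
    {w0 : ZMod 3} {c : Fin m → ZMod 3} {s : ℕ} {τ : Fin s → Fin 3} {b X Y : Fin s → ℤ}
    {P Q P' Q' : Fin s → Fin s → ℤ} (hN : NF n π p e r f) (hh : h ≤ 2)
    (hS : PlS h n π w0 c τ b X Y P Q P' Q') :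
    UpS (fun E => {q | q % 3 = 2 ∧ InCT E π w0 c q})
      (fun E q => (3 : ℝ) ^ CubeRank.rr (BB h n E q))
      (4 * (3 + 3 ^ dN h n w0) / 3 ^ (m + 1)) := by
  obtain ⟨c1, c2⟩ := wq hUPS hKUP hLAM hWSUM hCTJ hCT0 hN hh hS
  set S : ℕ → Set ℕ := fun E => {q | q % 3 = 2 ∧ InCT E π w0 c q} with hSdef
  have key := hUPS.1 Unit S (fun E q => (3 : ℝ) ^ CubeRank.rr (BB h n E q)) (fun _ => S)
    (fun _ E q => (Nat.card (WqS h n π p e r w0 c (BB h n E q)) : ℝ) *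
        3 ^ kS h n b X Y P Q P' Q' E q)
    (fun _ => (3 + 3 ^ dN h n w0) * (4 * (1 / 3 ^ (m + 1)))) 1 (max 3 n) one_pos
    (fun i E q => by positivity)
    (fun E q hE hq hM hqS => by
      obtain ⟨d, hd, hr⟩ := rk hNBW hWGR hN hh hS hE hq hM hqS
      rw [Fintype.sum_unique, if_pos hqS, hd]
      push_cast
      rw [one_mul, ← pow_add]
      exact pow_le_pow_right₀ (by norm_num) hr)
    (fun i => c1)
  have e1 : (∑ _i : Unit, ((3 + 3 ^ dN h n w0) * (4 * (1 / 3 ^ (m + 1))) : ℝ)) / 1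
      = 4 * (3 + 3 ^ dN h n w0) / 3 ^ (m + 1) := by
    rw [Fintype.sum_unique]
    ring
  rw [e1] at key
  exact key

end AV2

open AV2 in
theorem AV2_thm (hUPS : Stmt_UPS) (hUPA : Stmt_UPA) (hKUP : Stmt_KUP)
    (hLAM : Stmt_LAM) (hWSUM : Stmt_WSUM) (hPLE : Stmt_PLE) (hCTJ : Stmt_CTJ) (hCT0 : Stmt_CT0)
    (hNBW : Stmt_NBW) (hWGR : Stmt_WGR) : Stmt_AV2 := by
  intro h n m k π p e r f w0 c hN hh
  obtain ⟨s, τ, b, X, Y, P, Q, P', Q', -, hS⟩ := hPLE h n m k π p e r f w0 c hN hh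
  have hd : dN h n w0 = 0 ∨ dN h n w0 = 1 ∨ dN h n w0 = 2 := by
    unfold dN
    split_ifs <;> simp
  constructor
  · refine hUPA h n m k π p e r f w0 c 2 (fun A => (CubeRank.rr A : ℝ)) _ hN ?_
    rcases hd with hd | hd | hd
    · have h1 := rank_avg hUPS hKUP hLAM hWSUM hCTJ hCT0 hNBW hWGR hN hh hS (α := 1 / 2)
        (β := 1 / 6) (by norm_num) (by norm_num) (fun w => (AVR.nat1 w).trans (le_of_eq (by ring)))
      rw [hd] at h1 ⊢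
      have e : ((1 : ℝ) / 2 + 1 / 6 * (3 + 3 ^ 0) + 13 / 12) = aQ 0 := by
        unfold aQ; norm_num
      rw [e] at h1
      exact h1
    · have h1 := rank_avg hUPS hKUP hLAM hWSUM hCTJ hCT0 hNBW hWGR hN hh hS (α := 1 / 2)
        (β := 1 / 6) (by norm_num) (by norm_num) (fun w => (AVR.nat1 w).trans (le_of_eq (by ring)))
      rw [hd] at h1 ⊢
      have e : ((1 : ℝ) / 2 + 1 / 6 * (3 + 3 ^ 1) + 13 / 12) = aQ 1 := by
        unfold aQ; norm_num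
      rw [e] at h1
      exact h1
    · have h1 := rank_avg hUPS hKUP hLAM hWSUM hCTJ hCT0 hNBW hWGR hN hh hS (α := 3 / 2)
        (β := 1 / 18) (by norm_num) (by norm_num) (fun w => (AVR.nat2 w).trans (le_of_eq (by ring)))
      rw [hd] at h1 ⊢
      have e : ((3 : ℝ) / 2 + 1 / 18 * (3 + 3 ^ 2) + 13 / 12) = aQ 2 := by
        unfold aQ; norm_num
      rw [e] at h1
      exact h1
  · refine hUPA h n m k π p e r f w0 c 2 (fun A => (3 : ℝ) ^ CubeRank.rr A) _ hN ?_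
    exact pow_avg hUPS hKUP hLAM hWSUM hCTJ hCT0 hNBW hWGR hN hh hS

end Pool.Agent.PTK
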