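import Pool.Agent.PTK.StW
import Pool.Agent.PTK.AV2

/-! PTK_AM2 (helper3): the averages in a class, `q = 2 (mod 3)`. -/

set_option autoImplicit false

open Finset

namespace Pool.Agent.PTK

open Pool.Agent.Lib_helper18 Pool.Agent.Lib_helper18.Eis Pool.Agent.Lib_helper84.Cub
open Pool.Agent.PT Pool.Agent.PTE Pool.Agent.PT3 Pool.Agent.PTL Pool.Agent.PTN

namespace AM2

theorem dN_le (h n : ℕ) (w0 : ZMod 3) : dN h n w0 ≤ 2 := by
  unfold dN
  split_ifs <;> omega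

/-- the moments depend on the codimension only through its bound -/
theorem gM_le (hGMB : Stmt_GMB) (k₀ : ℕ) {j d : ℕ} (hj : j ≤ d) (hd : d ≤ 2) :
    gM k₀ j ≤ cM k₀ d := by
  obtain ⟨g0, g1, g2, -⟩ := hGMB
  unfold cM
  have hj' : j = 0 ∨ j = 1 ∨ j = 2 := by omega
  rcases hj' with rfl | rfl | rfl
  · rw [g0]
    split_ifs
    · exact le_rfl
    · exact g2 k₀
  · rw [g1]
    split_ifs
    · exact le_rfl
    · exact g2 k₀
  · rw [if_neg (by omega)]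

theorem cM_one (hGMB : Stmt_GMB) (d : ℕ) : cM 1 d = if d ≤ 1 then 4 else 28 / 3 := by
  obtain ⟨-, -, -, -, g5, -, g7, -⟩ := hGMB
  unfold cM
  rw [g5, g7]

theorem cM_pos (hGMB : Stmt_GMB) (k₀ d : ℕ) : 0 ≤ cM k₀ d := by
  obtain ⟨-, -, g2, -, -, g6, -, -⟩ := hGMB
  unfold cM
  split_ifs
  · linarith [g6 k₀]
  · linarith [g6 k₀, g2 k₀]

theorem Esk_nonneg {s : ℕ} {F : ℕ → ℝ} (hF : ∀ c, 0 ≤ F c) : 0 ≤ Esk s F := by
  unfold Esk
  refine div_nonneg (finsum_nonneg fun M => hF _) (Nat.cast_nonneg _)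

/-- the joint averages with explicit constants -/
theorem jp (hUPS : Stmt_UPS) (hJP2 : Stmt_JP2) (hVDIM : Stmt_VDIM) (hGMB : Stmt_GMB)
    {h n m k : ℕ} {π : Fin m → PP} {p e : Fin m → ℕ} {r f : Fin k → ℕ}
    {w0 : ZMod 3} {c : Fin m → ZMod 3} {s : ℕ} {τ : Fin s → Fin 3} {b X Y : Fin s → ℤ}
    {P Q P' Q' : Fin s → Fin s → ℤ} (hN : NF n π p e r f) (hh : h ≤ 2)
    (hS : PlS h n π w0 c τ b X Y P Q P' Q') (k₀ : ℕ) (F : ℕ → ℝ) (hF : Monotone F)
    (hF0 : 0 ≤ F 0) {M : ℝ} (hM : Esk s F ≤ M) :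
    UpS (fun E => {q | q % 3 = 2 ∧ InCT E π w0 c q})
      (fun E q => (Nat.card (WqS h n π p e r w0 c (BB h n E q)) : ℝ) ^ k₀ *
        F (kS h n b X Y P Q P' Q' E q))
      (cM k₀ (dN h n w0) * M / 3 ^ (m + 1)) := by
  refine hUPS.2.1 _ _ _ _ ?_ (hJP2 h n m k π p e r f w0 c s τ b X Y P Q P' Q' hN hh hS k₀ F hF hF0)
  rw [← mul_div_assoc]
  refine div_le_div_of_nonneg_right ?_ (by positivity)
  have h1 : vN h n π p e r w0 c - v0N h n π p e r w0 c ≤ dN h n w0 := by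
    have h2 := hVDIM h n m k π p e r w0 c hh
    omega
  have h3 := gM_le hGMB k₀ h1 (dN_le h n w0)
  have h4 : 0 ≤ Esk s F := Esk_nonneg fun c => hF0.trans (hF (Nat.zero_le c))
  exact mul_le_mul h3 hM h4 (cM_pos hGMB k₀ _)

/-- the average of the rank from a bound `w ≤ α + β 3 ^ w` -/
theorem rank_avg (hUPS : Stmt_UPS) (hLAM : Stmt_LAM) (hJP2 : Stmt_JP2) (hVDIM : Stmt_VDIM)
    (hGMB : Stmt_GMB) (hESB : Stmt_ESB) (hNBW : Stmt_NBW) (hWGR : Stmt_WGR)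
    {h n m k : ℕ} {π : Fin m → PP} {p e : Fin m → ℕ} {r f : Fin k → ℕ}
    {w0 : ZMod 3} {c : Fin m → ZMod 3} {s : ℕ} {τ : Fin s → Fin 3} {b X Y : Fin s → ℤ}
    {P Q P' Q' : Fin s → Fin s → ℤ} (hN : NF n π p e r f) (hh : h ≤ 2)
    (hS : PlS h n π w0 c τ b X Y P Q P' Q') {α β : ℝ} (hα : 0 ≤ α) (hβ : 0 ≤ β)
    (hw : ∀ w : ℕ, (w : ℝ) ≤ α + β * 3 ^ w) :
    UpS (fun E => {q | q % 3 = 2 ∧ InCT E π w0 c q})
      (fun E q => (CubeRank.rr (BB h n E q) : ℝ))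
      ((α + β * cM 1 (dN h n w0) + 13 / 12) / 3 ^ (m + 1)) := by
  have hone : Esk s (fun c => (3 : ℝ) ^ (0 * c)) ≤ 1 := by
    have h1 := hESB s 0
    unfold MoB at h1
    rwa [Finset.range_zero, Finset.prod_empty] at h1
  have hmono : Monotone fun c : ℕ => (3 : ℝ) ^ (0 * c) := by
    intro a b _
    simp
  have hc0 : cM 0 (dN h n w0) = 1 := by
    unfold cM MoB
    split_ifs
    · rw [Finset.range_zero, Finset.prod_empty]
    · rfl
  have b1 := jp hUPS hJP2 hVDIM hGMB hN hh hS 0 (fun c => (3 : ℝ) ^ (0 * c)) hmono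
    (by norm_num) hone
  have b2 := jp hUPS hJP2 hVDIM hGMB hN hh hS 1 (fun c => (3 : ℝ) ^ (0 * c)) hmono
    (by norm_num) hone
  have b3 := jp hUPS hJP2 hVDIM hGMB hN hh hS 0 (fun c => (c : ℝ)) Nat.mono_cast
    (by norm_num) (hLAM.1 s)
  rw [hc0, one_mul] at b1 b3
  rw [mul_one] at b2
  have d1 := hUPS.2.2 _ _ _ α hα b1
  have d2 := hUPS.2.2 _ _ _ β hβ b2
  set S : ℕ → Set ℕ := fun E => {q | q % 3 = 2 ∧ InCT E π w0 c q} with hSdef
  have key := hUPS.1 (Fin 3) S (fun E q => (CubeRank.rr (BB h n E q) : ℝ)) (fun _ => S)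
    ![fun E q => α * ((Nat.card (WqS h n π p e r w0 c (BB h n E q)) : ℝ) ^ 0 *
        3 ^ (0 * kS h n b X Y P Q P' Q' E q)),
      fun E q => β * ((Nat.card (WqS h n π p e r w0 c (BB h n E q)) : ℝ) ^ 1 *
        3 ^ (0 * kS h n b X Y P Q P' Q' E q)),
      fun E q => (Nat.card (WqS h n π p e r w0 c (BB h n E q)) : ℝ) ^ 0 *
        (kS h n b X Y P Q P' Q' E q : ℝ)]
    ![α * (1 / 3 ^ (m + 1)), β * (cM 1 (dN h n w0) / 3 ^ (m + 1)),
      13 / 12 / 3 ^ (m + 1)] 1 (max 3 n) one_pos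
    (fun i E q => by
      fin_cases i
      · show (0 : ℝ) ≤ α * ((Nat.card (WqS h n π p e r w0 c (BB h n E q)) : ℝ) ^ 0 *
          3 ^ (0 * kS h n b X Y P Q P' Q' E q))
        positivity
      · show (0 : ℝ) ≤ β * ((Nat.card (WqS h n π p e r w0 c (BB h n E q)) : ℝ) ^ 1 *
          3 ^ (0 * kS h n b X Y P Q P' Q' E q))
        positivity
      · show (0 : ℝ) ≤ (Nat.card (WqS h n π p e r w0 c (BB h n E q)) : ℝ) ^ 0 *
          (kS h n b X Y P Q P' Q' E q : ℝ)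
        positivity)
    (fun E q hE hq hM hqS => by
      obtain ⟨d, hd, hr⟩ := AV2.rk hNBW hWGR hN hh hS hE hq hM hqS
      rw [Fin.sum_univ_three]
      rw [if_pos hqS, if_pos hqS, if_pos hqS]
      show 1 * (CubeRank.rr (BB h n E q) : ℝ) ≤
        α * ((Nat.card (WqS h n π p e r w0 c (BB h n E q)) : ℝ) ^ 0 *
          3 ^ (0 * kS h n b X Y P Q P' Q' E q)) +
        β * ((Nat.card (WqS h n π p e r w0 c (BB h n E q)) : ℝ) ^ 1 *
          3 ^ (0 * kS h n b X Y P Q P' Q' E q)) +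
        (Nat.card (WqS h n π p e r w0 c (BB h n E q)) : ℝ) ^ 0 *
          (kS h n b X Y P Q P' Q' E q : ℝ)
      rw [hd]
      have h1 : (CubeRank.rr (BB h n E q) : ℝ) ≤ (d : ℝ) + (kS h n b X Y P Q P' Q' E q : ℝ) := by
        exact_mod_cast hr
      have h2 := hw d
      push_cast
      simp only [zero_mul, pow_zero, pow_one, one_mul, mul_one]
      linarith)
    (fun i => by
      fin_cases i
      · exact d1
      · exact d2
      · exact b3)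
  have e1 : (∑ i : Fin 3, (![α * (1 / 3 ^ (m + 1)),
      β * (cM 1 (dN h n w0) / 3 ^ (m + 1)), 13 / 12 / 3 ^ (m + 1)] : Fin 3 → ℝ) i) / 1
      = (α + β * cM 1 (dN h n w0) + 13 / 12) / 3 ^ (m + 1) := by
    rw [Fin.sum_univ_three]
    simp only [Matrix.cons_val_zero, Matrix.cons_val_one, Matrix.cons_val]
    ring
  rw [e1] at key
  exact key

/-- the moments of `3 ^ r` -/
theorem pow_avg (hUPS : Stmt_UPS) (hJP2 : Stmt_JP2) (hVDIM : Stmt_VDIM)
    (hGMB : Stmt_GMB) (hESB : Stmt_ESB) (hNBW : Stmt_NBW) (hWGR : Stmt_WGR)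
    {h n m k : ℕ} {π : Fin m → PP} {p e : Fin m → ℕ} {r f : Fin k → ℕ}
    {w0 : ZMod 3} {c : Fin m → ZMod 3} {s : ℕ} {τ : Fin s → Fin 3} {b X Y : Fin s → ℤ}
    {P Q P' Q' : Fin s → Fin s → ℤ} (hN : NF n π p e r f) (hh : h ≤ 2)
    (hS : PlS h n π w0 c τ b X Y P Q P' Q') (k₀ : ℕ) :
    UpS (fun E => {q | q % 3 = 2 ∧ InCT E π w0 c q})
      (fun E q => (3 : ℝ) ^ (k₀ * CubeRank.rr (BB h n E q)))
      (cM k₀ (dN h n w0) * MoB k₀ / 3 ^ (m + 1)) := by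
  have c1 := jp hUPS hJP2 hVDIM hGMB hN hh hS k₀ (fun c => (3 : ℝ) ^ (k₀ * c))
    (fun a b hab => pow_le_pow_right₀ (by norm_num) (Nat.mul_le_mul_left _ hab))
    (by positivity) (hESB s k₀)
  set S : ℕ → Set ℕ := fun E => {q | q % 3 = 2 ∧ InCT E π w0 c q} with hSdef
  have key := hUPS.1 Unit S (fun E q => (3 : ℝ) ^ (k₀ * CubeRank.rr (BB h n E q))) (fun _ => S)
    (fun _ E q => (Nat.card (WqS h n π p e r w0 c (BB h n E q)) : ℝ) ^ k₀ *
        3 ^ (k₀ * kS h n b X Y P Q P' Q' E q))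
    (fun _ => cM k₀ (dN h n w0) * MoB k₀ / 3 ^ (m + 1)) 1 (max 3 n) one_pos
    (fun i E q => by positivity)
    (fun E q hE hq hM hqS => by
      obtain ⟨d, hd, hr⟩ := AV2.rk hNBW hWGR hN hh hS hE hq hM hqS
      rw [Fintype.sum_unique, if_pos hqS, hd]
      push_cast
      rw [one_mul, ← pow_mul, ← pow_add]
      refine pow_le_pow_right₀ (by norm_num) ?_
      have h1 := Nat.mul_le_mul_left k₀ hr
      rw [Nat.mul_add] at h1
      rw [mul_comm d k₀]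
      exact h1)
    (fun i => c1)
  rw [Fintype.sum_unique, div_one] at key
  exact key

end AM2

open AM2 in
theorem AM2_thm (hUPS : Stmt_UPS) (hUPA : Stmt_UPA) (hLAM : Stmt_LAM) (hPLE : Stmt_PLE)
    (hJP2 : Stmt_JP2) (hVDIM : Stmt_VDIM) (hGMB : Stmt_GMB) (hESB : Stmt_ESB)
    (hNBW : Stmt_NBW) (hWGR : Stmt_WGR) : Stmt_AM2 := by
  intro h n m k π p e r f w0 c hN hh
  obtain ⟨s, τ, b, X, Y, P, Q, P', Q', -, hS⟩ := hPLE h n m k π p e r f w0 c hN hh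
  refine ⟨?_, fun k₀ => ?_⟩
  · refine hUPA h n m k π p e r f w0 c 2 (fun A => (CubeRank.rr A : ℝ)) _ hN ?_
    by_cases hd : dN h n w0 ≤ 1
    · have h1 := rank_avg hUPS hLAM hJP2 hVDIM hGMB hESB hNBW hWGR hN hh hS (α := 1 / 2)
        (β := 1 / 6) (by norm_num) (by norm_num) (fun w => (AVR.nat1 w).trans (le_of_eq (by ring)))
      have e : ((1 : ℝ) / 2 + 1 / 6 * cM 1 (dN h n w0) + 13 / 12) = aW (dN h n w0) := by
        rw [cM_one hGMB, if_pos hd]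
        unfold aW
        rw [if_pos hd]
        norm_num
      rw [e] at h1
      exact h1
    · have h1 := rank_avg hUPS hLAM hJP2 hVDIM hGMB hESB hNBW hWGR hN hh hS (α := 3 / 2)
        (β := 1 / 18) (by norm_num) (by norm_num) (fun w => (AVR.nat2 w).trans (le_of_eq (by ring)))
      have e : ((3 : ℝ) / 2 + 1 / 18 * cM 1 (dN h n w0) + 13 / 12) = aW (dN h n w0) := by
        rw [cM_one hGMB, if_neg hd]
        unfold aW
        rw [if_neg hd]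
        norm_num
      rw [e] at h1
      exact h1
  · refine hUPA h n m k π p e r f w0 c 2 (fun A => (3 : ℝ) ^ (k₀ * CubeRank.rr A)) _ hN ?_
    exact pow_avg hUPS hJP2 hVDIM hGMB hESB hNBW hWGR hN hh hS k₀

end Pool.Agent.PTK
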