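import Pool.Agent.PTK.StC
import Pool.Agent.PTN.SUMA

/-!
# PTK_AVA: the averages over all `A`
-/

set_option autoImplicit false

open NumberField IsDedekindDomain Finset
open scoped nonZeroDivisors Pointwise

namespace Pool.Agent.PTK

open Pool.Agent.Lib_helper18 Pool.Agent.Lib_helper18.Eis Pool.Agent.Lib_helper84.Cub
open Pool.Agent.PT Pool.Agent.PTE Pool.Agent.PT3 Pool.Agent.PTL Pool.Agent.PTN

namespace AVA

/-- the sum of a function of `dN` over the classes -/
theorem sum_dN (h n m : ℕ) (g : ℕ → ℝ) :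
    ∑ x : ZMod 3 × (Fin m → ZMod 3), g (dN h n x.1) = 3 ^ m * ∑ w0 : ZMod 3, g (dN h n w0) := by
  rw [Fintype.sum_prod_type, Finset.mul_sum]
  refine Finset.sum_congr rfl fun w0 _ => ?_
  show ∑ _y : Fin m → ZMod 3, g (dN h n w0) = 3 ^ m * g (dN h n w0)
  rw [Finset.sum_const, Finset.card_univ, Fintype.card_fun, ZMod.card, Fintype.card_fin,
    nsmul_eq_mul]
  push_cast
  rfl

/-- the sum over `w0` -/
theorem sum_w0 (h n : ℕ) (g : ℕ → ℝ) (M : ℝ) (h0 : 3 * g 0 ≤ M) (h1 : 3 * g 1 ≤ M)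
    (h2 : 2 * g 1 + g 2 ≤ M) : ∑ w0 : ZMod 3, g (dN h n w0) ≤ M := by
  by_cases hh : h = 1
  · have : ∀ w0 : ZMod 3, g (dN h n w0) = g 0 := fun w0 => by
      unfold dN
      rw [if_pos hh]
    rw [Finset.sum_congr rfl fun w0 _ => this w0, Finset.sum_const, Finset.card_univ, ZMod.card,
      nsmul_eq_mul]
    push_cast
    exact h0
  · by_cases hh0 : h = 0
    · have h3 : ∀ w0 : ZMod 3, g (dN h n w0) =
          g 1 + (if w0 = - wt ((n : ℤ) ^ 2) then g 2 - g 1 else 0) := fun w0 => by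
        unfold dN
        rw [if_neg hh]
        by_cases hw : w0 = - wt ((n : ℤ) ^ 2)
        · rw [if_pos hw, if_pos ⟨hh0, by rw [hw, add_neg_cancel]⟩]
          ring
        · rw [if_neg hw, if_neg fun h5 => hw (by rw [← add_eq_zero_iff_eq_neg, add_comm]; exact h5.2)]
          ring
      rw [Finset.sum_congr rfl fun w0 _ => h3 w0, Finset.sum_add_distrib, Finset.sum_const,
        Finset.card_univ, ZMod.card, nsmul_eq_mul, Finset.sum_ite_eq' Finset.univ,
        if_pos (Finset.mem_univ _)]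
      push_cast
      linarith
    · have : ∀ w0 : ZMod 3, g (dN h n w0) = g 1 := fun w0 => by
        unfold dN
        rw [if_neg hh, if_neg fun h5 => hh0 h5.1]
      rw [Finset.sum_congr rfl fun w0 _ => this w0, Finset.sum_const, Finset.card_univ, ZMod.card,
        nsmul_eq_mul]
      push_cast
      exact h1

theorem total (h n m : ℕ) (g : ℕ → ℝ) (M : ℝ) (h0 : 3 * g 0 ≤ 3 * M) (h1 : 3 * g 1 ≤ 3 * M)
    (h2 : 2 * g 1 + g 2 ≤ 3 * M) :
    ∑ x : ZMod 3 × (Fin m → ZMod 3), g (dN h n x.1) / 3 ^ (m + 1) ≤ M := by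
  rw [← Finset.sum_div, sum_dN, div_le_iff₀ (by positivity)]
  have h3 := sum_w0 h n g (3 * M) h0 h1 h2
  have h4 : (0 : ℝ) < 3 ^ m := by positivity
  calc (3 : ℝ) ^ m * ∑ w0 : ZMod 3, g (dN h n w0) ≤ 3 ^ m * (3 * M) :=
        mul_le_mul_of_nonneg_left h3 h4.le
    _ = M * 3 ^ (m + 1) := by ring

end AVA

/-- PTK_AVA -/
theorem AVA_thm (hSUMA : Stmt_SUMA) (hAVR : Stmt_AVR) : Stmt_AVA := by
  intro h n m k π p e r f hN hh
  constructor
  · obtain ⟨s1, -, s3, -⟩ := hSUMA ((3 ^ h * n : ℕ) : ℤ) 2 m π (fun A => (CubeRank.rr A : ℝ))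
    have h1 := s1 (fun x => aD' (dN h n x.1) / 3 ^ (m + 1))
      fun y => (hAVR h n m k π p e r f y.1 y.2 hN hh).1
    refine s3 _ _ _ ?_ h1
    apply AVA.total h n m aD'
    · unfold aD'
      rw [if_pos rfl]
      norm_num
    · unfold aD'
      rw [if_neg one_ne_zero, if_pos rfl]
      norm_num
    · unfold aD'
      rw [if_neg one_ne_zero, if_pos rfl, if_neg two_ne_zero, if_neg (by norm_num)]
      norm_num
  · obtain ⟨s1, -, s3, -⟩ := hSUMA ((3 ^ h * n : ℕ) : ℤ) 2 m π (fun A => √3 ^ CubeRank.rr A)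
    have h1 := s1 (fun x => bD' (dN h n x.1) / 3 ^ (m + 1))
      fun y => (hAVR h n m k π p e r f y.1 y.2 hN hh).2
    refine s3 _ _ _ ?_ h1
    apply AVA.total h n m bD'
    · unfold bD'
      rw [if_pos rfl]
      norm_num
    · unfold bD'
      rw [if_neg one_ne_zero, if_pos rfl]
      norm_num
    · unfold bD'
      rw [if_neg one_ne_zero, if_pos rfl, if_neg two_ne_zero, if_neg (by norm_num)]
      norm_num

end Pool.Agent.PTK
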