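import Pool.Agent.PTK.StW
import Pool.Agent.PTK.AVA

/-!
# PTK_AMF: the averages over all `A`, all moments
-/

set_option autoImplicit false

open NumberField IsDedekindDomain Finset
open scoped nonZeroDivisors Pointwise

namespace Pool.Agent.PTK

open Pool.Agent.Lib_helper18 Pool.Agent.Lib_helper18.Eis Pool.Agent.Lib_helper84.Cub
open Pool.Agent.PT Pool.Agent.PTE Pool.Agent.PT3 Pool.Agent.PTL Pool.Agent.PTN

namespace AMF

theorem MoB_nonneg (k : ℕ) : 0 ≤ MoB k := by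
  unfold MoB
  positivity

theorem aW0 : aW 0 = 9 / 4 := by
  unfold aW
  rw [if_pos (by norm_num)]

theorem aW1 : aW 1 = 9 / 4 := by
  unfold aW
  rw [if_pos (by norm_num)]

theorem aW2 : aW 2 = 335 / 108 := by
  unfold aW
  rw [if_neg (by norm_num)]

theorem cM0 (k : ℕ) : cM k 0 = MoB k := by
  unfold cM
  rw [if_pos (by norm_num)]

theorem cM1 (k : ℕ) : cM k 1 = MoB k := by
  unfold cM
  rw [if_pos (by norm_num)]

theorem cM2 (k : ℕ) : cM k 2 = gM k 2 := by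
  unfold cM
  rw [if_neg (by norm_num)]

/-- `dN ≤ 1` for `h ≠ 0` -/
theorem dN_le (h n : ℕ) (w0 : ZMod 3) (hh : h ≠ 0) : dN h n w0 = 0 ∨ dN h n w0 = 1 := by
  unfold dN
  split_ifs with h1 h2
  · exact Or.inl rfl
  · exact absurd h2.1 hh
  · exact Or.inr rfl

end AMF

open AMF in
/-- PTK_AMF -/
theorem AMF_thm (hSUMA : Stmt_SUMA) (hAM2 : Stmt_AM2) (hAM1 : Stmt_AM1) (hGMB : Stmt_GMB) :
    Stmt_AMF := by
  intro h n m k π p e r f hN hh a ha
  -- the two averages in the classes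
  have hr : ∀ (w0 : ZMod 3) (c : Fin m → ZMod 3),
      AboveA ((3 ^ h * n : ℕ) : ℤ) a (Kl π w0 c) (fun A => (CubeRank.rr A : ℝ))
        (aW (dN h n w0) / 3 ^ (m + 1)) := by
    intro w0 c
    rcases ha with rfl | rfl
    · exact (hAM1 h n m k π p e r f w0 c hN hh).1
    · exact (hAM2 h n m k π p e r f w0 c hN hh).1
  have hp : ∀ (k₀ : ℕ) (w0 : ZMod 3) (c : Fin m → ZMod 3),
      AboveA ((3 ^ h * n : ℕ) : ℤ) a (Kl π w0 c) (fun A => 3 ^ (k₀ * CubeRank.rr A))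
        (cM k₀ (dN h n w0) * MoB k₀ / 3 ^ (m + 1)) := by
    intro k₀ w0 c
    rcases ha with rfl | rfl
    · exact (hAM1 h n m k π p e r f w0 c hN hh).2 k₀
    · exact (hAM2 h n m k π p e r f w0 c hN hh).2 k₀
  obtain ⟨-, -, -, hg2, hg12, -, hM1, -⟩ := hGMB
  -- the total of the moments
  have hall : ∀ k₀ : ℕ, ∀ M : ℝ, MoB k₀ * MoB k₀ ≤ M →
      2 * (MoB k₀ * MoB k₀) + gM k₀ 2 * MoB k₀ ≤ 3 * M →
      AboveA ((3 ^ h * n : ℕ) : ℤ) a (fun _ => True)
        (fun A => 3 ^ (k₀ * CubeRank.rr A)) M := by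
    intro k₀ M hM0 hM2
    obtain ⟨s1, -, s3, -⟩ := hSUMA ((3 ^ h * n : ℕ) : ℤ) a m π
      (fun A => 3 ^ (k₀ * CubeRank.rr A))
    have h1 := s1 (fun x => cM k₀ (dN h n x.1) * MoB k₀ / 3 ^ (m + 1))
      fun y => hp k₀ y.1 y.2
    refine s3 _ _ _ ?_ h1
    apply AVA.total h n m (fun d => cM k₀ d * MoB k₀)
    · simp only [cM0]
      linarith
    · simp only [cM1]
      linarith
    · simp only [cM1, cM2]
      exact hM2
  refine ⟨?_, ?_, ?_, ?_⟩
  · obtain ⟨s1, -, s3, -⟩ := hSUMA ((3 ^ h * n : ℕ) : ℤ) a m π (fun A => (CubeRank.rr A : ℝ))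
    have h1 := s1 (fun x => aW (dN h n x.1) / 3 ^ (m + 1)) fun y => hr y.1 y.2
    refine s3 _ _ _ ?_ h1
    apply AVA.total h n m aW
    · rw [aW0]; norm_num
    · rw [aW1]; norm_num
    · rw [aW1, aW2]; norm_num
  · have h1 := hall 1 (208 / 9) (by rw [hM1]; norm_num) (by rw [hM1, hg12]; norm_num)
    simpa only [one_mul] using h1
  · intro k₀
    have h0 := MoB_nonneg k₀
    have h1 : gM k₀ 2 * MoB k₀ ≤ 3 * MoB k₀ * MoB k₀ := mul_le_mul_of_nonneg_right (hg2 k₀) h0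
    have h2 : 0 ≤ MoB k₀ * MoB k₀ := mul_nonneg h0 h0
    refine hall k₀ _ ?_ ?_
    · rw [sq]
      linarith
    · rw [sq]
      linarith
  · intro hh0
    constructor
    · obtain ⟨s1, -, s3, -⟩ := hSUMA ((3 ^ h * n : ℕ) : ℤ) a m π
        (fun A => (CubeRank.rr A : ℝ))
      have h1 := s1 (fun x => aW (dN h n x.1) / 3 ^ (m + 1)) fun y => hr y.1 y.2
      refine s3 _ _ _ ?_ h1
      have h2 : ∀ w0 : ZMod 3, aW (dN h n w0) = 9 / 4 := fun w0 => by
        rcases dN_le h n w0 hh0 with h3 | h3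
        · rw [h3, aW0]
        · rw [h3, aW1]
      simp only [h2]
      have h4 := AVA.total 0 0 m (fun _ => (9 / 4 : ℝ)) (9 / 4) (by norm_num) (by norm_num)
        (by norm_num)
      exact h4
    · intro k₀
      obtain ⟨s1, -, s3, -⟩ := hSUMA ((3 ^ h * n : ℕ) : ℤ) a m π
        (fun A => 3 ^ (k₀ * CubeRank.rr A))
      have h1 := s1 (fun x => cM k₀ (dN h n x.1) * MoB k₀ / 3 ^ (m + 1))
        fun y => hp k₀ y.1 y.2
      refine s3 _ _ _ ?_ h1
      have h2 : ∀ w0 : ZMod 3, cM k₀ (dN h n w0) = MoB k₀ := fun w0 => by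
        rcases dN_le h n w0 hh0 with h3 | h3
        · rw [h3, cM0]
        · rw [h3, cM1]
      simp only [h2]
      have h4 := AVA.total 0 0 m (fun _ => MoB k₀ * MoB k₀) (MoB k₀ ^ 2) (by rw [sq])
        (by rw [sq]) (by rw [sq]; linarith)
      exact h4

end Pool.Agent.PTK
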