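import Pool.Agent.PTK.StC
import Pool.Agent.PTN.DOMG

/-! PTK_AVC (helper87): the average of `3` to the corank. -/

set_option autoImplicit false

open Finset

namespace Pool.Agent.PTK

open Pool.Agent.Lib_helper18 Pool.Agent.Lib_helper18.Eis Pool.Agent.Lib_helper84.Cub
open Pool.Agent.PT Pool.Agent.PTE Pool.Agent.PT3 Pool.Agent.PTL Pool.Agent.PTN

theorem AVC_thm (hCRK : Stmt_CRK) (hDOMG : Stmt_DOMG) (hLAW : Stmt_LAW) : Stmt_AVC := by
  classical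
  intro h n m k π p e r f w0 c hN hh
  obtain ⟨κ₀, hκ, hM, hT⟩ := hCRK h n m k π p e r f w0 c hN hh
  refine ⟨κ₀, hM, ?_⟩
  set s := sN h n π p e r w0 c with hs
  obtain ⟨K, hK⟩ := hDOMG (fun E => {q : ℕ | q % 3 = 2 ∧ InCT E π w0 c q})
    (fun E q => κ₀ (BB h n E q)) (fun t => LI s t / 3 ^ (m + 1)) 0 s
    (fun x => (3 : ℝ) ^ x) (fun E q _ _ _ _ => hκ _)
    (fun t => by
      obtain ⟨K, hK⟩ := hT t
      refine ⟨K, fun σ h1 h2 => ?_⟩
      have e1 := hK σ h1 h2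
      have e2 : ∀ E : ℕ, {q : ℕ | q ∈ {q : ℕ | q % 3 = 2 ∧ InCT E π w0 c q} ∧
          t ≤ κ₀ (BB h n E q)} = {q : ℕ | q % 3 = 2 ∧ InCT E π w0 c q ∧ t ≤ κ₀ (BB h n E q)} := by
        intro E
        ext q
        exact and_assoc
      rw [e2, e2]
      exact e1)
    (fun a b hab => pow_le_pow_right₀ (by norm_num) hab) (by norm_num)
  refine ⟨K, fun σ h1 h2 T => ?_⟩
  have e3 := hK σ h1 h2 T
  have hlog : 0 ≤ Real.log (1 / (σ - 1)) := by
    apply Real.log_nonneg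
    rw [le_div_iff₀ (by linarith)]
    linarith
  have e4 : (3 : ℝ) ^ 0 * (LI s 0 / 3 ^ (m + 1)) + ∑ t ∈ Finset.range s,
      ((3 : ℝ) ^ (t + 1) - 3 ^ t) * (LI s (t + 1) / 3 ^ (m + 1)) ≤ 4 / 3 ^ (m + 1) := by
    have e5 := hLAW.1 s 0 (fun x => (3 : ℝ) ^ x)
    have e6 := hLAW.2.2.2.2.2.2.1 s 0
    simp only [zero_add, Nat.sub_zero, pow_zero, mul_one] at e5 e6
    have e7 : (3 : ℝ) ^ 0 * (LI s 0 / 3 ^ (m + 1)) + ∑ t ∈ Finset.range s,
        ((3 : ℝ) ^ (t + 1) - 3 ^ t) * (LI s (t + 1) / 3 ^ (m + 1)) =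
        (1 * LI s 0 + ∑ t ∈ Finset.range s, ((3 : ℝ) ^ (t + 1) - 3 ^ t) * LI s (t + 1)) /
          3 ^ (m + 1) := by
      rw [add_div, Finset.sum_div]
      simp only [pow_zero, mul_div_assoc]
    rw [e7, e5]
    exact div_le_div_of_nonneg_right e6 (by positivity)
  have e8 := mul_le_mul_of_nonneg_right e4 hlog
  refine le_trans (le_of_eq ?_) (e3.trans ?_)
  · refine Finset.sum_congr rfl fun E _ => Finset.sum_congr rfl fun q _ => ?_
    congr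
  · linarith

end Pool.Agent.PTK
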