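import Pool.Agent.PTK.StZ

/-!
# AVE: the value `AVE` is attained
-/

set_option autoImplicit false

namespace Pool.Agent.PTK

open Pool.Agent.Lib_helper18 Pool.Agent.Lib_helper18.Eis Pool.Agent.Lib_helper84.Cub
open Pool.Agent.PT

namespace AVE

theorem pow_dvd_iff {π a : Eis} (hπ : Prime π) (ha : a ≠ 0) (k : ℕ) : π ^ k ∣ a ↔ k ≤ V π a :=
  (fin hπ ha).pow_dvd_iff_le_multiplicity

theorem pig {π a b c : Eis} (hπ : Prime π) {M : ℕ} (h : π ^ (3 * M) ∣ a * b * c) :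
    π ^ M ∣ a ∨ π ^ M ∣ b ∨ π ^ M ∣ c := by
  by_cases ha : a = 0
  · exact Or.inl (ha ▸ dvd_zero _)
  by_cases hb : b = 0
  · exact Or.inr (Or.inl (hb ▸ dvd_zero _))
  by_cases hc : c = 0
  · exact Or.inr (Or.inr (hc ▸ dvd_zero _))
  rw [pow_dvd_iff hπ (mul_ne_zero (mul_ne_zero ha hb) hc), V_mul hπ (mul_ne_zero ha hb) hc,
    V_mul hπ ha hb] at h
  rw [pow_dvd_iff hπ ha, pow_dvd_iff hπ hb, pow_dvd_iff hπ hc]
  omega

theorem close {π P Q : Eis} (hπ : Prime π) {N : ℕ} (h : π ^ N ∣ P - Q) (hQ : Q ≠ 0)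
    (hN : V π Q < N) : P ≠ 0 ∧ V π P ≤ V π Q := by
  have h1 : ¬ π ^ N ∣ P := by
    intro h2
    have h3 : π ^ N ∣ Q := by
      have h4 := dvd_sub h2 h
      rwa [sub_sub_cancel] at h4
    rw [pow_dvd_iff hπ hQ] at h3
    omega
  have hP : P ≠ 0 := by
    rintro rfl
    exact h1 (dvd_zero _)
  refine ⟨hP, ?_⟩
  rw [pow_dvd_iff hπ hP, not_le] at h1
  rw [← pow_dvd_iff hπ hQ]
  have h2 : π ^ V π P ∣ P := (pow_dvd_iff hπ hP _).mpr le_rfl
  have h3 : π ^ V π P ∣ P - Q := (pow_dvd_pow π h1.le).trans h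
  have h4 := dvd_sub h2 h3
  rwa [sub_sub_cancel] at h4

theorem prod_eq (p q r : Eis) :
    LfE p q 0 r * LfE p q 1 r * LfE p q 2 r = (p ^ 3 + q ^ 3 * r ^ 3) := by
  unfold LfE
  have h1 := w_rel
  have h2 := w_cube
  linear_combination (p ^ 2 * q * r + p * q ^ 2 * r ^ 2 * w) * h1 +
    ((q * r) ^ 3) * h2

theorem LfE_add_three (p q r : Eis) (j : ℕ) : LfE p q (j + 3) r = LfE p q j r := by
  unfold LfE
  rw [pow_add, w_cube, mul_one]

theorem prod_sub {π : Eis} {b r : Eis} {N : ℕ} (h : π ^ N ∣ r ^ 3 - b) (p q : Eis) :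
    π ^ N ∣ LfE p q 0 r * LfE p q 1 r * LfE p q 2 r - (p ^ 3 + b * q ^ 3) := by
  rw [prod_eq]
  have e : (p ^ 3 + q ^ 3 * r ^ 3) - (p ^ 3 + b * q ^ 3) =
      (r ^ 3 - b) * q ^ 3 := by
    ring
  rw [e]
  exact Dvd.dvd.mul_right h _

theorem lin {π : Eis} (hπ : Prime π) {b r : Eis} {N : ℕ} (h : π ^ N ∣ r ^ 3 - b)
    (p q : Eis) (h0 : (p ^ 3 + b * q ^ 3) ≠ 0)
    (hN : V π (p ^ 3 + b * q ^ 3) < N) :
    ∀ j < 3, LfE p q j r ≠ 0 ∧ V π (LfE p q j r) ≤ V π (p ^ 3 + b * q ^ 3) := by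
  obtain ⟨h1, h2⟩ := close hπ (prod_sub h p q) h0 hN
  have h3 := mul_ne_zero_iff.mp h1
  have h4 := mul_ne_zero_iff.mp h3.1
  rw [V_mul hπ h3.1 h3.2, V_mul hπ h4.1 h4.2] at h2
  intro j hj
  interval_cases j
  · exact ⟨h4.1, by omega⟩
  · exact ⟨h4.2, by omega⟩
  · exact ⟨h3.2, by omega⟩

section

variable {π : Eis} {s : Eis → Eis → ZMod 3} {e : ℕ}

theorem cont' (hs : LSym π s e) {a a' B : Eis} (hB : B ≠ 0) (ha : a ≠ 0) (ha' : a' ≠ 0)
    (h : π ^ (V π a + e) ∣ a' - a) : s B a' = s B a := by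
  rw [hs.skew a' B ha' hB, hs.skew a B ha hB, hs.cont a a' B ha hB h]

theorem mul' (hs : LSym π s e) {a c B : Eis} (hB : B ≠ 0) (ha : a ≠ 0) (hc : c ≠ 0) :
    s B (a * c) = s B a + s B c := by
  rw [hs.skew (a * c) B (mul_ne_zero ha hc) hB, hs.skew a B ha hB, hs.skew c B hc hB,
    hs.mul a c B ha hc hB]
  ring

theorem sum_eq (hs : LSym π s e) {B : Eis} (hB : B ≠ 0) {b r : Eis} {N : ℕ}
    (h : π ^ N ∣ r ^ 3 - b) (p q : Eis) (h0 : (p ^ 3 + b * q ^ 3) ≠ 0)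
    (hN : V π (p ^ 3 + b * q ^ 3) + e < N) :
    s B (LfE p q 0 r) + s B (LfE p q 1 r) + s B (LfE p q 2 r) =
      s B (p ^ 3 + b * q ^ 3) := by
  have h1 := lin hs.prime h p q h0 (by omega)
  have n0 := (h1 0 (by norm_num)).1
  have n1 := (h1 1 (by norm_num)).1
  have n2 := (h1 2 (by norm_num)).1
  rw [← mul' hs hB n0 n1, ← mul' hs hB (mul_ne_zero n0 n1) n2]
  exact cont' hs hB h0 (mul_ne_zero (mul_ne_zero n0 n1) n2)
    ((pow_dvd_pow π hN.le).trans (prod_sub h p q))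

theorem shift (hs : LSym π s e) {B : Eis} (hB : B ≠ 0) {r r' : Eis} {M : ℕ} {i j k : ℕ}
    (h : π ^ M ∣ r' - w ^ i * r) (p q : Eis) (hk : LfE p q (j + i) r = LfE p q k r)
    (hne : LfE p q k r ≠ 0) (hne' : LfE p q j r' ≠ 0) (hM : V π (LfE p q k r) + e ≤ M) :
    s B (LfE p q j r') = s B (LfE p q k r) := by
  refine cont' hs hB hne hne' ((pow_dvd_pow π hM).trans ?_)
  rw [← hk]
  have e1 : LfE p q j r' - LfE p q (j + i) r = (r' - w ^ i * r) * (q * w ^ j) := by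
    unfold LfE
    rw [pow_add]
    ring
  rw [e1]
  exact Dvd.dvd.mul_right h _

end


/-- the symbol at a place is a symbol at its uniformizer -/
theorem lsym (hSTM : STM) (hSPP : SPP) (hSLC : SLC) (v : Pl) : ∃ e, LSym (uni v) (sy v) e := by
  cases v with
  | none => exact ⟨4, hSLC⟩
  | some π => exact ⟨1, hSTM π.1 π.2.1 (hSPP.2.2.2.1 π).1⟩

/-- independence of the cube root -/
theorem root (π : Eis) (s : Eis → Eis → ZMod 3) (e : ℕ) (hs : LSym π s e)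
    (b x p q p' q' B : Eis) (hx : x ≠ 0) (hW : SolWE b x p q p' q') (hB : B ≠ 0)
    (hBx : s B x = 0) :
    ∃ N0 : ℕ, ∀ r r' : Eis, π ^ N0 ∣ r ^ 3 - b → π ^ N0 ∣ r' ^ 3 - b →
      ASE s B p q p' q' r = ASE s B p q p' q' r' := by
  have n1 : p ^ 3 + b * q ^ 3 ≠ 0 := hW.n1
  have n2 : p' ^ 3 + b * q' ^ 3 ≠ 0 := by
    intro h
    apply n1
    rw [hW.eq, h, mul_zero]
  set v1 := V π (p ^ 3 + b * q ^ 3) with hv1
  set v2 := V π (p' ^ 3 + b * q' ^ 3) with hv2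
  set M := v1 + v2 + e + 1 with hM
  refine ⟨3 * M, fun r r' hr hr' => ?_⟩
  have L := lin hs.prime hr p q n1 (by omega)
  have L' := lin hs.prime hr p' q' n2 (by omega)
  have K := lin hs.prime hr' p q n1 (by omega)
  have K' := lin hs.prime hr' p' q' n2 (by omega)
  have hS := sum_eq hs hB hr p q n1 (by omega)
  have hS' := sum_eq hs hB hr p' q' n2 (by omega)
  have hprod : s B (p ^ 3 + b * q ^ 3) = s B (p' ^ 3 + b * q' ^ 3) := by
    have h1 : (p ^ 3 + b * q ^ 3) = x * (p' ^ 3 + b * q' ^ 3) := by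
      rw [hW.eq]
    rw [h1, mul' hs hB hx n2, hBx, zero_add]
  rw [hprod, ← hS'] at hS
  have h3 : (3 : ZMod 3) = 0 := by decide
  have hdiv : π ^ (3 * M) ∣ (r' - w ^ 0 * r) * (r' - w ^ 1 * r) *
      (r' - w ^ 2 * r) := by
    have e1 : (r' - w ^ 0 * r) * (r' - w ^ 1 * r) * (r' - w ^ 2 * r) =
        (r' ^ 3 - b) - (r ^ 3 - b) := by
      have h1 := w_rel
      have h2 := w_cube
      linear_combination (-(r' ^ 2) * r + r' * r ^ 2 * w) * h1 -
        (r ^ 3) * h2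
    rw [e1]
    exact dvd_sub hr' hr
  have b0 := (L 0 (by norm_num)).2
  have b1 := (L 1 (by norm_num)).2
  have b2 := (L 2 (by norm_num)).2
  have c0 := (L' 0 (by norm_num)).2
  have c1 := (L' 1 (by norm_num)).2
  have c2 := (L' 2 (by norm_num)).2
  rcases pig hs.prime hdiv with h | h | h
  · have e1 := shift hs hB h p q (j := 2) (k := 2) rfl (L 2 (by norm_num)).1
      (K 2 (by norm_num)).1 (by omega)
    have e2 := shift hs hB h p' q' (j := 1) (k := 1) rfl (L' 1 (by norm_num)).1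
      (K' 1 (by norm_num)).1 (by omega)
    have e3 := shift hs hB h p q (j := 1) (k := 1) rfl (L 1 (by norm_num)).1
      (K 1 (by norm_num)).1 (by omega)
    have e4 := shift hs hB h p' q' (j := 2) (k := 2) rfl (L' 2 (by norm_num)).1
      (K' 2 (by norm_num)).1 (by omega)
    unfold ASE
    rw [e1, e2, e3, e4]
  · have e1 := shift hs hB h p q (j := 2) (k := 0) (LfE_add_three p q r 0)
      (L 0 (by norm_num)).1 (K 2 (by norm_num)).1 (by omega)
    have e2 := shift hs hB h p' q' (j := 1) (k := 2) rfl (L' 2 (by norm_num)).1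
      (K' 1 (by norm_num)).1 (by omega)
    have e3 := shift hs hB h p q (j := 1) (k := 2) rfl (L 2 (by norm_num)).1
      (K 1 (by norm_num)).1 (by omega)
    have e4 := shift hs hB h p' q' (j := 2) (k := 0) (LfE_add_three p' q' r 0)
      (L' 0 (by norm_num)).1 (K' 2 (by norm_num)).1 (by omega)
    unfold ASE
    rw [e1, e2, e3, e4]
    linear_combination (-1 : ZMod 3) * hS + (s B (LfE p q 2 r) - s B (LfE p' q' 2 r)) * h3
  · have e1 := shift hs hB h p q (j := 2) (k := 1) (LfE_add_three p q r 1)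
      (L 1 (by norm_num)).1 (K 2 (by norm_num)).1 (by omega)
    have e2 := shift hs hB h p' q' (j := 1) (k := 0) (LfE_add_three p' q' r 0)
      (L' 0 (by norm_num)).1 (K' 1 (by norm_num)).1 (by omega)
    have e3 := shift hs hB h p q (j := 1) (k := 0) (LfE_add_three p q r 0)
      (L 0 (by norm_num)).1 (K 1 (by norm_num)).1 (by omega)
    have e4 := shift hs hB h p' q' (j := 2) (k := 1) (LfE_add_three p' q' r 1)
      (L' 1 (by norm_num)).1 (K' 2 (by norm_num)).1 (by omega)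
    unfold ASE
    rw [e1, e2, e3, e4]
    linear_combination hS + (s B (LfE p' q' 1 r) - s B (LfE p q 1 r)) * h3


end AVE

theorem AVE_thm (hSTM : STM) (hSPP : SPP) (hSLC : SLC) : Stmt_AVE := by
  intro v B b x p q p' q' hB hb hx hsol hs hlc
  obtain ⟨e, he⟩ := AVE.lsym hSTM hSPP hSLC v
  obtain ⟨N0, hN0⟩ := AVE.root (uni v) (sy v) e he b x p q p' q' B hx hsol hB hs
  obtain ⟨r0, hr0⟩ := hlc N0
  have h : ∃ c : ZMod 3, ∃ N0 : ℕ, ∀ r : Eis, uni v ^ N0 ∣ r ^ 3 - b →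
      ASE (sy v) B p q p' q' r = c :=
    ⟨ASE (sy v) B p q p' q' r0, N0, fun r hr => hN0 r r0 hr hr0⟩
  have hav : AVE v B b p q p' q' = h.choose := by
    unfold AVE
    rw [dif_pos h]
  have h1 : ∃ N0 : ℕ, ∀ r : Eis, uni v ^ N0 ∣ r ^ 3 - b →
      ASE (sy v) B p q p' q' r = AVE v B b p q p' q' := by
    rw [hav]
    exact h.choose_spec
  refine ⟨h1, fun c N hN => ?_⟩
  obtain ⟨M, hM⟩ := h1
  obtain ⟨r, hr⟩ := hlc (max M N)
  rw [← hM r ((pow_dvd_pow _ (le_max_left M N)).trans hr),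
    hN r ((pow_dvd_pow _ (le_max_right M N)).trans hr)]

end Pool.Agent.PTK
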