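import Pool.Agent.PTK.StK
import Pool.Agent.PTK.AVA

/-!
# PTK_AVF: the averages over all `A`
-/

set_option autoImplicit false

open NumberField IsDedekindDomain Finset
open scoped nonZeroDivisors Pointwise

namespace Pool.Agent.PTK

open Pool.Agent.Lib_helper18 Pool.Agent.Lib_helper18.Eis Pool.Agent.Lib_helper84.Cub
open Pool.Agent.PT Pool.Agent.PTE Pool.Agent.PT3 Pool.Agent.PTL Pool.Agent.PTN

/-- PTK_AVF -/
theorem AVF_thm (hSUMA : Stmt_SUMA) (hAV2 : Stmt_AV2) (hAV1 : Stmt_AV1) : Stmt_AVF := by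
  intro h n m k π p e r f hN hh
  refine ⟨?_, ?_, ?_, ?_⟩
  · obtain ⟨s1, -, s3, -⟩ := hSUMA ((3 ^ h * n : ℕ) : ℤ) 2 m π (fun A => (CubeRank.rr A : ℝ))
    have h1 := s1 (fun x => aQ (dN h n x.1) / 3 ^ (m + 1))
      fun y => (hAV2 h n m k π p e r f y.1 y.2 hN hh).1
    refine s3 _ _ _ ?_ h1
    apply AVA.total h n m aQ
    · unfold aQ
      rw [if_pos rfl]
      norm_num
    · unfold aQ
      rw [if_neg one_ne_zero, if_pos rfl]
      norm_num
    · unfold aQ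
      rw [if_neg one_ne_zero, if_pos rfl, if_neg two_ne_zero, if_neg (by norm_num)]
      norm_num
  · obtain ⟨s1, -, s3, -⟩ := hSUMA ((3 ^ h * n : ℕ) : ℤ) 2 m π (fun A => 3 ^ CubeRank.rr A)
    have h1 := s1 (fun x => 4 * (3 + 3 ^ dN h n x.1) / 3 ^ (m + 1))
      fun y => (hAV2 h n m k π p e r f y.1 y.2 hN hh).2
    refine s3 _ _ _ ?_ h1
    apply AVA.total h n m (fun d => 4 * (3 + 3 ^ d)) <;> norm_num
  · obtain ⟨s1, -, s3, -⟩ := hSUMA ((3 ^ h * n : ℕ) : ℤ) 1 m π (fun A => (CubeRank.rr A : ℝ))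
    have h1 := s1 (fun x => cQ (dN h n x.1) / 3 ^ (m + 1))
      fun y => (hAV1 h n m k π p e r f y.1 y.2 hN hh).1
    refine s3 _ _ _ ?_ h1
    apply AVA.total h n m cQ
    · unfold cQ
      rw [if_pos rfl]
      norm_num
    · unfold cQ
      rw [if_neg one_ne_zero, if_pos rfl]
      norm_num
    · unfold cQ
      rw [if_neg one_ne_zero, if_pos rfl, if_neg two_ne_zero, if_neg (by norm_num)]
      norm_num
  · obtain ⟨s1, -, s3, -⟩ := hSUMA ((3 ^ h * n : ℕ) : ℤ) 1 m π (fun A => 3 ^ CubeRank.rr A)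
    have h1 := s1 (fun x => 7 * (3 + 3 ^ dN h n x.1) / 3 ^ (m + 1))
      fun y => (hAV1 h n m k π p e r f y.1 y.2 hN hh).2
    refine s3 _ _ _ ?_ h1
    apply AVA.total h n m (fun d => 7 * (3 + 3 ^ d)) <;> norm_num

end Pool.Agent.PTK
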