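import Pool.Agent.PTK.StK

/-!
# PTK_AVG: the averages for one pattern, `q = 1 (mod 3)`
-/

set_option autoImplicit false

open NumberField IsDedekindDomain Finset
open scoped nonZeroDivisors Pointwise

namespace Pool.Agent.PTK

open Pool.Agent.Lib_helper18 Pool.Agent.Lib_helper18.Eis Pool.Agent.Lib_helper84.Cub
open Pool.Agent.PT Pool.Agent.PTE Pool.Agent.PT3 Pool.Agent.PTL Pool.Agent.PTN

/-- PTK_AVG -/
theorem AVG_thm (hKUP : Stmt_KUP) (hWSUM : Stmt_WSUM) (hCTU : Stmt_CTU) (hCU0 : Stmt_CU0) :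
    Stmt_AVG := by
  intro h n m k π p e r f w0 c d v δ s τ b X Y P Q P' Q' hNF hh hδ hPl
  have hd : d - 1 = s := by
    have := hPl.dim
    omega
  have hx : (0 : ℝ) ≤ 2 / 3 ^ d / 3 ^ (m + 1) := by positivity
  have hkU : ∀ E q : ℕ, kU h n b X Y P Q P' Q' E q ≤ s := fun E q => Nat.sub_le _ _
  obtain ⟨a1, a2, a3⟩ := hKUP (fun E => {q | q % 3 = 1 ∧ InCT E π w0 c q ∧ q ∈ Pat v δ})
    (fun E q => kU h n b X Y P Q P' Q' E q) s 0 (2 / 3 ^ d / 3 ^ (m + 1)) hx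
    (fun E q _ _ _ _ => hkU E q)
    (fun t => hCU0 h n m k π p e r f w0 c d v δ s τ b X Y P Q P' Q' hNF hh hδ hPl t)
  have hocc : ∀ y ∈ VS h n π p e r w0 c, ∀ (l : ℕ) (u : Fin l → Fin (m + 1) → ZMod 3),
      (∀ j, u j ∈ V0 h n π p e r w0 c) →
      LinearIndependent (ZMod 3) (Fin.cons y u : Fin (l + 1) → Fin (m + 1) → ZMod 3) →
      UpS (fun E => {q | q ∈ {q | q % 3 = 1 ∧ InCT E π w0 c q ∧ q ∈ Pat v δ} ∧
          Occ (BB h n E q) (zN π e y)})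
        (fun E q => 3 ^ kU h n b X Y P Q P' Q' E q) (4 * (2 / 3 ^ d / 3 ^ l / 3 ^ (m + 1))) ∧
      UpS (fun E => {q | q ∈ {q | q % 3 = 1 ∧ InCT E π w0 c q ∧ q ∈ Pat v δ} ∧
          Occ (BB h n E q) (zN π e y)})
        (fun _ _ => 1) (2 / 3 ^ d / 3 ^ l / 3 ^ (m + 1)) := by
    intro y hy l u hu hind
    have hset : ∀ E : ℕ, ∀ t : ℕ,
        {q | q ∈ {q | q ∈ {q | q % 3 = 1 ∧ InCT E π w0 c q ∧ q ∈ Pat v δ} ∧
          Occ (BB h n E q) (zN π e y)} ∧ t ≤ kU h n b X Y P Q P' Q' E q} =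
        {q | (q ∈ QYU h n π e w0 c y E ∧ q ∈ Pat v δ) ∧
          t ≤ kU h n b X Y P Q P' Q' E q} := by
      intro E t
      ext q
      constructor
      · rintro ⟨⟨⟨h1, h2, h3⟩, h4⟩, h5⟩
        exact ⟨⟨⟨h1, h2, h4⟩, h3⟩, h5⟩
      · rintro ⟨⟨⟨h1, h2, h4⟩, h3⟩, h5⟩
        exact ⟨⟨⟨h1, h2, h3⟩, h4⟩, h5⟩
    obtain ⟨b1, -, b3⟩ := hKUP
      (fun E => {q | q ∈ {q | q % 3 = 1 ∧ InCT E π w0 c q ∧ q ∈ Pat v δ} ∧
          Occ (BB h n E q) (zN π e y)})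
      (fun E q => kU h n b X Y P Q P' Q' E q) s 0 (2 / 3 ^ d / 3 ^ l / 3 ^ (m + 1))
      (by positivity) (fun E q _ _ _ _ => hkU E q)
      (fun t => by
        obtain ⟨K, hK⟩ := hCTU h n m k π p e r f w0 c d v δ s τ b X Y P Q P' Q' hNF hh hδ hPl
          y hy l u hu hind t
        refine ⟨K, fun σ h1 h2 => ?_⟩
        have h3 := hK σ h1 h2
        rw [← hset 1 t, ← hset 2 t] at h3
        exact h3)
    exact ⟨b1, b3⟩
  refine ⟨?_, ?_, ?_, a3⟩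
  · refine hWSUM h n m k π p e r f w0 c hNF hh _ (fun E q => 3 ^ kU h n b X Y P Q P' Q' E q) _
      (by positivity) (fun E q => by positivity) a1 fun y hy l u hu hind => ?_
    have h1 := (hocc y hy l u hu hind).1
    have h2 : 4 * (2 / 3 ^ d / 3 ^ l / 3 ^ (m + 1)) =
        4 * (2 / 3 ^ d / 3 ^ (m + 1)) / (3 : ℝ) ^ l := by
      field_simp
    rw [h2] at h1
    exact h1
  · have h0 := hWSUM h n m k π p e r f w0 c hNF hh _ (fun _ _ => 1) _ hx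
      (fun E q => zero_le_one) a3 fun y hy l u hu hind => by
        have h1 := (hocc y hy l u hu hind).2
        have h2 : 2 / 3 ^ d / 3 ^ l / 3 ^ (m + 1) =
            2 / 3 ^ d / 3 ^ (m + 1) / (3 : ℝ) ^ l := by
          field_simp
        rw [h2] at h1
        exact h1
    simpa only [mul_one] using h0
  · rw [hd]
    exact a2

end Pool.Agent.PTK
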