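import Pool.Agent.PTK.StC
import Pool.Agent.PTN.DOMG

/-!
# PTK_AVW: the average of the number of the classes
-/

set_option autoImplicit false

open NumberField IsDedekindDomain Finset
open scoped nonZeroDivisors Pointwise

namespace Pool.Agent.PTK

open Pool.Agent.Lib_helper18 Pool.Agent.Lib_helper18.Eis Pool.Agent.Lib_helper84.Cub
open Pool.Agent.PT Pool.Agent.PTE Pool.Agent.PT3 Pool.Agent.PTL Pool.Agent.PTN

namespace AVW

/-- monotonicity -/
theorem sm_mono {S T : Set ℕ} (h : S ⊆ T) {σ : ℝ} (hσ : 1 < σ) :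
    BDENS.sm S σ ≤ BDENS.sm T σ := by
  rw [BDENS.sm_eq, BDENS.sm_eq]
  refine (BDENS.ind_summable S hσ).tsum_le_tsum (fun n => ?_) (BDENS.ind_summable T hσ)
  by_cases hn : n.Prime ∧ n ∈ S
  · rw [BDENS.ind_mem hn.1 hn.2, BDENS.ind_mem hn.1 (h hn.2)]
  · rw [BDENS.ind_not hn]
    exact BDENS.ind_nonneg _ _ _

theorem card_set {α : Type} [Fintype α] (P : α → Prop) [DecidablePred P] :
    Nat.card {y : α // P y} = (Finset.univ.filter P).card := by
  rw [Nat.card_eq_fintype_card, Fintype.card_subtype]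

open Classical in
/-- the number of the elements of a subspace -/
theorem sum_const_mem {M : ℕ} (W : Submodule (ZMod 3) (Fin M → ZMod 3)) (t : ℝ) :
    ∑ y : Fin M → ZMod 3, (if y ∈ W then t else 0) = 3 ^ Module.finrank (ZMod 3) W * t := by
  have h1 : Nat.card W = 3 ^ Module.finrank (ZMod 3) W := by
    rw [Module.natCard_eq_pow_finrank (K := ZMod 3), Nat.card_zmod]
  have h2 : Nat.card W = (Finset.univ.filter fun y : Fin M → ZMod 3 => y ∈ W).card := by
    rw [Nat.card_eq_fintype_card]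
    exact Fintype.card_subtype _
  rw [← Finset.sum_filter, Finset.sum_const, nsmul_eq_mul, ← h2, h1]
  push_cast
  rfl

open Classical in
/-- the weight of a vector -/
noncomputable def aw {M : ℕ} (W : Submodule (ZMod 3) (Fin M → ZMod 3))
    (y : Fin M → ZMod 3) : ℝ :=
  if y = 0 then 1 else if y ∈ W then 3 / 3 ^ Module.finrank (ZMod 3) W
    else 1 / 3 ^ Module.finrank (ZMod 3) W

open Classical in
/-- the sum of the weights -/
theorem sum_aw {M : ℕ} (V W : Submodule (ZMod 3) (Fin M → ZMod 3)) (hV : W ≤ V) (d : ℕ)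
    (hd : Module.finrank (ZMod 3) V ≤ Module.finrank (ZMod 3) W + d) :
    ∑ y : Fin M → ZMod 3, (if y ∈ V then aw W y else 0) ≤ 3 + 3 ^ d := by
  obtain ⟨v, hv⟩ : ∃ v, v = Module.finrank (ZMod 3) V := ⟨_, rfl⟩
  obtain ⟨v0, hv0⟩ : ∃ v0, v0 = Module.finrank (ZMod 3) W := ⟨_, rfl⟩
  have hp : (0 : ℝ) < 3 ^ v0 := by positivity
  have e : ∀ y : Fin M → ZMod 3, (if y ∈ V then aw W y else 0) =
      (if y ∈ V then 1 / 3 ^ v0 else 0) + (if y ∈ W then 2 / 3 ^ v0 else 0) +
        (if y = 0 then 1 - 3 / 3 ^ v0 else 0) := by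
    intro y
    by_cases h0 : y = 0
    · subst h0
      rw [if_pos (zero_mem V), if_pos (zero_mem V), if_pos (zero_mem W), if_pos rfl, aw,
        if_pos rfl]
      ring
    · rw [if_neg h0, add_zero, aw, if_neg h0]
      by_cases h1 : y ∈ W
      · rw [if_pos (hV h1), if_pos (hV h1), if_pos h1, if_pos h1, ← hv0]
        ring
      · rw [if_neg h1, if_neg h1, add_zero, ← hv0]
  rw [Finset.sum_congr rfl fun y _ => e y, Finset.sum_add_distrib, Finset.sum_add_distrib,
    sum_const_mem, sum_const_mem, Finset.sum_ite_eq' Finset.univ, if_pos (Finset.mem_univ _),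
    ← hv, ← hv0]
  rw [← hv, ← hv0] at hd
  have h1 : (3 : ℝ) ^ v ≤ 3 ^ v0 * 3 ^ d := by
    rw [← pow_add]
    exact pow_le_pow_right₀ (by norm_num) hd
  have h2 : (3 : ℝ) ^ v * (1 / 3 ^ v0) ≤ 3 ^ d := by
    rw [mul_one_div, div_le_iff₀ hp, mul_comm]
    exact h1
  have h3 : (3 : ℝ) ^ v0 * (2 / 3 ^ v0) = 2 := by field_simp
  have h4 : (0 : ℝ) < 3 / 3 ^ v0 := by positivity
  rw [h3]
  linarith

open Classical in
/-- one prime -/
theorem point (h n : ℕ) {m k : ℕ} (π : Fin m → PP) (p e : Fin m → ℕ) (r : Fin k → ℕ)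
    (w0 : ZMod 3) (c : Fin m → ZMod 3) (E : ℕ) (σ : ℝ) (q : ℕ) :
    (if q.Prime ∧ q % 3 = 2 ∧ InCT E π w0 c q then
        (Nat.card (WqS h n π p e r w0 c (BB h n E q)) : ℝ) * (q : ℝ) ^ (-σ) else 0) =
      ∑ y : Fin (m + 1) → ZMod 3, (if y ∈ VS h n π p e r w0 c then
        BDENS.ind (QY h n π e w0 c y E) σ q else 0) := by
  by_cases hq : q.Prime ∧ q % 3 = 2 ∧ InCT E π w0 c q
  · rw [if_pos hq]
    have h2 : Nat.card (WqS h n π p e r w0 c (BB h n E q)) =
        (Finset.univ.filter fun y : Fin (m + 1) → ZMod 3 =>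
          y ∈ VS h n π p e r w0 c ∧ Occ (BB h n E q) (zN π e y)).card :=
      card_set fun y => y ∈ VS h n π p e r w0 c ∧ Occ (BB h n E q) (zN π e y)
    have e1 : ∀ y : Fin (m + 1) → ZMod 3, (if y ∈ VS h n π p e r w0 c then
        BDENS.ind (QY h n π e w0 c y E) σ q else 0) =
        if y ∈ VS h n π p e r w0 c ∧ Occ (BB h n E q) (zN π e y) then (q : ℝ) ^ (-σ) else 0 := by
      intro y
      by_cases h3 : y ∈ VS h n π p e r w0 c
      · rw [if_pos h3]
        by_cases h4 : Occ (BB h n E q) (zN π e y)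
        · rw [if_pos ⟨h3, h4⟩]
          exact BDENS.ind_mem hq.1 ⟨hq.2.1, hq.2.2, h4⟩
        · rw [if_neg fun h5 => h4 h5.2]
          exact BDENS.ind_not fun h5 => h4 h5.2.2.2
      · rw [if_neg h3, if_neg fun h5 => h3 h5.1]
    rw [Finset.sum_congr rfl fun y _ => e1 y, ← Finset.sum_filter, Finset.sum_const,
      nsmul_eq_mul, h2]
  · rw [if_neg hq]
    symm
    refine Finset.sum_eq_zero fun y _ => ?_
    by_cases h3 : y ∈ VS h n π p e r w0 c
    · rw [if_pos h3]
      exact BDENS.ind_not fun h5 => hq ⟨h5.1, h5.2.1, h5.2.2.1⟩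
    · rw [if_neg h3]

end AVW

open AVW in
/-- the average of the number of the classes -/
theorem AVW_thm (hVDIM : Stmt_VDIM) (hCTK : Stmt_CTK) (hLIN : Stmt_LIN) (hCLT : Stmt_CLT) :
    Stmt_AVW := by
  classical
  intro h n m k π p e r f w0 c hNF hh
  have hle : V0 h n π p e r w0 c ≤ VS h n π p e r w0 c := fun y hy => hy.1
  -- the bound for every vector
  have hy : ∀ y : Fin (m + 1) → ZMod 3, ∃ K : ℝ, y ∈ VS h n π p e r w0 c →
      ∀ σ : ℝ, 1 < σ → σ ≤ 2 →
      BDENS.sm (QY h n π e w0 c y 1) σ + BDENS.sm (QY h n π e w0 c y 2) σ ≤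
        aw (V0 h n π p e r w0 c) y / 3 ^ (m + 1) * Real.log (1 / (σ - 1)) + K := by
    intro y
    by_cases hyV : y ∈ VS h n π p e r w0 c
    · by_cases hy0 : y = 0
      · obtain ⟨K, hK⟩ := hCLT m π p hNF.pp hNF.p1 hNF.pπ hNF.pinj w0 c 2 (Or.inr rfl)
        refine ⟨K, fun _ σ h1 h2 => ?_⟩
        have h3 := (hK σ h1 h2).2
        rw [aw, if_pos hy0]
        have h5 : ∀ E : ℕ, QY h n π e w0 c y E ⊆ {q : ℕ | q % 3 = 2 ∧ InCT E π w0 c q} := by
          intro E q hq
          exact ⟨hq.1, hq.2.1⟩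
        have h4 : ∀ E : ℕ, BDENS.sm (QY h n π e w0 c y E) σ ≤
            BDENS.sm {q : ℕ | q % 3 = 2 ∧ InCT E π w0 c q} σ := fun E => sm_mono (h5 E) h1
        exact le_trans (add_le_add (h4 1) (h4 2)) h3
      · obtain ⟨s, u, hu, hind, hs1, hs2⟩ := hLIN (m + 1) (V0 h n π p e r w0 c) y hy0
        obtain ⟨K, hK⟩ := hCTK h n m k π p e r f w0 c hNF hh y hyV s u hu hind
        refine ⟨K, fun _ σ h1 h2 => (hK σ h1 h2).trans (le_of_eq ?_)⟩
        have e1 : (1 : ℝ) / 3 ^ s = aw (V0 h n π p e r w0 c) y := by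
          rw [aw, if_neg hy0]
          by_cases hyV0 : y ∈ V0 h n π p e r w0 c
          · rw [if_pos hyV0, ← hs2 hyV0, pow_succ]
            field_simp
          · rw [if_neg hyV0, ← hs1 hyV0]
        rw [e1]
    · exact ⟨0, fun h1 => absurd h1 hyV⟩
  choose K hK using hy
  refine ⟨∑ y : Fin (m + 1) → ZMod 3, (if y ∈ VS h n π p e r w0 c then K y else 0),
    fun σ h1 h2 T => ?_⟩
  have hL : 0 ≤ Real.log (1 / (σ - 1)) := by
    apply Real.log_nonneg
    rw [le_div_iff₀ (by linarith)]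
    linarith
  rw [Finset.sum_pair (by norm_num : (1 : ℕ) ≠ 2),
    Finset.sum_congr rfl fun q _ => point h n π p e r w0 c 1 σ q,
    Finset.sum_congr rfl fun q _ => point h n π p e r w0 c 2 σ q, Finset.sum_comm,
    Finset.sum_comm (s := T), ← Finset.sum_add_distrib]
  have h3 : ∀ y : Fin (m + 1) → ZMod 3,
      (∑ q ∈ T, (if y ∈ VS h n π p e r w0 c then BDENS.ind (QY h n π e w0 c y 1) σ q else 0)) +
      (∑ q ∈ T, (if y ∈ VS h n π p e r w0 c then BDENS.ind (QY h n π e w0 c y 2) σ q else 0)) ≤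
      (if y ∈ VS h n π p e r w0 c then aw (V0 h n π p e r w0 c) y else 0) / 3 ^ (m + 1) *
        Real.log (1 / (σ - 1)) + (if y ∈ VS h n π p e r w0 c then K y else 0) := by
    intro y
    by_cases hyV : y ∈ VS h n π p e r w0 c
    · simp only [if_pos hyV]
      exact le_trans (add_le_add (DOMG.sum_ind_le _ h1 T) (DOMG.sum_ind_le _ h1 T))
        (hK y hyV σ h1 h2)
    · simp only [if_neg hyV]
      rw [Finset.sum_const_zero, zero_div, zero_mul]
  refine (Finset.sum_le_sum fun y _ => h3 y).trans ?_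
  rw [Finset.sum_add_distrib, ← Finset.sum_mul, ← Finset.sum_div]
  have h4 := sum_aw (VS h n π p e r w0 c) (V0 h n π p e r w0 c) hle (dN h n w0)
    (hVDIM h n m k π p e r w0 c hh)
  gcongr

end Pool.Agent.PTK
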