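import Pool.Agent.PTK.StK
import Pool.Agent.PTL.CL
import Pool.Agent.PTL.FIN

/-!
# PTK_AVZ: the averages for the zero pattern
-/

set_option autoImplicit false

open NumberField IsDedekindDomain Finset
open scoped nonZeroDivisors Pointwise

namespace Pool.Agent.PTK

open Pool.Agent.Lib_helper18 Pool.Agent.Lib_helper18.Eis Pool.Agent.Lib_helper84.Cub
open Pool.Agent.PT Pool.Agent.PTE Pool.Agent.PT3 Pool.Agent.PTL Pool.Agent.PTN

namespace AVZ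

theorem LI_nonneg (s t : ℕ) : 0 ≤ LI s t := by
  unfold LI
  positivity

theorem LI_zero : LI 0 0 = 1 := by
  have h1 : Nat.card (Fin 0 → Fin 0 → ZMod 3) = 1 := by
    rw [Nat.card_eq_fintype_card]
    rfl
  have h2 : NK 0 0 = 1 := by
    unfold NK
    have : Unique {T : Fin 0 → Fin 0 → ZMod 3 // 0 ≤ 0 - (alt T).rank} :=
      { default := ⟨fun i => i.elim0, Nat.zero_le _⟩
        uniq := fun a => Subtype.ext (Subsingleton.elim _ _) }
    exact Nat.card_unique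
  rw [LI, h1, h2, Nat.cast_one, div_one]

theorem sm_empty (σ : ℝ) : BDENS.sm ∅ σ = 0 := by
  rw [BDENS.sm_eq]
  have h : BDENS.ind ∅ σ = fun _ => 0 := by
    funext n
    exact BDENS.ind_not (fun h => h.2)
  rw [h]
  exact tsum_zero

/-- From a bound for the sums to `UpS`. -/
theorem ups_one (hKUP : Stmt_KUP) (S : ℕ → Set ℕ) (x : ℝ) (hx : 0 ≤ x)
    (h : ∃ K : ℝ, ∀ σ : ℝ, 1 < σ → σ ≤ 2 →
      BDENS.sm (S 1) σ + BDENS.sm (S 2) σ ≤ x * Real.log (1 / (σ - 1)) + K) :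
    UpS S (fun _ _ => 1) x := by
  refine (hKUP S (fun _ _ => 0) 0 0 x hx (fun _ _ _ _ _ _ => le_rfl) ?_).2.2
  intro t
  rcases Nat.eq_zero_or_pos t with rfl | ht
  · obtain ⟨K, hK⟩ := h
    refine ⟨K, fun σ h1 h2 => ?_⟩
    have e : ∀ E, {q : ℕ | q ∈ S E ∧ 0 ≤ 0} = S E := by
      intro E
      ext q
      simp
    rw [e, e, LI_zero, mul_one]
    exact hK σ h1 h2
  · refine ⟨0, fun σ h1 h2 => ?_⟩
    have e : ∀ E, {q : ℕ | q ∈ S E ∧ t ≤ 0} = ∅ := by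
      intro E
      ext q
      simp only [Set.mem_setOf_eq, Set.mem_empty_iff_false, iff_false, not_and]
      omega
    rw [e, e, sm_empty, add_zero, add_zero]
    have h3 := FIN.log_nn h1 h2
    have h4 := LI_nonneg 0 t
    positivity

end AVZ

open AVZ in
/-- PTK_AVZ. -/
theorem AVZ_thm (hKUP : Stmt_KUP) (hWSUM : Stmt_WSUM) (hCTZ : Stmt_CTZ) (hCZ0 : Stmt_CZ0) :
    Stmt_AVZ := by
  classical
  intro h n m k π p e r f w0 c d v hNF hh hHB hd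
  have hx : (0 : ℝ) ≤ 1 / 3 ^ d / 3 ^ (m + 1) := by positivity
  have h2 : UpS (fun E => {q | q % 3 = 1 ∧ InCT E π w0 c q ∧ q ∈ ZP v}) (fun _ _ => 1)
      (1 / 3 ^ d / 3 ^ (m + 1)) :=
    ups_one hKUP _ _ hx (hCZ0 h n m k π p e r f w0 c d v hNF hh hHB)
  refine ⟨?_, h2⟩
  have h1 := hWSUM h n m k π p e r f w0 c hNF hh
    (fun E => {q | q % 3 = 1 ∧ InCT E π w0 c q ∧ q ∈ ZP v}) (fun _ _ => 1)
    (1 / 3 ^ d / 3 ^ (m + 1)) hx (fun _ _ => zero_le_one) h2 ?_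
  · simpa only [mul_one] using h1
  intro y hy s u hu hind
  refine ups_one hKUP _ _ (by positivity) ?_
  obtain ⟨K, hK⟩ := hCTZ h n m k π p e r f w0 c d v hNF hh hHB y hy s u hu hind
  refine ⟨K, fun σ h1 h2 => ?_⟩
  have he : ∀ E : ℕ, {q : ℕ | q ∈ {q : ℕ | q % 3 = 1 ∧ InCT E π w0 c q ∧ q ∈ ZP v} ∧
      Occ (BB h n E q) (zN π e y)} = {q | q ∈ QYU h n π e w0 c y E ∧ q ∈ ZP v} := by
    intro E
    ext q
    constructor
    · rintro ⟨⟨a1, a2, a3⟩, a4⟩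
      exact ⟨⟨a1, a2, a4⟩, a3⟩
    · rintro ⟨⟨a1, a2, a4⟩, a3⟩
      exact ⟨⟨a1, a2, a3⟩, a4⟩
  have e2 : (1 : ℝ) / 3 ^ d / 3 ^ (m + 1) / 3 ^ s =
      1 / 3 ^ sN h n π p e r w0 c / 3 ^ s / 3 ^ (m + 1) := by
    rw [← hd, div_right_comm]
  rw [he, he, e2]
  exact hK σ h1 h2

end Pool.Agent.PTK
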