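import Pool.Agent.PTK.StZ2

/-!
# PTK_AWF: the averages over all `A`
-/

set_option autoImplicit false

open Finset

namespace Pool.Agent.PTK

open Pool.Agent.Lib_helper18 Pool.Agent.Lib_helper18.Eis Pool.Agent.Lib_helper84.Cub
open Pool.Agent.PT Pool.Agent.PTE Pool.Agent.PT3 Pool.Agent.PTL Pool.Agent.PTN

namespace AWF

/-- there are `3 ^ (m + 1)` classes -/
theorem const_sum (m : ℕ) (x : ℝ) :
    ∑ _y : ZMod 3 × (Fin m → ZMod 3), x / 3 ^ (m + 1) = x := by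
  rw [Finset.sum_const, Finset.card_univ, Fintype.card_prod, Fintype.card_fun, Fintype.card_fin,
    ZMod.card, nsmul_eq_mul]
  push_cast
  have h : (3 : ℝ) ^ (m + 1) ≠ 0 := by positivity
  rw [← pow_succ']
  field_simp

theorem div_mono (m : ℕ) {x y : ℝ} (h : x ≤ y) : x / 3 ^ (m + 1) ≤ y / 3 ^ (m + 1) :=
  div_le_div_of_nonneg_right h (by positivity)

theorem above_tot (hSUMA : Stmt_SUMA) (n : ℤ) (a m : ℕ) (π : Fin m → PP) (F : ℤ → ℝ)
    (x : ZMod 3 × (Fin m → ZMod 3) → ℝ) (M : ℝ)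
    (h : ∀ y, AboveA n a (Kl π y.1 y.2) F (x y / 3 ^ (m + 1))) (hx : ∀ y, x y ≤ M) :
    AboveA n a (fun _ => True) F M := by
  obtain ⟨s1, -, s3, -⟩ := hSUMA n a m π F
  have h1 := s1 (fun _ => M / 3 ^ (m + 1)) fun y => s3 _ _ _ (div_mono m (hx y)) (h y)
  rwa [const_sum] at h1

theorem below_tot (hSUMA : Stmt_SUMA) (n : ℤ) (a m : ℕ) (π : Fin m → PP) (F : ℤ → ℝ)
    (hF : ∀ A, 0 ≤ F A) (x g : ZMod 3 × (Fin m → ZMod 3) → ℝ)
    (h : ∀ y, BelowA n a (Kl π y.1 y.2) F (x y / 3 ^ (m + 1))) (hx : ∀ y, g y ≤ x y) :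
    BelowA n a (fun _ => True) F (∑ y, g y / 3 ^ (m + 1)) := by
  obtain ⟨-, s2, -, s4⟩ := hSUMA n a m π F
  exact s2 (fun y => g y / 3 ^ (m + 1)) hF fun y => s4 _ _ _ (div_mono m (hx y)) (h y)

theorem tf_nonneg (P : Prop) : 0 ≤ tf P := by
  unfold tf
  split_ifs <;> norm_num

/-- two lower bounds, one for each residue class -/
theorem pair (hSUMA : Stmt_SUMA) (n : ℤ) (m : ℕ) (π : Fin m → PP) (F : ℤ → ℝ)
    (hF : ∀ A, 0 ≤ F A) (x₁ x₂ : ZMod 3 × (Fin m → ZMod 3) → ℝ)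
    (N : ZMod 3 × (Fin m → ZMod 3) → ℕ) (u w : ℝ) (hu : 0 ≤ u) (hw : 0 ≤ w)
    (h₁ : ∀ y, BelowA n 1 (Kl π y.1 y.2) F (x₁ y / 3 ^ (m + 1)))
    (h₂ : ∀ y, BelowA n 2 (Kl π y.1 y.2) F (x₂ y / 3 ^ (m + 1)))
    (a₁ : ∀ y, Odd (N y + 1) → u ≤ x₁ y) (b₁ : ∀ y, Even (N y + 1) → w ≤ x₁ y)
    (a₂ : ∀ y, Odd (N y) → u ≤ x₂ y) (b₂ : ∀ y, Even (N y) → w ≤ x₂ y) :
    ∃ z₁ z₂ : ℝ, 0 ≤ z₁ ∧ 0 ≤ z₂ ∧ z₁ + z₂ = u + w ∧
      BelowA n 1 (fun _ => True) F z₁ ∧ BelowA n 2 (fun _ => True) F z₂ := by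
  classical
  refine ⟨∑ y, (if Odd (N y + 1) then u else w) / 3 ^ (m + 1),
    ∑ y, (if Odd (N y) then u else w) / 3 ^ (m + 1), ?_, ?_, ?_, ?_, ?_⟩
  · exact Finset.sum_nonneg fun y _ => by
      split_ifs <;> positivity
  · exact Finset.sum_nonneg fun y _ => by
      split_ifs <;> positivity
  · rw [← Finset.sum_add_distrib]
    refine Eq.trans (Finset.sum_congr rfl fun y _ => ?_) (const_sum m (u + w))
    rcases Nat.even_or_odd (N y) with h | h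
    · rw [if_pos h.add_one, if_neg (Nat.not_odd_iff_even.2 h), ← add_div]
    · rw [if_neg (Nat.not_odd_iff_even.2 h.add_one), if_pos h, ← add_div, add_comm]
  · refine below_tot hSUMA n 1 m π F hF x₁ _ h₁ fun y => ?_
    split_ifs with h
    · exact a₁ y h
    · exact b₁ y (Nat.not_odd_iff_even.1 h)
  · refine below_tot hSUMA n 2 m π F hF x₂ _ h₂ fun y => ?_
    split_ifs with h
    · exact a₂ y h
    · exact b₂ y (Nat.not_odd_iff_even.1 h)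

end AWF

open AWF in
theorem AWF_thm (hSUMA : Stmt_SUMA) (hFB : Stmt_FB) (hEKN : Stmt_EKN) : Stmt_AWF := by
  intro h n m k π p e r f hN hh
  obtain ⟨e1, e2, e3, e4, e5, -, -, -, -, e10⟩ := hEKN
  have hR : ∀ t : ℕ, ∀ A : ℤ, A ≠ 0 → CubeRank.GenBy A (CubeRank.rr A) →
      CubeRank.rr A < t + 1 → CubeRank.rr A ≤ t := fun t A _ _ h1 => Nat.lt_succ_iff.1 h1
  have hB : ∀ a : ℕ, (a = 1 ∨ a = 2) → ∀ t : ℕ, ∀ y : ZMod 3 × (Fin m → ZMod 3),
      BelowA ((3 ^ h * n : ℕ) : ℤ) a (Kl π y.1 y.2) (fun A => tf (CubeRank.rr A ≤ t))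
        (EsD (vN h n π p e r y.1 y.2) (sN h n π p e r y.1 y.2 + if a = 1 then 1 else 0)
          (fun x => if x < t + 1 then 1 else 0) / 3 ^ (m + 1)) := fun a ha t y =>
    (hFB h n m k π p e r f y.1 y.2 hN hh a ha).2 (t + 1) _ (hR t)
  refine ⟨?_, ?_, ?_⟩
  · intro a ha
    refine ⟨?_, ?_, ?_⟩
    · exact above_tot hSUMA _ a m π _ _ _
        (fun y => (hFB h n m k π p e r f y.1 y.2 hN hh a ha).1 (fun c => (c : ℝ))
          Nat.mono_cast (by simp)) fun y => e1 _ _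
    · intro k₀
      refine above_tot hSUMA _ a m π _ _ _
        (fun y => (hFB h n m k π p e r f y.1 y.2 hN hh a ha).1 (fun c => (3 : ℝ) ^ (k₀ * c))
          (fun b c hbc => ?_) (by positivity)) fun y => e2 _ _ k₀
      exact pow_le_pow_right₀ (by norm_num) (Nat.mul_le_mul_left _ hbc)
    · have h1 := below_tot hSUMA _ a m π _ (fun A => tf_nonneg _) _ (fun _ => 115 / 192)
        (hB a ha 2) fun y => e4 _ _
      rwa [const_sum] at h1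
  · obtain ⟨z₁, z₂, hz₁, hz₂, hz, hb₁, hb₂⟩ := pair hSUMA ((3 ^ h * n : ℕ) : ℤ) m π
      (fun A => tf (CubeRank.rr A ≤ 1)) (fun A => tf_nonneg _) _ _
      (fun y => vN h n π p e r y.1 y.2 + sN h n π p e r y.1 y.2) (115 / 192) 0 (by norm_num)
      le_rfl (hB 1 (Or.inl rfl) 1) (hB 2 (Or.inr rfl) 1)
      (fun y hy => e3 _ _ (by
        rw [if_pos rfl, ← add_assoc]
        exact hy)) (fun y _ => e10 _ _ _)
      (fun y hy => e3 _ _ (by
        rw [if_neg (by norm_num), add_zero]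
        exact hy)) (fun y _ => e10 _ _ _)
    exact ⟨z₁, z₂, hz₁, hz₂, by rw [hz, add_zero], hb₁, hb₂⟩
  · obtain ⟨z₁, z₂, hz₁, hz₂, hz, hb₁, hb₂⟩ := pair hSUMA ((3 ^ h * n : ℕ) : ℤ) m π
      (fun A => tf (CubeRank.rr A ≤ 2)) (fun A => tf_nonneg _) _ _
      (fun y => vN h n π p e r y.1 y.2 + sN h n π p e r y.1 y.2) (115 / 192) (17 / 20)
      (by norm_num) (by norm_num) (hB 1 (Or.inl rfl) 2) (hB 2 (Or.inr rfl) 2)
      (fun y _ => e4 _ _) (fun y hy => e5 _ _ (by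
        rw [if_pos rfl, ← add_assoc]
        exact hy))
      (fun y _ => e4 _ _) (fun y hy => e5 _ _ (by
        rw [if_neg (by norm_num), add_zero]
        exact hy))
    exact ⟨z₁, z₂, hz₁, hz₂, hz, hb₁, hb₂⟩

end Pool.Agent.PTK
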