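import Pool.Agent.PTK.StG

/-!
# PTK_BDK: the bound for the density, both exponents together
-/

set_option autoImplicit false

open NumberField IsDedekindDomain Finset
open scoped nonZeroDivisors Pointwise

namespace Pool.Agent.PTK

open Pool.Agent.Lib_helper18 Pool.Agent.Lib_helper18.Eis Pool.Agent.Lib_helper84.Cub
open Pool.Agent.PT Pool.Agent.PTL

namespace BDK

open BDENS

/-- a cube root modulo an inert prime -/
theorem exists_root (hLCI : Stmt_LCI) {x : Eis} (hx : x ≠ 0) {Q : ℕ} (hQ : Q.Prime)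
    (h3 : Q % 3 = 2) (hN : x.norm < Q) (hs : sym (Q : Eis) x = 0) :
    ∃ r : Eis, (Q : Eis) ∣ r ^ 3 - x := by
  have hnd : ¬ (Q : Eis) ∣ x := by
    rintro ⟨y, hy⟩
    have hy0 : y ≠ 0 := by
      rintro rfl
      apply hx
      rw [hy, mul_zero]
    have h1 : x.norm = (Q : ℤ) ^ 2 * y.norm := by
      rw [hy, norm_mul, norm_natCast]
    have h2 := norm_pos hy0
    have h4 : (1 : ℤ) < Q := by exact_mod_cast hQ.one_lt
    nlinarith
  let π : PP := ⟨(Q : Eis), prime_inert hQ h3, by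
    rw [natCast_re]
    omega, by simp⟩
  have hV : V π.1 x = 0 := V_eq_zero hnd
  have hc : ch π.1 x = 0 := by
    unfold ch up
    rw [hV, pow_zero, EuclideanDomain.div_one]
    exact hs
  have h1 : LCE π.1 x := by
    rw [hLCI.1 π x hx, hV]
    exact ⟨dvd_zero _, hc⟩
  obtain ⟨r, hr⟩ := h1 1
  exact ⟨r, by rw [pow_one] at hr; exact hr⟩

section
variable {G : Type} [Group G] {f m s : ℕ} (χ : G →* (ZMod f)ˣ)
    (κ : (ZMod f)ˣ →* Multiplicative (Fin (m + 1) → ZMod 3)) (c : Fin (m + 1) → ZMod 3)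
    (C : Fin s → ZMod 3) (Φ : (ZMod f)ˣ →* Multiplicative (Fin s → ZMod 3))
    (F : G → Prop) (t : G → Fin s → ZMod 3)

/-- the elements of class `c` with prescribed `t` -/
def XPK (g : G) : Prop := M2 (χ g) ∧ F g ∧ (κ (χ g)).toAdd = c ∧ t g = C + (Φ (χ g)).toAdd

/-- the elements of class `-c` with prescribed `t` -/
def XMK (g : G) : Prop := M2 (χ g) ∧ F g ∧ (κ (χ g)).toAdd = -c ∧ t g = - C + (Φ (χ g)).toAdd

theorem three_s (x : Fin s → ZMod 3) : 3 • x = 0 := by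
  funext i
  exact three_z (x i)

theorem smul_cast (k : ℕ) (x : Fin s → ZMod 3) : (k : ZMod 3) • x = k • x := by
  funext i
  rw [Pi.smul_apply, Pi.smul_apply, smul_eq_mul, nsmul_eq_mul]

/-- passing to another generator of a conjugate subgroup -/
theorem transferK [Finite G] (hf : 0 < f) (h3 : 3 ∣ f)
    (hconj : ∀ g τ : G, M2 (χ g) → F g → F (τ * g * τ⁻¹) ∧ t (τ * g * τ⁻¹) = t g)
    (hpow : ∀ (g : G) (k : ℕ), M2 (χ g) → F g → Odd k → F (g ^ k) ∧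
      t (g ^ k) = (k : ZMod 3) • t g)
    {g h τ : G} (hz : Subgroup.zpowers h = Subgroup.zpowers (τ * g * τ⁻¹)) :
    ((XPK χ κ c C Φ F t g → XPK χ κ c C Φ F t h) ∧
        (XMK χ κ c C Φ F t g → XMK χ κ c C Φ F t h)) ∨
      ((XPK χ κ c C Φ F t g → XMK χ κ c C Φ F t h) ∧
        (XMK χ κ c C Φ F t g → XPK χ κ c C Φ F t h)) := by
  by_cases hM : M2 (χ g)
  swap
  · exact Or.inl ⟨fun h => absurd h.1 hM, fun h => absurd h.1 hM⟩
  by_cases hF : F g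
  swap
  · exact Or.inl ⟨fun h => absurd h.2.1 hF, fun h => absurd h.2.1 hF⟩
  have hχg : χ (τ * g * τ⁻¹) = χ g := by
    rw [map_mul, map_mul, map_inv, mul_comm (χ τ), mul_inv_cancel_right]
  have hM' : M2 (χ (τ * g * τ⁻¹)) := by
    rw [hχg]
    exact hM
  have he : Even (orderOf (τ * g * τ⁻¹)) := by
    apply M2_even hf h3 hM'
    rw [← map_pow, pow_orderOf_eq_one, map_one]
  obtain ⟨k, hk, hk3, hh⟩ := exists_pow hz he
  have h1 : χ h = χ g ^ k := by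
    rw [hh, map_pow, hχg]
  obtain ⟨h2, h4⟩ := hconj g τ hM hF
  obtain ⟨h5, h6⟩ := hpow _ k hM' h2 hk
  rw [← hh] at h5 h6
  rw [h4, smul_cast] at h6
  have hMh : M2 (χ h) := by
    rw [h1]
    exact M2_pow hf h3 hM hk
  have e1 : (κ (χ h)).toAdd = k • (κ (χ g)).toAdd := by
    rw [h1, map_pow, toAdd_pow]
  have e2 : (Φ (χ h)).toAdd = k • (Φ (χ g)).toAdd := by
    rw [h1, map_pow, toAdd_pow]
  have hk12 : k % 3 = 1 ∨ k % 3 = 2 := by omega
  rcases hk12 with hk1 | hk2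
  · rw [nsmul_one three_f hk1] at e1
    rw [nsmul_one three_s hk1] at e2 h6
    refine Or.inl ⟨?_, ?_⟩
    · rintro ⟨-, -, h7, h8⟩
      refine ⟨hMh, h5, ?_, ?_⟩
      · rw [e1, h7]
      · rw [h6, e2, h8]
    · rintro ⟨-, -, h7, h8⟩
      refine ⟨hMh, h5, ?_, ?_⟩
      · rw [e1, h7]
      · rw [h6, e2, h8]
  · rw [nsmul_two three_f hk2] at e1
    rw [nsmul_two three_s hk2] at e2 h6
    refine Or.inr ⟨?_, ?_⟩
    · rintro ⟨-, -, h7, h8⟩
      refine ⟨hMh, h5, ?_, ?_⟩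
      · rw [e1, h7]
      · rw [h6, e2, h8]
        abel
    · rintro ⟨-, -, h7, h8⟩
      refine ⟨hMh, h5, ?_, ?_⟩
      · rw [e1, h7, neg_neg]
      · rw [h6, e2, h8]
        abel

/-- counting -/
theorem card_K [Finite G] (hf : 0 < f) (hχ : Function.Surjective χ)
    (heq : ∀ (a : (ZMod f)ˣ) (v v' : Fin s → ZMod 3), M2 a →
      Nat.card {g : G // χ g = a ∧ F g ∧ t g = v} =
        Nat.card {g : G // χ g = a ∧ F g ∧ t g = v'})
    (hκ : ∀ c : Fin (m + 1) → ZMod 3,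
      Nat.card {a : (ZMod f)ˣ // M2 a ∧ (κ a).toAdd = c} * (2 * 3 ^ (m + 1)) = f.totient)
    (d : Fin (m + 1) → ZMod 3) (D : Fin s → ZMod 3) :
    3 ^ s * Nat.card {g : G // M2 (χ g) ∧ F g ∧ (κ (χ g)).toAdd = d ∧
      t g = D + (Φ (χ g)).toAdd} * (2 * 3 ^ (m + 1)) ≤ Nat.card G := by
  classical
  have : NeZero f := ⟨hf.ne'⟩
  obtain ⟨hfib, hcard⟩ := fibre χ hχ
  have hH : Nat.card (ZMod f)ˣ = f.totient := by
    rw [Nat.card_eq_fintype_card, ZMod.card_units_eq_totient]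
  rw [hH] at hcard
  have hcls : ∀ (a : (ZMod f)ˣ) (v : Fin s → ZMod 3), M2 a →
      3 ^ s * Nat.card {g : G // χ g = a ∧ F g ∧ t g = v} ≤ Nat.card χ.ker := by
    intro a v ha
    have := Fintype.ofFinite G
    rw [← hfib a]
    have e0 : Nat.card {g : G // χ g = a} = (Finset.univ.filter fun g : G => χ g = a).card := by
      rw [Nat.card_eq_fintype_card, Fintype.card_subtype]
    have e3 : ∀ v, Nat.card {g : G // χ g = a ∧ F g ∧ t g = v} =
        (Finset.univ.filter fun g : G => χ g = a ∧ F g ∧ t g = v).card := fun v => by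
      rw [Nat.card_eq_fintype_card, Fintype.card_subtype]
    have e4 : (Finset.univ.filter fun g : G => χ g = a ∧ F g).card =
        ∑ v : Fin s → ZMod 3, (Finset.univ.filter fun g : G => χ g = a ∧ F g ∧ t g = v).card := by
      rw [Finset.card_eq_sum_card_fiberwise (f := t) (t := Finset.univ)
        (fun g _ => Finset.mem_coe.2 (Finset.mem_univ _))]
      refine Finset.sum_congr rfl fun v _ => ?_
      congr 1
      ext g
      simp only [Finset.mem_filter, Finset.mem_univ, true_and]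
      tauto
    have e5 : ∀ v' : Fin s → ZMod 3,
        (Finset.univ.filter fun g : G => χ g = a ∧ F g ∧ t g = v').card =
        (Finset.univ.filter fun g : G => χ g = a ∧ F g ∧ t g = v).card := by
      intro v'
      rw [← e3, ← e3]
      exact heq a v' v ha
    rw [Finset.sum_congr rfl fun v' _ => e5 v', Finset.sum_const, smul_eq_mul] at e4
    have e6 : (Finset.univ : Finset (Fin s → ZMod 3)).card = 3 ^ s := by
      rw [Finset.card_univ, Fintype.card_fun, ZMod.card, Fintype.card_fin]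
    rw [e6] at e4
    rw [e0, e3, ← e4]
    apply Finset.card_le_card
    intro g hg
    rw [Finset.mem_filter] at hg ⊢
    exact ⟨hg.1, hg.2.1⟩
  have hP : 3 ^ s * Nat.card {g : G // (M2 (χ g) ∧ (κ (χ g)).toAdd = d) ∧
      (F g ∧ t g = D + (Φ (χ g)).toAdd)} ≤
      Nat.card {a : (ZMod f)ˣ // M2 a ∧ (κ a).toAdd = d} * Nat.card χ.ker := by
    refine count_le χ (fun g => F g ∧ t g = D + (Φ (χ g)).toAdd)
      (fun a => M2 a ∧ (κ a).toAdd = d) _ _ fun a ha => ?_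
    refine le_trans (Nat.mul_le_mul_left _ (le_of_eq ?_)) (hcls a (D + (Φ a).toAdd) ha.1)
    refine Nat.card_congr (Equiv.subtypeEquivRight fun g => ?_)
    constructor
    · rintro ⟨rfl, h⟩
      exact ⟨rfl, h⟩
    · rintro ⟨rfl, h⟩
      exact ⟨rfl, h⟩
  have e1 : Nat.card {g : G // M2 (χ g) ∧ F g ∧ (κ (χ g)).toAdd = d ∧
      t g = D + (Φ (χ g)).toAdd} =
      Nat.card {g : G // (M2 (χ g) ∧ (κ (χ g)).toAdd = d) ∧
      (F g ∧ t g = D + (Φ (χ g)).toAdd)} :=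
    Nat.card_congr (Equiv.subtypeEquivRight fun g => by tauto)
  rw [e1]
  have h1 := hκ d
  generalize Nat.card {g : G // (M2 (χ g) ∧ (κ (χ g)).toAdd = d) ∧
      (F g ∧ t g = D + (Φ (χ g)).toAdd)} = nP at *
  generalize Nat.card {a : (ZMod f)ˣ // M2 a ∧ (κ a).toAdd = d} = cP at *
  generalize 3 ^ (m + 1) = A at *
  generalize Nat.card χ.ker = K at *
  rw [← hcard]
  calc 3 ^ s * nP * (2 * A) ≤ cP * K * (2 * A) := Nat.mul_le_mul_right _ hP
    _ = K * (cP * (2 * A)) := by ring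
    _ = K * f.totient := by rw [h1]

end

end BDK

open BDENS BD BDK in
/-- BDK: the bound for the density, both exponents together. -/
theorem BDK_thm (hLCI : Stmt_LCI) (hGAK : Stmt_GAK) (hDNS : Stmt_DNS) : Stmt_BDK := by
  classical
  intro s x b p q p' q' f m κ c C Φ hSys hf h9 hκ
  have hx : x ≠ 0 := by
    rintro rfl
    refine hSys.ind 1 (fun _ => 0) (Or.inl (by norm_num)) ⟨0, ?_⟩
    simp
  obtain ⟨L, iF, iN, iG, χ, F, t, N₀, hχ, hconj, hpow, heq, hfrob⟩ :=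
    hGAK s x b p q p' q' f hSys hf h9
  have h3 : 3 ∣ f := Dvd.dvd.trans (by norm_num) h9
  have hM : ∀ (Q : ℕ) (hQ : Q.Coprime f), M2 (ZMod.unitOfCoprime Q hQ) ↔ Q % 3 = 2 := by
    intro Q hQ
    unfold M2
    rw [ZMod.coe_unitOfCoprime, ZMod.val_natCast, Nat.mod_mod_of_dvd _ h3]
  have htr := fun (g h τ : L ≃ₐ[ℚ] L)
    (hz : Subgroup.zpowers h = Subgroup.zpowers (τ * g * τ⁻¹)) =>
    transferK χ κ c C Φ F t hf h3 hconj hpow hz
  -- the Frobenius elements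
  have hfr : ∀ (Q : ℕ) (hQ : Q.Coprime f), Q.Prime → max N₀ x.norm.natAbs < Q →
      ∀ (P : Ideal (𝓞 L)) (g : L ≃ₐ[ℚ] L), P.IsPrime → (Q : 𝓞 L) ∈ P →
      MulAction.stabilizer (L ≃ₐ[ℚ] L) P = Subgroup.zpowers g →
      ∃ k : ℕ, k.Coprime (orderOf g) ∧ χ (g ^ k) = ZMod.unitOfCoprime Q hQ ∧
        (Q ∈ SPK x b p q p' q' κ c C Φ → XPK χ κ c C Φ F t (g ^ k)) ∧
        (Q ∈ SMK x b p q p' q' κ c C Φ → XMK χ κ c C Φ F t (g ^ k)) := by
    intro Q hQ hQp hN P g hP hQP hst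
    have hN1 : N₀ < Q := lt_of_le_of_lt (le_max_left _ _) hN
    have hN2 : x.norm < Q := by
      have h1 : x.norm.natAbs < Q := lt_of_le_of_lt (le_max_right _ _) hN
      have h2 := norm_pos hx
      omega
    obtain ⟨k, hk, hχk, hk2⟩ := hfrob Q hQ hQp hN1 P g hP hQP hst
    refine ⟨k, hk, hχk, ?_, ?_⟩
    · rintro ⟨hQ', h1, h2, h4, h5, h6⟩
      obtain ⟨h7, h8⟩ := hk2 h1 h4 h5
      obtain ⟨r, hr⟩ := exists_root hLCI hx hQp h1 hN2 h4
      refine ⟨?_, h7, ?_, ?_⟩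
      · rw [hχk]
        exact (hM Q hQ).2 h1
      · rw [hχk]
        exact h2
      · funext j
        rw [h8 j r hr, h6 j r hr, hχk]
        rfl
    · rintro ⟨hQ', h1, h2, h4, h5, h6⟩
      obtain ⟨h7, h8⟩ := hk2 h1 h4 h5
      obtain ⟨r, hr⟩ := exists_root hLCI hx hQp h1 hN2 h4
      refine ⟨?_, h7, ?_, ?_⟩
      · rw [hχk]
        exact (hM Q hQ).2 h1
      · rw [hχk]
        exact h2
      · funext j
        rw [h8 j r hr, h6 j r hr, hχk]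
        rfl
  have hzk : ∀ (g : L ≃ₐ[ℚ] L) (k : ℕ), k.Coprime (orderOf g) →
      Subgroup.zpowers g = Subgroup.zpowers (1 * g ^ k * 1⁻¹) := by
    intro g k hk
    rw [one_mul, inv_one, mul_one]
    exact (zpowers_pow_eq hk).symm
  have hor : ∀ g h τ : L ≃ₐ[ℚ] L, (XPK χ κ c C Φ F t g ∨ XMK χ κ c C Φ F t g) →
      Subgroup.zpowers h = Subgroup.zpowers (τ * g * τ⁻¹) →
      (XPK χ κ c C Φ F t h ∨ XMK χ κ c C Φ F t h) := by
    intro g h τ hB hz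
    rcases htr g h τ hz with ⟨h4, h5⟩ | ⟨h4, h5⟩
    · rcases hB with h6 | h6
      · exact Or.inl (h4 h6)
      · exact Or.inr (h5 h6)
    · rcases hB with h6 | h6
      · exact Or.inr (h4 h6)
      · exact Or.inl (h5 h6)
  have hand : ∀ g h τ : L ≃ₐ[ℚ] L, (XPK χ κ c C Φ F t g ∧ XMK χ κ c C Φ F t g) →
      Subgroup.zpowers h = Subgroup.zpowers (τ * g * τ⁻¹) →
      (XPK χ κ c C Φ F t h ∧ XMK χ κ c C Φ F t h) := by
    intro g h τ hB hz
    rcases htr g h τ hz with ⟨h4, h5⟩ | ⟨h4, h5⟩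
    · exact ⟨h4 hB.1, h5 hB.2⟩
    · exact ⟨h5 hB.2, h4 hB.1⟩
  obtain ⟨K1, hK1⟩ := hDNS f m κ c L χ
    (fun g => XPK χ κ c C Φ F t g ∨ XMK χ κ c C Φ F t g)
    (SPK x b p q p' q' κ c C Φ ∪ SMK x b p q p' q' κ c C Φ) (max N₀ x.norm.natAbs) hf h9 hχ hor
    (by
      rintro g (h | h)
      · exact ⟨h.1, Or.inl h.2.2.1⟩
      · exact ⟨h.1, Or.inr h.2.2.1⟩)
    (by
      intro Q hQ hQp hN P g hP hQP hst
      obtain ⟨k, hk, hχk, h1, h2⟩ := hfr Q hQ hQp hN P g hP hQP hst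
      refine ⟨⟨k, hk, hχk⟩, ?_⟩
      rintro (h | h)
      · exact hor (g ^ k) g 1 (Or.inl (h1 h)) (hzk g k hk)
      · exact hor (g ^ k) g 1 (Or.inr (h2 h)) (hzk g k hk))
    (by
      rintro Q hQ hQp hN (⟨hQ', h1, h2, -⟩ | ⟨hQ', h1, h2, -⟩)
      · exact ⟨h1, Or.inl h2⟩
      · exact ⟨h1, Or.inr h2⟩)
  obtain ⟨K2, hK2⟩ := hDNS f m κ c L χ
    (fun g => XPK χ κ c C Φ F t g ∧ XMK χ κ c C Φ F t g)
    (SPK x b p q p' q' κ c C Φ ∩ SMK x b p q p' q' κ c C Φ) (max N₀ x.norm.natAbs) hf h9 hχ hand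
    (by
      rintro g ⟨h, -⟩
      exact ⟨h.1, Or.inl h.2.2.1⟩)
    (by
      intro Q hQ hQp hN P g hP hQP hst
      obtain ⟨k, hk, hχk, h1, h2⟩ := hfr Q hQ hQp hN P g hP hQP hst
      refine ⟨⟨k, hk, hχk⟩, ?_⟩
      rintro ⟨h, h'⟩
      exact hand (g ^ k) g 1 ⟨h1 h, h2 h'⟩ (hzk g k hk))
    (by
      rintro Q hQ hQp hN ⟨⟨hQ', h1, h2, -⟩, -⟩
      exact ⟨h1, Or.inl h2⟩)
  have hX1 := card_K χ κ Φ F t hf hχ heq hκ c C
  have hX2 := card_K χ κ Φ F t hf hχ heq hκ (-c) (-C)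
  have hincl := card_incl (fun g => XPK χ κ c C Φ F t g) (fun g => XMK χ κ c C Φ F t g)
  refine ⟨K1 + K2, fun σ h1 h2 => ?_⟩
  have e1 := hK1 σ h1 h2
  have e2 := hK2 σ h1 h2
  have hlog : 0 ≤ Real.log (1 / (σ - 1)) := by
    apply Real.log_nonneg
    rw [le_div_iff₀ (by linarith)]
    linarith
  rw [sm_union_inter _ _ h1]
  have hG : 0 < Nat.card (L ≃ₐ[ℚ] L) := Nat.card_pos
  have hcnt : (Nat.card {g : L ≃ₐ[ℚ] L // XPK χ κ c C Φ F t g ∨ XMK χ κ c C Φ F t g} : ℝ) /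
      Nat.card (L ≃ₐ[ℚ] L) +
      (Nat.card {g : L ≃ₐ[ℚ] L // XPK χ κ c C Φ F t g ∧ XMK χ κ c C Φ F t g} : ℝ) /
      Nat.card (L ≃ₐ[ℚ] L) ≤ 1 / 3 ^ s / 3 ^ (m + 1) := by
    have hX1' : 3 ^ s * Nat.card {g : L ≃ₐ[ℚ] L // XPK χ κ c C Φ F t g} *
      (2 * 3 ^ (m + 1)) ≤ Nat.card (L ≃ₐ[ℚ] L) := hX1
    have hX2' : 3 ^ s * Nat.card {g : L ≃ₐ[ℚ] L // XMK χ κ c C Φ F t g} *
      (2 * 3 ^ (m + 1)) ≤ Nat.card (L ≃ₐ[ℚ] L) := hX2
    clear hX1 hX2
    generalize Nat.card {g : L ≃ₐ[ℚ] L // XPK χ κ c C Φ F t g ∨ XMK χ κ c C Φ F t g} = n1 at *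
    generalize Nat.card {g : L ≃ₐ[ℚ] L // XPK χ κ c C Φ F t g ∧ XMK χ κ c C Φ F t g} = n2 at *
    generalize Nat.card {g : L ≃ₐ[ℚ] L // XPK χ κ c C Φ F t g} = x1 at *
    generalize Nat.card {g : L ≃ₐ[ℚ] L // XMK χ κ c C Φ F t g} = x2 at *
    generalize Nat.card (L ≃ₐ[ℚ] L) = g0 at *
    have hG' : (0 : ℝ) < g0 := Nat.cast_pos.2 hG
    have hF : (0 : ℝ) < 3 ^ (m + 1) := by positivity
    have hS : (0 : ℝ) < 3 ^ s := by positivity
    have i1 : (3 : ℝ) ^ s * x1 * (2 * 3 ^ (m + 1)) ≤ g0 := by exact_mod_cast hX1'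
    have i2 : (3 : ℝ) ^ s * x2 * (2 * 3 ^ (m + 1)) ≤ g0 := by exact_mod_cast hX2'
    have i3 : (n1 : ℝ) + n2 = x1 + x2 := by exact_mod_cast hincl
    rw [← add_div, i3, div_div, div_le_div_iff₀ hG' (by positivity)]
    nlinarith
  have hmul := mul_le_mul_of_nonneg_right hcnt hlog
  rw [add_mul] at hmul
  linarith

end Pool.Agent.PTK
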