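import Pool.Agent.PTK.StJ
import Pool.Agent.PTK.BDK
import Pool.Agent.PTN.StD

/-!
# PTK_BDJ: the bound for the density, both parts and both exponents together
-/

set_option autoImplicit false

open NumberField IsDedekindDomain Finset
open scoped nonZeroDivisors Pointwise

namespace Pool.Agent.PTK

open Pool.Agent.Lib_helper18 Pool.Agent.Lib_helper18.Eis Pool.Agent.Lib_helper84.Cub
open Pool.Agent.PT Pool.Agent.PTE Pool.Agent.PT3 Pool.Agent.PTL Pool.Agent.PTN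

namespace BDJ

open BDENS BDK

/-- fibrewise equality of cardinalities -/
theorem card_fib {G H : Type} [Finite G] [Finite H] (χ : G → H) (P P' : G → Prop)
    (h : ∀ a, Nat.card {g : G // χ g = a ∧ P g} = Nat.card {g : G // χ g = a ∧ P' g}) :
    Nat.card {g : G // P g} = Nat.card {g : G // P' g} := by
  have := Fintype.ofFinite H
  have key : ∀ R : G → Prop,
      Nat.card {g : G // R g} = ∑ a : H, Nat.card {g : G // χ g = a ∧ R g} := by
    intro R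
    rw [Nat.card_congr (Equiv.sigmaFiberEquiv (fun x : {g : G // R g} => χ x)).symm,
      Nat.card_sigma]
    refine Finset.sum_congr rfl fun a _ => ?_
    refine Nat.card_congr ((Equiv.subtypeSubtypeEquivSubtypeInter R (fun g : G => χ g = a)).trans
      (Equiv.subtypeEquivRight fun g => and_comm))
  rw [key P, key P']
  exact Finset.sum_congr rfl fun a _ => h a

section
variable {G : Type} [Group G] {f m s k : ℕ} (χ : G →* (ZMod f)ˣ)
    (κ : (ZMod f)ˣ →* Multiplicative (Fin (m + 1) → ZMod 3)) (c : Fin (m + 1) → ZMod 3)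
    (C : Fin s → Fin s → ZMod 3) (Φ : (ZMod f)ˣ →* Multiplicative (Fin s → Fin s → ZMod 3))
    (C' : Fin k → ZMod 3) (Φ' : (ZMod f)ˣ →* Multiplicative (Fin k → ZMod 3))
    (tn : ℕ) (tt : G → Fin s → Fin s → ZMod 3) (F : G → Prop) (t : G → Fin k → ZMod 3)

/-- the elements of class `c` with prescribed `t` and large kernel -/
def XPJ (g : G) : Prop := XPK χ κ c C' Φ' F t g ∧
  tn ≤ s - (alt (C + (Φ (χ g)).toAdd - tt g)).rank

/-- the elements of class `-c` with prescribed `t` and large kernel -/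
def XMJ (g : G) : Prop := XMK χ κ c C' Φ' F t g ∧
  tn ≤ s - (alt (C - (Φ (χ g)).toAdd + tt g)).rank

/-- passing to another generator of a conjugate subgroup -/
theorem transferJ [Finite G] (hf : 0 < f) (h3 : 3 ∣ f)
    (hconj1 : ∀ g τ : G, M2 (χ g) → ∀ j i, j ≠ i → tt (τ * g * τ⁻¹) j i = tt g j i)
    (hpow1 : ∀ (g : G) (l : ℕ), M2 (χ g) → Odd l → ∀ j i, j ≠ i →
      tt (g ^ l) j i = l * tt g j i)
    (hconj : ∀ g τ : G, M2 (χ g) → F g → F (τ * g * τ⁻¹) ∧ t (τ * g * τ⁻¹) = t g)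
    (hpow : ∀ (g : G) (l : ℕ), M2 (χ g) → F g → Odd l → F (g ^ l) ∧
      t (g ^ l) = (l : ZMod 3) • t g)
    {g h τ : G} (hz : Subgroup.zpowers h = Subgroup.zpowers (τ * g * τ⁻¹)) :
    ((XPJ χ κ c C Φ C' Φ' tn tt F t g → XPJ χ κ c C Φ C' Φ' tn tt F t h) ∧
        (XMJ χ κ c C Φ C' Φ' tn tt F t g → XMJ χ κ c C Φ C' Φ' tn tt F t h)) ∨
      ((XPJ χ κ c C Φ C' Φ' tn tt F t g → XMJ χ κ c C Φ C' Φ' tn tt F t h) ∧
        (XMJ χ κ c C Φ C' Φ' tn tt F t g → XPJ χ κ c C Φ C' Φ' tn tt F t h)) := by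
  by_cases hM : M2 (χ g)
  swap
  · exact Or.inl ⟨fun h => absurd h.1.1 hM, fun h => absurd h.1.1 hM⟩
  by_cases hF : F g
  swap
  · exact Or.inl ⟨fun h => absurd h.1.2.1 hF, fun h => absurd h.1.2.1 hF⟩
  have hχg : χ (τ * g * τ⁻¹) = χ g := by
    rw [map_mul, map_mul, map_inv, mul_comm (χ τ), mul_inv_cancel_right]
  have hM' : M2 (χ (τ * g * τ⁻¹)) := by
    rw [hχg]
    exact hM
  have he : Even (orderOf (τ * g * τ⁻¹)) := by
    apply M2_even hf h3 hM'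
    rw [← map_pow, pow_orderOf_eq_one, map_one]
  obtain ⟨l, hl, hl3, hh⟩ := exists_pow hz he
  have h1 : χ h = χ g ^ l := by
    rw [hh, map_pow, hχg]
  obtain ⟨h2, h4⟩ := hconj g τ hM hF
  obtain ⟨h5, h6⟩ := hpow _ l hM' h2 hl
  rw [← hh] at h5 h6
  rw [h4, smul_cast] at h6
  have ht : ∀ j i, j ≠ i → tt h j i = l * tt g j i := by
    intro j i hji
    rw [hh, hpow1 _ l hM' hl j i hji, hconj1 g τ hM j i hji]
  have hMh : M2 (χ h) := by
    rw [h1]
    exact M2_pow hf h3 hM hl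
  have e1 : (κ (χ h)).toAdd = l • (κ (χ g)).toAdd := by
    rw [h1, map_pow, toAdd_pow]
  have e2 : (Φ' (χ h)).toAdd = l • (Φ' (χ g)).toAdd := by
    rw [h1, map_pow, toAdd_pow]
  have e0 : (Φ (χ h)).toAdd = l • (Φ (χ g)).toAdd := by
    rw [h1, map_pow, toAdd_pow]
  have hl12 : l % 3 = 1 ∨ l % 3 = 2 := by omega
  rcases hl12 with hk1 | hk2
  · rw [nsmul_one three_f hk1] at e1
    rw [nsmul_one three_s hk1] at e2 h6
    rw [nsmul_one three_ff hk1] at e0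
    have e3 : alt (C + (Φ (χ h)).toAdd - tt h) = alt (C + (Φ (χ g)).toAdd - tt g) := by
      apply alt_congr
      intro j i hji
      rw [Pi.sub_apply, Pi.sub_apply, Pi.sub_apply, Pi.sub_apply, ht j i hji.ne,
        cast_one hk1, e0]
    have e4 : alt (C - (Φ (χ h)).toAdd + tt h) = alt (C - (Φ (χ g)).toAdd + tt g) := by
      apply alt_congr
      intro j i hji
      rw [Pi.add_apply, Pi.add_apply, Pi.add_apply, Pi.add_apply, ht j i hji.ne,
        cast_one hk1, e0]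
    refine Or.inl ⟨?_, ?_⟩
    · rintro ⟨⟨-, -, h7, h8⟩, h9⟩
      refine ⟨⟨hMh, h5, ?_, ?_⟩, ?_⟩
      · rw [e1, h7]
      · rw [h6, e2, h8]
      · rw [e3]
        exact h9
    · rintro ⟨⟨-, -, h7, h8⟩, h9⟩
      refine ⟨⟨hMh, h5, ?_, ?_⟩, ?_⟩
      · rw [e1, h7]
      · rw [h6, e2, h8]
      · rw [e4]
        exact h9
  · rw [nsmul_two three_f hk2] at e1
    rw [nsmul_two three_s hk2] at e2 h6
    rw [nsmul_two three_ff hk2] at e0
    have e3 : alt (C + (Φ (χ h)).toAdd - tt h) = alt (C - (Φ (χ g)).toAdd + tt g) := by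
      apply alt_congr
      intro j i hji
      rw [Pi.sub_apply, Pi.sub_apply, Pi.add_apply, Pi.add_apply, ht j i hji.ne,
        cast_two hk2, e0]
      show C j i + -((Φ (χ g)).toAdd j i) - -tt g j i = C j i - (Φ (χ g)).toAdd j i + tt g j i
      ring
    have e4 : alt (C - (Φ (χ h)).toAdd + tt h) = alt (C + (Φ (χ g)).toAdd - tt g) := by
      apply alt_congr
      intro j i hji
      rw [Pi.add_apply, Pi.add_apply, Pi.sub_apply, Pi.sub_apply, ht j i hji.ne,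
        cast_two hk2, e0]
      show C j i - -((Φ (χ g)).toAdd j i) + -tt g j i = C j i + (Φ (χ g)).toAdd j i - tt g j i
      ring
    refine Or.inr ⟨?_, ?_⟩
    · rintro ⟨⟨-, -, h7, h8⟩, h9⟩
      refine ⟨⟨hMh, h5, ?_, ?_⟩, ?_⟩
      · rw [e1, h7]
      · rw [h6, e2, h8]
        abel
      · rw [e4]
        exact h9
    · rintro ⟨⟨-, -, h7, h8⟩, h9⟩
      refine ⟨⟨hMh, h5, ?_, ?_⟩, ?_⟩
      · rw [e1, h7, neg_neg]
      · rw [h6, e2, h8]
        abel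
      · rw [e3]
        exact h9

/-- the vectors `t` are equidistributed -/
theorem heqK [Finite G]
    (heq : ∀ (a : (ZMod f)ˣ) (v v' : Fin s → Fin s → ZMod 3) (y y' : Fin k → ZMod 3), M2 a →
      Nat.card {g : G // χ g = a ∧ F g ∧ t g = y ∧ ∀ j i, j < i → tt g j i = v j i} =
        Nat.card {g : G // χ g = a ∧ F g ∧ t g = y' ∧ ∀ j i, j < i → tt g j i = v' j i})
    (a : (ZMod f)ˣ) (y y' : Fin k → ZMod 3) (ha : M2 a) :
    Nat.card {g : G // χ g = a ∧ F g ∧ t g = y} =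
      Nat.card {g : G // χ g = a ∧ F g ∧ t g = y'} := by
  classical
  obtain ⟨pr, hpr⟩ : ∃ pr : (Fin s → Fin s → ZMod 3) → (Fin s → Fin s → ZMod 3),
      pr = fun v j i => if j < i then v j i else 0 := ⟨_, rfl⟩
  refine card_fib (fun g => pr (tt g)) _ _ fun v => ?_
  by_cases hv : pr v = v
  · have key : ∀ z : Fin k → ZMod 3, Nat.card {g : G // pr (tt g) = v ∧ χ g = a ∧ F g ∧ t g = z} =
        Nat.card {g : G // χ g = a ∧ F g ∧ t g = z ∧ ∀ j i, j < i → tt g j i = v j i} := by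
      intro z
      refine Nat.card_congr (Equiv.subtypeEquivRight fun g => ?_)
      have h1 : pr (tt g) = v ↔ ∀ j i, j < i → tt g j i = v j i := by
        constructor
        · intro h j i hji
          rw [← h, hpr]
          simp only [if_pos hji]
        · intro h
          rw [← hv, hpr]
          funext j i
          by_cases hji : j < i
          · simp only [if_pos hji]
            exact h j i hji
          · simp only [if_neg hji]
      rw [h1]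
      tauto
    rw [key y, key y']
    exact heq a v v y y' ha
  · have key : ∀ z : Fin k → ZMod 3,
        Nat.card {g : G // pr (tt g) = v ∧ χ g = a ∧ F g ∧ t g = z} = 0 := by
      intro z
      rw [Nat.card_eq_zero]
      left
      constructor
      rintro ⟨g, h, -⟩
      apply hv
      rw [← h, hpr]
      funext j i
      by_cases hji : j < i
      · simp only [if_pos hji]
      · simp only [if_neg hji]
    rw [key y, key y']

/-- counting for one of the two sets -/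
theorem card_one [Finite G] (hEQX : Stmt_EQX) (hf : 0 < f)
    (heq : ∀ (a : (ZMod f)ˣ) (v v' : Fin s → Fin s → ZMod 3) (y y' : Fin k → ZMod 3), M2 a →
      Nat.card {g : G // χ g = a ∧ F g ∧ t g = y ∧ ∀ j i, j < i → tt g j i = v j i} =
        Nat.card {g : G // χ g = a ∧ F g ∧ t g = y' ∧ ∀ j i, j < i → tt g j i = v' j i})
    (D : Fin k → ZMod 3) :
    Nat.card (Fin s → Fin s → ZMod 3) * Nat.card {g : G // (M2 (χ g) ∧ F g ∧
        (κ (χ g)).toAdd = c ∧ t g = D + (Φ' (χ g)).toAdd) ∧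
        tn ≤ s - (alt (C + ((Φ (χ g)).toAdd - tt g))).rank} =
      NK s tn * Nat.card {g : G // M2 (χ g) ∧ F g ∧
        (κ (χ g)).toAdd = c ∧ t g = D + (Φ' (χ g)).toAdd} ∧
    Nat.card (Fin s → Fin s → ZMod 3) * Nat.card {g : G // (M2 (χ g) ∧ F g ∧
        (κ (χ g)).toAdd = c ∧ t g = D + (Φ' (χ g)).toAdd) ∧
        tn ≤ s - (alt (C - ((Φ (χ g)).toAdd - tt g))).rank} =
      NK s tn * Nat.card {g : G // M2 (χ g) ∧ F g ∧
        (κ (χ g)).toAdd = c ∧ t g = D + (Φ' (χ g)).toAdd} := by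
  have : NeZero f := ⟨hf.ne'⟩
  obtain ⟨P, hP⟩ : ∃ P : G → Prop, P = fun g => M2 (χ g) ∧ F g ∧
    (κ (χ g)).toAdd = c ∧ t g = D + (Φ' (χ g)).toAdd := ⟨_, rfl⟩
  have key : ∀ R : G → Prop, Nat.card {x : {g : G // P g} // R x} =
      Nat.card {g : G // P g ∧ R g} := fun R =>
    Nat.card_congr (Equiv.subtypeSubtypeEquivSubtypeInter P R)
  obtain ⟨h1, h2⟩ := hEQX s {g : G // P g} (fun x => (Φ (χ x)).toAdd - tt x) (by
    intro v v'
    rw [key (fun g => ∀ j i, j < i → ((Φ (χ g)).toAdd - tt g) j i = v j i),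
      key (fun g => ∀ j i, j < i → ((Φ (χ g)).toAdd - tt g) j i = v' j i)]
    refine card_fib χ _ _ fun a => ?_
    by_cases ha : M2 a ∧ (κ a).toAdd = c
    · have hc : ∀ z : Fin s → Fin s → ZMod 3,
          Nat.card {g : G // χ g = a ∧ P g ∧
            ∀ j i, j < i → ((Φ (χ g)).toAdd - tt g) j i = z j i} =
          Nat.card {g : G // χ g = a ∧ F g ∧ t g = D + (Φ' a).toAdd ∧
            ∀ j i, j < i → tt g j i = ((Φ a).toAdd - z) j i} := by
        intro z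
        refine Nat.card_congr (Equiv.subtypeEquivRight fun g => ?_)
        rw [hP]
        constructor
        · rintro ⟨rfl, ⟨h1, h2, h4, h5⟩, h6⟩
          refine ⟨rfl, h2, h5, fun j i hji => ?_⟩
          rw [Pi.sub_apply, Pi.sub_apply, ← h6 j i hji, Pi.sub_apply, Pi.sub_apply]
          ring
        · rintro ⟨rfl, h2, h5, h6⟩
          refine ⟨rfl, ⟨ha.1, h2, ha.2, h5⟩, fun j i hji => ?_⟩
          rw [Pi.sub_apply, Pi.sub_apply, h6 j i hji, Pi.sub_apply, Pi.sub_apply]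
          ring
      rw [hc v, hc v']
      exact heq a _ _ _ _ ha.1
    · have hc : ∀ z : Fin s → Fin s → ZMod 3,
          Nat.card {g : G // χ g = a ∧ P g ∧
            ∀ j i, j < i → ((Φ (χ g)).toAdd - tt g) j i = z j i} = 0 := by
        intro z
        rw [Nat.card_eq_zero]
        left
        constructor
        rintro ⟨g, rfl, h, -⟩
        rw [hP] at h
        exact ha ⟨h.1, h.2.2.1⟩
      rw [hc v, hc v']) C {M | tn ≤ s - M.rank}
  have k1 := key (fun g => tn ≤ s - (alt (C + ((Φ (χ g)).toAdd - tt g))).rank)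
  have k2 := key (fun g => tn ≤ s - (alt (C - ((Φ (χ g)).toAdd - tt g))).rank)
  have h1' : Nat.card {g : G // P g ∧ tn ≤ s - (alt (C + ((Φ (χ g)).toAdd - tt g))).rank} *
      Nat.card (Fin s → Fin s → ZMod 3) = NK s tn * Nat.card {g : G // P g} := by
    rw [← k1]
    exact h1
  have h2' : Nat.card {g : G // P g ∧ tn ≤ s - (alt (C - ((Φ (χ g)).toAdd - tt g))).rank} *
      Nat.card (Fin s → Fin s → ZMod 3) = NK s tn * Nat.card {g : G // P g} := by
    rw [← k2]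
    exact h2
  rw [mul_comm] at h1' h2'
  rw [hP] at h1' h2'
  exact ⟨h1', h2'⟩

/-- counting -/
theorem card_J [Finite G] (hEQX : Stmt_EQX) (hf : 0 < f) (hχ : Function.Surjective χ)
    (heq : ∀ (a : (ZMod f)ˣ) (v v' : Fin s → Fin s → ZMod 3) (y y' : Fin k → ZMod 3), M2 a →
      Nat.card {g : G // χ g = a ∧ F g ∧ t g = y ∧ ∀ j i, j < i → tt g j i = v j i} =
        Nat.card {g : G // χ g = a ∧ F g ∧ t g = y' ∧ ∀ j i, j < i → tt g j i = v' j i})
    (hκ : ∀ c : Fin (m + 1) → ZMod 3,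
      Nat.card {a : (ZMod f)ˣ // M2 a ∧ (κ a).toAdd = c} * (2 * 3 ^ (m + 1)) = f.totient) :
    3 ^ k * (Nat.card (Fin s → Fin s → ZMod 3) *
        Nat.card {g : G // XPJ χ κ c C Φ C' Φ' tn tt F t g}) * (2 * 3 ^ (m + 1)) ≤
        NK s tn * Nat.card G ∧
      3 ^ k * (Nat.card (Fin s → Fin s → ZMod 3) *
        Nat.card {g : G // XMJ χ κ c C Φ C' Φ' tn tt F t g}) * (2 * 3 ^ (m + 1)) ≤
        NK s tn * Nat.card G := by
  have h0 := heqK χ tt F t heq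
  have h1 := card_K χ κ Φ' F t hf hχ h0 hκ c C'
  have h2 := card_K χ κ Φ' F t hf hχ h0 hκ (-c) (-C')
  have h4 := (card_one χ κ c C Φ Φ' tn tt F t hEQX hf heq C').1
  have h5 := (card_one χ κ (-c) C Φ Φ' tn tt F t hEQX hf heq (-C')).2
  have e1 : Nat.card {g : G // XPJ χ κ c C Φ C' Φ' tn tt F t g} =
      Nat.card {g : G // (M2 (χ g) ∧ F g ∧
        (κ (χ g)).toAdd = c ∧ t g = C' + (Φ' (χ g)).toAdd) ∧
        tn ≤ s - (alt (C + ((Φ (χ g)).toAdd - tt g))).rank} :=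
    Nat.card_congr (Equiv.subtypeEquivRight fun g => by
      unfold XPJ XPK
      rw [add_sub_assoc])
  have e2 : Nat.card {g : G // XMJ χ κ c C Φ C' Φ' tn tt F t g} =
      Nat.card {g : G // (M2 (χ g) ∧ F g ∧
        (κ (χ g)).toAdd = -c ∧ t g = -C' + (Φ' (χ g)).toAdd) ∧
        tn ≤ s - (alt (C - ((Φ (χ g)).toAdd - tt g))).rank} :=
    Nat.card_congr (Equiv.subtypeEquivRight fun g => by
      unfold XMJ XMK
      rw [← sub_add])
  rw [e1, e2, h4, h5]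
  constructor
  · calc 3 ^ k * (NK s tn * Nat.card {g : G // M2 (χ g) ∧ F g ∧
          (κ (χ g)).toAdd = c ∧ t g = C' + (Φ' (χ g)).toAdd}) * (2 * 3 ^ (m + 1)) =
        NK s tn * (3 ^ k * Nat.card {g : G // M2 (χ g) ∧ F g ∧
          (κ (χ g)).toAdd = c ∧ t g = C' + (Φ' (χ g)).toAdd} * (2 * 3 ^ (m + 1))) := by ring
      _ ≤ NK s tn * Nat.card G := Nat.mul_le_mul_left _ h1
  · calc 3 ^ k * (NK s tn * Nat.card {g : G // M2 (χ g) ∧ F g ∧
          (κ (χ g)).toAdd = -c ∧ t g = -C' + (Φ' (χ g)).toAdd}) * (2 * 3 ^ (m + 1)) =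
        NK s tn * (3 ^ k * Nat.card {g : G // M2 (χ g) ∧ F g ∧
          (κ (χ g)).toAdd = -c ∧ t g = -C' + (Φ' (χ g)).toAdd} * (2 * 3 ^ (m + 1))) := by ring
      _ ≤ NK s tn * Nat.card G := Nat.mul_le_mul_left _ h2

end

end BDJ

open BDENS BD BDK BDJ in
/-- BDJ: the bound for the density, both parts and both exponents together. -/
theorem BDJ_thm (hLCI : Stmt_LCI) (hEQX : Stmt_EQX) (hJAL : Stmt_JAL) (hDNS : Stmt_DNS) :
    Stmt_BDJ := by
  classical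
  intro s b p q p' q' k x u P Q P' Q' f m tn κ c C Φ C' Φ' hSysG hSysK hf h9 hκ
  have hx : x ≠ 0 := by
    rintro rfl
    refine hSysK.ind 1 (fun _ => 0) (Or.inl (by norm_num)) ⟨0, ?_⟩
    simp
  obtain ⟨L, iF, iN, iG, χ, tt, F, t, N₀, hχ, hconj1, hpow1, hconj, hpow, heq, hfrob⟩ :=
    hJAL s b p q p' q' k x u P Q P' Q' f hSysG hSysK hf h9
  have h3 : 3 ∣ f := Dvd.dvd.trans (by norm_num) h9
  have hM : ∀ (N : ℕ) (hN : N.Coprime f), M2 (ZMod.unitOfCoprime N hN) ↔ N % 3 = 2 := by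
    intro N hN
    unfold M2
    rw [ZMod.coe_unitOfCoprime, ZMod.val_natCast, Nat.mod_mod_of_dvd _ h3]
  obtain ⟨XP, hXP⟩ : ∃ XP : (L ≃ₐ[ℚ] L) → Prop, XP = XPJ χ κ c C Φ C' Φ' tn tt F t := ⟨_, rfl⟩
  obtain ⟨XM, hXM⟩ : ∃ XM : (L ≃ₐ[ℚ] L) → Prop, XM = XMJ χ κ c C Φ C' Φ' tn tt F t := ⟨_, rfl⟩
  have htr : ∀ g h τ : L ≃ₐ[ℚ] L, Subgroup.zpowers h = Subgroup.zpowers (τ * g * τ⁻¹) →
      ((XP g → XP h) ∧ (XM g → XM h)) ∨ ((XP g → XM h) ∧ (XM g → XP h)) := by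
    intro g h τ hz
    rw [hXP, hXM]
    exact transferJ χ κ c C Φ C' Φ' tn tt F t hf h3 hconj1 hpow1 hconj hpow hz
  -- the Frobenius elements
  have hfr : ∀ (N : ℕ) (hN : N.Coprime f), N.Prime → max N₀ x.norm.natAbs < N →
      ∀ (I : Ideal (𝓞 L)) (g : L ≃ₐ[ℚ] L), I.IsPrime → (N : 𝓞 L) ∈ I →
      MulAction.stabilizer (L ≃ₐ[ℚ] L) I = Subgroup.zpowers g →
      ∃ l : ℕ, l.Coprime (orderOf g) ∧ χ (g ^ l) = ZMod.unitOfCoprime N hN ∧
        (N ∈ SP b p q p' q' tn κ c C Φ ∩ SPK x u P Q P' Q' κ c C' Φ' → XP (g ^ l)) ∧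
        (N ∈ SM b p q p' q' tn κ c C Φ ∩ SMK x u P Q P' Q' κ c C' Φ' → XM (g ^ l)) := by
    intro N hN hNp hlt I g hI hNI hst
    have hN1 : N₀ < N := lt_of_le_of_lt (le_max_left _ _) hlt
    have hN2 : x.norm < N := by
      have h1 : x.norm.natAbs < N := lt_of_le_of_lt (le_max_right _ _) hlt
      have h2 := norm_pos hx
      omega
    obtain ⟨l, hl, hχl, hl2⟩ := hfrob N hN hNp hN1 I g hI hNI hst
    refine ⟨l, hl, hχl, ?_, ?_⟩
    · rintro ⟨⟨hQ, -, -, hτ⟩, ⟨hQ', h1, h2, h4, h5, h6⟩⟩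
      obtain ⟨h7, h8⟩ := hl2 h1
      obtain ⟨h9, h10⟩ := h8 h4 h5
      obtain ⟨r, hr⟩ := exists_root hLCI hx hNp h1 hN2 h4
      rw [hXP]
      refine ⟨⟨?_, h9, ?_, ?_⟩, ?_⟩
      · rw [hχl]
        exact (hM N hN).2 h1
      · rw [hχl]
        exact h2
      · funext j
        rw [h10 j r hr, h6 j r hr, hχl]
        rfl
      · rw [hχl]
        exact hτ _ h7
    · rintro ⟨⟨hQ, -, -, hτ⟩, ⟨hQ', h1, h2, h4, h5, h6⟩⟩
      obtain ⟨h7, h8⟩ := hl2 h1
      obtain ⟨h9, h10⟩ := h8 h4 h5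
      obtain ⟨r, hr⟩ := exists_root hLCI hx hNp h1 hN2 h4
      rw [hXM]
      refine ⟨⟨?_, h9, ?_, ?_⟩, ?_⟩
      · rw [hχl]
        exact (hM N hN).2 h1
      · rw [hχl]
        exact h2
      · funext j
        rw [h10 j r hr, h6 j r hr, hχl]
        rfl
      · rw [hχl]
        exact hτ _ h7
  have hzk : ∀ (g : L ≃ₐ[ℚ] L) (l : ℕ), l.Coprime (orderOf g) →
      Subgroup.zpowers g = Subgroup.zpowers (1 * g ^ l * 1⁻¹) := by
    intro g l hl
    rw [one_mul, inv_one, mul_one]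
    exact (zpowers_pow_eq hl).symm
  have hor : ∀ g h τ : L ≃ₐ[ℚ] L, (XP g ∨ XM g) →
      Subgroup.zpowers h = Subgroup.zpowers (τ * g * τ⁻¹) → (XP h ∨ XM h) := by
    intro g h τ hB hz
    rcases htr g h τ hz with ⟨h4, h5⟩ | ⟨h4, h5⟩
    · rcases hB with h6 | h6
      · exact Or.inl (h4 h6)
      · exact Or.inr (h5 h6)
    · rcases hB with h6 | h6
      · exact Or.inr (h4 h6)
      · exact Or.inl (h5 h6)
  have hand : ∀ g h τ : L ≃ₐ[ℚ] L, (XP g ∧ XM g) →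
      Subgroup.zpowers h = Subgroup.zpowers (τ * g * τ⁻¹) → (XP h ∧ XM h) := by
    intro g h τ hB hz
    rcases htr g h τ hz with ⟨h4, h5⟩ | ⟨h4, h5⟩
    · exact ⟨h4 hB.1, h5 hB.2⟩
    · exact ⟨h5 hB.2, h4 hB.1⟩
  have hXP1 : ∀ g, XP g → M2 (χ g) ∧ (κ (χ g)).toAdd = c := by
    intro g h
    rw [hXP] at h
    exact ⟨h.1.1, h.1.2.2.1⟩
  have hXM1 : ∀ g, XM g → M2 (χ g) ∧ (κ (χ g)).toAdd = -c := by
    intro g h
    rw [hXM] at h
    exact ⟨h.1.1, h.1.2.2.1⟩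
  obtain ⟨K1, hK1⟩ := hDNS f m κ c L χ (fun g => XP g ∨ XM g)
    ((SP b p q p' q' tn κ c C Φ ∩ SPK x u P Q P' Q' κ c C' Φ') ∪
      (SM b p q p' q' tn κ c C Φ ∩ SMK x u P Q P' Q' κ c C' Φ')) (max N₀ x.norm.natAbs)
    hf h9 hχ hor
    (by
      rintro g (h | h)
      · exact ⟨(hXP1 g h).1, Or.inl (hXP1 g h).2⟩
      · exact ⟨(hXM1 g h).1, Or.inr (hXM1 g h).2⟩)
    (by
      intro N hN hNp hlt I g hI hNI hst
      obtain ⟨l, hl, hχl, h1, h2⟩ := hfr N hN hNp hlt I g hI hNI hst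
      refine ⟨⟨l, hl, hχl⟩, ?_⟩
      rintro (h | h)
      · exact hor (g ^ l) g 1 (Or.inl (h1 h)) (hzk g l hl)
      · exact hor (g ^ l) g 1 (Or.inr (h2 h)) (hzk g l hl))
    (by
      rintro N hN hNp hlt (⟨-, ⟨hQ', h1, h2, -⟩⟩ | ⟨-, ⟨hQ', h1, h2, -⟩⟩)
      · exact ⟨h1, Or.inl h2⟩
      · exact ⟨h1, Or.inr h2⟩)
  obtain ⟨K2, hK2⟩ := hDNS f m κ c L χ (fun g => XP g ∧ XM g)
    ((SP b p q p' q' tn κ c C Φ ∩ SPK x u P Q P' Q' κ c C' Φ') ∩
      (SM b p q p' q' tn κ c C Φ ∩ SMK x u P Q P' Q' κ c C' Φ')) (max N₀ x.norm.natAbs)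
    hf h9 hχ hand
    (by
      rintro g ⟨h, -⟩
      exact ⟨(hXP1 g h).1, Or.inl (hXP1 g h).2⟩)
    (by
      intro N hN hNp hlt I g hI hNI hst
      obtain ⟨l, hl, hχl, h1, h2⟩ := hfr N hN hNp hlt I g hI hNI hst
      refine ⟨⟨l, hl, hχl⟩, ?_⟩
      rintro ⟨h, h'⟩
      exact hand (g ^ l) g 1 ⟨h1 h, h2 h'⟩ (hzk g l hl))
    (by
      rintro N hN hNp hlt ⟨⟨-, ⟨hQ', h1, h2, -⟩⟩, -⟩
      exact ⟨h1, Or.inl h2⟩)
  obtain ⟨hX1, hX2⟩ := card_J χ κ c C Φ C' Φ' tn tt F t hEQX hf hχ heq hκ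
  rw [← hXP] at hX1
  rw [← hXM] at hX2
  have hincl := card_incl XP XM
  refine ⟨K1 + K2, fun σ h1 h2 => ?_⟩
  have e1 := hK1 σ h1 h2
  have e2 := hK2 σ h1 h2
  have hlog : 0 ≤ Real.log (1 / (σ - 1)) := by
    apply Real.log_nonneg
    rw [le_div_iff₀ (by linarith)]
    linarith
  rw [sm_union_inter _ _ h1]
  have hG : 0 < Nat.card (L ≃ₐ[ℚ] L) := Nat.card_pos
  have hA : 0 < Nat.card (Fin s → Fin s → ZMod 3) := Nat.card_pos
  have hcnt : (Nat.card {g : L ≃ₐ[ℚ] L // XP g ∨ XM g} : ℝ) / Nat.card (L ≃ₐ[ℚ] L) +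
      (Nat.card {g : L ≃ₐ[ℚ] L // XP g ∧ XM g} : ℝ) / Nat.card (L ≃ₐ[ℚ] L) ≤
      LI s tn / 3 ^ k / 3 ^ (m + 1) := by
    unfold LI
    generalize Nat.card {g : L ≃ₐ[ℚ] L // XP g ∨ XM g} = n1 at *
    generalize Nat.card {g : L ≃ₐ[ℚ] L // XP g ∧ XM g} = n2 at *
    generalize Nat.card {g : L ≃ₐ[ℚ] L // XP g} = x1 at *
    generalize Nat.card {g : L ≃ₐ[ℚ] L // XM g} = x2 at *
    generalize Nat.card (Fin s → Fin s → ZMod 3) = A at *
    generalize Nat.card (L ≃ₐ[ℚ] L) = g0 at *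
    have hG' : (0 : ℝ) < g0 := Nat.cast_pos.2 hG
    have hA' : (0 : ℝ) < A := Nat.cast_pos.2 hA
    have hF : (0 : ℝ) < 3 ^ (m + 1) := by positivity
    have hS : (0 : ℝ) < 3 ^ k := by positivity
    have i1 : (3 : ℝ) ^ k * (A * x1) * (2 * 3 ^ (m + 1)) ≤ NK s tn * g0 := by exact_mod_cast hX1
    have i2 : (3 : ℝ) ^ k * (A * x2) * (2 * 3 ^ (m + 1)) ≤ NK s tn * g0 := by exact_mod_cast hX2
    have i3 : (n1 : ℝ) + n2 = x1 + x2 := by exact_mod_cast hincl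
    rw [← add_div, i3, div_div, div_div, div_le_div_iff₀ hG' (by positivity)]
    nlinarith
  have hmul := mul_le_mul_of_nonneg_right hcnt hlog
  rw [add_mul] at hmul
  linarith

end Pool.Agent.PTK
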