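import Pool.Agent.PTK.StJ
import Pool.Agent.PTK.BDK
import Pool.Agent.PTN.BDU

/-!
# PTK_BDJU: the bound for the density, `Q = 1 (mod 3)`, generic pattern (helper85)
-/

set_option autoImplicit false

open NumberField IsDedekindDomain Finset
open scoped nonZeroDivisors Pointwise

namespace Pool.Agent.PTK

open Pool.Agent.Lib_helper18 Pool.Agent.Lib_helper18.Eis Pool.Agent.Lib_helper84.Cub
open Pool.Agent.PT Pool.Agent.PTE Pool.Agent.PT3 Pool.Agent.PTL Pool.Agent.PTN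

namespace BDJU

open BDENS

/-! ### Roots modulo the two prime factors -/

/-- a prime factor of a large prime does not divide `x` -/
theorem not_dvd {x : Eis} (hx : x ≠ 0) {Q : ℕ} {l l' : Eis} (hQ : (Q : Eis) = l * l')
    (hll : l.norm = l'.norm) (hl0 : 0 < l.norm) (hN : x.norm < Q) : ¬ l ∣ x := by
  rintro ⟨y, hy⟩
  have hy0 : y ≠ 0 := by
    rintro rfl
    apply hx
    rw [hy, mul_zero]
  have h1 : x.norm = l.norm * y.norm := by
    rw [hy, norm_mul]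
  have h2 := norm_pos hy0
  have h3 : ((Q : ℤ)) ^ 2 = l.norm * l'.norm := by
    rw [← norm_mul, ← hQ, norm_natCast]
  have h4 : (0 : ℤ) ≤ Q := Int.natCast_nonneg Q
  rw [← hll] at h3
  have h5 : (Q : ℤ) = l.norm := by nlinarith
  rw [h1, h5] at hN
  nlinarith

/-- a cube root modulo a prime -/
theorem exists_root (hLCI : Stmt_LCI) {x : Eis} (hx : x ≠ 0) (ρ : PP) (hnd : ¬ ρ.1 ∣ x)
    (hs : sym ρ.1 x = 0) : ∃ r : Eis, ρ.1 ∣ r ^ 3 - x := by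
  have hV : V ρ.1 x = 0 := V_eq_zero hnd
  have hc : ch ρ.1 x = 0 := by
    unfold ch up
    rw [hV, pow_zero, EuclideanDomain.div_one]
    exact hs
  have h1 : LCE ρ.1 x := by
    rw [hLCI.1 ρ x hx, hV]
    exact ⟨dvd_zero _, hc⟩
  obtain ⟨r, hr⟩ := h1 1
  exact ⟨r, by rw [pow_one] at hr; exact hr⟩

/-- the cube roots of `x` modulo both prime factors of a large prime `= 1 (mod 3)` -/
theorem roots (hSPP : SPP) (hSPLT : SPLT) (hLCI : Stmt_LCI) {x : Eis} (hx : x ≠ 0)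
    (hcx : ∃ t : Eis, x * conj x = t ^ 3) {Q : ℕ} (hQ : Q.Prime) (h3 : Q % 3 = 1)
    (hN : x.norm < Q) (ρ : PP) (hρ : (Q : Eis) = ρ.1 * conj ρ.1) (hs : sym ρ.1 x = 0) :
    ∃ r r' : Eis, ρ.1 ∣ r ^ 3 - x ∧ conj ρ.1 ∣ r' ^ 3 - x := by
  obtain ⟨-, ⟨ρ', hρ'⟩, -, -, hcj, -⟩ := hSPLT.2 Q ρ hQ h3 hρ
  have h0 : 0 < ρ.1.norm := norm_pos ρ.2.1.ne_zero
  have hnc : (conj ρ.1).norm = ρ.1.norm := norm_conj ρ.1
  have hnx : (conj x).norm = x.norm := norm_conj x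
  have hx' : conj x ≠ 0 := by
    intro h
    have h1 := norm_pos hx
    rw [← hnx, h] at h1
    simp at h1
  have n1 : ¬ ρ.1 ∣ x := not_dvd hx hρ hnc.symm h0 hN
  have n2 : ¬ conj ρ.1 ∣ x := not_dvd hx (l := conj ρ.1) (l' := ρ.1)
    (by rw [hρ, mul_comm]) hnc (by rw [hnc]; exact h0) hN
  have n3 : ¬ conj ρ.1 ∣ conj x := not_dvd hx' (l := conj ρ.1) (l' := ρ.1)
    (by rw [hρ, mul_comm]) hnc (by rw [hnc]; exact h0) (by rw [hnx]; exact hN)
  have hp' : Prime (conj ρ.1) := by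
    rw [← hρ']
    exact ρ'.2.1
  have h3' : ¬ conj ρ.1 ∣ 3 := by
    rw [← hρ']
    exact (hSPP.2.2.2.1 ρ').1
  have hs' : sym (conj ρ.1) x = 0 := by
    have e1 := hcj x n1
    rw [hs, neg_zero] at e1
    obtain ⟨t, ht⟩ := hcx
    have e2 := sym_mul hp' h3' n2 n3
    have n4 : ¬ conj ρ.1 ∣ t := by
      intro h
      have h5 : conj ρ.1 ∣ x * conj x := by
        rw [ht]
        exact dvd_pow h (by norm_num)
      exact (hp'.dvd_or_dvd h5).elim n2 n3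
    rw [ht, sym_cube hp' h3' n4, e1, add_zero] at e2
    exact e2.symm
  obtain ⟨r, hr⟩ := exists_root hLCI hx ρ n1 hs
  obtain ⟨r', hr'⟩ := exists_root hLCI hx ρ' (by rw [hρ']; exact n2) (by rw [hρ']; exact hs')
  rw [hρ'] at hr'
  exact ⟨r, r', hr, hr'⟩

section
variable {G : Type} [Group G] {f m s k : ℕ} (χ : G →* (ZMod f)ˣ)
    (κ : (ZMod f)ˣ →* Multiplicative (Fin (m + 1) → ZMod 3)) (c : Fin (m + 1) → ZMod 3)
    (C : Fin s → Fin s → ZMod 3) (Φ : (ZMod f)ˣ →* Multiplicative (Fin s → Fin s → ZMod 3))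
    (C' : Fin k → ZMod 3) (Φ' : (ZMod f)ˣ →* Multiplicative (Fin k → ZMod 3))
    (tn : ℕ) (F : G → Prop) (tt : G → Fin s → Fin s → ZMod 3)
    (F₂ : G → Prop) (T : G → Fin k → ZMod 3)

/-- the elements of class `c` with the pattern, prescribed `T` and large kernel -/
def XPJ (g : G) : Prop := M1 (χ g) ∧ (κ (χ g)).toAdd = c ∧ F g ∧ F₂ g ∧
  T g = C' + (Φ' (χ g)).toAdd ∧ tn ≤ s - (alt (C + (Φ (χ g)).toAdd + tt g)).rank

/-- the elements of class `-c` with the pattern, prescribed `T` and large kernel -/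
def XMJ (g : G) : Prop := M1 (χ g) ∧ (κ (χ g)).toAdd = -c ∧ F g ∧ F₂ g ∧
  T g = - C' + (Φ' (χ g)).toAdd ∧ tn ≤ s - (alt (C - (Φ (χ g)).toAdd - tt g)).rank

/-- passing to another generator of a conjugate subgroup -/
theorem transferJ [Finite G] (hf : 0 < f) (h3 : 3 ∣ f)
    (hconj : ∀ g τ : G, M1 (χ g) → F g →
      F (τ * g * τ⁻¹) ∧ ∀ j i, j ≠ i → tt (τ * g * τ⁻¹) j i = tt g j i)
    (hpow : ∀ (g : G) (l : ℕ), M1 (χ g) → F g → ¬ 3 ∣ l →
      F (g ^ l) ∧ ∀ j i, j ≠ i → tt (g ^ l) j i = l * tt g j i)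
    (hconj2 : ∀ g τ : G, M1 (χ g) → F₂ g → F₂ (τ * g * τ⁻¹) ∧ T (τ * g * τ⁻¹) = T g)
    (hpow2 : ∀ (g : G) (l : ℕ), M1 (χ g) → F₂ g → F₂ (g ^ l) ∧
      T (g ^ l) = (l : ZMod 3) • T g)
    {g h τ : G} (hz : Subgroup.zpowers h = Subgroup.zpowers (τ * g * τ⁻¹)) :
    ((XPJ χ κ c C Φ C' Φ' tn F tt F₂ T g → XPJ χ κ c C Φ C' Φ' tn F tt F₂ T h) ∧
        (XMJ χ κ c C Φ C' Φ' tn F tt F₂ T g → XMJ χ κ c C Φ C' Φ' tn F tt F₂ T h)) ∨
      ((XPJ χ κ c C Φ C' Φ' tn F tt F₂ T g → XMJ χ κ c C Φ C' Φ' tn F tt F₂ T h) ∧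
        (XMJ χ κ c C Φ C' Φ' tn F tt F₂ T g → XPJ χ κ c C Φ C' Φ' tn F tt F₂ T h)) := by
  by_cases hM : M1 (χ g)
  swap
  · exact Or.inl ⟨fun h => absurd h.1 hM, fun h => absurd h.1 hM⟩
  by_cases hF : F g
  swap
  · exact Or.inl ⟨fun h => absurd h.2.2.1 hF, fun h => absurd h.2.2.1 hF⟩
  by_cases hF2 : F₂ g
  swap
  · exact Or.inl ⟨fun h => absurd h.2.2.2.1 hF2, fun h => absurd h.2.2.2.1 hF2⟩
  have hχg : χ (τ * g * τ⁻¹) = χ g := by
    rw [map_mul, map_mul, map_inv, mul_comm (χ τ), mul_inv_cancel_right]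
  have hM' : M1 (χ (τ * g * τ⁻¹)) := by
    rw [hχg]
    exact hM
  obtain ⟨n, hn3, hh⟩ := BDU.exists_pow3 hz
  have h1 : χ h = χ g ^ n := by
    rw [hh, map_pow, hχg]
  have hMh : M1 (χ h) := by
    rw [h1]
    exact BDU.M1_pow hf h3 hM n
  obtain ⟨c1, c2⟩ := hconj g τ hM hF
  obtain ⟨p1, p2⟩ := hpow _ n hM' c1 (by omega)
  obtain ⟨c3, c4⟩ := hconj2 g τ hM hF2
  obtain ⟨p3, p4⟩ := hpow2 _ n hM' c3
  rw [← hh] at p1 p2 p3 p4
  rw [c4, BDK.smul_cast] at p4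
  have e1 : (κ (χ h)).toAdd = n • (κ (χ g)).toAdd := by
    rw [h1, map_pow, toAdd_pow]
  have e2 : (Φ (χ h)).toAdd = n • (Φ (χ g)).toAdd := by
    rw [h1, map_pow, toAdd_pow]
  have e3 : (Φ' (χ h)).toAdd = n • (Φ' (χ g)).toAdd := by
    rw [h1, map_pow, toAdd_pow]
  have hn12 : n % 3 = 1 ∨ n % 3 = 2 := by omega
  rcases hn12 with hn1 | hn2
  · rw [nsmul_one three_f hn1] at e1
    rw [nsmul_one three_ff hn1] at e2
    rw [nsmul_one BDK.three_s hn1] at e3 p4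
    have ht : ∀ j i, j ≠ i → tt h j i = tt g j i := by
      intro j i hji
      rw [p2 j i hji, c2 j i hji, cast_one hn1]
    refine Or.inl ⟨?_, ?_⟩
    · rintro ⟨-, h7, -, -, h8, h9⟩
      refine ⟨hMh, by rw [e1, h7], p1, p3, by rw [p4, e3, h8], ?_⟩
      rw [(DENSS.det_same e2 ht).1]
      exact h9
    · rintro ⟨-, h7, -, -, h8, h9⟩
      refine ⟨hMh, by rw [e1, h7], p1, p3, by rw [p4, e3, h8], ?_⟩
      rw [(DENSS.det_same e2 ht).2]
      exact h9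
  · rw [nsmul_two three_f hn2] at e1
    rw [nsmul_two three_ff hn2] at e2
    rw [nsmul_two BDK.three_s hn2] at e3 p4
    have ht : ∀ j i, j ≠ i → tt h j i = - tt g j i := by
      intro j i hji
      rw [p2 j i hji, c2 j i hji, cast_two hn2]
    refine Or.inr ⟨?_, ?_⟩
    · rintro ⟨-, h7, -, -, h8, h9⟩
      refine ⟨hMh, by rw [e1, h7], p1, p3, ?_, ?_⟩
      · rw [p4, e3, h8]
        abel
      · rw [(DENSS.det_opp e2 ht).2]
        exact h9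
    · rintro ⟨-, h7, -, -, h8, h9⟩
      refine ⟨hMh, by rw [e1, h7, neg_neg], p1, p3, ?_, ?_⟩
      · rw [p4, e3, h8]
        abel
      · rw [(DENSS.det_opp e2 ht).1]
        exact h9

omit [Group G] in
/-- equal numbers from equal numbers in the fibres of `tt` -/
theorem fib_eq [Finite G] (P Q : G → Prop)
    (h : ∀ v : Fin s → Fin s → ZMod 3,
      Nat.card {g : G // P g ∧ ∀ j i, j < i → tt g j i = v j i} =
        Nat.card {g : G // Q g ∧ ∀ j i, j < i → tt g j i = v j i}) :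
    Nat.card {g : G // P g} = Nat.card {g : G // Q g} := by
  classical
  have := Fintype.ofFinite G
  have key : ∀ R : G → Prop, Nat.card {g : G // R g} =
      ∑ w : {p : Fin s × Fin s // p.1 < p.2} → ZMod 3, Nat.card {g : G // R g ∧
        ∀ j i, j < i → tt g j i =
          (fun (j i : Fin s) => if h : j < i then w ⟨(j, i), h⟩ else 0) j i} := by
    intro R
    rw [Nat.card_eq_fintype_card, Fintype.card_subtype, Finset.card_eq_sum_card_fiberwise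
      (f := fun (g : G) (p : {p : Fin s × Fin s // p.1 < p.2}) => tt g p.1.1 p.1.2)
      (t := Finset.univ) (fun g _ => Finset.mem_coe.2 (Finset.mem_univ _))]
    refine Finset.sum_congr rfl fun w _ => ?_
    rw [Nat.card_eq_fintype_card, Fintype.card_subtype]
    congr 1
    ext g
    simp only [Finset.mem_filter, Finset.mem_univ, true_and]
    refine and_congr_right fun _ => ?_
    constructor
    · rintro rfl j i hji
      rw [dif_pos hji]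
    · intro h
      funext p
      have h1 := h p.1.1 p.1.2 p.2
      rw [dif_pos p.2] at h1
      exact h1
  rw [key P, key Q]
  exact Finset.sum_congr rfl fun w _ => h _

omit [Group G] in
/-- the fibres of `T` -/
theorem fib_T [Finite G] (P : G → Prop)
    (h : ∀ y y' : Fin k → ZMod 3,
      Nat.card {g : G // P g ∧ T g = y} = Nat.card {g : G // P g ∧ T g = y'})
    (y : Fin k → ZMod 3) :
    3 ^ k * Nat.card {g : G // P g ∧ T g = y} = Nat.card {g : G // P g} := by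
  classical
  have := Fintype.ofFinite G
  have e0 : Nat.card {g : G // P g} = ∑ y' : Fin k → ZMod 3,
      Nat.card {g : G // P g ∧ T g = y'} := by
    rw [Nat.card_eq_fintype_card, Fintype.card_subtype, Finset.card_eq_sum_card_fiberwise
      (f := T) (t := Finset.univ) (fun g _ => Finset.mem_coe.2 (Finset.mem_univ _))]
    refine Finset.sum_congr rfl fun w _ => ?_
    rw [Nat.card_eq_fintype_card, Fintype.card_subtype]
    congr 1
    ext g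
    simp only [Finset.mem_filter, Finset.mem_univ, true_and]
  rw [e0, Finset.sum_congr rfl fun y' _ => h y' y, Finset.sum_const, smul_eq_mul]
  have e6 : (Finset.univ : Finset (Fin k → ZMod 3)).card = 3 ^ k := by
    rw [Finset.card_univ, Fintype.card_fun, ZMod.card, Fintype.card_fin]
  rw [e6]

/-- counting in one class -/
theorem card_cls [Finite G] (hEQX : Stmt_EQX)
    (heq : ∀ (a : (ZMod f)ˣ) (v v' : Fin s → Fin s → ZMod 3) (y y' : Fin k → ZMod 3), M1 a →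
      Nat.card {g : G // χ g = a ∧ F g ∧ F₂ g ∧ T g = y ∧ ∀ j i, j < i → tt g j i = v j i} =
        Nat.card {g : G //
          χ g = a ∧ F g ∧ F₂ g ∧ T g = y' ∧ ∀ j i, j < i → tt g j i = v' j i})
    (hcF : ∀ a : (ZMod f)ˣ, M1 a → 3 ^ (s + 1) * Nat.card {g : G // χ g = a ∧ F g} =
      2 * Nat.card {g : G // χ g = a})
    (hfib : ∀ a : (ZMod f)ˣ, Nat.card {g : G // χ g = a} = Nat.card χ.ker)
    (a : (ZMod f)ˣ) (D : Fin s → Fin s → ZMod 3) (y : Fin k → ZMod 3) (ha : M1 a) :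
    (3 ^ (s + 1) * 3 ^ k * Nat.card (Fin s → Fin s → ZMod 3)) *
        Nat.card {g : G // χ g = a ∧ F g ∧ F₂ g ∧ T g = y ∧
          tn ≤ s - (alt (D + tt g)).rank} ≤ 2 * NK s tn * Nat.card χ.ker ∧
    (3 ^ (s + 1) * 3 ^ k * Nat.card (Fin s → Fin s → ZMod 3)) *
        Nat.card {g : G // χ g = a ∧ F g ∧ F₂ g ∧ T g = y ∧
          tn ≤ s - (alt (D - tt g)).rank} ≤ 2 * NK s tn * Nat.card χ.ker := by
  classical
  have key : ∀ R : G → Prop,
      Nat.card {x : {g : G // χ g = a ∧ F g ∧ F₂ g ∧ T g = y} // R x} =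
      Nat.card {g : G // χ g = a ∧ F g ∧ F₂ g ∧ T g = y ∧ R g} := fun R =>
    Nat.card_congr ((Equiv.subtypeSubtypeEquivSubtypeInter
      (fun g : G => χ g = a ∧ F g ∧ F₂ g ∧ T g = y) R).trans
      (Equiv.subtypeEquivRight fun g => by tauto))
  obtain ⟨h1, h2⟩ := hEQX s {g : G // χ g = a ∧ F g ∧ F₂ g ∧ T g = y} (fun x => tt x) (by
    intro v v'
    rw [key (fun g => ∀ j i, j < i → tt g j i = v j i),
      key (fun g => ∀ j i, j < i → tt g j i = v' j i)]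
    exact heq a v v' y y ha) D {M | tn ≤ s - M.rank}
  have k1 := key (fun g => tn ≤ s - (alt (D + tt g)).rank)
  have k2 := key (fun g => tn ≤ s - (alt (D - tt g)).rank)
  have h3 := hcF a ha
  rw [hfib a] at h3
  have hT : 3 ^ k * Nat.card {g : G // χ g = a ∧ F g ∧ F₂ g ∧ T g = y} ≤
      Nat.card {g : G // χ g = a ∧ F g} := by
    have e1 : ∀ y : Fin k → ZMod 3, Nat.card {g : G // χ g = a ∧ F g ∧ F₂ g ∧ T g = y} =
        Nat.card {g : G // (χ g = a ∧ F g ∧ F₂ g) ∧ T g = y} := fun y =>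
      Nat.card_congr (Equiv.subtypeEquivRight fun g => by tauto)
    rw [e1 y, fib_T T (fun g => χ g = a ∧ F g ∧ F₂ g) (fun y y' => ?_) y]
    · exact Nat.card_le_card_of_injective
        (fun g : {g : G // χ g = a ∧ F g ∧ F₂ g} => (⟨g.1, g.2.1, g.2.2.1⟩ :
          {g : G // χ g = a ∧ F g})) (fun g h hgh => by
          have h' := Subtype.mk.inj hgh
          exact Subtype.ext h')
    · rw [← e1, ← e1]
      refine fib_eq tt _ _ fun v => ?_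
      refine Eq.trans (Nat.card_congr (Equiv.subtypeEquivRight fun g => by tauto))
        ((heq a v v y y' ha).trans (Nat.card_congr (Equiv.subtypeEquivRight fun g => by tauto)))
  have h1' : Nat.card {g : G // χ g = a ∧ F g ∧ F₂ g ∧ T g = y ∧
      tn ≤ s - (alt (D + tt g)).rank} * Nat.card (Fin s → Fin s → ZMod 3) =
      NK s tn * Nat.card {g : G // χ g = a ∧ F g ∧ F₂ g ∧ T g = y} := by
    rw [← k1]
    exact h1
  have h2' : Nat.card {g : G // χ g = a ∧ F g ∧ F₂ g ∧ T g = y ∧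
      tn ≤ s - (alt (D - tt g)).rank} * Nat.card (Fin s → Fin s → ZMod 3) =
      NK s tn * Nat.card {g : G // χ g = a ∧ F g ∧ F₂ g ∧ T g = y} := by
    rw [← k2]
    exact h2
  clear h1 h2 k1 k2 key heq hcF hfib
  generalize Nat.card {g : G // χ g = a ∧ F g ∧ F₂ g ∧ T g = y ∧
      tn ≤ s - (alt (D + tt g)).rank} = x1 at *
  generalize Nat.card {g : G // χ g = a ∧ F g ∧ F₂ g ∧ T g = y ∧
      tn ≤ s - (alt (D - tt g)).rank} = x2 at *
  generalize Nat.card {g : G // χ g = a ∧ F g ∧ F₂ g ∧ T g = y} = Y at *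
  generalize Nat.card {g : G // χ g = a ∧ F g} = X at *
  generalize Nat.card (Fin s → Fin s → ZMod 3) = A at *
  generalize Nat.card χ.ker = K at *
  generalize 3 ^ (s + 1) = S at *
  generalize 3 ^ k = R at *
  constructor
  · calc (S * R * A) * x1 = S * R * (x1 * A) := by ring
      _ = NK s tn * (S * (R * Y)) := by rw [h1']; ring
      _ ≤ NK s tn * (S * X) := Nat.mul_le_mul_left _ (Nat.mul_le_mul_left _ hT)
      _ = 2 * NK s tn * K := by rw [h3]; ring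
  · calc (S * R * A) * x2 = S * R * (x2 * A) := by ring
      _ = NK s tn * (S * (R * Y)) := by rw [h2']; ring
      _ ≤ NK s tn * (S * X) := Nat.mul_le_mul_left _ (Nat.mul_le_mul_left _ hT)
      _ = 2 * NK s tn * K := by rw [h3]; ring

/-- counting -/
theorem card_X [Finite G] (hEQX : Stmt_EQX) (hf : 0 < f) (hχ : Function.Surjective χ)
    (heq : ∀ (a : (ZMod f)ˣ) (v v' : Fin s → Fin s → ZMod 3) (y y' : Fin k → ZMod 3), M1 a →
      Nat.card {g : G // χ g = a ∧ F g ∧ F₂ g ∧ T g = y ∧ ∀ j i, j < i → tt g j i = v j i} =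
        Nat.card {g : G //
          χ g = a ∧ F g ∧ F₂ g ∧ T g = y' ∧ ∀ j i, j < i → tt g j i = v' j i})
    (hcF : ∀ a : (ZMod f)ˣ, M1 a → 3 ^ (s + 1) * Nat.card {g : G // χ g = a ∧ F g} =
      2 * Nat.card {g : G // χ g = a})
    (hκ : ∀ c : Fin (m + 1) → ZMod 3,
      Nat.card {a : (ZMod f)ˣ // M1 a ∧ (κ a).toAdd = c} * (2 * 3 ^ (m + 1)) = f.totient) :
    (3 ^ (s + 1) * 3 ^ k * Nat.card (Fin s → Fin s → ZMod 3)) *
        Nat.card {g : G // XPJ χ κ c C Φ C' Φ' tn F tt F₂ T g} *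
        (2 * 3 ^ (m + 1)) ≤ 2 * NK s tn * Nat.card G ∧
      (3 ^ (s + 1) * 3 ^ k * Nat.card (Fin s → Fin s → ZMod 3)) *
        Nat.card {g : G // XMJ χ κ c C Φ C' Φ' tn F tt F₂ T g} *
        (2 * 3 ^ (m + 1)) ≤ 2 * NK s tn * Nat.card G := by
  have : NeZero f := ⟨hf.ne'⟩
  obtain ⟨hfib, hcard⟩ := fibre χ hχ
  have hH : Nat.card (ZMod f)ˣ = f.totient := by
    rw [Nat.card_eq_fintype_card, ZMod.card_units_eq_totient]
  rw [hH] at hcard
  have hcls := card_cls χ tn F tt F₂ T hEQX heq hcF hfib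
  have hP : (3 ^ (s + 1) * 3 ^ k * Nat.card (Fin s → Fin s → ZMod 3)) *
      Nat.card {g : G // (M1 (χ g) ∧ (κ (χ g)).toAdd = c) ∧
        F g ∧ F₂ g ∧ T g = C' + (Φ' (χ g)).toAdd ∧
          tn ≤ s - (alt (C + (Φ (χ g)).toAdd + tt g)).rank} ≤
      Nat.card {a : (ZMod f)ˣ // M1 a ∧ (κ a).toAdd = c} *
        (2 * NK s tn * Nat.card χ.ker) := by
    refine count_le χ (fun g => F g ∧ F₂ g ∧ T g = C' + (Φ' (χ g)).toAdd ∧
      tn ≤ s - (alt (C + (Φ (χ g)).toAdd + tt g)).rank)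
      (fun a => M1 a ∧ (κ a).toAdd = c) _ _ fun a ha => ?_
    refine le_trans (Nat.mul_le_mul_left _ (le_of_eq ?_))
      (hcls a (C + (Φ a).toAdd) (C' + (Φ' a).toAdd) ha.1).1
    refine Nat.card_congr (Equiv.subtypeEquivRight fun g => ?_)
    constructor
    · rintro ⟨rfl, h⟩
      exact ⟨rfl, h⟩
    · rintro ⟨rfl, h⟩
      exact ⟨rfl, h⟩
  have hN : (3 ^ (s + 1) * 3 ^ k * Nat.card (Fin s → Fin s → ZMod 3)) *
      Nat.card {g : G // (M1 (χ g) ∧ (κ (χ g)).toAdd = -c) ∧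
        F g ∧ F₂ g ∧ T g = - C' + (Φ' (χ g)).toAdd ∧
          tn ≤ s - (alt (C - (Φ (χ g)).toAdd - tt g)).rank} ≤
      Nat.card {a : (ZMod f)ˣ // M1 a ∧ (κ a).toAdd = -c} *
        (2 * NK s tn * Nat.card χ.ker) := by
    refine count_le χ (fun g => F g ∧ F₂ g ∧ T g = - C' + (Φ' (χ g)).toAdd ∧
      tn ≤ s - (alt (C - (Φ (χ g)).toAdd - tt g)).rank)
      (fun a => M1 a ∧ (κ a).toAdd = -c) _ _ fun a ha => ?_
    refine le_trans (Nat.mul_le_mul_left _ (le_of_eq ?_))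
      (hcls a (C - (Φ a).toAdd) (- C' + (Φ' a).toAdd) ha.1).2
    refine Nat.card_congr (Equiv.subtypeEquivRight fun g => ?_)
    constructor
    · rintro ⟨rfl, h⟩
      exact ⟨rfl, h⟩
    · rintro ⟨rfl, h⟩
      exact ⟨rfl, h⟩
  have e1 : Nat.card {g : G // XPJ χ κ c C Φ C' Φ' tn F tt F₂ T g} =
      Nat.card {g : G // (M1 (χ g) ∧ (κ (χ g)).toAdd = c) ∧
        F g ∧ F₂ g ∧ T g = C' + (Φ' (χ g)).toAdd ∧
          tn ≤ s - (alt (C + (Φ (χ g)).toAdd + tt g)).rank} :=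
    Nat.card_congr (Equiv.subtypeEquivRight fun g => (and_assoc).symm)
  have e2 : Nat.card {g : G // XMJ χ κ c C Φ C' Φ' tn F tt F₂ T g} =
      Nat.card {g : G // (M1 (χ g) ∧ (κ (χ g)).toAdd = -c) ∧
        F g ∧ F₂ g ∧ T g = - C' + (Φ' (χ g)).toAdd ∧
          tn ≤ s - (alt (C - (Φ (χ g)).toAdd - tt g)).rank} :=
    Nat.card_congr (Equiv.subtypeEquivRight fun g => (and_assoc).symm)
  rw [← e1] at hP
  rw [← e2] at hN
  have h1 := hκ c
  have h2 := hκ (-c)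
  generalize Nat.card {g : G // XPJ χ κ c C Φ C' Φ' tn F tt F₂ T g} = nP at *
  generalize Nat.card {g : G // XMJ χ κ c C Φ C' Φ' tn F tt F₂ T g} = nN at *
  generalize Nat.card {a : (ZMod f)ˣ // M1 a ∧ (κ a).toAdd = c} = cP at *
  generalize Nat.card {a : (ZMod f)ˣ // M1 a ∧ (κ a).toAdd = -c} = cN at *
  generalize 3 ^ (s + 1) * 3 ^ k * Nat.card (Fin s → Fin s → ZMod 3) = A at *
  generalize 3 ^ (m + 1) = R at *
  generalize Nat.card χ.ker = K at *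
  rw [← hcard]
  constructor
  · calc A * nP * (2 * R) ≤ cP * (2 * NK s tn * K) * (2 * R) := Nat.mul_le_mul_right _ hP
      _ = 2 * NK s tn * (K * (cP * (2 * R))) := by ring
      _ = 2 * NK s tn * (K * f.totient) := by rw [h1]
  · calc A * nN * (2 * R) ≤ cN * (2 * NK s tn * K) * (2 * R) := Nat.mul_le_mul_right _ hN
      _ = 2 * NK s tn * (K * (cN * (2 * R))) := by ring
      _ = 2 * NK s tn * (K * f.totient) := by rw [h2]

end

end BDJU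

open BDENS BDJU in
/-- PTK_BDJU: the bound for the density, `Q = 1 (mod 3)`, generic pattern. -/
theorem BDJU_thm (hSPP : SPP) (hSPLT : SPLT) (hLCI : Stmt_LCI) (hEQX : Stmt_EQX)
    (hJAU : Stmt_JAU) (hDNS1 : Stmt_DNS1) : Stmt_BDJU := by
  classical
  intro s b p q p' q' k x u P Q P' Q' f m tn κ c C Φ C' Φ' hSG hSK hf h9 hκ
  have hx : x ≠ 0 := by
    rintro rfl
    refine hSK.ind 1 (fun _ => 0) (Or.inl (by norm_num)) ⟨0, ?_⟩
    simp
  obtain ⟨L, iF, iN, iG, χ, F, tt, F₂, T, N₀, hχ, hconj, hpow, hconj2, hpow2, heq, hcF, hfrob⟩ :=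
    hJAU s b p q p' q' k x u P Q P' Q' f hSG hSK hf h9
  have h3 : 3 ∣ f := Dvd.dvd.trans (by norm_num) h9
  have hM : ∀ (n : ℕ) (hn : n.Coprime f), M1 (ZMod.unitOfCoprime n hn) ↔ n % 3 = 1 := by
    intro n hn
    unfold M1
    rw [ZMod.coe_unitOfCoprime, ZMod.val_natCast, Nat.mod_mod_of_dvd _ h3]
  obtain ⟨XP, hXP⟩ : ∃ XP : (L ≃ₐ[ℚ] L) → Prop, XP = XPJ χ κ c C Φ C' Φ' tn F tt F₂ T :=
    ⟨_, rfl⟩
  obtain ⟨XM, hXM⟩ : ∃ XM : (L ≃ₐ[ℚ] L) → Prop, XM = XMJ χ κ c C Φ C' Φ' tn F tt F₂ T :=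
    ⟨_, rfl⟩
  have htr : ∀ (g h τ : L ≃ₐ[ℚ] L), Subgroup.zpowers h = Subgroup.zpowers (τ * g * τ⁻¹) →
      ((XP g → XP h) ∧ (XM g → XM h)) ∨ ((XP g → XM h) ∧ (XM g → XP h)) := by
    intro g h τ hz
    rw [hXP, hXM]
    exact transferJ χ κ c C Φ C' Φ' tn F tt F₂ T hf h3 hconj hpow hconj2 hpow2 hz
  obtain ⟨SA, hSA⟩ : ∃ SA : Set ℕ, SA = SPU b p q p' q' tn κ c C Φ ∩
    SPKU x u P Q P' Q' κ c C' Φ' := ⟨_, rfl⟩
  obtain ⟨SB, hSB⟩ : ∃ SB : Set ℕ, SB = SMU b p q p' q' tn κ c C Φ ∩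
    SMKU x u P Q P' Q' κ c C' Φ' := ⟨_, rfl⟩
  -- the Frobenius elements
  have hfr : ∀ (n : ℕ) (hn : n.Coprime f), n.Prime → max N₀ x.norm.natAbs < n →
      ∀ (I : Ideal (𝓞 L)) (g : L ≃ₐ[ℚ] L), I.IsPrime → (n : 𝓞 L) ∈ I →
      MulAction.stabilizer (L ≃ₐ[ℚ] L) I = Subgroup.zpowers g →
      ∃ l : ℕ, l.Coprime (orderOf g) ∧ χ (g ^ l) = ZMod.unitOfCoprime n hn ∧
        (n ∈ SA → XP (g ^ l)) ∧ (n ∈ SB → XM (g ^ l)) := by
    intro n hn hnp hnN I g hI hnI hst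
    have hN1 : N₀ < n := lt_of_le_of_lt (le_max_left _ _) hnN
    have hN2 : x.norm < n := by
      have h1 : x.norm.natAbs < n := lt_of_le_of_lt (le_max_right _ _) hnN
      have h2 := norm_pos hx
      omega
    obtain ⟨l, hl, hχl, hl2⟩ := hfrob n hn hnp hN1 I g hI hnI hst
    refine ⟨l, hl, hχl, ?_, ?_⟩
    · rw [hSA, hXP]
      rintro ⟨⟨hn', ρ, ⟨h1, h2, h5, h6, h7⟩, h4⟩, ⟨hn'', -, -, h8⟩⟩
      obtain ⟨r1, r2, r3⟩ := hl2 h1 ρ h5
      obtain ⟨s1, s2, s3⟩ := h8 ρ h5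
      obtain ⟨r, r', hr, hr'⟩ := roots hSPP hSPLT hLCI hx hSK.cx hnp h1 hN2 ρ h5 s1
      obtain ⟨t1, t2⟩ := r3 s1 s2
      have hFg : F (g ^ l) := r1.2 ⟨h6, h7⟩
      refine ⟨?_, ?_, hFg, t1, ?_, ?_⟩
      · rw [hχl]
        exact (hM n hn).2 h1
      · rw [hχl]
        exact h2
      · funext j
        rw [t2 j r r' hr hr', s3 j r r' hr hr', hχl]
        rfl
      · rw [hχl]
        exact h4 (tt (g ^ l)) (r2 hFg)
    · rw [hSB, hXM]
      rintro ⟨⟨hn', ρ, ⟨h1, h2, h5, h6, h7⟩, h4⟩, ⟨hn'', -, -, h8⟩⟩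
      obtain ⟨r1, r2, r3⟩ := hl2 h1 ρ h5
      obtain ⟨s1, s2, s3⟩ := h8 ρ h5
      obtain ⟨r, r', hr, hr'⟩ := roots hSPP hSPLT hLCI hx hSK.cx hnp h1 hN2 ρ h5 s1
      obtain ⟨t1, t2⟩ := r3 s1 s2
      have hFg : F (g ^ l) := r1.2 ⟨h6, h7⟩
      refine ⟨?_, ?_, hFg, t1, ?_, ?_⟩
      · rw [hχl]
        exact (hM n hn).2 h1
      · rw [hχl]
        exact h2
      · funext j
        rw [t2 j r r' hr hr', s3 j r r' hr hr', hχl]
        rfl
      · rw [hχl]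
        exact h4 (tt (g ^ l)) (r2 hFg)
  have hzk : ∀ (g : L ≃ₐ[ℚ] L) (l : ℕ), l.Coprime (orderOf g) →
      Subgroup.zpowers g = Subgroup.zpowers (1 * g ^ l * 1⁻¹) := by
    intro g l hl
    rw [one_mul, inv_one, mul_one]
    exact (zpowers_pow_eq hl).symm
  have hor : ∀ g h τ : L ≃ₐ[ℚ] L, (XP g ∨ XM g) →
      Subgroup.zpowers h = Subgroup.zpowers (τ * g * τ⁻¹) → (XP h ∨ XM h) := by
    intro g h τ hB hz
    rcases htr g h τ hz with ⟨h4, h5⟩ | ⟨h4, h5⟩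
    · rcases hB with h6 | h6
      · exact Or.inl (h4 h6)
      · exact Or.inr (h5 h6)
    · rcases hB with h6 | h6
      · exact Or.inr (h4 h6)
      · exact Or.inl (h5 h6)
  have hand : ∀ g h τ : L ≃ₐ[ℚ] L, (XP g ∧ XM g) →
      Subgroup.zpowers h = Subgroup.zpowers (τ * g * τ⁻¹) → (XP h ∧ XM h) := by
    intro g h τ hB hz
    rcases htr g h τ hz with ⟨h4, h5⟩ | ⟨h4, h5⟩
    · exact ⟨h4 hB.1, h5 hB.2⟩
    · exact ⟨h5 hB.2, h4 hB.1⟩
  have hA1 : ∀ n ∈ SA, n % 3 = 1 ∧ ∀ hn : n.Coprime f,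
      (κ (ZMod.unitOfCoprime n hn)).toAdd = c := by
    rw [hSA]
    rintro n ⟨⟨hn', ρ, ⟨h1, h2, -⟩, -⟩, -⟩
    exact ⟨h1, fun hn => h2⟩
  have hB1 : ∀ n ∈ SB, n % 3 = 1 ∧ ∀ hn : n.Coprime f,
      (κ (ZMod.unitOfCoprime n hn)).toAdd = -c := by
    rw [hSB]
    rintro n ⟨⟨hn', ρ, ⟨h1, h2, -⟩, -⟩, -⟩
    exact ⟨h1, fun hn => h2⟩
  have hP1 : ∀ g, XP g → M1 (χ g) ∧ (κ (χ g)).toAdd = c := by
    rw [hXP]
    rintro g ⟨h1, h2, -⟩
    exact ⟨h1, h2⟩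
  have hM1 : ∀ g, XM g → M1 (χ g) ∧ (κ (χ g)).toAdd = -c := by
    rw [hXM]
    rintro g ⟨h1, h2, -⟩
    exact ⟨h1, h2⟩
  obtain ⟨K1, hK1⟩ := hDNS1 f m κ c L χ
    (fun g => XP g ∨ XM g) (SA ∪ SB) (max N₀ x.norm.natAbs) hf h9 hχ hor
    (by
      rintro g (h | h)
      · exact ⟨(hP1 g h).1, Or.inl (hP1 g h).2⟩
      · exact ⟨(hM1 g h).1, Or.inr (hM1 g h).2⟩)
    (by
      intro n hn hnp hnN I g hI hnI hst
      obtain ⟨l, hl, hχl, h1, h2⟩ := hfr n hn hnp hnN I g hI hnI hst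
      refine ⟨⟨l, hl, hχl⟩, ?_⟩
      rintro (h | h)
      · exact hor (g ^ l) g 1 (Or.inl (h1 h)) (hzk g l hl)
      · exact hor (g ^ l) g 1 (Or.inr (h2 h)) (hzk g l hl))
    (by
      rintro n hn hnp hnN (h | h)
      · exact ⟨(hA1 n h).1, Or.inl ((hA1 n h).2 hn)⟩
      · exact ⟨(hB1 n h).1, Or.inr ((hB1 n h).2 hn)⟩)
  obtain ⟨K2, hK2⟩ := hDNS1 f m κ c L χ
    (fun g => XP g ∧ XM g) (SA ∩ SB) (max N₀ x.norm.natAbs) hf h9 hχ hand
    (by
      rintro g ⟨h, -⟩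
      exact ⟨(hP1 g h).1, Or.inl (hP1 g h).2⟩)
    (by
      intro n hn hnp hnN I g hI hnI hst
      obtain ⟨l, hl, hχl, h1, h2⟩ := hfr n hn hnp hnN I g hI hnI hst
      refine ⟨⟨l, hl, hχl⟩, ?_⟩
      rintro ⟨h, h'⟩
      exact hand (g ^ l) g 1 ⟨h1 h, h2 h'⟩ (hzk g l hl))
    (by
      rintro n hn hnp hnN ⟨h, -⟩
      exact ⟨(hA1 n h).1, Or.inl ((hA1 n h).2 hn)⟩)
  obtain ⟨hX1, hX2⟩ := card_X χ κ c C Φ C' Φ' tn F tt F₂ T hEQX hf hχ heq hcF hκ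
  have hX1' : (3 ^ (s + 1) * 3 ^ k * Nat.card (Fin s → Fin s → ZMod 3)) *
      Nat.card {g : L ≃ₐ[ℚ] L // XP g} * (2 * 3 ^ (m + 1)) ≤
        2 * NK s tn * Nat.card (L ≃ₐ[ℚ] L) := by
    rw [hXP]
    exact hX1
  have hX2' : (3 ^ (s + 1) * 3 ^ k * Nat.card (Fin s → Fin s → ZMod 3)) *
      Nat.card {g : L ≃ₐ[ℚ] L // XM g} * (2 * 3 ^ (m + 1)) ≤
        2 * NK s tn * Nat.card (L ≃ₐ[ℚ] L) := by
    rw [hXM]
    exact hX2
  clear hX1 hX2
  have hincl := BD.card_incl (fun g => XP g) (fun g => XM g)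
  refine ⟨K1 + K2, fun σ h1 h2 => ?_⟩
  have e1 := hK1 σ h1 h2
  have e2 := hK2 σ h1 h2
  have hlog : 0 ≤ Real.log (1 / (σ - 1)) := by
    apply Real.log_nonneg
    rw [le_div_iff₀ (by linarith)]
    linarith
  rw [← hSA, ← hSB, BD.sm_union_inter _ _ h1]
  have hG : 0 < Nat.card (L ≃ₐ[ℚ] L) := Nat.card_pos
  have hA : 0 < Nat.card (Fin s → Fin s → ZMod 3) := Nat.card_pos
  have hcnt : (Nat.card {g : L ≃ₐ[ℚ] L // XP g ∨ XM g} : ℝ) / Nat.card (L ≃ₐ[ℚ] L) +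
      (Nat.card {g : L ≃ₐ[ℚ] L // XP g ∧ XM g} : ℝ) / Nat.card (L ≃ₐ[ℚ] L) ≤
      2 / 3 ^ (s + 1) * LI s tn / 3 ^ k / 3 ^ (m + 1) := by
    unfold LI
    clear hK1 hK2 e1 e2 hfr hor hand htr hP1 hM1 hfrob heq hcF
    generalize Nat.card {g : L ≃ₐ[ℚ] L // XP g ∨ XM g} = n1 at *
    generalize Nat.card {g : L ≃ₐ[ℚ] L // XP g ∧ XM g} = n2 at *
    generalize Nat.card {g : L ≃ₐ[ℚ] L // XP g} = x1 at *
    generalize Nat.card {g : L ≃ₐ[ℚ] L // XM g} = x2 at *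
    generalize Nat.card (Fin s → Fin s → ZMod 3) = A at *
    generalize Nat.card (L ≃ₐ[ℚ] L) = g0 at *
    have hG' : (0 : ℝ) < g0 := Nat.cast_pos.2 hG
    have hA' : (0 : ℝ) < A := Nat.cast_pos.2 hA
    have hT1 : (0 : ℝ) < 3 ^ (m + 1) := by positivity
    have hT2 : (0 : ℝ) < 3 ^ (s + 1) := by positivity
    have hT3 : (0 : ℝ) < 3 ^ k := by positivity
    have i1 : (3 : ℝ) ^ (s + 1) * 3 ^ k * A * x1 * (2 * 3 ^ (m + 1)) ≤ 2 * NK s tn * g0 := by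
      exact_mod_cast hX1'
    have i2 : (3 : ℝ) ^ (s + 1) * 3 ^ k * A * x2 * (2 * 3 ^ (m + 1)) ≤ 2 * NK s tn * g0 := by
      exact_mod_cast hX2'
    have i3 : (n1 : ℝ) + n2 = x1 + x2 := by exact_mod_cast hincl
    have i4 : (2 : ℝ) / 3 ^ (s + 1) * ((NK s tn : ℝ) / A) / 3 ^ k / 3 ^ (m + 1) =
        2 * NK s tn / (3 ^ (s + 1) * 3 ^ k * A * 3 ^ (m + 1)) := by
      field_simp
    rw [← add_div, i3, i4, div_le_div_iff₀ hG' (by positivity)]
    nlinarith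
  have hmul := mul_le_mul_of_nonneg_right hcnt hlog
  rw [add_mul] at hmul
  linarith

end Pool.Agent.PTK
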