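import Pool.Agent.PTK.StL
import Pool.Agent.PT.LCI
import Pool.Agent.Lib_helper18.CaseI
import Pool.Agent.Lib_helper84.Cub.CaseThreeLoc

/-!
# LCI: local cubes in `Z[w]`
-/

set_option autoImplicit false

namespace Pool.Agent.PTK

open Pool.Agent.Lib_helper18 Pool.Agent.Lib_helper18.Eis Pool.Agent.Lib_helper84.Cub
open Pool.Agent.PT

namespace LCI

open Pool.Agent.PT.LCI (up_eq up_spec ch_mul ch_unit ch_pow three_mul_zmod cont root_ne_zero)

/-- In a finite field with `3 K + 1` elements the elements with `x ^ K = 1` are cubes. -/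
theorem fin_cube {F : Type} [Field F] [Finite F] {K : ℕ} (hK : Nat.card F = 3 * K + 1) {x : F}
    (hx : x ≠ 0) (h : x ^ K = 1) : ∃ y : F, y ^ 3 = x := by
  obtain ⟨g, hg⟩ := IsCyclic.exists_generator (α := Fˣ)
  obtain ⟨u, hu⟩ : ∃ u : Fˣ, (u : F) = x := ⟨Units.mk0 x hx, rfl⟩
  obtain ⟨k, hk⟩ := (Subgroup.mem_zpowers_iff).1 (hg u)
  have hu1 : u ^ K = 1 := by
    apply Units.ext
    rw [Units.val_pow_eq_pow_val, hu, h, Units.val_one]
  have ho : orderOf g = 3 * K := by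
    rw [orderOf_eq_card_of_forall_mem_zpowers hg, Nat.card_units, hK, Nat.add_sub_cancel]
  have hK0 : K ≠ 0 := by
    rintro rfl
    have h1 : 1 < Nat.card F := Finite.one_lt_card
    omega
  have hd : ((3 * K : ℕ) : ℤ) ∣ k * (K : ℤ) := by
    rw [← ho]
    apply orderOf_dvd_iff_zpow_eq_one.2
    rw [zpow_mul, hk, zpow_natCast]
    exact hu1
  have h3k : (3 : ℤ) ∣ k := by
    obtain ⟨c, hc⟩ := hd
    have h5 : (K : ℤ) ≠ 0 := by exact_mod_cast hK0
    refine ⟨c, ?_⟩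
    apply mul_right_cancel₀ h5
    push_cast at hc
    linear_combination hc
  obtain ⟨j, hj⟩ := h3k
  refine ⟨((g ^ j : Fˣ) : F), ?_⟩
  rw [← hu, ← hk, hj, ← Units.val_pow_eq_pow_val]
  congr 1
  rw [← zpow_natCast, ← zpow_mul]
  congr 1
  push_cast
  ring

/-- The integer residue. -/
theorem val_dvd (M : ℕ) [NeZero M] (a : ℤ) : (M : ℤ) ∣ a - ((a : ZMod M).val : ℤ) := by
  rw [← ZMod.intCast_zmod_eq_zero_iff_dvd]
  push_cast
  rw [ZMod.natCast_val, ZMod.cast_id', id, sub_self]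

theorem aux1 (x : Eis) (a b : ℤ) : ((a : Eis) + (b : Eis) * w) - x =
    -(((x.re - a : ℤ) : Eis) + ((x.im - b : ℤ) : Eis) * w) := by
  conv_lhs => rw [eq_re_add_im x]
  push_cast
  ring

theorem aux2 (a b a' b' : ℤ) : ((a : Eis) + (b : Eis) * w) - ((a' : Eis) + (b' : Eis) * w) =
    (⟨a - a', b - b'⟩ : Eis) := by
  ext
  · simp
  · simp

/-- The residue field is finite, with `N π` elements. -/
theorem card_res (hSPP : SPP) (π : PP) (h3 : ¬ π.1 ∣ 3) (I : Ideal Eis)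
    (hI : I = Ideal.span {π.1}) [I.IsMaximal] : Finite (Eis ⧸ I) ∧ Nat.card (Eis ⧸ I) = N π.1 := by
  have hπ := π.2.1
  have hmk : ∀ a : Eis, Ideal.Quotient.mk I a = 0 ↔ π.1 ∣ a := by
    intro a
    rw [Ideal.Quotient.eq_zero_iff_mem, hI, Ideal.mem_span_singleton]
  let _ : Field (Eis ⧸ I) := Ideal.Quotient.field I
  have hM0 : N π.1 ≠ 0 := by
    intro h
    have h1 := three_mul_div hπ h3
    omega
  have : NeZero (N π.1) := ⟨hM0⟩
  have hMd : π.1 ∣ (((N π.1 : ℕ) : ℤ) : Eis) := by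
    rw [N_cast, ← mul_conj]
    exact dvd_mul_right _ _
  -- finiteness
  have hfin : Finite (Eis ⧸ I) := by
    refine Finite.of_surjective (fun z : ZMod (N π.1) × ZMod (N π.1) =>
      Ideal.Quotient.mk I (((z.1.val : ℤ) : Eis) + ((z.2.val : ℤ) : Eis) * w)) ?_
    intro y
    obtain ⟨x, rfl⟩ := Ideal.Quotient.mk_surjective y
    refine ⟨((x.re : ZMod (N π.1)), (x.im : ZMod (N π.1))), ?_⟩
    rw [← sub_eq_zero, ← map_sub, hmk]
    rw [aux1, dvd_neg]
    refine dvd_add ?_ (Dvd.dvd.mul_right ?_ _)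
    · exact hMd.trans (intCast_dvd_intCast.2 (val_dvd _ _))
    · exact hMd.trans (intCast_dvd_intCast.2 (val_dvd _ _))
  refine ⟨hfin, le_antisymm ?_ ?_⟩
  · -- at most `N π` elements
    obtain ⟨g, hg⟩ := IsCyclic.exists_generator (α := (Eis ⧸ I)ˣ)
    have ho : orderOf g = Nat.card (Eis ⧸ I) - 1 := by
      rw [orderOf_eq_card_of_forall_mem_zpowers hg, Nat.card_units]
    obtain ⟨x, hx⟩ := Ideal.Quotient.mk_surjective ((g : (Eis ⧸ I)ˣ) : Eis ⧸ I)
    have h1 : (Ideal.Quotient.mk I x) ^ N π.1 = Ideal.Quotient.mk I x := by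
      rw [← sub_eq_zero, ← map_pow, ← map_sub, hmk]
      exact dvd_pow_sub hπ h3
    have h2 : g ^ (N π.1 - 1) = 1 := by
      have h4 : g ^ (N π.1 - 1) * g = 1 * g := by
        rw [← pow_succ, Nat.sub_add_cancel (Nat.one_le_iff_ne_zero.2 hM0), one_mul]
        apply Units.ext
        rw [Units.val_pow_eq_pow_val, ← hx, h1]
      exact mul_right_cancel h4
    have h5 := orderOf_dvd_of_pow_eq_one h2
    rw [ho] at h5
    have h6 : 0 < N π.1 - 1 := by
      have h7 := three_mul_div hπ h3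
      have h8 : N π.1 ≠ 1 := by
        intro h9
        apply hπ.not_isUnit
        rw [isUnit_iff_norm, ← N_cast, h9]
        rfl
      omega
    have h7 := Nat.le_of_dvd h6 h5
    omega
  · -- at least `N π` elements
    obtain ⟨p, hp, hc⟩ := hSPP.2.2.2.2.2 π
    have : NeZero p := ⟨hp.ne_zero⟩
    have hpi : Prime (p : ℤ) := Nat.prime_iff_prime_int.1 hp
    have hval : ∀ a b : ZMod p, (p : ℤ) ∣ (a.val : ℤ) - (b.val : ℤ) → a = b := by
      intro a b h
      have h1 := (ZMod.intCast_zmod_eq_zero_iff_dvd _ p).2 h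
      push_cast at h1
      rw [ZMod.natCast_val, ZMod.natCast_val, ZMod.cast_id', id, id] at h1
      exact sub_eq_zero.1 h1
    rcases hc with ⟨-, h2⟩ | ⟨-, h2, -, -⟩
    · have hN : N π.1 = Nat.card (ZMod p × ZMod p) := by
        rw [Nat.card_prod, Nat.card_zmod]
        have h5 : ((N π.1 : ℕ) : ℤ) = ((p * p : ℕ) : ℤ) := by
          rw [N_cast, h2, norm_def]
          push_cast
          simp only [natCast_re, natCast_im]
          ring
        exact_mod_cast h5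
      rw [hN]
      refine Nat.card_le_card_of_injective (fun z : ZMod p × ZMod p =>
        Ideal.Quotient.mk I (((z.1.val : ℤ) : Eis) + ((z.2.val : ℤ) : Eis) * w)) ?_
      intro z z' hz
      have h5 := sub_eq_zero.2 hz
      simp only [] at h5
      rw [← map_sub, hmk, h2] at h5
      rw [aux2, ← Int.cast_natCast, intCast_dvd_iff] at h5
      exact Prod.ext (hval _ _ h5.1) (hval _ _ h5.2)
    · have hN : N π.1 = Nat.card (ZMod p) := by
        rw [Nat.card_zmod]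
        have h5 : ((N π.1 : ℕ) : ℤ) = (p : ℤ) := by rw [N_cast, h2]
        exact_mod_cast h5
      rw [hN]
      refine Nat.card_le_card_of_injective (fun z : ZMod p =>
        Ideal.Quotient.mk I ((z.val : ℤ) : Eis)) ?_
      intro z z' hz
      have h5 := sub_eq_zero.2 hz
      simp only [] at h5
      rw [← map_sub, hmk, ← Int.cast_sub] at h5
      apply hval
      obtain ⟨y, hy⟩ := h5
      have h6 := congrArg Eis.norm hy
      rw [Eis.norm_mul, Pool.Agent.PT.LCI.norm_int, h2] at h6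
      exact hpi.dvd_of_dvd_pow ⟨_, h6⟩

/-- An element prime to `π` with trivial symbol is a cube modulo `π`. -/
theorem cube_root (hSPP : SPP) (π : PP) {c : Eis} (hc : ¬ π.1 ∣ c) (hs : sym π.1 c = 0) :
    ∃ r : Eis, π.1 ∣ r ^ 3 - c := by
  have hπ := π.2.1
  have h3 := (hSPP.2.2.2.1 π).1
  have hmax : (Ideal.span {π.1}).IsMaximal := PrincipalIdealRing.isMaximal_of_irreducible
    hπ.irreducible
  generalize hI : Ideal.span {π.1} = I at hmax
  obtain ⟨hfin, hcard⟩ := card_res hSPP π h3 I hI.symm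
  have hmk : ∀ a : Eis, Ideal.Quotient.mk I a = 0 ↔ π.1 ∣ a := by
    intro a
    rw [Ideal.Quotient.eq_zero_iff_mem, ← hI, Ideal.mem_span_singleton]
  let _ : Field (Eis ⧸ I) := Ideal.Quotient.field I
  have h4 := sym_spec hπ h3 hc
  rw [hs, ZMod.val_zero, pow_zero] at h4
  obtain ⟨y, hy⟩ := fin_cube (K := (N π.1 - 1) / 3) (x := Ideal.Quotient.mk I c)
    (by rw [hcard, three_mul_div hπ h3]) (fun h => hc ((hmk c).1 h))
    (by rw [← map_pow, ← sub_eq_zero, ← map_one (Ideal.Quotient.mk I), ← map_sub, hmk]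
        exact h4)
  obtain ⟨r, rfl⟩ := Ideal.Quotient.mk_surjective y
  refine ⟨r, ?_⟩
  rw [← hmk, map_sub, map_pow, hy, sub_self]

theorem first (hSPP : SPP) (π : PP) (b : Eis) (hb0 : b ≠ 0) :
    LCE π.1 b ↔ 3 ∣ V π.1 b ∧ ch π.1 b = 0 := by
  have hπ := π.2.1
  have h3 := (hSPP.2.2.2.1 π).1
  constructor
  · intro h
    obtain ⟨r, hr⟩ := h (V π.1 b + 1)
    have hr0 := root_ne_zero hπ hb0 le_rfl hr
    obtain ⟨h1, h2⟩ := cont hπ hb0 hr
    rw [V_pow hπ hr0] at h1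
    rw [ch_pow hπ h3 hr0, three_mul_zmod (dvd_refl 3), zero_mul] at h2
    exact ⟨⟨_, h1.symm⟩, h2.symm⟩
  · rintro ⟨⟨j, hj⟩, h2⟩ M
    obtain ⟨h4, h5⟩ := up_spec hπ hb0
    obtain ⟨r0, hr0⟩ := cube_root hSPP π h5 h2
    obtain ⟨τ, -, hτ⟩ := hensel hπ h3 h5 hr0 M
    refine ⟨π.1 ^ j * τ, ?_⟩
    have e : (π.1 ^ j * τ) ^ 3 - b = π.1 ^ V π.1 b * (τ ^ 3 - up π.1 b) := by
      conv_lhs => rw [h4]
      rw [hj]
      ring
    rw [e]
    exact ((pow_dvd_pow π.1 (Nat.le_succ M)).trans hτ).mul_left _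

/-- Cubes at `λ`: elements `1` modulo `λ⁴`. -/
theorem lam_cube {b : Eis} (hb : lam ^ 4 ∣ b - 1) : ∀ M : ℕ, ∃ r : Eis, lam ∣ r - 1 ∧
    lam ^ (M + 4) ∣ r ^ 3 - b := by
  intro M
  induction M with
  | zero =>
    refine ⟨1, by rw [sub_self]; exact dvd_zero _, ?_⟩
    rw [zero_add, one_pow, ← dvd_neg, neg_sub]
    exact hb
  | succ M ih =>
    obtain ⟨r, ⟨k, hk⟩, c, hc⟩ := ih
    have h3 : (3 : Eis) = lam ^ 2 * (-w ^ 2) := lam_two
    have hw := w_cube
    refine ⟨r + lam ^ (M + 2) * (w * c), ⟨k + lam ^ (M + 1) * (w * c), ?_⟩,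
      -c * k * (r + 1) - w ^ 2 * lam ^ (M + 1) * r * (w * c) ^ 2 +
        lam ^ (2 * M + 1) * (w * c) ^ 3, ?_⟩
    · rw [pow_succ lam (M + 1)]
      linear_combination hk
    · have e1 : lam ^ (M + 1 + 4) = lam ^ M * lam ^ 5 := by rw [← pow_add]
      have e2 : lam ^ (M + 4) = lam ^ M * lam ^ 4 := by rw [← pow_add]
      have e3 : lam ^ (M + 2) = lam ^ M * lam ^ 2 := by rw [← pow_add]
      have e4 : lam ^ (M + 1) = lam ^ M * lam := by rw [pow_succ]
      have e5 : lam ^ (2 * M + 1) = lam ^ M * lam ^ M * lam := by rw [two_mul, pow_succ, pow_add]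
      rw [e2] at hc
      rw [e1, e3, e4, e5]
      generalize lam ^ M = P at *
      linear_combination hc + (P * lam ^ 2 * r ^ 2 * (w * c) + P ^ 2 * lam ^ 4 * r * (w * c) ^ 2) * h3
        - P * lam ^ 4 * r ^ 2 * c * hw - P * lam ^ 4 * c * (r + 1) * hk

theorem second (b a c : Eis) (ha : ¬ lam ∣ a) (hc : ¬ lam ∣ c) (h : lam ^ 4 ∣ b * c ^ 3 - a ^ 3) :
    LCE lam b := by
  obtain ⟨C, hC, y, hy⟩ := cube_mod_nine ha
  obtain ⟨C', hC', y', hy'⟩ := cube_mod_nine hc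
  have h9 : (9 : Eis) = w * lam ^ 4 := by decide
  have hCC : (C' : Eis) * (C' : Eis) = 1 := by
    rcases hC' with rfl | rfl <;> simp
  have hC2 : (C : Eis) * (C : Eis) = 1 := by
    rcases hC with rfl | rfl <;> simp
  -- `b` is congruent to `C C'`
  have h1 : lam ^ 4 ∣ b - (C : Eis) * C' := by
    obtain ⟨k, hk⟩ := h
    rw [hy, hy'] at hk
    refine ⟨k * C' - b * w * y' * C' + w * y * C', ?_⟩
    linear_combination (C' : Eis) * hk - b * hCC - (b * y' * C' - y * C') * h9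
  -- a cube root of `C C' b`
  have h2 : lam ^ 4 ∣ (C : Eis) * C' * b - 1 := by
    have e : (C : Eis) * C' * b - 1 = (C : Eis) * C' * (b - (C : Eis) * C') := by
      linear_combination (C' : Eis) * C' * hC2 + hCC
    rw [e]
    exact h1.mul_left _
  intro M
  obtain ⟨r, -, hr⟩ := lam_cube h2 M
  refine ⟨(C : Eis) * C' * r, ?_⟩
  have e : ((C : Eis) * C' * r) ^ 3 - b = (C : Eis) * C' * (r ^ 3 - (C : Eis) * C' * b) := by
    have h4 : ((C : Eis) * C') ^ 2 = 1 := by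
      rw [mul_pow, pow_two, pow_two, hC2, hCC, one_mul]
    linear_combination ((C : Eis) * C' * r ^ 3 + b) * h4
  rw [e]
  exact ((pow_dvd_pow lam (by omega)).trans hr).mul_left _

theorem third (π : Eis) (s : Eis → Eis → ZMod 3) (e : ℕ) (b a : Eis) (hs : LSym π s e)
    (h : LCE π b) (hb0 : b ≠ 0) (ha : a ≠ 0) : s b a = 0 := by
  obtain ⟨r, hr⟩ := h (V π b + e)
  have hr0 := root_ne_zero hs.prime hb0 hs.pos hr
  have h1 := hs.cont b (r ^ 3) a hb0 ha hr
  rw [← h1]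
  have h2 := hs.mul r r a hr0 hr0 ha
  have h3 := hs.mul (r * r) r a (mul_ne_zero hr0 hr0) hr0 ha
  have e3 : r ^ 3 = r * r * r := by ring
  rw [e3, h3, h2]
  have h4 : ∀ x : ZMod 3, x + x + x = 0 := by decide
  exact h4 _

end LCI

theorem LCI_thm (hSPP : SPP) : Stmt_LCI :=
  ⟨LCI.first hSPP, LCI.second, fun π s e b a hs h hb ha => LCI.third π s e b a hs h hb ha⟩

end Pool.Agent.PTK
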