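import Pool.Agent.PTK.StJ
import Pool.Agent.PTK.BDK
import Pool.Agent.PTK.LCI
import Pool.Agent.PTN.BDU

/-!
# PTK_BDJZ: the bound for the density, `Q = 1 (mod 3)`, all rational classes cubes modulo `Q`
-/

set_option autoImplicit false

open NumberField IsDedekindDomain Finset
open scoped nonZeroDivisors Pointwise

namespace Pool.Agent.PTK

open Pool.Agent.Lib_helper18 Pool.Agent.Lib_helper18.Eis Pool.Agent.Lib_helper84.Cub
open Pool.Agent.PT Pool.Agent.PTE Pool.Agent.PT3 Pool.Agent.PTL Pool.Agent.PTN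

namespace BDJZ

open BDENS

/-- cube roots modulo the two prime factors of a split prime -/
theorem exists_roots (hSPP : SPP) (hSPLT : SPLT) {x : Eis} (hx : x ≠ 0)
    (hcx : ∃ t : Eis, x * conj x = t ^ 3) {N : ℕ} (hN : N.Prime) (h1 : N % 3 = 1)
    (hNx : x.norm < N) {ρ : PP} (hρ : (N : Eis) = ρ.1 * conj ρ.1) (hs : sym ρ.1 x = 0) :
    ∃ r r' : Eis, ρ.1 ∣ r ^ 3 - x ∧ conj ρ.1 ∣ r' ^ 3 - x := by
  obtain ⟨-, -, -, hint, -, -⟩ := hSPLT.2 N ρ hN h1 hρ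
  have hnd : ¬ ρ.1 ∣ x := by
    intro hd
    have h2 : ρ.1 ∣ ((x.norm : ℤ) : Eis) := by
      rw [← mul_conj]
      exact hd.mul_right _
    rw [hint] at h2
    have h3 := Int.le_of_dvd (norm_pos hx) h2
    omega
  obtain ⟨r, hr⟩ := LCI.cube_root hSPP ρ hnd hs
  obtain ⟨T, hT⟩ := hcx
  have hπ := ρ.2.1
  have hnr : ¬ ρ.1 ∣ r := by
    intro hd
    apply hnd
    have h2 : ρ.1 ∣ r ^ 3 := dvd_pow hd (by norm_num)
    have h3 := (dvd_sub h2 hr)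
    rwa [sub_sub_cancel] at h3
  have hnr' : ¬ conj ρ.1 ∣ conj r := by
    rw [conj_dvd_iff]
    exact hnr
  have hcop : IsCoprime (conj ρ.1) (conj r) := by
    have hirr : Irreducible (conj ρ.1) := by
      have h4 : Prime (conj ρ.1) := (MulEquiv.prime_iff (conjEquiv.toMulEquiv)).2 hπ
      exact h4.irreducible
    exact (hirr.coprime_iff_not_dvd).2 hnr'
  obtain ⟨a, b, hab⟩ := hcop
  have hcr : conj ρ.1 ∣ conj r ^ 3 - conj x := by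
    have := conj_dvd hr
    rwa [map_sub, map_pow] at this
  refine ⟨r, T * b, hr, ?_⟩
  -- `(T b)³ - x = x (conj x b³ - 1)`, and `conj x = conj r³`, `conj r b = 1`
  obtain ⟨y, hy⟩ := hcr
  have e1 : (T * b) ^ 3 - x = x * (conj x * b ^ 3 - 1) := by
    rw [mul_pow, ← hT]
    ring
  have e2 : conj x = conj r ^ 3 - conj ρ.1 * y := by
    rw [← hy]
    ring
  have e3 : conj x * b ^ 3 - 1 = ((b * conj r) ^ 3 - 1) - conj ρ.1 * (y * b ^ 3) := by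
    rw [e2]
    ring
  have e4 : b * conj r = 1 - conj ρ.1 * a := by
    rw [← hab]
    ring
  rw [e1, e3, e4]
  refine Dvd.dvd.mul_left ?_ _
  refine dvd_sub ?_ (dvd_mul_right _ _)
  exact ⟨a * (-3 + 3 * (conj ρ.1 * a) - (conj ρ.1 * a) ^ 2), by ring⟩

section
variable {G : Type} [Group G] {f m s : ℕ} (χ : G →* (ZMod f)ˣ)
    (κ : (ZMod f)ˣ →* Multiplicative (Fin (m + 1) → ZMod 3)) (c : Fin (m + 1) → ZMod 3)
    (C : Fin s → ZMod 3) (Φ : (ZMod f)ˣ →* Multiplicative (Fin s → ZMod 3))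
    (F : G → Prop) (t : G → Fin s → ZMod 3)

/-- the elements of class `c` with prescribed `t` -/
def XPZ (g : G) : Prop := M1 (χ g) ∧ F g ∧ (κ (χ g)).toAdd = c ∧ t g = C + (Φ (χ g)).toAdd

/-- the elements of class `-c` with prescribed `t` -/
def XMZ (g : G) : Prop := M1 (χ g) ∧ F g ∧ (κ (χ g)).toAdd = -c ∧ t g = - C + (Φ (χ g)).toAdd

/-- passing to another generator of a conjugate subgroup -/
theorem transferZ [Finite G] (hf : 0 < f) (h3 : 3 ∣ f)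
    (hconj : ∀ g τ : G, M1 (χ g) → F g → F (τ * g * τ⁻¹) ∧ t (τ * g * τ⁻¹) = t g)
    (hpow : ∀ (g : G) (k : ℕ), M1 (χ g) → F g → F (g ^ k) ∧
      t (g ^ k) = (k : ZMod 3) • t g)
    {g h τ : G} (hz : Subgroup.zpowers h = Subgroup.zpowers (τ * g * τ⁻¹)) :
    ((XPZ χ κ c C Φ F t g → XPZ χ κ c C Φ F t h) ∧
        (XMZ χ κ c C Φ F t g → XMZ χ κ c C Φ F t h)) ∨
      ((XPZ χ κ c C Φ F t g → XMZ χ κ c C Φ F t h) ∧
        (XMZ χ κ c C Φ F t g → XPZ χ κ c C Φ F t h)) := by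
  by_cases hM : M1 (χ g)
  swap
  · exact Or.inl ⟨fun h => absurd h.1 hM, fun h => absurd h.1 hM⟩
  by_cases hF : F g
  swap
  · exact Or.inl ⟨fun h => absurd h.2.1 hF, fun h => absurd h.2.1 hF⟩
  have hχg : χ (τ * g * τ⁻¹) = χ g := by
    rw [map_mul, map_mul, map_inv, mul_comm (χ τ), mul_inv_cancel_right]
  have hM' : M1 (χ (τ * g * τ⁻¹)) := by
    rw [hχg]
    exact hM
  obtain ⟨k, hk3, hh⟩ := BDU.exists_pow3 hz
  have h1 : χ h = χ g ^ k := by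
    rw [hh, map_pow, hχg]
  obtain ⟨h2, h4⟩ := hconj g τ hM hF
  obtain ⟨h5, h6⟩ := hpow _ k hM' h2
  rw [← hh] at h5 h6
  rw [h4, BDK.smul_cast] at h6
  have hMh : M1 (χ h) := by
    rw [h1]
    exact BDU.M1_pow hf h3 hM k
  have e1 : (κ (χ h)).toAdd = k • (κ (χ g)).toAdd := by
    rw [h1, map_pow, toAdd_pow]
  have e2 : (Φ (χ h)).toAdd = k • (Φ (χ g)).toAdd := by
    rw [h1, map_pow, toAdd_pow]
  have hk12 : k % 3 = 1 ∨ k % 3 = 2 := by omega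
  rcases hk12 with hk1 | hk2
  · rw [nsmul_one three_f hk1] at e1
    rw [nsmul_one BDK.three_s hk1] at e2 h6
    refine Or.inl ⟨?_, ?_⟩
    · rintro ⟨-, -, h7, h8⟩
      refine ⟨hMh, h5, ?_, ?_⟩
      · rw [e1, h7]
      · rw [h6, e2, h8]
    · rintro ⟨-, -, h7, h8⟩
      refine ⟨hMh, h5, ?_, ?_⟩
      · rw [e1, h7]
      · rw [h6, e2, h8]
  · rw [nsmul_two three_f hk2] at e1
    rw [nsmul_two BDK.three_s hk2] at e2 h6
    refine Or.inr ⟨?_, ?_⟩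
    · rintro ⟨-, -, h7, h8⟩
      refine ⟨hMh, h5, ?_, ?_⟩
      · rw [e1, h7]
      · rw [h6, e2, h8]
        abel
    · rintro ⟨-, -, h7, h8⟩
      refine ⟨hMh, h5, ?_, ?_⟩
      · rw [e1, h7, neg_neg]
      · rw [h6, e2, h8]
        abel

/-- counting in one class -/
theorem card_cls [Finite G] {s₀ : ℕ} {F₀ F₂ : G → Prop}
    (heq : ∀ (a : (ZMod f)ˣ) (v v' : Fin s → ZMod 3), M1 a →
      Nat.card {g : G // χ g = a ∧ F₀ g ∧ F₂ g ∧ t g = v} =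
        Nat.card {g : G // χ g = a ∧ F₀ g ∧ F₂ g ∧ t g = v'})
    (hcF : ∀ a : (ZMod f)ˣ, M1 a → 3 ^ s₀ * Nat.card {g : G // χ g = a ∧ F₀ g} =
      Nat.card {g : G // χ g = a})
    (hfib : ∀ a : (ZMod f)ˣ, Nat.card {g : G // χ g = a} = Nat.card χ.ker)
    (a : (ZMod f)ˣ) (v : Fin s → ZMod 3) (ha : M1 a) :
    (3 ^ s₀ * 3 ^ s) * Nat.card {g : G // χ g = a ∧ (F₀ g ∧ F₂ g) ∧ t g = v} ≤
      Nat.card χ.ker := by
  classical
  have := Fintype.ofFinite G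
  rw [← hfib a, ← hcF a ha, mul_assoc]
  refine Nat.mul_le_mul_left _ ?_
  have e0 : Nat.card {g : G // χ g = a ∧ F₀ g} =
      (Finset.univ.filter fun g : G => χ g = a ∧ F₀ g).card := by
    rw [Nat.card_eq_fintype_card, Fintype.card_subtype]
  have e3 : ∀ v, Nat.card {g : G // χ g = a ∧ F₀ g ∧ F₂ g ∧ t g = v} =
      (Finset.univ.filter fun g : G => χ g = a ∧ F₀ g ∧ F₂ g ∧ t g = v).card := fun v => by
    rw [Nat.card_eq_fintype_card, Fintype.card_subtype]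
  have e3' : Nat.card {g : G // χ g = a ∧ (F₀ g ∧ F₂ g) ∧ t g = v} =
      Nat.card {g : G // χ g = a ∧ F₀ g ∧ F₂ g ∧ t g = v} :=
    Nat.card_congr (Equiv.subtypeEquivRight fun g => by tauto)
  have e4 : (Finset.univ.filter fun g : G => χ g = a ∧ F₀ g ∧ F₂ g).card =
      ∑ v : Fin s → ZMod 3,
        (Finset.univ.filter fun g : G => χ g = a ∧ F₀ g ∧ F₂ g ∧ t g = v).card := by
    rw [Finset.card_eq_sum_card_fiberwise (f := t) (t := Finset.univ)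
      (fun g _ => Finset.mem_coe.2 (Finset.mem_univ _))]
    refine Finset.sum_congr rfl fun v _ => ?_
    congr 1
    ext g
    simp only [Finset.mem_filter, Finset.mem_univ, true_and]
    tauto
  have e5 : ∀ v' : Fin s → ZMod 3,
      (Finset.univ.filter fun g : G => χ g = a ∧ F₀ g ∧ F₂ g ∧ t g = v').card =
      (Finset.univ.filter fun g : G => χ g = a ∧ F₀ g ∧ F₂ g ∧ t g = v).card := by
    intro v'
    rw [← e3, ← e3]
    exact heq a v' v ha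
  rw [Finset.sum_congr rfl fun v' _ => e5 v', Finset.sum_const, smul_eq_mul] at e4
  have e6 : (Finset.univ : Finset (Fin s → ZMod 3)).card = 3 ^ s := by
    rw [Finset.card_univ, Fintype.card_fun, ZMod.card, Fintype.card_fin]
  rw [e6] at e4
  rw [e0, e3', e3, ← e4]
  apply Finset.card_le_card
  intro g hg
  rw [Finset.mem_filter] at hg ⊢
  exact ⟨hg.1, hg.2.1, hg.2.2.1⟩

/-- counting -/
theorem card_Z [Finite G] (hf : 0 < f) (hχ : Function.Surjective χ) {A : ℕ}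
    (hcls : ∀ (a : (ZMod f)ˣ) (v : Fin s → ZMod 3), M1 a →
      A * Nat.card {g : G // χ g = a ∧ F g ∧ t g = v} ≤ Nat.card χ.ker)
    (hκ : ∀ c : Fin (m + 1) → ZMod 3,
      Nat.card {a : (ZMod f)ˣ // M1 a ∧ (κ a).toAdd = c} * (2 * 3 ^ (m + 1)) = f.totient)
    (d : Fin (m + 1) → ZMod 3) (D : Fin s → ZMod 3) :
    A * Nat.card {g : G // M1 (χ g) ∧ F g ∧ (κ (χ g)).toAdd = d ∧
      t g = D + (Φ (χ g)).toAdd} * (2 * 3 ^ (m + 1)) ≤ Nat.card G := by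
  classical
  have : NeZero f := ⟨hf.ne'⟩
  obtain ⟨hfib, hcard⟩ := fibre χ hχ
  have hH : Nat.card (ZMod f)ˣ = f.totient := by
    rw [Nat.card_eq_fintype_card, ZMod.card_units_eq_totient]
  rw [hH] at hcard
  have hP : A * Nat.card {g : G // (M1 (χ g) ∧ (κ (χ g)).toAdd = d) ∧
      (F g ∧ t g = D + (Φ (χ g)).toAdd)} ≤
      Nat.card {a : (ZMod f)ˣ // M1 a ∧ (κ a).toAdd = d} * Nat.card χ.ker := by
    refine count_le χ (fun g => F g ∧ t g = D + (Φ (χ g)).toAdd)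
      (fun a => M1 a ∧ (κ a).toAdd = d) _ _ fun a ha => ?_
    refine le_trans (Nat.mul_le_mul_left _ (le_of_eq ?_)) (hcls a (D + (Φ a).toAdd) ha.1)
    refine Nat.card_congr (Equiv.subtypeEquivRight fun g => ?_)
    constructor
    · rintro ⟨rfl, h⟩
      exact ⟨rfl, h⟩
    · rintro ⟨rfl, h⟩
      exact ⟨rfl, h⟩
  have e1 : Nat.card {g : G // M1 (χ g) ∧ F g ∧ (κ (χ g)).toAdd = d ∧
      t g = D + (Φ (χ g)).toAdd} =
      Nat.card {g : G // (M1 (χ g) ∧ (κ (χ g)).toAdd = d) ∧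
      (F g ∧ t g = D + (Φ (χ g)).toAdd)} :=
    Nat.card_congr (Equiv.subtypeEquivRight fun g => by tauto)
  rw [e1]
  have h1 := hκ d
  generalize Nat.card {g : G // (M1 (χ g) ∧ (κ (χ g)).toAdd = d) ∧
      (F g ∧ t g = D + (Φ (χ g)).toAdd)} = nP at *
  generalize Nat.card {a : (ZMod f)ˣ // M1 a ∧ (κ a).toAdd = d} = cP at *
  generalize 3 ^ (m + 1) = B at *
  generalize Nat.card χ.ker = K at *
  rw [← hcard]
  calc A * nP * (2 * B) ≤ cP * K * (2 * B) := Nat.mul_le_mul_right _ hP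
    _ = K * (cP * (2 * B)) := by ring
    _ = K * f.totient := by rw [h1]

end

end BDJZ

open BDENS BD BDJZ in
/-- BDJZ: the bound for the density, both exponents together, `Q = 1 (mod 3)`, all rational
classes cubes modulo `Q`. -/
theorem BDJZ_thm (hSPP : SPP) (hSPLT : SPLT) (hJAZ : Stmt_JAZ) (hDNS1 : Stmt_DNS1) :
    Stmt_BDJZ := by
  classical
  intro s b p q p' q' k x u P Q P' Q' f m κ c C Φ hSysG hSys hf h9 hκ
  have hx : x ≠ 0 := by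
    rintro rfl
    refine hSys.ind 1 (fun _ => 0) (Or.inl (by norm_num)) ⟨0, ?_⟩
    simp
  obtain ⟨L, iF, iN, iG, χ, F₀, F₂, T, N₀, hχ, h0c, h0p, h2c, h2p, heq, hcF, hfrob⟩ :=
    hJAZ s b p q p' q' k x u P Q P' Q' f hSysG hSys hf h9
  have h3 : 3 ∣ f := Dvd.dvd.trans (by norm_num) h9
  have hM : ∀ (N : ℕ) (hN : N.Coprime f), M1 (ZMod.unitOfCoprime N hN) ↔ N % 3 = 1 := by
    intro N hN
    unfold M1
    rw [ZMod.coe_unitOfCoprime, ZMod.val_natCast, Nat.mod_mod_of_dvd _ h3]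
  set F : (L ≃ₐ[ℚ] L) → Prop := fun g => F₀ g ∧ F₂ g with hF
  have hconj : ∀ g τ : L ≃ₐ[ℚ] L, M1 (χ g) → F g → F (τ * g * τ⁻¹) ∧ T (τ * g * τ⁻¹) = T g := by
    rintro g τ hg ⟨hg0, hg2⟩
    exact ⟨⟨h0c g τ hg hg0, (h2c g τ hg hg2).1⟩, (h2c g τ hg hg2).2⟩
  have hpow : ∀ (g : L ≃ₐ[ℚ] L) (l : ℕ), M1 (χ g) → F g → F (g ^ l) ∧
      T (g ^ l) = (l : ZMod 3) • T g := by
    rintro g l hg ⟨hg0, hg2⟩
    exact ⟨⟨h0p g l hg hg0, (h2p g l hg hg2).1⟩, (h2p g l hg hg2).2⟩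
  have htr := fun (g h τ : L ≃ₐ[ℚ] L)
    (hz : Subgroup.zpowers h = Subgroup.zpowers (τ * g * τ⁻¹)) =>
    transferZ χ κ c C Φ F T hf h3 hconj hpow hz
  -- the Frobenius elements
  have hfr : ∀ (N : ℕ) (hN : N.Coprime f), N.Prime → max N₀ x.norm.natAbs < N →
      ∀ (I : Ideal (𝓞 L)) (g : L ≃ₐ[ℚ] L), I.IsPrime → (N : 𝓞 L) ∈ I →
      MulAction.stabilizer (L ≃ₐ[ℚ] L) I = Subgroup.zpowers g →
      ∃ l : ℕ, l.Coprime (orderOf g) ∧ χ (g ^ l) = ZMod.unitOfCoprime N hN ∧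
        (N ∈ ZP b ∩ SPKU x u P Q P' Q' κ c C Φ → XPZ χ κ c C Φ F T (g ^ l)) ∧
        (N ∈ ZP b ∩ SMKU x u P Q P' Q' κ c C Φ → XMZ χ κ c C Φ F T (g ^ l)) := by
    intro N hN hNp hNN I g hI hNI hst
    have hN1 : N₀ < N := lt_of_le_of_lt (le_max_left _ _) hNN
    have hN2 : x.norm < N := by
      have h1 : x.norm.natAbs < N := lt_of_le_of_lt (le_max_right _ _) hNN
      have h2 := norm_pos hx
      omega
    obtain ⟨l, hl, hχl, hl2⟩ := hfrob N hN hNp hN1 I g hI hNI hst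
    refine ⟨l, hl, hχl, ?_, ?_⟩
    · rintro ⟨hZ, hN', h1, h2, h4⟩
      obtain ⟨ρ, hρ⟩ := hSPLT.1 N hNp h1
      obtain ⟨h5, h6, h7⟩ := h4 ρ hρ
      obtain ⟨h8, h10⟩ := hl2 h1 ρ hρ
      obtain ⟨h11, h12⟩ := h10 h5 h6
      obtain ⟨r, r', hr, hr'⟩ := exists_roots hSPP hSPLT hx hSys.cx hNp h1 hN2 hρ h5
      refine ⟨?_, ⟨h8 (hZ ρ hρ), h11⟩, ?_, ?_⟩
      · rw [hχl]
        exact (hM N hN).2 h1
      · rw [hχl]
        exact h2
      · funext j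
        rw [h12 j r r' hr hr', h7 j r r' hr hr', hχl]
        rfl
    · rintro ⟨hZ, hN', h1, h2, h4⟩
      obtain ⟨ρ, hρ⟩ := hSPLT.1 N hNp h1
      obtain ⟨h5, h6, h7⟩ := h4 ρ hρ
      obtain ⟨h8, h10⟩ := hl2 h1 ρ hρ
      obtain ⟨h11, h12⟩ := h10 h5 h6
      obtain ⟨r, r', hr, hr'⟩ := exists_roots hSPP hSPLT hx hSys.cx hNp h1 hN2 hρ h5
      refine ⟨?_, ⟨h8 (hZ ρ hρ), h11⟩, ?_, ?_⟩
      · rw [hχl]
        exact (hM N hN).2 h1
      · rw [hχl]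
        exact h2
      · funext j
        rw [h12 j r r' hr hr', h7 j r r' hr hr', hχl]
        rfl
  have hzk : ∀ (g : L ≃ₐ[ℚ] L) (l : ℕ), l.Coprime (orderOf g) →
      Subgroup.zpowers g = Subgroup.zpowers (1 * g ^ l * 1⁻¹) := by
    intro g l hl
    rw [one_mul, inv_one, mul_one]
    exact (zpowers_pow_eq hl).symm
  have hor : ∀ g h τ : L ≃ₐ[ℚ] L, (XPZ χ κ c C Φ F T g ∨ XMZ χ κ c C Φ F T g) →
      Subgroup.zpowers h = Subgroup.zpowers (τ * g * τ⁻¹) →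
      (XPZ χ κ c C Φ F T h ∨ XMZ χ κ c C Φ F T h) := by
    intro g h τ hB hz
    rcases htr g h τ hz with ⟨h4, h5⟩ | ⟨h4, h5⟩
    · rcases hB with h6 | h6
      · exact Or.inl (h4 h6)
      · exact Or.inr (h5 h6)
    · rcases hB with h6 | h6
      · exact Or.inr (h4 h6)
      · exact Or.inl (h5 h6)
  have hand : ∀ g h τ : L ≃ₐ[ℚ] L, (XPZ χ κ c C Φ F T g ∧ XMZ χ κ c C Φ F T g) →
      Subgroup.zpowers h = Subgroup.zpowers (τ * g * τ⁻¹) →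
      (XPZ χ κ c C Φ F T h ∧ XMZ χ κ c C Φ F T h) := by
    intro g h τ hB hz
    rcases htr g h τ hz with ⟨h4, h5⟩ | ⟨h4, h5⟩
    · exact ⟨h4 hB.1, h5 hB.2⟩
    · exact ⟨h5 hB.2, h4 hB.1⟩
  obtain ⟨K1, hK1⟩ := hDNS1 f m κ c L χ
    (fun g => XPZ χ κ c C Φ F T g ∨ XMZ χ κ c C Φ F T g)
    ((ZP b ∩ SPKU x u P Q P' Q' κ c C Φ) ∪ (ZP b ∩ SMKU x u P Q P' Q' κ c C Φ))
    (max N₀ x.norm.natAbs) hf h9 hχ hor
    (by
      rintro g (h | h)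
      · exact ⟨h.1, Or.inl h.2.2.1⟩
      · exact ⟨h.1, Or.inr h.2.2.1⟩)
    (by
      intro N hN hNp hNN I g hI hNI hst
      obtain ⟨l, hl, hχl, h1, h2⟩ := hfr N hN hNp hNN I g hI hNI hst
      refine ⟨⟨l, hl, hχl⟩, ?_⟩
      rintro (h | h)
      · exact hor (g ^ l) g 1 (Or.inl (h1 h)) (hzk g l hl)
      · exact hor (g ^ l) g 1 (Or.inr (h2 h)) (hzk g l hl))
    (by
      rintro N hN hNp hNN (⟨-, hN', h1, h2, -⟩ | ⟨-, hN', h1, h2, -⟩)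
      · exact ⟨h1, Or.inl h2⟩
      · exact ⟨h1, Or.inr h2⟩)
  obtain ⟨K2, hK2⟩ := hDNS1 f m κ c L χ
    (fun g => XPZ χ κ c C Φ F T g ∧ XMZ χ κ c C Φ F T g)
    ((ZP b ∩ SPKU x u P Q P' Q' κ c C Φ) ∩ (ZP b ∩ SMKU x u P Q P' Q' κ c C Φ))
    (max N₀ x.norm.natAbs) hf h9 hχ hand
    (by
      rintro g ⟨h, -⟩
      exact ⟨h.1, Or.inl h.2.2.1⟩)
    (by
      intro N hN hNp hNN I g hI hNI hst
      obtain ⟨l, hl, hχl, h1, h2⟩ := hfr N hN hNp hNN I g hI hNI hst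
      refine ⟨⟨l, hl, hχl⟩, ?_⟩
      rintro ⟨h, h'⟩
      exact hand (g ^ l) g 1 ⟨h1 h, h2 h'⟩ (hzk g l hl))
    (by
      rintro N hN hNp hNN ⟨⟨-, hN', h1, h2, -⟩, -⟩
      exact ⟨h1, Or.inl h2⟩)
  have hcls := card_cls χ T heq hcF (fibre χ hχ).1
  have hX1 := card_Z χ κ Φ F T hf hχ hcls hκ c C
  have hX2 := card_Z χ κ Φ F T hf hχ hcls hκ (-c) (-C)
  have hincl := card_incl (fun g => XPZ χ κ c C Φ F T g) (fun g => XMZ χ κ c C Φ F T g)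
  refine ⟨K1 + K2, fun σ h1 h2 => ?_⟩
  have e1 := hK1 σ h1 h2
  have e2 := hK2 σ h1 h2
  have hlog : 0 ≤ Real.log (1 / (σ - 1)) := by
    apply Real.log_nonneg
    rw [le_div_iff₀ (by linarith)]
    linarith
  rw [sm_union_inter _ _ h1]
  have hG : 0 < Nat.card (L ≃ₐ[ℚ] L) := Nat.card_pos
  have hcnt : (Nat.card {g : L ≃ₐ[ℚ] L // XPZ χ κ c C Φ F T g ∨ XMZ χ κ c C Φ F T g} : ℝ) /
      Nat.card (L ≃ₐ[ℚ] L) +
      (Nat.card {g : L ≃ₐ[ℚ] L // XPZ χ κ c C Φ F T g ∧ XMZ χ κ c C Φ F T g} : ℝ) /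
      Nat.card (L ≃ₐ[ℚ] L) ≤ 1 / 3 ^ s / 3 ^ k / 3 ^ (m + 1) := by
    have hX1' : (3 ^ s * 3 ^ k) * Nat.card {g : L ≃ₐ[ℚ] L // XPZ χ κ c C Φ F T g} *
      (2 * 3 ^ (m + 1)) ≤ Nat.card (L ≃ₐ[ℚ] L) := hX1
    have hX2' : (3 ^ s * 3 ^ k) * Nat.card {g : L ≃ₐ[ℚ] L // XMZ χ κ c C Φ F T g} *
      (2 * 3 ^ (m + 1)) ≤ Nat.card (L ≃ₐ[ℚ] L) := hX2
    clear hX1 hX2
    generalize Nat.card {g : L ≃ₐ[ℚ] L // XPZ χ κ c C Φ F T g ∨ XMZ χ κ c C Φ F T g} = n1 at *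
    generalize Nat.card {g : L ≃ₐ[ℚ] L // XPZ χ κ c C Φ F T g ∧ XMZ χ κ c C Φ F T g} = n2 at *
    generalize Nat.card {g : L ≃ₐ[ℚ] L // XPZ χ κ c C Φ F T g} = x1 at *
    generalize Nat.card {g : L ≃ₐ[ℚ] L // XMZ χ κ c C Φ F T g} = x2 at *
    generalize Nat.card (L ≃ₐ[ℚ] L) = g0 at *
    have hG' : (0 : ℝ) < g0 := Nat.cast_pos.2 hG
    have hF : (0 : ℝ) < 3 ^ (m + 1) := by positivity
    have hS : (0 : ℝ) < 3 ^ s := by positivity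
    have hS' : (0 : ℝ) < 3 ^ k := by positivity
    have i1 : ((3 : ℝ) ^ s * 3 ^ k) * x1 * (2 * 3 ^ (m + 1)) ≤ g0 := by exact_mod_cast hX1'
    have i2 : ((3 : ℝ) ^ s * 3 ^ k) * x2 * (2 * 3 ^ (m + 1)) ≤ g0 := by exact_mod_cast hX2'
    have i3 : (n1 : ℝ) + n2 = x1 + x2 := by exact_mod_cast hincl
    rw [← add_div, i3, div_div, div_div, div_le_div_iff₀ hG' (by positivity)]
    nlinarith
  have hmul := mul_le_mul_of_nonneg_right hcnt hlog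
  rw [add_mul] at hmul
  linarith

end Pool.Agent.PTK
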