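import Pool.Agent.PTK.StM
import Pool.Agent.PTK.BDJ

/-!
# PTK_BM2: the bound for the density, several base classes, `Q = 2 (mod 3)` (by helper29)
-/

set_option autoImplicit false

open NumberField IsDedekindDomain Finset
open scoped nonZeroDivisors Pointwise

namespace Pool.Agent.PTK

open Pool.Agent.Lib_helper18 Pool.Agent.Lib_helper18.Eis Pool.Agent.Lib_helper84.Cub
open Pool.Agent.PT Pool.Agent.PTE Pool.Agent.PT3 Pool.Agent.PTL Pool.Agent.PTN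

open BDENS BD BDK BDJ in
/-- BM2: the bound for the density, several base classes, `Q = 2 (mod 3)`. -/
theorem BM2_thm (hLCI : Stmt_LCI) (hEQX : Stmt_EQX) (hMAL : Stmt_MAL) (hDNS : Stmt_DNS) :
    Stmt_BM2 := by
  classical
  intro s b p q p' q' M k z α β P Q P' Q' f m tn κ c C Φ C' Φ' hSysG hSysZ hf h9 hκ
  have hz0 : ∀ i, z i ≠ 0 := by
    intro i hi
    refine hSysZ.ind (fun j => if j = i then 1 else 0) ⟨i, by simp⟩ ⟨0, ?_⟩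
    rw [zero_pow three_ne_zero]
    refine (Finset.prod_eq_zero (Finset.mem_univ i) ?_).symm
    rw [hi, if_pos rfl, pow_one]
  obtain ⟨B, hB⟩ : ∃ B : ℕ, B = ∑ i, (z i).norm.natAbs := ⟨_, rfl⟩
  have hBz : ∀ i, (z i).norm.natAbs ≤ B := by
    intro i
    rw [hB]
    exact Finset.single_le_sum (f := fun i => (z i).norm.natAbs) (fun _ _ => Nat.zero_le _)
      (Finset.mem_univ i)
  obtain ⟨L, iF, iN, iG, χ, tt, F, t, N₀, hχ, hconj1, hpow1, hconj, hpow, heq, hfrob⟩ :=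
    hMAL s b p q p' q' M k z α β P Q P' Q' f hSysG hSysZ hf h9
  have h3 : 3 ∣ f := Dvd.dvd.trans (by norm_num) h9
  have hM : ∀ (N : ℕ) (hN : N.Coprime f), M2 (ZMod.unitOfCoprime N hN) ↔ N % 3 = 2 := by
    intro N hN
    unfold M2
    rw [ZMod.coe_unitOfCoprime, ZMod.val_natCast, Nat.mod_mod_of_dvd _ h3]
  obtain ⟨XP, hXP⟩ : ∃ XP : (L ≃ₐ[ℚ] L) → Prop, XP = XPJ χ κ c C Φ C' Φ' tn tt F t := ⟨_, rfl⟩
  obtain ⟨XM, hXM⟩ : ∃ XM : (L ≃ₐ[ℚ] L) → Prop, XM = XMJ χ κ c C Φ C' Φ' tn tt F t := ⟨_, rfl⟩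
  have htr : ∀ g h τ : L ≃ₐ[ℚ] L, Subgroup.zpowers h = Subgroup.zpowers (τ * g * τ⁻¹) →
      ((XP g → XP h) ∧ (XM g → XM h)) ∨ ((XP g → XM h) ∧ (XM g → XP h)) := by
    intro g h τ hz
    rw [hXP, hXM]
    exact transferJ χ κ c C Φ C' Φ' tn tt F t hf h3 hconj1 hpow1 hconj hpow hz
  -- the Frobenius elements
  have hfr : ∀ (N : ℕ) (hN : N.Coprime f), N.Prime → max N₀ B < N →
      ∀ (I : Ideal (𝓞 L)) (g : L ≃ₐ[ℚ] L), I.IsPrime → (N : 𝓞 L) ∈ I →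
      MulAction.stabilizer (L ≃ₐ[ℚ] L) I = Subgroup.zpowers g →
      ∃ l : ℕ, l.Coprime (orderOf g) ∧ χ (g ^ l) = ZMod.unitOfCoprime N hN ∧
        (N ∈ SP b p q p' q' tn κ c C Φ ∩ SPZ z α P Q P' Q' κ c C' Φ' → XP (g ^ l)) ∧
        (N ∈ SM b p q p' q' tn κ c C Φ ∩ SMZ z α P Q P' Q' κ c C' Φ' → XM (g ^ l)) := by
    intro N hN hNp hlt I g hI hNI hst
    have hN1 : N₀ < N := lt_of_le_of_lt (le_max_left _ _) hlt
    have hN2 : ∀ i, (z i).norm < N := by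
      intro i
      have h1 : (z i).norm.natAbs < N :=
        lt_of_le_of_lt ((hBz i).trans (le_max_right _ _)) hlt
      have h2 := norm_pos (hz0 i)
      omega
    obtain ⟨l, hl, hχl, hl2⟩ := hfrob N hN hNp hN1 I g hI hNI hst
    refine ⟨l, hl, hχl, ?_, ?_⟩
    · rintro ⟨⟨hQ, -, -, hτ⟩, ⟨hQ', h1, h2, h4, h6⟩⟩
      obtain ⟨h7, h8⟩ := hl2 h1
      obtain ⟨h9, h10⟩ := h8 h4
      rw [hXP]
      refine ⟨⟨?_, h9, ?_, ?_⟩, ?_⟩
      · rw [hχl]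
        exact (hM N hN).2 h1
      · rw [hχl]
        exact h2
      · funext j
        obtain ⟨r, hr⟩ := exists_root hLCI (hz0 (α j)) hNp h1 (hN2 (α j)) (h4 (α j))
        rw [h10 j r hr, h6 j r hr, hχl]
        rfl
      · rw [hχl]
        exact hτ _ h7
    · rintro ⟨⟨hQ, -, -, hτ⟩, ⟨hQ', h1, h2, h4, h6⟩⟩
      obtain ⟨h7, h8⟩ := hl2 h1
      obtain ⟨h9, h10⟩ := h8 h4
      rw [hXM]
      refine ⟨⟨?_, h9, ?_, ?_⟩, ?_⟩
      · rw [hχl]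
        exact (hM N hN).2 h1
      · rw [hχl]
        exact h2
      · funext j
        obtain ⟨r, hr⟩ := exists_root hLCI (hz0 (α j)) hNp h1 (hN2 (α j)) (h4 (α j))
        rw [h10 j r hr, h6 j r hr, hχl]
        rfl
      · rw [hχl]
        exact hτ _ h7
  have hzk : ∀ (g : L ≃ₐ[ℚ] L) (l : ℕ), l.Coprime (orderOf g) →
      Subgroup.zpowers g = Subgroup.zpowers (1 * g ^ l * 1⁻¹) := by
    intro g l hl
    rw [one_mul, inv_one, mul_one]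
    exact (zpowers_pow_eq hl).symm
  have hor : ∀ g h τ : L ≃ₐ[ℚ] L, (XP g ∨ XM g) →
      Subgroup.zpowers h = Subgroup.zpowers (τ * g * τ⁻¹) → (XP h ∨ XM h) := by
    intro g h τ hB hz
    rcases htr g h τ hz with ⟨h4, h5⟩ | ⟨h4, h5⟩
    · rcases hB with h6 | h6
      · exact Or.inl (h4 h6)
      · exact Or.inr (h5 h6)
    · rcases hB with h6 | h6
      · exact Or.inr (h4 h6)
      · exact Or.inl (h5 h6)
  have hand : ∀ g h τ : L ≃ₐ[ℚ] L, (XP g ∧ XM g) →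
      Subgroup.zpowers h = Subgroup.zpowers (τ * g * τ⁻¹) → (XP h ∧ XM h) := by
    intro g h τ hB hz
    rcases htr g h τ hz with ⟨h4, h5⟩ | ⟨h4, h5⟩
    · exact ⟨h4 hB.1, h5 hB.2⟩
    · exact ⟨h5 hB.2, h4 hB.1⟩
  have hXP1 : ∀ g, XP g → M2 (χ g) ∧ (κ (χ g)).toAdd = c := by
    intro g h
    rw [hXP] at h
    exact ⟨h.1.1, h.1.2.2.1⟩
  have hXM1 : ∀ g, XM g → M2 (χ g) ∧ (κ (χ g)).toAdd = -c := by
    intro g h
    rw [hXM] at h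
    exact ⟨h.1.1, h.1.2.2.1⟩
  obtain ⟨K1, hK1⟩ := hDNS f m κ c L χ (fun g => XP g ∨ XM g)
    ((SP b p q p' q' tn κ c C Φ ∩ SPZ z α P Q P' Q' κ c C' Φ') ∪
      (SM b p q p' q' tn κ c C Φ ∩ SMZ z α P Q P' Q' κ c C' Φ')) (max N₀ B)
    hf h9 hχ hor
    (by
      rintro g (h | h)
      · exact ⟨(hXP1 g h).1, Or.inl (hXP1 g h).2⟩
      · exact ⟨(hXM1 g h).1, Or.inr (hXM1 g h).2⟩)
    (by
      intro N hN hNp hlt I g hI hNI hst
      obtain ⟨l, hl, hχl, h1, h2⟩ := hfr N hN hNp hlt I g hI hNI hst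
      refine ⟨⟨l, hl, hχl⟩, ?_⟩
      rintro (h | h)
      · exact hor (g ^ l) g 1 (Or.inl (h1 h)) (hzk g l hl)
      · exact hor (g ^ l) g 1 (Or.inr (h2 h)) (hzk g l hl))
    (by
      rintro N hN hNp hlt (⟨-, ⟨hQ', h1, h2, -⟩⟩ | ⟨-, ⟨hQ', h1, h2, -⟩⟩)
      · exact ⟨h1, Or.inl h2⟩
      · exact ⟨h1, Or.inr h2⟩)
  obtain ⟨K2, hK2⟩ := hDNS f m κ c L χ (fun g => XP g ∧ XM g)
    ((SP b p q p' q' tn κ c C Φ ∩ SPZ z α P Q P' Q' κ c C' Φ') ∩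
      (SM b p q p' q' tn κ c C Φ ∩ SMZ z α P Q P' Q' κ c C' Φ')) (max N₀ B)
    hf h9 hχ hand
    (by
      rintro g ⟨h, -⟩
      exact ⟨(hXP1 g h).1, Or.inl (hXP1 g h).2⟩)
    (by
      intro N hN hNp hlt I g hI hNI hst
      obtain ⟨l, hl, hχl, h1, h2⟩ := hfr N hN hNp hlt I g hI hNI hst
      refine ⟨⟨l, hl, hχl⟩, ?_⟩
      rintro ⟨h, h'⟩
      exact hand (g ^ l) g 1 ⟨h1 h, h2 h'⟩ (hzk g l hl))
    (by
      rintro N hN hNp hlt ⟨⟨-, ⟨hQ', h1, h2, -⟩⟩, -⟩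
      exact ⟨h1, Or.inl h2⟩)
  obtain ⟨hX1, hX2⟩ := card_J χ κ c C Φ C' Φ' tn tt F t hEQX hf hχ heq hκ
  rw [← hXP] at hX1
  rw [← hXM] at hX2
  have hincl := card_incl XP XM
  refine ⟨K1 + K2, fun σ h1 h2 => ?_⟩
  have e1 := hK1 σ h1 h2
  have e2 := hK2 σ h1 h2
  have hlog : 0 ≤ Real.log (1 / (σ - 1)) := by
    apply Real.log_nonneg
    rw [le_div_iff₀ (by linarith)]
    linarith
  rw [sm_union_inter _ _ h1]
  have hG : 0 < Nat.card (L ≃ₐ[ℚ] L) := Nat.card_pos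
  have hA : 0 < Nat.card (Fin s → Fin s → ZMod 3) := Nat.card_pos
  have hcnt : (Nat.card {g : L ≃ₐ[ℚ] L // XP g ∨ XM g} : ℝ) / Nat.card (L ≃ₐ[ℚ] L) +
      (Nat.card {g : L ≃ₐ[ℚ] L // XP g ∧ XM g} : ℝ) / Nat.card (L ≃ₐ[ℚ] L) ≤
      LI s tn / 3 ^ k / 3 ^ (m + 1) := by
    unfold LI
    generalize Nat.card {g : L ≃ₐ[ℚ] L // XP g ∨ XM g} = n1 at *
    generalize Nat.card {g : L ≃ₐ[ℚ] L // XP g ∧ XM g} = n2 at *
    generalize Nat.card {g : L ≃ₐ[ℚ] L // XP g} = x1 at *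
    generalize Nat.card {g : L ≃ₐ[ℚ] L // XM g} = x2 at *
    generalize Nat.card (Fin s → Fin s → ZMod 3) = A at *
    generalize Nat.card (L ≃ₐ[ℚ] L) = g0 at *
    have hG' : (0 : ℝ) < g0 := Nat.cast_pos.2 hG
    have hA' : (0 : ℝ) < A := Nat.cast_pos.2 hA
    have hF : (0 : ℝ) < 3 ^ (m + 1) := by positivity
    have hS : (0 : ℝ) < 3 ^ k := by positivity
    have i1 : (3 : ℝ) ^ k * (A * x1) * (2 * 3 ^ (m + 1)) ≤ NK s tn * g0 := by exact_mod_cast hX1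
    have i2 : (3 : ℝ) ^ k * (A * x2) * (2 * 3 ^ (m + 1)) ≤ NK s tn * g0 := by exact_mod_cast hX2
    have i3 : (n1 : ℝ) + n2 = x1 + x2 := by exact_mod_cast hincl
    rw [← add_div, i3, div_div, div_div, div_le_div_iff₀ hG' (by positivity)]
    nlinarith
  have hmul := mul_le_mul_of_nonneg_right hcnt hlog
  rw [add_mul] at hmul
  linarith

end Pool.Agent.PTK
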