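import Pool.Agent.PTK.StM
import Pool.Agent.PTK.BDJU

/-!
# PTK_BMU: the bound for the density, `Q = 1 (mod 3)`, generic pattern, all moments (helper85)
-/

set_option autoImplicit false

open NumberField IsDedekindDomain Finset
open scoped nonZeroDivisors Pointwise

namespace Pool.Agent.PTK

open Pool.Agent.Lib_helper18 Pool.Agent.Lib_helper18.Eis Pool.Agent.Lib_helper84.Cub
open Pool.Agent.PT Pool.Agent.PTE Pool.Agent.PT3 Pool.Agent.PTL Pool.Agent.PTN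

namespace BMU

/-- the classes of a system are not zero -/
theorem ne_zero {M N : ℕ} {z : Fin M → Eis} {α β : Fin N → Fin M} {P Q P' Q' : Fin N → Eis}
    (hS : SysZ z α β P Q P' Q') (i : Fin M) : z i ≠ 0 := by
  intro h
  refine hS.ind (fun j => if j = i then 1 else 0) ⟨i, by simp⟩ ⟨0, ?_⟩
  rw [Finset.prod_eq_zero (Finset.mem_univ i) (by simp [h])]
  ring

end BMU

open BDENS BDJU in
/-- PTK_BMU: the bound for the density, `Q = 1 (mod 3)`, generic pattern. -/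
theorem BMU_thm (hSPP : SPP) (hSPLT : SPLT) (hLCI : Stmt_LCI) (hEQX : Stmt_EQX)
    (hMAU : Stmt_MAU) (hDNS1 : Stmt_DNS1) : Stmt_BMU := by
  classical
  intro s b p q p' q' M k z α β P Q P' Q' f m tn κ c C Φ C' Φ' hSG hSK hf h9 hκ
  have hz0 : ∀ i, z i ≠ 0 := BMU.ne_zero hSK
  obtain ⟨L, iF, iN, iG, χ, F, tt, F₂, T, N₀, hχ, hconj, hpow, hconj2, hpow2, heq, hcF, hfrob⟩ :=
    hMAU s b p q p' q' M k z α β P Q P' Q' f hSG hSK hf h9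
  have h3 : 3 ∣ f := Dvd.dvd.trans (by norm_num) h9
  have hM : ∀ (n : ℕ) (hn : n.Coprime f), M1 (ZMod.unitOfCoprime n hn) ↔ n % 3 = 1 := by
    intro n hn
    unfold M1
    rw [ZMod.coe_unitOfCoprime, ZMod.val_natCast, Nat.mod_mod_of_dvd _ h3]
  obtain ⟨XP, hXP⟩ : ∃ XP : (L ≃ₐ[ℚ] L) → Prop, XP = XPJ χ κ c C Φ C' Φ' tn F tt F₂ T :=
    ⟨_, rfl⟩
  obtain ⟨XM, hXM⟩ : ∃ XM : (L ≃ₐ[ℚ] L) → Prop, XM = XMJ χ κ c C Φ C' Φ' tn F tt F₂ T :=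
    ⟨_, rfl⟩
  have htr : ∀ (g h τ : L ≃ₐ[ℚ] L), Subgroup.zpowers h = Subgroup.zpowers (τ * g * τ⁻¹) →
      ((XP g → XP h) ∧ (XM g → XM h)) ∨ ((XP g → XM h) ∧ (XM g → XP h)) := by
    intro g h τ hz
    rw [hXP, hXM]
    exact transferJ χ κ c C Φ C' Φ' tn F tt F₂ T hf h3 hconj hpow hconj2 hpow2 hz
  obtain ⟨SA, hSA⟩ : ∃ SA : Set ℕ, SA = SPU b p q p' q' tn κ c C Φ ∩
    SPZU z α P Q P' Q' κ c C' Φ' := ⟨_, rfl⟩
  obtain ⟨SB, hSB⟩ : ∃ SB : Set ℕ, SB = SMU b p q p' q' tn κ c C Φ ∩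
    SMZU z α P Q P' Q' κ c C' Φ' := ⟨_, rfl⟩
  -- the Frobenius elements
  have hfr : ∀ (n : ℕ) (hn : n.Coprime f), n.Prime → max N₀ (∑ i, (z i).norm.natAbs) < n →
      ∀ (I : Ideal (𝓞 L)) (g : L ≃ₐ[ℚ] L), I.IsPrime → (n : 𝓞 L) ∈ I →
      MulAction.stabilizer (L ≃ₐ[ℚ] L) I = Subgroup.zpowers g →
      ∃ l : ℕ, l.Coprime (orderOf g) ∧ χ (g ^ l) = ZMod.unitOfCoprime n hn ∧
        (n ∈ SA → XP (g ^ l)) ∧ (n ∈ SB → XM (g ^ l)) := by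
    intro n hn hnp hnN I g hI hnI hst
    have hN1 : N₀ < n := lt_of_le_of_lt (le_max_left _ _) hnN
    have hN2 : ∀ i, (z i).norm < n := by
      intro i
      have h0 : (z i).norm.natAbs ≤ ∑ i, (z i).norm.natAbs :=
        Finset.single_le_sum (f := fun i => (z i).norm.natAbs) (fun j _ => Nat.zero_le _)
          (Finset.mem_univ i)
      have h1 : (z i).norm.natAbs < n := lt_of_le_of_lt (h0.trans (le_max_right _ _)) hnN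
      have h2 := norm_pos (hz0 i)
      omega
    obtain ⟨l, hl, hχl, hl2⟩ := hfrob n hn hnp hN1 I g hI hnI hst
    refine ⟨l, hl, hχl, ?_, ?_⟩
    · rw [hSA, hXP]
      rintro ⟨⟨hn', ρ, ⟨h1, h2, h5, h6, h7⟩, h4⟩, ⟨hn'', -, -, h8⟩⟩
      obtain ⟨r1, r2, r3⟩ := hl2 h1 ρ h5
      obtain ⟨s1, s3⟩ := h8 ρ h5
      obtain ⟨t1, t2⟩ := r3 s1
      have hFg : F (g ^ l) := r1.2 ⟨h6, h7⟩
      refine ⟨?_, ?_, hFg, t1, ?_, ?_⟩
      · rw [hχl]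
        exact (hM n hn).2 h1
      · rw [hχl]
        exact h2
      · funext j
        obtain ⟨r, r', hr, hr'⟩ := roots hSPP hSPLT hLCI (hz0 (α j)) (hSK.cz (α j)) hnp h1
          (hN2 (α j)) ρ h5 (s1 (α j))
        rw [t2 j r r' hr hr', s3 j r r' hr hr', hχl]
        rfl
      · rw [hχl]
        exact h4 (tt (g ^ l)) (r2 hFg)
    · rw [hSB, hXM]
      rintro ⟨⟨hn', ρ, ⟨h1, h2, h5, h6, h7⟩, h4⟩, ⟨hn'', -, -, h8⟩⟩
      obtain ⟨r1, r2, r3⟩ := hl2 h1 ρ h5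
      obtain ⟨s1, s3⟩ := h8 ρ h5
      obtain ⟨t1, t2⟩ := r3 s1
      have hFg : F (g ^ l) := r1.2 ⟨h6, h7⟩
      refine ⟨?_, ?_, hFg, t1, ?_, ?_⟩
      · rw [hχl]
        exact (hM n hn).2 h1
      · rw [hχl]
        exact h2
      · funext j
        obtain ⟨r, r', hr, hr'⟩ := roots hSPP hSPLT hLCI (hz0 (α j)) (hSK.cz (α j)) hnp h1
          (hN2 (α j)) ρ h5 (s1 (α j))
        rw [t2 j r r' hr hr', s3 j r r' hr hr', hχl]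
        rfl
      · rw [hχl]
        exact h4 (tt (g ^ l)) (r2 hFg)
  have hzk : ∀ (g : L ≃ₐ[ℚ] L) (l : ℕ), l.Coprime (orderOf g) →
      Subgroup.zpowers g = Subgroup.zpowers (1 * g ^ l * 1⁻¹) := by
    intro g l hl
    rw [one_mul, inv_one, mul_one]
    exact (zpowers_pow_eq hl).symm
  have hor : ∀ g h τ : L ≃ₐ[ℚ] L, (XP g ∨ XM g) →
      Subgroup.zpowers h = Subgroup.zpowers (τ * g * τ⁻¹) → (XP h ∨ XM h) := by
    intro g h τ hB hz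
    rcases htr g h τ hz with ⟨h4, h5⟩ | ⟨h4, h5⟩
    · rcases hB with h6 | h6
      · exact Or.inl (h4 h6)
      · exact Or.inr (h5 h6)
    · rcases hB with h6 | h6
      · exact Or.inr (h4 h6)
      · exact Or.inl (h5 h6)
  have hand : ∀ g h τ : L ≃ₐ[ℚ] L, (XP g ∧ XM g) →
      Subgroup.zpowers h = Subgroup.zpowers (τ * g * τ⁻¹) → (XP h ∧ XM h) := by
    intro g h τ hB hz
    rcases htr g h τ hz with ⟨h4, h5⟩ | ⟨h4, h5⟩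
    · exact ⟨h4 hB.1, h5 hB.2⟩
    · exact ⟨h5 hB.2, h4 hB.1⟩
  have hA1 : ∀ n ∈ SA, n % 3 = 1 ∧ ∀ hn : n.Coprime f,
      (κ (ZMod.unitOfCoprime n hn)).toAdd = c := by
    rw [hSA]
    rintro n ⟨⟨hn', ρ, ⟨h1, h2, -⟩, -⟩, -⟩
    exact ⟨h1, fun hn => h2⟩
  have hB1 : ∀ n ∈ SB, n % 3 = 1 ∧ ∀ hn : n.Coprime f,
      (κ (ZMod.unitOfCoprime n hn)).toAdd = -c := by
    rw [hSB]
    rintro n ⟨⟨hn', ρ, ⟨h1, h2, -⟩, -⟩, -⟩
    exact ⟨h1, fun hn => h2⟩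
  have hP1 : ∀ g, XP g → M1 (χ g) ∧ (κ (χ g)).toAdd = c := by
    rw [hXP]
    rintro g ⟨h1, h2, -⟩
    exact ⟨h1, h2⟩
  have hM1 : ∀ g, XM g → M1 (χ g) ∧ (κ (χ g)).toAdd = -c := by
    rw [hXM]
    rintro g ⟨h1, h2, -⟩
    exact ⟨h1, h2⟩
  obtain ⟨K1, hK1⟩ := hDNS1 f m κ c L χ
    (fun g => XP g ∨ XM g) (SA ∪ SB) (max N₀ (∑ i, (z i).norm.natAbs)) hf h9 hχ hor
    (by
      rintro g (h | h)
      · exact ⟨(hP1 g h).1, Or.inl (hP1 g h).2⟩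
      · exact ⟨(hM1 g h).1, Or.inr (hM1 g h).2⟩)
    (by
      intro n hn hnp hnN I g hI hnI hst
      obtain ⟨l, hl, hχl, h1, h2⟩ := hfr n hn hnp hnN I g hI hnI hst
      refine ⟨⟨l, hl, hχl⟩, ?_⟩
      rintro (h | h)
      · exact hor (g ^ l) g 1 (Or.inl (h1 h)) (hzk g l hl)
      · exact hor (g ^ l) g 1 (Or.inr (h2 h)) (hzk g l hl))
    (by
      rintro n hn hnp hnN (h | h)
      · exact ⟨(hA1 n h).1, Or.inl ((hA1 n h).2 hn)⟩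
      · exact ⟨(hB1 n h).1, Or.inr ((hB1 n h).2 hn)⟩)
  obtain ⟨K2, hK2⟩ := hDNS1 f m κ c L χ
    (fun g => XP g ∧ XM g) (SA ∩ SB) (max N₀ (∑ i, (z i).norm.natAbs)) hf h9 hχ hand
    (by
      rintro g ⟨h, -⟩
      exact ⟨(hP1 g h).1, Or.inl (hP1 g h).2⟩)
    (by
      intro n hn hnp hnN I g hI hnI hst
      obtain ⟨l, hl, hχl, h1, h2⟩ := hfr n hn hnp hnN I g hI hnI hst
      refine ⟨⟨l, hl, hχl⟩, ?_⟩
      rintro ⟨h, h'⟩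
      exact hand (g ^ l) g 1 ⟨h1 h, h2 h'⟩ (hzk g l hl))
    (by
      rintro n hn hnp hnN ⟨h, -⟩
      exact ⟨(hA1 n h).1, Or.inl ((hA1 n h).2 hn)⟩)
  obtain ⟨hX1, hX2⟩ := card_X χ κ c C Φ C' Φ' tn F tt F₂ T hEQX hf hχ heq hcF hκ
  have hX1' : (3 ^ (s + 1) * 3 ^ k * Nat.card (Fin s → Fin s → ZMod 3)) *
      Nat.card {g : L ≃ₐ[ℚ] L // XP g} * (2 * 3 ^ (m + 1)) ≤
        2 * NK s tn * Nat.card (L ≃ₐ[ℚ] L) := by
    rw [hXP]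
    exact hX1
  have hX2' : (3 ^ (s + 1) * 3 ^ k * Nat.card (Fin s → Fin s → ZMod 3)) *
      Nat.card {g : L ≃ₐ[ℚ] L // XM g} * (2 * 3 ^ (m + 1)) ≤
        2 * NK s tn * Nat.card (L ≃ₐ[ℚ] L) := by
    rw [hXM]
    exact hX2
  clear hX1 hX2
  have hincl := BD.card_incl (fun g => XP g) (fun g => XM g)
  refine ⟨K1 + K2, fun σ h1 h2 => ?_⟩
  have e1 := hK1 σ h1 h2
  have e2 := hK2 σ h1 h2
  have hlog : 0 ≤ Real.log (1 / (σ - 1)) := by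
    apply Real.log_nonneg
    rw [le_div_iff₀ (by linarith)]
    linarith
  rw [← hSA, ← hSB, BD.sm_union_inter _ _ h1]
  have hG : 0 < Nat.card (L ≃ₐ[ℚ] L) := Nat.card_pos
  have hA : 0 < Nat.card (Fin s → Fin s → ZMod 3) := Nat.card_pos
  have hcnt : (Nat.card {g : L ≃ₐ[ℚ] L // XP g ∨ XM g} : ℝ) / Nat.card (L ≃ₐ[ℚ] L) +
      (Nat.card {g : L ≃ₐ[ℚ] L // XP g ∧ XM g} : ℝ) / Nat.card (L ≃ₐ[ℚ] L) ≤
      2 / 3 ^ (s + 1) * LI s tn / 3 ^ k / 3 ^ (m + 1) := by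
    unfold LI
    clear hK1 hK2 e1 e2 hfr hor hand htr hP1 hM1 hfrob heq hcF
    generalize Nat.card {g : L ≃ₐ[ℚ] L // XP g ∨ XM g} = n1 at *
    generalize Nat.card {g : L ≃ₐ[ℚ] L // XP g ∧ XM g} = n2 at *
    generalize Nat.card {g : L ≃ₐ[ℚ] L // XP g} = x1 at *
    generalize Nat.card {g : L ≃ₐ[ℚ] L // XM g} = x2 at *
    generalize Nat.card (Fin s → Fin s → ZMod 3) = A at *
    generalize Nat.card (L ≃ₐ[ℚ] L) = g0 at *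
    have hG' : (0 : ℝ) < g0 := Nat.cast_pos.2 hG
    have hA' : (0 : ℝ) < A := Nat.cast_pos.2 hA
    have hT1 : (0 : ℝ) < 3 ^ (m + 1) := by positivity
    have hT2 : (0 : ℝ) < 3 ^ (s + 1) := by positivity
    have hT3 : (0 : ℝ) < 3 ^ k := by positivity
    have i1 : (3 : ℝ) ^ (s + 1) * 3 ^ k * A * x1 * (2 * 3 ^ (m + 1)) ≤ 2 * NK s tn * g0 := by
      exact_mod_cast hX1'
    have i2 : (3 : ℝ) ^ (s + 1) * 3 ^ k * A * x2 * (2 * 3 ^ (m + 1)) ≤ 2 * NK s tn * g0 := by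
      exact_mod_cast hX2'
    have i3 : (n1 : ℝ) + n2 = x1 + x2 := by exact_mod_cast hincl
    have i4 : (2 : ℝ) / 3 ^ (s + 1) * ((NK s tn : ℝ) / A) / 3 ^ k / 3 ^ (m + 1) =
        2 * NK s tn / (3 ^ (s + 1) * 3 ^ k * A * 3 ^ (m + 1)) := by
      field_simp
    rw [← add_div, i3, i4, div_le_div_iff₀ hG' (by positivity)]
    nlinarith
  have hmul := mul_le_mul_of_nonneg_right hcnt hlog
  rw [add_mul] at hmul
  linarith

end Pool.Agent.PTK
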