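import Pool.Agent.PTK.StM
import Pool.Agent.PTK.BDJU

/-!
# PTK_BMZ: the bound for the density, `Q = 1 (mod 3)`, all `b j` cubes modulo `Q`, with the matrix
(helper70)
-/

set_option autoImplicit false

open NumberField IsDedekindDomain Finset
open scoped nonZeroDivisors Pointwise

namespace Pool.Agent.PTK

open Pool.Agent.Lib_helper18 Pool.Agent.Lib_helper18.Eis Pool.Agent.Lib_helper84.Cub
open Pool.Agent.PT Pool.Agent.PTE Pool.Agent.PT3 Pool.Agent.PTL Pool.Agent.PTN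

namespace BMZ

open BDENS BDJU

/-- the classes are not zero -/
theorem z_ne {M N : ℕ} {z : Fin M → Eis} {α β : Fin N → Fin M} {P Q P' Q' : Fin N → Eis}
    (h : SysZ z α β P Q P' Q') (i : Fin M) : z i ≠ 0 := by
  intro h0
  refine h.ind (fun j => if j = i then 1 else 0) ⟨i, by simp⟩ ⟨0, ?_⟩
  rw [zero_pow (by norm_num)]
  symm
  apply Finset.prod_eq_zero (Finset.mem_univ i)
  simp [h0]

section
variable {G : Type} [Group G] {f m s k : ℕ} (χ : G →* (ZMod f)ˣ)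
    (κ : (ZMod f)ˣ →* Multiplicative (Fin (m + 1) → ZMod 3)) (c : Fin (m + 1) → ZMod 3)
    (C : Fin s → Fin s → ZMod 3) (Φ : (ZMod f)ˣ →* Multiplicative (Fin s → Fin s → ZMod 3))
    (C' : Fin k → ZMod 3) (Φ' : (ZMod f)ˣ →* Multiplicative (Fin k → ZMod 3))
    (tn : ℕ) (F : G → Prop) (tt : G → Fin s → Fin s → ZMod 3)
    (F₂ : G → Prop) (T : G → Fin k → ZMod 3)

/-- counting in one class -/
theorem card_cls [Finite G] (hEQX : Stmt_EQX)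
    (heq : ∀ (a : (ZMod f)ˣ) (v v' : Fin s → Fin s → ZMod 3) (y y' : Fin k → ZMod 3), M1 a →
      Nat.card {g : G // χ g = a ∧ F g ∧ F₂ g ∧ T g = y ∧ ∀ j i, j < i → tt g j i = v j i} =
        Nat.card {g : G //
          χ g = a ∧ F g ∧ F₂ g ∧ T g = y' ∧ ∀ j i, j < i → tt g j i = v' j i})
    (hcF : ∀ a : (ZMod f)ˣ, M1 a → 3 ^ s * Nat.card {g : G // χ g = a ∧ F g} =
      Nat.card {g : G // χ g = a})
    (hfib : ∀ a : (ZMod f)ˣ, Nat.card {g : G // χ g = a} = Nat.card χ.ker)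
    (a : (ZMod f)ˣ) (D : Fin s → Fin s → ZMod 3) (y : Fin k → ZMod 3) (ha : M1 a) :
    (3 ^ s * 3 ^ k * Nat.card (Fin s → Fin s → ZMod 3)) *
        Nat.card {g : G // χ g = a ∧ F g ∧ F₂ g ∧ T g = y ∧
          tn ≤ s - (alt (D + tt g)).rank} ≤ NK s tn * Nat.card χ.ker ∧
    (3 ^ s * 3 ^ k * Nat.card (Fin s → Fin s → ZMod 3)) *
        Nat.card {g : G // χ g = a ∧ F g ∧ F₂ g ∧ T g = y ∧
          tn ≤ s - (alt (D - tt g)).rank} ≤ NK s tn * Nat.card χ.ker := by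
  classical
  have key : ∀ R : G → Prop,
      Nat.card {x : {g : G // χ g = a ∧ F g ∧ F₂ g ∧ T g = y} // R x} =
      Nat.card {g : G // χ g = a ∧ F g ∧ F₂ g ∧ T g = y ∧ R g} := fun R =>
    Nat.card_congr ((Equiv.subtypeSubtypeEquivSubtypeInter
      (fun g : G => χ g = a ∧ F g ∧ F₂ g ∧ T g = y) R).trans
      (Equiv.subtypeEquivRight fun g => by tauto))
  obtain ⟨h1, h2⟩ := hEQX s {g : G // χ g = a ∧ F g ∧ F₂ g ∧ T g = y} (fun x => tt x) (by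
    intro v v'
    rw [key (fun g => ∀ j i, j < i → tt g j i = v j i),
      key (fun g => ∀ j i, j < i → tt g j i = v' j i)]
    exact heq a v v' y y ha) D {M | tn ≤ s - M.rank}
  have k1 := key (fun g => tn ≤ s - (alt (D + tt g)).rank)
  have k2 := key (fun g => tn ≤ s - (alt (D - tt g)).rank)
  have h3 := hcF a ha
  rw [hfib a] at h3
  have hT : 3 ^ k * Nat.card {g : G // χ g = a ∧ F g ∧ F₂ g ∧ T g = y} ≤
      Nat.card {g : G // χ g = a ∧ F g} := by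
    have e1 : ∀ y : Fin k → ZMod 3, Nat.card {g : G // χ g = a ∧ F g ∧ F₂ g ∧ T g = y} =
        Nat.card {g : G // (χ g = a ∧ F g ∧ F₂ g) ∧ T g = y} := fun y =>
      Nat.card_congr (Equiv.subtypeEquivRight fun g => by tauto)
    rw [e1 y, fib_T T (fun g => χ g = a ∧ F g ∧ F₂ g) (fun y y' => ?_) y]
    · exact Nat.card_le_card_of_injective
        (fun g : {g : G // χ g = a ∧ F g ∧ F₂ g} => (⟨g.1, g.2.1, g.2.2.1⟩ :
          {g : G // χ g = a ∧ F g})) (fun g h hgh => by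
          have h' := Subtype.mk.inj hgh
          exact Subtype.ext h')
    · rw [← e1, ← e1]
      refine fib_eq tt _ _ fun v => ?_
      refine Eq.trans (Nat.card_congr (Equiv.subtypeEquivRight fun g => by tauto))
        ((heq a v v y y' ha).trans (Nat.card_congr (Equiv.subtypeEquivRight fun g => by tauto)))
  have h1' : Nat.card {g : G // χ g = a ∧ F g ∧ F₂ g ∧ T g = y ∧
      tn ≤ s - (alt (D + tt g)).rank} * Nat.card (Fin s → Fin s → ZMod 3) =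
      NK s tn * Nat.card {g : G // χ g = a ∧ F g ∧ F₂ g ∧ T g = y} := by
    rw [← k1]
    exact h1
  have h2' : Nat.card {g : G // χ g = a ∧ F g ∧ F₂ g ∧ T g = y ∧
      tn ≤ s - (alt (D - tt g)).rank} * Nat.card (Fin s → Fin s → ZMod 3) =
      NK s tn * Nat.card {g : G // χ g = a ∧ F g ∧ F₂ g ∧ T g = y} := by
    rw [← k2]
    exact h2
  clear h1 h2 k1 k2 key heq hcF hfib
  generalize Nat.card {g : G // χ g = a ∧ F g ∧ F₂ g ∧ T g = y ∧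
      tn ≤ s - (alt (D + tt g)).rank} = x1 at *
  generalize Nat.card {g : G // χ g = a ∧ F g ∧ F₂ g ∧ T g = y ∧
      tn ≤ s - (alt (D - tt g)).rank} = x2 at *
  generalize Nat.card {g : G // χ g = a ∧ F g ∧ F₂ g ∧ T g = y} = Y at *
  generalize Nat.card {g : G // χ g = a ∧ F g} = X at *
  generalize Nat.card (Fin s → Fin s → ZMod 3) = A at *
  generalize Nat.card χ.ker = K at *
  generalize 3 ^ s = S at *
  generalize 3 ^ k = R at *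
  constructor
  · calc (S * R * A) * x1 = S * R * (x1 * A) := by ring
      _ = NK s tn * (S * (R * Y)) := by rw [h1']; ring
      _ ≤ NK s tn * (S * X) := Nat.mul_le_mul_left _ (Nat.mul_le_mul_left _ hT)
      _ = NK s tn * K := by rw [h3]
  · calc (S * R * A) * x2 = S * R * (x2 * A) := by ring
      _ = NK s tn * (S * (R * Y)) := by rw [h2']; ring
      _ ≤ NK s tn * (S * X) := Nat.mul_le_mul_left _ (Nat.mul_le_mul_left _ hT)
      _ = NK s tn * K := by rw [h3]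

/-- counting -/
theorem card_X [Finite G] (hEQX : Stmt_EQX) (hf : 0 < f) (hχ : Function.Surjective χ)
    (heq : ∀ (a : (ZMod f)ˣ) (v v' : Fin s → Fin s → ZMod 3) (y y' : Fin k → ZMod 3), M1 a →
      Nat.card {g : G // χ g = a ∧ F g ∧ F₂ g ∧ T g = y ∧ ∀ j i, j < i → tt g j i = v j i} =
        Nat.card {g : G //
          χ g = a ∧ F g ∧ F₂ g ∧ T g = y' ∧ ∀ j i, j < i → tt g j i = v' j i})
    (hcF : ∀ a : (ZMod f)ˣ, M1 a → 3 ^ s * Nat.card {g : G // χ g = a ∧ F g} =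
      Nat.card {g : G // χ g = a})
    (hκ : ∀ c : Fin (m + 1) → ZMod 3,
      Nat.card {a : (ZMod f)ˣ // M1 a ∧ (κ a).toAdd = c} * (2 * 3 ^ (m + 1)) = f.totient) :
    (3 ^ s * 3 ^ k * Nat.card (Fin s → Fin s → ZMod 3)) *
        Nat.card {g : G // XPJ χ κ c C Φ C' Φ' tn F tt F₂ T g} *
        (2 * 3 ^ (m + 1)) ≤ NK s tn * Nat.card G ∧
      (3 ^ s * 3 ^ k * Nat.card (Fin s → Fin s → ZMod 3)) *
        Nat.card {g : G // XMJ χ κ c C Φ C' Φ' tn F tt F₂ T g} *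
        (2 * 3 ^ (m + 1)) ≤ NK s tn * Nat.card G := by
  have : NeZero f := ⟨hf.ne'⟩
  obtain ⟨hfib, hcard⟩ := fibre χ hχ
  have hH : Nat.card (ZMod f)ˣ = f.totient := by
    rw [Nat.card_eq_fintype_card, ZMod.card_units_eq_totient]
  rw [hH] at hcard
  have hcls := card_cls χ tn F tt F₂ T hEQX heq hcF hfib
  have hP : (3 ^ s * 3 ^ k * Nat.card (Fin s → Fin s → ZMod 3)) *
      Nat.card {g : G // (M1 (χ g) ∧ (κ (χ g)).toAdd = c) ∧
        F g ∧ F₂ g ∧ T g = C' + (Φ' (χ g)).toAdd ∧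
          tn ≤ s - (alt (C + (Φ (χ g)).toAdd + tt g)).rank} ≤
      Nat.card {a : (ZMod f)ˣ // M1 a ∧ (κ a).toAdd = c} *
        (NK s tn * Nat.card χ.ker) := by
    refine count_le χ (fun g => F g ∧ F₂ g ∧ T g = C' + (Φ' (χ g)).toAdd ∧
      tn ≤ s - (alt (C + (Φ (χ g)).toAdd + tt g)).rank)
      (fun a => M1 a ∧ (κ a).toAdd = c) _ _ fun a ha => ?_
    refine le_trans (Nat.mul_le_mul_left _ (le_of_eq ?_))
      (hcls a (C + (Φ a).toAdd) (C' + (Φ' a).toAdd) ha.1).1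
    refine Nat.card_congr (Equiv.subtypeEquivRight fun g => ?_)
    constructor
    · rintro ⟨rfl, h⟩
      exact ⟨rfl, h⟩
    · rintro ⟨rfl, h⟩
      exact ⟨rfl, h⟩
  have hN : (3 ^ s * 3 ^ k * Nat.card (Fin s → Fin s → ZMod 3)) *
      Nat.card {g : G // (M1 (χ g) ∧ (κ (χ g)).toAdd = -c) ∧
        F g ∧ F₂ g ∧ T g = - C' + (Φ' (χ g)).toAdd ∧
          tn ≤ s - (alt (C - (Φ (χ g)).toAdd - tt g)).rank} ≤
      Nat.card {a : (ZMod f)ˣ // M1 a ∧ (κ a).toAdd = -c} *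
        (NK s tn * Nat.card χ.ker) := by
    refine count_le χ (fun g => F g ∧ F₂ g ∧ T g = - C' + (Φ' (χ g)).toAdd ∧
      tn ≤ s - (alt (C - (Φ (χ g)).toAdd - tt g)).rank)
      (fun a => M1 a ∧ (κ a).toAdd = -c) _ _ fun a ha => ?_
    refine le_trans (Nat.mul_le_mul_left _ (le_of_eq ?_))
      (hcls a (C - (Φ a).toAdd) (- C' + (Φ' a).toAdd) ha.1).2
    refine Nat.card_congr (Equiv.subtypeEquivRight fun g => ?_)
    constructor
    · rintro ⟨rfl, h⟩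
      exact ⟨rfl, h⟩
    · rintro ⟨rfl, h⟩
      exact ⟨rfl, h⟩
  have e1 : Nat.card {g : G // XPJ χ κ c C Φ C' Φ' tn F tt F₂ T g} =
      Nat.card {g : G // (M1 (χ g) ∧ (κ (χ g)).toAdd = c) ∧
        F g ∧ F₂ g ∧ T g = C' + (Φ' (χ g)).toAdd ∧
          tn ≤ s - (alt (C + (Φ (χ g)).toAdd + tt g)).rank} :=
    Nat.card_congr (Equiv.subtypeEquivRight fun g => (and_assoc).symm)
  have e2 : Nat.card {g : G // XMJ χ κ c C Φ C' Φ' tn F tt F₂ T g} =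
      Nat.card {g : G // (M1 (χ g) ∧ (κ (χ g)).toAdd = -c) ∧
        F g ∧ F₂ g ∧ T g = - C' + (Φ' (χ g)).toAdd ∧
          tn ≤ s - (alt (C - (Φ (χ g)).toAdd - tt g)).rank} :=
    Nat.card_congr (Equiv.subtypeEquivRight fun g => (and_assoc).symm)
  rw [← e1] at hP
  rw [← e2] at hN
  have h1 := hκ c
  have h2 := hκ (-c)
  generalize Nat.card {g : G // XPJ χ κ c C Φ C' Φ' tn F tt F₂ T g} = nP at *
  generalize Nat.card {g : G // XMJ χ κ c C Φ C' Φ' tn F tt F₂ T g} = nN at *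
  generalize Nat.card {a : (ZMod f)ˣ // M1 a ∧ (κ a).toAdd = c} = cP at *
  generalize Nat.card {a : (ZMod f)ˣ // M1 a ∧ (κ a).toAdd = -c} = cN at *
  generalize 3 ^ s * 3 ^ k * Nat.card (Fin s → Fin s → ZMod 3) = A at *
  generalize 3 ^ (m + 1) = R at *
  generalize Nat.card χ.ker = K at *
  rw [← hcard]
  constructor
  · calc A * nP * (2 * R) ≤ cP * (NK s tn * K) * (2 * R) := Nat.mul_le_mul_right _ hP
      _ = NK s tn * (K * (cP * (2 * R))) := by ring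
      _ = NK s tn * (K * f.totient) := by rw [h1]
  · calc A * nN * (2 * R) ≤ cN * (NK s tn * K) * (2 * R) := Nat.mul_le_mul_right _ hN
      _ = NK s tn * (K * (cN * (2 * R))) := by ring
      _ = NK s tn * (K * f.totient) := by rw [h2]

end

end BMZ

open BDENS BDJU BMZ in
/-- PTK_BMZ: the bound for the density, `Q = 1 (mod 3)`, all `b j` cubes modulo `Q`, with the
matrix. -/
theorem BMZ_thm (hSPP : SPP) (hSPLT : SPLT) (hLCI : Stmt_LCI) (hEQX : Stmt_EQX)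
    (hMAZ : Stmt_MAZ) (hDNS1 : Stmt_DNS1) : Stmt_BMZ := by
  classical
  intro s b p q p' q' M k z α β P Q P' Q' f m tn κ c C Φ C' Φ' hSG hSZ hf h9 hκ
  have hz : ∀ i, z i ≠ 0 := z_ne hSZ
  obtain ⟨L, iF, iN, iG, χ, F, tt, F₂, T, N₀, hχ, hconj, hpow, hconj2, hpow2, heq, hcF, hfrob⟩ :=
    hMAZ s b p q p' q' M k z α β P Q P' Q' f hSG hSZ hf h9
  obtain ⟨N₁, hN₁⟩ : ∃ N₁ : ℕ, ∀ i, (z i).norm.natAbs ≤ N₁ :=
    ⟨Finset.univ.sup fun i => (z i).norm.natAbs, fun i =>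
      Finset.le_sup (f := fun i => (z i).norm.natAbs) (Finset.mem_univ i)⟩
  have h3 : 3 ∣ f := Dvd.dvd.trans (by norm_num) h9
  have hM : ∀ (n : ℕ) (hn : n.Coprime f), M1 (ZMod.unitOfCoprime n hn) ↔ n % 3 = 1 := by
    intro n hn
    unfold M1
    rw [ZMod.coe_unitOfCoprime, ZMod.val_natCast, Nat.mod_mod_of_dvd _ h3]
  obtain ⟨XP, hXP⟩ : ∃ XP : (L ≃ₐ[ℚ] L) → Prop, XP = XPJ χ κ c C Φ C' Φ' tn F tt F₂ T :=
    ⟨_, rfl⟩
  obtain ⟨XM, hXM⟩ : ∃ XM : (L ≃ₐ[ℚ] L) → Prop, XM = XMJ χ κ c C Φ C' Φ' tn F tt F₂ T :=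
    ⟨_, rfl⟩
  have htr : ∀ (g h τ : L ≃ₐ[ℚ] L), Subgroup.zpowers h = Subgroup.zpowers (τ * g * τ⁻¹) →
      ((XP g → XP h) ∧ (XM g → XM h)) ∨ ((XP g → XM h) ∧ (XM g → XP h)) := by
    intro g h τ hz
    rw [hXP, hXM]
    exact transferJ χ κ c C Φ C' Φ' tn F tt F₂ T hf h3 hconj
      (fun g l hg hF _ => hpow g l hg hF) hconj2 hpow2 hz
  obtain ⟨SA, hSA⟩ : ∃ SA : Set ℕ, SA = SPF b p q p' q' tn κ c C Φ ∩
    SPZU z α P Q P' Q' κ c C' Φ' := ⟨_, rfl⟩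
  obtain ⟨SB, hSB⟩ : ∃ SB : Set ℕ, SB = SMF b p q p' q' tn κ c C Φ ∩
    SMZU z α P Q P' Q' κ c C' Φ' := ⟨_, rfl⟩
  -- the Frobenius elements
  have hfr : ∀ (n : ℕ) (hn : n.Coprime f), n.Prime → max N₀ N₁ < n →
      ∀ (I : Ideal (𝓞 L)) (g : L ≃ₐ[ℚ] L), I.IsPrime → (n : 𝓞 L) ∈ I →
      MulAction.stabilizer (L ≃ₐ[ℚ] L) I = Subgroup.zpowers g →
      ∃ l : ℕ, l.Coprime (orderOf g) ∧ χ (g ^ l) = ZMod.unitOfCoprime n hn ∧
        (n ∈ SA → XP (g ^ l)) ∧ (n ∈ SB → XM (g ^ l)) := by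
    intro n hn hnp hnN I g hI hnI hst
    have hN1 : N₀ < n := lt_of_le_of_lt (le_max_left _ _) hnN
    have hN2 : ∀ i, (z i).norm < n := by
      intro i
      have h1 : (z i).norm.natAbs < n := lt_of_le_of_lt ((hN₁ i).trans (le_max_right _ _)) hnN
      have h2 := norm_pos (hz i)
      omega
    obtain ⟨l, hl, hχl, hl2⟩ := hfrob n hn hnp hN1 I g hI hnI hst
    refine ⟨l, hl, hχl, ?_, ?_⟩
    · rw [hSA, hXP]
      rintro ⟨⟨hn', ρ, ⟨h1, h2, h5, h6⟩, h4⟩, ⟨hn'', -, -, h8⟩⟩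
      obtain ⟨r1, r3⟩ := hl2 h1 ρ h5
      obtain ⟨s1, s3⟩ := h8 ρ h5
      obtain ⟨t1, t2⟩ := r3 s1
      obtain ⟨hFg, r2⟩ := r1 h6
      refine ⟨?_, ?_, hFg, t1, ?_, ?_⟩
      · rw [hχl]
        exact (hM n hn).2 h1
      · rw [hχl]
        exact h2
      · funext j
        obtain ⟨r, r', hr, hr'⟩ := roots hSPP hSPLT hLCI (hz (α j)) (hSZ.cz (α j)) hnp h1
          (hN2 (α j)) ρ h5 (s1 (α j))
        rw [t2 j r r' hr hr', s3 j r r' hr hr', hχl]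
        rfl
      · rw [hχl]
        exact h4 (tt (g ^ l)) r2
    · rw [hSB, hXM]
      rintro ⟨⟨hn', ρ, ⟨h1, h2, h5, h6⟩, h4⟩, ⟨hn'', -, -, h8⟩⟩
      obtain ⟨r1, r3⟩ := hl2 h1 ρ h5
      obtain ⟨s1, s3⟩ := h8 ρ h5
      obtain ⟨t1, t2⟩ := r3 s1
      obtain ⟨hFg, r2⟩ := r1 h6
      refine ⟨?_, ?_, hFg, t1, ?_, ?_⟩
      · rw [hχl]
        exact (hM n hn).2 h1
      · rw [hχl]
        exact h2
      · funext j
        obtain ⟨r, r', hr, hr'⟩ := roots hSPP hSPLT hLCI (hz (α j)) (hSZ.cz (α j)) hnp h1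
          (hN2 (α j)) ρ h5 (s1 (α j))
        rw [t2 j r r' hr hr', s3 j r r' hr hr', hχl]
        rfl
      · rw [hχl]
        exact h4 (tt (g ^ l)) r2
  have hzk : ∀ (g : L ≃ₐ[ℚ] L) (l : ℕ), l.Coprime (orderOf g) →
      Subgroup.zpowers g = Subgroup.zpowers (1 * g ^ l * 1⁻¹) := by
    intro g l hl
    rw [one_mul, inv_one, mul_one]
    exact (zpowers_pow_eq hl).symm
  have hor : ∀ g h τ : L ≃ₐ[ℚ] L, (XP g ∨ XM g) →
      Subgroup.zpowers h = Subgroup.zpowers (τ * g * τ⁻¹) → (XP h ∨ XM h) := by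
    intro g h τ hB hz
    rcases htr g h τ hz with ⟨h4, h5⟩ | ⟨h4, h5⟩
    · rcases hB with h6 | h6
      · exact Or.inl (h4 h6)
      · exact Or.inr (h5 h6)
    · rcases hB with h6 | h6
      · exact Or.inr (h4 h6)
      · exact Or.inl (h5 h6)
  have hand : ∀ g h τ : L ≃ₐ[ℚ] L, (XP g ∧ XM g) →
      Subgroup.zpowers h = Subgroup.zpowers (τ * g * τ⁻¹) → (XP h ∧ XM h) := by
    intro g h τ hB hz
    rcases htr g h τ hz with ⟨h4, h5⟩ | ⟨h4, h5⟩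
    · exact ⟨h4 hB.1, h5 hB.2⟩
    · exact ⟨h5 hB.2, h4 hB.1⟩
  have hA1 : ∀ n ∈ SA, n % 3 = 1 ∧ ∀ hn : n.Coprime f,
      (κ (ZMod.unitOfCoprime n hn)).toAdd = c := by
    rw [hSA]
    rintro n ⟨⟨hn', ρ, ⟨h1, h2, -⟩, -⟩, -⟩
    exact ⟨h1, fun hn => h2⟩
  have hB1 : ∀ n ∈ SB, n % 3 = 1 ∧ ∀ hn : n.Coprime f,
      (κ (ZMod.unitOfCoprime n hn)).toAdd = -c := by
    rw [hSB]
    rintro n ⟨⟨hn', ρ, ⟨h1, h2, -⟩, -⟩, -⟩
    exact ⟨h1, fun hn => h2⟩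
  have hP1 : ∀ g, XP g → M1 (χ g) ∧ (κ (χ g)).toAdd = c := by
    rw [hXP]
    rintro g ⟨h1, h2, -⟩
    exact ⟨h1, h2⟩
  have hM1 : ∀ g, XM g → M1 (χ g) ∧ (κ (χ g)).toAdd = -c := by
    rw [hXM]
    rintro g ⟨h1, h2, -⟩
    exact ⟨h1, h2⟩
  obtain ⟨K1, hK1⟩ := hDNS1 f m κ c L χ
    (fun g => XP g ∨ XM g) (SA ∪ SB) (max N₀ N₁) hf h9 hχ hor
    (by
      rintro g (h | h)
      · exact ⟨(hP1 g h).1, Or.inl (hP1 g h).2⟩
      · exact ⟨(hM1 g h).1, Or.inr (hM1 g h).2⟩)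
    (by
      intro n hn hnp hnN I g hI hnI hst
      obtain ⟨l, hl, hχl, h1, h2⟩ := hfr n hn hnp hnN I g hI hnI hst
      refine ⟨⟨l, hl, hχl⟩, ?_⟩
      rintro (h | h)
      · exact hor (g ^ l) g 1 (Or.inl (h1 h)) (hzk g l hl)
      · exact hor (g ^ l) g 1 (Or.inr (h2 h)) (hzk g l hl))
    (by
      rintro n hn hnp hnN (h | h)
      · exact ⟨(hA1 n h).1, Or.inl ((hA1 n h).2 hn)⟩
      · exact ⟨(hB1 n h).1, Or.inr ((hB1 n h).2 hn)⟩)
  obtain ⟨K2, hK2⟩ := hDNS1 f m κ c L χ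
    (fun g => XP g ∧ XM g) (SA ∩ SB) (max N₀ N₁) hf h9 hχ hand
    (by
      rintro g ⟨h, -⟩
      exact ⟨(hP1 g h).1, Or.inl (hP1 g h).2⟩)
    (by
      intro n hn hnp hnN I g hI hnI hst
      obtain ⟨l, hl, hχl, h1, h2⟩ := hfr n hn hnp hnN I g hI hnI hst
      refine ⟨⟨l, hl, hχl⟩, ?_⟩
      rintro ⟨h, h'⟩
      exact hand (g ^ l) g 1 ⟨h1 h, h2 h'⟩ (hzk g l hl))
    (by
      rintro n hn hnp hnN ⟨h, -⟩
      exact ⟨(hA1 n h).1, Or.inl ((hA1 n h).2 hn)⟩)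
  obtain ⟨hX1, hX2⟩ := BMZ.card_X χ κ c C Φ C' Φ' tn F tt F₂ T hEQX hf hχ heq hcF hκ
  have hX1' : (3 ^ s * 3 ^ k * Nat.card (Fin s → Fin s → ZMod 3)) *
      Nat.card {g : L ≃ₐ[ℚ] L // XP g} * (2 * 3 ^ (m + 1)) ≤
        NK s tn * Nat.card (L ≃ₐ[ℚ] L) := by
    rw [hXP]
    exact hX1
  have hX2' : (3 ^ s * 3 ^ k * Nat.card (Fin s → Fin s → ZMod 3)) *
      Nat.card {g : L ≃ₐ[ℚ] L // XM g} * (2 * 3 ^ (m + 1)) ≤
        NK s tn * Nat.card (L ≃ₐ[ℚ] L) := by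
    rw [hXM]
    exact hX2
  clear hX1 hX2
  have hincl := BD.card_incl (fun g => XP g) (fun g => XM g)
  refine ⟨K1 + K2, fun σ h1 h2 => ?_⟩
  have e1 := hK1 σ h1 h2
  have e2 := hK2 σ h1 h2
  have hlog : 0 ≤ Real.log (1 / (σ - 1)) := by
    apply Real.log_nonneg
    rw [le_div_iff₀ (by linarith)]
    linarith
  rw [← hSA, ← hSB, BD.sm_union_inter _ _ h1]
  have hG : 0 < Nat.card (L ≃ₐ[ℚ] L) := Nat.card_pos
  have hA : 0 < Nat.card (Fin s → Fin s → ZMod 3) := Nat.card_pos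
  have hcnt : (Nat.card {g : L ≃ₐ[ℚ] L // XP g ∨ XM g} : ℝ) / Nat.card (L ≃ₐ[ℚ] L) +
      (Nat.card {g : L ≃ₐ[ℚ] L // XP g ∧ XM g} : ℝ) / Nat.card (L ≃ₐ[ℚ] L) ≤
      1 / 3 ^ s * LI s tn / 3 ^ k / 3 ^ (m + 1) := by
    unfold LI
    clear hK1 hK2 e1 e2 hfr hor hand htr hP1 hM1 hfrob heq hcF
    generalize Nat.card {g : L ≃ₐ[ℚ] L // XP g ∨ XM g} = n1 at *
    generalize Nat.card {g : L ≃ₐ[ℚ] L // XP g ∧ XM g} = n2 at *
    generalize Nat.card {g : L ≃ₐ[ℚ] L // XP g} = x1 at *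
    generalize Nat.card {g : L ≃ₐ[ℚ] L // XM g} = x2 at *
    generalize Nat.card (Fin s → Fin s → ZMod 3) = A at *
    generalize Nat.card (L ≃ₐ[ℚ] L) = g0 at *
    have hG' : (0 : ℝ) < g0 := Nat.cast_pos.2 hG
    have hA' : (0 : ℝ) < A := Nat.cast_pos.2 hA
    have hT1 : (0 : ℝ) < 3 ^ (m + 1) := by positivity
    have hT2 : (0 : ℝ) < 3 ^ s := by positivity
    have hT3 : (0 : ℝ) < 3 ^ k := by positivity
    have i1 : (3 : ℝ) ^ s * 3 ^ k * A * x1 * (2 * 3 ^ (m + 1)) ≤ NK s tn * g0 := by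
      exact_mod_cast hX1'
    have i2 : (3 : ℝ) ^ s * 3 ^ k * A * x2 * (2 * 3 ^ (m + 1)) ≤ NK s tn * g0 := by
      exact_mod_cast hX2'
    have i3 : (n1 : ℝ) + n2 = x1 + x2 := by exact_mod_cast hincl
    have i4 : (1 : ℝ) / 3 ^ s * ((NK s tn : ℝ) / A) / 3 ^ k / 3 ^ (m + 1) =
        NK s tn / (3 ^ s * 3 ^ k * A * 3 ^ (m + 1)) := by
      field_simp
    rw [← add_div, i3, i4, div_le_div_iff₀ hG' (by positivity)]
    nlinarith
  have hmul := mul_le_mul_of_nonneg_right hcnt hlog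
  rw [add_mul] at hmul
  linarith

end Pool.Agent.PTK
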