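import Pool.Agent.PTK.StX
import Pool.Agent.PTN.CAB

/-!
# CAV: averages in a class, primes of the first residue class
-/

set_option autoImplicit false

open NumberField IsDedekindDomain Finset
open scoped nonZeroDivisors Pointwise

namespace Pool.Agent.PTK

open Pool.Agent.Lib_helper18 Pool.Agent.Lib_helper18.Eis Pool.Agent.Lib_helper84.Cub
open Pool.Agent.PT Pool.Agent.PTE Pool.Agent.PT3 Pool.Agent.PTL Pool.Agent.PTN

theorem CAV_thm (hSPP : SPP) (hCLV : Stmt_CLV) (hCLU : Stmt_CLU) (hDOMG : Stmt_DOMG)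
    (hLAW : Stmt_LAW) : Stmt_CAV := by
  classical
  intro h n m k π p e r f w0 c hN hh F hF h0
  obtain ⟨hL1, -⟩ := hLAW
  have hT := hCLV h n m k π p e r f w0 c hN hh
  obtain ⟨⟨M, hM⟩, -⟩ := hCLU h n m k π p e r f w0 c hN hh
  set s := sN h n π p e r w0 c with hs
  set v := vN h n π p e r w0 c with hv
  refine CAB.above_of hSPP hN w0 c 1 hF h0
    (fun E => {q : ℕ | q % 3 = 1 ∧ InCT E π w0 c q}) (fun E q => Iff.rfl) ?_
  obtain ⟨K, hK⟩ := hDOMG (fun E => {q : ℕ | q % 3 = 1 ∧ InCT E π w0 c q})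
    (fun E q => CubeRank.rr (BB h n E q)) (fun t => LI (s + 1) (t - v) / 3 ^ (m + 1)) M
    (v + (s + 1)) F
    (fun E q hE hq hMq hqS =>
      (CubeRank.rr_le (hM E q hE hq hMq hqS.1 hqS.2)).trans (by omega))
    (fun t => by
      obtain ⟨K, hK⟩ := hT t
      refine ⟨K, fun σ h1 h2 => ?_⟩
      have e1 := hK σ h1 h2
      have e2 : ∀ E : ℕ, {q : ℕ | q ∈ {q : ℕ | q % 3 = 1 ∧ InCT E π w0 c q} ∧
          t ≤ CubeRank.rr (BB h n E q)} = WR h n π w0 c 1 E t := by
        intro E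
        ext q
        exact and_assoc
      rw [e2, e2]
      exact e1) hF h0
  refine ⟨K, fun σ h1 h2 T => (hK σ h1 h2 T).trans_eq ?_⟩
  rw [← hL1 (s + 1) v F, add_div, Finset.sum_div]
  simp only [mul_div_assoc]

end Pool.Agent.PTK
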