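import Pool.Agent.PTK.StX
import Pool.Agent.PTN.CBE

/-!
# PTK_CBV: lower bounds in a class, `q = 1 (mod 3)`
-/

set_option autoImplicit false

open NumberField IsDedekindDomain Finset
open scoped nonZeroDivisors Pointwise

namespace Pool.Agent.PTK

open Pool.Agent.Lib_helper18 Pool.Agent.Lib_helper18.Eis Pool.Agent.Lib_helper84.Cub
open Pool.Agent.PT Pool.Agent.PTE Pool.Agent.PT3 Pool.Agent.PTL Pool.Agent.PTN

/-- PTK_CBV. -/
theorem CBV_thm (hCLV : Stmt_CLV) (hCLU : Stmt_CLU) (hCLT : Stmt_CLT) (hSPP : SPP) :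
    Stmt_CBV := by
  intro h n m k π p e r f w0 c hN hh t R hR
  obtain ⟨⟨M, hM⟩, -⟩ := hCLU h n m k π p e r f w0 c hN hh
  obtain ⟨K, hK⟩ := hCLT m π p hN.pp hN.p1 hN.pπ hN.pinj w0 c 1 (Or.inl rfl)
  have := CBE.below hSPP hN 1 t R hR
    ⟨M, fun E q hE hq hqM hq3 hqc => ⟨_, hM E q hE hq hqM hq3 hqc⟩⟩ (1 / 3 ^ (m + 1))
    (LI (sN h n π p e r w0 c + 1) (t - vN h n π p e r w0 c) / 3 ^ (m + 1))
    ⟨K, fun σ h1 h2 => (hK σ h1 h2).1⟩ (hCLV h n m k π p e r f w0 c hN hh t)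
  rwa [← sub_div] at this

end Pool.Agent.PTK
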