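import Pool.Agent.PTK.StZ2

/-!
# PTK_CHE: the pairing of `z j` with a product
-/

set_option autoImplicit false

open NumberField IsDedekindDomain Finset
open scoped nonZeroDivisors Pointwise

namespace Pool.Agent.PTK

open Pool.Agent.Lib_helper18 Pool.Agent.Lib_helper18.Eis Pool.Agent.Lib_helper84.Cub
open Pool.Agent.PT Pool.Agent.PTE Pool.Agent.PT3 Pool.Agent.PTL Pool.Agent.PTN

namespace CHE

/-! ### Admissible classes -/

theorem age_mul (hSTM : STM) (hSPP : SPP) {B x y : Eis} (hB : B ≠ 0) (hx : AGE B x)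
    (hy : AGE B y) : AGE B (x * y) where
  ne := mul_ne_zero hx.ne hy.ne
  sym := fun π => by
    have hs := hSTM π.1 π.2.1 (hSPP.2.2.2.1 π).1
    rw [hs.mul _ _ _ hx.ne hy.ne hB, hx.sym π, hy.sym π, add_zero]
  unr := fun π h1 h2 => by
    rcases π.2.1.dvd_or_dvd h2 with h | h
    · exact hx.unr π h1 h
    · exact hy.unr π h1 h

theorem age_one (hSTM : STM) (hSPP : SPP) {B : Eis} (hB : B ≠ 0) : AGE B 1 where
  ne := one_ne_zero
  sym := fun π => by
    have hs := hSTM π.1 π.2.1 (hSPP.2.2.2.1 π).1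
    have h1 : (1 : Eis) ≠ 0 := one_ne_zero
    have h := hs.mul 1 1 _ h1 h1 hB
    rw [one_mul] at h
    have h2 : tm π.1 1 B + 0 = tm π.1 1 B + tm π.1 1 B := by
      rw [add_zero]
      exact h
    exact (add_left_cancel h2).symm
  unr := fun π _ h2 => π.2.1.not_isUnit (isUnit_of_dvd_one h2)

theorem age_pow (hSTM : STM) (hSPP : SPP) {B x : Eis} (hB : B ≠ 0) (hx : AGE B x) (n : ℕ) :
    AGE B (x ^ n) := by
  induction n with
  | zero =>
    rw [pow_zero]
    exact age_one hSTM hSPP hB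
  | succ n ih =>
    rw [pow_succ]
    exact age_mul hSTM hSPP hB ih hx

theorem age_prod (hSTM : STM) (hSPP : SPP) {B : Eis} (hB : B ≠ 0) {l : ℕ} {z : Fin l → Eis}
    (hz : ∀ i, AGE B (z i)) (c : Fin l → ℕ) (t : Finset (Fin l)) :
    AGE B (∏ i ∈ t, z i ^ c i) := by
  classical
  induction t using Finset.induction_on with
  | empty =>
    rw [Finset.prod_empty]
    exact age_one hSTM hSPP hB
  | insert i t hi ih =>
    rw [Finset.prod_insert hi]
    exact age_mul hSTM hSPP hB (age_pow hSTM hSPP hB (hz i) _) ih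

/-! ### Classes of the minus part -/

theorem mcl_ne {b : Eis} (hb : MCl b) : b ≠ 0 := by
  rintro rfl
  exact hb.nl (dvd_zero _)

theorem mcl_mul {x y : Eis} (hx : MCl x) (hy : MCl y) : MCl (x * y) where
  nl := fun h => (prime_lam.dvd_or_dvd h).elim hx.nl hy.nl
  cb := by
    obtain ⟨s, hs⟩ := hx.cb
    obtain ⟨t, ht⟩ := hy.cb
    refine ⟨s * t, ?_⟩
    rw [map_mul, mul_pow, ← hs, ← ht]
    ring

theorem mcl_one : MCl 1 where
  nl := fun h => prime_lam.not_isUnit (isUnit_of_dvd_one h)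
  cb := ⟨1, by rw [map_one]; ring⟩

theorem mcl_pow {x : Eis} (hx : MCl x) (n : ℕ) : MCl (x ^ n) := by
  induction n with
  | zero =>
    rw [pow_zero]
    exact mcl_one
  | succ n ih =>
    rw [pow_succ]
    exact mcl_mul ih hx

theorem mcl_prod {l : ℕ} {z : Fin l → Eis} (hz : ∀ i, MCl (z i)) (c : Fin l → ℕ)
    (t : Finset (Fin l)) : MCl (∏ i ∈ t, z i ^ c i) := by
  classical
  induction t using Finset.induction_on with
  | empty =>
    rw [Finset.prod_empty]
    exact mcl_one
  | insert i t hi ih =>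
    rw [Finset.prod_insert hi]
    exact mcl_mul (mcl_pow (hz i) _) ih

/-! ### Local cubes -/

theorem lce_mul {π x y : Eis} (hx : LCE π x) (hy : LCE π y) : LCE π (x * y) := by
  intro N
  obtain ⟨r, hr⟩ := hx N
  obtain ⟨s, hs⟩ := hy N
  refine ⟨r * s, ?_⟩
  have h : (r * s) ^ 3 - x * y = (r ^ 3 - x) * s ^ 3 + x * (s ^ 3 - y) := by ring
  rw [h]
  exact dvd_add (Dvd.dvd.mul_right hr _) (Dvd.dvd.mul_left hs _)

theorem lce_one {π : Eis} : LCE π 1 := fun N => ⟨1, by simp⟩

theorem lce_pow {π x : Eis} (hx : LCE π x) (n : ℕ) : LCE π (x ^ n) := by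
  induction n with
  | zero =>
    rw [pow_zero]
    exact lce_one
  | succ n ih =>
    rw [pow_succ]
    exact lce_mul ih hx

theorem lce_prod {π : Eis} {l : ℕ} {z : Fin l → Eis} (c : Fin l → ℕ)
    (hz : ∀ i, c i ≠ 0 → LCE π (z i)) (t : Finset (Fin l)) : LCE π (∏ i ∈ t, z i ^ c i) := by
  classical
  induction t using Finset.induction_on with
  | empty =>
    rw [Finset.prod_empty]
    exact lce_one
  | insert i t hi ih =>
    rw [Finset.prod_insert hi]
    refine lce_mul ?_ ih
    by_cases h : c i = 0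
    · rw [h, pow_zero]
      exact lce_one
    · exact lce_pow (hz i h) _

/-! ### Splitting off a factor -/

theorem prod_split {l : ℕ} (b : Fin l → Eis) (g g' : Fin l → ℕ) (i0 : Fin l)
    (h : ∀ i, g i = g' i + if i = i0 then 1 else 0) :
    ∏ i, b i ^ g i = (∏ i, b i ^ g' i) * b i0 := by
  have h1 : ∏ i, b i ^ (if i = i0 then 1 else 0) = b i0 := by
    rw [Finset.prod_eq_single i0]
    · simp
    · intro i _ hi
      simp [hi]
    · intro hi
      exact absurd (Finset.mem_univ _) hi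
  conv_rhs => rw [← h1]
  rw [← Finset.prod_mul_distrib]
  refine Finset.prod_congr rfl fun i _ => ?_
  rw [← pow_add, h i]

theorem sum_split {l : ℕ} (m : Fin l → ZMod 3) (g g' : Fin l → ℕ) (i0 : Fin l)
    (h : ∀ i, g i = g' i + if i = i0 then 1 else 0) :
    ∑ i, m i * (g i : ZMod 3) = (∑ i, m i * (g' i : ZMod 3)) + m i0 := by
  have h1 : ∑ i, (if i = i0 then m i else 0) = m i0 := by
    rw [Finset.sum_ite_eq']
    simp
  conv_rhs => rw [← h1]
  rw [← Finset.sum_add_distrib]
  refine Finset.sum_congr rfl fun i _ => ?_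
  rw [h i]
  split_ifs <;> push_cast <;> ring

theorem sol_self {b : Eis} (hb : b ≠ 0) : SolE b b 0 1 1 0 where
  eq := by ring
  n1 := by simpa using hb
  n2 := by simpa using hb
  g1 := by simp [GfE]
  g2 := by simp [GfE]

section Row

variable {l : ℕ} {z : Fin l → Eis} {P Q P' Q' : Fin l → Fin l → Eis}

/-- the solution for one factor -/
theorem one (hTHE : Stmt_THE) (hS : SysF z P Q P' Q') (j i : Fin l) :
    ∃ p q p' q' : Eis, SolE (z j) (z i) p q p' q' ∧ ∀ B : ℤ, BGE B → (∀ i, AGE B (z i)) →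
      (LCE lam (z j) ∨ LCE lam (B : Eis) ∨ LCE lam (z i)) →
      OZE B (z j) (z i) p q p' q' = MaZ z P Q P' Q' B j i := by
  by_cases hij : i = j
  · subst hij
    refine ⟨0, 1, 1, 0, sol_self (mcl_ne (hS.mc i)), fun B hB hA h => ?_⟩
    have hM : MaZ z P Q P' Q' B i i = 0 := by simp [MaZ]
    rw [hM]
    refine hTHE B (z i) hB (hA i) (hS.mc i) ?_
    rcases h with h | h | h
    · exact Or.inl h
    · exact Or.inr h
    · exact Or.inl h
  · have hji : j ≠ i := fun h => hij h.symm
    refine ⟨_, _, _, _, hS.sol j i hji, fun B _ _ _ => ?_⟩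
    unfold MaZ
    rw [if_neg hji]

theorem key (hTAE : Stmt_TAE) (hTHE : Stmt_THE) (hSTM : STM) (hSPP : SPP)
    (hS : SysF z P Q P' Q') (j : Fin l) (n : ℕ) :
    ∀ g : Fin l → ℕ, ∑ i, g i = n + 1 → (∀ i, g i ≤ 2) →
    ∃ p q p' q' : Eis, SolE (z j) (∏ i, z i ^ g i) p q p' q' ∧ ∀ B : ℤ, BGE B →
      (∀ i, AGE B (z i)) →
      (LCE lam (z j) ∨ LCE lam (B : Eis) ∨ ∀ i, g i ≠ 0 → LCE lam (z i)) →
      OZE B (z j) (∏ i, z i ^ g i) p q p' q' = ∑ i, MaZ z P Q P' Q' B j i * (g i : ZMod 3) := by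
  have hbj : ¬ ∃ t : Eis, t ^ 3 = z j := by
    have h1 := hS.ind (fun i => if i = j then 1 else 0) ⟨j, by simp⟩
    have h2 : ∏ i, z i ^ (if i = j then 1 else 0) = z j := by
      rw [Finset.prod_eq_single j]
      · simp
      · intro i _ hij
        simp [hij]
      · intro h
        exact absurd (Finset.mem_univ _) h
    rw [h2] at h1
    exact h1
  induction n with
  | zero =>
    intro g hg hg2
    obtain ⟨i0, hi0⟩ : ∃ i, g i ≠ 0 := by
      by_contra hcon
      push Not at hcon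
      rw [Finset.sum_eq_zero fun i _ => hcon i] at hg
      omega
    have hsp : ∀ i, g i = (g i - if i = i0 then 1 else 0) + if i = i0 then 1 else 0 := by
      intro i
      split_ifs with h
      · rw [h]; omega
      · omega
    have hsum : ∑ i, g i = (∑ i, (g i - if i = i0 then 1 else 0)) + 1 := by
      have h1 : ∑ i : Fin l, (if i = i0 then 1 else 0) = 1 := by
        rw [Finset.sum_ite_eq']
        simp
      calc ∑ i, g i = ∑ i, ((g i - if i = i0 then 1 else 0) + if i = i0 then 1 else 0) :=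
            Finset.sum_congr rfl fun i _ => hsp i
        _ = (∑ i, (g i - if i = i0 then 1 else 0)) + ∑ i : Fin l, (if i = i0 then 1 else 0) :=
            Finset.sum_add_distrib
        _ = _ := by rw [h1]
    have h0 : ∀ i, (g i - if i = i0 then 1 else 0) = 0 := by
      have h2 : ∑ i, (g i - if i = i0 then 1 else 0) = 0 := by omega
      intro i
      exact (Finset.sum_eq_zero_iff.1 h2) i (Finset.mem_univ i)
    obtain ⟨p, q, p', q', h1, h2⟩ := one hTHE hS j i0
    have h3 : ∏ i, z i ^ (g i - if i = i0 then 1 else 0) = 1 :=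
      Finset.prod_eq_one fun i _ => by rw [h0 i, pow_zero]
    have h5 : ∏ i, z i ^ g i = z i0 := by
      rw [prod_split z g _ i0 hsp, h3, one_mul]
    rw [h5]
    refine ⟨p, q, p', q', h1, fun B hB hA hc => ?_⟩
    have h4 : ∑ i, MaZ z P Q P' Q' B j i *
        (((g i - if i = i0 then 1 else 0 : ℕ)) : ZMod 3) = 0 :=
      Finset.sum_eq_zero fun i _ => by rw [h0 i, Nat.cast_zero, mul_zero]
    rw [sum_split _ g _ i0 hsp, h4, zero_add]
    exact h2 B hB hA (hc.imp id fun h => h.imp id fun h => h i0 hi0)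
  | succ n ih =>
    intro g hg hg2
    obtain ⟨i0, hi0⟩ : ∃ i, g i ≠ 0 := by
      by_contra hcon
      push Not at hcon
      rw [Finset.sum_eq_zero fun i _ => hcon i] at hg
      omega
    have hsp : ∀ i, g i = (g i - if i = i0 then 1 else 0) + if i = i0 then 1 else 0 := by
      intro i
      split_ifs with h
      · rw [h]; omega
      · omega
    have hsum : ∑ i, g i = (∑ i, (g i - if i = i0 then 1 else 0)) + 1 := by
      have h1 : ∑ i : Fin l, (if i = i0 then 1 else 0) = 1 := by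
        rw [Finset.sum_ite_eq']
        simp
      calc ∑ i, g i = ∑ i, ((g i - if i = i0 then 1 else 0) + if i = i0 then 1 else 0) :=
            Finset.sum_congr rfl fun i _ => hsp i
        _ = (∑ i, (g i - if i = i0 then 1 else 0)) + ∑ i : Fin l, (if i = i0 then 1 else 0) :=
            Finset.sum_add_distrib
        _ = _ := by rw [h1]
    obtain ⟨p, q, p', q', h1, h2⟩ := one hTHE hS j i0
    obtain ⟨p₁, q₁, p₁', q₁', h3, h4⟩ := ih (fun i => g i - if i = i0 then 1 else 0)
      (by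
        show ∑ i, (g i - if i = i0 then 1 else 0) = n + 1
        omega)
      (fun i => (Nat.sub_le _ _).trans (hg2 i))
    have hnc : ¬ ∃ c : Eis, c ^ 3 =
        (∏ i, z i ^ (g i - if i = i0 then 1 else 0)) * z i0 := by
      rw [← prod_split z g _ i0 hsp]
      refine hS.ind g ⟨i0, ?_⟩
      intro h
      have := hg2 i0
      omega
    have hm := mcl_prod hS.mc (fun i => g i - if i = i0 then 1 else 0) Finset.univ
    obtain ⟨p₂, q₂, p₂', q₂', h5, h6⟩ := hTAE (z j)
      (∏ i, z i ^ (g i - if i = i0 then 1 else 0)) (z i0) p₁ q₁ p₁' q₁' p q p' q' hbj hnc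
      (mcl_ne (hS.mc j)) (mcl_ne hm) (mcl_ne (hS.mc i0)) (hS.mc j) hm (hS.mc i0) h3 h1
    rw [prod_split z g _ i0 hsp]
    refine ⟨p₂, q₂, p₂', q₂', h5, fun B hB hA hc => ?_⟩
    have hgi : ∀ i, g i - (if i = i0 then 1 else 0) ≠ 0 → g i ≠ 0 := by
      intro i h h'
      apply h
      rw [h']
      exact Nat.zero_sub _
    rw [sum_split _ g _ i0 hsp, h6 B hB (hA j) (age_prod hSTM hSPP hB.ne hA _ Finset.univ)
      (hA i0) (hc.imp id fun h => h.imp id fun h =>
        ⟨lce_prod _ (fun i hi => h i (hgi i hi)) Finset.univ, h i0 hi0⟩),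
      h4 B hB hA (hc.imp id fun h => h.imp id fun h i hi => h i (hgi i hi)),
      h2 B hB hA (hc.imp id fun h => h.imp id fun h => h i0 hi0)]

end Row

end CHE

open CHE in
theorem CHE_thm (hTAE : Stmt_TAE) (hTHE : Stmt_THE) (hSTM : STM) (hSPP : SPP) : Stmt_CHE := by
  intro l z P Q P' Q' hS j c hc2 hc
  obtain ⟨i1, hi1⟩ := hc
  have hpos : 0 < ∑ i, c i := by
    have h1 : c i1 ≤ ∑ i, c i :=
      Finset.single_le_sum (f := fun i => c i) (fun i _ => Nat.zero_le _)
        (Finset.mem_univ i1)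
    omega
  exact key hTAE hTHE hSTM hSPP hS j ((∑ i, c i) - 1) c (by omega) hc2

end Pool.Agent.PTK
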