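import Pool.Agent.PTK.StX
import Pool.Agent.PTN.LAW
import Pool.Agent.PTN.CLU

/-!
# PTK_CLV: the distribution of the rank in a class, `q = 1 (mod 3)`
-/

set_option autoImplicit false

open NumberField IsDedekindDomain Finset
open scoped nonZeroDivisors Pointwise

namespace Pool.Agent.PTK

open Pool.Agent.Lib_helper18 Pool.Agent.Lib_helper18.Eis Pool.Agent.Lib_helper84.Cub
open Pool.Agent.PT Pool.Agent.PTE Pool.Agent.PT3 Pool.Agent.PTL Pool.Agent.PTN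

namespace CLV

/-- the identity for the tails -/
theorem li_eq (hESZ : Stmt_ESZ) (d τ : ℕ) :
    (1 - 1 / 3 ^ d) * LI (d - 1) τ + 1 / 3 ^ d * LI d (τ - 1) = LI (d + 1) τ := by
  have h1 := hESZ d (fun c => if τ ≤ c then 1 else 0)
  have h2 : (fun c => (if τ ≤ c + 1 then (1 : ℝ) else 0)) =
      fun c => if τ - 1 ≤ c then (1 : ℝ) else 0 := by
    funext c
    by_cases h : τ ≤ c + 1
    · rw [if_pos h, if_pos (by omega)]
    · rw [if_neg h, if_neg (by omega)]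
  simp only [h2] at h1
  rw [LAW.Esk_ind, LAW.Esk_ind, LAW.Esk_ind] at h1
  exact h1

/-- the empty configuration -/
theorem te0 {M' : ℕ} (V V₀ : Submodule (ZMod 3) (Fin M' → ZMod 3)) :
    TeC V V₀ (Fin.elim0 : Fin 0 → Fin M' → ZMod 3) (Fin.elim0 : Fin 0 → Fin 0) Fin.elim0 where
  ind := linearIndependent_empty_type
  mem i := i.elim0
  lt j := j.elim0
  inj j := j.elim0
  wl j := j.elim0

/-- the number of the classes -/
theorem log_le (h n : ℕ) {m k : ℕ} (π : Fin m → PP) (p e : Fin m → ℕ) (r : Fin k → ℕ)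
    (w0 : ZMod 3) (c : Fin m → ZMod 3) (B : ℤ) :
    Nat.log 3 (Nat.card (WqS h n π p e r w0 c B)) ≤ vN h n π p e r w0 c := by
  have h1 : Nat.card (WqS h n π p e r w0 c B) ≤ Nat.card (VS h n π p e r w0 c) := by
    refine Nat.card_le_card_of_injective
      (fun y => (⟨y.1, y.2.1⟩ : VS h n π p e r w0 c)) ?_
    intro y y' hy
    exact Subtype.ext (congrArg (fun z : VS h n π p e r w0 c => z.1) hy)
  have h2 : Nat.card (VS h n π p e r w0 c) = 3 ^ vN h n π p e r w0 c := by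
    rw [Module.natCard_eq_pow_finrank (K := ZMod 3), Nat.card_zmod]
    rfl
  rw [h2] at h1
  calc Nat.log 3 (Nat.card (WqS h n π p e r w0 c B)) ≤ Nat.log 3 (3 ^ vN h n π p e r w0 c) :=
        Nat.log_mono_right h1
    _ = vN h n π p e r w0 c := Nat.log_pow (by norm_num) _

end CLV

open CLV BDENS in
/-- CLV: the distribution of the rank in a class, `q = 1 (mod 3)`. -/
theorem CLV_thm (hNHPT : Stmt_NHPT) (hPLE : Stmt_PLE) (hDLU : Stmt_DLU) (hSMT : Stmt_SMT)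
    (hPAT : Stmt_PAT) (hZPV : Stmt_ZPV) (hNBX : Stmt_NBX) (hMTZ : Stmt_MTZ)
    (hESZ : Stmt_ESZ) : Stmt_CLV := by
  classical
  intro h n m k π p e r f w0 c hNF hh t
  have hn0 : 0 < n := by
    rw [hNF.eq]
    exact Nat.mul_pos (Finset.prod_pos fun i _ => pow_pos (hNF.pp i).pos _)
      (Finset.prod_pos fun j _ => pow_pos (hNF.rp j).pos _)
  obtain ⟨d, V, hd, hAd, hspan, hHP⟩ := hNHPT h n m k π p e r f w0 c hNF hh
  have hHB : HB h n π w0 c V := ⟨hAd, hspan, hHP⟩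
  obtain ⟨s, ty, b, X, Y, P, Q, P', Q', hs, hPl⟩ := hPLE h n m k π p e r f w0 c hNF hh
  have hsd : s = d := hs.trans hd.symm
  subst hsd
  rw [← hd]
  obtain ⟨τ, hτ⟩ : ∃ τ, τ = t - vN h n π p e r w0 c := ⟨_, rfl⟩
  rw [← hτ]
  obtain ⟨M1, hM1⟩ := hPAT s V fun i => (hAd i).1.ne
  obtain ⟨M2, hM2⟩ := hZPV h n m k π p e r f w0 c s ty b X Y P Q P' Q' s V hNF hh hPl hHB
  have hU := hDLU h n m k π p e r f w0 c s V hNF hh hHB
  obtain ⟨KM, hKM⟩ := hMTZ h n m k π p e r f w0 c s ty b X Y P Q P' Q' hNF hh hPl 0 0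
    Fin.elim0 Fin.elim0 Fin.elim0 (te0 _ _) (τ - 1)
  -- the primes outside of `ZP V`
  have hA : ∀ E : ℕ, ∃ K : ℝ, ∀ σ : ℝ, 1 < σ → σ ≤ 2 → 2 * sm (WR h n π w0 c 1 E t \ ZP V) σ ≤
      ∑ i : {δ : Fin s → ZMod 3 // δ ≠ 0}, sm (WR h n π w0 c 1 E t ∩ Pat V i.1) σ + K := by
    intro E
    refine (hSMT {δ : Fin s → ZMod 3 // δ ≠ 0} (WR h n π w0 c 1 E t \ ZP V) ∅ ∅
      (fun i => WR h n π w0 c 1 E t ∩ Pat V i.1) M1).1 ?_
    intro q hq hMq hqS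
    rcases hM1 q hq hMq hqS.1.1 with h1 | ⟨δ, δ', h1, h2, h3, h4, h5⟩
    · exact absurd h1 hqS.2
    · exact ⟨⟨δ, h1⟩, ⟨δ', h2⟩, fun h6 => h3 (congrArg Subtype.val h6), ⟨hqS.1, h4⟩,
        ⟨hqS.1, h5⟩⟩
  -- the primes of `ZP V`
  have hB : ∀ E : ℕ, (E = 1 ∨ E = 2) → ∃ K : ℝ, ∀ σ : ℝ, 1 < σ → σ ≤ 2 →
      sm (WR h n π w0 c 1 E t) σ ≤ sm (WR h n π w0 c 1 E t \ ZP V) σ +
        sm {q | (q ∈ QM h n π e w0 c (Fin.elim0 : Fin 0 → Fin (m + 1) → ZMod 3)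
          (Fin.elim0 : Fin 0 → Fin 0) 1 E ∧ q ∈ ZP b) ∧
          τ - 1 ≤ kS h n b X Y P Q P' Q' E q} σ + K := by
    intro E hE
    refine (hSMT PUnit (WR h n π w0 c 1 E t) (WR h n π w0 c 1 E t \ ZP V) _
      (fun _ => ∅) (n + 3 + M2)).2.2 ?_
    intro q hq hMq hqS
    by_cases hZ : q ∈ ZP V
    · right
      have hZb := hM2 q hq (by omega) hZ
      refine ⟨⟨⟨hqS.1, hqS.2.1, fun j => j.elim0⟩, hZb⟩, ?_⟩
      have h1 := CubeRank.rr_le (hNBX h n m k π p e r f w0 c s ty b X Y P Q P' Q' E q hNF hh hPl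
        hE hq (by omega) hqS.1 hqS.2.1 (fun hd => by
          have := Nat.le_of_dvd hn0 hd
          omega) hZb)
      have h2 := log_le h n π p e r w0 c (BB h n E q)
      have h3 := hqS.2.2
      omega
    · left
      exact ⟨hqS, hZ⟩
  obtain ⟨KA1, hA1⟩ := hA 1
  obtain ⟨KA2, hA2⟩ := hA 2
  obtain ⟨KB1, hB1⟩ := hB 1 (Or.inl rfl)
  obtain ⟨KB2, hB2⟩ := hB 2 (Or.inr rfl)
  choose KU hKU using fun δ : {δ : Fin s → ZMod 3 // δ ≠ 0} => hU δ.1 δ.2 t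
  have hcard := CLU.card_ne s
  refine ⟨KB1 + KB2 + (KA1 + KA2 + ∑ i, KU i) / 2 + KM, fun σ hσ hσ2 => ?_⟩
  have a1 := hA1 σ hσ hσ2
  have a2 := hA2 σ hσ hσ2
  have b1 := hB1 σ hσ hσ2
  have b2 := hB2 σ hσ hσ2
  have c0 := hKM σ hσ hσ2
  obtain ⟨Lg, hLg⟩ : ∃ Lg, Lg = Real.log (1 / (σ - 1)) := ⟨_, rfl⟩
  have u1 : ∑ i : {δ : Fin s → ZMod 3 // δ ≠ 0}, sm (WR h n π w0 c 1 1 t ∩ Pat V i.1) σ +
      ∑ i : {δ : Fin s → ZMod 3 // δ ≠ 0}, sm (WR h n π w0 c 1 2 t ∩ Pat V i.1) σ ≤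
      (3 ^ s - 1) * (2 / 3 ^ s * LI (s - 1) τ / 3 ^ (m + 1) * Lg) + ∑ i, KU i := by
    rw [← Finset.sum_add_distrib, ← hcard, ← nsmul_eq_mul, ← Finset.card_univ,
      ← Finset.sum_const, ← Finset.sum_add_distrib, hLg, hτ]
    exact Finset.sum_le_sum fun i _ => hKU i σ hσ hσ2
  rw [← hLg] at c0 ⊢
  have e1 : (3 ^ s - 1 : ℝ) * (2 / 3 ^ s * LI (s - 1) τ / 3 ^ (m + 1) * Lg) =
      2 * ((1 - 1 / 3 ^ s) * LI (s - 1) τ / 3 ^ (m + 1) * Lg) := by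
    field_simp
  have e2 : (1 / 3 ^ s / 3 ^ 0 / 3 ^ (m + 1) * LI s (τ - 1) * Lg : ℝ) =
      1 / 3 ^ s * LI s (τ - 1) / 3 ^ (m + 1) * Lg := by
    rw [pow_zero, div_one]
    ring
  have e3 : LI (s + 1) τ / 3 ^ (m + 1) * Lg = (1 - 1 / 3 ^ s) * LI (s - 1) τ / 3 ^ (m + 1) * Lg +
      1 / 3 ^ s * LI s (τ - 1) / 3 ^ (m + 1) * Lg := by
    rw [← li_eq hESZ s τ]
    ring
  rw [e1] at u1
  rw [e2] at c0
  rw [e3]
  linarith

end Pool.Agent.PTK
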