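import Pool.Agent.PTK.StZ2

/-!
# PTK_CNM: the pairs and the law

`Prs α β` says that `r ↦ (α r, β r)` is an enumeration of the pairs `i < j` of `Fin l`; such an enumeration exists, since
the set of these pairs is finite. For `i < j` only the index `r` with `(α r, β r) = (i, j)` contributes to
`altZ α β M i j`, which is therefore `M r`, and `altZ α β M j i = - M r`, `altZ α β M i i = 0`
(no `r` has `α r = β r`). A matrix with `A i j = - A j i` over the field with three elements has zero diagonal, and is
determined by its entries above the diagonal, so `M ↦ altZ α β M` is a bijection of `Fin N → ZMod 3` onto the matrices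
with `Aᵀ = - A`; the number of these is `3 ^ N`, and the average over them is the average over the `M`.
-/

set_option autoImplicit false

open NumberField IsDedekindDomain Finset
open scoped nonZeroDivisors Pointwise

namespace Pool.Agent.PTK

open Pool.Agent.Lib_helper18 Pool.Agent.Lib_helper18.Eis Pool.Agent.Lib_helper84.Cub
open Pool.Agent.PT Pool.Agent.PTE Pool.Agent.PT3 Pool.Agent.PTL Pool.Agent.PTN

namespace CNM

variable {l N : ℕ} {α β : Fin N → Fin l}

/-- the entries of the matrix at an enumerated pair -/
theorem altZ_pos (h : Prs α β) (M : Fin N → ZMod 3) (r : Fin N) :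
    altZ α β M (α r) (β r) = M r := by
  classical
  unfold altZ
  have h1 : (∑ s, if α s = α r ∧ β s = β r then M s else 0) = M r := by
    rw [Finset.sum_eq_single r]
    · simp
    · intro s _ hs
      rw [if_neg]
      rintro ⟨h1, h2⟩
      exact hs (h.inj s r h1 h2)
    · intro hr
      exact absurd (Finset.mem_univ r) hr
  have h2 : (∑ s, if α s = β r ∧ β s = α r then M s else 0) = 0 := by
    apply Finset.sum_eq_zero
    intro s _
    rw [if_neg]
    rintro ⟨h1, h2⟩
    have h3 := h.lt s
    have h4 := h.lt r
    rw [h1, h2] at h3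
    exact lt_asymm h3 h4
  rw [h1, h2, sub_zero]

/-- the matrix is antisymmetric -/
theorem altZ_anti (M : Fin N → ZMod 3) (i j : Fin l) : altZ α β M i j = - altZ α β M j i := by
  unfold altZ
  ring

/-- the diagonal of an antisymmetric matrix over the field with three elements is zero -/
theorem zero_of_neg {a : ZMod 3} (h : a = -a) : a = 0 := by
  revert h
  revert a
  decide

/-- an antisymmetric matrix is determined by its entries at the enumerated pairs -/
theorem altZ_of (h : Prs α β) (A : Matrix (Fin l) (Fin l) (ZMod 3))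
    (hA : ∀ i j, A i j = - A j i) : altZ α β (fun r => A (α r) (β r)) = A := by
  ext i j
  rcases lt_trichotomy i j with hij | hij | hij
  · obtain ⟨r, h1, h2⟩ := h.sur i j hij
    have h3 := altZ_pos h (fun r => A (α r) (β r)) r
    rw [h1, h2] at h3
    exact h3
  · subst hij
    rw [zero_of_neg (altZ_anti _ i i), zero_of_neg (hA i i)]
  · obtain ⟨r, h1, h2⟩ := h.sur j i hij
    have h3 := altZ_pos h (fun r => A (α r) (β r)) r
    rw [h1, h2] at h3
    rw [altZ_anti, h3, ← hA i j]

/-- the bijection of the entries and the antisymmetric matrices -/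
noncomputable def eqz (h : Prs α β) :
    (Fin N → ZMod 3) ≃ {M : Matrix (Fin l) (Fin l) (ZMod 3) // M.transpose = -M} where
  toFun M := ⟨altZ α β M, by
    ext i j
    rw [Matrix.transpose_apply, Matrix.neg_apply, altZ_anti]⟩
  invFun A := fun r => A.1 (α r) (β r)
  left_inv M := by
    funext r
    exact altZ_pos h M r
  right_inv A := by
    apply Subtype.ext
    apply altZ_of h A.1
    intro i j
    have h1 := congrFun (congrFun A.2 j) i
    rw [Matrix.transpose_apply, Matrix.neg_apply] at h1
    exact h1

/-- an enumeration of the pairs exists -/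
theorem exPrs (l : ℕ) : ∃ (N : ℕ) (α β : Fin N → Fin l), Prs α β := by
  classical
  obtain ⟨N, ⟨e⟩⟩ := Finite.exists_equiv_fin {p : Fin l × Fin l // p.1 < p.2}
  refine ⟨N, fun r => (e.symm r).1.1, fun r => (e.symm r).1.2, ?_, ?_, ?_⟩
  · intro r
    exact (e.symm r).2
  · intro r r' h1 h2
    exact e.symm.injective (Subtype.ext (Prod.ext h1 h2))
  · intro i j hij
    refine ⟨e ⟨(i, j), hij⟩, ?_, ?_⟩ <;> simp

end CNM

/-- PTK_CNM. -/
theorem CNM_thm : Stmt_CNM := by
  refine ⟨CNM.exPrs, ?_⟩
  intro l N α β h
  refine ⟨fun A hA => CNM.altZ_of h A hA, ?_⟩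
  intro g
  unfold Esk
  have h1 : (∑ᶠ M : {M : Matrix (Fin l) (Fin l) (ZMod 3) // M.transpose = -M},
      g (l - M.1.rank)) = ∑ M : Fin N → ZMod 3, g (l - (altZ α β M).rank) := by
    rw [← finsum_comp_equiv (CNM.eqz h), finsum_eq_sum_of_fintype]
    rfl
  have h2 : Nat.card {M : Matrix (Fin l) (Fin l) (ZMod 3) // M.transpose = -M} = 3 ^ N := by
    rw [← Nat.card_congr (CNM.eqz h), Nat.card_eq_fintype_card]
    simp
  rw [h1, h2]
  push_cast
  rfl

end Pool.Agent.PTK
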