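import Pool.Agent.PTK.StC
import Pool.Agent.PTN.CLN
import Pool.Agent.PTL.CL
import Pool.Agent.PT.BFINA
import Pool.Agent.PT.FINA

/-!
# The average rank of prime twists: the corank and its distribution
-/

set_option autoImplicit false

open NumberField IsDedekindDomain Finset
open scoped nonZeroDivisors Pointwise

namespace Pool.Agent.PTK

open Pool.Agent.Lib_helper18 Pool.Agent.Lib_helper18.Eis Pool.Agent.Lib_helper84.Cub
open Pool.Agent.PT Pool.Agent.PTE Pool.Agent.PT3 Pool.Agent.PTL Pool.Agent.PTN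

/-- PTK_CRK: the corank as a function of `B`, and its distribution. -/
theorem CRK_thm (hNBAS : Stmt_NBAS) (hESYT : ESYT) (hDCOT : DCOT) (hCLSC : CLSC)
    (hNBW : Stmt_NBW) (hBDG : Stmt_BDG) (hTENT : TENT) (hNADT : Stmt_NADT)
    (hWGR : Stmt_WGR) : Stmt_CRK := by
  classical
  intro h n m k π p e r f w0 c hNF hh
  have hn0 : 0 < n := PT.FINA.pos_of_nf hNF
  have hN0 : 0 < 3 ^ h * n := Nat.mul_pos (pow_pos (by norm_num) _) hn0
  have hBB : ∀ E q : ℕ, BB h n E q = ((3 ^ h * n : ℕ) : ℤ) * (q : ℤ) ^ E := by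
    intro E q
    unfold BB
    push_cast
    ring
  obtain ⟨s, τ', b, X, Y, hs, hAdN, hV, hind, h3, hLam, hspan⟩ :=
    hNBAS h n m k π p e r f w0 c hNF hh
  have hAdC : ∀ i, AdC h n π w0 c (b i) := fun i => (hAdN i).1
  have hb0 : ∀ i, b i ≠ 0 := fun i => (hAdC i).ne
  obtain ⟨P, Q, P', Q', hSys, hSw⟩ := hESYT h n m k π p e r f w0 c s b hNF hAdC hV hind h3
  rw [← hs]
  -- the conductor
  have hD : ∀ j i : Fin s, ∃ f₀ : ℕ, 0 < f₀ ∧ (j ≠ i → ∀ f : ℕ, 0 < f → f₀ ∣ f →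
      ∃ (C : ZMod 3) (Φ : (ZMod f)ˣ →* Multiplicative (ZMod 3)),
        ∀ (E q : ℕ) (hQ : q.Coprime f), q.Prime → q % 3 = 2 →
          AG (BB h n E q) (b i) →
          ∀ r : ℤ, (q : ℤ) ∣ r ^ 3 - b j →
            OT (BB h n E q) (b j) (X j) (Y j) (b i) (P j i) (Q j i) (P' j i) (Q' j i) =
            C + E * ((Φ (ZMod.unitOfCoprime q hQ)).toAdd -
              TAUV q (P j i) (Q j i) (P' j i) (Q' j i) r)) := by
    intro j i
    by_cases hji : j = i
    · exact ⟨1, one_pos, fun h => absurd hji h⟩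
    · obtain ⟨f₀, h0, h1⟩ := hDCOT (3 ^ h * n) (b j) (X j) (Y j) (b i) (P j i) (Q j i) (P' j i)
        (Q' j i) hN0 (hSys.sol j i hji) (hb0 j) (hb0 i)
      refine ⟨f₀, h0, fun _ f hf hd => ?_⟩
      obtain ⟨C, Φ, h2⟩ := h1 f hf hd
      refine ⟨C, Φ, fun E q hQ hq hq3 hAG r hr => ?_⟩
      rw [hBB] at hAG ⊢
      exact h2 E q hQ hq hq3 hAG r hr
  choose F0 hF0 hF1 using hD
  obtain ⟨F, hFpos, hF9, hpF, hFd⟩ : ∃ F : ℕ, 0 < F ∧ 9 ∣ F ∧ (∀ i, p i ∣ F) ∧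
      ∀ j i, F0 j i ∣ F := by
    refine ⟨9 * (∏ i, p i) * ∏ j, ∏ i, F0 j i, ?_, ?_, ?_, ?_⟩
    · have h1 : 0 < ∏ i, p i := Finset.prod_pos fun i _ => (hNF.pp i).pos
      have h2 : 0 < ∏ j, ∏ i, F0 j i :=
        Finset.prod_pos fun j _ => Finset.prod_pos fun i _ => hF0 j i
      positivity
    · exact Dvd.dvd.mul_right (Dvd.intro _ rfl) _
    · intro i
      exact Dvd.dvd.mul_right (Dvd.dvd.mul_left (Finset.dvd_prod_of_mem p (mem_univ i)) _) _
    · intro j i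
      exact Dvd.dvd.mul_left ((Finset.dvd_prod_of_mem (fun i => F0 j i) (mem_univ i)).trans
        (Finset.dvd_prod_of_mem (fun j => ∏ i, F0 j i) (mem_univ j))) _
  have hC : ∀ j i : Fin s, ∃ (C : ZMod 3) (Φ : (ZMod F)ˣ →* Multiplicative (ZMod 3)),
      j ≠ i → ∀ (E q : ℕ) (hQ : q.Coprime F), q.Prime → q % 3 = 2 →
          AG (BB h n E q) (b i) →
          ∀ r : ℤ, (q : ℤ) ∣ r ^ 3 - b j →
            OT (BB h n E q) (b j) (X j) (Y j) (b i) (P j i) (Q j i) (P' j i) (Q' j i) =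
            C + E * ((Φ (ZMod.unitOfCoprime q hQ)).toAdd -
              TAUV q (P j i) (Q j i) (P' j i) (Q' j i) r) := by
    intro j i
    by_cases hji : j = i
    · exact ⟨0, 1, fun h => absurd hji h⟩
    · obtain ⟨C, Φ, h⟩ := hF1 j i hji F hFpos (hFd j i)
      exact ⟨C, Φ, fun _ => h⟩
  choose C Φ hC using hC
  obtain ⟨κ, hκ1, hκ2⟩ := hCLSC m π p hNF.pp hNF.p1 hNF.pπ hNF.pinj F hFpos hF9 hpF
  let Φ' : (ZMod F)ˣ →* Multiplicative (Fin s → Fin s → ZMod 3) := PT.FINA.assemble Φ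
  obtain ⟨M, hM⟩ : ∃ M, M = n + F := ⟨_, rfl⟩
  -- the matrix
  have hmat : ∀ (E q : ℕ), (E = 1 ∨ E = 2) → q.Prime → M < q → q % 3 = 2 → InCT E π w0 c q →
      (CubeRank.GenBy (BB h n E q)
          (Nat.log 3 (Nat.card (WqS h n π p e r w0 c (BB h n E q))) +
            (s - (MaT b X Y P Q P' Q' (BB h n E q)).rank)) ∧
        ∃ d : ℕ, Nat.card (WqS h n π p e r w0 c (BB h n E q)) = 3 ^ d) ∧
      ∃ hQ : q.Coprime F, ∀ τ : Fin s → Fin s → ZMod 3,
        (∀ j i, j ≠ i → ∀ r : ℤ, (q : ℤ) ∣ r ^ 3 - b j →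
          τ j i = TAUV q (P j i) (Q j i) (P' j i) (Q' j i) r) →
        MaT b X Y P Q P' Q' (BB h n E q) = alt fun j i =>
          C j i + E * ((Φ j i (ZMod.unitOfCoprime q hQ)).toAdd - τ j i) := by
    intro E q hE hq hqM hq3 hIn
    have hF9' : 9 ≤ F := Nat.le_of_dvd hFpos hF9
    have hqn : ¬ q ∣ n := fun h => by
      have := Nat.le_of_dvd hn0 h
      omega
    have hQ : q.Coprime F := by
      rw [Nat.Prime.coprime_iff_not_dvd hq]
      intro h
      have := Nat.le_of_dvd hFpos h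
      omega
    obtain ⟨hBG, hTy, hiff⟩ := hNADT h n m k π p e r f w0 c E q hNF hh hE hq hq3 hIn hqn
    have hAG : ∀ i, AG (BB h n E q) (b i) := fun i =>
      ((hiff (b i) (hAdC i).supp).1 (hAdN i)).1
    have hgen := hNBW h n m k π p e r f w0 c s τ' b X Y P Q P' Q' E q hNF hh hAdN hSys hSw hLam
      hspan hE hq (by omega) hq3 hIn hqn
    have hcard := (hWGR h n m k π p e r f w0 c E q hNF hh hE hq (by omega) hq3 hIn hqn).1
    refine ⟨⟨hgen, hcard⟩, hQ, ?_⟩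
    intro τ hτ
    have hent : ∀ j i, j ≠ i → MaT b X Y P Q P' Q' (BB h n E q) j i =
        C j i + E * ((Φ j i (ZMod.unitOfCoprime q hQ)).toAdd - τ j i) := by
      intro j i hji
      obtain ⟨ρ, hρ⟩ := BFINA.exists_root hq hq3 (b j)
      rw [MaT, if_neg hji, hC j i hji E q hQ hq hq3 (hAG i) ρ hρ, ← hτ j i hji ρ hρ]
    have hanti := (hTENT s τ' b X Y P Q P' Q' (BB h n E q) hSys hSw hBG hAG (hLam _ hTy) hb0).1
    ext j i
    rw [alt]
    rcases lt_trichotomy j i with h | h | h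
    · rw [if_pos h, hent j i h.ne]
    · subst h
      rw [if_neg (lt_irrefl _), if_neg (lt_irrefl _), MaT, if_pos rfl]
    · rw [if_neg (not_lt.2 h.le), if_pos h, hanti j i, hent i j h.ne]
  refine ⟨fun B => s - (MaT b X Y P Q P' Q' B).rank, fun B => Nat.sub_le _ _,
    ⟨M, fun E q hE hq hqM hq3 hIn => (hmat E q hE hq hqM hq3 hIn).1⟩, ?_⟩
  intro t
  obtain ⟨K, hK⟩ := hBDG s b P Q P' Q' F m t κ (Fin.cons w0 c) C Φ' hSys hFpos hF9 hκ2
  refine ⟨K + 2 * (2 * ((Finset.range (M + 1)).card : ℝ)), fun σ h1 hσ2 => ?_⟩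
  have hB := hK σ h1 hσ2
  have hsub1 : ∀ q : ℕ, q.Prime → M < q → q ∈ {q : ℕ | q % 3 = 2 ∧ InCT 1 π w0 c q ∧
        t ≤ s - (MaT b X Y P Q P' Q' (BB h n 1 q)).rank} →
      q ∈ SP b P Q P' Q' t κ (Fin.cons w0 c) C Φ' := by
    intro q hq hqM ⟨hq3, hIn, hrr⟩
    obtain ⟨hgen, hQ, hm⟩ := hmat 1 q (Or.inl rfl) hq hqM hq3 hIn
    refine ⟨hQ, hq3, ?_, ?_⟩
    · rw [hκ1]
      funext i
      refine Fin.cases ?_ (fun i => ?_) i
      · rw [Fin.cons_zero, Fin.cons_zero]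
        have h5 := hIn.1
        rw [pow_one] at h5
        exact h5
      · rw [Fin.cons_succ, Fin.cons_succ]
        have h5 := hIn.2 i
        rw [Nat.cast_one, one_mul] at h5
        exact h5
    · intro τ hτ
      have e1 : (fun j i => C j i + ((1 : ℕ) : ZMod 3) *
          ((Φ j i (ZMod.unitOfCoprime q hQ)).toAdd - τ j i)) =
          C + (Φ' (ZMod.unitOfCoprime q hQ)).toAdd - τ := by
        funext j i
        show C j i + ((1 : ℕ) : ZMod 3) * ((Φ j i (ZMod.unitOfCoprime q hQ)).toAdd - τ j i) =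
          C j i + (Φ j i (ZMod.unitOfCoprime q hQ)).toAdd - τ j i
        rw [Nat.cast_one]
        ring
      rw [← e1, ← hm τ hτ]
      exact hrr
  have hsub2 : ∀ q : ℕ, q.Prime → M < q → q ∈ {q : ℕ | q % 3 = 2 ∧ InCT 2 π w0 c q ∧
        t ≤ s - (MaT b X Y P Q P' Q' (BB h n 2 q)).rank} →
      q ∈ SM b P Q P' Q' t κ (Fin.cons w0 c) C Φ' := by
    intro q hq hqM ⟨hq3, hIn, hrr⟩
    obtain ⟨hgen, hQ, hm⟩ := hmat 2 q (Or.inr rfl) hq hqM hq3 hIn
    refine ⟨hQ, hq3, ?_, ?_⟩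
    · rw [hκ1]
      funext i
      refine Fin.cases ?_ (fun i => ?_) i
      · rw [Fin.cons_zero, Pi.neg_apply, Fin.cons_zero]
        have h5 := hIn.1
        rw [CL.wt_sq2 hq3] at h5
        exact CLN.neg_of_two h5
      · rw [Fin.cons_succ, Pi.neg_apply, Fin.cons_succ]
        exact CLN.neg_of_two (hIn.2 i)
    · intro τ hτ
      have e1 : (fun j i => C j i + ((2 : ℕ) : ZMod 3) *
          ((Φ j i (ZMod.unitOfCoprime q hQ)).toAdd - τ j i)) =
          C - (Φ' (ZMod.unitOfCoprime q hQ)).toAdd + τ := by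
        funext j i
        show C j i + ((2 : ℕ) : ZMod 3) * ((Φ j i (ZMod.unitOfCoprime q hQ)).toAdd - τ j i) =
          C j i - (Φ j i (ZMod.unitOfCoprime q hQ)).toAdd + τ j i
        rw [show ((2 : ℕ) : ZMod 3) = -1 from by decide]
        ring
      rw [← e1, ← hm τ hτ]
      exact hrr
  have i1 := CL.sm_le_add _ _ M hsub1 h1
  have i2 := CL.sm_le_add _ _ M hsub2 h1
  unfold LI
  linarith

end Pool.Agent.PTK
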