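import Pool.Agent.PTK.StK
import Pool.Agent.PTL.CL

/-!
# The average of `3^r` for prime twists: the density of the corank, `q = 2 (mod 3)` (helper28)
-/

set_option autoImplicit false

open NumberField IsDedekindDomain Finset
open scoped nonZeroDivisors Pointwise

namespace Pool.Agent.PTK

open Pool.Agent.Lib_helper18 Pool.Agent.Lib_helper18.Eis Pool.Agent.Lib_helper84.Cub
open Pool.Agent.PT Pool.Agent.PTE Pool.Agent.PT3 Pool.Agent.PTL Pool.Agent.PTN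

/-- PTK_CT0: the density of the corank. -/
theorem CT0_thm (hCLSC : CLSC) (hMSP : Stmt_MSP) (hBDG : Stmt_BDG) : Stmt_CT0 := by
  intro h n m k π p e r f w0 c s τ b X Y P Q P' Q' hNF hh hPl t
  obtain ⟨f₀, hf₀, hM⟩ := hMSP h n m k π p e r f w0 c s τ b X Y P Q P' Q' hNF hh hPl
  obtain ⟨F, hFpos, hF9, hpF, hFd⟩ : ∃ F : ℕ, 0 < F ∧ 9 ∣ F ∧ (∀ i, p i ∣ F) ∧ f₀ ∣ F := by
    refine ⟨9 * (∏ i, p i) * f₀, ?_, ?_, ?_, Dvd.intro_left _ rfl⟩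
    · have h1 : 0 < ∏ i, p i := Finset.prod_pos fun i _ => (hNF.pp i).pos
      positivity
    · exact Dvd.dvd.mul_right (Dvd.intro _ rfl) _
    · intro i
      exact Dvd.dvd.mul_right (Dvd.dvd.mul_left (Finset.dvd_prod_of_mem p (mem_univ i)) _) _
  obtain ⟨κ, hκ1, hκ2⟩ := hCLSC m π p hNF.pp hNF.p1 hNF.pπ hNF.pinj F hFpos hF9 hpF
  obtain ⟨C, Φ, N₀, hS⟩ := hM F hFpos hFd κ hκ1
  obtain ⟨K, hK⟩ := hBDG s b P Q P' Q' F m t κ (Fin.cons w0 c) C Φ hPl.sys hFpos hF9 hκ2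
  refine ⟨K + 2 * (2 * ((Finset.range (N₀ + 1)).card : ℝ)), fun σ h1 hσ2 => ?_⟩
  have hB := hK σ h1 hσ2
  have i1 := CL.sm_le_add {q | (q % 3 = 2 ∧ InCT 1 π w0 c q) ∧ t ≤ kS h n b X Y P Q P' Q' 1 q}
    (SP b P Q P' Q' t κ (Fin.cons w0 c) C Φ) N₀
    (fun q hq hqN hqS => (hS q t hq hqN hqS.1.1).1 hqS.1.2 hqS.2) h1
  have i2 := CL.sm_le_add {q | (q % 3 = 2 ∧ InCT 2 π w0 c q) ∧ t ≤ kS h n b X Y P Q P' Q' 2 q}
    (SM b P Q P' Q' t κ (Fin.cons w0 c) C Φ) N₀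
    (fun q hq hqN hqS => (hS q t hq hqN hqS.1.1).2 hqS.1.2 hqS.2) h1
  have h2 : (NK s t : ℝ) / Nat.card (Fin s → Fin s → ZMod 3) / 3 ^ (m + 1) =
      1 / 3 ^ (m + 1) * LI s t := by
    unfold LI
    ring
  rw [h2] at hB
  linarith

end Pool.Agent.PTK
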