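import Pool.Agent.PTK.StK
import Pool.Agent.PTL.CL

/-!
# PTK_CTJ: the joint density of the class of a point and the corank of the plus part
-/

set_option autoImplicit false

open NumberField IsDedekindDomain Finset
open scoped nonZeroDivisors Pointwise

namespace Pool.Agent.PTK

open Pool.Agent.Lib_helper18 Pool.Agent.Lib_helper18.Eis Pool.Agent.Lib_helper84.Cub
open Pool.Agent.PT Pool.Agent.PTE Pool.Agent.PT3 Pool.Agent.PTL Pool.Agent.PTN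

/-- PTK_CTJ. -/
theorem CTJ_thm (hCLSC : CLSC) (hSYK : Stmt_SYK) (hMSP : Stmt_MSP) (hMSK : Stmt_MSK)
    (hBDJ : Stmt_BDJ) : Stmt_CTJ := by
  classical
  intro h n m k π p e r f w0 c s τ b X Y P Q P' Q' hNF hh hPl y hy l u hu hind t
  obtain ⟨R, S, R', S', hSys, hHyp⟩ := hSYK h n m k π p e r f w0 c hNF hh y hy l u hu hind
  obtain ⟨f₁, hf1, h1⟩ := hMSP h n m k π p e r f w0 c s τ b X Y P Q P' Q' hNF hh hPl
  obtain ⟨f₂, hf2, h2⟩ := hMSK h n m k π p e r f w0 c hNF hh y hy l u R S R' S' hu hSys hHyp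
  obtain ⟨F, hFpos, hF9, hpF, hd1, hd2⟩ : ∃ F : ℕ, 0 < F ∧ 9 ∣ F ∧ (∀ i, p i ∣ F) ∧
      f₁ ∣ F ∧ f₂ ∣ F := by
    refine ⟨9 * (∏ i, p i) * (f₁ * f₂), ?_, ?_, ?_, ?_, ?_⟩
    · have h3 : 0 < ∏ i, p i := Finset.prod_pos fun i _ => (hNF.pp i).pos
      positivity
    · exact Dvd.dvd.mul_right (Dvd.intro _ rfl) _
    · intro i
      exact Dvd.dvd.mul_right (Dvd.dvd.mul_left (Finset.dvd_prod_of_mem p (mem_univ i)) _) _
    · exact Dvd.dvd.mul_left (Dvd.intro _ rfl) _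
    · exact Dvd.dvd.mul_left (Dvd.intro_left _ rfl) _
  obtain ⟨κ, hκ1, hκ2⟩ := hCLSC m π p hNF.pp hNF.p1 hNF.pπ hNF.pinj F hFpos hF9 hpF
  have hκ : IsK π κ := hκ1
  obtain ⟨C, Φ, N₁, h3⟩ := h1 F hFpos hd1 κ hκ
  obtain ⟨C', Φ', N₂, h4⟩ := h2 F hFpos hd2 κ hκ
  obtain ⟨K, hK⟩ := hBDJ s b P Q P' Q' l (zN π e y) (fun j => zN π e (u j)) R S R' S' F m t κ
    (Fin.cons w0 c) C Φ C' Φ' hPl.sys hSys hFpos hF9 hκ2
  obtain ⟨M, hM⟩ : ∃ M, M = N₁ + N₂ := ⟨_, rfl⟩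
  refine ⟨K + 2 * (2 * ((Finset.range (M + 1)).card : ℝ)), fun σ hσ1 hσ2 => ?_⟩
  have hB := hK σ hσ1 hσ2
  have i1 := CL.sm_le_add {q | q ∈ QY h n π e w0 c y 1 ∧ t ≤ kS h n b X Y P Q P' Q' 1 q}
    (SP b P Q P' Q' t κ (Fin.cons w0 c) C Φ ∩
      SPK (zN π e y) (fun j => zN π e (u j)) R S R' S' κ (Fin.cons w0 c) C' Φ') M
    (fun q hq hqM hqS => ⟨((h3 q t hq (by omega) hqS.1.1).1 hqS.1.2.1 hqS.2),
      (h4 q hq (by omega)).1 hqS.1⟩) hσ1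
  have i2 := CL.sm_le_add {q | q ∈ QY h n π e w0 c y 2 ∧ t ≤ kS h n b X Y P Q P' Q' 2 q}
    (SM b P Q P' Q' t κ (Fin.cons w0 c) C Φ ∩
      SMK (zN π e y) (fun j => zN π e (u j)) R S R' S' κ (Fin.cons w0 c) C' Φ') M
    (fun q hq hqM hqS => ⟨((h3 q t hq (by omega) hqS.1.1).2 hqS.1.2.1 hqS.2),
      (h4 q hq (by omega)).2 hqS.1⟩) hσ1
  have e1 : (1 : ℝ) / 3 ^ l / 3 ^ (m + 1) * LI s t * Real.log (1 / (σ - 1)) =
      LI s t / 3 ^ l / 3 ^ (m + 1) * Real.log (1 / (σ - 1)) := by ring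
  rw [e1]
  linarith

end Pool.Agent.PTK
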