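import Pool.Agent.PTK.StC
import Pool.Agent.PTL.CL
import Pool.Agent.PT.BFINA
import Pool.Agent.PT.FINA

/-!
# PTK_CTK: the number of the primes with a given class
-/

set_option autoImplicit false

open NumberField IsDedekindDomain Finset
open scoped nonZeroDivisors Pointwise

namespace Pool.Agent.PTK

open Pool.Agent.Lib_helper18 Pool.Agent.Lib_helper18.Eis Pool.Agent.Lib_helper84.Cub
open Pool.Agent.PT Pool.Agent.PTE Pool.Agent.PT3 Pool.Agent.PTL Pool.Agent.PTN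

namespace CTK

theorem neg_of_two {x y : ZMod 3} (h : ((2 : ℕ) : ZMod 3) * x = y) : x = -y := by
  rw [← h]
  clear h y
  revert x
  decide

theorem zero_of_mul {E : ℕ} (hE : E = 1 ∨ E = 2) {x : ZMod 3} (h : (E : ZMod 3) * x = 0) :
    x = 0 := by
  rcases hE with rfl | rfl
  · rwa [Nat.cast_one, one_mul] at h
  · rw [neg_of_two h, neg_zero]

/-- The homomorphism with given components. -/
def assemble {s F : ℕ} (Φ : Fin s → ((ZMod F)ˣ →* Multiplicative (ZMod 3))) :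
    (ZMod F)ˣ →* Multiplicative (Fin s → ZMod 3) where
  toFun := fun a => Multiplicative.ofAdd fun j => (Φ j a).toAdd
  map_one' := by
    apply Multiplicative.toAdd.injective
    funext j
    simp
  map_mul' := fun a a' => by
    apply Multiplicative.toAdd.injective
    funext j
    simp

theorem assemble_apply {s F : ℕ} (Φ : Fin s → ((ZMod F)ˣ →* Multiplicative (ZMod 3)))
    (a : (ZMod F)ˣ) (j : Fin s) : (assemble Φ a).toAdd j = (Φ j a).toAdd := rfl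

theorem nat_dvd {a b : ℕ} (h : (a : Eis) ∣ (b : Eis)) : a ∣ b := by
  have h1 : ((a : ℤ) : Eis) ∣ ((b : ℤ) : Eis) := by
    rw [Int.cast_natCast, Int.cast_natCast]
    exact h
  exact Int.natCast_dvd_natCast.1 (intCast_dvd_intCast.1 h1)

/-- the symbol at `q` vanishes -/
theorem sym_zero (hSPP : SPP) {q : ℕ} (hq : q.Prime) (hq3 : q % 3 = 2) {E N : ℕ}
    (hE : E = 1 ∨ E = 2) (hqN : ¬ q ∣ N) {z : Eis} (hz : ¬ (q : Eis) ∣ z)
    (htm : ∀ σ : PP, tm σ.1 z ((N : Eis) * (q : Eis) ^ E) = 0) : sym (q : Eis) z = 0 := by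
  obtain ⟨σ, hσ⟩ := hSPP.2.2.2.2.1 q hq hq3
  have hp : Prime (q : Eis) := hσ ▸ σ.2.1
  have hN : ¬ (q : Eis) ∣ (N : Eis) := fun h => hqN (nat_dvd h)
  have h1 := htm σ
  rw [hσ] at h1
  unfold tm at h1
  rw [V_mul_not_dvd hp hN (pow_ne_zero _ hp.ne_zero), V_pow hp hp.ne_zero, V_self,
    V_eq_zero hz, EHYP.ch_of_not_dvd hp hz, Nat.cast_zero, zero_mul, sub_zero, mul_one] at h1
  exact zero_of_mul hE h1

end CTK

open CTK in
/-- PTK_CTK. -/
theorem CTK_thm (hSPP : SPP) (hCLSC : CLSC) (hSYK : Stmt_SYK) (hDCK : Stmt_DCK) (hZS : Stmt_ZS)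
    (hPT : Stmt_PT) (hBDK : Stmt_BDK) (hZA : Stmt_ZA) : Stmt_CTK := by
  classical
  intro h n m k π p e r f w0 c hNF hh y hy s u hu hind
  have hn0 : 0 < n := PT.FINA.pos_of_nf hNF
  have hN0 : 0 < 3 ^ h * n := Nat.mul_pos (pow_pos (by norm_num) _) hn0
  have hBB : ∀ E q : ℕ, ((BB h n E q : ℤ) : Eis) = ((3 ^ h * n : ℕ) : Eis) * (q : Eis) ^ E := by
    intro E q
    unfold BB
    push_cast
    ring
  obtain ⟨P, Q, P', Q', hSys, hHyp⟩ := hSYK h n m k π p e r f w0 c hNF hh y hy s u hu hind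
  have hy0 : y ≠ 0 := by
    have h1 := hind.ne_zero 0
    rwa [Fin.cons_zero] at h1
  obtain ⟨hx0, -, -, -, -, -, -, -, -, hxc⟩ := hZA n m k π p e r f hNF y
  have hxnc : ¬ ∃ t : Eis, t ^ 3 = zN π e y := fun ht => hy0 (hxc ht)
  have hnd : ∀ (v : Fin (m + 1) → ZMod 3) (q : ℕ), q.Prime → q % 3 = 2 → ¬ q ∣ n →
      ¬ (q : Eis) ∣ zN π e v := by
    intro v q hq hq3 hqn
    obtain ⟨-, -, -, h4, -⟩ := hZA n m k π p e r f hNF v
    obtain ⟨σ, hσ⟩ := hSPP.2.2.2.2.1 q hq hq3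
    have h5 := h4 σ
    rw [hσ] at h5
    exact h5 fun h6 => hqn (nat_dvd h6)
  -- the conductor
  choose F0 hF0 hF1 using fun j => hDCK (3 ^ h * n) (zN π e (u j)) (zN π e y) (P j) (Q j) (P' j)
    (Q' j) (hHyp j)
  obtain ⟨F, hFpos, hF9, hpF, hFd⟩ : ∃ F : ℕ, 0 < F ∧ 9 ∣ F ∧ (∀ i, p i ∣ F) ∧
      ∀ j, F0 j ∣ F := by
    refine ⟨9 * (∏ i, p i) * ∏ j, F0 j, ?_, ?_, ?_, ?_⟩
    · have h1 : 0 < ∏ i, p i := Finset.prod_pos fun i _ => (hNF.pp i).pos
      have h2 : 0 < ∏ j, F0 j := Finset.prod_pos fun j _ => hF0 j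
      positivity
    · exact Dvd.dvd.mul_right (Dvd.intro _ rfl) _
    · intro i
      exact Dvd.dvd.mul_right (Dvd.dvd.mul_left (Finset.dvd_prod_of_mem p (mem_univ i)) _) _
    · intro j
      exact Dvd.dvd.mul_left (Finset.dvd_prod_of_mem F0 (mem_univ j)) _
  choose C Φ N₀ hC using fun j => hF1 j F hFpos (hFd j)
  obtain ⟨κ, hκ1, hκ2⟩ := hCLSC m π p hNF.pp hNF.p1 hNF.pπ hNF.pinj F hFpos hF9 hpF
  obtain ⟨M, hM⟩ : ∃ M, M = 3 ^ h * n + F + ∑ j, N₀ j := ⟨_, rfl⟩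
  have hMN : ∀ j, N₀ j ≤ ∑ j, N₀ j := fun j =>
    Finset.single_le_sum (f := N₀) (fun i _ => Nat.zero_le _) (mem_univ j)
  have hmain : ∀ (E q : ℕ), (E = 1 ∨ E = 2) → q.Prime → M < q → q ∈ QY h n π e w0 c y E →
      ∃ hQ : q.Coprime F, sym (q : Eis) (zN π e y) = 0 ∧
        (∀ j, sym (q : Eis) (zN π e (u j)) = 0) ∧
        ∀ (j : Fin s) (ξ : Eis), (q : Eis) ∣ ξ ^ 3 - zN π e y →
          C j + E * ((Φ j (ZMod.unitOfCoprime q hQ)).toAdd -
            TAUE q (P j) (Q j) (P' j) (Q' j) ξ) = 0 := by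
    intro E q hE hq hqM ⟨hq3, hIn, hOcc⟩
    have hqN : ¬ q ∣ 3 ^ h * n := fun h => by
      have := Nat.le_of_dvd hN0 h
      omega
    have hqn : ¬ q ∣ n := fun h => hqN (Dvd.dvd.mul_left h _)
    have hQ : q.Coprime F := by
      rw [Nat.Prime.coprime_iff_not_dvd hq]
      intro h
      have := Nat.le_of_dvd hFpos h
      omega
    have hSel : ∀ v ∈ VS h n π p e r w0 c, ∀ σ : PP,
        tm σ.1 (zN π e v) (((3 ^ h * n : ℕ) : Eis) * (q : Eis) ^ E) = 0 := by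
      intro v hv σ
      have h1 := (hZS h n m k π p e r f w0 c E q hNF hh hE hq hq3 hIn hqn v hv).sym σ
      rwa [hBB] at h1
    have hB0 : BB h n E q ≠ 0 := by
      unfold BB
      have h3 : (3 : ℤ) ^ h ≠ 0 := pow_ne_zero _ (by norm_num)
      have h4 : (n : ℤ) ≠ 0 := by exact_mod_cast hn0.ne'
      have h5 : (q : ℤ) ^ E ≠ 0 := pow_ne_zero _ (by exact_mod_cast hq.ne_zero)
      exact mul_ne_zero (mul_ne_zero h3 h4) h5
    obtain ⟨X, Y, hpt⟩ := hPT (BB h n E q) (zN π e y) hB0 hx0 hxnc hOcc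
    rw [hBB] at hpt
    refine ⟨hQ, sym_zero hSPP hq hq3 hE hqN (hnd y q hq hq3 hqn) (hSel y hy),
      fun j => sym_zero hSPP hq hq3 hE hqN (hnd (u j) q hq hq3 hqn) (hSel (u j) (hu j).1), ?_⟩
    intro j ξ hξ
    exact hC j E q hQ hE hq (by have := hMN j; omega) hq3 (hSel (u j) (hu j).1) (hSel y hy)
      X Y ξ hpt hξ
  obtain ⟨K, hK⟩ := hBDK s (zN π e y) (fun j => zN π e (u j)) P Q P' Q' F m κ (Fin.cons w0 c) C
    (assemble Φ) hSys hFpos hF9 hκ2
  refine ⟨K + 2 * (2 * ((Finset.range (M + 1)).card : ℝ)), fun σ h1 hσ2 => ?_⟩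
  have hB := hK σ h1 hσ2
  have hsub1 : ∀ q : ℕ, q.Prime → M < q → q ∈ QY h n π e w0 c y 1 →
      q ∈ SPK (zN π e y) (fun j => zN π e (u j)) P Q P' Q' κ (Fin.cons w0 c) C (assemble Φ) := by
    intro q hq hqM hqY
    obtain ⟨hQ, h2, h3, h4⟩ := hmain 1 q (Or.inl rfl) hq hqM hqY
    obtain ⟨hq3, hIn, -⟩ := hqY
    refine ⟨hQ, hq3, ?_, h2, h3, ?_⟩
    · rw [hκ1]
      funext i
      refine Fin.cases ?_ (fun i => ?_) i
      · rw [Fin.cons_zero, Fin.cons_zero]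
        have h5 := hIn.1
        rw [pow_one] at h5
        exact h5
      · rw [Fin.cons_succ, Fin.cons_succ]
        have h5 := hIn.2 i
        rw [Nat.cast_one, one_mul] at h5
        exact h5
    · intro j ξ hξ
      have h5 := h4 j ξ hξ
      rw [assemble_apply]
      rw [Nat.cast_one, one_mul] at h5
      linear_combination -h5
  have hsub2 : ∀ q : ℕ, q.Prime → M < q → q ∈ QY h n π e w0 c y 2 →
      q ∈ SMK (zN π e y) (fun j => zN π e (u j)) P Q P' Q' κ (Fin.cons w0 c) C (assemble Φ) := by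
    intro q hq hqM hqY
    obtain ⟨hQ, h2, h3, h4⟩ := hmain 2 q (Or.inr rfl) hq hqM hqY
    obtain ⟨hq3, hIn, -⟩ := hqY
    refine ⟨hQ, hq3, ?_, h2, h3, ?_⟩
    · rw [hκ1]
      funext i
      refine Fin.cases ?_ (fun i => ?_) i
      · rw [Fin.cons_zero, Pi.neg_apply, Fin.cons_zero]
        have h5 := hIn.1
        rw [CL.wt_sq2 hq3] at h5
        exact neg_of_two h5
      · rw [Fin.cons_succ, Pi.neg_apply, Fin.cons_succ]
        exact neg_of_two (hIn.2 i)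
    · intro j ξ hξ
      have h5 := h4 j ξ hξ
      rw [assemble_apply]
      rw [show ((2 : ℕ) : ZMod 3) = -1 from by decide] at h5
      linear_combination h5
  have i1 := CL.sm_le_add _ _ M hsub1 h1
  have i2 := CL.sm_le_add _ _ M hsub2 h1
  linarith

end Pool.Agent.PTK
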