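import Pool.Agent.PTK.StK
import Pool.Agent.PTL.CL
import Pool.Agent.PT.BFINA
import Pool.Agent.PT.FINA

/-!
# PTK_CTZ: the joint density for the zero pattern
-/

set_option autoImplicit false

open NumberField IsDedekindDomain Finset
open scoped nonZeroDivisors Pointwise

namespace Pool.Agent.PTK

open Pool.Agent.Lib_helper18 Pool.Agent.Lib_helper18.Eis Pool.Agent.Lib_helper84.Cub
open Pool.Agent.PT Pool.Agent.PTE Pool.Agent.PT3 Pool.Agent.PTL Pool.Agent.PTN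

namespace CTZ

/-- The symbols of a product up to cubes. -/
theorem sym_zero_of (hSPP : SPP) {d : ℕ} (v : Fin d → ℤ) (ρ : PP)
    (hv : ∀ i, ¬ ρ.1 ∣ (v i : Eis)) (hs : ∀ i, sym ρ.1 (v i : Eis) = 0) {b u t : ℤ}
    (g : Fin d → ℕ) (hb : ¬ ρ.1 ∣ (b : Eis)) (hu : ¬ ρ.1 ∣ (u : Eis)) (ht : ¬ ρ.1 ∣ (t : Eis))
    (h : b * u ^ 3 = (∏ i, v i ^ g i) * t ^ 3) : sym ρ.1 (b : Eis) = 0 := by
  classical
  have hp : Prime ρ.1 := ρ.2.1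
  have h3 : ¬ ρ.1 ∣ 3 := (hSPP.2.2.2.1 ρ).1
  have h1 : (b : Eis) * (u : Eis) ^ 3 = (∏ i, (v i : Eis) ^ g i) * (t : Eis) ^ 3 := by
    have h2 := congrArg (fun z : ℤ => (z : Eis)) h
    push_cast at h2
    exact h2
  obtain ⟨h4, h5⟩ := sym_prod_pow hp h3 (fun i => (v i : Eis)) g Finset.univ
    (fun i _ => hv i)
  have hu3 : ¬ ρ.1 ∣ (u : Eis) ^ 3 := fun h => hu (hp.dvd_of_dvd_pow h)
  have ht3 : ¬ ρ.1 ∣ (t : Eis) ^ 3 := fun h => ht (hp.dvd_of_dvd_pow h)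
  have h6 := congrArg (sym ρ.1) h1
  rw [sym_mul hp h3 hb hu3, sym_mul hp h3 h4 ht3, sym_pow hp h3 hu, sym_pow hp h3 ht, h5,
    Finset.sum_eq_zero (fun i _ => by rw [hs i, mul_zero])] at h6
  have h7 : ((3 : ℕ) : ZMod 3) = 0 := by decide
  rw [h7, zero_mul, zero_mul, add_zero, add_zero] at h6
  exact h6

end CTZ

open CTZ in
/-- PTK_CTZ. -/
theorem CTZ_thm (hSPLT : SPLT) (hSPP : SPP) (hCLSC : CLSC) (hCLSCS : CLSCS) (hPLE : Stmt_PLE)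
    (hSYK : Stmt_SYK) (hMSKU : Stmt_MSKU) (hBDJZ : Stmt_BDJZ) : Stmt_CTZ := by
  classical
  intro h n m k π p e r f w0 c d v hNF hh hHB y hy l u hu hind
  obtain ⟨s, τ, b, X, Y, P, Q, P', Q', hs, hPl⟩ := hPLE h n m k π p e r f w0 c hNF hh
  obtain ⟨P1, Q1, P1', Q1', hSys, hHyp⟩ := hSYK h n m k π p e r f w0 c hNF hh y hy l u hu hind
  obtain ⟨f₀, hf₀, hMS⟩ := hMSKU h n m k π p e r f w0 c hNF hh y hy l u P1 Q1 P1' Q1' hu hSys hHyp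
  -- the conductor
  obtain ⟨F, hFpos, hF9, hpF, hFd⟩ : ∃ F : ℕ, 0 < F ∧ 9 ∣ F ∧ (∀ i, p i ∣ F) ∧ f₀ ∣ F := by
    refine ⟨9 * (∏ i, p i) * f₀, ?_, ?_, ?_, ?_⟩
    · have h1 : 0 < ∏ i, p i := Finset.prod_pos fun i _ => (hNF.pp i).pos
      positivity
    · exact Dvd.dvd.mul_right (Dvd.intro _ rfl) _
    · intro i
      exact Dvd.dvd.mul_right (Dvd.dvd.mul_left (Finset.dvd_prod_of_mem p (mem_univ i)) _) _
    · exact Dvd.intro_left _ rfl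
  obtain ⟨κ, hκ1, hκ2⟩ := hCLSC m π p hNF.pp hNF.p1 hNF.pπ hNF.pinj F hFpos hF9 hpF
  obtain ⟨C, Φ, N₀, hC⟩ := hMS F hFpos hFd κ hκ1
  obtain ⟨K, hK⟩ := hBDJZ s b P Q P' Q' l (zN π e y) (fun j => zN π e (u j)) P1 Q1 P1' Q1' F m κ
    (Fin.cons w0 c) C Φ hPl.sys hSys hFpos hF9 (hCLSCS F m κ hFpos hF9 hκ2)
  -- the basis `b` in terms of `v`
  choose g U W hU hW hrel using fun i => hHB.2.1 (b i) (hPl.adm i)
  have hvne : ∀ i, v i ≠ 0 := fun i => (hHB.1 i).1.ne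
  have hbne : ∀ i, b i ≠ 0 := fun i => (hPl.adm i).1.ne
  obtain ⟨M, hM0, hMv, hMb, hMU, hMW⟩ : ∃ M : ℕ, N₀ ≤ M ∧ (∀ i, (v i).natAbs ≤ M) ∧
      (∀ i, (b i).natAbs ≤ M) ∧ (∀ i, (U i).natAbs ≤ M) ∧ ∀ i, (W i).natAbs ≤ M := by
    refine ⟨N₀ + ∑ i, (v i).natAbs + ∑ i, ((b i).natAbs + (U i).natAbs + (W i).natAbs), ?_, ?_,
      ?_, ?_, ?_⟩
    · omega
    · intro i
      have := Finset.single_le_sum (f := fun i => (v i).natAbs) (fun i _ => Nat.zero_le _)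
        (mem_univ i)
      omega
    all_goals
      intro i
      have := Finset.single_le_sum (f := fun i => (b i).natAbs + (U i).natAbs + (W i).natAbs)
        (fun i _ => Nat.zero_le _) (mem_univ i)
      omega
  have hnd : ∀ (q : ℕ) (z : ℤ), M < q → z ≠ 0 → z.natAbs ≤ M → ¬ (q : ℤ) ∣ z := by
    intro q z hq hz hzM hd
    have h1 := Int.natAbs_dvd_natAbs.2 hd
    have h2 := Nat.le_of_dvd (Int.natAbs_pos.2 hz) h1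
    rw [Int.natAbs_natCast] at h2
    omega
  have hZ : ∀ q : ℕ, q.Prime → M < q → q % 3 = 1 → q ∈ ZP v → q ∈ ZP b := by
    intro q hq hqM hq3 hqv ρ hρ i
    obtain ⟨-, -, -, hdv, -, -⟩ := hSPLT.2 q ρ hq hq3 hρ
    have hn : ∀ z : ℤ, z ≠ 0 → z.natAbs ≤ M → ¬ ρ.1 ∣ (z : Eis) := fun z hz hzM h1 =>
      hnd q z hqM hz hzM ((hdv z).1 h1)
    exact sym_zero_of hSPP v ρ (fun j => hn _ (hvne j) (hMv j)) (hqv ρ hρ) (g i)
      (hn _ (hbne i) (hMb i)) (hn _ (hU i) (hMU i)) (hn _ (hW i) (hMW i)) (hrel i)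
  refine ⟨K + 2 * (2 * ((Finset.range (M + 1)).card : ℝ)), fun σ h1 hσ2 => ?_⟩
  have hB := hK σ h1 hσ2
  have hsub1 : ∀ q : ℕ, q.Prime → M < q → q ∈ {q | q ∈ QYU h n π e w0 c y 1 ∧ q ∈ ZP v} →
      q ∈ ZP b ∩ SPKU (zN π e y) (fun j => zN π e (u j)) P1 Q1 P1' Q1' κ (Fin.cons w0 c) C Φ :=
    fun q hq hqM hqY => ⟨hZ q hq hqM hqY.1.1 hqY.2, (hC q hq (by omega)).1 hqY.1⟩
  have hsub2 : ∀ q : ℕ, q.Prime → M < q → q ∈ {q | q ∈ QYU h n π e w0 c y 2 ∧ q ∈ ZP v} →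
      q ∈ ZP b ∩ SMKU (zN π e y) (fun j => zN π e (u j)) P1 Q1 P1' Q1' κ (Fin.cons w0 c) C Φ :=
    fun q hq hqM hqY => ⟨hZ q hq hqM hqY.1.1 hqY.2, (hC q hq (by omega)).2 hqY.1⟩
  have i1 := CL.sm_le_add _ _ M hsub1 h1
  have i2 := CL.sm_le_add _ _ M hsub2 h1
  rw [← hs]
  linarith

end Pool.Agent.PTK
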