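import Pool.Agent.PTK.StK
import Pool.Agent.PTL.CL

/-!
# CU0 (helper9): the density of the corank, `q = 1 (mod 3)`, generic pattern
-/

set_option autoImplicit false

open NumberField IsDedekindDomain Finset
open scoped nonZeroDivisors Pointwise

namespace Pool.Agent.PTK

open Pool.Agent.Lib_helper18 Pool.Agent.Lib_helper18.Eis Pool.Agent.Lib_helper84.Cub
open Pool.Agent.PT Pool.Agent.PTE Pool.Agent.PT3 Pool.Agent.PTL Pool.Agent.PTN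

/-- CU0: the density of the corank. -/
theorem CU0_thm (hCLSC : CLSC) (hCLSCS : CLSCS) (hMSPU : Stmt_MSPU) (hBDU : Stmt_BDU) :
    Stmt_CU0 := by
  intro h n m k π p e r f w0 c d v δ s τ b X Y P Q P' Q' hNF hh hδ hPl t
  obtain ⟨f₀, hf₀, hM⟩ := hMSPU h n m k π p e r f w0 c d v δ s τ b X Y P Q P' Q' hNF hh hδ hPl
  obtain ⟨F, hF, h9, hpF, hfF⟩ : ∃ F : ℕ, 0 < F ∧ 9 ∣ F ∧ (∀ i, p i ∣ F) ∧ f₀ ∣ F := by
    refine ⟨9 * (∏ i, p i) * f₀, ?_, ?_, ?_, ?_⟩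
    · have h1 : 0 < ∏ i, p i := Finset.prod_pos fun i _ => (hNF.pp i).pos
      positivity
    · exact Dvd.dvd.mul_right (Dvd.intro _ rfl) _
    · intro i
      exact Dvd.dvd.mul_right (Dvd.dvd.mul_left (Finset.dvd_prod_of_mem p (mem_univ i)) _) _
    · exact Dvd.intro_left _ rfl
  obtain ⟨κ, hκ, hcount⟩ := hCLSC m π p hNF.pp hNF.p1 hNF.pπ hNF.pinj F hF h9 hpF
  have hcount' := hCLSCS F m κ hF h9 hcount
  obtain ⟨C, Φ, N₀, hN₀⟩ := hM F hF hfF κ hκ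
  obtain ⟨K, hK⟩ := hBDU s b P Q P' Q' F m t κ (Fin.cons w0 c) C Φ hPl.sys hF h9 hcount'
  refine ⟨K + 2 * (2 * ((Finset.range (N₀ + 1)).card : ℝ)), fun σ h1 hσ2 => ?_⟩
  have hB := hK σ h1 hσ2
  have i1 := CL.sm_le_add
    {q | (q % 3 = 1 ∧ InCT 1 π w0 c q ∧ q ∈ Pat v δ) ∧ t ≤ kU h n b X Y P Q P' Q' 1 q}
    (SPU b P Q P' Q' t κ (Fin.cons w0 c) C Φ) N₀
    (fun q hq hqN hqS => (hN₀ q t hq hqN hqS.1.1 hqS.1.2.2).1 hqS.1.2.1 hqS.2) h1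
  have i2 := CL.sm_le_add
    {q | (q % 3 = 1 ∧ InCT 2 π w0 c q ∧ q ∈ Pat v δ) ∧ t ≤ kU h n b X Y P Q P' Q' 2 q}
    (SMU b P Q P' Q' t κ (Fin.cons w0 c) C Φ) N₀
    (fun q hq hqN hqS => (hN₀ q t hq hqN hqS.1.1 hqS.1.2.2).2 hqS.1.2.1 hqS.2) h1
  have e2 : (2 / 3 ^ d / 3 ^ (m + 1) * LI s t : ℝ) =
      2 / 3 ^ (s + 1) * ((NK s t : ℝ) / Nat.card (Fin s → Fin s → ZMod 3)) / 3 ^ (m + 1) := by
    rw [← hPl.dim, LI]
    ring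
  rw [e2]
  linarith

end Pool.Agent.PTK
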