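import Pool.Agent.PTK.StK
import Pool.Agent.PTN.CLU

/-!
# The density of the zero pattern
-/

set_option autoImplicit false

open NumberField IsDedekindDomain Finset
open scoped nonZeroDivisors Pointwise

namespace Pool.Agent.PTK

open Pool.Agent.Lib_helper18 Pool.Agent.Lib_helper18.Eis Pool.Agent.Lib_helper84.Cub
open Pool.Agent.PT Pool.Agent.PTE Pool.Agent.PT3 Pool.Agent.PTL Pool.Agent.PTN

open Pool.Agent.PTN.CLU BDENS in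
/-- PTK_CZ0: the density of the zero pattern. -/
theorem CZ0_thm (hSPLT : SPLT) (hCLT : Stmt_CLT) (hSMT : Stmt_SMT) (hDLL : Stmt_DLL) :
    Stmt_CZ0 := by
  classical
  intro h n m k π p e r f w0 c d V hNF hh hHB
  have hAd := hHB.1
  have hL := hDLL h n m k π p e r f w0 c d V hNF hh hHB
  obtain ⟨M, hM⟩ : ∃ M, M = ∑ i, (V i).natAbs := ⟨_, rfl⟩
  have hV : ∀ q : ℕ, M < q → ∀ i, ¬ (q : ℤ) ∣ V i := by
    intro q hq i hdv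
    have h1 : q ∣ (V i).natAbs := Int.natCast_dvd.1 hdv
    have h2 := Nat.le_of_dvd (Int.natAbs_pos.2 (hAd i).1.ne) h1
    have h3 : (V i).natAbs ≤ ∑ i, (V i).natAbs :=
      Finset.single_le_sum (f := fun i => (V i).natAbs) (fun i _ => Nat.zero_le _)
        (Finset.mem_univ i)
    omega
  obtain ⟨x, hx⟩ : ∃ x : ℕ → Fin d → ZMod 3, ∀ q : ℕ, q.Prime → M < q → q % 3 = 1 → ∀ δ,
      q ∈ Pat V δ ↔ δ = x q ∨ δ = - x q := by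
    refine ⟨fun q => if hx : ∃ ρ : PP, (q : Eis) = ρ.1 * conj ρ.1 then
      fun i => sym hx.choose.1 (V i : Eis) else 0, fun q hq hMq h1 δ => ?_⟩
    have hex := hSPLT.1 q hq h1
    simp only [dif_pos hex]
    exact pat_iff hSPLT V hq h1 (hV q hMq) hex.choose_spec δ
  have hc : ∀ E t' : ℕ, _ := fun E t' => comb hSMT M (WR h n π w0 c 1 E t') (Pat V) x
    fun q hq hMq hW => hx q hq hMq hW.1
  obtain ⟨KB1, hB1⟩ := (hc 1 0).2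
  obtain ⟨KB2, hB2⟩ := (hc 2 0).2
  choose KL hKL using fun δ : {δ : Fin d → ZMod 3 // δ ≠ 0} => hL δ.1 δ.2
  obtain ⟨KC, hKC⟩ := hCLT m π p hNF.pp hNF.p1 hNF.pπ hNF.pinj w0 c 1 (Or.inl rfl)
  have hWset : ∀ E : ℕ, {q : ℕ | q % 3 = 1 ∧ InCT E π w0 c q} = WR h n π w0 c 1 E 0 := by
    intro E
    ext q
    simp [WR]
  rw [hWset 1, hWset 2] at hKC
  have hZ : ∀ E : ℕ, ∃ K : ℝ, ∀ σ : ℝ, 1 < σ →
      sm {q | q % 3 = 1 ∧ InCT E π w0 c q ∧ q ∈ ZP V} σ ≤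
        sm (WR h n π w0 c 1 E 0 ∩ Pat V 0) σ + K := by
    intro E
    apply sm_le _ _ 0
    rintro q hq - ⟨h1, h2, h3⟩
    refine ⟨⟨h1, h2, Nat.zero_le _⟩, ?_⟩
    obtain ⟨ρ, hρ⟩ := hSPLT.1 q hq h1
    exact ⟨ρ, hρ, 1, one_ne_zero, fun i => by rw [h3 ρ hρ i]; simp⟩
  obtain ⟨KZ1, hZ1⟩ := hZ 1
  obtain ⟨KZ2, hZ2⟩ := hZ 2
  have hNZ : ∀ E : ℕ, ∀ σ : ℝ, 1 < σ → sm (WR h n π w0 c 1 E 0 \ Pat V 0) σ +
      sm (WR h n π w0 c 1 E 0 ∩ Pat V 0) σ ≤ sm (WR h n π w0 c 1 E 0) σ := by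
    intro E σ hσ
    have h1 := sm_add_le (WR h n π w0 c 1 E 0 \ Pat V 0) (WR h n π w0 c 1 E 0 ∩ Pat V 0)
      (WR h n π w0 c 1 E 0) ∅ (fun q _ _ hq => ⟨hq.1, fun h' => hq.2 h'.2⟩)
      (fun q _ _ hq => hq.1) hσ
    simpa using h1
  have hcard := card_ne d
  refine ⟨KZ1 + KZ2 + (KB1 + KB2 + ∑ i, KL i) / 2 + KC, fun σ hσ hσ2 => ?_⟩
  have b1 := hB1 σ hσ hσ2
  have b2 := hB2 σ hσ hσ2
  have z1 := hZ1 σ hσ
  have z2 := hZ2 σ hσ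
  have c0 := (hKC σ hσ hσ2).2
  have n1 := hNZ 1 σ hσ
  have n2 := hNZ 2 σ hσ
  obtain ⟨Lg, hLg⟩ : ∃ Lg, Lg = Real.log (1 / (σ - 1)) := ⟨_, rfl⟩
  have l1 : (3 ^ d - 1) * (2 / 3 ^ d / 3 ^ (m + 1) * Lg) - ∑ i, KL i ≤
      ∑ i : {δ : Fin d → ZMod 3 // δ ≠ 0}, sm (WR h n π w0 c 1 1 0 ∩ Pat V i.1) σ +
      ∑ i : {δ : Fin d → ZMod 3 // δ ≠ 0}, sm (WR h n π w0 c 1 2 0 ∩ Pat V i.1) σ := by
    rw [← Finset.sum_add_distrib, ← hcard, ← nsmul_eq_mul, ← Finset.card_univ,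
      ← Finset.sum_const, ← Finset.sum_sub_distrib, hLg]
    exact Finset.sum_le_sum fun i _ => hKL i σ hσ hσ2
  rw [← hLg] at c0 ⊢
  have e2 : (3 ^ d - 1 : ℝ) * (2 / 3 ^ d / 3 ^ (m + 1) * Lg) =
      2 * ((1 - 1 / 3 ^ d) / 3 ^ (m + 1) * Lg) := by
    field_simp
  have e3 : (1 / 3 ^ (m + 1) * Lg : ℝ) - (1 - 1 / 3 ^ d) / 3 ^ (m + 1) * Lg =
      1 / 3 ^ d / 3 ^ (m + 1) * Lg := by
    ring
  rw [e2] at l1
  rw [← e3]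
  linarith

end Pool.Agent.PTK
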