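import Pool.Agent.PTK.DPA

/-!
# PTK_DCK: the relation for the Frobenius invariant of `Q`
-/

set_option autoImplicit false

namespace Pool.Agent.PTK

open Pool.Agent.Lib_helper18 Pool.Agent.Lib_helper18.Eis Pool.Agent.Lib_helper84.Cub
open Pool.Agent.PT

namespace DCK

open DPA

lemma nat_ne {n : ℕ} (h : n ≠ 0) : (n : Eis) ≠ 0 := by
  have h2 : ((n : ℤ) : Eis) ≠ 0 := DCONST.cast_ne (by omega)
  rwa [Int.cast_natCast] at h2

lemma dvd_natAbs_norm (a : Eis) : a ∣ ((a.norm.natAbs : ℕ) : Eis) := by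
  have h1 : ((a.norm.natAbs : ℕ) : ℤ) = a.norm := Int.natAbs_of_nonneg (norm_nonneg a)
  have h2 : ((a.norm.natAbs : ℕ) : Eis) = ((a.norm : ℤ) : Eis) := by
    rw [← h1, Int.cast_natCast]
    simp
  rw [h2, ← mul_conj]
  exact Dvd.intro _ rfl

/-- the forms of a point do not vanish -/
lemma dne_aux {π : PP} {E : ℕ} (hE : E = 1 ∨ E = 2) {B N c x X Y u v : Eis}
    (hB : B = N * π.1 ^ E) (hN : ¬ π.1 ∣ N) (hx : ¬ π.1 ∣ x) (hc : c ≠ 0) (hY : Y ≠ 0)
    (hpt : x * (X ^ 3 + x * Y ^ 3) = B * c ^ 3) (hM : ¬ π.1 ∣ v ^ 3 + x * u ^ 3)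
    (i : ℕ) : X * u - w ^ i * v * Y ≠ 0 := by
  intro h0
  have hM0 : v ^ 3 + x * u ^ 3 ≠ 0 := DCONST.ne_of_ndvd hM
  have hw := w_pow3 i
  have h1 : X ^ 3 * u ^ 3 = v ^ 3 * Y ^ 3 := by
    have h2 : (X * u) ^ 3 = (w ^ i * v * Y) ^ 3 := by rw [sub_eq_zero.1 h0]
    linear_combination h2 + (v ^ 3 * Y ^ 3) * hw
  have hu : u ≠ 0 := by
    rintro rfl
    have h3 : v ^ 3 * Y ^ 3 = 0 := by rw [← h1]; ring
    rcases mul_eq_zero.1 h3 with h4 | h4
    · apply hM0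
      rw [h4]
      ring
    · exact hY (pow_eq_zero_iff (by norm_num) |>.1 h4)
  have h5 : B * (c * u) ^ 3 = x * Y ^ 3 * (v ^ 3 + x * u ^ 3) := by
    linear_combination (- u ^ 3) * hpt + x * h1
  have hπ := π.2.1
  have hN0 : N ≠ 0 := DCONST.ne_of_ndvd hN
  have hx0 : x ≠ 0 := DCONST.ne_of_ndvd hx
  have hcu : c * u ≠ 0 := mul_ne_zero hc hu
  have hB0 : B ≠ 0 := by
    rw [hB]
    exact mul_ne_zero hN0 (pow_ne_zero _ hπ.ne_zero)
  have h6 := congrArg (V π.1) h5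
  rw [V_mul hπ hB0 (pow_ne_zero _ hcu), V_pow hπ hcu,
    V_mul hπ (mul_ne_zero hx0 (pow_ne_zero _ hY)) hM0, V_mul hπ hx0 (pow_ne_zero _ hY),
    V_pow hπ hY, V_eq_zero hx, V_eq_zero hM, hB,
    V_mul_not_dvd hπ hN (pow_ne_zero _ hπ.ne_zero), V_pow hπ hπ.ne_zero, V_self] at h6
  omega

end DCK

open DPA DCK in
/-- PTK_DCK. -/
theorem DCK_thm (hSPP : SPP) (hDP1 : Stmt_DP1) (hDP2 : Stmt_DP2) (hDP3 : Stmt_DP3)
    (hDP4 : Stmt_DP4) (hSVF : Stmt_SVF) : Stmt_DCK := by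
  intro N b x p q p' q' HD
  have hn1 := HD.sol.n1
  have hn2 := SolE_n1' HD.sol
  obtain ⟨m1, hm1⟩ : ∃ m : ℕ, m = (p ^ 3 + x * q ^ 3).norm.natAbs := ⟨_, rfl⟩
  obtain ⟨m2, hm2⟩ : ∃ m : ℕ, m = (p' ^ 3 + x * q' ^ 3).norm.natAbs := ⟨_, rfl⟩
  have hm1d : p ^ 3 + x * q ^ 3 ∣ (m1 : Eis) := by rw [hm1]; exact dvd_natAbs_norm _
  have hm2d : p' ^ 3 + x * q' ^ 3 ∣ (m2 : Eis) := by rw [hm2]; exact dvd_natAbs_norm _
  have hm1p : 0 < m1 := by
    rw [hm1]
    exact Int.natAbs_pos.2 (norm_pos hn1).ne'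
  have hm2p : 0 < m2 := by
    rw [hm2]
    exact Int.natAbs_pos.2 (norm_pos hn2).ne'
  obtain ⟨M, hMdef⟩ : ∃ M : ℕ, M = N * m1 * m2 := ⟨_, rfl⟩
  have hMp : 0 < M := by
    rw [hMdef]
    exact Nat.mul_pos (Nat.mul_pos HD.N0 hm1p) hm2p
  have hMe : (M : Eis) = (N : Eis) * (m1 : Eis) * (m2 : Eis) := by
    rw [hMdef]
    push_cast
    ring
  have hM0 : (M : Eis) ≠ 0 := nat_ne hMp.ne'
  have dN : (N : Eis) ∣ (M : Eis) := by
    rw [hMe, mul_assoc]
    exact Dvd.intro _ rfl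
  have d1 : p ^ 3 + x * q ^ 3 ∣ (M : Eis) := by
    rw [hMe]
    exact dvd_mul_of_dvd_left (dvd_mul_of_dvd_right hm1d _) _
  have d2 : p' ^ 3 + x * q' ^ 3 ∣ (M : Eis) := by
    rw [hMe]
    exact dvd_mul_of_dvd_right hm2d _
  have hfin := hSPP.2.2.1 (M : Eis) hM0
  refine ⟨9 * M, by omega, ?_⟩
  intro f hf0 hf
  have h9 : 9 ∣ f := (Dvd.intro _ rfl).trans hf
  have hf1 : 1 < f := by
    have := Nat.le_of_dvd hf0 h9
    omega
  have hMf : M ∣ f := (Dvd.intro_left 9 rfl).trans hf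
  have hMfe : (M : Eis) ∣ (f : Eis) := by
    obtain ⟨k, hk⟩ := hMf
    rw [hk]
    push_cast
    exact Dvd.intro _ rfl
  obtain ⟨C₀, Φ₀, H₀⟩ := hDP2 N b x p q p' q' HD f hf1 h9
  have hpl : ∀ π : PP, ∃ (c : ZMod 3) (Φ : (ZMod f)ˣ →* Multiplicative (ZMod 3)),
      π.1 ∣ (M : Eis) → ∀ (E Q : ℕ) (hQ : Q.Coprime f) (X Y : Eis),
        HypP N b x p q p' q' E Q X Y →
        SVE (tm π.1) x p (-p') (-q) q' X Y = c + E * (Φ (ZMod.unitOfCoprime Q hQ)).toAdd := by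
    intro π
    by_cases hπM : π.1 ∣ (M : Eis)
    · obtain ⟨C, Φ, H⟩ := hDP1 N b x p q p' q' HD π f hf1 (hπM.trans hMfe)
      exact ⟨C, Φ, fun _ => H⟩
    · exact ⟨0, 1, fun h => absurd h hπM⟩
  choose c Φ H using hpl
  refine ⟨C₀ + ∑ π ∈ hfin.toFinset, c π, Φ₀ * ∏ π ∈ hfin.toFinset, Φ π, 0, ?_⟩
  intro E Q hQ hE hQp _ hQ3 hsb hsx X Y ξ hpt hξ
  obtain ⟨πQ, hπQ⟩ := hSPP.2.2.2.2.1 Q hQp hQ3
  have hQM : ¬ πQ.1 ∣ (M : Eis) := by
    intro h
    rw [hπQ] at h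
    have h1 : ((Q : ℤ) : Eis) ∣ ((M : ℤ) : Eis) := by
      rw [Int.cast_natCast, Int.cast_natCast]
      exact h
    have h2 : Q ∣ M := Int.natCast_dvd_natCast.1 (intCast_dvd_intCast.1 h1)
    have h3 := Nat.Coprime.eq_one_of_dvd hQ (h2.trans hMf)
    exact hQp.one_lt.ne' h3
  have hQN : ¬ πQ.1 ∣ (N : Eis) := fun h => hQM (h.trans dN)
  obtain ⟨hQb, hQx⟩ := HD.unr πQ hQN
  obtain ⟨k, hk, hkE⟩ := hpt.eq
  have hBe : (N : Eis) * (Q : Eis) ^ E = (N : Eis) * πQ.1 ^ E := by rw [hπQ]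
  have hdn : DNE X Y p (-p') (-q) q' := by
    have hA := fun i => dne_aux (π := πQ) hE (X := X) (Y := Y) (u := q) (v := p) hBe hQN hQx hk
      hpt.hY hkE (fun h => hQM (h.trans d1)) i
    have hA' := fun i => dne_aux (π := πQ) hE (X := X) (Y := Y) (u := q') (v := p') hBe hQN hQx hk
      hpt.hY hkE (fun h => hQM (h.trans d2)) i
    refine ⟨?_, ?_, ?_, ?_⟩
    · intro h
      apply hA 1
      unfold DfE at h
      linear_combination - h
    · intro h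
      apply hA 2
      unfold DfE at h
      linear_combination - h
    · intro h
      apply hA' 1
      unfold DfE at h
      linear_combination h
    · intro h
      apply hA' 2
      unfold DfE at h
      linear_combination h
  have HP : HypP N b x p q p' q' E Q X Y := ⟨hE, hQp, hsb, hsx, hpt, hdn⟩
  have hn0 := n0_ne HD HP
  obtain ⟨-, hsum0⟩ := hSVF b x p (-p') (-q) q' X Y HD.hb HD.hx (SolE_flip HD.sol) hpt.hX hpt.hY
    hn0 hdn
  -- the place `Q`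
  have hTQ : SVE (tm πQ.1) x p (-p') (-q) q' X Y = - (E * TAUE Q p q p' q' ξ) := by
    refine hDP4 N b x p q p' q' HD πQ E Q X Y ξ HP hQ3 hπQ hQN ?_ hξ
    intro h
    rcases πQ.2.1.dvd_or_dvd h with h1 | h1
    · exact hQM (h1.trans d1)
    · exact hQM (h1.trans d2)
  -- the sum
  have hQS : πQ ∉ hfin.toFinset := by
    rw [Set.Finite.mem_toFinset]
    exact hQM
  classical
  have hsupp : (Function.support fun v : Pl => SVE (sy v) x p (-p') (-q) q' X Y) ⊆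
      ((insert none (insert (some πQ) (hfin.toFinset.image some)) : Finset Pl) : Set Pl) := by
    intro v hv
    by_contra hnv
    apply hv
    rcases v with _ | π
    · exact absurd (Finset.mem_coe.2 (Finset.mem_insert_self _ _)) hnv
    · have hnM : ¬ π.1 ∣ (M : Eis) := by
        intro h
        apply hnv
        rw [Finset.mem_coe]
        refine Finset.mem_insert_of_mem (Finset.mem_insert_of_mem (Finset.mem_image_of_mem _ ?_))
        rw [Set.Finite.mem_toFinset]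
        exact h
      have hπne : π ≠ πQ := by
        rintro rfl
        apply hnv
        rw [Finset.mem_coe]
        exact Finset.mem_insert_of_mem (Finset.mem_insert_self _ _)
      have hπQnd : ¬ π.1 ∣ (Q : Eis) := by
        rw [← hπQ]
        intro h
        exact hπne (hSPP.2.1 π πQ (π.2.1.associated_of_dvd πQ.2.1 h))
      refine hDP3 N b x p q p' q' HD π E Q X Y HP (fun h => hnM (h.trans dN)) hπQnd ?_
      intro h
      rcases π.2.1.dvd_or_dvd h with h1 | h1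
      · exact hnM (h1.trans d1)
      · exact hnM (h1.trans d2)
  have hn_notin : (none : Pl) ∉ insert (some πQ) (hfin.toFinset.image some) := by
    simp
  have hQ_notin : (some πQ : Pl) ∉ hfin.toFinset.image some := by
    intro h
    obtain ⟨y, hy, hy'⟩ := Finset.mem_image.1 h
    rw [Option.some.injEq] at hy'
    rw [hy'] at hy
    exact hQS hy
  have hsum : ∑ π ∈ hfin.toFinset, SVE (sy (some π)) x p (-p') (-q) q' X Y =
      ∑ π ∈ hfin.toFinset, (c π + E * (Φ π (ZMod.unitOfCoprime Q hQ)).toAdd) := by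
    refine Finset.sum_congr rfl ?_
    intro π hπ
    rw [Set.Finite.mem_toFinset] at hπ
    exact H π hπ E Q hQ X Y HP
  rw [finsum_eq_sum_of_support_subset _ hsupp, Finset.sum_insert hn_notin,
    Finset.sum_insert hQ_notin, Finset.sum_image (fun _ _ _ _ h => Option.some_injective _ h),
    hsum] at hsum0
  have e1 : SVE (sy none) x p (-p') (-q) q' X Y =
      C₀ + E * (Φ₀ (ZMod.unitOfCoprime Q hQ)).toAdd := H₀ E Q hQ X Y HP
  have e2 : SVE (sy (some πQ)) x p (-p') (-q) q' X Y = - (E * TAUE Q p q p' q' ξ) := hTQ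
  rw [e1, e2, Finset.sum_add_distrib, ← Finset.mul_sum] at hsum0
  rw [MonoidHom.mul_apply, MonoidHom.finsetProd_apply, toAdd_mul, toAdd_prod]
  linear_combination hsum0

end Pool.Agent.PTK
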