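import Pool.Agent.PTK.StC
import Pool.Agent.PTE.Stmts

/-!
# The average of `3^r` for prime twists: the joint governing field

Stage 2 of the project PTK. `b : Fin s → ℤ`, `p q p' q'` is a system for the plus part (rational classes, `SysG`),
`x, u : Eis`, `P Q P' Q'` a system for the minus part (`SysK`). Everything of `StL`, `StN`, `StG`, `StC` (stage 1) and of
`PT`, `PTE`, `PT3`, `PTL`, `PTN` may be imported or taken as a hypothesis.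
-/

set_option autoImplicit false

open NumberField IsDedekindDomain Finset
open scoped nonZeroDivisors Pointwise

namespace Pool.Agent.PTK

open Pool.Agent.Lib_helper18 Pool.Agent.Lib_helper18.Eis Pool.Agent.Lib_helper84.Cub
open Pool.Agent.PT Pool.Agent.PTE Pool.Agent.PT3 Pool.Agent.PTL Pool.Agent.PTN

/-! ### The field -/

/-- The joint governing field. -/
structure GovJ {s k : ℕ} (b : Fin s → ℤ) (p q p' q' : Fin s → Fin s → ℤ)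
    (x : Eis) (u P Q P' Q' : Fin k → Eis) (f : ℕ)
    (L : Type) [Field L] [NumberField L] (ζ : L) (ι : Eis →+* L) : Prop where
  plus : GovF b p q p' q' f L ζ (ι w)
  minus : GovK x u P Q P' Q' f L ζ ι

/-- `A` belongs to the pair `(j, i)` of the plus part -/
def PrP {s : ℕ} (b : Fin s → ℤ) (p q p' q' : Fin s → Fin s → ℤ) {L : Type} [Field L]
    (ι : Eis →+* L) (j i : Fin s) (ρ A : L) : Prop :=
  ρ ^ 3 = (b j : L) ∧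
    A ^ 3 * aD (ι w) (p j i) (q j i) (p' j i) (q' j i) ρ =
      aN (ι w) (p j i) (q j i) (p' j i) (q' j i) ρ

/-- `A` belongs to the class `u j` of the minus part -/
def PrM {k : ℕ} (x : Eis) (P Q P' Q' : Fin k → Eis) {L : Type} [Field L]
    (ι : Eis →+* L) (j : Fin k) (ρ A : L) : Prop :=
  ρ ^ 3 = ι x ∧ A ^ 3 * aDE ι (P j) (Q j) (P' j) (Q' j) ρ = aNE ι (P j) (Q j) (P' j) (Q' j) ρ

/-- `z` fixes `ζ` and the cube roots of all classes -/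
structure FxA {s k : ℕ} (b : Fin s → ℤ) (x : Eis) (u : Fin k → Eis) {L : Type} [Field L]
    [NumberField L] (ζ : L) (ι : Eis →+* L) (z : L ≃ₐ[ℚ] L) : Prop where
  ze : z ζ = ζ
  rx : ∀ ρ : L, ρ ^ 3 = ι x → z ρ = ρ
  ru : ∀ (j : Fin k) (ρ : L), ρ ^ 3 = ι (u j) → z ρ = ρ
  rb : ∀ (i : Fin s) (ρ : L), ρ ^ 3 = (b i : L) → z ρ = ρ

/-- PTK_JZ: existence of the joint governing field.
Proof. As `GZERO_thm` (PT/GZERO.lean), `GZEROG_thm` (PTE) and `GZK_thm` (PTK/GZK.lean) with one field: `GZERO.exists_field` for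
the union of the finite sets: `ζ`, the roots of all `T³ = b j`, `T³ = x`, `T³ = u j`, and chosen cube roots of all the
`α`. `ι` is `GFR.lift (ζ ^ (f / 3)) rel`, `ι w = ζ ^ (f / 3)`. -/
def Stmt_JZ : Prop := ∀ (s k : ℕ) (b : Fin s → ℤ) (p q p' q' : Fin s → Fin s → ℤ)
  (x : Eis) (u P Q P' Q' : Fin k → Eis) (f : ℕ), SysG b p q p' q' → SysK x u P Q P' Q' →
  0 < f → 9 ∣ f →
  ∃ (L : Type) (_ : Field L) (_ : NumberField L) (ζ : L) (ι : Eis →+* L),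
    GovJ b p q p' q' x u P Q P' Q' f L ζ ι

/-- PTK_JKU: Kummer theory over `K = Q(w)` for all classes together.
Proof. As `GKK_thm` (PTK/GKK.lean), for the family `x, u j, b i`. Independence: let `x^c₀ ∏ u_j^(c j) ∏ b_i^(d i) = t³` in `Eis`. Put
`Z = x^c₀ ∏ u_j^(c j)`, `D = ∏ b_i^(d i)` (rational integer). `Z conj Z = t₁³` (`SysK.cx`, `cb`), so
`t³ conj t³ = t₁³ D²`, hence `t₁³ ∣ (t conj t)³`, `D²` is a cube in `Eis`, and `D (D²)³… `: `D³ = D · D²`, so `D · D²` and `D²` are cubes and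
`D ≠ 0`, so `D` is a cube in `Eis` (`a³ = D b³` implies `b ∣ a`). A rational integer which is a cube in `Eis` is a cube in `ℤ` (`GKI`, or
norms: `D² = N(t)³`, `D` is a cube). `SysG.ind`: `3 ∣ d i` for all `i`. So `D` is a cube and `Z` is a cube in `Eis`, and `SysK.ind` gives
`3 ∣ c₀`, `3 ∣ c j`. -/
def Stmt_JKU : Prop := ∀ (s k : ℕ) (b : Fin s → ℤ) (p q p' q' : Fin s → Fin s → ℤ)
  (x : Eis) (u P Q P' Q' : Fin k → Eis) (f : ℕ)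
  (L : Type) [Field L] [NumberField L] (ζ : L) (ι : Eis →+* L),
  SysG b p q p' q' → SysK x u P Q P' Q' → GovJ b p q p' q' x u P Q P' Q' f L ζ ι →
  ∀ (a₀ : ZMod 3) (a : Fin k → ZMod 3) (v : Fin s → ZMod 3), ∃ g : L ≃ₐ[ℚ] L, g (ι w) = ι w ∧
    (∀ ρ : L, ρ ^ 3 = ι x → g ρ = ι w ^ a₀.val * ρ) ∧
    (∀ (j : Fin k) (ρ : L), ρ ^ 3 = ι (u j) → g ρ = ι w ^ (a j).val * ρ) ∧
    ∀ (i : Fin s) (ρ : L), ρ ^ 3 = (b i : L) → g ρ = ι w ^ (v i).val * ρ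

/-- PTK_JC1: commutators for the minus part which are trivial on the plus part.
Proof. As `GCK_thm` (PTK/GCK.lean), with `σ`, `τ` from `JKU` with `v = 0`: `σ` moves the roots of `x` only, `τ` moves the roots of
`u j` by `ω^(v j)` only; `z = (σ τ)⁻¹ (τ σ)`. New: for a pair `(ρ, A)` of the plus part, `j ≠ i`: `σ` and `τ` fix `ρ` and `ω`, so they fix
`α = aN / aD` (`GovF.D`) and multiply `A` by powers of `ω`; so they commute on `A` and `z A = A`. -/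
def Stmt_JC1 : Prop := ∀ (s k : ℕ) (b : Fin s → ℤ) (p q p' q' : Fin s → Fin s → ℤ)
  (x : Eis) (u P Q P' Q' : Fin k → Eis) (f : ℕ)
  (L : Type) [Field L] [NumberField L] (ζ : L) (ι : Eis →+* L),
  SysG b p q p' q' → SysK x u P Q P' Q' → GovJ b p q p' q' x u P Q P' Q' f L ζ ι →
  ∀ v : Fin k → ZMod 3, ∃ z : L ≃ₐ[ℚ] L, FxA b x u ζ ι z ∧
    (∀ (j i : Fin s) (ρ A : L), j ≠ i → PrP b p q p' q' ι j i ρ A → z A = A) ∧
    ∀ (j : Fin k) (ρ A : L), PrM x P Q P' Q' ι j ρ A → z A = ι w ^ (v j).val * A ∧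
      ∀ g : L ≃ₐ[ℚ] L, g (ι w) = ι w ^ 2 → z (g A) = ι w ^ (- v j).val * g A

/-- PTK_JC2: commutators for the plus part which are trivial on the minus part.
Proof. As `GCG_thm` (PTE/GCG.lean), with the `g i` from `JKU` (`a₀ = 0`, `a = 0`, `v = Pi.single i 1`; `g i (ι w) = ι w`; they need not fix
`ζ`, but they act on `ζ` by powers, so the commutators fix `ζ`; in `GC.all` (PT/GC.lean) only products of the commutators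
`(g j * g i)⁻¹ * (g i * g j)` are formed). The set `H` of all `z` with `FxA z`, `z A = A` for all pairs of the minus part and
`z (g A) = g A` for all `g` with `g (ι w) = ι w ^ 2` is closed under products, inverses and contains every commutator of two elements
`σ, τ` which fix `ω` and all roots of `x`, `u j` and act on the roots of the `b i` by powers of `ω`: for a pair `(ρ, A)`: `σ`, `τ` fix
`α` and act on `A` by powers of `ω`, so `z A = A`. For `g A`: `(g A)³ = g α`, and `g α` is in the field generated by `ω` and `g ρ`, with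
`(g ρ)³ = g (ι x) = ι (conj x)`, `x conj x = t³`, so `g ρ = ω^l ι t / ρ` is fixed by `σ`, `τ`; so `σ`, `τ` act on `g A` by powers of `ω`,
`z (g A) = g A`. (`GC.all` builds `z` from the elementary ones: repeat its proof carrying the property `H` along.) -/
def Stmt_JC2 : Prop := ∀ (s k : ℕ) (b : Fin s → ℤ) (p q p' q' : Fin s → Fin s → ℤ)
  (x : Eis) (u P Q P' Q' : Fin k → Eis) (f : ℕ)
  (L : Type) [Field L] [NumberField L] (ζ : L) (ι : Eis →+* L),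
  SysG b p q p' q' → SysK x u P Q P' Q' → GovJ b p q p' q' x u P Q P' Q' f L ζ ι →
  ∀ v : Fin s → Fin s → ZMod 3, ∃ z : L ≃ₐ[ℚ] L, FxA b x u ζ ι z ∧
    (∀ (j i : Fin s) (ρ A : L), j < i → PrP b p q p' q' ι j i ρ A → z A = ι w ^ (v j i).val * A) ∧
    ∀ (j : Fin k) (ρ A : L), PrM x P Q P' Q' ι j ρ A → z A = A ∧
      ∀ g : L ≃ₐ[ℚ] L, g (ι w) = ι w ^ 2 → z (g A) = g A

/-! ### `Q = 2 (mod 3)` -/

/-- PTK_JAL: summary of the joint governing field, `Q = 2 (mod 3)`.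
Proof. `L` from `JZ`. `tt`, its properties and the Frobenius clause: as in `GALG_thm` (PT3/GALG.lean) with `GTG`, `GFRG` for the `GovF`
part; `F`, `t`: as in `GAK_thm` (PTK/GAK.lean) with `GTK`, `GFK` for the `GovK` part; `χ` from `GCHI`. The same `k` serves both Frobenius
clauses (first take `k` with `IsArithFrobAt ℤ (g ^ k) P` from `GFRG` or `GFK`, then apply both second parts). Equidistribution: let `z₁`
be from `JC1` for `2 (y' - y) = - (y' - y)`, `z₂` from `JC2` for `v - v'`; `g ↦ g z₁ z₂` is a bijection of the first set onto the second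
one: `χ` does not change, `F` does not change, `t (g z₁ z₂) = t g + (y' - y)` (as in `GAK_thm`; `z₂` acts trivially on `A` and on `g A`),
`tt (g z₁ z₂) j i = tt g j i + (v' - v) j i` for `j < i` (as in `GALG_thm`; `z₁` acts trivially on the `A` of the plus part). -/
def Stmt_JAL : Prop := ∀ (s : ℕ) (b : Fin s → ℤ) (p q p' q' : Fin s → Fin s → ℤ)
  (k : ℕ) (x : Eis) (u P Q P' Q' : Fin k → Eis) (f : ℕ), SysG b p q p' q' →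
  SysK x u P Q P' Q' → 0 < f → 9 ∣ f →
  ∃ (L : Type) (_ : Field L) (_ : NumberField L) (_ : IsGalois ℚ L)
    (χ : (L ≃ₐ[ℚ] L) →* (ZMod f)ˣ) (tt : (L ≃ₐ[ℚ] L) → Fin s → Fin s → ZMod 3)
    (F : (L ≃ₐ[ℚ] L) → Prop) (t : (L ≃ₐ[ℚ] L) → Fin k → ZMod 3) (N₀ : ℕ),
    Function.Surjective χ ∧
    (∀ g τ : L ≃ₐ[ℚ] L, M2 (χ g) → ∀ j i, j ≠ i → tt (τ * g * τ⁻¹) j i = tt g j i) ∧
    (∀ (g : L ≃ₐ[ℚ] L) (l : ℕ), M2 (χ g) → Odd l → ∀ j i, j ≠ i → tt (g ^ l) j i = l * tt g j i) ∧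
    (∀ g τ : L ≃ₐ[ℚ] L, M2 (χ g) → F g → F (τ * g * τ⁻¹) ∧ t (τ * g * τ⁻¹) = t g) ∧
    (∀ (g : L ≃ₐ[ℚ] L) (l : ℕ), M2 (χ g) → F g → Odd l → F (g ^ l) ∧
      t (g ^ l) = (l : ZMod 3) • t g) ∧
    (∀ (a : (ZMod f)ˣ) (v v' : Fin s → Fin s → ZMod 3) (y y' : Fin k → ZMod 3), M2 a →
      Nat.card {g : L ≃ₐ[ℚ] L // χ g = a ∧ F g ∧ t g = y ∧ ∀ j i, j < i → tt g j i = v j i} =
        Nat.card {g : L ≃ₐ[ℚ] L //
          χ g = a ∧ F g ∧ t g = y' ∧ ∀ j i, j < i → tt g j i = v' j i}) ∧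
    ∀ (N : ℕ) (hN : N.Coprime f), N.Prime → N₀ < N → ∀ (I : Ideal (𝓞 L)) (g : L ≃ₐ[ℚ] L),
      I.IsPrime → (N : 𝓞 L) ∈ I →
      MulAction.stabilizer (L ≃ₐ[ℚ] L) I = Subgroup.zpowers g →
      ∃ l : ℕ, l.Coprime (orderOf g) ∧ χ (g ^ l) = ZMod.unitOfCoprime N hN ∧
        (N % 3 = 2 →
          (∀ j i, j ≠ i → ∀ r : ℤ, (N : ℤ) ∣ r ^ 3 - b j →
            tt (g ^ l) j i = TAUV N (p j i) (q j i) (p' j i) (q' j i) r) ∧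
          (sym (N : Eis) x = 0 → (∀ j, sym (N : Eis) (u j) = 0) → F (g ^ l) ∧
            ∀ (j : Fin k) (r : Eis), (N : Eis) ∣ r ^ 3 - x →
              t (g ^ l) j = TAUE N (P j) (Q j) (P' j) (Q' j) r))

/-- PTK_BDJ: the bound for the density, both parts and both exponents together, `Q = 2 (mod 3)`.
Proof. As `BDK_thm` (PTK/BDK.lean) and `BDE_thm` (PTL/BD.lean), with `JAL` and `DNS`. Put `C : plus`, `C' : minus` constants,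
`XP g : M2 (χ g) ∧ κ (χ g) = c ∧ F g ∧ t g = C' + Φ' (χ g) ∧ tn ≤ s - rank (alt (C + Φ (χ g) - tt g))`,
`XM g : M2 (χ g) ∧ κ (χ g) = -c ∧ F g ∧ t g = - C' + Φ' (χ g) ∧ tn ≤ s - rank (alt (C - Φ (χ g) + tt g))`. Exchanged by powers `= 2 (mod 3)`,
preserved by powers `= 1 (mod 3)`. Counting for every unit `a` with `M2 a`: for every `y`, with
`X = {g // χ g = a ∧ F g ∧ t g = y}`, `EQX` gives `#{g ∈ X : alt (C ± tt g) ∈ S} · #matrices = #{v : alt v ∈ S} · #X` (the fibres of `tt` have the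
same size by `JAL`, which gives also that all `#X` (different `y`) are equal: sum over `v`), and `3^k #X = #{χ g = a ∧ F g} ≤ #{χ g = a}`. So
`3^k · #matrices · 2 · 3^(m+1) #XP ≤ NK s tn · #G`, the same for `XM`. `DNS` for `XP ∨ XM`, `XP ∧ XM`; `BD.sm_union_inter`,
`BD.card_incl`. -/
def Stmt_BDJ : Prop := ∀ (s : ℕ) (b : Fin s → ℤ) (p q p' q' : Fin s → Fin s → ℤ)
  (k : ℕ) (x : Eis) (u P Q P' Q' : Fin k → Eis) (f m tn : ℕ)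
  (κ : (ZMod f)ˣ →* Multiplicative (Fin (m + 1) → ZMod 3)) (c : Fin (m + 1) → ZMod 3)
  (C : Fin s → Fin s → ZMod 3) (Φ : (ZMod f)ˣ →* Multiplicative (Fin s → Fin s → ZMod 3))
  (C' : Fin k → ZMod 3) (Φ' : (ZMod f)ˣ →* Multiplicative (Fin k → ZMod 3)),
  SysG b p q p' q' → SysK x u P Q P' Q' → 0 < f → 9 ∣ f →
  (∀ c : Fin (m + 1) → ZMod 3,
    Nat.card {a : (ZMod f)ˣ // M2 a ∧ (κ a).toAdd = c} * (2 * 3 ^ (m + 1)) = f.totient) →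
  ∃ K : ℝ, ∀ σ : ℝ, 1 < σ → σ ≤ 2 →
    BDENS.sm (SP b p q p' q' tn κ c C Φ ∩ SPK x u P Q P' Q' κ c C' Φ') σ +
      BDENS.sm (SM b p q p' q' tn κ c C Φ ∩ SMK x u P Q P' Q' κ c C' Φ') σ ≤
      LI s tn / 3 ^ k / 3 ^ (m + 1) * Real.log (1 / (σ - 1)) + K

/-! ### `Q = 1 (mod 3)`: the field -/

/-- `g` fixes the cube roots of `x` and of the `u j`. -/
def FxU {k : ℕ} (x : Eis) (u : Fin k → Eis) {L : Type} [Field L] [NumberField L] (ι : Eis →+* L)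
    (g : L ≃ₐ[ℚ] L) : Prop :=
  (∀ ρ : L, ρ ^ 3 = ι x → g ρ = ρ) ∧ ∀ (j : Fin k) (ρ : L), ρ ^ 3 = ι (u j) → g ρ = ρ

/-- The relation between `g` and `t = t_j(g)`: `g A = ω^t A` for all pairs. -/
def IsTU {k : ℕ} (x : Eis) (P Q P' Q' : Fin k → Eis) {L : Type} [Field L]
    [NumberField L] (ι : Eis →+* L) (g : L ≃ₐ[ℚ] L) (j : Fin k) (t : ZMod 3) : Prop :=
  ∀ ρ A : L, PrM x P Q P' Q' ι j ρ A → g A = ι w ^ t.val * A

/-- The cubic residue symbol modulo the prime `π` of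
`[(p + q w² r)(p' + q' w r)] / [(p + q w r)(p' + q' w² r)]`. -/
noncomputable def TAUP (π : Eis) (p q p' q' r : Eis) : ZMod 3 :=
  sym π (LfE p q 2 r) + sym π (LfE p' q' 1 r) - sym π (LfE p q 1 r) - sym π (LfE p' q' 2 r)

/-- PTK_GTU: existence, uniqueness and properties of `t` for `Q = 1 (mod 3)`.
Proof. As `GTK_thm` (PTK/GTK.lean; there `h = g²` plays the role of `g`). (1) For one pair `(ρ, A)`: `g` fixes `α(ρ)`, so `g A = ω^t A`; the same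
`t` for all pairs (`GTK.step`). (2) If `τ ω = ω`: `τ⁻¹ ρ` is a root of `x`. If `τ ω = ω²` (the only other case): `(τ⁻¹ ρ)³ = ι (conj x)`,
`x conj x = T³`, so `τ⁻¹ ρ = ω^l ι T / ρ'` with a root `ρ'` of `x`, fixed by `g`; the same for the roots of `u j`. (3) `(τ⁻¹ ρ, τ⁻¹ A)` is a
pair, `g` multiplies `τ⁻¹ A` by `ω^t`, apply `τ`. (4) Clear. -/
def Stmt_GTU : Prop := ∀ (k : ℕ) (x : Eis) (u P Q P' Q' : Fin k → Eis) (f : ℕ)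
  (L : Type) [Field L] [NumberField L] (ζ : L) (ι : Eis →+* L), SysK x u P Q P' Q' →
  GovK x u P Q P' Q' f L ζ ι →
  (∀ g τ : L ≃ₐ[ℚ] L, g (ι w) = ι w → FxU x u ι g → FxU x u ι (τ * g * τ⁻¹)) ∧
  (∀ (g : L ≃ₐ[ℚ] L) (l : ℕ), FxU x u ι g → FxU x u ι (g ^ l)) ∧
  ∀ j,
  (∀ g : L ≃ₐ[ℚ] L, g (ι w) = ι w → FxU x u ι g → ∃! t : ZMod 3, IsTU x P Q P' Q' ι g j t) ∧
  (∀ (g τ : L ≃ₐ[ℚ] L) (t : ZMod 3), g (ι w) = ι w → FxU x u ι g → τ (ι w) = ι w →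
    IsTU x P Q P' Q' ι g j t → IsTU x P Q P' Q' ι (τ * g * τ⁻¹) j t) ∧
  (∀ (g : L ≃ₐ[ℚ] L) (t : ZMod 3) (l : ℕ), g (ι w) = ι w →
    IsTU x P Q P' Q' ι g j t → IsTU x P Q P' Q' ι (g ^ l) j (l * t))

/-- PTK_GFKU: Frobenius elements and `t`, `Q = 1 (mod 3)`.
Proof. As `GFK_thm` (PTK/GFK.lean: `exists_lift`, `not_dvd_of_lt`, …). Let `κ = 𝓞 L / I`. The homomorphism `Eis → κ`, `a ↦ mk (ι a)`, has a
kernel generated by a prime `ρ₀` with `ρ₀ ∣ Q`, so `ρ₀` is associated to `ρ` or to `conj ρ`; the residue field of `ρ₀` has `Q` elements and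
`sym ρ₀ a` is characterised by `a ^ ((Q - 1) / 3) = w ^ (sym ρ₀ a)` modulo `ρ₀`. `mk (φ y) = (mk y) ^ Q`, so `φ ω = ω`
(`ω^Q = ω`). (a) `sym (conj ρ) x = - sym ρ (conj x) = sym ρ x` (`SPLT` or `SCJ`: `sym (conj ρ) (conj a) = - sym ρ a`; `x conj x = T³`), the same for
`u j`; so `sym ρ₀ x = 0`, `sym ρ₀ (u j) = 0`, and `φ` fixes the roots (as in `GFK_thm`, with exponent `Q` in place of `Q²`). (b) If
`ρ₀ ∣ r³ - x` and `IsTU φ j t` then `t = TAUP ρ₀ .. r` (as (b) of `GFK_thm`). (c) `c φ c⁻¹` is a Frobenius element for the prime `c I`, and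
`ι a ∈ c I` iff `c⁻¹ (ι a) = ι (conj a) ∈ I`, so the kernel for `c I` is generated by `conj ρ₀`. By (b) for `c I`: if `conj ρ₀ ∣ r'³ - x`, `IsTU (c φ c⁻¹) j t'`
then `t' = TAUP (conj ρ₀) .. r'`. If `ρ₀ ~ ρ` the sum is as claimed; if `ρ₀ ~ conj ρ` use (b) with `r'` and (c) with `r` (`TAUP` depends only on the
ideal of the prime: `sym` does). -/
def Stmt_GFKU : Prop := ∀ (k : ℕ) (x : Eis) (u P Q P' Q' : Fin k → Eis) (f : ℕ)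
  (L : Type) [Field L] [NumberField L] (ζ : L) (ι : Eis →+* L), SysK x u P Q P' Q' →
  GovK x u P Q P' Q' f L ζ ι →
  ∃ N₀ : ℕ, ∀ N : ℕ, N.Prime → N₀ < N → N % 3 = 1 → ∀ (I : Ideal (𝓞 L)), I.IsPrime →
    (N : 𝓞 L) ∈ I → ∀ φ : L ≃ₐ[ℚ] L, IsArithFrobAt ℤ φ I → ∀ ρ : PP,
    (N : Eis) = ρ.1 * conj ρ.1 → sym ρ.1 x = 0 → (∀ j, sym ρ.1 (u j) = 0) →
    φ (ι w) = ι w ∧ FxU x u ι φ ∧
      ∀ (c : L ≃ₐ[ℚ] L), c (ι w) = ι w ^ 2 → ∀ (j : Fin k) (r r' : Eis) (t t' : ZMod 3),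
        ρ.1 ∣ r ^ 3 - x → conj ρ.1 ∣ r' ^ 3 - x → IsTU x P Q P' Q' ι φ j t →
        IsTU x P Q P' Q' ι (c * φ * c⁻¹) j t' →
        t + t' = TAUP ρ.1 (P j) (Q j) (P' j) (Q' j) r +
          TAUP (conj ρ.1) (P j) (Q j) (P' j) (Q' j) r'

/-- PTK_JAU: summary of the joint governing field, `Q = 1 (mod 3)`, generic pattern.
Proof. `L` from `JZ`, `χ` from `GCHI`; `F = Fx b`, `tt`: as in `GALDU_thm` (PTN/GALDU.lean) with `GTS`, `GFRU`, `GKUM` for the `GovF` part (clause 7: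
from `GALDU_thm`). `F₂ g = (g (ι w) = ι w ∧ FxU g)`; fix `c` with `c (ι w) = ι w ^ 2` (`χ` is surjective: `c` with
`χ c = -1`), `T g j = t_j(g) + t_j(c g c⁻¹)` (`GTU`). Invariance of `T`: for `τ ω = ω` by `GTU` (`c τ g τ⁻¹ c⁻¹ = (c τ c⁻¹) (c g c⁻¹) (c τ c⁻¹)⁻¹`); for
`τ ω = ω²`: `τ = (τ c⁻¹) c`, so `t (τ g τ⁻¹) = t (c g c⁻¹)`, and `c τ` fixes `ω`: `t (c τ g τ⁻¹ c⁻¹) = t g`. Powers: clear. Equidistribution: `z₁` from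
`JC1` for `2 (y' - y)`, `z₂` from `JC2` for `v' - v`, `g ↦ g z₁ z₂`: `χ`, `F`, `F₂` do not change (`FxA`); `tt` changes by `v' - v` for `j < i` (as in
`GALDU_thm`; `z₁ A = A`); `T (g z₁) = T g + 2 · 2 (y' - y)`: `t (g z₁) = t g + v₁`, `t (c g z₁ c⁻¹) = t (c g c⁻¹) + t (c z₁ c⁻¹)` and
`c z₁ c⁻¹ A = c (ω^(- v₁) c⁻¹ A) = ω^(v₁) A` by the last clause of `JC1` for `g = c⁻¹`; `v₁ = 2 (y' - y)`, `2 v₁ = 4 (y' - y) = y' - y`. `z₂` does not change `T`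
(last clause of `JC2`). -/
def Stmt_JAU : Prop := ∀ (s : ℕ) (b : Fin (s + 1) → ℤ)
  (p q p' q' : Fin (s + 1) → Fin (s + 1) → ℤ)
  (k : ℕ) (x : Eis) (u P Q P' Q' : Fin k → Eis) (f : ℕ), SysG b p q p' q' →
  SysK x u P Q P' Q' → 0 < f → 9 ∣ f →
  ∃ (L : Type) (_ : Field L) (_ : NumberField L) (_ : IsGalois ℚ L)
    (χ : (L ≃ₐ[ℚ] L) →* (ZMod f)ˣ) (F : (L ≃ₐ[ℚ] L) → Prop)
    (tt : (L ≃ₐ[ℚ] L) → Fin s → Fin s → ZMod 3)
    (F₂ : (L ≃ₐ[ℚ] L) → Prop) (T : (L ≃ₐ[ℚ] L) → Fin k → ZMod 3) (N₀ : ℕ),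
    Function.Surjective χ ∧
    (∀ g τ : L ≃ₐ[ℚ] L, M1 (χ g) → F g →
      F (τ * g * τ⁻¹) ∧ ∀ j i, j ≠ i → tt (τ * g * τ⁻¹) j i = tt g j i) ∧
    (∀ (g : L ≃ₐ[ℚ] L) (l : ℕ), M1 (χ g) → F g → ¬ 3 ∣ l →
      F (g ^ l) ∧ ∀ j i, j ≠ i → tt (g ^ l) j i = l * tt g j i) ∧
    (∀ g τ : L ≃ₐ[ℚ] L, M1 (χ g) → F₂ g → F₂ (τ * g * τ⁻¹) ∧ T (τ * g * τ⁻¹) = T g) ∧
    (∀ (g : L ≃ₐ[ℚ] L) (l : ℕ), M1 (χ g) → F₂ g → F₂ (g ^ l) ∧
      T (g ^ l) = (l : ZMod 3) • T g) ∧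
    (∀ (a : (ZMod f)ˣ) (v v' : Fin s → Fin s → ZMod 3) (y y' : Fin k → ZMod 3), M1 a →
      Nat.card {g : L ≃ₐ[ℚ] L //
          χ g = a ∧ F g ∧ F₂ g ∧ T g = y ∧ ∀ j i, j < i → tt g j i = v j i} =
        Nat.card {g : L ≃ₐ[ℚ] L //
          χ g = a ∧ F g ∧ F₂ g ∧ T g = y' ∧ ∀ j i, j < i → tt g j i = v' j i}) ∧
    (∀ a : (ZMod f)ˣ, M1 a → 3 ^ (s + 1) * Nat.card {g : L ≃ₐ[ℚ] L // χ g = a ∧ F g} =
      2 * Nat.card {g : L ≃ₐ[ℚ] L // χ g = a}) ∧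
    ∀ (N : ℕ) (hN : N.Coprime f), N.Prime → N₀ < N →
      ∀ (I : Ideal (𝓞 L)) (g : L ≃ₐ[ℚ] L), I.IsPrime → (N : 𝓞 L) ∈ I →
      MulAction.stabilizer (L ≃ₐ[ℚ] L) I = Subgroup.zpowers g →
      ∃ l : ℕ, l.Coprime (orderOf g) ∧ χ (g ^ l) = ZMod.unitOfCoprime N hN ∧
        (N % 3 = 1 → ∀ ρ : PP, (N : Eis) = ρ.1 * conj ρ.1 →
          (F (g ^ l) ↔ (∀ j : Fin s, sym ρ.1 (b j.castSucc : Eis) = 0) ∧
            sym ρ.1 (b (Fin.last s) : Eis) ≠ 0) ∧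
          (F (g ^ l) → ∀ j i : Fin s, j ≠ i → ∀ r : ℤ, (N : ℤ) ∣ r ^ 3 - b j.castSucc →
            tt (g ^ l) j i = TAUVS ρ.1 (rs p j i) (rs q j i) (rs p' j i) (rs q' j i) r) ∧
          (sym ρ.1 x = 0 → (∀ j, sym ρ.1 (u j) = 0) → F₂ (g ^ l) ∧
            ∀ (j : Fin k) (r r' : Eis), ρ.1 ∣ r ^ 3 - x → conj ρ.1 ∣ r' ^ 3 - x →
              T (g ^ l) j = TAUP ρ.1 (P j) (Q j) (P' j) (Q' j) r +
                TAUP (conj ρ.1) (P j) (Q j) (P' j) (Q' j) r'))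

/-- PTK_JAZ: summary of the joint governing field, `Q = 1 (mod 3)`, all rational classes cubes modulo `Q`.
Proof. As `JAU`; `F₀ g`: `g (ι w) = ι w` and `g` fixes the roots of all `b j`. (`τ g τ⁻¹`: `τ⁻¹ ρ` is a root of `b j`.) Clause 7: `GKUM` for every
vector: `{χ g = a}` is the disjoint union of the `3^s` translates (by `GKUM` elements) of `{χ g = a ∧ F₀ g}` (an element `g` with `g ω = ω`
multiplies the roots of `b j` by `ω^(v j)`); `M1 (χ g)` gives `g (ι w) = ι w`. Frobenius: `sym ρ (b j) = 0` for all `j` implies that `φ` fixes the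
roots: as in `GFRU_thm` (PTN/GFRU.lean; `Dat.fr_root`, for all `j`), for both prime factors of `Q`. -/
def Stmt_JAZ : Prop := ∀ (s : ℕ) (b : Fin s → ℤ) (p q p' q' : Fin s → Fin s → ℤ)
  (k : ℕ) (x : Eis) (u P Q P' Q' : Fin k → Eis) (f : ℕ), SysG b p q p' q' →
  SysK x u P Q P' Q' → 0 < f → 9 ∣ f →
  ∃ (L : Type) (_ : Field L) (_ : NumberField L) (_ : IsGalois ℚ L)
    (χ : (L ≃ₐ[ℚ] L) →* (ZMod f)ˣ) (F₀ : (L ≃ₐ[ℚ] L) → Prop)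
    (F₂ : (L ≃ₐ[ℚ] L) → Prop) (T : (L ≃ₐ[ℚ] L) → Fin k → ZMod 3) (N₀ : ℕ),
    Function.Surjective χ ∧
    (∀ g τ : L ≃ₐ[ℚ] L, M1 (χ g) → F₀ g → F₀ (τ * g * τ⁻¹)) ∧
    (∀ (g : L ≃ₐ[ℚ] L) (l : ℕ), M1 (χ g) → F₀ g → F₀ (g ^ l)) ∧
    (∀ g τ : L ≃ₐ[ℚ] L, M1 (χ g) → F₂ g → F₂ (τ * g * τ⁻¹) ∧ T (τ * g * τ⁻¹) = T g) ∧
    (∀ (g : L ≃ₐ[ℚ] L) (l : ℕ), M1 (χ g) → F₂ g → F₂ (g ^ l) ∧
      T (g ^ l) = (l : ZMod 3) • T g) ∧
    (∀ (a : (ZMod f)ˣ) (y y' : Fin k → ZMod 3), M1 a →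
      Nat.card {g : L ≃ₐ[ℚ] L // χ g = a ∧ F₀ g ∧ F₂ g ∧ T g = y} =
        Nat.card {g : L ≃ₐ[ℚ] L // χ g = a ∧ F₀ g ∧ F₂ g ∧ T g = y'}) ∧
    (∀ a : (ZMod f)ˣ, M1 a → 3 ^ s * Nat.card {g : L ≃ₐ[ℚ] L // χ g = a ∧ F₀ g} =
      Nat.card {g : L ≃ₐ[ℚ] L // χ g = a}) ∧
    ∀ (N : ℕ) (hN : N.Coprime f), N.Prime → N₀ < N →
      ∀ (I : Ideal (𝓞 L)) (g : L ≃ₐ[ℚ] L), I.IsPrime → (N : 𝓞 L) ∈ I →
      MulAction.stabilizer (L ≃ₐ[ℚ] L) I = Subgroup.zpowers g →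
      ∃ l : ℕ, l.Coprime (orderOf g) ∧ χ (g ^ l) = ZMod.unitOfCoprime N hN ∧
        (N % 3 = 1 → ∀ ρ : PP, (N : Eis) = ρ.1 * conj ρ.1 →
          ((∀ j : Fin s, sym ρ.1 (b j : Eis) = 0) → F₀ (g ^ l)) ∧
          (sym ρ.1 x = 0 → (∀ j, sym ρ.1 (u j) = 0) → F₂ (g ^ l) ∧
            ∀ (j : Fin k) (r r' : Eis), ρ.1 ∣ r ^ 3 - x → conj ρ.1 ∣ r' ^ 3 - x →
              T (g ^ l) j = TAUP ρ.1 (P j) (Q j) (P' j) (Q' j) r +
                TAUP (conj ρ.1) (P j) (Q j) (P' j) (Q' j) r'))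

/-! ### `Q = 1 (mod 3)`: densities -/

/-- PTK_DNS1: as `DNS`, for `Q = 1 (mod 3)`.
Proof. As `DNS_thm` (PTK/DNS.lean) with `M1` in place of `M2` (see `BDU_thm` in PTN/BDU.lean; two generators of a finite cyclic group
are powers of each other with an exponent prime to `3`). -/
def Stmt_DNS1 : Prop := ∀ (f m : ℕ) (κ : (ZMod f)ˣ →* Multiplicative (Fin (m + 1) → ZMod 3))
  (c : Fin (m + 1) → ZMod 3) (L : Type) [Field L] [NumberField L] [IsGalois ℚ L]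
  (χ : (L ≃ₐ[ℚ] L) →* (ZMod f)ˣ) (B : (L ≃ₐ[ℚ] L) → Prop) (S : Set ℕ) (N₀ : ℕ),
  0 < f → 9 ∣ f → Function.Surjective χ →
  (∀ g h τ : L ≃ₐ[ℚ] L, B g → Subgroup.zpowers h = Subgroup.zpowers (τ * g * τ⁻¹) → B h) →
  (∀ g, B g → M1 (χ g) ∧ ((κ (χ g)).toAdd = c ∨ (κ (χ g)).toAdd = -c)) →
  (∀ (Q : ℕ) (hQ : Q.Coprime f), Q.Prime → N₀ < Q → ∀ (P : Ideal (𝓞 L)) (g : L ≃ₐ[ℚ] L),
    P.IsPrime → (Q : 𝓞 L) ∈ P → MulAction.stabilizer (L ≃ₐ[ℚ] L) P = Subgroup.zpowers g →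
    (∃ k : ℕ, k.Coprime (orderOf g) ∧ χ (g ^ k) = ZMod.unitOfCoprime Q hQ) ∧ (Q ∈ S → B g)) →
  (∀ (Q : ℕ) (hQ : Q.Coprime f), Q.Prime → N₀ < Q → Q ∈ S → Q % 3 = 1 ∧
    ((κ (ZMod.unitOfCoprime Q hQ)).toAdd = c ∨ (κ (ZMod.unitOfCoprime Q hQ)).toAdd = -c)) →
  ∃ K : ℝ, ∀ σ : ℝ, 1 < σ → σ ≤ 2 → BDENS.sm S σ ≤
    (Nat.card {g : L ≃ₐ[ℚ] L // B g} : ℝ) / Nat.card (L ≃ₐ[ℚ] L) * Real.log (1 / (σ - 1)) + K

/-- the primes `N = 1 (mod 3)` with prescribed `TAUP`, exponent `1`, class `c` -/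
def SPKU {k f m : ℕ} (x : Eis) (u P Q P' Q' : Fin k → Eis)
    (κ : (ZMod f)ˣ →* Multiplicative (Fin (m + 1) → ZMod 3)) (c : Fin (m + 1) → ZMod 3)
    (C : Fin k → ZMod 3) (Φ : (ZMod f)ˣ →* Multiplicative (Fin k → ZMod 3)) : Set ℕ :=
  {N : ℕ | ∃ hN : N.Coprime f, N % 3 = 1 ∧ (κ (ZMod.unitOfCoprime N hN)).toAdd = c ∧
    ∀ ρ : PP, (N : Eis) = ρ.1 * conj ρ.1 → sym ρ.1 x = 0 ∧ (∀ j, sym ρ.1 (u j) = 0) ∧
      ∀ (j : Fin k) (r r' : Eis), ρ.1 ∣ r ^ 3 - x → conj ρ.1 ∣ r' ^ 3 - x →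
        TAUP ρ.1 (P j) (Q j) (P' j) (Q' j) r + TAUP (conj ρ.1) (P j) (Q j) (P' j) (Q' j) r' =
          C j + (Φ (ZMod.unitOfCoprime N hN)).toAdd j}

/-- the primes `N = 1 (mod 3)` with prescribed `TAUP`, exponent `2`, class `-c` -/
def SMKU {k f m : ℕ} (x : Eis) (u P Q P' Q' : Fin k → Eis)
    (κ : (ZMod f)ˣ →* Multiplicative (Fin (m + 1) → ZMod 3)) (c : Fin (m + 1) → ZMod 3)
    (C : Fin k → ZMod 3) (Φ : (ZMod f)ˣ →* Multiplicative (Fin k → ZMod 3)) : Set ℕ :=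
  {N : ℕ | ∃ hN : N.Coprime f, N % 3 = 1 ∧ (κ (ZMod.unitOfCoprime N hN)).toAdd = -c ∧
    ∀ ρ : PP, (N : Eis) = ρ.1 * conj ρ.1 → sym ρ.1 x = 0 ∧ (∀ j, sym ρ.1 (u j) = 0) ∧
      ∀ (j : Fin k) (r r' : Eis), ρ.1 ∣ r ^ 3 - x → conj ρ.1 ∣ r' ^ 3 - x →
        TAUP ρ.1 (P j) (Q j) (P' j) (Q' j) r + TAUP (conj ρ.1) (P j) (Q j) (P' j) (Q' j) r' =
          - C j + (Φ (ZMod.unitOfCoprime N hN)).toAdd j}

/-- the primes `N = 1 (mod 3)` modulo which all the `b i` are cubes -/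
def ZP {s : ℕ} (b : Fin s → ℤ) : Set ℕ :=
  {N : ℕ | ∀ ρ : PP, (N : Eis) = ρ.1 * conj ρ.1 → ∀ i, sym ρ.1 (b i : Eis) = 0}

/-- PTK_BDJU: the bound for the density, `Q = 1 (mod 3)`, generic pattern.
Proof. As `BDU_thm` (PTN/BDU.lean) and `BDJ`, with `JAU`, `DNS1`. `XP g : M1 (χ g) ∧ κ (χ g) = c ∧ F g ∧ F₂ g ∧ T g = C' + Φ' (χ g) ∧
tn ≤ s - rank (alt (C + Φ (χ g) + tt g))`, `XM g : M1 (χ g) ∧ κ (χ g) = -c ∧ F g ∧ F₂ g ∧ T g = - C' + Φ' (χ g) ∧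
tn ≤ s - rank (alt (C - Φ (χ g) - tt g))`; preserved by powers `= 1 (mod 3)`, exchanged by powers `= 2 (mod 3)`. Roots `r`, `r'` of `x` modulo `ρ`, `conj ρ`
exist because the symbols are `0` (`LCI.cube_root` in PTK/LCI.lean; `sym (conj ρ) x = sym ρ x`, see `GFKU`). Counting: as in `BDJ`, with
`#{χ g = a ∧ F g ∧ F₂ g} ≤ #{χ g = a ∧ F g} = (2 / 3^(s+1)) #{χ g = a}`. -/
def Stmt_BDJU : Prop := ∀ (s : ℕ) (b : Fin (s + 1) → ℤ)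
  (p q p' q' : Fin (s + 1) → Fin (s + 1) → ℤ)
  (k : ℕ) (x : Eis) (u P Q P' Q' : Fin k → Eis) (f m tn : ℕ)
  (κ : (ZMod f)ˣ →* Multiplicative (Fin (m + 1) → ZMod 3)) (c : Fin (m + 1) → ZMod 3)
  (C : Fin s → Fin s → ZMod 3) (Φ : (ZMod f)ˣ →* Multiplicative (Fin s → Fin s → ZMod 3))
  (C' : Fin k → ZMod 3) (Φ' : (ZMod f)ˣ →* Multiplicative (Fin k → ZMod 3)),
  SysG b p q p' q' → SysK x u P Q P' Q' → 0 < f → 9 ∣ f →
  (∀ c : Fin (m + 1) → ZMod 3,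
    Nat.card {a : (ZMod f)ˣ // M1 a ∧ (κ a).toAdd = c} * (2 * 3 ^ (m + 1)) = f.totient) →
  ∃ K : ℝ, ∀ σ : ℝ, 1 < σ → σ ≤ 2 →
    BDENS.sm (SPU b p q p' q' tn κ c C Φ ∩ SPKU x u P Q P' Q' κ c C' Φ') σ +
      BDENS.sm (SMU b p q p' q' tn κ c C Φ ∩ SMKU x u P Q P' Q' κ c C' Φ') σ ≤
      2 / 3 ^ (s + 1) * LI s tn / 3 ^ k / 3 ^ (m + 1) * Real.log (1 / (σ - 1)) + K

/-- PTK_BDJZ: the bound for the density, `Q = 1 (mod 3)`, all rational classes cubes modulo `Q`.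
Proof. As `BDJU`, with `JAZ`, without the matrix; `F₀` in place of `F`, `#{χ g = a ∧ F₀ g} = #{χ g = a} / 3^s`. (A prime `N = 1 (mod 3)` has a `ρ`
with `N = ρ conj ρ`: `SPLT`.) -/
def Stmt_BDJZ : Prop := ∀ (s : ℕ) (b : Fin s → ℤ) (p q p' q' : Fin s → Fin s → ℤ)
  (k : ℕ) (x : Eis) (u P Q P' Q' : Fin k → Eis) (f m : ℕ)
  (κ : (ZMod f)ˣ →* Multiplicative (Fin (m + 1) → ZMod 3)) (c : Fin (m + 1) → ZMod 3)
  (C' : Fin k → ZMod 3) (Φ' : (ZMod f)ˣ →* Multiplicative (Fin k → ZMod 3)),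
  SysG b p q p' q' → SysK x u P Q P' Q' → 0 < f → 9 ∣ f →
  (∀ c : Fin (m + 1) → ZMod 3,
    Nat.card {a : (ZMod f)ˣ // M1 a ∧ (κ a).toAdd = c} * (2 * 3 ^ (m + 1)) = f.totient) →
  ∃ K : ℝ, ∀ σ : ℝ, 1 < σ → σ ≤ 2 →
    BDENS.sm (ZP b ∩ SPKU x u P Q P' Q' κ c C' Φ') σ +
      BDENS.sm (ZP b ∩ SMKU x u P Q P' Q' κ c C' Φ') σ ≤
      1 / 3 ^ s / 3 ^ k / 3 ^ (m + 1) * Real.log (1 / (σ - 1)) + K

/-! ### `Q = 1 (mod 3)`: the relation -/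

/-- PTK_DP4U: the local term at a prime factor of `Q`.
Proof. As `DP4_thm` (PTK/DP4.lean): `V π Q = 1` (`Q = ρ conj ρ`, `π` is associated to exactly one of them; `SPP`, last part), `V π B = E`. -/
def Stmt_DP4U : Prop := ∀ (N : ℕ) (b x p q p' q' : Eis), HypD N b x p q p' q' →
  ∀ (π : PP) (E Q : ℕ) (X Y ξ : Eis), HypP N b x p q p' q' E Q X Y → Q % 3 = 1 →
    π.1 ∣ (Q : Eis) → ¬ π.1 ∣ (N : Eis) →
    ¬ π.1 ∣ (p ^ 3 + x * q ^ 3) * (p' ^ 3 + x * q' ^ 3) → π.1 ∣ ξ ^ 3 - x →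
    SVE (tm π.1) x p (-p') (-q) q' X Y = - (E * TAUP π.1 p q p' q' ξ)

/-- PTK_DCKU: the relation for the Frobenius invariant of `Q`, `Q = 1 (mod 3)`.
Proof. As `DCK_thm` (PTK/DCK.lean); `Q` has the two places `ρ`, `conj ρ` (`conj ρ.1 = π'.1` for a `π' : PP`, `SPP`), with the terms
`- E TAUP ρ .. ξ`, `- E TAUP (conj ρ) .. ξ'` by `DP4U`. -/
def Stmt_DCKU : Prop := ∀ (N : ℕ) (b x p q p' q' : Eis), HypD N b x p q p' q' →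
  ∃ f₀ : ℕ, 0 < f₀ ∧ ∀ f : ℕ, 0 < f → f₀ ∣ f →
  ∃ (C : ZMod 3) (Φ : (ZMod f)ˣ →* Multiplicative (ZMod 3)) (N₀ : ℕ),
    ∀ (E Q : ℕ) (hQ : Q.Coprime f) (ρ : PP), (E = 1 ∨ E = 2) → Q.Prime → N₀ < Q → Q % 3 = 1 →
      (Q : Eis) = ρ.1 * conj ρ.1 →
      (∀ σ : PP, tm σ.1 b ((N : Eis) * (Q : Eis) ^ E) = 0) →
      (∀ σ : PP, tm σ.1 x ((N : Eis) * (Q : Eis) ^ E) = 0) →
      ∀ X Y ξ ξ' : Eis, PtE ((N : Eis) * (Q : Eis) ^ E) x X Y → ρ.1 ∣ ξ ^ 3 - x →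
        conj ρ.1 ∣ ξ' ^ 3 - x →
        C + E * ((Φ (ZMod.unitOfCoprime Q hQ)).toAdd - TAUP ρ.1 p q p' q' ξ -
          TAUP (conj ρ.1) p q p' q' ξ') = 0

end Pool.Agent.PTK
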