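import Pool.Agent.PTK.DCK
import Pool.Agent.PTK.StJ

/-!
# PTK_DCKU: the relation for the Frobenius invariant of `Q`, `Q = 1 (mod 3)`
-/

set_option autoImplicit false

namespace Pool.Agent.PTK

open Pool.Agent.Lib_helper18 Pool.Agent.Lib_helper18.Eis Pool.Agent.Lib_helper84.Cub
open Pool.Agent.PT

namespace DCKU

/-- a place above a split prime is not associated to its conjugate -/
lemma not_assoc (hSPP : SPP) {ρ : PP} {Q : ℕ} (hQ : Q.Prime)
    (hρ : (Q : Eis) = ρ.1 * conj ρ.1) : ¬ Associated ρ.1 (conj ρ.1) := by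
  obtain ⟨l, hl, ⟨-, h2⟩ | ⟨-, -, -, h3⟩⟩ := hSPP.2.2.2.2.2 ρ
  · exfalso
    rw [mul_conj, h2, norm_natCast] at hρ
    have h4 : ((Q : ℤ) : Eis) = (((l : ℤ) ^ 2 : ℤ) : Eis) := by
      rw [Int.cast_natCast]
      exact hρ
    have h5 := congrArg Eis.re h4
    rw [intCast_re, intCast_re] at h5
    have h6 : Q = l ^ 2 := by exact_mod_cast h5
    rw [h6] at hQ
    exact Nat.Prime.not_prime_pow (le_refl 2) hQ
  · exact h3

end DCKU

open DPA DCK DCKU in
/-- PTK_DCKU. -/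
theorem DCKU_thm (hSPP : SPP) (hDP1 : Stmt_DP1) (hDP2 : Stmt_DP2) (hDP3 : Stmt_DP3)
    (hDP4U : Stmt_DP4U) (hSVF : Stmt_SVF) : Stmt_DCKU := by
  intro N b x p q p' q' HD
  have hn1 := HD.sol.n1
  have hn2 := SolE_n1' HD.sol
  obtain ⟨m1, hm1⟩ : ∃ m : ℕ, m = (p ^ 3 + x * q ^ 3).norm.natAbs := ⟨_, rfl⟩
  obtain ⟨m2, hm2⟩ : ∃ m : ℕ, m = (p' ^ 3 + x * q' ^ 3).norm.natAbs := ⟨_, rfl⟩
  have hm1d : p ^ 3 + x * q ^ 3 ∣ (m1 : Eis) := by rw [hm1]; exact dvd_natAbs_norm _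
  have hm2d : p' ^ 3 + x * q' ^ 3 ∣ (m2 : Eis) := by rw [hm2]; exact dvd_natAbs_norm _
  have hm1p : 0 < m1 := by
    rw [hm1]
    exact Int.natAbs_pos.2 (norm_pos hn1).ne'
  have hm2p : 0 < m2 := by
    rw [hm2]
    exact Int.natAbs_pos.2 (norm_pos hn2).ne'
  obtain ⟨M, hMdef⟩ : ∃ M : ℕ, M = N * m1 * m2 := ⟨_, rfl⟩
  have hMp : 0 < M := by
    rw [hMdef]
    exact Nat.mul_pos (Nat.mul_pos HD.N0 hm1p) hm2p
  have hMe : (M : Eis) = (N : Eis) * (m1 : Eis) * (m2 : Eis) := by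
    rw [hMdef]
    push_cast
    ring
  have hM0 : (M : Eis) ≠ 0 := nat_ne hMp.ne'
  have dN : (N : Eis) ∣ (M : Eis) := by
    rw [hMe, mul_assoc]
    exact Dvd.intro _ rfl
  have d1 : p ^ 3 + x * q ^ 3 ∣ (M : Eis) := by
    rw [hMe]
    exact dvd_mul_of_dvd_left (dvd_mul_of_dvd_right hm1d _) _
  have d2 : p' ^ 3 + x * q' ^ 3 ∣ (M : Eis) := by
    rw [hMe]
    exact dvd_mul_of_dvd_right hm2d _
  have hfin := hSPP.2.2.1 (M : Eis) hM0
  refine ⟨9 * M, by omega, ?_⟩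
  intro f hf0 hf
  have h9 : 9 ∣ f := (Dvd.intro _ rfl).trans hf
  have hf1 : 1 < f := by
    have := Nat.le_of_dvd hf0 h9
    omega
  have hMf : M ∣ f := (Dvd.intro_left 9 rfl).trans hf
  have hMfe : (M : Eis) ∣ (f : Eis) := by
    obtain ⟨k, hk⟩ := hMf
    rw [hk]
    push_cast
    exact Dvd.intro _ rfl
  obtain ⟨C₀, Φ₀, H₀⟩ := hDP2 N b x p q p' q' HD f hf1 h9
  have hpl : ∀ π : PP, ∃ (c : ZMod 3) (Φ : (ZMod f)ˣ →* Multiplicative (ZMod 3)),
      π.1 ∣ (M : Eis) → ∀ (E Q : ℕ) (hQ : Q.Coprime f) (X Y : Eis),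
        HypP N b x p q p' q' E Q X Y →
        SVE (tm π.1) x p (-p') (-q) q' X Y = c + E * (Φ (ZMod.unitOfCoprime Q hQ)).toAdd := by
    intro π
    by_cases hπM : π.1 ∣ (M : Eis)
    · obtain ⟨C, Φ, H⟩ := hDP1 N b x p q p' q' HD π f hf1 (hπM.trans hMfe)
      exact ⟨C, Φ, fun _ => H⟩
    · exact ⟨0, 1, fun h => absurd h hπM⟩
  choose c Φ H using hpl
  refine ⟨C₀ + ∑ π ∈ hfin.toFinset, c π, Φ₀ * ∏ π ∈ hfin.toFinset, Φ π, 0, ?_⟩
  intro E Q hQ πQ hE hQp _ hQ3 hπQ hsb hsx X Y ξ ξ' hpt hξ hξ'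
  obtain ⟨πR, hπR⟩ := (hSPP.2.2.2.1 πQ).2
  have hna : ¬ Associated πQ.1 (conj πQ.1) := not_assoc hSPP hQp hπQ
  have hdQ : πQ.1 ∣ (Q : Eis) := by
    rw [hπQ]
    exact Dvd.intro _ rfl
  have hdR : πR.1 ∣ (Q : Eis) := by
    rw [hπQ, hπR]
    exact Dvd.intro_left _ rfl
  have hQRne : πQ ≠ πR := by
    intro h
    apply hna
    rw [← hπR, ← h]
  have hcop : IsCoprime (Q : Eis) (M : Eis) := by
    have h1 : Nat.Coprime Q M := Nat.Coprime.coprime_dvd_right hMf hQ
    have h2 : IsCoprime (Q : ℤ) (M : ℤ) := Nat.isCoprime_iff_coprime.2 h1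
    have h3 := h2.map (Int.castRingHom Eis)
    simpa using h3
  have hnd : ∀ π : PP, π.1 ∣ (Q : Eis) → ¬ π.1 ∣ (M : Eis) := fun π h1 h2 =>
    π.2.1.not_unit (hcop.isUnit_of_dvd' h1 h2)
  have hQM : ¬ πQ.1 ∣ (M : Eis) := hnd πQ hdQ
  have hRM : ¬ πR.1 ∣ (M : Eis) := hnd πR hdR
  have hQN : ¬ πQ.1 ∣ (N : Eis) := fun h => hQM (h.trans dN)
  have hRN : ¬ πR.1 ∣ (N : Eis) := fun h => hRM (h.trans dN)
  have hQN' : ¬ πQ.1 ∣ (N : Eis) * (conj πQ.1) ^ E := by
    intro h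
    rcases πQ.2.1.dvd_or_dvd h with h1 | h1
    · exact hQN h1
    · have h2 := πQ.2.1.dvd_of_dvd_pow h1
      rw [← hπR] at h2
      exact hQRne (hSPP.2.1 πQ πR (πQ.2.1.associated_of_dvd πR.2.1 h2))
  obtain ⟨hQb, hQx⟩ := HD.unr πQ hQN
  obtain ⟨k, hk, hkE⟩ := hpt.eq
  have hBe : (N : Eis) * (Q : Eis) ^ E = ((N : Eis) * (conj πQ.1) ^ E) * πQ.1 ^ E := by
    rw [hπQ, mul_pow]
    ring
  have hdn : DNE X Y p (-p') (-q) q' := by
    have hA := fun i => dne_aux (π := πQ) hE (X := X) (Y := Y) (u := q) (v := p) hBe hQN' hQx hk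
      hpt.hY hkE (fun h => hQM (h.trans d1)) i
    have hA' := fun i => dne_aux (π := πQ) hE (X := X) (Y := Y) (u := q') (v := p') hBe hQN' hQx hk
      hpt.hY hkE (fun h => hQM (h.trans d2)) i
    refine ⟨?_, ?_, ?_, ?_⟩
    · intro h
      apply hA 1
      unfold DfE at h
      linear_combination - h
    · intro h
      apply hA 2
      unfold DfE at h
      linear_combination - h
    · intro h
      apply hA' 1
      unfold DfE at h
      linear_combination h
    · intro h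
      apply hA' 2
      unfold DfE at h
      linear_combination h
  have HP : HypP N b x p q p' q' E Q X Y := ⟨hE, hQp, hsb, hsx, hpt, hdn⟩
  have hn0 := n0_ne HD HP
  obtain ⟨-, hsum0⟩ := hSVF b x p (-p') (-q) q' X Y HD.hb HD.hx (SolE_flip HD.sol) hpt.hX hpt.hY
    hn0 hdn
  -- the places above `Q`
  have hTQ : SVE (tm πQ.1) x p (-p') (-q) q' X Y = - (E * TAUP πQ.1 p q p' q' ξ) := by
    refine hDP4U N b x p q p' q' HD πQ E Q X Y ξ HP hQ3 hdQ hQN ?_ hξ
    intro h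
    rcases πQ.2.1.dvd_or_dvd h with h1 | h1
    · exact hQM (h1.trans d1)
    · exact hQM (h1.trans d2)
  have hTR : SVE (tm πR.1) x p (-p') (-q) q' X Y = - (E * TAUP πR.1 p q p' q' ξ') := by
    refine hDP4U N b x p q p' q' HD πR E Q X Y ξ' HP hQ3 hdR hRN ?_ ?_
    · intro h
      rcases πR.2.1.dvd_or_dvd h with h1 | h1
      · exact hRM (h1.trans d1)
      · exact hRM (h1.trans d2)
    · rw [hπR]
      exact hξ'
  -- the sum
  have hQS : πQ ∉ hfin.toFinset := by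
    rw [Set.Finite.mem_toFinset]
    exact hQM
  have hRS : πR ∉ hfin.toFinset := by
    rw [Set.Finite.mem_toFinset]
    exact hRM
  classical
  have hsupp : (Function.support fun v : Pl => SVE (sy v) x p (-p') (-q) q' X Y) ⊆
      ((insert none (insert (some πQ) (insert (some πR) (hfin.toFinset.image some))) :
        Finset Pl) : Set Pl) := by
    intro v hv
    by_contra hnv
    apply hv
    rcases v with _ | π
    · exact absurd (Finset.mem_coe.2 (Finset.mem_insert_self _ _)) hnv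
    · have hnM : ¬ π.1 ∣ (M : Eis) := by
        intro h
        apply hnv
        rw [Finset.mem_coe]
        refine Finset.mem_insert_of_mem (Finset.mem_insert_of_mem (Finset.mem_insert_of_mem
          (Finset.mem_image_of_mem _ ?_)))
        rw [Set.Finite.mem_toFinset]
        exact h
      have hπne : π ≠ πQ := by
        rintro rfl
        apply hnv
        rw [Finset.mem_coe]
        exact Finset.mem_insert_of_mem (Finset.mem_insert_self _ _)
      have hπne' : π ≠ πR := by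
        rintro rfl
        apply hnv
        rw [Finset.mem_coe]
        exact Finset.mem_insert_of_mem (Finset.mem_insert_of_mem (Finset.mem_insert_self _ _))
      have hπQnd : ¬ π.1 ∣ (Q : Eis) := by
        rw [hπQ]
        intro h
        rcases π.2.1.dvd_or_dvd h with h1 | h1
        · exact hπne (hSPP.2.1 π πQ (π.2.1.associated_of_dvd πQ.2.1 h1))
        · rw [← hπR] at h1
          exact hπne' (hSPP.2.1 π πR (π.2.1.associated_of_dvd πR.2.1 h1))
      refine hDP3 N b x p q p' q' HD π E Q X Y HP (fun h => hnM (h.trans dN)) hπQnd ?_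
      intro h
      rcases π.2.1.dvd_or_dvd h with h1 | h1
      · exact hnM (h1.trans d1)
      · exact hnM (h1.trans d2)
  have hn_notin : (none : Pl) ∉ insert (some πQ) (insert (some πR) (hfin.toFinset.image some)) := by
    simp
  have hR_notin : (some πR : Pl) ∉ hfin.toFinset.image some := by
    intro h
    obtain ⟨y, hy, hy'⟩ := Finset.mem_image.1 h
    rw [Option.some.injEq] at hy'
    rw [hy'] at hy
    exact hRS hy
  have hQ_notin : (some πQ : Pl) ∉ insert (some πR) (hfin.toFinset.image some) := by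
    intro h
    rcases Finset.mem_insert.1 h with h | h
    · rw [Option.some.injEq] at h
      exact hQRne h
    · obtain ⟨y, hy, hy'⟩ := Finset.mem_image.1 h
      rw [Option.some.injEq] at hy'
      rw [hy'] at hy
      exact hQS hy
  have hsum : ∑ π ∈ hfin.toFinset, SVE (sy (some π)) x p (-p') (-q) q' X Y =
      ∑ π ∈ hfin.toFinset, (c π + E * (Φ π (ZMod.unitOfCoprime Q hQ)).toAdd) := by
    refine Finset.sum_congr rfl ?_
    intro π hπ
    rw [Set.Finite.mem_toFinset] at hπ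
    exact H π hπ E Q hQ X Y HP
  rw [finsum_eq_sum_of_support_subset _ hsupp, Finset.sum_insert hn_notin,
    Finset.sum_insert hQ_notin, Finset.sum_insert hR_notin,
    Finset.sum_image (fun _ _ _ _ h => Option.some_injective _ h), hsum] at hsum0
  have e1 : SVE (sy none) x p (-p') (-q) q' X Y =
      C₀ + E * (Φ₀ (ZMod.unitOfCoprime Q hQ)).toAdd := H₀ E Q hQ X Y HP
  have e2 : SVE (sy (some πQ)) x p (-p') (-q) q' X Y = - (E * TAUP πQ.1 p q p' q' ξ) := hTQ
  have e3 : SVE (sy (some πR)) x p (-p') (-q) q' X Y = - (E * TAUP πR.1 p q p' q' ξ') := hTR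
  rw [e1, e2, e3, Finset.sum_add_distrib, ← Finset.mul_sum] at hsum0
  rw [MonoidHom.mul_apply, MonoidHom.finsetProd_apply, toAdd_mul, toAdd_prod, ← hπR]
  linear_combination hsum0

end Pool.Agent.PTK
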