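import Pool.Agent.PTK.DPA

/-!
# PTK_DP4: the local term of a point at `Q`
-/

set_option autoImplicit false

namespace Pool.Agent.PTK

open Pool.Agent.Lib_helper18 Pool.Agent.Lib_helper18.Eis Pool.Agent.Lib_helper84.Cub
open Pool.Agent.PT

namespace DP4

open DPA

/-- the symbol at an inert prime -/
lemma tm_inert {Q : Eis} {n : Eis} (hQ : Prime Q) (hn : ¬ Q ∣ n) {L : Eis}
    (hL : ¬ Q ∣ L) (E : ℕ) : tm Q (n * Q ^ E) L = - (E * sym Q L) := by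
  have h1 : V Q (n * Q ^ E) = E := by
    rw [V_mul_not_dvd hQ hn (pow_ne_zero _ hQ.ne_zero), V_pow hQ hQ.ne_zero, V_self, mul_one]
  have h2 : up Q L = L := by
    unfold up
    rw [V_eq_zero hL, pow_zero, EuclideanDomain.div_one]
  unfold tm
  rw [V_eq_zero hL, h1]
  unfold ch
  rw [h2]
  simp

lemma LfE_per (p q r : Eis) (i : ℕ) : LfE p q (i + 3) r = LfE p q i r := by
  unfold LfE
  rw [pow_add, w_cube, mul_one]

lemma LfE_shift (p q r : Eis) (i : ℕ) : LfE p q i (w * r) = LfE p q (i + 1) r := by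
  unfold LfE
  ring

lemma LfE_prod (p q r : Eis) : LfE p q 0 r * LfE p q 1 r * LfE p q 2 r = p ^ 3 + q ^ 3 * r ^ 3 := by
  have h1 : w ^ 3 = 1 := w_cube
  have h2 : w ^ 2 + w + 1 = 0 := w_rel
  unfold LfE
  linear_combination (q ^ 3 * r ^ 3) * h1 + (p ^ 2 * q * r + p * q ^ 2 * r ^ 2 * w) * h2

end DP4

open DPA DP4 in
/-- PTK_DP4. -/
theorem DP4_thm (hSTM : STM) (hSPP : SPP) (hIF4 : Stmt_IF4) (hLCI : Stmt_LCI) : Stmt_DP4 := by
  intro N b x p q p' q' HD π E Q X Y ξ HP hQ3 hπQ hπN hπM hξ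
  have h3 : ¬ π.1 ∣ 3 := (hSPP.2.2.2.1 π).1
  have hs : LSym π.1 (tm π.1) 1 := hSTM π.1 π.2.1 h3
  obtain ⟨hπb, hπx⟩ := HD.unr π hπN
  have hVx0 : V π.1 x = 0 := V_eq_zero hπx
  have hVb0 : V π.1 b = 0 := V_eq_zero hπb
  have hB := B_ne HD HP
  have hn0 := n0_ne HD HP
  have hVB : V π.1 ((N : Eis) * (Q : Eis) ^ E) = E := by
    rw [← hπQ, V_mul_not_dvd π.2.1 hπN (pow_ne_zero _ π.2.1.ne_zero), V_pow π.2.1 π.2.1.ne_zero,
      V_self, mul_one]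
  have hE0 : (E : ZMod 3) ≠ 0 := by
    rcases HP.hE with h | h
    · rw [h]; decide
    · rw [h]; decide
  have hcub : ∀ a : Eis, V π.1 a = 0 → tm π.1 a ((N : Eis) * (Q : Eis) ^ E) = 0 →
      ch π.1 a = 0 := by
    intro a ha h
    unfold tm at h
    rw [hVB, ha] at h
    simp only [Nat.cast_zero, zero_mul, sub_zero] at h
    exact (mul_eq_zero.1 h).resolve_left hE0
  have hLx : LCE π.1 x := (hLCI.1 π x HD.hx).2 ⟨by rw [hVx0]; exact dvd_zero 3,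
    hcub x hVx0 (HP.sx π)⟩
  have hcb := hcub b hVb0 (HP.sb π)
  have hLb : LCE π.1 b := (hLCI.1 π b HD.hb).2 ⟨by rw [hVb0]; exact dvd_zero 3, hcb⟩
  obtain ⟨N1, H1⟩ := core hIF4 hLCI hs HD HP hLx
  obtain ⟨ξ', hξ'⟩ := hLx (N1 + 1)
  obtain ⟨hF, -, h1⟩ := H1 ξ' ((pow_dvd_pow _ (by omega)).trans hξ')
  have h4 : π.1 ∣ ξ' ^ 3 - x := by
    have h4 : π.1 ^ 1 ∣ ξ' ^ 3 - x := (pow_dvd_pow _ (by omega)).trans hξ'
    rwa [pow_one] at h4
  have hb0 : ∀ i, tm π.1 (LfE X Y i ξ') b = 0 := by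
    intro i
    rw [hs.skew b (LfE X Y i ξ') HD.hb (hF i),
      hLCI.2.2 π.1 (tm π.1) 1 b _ hs hLb HD.hb (hF i), neg_zero]
  have hM1 : ¬ π.1 ∣ p ^ 3 + x * q ^ 3 := fun h => hπM (dvd_mul_of_dvd_left h _)
  have hM2 : ¬ π.1 ∣ p' ^ 3 + x * q' ^ 3 := fun h => hπM (dvd_mul_of_dvd_right h _)
  have k1 := LfE_ndvd (p := p) (q := q) h4 hM1
  have k2 := LfE_ndvd (p := p') (q := q') h4 hM2
  have hQe : (Q : Eis) = π.1 := hπQ.symm
  rw [hQe] at hξ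
  rw [h1, hb0, hb0, add_zero, sub_zero]
  have h5 : ASE (tm π.1) ((N : Eis) * (Q : Eis) ^ E) p q p' q' ξ' = - (E * TAUE Q p q p' q' ξ') := by
    unfold ASE TAUE
    rw [hQe, tm_inert π.2.1 hπN (k1 2), tm_inert π.2.1 hπN (k2 1), tm_inert π.2.1 hπN (k1 1),
      tm_inert π.2.1 hπN (k2 2)]
    ring
  rw [h5]
  congr 2
  -- independence of the cube root
  have hcongr : ∀ r r' : Eis, π.1 ∣ r - r' → TAUE Q p q p' q' r = TAUE Q p q p' q' r' := by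
    intro r r' hr
    have h6 : ∀ (g h : Eis) (i : ℕ), sym (Q : Eis) (LfE g h i r) = sym (Q : Eis) (LfE g h i r') := by
      intro g h i
      apply sym_congr
      have h7 : LfE g h i r - LfE g h i r' = (h * w ^ i) * (r - r') := by
        unfold LfE
        ring
      rw [h7, hQe]
      exact dvd_mul_of_dvd_right hr _
    unfold TAUE
    rw [h6, h6, h6, h6]
  have hshift : ∀ r : Eis, π.1 ∣ r ^ 3 - x → TAUE Q p q p' q' (w * r) = TAUE Q p q p' q' r := by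
    intro r hr
    have m1 := LfE_ndvd (p := p) (q := q) hr hM1
    have m2 := LfE_ndvd (p := p') (q := q') hr hM2
    have h8 : sym π.1 (LfE p q 0 r) + sym π.1 (LfE p q 1 r) + sym π.1 (LfE p q 2 r) =
        sym π.1 b + (sym π.1 (LfE p' q' 0 r) + sym π.1 (LfE p' q' 1 r) +
          sym π.1 (LfE p' q' 2 r)) := by
      rw [← sym_mul π.2.1 h3 (m1 0) (m1 1), ← sym_mul π.2.1 h3 (π.2.1.not_dvd_mul (m1 0) (m1 1)) (m1 2),
        ← sym_mul π.2.1 h3 (m2 0) (m2 1), ← sym_mul π.2.1 h3 (π.2.1.not_dvd_mul (m2 0) (m2 1)) (m2 2),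
        ← sym_mul π.2.1 h3 hπb (π.2.1.not_dvd_mul (π.2.1.not_dvd_mul (m2 0) (m2 1)) (m2 2))]
      apply sym_congr
      rw [LfE_prod, LfE_prod]
      have h9 : p ^ 3 + q ^ 3 * r ^ 3 - b * (p' ^ 3 + q' ^ 3 * r ^ 3) =
          (q ^ 3 - b * q' ^ 3) * (r ^ 3 - x) := by
        linear_combination HD.sol.eq
      rw [h9]
      exact dvd_mul_of_dvd_right hr _
    have h10 : sym π.1 b = 0 := by
      have h11 := hcb
      unfold ch up at h11
      rwa [hVb0, pow_zero, EuclideanDomain.div_one] at h11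
    unfold TAUE
    rw [LfE_shift, LfE_shift, LfE_shift, LfE_shift, hQe]
    have e1 : LfE p q (2 + 1) r = LfE p q 0 r := LfE_per p q r 0
    have e2 : LfE p' q' (2 + 1) r = LfE p' q' 0 r := LfE_per p' q' r 0
    rw [e1, e2]
    rw [h10] at h8
    have h12 : (3 : ZMod 3) = 0 := rfl
    linear_combination h8 - (sym π.1 (LfE p q 2 r) - sym π.1 (LfE p' q' 2 r)) * h12
  have hdiv : π.1 ∣ (ξ' - ξ) * (ξ' - w * ξ) * (ξ' - w * (w * ξ)) := by
    have h13 : (ξ' - ξ) * (ξ' - w * ξ) * (ξ' - w * (w * ξ)) = (ξ' ^ 3 - x) - (ξ ^ 3 - x) := by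
      have h1 : w ^ 3 = 1 := w_cube
      have h2 : w ^ 2 + w + 1 = 0 := w_rel
      linear_combination (- ξ ^ 3) * h1 + (- ξ' ^ 2 * ξ + ξ' * ξ ^ 2 * w) * h2
    rw [h13]
    exact dvd_sub h4 hξ
  have hw3 : ∀ r : Eis, π.1 ∣ r ^ 3 - x → π.1 ∣ (w * r) ^ 3 - x := by
    intro r hr
    rwa [mul_pow, w_cube, one_mul]
  rcases π.2.1.dvd_or_dvd hdiv with h | h
  · rcases π.2.1.dvd_or_dvd h with h | h
    · exact hcongr _ _ h
    · rw [hcongr _ _ h, hshift ξ hξ]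
  · rw [hcongr _ _ h, hshift (w * ξ) (hw3 ξ hξ), hshift ξ hξ]

end Pool.Agent.PTK
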