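import Pool.Agent.PTK.StZ2
import Pool.Agent.PTK.DCKU
import Pool.Agent.PTK.DP4U

/-!
# PTK_DE1: the pairing as a function of the prime `Q = 1 (mod 3)` and of `E`
-/

set_option autoImplicit false

namespace Pool.Agent.PTK

open Pool.Agent.Lib_helper18 Pool.Agent.Lib_helper18.Eis Pool.Agent.Lib_helper84.Cub
open Pool.Agent.PT

namespace DE1

open DPA

lemma B_ne {N Q : ℕ} (hN : 0 < N) (hQ : Q.Prime) (E : ℕ) : (N : Eis) * (Q : Eis) ^ E ≠ 0 :=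
  mul_ne_zero (DCK.nat_ne hN.ne') (pow_ne_zero _ (DCK.nat_ne hQ.ne_zero))

lemma w_ne : w ≠ 0 := by
  intro h
  have := congrArg Eis.im h
  simp at this

/-- the symbol at `λ` from the tame symbols -/
lemma sl_zero {a B : Eis} (h : ∀ σ : PP, tm σ.1 a B = 0) : sl a B = 0 := by
  unfold sl
  rw [finsum_congr h]
  simp

lemma sl_zero' (hSLC : SLC) {a B : Eis} (ha : a ≠ 0) (hB : B ≠ 0)
    (h : ∀ σ : PP, tm σ.1 a B = 0) : sl B a = 0 := by
  rw [hSLC.skew a B ha hB, sl_zero h, neg_zero]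

lemma lam_dvd {f : ℕ} (h9 : 9 ∣ f) : lam ^ 4 ∣ (f : Eis) := by
  have h1 : ((9 : ℤ) : Eis) ∣ ((f : ℤ) : Eis) :=
    intCast_dvd_intCast.2 (by exact_mod_cast h9)
  rw [Int.cast_natCast] at h1
  refine Dvd.dvd.trans ⟨w ^ 4, ?_⟩ h1
  have h2 : ((9 : ℤ) : Eis) = (3 : Eis) ^ 2 := by norm_num
  rw [h2, three_eq]
  ring

/-- The local term at `λ`. -/
lemma place_lam (hAVE : Stmt_AVE) (hSLC : SLC) {N : ℕ} {b x p q p' q' : Eis}
    (HD : HypE N b x p q p' q') {f : ℕ} (hf : 1 < f) (h9 : 9 ∣ f) :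
    ∃ (C : ZMod 3) (Φ : (ZMod f)ˣ →* Multiplicative (ZMod 3)),
      ∀ (E Q : ℕ) (hQ : Q.Coprime f), Q.Prime →
      (∀ σ : PP, tm σ.1 b ((N : Eis) * (Q : Eis) ^ E) = 0) →
      (∀ σ : PP, tm σ.1 x ((N : Eis) * (Q : Eis) ^ E) = 0) →
      LTE ((N : Eis) * (Q : Eis) ^ E) b x p q p' q' =
        C + E * (Φ (ZMod.unitOfCoprime Q hQ)).toAdd := by
  have hs : LSym lam sl 4 := hSLC
  have hlamf := lam_dvd h9
  have hN : (N : Eis) ≠ 0 := DCK.nat_ne HD.N0.ne'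
  by_cases hLb : LCE lam b
  · obtain ⟨C, Φ, H⟩ := place_LC hs hN HD.sol.n1 (SolE_n1' HD.sol) hLb hf hlamf
    refine ⟨C + sl w x, Φ, ?_⟩
    intro E Q hQ hQp hsb hsx
    have hB := B_ne HD.N0 hQp E
    obtain ⟨N0, H0⟩ := (hAVE none _ b x p q p' q' hB HD.hb HD.hx HD.sol.toSolWE
      (sl_zero' hSLC HD.hx hB hsx) hLb).1
    have h1 := H E Q hQ _ N0 H0
    unfold LTE
    rw [if_pos hLb, h1]
    ring
  · by_cases hLx : LCE lam x
    · have hfl : SolE x b p (-p') (-q) q' := SolE_flip HD.sol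
      obtain ⟨C, Φ, H⟩ := place_LC hs hN hfl.n1 (SolE_n1' hfl) hLx hf hlamf
      have hg1 := HD.sol.g1
      have hg2 := HD.sol.g2
      obtain ⟨C', Φ', hΦ'⟩ := exists_char hs.prime hs.pos hf hlamf
        (fun B => sl B (GfE p q p' q' 1) - sl B (GfE p q p' q' 2) - sl B w)
        (by
          intro A B hA hB
          show _ = (_ : ZMod 3)
          rw [hs.mul A B _ hA hB hg1, hs.mul A B _ hA hB hg2, hs.mul A B _ hA hB w_ne]
          ring)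
        (by
          intro A B hA hB hd
          show _ = (_ : ZMod 3)
          rw [hs.cont A B _ hA hg1 hd, hs.cont A B _ hA hg2 hd, hs.cont A B _ hA w_ne hd]) hN
      refine ⟨C' - C + sl w x, Φ' * Φ⁻¹, ?_⟩
      intro E Q hQ hQp hsb hsx
      have hB := B_ne HD.N0 hQp E
      obtain ⟨N0, H0⟩ := (hAVE none _ x b p (-p') (-q) q' hB HD.hx HD.hb hfl.toSolWE
        (sl_zero' hSLC HD.hb hB hsb) hLx).1
      have h1 := H E Q hQ _ N0 H0
      have h2 := hΦ' E Q hQ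
      have h3 : sl w ((N : Eis) * (Q : Eis) ^ E * x * b) =
          - sl ((N : Eis) * (Q : Eis) ^ E) w + sl w x + sl w b := by
        rw [hs.skew _ w (mul_ne_zero (mul_ne_zero hB HD.hx) HD.hb) w_ne,
          hs.mul _ _ w (mul_ne_zero hB HD.hx) HD.hb w_ne, hs.mul _ _ w hB HD.hx w_ne,
          hs.skew x w HD.hx w_ne, hs.skew b w HD.hb w_ne]
        ring
      unfold LTE
      rw [if_neg hLb, if_pos hLx, h1]
      unfold UVE
      rw [h3, MonoidHom.mul_apply, MonoidHom.inv_apply, toAdd_mul, toAdd_inv]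
      linear_combination h2
    · refine ⟨lfE b x, 1, ?_⟩
      intro E Q hQ hQp hsb hsx
      unfold LTE
      rw [if_neg hLb, if_neg hLx]
      simp

/-- The local terms at the places dividing `f`. -/
lemma place_tame (hAVE : Stmt_AVE) (hSTM : STM) (hSPP : SPP) {N : ℕ} {b x p q p' q' : Eis}
    (HD : HypE N b x p q p' q') {f : ℕ} (hf : 1 < f) (π : PP) (hπf : π.1 ∣ (f : Eis)) :
    ∃ (C : ZMod 3) (Φ : (ZMod f)ˣ →* Multiplicative (ZMod 3)),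
      ∀ (E Q : ℕ) (hQ : Q.Coprime f), Q.Prime →
      (∀ σ : PP, tm σ.1 x ((N : Eis) * (Q : Eis) ^ E) = 0) →
      TTE π ((N : Eis) * (Q : Eis) ^ E) b x p q p' q' =
        C + E * (Φ (ZMod.unitOfCoprime Q hQ)).toAdd := by
  have hs : LSym π.1 (tm π.1) 1 := hSTM π.1 π.2.1 (hSPP.2.2.2.1 π).1
  have hN : (N : Eis) ≠ 0 := DCK.nat_ne HD.N0.ne'
  by_cases hLb : LCE π.1 b
  · obtain ⟨C, Φ, H⟩ := place_LC hs hN HD.sol.n1 (SolE_n1' HD.sol) hLb hf (by rwa [pow_one])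
    refine ⟨C + tm π.1 w x, Φ, ?_⟩
    intro E Q hQ hQp hsx
    have hB := B_ne HD.N0 hQp E
    have hBx : tm π.1 ((N : Eis) * (Q : Eis) ^ E) x = 0 := by
      rw [hs.skew x _ HD.hx hB, hsx π, neg_zero]
    obtain ⟨N0, H0⟩ := (hAVE (some π) _ b x p q p' q' hB HD.hb HD.hx HD.sol.toSolWE
      hBx hLb).1
    have h1 := H E Q hQ _ N0 H0
    unfold TTE
    rw [if_pos hLb, h1]
    ring
  · classical
    refine ⟨if 3 ∣ V π.1 b + V π.1 (N : Eis) ∧ ¬ 3 ∣ V π.1 b then - tm π.1 w x else 0, 1, ?_⟩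
    intro E Q hQ hQp hsx
    have hVB : V π.1 ((N : Eis) * (Q : Eis) ^ E) = V π.1 (N : Eis) := by
      have hQ0 : (Q : Eis) ≠ 0 := DCK.nat_ne hQp.ne_zero
      have h1 := V_cop π.2.1 hπf (Nat.isCoprime_iff_coprime.2 hQ)
      rw [Int.cast_natCast] at h1
      rw [V_mul π.2.1 hN (pow_ne_zero _ hQ0), V_pow π.2.1 hQ0, h1, mul_zero, add_zero]
    unfold TTE
    rw [if_neg hLb, hVB]
    simp

/-- The local terms vanish outside. -/
lemma place_out (hAVE : Stmt_AVE) (hSTM : STM) (hSPP : SPP) {N : ℕ} {b x p q p' q' : Eis}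
    (HD : HypE N b x p q p' q') (π : PP) (hπN : ¬ π.1 ∣ (N : Eis))
    (h1 : ¬ π.1 ∣ p ^ 3 + b * q ^ 3) (h2 : ¬ π.1 ∣ p' ^ 3 + b * q' ^ 3) {E Q : ℕ}
    (hQp : Q.Prime) (hπQ : ¬ π.1 ∣ (Q : Eis))
    (hsx : ∀ σ : PP, tm σ.1 x ((N : Eis) * (Q : Eis) ^ E) = 0) :
    TTE π ((N : Eis) * (Q : Eis) ^ E) b x p q p' q' = 0 := by
  have hs : LSym π.1 (tm π.1) 1 := hSTM π.1 π.2.1 (hSPP.2.2.2.1 π).1
  obtain ⟨hπb, hπx⟩ := HD.unr π hπN
  have hVb0 : V π.1 b = 0 := V_eq_zero hπb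
  have hB := B_ne HD.N0 hQp E
  have hπB : ¬ π.1 ∣ (N : Eis) * (Q : Eis) ^ E := by
    intro h
    rcases π.2.1.dvd_or_dvd h with h1 | h1
    · exact hπN h1
    · exact hπQ (π.2.1.dvd_of_dvd_pow h1)
  by_cases hLb : LCE π.1 b
  · have hBx : tm π.1 ((N : Eis) * (Q : Eis) ^ E) x = 0 := by
      rw [hs.skew x _ HD.hx hB, hsx π, neg_zero]
    obtain ⟨N0, H0⟩ := (hAVE (some π) _ b x p q p' q' hB HD.hb HD.hx HD.sol.toSolWE
      hBx hLb).1
    obtain ⟨ξ, hξ⟩ := hLb (N0 + 1)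
    have h3 : π.1 ∣ ξ ^ 3 - b := by
      have h4 : π.1 ^ 1 ∣ ξ ^ 3 - b := (pow_dvd_pow _ (by omega)).trans hξ
      rwa [pow_one] at h4
    have k1 := LfE_ndvd (p := p) (q := q) h3 h1
    have k2 := LfE_ndvd (p := p') (q := q') h3 h2
    have h5 := H0 ξ ((pow_dvd_pow _ (by omega)).trans hξ)
    unfold TTE
    rw [if_pos hLb, ← h5, DCONST.tm_zero (not_dvd_w π.2.1) hπx]
    show ASE (tm π.1) _ _ _ _ _ _ + 0 = 0
    unfold ASE
    rw [DCONST.tm_zero hπB (k1 2), DCONST.tm_zero hπB (k2 1), DCONST.tm_zero hπB (k1 1),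
      DCONST.tm_zero hπB (k2 2)]
    simp
  · unfold TTE
    rw [if_neg hLb, if_neg (fun h => h.2 (by rw [hVb0]; exact dvd_zero 3))]

/-- the invariant does not depend on the cube root -/
lemma taup_indep {π b x p q p' q' ξ ξ' : Eis} (hπ : Prime π) (h3 : ¬ π ∣ 3)
    (heq : p ^ 3 + b * q ^ 3 = x * (p' ^ 3 + b * q' ^ 3)) (hπx : ¬ π ∣ x)
    (hsx : sym π x = 0) (hM1 : ¬ π ∣ p ^ 3 + b * q ^ 3) (hM2 : ¬ π ∣ p' ^ 3 + b * q' ^ 3)
    (h4 : π ∣ ξ' ^ 3 - b) (hξ : π ∣ ξ ^ 3 - b) :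
    TAUP π p q p' q' ξ' = TAUP π p q p' q' ξ := by
  have hcongr : ∀ r r' : Eis, π ∣ r - r' → TAUP π p q p' q' r = TAUP π p q p' q' r' := by
    intro r r' hr
    have h6 : ∀ (g h : Eis) (i : ℕ), sym π (LfE g h i r) = sym π (LfE g h i r') := by
      intro g h i
      apply sym_congr
      have h7 : LfE g h i r - LfE g h i r' = (h * w ^ i) * (r - r') := by
        unfold LfE
        ring
      rw [h7]
      exact dvd_mul_of_dvd_right hr _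
    unfold TAUP
    rw [h6, h6, h6, h6]
  have hshift : ∀ r : Eis, π ∣ r ^ 3 - b →
      TAUP π p q p' q' (w * r) = TAUP π p q p' q' r := by
    intro r hr
    have m1 := LfE_ndvd (p := p) (q := q) hr hM1
    have m2 := LfE_ndvd (p := p') (q := q') hr hM2
    have h8 : sym π (LfE p q 0 r) + sym π (LfE p q 1 r) + sym π (LfE p q 2 r) =
        sym π x + (sym π (LfE p' q' 0 r) + sym π (LfE p' q' 1 r) +
          sym π (LfE p' q' 2 r)) := by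
      rw [← sym_mul hπ h3 (m1 0) (m1 1), ← sym_mul hπ h3 (hπ.not_dvd_mul (m1 0) (m1 1)) (m1 2),
        ← sym_mul hπ h3 (m2 0) (m2 1), ← sym_mul hπ h3 (hπ.not_dvd_mul (m2 0) (m2 1)) (m2 2),
        ← sym_mul hπ h3 hπx (hπ.not_dvd_mul (hπ.not_dvd_mul (m2 0) (m2 1)) (m2 2))]
      apply sym_congr
      rw [DP4.LfE_prod, DP4.LfE_prod]
      have h9 : p ^ 3 + q ^ 3 * r ^ 3 - x * (p' ^ 3 + q' ^ 3 * r ^ 3) =
          (q ^ 3 - x * q' ^ 3) * (r ^ 3 - b) := by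
        linear_combination heq
      rw [h9]
      exact dvd_mul_of_dvd_right hr _
    unfold TAUP
    rw [DP4.LfE_shift, DP4.LfE_shift, DP4.LfE_shift, DP4.LfE_shift]
    have e1 : LfE p q (2 + 1) r = LfE p q 0 r := DP4.LfE_per p q r 0
    have e2 : LfE p' q' (2 + 1) r = LfE p' q' 0 r := DP4.LfE_per p' q' r 0
    rw [e1, e2]
    rw [hsx] at h8
    have h12 : (3 : ZMod 3) = 0 := rfl
    linear_combination h8 - (sym π (LfE p q 2 r) - sym π (LfE p' q' 2 r)) * h12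
  have hdiv : π ∣ (ξ' - ξ) * (ξ' - w * ξ) * (ξ' - w * (w * ξ)) := by
    have h13 : (ξ' - ξ) * (ξ' - w * ξ) * (ξ' - w * (w * ξ)) = (ξ' ^ 3 - b) - (ξ ^ 3 - b) := by
      have h1 : w ^ 3 = 1 := w_cube
      have h2 : w ^ 2 + w + 1 = 0 := w_rel
      linear_combination (- ξ ^ 3) * h1 + (- ξ' ^ 2 * ξ + ξ' * ξ ^ 2 * w) * h2
    rw [h13]
    exact dvd_sub h4 hξ
  have hw3 : ∀ r : Eis, π ∣ r ^ 3 - b → π ∣ (w * r) ^ 3 - b := by
    intro r hr
    rwa [mul_pow, w_cube, one_mul]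
  rcases hπ.dvd_or_dvd hdiv with h | h
  · rcases hπ.dvd_or_dvd h with h | h
    · exact hcongr _ _ h
    · rw [hcongr _ _ h, hshift ξ hξ]
  · rw [hcongr _ _ h, hshift (w * ξ) (hw3 ξ hξ), hshift ξ hξ]

/-- The local term at a place above `Q`. -/
lemma place_Q (hAVE : Stmt_AVE) (hLCI : Stmt_LCI) (hSTM : STM) (hSPP : SPP) {N : ℕ}
    {b x p q p' q' : Eis} (HD : HypE N b x p q p' q') (π : PP) (hπN : ¬ π.1 ∣ (N : Eis))
    (hM1 : ¬ π.1 ∣ p ^ 3 + b * q ^ 3) (hM2 : ¬ π.1 ∣ p' ^ 3 + b * q' ^ 3) {E Q : ℕ}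
    (hE : E = 1 ∨ E = 2) (hQp : Q.Prime) (hVQ : V π.1 (Q : Eis) = 1)
    (hsb : ∀ σ : PP, tm σ.1 b ((N : Eis) * (Q : Eis) ^ E) = 0)
    (hsx : ∀ σ : PP, tm σ.1 x ((N : Eis) * (Q : Eis) ^ E) = 0)
    (ξ : Eis) (hξ : π.1 ∣ ξ ^ 3 - b) :
    TTE π ((N : Eis) * (Q : Eis) ^ E) b x p q p' q' = - (E * TAUP π.1 p q p' q' ξ) := by
  have h3 : ¬ π.1 ∣ 3 := (hSPP.2.2.2.1 π).1
  have hs : LSym π.1 (tm π.1) 1 := hSTM π.1 π.2.1 h3
  obtain ⟨hπb, hπx⟩ := HD.unr π hπN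
  have hVx0 : V π.1 x = 0 := V_eq_zero hπx
  have hVb0 : V π.1 b = 0 := V_eq_zero hπb
  have hB := B_ne HD.N0 hQp E
  have hQ0 : (Q : Eis) ≠ 0 := DCK.nat_ne hQp.ne_zero
  have hVB : V π.1 ((N : Eis) * (Q : Eis) ^ E) = E := by
    rw [V_mul_not_dvd π.2.1 hπN (pow_ne_zero _ hQ0), V_pow π.2.1 hQ0, hVQ, mul_one]
  have hE0 : (E : ZMod 3) ≠ 0 := by
    rcases hE with h | h
    · rw [h]; decide
    · rw [h]; decide
  have hcub : ∀ a : Eis, V π.1 a = 0 → tm π.1 a ((N : Eis) * (Q : Eis) ^ E) = 0 →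
      ch π.1 a = 0 := by
    intro a ha h
    unfold tm at h
    rw [hVB, ha] at h
    simp only [Nat.cast_zero, zero_mul, sub_zero] at h
    exact (mul_eq_zero.1 h).resolve_left hE0
  have hcx := hcub x hVx0 (hsx π)
  have hcb := hcub b hVb0 (hsb π)
  have hLb : LCE π.1 b := (hLCI.1 π b HD.hb).2 ⟨by rw [hVb0]; exact dvd_zero 3, hcb⟩
  have hBx : tm π.1 ((N : Eis) * (Q : Eis) ^ E) x = 0 := by
    rw [hs.skew x _ HD.hx hB, hsx π, neg_zero]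
  obtain ⟨N0, H0⟩ := (hAVE (some π) _ b x p q p' q' hB HD.hb HD.hx HD.sol.toSolWE
    hBx hLb).1
  obtain ⟨ξ', hξ'⟩ := hLb (N0 + 1)
  have h4 : π.1 ∣ ξ' ^ 3 - b := by
    have h4 : π.1 ^ 1 ∣ ξ' ^ 3 - b := (pow_dvd_pow _ (by omega)).trans hξ'
    rwa [pow_one] at h4
  have k1 := LfE_ndvd (p := p) (q := q) h4 hM1
  have k2 := LfE_ndvd (p := p') (q := q') h4 hM2
  have h5 := H0 ξ' ((pow_dvd_pow _ (by omega)).trans hξ')
  have hsymx : sym π.1 x = 0 := by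
    have h11 := hcx
    unfold ch up at h11
    rwa [hVx0, pow_zero, EuclideanDomain.div_one] at h11
  unfold TTE
  rw [if_pos hLb, ← h5, DCONST.tm_zero (not_dvd_w π.2.1) hπx,
    ← taup_indep π.2.1 h3 HD.sol.eq hπx hsymx hM1 hM2 h4 hξ]
  show ASE (tm π.1) _ _ _ _ _ _ + 0 = _
  unfold ASE TAUP
  rw [DP4U.tm_val hVB (k1 2), DP4U.tm_val hVB (k2 1), DP4U.tm_val hVB (k1 1),
    DP4U.tm_val hVB (k2 2)]
  ring

end DE1

open DPA DE1 in
/-- PTK_DE1. -/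
theorem DE1_thm (hAVE : Stmt_AVE) (hLCI : Stmt_LCI) (hSTM : STM) (hSPP : SPP) (hSLC : SLC) :
    Stmt_DE1 := by
  intro N b x p q p' q' HD
  have hn1 := HD.sol.n1
  have hn2 := SolE_n1' HD.sol
  obtain ⟨m1, hm1⟩ : ∃ m : ℕ, m = (p ^ 3 + b * q ^ 3).norm.natAbs := ⟨_, rfl⟩
  obtain ⟨m2, hm2⟩ : ∃ m : ℕ, m = (p' ^ 3 + b * q' ^ 3).norm.natAbs := ⟨_, rfl⟩
  have hm1d : p ^ 3 + b * q ^ 3 ∣ (m1 : Eis) := by rw [hm1]; exact DCK.dvd_natAbs_norm _
  have hm2d : p' ^ 3 + b * q' ^ 3 ∣ (m2 : Eis) := by rw [hm2]; exact DCK.dvd_natAbs_norm _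
  have hm1p : 0 < m1 := by
    rw [hm1]
    exact Int.natAbs_pos.2 (norm_pos hn1).ne'
  have hm2p : 0 < m2 := by
    rw [hm2]
    exact Int.natAbs_pos.2 (norm_pos hn2).ne'
  obtain ⟨M, hMdef⟩ : ∃ M : ℕ, M = N * m1 * m2 := ⟨_, rfl⟩
  have hMp : 0 < M := by
    rw [hMdef]
    exact Nat.mul_pos (Nat.mul_pos HD.N0 hm1p) hm2p
  have hMe : (M : Eis) = (N : Eis) * (m1 : Eis) * (m2 : Eis) := by
    rw [hMdef]
    push_cast
    ring
  have hM0 : (M : Eis) ≠ 0 := DCK.nat_ne hMp.ne'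
  have dN : (N : Eis) ∣ (M : Eis) := by
    rw [hMe, mul_assoc]
    exact Dvd.intro _ rfl
  have d1 : p ^ 3 + b * q ^ 3 ∣ (M : Eis) := by
    rw [hMe]
    exact dvd_mul_of_dvd_left (dvd_mul_of_dvd_right hm1d _) _
  have d2 : p' ^ 3 + b * q' ^ 3 ∣ (M : Eis) := by
    rw [hMe]
    exact dvd_mul_of_dvd_right hm2d _
  have hfin := hSPP.2.2.1 (M : Eis) hM0
  refine ⟨9 * M, by omega, ?_⟩
  intro f hf0 hf
  have h9 : 9 ∣ f := (Dvd.intro _ rfl).trans hf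
  have hf1 : 1 < f := by
    have := Nat.le_of_dvd hf0 h9
    omega
  have hMf : M ∣ f := (Dvd.intro_left 9 rfl).trans hf
  have hMfe : (M : Eis) ∣ (f : Eis) := by
    obtain ⟨k, hk⟩ := hMf
    rw [hk]
    push_cast
    exact Dvd.intro _ rfl
  obtain ⟨C₀, Φ₀, H₀⟩ := place_lam hAVE hSLC HD hf1 h9
  have hpl : ∀ π : PP, ∃ (c : ZMod 3) (Φ : (ZMod f)ˣ →* Multiplicative (ZMod 3)),
      π.1 ∣ (M : Eis) → ∀ (E Q : ℕ) (hQ : Q.Coprime f), Q.Prime →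
        (∀ σ : PP, tm σ.1 x ((N : Eis) * (Q : Eis) ^ E) = 0) →
        TTE π ((N : Eis) * (Q : Eis) ^ E) b x p q p' q' =
          c + E * (Φ (ZMod.unitOfCoprime Q hQ)).toAdd := by
    intro π
    by_cases hπM : π.1 ∣ (M : Eis)
    · obtain ⟨C, Φ, H⟩ := place_tame hAVE hSTM hSPP HD hf1 π (hπM.trans hMfe)
      exact ⟨C, Φ, fun _ => H⟩
    · exact ⟨0, 1, fun h => absurd h hπM⟩
  choose c Φ H using hpl
  refine ⟨C₀ + ∑ π ∈ hfin.toFinset, c π, Φ₀ * ∏ π ∈ hfin.toFinset, Φ π, 0, ?_⟩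
  intro E Q hQ πQ hE hQp _ hQ3 hπQ hsb hsx ξ ξ' hξ hξ'
  obtain ⟨πR, hπR⟩ := (hSPP.2.2.2.1 πQ).2
  have hna : ¬ Associated πQ.1 (conj πQ.1) := DCKU.not_assoc hSPP hQp hπQ
  have hdQ : πQ.1 ∣ (Q : Eis) := by
    rw [hπQ]
    exact Dvd.intro _ rfl
  have hdR : πR.1 ∣ (Q : Eis) := by
    rw [hπQ, hπR]
    exact Dvd.intro_left _ rfl
  have hQRne : πQ ≠ πR := by
    intro h
    apply hna
    rw [← hπR, ← h]
  have hcop : IsCoprime (Q : Eis) (M : Eis) := by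
    have h1 : Nat.Coprime Q M := Nat.Coprime.coprime_dvd_right hMf hQ
    have h2 : IsCoprime (Q : ℤ) (M : ℤ) := Nat.isCoprime_iff_coprime.2 h1
    have h3 := h2.map (Int.castRingHom Eis)
    simpa using h3
  have hnd : ∀ π : PP, π.1 ∣ (Q : Eis) → ¬ π.1 ∣ (M : Eis) := fun π h1 h2 =>
    π.2.1.not_isUnit (hcop.isUnit_of_dvd' h1 h2)
  have hQM : ¬ πQ.1 ∣ (M : Eis) := hnd πQ hdQ
  have hRM : ¬ πR.1 ∣ (M : Eis) := hnd πR hdR
  -- the places above `Q`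
  have hTQ : TTE πQ ((N : Eis) * (Q : Eis) ^ E) b x p q p' q' =
      - (E * TAUP πQ.1 p q p' q' ξ) :=
    place_Q hAVE hLCI hSTM hSPP HD πQ (fun h => hQM (h.trans dN)) (fun h => hQM (h.trans d1))
      (fun h => hQM (h.trans d2)) hE hQp (DP4U.V_one hSPP hQp hdQ) hsb hsx ξ hξ
  have hTR : TTE πR ((N : Eis) * (Q : Eis) ^ E) b x p q p' q' =
      - (E * TAUP πR.1 p q p' q' ξ') :=
    place_Q hAVE hLCI hSTM hSPP HD πR (fun h => hRM (h.trans dN)) (fun h => hRM (h.trans d1))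
      (fun h => hRM (h.trans d2)) hE hQp (DP4U.V_one hSPP hQp hdR) hsb hsx ξ' (by
        rw [hπR]
        exact hξ')
  -- the sum
  have hQS : πQ ∉ hfin.toFinset := by
    rw [Set.Finite.mem_toFinset]
    exact hQM
  have hRS : πR ∉ hfin.toFinset := by
    rw [Set.Finite.mem_toFinset]
    exact hRM
  classical
  have hsupp : (Function.support fun π : PP =>
      TTE π ((N : Eis) * (Q : Eis) ^ E) b x p q p' q') ⊆
      ((insert πQ (insert πR hfin.toFinset) : Finset PP) : Set PP) := by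
    intro π hv
    by_contra hnv
    apply hv
    have hnM : ¬ π.1 ∣ (M : Eis) := by
      intro h
      apply hnv
      rw [Finset.mem_coe]
      refine Finset.mem_insert_of_mem (Finset.mem_insert_of_mem ?_)
      rw [Set.Finite.mem_toFinset]
      exact h
    have hπne : π ≠ πQ := by
      rintro rfl
      apply hnv
      rw [Finset.mem_coe]
      exact Finset.mem_insert_self _ _
    have hπne' : π ≠ πR := by
      rintro rfl
      apply hnv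
      rw [Finset.mem_coe]
      exact Finset.mem_insert_of_mem (Finset.mem_insert_self _ _)
    have hπQnd : ¬ π.1 ∣ (Q : Eis) := by
      rw [hπQ]
      intro h
      rcases π.2.1.dvd_or_dvd h with h1 | h1
      · exact hπne (hSPP.2.1 π πQ (π.2.1.associated_of_dvd πQ.2.1 h1))
      · rw [← hπR] at h1
        exact hπne' (hSPP.2.1 π πR (π.2.1.associated_of_dvd πR.2.1 h1))
    exact place_out hAVE hSTM hSPP HD π (fun h => hnM (h.trans dN)) (fun h => hnM (h.trans d1))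
      (fun h => hnM (h.trans d2)) hQp hπQnd hsx
  have hQ_notin : πQ ∉ insert πR hfin.toFinset := by
    intro h
    rcases Finset.mem_insert.1 h with h | h
    · exact hQRne h
    · exact hQS h
  have hsum : ∑ π ∈ hfin.toFinset, TTE π ((N : Eis) * (Q : Eis) ^ E) b x p q p' q' =
      ∑ π ∈ hfin.toFinset, (c π + E * (Φ π (ZMod.unitOfCoprime Q hQ)).toAdd) := by
    refine Finset.sum_congr rfl ?_
    intro π hπ
    rw [Set.Finite.mem_toFinset] at hπ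
    exact H π hπ E Q hQ hQp hsx
  unfold OZE
  rw [finsum_eq_sum_of_support_subset _ hsupp, Finset.sum_insert hQ_notin,
    Finset.sum_insert hRS, hsum, hTQ, hTR, H₀ E Q hQ hQp hsb hsx, Finset.sum_add_distrib,
    ← Finset.mul_sum, MonoidHom.mul_apply, MonoidHom.finsetProd_apply, toAdd_mul, toAdd_prod,
    ← hπR]
  ring

end Pool.Agent.PTK
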