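import Pool.Agent.PTK.StG

/-!
# PTK_DNS: upper bound for the density of a set of primes (helper71)
-/

set_option autoImplicit false

open NumberField IsDedekindDomain Finset
open scoped nonZeroDivisors Pointwise

namespace Pool.Agent.PTK

open Pool.Agent.Lib_helper18 Pool.Agent.Lib_helper18.Eis Pool.Agent.Lib_helper84.Cub
open Pool.Agent.PT Pool.Agent.PTL

namespace DNS

open BDENS BD

/-- the set of the classes is stable under conjugation and change of generator -/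
theorem inU_stable {G : Type} [Group G] [Finite G] {f m : ℕ} (χ : G →* (ZMod f)ˣ)
    (κ : (ZMod f)ˣ →* Multiplicative (Fin (m + 1) → ZMod 3)) (c : Fin (m + 1) → ZMod 3)
    (hf : 0 < f) (h3 : 3 ∣ f) {g h τ : G} (hg : InU χ κ c g)
    (hz : Subgroup.zpowers h = Subgroup.zpowers (τ * g * τ⁻¹)) : InU χ κ c h := by
  have hM := hg.1
  have hχg : χ (τ * g * τ⁻¹) = χ g := by
    rw [map_mul, map_mul, map_inv, mul_comm (χ τ), mul_inv_cancel_right]
  have hM' : M2 (χ (τ * g * τ⁻¹)) := by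
    rw [hχg]
    exact hM
  have he : Even (orderOf (τ * g * τ⁻¹)) := by
    apply M2_even hf h3 hM'
    rw [← map_pow, pow_orderOf_eq_one, map_one]
  obtain ⟨k, hk, hk3, hh⟩ := exists_pow hz he
  have h1 : χ h = χ g ^ k := by
    rw [hh, map_pow, hχg]
  exact (BD.transfer (s := 0) χ κ c (fun _ _ => 0) 1 0 (fun _ _ _ => 0) hf h3 hk hk3 h1 hM
    (fun j => j.elim0)).1 hg

/-- the conjugate cyclic subgroups, from the other side -/
theorem zpowers_symm {G : Type} [Group G] {g h τ : G}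
    (hz : Subgroup.zpowers h = Subgroup.zpowers (τ * g * τ⁻¹)) :
    Subgroup.zpowers g = Subgroup.zpowers (τ⁻¹ * h * τ⁻¹⁻¹) := by
  have h1 := congrArg (Subgroup.map (MulAut.conj τ⁻¹).toMonoidHom) hz
  rw [MonoidHom.map_zpowers, MonoidHom.map_zpowers] at h1
  have e1 : (MulAut.conj τ⁻¹).toMonoidHom h = τ⁻¹ * h * τ⁻¹⁻¹ := rfl
  have e2 : (MulAut.conj τ⁻¹).toMonoidHom (τ * g * τ⁻¹) = g := by
    show τ⁻¹ * (τ * g * τ⁻¹) * τ⁻¹⁻¹ = g
    group
  rw [e1, e2] at h1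
  exact h1.symm

end DNS

open BDENS BD DNS in
/-- PTK_DNS: upper bound for the density of a set of primes whose Frobenius elements are in a
subset stable under passing to another generator of a conjugate cyclic subgroup. -/
theorem DNS_thm (hDIR : DIR) : Stmt_DNS := by
  classical
  intro f m κ c L _ _ _ χ B S N₀ hf h9 hχ hB hBU hfrob hS
  have : NeZero f := ⟨hf.ne'⟩
  have h3 : 3 ∣ f := Dvd.dvd.trans (by norm_num) h9
  have hst : ∀ g h τ : L ≃ₐ[ℚ] L, g ∈ {g | InU χ κ c g ∧ ¬ B g} →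
      Subgroup.zpowers h = Subgroup.zpowers (τ * g * τ⁻¹) →
      h ∈ {g | InU χ κ c g ∧ ¬ B g} := fun g h τ hg hz =>
    ⟨inU_stable χ κ c hf h3 hg.1 hz, fun hb => hg.2 (hB h g τ⁻¹ hb (zpowers_symm hz))⟩
  obtain ⟨C1, hC1⟩ := RI.FROBD_thm L _ hst
  choose DC hDC using fun a : (ZMod f)ˣ => hDIR f a hf
  have hT := BD.card_T χ κ c hf hχ B
  obtain ⟨ST, hST⟩ : ∃ ST : Set ℕ, ST = {Q : ℕ | ∃ g ∈ {g | InU χ κ c g ∧
      ¬ B g}, ∃ P : Ideal (𝓞 L), P.IsPrime ∧ (Q : 𝓞 L) ∈ P ∧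
      MulAction.stabilizer (L ≃ₐ[ℚ] L) P = Subgroup.zpowers g} := ⟨_, rfl⟩
  obtain ⟨V, hV⟩ : ∃ V : Finset (ZMod f)ˣ, V = Finset.univ.filter fun a =>
      M2 a ∧ ((κ a).toAdd = c ∨ (κ a).toAdd = -c) := ⟨_, rfl⟩
  have hVc : V.card =
      Nat.card {a : (ZMod f)ˣ // M2 a ∧ ((κ a).toAdd = c ∨ (κ a).toAdd = -c)} := by
    rw [Nat.card_eq_fintype_card, Fintype.card_subtype, hV]
  have hM : ∀ (Q : ℕ) (hQ : Q.Coprime f), M2 (ZMod.unitOfCoprime Q hQ) ↔ Q % 3 = 2 := by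
    intro Q hQ
    unfold M2
    rw [ZMod.coe_unitOfCoprime, ZMod.val_natCast, Nat.mod_mod_of_dvd _ h3]
  have hcop : ∀ n : ℕ, n.Prime → n ∉ Finset.range (max N₀ f + 1) → n.Coprime f ∧ N₀ < n := by
    intro n hn hA
    rw [Finset.mem_range, not_lt] at hA
    refine ⟨(Nat.Prime.coprime_iff_not_dvd hn).2 fun h => ?_, ?_⟩
    · have h1 := Nat.le_of_dvd hf h
      have h2 := le_max_right N₀ f
      omega
    · have h2 := le_max_left N₀ f
      omega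
  have hSTe : ∀ n : ℕ, n.Prime → n ∉ Finset.range (max N₀ f + 1) → n ∈ ST →
      n ∉ S ∧ ∃ (hQ : n.Coprime f) (g : L ≃ₐ[ℚ] L), InU χ κ c g ∧
        χ g = ZMod.unitOfCoprime n hQ := by
    intro n hn hA hnST
    rw [hST] at hnST
    obtain ⟨g, hg, P, hP, hnP, hstab⟩ := hnST
    obtain ⟨hQ, hN⟩ := hcop n hn hA
    obtain ⟨⟨k, hk, hχk⟩, hkB⟩ := hfrob n hQ hn hN P g hP hnP hstab
    refine ⟨fun hnS => hg.2 (hkB hnS), hQ, g ^ k, ?_, hχk⟩
    refine (hst g (g ^ k) 1 hg ?_).1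
    rw [one_mul, inv_one, mul_one]
    exact zpowers_pow_eq hk
  refine ⟨2 * (Finset.range (max N₀ f + 1)).card + ∑ a ∈ V, DC a + C1, fun σ h1 h2 => ?_⟩
  have key := sm_add_le S ST {Q : ℕ | ∃ a ∈ V, (Q : ZMod f) = a}
    (Finset.range (max N₀ f + 1)) ?_ ?_ h1
  · have cov := sm_cover {Q : ℕ | ∃ a ∈ V, (Q : ZMod f) = a} V (fun n _ hn => hn) h1
    have hfr := hC1 σ h1 h2
    have hfr' : ((Nat.card {g : L ≃ₐ[ℚ] L // InU χ κ c g ∧ ¬ B g} : ℝ) /
        Nat.card (L ≃ₐ[ℚ] L)) * Real.log (1 / (σ - 1)) - C1 ≤ sm ST σ := by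
      rw [hST]
      exact hfr
    have hsum : ∑ a ∈ V, ∑' q : {q : ℕ // q.Prime ∧ (q : ZMod f) = a}, (q : ℝ) ^ (-σ) ≤
        ∑ a ∈ V, ((1 / (f.totient : ℝ)) * Real.log (1 / (σ - 1)) + DC a) :=
      Finset.sum_le_sum fun a _ => hDC a σ h1 h2
    rw [Finset.sum_add_distrib, Finset.sum_const, nsmul_eq_mul, hVc] at hsum
    have hlog : 0 ≤ Real.log (1 / (σ - 1)) := by
      apply Real.log_nonneg
      rw [le_div_iff₀ (by linarith)]
      linarith
    have hmul := mul_le_mul_of_nonneg_right hT hlog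
    rw [sub_mul, mul_assoc] at hmul
    linarith
  · intro n hn hA hnB
    obtain ⟨hQ, hN⟩ := hcop n hn hA
    obtain ⟨hn3, hnc⟩ := hS n hQ hn hN hnB
    constructor
    · refine ⟨ZMod.unitOfCoprime n hQ, ?_, ZMod.coe_unitOfCoprime n hQ⟩
      rw [hV]
      exact Finset.mem_filter.2 ⟨Finset.mem_univ _, (hM n hQ).2 hn3, hnc⟩
    · intro hnST
      exact (hSTe n hn hA hnST).1 hnB
  · intro n hn hA hnST
    obtain ⟨-, hQ', g, hgU, hχg⟩ := hSTe n hn hA hnST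
    refine ⟨ZMod.unitOfCoprime n hQ', ?_, ZMod.coe_unitOfCoprime n hQ'⟩
    rw [hV]
    have h5 := hgU
    unfold InU at h5
    rw [hχg] at h5
    exact Finset.mem_filter.2 ⟨Finset.mem_univ _, h5⟩

end Pool.Agent.PTK
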