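import Pool.Agent.PTK.DPA

/-!
# PTK_DP1: the local terms of a point at a place dividing `f`
-/

set_option autoImplicit false

namespace Pool.Agent.PTK

open Pool.Agent.Lib_helper18 Pool.Agent.Lib_helper18.Eis Pool.Agent.Lib_helper84.Cub
open Pool.Agent.PT

namespace DP1

open DPA

lemma dvd3_iff (n : ℕ) : 3 ∣ n ↔ (n : ZMod 3) = 0 := (ZMod.natCast_eq_zero_iff n 3).symm

lemma V_B {π : PP} {f : ℕ} (hπf : π.1 ∣ (f : Eis)) {N : ℕ} {b x p q p' q' : Eis}
    (HD : HypD N b x p q p' q') {E Q : ℕ} {X Y : Eis} (HP : HypP N b x p q p' q' E Q X Y)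
    (hQ : Q.Coprime f) : V π.1 ((N : Eis) * (Q : Eis) ^ E) = V π.1 (N : Eis) := by
  have hB := B_ne HD HP
  have hN : (N : Eis) ≠ 0 := left_ne_zero_of_mul hB
  have hQE := right_ne_zero_of_mul hB
  have hQ0 : (Q : Eis) ≠ 0 := by
    have h2 : ((Q : ℤ) : Eis) ≠ 0 := DCONST.cast_ne (by have := HP.hQ.pos; omega)
    rwa [Int.cast_natCast] at h2
  have h1 := V_cop π.2.1 hπf (Nat.isCoprime_iff_coprime.2 hQ)
  rw [Int.cast_natCast] at h1
  rw [V_mul π.2.1 hN hQE, V_pow π.2.1 hQ0, h1, mul_zero, add_zero]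

end DP1

open DPA DP1 in
/-- PTK_DP1. -/
theorem DP1_thm (hSTM : STM) (hSPP : SPP) (hIF4 : Stmt_IF4) (hIF4B : Stmt_IF4B)
    (hF6R : Stmt_F6R) (hF7U : Stmt_F7U) (hLFV : Stmt_LFV) (hLCI : Stmt_LCI) : Stmt_DP1 := by
  intro N b x p q p' q' HD π f hf hπf
  have hs : LSym π.1 (tm π.1) 1 := hSTM π.1 π.2.1 (hSPP.2.2.2.1 π).1
  have hN : (N : Eis) ≠ 0 := by
    have h2 : ((N : ℤ) : Eis) ≠ 0 := DCONST.cast_ne (by have := HD.N0; omega)
    rwa [Int.cast_natCast] at h2
  by_cases hVx : 3 ∣ V π.1 x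
  · by_cases hcx : ch π.1 x = 0
    · -- `x` is a local cube
      have hL : LCE π.1 x := (hLCI.1 π x HD.hx).2 ⟨hVx, hcx⟩
      obtain ⟨C, Φ, H⟩ := place_LC hs hN HD.sol.n1 (SolE_n1' HD.sol) hL hf (by rwa [pow_one])
      classical
      refine ⟨C + (if π.1 ∣ (N : Eis) ∧ ¬ 3 ∣ V π.1 b then (V π.1 b : ZMod 3) * ch π.1 w else 0),
        Φ, ?_⟩
      intro E Q hQ X Y HP
      have hB := B_ne HD HP
      have hn0 := n0_ne HD HP
      have hVB := V_B hπf HD HP hQ
      obtain ⟨N0, H0⟩ := core hIF4 hLCI hs HD HP hL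
      -- the terms with `b`
      have hterm : ∃ N1 : ℕ, ∀ ξ : Eis, π.1 ^ N1 ∣ ξ ^ 3 - x →
          tm π.1 (LfE X Y 1 ξ) b - tm π.1 (LfE X Y 2 ξ) b =
            if π.1 ∣ (N : Eis) ∧ ¬ 3 ∣ V π.1 b then (V π.1 b : ZMod 3) * ch π.1 w else 0 := by
        by_cases hπN : π.1 ∣ (N : Eis)
        · have hVN : (V π.1 ((N : Eis) * (Q : Eis) ^ E) : ZMod 3) ≠ 0 := by
            rw [hVB]
            have h1 := HD.cf π
            have h2 : V π.1 (N : Eis) ≠ 0 := fun h => (V_eq_zero_iff.1 h) hπN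
            rw [Ne, ← dvd3_iff]
            omega
          by_cases hVb : 3 ∣ V π.1 b
          · -- `b` is a local cube
            have hcb : ch π.1 b = 0 := by
              have h1 := HP.sb π
              unfold tm at h1
              rw [(dvd3_iff _).1 hVb, zero_mul, sub_zero] at h1
              exact (mul_eq_zero.1 h1).resolve_left hVN
            have hLb : LCE π.1 b := (hLCI.1 π b HD.hb).2 ⟨hVb, hcb⟩
            refine ⟨N0, fun ξ hξ => ?_⟩
            obtain ⟨hF, -, -⟩ := H0 ξ hξ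
            have h0 : ∀ i, tm π.1 (LfE X Y i ξ) b = 0 := by
              intro i
              rw [hs.skew b (LfE X Y i ξ) HD.hb (hF i),
                hLCI.2.2 π.1 (tm π.1) 1 b _ hs hLb HD.hb (hF i), neg_zero]
            rw [h0, h0, if_neg (by tauto), sub_zero]
          · obtain ⟨N2, H2⟩ := hIF4B π.1 (tm π.1) 1 hs x X Y HD.hx HP.pt.hX HP.pt.hY hn0
            refine ⟨N0 + N2, fun ξ hξ => ?_⟩
            obtain ⟨hF, hrel, -⟩ := H0 ξ ((pow_dvd_pow _ (by omega)).trans hξ)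
            have h2 := H2 ξ ((pow_dvd_pow _ (by omega)).trans hξ)
            rw [if_pos ⟨hπN, hVb⟩]
            have hw0 : w ≠ 0 := by
              intro h
              have := congrArg Eis.im h
              simp at this
            rw [hrel _ (hF 1), hrel _ (hF 2), hrel _ hw0] at h2
            have hw : tm π.1 w ((N : Eis) * (Q : Eis) ^ E) =
                (V π.1 ((N : Eis) * (Q : Eis) ^ E) : ZMod 3) * ch π.1 w := by
              unfold tm
              rw [V_eq_zero (not_dvd_w π.2.1)]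
              simp
            rw [hw] at h2
            refine mul_left_cancel₀ hVN ?_
            rw [mul_sub, tm_prop (HP.sb π), tm_prop (HP.sb π), ← mul_sub, h2]
            ring
        · -- `π` does not divide `N`
          obtain ⟨hπb, hπx⟩ := HD.unr π hπN
          have hVx0 : V π.1 x = 0 := V_eq_zero hπx
          have hVb0 : V π.1 b = 0 := V_eq_zero hπb
          have hVB0 : V π.1 ((N : Eis) * (Q : Eis) ^ E) = 0 := by
            rw [hVB]
            exact V_eq_zero hπN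
          obtain ⟨c, hc, hE⟩ := HP.pt.eq
          have hVn : 3 ∣ V π.1 (X ^ 3 + x * Y ^ 3) := by
            have h1 := congrArg (V π.1) hE
            rw [V_mul π.2.1 HD.hx hn0, V_mul π.2.1 hB (pow_ne_zero _ hc), V_pow π.2.1 hc, hVx0,
              hVB0] at h1
            omega
          obtain ⟨N2, H2⟩ := hLFV π x X Y HD.hx HP.pt.hX HP.pt.hY hn0 hVx hVn
          refine ⟨N2, fun ξ hξ => ?_⟩
          rw [if_neg (by tauto)]
          unfold tm
          rw [H2 ξ hξ, hVb0]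
          simp
      obtain ⟨N1, H1⟩ := hterm
      have h3 := H E Q hQ (SVE (tm π.1) x p (-p') (-q) q' X Y -
        (if π.1 ∣ (N : Eis) ∧ ¬ 3 ∣ V π.1 b then (V π.1 b : ZMod 3) * ch π.1 w else 0))
        (N0 + N1) (fun ξ hξ => by
          obtain ⟨-, -, h4⟩ := H0 ξ ((pow_dvd_pow _ (by omega)).trans hξ)
          rw [h4, ← H1 ξ ((pow_dvd_pow _ (by omega)).trans hξ)]
          ring)
      linear_combination h3
    · -- `x` is not a local cube
      refine ⟨0, 1, ?_⟩
      intro E Q hQ X Y HP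
      rw [hF7U π b x p (-p') (-q) q' X Y HD.hb HD.hx (SolE_flip HD.sol) HP.pt.hX HP.pt.hY HP.dn
        hVx hcx]
      simp
  · -- the valuation of `x` is prime to `3`
    classical
    refine ⟨if (V π.1 (N : Eis) : ZMod 3) = (V π.1 x : ZMod 3) then 0 else - tm π.1 w b, 1, ?_⟩
    intro E Q hQ X Y HP
    have hB := B_ne HD HP
    have hn0 := n0_ne HD HP
    have hVB := V_B hπf HD HP hQ
    obtain ⟨c, hc, hE⟩ := HP.pt.eq
    have h1 := congrArg (V π.1) hE
    rw [V_mul π.2.1 HD.hx hn0, V_mul π.2.1 hB (pow_ne_zero _ hc), V_pow π.2.1 hc, hVB] at h1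
    have h2 : (V π.1 x : ZMod 3) + (V π.1 (X ^ 3 + x * Y ^ 3) : ZMod 3) =
        (V π.1 (N : Eis) : ZMod 3) := by
      have h3 := congrArg (fun n : ℕ => (n : ZMod 3)) h1
      simp only [Nat.cast_add, Nat.cast_mul] at h3
      rw [h3]
      have h4 : ((3 : ℕ) : ZMod 3) = 0 := rfl
      rw [h4, zero_mul, add_zero]
    obtain ⟨k1, k2⟩ := hF6R π b x p (-p') (-q) q' X Y HD.hb HD.hx (SolE_flip HD.sol) HP.pt.hX
      HP.pt.hY HP.dn hVx
    by_cases hv : (V π.1 (N : Eis) : ZMod 3) = (V π.1 x : ZMod 3)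
    · rw [if_pos hv, k1 ((dvd3_iff _).2 (by linear_combination h2 + hv))]
      simp
    · rw [if_neg hv, k2 (fun h => hv (by
        rw [dvd3_iff] at h
        rw [h] at h2
        linear_combination - h2))]
      simp

end Pool.Agent.PTK
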