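import Pool.Agent.PTK.DPA

/-!
# PTK_DP2: the local term of a point at the place above `3`
-/

set_option autoImplicit false

namespace Pool.Agent.PTK

open Pool.Agent.Lib_helper18 Pool.Agent.Lib_helper18.Eis Pool.Agent.Lib_helper84.Cub
open Pool.Agent.PT

open DPA in
/-- PTK_DP2. -/
theorem DP2_thm (hSLC : SLC) (hIF2 : Stmt_IF2) (hIIA : Stmt_IIA) : Stmt_DP2 := by
  intro N b x p q p' q' HD f hf h9
  have hs : LSym lam sl 4 := hSLC
  have hlamf : lam ^ 4 ∣ (f : Eis) := by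
    have h1 : ((9 : ℤ) : Eis) ∣ ((f : ℤ) : Eis) :=
      intCast_dvd_intCast.2 (by exact_mod_cast h9)
    rw [Int.cast_natCast] at h1
    refine Dvd.dvd.trans ⟨w ^ 4, ?_⟩ h1
    have h2 : ((9 : ℤ) : Eis) = (3 : Eis) ^ 2 := by norm_num
    rw [h2, three_eq]
    ring
  have hN : (N : Eis) ≠ 0 := by
    have h2 : ((N : ℤ) : Eis) ≠ 0 := DCONST.cast_ne (by have := HD.N0; omega)
    rwa [Int.cast_natCast] at h2
  have hfl := SolE_flip HD.sol
  have hw0 : w ≠ 0 := by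
    intro h
    have := congrArg Eis.im h
    simp at this
  -- a fixed approximation of the cube root of `b`
  obtain ⟨r₀, hr, hr', H⟩ := exists_root (p := p) (q := -p') (p' := -q) (q' := q') hs hfl.n1
    (SolE_n1' (b := x) (x := b) (p := p) (q := -p') (p' := -q) (q' := q') hfl) HD.lc
  have hg1 := hfl.g1
  have hg2 := hfl.g2
  obtain ⟨C, Φ, hΦ⟩ := exists_char hs.prime hs.pos hf hlamf
    (fun B => sl B (GfE p (-p') (-q) q' 1) - sl B (GfE p (-p') (-q) q' 2) - sl B w -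
      ASE sl B p (-p') (-q) q' r₀)
    (by
      intro A B hA hB
      show _ = (_ : ZMod 3)
      rw [hs.mul A B _ hA hB hg1, hs.mul A B _ hA hB hg2, hs.mul A B _ hA hB hw0,
        ASE_mul hs hr hr' hA hB]
      ring)
    (by
      intro A B hA hB hd
      show _ = (_ : ZMod 3)
      rw [hs.cont A B _ hA hg1 hd, hs.cont A B _ hA hg2 hd, hs.cont A B _ hA hw0 hd,
        ASE_cont hs hr hr' hA hd]) hN
  refine ⟨C, Φ, ?_⟩
  intro E Q hQ X Y HP
  have hB := B_ne HD HP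
  have hn0 := n0_ne HD HP
  obtain ⟨c, hc, hE⟩ := HP.pt.eq
  rw [← hΦ E Q hQ]
  obtain ⟨N1, H1⟩ := hIIA b x p (-p') (-q) q' X Y HD.hb HD.hx HD.lc hfl HP.pt.hX HP.pt.hY hn0 HP.dn
  obtain ⟨N2, H2⟩ := hIF2 lam sl 4 hs b x p (-p') (-q) q' HD.hb HD.hx hfl
  obtain ⟨N3, H3⟩ := exists_ne hs.prime (b := b) (p := p) (q := -p') hfl.n1
  obtain ⟨N4, H4⟩ := exists_ne hs.prime (b := b) (p := -q) (q := q')
    (SolE_n1' (b := x) (x := b) (p := p) (q := -p') (p' := -q) (q' := q') hfl)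
  have h5 := H ((N : Eis) * (Q : Eis) ^ E)
    (sl ((N : Eis) * (Q : Eis) ^ E) (GfE p (-p') (-q) q' 1) -
      sl ((N : Eis) * (Q : Eis) ^ E) (GfE p (-p') (-q) q' 2) - sl ((N : Eis) * (Q : Eis) ^ E) w -
      SVE sl x p (-p') (-q) q' X Y) (N1 + N2 + N3 + N4) hB (by
    intro r hr
    have e1 := H1 r ((pow_dvd_pow _ (by omega)).trans hr)
    have e2 := H2 r ((pow_dvd_pow _ (by omega)).trans hr)
    have e3 := H3 r ((pow_dvd_pow _ (by omega)).trans hr)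
    have e4 := H4 r ((pow_dvd_pow _ (by omega)).trans hr)
    have e5 := ASE_rel hs e3 e4 HD.hx hn0 hB hc hE
    have e6 := s_rel hs HD.hx hn0 hB hc hg1 hE
    have e7 := s_rel hs HD.hx hn0 hB hc hg2 hE
    have e8 := s_rel hs HD.hx hn0 hB hc hw0 hE
    rw [e1, hs.skew (X ^ 3 + x * Y ^ 3) w hn0 hw0, ← e5, ← e6, ← e7, ← e8, e2,
      hs.skew x w HD.hx hw0]
    ring)
  show _ = sl ((N : Eis) * (Q : Eis) ^ E) (GfE p (-p') (-q) q' 1) -
    sl ((N : Eis) * (Q : Eis) ^ E) (GfE p (-p') (-q) q' 2) - sl ((N : Eis) * (Q : Eis) ^ E) w -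
      ASE sl ((N : Eis) * (Q : Eis) ^ E) p (-p') (-q) q' r₀
  rw [h5]
  ring

end Pool.Agent.PTK
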