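import Pool.Agent.PTK.DPA

/-!
# PTK_DP3: the local terms of a point vanish outside
-/

set_option autoImplicit false

namespace Pool.Agent.PTK

open Pool.Agent.Lib_helper18 Pool.Agent.Lib_helper18.Eis Pool.Agent.Lib_helper84.Cub
open Pool.Agent.PT

open DPA in
/-- PTK_DP3. -/
theorem DP3_thm (hSTM : STM) (hSPP : SPP) (hIF4 : Stmt_IF4) (hF7U : Stmt_F7U)
    (hLFV : Stmt_LFV) (hLCI : Stmt_LCI) : Stmt_DP3 := by
  intro N b x p q p' q' HD π E Q X Y HP hπN hπQ hπM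
  have hs : LSym π.1 (tm π.1) 1 := hSTM π.1 π.2.1 (hSPP.2.2.2.1 π).1
  obtain ⟨hπb, hπx⟩ := HD.unr π hπN
  have hVx0 : V π.1 x = 0 := V_eq_zero hπx
  have hVb0 : V π.1 b = 0 := V_eq_zero hπb
  have hVx : 3 ∣ V π.1 x := by rw [hVx0]; exact dvd_zero 3
  by_cases hcx : ch π.1 x = 0
  · have hL : LCE π.1 x := (hLCI.1 π x HD.hx).2 ⟨hVx, hcx⟩
    have hB := B_ne HD HP
    have hn0 := n0_ne HD HP
    have hπB : ¬ π.1 ∣ (N : Eis) * (Q : Eis) ^ E := by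
      intro h
      rcases π.2.1.dvd_or_dvd h with h1 | h1
      · exact hπN h1
      · exact hπQ (π.2.1.dvd_of_dvd_pow h1)
    have hVB0 : V π.1 ((N : Eis) * (Q : Eis) ^ E) = 0 := V_eq_zero hπB
    obtain ⟨c, hc, hE⟩ := HP.pt.eq
    have hVn : 3 ∣ V π.1 (X ^ 3 + x * Y ^ 3) := by
      have h1 := congrArg (V π.1) hE
      rw [V_mul π.2.1 HD.hx hn0, V_mul π.2.1 hB (pow_ne_zero _ hc), V_pow π.2.1 hc, hVx0,
        hVB0] at h1
      omega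
    obtain ⟨N1, H1⟩ := core hIF4 hLCI hs HD HP hL
    obtain ⟨N2, H2⟩ := hLFV π x X Y HD.hx HP.pt.hX HP.pt.hY hn0 hVx hVn
    obtain ⟨ξ, hξ⟩ := hL (N1 + N2 + 1)
    obtain ⟨-, -, h1⟩ := H1 ξ ((pow_dvd_pow _ (by omega)).trans hξ)
    have h2 := H2 ξ ((pow_dvd_pow _ (by omega)).trans hξ)
    have h3 : π.1 ∣ ξ ^ 3 - x := by
      have h4 : π.1 ^ 1 ∣ ξ ^ 3 - x := (pow_dvd_pow _ (by omega)).trans hξ
      rwa [pow_one] at h4
    have k1 := LfE_ndvd (p := p) (q := q) h3 (fun h => hπM (dvd_mul_of_dvd_left h _))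
    have k2 := LfE_ndvd (p := p') (q := q') h3 (fun h => hπM (dvd_mul_of_dvd_right h _))
    have h5 : tm π.1 (LfE X Y 1 ξ) b - tm π.1 (LfE X Y 2 ξ) b = 0 := by
      unfold tm
      rw [h2, hVb0]
      simp
    rw [h1, add_sub_assoc, h5, add_zero]
    unfold ASE
    rw [DCONST.tm_zero hπB (k1 2), DCONST.tm_zero hπB (k2 1), DCONST.tm_zero hπB (k1 1),
      DCONST.tm_zero hπB (k2 2)]
    simp
  · exact hF7U π b x p (-p') (-q) q' X Y HD.hb HD.hx (SolE_flip HD.sol) HP.pt.hX HP.pt.hY HP.dn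
      hVx hcx

end Pool.Agent.PTK
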