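import Pool.Agent.PTK.StL
import Pool.Agent.PTL.DC

/-!
# The average rank of prime twists: tools for the local terms (`DP1` to `DP4`)

The lemmas of `PT/DCONST.lean` and `PTL/DC.lean` with `Eis` in place of `ℤ`.
-/

set_option autoImplicit false

namespace Pool.Agent.PTK

open Pool.Agent.Lib_helper18 Pool.Agent.Lib_helper18.Eis Pool.Agent.Lib_helper84.Cub
open Pool.Agent.PT

namespace DPA

open DCONST

lemma w_pow3 (i : ℕ) : (w ^ i) ^ 3 = 1 := by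
  rw [← pow_mul, mul_comm, pow_mul, w_cube, one_pow]

lemma LfE_mul (p q r : Eis) (i : ℕ) :
    LfE p q i r * (p ^ 2 - p * (q * w ^ i * r) + (q * w ^ i * r) ^ 2) =
      p ^ 3 + q ^ 3 * r ^ 3 := by
  have h2 := w_pow3 i
  unfold LfE
  linear_combination (q ^ 3 * r ^ 3) * h2

/-- The linear forms at good approximations have bounded valuation. -/
lemma LfE_ndvd {u b p q r : Eis} (hr : u ∣ r ^ 3 - b) (h : ¬ u ∣ p ^ 3 + b * q ^ 3) (i : ℕ) :
    ¬ u ∣ LfE p q i r := by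
  intro hd
  apply h
  have h1 : p ^ 3 + b * q ^ 3 =
      LfE p q i r * (p ^ 2 - p * (q * w ^ i * r) + (q * w ^ i * r) ^ 2) -
        q ^ 3 * (r ^ 3 - b) := by
    rw [LfE_mul]
    ring
  rw [h1]
  exact dvd_sub (dvd_mul_of_dvd_left hd _) (dvd_mul_of_dvd_right hr _)

lemma LfE_cont {u : Eis} {s : Eis → Eis → ZMod 3} {e : ℕ} (h : LSym u s e) {b p q r r' : Eis}
    {K : ℕ} (hn : ¬ u ^ (K + 1) ∣ p ^ 3 + b * q ^ 3)
    (hr : u ^ (K + 1) ∣ r ^ 3 - b) (hr' : u ^ (K + 1) ∣ r' ^ 3 - b)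
    (hrr : u ^ (K + e) ∣ r' - r) {B : Eis} (hB : B ≠ 0) (i : ℕ) :
    s B (LfE p q i r') = s B (LfE p q i r) := by
  have h1 := LfE_ndvd hr hn i
  have h2 := LfE_ndvd hr' hn i
  refine LSym.cont' h hB (ne_of_ndvd h1) (ne_of_ndvd h2) ?_
  have h3 : LfE p q i r' - LfE p q i r = (q * w ^ i) * (r' - r) := by
    unfold LfE
    ring
  rw [h3]
  refine dvd_mul_of_dvd_right ((pow_dvd_pow u ?_).trans hrr) _
  have := V_le_of_ndvd h.prime h1
  omega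

/-- a fixed good approximation of a cube root -/
lemma exists_root {u : Eis} {s : Eis → Eis → ZMod 3} {e : ℕ} (h : LSym u s e)
    {b p q p' q' : Eis} (hn : p ^ 3 + b * q ^ 3 ≠ 0) (hn' : p' ^ 3 + b * q' ^ 3 ≠ 0)
    (hLC : LCE u b) : ∃ r : Eis, (∀ i, LfE p q i r ≠ 0) ∧ (∀ i, LfE p' q' i r ≠ 0) ∧
      ∀ (B : Eis) (c : ZMod 3) (N0 : ℕ), B ≠ 0 → (∀ r : Eis, u ^ N0 ∣ r ^ 3 - b →
        ASE s B p q p' q' r = c) → ASE s B p q p' q' r = c := by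
  have hu := h.prime
  set K := V u (p ^ 3 + b * q ^ 3) + V u (p' ^ 3 + b * q' ^ 3) with hK
  have k1 : ¬ u ^ (K + 1) ∣ p ^ 3 + b * q ^ 3 :=
    ndvd_pow hu hn (Nat.le_add_right _ _)
  have k2 : ¬ u ^ (K + 1) ∣ p' ^ 3 + b * q' ^ 3 :=
    ndvd_pow hu hn' (Nat.le_add_left _ _)
  choose ρ hρ using hLC
  have hNu : 1 < N u := N_prime hu
  set m := (N u) ^ (K + e) with hm
  have hm0 : m ≠ 0 := pow_ne_zero _ (by omega)
  have : NeZero m := ⟨hm0⟩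
  have hum : u ^ (K + e) ∣ ((m : ℤ) : Eis) := by
    have h1 : u ∣ ((N u : ℤ) : Eis) := by
      rw [N_cast, ← mul_conj]
      exact Dvd.intro _ rfl
    have h2 := pow_dvd_pow_of_dvd h1 (K + e)
    rw [hm]
    push_cast
    push_cast at h2
    exact h2
  obtain ⟨y, hy⟩ := Finite.exists_infinite_fiber
    (fun N : ℕ => (((ρ N).re : ZMod m), ((ρ N).im : ZMod m)))
  have hinf : ((fun N : ℕ => (((ρ N).re : ZMod m), ((ρ N).im : ZMod m))) ⁻¹' {y}).Infinite :=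
    Set.infinite_coe_iff.1 hy
  obtain ⟨N1, hN1, hN1'⟩ := hinf.exists_gt K
  have lev : ∀ N, K < N → u ^ (K + 1) ∣ (ρ N) ^ 3 - b :=
    fun N hN => (pow_dvd_pow u hN).trans (hρ N)
  refine ⟨ρ N1, fun i => ne_of_ndvd (LfE_ndvd (lev N1 hN1') k1 i),
    fun i => ne_of_ndvd (LfE_ndvd (lev N1 hN1') k2 i), ?_⟩
  intro B c N0 hB hc
  obtain ⟨N2, hN2, hN2'⟩ := hinf.exists_gt (max K N0)
  have h2 := hc (ρ N2) ((pow_dvd_pow u ((le_max_right K N0).trans hN2'.le)).trans (hρ N2))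
  have hrr : u ^ (K + e) ∣ ρ N1 - ρ N2 := by
    have h3 : (((ρ N2).re : ZMod m), ((ρ N2).im : ZMod m)) =
        (((ρ N1).re : ZMod m), ((ρ N1).im : ZMod m)) := by
      rw [Set.mem_preimage, Set.mem_singleton_iff] at hN1 hN2
      rw [hN1, hN2]
    rw [Prod.mk.injEq] at h3
    have h4 : (m : ℤ) ∣ (ρ N1).re - (ρ N2).re := (ZMod.intCast_eq_intCast_iff_dvd_sub _ _ _).1 h3.1
    have h5 : (m : ℤ) ∣ (ρ N1).im - (ρ N2).im := (ZMod.intCast_eq_intCast_iff_dvd_sub _ _ _).1 h3.2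
    have h6 : ((m : ℤ) : Eis) ∣ ρ N1 - ρ N2 := intCast_dvd_iff.2 ⟨by simpa using h4, by simpa using h5⟩
    exact hum.trans h6
  have l2 := lev N2 ((le_max_left K N0).trans_lt hN2')
  have l1 := lev N1 hN1'
  rw [← h2]
  unfold ASE
  rw [LfE_cont h k1 l2 l1 hrr hB 2, LfE_cont h k2 l2 l1 hrr hB 1, LfE_cont h k1 l2 l1 hrr hB 1,
    LfE_cont h k2 l2 l1 hrr hB 2]

lemma ASE_mul {u : Eis} {s : Eis → Eis → ZMod 3} {e : ℕ} (h : LSym u s e) {p q p' q' r : Eis}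
    (hr : ∀ i, LfE p q i r ≠ 0) (hr' : ∀ i, LfE p' q' i r ≠ 0) {A B : Eis} (hA : A ≠ 0)
    (hB : B ≠ 0) : ASE s (A * B) p q p' q' r = ASE s A p q p' q' r + ASE s B p q p' q' r := by
  unfold ASE
  rw [h.mul A B _ hA hB (hr 2), h.mul A B _ hA hB (hr' 1), h.mul A B _ hA hB (hr 1),
    h.mul A B _ hA hB (hr' 2)]
  ring

lemma ASE_pow {u : Eis} {s : Eis → Eis → ZMod 3} {e : ℕ} (h : LSym u s e) {p q p' q' r : Eis}
    (hr : ∀ i, LfE p q i r ≠ 0) (hr' : ∀ i, LfE p' q' i r ≠ 0) {B : Eis}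
    (hB : B ≠ 0) (E : ℕ) : ASE s (B ^ E) p q p' q' r = E * ASE s B p q p' q' r := by
  induction E with
  | zero =>
    have h1 := ASE_mul h hr hr' (A := 1) (B := 1) one_ne_zero one_ne_zero
    rw [mul_one] at h1
    rw [pow_zero, Nat.cast_zero, zero_mul]
    exact left_eq_add.1 h1
  | succ E ih =>
    rw [pow_succ, ASE_mul h hr hr' (pow_ne_zero _ hB) hB, ih]
    push_cast
    ring

lemma ASE_cont {u : Eis} {s : Eis → Eis → ZMod 3} {e : ℕ} (h : LSym u s e) {p q p' q' r : Eis}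
    (hr : ∀ i, LfE p q i r ≠ 0) (hr' : ∀ i, LfE p' q' i r ≠ 0) {A B : Eis} (hA : A ≠ 0)
    (hd : u ^ (V u A + e) ∣ B - A) : ASE s B p q p' q' r = ASE s A p q p' q' r := by
  unfold ASE
  rw [h.cont _ _ _ hA (hr 2) hd, h.cont _ _ _ hA (hr' 1) hd,
    h.cont _ _ _ hA (hr 1) hd, h.cont _ _ _ hA (hr' 2) hd]

/-- powers in the first variable -/
lemma s_pow {u : Eis} {s : Eis → Eis → ZMod 3} {e : ℕ} (h : LSym u s e) {a B : Eis}
    (ha : a ≠ 0) (hB : B ≠ 0) (E : ℕ) : s (B ^ E) a = E * s B a := by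
  induction E with
  | zero =>
    have h1 := h.mul 1 1 a one_ne_zero one_ne_zero ha
    rw [mul_one] at h1
    rw [pow_zero, Nat.cast_zero, zero_mul]
    exact left_eq_add.1 h1
  | succ E ih =>
    rw [pow_succ, h.mul _ _ a (pow_ne_zero _ hB) hB ha, ih]
    push_cast
    ring

lemma three_zero (a : ZMod 3) : 3 * a = 0 := by
  have h : (3 : ZMod 3) = 0 := rfl
  rw [h, zero_mul]

lemma s_cube {u : Eis} {s : Eis → Eis → ZMod 3} {e : ℕ} (h : LSym u s e) {a c : Eis}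
    (ha : a ≠ 0) (hc : c ≠ 0) : s (c ^ 3) a = 0 := by
  rw [s_pow h ha hc 3]
  exact three_zero _

/-- the symbol does not see cubes and the relation `x n = B c³` -/
lemma s_rel {u : Eis} {s : Eis → Eis → ZMod 3} {e : ℕ} (h : LSym u s e) {x n B c a : Eis}
    (hx : x ≠ 0) (hn : n ≠ 0) (hB : B ≠ 0) (hc : c ≠ 0) (ha : a ≠ 0)
    (hE : x * n = B * c ^ 3) : s x a + s n a = s B a := by
  rw [← h.mul x n a hx hn ha, hE, h.mul B (c ^ 3) a hB (pow_ne_zero _ hc) ha, s_cube h ha hc,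
    add_zero]

lemma ASE_rel {u : Eis} {s : Eis → Eis → ZMod 3} {e : ℕ} (h : LSym u s e) {p q p' q' r : Eis}
    (hr : ∀ i, LfE p q i r ≠ 0) (hr' : ∀ i, LfE p' q' i r ≠ 0) {x n B c : Eis}
    (hx : x ≠ 0) (hn : n ≠ 0) (hB : B ≠ 0) (hc : c ≠ 0)
    (hE : x * n = B * c ^ 3) :
    ASE s x p q p' q' r + ASE s n p q p' q' r = ASE s B p q p' q' r := by
  unfold ASE
  rw [← s_rel h hx hn hB hc (hr 2) hE, ← s_rel h hx hn hB hc (hr' 1) hE,
    ← s_rel h hx hn hB hc (hr 1) hE, ← s_rel h hx hn hB hc (hr' 2) hE]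
  ring

/-- the linear forms do not vanish at good approximations -/
lemma exists_ne {u : Eis} (hu : Prime u) {b p q : Eis} (hn : p ^ 3 + b * q ^ 3 ≠ 0) :
    ∃ N0 : ℕ, ∀ r : Eis, u ^ N0 ∣ r ^ 3 - b → ∀ i, LfE p q i r ≠ 0 := by
  refine ⟨V u (p ^ 3 + b * q ^ 3) + 1, fun r hr i => ?_⟩
  exact ne_of_ndvd (LfE_ndvd hr (ndvd_pow hu hn le_rfl) i)

/-- numbers prime to `f` -/
lemma V_cop {u : Eis} (hu : Prime u) {f : ℕ} (huf : u ∣ (f : Eis)) {a : ℤ}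
    (ha : IsCoprime a (f : ℤ)) : V u (a : Eis) = 0 := by
  apply V_eq_zero
  intro hd
  obtain ⟨x, y, hxy⟩ := ha
  apply hu.not_isUnit
  apply isUnit_of_dvd_one
  have h1 : (1 : Eis) = (x : Eis) * (a : Eis) + (y : Eis) * (f : Eis) := by
    have h2 := congrArg (fun t : ℤ => (t : Eis)) hxy
    simp only [Int.cast_add, Int.cast_mul, Int.cast_one, Int.cast_natCast] at h2
    exact h2.symm
  rw [h1]
  exact dvd_add (dvd_mul_of_dvd_right hd _) (dvd_mul_of_dvd_right huf _)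

lemma ne_cop {f : ℕ} (hf : 1 < f) {a : ℤ} (ha : IsCoprime a (f : ℤ)) : (a : Eis) ≠ 0 := by
  apply DCONST.cast_ne
  rintro rfl
  have h1 := isCoprime_zero_left.1 ha
  have h2 := Int.isUnit_iff.1 h1
  omega

/-- A function of the first variable `B` which is additive and continuous is, for `B = N Q^E`,
a constant plus `E` times a character of `Q`. -/
lemma exists_char {u : Eis} (hu : Prime u) {e f : ℕ} (he : 1 ≤ e) (hf : 1 < f)
    (huf : u ^ e ∣ (f : Eis)) (R : Eis → ZMod 3)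
    (hmul : ∀ A B : Eis, A ≠ 0 → B ≠ 0 → R (A * B) = R A + R B)
    (hcont : ∀ A B : Eis, A ≠ 0 → B ≠ 0 → u ^ (V u A + e) ∣ B - A → R B = R A)
    {n : Eis} (hn : n ≠ 0) :
    ∃ (C : ZMod 3) (Φ : (ZMod f)ˣ →* Multiplicative (ZMod 3)),
      ∀ (E Q : ℕ) (hQ : Q.Coprime f),
      R (n * (Q : Eis) ^ E) = C + E * (Φ (ZMod.unitOfCoprime Q hQ)).toAdd := by
  have huf1 : u ∣ (f : Eis) := by
    have h1 : u ^ 1 ∣ u ^ e := pow_dvd_pow u he
    rw [pow_one] at h1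
    exact h1.trans huf
  have hpow : ∀ (B : Eis), B ≠ 0 → ∀ E : ℕ, R (B ^ E) = E * R B := by
    intro B hB E
    induction E with
    | zero =>
      have h1 := hmul 1 1 one_ne_zero one_ne_zero
      rw [mul_one] at h1
      rw [pow_zero, Nat.cast_zero, zero_mul]
      exact left_eq_add.1 h1
    | succ E ih =>
      rw [pow_succ, hmul _ _ (pow_ne_zero _ hB) hB, ih]
      push_cast
      ring
  obtain ⟨Φ, hΦ⟩ := exists_hom hf (fun a : ℤ => R (a : Eis)) (by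
    intro a c ha hc
    show R ((a * c : ℤ) : Eis) = _
    rw [Int.cast_mul]
    exact hmul _ _ (ne_cop hf ha) (ne_cop hf hc)) (by
    intro a c ha hc hd
    refine hcont _ _ (ne_cop hf ha) (ne_cop hf hc) ?_
    rw [V_cop hu huf1 ha, zero_add, ← Int.cast_sub]
    have h2 : ((f : ℤ) : Eis) ∣ ((c - a : ℤ) : Eis) := intCast_dvd_intCast.2 hd
    rw [Int.cast_natCast] at h2
    exact huf.trans h2)
  refine ⟨R n, Φ, ?_⟩
  intro E Q hQ
  have hQ0 : ((Q : ℤ) : Eis) ≠ 0 := ne_cop hf (Nat.isCoprime_iff_coprime.2 hQ)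
  rw [hΦ, Int.cast_natCast] at *
  rw [hmul _ _ hn (pow_ne_zero _ hQ0), hpow _ hQ0]

/-- places where `b` is a cube -/
lemma place_LC {u : Eis} {s : Eis → Eis → ZMod 3} {e : ℕ} (h : LSym u s e)
    {b p q p' q' n : Eis} (hn0 : n ≠ 0) (hn : p ^ 3 + b * q ^ 3 ≠ 0)
    (hn' : p' ^ 3 + b * q' ^ 3 ≠ 0) (hLC : LCE u b) {f : ℕ} (hf : 1 < f)
    (huf : u ^ e ∣ (f : Eis)) :
    ∃ (C : ZMod 3) (Φ : (ZMod f)ˣ →* Multiplicative (ZMod 3)),
      ∀ (E Q : ℕ) (hQ : Q.Coprime f) (c : ZMod 3) (N0 : ℕ),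
      (∀ r : Eis, u ^ N0 ∣ r ^ 3 - b →
        ASE s (n * (Q : Eis) ^ E) p q p' q' r = c) →
      c = C + E * (Φ (ZMod.unitOfCoprime Q hQ)).toAdd := by
  obtain ⟨r, hr, hr', H⟩ := exists_root h hn hn' hLC
  obtain ⟨C, Φ, hΦ⟩ := exists_char h.prime h.pos hf huf (fun B => ASE s B p q p' q' r)
    (fun A B hA hB => ASE_mul h hr hr' hA hB) (fun A B hA _ hd => ASE_cont h hr hr' hA hd) hn0
  refine ⟨C, Φ, ?_⟩
  intro E Q hQ c N0 hc
  have hQ0 : (Q : Eis) ≠ 0 := by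
    have h1 : ((Q : ℤ) : Eis) ≠ 0 := ne_cop hf (Nat.isCoprime_iff_coprime.2 hQ)
    rwa [Int.cast_natCast] at h1
  rw [← hΦ E Q hQ]
  exact (H _ c N0 (mul_ne_zero hn0 (pow_ne_zero _ hQ0)) hc).symm

/-- the base and the norm are exchanged -/
lemma SolE_flip {b x p q p' q' : Eis} (h : SolE x b p q p' q') :
    SolE b x p (-p') (-q) q' := by
  refine ⟨⟨?_, ?_⟩, ?_, ?_, ?_⟩
  · linear_combination h.eq
  · intro h0
    apply h.n2
    linear_combination h0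
  · intro h0
    apply h.n1
    linear_combination h0
  · intro h0
    apply h.g1
    rw [← h0]
    unfold GfE
    ring
  · intro h0
    apply h.g2
    rw [← h0]
    unfold GfE
    ring

/-- the second norm -/
lemma SolE_n1' {x b p q p' q' : Eis} (h : SolE x b p q p' q') : p' ^ 3 + x * q' ^ 3 ≠ 0 := by
  intro h0
  apply h.n1
  rw [h.eq, h0, mul_zero]

lemma B_ne {N : ℕ} {b x p q p' q' : Eis} (HD : HypD N b x p q p' q') {E Q : ℕ} {X Y : Eis}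
    (HP : HypP N b x p q p' q' E Q X Y) : (N : Eis) * (Q : Eis) ^ E ≠ 0 := by
  have h1 : (N : Eis) ≠ 0 := by
    have h2 : ((N : ℤ) : Eis) ≠ 0 := DCONST.cast_ne (by have := HD.N0; omega)
    rwa [Int.cast_natCast] at h2
  have h3 : (Q : Eis) ≠ 0 := by
    have h2 : ((Q : ℤ) : Eis) ≠ 0 := DCONST.cast_ne (by have := HP.hQ.pos; omega)
    rwa [Int.cast_natCast] at h2
  exact mul_ne_zero h1 (pow_ne_zero _ h3)

lemma n0_ne {N : ℕ} {b x p q p' q' : Eis} (HD : HypD N b x p q p' q') {E Q : ℕ} {X Y : Eis}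
    (HP : HypP N b x p q p' q' E Q X Y) : X ^ 3 + x * Y ^ 3 ≠ 0 := by
  obtain ⟨c, hc, h⟩ := HP.pt.eq
  intro h0
  rw [h0, mul_zero] at h
  exact mul_ne_zero (B_ne HD HP) (pow_ne_zero _ hc) h.symm

/-- The local term at a tame place where `x` is a local cube. -/
lemma core (hIF4 : Stmt_IF4) (hLCI : Stmt_LCI) {π : PP} (hs : LSym π.1 (tm π.1) 1) {N : ℕ}
    {b x p q p' q' : Eis} (HD : HypD N b x p q p' q') {E Q : ℕ} {X Y : Eis}
    (HP : HypP N b x p q p' q' E Q X Y) (hL : LCE π.1 x) :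
    ∃ N0 : ℕ, ∀ ξ : Eis, π.1 ^ N0 ∣ ξ ^ 3 - x →
      (∀ i, LfE X Y i ξ ≠ 0) ∧
      (∀ a : Eis, a ≠ 0 → tm π.1 a (X ^ 3 + x * Y ^ 3) = tm π.1 a ((N : Eis) * (Q : Eis) ^ E)) ∧
      SVE (tm π.1) x p (-p') (-q) q' X Y =
        ASE (tm π.1) ((N : Eis) * (Q : Eis) ^ E) p q p' q' ξ +
          tm π.1 (LfE X Y 1 ξ) b - tm π.1 (LfE X Y 2 ξ) b := by
  have hB := B_ne HD HP
  have hn0 := n0_ne HD HP
  obtain ⟨c, hc, hE⟩ := HP.pt.eq
  obtain ⟨N1, H1⟩ := exists_ne hs.prime (b := x) HD.sol.n1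
  obtain ⟨N2, H2⟩ := exists_ne hs.prime (b := x) (SolE_n1' HD.sol)
  obtain ⟨N3, H3⟩ := exists_ne hs.prime (b := x) (p := X) (q := Y) hn0
  obtain ⟨N4, H4⟩ := hIF4 π.1 (tm π.1) 1 hs b x p (-p') (-q) q' X Y HD.hb HD.hx
    (SolE_flip HD.sol) HP.pt.hX HP.pt.hY hn0 HP.dn
  refine ⟨N1 + N2 + N3 + N4, fun ξ hξ => ?_⟩
  have g1 := H1 ξ ((pow_dvd_pow _ (by omega)).trans hξ)
  have g2 := H2 ξ ((pow_dvd_pow _ (by omega)).trans hξ)
  have g3 := H3 ξ ((pow_dvd_pow _ (by omega)).trans hξ)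
  have g4 := H4 ξ ((pow_dvd_pow _ (by omega)).trans hξ)
  have hx0 : ∀ a : Eis, a ≠ 0 → tm π.1 x a = 0 := fun a ha =>
    hLCI.2.2 π.1 (tm π.1) 1 x a hs hL HD.hx ha
  have hrel : ∀ a : Eis, a ≠ 0 →
      tm π.1 (X ^ 3 + x * Y ^ 3) a = tm π.1 ((N : Eis) * (Q : Eis) ^ E) a := by
    intro a ha
    have h1 := s_rel hs HD.hx hn0 hB hc ha hE
    rw [hx0 a ha, zero_add] at h1
    exact h1
  refine ⟨g3, ?_, ?_⟩
  · intro a ha
    rw [hs.skew (X ^ 3 + x * Y ^ 3) a hn0 ha, hs.skew ((N : Eis) * (Q : Eis) ^ E) a hB ha, hrel a ha]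
  · rw [g4, neg_neg, neg_neg]
    unfold ASE
    rw [hrel _ (g1 2), hrel _ (g2 1), hrel _ (g1 1), hrel _ (g2 2)]

/-- the tame symbol with an element proportional to `B` -/
lemma tm_prop {π a b B : Eis} (hb : tm π b B = 0) :
    (V π B : ZMod 3) * tm π a b = (V π b : ZMod 3) * tm π a B := by
  have h1 : (V π B : ZMod 3) * ch π b = (V π b : ZMod 3) * ch π B := by
    unfold tm at hb
    linear_combination hb
  unfold tm
  linear_combination (- (V π a : ZMod 3)) * h1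

end DPA

end Pool.Agent.PTK
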