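import Pool.Agent.PTK.StK

/-!
# All moments of `3^r` for prime twists: local part, pairs of classes, the joint governing field

Stage 3 of the project PTK. Everything of `StL`, `StN`, `StG`, `StC`, `StJ`, `StK` (stages 1, 2; all proved: `X_thm` in
`PTK/X.lean`) and of `PT`, `PTE`, `PT3`, `PTL`, `PTN` may be imported or taken as a hypothesis.

A test configuration has classes `z : Fin M → Eis` and `N` pairs `(α r, β r)`, `α r < β r`: base class `z (α r)`, norm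
`z (β r)`. (Stages 1, 2: one base class `x` and norms `u j`.)
-/

set_option autoImplicit false

open NumberField IsDedekindDomain Finset
open scoped nonZeroDivisors Pointwise

namespace Pool.Agent.PTK

open Pool.Agent.Lib_helper18 Pool.Agent.Lib_helper18.Eis Pool.Agent.Lib_helper84.Cub
open Pool.Agent.PT Pool.Agent.PTE Pool.Agent.PT3 Pool.Agent.PTL Pool.Agent.PTN

/-! ### The local term at `λ` when `x` is a local cube and `b` is not -/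

/-- PTK_LRR: the class of a point of the isogenous curve at `3` (checked numerically).
Proof. Divide by the common power of `3`: `R i = 3^μ A i`; `lv (∏ R) = lv (∏ A)`, `lw (R i) = lw (A i)`. The sum of the `A i` is `0`, so at most
one `A i` is divisible by `3`. (i) All `A i` are prime to `3`: they are congruent modulo `3`, `A i = ε (1 + 3 t i)` with
`∑ t i = -1 (mod 3)` (`∑ A i = 0` modulo `9`), so `lw (∏ A) = ∑ wt (A i²) ≠ 0` (`A i² = 1 + 6 t i` modulo `9`, `wt` is additive and injective on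
the classes `1, 4, 7` modulo `9`), and `lv B = 0`, `lw B ≠ 0`, `lv (R 1) = lv (R 2)`: `κ = (lw (R 1) - lw (R 2)) / lw B`. (ii) `A i` is
divisible by exactly `3^v`, `v ≥ 1`; `lv B = v` modulo `3`, and `lv B ≠ 1`, so `v ≥ 2`; the other two satisfy `A j = - A k` modulo `9`,
`lw (A j) = lw (A k)`, and `lw (A i) + 2 lw (A k) = lw B`, so `lw (A i) - lw (A k) = lw B`, `lv (A i) - lv (A k) = lv B`: `κ = 0, 1, -1`. -/
def Stmt_LRR : Prop := ∀ (R : Fin 3 → ℤ) (B : ℤ), (∀ i, R i ≠ 0) → B ≠ 0 → R 0 + R 1 + R 2 = 0 →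
  lv (R 0 * R 1 * R 2) = lv B → lw (R 0 * R 1 * R 2) = lw B → lv B ≠ 1 →
  ∃ κ : ZMod 3, lv (R 1) - lv (R 2) = κ * lv B ∧ lw (R 1) - lw (R 2) = κ * lw B

/-- the linear forms of the point `(X, Y)` have the same symbol with the test classes, at `λ` -/
def GoodPt (B : ℤ) (x X Y : Eis) : Prop := ∀ b : Eis, b ≠ 0 → ¬ lam ∣ b →
  (∃ t : Eis, b * conj b = t ^ 3) → sl b (B : Eis) = 0 →
  ∃ N0 : ℕ, ∀ ξ : Eis, lam ^ N0 ∣ ξ ^ 3 - x → sl (LfE X Y 1 ξ) b = sl (LfE X Y 2 ξ) b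

/-- PTK_PTX: as `PT`, with the property `GoodPt` (checked numerically).
Proof. Hypotheses: `Stmt_LRR`, `SSL`, `SLC`, `SCJ`, `LCL`. The point of `PT_thm` (PTK/PT.lean): `ζ g³ = x g'³`, `a₀ = x₀ + y₀`,
`a₂ = w² (x₀ + w² y₀)`, `a₁ = conj a₂`, `ζ = a₁ a₂²`, `a₀ + a₁ + a₂ = 0`, `a₀ a₁ a₂ = B z₀³`, `X = g'² g a₂`, `Y = g'³`. Let
`λ ^ N0 ∣ ξ³ - x`, `N0` large; `γ = g a₂`, `η = g' ξ`: `F_i = X + w^i Y ξ = g'² (γ + w^i η)`, `η³ = ζ g³` (modulo a high power of `λ`). (1) The rational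
integers `ν = γ conj γ` and `η conj η` have (approximately) the same cube (`ζ conj ζ = (a₁ a₂)³`), so `η conj η = ν` modulo a high power of `3`
(a quotient of rational integers with cube `≈ 1` is `≈ 1`). (2) `ρ_i = w^i (γ + w^i η) conj (γ + η) = R_i + w^(2i) (η conj η - ν)` with the
rational integers `R_i = Tr(w^i) ν + Tr(w^i γ conj η)` (`Tr z = z + conj z`), `R 0 + R 1 + R 2 = 0`; `R_i ≠ 0` and `ρ_i / R_i ≈ 1`, because the product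
`∏ (γ + w^i η) = γ³ + η³ ≈ - g³ a₂² a₀ ≠ 0` bounds the valuations of the `γ + w^i η`. (3) `R 0 R 1 R 2 η³ ≈ B (- g² z₀ a₂ conj (γ + η))³` (as
`(γ³ + η³) η³ ≈ - g³ a₂² a₀ · ζ g³ = - g⁶ B z₀³ a₂³`); so the rational integers `R 0 R 1 R 2` and `B` have the same `lv` (valuations modulo `3`) and
the same `lw` (`sl w n = - lw n` for integers: `HYPT.sl_int`, `HYPT.lw_four`; `sl w (R 0 R 1 R 2) = sl w B` by continuity `SLC`). (4) `LRR`: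
`sl b (R 1) - sl b (R 2) = κ (lv B sl b 3 - lw B sl b 4) = κ sl b B = 0` (`HYPT.sl_int`). (5) `sl F_1 b - sl F_2 b = sl (w⁻¹ ρ_1) b - sl (w⁻² ρ_2) b
= sl (R 1) b - sl (R 2) b + sl w b = sl w b`, and `sl w b = 0`: `SCJ`: `sl (conj w) (conj b) = - sl w b`, while `conj w = w²`, `conj b = t³ / b` give
`sl (conj w) (conj b) = - 2 sl w b = sl w b`. -/
def Stmt_PTX : Prop := ∀ (B : ℤ) (x : Eis), B ≠ 0 → lv B ≠ 1 → x ≠ 0 → (¬ ∃ t : Eis, t ^ 3 = x) →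
  Occ B x → ∃ X Y : Eis, PtE (B : Eis) x X Y ∧ GoodPt B x X Y

/-- The hypotheses `HypD` without the condition that `b` is a local cube at `λ`; here `x` is one. -/
structure HypX (N : ℕ) (b x p q p' q' : Eis) : Prop where
  N0 : 0 < N
  sol : SolE x b p q p' q'
  hb : b ≠ 0
  hx : x ≠ 0
  lx : LCE lam x
  nb : ¬ lam ∣ b
  cb : ∃ t : Eis, b * conj b = t ^ 3
  unr : ∀ π : PP, ¬ π.1 ∣ (N : Eis) → ¬ π.1 ∣ b ∧ ¬ π.1 ∣ x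
  cf : ∀ π : PP, V π.1 (N : Eis) ≤ 2

/-- PTK_DX1: copy of `DP1` for `HypX` (the proof of `DP1_thm` in PTK/DP1.lean does not use `HypD.lc`). -/
def Stmt_DX1 : Prop := ∀ (N : ℕ) (b x p q p' q' : Eis), HypX N b x p q p' q' →
  ∀ (π : PP) (f : ℕ), 1 < f → π.1 ∣ (f : Eis) →
    ∃ (C : ZMod 3) (Φ : (ZMod f)ˣ →* Multiplicative (ZMod 3)),
    ∀ (E Q : ℕ) (hQ : Q.Coprime f) (X Y : Eis), HypP N b x p q p' q' E Q X Y →
      SVE (tm π.1) x p (-p') (-q) q' X Y = C + E * (Φ (ZMod.unitOfCoprime Q hQ)).toAdd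

/-- PTK_DX2: the local term at `λ`.
Proof. `IF4` for `s = sl`, `e = 4` (`SLC`) and `SolE b x p (-p') (-q) q'` (as in `DP1_thm`, part (a), `π = λ`): for all good `ξ`
(`λ ^ N0 ∣ ξ³ - x`; they exist by `HypX.lx`), `B = N Q^E`, `n₀ = X³ + x Y³`: `SVE = ASE sl n₀ p q p' q' ξ + sl F_1 b - sl F_2 b`, and
`sl F_1 b = sl F_2 b` by `GoodPt` (`sl b B = 0`: product formula `SSL` for `(b, B)`, `HypP.sb`). `sl n₀ a = sl B a` for `a ≠ 0` (`x n₀ = B c³`, `x` is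
a local cube, `Stmt_LCI`, third part). So `ASE sl B p q p' q' ξ` is the same number for all good `ξ`; fix `ξ₀` as in `DP1` / `DP2`:
`ASE sl B ξ₀ = ASE sl N ξ₀ + E ASE sl Q ξ₀`, and `sl Q a` depends only on `Q` modulo `9` (`SLC`). -/
def Stmt_DX2 : Prop := ∀ (N : ℕ) (b x p q p' q' : Eis), HypX N b x p q p' q' →
  ∀ f : ℕ, 1 < f → 9 ∣ f → ∃ (C : ZMod 3) (Φ : (ZMod f)ˣ →* Multiplicative (ZMod 3)),
    ∀ (E Q : ℕ) (hQ : Q.Coprime f) (X Y : Eis), HypP N b x p q p' q' E Q X Y →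
      GoodPt ((N : ℤ) * (Q : ℤ) ^ E) x X Y →
      SVE sl x p (-p') (-q) q' X Y = C + E * (Φ (ZMod.unitOfCoprime Q hQ)).toAdd

/-- PTK_DX3: copy of `DP3` for `HypX`. -/
def Stmt_DX3 : Prop := ∀ (N : ℕ) (b x p q p' q' : Eis), HypX N b x p q p' q' →
  ∀ (π : PP) (E Q : ℕ) (X Y : Eis), HypP N b x p q p' q' E Q X Y →
    ¬ π.1 ∣ (N : Eis) → ¬ π.1 ∣ (Q : Eis) →
    ¬ π.1 ∣ (p ^ 3 + x * q ^ 3) * (p' ^ 3 + x * q' ^ 3) →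
    SVE (tm π.1) x p (-p') (-q) q' X Y = 0

/-- PTK_DX4: copy of `DP4` and `DP4U` for `HypX`. -/
def Stmt_DX4 : Prop := ∀ (N : ℕ) (b x p q p' q' : Eis), HypX N b x p q p' q' →
  ∀ (π : PP) (E Q : ℕ) (X Y ξ : Eis), HypP N b x p q p' q' E Q X Y → ¬ π.1 ∣ (N : Eis) →
    ¬ π.1 ∣ (p ^ 3 + x * q ^ 3) * (p' ^ 3 + x * q' ^ 3) →
    (Q % 3 = 2 → π.1 = (Q : Eis) → (Q : Eis) ∣ ξ ^ 3 - x →
      SVE (tm π.1) x p (-p') (-q) q' X Y = - (E * TAUE Q p q p' q' ξ)) ∧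
    (Q % 3 = 1 → π.1 ∣ (Q : Eis) → π.1 ∣ ξ ^ 3 - x →
      SVE (tm π.1) x p (-p') (-q) q' X Y = - (E * TAUP π.1 p q p' q' ξ))

/-- PTK_DXK: the relation, `Q = 2 (mod 3)`. As `DCK_thm` with `DX1`, …, `DX4`. -/
def Stmt_DXK : Prop := ∀ (N : ℕ) (b x p q p' q' : Eis), HypX N b x p q p' q' →
  ∃ f₀ : ℕ, 0 < f₀ ∧ ∀ f : ℕ, 0 < f → f₀ ∣ f →
  ∃ (C : ZMod 3) (Φ : (ZMod f)ˣ →* Multiplicative (ZMod 3)) (N₀ : ℕ),
    ∀ (E Q : ℕ) (hQ : Q.Coprime f), (E = 1 ∨ E = 2) → Q.Prime → N₀ < Q → Q % 3 = 2 →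
      (∀ σ : PP, tm σ.1 b ((N : Eis) * (Q : Eis) ^ E) = 0) →
      (∀ σ : PP, tm σ.1 x ((N : Eis) * (Q : Eis) ^ E) = 0) →
      ∀ X Y ξ : Eis, PtE ((N : Eis) * (Q : Eis) ^ E) x X Y →
        GoodPt ((N : ℤ) * (Q : ℤ) ^ E) x X Y → (Q : Eis) ∣ ξ ^ 3 - x →
        C + E * ((Φ (ZMod.unitOfCoprime Q hQ)).toAdd - TAUE Q p q p' q' ξ) = 0

/-- PTK_DXL: the relation, `Q = 1 (mod 3)`. As `DCKU_thm` with `DX1`, …, `DX4`. -/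
def Stmt_DXL : Prop := ∀ (N : ℕ) (b x p q p' q' : Eis), HypX N b x p q p' q' →
  ∃ f₀ : ℕ, 0 < f₀ ∧ ∀ f : ℕ, 0 < f → f₀ ∣ f →
  ∃ (C : ZMod 3) (Φ : (ZMod f)ˣ →* Multiplicative (ZMod 3)) (N₀ : ℕ),
    ∀ (E Q : ℕ) (hQ : Q.Coprime f) (ρ : PP), (E = 1 ∨ E = 2) → Q.Prime → N₀ < Q → Q % 3 = 1 →
      (Q : Eis) = ρ.1 * conj ρ.1 →
      (∀ σ : PP, tm σ.1 b ((N : Eis) * (Q : Eis) ^ E) = 0) →
      (∀ σ : PP, tm σ.1 x ((N : Eis) * (Q : Eis) ^ E) = 0) →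
      ∀ X Y ξ ξ' : Eis, PtE ((N : Eis) * (Q : Eis) ^ E) x X Y →
        GoodPt ((N : ℤ) * (Q : ℤ) ^ E) x X Y → ρ.1 ∣ ξ ^ 3 - x → conj ρ.1 ∣ ξ' ^ 3 - x →
        C + E * ((Φ (ZMod.unitOfCoprime Q hQ)).toAdd - TAUP ρ.1 p q p' q' ξ -
          TAUP (conj ρ.1) p q p' q' ξ') = 0

/-! ### Systems with several base classes -/

/-- Classes `z i`, pairs `(α r, β r)` with base class `z (α r)` and norm `z (β r)`. -/
structure SysZ {M N : ℕ} (z : Fin M → Eis) (α β : Fin N → Fin M) (P Q P' Q' : Fin N → Eis) :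
    Prop where
  ind : ∀ c : Fin M → ℕ, (∃ i, ¬ 3 ∣ c i) → ¬ ∃ t : Eis, t ^ 3 = ∏ i, z i ^ c i
  cz : ∀ i, ∃ t : Eis, z i * conj (z i) = t ^ 3
  lt : ∀ r, α r < β r
  inj : ∀ r r', α r = α r' → β r = β r' → r = r'
  sol : ∀ r, SolE (z (α r)) (z (β r)) (P r) (Q r) (P' r) (Q' r)

/-- one pair of a system is a system of stage 1 -/
theorem SysZ.one {M N : ℕ} {z : Fin M → Eis} {α β : Fin N → Fin M} {P Q P' Q' : Fin N → Eis}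
    (hS : SysZ z α β P Q P' Q') (r : Fin N) :
    SysK (z (α r)) (fun _ : Fin 1 => z (β r)) (fun _ => P r) (fun _ => Q r) (fun _ => P' r)
      (fun _ => Q' r) := by
  refine ⟨fun c₀ c h hc => ?_, fun _ => hS.sol r, hS.cz _, fun _ => hS.cz _⟩
  have hne : α r ≠ β r := ne_of_lt (hS.lt r)
  refine hS.ind (Function.update (Function.update 0 (α r) c₀) (β r) (c 0)) ?_ ?_
  · rcases h with h | ⟨i, h⟩
    · exact ⟨α r, by rwa [Function.update_of_ne hne, Function.update_self]⟩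
    · exact ⟨β r, by rwa [Function.update_self, Subsingleton.elim 0 i]⟩
  · obtain ⟨t, ht⟩ := hc
    refine ⟨t, ht.trans ?_⟩
    have e1 : ∏ i : Fin 1, z (β r) ^ c i = z (β r) ^ c 0 := Fin.prod_univ_one _
    have e2 : ∏ i ∈ (Finset.univ.erase (α r)).erase (β r),
        z i ^ (Function.update (Function.update 0 (α r) c₀) (β r) (c 0) : Fin M → ℕ) i = 1 := by
      refine Finset.prod_eq_one fun i hi => ?_
      rw [Finset.mem_erase, Finset.mem_erase] at hi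
      rw [Function.update_of_ne hi.1, Function.update_of_ne hi.2.1, Pi.zero_apply, pow_zero]
    rw [e1, ← Finset.mul_prod_erase _ _ (Finset.mem_univ (α r)),
      ← Finset.mul_prod_erase _ _ (Finset.mem_erase.2 ⟨hne.symm, Finset.mem_univ (β r)⟩), e2,
      Function.update_of_ne hne, Function.update_self, Function.update_self, mul_one]

/-- The governing field of the minus part. -/
structure GovZ {M N : ℕ} (z : Fin M → Eis) (α : Fin N → Fin M) (P Q P' Q' : Fin N → Eis) (f : ℕ)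
    (L : Type) [Field L] [NumberField L] (ζ : L) (ι : Eis →+* L) : Prop where
  gal : IsGalois ℚ L
  prim : IsPrimitiveRoot ζ f
  nine : 9 ∣ f
  hω : ι w = ζ ^ (f / 3)
  rz : ∀ i, ∃ θ : L, θ ^ 3 = ι (z i)
  A : ∀ (r : Fin N) (ρ : L), ρ ^ 3 = ι (z (α r)) → ∃ A : L,
    A ^ 3 * aDE ι (P r) (Q r) (P' r) (Q' r) ρ = aNE ι (P r) (Q r) (P' r) (Q' r) ρ
  D : ∀ (r : Fin N) (ρ : L), ρ ^ 3 = ι (z (α r)) →
    aDE ι (P r) (Q r) (P' r) (Q' r) ρ ≠ 0 ∧ aNE ι (P r) (Q r) (P' r) (Q' r) ρ ≠ 0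

/-- the governing field for one pair -/
theorem GovZ.one {M N : ℕ} {z : Fin M → Eis} {α β : Fin N → Fin M} {P Q P' Q' : Fin N → Eis}
    {f : ℕ} {L : Type} [Field L] [NumberField L] {ζ : L} {ι : Eis →+* L}
    (hG : GovZ z α P Q P' Q' f L ζ ι) (r : Fin N) :
    GovK (z (α r)) (fun _ : Fin 1 => z (β r)) (fun _ => P r) (fun _ => Q r) (fun _ => P' r)
      (fun _ => Q' r) f L ζ ι :=
  ⟨hG.gal, hG.prim, hG.nine, hG.hω, hG.rz _, fun _ => hG.rz _, fun _ => hG.A r, fun _ => hG.D r⟩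

/-- The joint governing field. -/
structure GovW {s M N : ℕ} (b : Fin s → ℤ) (p q p' q' : Fin s → Fin s → ℤ)
    (z : Fin M → Eis) (α : Fin N → Fin M) (P Q P' Q' : Fin N → Eis) (f : ℕ)
    (L : Type) [Field L] [NumberField L] (ζ : L) (ι : Eis →+* L) : Prop where
  plus : GovF b p q p' q' f L ζ (ι w)
  minus : GovZ z α P Q P' Q' f L ζ ι

/-- `A` belongs to the pair `r` of the minus part (`PrM` for one pair) -/
def PrW {M N : ℕ} (z : Fin M → Eis) (α : Fin N → Fin M) (P Q P' Q' : Fin N → Eis) {L : Type}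
    [Field L] (ι : Eis →+* L) (r : Fin N) (ρ A : L) : Prop :=
  ρ ^ 3 = ι (z (α r)) ∧ A ^ 3 * aDE ι (P r) (Q r) (P' r) (Q' r) ρ = aNE ι (P r) (Q r) (P' r) (Q' r) ρ

/-- `g` fixes `ζ` and the cube roots of all classes -/
structure FxW {s M : ℕ} (b : Fin s → ℤ) (z : Fin M → Eis) {L : Type} [Field L]
    [NumberField L] (ζ : L) (ι : Eis →+* L) (g : L ≃ₐ[ℚ] L) : Prop where
  ze : g ζ = ζ
  rz : ∀ (i : Fin M) (ρ : L), ρ ^ 3 = ι (z i) → g ρ = ρ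
  rb : ∀ (i : Fin s) (ρ : L), ρ ^ 3 = (b i : L) → g ρ = ρ

/-- PTK_MZF: existence of the joint governing field. As `JZ_thm` (PTK/JZ.lean). -/
def Stmt_MZF : Prop := ∀ (s M N : ℕ) (b : Fin s → ℤ) (p q p' q' : Fin s → Fin s → ℤ)
  (z : Fin M → Eis) (α β : Fin N → Fin M) (P Q P' Q' : Fin N → Eis) (f : ℕ), SysG b p q p' q' →
  SysZ z α β P Q P' Q' → 0 < f → 9 ∣ f →
  ∃ (L : Type) (_ : Field L) (_ : NumberField L) (ζ : L) (ι : Eis →+* L),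
    GovW b p q p' q' z α P Q P' Q' f L ζ ι

/-- PTK_MKU: Kummer theory over `K = Q(w)` for all classes together. As `JKU_thm` (PTK/JKU.lean), `Z = ∏ z_i^(c i)`. -/
def Stmt_MKU : Prop := ∀ (s M N : ℕ) (b : Fin s → ℤ) (p q p' q' : Fin s → Fin s → ℤ)
  (z : Fin M → Eis) (α β : Fin N → Fin M) (P Q P' Q' : Fin N → Eis) (f : ℕ)
  (L : Type) [Field L] [NumberField L] (ζ : L) (ι : Eis →+* L),
  SysG b p q p' q' → SysZ z α β P Q P' Q' → GovW b p q p' q' z α P Q P' Q' f L ζ ι →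
  ∀ (a : Fin M → ZMod 3) (v : Fin s → ZMod 3), ∃ g : L ≃ₐ[ℚ] L, g (ι w) = ι w ∧
    (∀ (i : Fin M) (ρ : L), ρ ^ 3 = ι (z i) → g ρ = ι w ^ (a i).val * ρ) ∧
    ∀ (i : Fin s) (ρ : L), ρ ^ 3 = (b i : L) → g ρ = ι w ^ (v i).val * ρ

/-- PTK_MC1: commutators for the minus part which are trivial on the plus part.
Proof. As `JC1_thm`, `GCK_thm` and `GC.all` (PT/GC.lean). For a pair `(ρ, A)` of index `r` and `σ`, `τ` which fix `ω` and multiply the roots of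
`z i` by `ω^(a i)`, `ω^(c i)`: `(σ τ)⁻¹ (τ σ) A = ω^(a (α r) c (β r) - c (α r) a (β r)) A` (`GC.mv`, `GC.fx`, `GC.comm_apply`; it is enough to have the two cases
below). For every `r` let `σ_r` move only the roots of `z (α r)`, by `ω`, and `τ_r` only those of `z (β r)`, by `ω^(v r)` (`MKU`, with `v = 0` on the plus
part): `c_r = (σ_r τ_r)⁻¹ (τ_r σ_r)` multiplies `A` of index `r` by `ω^(v r)` and fixes `A` of every other index `r'`: if both fix `ρ` then they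
act on `A` by powers of `ω` and commute; if `σ_r` moves `ρ` then `α r' = α r`, so `β r' ≠ β r` (`inj`), `β r' ≠ α r` (`lt`), and both fix the roots of
`z (β r')`; if `τ_r` moves `ρ` then `α r' = β r`, `β r' > α r' = β r > α r`, and both fix the roots of `z (β r')`: in these cases they commute on `A` too
(the formula with exponent `0`). `g` is the product of the `c_r` over all `r` (they are in the group of elements fixing `ζ` and all roots).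
Plus part: as in `JC1_thm` (`σ_r`, `τ_r` fix the roots of the `b i`). Last clause: as in `GCK_thm` for every `c_r`: `τ⁻¹ σ_r τ` acts on the roots as
`σ_r` (`z i conj (z i) = t³`). -/
def Stmt_MC1 : Prop := ∀ (s M N : ℕ) (b : Fin s → ℤ) (p q p' q' : Fin s → Fin s → ℤ)
  (z : Fin M → Eis) (α β : Fin N → Fin M) (P Q P' Q' : Fin N → Eis) (f : ℕ)
  (L : Type) [Field L] [NumberField L] (ζ : L) (ι : Eis →+* L),
  SysG b p q p' q' → SysZ z α β P Q P' Q' → GovW b p q p' q' z α P Q P' Q' f L ζ ι →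
  ∀ v : Fin N → ZMod 3, ∃ g : L ≃ₐ[ℚ] L, FxW b z ζ ι g ∧
    (∀ (j i : Fin s) (ρ A : L), j ≠ i → PrP b p q p' q' ι j i ρ A → g A = A) ∧
    ∀ (r : Fin N) (ρ A : L), PrW z α P Q P' Q' ι r ρ A → g A = ι w ^ (v r).val * A ∧
      ∀ τ : L ≃ₐ[ℚ] L, τ (ι w) = ι w ^ 2 → g (τ A) = ι w ^ (- v r).val * τ A

/-- PTK_MC2: commutators for the plus part which are trivial on the minus part. As `JC2_thm` (PTK/JC2.lean). -/
def Stmt_MC2 : Prop := ∀ (s M N : ℕ) (b : Fin s → ℤ) (p q p' q' : Fin s → Fin s → ℤ)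
  (z : Fin M → Eis) (α β : Fin N → Fin M) (P Q P' Q' : Fin N → Eis) (f : ℕ)
  (L : Type) [Field L] [NumberField L] (ζ : L) (ι : Eis →+* L),
  SysG b p q p' q' → SysZ z α β P Q P' Q' → GovW b p q p' q' z α P Q P' Q' f L ζ ι →
  ∀ v : Fin s → Fin s → ZMod 3, ∃ g : L ≃ₐ[ℚ] L, FxW b z ζ ι g ∧
    (∀ (j i : Fin s) (ρ A : L), j < i → PrP b p q p' q' ι j i ρ A → g A = ι w ^ (v j i).val * A) ∧
    ∀ (r : Fin N) (ρ A : L), PrW z α P Q P' Q' ι r ρ A → g A = A ∧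
      ∀ τ : L ≃ₐ[ℚ] L, τ (ι w) = ι w ^ 2 → g (τ A) = τ A

/-- PTK_MAL: summary of the joint governing field, `Q = 2 (mod 3)`.
Proof. As `JAL_thm` (PTK/JAL.lean), with `MZF`, `MC1`, `MC2`; `F g : g (ι w) = ι w ^ 2 ∧ ∀ i ρ, ρ ^ 3 = ι (z i) → g (g ρ) = ρ`, `t g r` from `GTK`, `GFK` for
the system of the pair `r` (`SysZ.one`, `GovZ.one`; `FxK` for one pair follows from `F`; every class `z i` is used in `F`, for the Frobenius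
element see the proof of `GFK_thm`, part (a), or apply `GFK` to `x = z i`: `GFK` with `s = 0`). -/
def Stmt_MAL : Prop := ∀ (s : ℕ) (b : Fin s → ℤ) (p q p' q' : Fin s → Fin s → ℤ)
  (M N : ℕ) (z : Fin M → Eis) (α β : Fin N → Fin M) (P Q P' Q' : Fin N → Eis) (f : ℕ),
  SysG b p q p' q' → SysZ z α β P Q P' Q' → 0 < f → 9 ∣ f →
  ∃ (L : Type) (_ : Field L) (_ : NumberField L) (_ : IsGalois ℚ L)
    (χ : (L ≃ₐ[ℚ] L) →* (ZMod f)ˣ) (tt : (L ≃ₐ[ℚ] L) → Fin s → Fin s → ZMod 3)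
    (F : (L ≃ₐ[ℚ] L) → Prop) (t : (L ≃ₐ[ℚ] L) → Fin N → ZMod 3) (N₀ : ℕ),
    Function.Surjective χ ∧
    (∀ g τ : L ≃ₐ[ℚ] L, M2 (χ g) → ∀ j i, j ≠ i → tt (τ * g * τ⁻¹) j i = tt g j i) ∧
    (∀ (g : L ≃ₐ[ℚ] L) (l : ℕ), M2 (χ g) → Odd l → ∀ j i, j ≠ i → tt (g ^ l) j i = l * tt g j i) ∧
    (∀ g τ : L ≃ₐ[ℚ] L, M2 (χ g) → F g → F (τ * g * τ⁻¹) ∧ t (τ * g * τ⁻¹) = t g) ∧
    (∀ (g : L ≃ₐ[ℚ] L) (l : ℕ), M2 (χ g) → F g → Odd l → F (g ^ l) ∧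
      t (g ^ l) = (l : ZMod 3) • t g) ∧
    (∀ (a : (ZMod f)ˣ) (v v' : Fin s → Fin s → ZMod 3) (y y' : Fin N → ZMod 3), M2 a →
      Nat.card {g : L ≃ₐ[ℚ] L // χ g = a ∧ F g ∧ t g = y ∧ ∀ j i, j < i → tt g j i = v j i} =
        Nat.card {g : L ≃ₐ[ℚ] L //
          χ g = a ∧ F g ∧ t g = y' ∧ ∀ j i, j < i → tt g j i = v' j i}) ∧
    ∀ (q₀ : ℕ) (hq : q₀.Coprime f), q₀.Prime → N₀ < q₀ →
      ∀ (I : Ideal (𝓞 L)) (g : L ≃ₐ[ℚ] L), I.IsPrime → (q₀ : 𝓞 L) ∈ I →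
      MulAction.stabilizer (L ≃ₐ[ℚ] L) I = Subgroup.zpowers g →
      ∃ l : ℕ, l.Coprime (orderOf g) ∧ χ (g ^ l) = ZMod.unitOfCoprime q₀ hq ∧
        (q₀ % 3 = 2 →
          (∀ j i, j ≠ i → ∀ r : ℤ, (q₀ : ℤ) ∣ r ^ 3 - b j →
            tt (g ^ l) j i = TAUV q₀ (p j i) (q j i) (p' j i) (q' j i) r) ∧
          ((∀ i, sym (q₀ : Eis) (z i) = 0) → F (g ^ l) ∧
            ∀ (r : Fin N) (ξ : Eis), (q₀ : Eis) ∣ ξ ^ 3 - z (α r) →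
              t (g ^ l) r = TAUE q₀ (P r) (Q r) (P' r) (Q' r) ξ))

/-- PTK_MAU: summary of the joint governing field, `Q = 1 (mod 3)`, generic pattern.
Proof. As `JAU_thm` (PTK/JAU.lean); `F₂ g : g (ι w) = ι w ∧ ∀ i ρ, ρ ^ 3 = ι (z i) → g ρ = ρ`; `T g r` from `GTU`, `GFKU` for the pair `r` (`SysZ.one`,
`GovZ.one`). -/
def Stmt_MAU : Prop := ∀ (s : ℕ) (b : Fin (s + 1) → ℤ)
  (p q p' q' : Fin (s + 1) → Fin (s + 1) → ℤ)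
  (M N : ℕ) (z : Fin M → Eis) (α β : Fin N → Fin M) (P Q P' Q' : Fin N → Eis) (f : ℕ),
  SysG b p q p' q' → SysZ z α β P Q P' Q' → 0 < f → 9 ∣ f →
  ∃ (L : Type) (_ : Field L) (_ : NumberField L) (_ : IsGalois ℚ L)
    (χ : (L ≃ₐ[ℚ] L) →* (ZMod f)ˣ) (F : (L ≃ₐ[ℚ] L) → Prop)
    (tt : (L ≃ₐ[ℚ] L) → Fin s → Fin s → ZMod 3)
    (F₂ : (L ≃ₐ[ℚ] L) → Prop) (T : (L ≃ₐ[ℚ] L) → Fin N → ZMod 3) (N₀ : ℕ),
    Function.Surjective χ ∧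
    (∀ g τ : L ≃ₐ[ℚ] L, M1 (χ g) → F g →
      F (τ * g * τ⁻¹) ∧ ∀ j i, j ≠ i → tt (τ * g * τ⁻¹) j i = tt g j i) ∧
    (∀ (g : L ≃ₐ[ℚ] L) (l : ℕ), M1 (χ g) → F g → ¬ 3 ∣ l →
      F (g ^ l) ∧ ∀ j i, j ≠ i → tt (g ^ l) j i = l * tt g j i) ∧
    (∀ g τ : L ≃ₐ[ℚ] L, M1 (χ g) → F₂ g → F₂ (τ * g * τ⁻¹) ∧ T (τ * g * τ⁻¹) = T g) ∧
    (∀ (g : L ≃ₐ[ℚ] L) (l : ℕ), M1 (χ g) → F₂ g → F₂ (g ^ l) ∧
      T (g ^ l) = (l : ZMod 3) • T g) ∧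
    (∀ (a : (ZMod f)ˣ) (v v' : Fin s → Fin s → ZMod 3) (y y' : Fin N → ZMod 3), M1 a →
      Nat.card {g : L ≃ₐ[ℚ] L //
          χ g = a ∧ F g ∧ F₂ g ∧ T g = y ∧ ∀ j i, j < i → tt g j i = v j i} =
        Nat.card {g : L ≃ₐ[ℚ] L //
          χ g = a ∧ F g ∧ F₂ g ∧ T g = y' ∧ ∀ j i, j < i → tt g j i = v' j i}) ∧
    (∀ a : (ZMod f)ˣ, M1 a → 3 ^ (s + 1) * Nat.card {g : L ≃ₐ[ℚ] L // χ g = a ∧ F g} =
      2 * Nat.card {g : L ≃ₐ[ℚ] L // χ g = a}) ∧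
    ∀ (q₀ : ℕ) (hq : q₀.Coprime f), q₀.Prime → N₀ < q₀ →
      ∀ (I : Ideal (𝓞 L)) (g : L ≃ₐ[ℚ] L), I.IsPrime → (q₀ : 𝓞 L) ∈ I →
      MulAction.stabilizer (L ≃ₐ[ℚ] L) I = Subgroup.zpowers g →
      ∃ l : ℕ, l.Coprime (orderOf g) ∧ χ (g ^ l) = ZMod.unitOfCoprime q₀ hq ∧
        (q₀ % 3 = 1 → ∀ ρ : PP, (q₀ : Eis) = ρ.1 * conj ρ.1 →
          (F (g ^ l) ↔ (∀ j : Fin s, sym ρ.1 (b j.castSucc : Eis) = 0) ∧
            sym ρ.1 (b (Fin.last s) : Eis) ≠ 0) ∧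
          (F (g ^ l) → ∀ j i : Fin s, j ≠ i → ∀ r : ℤ, (q₀ : ℤ) ∣ r ^ 3 - b j.castSucc →
            tt (g ^ l) j i = TAUVS ρ.1 (rs p j i) (rs q j i) (rs p' j i) (rs q' j i) r) ∧
          ((∀ i, sym ρ.1 (z i) = 0) → F₂ (g ^ l) ∧
            ∀ (r : Fin N) (ξ ξ' : Eis), ρ.1 ∣ ξ ^ 3 - z (α r) → conj ρ.1 ∣ ξ' ^ 3 - z (α r) →
              T (g ^ l) r = TAUP ρ.1 (P r) (Q r) (P' r) (Q' r) ξ +
                TAUP (conj ρ.1) (P r) (Q r) (P' r) (Q' r) ξ'))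

/-- PTK_GTZ: existence, uniqueness and properties of `t` on the elements fixing all roots of the `b j`, `Q = 1 (mod 3)`.
Proof. As `GTS_thm` (PTE; there the roots of the last class are moved, this is used only in the first part). -/
def Stmt_GTZ : Prop := ∀ (s : ℕ) (b : Fin s → ℤ) (p q p' q' : Fin s → Fin s → ℤ)
  (f : ℕ) (L : Type) [Field L] [NumberField L] (ζ ω : L), SysG b p q p' q' →
  GovF b p q p' q' f L ζ ω →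
  (∀ g τ : L ≃ₐ[ℚ] L, g ω = ω → (∀ (j : Fin s) (ρ : L), ρ ^ 3 = (b j : L) → g ρ = ρ) →
    (τ * g * τ⁻¹) ω = ω ∧ ∀ (j : Fin s) (ρ : L), ρ ^ 3 = (b j : L) → (τ * g * τ⁻¹) ρ = ρ) ∧
  ∀ j i : Fin s, j ≠ i →
  (∀ g : L ≃ₐ[ℚ] L, g ω = ω → (∀ (j : Fin s) (ρ : L), ρ ^ 3 = (b j : L) → g ρ = ρ) →
    ∃! t : ZMod 3, IsTS b p q p' q' ω g j i t) ∧
  (∀ (g τ : L ≃ₐ[ℚ] L) (t : ZMod 3), g ω = ω →
    (∀ (j : Fin s) (ρ : L), ρ ^ 3 = (b j : L) → g ρ = ρ) →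
    IsTS b p q p' q' ω g j i t → IsTS b p q p' q' ω (τ * g * τ⁻¹) j i t) ∧
  (∀ (g : L ≃ₐ[ℚ] L) (t : ZMod 3) (k : ℕ), g ω = ω →
    IsTS b p q p' q' ω g j i t → IsTS b p q p' q' ω (g ^ k) j i (k * t))

/-- PTK_GFZ: Frobenius elements when all the `b j` are cubes modulo `Q`, `Q = 1 (mod 3)`.
Proof. As `GFRU_thm` (PTN/GFRU.lean). -/
def Stmt_GFZ : Prop := ∀ (s : ℕ) (b : Fin s → ℤ)
  (p q p' q' : Fin s → Fin s → ℤ) (f : ℕ)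
  (L : Type) [Field L] [NumberField L] (ζ ω : L), SysG b p q p' q' →
  GovF b p q p' q' f L ζ ω →
  ∃ N₀ : ℕ, ∀ Q : ℕ, Q.Prime → N₀ < Q → Q % 3 = 1 → ∀ (P : Ideal (𝓞 L)), P.IsPrime →
    (Q : 𝓞 L) ∈ P → ∀ φ : L ≃ₐ[ℚ] L, IsArithFrobAt ℤ φ P → ∀ ρ : PP,
    (Q : Eis) = ρ.1 * conj ρ.1 → (∀ j : Fin s, sym ρ.1 (b j : Eis) = 0) →
    φ ω = ω ∧ (∀ (j : Fin s) (θ : L), θ ^ 3 = (b j : L) → φ θ = θ) ∧
    ∀ j i : Fin s, j ≠ i → ∀ (r : ℤ) (t : ZMod 3), (Q : ℤ) ∣ r ^ 3 - b j →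
      IsTS b p q p' q' ω φ j i t →
      t = TAUVS ρ.1 (p j i) (q j i) (p' j i) (q' j i) r

/-- PTK_MAZ: summary of the joint governing field, `Q = 1 (mod 3)`, all `b j` cubes modulo `Q`, with the matrix.
Proof. As `JAZ_thm` (PTK/JAZ.lean), with `GTZ`, `GFZ` for `tt`, and the equidistribution as in `JAU_thm` (`MC1`, `MC2`). -/
def Stmt_MAZ : Prop := ∀ (s : ℕ) (b : Fin s → ℤ) (p q p' q' : Fin s → Fin s → ℤ)
  (M N : ℕ) (z : Fin M → Eis) (α β : Fin N → Fin M) (P Q P' Q' : Fin N → Eis) (f : ℕ),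
  SysG b p q p' q' → SysZ z α β P Q P' Q' → 0 < f → 9 ∣ f →
  ∃ (L : Type) (_ : Field L) (_ : NumberField L) (_ : IsGalois ℚ L)
    (χ : (L ≃ₐ[ℚ] L) →* (ZMod f)ˣ) (F₀ : (L ≃ₐ[ℚ] L) → Prop)
    (tt : (L ≃ₐ[ℚ] L) → Fin s → Fin s → ZMod 3)
    (F₂ : (L ≃ₐ[ℚ] L) → Prop) (T : (L ≃ₐ[ℚ] L) → Fin N → ZMod 3) (N₀ : ℕ),
    Function.Surjective χ ∧
    (∀ g τ : L ≃ₐ[ℚ] L, M1 (χ g) → F₀ g →
      F₀ (τ * g * τ⁻¹) ∧ ∀ j i, j ≠ i → tt (τ * g * τ⁻¹) j i = tt g j i) ∧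
    (∀ (g : L ≃ₐ[ℚ] L) (l : ℕ), M1 (χ g) → F₀ g →
      F₀ (g ^ l) ∧ ∀ j i, j ≠ i → tt (g ^ l) j i = l * tt g j i) ∧
    (∀ g τ : L ≃ₐ[ℚ] L, M1 (χ g) → F₂ g → F₂ (τ * g * τ⁻¹) ∧ T (τ * g * τ⁻¹) = T g) ∧
    (∀ (g : L ≃ₐ[ℚ] L) (l : ℕ), M1 (χ g) → F₂ g → F₂ (g ^ l) ∧
      T (g ^ l) = (l : ZMod 3) • T g) ∧
    (∀ (a : (ZMod f)ˣ) (v v' : Fin s → Fin s → ZMod 3) (y y' : Fin N → ZMod 3), M1 a →
      Nat.card {g : L ≃ₐ[ℚ] L //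
          χ g = a ∧ F₀ g ∧ F₂ g ∧ T g = y ∧ ∀ j i, j < i → tt g j i = v j i} =
        Nat.card {g : L ≃ₐ[ℚ] L //
          χ g = a ∧ F₀ g ∧ F₂ g ∧ T g = y' ∧ ∀ j i, j < i → tt g j i = v' j i}) ∧
    (∀ a : (ZMod f)ˣ, M1 a → 3 ^ s * Nat.card {g : L ≃ₐ[ℚ] L // χ g = a ∧ F₀ g} =
      Nat.card {g : L ≃ₐ[ℚ] L // χ g = a}) ∧
    ∀ (q₀ : ℕ) (hq : q₀.Coprime f), q₀.Prime → N₀ < q₀ →
      ∀ (I : Ideal (𝓞 L)) (g : L ≃ₐ[ℚ] L), I.IsPrime → (q₀ : 𝓞 L) ∈ I →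
      MulAction.stabilizer (L ≃ₐ[ℚ] L) I = Subgroup.zpowers g →
      ∃ l : ℕ, l.Coprime (orderOf g) ∧ χ (g ^ l) = ZMod.unitOfCoprime q₀ hq ∧
        (q₀ % 3 = 1 → ∀ ρ : PP, (q₀ : Eis) = ρ.1 * conj ρ.1 →
          ((∀ j : Fin s, sym ρ.1 (b j : Eis) = 0) → F₀ (g ^ l) ∧
            ∀ j i : Fin s, j ≠ i → ∀ r : ℤ, (q₀ : ℤ) ∣ r ^ 3 - b j →
              tt (g ^ l) j i = TAUVS ρ.1 (p j i) (q j i) (p' j i) (q' j i) r) ∧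
          ((∀ i, sym ρ.1 (z i) = 0) → F₂ (g ^ l) ∧
            ∀ (r : Fin N) (ξ ξ' : Eis), ρ.1 ∣ ξ ^ 3 - z (α r) → conj ρ.1 ∣ ξ' ^ 3 - z (α r) →
              T (g ^ l) r = TAUP ρ.1 (P r) (Q r) (P' r) (Q' r) ξ +
                TAUP (conj ρ.1) (P r) (Q r) (P' r) (Q' r) ξ'))

/-! ### Densities -/

/-- the primes `= 2 (mod 3)` with prescribed `TAUE`, exponent `1`, class `c` -/
def SPZ {M N f m : ℕ} (z : Fin M → Eis) (α : Fin N → Fin M) (P Q P' Q' : Fin N → Eis)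
    (κ : (ZMod f)ˣ →* Multiplicative (Fin (m + 1) → ZMod 3)) (c : Fin (m + 1) → ZMod 3)
    (C : Fin N → ZMod 3) (Φ : (ZMod f)ˣ →* Multiplicative (Fin N → ZMod 3)) : Set ℕ :=
  {q₀ : ℕ | ∃ hq : q₀.Coprime f, q₀ % 3 = 2 ∧ (κ (ZMod.unitOfCoprime q₀ hq)).toAdd = c ∧
    (∀ i, sym (q₀ : Eis) (z i) = 0) ∧
    ∀ (r : Fin N) (ξ : Eis), (q₀ : Eis) ∣ ξ ^ 3 - z (α r) →
      TAUE q₀ (P r) (Q r) (P' r) (Q' r) ξ = C r + (Φ (ZMod.unitOfCoprime q₀ hq)).toAdd r}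

/-- the primes `= 2 (mod 3)` with prescribed `TAUE`, exponent `2`, class `-c` -/
def SMZ {M N f m : ℕ} (z : Fin M → Eis) (α : Fin N → Fin M) (P Q P' Q' : Fin N → Eis)
    (κ : (ZMod f)ˣ →* Multiplicative (Fin (m + 1) → ZMod 3)) (c : Fin (m + 1) → ZMod 3)
    (C : Fin N → ZMod 3) (Φ : (ZMod f)ˣ →* Multiplicative (Fin N → ZMod 3)) : Set ℕ :=
  {q₀ : ℕ | ∃ hq : q₀.Coprime f, q₀ % 3 = 2 ∧ (κ (ZMod.unitOfCoprime q₀ hq)).toAdd = -c ∧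
    (∀ i, sym (q₀ : Eis) (z i) = 0) ∧
    ∀ (r : Fin N) (ξ : Eis), (q₀ : Eis) ∣ ξ ^ 3 - z (α r) →
      TAUE q₀ (P r) (Q r) (P' r) (Q' r) ξ = - C r + (Φ (ZMod.unitOfCoprime q₀ hq)).toAdd r}

/-- the primes `= 1 (mod 3)` with prescribed `TAUP`, exponent `1`, class `c` -/
def SPZU {M N f m : ℕ} (z : Fin M → Eis) (α : Fin N → Fin M) (P Q P' Q' : Fin N → Eis)
    (κ : (ZMod f)ˣ →* Multiplicative (Fin (m + 1) → ZMod 3)) (c : Fin (m + 1) → ZMod 3)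
    (C : Fin N → ZMod 3) (Φ : (ZMod f)ˣ →* Multiplicative (Fin N → ZMod 3)) : Set ℕ :=
  {q₀ : ℕ | ∃ hq : q₀.Coprime f, q₀ % 3 = 1 ∧ (κ (ZMod.unitOfCoprime q₀ hq)).toAdd = c ∧
    ∀ ρ : PP, (q₀ : Eis) = ρ.1 * conj ρ.1 → (∀ i, sym ρ.1 (z i) = 0) ∧
      ∀ (r : Fin N) (ξ ξ' : Eis), ρ.1 ∣ ξ ^ 3 - z (α r) → conj ρ.1 ∣ ξ' ^ 3 - z (α r) →
        TAUP ρ.1 (P r) (Q r) (P' r) (Q' r) ξ + TAUP (conj ρ.1) (P r) (Q r) (P' r) (Q' r) ξ' =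
          C r + (Φ (ZMod.unitOfCoprime q₀ hq)).toAdd r}

/-- the primes `= 1 (mod 3)` with prescribed `TAUP`, exponent `2`, class `-c` -/
def SMZU {M N f m : ℕ} (z : Fin M → Eis) (α : Fin N → Fin M) (P Q P' Q' : Fin N → Eis)
    (κ : (ZMod f)ˣ →* Multiplicative (Fin (m + 1) → ZMod 3)) (c : Fin (m + 1) → ZMod 3)
    (C : Fin N → ZMod 3) (Φ : (ZMod f)ˣ →* Multiplicative (Fin N → ZMod 3)) : Set ℕ :=
  {q₀ : ℕ | ∃ hq : q₀.Coprime f, q₀ % 3 = 1 ∧ (κ (ZMod.unitOfCoprime q₀ hq)).toAdd = -c ∧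
    ∀ ρ : PP, (q₀ : Eis) = ρ.1 * conj ρ.1 → (∀ i, sym ρ.1 (z i) = 0) ∧
      ∀ (r : Fin N) (ξ ξ' : Eis), ρ.1 ∣ ξ ^ 3 - z (α r) → conj ρ.1 ∣ ξ' ^ 3 - z (α r) →
        TAUP ρ.1 (P r) (Q r) (P' r) (Q' r) ξ + TAUP (conj ρ.1) (P r) (Q r) (P' r) (Q' r) ξ' =
          - C r + (Φ (ZMod.unitOfCoprime q₀ hq)).toAdd r}

/-- the primes `= 1 (mod 3)` of the class `c` modulo which all `b j` are cubes, with large kernel, exponent `1` -/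
def SPF {s f m : ℕ} (b : Fin s → ℤ) (p q p' q' : Fin s → Fin s → ℤ) (t : ℕ)
    (κ : (ZMod f)ˣ →* Multiplicative (Fin (m + 1) → ZMod 3)) (c : Fin (m + 1) → ZMod 3)
    (C : Fin s → Fin s → ZMod 3) (Φ : (ZMod f)ˣ →* Multiplicative (Fin s → Fin s → ZMod 3)) :
    Set ℕ :=
  {Q : ℕ | ∃ (hQ : Q.Coprime f) (ρ : PP), (Q % 3 = 1 ∧
    (κ (ZMod.unitOfCoprime Q hQ)).toAdd = c ∧ (Q : Eis) = ρ.1 * conj ρ.1 ∧
    ∀ j : Fin s, sym ρ.1 (b j : Eis) = 0) ∧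
    ∀ τ : Fin s → Fin s → ZMod 3,
      (∀ j i, j ≠ i → ∀ r : ℤ, (Q : ℤ) ∣ r ^ 3 - b j →
        τ j i = TAUVS ρ.1 (p j i) (q j i) (p' j i) (q' j i) r) →
      t ≤ s - (alt (C + (Φ (ZMod.unitOfCoprime Q hQ)).toAdd + τ)).rank}

/-- the primes `= 1 (mod 3)` of the class `-c` modulo which all `b j` are cubes, with large kernel, exponent `2` -/
def SMF {s f m : ℕ} (b : Fin s → ℤ) (p q p' q' : Fin s → Fin s → ℤ) (t : ℕ)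
    (κ : (ZMod f)ˣ →* Multiplicative (Fin (m + 1) → ZMod 3)) (c : Fin (m + 1) → ZMod 3)
    (C : Fin s → Fin s → ZMod 3) (Φ : (ZMod f)ˣ →* Multiplicative (Fin s → Fin s → ZMod 3)) :
    Set ℕ :=
  {Q : ℕ | ∃ (hQ : Q.Coprime f) (ρ : PP), (Q % 3 = 1 ∧
    (κ (ZMod.unitOfCoprime Q hQ)).toAdd = -c ∧ (Q : Eis) = ρ.1 * conj ρ.1 ∧
    ∀ j : Fin s, sym ρ.1 (b j : Eis) = 0) ∧
    ∀ τ : Fin s → Fin s → ZMod 3,
      (∀ j i, j ≠ i → ∀ r : ℤ, (Q : ℤ) ∣ r ^ 3 - b j →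
        τ j i = TAUVS ρ.1 (p j i) (q j i) (p' j i) (q' j i) r) →
      t ≤ s - (alt (C - (Φ (ZMod.unitOfCoprime Q hQ)).toAdd - τ)).rank}

/-- PTK_BM2: the bound for the density, `Q = 2 (mod 3)`. As `BDJ_thm` (PTK/BDJ.lean) with `MAL`, `DNS`. (A root `ξ` of `z (α r)` exists because
the symbol is `0`.) -/
def Stmt_BM2 : Prop := ∀ (s : ℕ) (b : Fin s → ℤ) (p q p' q' : Fin s → Fin s → ℤ)
  (M N : ℕ) (z : Fin M → Eis) (α β : Fin N → Fin M) (P Q P' Q' : Fin N → Eis) (f m tn : ℕ)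
  (κ : (ZMod f)ˣ →* Multiplicative (Fin (m + 1) → ZMod 3)) (c : Fin (m + 1) → ZMod 3)
  (C : Fin s → Fin s → ZMod 3) (Φ : (ZMod f)ˣ →* Multiplicative (Fin s → Fin s → ZMod 3))
  (C' : Fin N → ZMod 3) (Φ' : (ZMod f)ˣ →* Multiplicative (Fin N → ZMod 3)),
  SysG b p q p' q' → SysZ z α β P Q P' Q' → 0 < f → 9 ∣ f →
  (∀ c : Fin (m + 1) → ZMod 3,
    Nat.card {a : (ZMod f)ˣ // M2 a ∧ (κ a).toAdd = c} * (2 * 3 ^ (m + 1)) = f.totient) →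
  ∃ K : ℝ, ∀ σ : ℝ, 1 < σ → σ ≤ 2 →
    BDENS.sm (SP b p q p' q' tn κ c C Φ ∩ SPZ z α P Q P' Q' κ c C' Φ') σ +
      BDENS.sm (SM b p q p' q' tn κ c C Φ ∩ SMZ z α P Q P' Q' κ c C' Φ') σ ≤
      LI s tn / 3 ^ N / 3 ^ (m + 1) * Real.log (1 / (σ - 1)) + K

/-- PTK_BMU: the bound for the density, `Q = 1 (mod 3)`, generic pattern. As `BDJU_thm` (PTK/BDJU.lean) with `MAU`, `DNS1`. -/
def Stmt_BMU : Prop := ∀ (s : ℕ) (b : Fin (s + 1) → ℤ)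
  (p q p' q' : Fin (s + 1) → Fin (s + 1) → ℤ)
  (M N : ℕ) (z : Fin M → Eis) (α β : Fin N → Fin M) (P Q P' Q' : Fin N → Eis) (f m tn : ℕ)
  (κ : (ZMod f)ˣ →* Multiplicative (Fin (m + 1) → ZMod 3)) (c : Fin (m + 1) → ZMod 3)
  (C : Fin s → Fin s → ZMod 3) (Φ : (ZMod f)ˣ →* Multiplicative (Fin s → Fin s → ZMod 3))
  (C' : Fin N → ZMod 3) (Φ' : (ZMod f)ˣ →* Multiplicative (Fin N → ZMod 3)),
  SysG b p q p' q' → SysZ z α β P Q P' Q' → 0 < f → 9 ∣ f →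
  (∀ c : Fin (m + 1) → ZMod 3,
    Nat.card {a : (ZMod f)ˣ // M1 a ∧ (κ a).toAdd = c} * (2 * 3 ^ (m + 1)) = f.totient) →
  ∃ K : ℝ, ∀ σ : ℝ, 1 < σ → σ ≤ 2 →
    BDENS.sm (SPU b p q p' q' tn κ c C Φ ∩ SPZU z α P Q P' Q' κ c C' Φ') σ +
      BDENS.sm (SMU b p q p' q' tn κ c C Φ ∩ SMZU z α P Q P' Q' κ c C' Φ') σ ≤
      2 / 3 ^ (s + 1) * LI s tn / 3 ^ N / 3 ^ (m + 1) * Real.log (1 / (σ - 1)) + K

/-- PTK_BMZ: the bound for the density, `Q = 1 (mod 3)`, all `b j` cubes modulo `Q`, with the matrix. As `BMU` and `BDJZ_thm`, with `MAZ`;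
`#{χ g = a ∧ F₀ g} = #{χ g = a} / 3^s`. -/
def Stmt_BMZ : Prop := ∀ (s : ℕ) (b : Fin s → ℤ) (p q p' q' : Fin s → Fin s → ℤ)
  (M N : ℕ) (z : Fin M → Eis) (α β : Fin N → Fin M) (P Q P' Q' : Fin N → Eis) (f m tn : ℕ)
  (κ : (ZMod f)ˣ →* Multiplicative (Fin (m + 1) → ZMod 3)) (c : Fin (m + 1) → ZMod 3)
  (C : Fin s → Fin s → ZMod 3) (Φ : (ZMod f)ˣ →* Multiplicative (Fin s → Fin s → ZMod 3))
  (C' : Fin N → ZMod 3) (Φ' : (ZMod f)ˣ →* Multiplicative (Fin N → ZMod 3)),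
  SysG b p q p' q' → SysZ z α β P Q P' Q' → 0 < f → 9 ∣ f →
  (∀ c : Fin (m + 1) → ZMod 3,
    Nat.card {a : (ZMod f)ˣ // M1 a ∧ (κ a).toAdd = c} * (2 * 3 ^ (m + 1)) = f.totient) →
  ∃ K : ℝ, ∀ σ : ℝ, 1 < σ → σ ≤ 2 →
    BDENS.sm (SPF b p q p' q' tn κ c C Φ ∩ SPZU z α P Q P' Q' κ c C' Φ') σ +
      BDENS.sm (SMF b p q p' q' tn κ c C Φ ∩ SMZU z α P Q P' Q' κ c C' Φ') σ ≤
      1 / 3 ^ s * LI s tn / 3 ^ N / 3 ^ (m + 1) * Real.log (1 / (σ - 1)) + K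

end Pool.Agent.PTK
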