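import Pool.Agent.PTK.StM
import Pool.Agent.PTK.DPA

/-!
# PTK_DX2: the local term of a good point at the place above `3` (helper91)
-/

set_option autoImplicit false

namespace Pool.Agent.PTK

open Pool.Agent.Lib_helper18 Pool.Agent.Lib_helper18.Eis Pool.Agent.Lib_helper84.Cub
open Pool.Agent.PT

namespace DX2

lemma B_ne {N : ℕ} {b x p q p' q' : Eis} (HX : HypX N b x p q p' q') {E Q : ℕ} {X Y : Eis}
    (HP : HypP N b x p q p' q' E Q X Y) : (N : Eis) * (Q : Eis) ^ E ≠ 0 := by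
  have h1 : (N : Eis) ≠ 0 := by
    have h2 : ((N : ℤ) : Eis) ≠ 0 := DCONST.cast_ne (by have := HX.N0; omega)
    rwa [Int.cast_natCast] at h2
  have h3 : (Q : Eis) ≠ 0 := by
    have h2 : ((Q : ℤ) : Eis) ≠ 0 := DCONST.cast_ne (by have := HP.hQ.pos; omega)
    rwa [Int.cast_natCast] at h2
  exact mul_ne_zero h1 (pow_ne_zero _ h3)

lemma n0_ne {N : ℕ} {b x p q p' q' : Eis} (HX : HypX N b x p q p' q') {E Q : ℕ} {X Y : Eis}
    (HP : HypP N b x p q p' q' E Q X Y) : X ^ 3 + x * Y ^ 3 ≠ 0 := by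
  obtain ⟨c, hc, h⟩ := HP.pt.eq
  intro h0
  rw [h0, mul_zero] at h
  exact mul_ne_zero (B_ne HX HP) (pow_ne_zero _ hc) h.symm

/-- the product formula when all tame symbols vanish -/
lemma sl_zero (hSSL : SSL) {b B : Eis} (hb : b ≠ 0) (hB : B ≠ 0)
    (h : ∀ σ : PP, tm σ.1 b B = 0) : sl b B = 0 := by
  have hE := (hSSL.2.2.2 b B hb hB).2
  have h0 : ∀ v : Pl, v ≠ none → sy v b B = 0 := by
    intro v hv
    match v, hv with
    | none, hv => exact absurd rfl hv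
    | some π, _ => exact h π
  rw [finsum_eq_single _ none h0] at hE
  exact hE

end DX2

open DPA in
/-- PTK_DX2. -/
theorem DX2_thm (hSLC : SLC) (hSSL : SSL) (hLCI : Stmt_LCI) (hIF4 : Stmt_IF4) : Stmt_DX2 := by
  intro N b x p q p' q' HX f hf h9
  have hs : LSym lam sl 4 := hSLC
  have hlamf : lam ^ 4 ∣ (f : Eis) := by
    have h1 : ((9 : ℤ) : Eis) ∣ ((f : ℤ) : Eis) :=
      intCast_dvd_intCast.2 (by exact_mod_cast h9)
    rw [Int.cast_natCast] at h1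
    refine Dvd.dvd.trans ⟨w ^ 4, ?_⟩ h1
    have h2 : ((9 : ℤ) : Eis) = (3 : Eis) ^ 2 := by norm_num
    rw [h2, three_eq]
    ring
  have hN : (N : Eis) ≠ 0 := by
    have h2 : ((N : ℤ) : Eis) ≠ 0 := DCONST.cast_ne (by have := HX.N0; omega)
    rwa [Int.cast_natCast] at h2
  obtain ⟨C, Φ, H⟩ := place_LC hs hN HX.sol.n1 (SolE_n1' HX.sol) HX.lx hf hlamf
  refine ⟨C, Φ, ?_⟩
  intro E Q hQ X Y HP hG
  have hB := DX2.B_ne HX HP
  have hn0 := DX2.n0_ne HX HP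
  obtain ⟨c, hc, hE⟩ := HP.pt.eq
  have hcast : (((N : ℤ) * (Q : ℤ) ^ E : ℤ) : Eis) = (N : Eis) * (Q : Eis) ^ E := by
    push_cast
    rfl
  have hsb : sl b (N * (Q : Eis) ^ E) = 0 := DX2.sl_zero hSSL HX.hb hB HP.sb
  obtain ⟨N1, H1⟩ := exists_ne hs.prime (b := x) HX.sol.n1
  obtain ⟨N2, H2⟩ := exists_ne hs.prime (b := x) (SolE_n1' HX.sol)
  obtain ⟨N3, H3⟩ := hG b HX.hb HX.nb HX.cb (by rw [hcast]; exact hsb)
  obtain ⟨N4, H4⟩ := hIF4 lam sl 4 hs b x p (-p') (-q) q' X Y HX.hb HX.hx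
    (SolE_flip HX.sol) HP.pt.hX HP.pt.hY hn0 HP.dn
  have hx0 : ∀ a : Eis, a ≠ 0 → sl x a = 0 := fun a ha =>
    hLCI.2.2 lam sl 4 x a hs HX.lx HX.hx ha
  have hrel : ∀ a : Eis, a ≠ 0 →
      sl (X ^ 3 + x * Y ^ 3) a = sl ((N : Eis) * (Q : Eis) ^ E) a := by
    intro a ha
    have h1 := s_rel hs HX.hx hn0 hB hc ha hE
    rw [hx0 a ha, zero_add] at h1
    exact h1
  refine H E Q hQ _ (N1 + N2 + N3 + N4) fun ξ hξ => ?_
  have g1 := H1 ξ ((pow_dvd_pow _ (by omega)).trans hξ)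
  have g2 := H2 ξ ((pow_dvd_pow _ (by omega)).trans hξ)
  have g3 := H3 ξ ((pow_dvd_pow _ (by omega)).trans hξ)
  have g4 := H4 ξ ((pow_dvd_pow _ (by omega)).trans hξ)
  rw [g4, neg_neg, neg_neg, g3]
  unfold ASE
  rw [hrel _ (g1 2), hrel _ (g2 1), hrel _ (g1 1), hrel _ (g2 2)]
  ring

end Pool.Agent.PTK
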