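import Pool.Agent.PTK.StM
import Pool.Agent.PTK.DPA

/-!
# PTK_DX3: the local terms of a point vanish outside, for `HypX`
-/

set_option autoImplicit false

namespace Pool.Agent.PTK

open Pool.Agent.Lib_helper18 Pool.Agent.Lib_helper18.Eis Pool.Agent.Lib_helper84.Cub
open Pool.Agent.PT

namespace DX3

open DPA

lemma B_ne' {N : ℕ} {b x p q p' q' : Eis} (HD : HypX N b x p q p' q') {E Q : ℕ} {X Y : Eis}
    (HP : HypP N b x p q p' q' E Q X Y) : (N : Eis) * (Q : Eis) ^ E ≠ 0 := by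
  have h1 : (N : Eis) ≠ 0 := by
    have h2 : ((N : ℤ) : Eis) ≠ 0 := DCONST.cast_ne (by have := HD.N0; omega)
    rwa [Int.cast_natCast] at h2
  have h3 : (Q : Eis) ≠ 0 := by
    have h2 : ((Q : ℤ) : Eis) ≠ 0 := DCONST.cast_ne (by have := HP.hQ.pos; omega)
    rwa [Int.cast_natCast] at h2
  exact mul_ne_zero h1 (pow_ne_zero _ h3)

lemma n0_ne' {N : ℕ} {b x p q p' q' : Eis} (HD : HypX N b x p q p' q') {E Q : ℕ} {X Y : Eis}
    (HP : HypP N b x p q p' q' E Q X Y) : X ^ 3 + x * Y ^ 3 ≠ 0 := by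
  obtain ⟨c, hc, h⟩ := HP.pt.eq
  intro h0
  rw [h0, mul_zero] at h
  exact mul_ne_zero (B_ne' HD HP) (pow_ne_zero _ hc) h.symm

/-- The local term at a tame place where `x` is a local cube. -/
lemma core' (hIF4 : Stmt_IF4) (hLCI : Stmt_LCI) {π : PP} (hs : LSym π.1 (tm π.1) 1) {N : ℕ}
    {b x p q p' q' : Eis} (HD : HypX N b x p q p' q') {E Q : ℕ} {X Y : Eis}
    (HP : HypP N b x p q p' q' E Q X Y) (hL : LCE π.1 x) :
    ∃ N0 : ℕ, ∀ ξ : Eis, π.1 ^ N0 ∣ ξ ^ 3 - x →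
      (∀ i, LfE X Y i ξ ≠ 0) ∧
      (∀ a : Eis, a ≠ 0 → tm π.1 a (X ^ 3 + x * Y ^ 3) = tm π.1 a ((N : Eis) * (Q : Eis) ^ E)) ∧
      SVE (tm π.1) x p (-p') (-q) q' X Y =
        ASE (tm π.1) ((N : Eis) * (Q : Eis) ^ E) p q p' q' ξ +
          tm π.1 (LfE X Y 1 ξ) b - tm π.1 (LfE X Y 2 ξ) b := by
  have hB := B_ne' HD HP
  have hn0 := n0_ne' HD HP
  obtain ⟨c, hc, hE⟩ := HP.pt.eq
  obtain ⟨N1, H1⟩ := exists_ne hs.prime (b := x) HD.sol.n1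
  obtain ⟨N2, H2⟩ := exists_ne hs.prime (b := x) (SolE_n1' HD.sol)
  obtain ⟨N3, H3⟩ := exists_ne hs.prime (b := x) (p := X) (q := Y) hn0
  obtain ⟨N4, H4⟩ := hIF4 π.1 (tm π.1) 1 hs b x p (-p') (-q) q' X Y HD.hb HD.hx
    (SolE_flip HD.sol) HP.pt.hX HP.pt.hY hn0 HP.dn
  refine ⟨N1 + N2 + N3 + N4, fun ξ hξ => ?_⟩
  have g1 := H1 ξ ((pow_dvd_pow _ (by omega)).trans hξ)
  have g2 := H2 ξ ((pow_dvd_pow _ (by omega)).trans hξ)
  have g3 := H3 ξ ((pow_dvd_pow _ (by omega)).trans hξ)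
  have g4 := H4 ξ ((pow_dvd_pow _ (by omega)).trans hξ)
  have hx0 : ∀ a : Eis, a ≠ 0 → tm π.1 x a = 0 := fun a ha =>
    hLCI.2.2 π.1 (tm π.1) 1 x a hs hL HD.hx ha
  have hrel : ∀ a : Eis, a ≠ 0 →
      tm π.1 (X ^ 3 + x * Y ^ 3) a = tm π.1 ((N : Eis) * (Q : Eis) ^ E) a := by
    intro a ha
    have h1 := s_rel hs HD.hx hn0 hB hc ha hE
    rw [hx0 a ha, zero_add] at h1
    exact h1
  refine ⟨g3, ?_, ?_⟩
  · intro a ha
    rw [hs.skew (X ^ 3 + x * Y ^ 3) a hn0 ha, hs.skew ((N : Eis) * (Q : Eis) ^ E) a hB ha, hrel a ha]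
  · rw [g4, neg_neg, neg_neg]
    unfold ASE
    rw [hrel _ (g1 2), hrel _ (g2 1), hrel _ (g1 1), hrel _ (g2 2)]

end DX3

open DPA in
/-- PTK_DX3. -/
theorem DX3_thm (hSTM : STM) (hSPP : SPP) (hIF4 : Stmt_IF4) (hF7U : Stmt_F7U)
    (hLFV : Stmt_LFV) (hLCI : Stmt_LCI) : Stmt_DX3 := by
  intro N b x p q p' q' HD π E Q X Y HP hπN hπQ hπM
  have hs : LSym π.1 (tm π.1) 1 := hSTM π.1 π.2.1 (hSPP.2.2.2.1 π).1
  obtain ⟨hπb, hπx⟩ := HD.unr π hπN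
  have hVx0 : V π.1 x = 0 := V_eq_zero hπx
  have hVb0 : V π.1 b = 0 := V_eq_zero hπb
  have hVx : 3 ∣ V π.1 x := by rw [hVx0]; exact dvd_zero 3
  by_cases hcx : ch π.1 x = 0
  · have hL : LCE π.1 x := (hLCI.1 π x HD.hx).2 ⟨hVx, hcx⟩
    have hB := DX3.B_ne' HD HP
    have hn0 := DX3.n0_ne' HD HP
    have hπB : ¬ π.1 ∣ (N : Eis) * (Q : Eis) ^ E := by
      intro h
      rcases π.2.1.dvd_or_dvd h with h1 | h1
      · exact hπN h1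
      · exact hπQ (π.2.1.dvd_of_dvd_pow h1)
    have hVB0 : V π.1 ((N : Eis) * (Q : Eis) ^ E) = 0 := V_eq_zero hπB
    obtain ⟨c, hc, hE⟩ := HP.pt.eq
    have hVn : 3 ∣ V π.1 (X ^ 3 + x * Y ^ 3) := by
      have h1 := congrArg (V π.1) hE
      rw [V_mul π.2.1 HD.hx hn0, V_mul π.2.1 hB (pow_ne_zero _ hc), V_pow π.2.1 hc, hVx0,
        hVB0] at h1
      omega
    obtain ⟨N1, H1⟩ := DX3.core' hIF4 hLCI hs HD HP hL
    obtain ⟨N2, H2⟩ := hLFV π x X Y HD.hx HP.pt.hX HP.pt.hY hn0 hVx hVn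
    obtain ⟨ξ, hξ⟩ := hL (N1 + N2 + 1)
    obtain ⟨-, -, h1⟩ := H1 ξ ((pow_dvd_pow _ (by omega)).trans hξ)
    have h2 := H2 ξ ((pow_dvd_pow _ (by omega)).trans hξ)
    have h3 : π.1 ∣ ξ ^ 3 - x := by
      have h4 : π.1 ^ 1 ∣ ξ ^ 3 - x := (pow_dvd_pow _ (by omega)).trans hξ
      rwa [pow_one] at h4
    have k1 := LfE_ndvd (p := p) (q := q) h3 (fun h => hπM (dvd_mul_of_dvd_left h _))
    have k2 := LfE_ndvd (p := p') (q := q') h3 (fun h => hπM (dvd_mul_of_dvd_right h _))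
    have h5 : tm π.1 (LfE X Y 1 ξ) b - tm π.1 (LfE X Y 2 ξ) b = 0 := by
      unfold tm
      rw [h2, hVb0]
      simp
    rw [h1, add_sub_assoc, h5, add_zero]
    unfold ASE
    rw [DCONST.tm_zero hπB (k1 2), DCONST.tm_zero hπB (k2 1), DCONST.tm_zero hπB (k1 1),
      DCONST.tm_zero hπB (k2 2)]
    simp
  · exact hF7U π b x p (-p') (-q) q' X Y HD.hb HD.hx (SolE_flip HD.sol) HP.pt.hX HP.pt.hY HP.dn
      hVx hcx

end Pool.Agent.PTK
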