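import Pool.Agent.PTK.StM
import Pool.Agent.PTK.DP4U

/-!
# PTK_DX4: the local term of a point at a prime factor of `Q`, for `HypX`
-/

set_option autoImplicit false

namespace Pool.Agent.PTK

open Pool.Agent.Lib_helper18 Pool.Agent.Lib_helper18.Eis Pool.Agent.Lib_helper84.Cub
open Pool.Agent.PT

namespace DX4

open DPA hiding B_ne n0_ne core
open DP4 DP4U

lemma B_ne {N : ℕ} {b x p q p' q' : Eis} (HD : HypX N b x p q p' q') {E Q : ℕ} {X Y : Eis}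
    (HP : HypP N b x p q p' q' E Q X Y) : (N : Eis) * (Q : Eis) ^ E ≠ 0 := by
  have h1 : (N : Eis) ≠ 0 := by
    have h2 : ((N : ℤ) : Eis) ≠ 0 := DCONST.cast_ne (by have := HD.N0; omega)
    rwa [Int.cast_natCast] at h2
  have h3 : (Q : Eis) ≠ 0 := by
    have h2 : ((Q : ℤ) : Eis) ≠ 0 := DCONST.cast_ne (by have := HP.hQ.pos; omega)
    rwa [Int.cast_natCast] at h2
  exact mul_ne_zero h1 (pow_ne_zero _ h3)

lemma n0_ne {N : ℕ} {b x p q p' q' : Eis} (HD : HypX N b x p q p' q') {E Q : ℕ} {X Y : Eis}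
    (HP : HypP N b x p q p' q' E Q X Y) : X ^ 3 + x * Y ^ 3 ≠ 0 := by
  obtain ⟨c, hc, h⟩ := HP.pt.eq
  intro h0
  rw [h0, mul_zero] at h
  exact mul_ne_zero (B_ne HD HP) (pow_ne_zero _ hc) h.symm

/-- The local term at a tame place where `x` is a local cube. -/
lemma core (hIF4 : Stmt_IF4) (hLCI : Stmt_LCI) {π : PP} (hs : LSym π.1 (tm π.1) 1) {N : ℕ}
    {b x p q p' q' : Eis} (HD : HypX N b x p q p' q') {E Q : ℕ} {X Y : Eis}
    (HP : HypP N b x p q p' q' E Q X Y) (hL : LCE π.1 x) :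
    ∃ N0 : ℕ, ∀ ξ : Eis, π.1 ^ N0 ∣ ξ ^ 3 - x →
      (∀ i, LfE X Y i ξ ≠ 0) ∧
      (∀ a : Eis, a ≠ 0 → tm π.1 a (X ^ 3 + x * Y ^ 3) = tm π.1 a ((N : Eis) * (Q : Eis) ^ E)) ∧
      SVE (tm π.1) x p (-p') (-q) q' X Y =
        ASE (tm π.1) ((N : Eis) * (Q : Eis) ^ E) p q p' q' ξ +
          tm π.1 (LfE X Y 1 ξ) b - tm π.1 (LfE X Y 2 ξ) b := by
  have hB := B_ne HD HP
  have hn0 := n0_ne HD HP
  obtain ⟨c, hc, hE⟩ := HP.pt.eq
  obtain ⟨N1, H1⟩ := exists_ne hs.prime (b := x) HD.sol.n1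
  obtain ⟨N2, H2⟩ := exists_ne hs.prime (b := x) (SolE_n1' HD.sol)
  obtain ⟨N3, H3⟩ := exists_ne hs.prime (b := x) (p := X) (q := Y) hn0
  obtain ⟨N4, H4⟩ := hIF4 π.1 (tm π.1) 1 hs b x p (-p') (-q) q' X Y HD.hb HD.hx
    (SolE_flip HD.sol) HP.pt.hX HP.pt.hY hn0 HP.dn
  refine ⟨N1 + N2 + N3 + N4, fun ξ hξ => ?_⟩
  have g1 := H1 ξ ((pow_dvd_pow _ (by omega)).trans hξ)
  have g2 := H2 ξ ((pow_dvd_pow _ (by omega)).trans hξ)
  have g3 := H3 ξ ((pow_dvd_pow _ (by omega)).trans hξ)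
  have g4 := H4 ξ ((pow_dvd_pow _ (by omega)).trans hξ)
  have hx0 : ∀ a : Eis, a ≠ 0 → tm π.1 x a = 0 := fun a ha =>
    hLCI.2.2 π.1 (tm π.1) 1 x a hs hL HD.hx ha
  have hrel : ∀ a : Eis, a ≠ 0 →
      tm π.1 (X ^ 3 + x * Y ^ 3) a = tm π.1 ((N : Eis) * (Q : Eis) ^ E) a := by
    intro a ha
    have h1 := s_rel hs HD.hx hn0 hB hc ha hE
    rw [hx0 a ha, zero_add] at h1
    exact h1
  refine ⟨g3, ?_, ?_⟩
  · intro a ha
    rw [hs.skew (X ^ 3 + x * Y ^ 3) a hn0 ha, hs.skew ((N : Eis) * (Q : Eis) ^ E) a hB ha, hrel a ha]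
  · rw [g4, neg_neg, neg_neg]
    unfold ASE
    rw [hrel _ (g1 2), hrel _ (g2 1), hrel _ (g1 1), hrel _ (g2 2)]

lemma half (hSTM : STM) (hSPP : SPP) (hIF4 : Stmt_IF4) (hLCI : Stmt_LCI) {N : ℕ}
    {b x p q p' q' : Eis} (HD : HypX N b x p q p' q') (π : PP) {E Q : ℕ} {X Y ξ : Eis}
    (HP : HypP N b x p q p' q' E Q X Y) (hπQ : π.1 ∣ (Q : Eis)) (hπN : ¬ π.1 ∣ (N : Eis))
    (hπM : ¬ π.1 ∣ (p ^ 3 + x * q ^ 3) * (p' ^ 3 + x * q' ^ 3)) (hξ : π.1 ∣ ξ ^ 3 - x) :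
    SVE (tm π.1) x p (-p') (-q) q' X Y = - (E * TAUP π.1 p q p' q' ξ) := by
  have h3 : ¬ π.1 ∣ 3 := (hSPP.2.2.2.1 π).1
  have hs : LSym π.1 (tm π.1) 1 := hSTM π.1 π.2.1 h3
  obtain ⟨hπb, hπx⟩ := HD.unr π hπN
  have hVx0 : V π.1 x = 0 := V_eq_zero hπx
  have hVb0 : V π.1 b = 0 := V_eq_zero hπb
  have hB := B_ne HD HP
  have hn0 := n0_ne HD HP
  have hQ1 := V_one hSPP HP.hQ hπQ
  have hQ0 : (Q : Eis) ≠ 0 := EADM.natCast_ne HP.hQ.ne_zero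
  have hVB : V π.1 ((N : Eis) * (Q : Eis) ^ E) = E := by
    rw [V_mul_not_dvd π.2.1 hπN (pow_ne_zero _ hQ0), V_pow π.2.1 hQ0, hQ1, mul_one]
  have hE0 : (E : ZMod 3) ≠ 0 := by
    rcases HP.hE with h | h
    · rw [h]; decide
    · rw [h]; decide
  have hcub : ∀ a : Eis, V π.1 a = 0 → tm π.1 a ((N : Eis) * (Q : Eis) ^ E) = 0 →
      ch π.1 a = 0 := by
    intro a ha h
    unfold tm at h
    rw [hVB, ha] at h
    simp only [Nat.cast_zero, zero_mul, sub_zero] at h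
    exact (mul_eq_zero.1 h).resolve_left hE0
  have hLx : LCE π.1 x := (hLCI.1 π x HD.hx).2 ⟨by rw [hVx0]; exact dvd_zero 3,
    hcub x hVx0 (HP.sx π)⟩
  have hcb := hcub b hVb0 (HP.sb π)
  have hLb : LCE π.1 b := (hLCI.1 π b HD.hb).2 ⟨by rw [hVb0]; exact dvd_zero 3, hcb⟩
  obtain ⟨N1, H1⟩ := core hIF4 hLCI hs HD HP hLx
  obtain ⟨ξ', hξ'⟩ := hLx (N1 + 1)
  obtain ⟨hF, -, h1⟩ := H1 ξ' ((pow_dvd_pow _ (by omega)).trans hξ')
  have h4 : π.1 ∣ ξ' ^ 3 - x := by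
    have h4 : π.1 ^ 1 ∣ ξ' ^ 3 - x := (pow_dvd_pow _ (by omega)).trans hξ'
    rwa [pow_one] at h4
  have hb0 : ∀ i, tm π.1 (LfE X Y i ξ') b = 0 := by
    intro i
    rw [hs.skew b (LfE X Y i ξ') HD.hb (hF i),
      hLCI.2.2 π.1 (tm π.1) 1 b _ hs hLb HD.hb (hF i), neg_zero]
  have hM1 : ¬ π.1 ∣ p ^ 3 + x * q ^ 3 := fun h => hπM (dvd_mul_of_dvd_left h _)
  have hM2 : ¬ π.1 ∣ p' ^ 3 + x * q' ^ 3 := fun h => hπM (dvd_mul_of_dvd_right h _)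
  have k1 := LfE_ndvd (p := p) (q := q) h4 hM1
  have k2 := LfE_ndvd (p := p') (q := q') h4 hM2
  rw [h1, hb0, hb0, add_zero, sub_zero]
  have h5 : ASE (tm π.1) ((N : Eis) * (Q : Eis) ^ E) p q p' q' ξ' =
      - (E * TAUP π.1 p q p' q' ξ') := by
    unfold ASE TAUP
    rw [tm_val hVB (k1 2), tm_val hVB (k2 1), tm_val hVB (k1 1), tm_val hVB (k2 2)]
    ring
  rw [h5]
  congr 2
  -- independence of the cube root
  have hcongr : ∀ r r' : Eis, π.1 ∣ r - r' → TAUP π.1 p q p' q' r = TAUP π.1 p q p' q' r' := by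
    intro r r' hr
    have h6 : ∀ (g h : Eis) (i : ℕ), sym π.1 (LfE g h i r) = sym π.1 (LfE g h i r') := by
      intro g h i
      apply sym_congr
      have h7 : LfE g h i r - LfE g h i r' = (h * w ^ i) * (r - r') := by
        unfold LfE
        ring
      rw [h7]
      exact dvd_mul_of_dvd_right hr _
    unfold TAUP
    rw [h6, h6, h6, h6]
  have hshift : ∀ r : Eis, π.1 ∣ r ^ 3 - x →
      TAUP π.1 p q p' q' (w * r) = TAUP π.1 p q p' q' r := by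
    intro r hr
    have m1 := LfE_ndvd (p := p) (q := q) hr hM1
    have m2 := LfE_ndvd (p := p') (q := q') hr hM2
    have h8 : sym π.1 (LfE p q 0 r) + sym π.1 (LfE p q 1 r) + sym π.1 (LfE p q 2 r) =
        sym π.1 b + (sym π.1 (LfE p' q' 0 r) + sym π.1 (LfE p' q' 1 r) +
          sym π.1 (LfE p' q' 2 r)) := by
      rw [← sym_mul π.2.1 h3 (m1 0) (m1 1), ← sym_mul π.2.1 h3 (π.2.1.not_dvd_mul (m1 0) (m1 1)) (m1 2),
        ← sym_mul π.2.1 h3 (m2 0) (m2 1), ← sym_mul π.2.1 h3 (π.2.1.not_dvd_mul (m2 0) (m2 1)) (m2 2),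
        ← sym_mul π.2.1 h3 hπb (π.2.1.not_dvd_mul (π.2.1.not_dvd_mul (m2 0) (m2 1)) (m2 2))]
      apply sym_congr
      rw [LfE_prod, LfE_prod]
      have h9 : p ^ 3 + q ^ 3 * r ^ 3 - b * (p' ^ 3 + q' ^ 3 * r ^ 3) =
          (q ^ 3 - b * q' ^ 3) * (r ^ 3 - x) := by
        linear_combination HD.sol.eq
      rw [h9]
      exact dvd_mul_of_dvd_right hr _
    have h10 : sym π.1 b = 0 := by
      have h11 := hcb
      unfold ch up at h11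
      rwa [hVb0, pow_zero, EuclideanDomain.div_one] at h11
    unfold TAUP
    rw [LfE_shift, LfE_shift, LfE_shift, LfE_shift]
    have e1 : LfE p q (2 + 1) r = LfE p q 0 r := LfE_per p q r 0
    have e2 : LfE p' q' (2 + 1) r = LfE p' q' 0 r := LfE_per p' q' r 0
    rw [e1, e2]
    rw [h10] at h8
    have h12 : (3 : ZMod 3) = 0 := rfl
    linear_combination h8 - (sym π.1 (LfE p q 2 r) - sym π.1 (LfE p' q' 2 r)) * h12
  have hdiv : π.1 ∣ (ξ' - ξ) * (ξ' - w * ξ) * (ξ' - w * (w * ξ)) := by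
    have h13 : (ξ' - ξ) * (ξ' - w * ξ) * (ξ' - w * (w * ξ)) = (ξ' ^ 3 - x) - (ξ ^ 3 - x) := by
      have h1 : w ^ 3 = 1 := w_cube
      have h2 : w ^ 2 + w + 1 = 0 := w_rel
      linear_combination (- ξ ^ 3) * h1 + (- ξ' ^ 2 * ξ + ξ' * ξ ^ 2 * w) * h2
    rw [h13]
    exact dvd_sub h4 hξ
  have hw3 : ∀ r : Eis, π.1 ∣ r ^ 3 - x → π.1 ∣ (w * r) ^ 3 - x := by
    intro r hr
    rwa [mul_pow, w_cube, one_mul]
  rcases π.2.1.dvd_or_dvd hdiv with h | h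
  · rcases π.2.1.dvd_or_dvd h with h | h
    · exact hcongr _ _ h
    · rw [hcongr _ _ h, hshift ξ hξ]
  · rw [hcongr _ _ h, hshift (w * ξ) (hw3 ξ hξ), hshift ξ hξ]


end DX4

/-- PTK_DX4. -/
theorem DX4_thm (hSTM : STM) (hSPP : SPP) (hIF4 : Stmt_IF4) (hLCI : Stmt_LCI) : Stmt_DX4 := by
  intro N b x p q p' q' HD π E Q X Y ξ HP hπN hπM
  refine ⟨?_, ?_⟩
  · intro _ hπQ hξ
    have h := DX4.half hSTM hSPP hIF4 hLCI HD π (ξ := ξ) HP (by rw [hπQ]) hπN hπM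
      (by rw [hπQ]; exact hξ)
    rw [h]
    unfold TAUE TAUP
    rw [hπQ]
  · intro _ hπQ hξ
    exact DX4.half hSTM hSPP hIF4 hLCI HD π HP hπQ hπN hπM hξ

end Pool.Agent.PTK
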