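import Pool.Agent.PTK.StW

/-!
# PTK_ESB: the moments of the corank
-/

set_option autoImplicit false

namespace Pool.Agent.PTK

open Pool.Agent.PTL

namespace ESB

theorem lin (s : ℕ) (a b : ℝ) (F G : ℕ → ℝ) :
    Esk s (fun c => a * F c + b * G c) = a * Esk s F + b * Esk s G := by
  unfold Esk
  haveI := Fintype.ofFinite {M : Matrix (Fin s) (Fin s) (ZMod 3) // M.transpose = -M}
  rw [finsum_eq_sum_of_fintype, finsum_eq_sum_of_fintype, finsum_eq_sum_of_fintype,
    Finset.sum_add_distrib, ← Finset.mul_sum, ← Finset.mul_sum]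
  ring

theorem zero (F : ℕ → ℝ) : Esk 0 F = F 0 := by
  unfold Esk
  haveI := Fintype.ofFinite {M : Matrix (Fin 0) (Fin 0) (ZMod 3) // M.transpose = -M}
  haveI : Unique {M : Matrix (Fin 0) (Fin 0) (ZMod 3) // M.transpose = -M} :=
    ⟨⟨⟨0, by simp⟩⟩, fun M => Subtype.ext (by ext i; exact i.elim0)⟩
  rw [finsum_eq_sum_of_fintype, Nat.card_unique, Nat.cast_one, div_one, Fintype.sum_unique,
    Nat.zero_sub]

theorem one (s : ℕ) : Esk s (fun _ => (1 : ℝ)) = 1 := by
  unfold Esk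
  haveI := Fintype.ofFinite {M : Matrix (Fin s) (Fin s) (ZMod 3) // M.transpose = -M}
  haveI : Nonempty {M : Matrix (Fin s) (Fin s) (ZMod 3) // M.transpose = -M} :=
    ⟨⟨0, by simp⟩⟩
  rw [finsum_eq_sum_of_fintype]
  simp only [Finset.sum_const, Finset.card_univ, Nat.card_eq_fintype_card, nsmul_eq_mul, mul_one]
  have : (Fintype.card {M : Matrix (Fin s) (Fin s) (ZMod 3) // M.transpose = -M} : ℝ) ≠ 0 := by
    exact_mod_cast Fintype.card_ne_zero
  exact div_self this

theorem MoB_succ (k : ℕ) : MoB (k + 1) = MoB k * (1 + 3 ^ (k + 1)) := by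
  unfold MoB
  rw [Finset.prod_range_succ]

theorem MoB_zero : MoB 0 = 1 := by
  unfold MoB
  rw [Finset.range_zero, Finset.prod_empty]

theorem one_le (k : ℕ) : 1 ≤ MoB k := by
  induction k with
  | zero => rw [MoB_zero]
  | succ k ih =>
    rw [MoB_succ]
    have h : (1 : ℝ) ≤ 1 + 3 ^ (k + 1) := by
      have : (0 : ℝ) < 3 ^ (k + 1) := by positivity
      linarith
    exact one_le_mul_of_one_le_of_one_le ih h

theorem step (hESR : Stmt_ESR) (s k : ℕ) :
    Esk (s + 1) (fun c => (3 : ℝ) ^ ((k + 1) * c)) =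
      1 / 3 ^ (k + 1) * Esk s (fun c => (3 : ℝ) ^ ((k + 1) * c)) +
        (3 ^ (k + 1) - 1 / 3 ^ (k + 1)) * Esk s (fun c => (3 : ℝ) ^ (k * c)) := by
  rw [hESR, ← lin]
  congr 1
  funext c
  have h0 : (3 : ℝ) ^ (k + 1) ≠ 0 := by positivity
  rcases c with _ | c
  · simp
  · have h1 : (3 : ℝ) ^ c ≠ 0 := by positivity
    have h2 : (3 : ℝ) ^ k ≠ 0 := by positivity
    have e1 : (3 : ℝ) ^ ((k + 1) * (c + 1 - 1)) = 3 ^ (k * c) * 3 ^ c := by
      rw [Nat.add_sub_cancel, ← pow_add]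
      congr 1
      ring
    have e2 : (3 : ℝ) ^ ((k + 1) * (c + 1 + 1)) =
        3 ^ (k * c) * 3 ^ c * (3 ^ k) ^ 2 * 9 := by
      rw [show (9 : ℝ) = 3 ^ 2 by norm_num, ← pow_mul, ← pow_add, ← pow_add, ← pow_add]
      congr 1
      ring
    have e3 : (3 : ℝ) ^ ((k + 1) * (c + 1)) = 3 ^ (k * c) * 3 ^ c * 3 ^ k * 3 := by
      rw [← pow_add, ← pow_add, ← pow_succ]
      congr 1
      ring
    have e4 : (3 : ℝ) ^ (k * (c + 1)) = 3 ^ (k * c) * 3 ^ k := by
      rw [← pow_add]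
      congr 1
    have e5 : (3 : ℝ) ^ (c + 1) = 3 ^ c * 3 := pow_succ _ _
    have e6 : (3 : ℝ) ^ (k + 1) = 3 ^ k * 3 := pow_succ _ _
    rw [e1, e2, e3, e4, e5, e6]
    field_simp
    ring

end ESB

open ESB in
theorem ESB_thm (hESR : Stmt_ESR) : Stmt_ESB := by
  have key : ∀ k s : ℕ, Esk s (fun c => (3 : ℝ) ^ (k * c)) ≤ MoB k := by
    intro k
    induction k with
    | zero =>
      intro s
      have e : (fun c : ℕ => (3 : ℝ) ^ (0 * c)) = fun _ => (1 : ℝ) := by
        funext c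
        rw [zero_mul, pow_zero]
      rw [e, one, MoB_zero]
    | succ k ihk =>
      intro s
      induction s with
      | zero =>
        rw [zero, mul_zero, pow_zero]
        exact one_le _
      | succ s ihs =>
        rw [step hESR]
        have h1 : (1 : ℝ) ≤ 3 ^ (k + 1) := one_le_pow₀ (by norm_num)
        have h2 : (0 : ℝ) ≤ 1 / 3 ^ (k + 1) := by positivity
        have h3 : (1 : ℝ) / 3 ^ (k + 1) ≤ 1 := by
          rw [div_le_one (by positivity)]
          exact h1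
        have h4 := mul_le_mul_of_nonneg_left ihs h2
        have h5 := mul_le_mul_of_nonneg_left (ihk s)
          (show (0 : ℝ) ≤ 3 ^ (k + 1) - 1 / 3 ^ (k + 1) by linarith)
        refine (add_le_add h4 h5).trans (le_of_eq ?_)
        rw [MoB_succ]
        have h6 : (3 : ℝ) ^ (k + 1) ≠ 0 := by positivity
        field_simp
        ring
  intro s k
  exact key k s

end Pool.Agent.PTK
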