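import Pool.Agent.PTK.StZ2
import Pool.Agent.PTK.ESB
import Pool.Agent.PTL.AL

/-!
# PTK_EKN: the numbers
-/

set_option autoImplicit false

namespace Pool.Agent.PTK

open Pool.Agent.PTL Pool.Agent.PTN

namespace EKN

theorem mono (s : ℕ) (F G : ℕ → ℝ) (h : ∀ c, c % 2 = s % 2 → F c ≤ G c) :
    Esk s F ≤ Esk s G := by
  rw [AL.Esk_eq, AL.Esk_eq]
  exact div_le_div_of_nonneg_right
    (Finset.sum_le_sum fun v _ => h _ (AL.cr_parity v)) (Nat.cast_nonneg _)

theorem smul (s : ℕ) (a : ℝ) (F : ℕ → ℝ) : Esk s (fun c => a * F c) = a * Esk s F := by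
  have h := ESB.lin s a 0 F F
  simpa using h

theorem add (s : ℕ) (F G : ℕ → ℝ) : Esk s (fun c => F c + G c) = Esk s F + Esk s G := by
  have h := ESB.lin s 1 1 F G
  simpa using h

theorem const (s : ℕ) (a : ℝ) : Esk s (fun _ => a) = a := by
  have h := smul s a (fun _ => 1)
  rw [ESB.one] at h
  simpa using h

theorem nonneg (s : ℕ) (F : ℕ → ℝ) (h : ∀ c, 0 ≤ F c) : 0 ≤ Esk s F := by
  have h1 := mono s (fun _ => 0) F fun c _ => h c
  rwa [const] at h1

theorem prod (v s : ℕ) (a b : ℕ → ℝ) :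
    Esk v (fun x => Esk s (fun y => a x * b y)) = Esk v a * Esk s b := by
  have e : (fun x => Esk s (fun y => a x * b y)) = fun x => Esk s b * a x := by
    funext x
    rw [smul, mul_comm]
  rw [e, smul, mul_comm]

theorem dmono (v s : ℕ) (F : ℕ → ℝ) (G : ℕ → ℕ → ℝ)
    (h : ∀ x y, x % 2 = v % 2 → y % 2 = s % 2 → G x y ≤ F (x + y)) :
    Esk v (fun x => Esk s (fun y => G x y)) ≤ EsD v s F :=
  mono v _ _ fun x hx => mono s _ _ fun y hy => h x y hx hy

theorem dmono' (v s : ℕ) (F : ℕ → ℝ) (a b : ℕ → ℝ)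
    (h : ∀ x y, x % 2 = v % 2 → y % 2 = s % 2 → a x * b y ≤ F (x + y)) :
    Esk v a * Esk s b ≤ EsD v s F := by
  rw [← prod]
  exact dmono v s F (fun x y => a x * b y) h

theorem compl (s t : ℕ) : Esk s (fun c => if c < t then 1 else 0) =
    1 - Esk s (fun c => if t ≤ c then 1 else 0) := by
  have h := add s (fun c => if c < t then 1 else 0) (fun c => if t ≤ c then 1 else 0)
  have e : (fun c : ℕ => (if c < t then (1 : ℝ) else 0) + (if t ≤ c then 1 else 0)) =
      fun _ => (1 : ℝ) := by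
    funext c
    by_cases hc : c < t
    · rw [if_pos hc, if_neg (by omega), add_zero]
    · rw [if_neg hc, if_pos (by omega), zero_add]
  rw [e, ESB.one] at h
  linarith

theorem lt_one {s : ℕ} (hs : Even s) : 5 / 8 ≤ Esk s (fun c => if c < 1 then 1 else 0) := by
  rw [compl]
  have h := AL.Esk_pos hs
  linarith

theorem lt_two {s : ℕ} (hs : Odd s) : 23 / 24 ≤ Esk s (fun c => if c < 2 then 1 else 0) := by
  rw [compl]
  have h := AL.Esk_two hs
  linarith

theorem swap (v s : ℕ) (F : ℕ → ℝ) (a b : ℕ → ℝ)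
    (h : ∀ x y, x % 2 = v % 2 → y % 2 = s % 2 → a x * b y ≤ F (x + y)) (p q : ℝ) (hp : 0 ≤ p)
    (hq : 0 ≤ q) (ha : p ≤ Esk v a) (hb : q ≤ Esk s b) : p * q ≤ EsD v s F :=
  (mul_le_mul ha hb hq (hp.trans ha)).trans (dmono' v s F a b h)

theorem ind_mul (x y a b t : ℕ) (h : x < a → y < b → x + y < t) :
    (if x < a then (1 : ℝ) else 0) * (if y < b then 1 else 0) ≤
      (if x + y < t then 1 else 0) := by
  by_cases hx : x < a
  · by_cases hy : y < b
    · rw [if_pos hx, if_pos hy, if_pos (h hx hy), one_mul]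
    · rw [if_neg hy, mul_zero]
      split_ifs <;> norm_num
  · rw [if_neg hx, zero_mul]
    split_ifs <;> norm_num

theorem odd_sum (v s : ℕ) (h : Odd (v + s)) :
    115 / 192 ≤ EsD v s (fun x => if x < 2 then 1 else 0) := by
  rcases Nat.even_or_odd v with hv | hv
  · have hs : Odd s := by
      rw [Nat.odd_add] at h
      by_contra hc
      rw [Nat.not_odd_iff_even] at hc
      exact Nat.not_odd_iff_even.2 hv (h.2 hc)
    refine le_trans (le_of_eq (by norm_num)) (swap v s _ (fun x => if x < 1 then 1 else 0)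
      (fun y => if y < 2 then 1 else 0) (fun x y _ _ => ind_mul x y 1 2 2 (by omega)) (5 / 8)
      (23 / 24) (by norm_num) (by norm_num) (lt_one hv) (lt_two hs))
  · have hs : Even s := (Nat.odd_add.1 h).1 hv
    refine le_trans (le_of_eq (by norm_num)) (swap v s _ (fun x => if x < 2 then 1 else 0)
      (fun y => if y < 1 then 1 else 0) (fun x y _ _ => ind_mul x y 2 1 2 (by omega)) (23 / 24)
      (5 / 8) (by norm_num) (by norm_num) (lt_two hv) (lt_one hs))

theorem big (hESB : Stmt_ESB) (s : ℕ) :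
    Esk s (fun c => if 4 ≤ c then 1 else 0) ≤ 11 / 5000 := by
  have h1 := mono s (fun c => if 4 ≤ c then 1 else 0)
    (fun c => 1 / 3 ^ 16 * (3 : ℝ) ^ (4 * c)) fun c _ => by
      show (if 4 ≤ c then (1 : ℝ) else 0) ≤ 1 / 3 ^ 16 * (3 : ℝ) ^ (4 * c)
      by_cases hc : 4 ≤ c
      · rw [if_pos hc]
        have h2 : (3 : ℝ) ^ 16 ≤ 3 ^ (4 * c) := pow_le_pow_right₀ (by norm_num) (by omega)
        rw [one_div, ← div_eq_inv_mul, le_div_iff₀ (by positivity), one_mul]
        exact h2
      · rw [if_neg hc]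
        positivity
  rw [smul] at h1
  have h2 := hESB s 4
  have h3 : MoB 4 = 91840 := by
    rw [ESB.MoB_succ, ESB.MoB_succ, ESB.MoB_succ, ESB.MoB_succ, ESB.MoB_zero]
    norm_num
  rw [h3] at h2
  have h4 : (1 : ℝ) / 3 ^ 16 * Esk s (fun c => (3 : ℝ) ^ (4 * c)) ≤ 1 / 3 ^ 16 * 91840 :=
    mul_le_mul_of_nonneg_left h2 (by positivity)
  have h5 : (1 : ℝ) / 3 ^ 16 * 91840 ≤ 11 / 5000 := by norm_num
  linarith

theorem even_even (hESB : Stmt_ESB) (v s : ℕ) (hv : Even v) (hs : Even s) :
    17 / 20 ≤ EsD v s (fun x => if x < 3 then 1 else 0) := by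
  have h1 := dmono v s (fun x => if x < 3 then 1 else 0)
    (fun x y => (1 + (-1) * (if 4 ≤ x then (1 : ℝ) else 0)) +
      ((-1) * (if 4 ≤ y then (1 : ℝ) else 0) +
        (-1) * ((if 1 ≤ x then (1 : ℝ) else 0) * (if 1 ≤ y then (1 : ℝ) else 0))))
    fun x y hx hy => by
      show (1 + (-1) * (if 4 ≤ x then (1 : ℝ) else 0)) +
        ((-1) * (if 4 ≤ y then (1 : ℝ) else 0) +
          (-1) * ((if 1 ≤ x then (1 : ℝ) else 0) * (if 1 ≤ y then (1 : ℝ) else 0))) ≤
        (if x + y < 3 then 1 else 0)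
      rw [Nat.even_iff] at hv hs
      by_cases h3 : x + y < 3
      · rw [if_pos h3]
        have e1 : (0 : ℝ) ≤ if 4 ≤ x then 1 else 0 := by split_ifs <;> norm_num
        have e2 : (0 : ℝ) ≤ if 4 ≤ y then 1 else 0 := by split_ifs <;> norm_num
        have e3 : (0 : ℝ) ≤ (if 1 ≤ x then (1 : ℝ) else 0) * (if 1 ≤ y then (1 : ℝ) else 0) := by
          split_ifs <;> norm_num
        linarith
      · rw [if_neg h3]
        by_cases hx4 : 4 ≤ x
        · rw [if_pos hx4]
          have e2 : (0 : ℝ) ≤ if 4 ≤ y then 1 else 0 := by split_ifs <;> norm_num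
          have e3 : (0 : ℝ) ≤
              (if 1 ≤ x then (1 : ℝ) else 0) * (if 1 ≤ y then (1 : ℝ) else 0) := by
            split_ifs <;> norm_num
          linarith
        · by_cases hy4 : 4 ≤ y
          · rw [if_pos hy4, if_neg hx4]
            have e3 : (0 : ℝ) ≤
                (if 1 ≤ x then (1 : ℝ) else 0) * (if 1 ≤ y then (1 : ℝ) else 0) := by
              split_ifs <;> norm_num
            linarith
          · rw [if_neg hx4, if_neg hy4, if_pos (by omega), if_pos (by omega)]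
            norm_num
  have e : Esk v (fun x => Esk s (fun y => (1 + (-1) * (if 4 ≤ x then (1 : ℝ) else 0)) +
      ((-1) * (if 4 ≤ y then (1 : ℝ) else 0) +
        (-1) * ((if 1 ≤ x then (1 : ℝ) else 0) * (if 1 ≤ y then (1 : ℝ) else 0))))) =
      1 - Esk v (fun x => if 4 ≤ x then 1 else 0) - Esk s (fun y => if 4 ≤ y then 1 else 0) -
        Esk v (fun x => if 1 ≤ x then 1 else 0) * Esk s (fun y => if 1 ≤ y then 1 else 0) := by
    have e1 : (fun x => Esk s (fun y => (1 + (-1) * (if 4 ≤ x then (1 : ℝ) else 0)) +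
      ((-1) * (if 4 ≤ y then (1 : ℝ) else 0) +
        (-1) * ((if 1 ≤ x then (1 : ℝ) else 0) * (if 1 ≤ y then (1 : ℝ) else 0))))) =
        fun x => (1 + (-1) * (if 4 ≤ x then (1 : ℝ) else 0)) +
          ((-1) * Esk s (fun y => if 4 ≤ y then 1 else 0) +
            (-1) * (Esk s (fun y => if 1 ≤ y then 1 else 0) *
              (if 1 ≤ x then (1 : ℝ) else 0))) := by
      funext x
      rw [add, const, add, smul, smul, smul, mul_comm (if 1 ≤ x then (1 : ℝ) else 0)]
    rw [e1, add, add, const, smul, add, const, smul, smul]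
    ring
  rw [e] at h1
  have h2 := big hESB v
  have h3 := big hESB s
  have h4 := AL.Esk_pos hv
  have h5 := AL.Esk_pos hs
  have h6 : 0 ≤ Esk s (fun y => if 1 ≤ y then 1 else 0) :=
    nonneg s _ fun c => by split_ifs <;> norm_num
  have h7 := mul_le_mul h4 h5 h6 (by norm_num)
  refine le_trans ?_ h1
  linarith

theorem odd_odd (v s : ℕ) (hv : Odd v) (hs : Odd s) :
    17 / 20 ≤ EsD v s (fun x => if x < 3 then 1 else 0) := by
  refine le_trans (by norm_num) (swap v s _ (fun x => if x < 2 then 1 else 0)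
      (fun y => if y < 2 then 1 else 0) (fun x y _ _ => ind_mul x y 2 2 3 (by omega)) (23 / 24)
      (23 / 24) (by norm_num) (by norm_num) (lt_two hv) (lt_two hs))

theorem even_sum (hESB : Stmt_ESB) (v s : ℕ) (h : Even (v + s)) :
    17 / 20 ≤ EsD v s (fun x => if x < 3 then 1 else 0) := by
  rcases Nat.even_or_odd v with hv | hv
  · exact even_even hESB v s hv ((Nat.even_add.1 h).1 hv)
  · refine odd_odd v s hv ?_
    rw [Nat.even_add] at h
    by_contra hc
    rw [Nat.not_odd_iff_even] at hc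
    exact Nat.not_even_iff_odd.2 hv (h.2 hc)

theorem zero_left (s : ℕ) (F : ℕ → ℝ) : EsD 0 s F = Esk s F := by
  unfold EsD
  rw [ESB.zero]
  congr 1
  funext y
  rw [zero_add]

end EKN

open EKN in
theorem EKN_thm (hLAM : Stmt_LAM) (hESB : Stmt_ESB) (_hLAW : Stmt_LAW) : Stmt_EKN := by
  refine ⟨?_, ?_, odd_sum, ?_, even_sum hESB, ?_, zero_left, ?_, ?_, ?_⟩
  · intro v s
    unfold EsD
    have e : (fun x : ℕ => Esk s (fun y => ((x + y : ℕ) : ℝ))) =
        fun x : ℕ => (x : ℝ) + Esk s (fun y => (y : ℝ)) := by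
      funext x
      have e1 : (fun y : ℕ => ((x + y : ℕ) : ℝ)) = fun y : ℕ => (x : ℝ) + (y : ℝ) := by
        funext y
        push_cast
        rfl
      rw [e1, add, const]
    rw [e, add, const]
    have h1 := hLAM.1 v
    have h2 := hLAM.1 s
    linarith
  · intro v s k
    unfold EsD
    have e : (fun x : ℕ => Esk s (fun y => (3 : ℝ) ^ (k * (x + y)))) =
        fun x : ℕ => Esk s (fun y => (3 : ℝ) ^ (k * x) * (3 : ℝ) ^ (k * y)) := by
      funext x
      congr 1
      funext y
      rw [mul_add, pow_add]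
    rw [e, prod v s (fun x => (3 : ℝ) ^ (k * x)) (fun y => (3 : ℝ) ^ (k * y)), sq]
    have h0 := ESB.one_le k
    exact mul_le_mul (hESB v k) (hESB s k) (nonneg s _ fun c => by positivity) (by linarith)
  · intro v s
    rcases Nat.even_or_odd (v + s) with h | h
    · exact le_trans (by norm_num) (even_sum hESB v s h)
    · refine (odd_sum v s h).trans (dmono v s (fun x => if x < 3 then 1 else 0)
        (fun x y => if x + y < 2 then 1 else 0) fun x y _ _ => ?_)
      show (if x + y < 2 then (1 : ℝ) else 0) ≤ if x + y < 3 then 1 else 0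
      by_cases hc : x + y < 2
      · rw [if_pos hc, if_pos (by omega)]
      · rw [if_neg hc]
        split_ifs <;> norm_num
  · intro v s hv hs
    refine le_trans (le_of_eq (by norm_num)) (swap v s _ (fun x => if x < 1 then 1 else 0)
      (fun y => if y < 1 then 1 else 0) (fun x y _ _ => ind_mul x y 1 1 1 (by omega)) (5 / 8)
      (5 / 8) (by norm_num) (by norm_num) (lt_one hv) (lt_one hs))
  · intro s hs
    rw [zero_left]
    exact lt_one hs
  · intro s hs
    rw [zero_left]
    exact lt_two hs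
  · intro v s t
    unfold EsD
    refine nonneg v _ fun x => nonneg s _ fun y => ?_
    show (0 : ℝ) ≤ if x + y < t then 1 else 0
    split_ifs <;> norm_num

end Pool.Agent.PTK
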