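import Pool.Agent.PTK.StW
import Mathlib.LinearAlgebra.Dual.Lemmas
import Mathlib.LinearAlgebra.Matrix.Dual
import Mathlib.LinearAlgebra.Matrix.ToLin
import Mathlib.LinearAlgebra.Matrix.DotProduct
import Mathlib.FieldTheory.Finiteness

/-!
# ESR: the recursion for the corank of a random skew-symmetric matrix
-/

set_option autoImplicit false

namespace Pool.Agent.PTK

open Pool.Agent.PTL

namespace ESR

open Matrix

instance : Fact (Nat.Prime 3) := ⟨Nat.prime_three⟩

variable {s : ℕ}

/-- the large matrix -/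
def big (A : Matrix (Fin s) (Fin s) (ZMod 3)) (x : Fin s → ZMod 3) :
    Matrix (Fin (s + 1)) (Fin (s + 1)) (ZMod 3) :=
  Matrix.of (Fin.cons (Fin.cons 0 (-x)) fun i => Fin.cons (x i) (A i))

theorem big_mulVec (A : Matrix (Fin s) (Fin s) (ZMod 3)) (x y : Fin s → ZMod 3) (t : ZMod 3) :
    (big A x).mulVec (Fin.cons t y) = Fin.cons (-(x ⬝ᵥ y)) fun i => x i * t + A.mulVec y i := by
  funext i
  refine Fin.cases ?_ (fun i => ?_) i
  · simp [big, Matrix.mulVec, dotProduct, Fin.sum_univ_succ]
  · simp [big, Matrix.mulVec, dotProduct, Fin.sum_univ_succ]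

theorem big_ker (A : Matrix (Fin s) (Fin s) (ZMod 3)) (x y : Fin s → ZMod 3) (t : ZMod 3) :
    (big A x).mulVec (Fin.cons t y) = 0 ↔ x ⬝ᵥ y = 0 ∧ t • x + A.mulVec y = 0 := by
  rw [big_mulVec]
  constructor
  · intro h
    refine ⟨?_, ?_⟩
    · have h1 := congrFun h 0
      simpa using h1
    · funext i
      have h1 := congrFun h i.succ
      simp only [Fin.cons_succ, Pi.zero_apply] at h1
      simp only [Pi.add_apply, Pi.smul_apply, smul_eq_mul, Pi.zero_apply]
      rw [mul_comm]
      exact h1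
  · rintro ⟨h1, h2⟩
    funext i
    refine Fin.cases ?_ (fun i => ?_) i
    · simp [h1]
    · have h3 := congrFun h2 i
      simp only [Pi.add_apply, Pi.smul_apply, smul_eq_mul, Pi.zero_apply] at h3
      simp only [Fin.cons_succ, Pi.zero_apply]
      rw [mul_comm]
      exact h3

/-- the number of the vectors in the kernel -/
theorem card_ker (n : ℕ) (A : Matrix (Fin n) (Fin n) (ZMod 3)) :
    Nat.card {x : Fin n → ZMod 3 // A.mulVec x = 0} = 3 ^ (n - A.rank) := by
  have hker : Module.finrank (ZMod 3) (LinearMap.ker A.mulVecLin) = n - A.rank := by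
    have h1 := LinearMap.finrank_range_add_finrank_ker A.mulVecLin
    rw [Module.finrank_fintype_fun_eq_card, Fintype.card_fin] at h1
    have h2 : Module.finrank (ZMod 3) (LinearMap.range A.mulVecLin) = A.rank := rfl
    omega
  have h1 := Module.natCard_eq_pow_finrank (K := ZMod 3) (V := LinearMap.ker A.mulVecLin)
  rw [Nat.card_zmod, hker] at h1
  exact h1

theorem skew_dot {A : Matrix (Fin s) (Fin s) (ZMod 3)} (hA : A.transpose = -A)
    (y z : Fin s → ZMod 3) : A.mulVec z ⬝ᵥ y = -(z ⬝ᵥ A.mulVec y) := by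
  rw [dotProduct_comm, dotProduct_mulVec, ← mulVec_transpose, hA, neg_mulVec, neg_dotProduct,
    dotProduct_comm]

theorem alt_dot {A : Matrix (Fin s) (Fin s) (ZMod 3)} (hA : A.transpose = -A)
    (z : Fin s → ZMod 3) : z ⬝ᵥ A.mulVec z = 0 := by
  have h1 := skew_dot hA z z
  rw [dotProduct_comm] at h1
  revert h1
  generalize z ⬝ᵥ A.mulVec z = d
  revert d
  decide

/-- the column is in the range -/
theorem case1 {A : Matrix (Fin s) (Fin s) (ZMod 3)} (hA : A.transpose = -A)
    (z : Fin s → ZMod 3) :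
    s + 1 - (big A (A.mulVec z)).rank = s - A.rank + 1 := by
  have h1 : Nat.card {v : Fin (s + 1) → ZMod 3 // (big A (A.mulVec z)).mulVec v = 0} =
      Nat.card (ZMod 3 × {y : Fin s → ZMod 3 // A.mulVec y = 0}) := by
    refine Nat.card_congr
      { toFun := fun v => (v.1 0, ⟨Fin.tail v.1 + v.1 0 • z, ?_⟩)
        invFun := fun w => ⟨Fin.cons w.1 (w.2.1 - w.1 • z), ?_⟩
        left_inv := ?_
        right_inv := ?_ }
    · have h2 := v.2
      rw [← Fin.cons_self_tail v.1, big_ker] at h2
      rw [mulVec_add, mulVec_smul, add_comm]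
      simpa using h2.2
    · rw [big_ker, skew_dot hA, mulVec_sub, mulVec_smul, w.2.2, zero_sub, dotProduct_neg,
        dotProduct_smul, alt_dot hA]
      simp
    · intro v
      refine Subtype.ext ?_
      simp only [add_sub_cancel_right]
      exact Fin.cons_self_tail v.1
    · intro w
      refine Prod.ext (by simp) (Subtype.ext ?_)
      simp
  rw [card_ker, Nat.card_prod, card_ker, Nat.card_zmod, mul_comm, ← pow_succ] at h1
  exact Nat.pow_right_injective (by norm_num : 2 ≤ 3) h1

/-- the dot product with `x` on the kernel -/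
def phi (A : Matrix (Fin s) (Fin s) (ZMod 3)) (x : Fin s → ZMod 3) :
    Module.Dual (ZMod 3) (LinearMap.ker A.mulVecLin) :=
  (dotProductBilin (ZMod 3) (ZMod 3) x).comp (Submodule.subtype _)

theorem phi_ne {A : Matrix (Fin s) (Fin s) (ZMod 3)} (hA : A.transpose = -A)
    {x : Fin s → ZMod 3} (hx : ∀ z, A.mulVec z ≠ x) : phi A x ≠ 0 := by
  intro h
  have h1 : (dotProductBilin (ZMod 3) (ZMod 3) x : Module.Dual (ZMod 3) (Fin s → ZMod 3)) ∈
      (LinearMap.ker A.mulVecLin).dualAnnihilator := by
    rw [Submodule.mem_dualAnnihilator]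
    intro y hy
    exact LinearMap.congr_fun h ⟨y, hy⟩
  rw [← LinearMap.range_dualMap_eq_dualAnnihilator_ker] at h1
  obtain ⟨ψ, hψ⟩ := h1
  obtain ⟨w, rfl⟩ := (dotProductEquiv (ZMod 3) (Fin s)).surjective ψ
  refine hx (-w) ?_
  have h2 : ∀ y, x ⬝ᵥ y = (A.mulVec (-w)) ⬝ᵥ y := by
    intro y
    have h3 := LinearMap.congr_fun hψ y
    have h4 : w ⬝ᵥ A.mulVec y = x ⬝ᵥ y := by simpa using h3
    rw [skew_dot hA, neg_dotProduct, neg_neg, h4]
  exact (dotProduct_eq _ _ h2).symm

/-- the column is not in the range -/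
theorem case2 {A : Matrix (Fin s) (Fin s) (ZMod 3)} (hA : A.transpose = -A)
    {x : Fin s → ZMod 3} (hx : ∀ z, A.mulVec z ≠ x) :
    s + 1 - (big A x).rank = s - A.rank - 1 := by
  have h1 : Nat.card {v : Fin (s + 1) → ZMod 3 // (big A x).mulVec v = 0} =
      Nat.card (LinearMap.ker (phi A x)) := by
    have ht : ∀ v : {v : Fin (s + 1) → ZMod 3 // (big A x).mulVec v = 0},
        v.1 0 = 0 ∧ A.mulVec (Fin.tail v.1) = 0 ∧ x ⬝ᵥ Fin.tail v.1 = 0 := by
      intro v
      have h2 := v.2
      rw [← Fin.cons_self_tail v.1, big_ker] at h2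
      have h3 : v.1 0 = 0 := by
        by_contra h0
        refine hx (-(v.1 0)⁻¹ • Fin.tail v.1) ?_
        have h4 : A.mulVec (Fin.tail v.1) = -(v.1 0 • x) := by
          rw [eq_neg_iff_add_eq_zero, add_comm]
          exact h2.2
        rw [mulVec_smul, h4, smul_neg, neg_smul, neg_neg, smul_smul, inv_mul_cancel₀ h0,
          one_smul]
      refine ⟨h3, ?_, h2.1⟩
      have h4 := h2.2
      rwa [h3, zero_smul, zero_add] at h4
    refine Nat.card_congr
      { toFun := fun v => ⟨⟨Fin.tail v.1, (ht v).2.1⟩, (ht v).2.2⟩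
        invFun := fun w => ⟨Fin.cons 0 w.1.1, ?_⟩
        left_inv := ?_
        right_inv := ?_ }
    · rw [big_ker, zero_smul, zero_add]
      exact ⟨w.2, w.1.2⟩
    · intro v
      refine Subtype.ext ?_
      have h3 := Fin.cons_self_tail v.1
      rw [(ht v).1] at h3
      exact h3
    · intro w
      refine Subtype.ext (Subtype.ext ?_)
      simp
  have h2 := Module.Dual.finrank_ker_add_one_of_ne_zero (phi_ne hA hx)
  have h3 : Module.finrank (ZMod 3) (LinearMap.ker A.mulVecLin) = s - A.rank := by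
    have h1 := LinearMap.finrank_range_add_finrank_ker A.mulVecLin
    rw [Module.finrank_fintype_fun_eq_card, Fintype.card_fin] at h1
    have h2 : Module.finrank (ZMod 3) (LinearMap.range A.mulVecLin) = A.rank := rfl
    omega
  have h4 := Module.natCard_eq_pow_finrank (K := ZMod 3) (V := LinearMap.ker (phi A x))
  rw [Nat.card_zmod] at h4
  rw [card_ker, h4] at h1
  have h5 := Nat.pow_right_injective (by norm_num : 2 ≤ 3) h1
  omega

/-- the number of the columns in the range -/
theorem card_range (A : Matrix (Fin s) (Fin s) (ZMod 3)) :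
    Nat.card {x : Fin s → ZMod 3 // ∃ z, A.mulVec z = x} = 3 ^ A.rank := by
  have h1 := Module.natCard_eq_pow_finrank (K := ZMod 3) (V := LinearMap.range A.mulVecLin)
  rw [Nat.card_zmod] at h1
  exact h1

/-- the skew-symmetric matrices -/
abbrev Sk (s : ℕ) := {M : Matrix (Fin s) (Fin s) (ZMod 3) // M.transpose = -M}

/-- the sum over the columns -/
theorem sum_col {A : Matrix (Fin s) (Fin s) (ZMod 3)} (hA : A.transpose = -A) (F : ℕ → ℝ) :
    ∑ x : Fin s → ZMod 3, F (s + 1 - (big A x).rank) =
      3 ^ s * ((1 - 1 / 3 ^ (s - A.rank)) * F (s - A.rank - 1) +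
        1 / 3 ^ (s - A.rank) * F (s - A.rank + 1)) := by
  classical
  have h1 : ∀ x : Fin s → ZMod 3, F (s + 1 - (big A x).rank) =
      F (s - A.rank - 1) + if ∃ z, A.mulVec z = x then
        F (s - A.rank + 1) - F (s - A.rank - 1) else 0 := by
    intro x
    split_ifs with h
    · obtain ⟨z, rfl⟩ := h
      rw [case1 hA]
      ring
    · rw [case2 hA fun z hz => h ⟨z, hz⟩, add_zero]
  rw [Finset.sum_congr rfl fun x _ => h1 x, Finset.sum_add_distrib, Finset.sum_const,
    Finset.sum_ite, Finset.sum_const_zero, add_zero, Finset.sum_const]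
  have h2 := card_range A
  rw [Nat.card_eq_fintype_card, Fintype.card_subtype] at h2
  rw [h2]
  have h3 : A.rank ≤ s := by
    have h4 := A.rank_le_card_height
    rwa [Fintype.card_fin] at h4
  have h5 : (3 : ℝ) ^ s = 3 ^ (s - A.rank) * 3 ^ A.rank := by
    rw [← pow_add]
    congr 1
    omega
  rw [Finset.card_univ, Fintype.card_fun, Fintype.card_fin, ZMod.card, nsmul_eq_mul, nsmul_eq_mul]
  push_cast
  rw [h5]
  field_simp
  ring

theorem big_skew {A : Matrix (Fin s) (Fin s) (ZMod 3)} (hA : A.transpose = -A)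
    (x : Fin s → ZMod 3) : (big A x).transpose = -(big A x) := by
  have hsk : ∀ i j, A j i = - A i j := fun i j => by
    have h1 := congrFun (congrFun hA i) j
    rw [transpose_apply, neg_apply] at h1
    exact h1
  ext i j
  refine Fin.cases ?_ (fun i => ?_) i <;> refine Fin.cases ?_ (fun j => ?_) j
  · simp [big]
  · simp [big]
  · simp [big]
  · simp [big, hsk i j]

/-- a matrix of size `s + 1` -/
def eqv (s : ℕ) : Sk (s + 1) ≃ Sk s × (Fin s → ZMod 3) where
  toFun M := (⟨fun i j => M.1 i.succ j.succ, by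
    ext i j
    have h1 := congrFun (congrFun M.2 i.succ) j.succ
    rw [transpose_apply, neg_apply] at h1
    exact h1⟩, fun i => M.1 i.succ 0)
  invFun z := ⟨big z.1.1 z.2, big_skew z.1.2 z.2⟩
  left_inv M := by
    have hsk : ∀ i j, M.1 j i = - M.1 i j := fun i j => by
      have h1 := congrFun (congrFun M.2 i) j
      rw [transpose_apply, neg_apply] at h1
      exact h1
    have hd : ∀ j, M.1 j j = 0 := fun j => by
      have h1 := hsk j j
      revert h1
      generalize M.1 j j = d
      revert d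
      decide
    refine Subtype.ext ?_
    ext i j
    refine Fin.cases ?_ (fun i => ?_) i <;> refine Fin.cases ?_ (fun j => ?_) j
    · simp [big, hd]
    · simp [big, hsk j.succ 0]
    · simp [big]
    · simp [big]
  right_inv z := by
    refine Prod.ext (Subtype.ext ?_) ?_
    · ext i j
      simp [big]
    · funext i
      simp [big]

end ESR

open ESR in
theorem ESR_thm : Stmt_ESR := by
  classical
  intro s F
  unfold Esk
  have : Fintype (Sk s) := Fintype.ofFinite _
  have : Fintype (Sk (s + 1)) := Fintype.ofFinite _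
  rw [finsum_eq_sum_of_fintype, finsum_eq_sum_of_fintype, Nat.card_congr (eqv s), Nat.card_prod,
    ← (eqv s).symm.sum_comp, Fintype.sum_prod_type]
  have h1 : ∀ A : Sk s, ∑ x : Fin s → ZMod 3, F (s + 1 - ((eqv s).symm (A, x)).1.rank) =
      3 ^ s * ((1 - 1 / 3 ^ (s - A.1.rank)) * F (s - A.1.rank - 1) +
        1 / 3 ^ (s - A.1.rank) * F (s - A.1.rank + 1)) := fun A => sum_col A.2 F
  rw [Finset.sum_congr rfl fun A _ => h1 A, ← Finset.mul_sum]
  have h2 : (Nat.card (Fin s → ZMod 3) : ℝ) = 3 ^ s := by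
    rw [Nat.card_eq_fintype_card, Fintype.card_fun, Fintype.card_fin, ZMod.card]
    push_cast
    rfl
  rw [Nat.cast_mul, h2, mul_comm (Nat.card (Sk s) : ℝ), mul_div_mul_left _ _ (by positivity)]

end Pool.Agent.PTK
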