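import Pool.Agent.PTK.StW

/-!
# PTK_ESZ: the law of the corank, `q = 1 (mod 3)`
-/

set_option autoImplicit false

namespace Pool.Agent.PTK

open Pool.Agent.PTL

namespace ESZ

theorem lin (s : ℕ) (a b : ℝ) (F G : ℕ → ℝ) :
    Esk s (fun c => a * F c + b * G c) = a * Esk s F + b * Esk s G := by
  unfold Esk
  haveI := Fintype.ofFinite {M : Matrix (Fin s) (Fin s) (ZMod 3) // M.transpose = -M}
  rw [finsum_eq_sum_of_fintype, finsum_eq_sum_of_fintype, finsum_eq_sum_of_fintype,
    Finset.sum_add_distrib, ← Finset.mul_sum, ← Finset.mul_sum]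
  ring

theorem zero (F : ℕ → ℝ) : Esk 0 F = F 0 := by
  unfold Esk
  haveI := Fintype.ofFinite {M : Matrix (Fin 0) (Fin 0) (ZMod 3) // M.transpose = -M}
  haveI : Unique {M : Matrix (Fin 0) (Fin 0) (ZMod 3) // M.transpose = -M} :=
    ⟨⟨⟨0, by simp⟩⟩, fun M => Subtype.ext (by ext i; exact i.elim0)⟩
  rw [finsum_eq_sum_of_fintype, Nat.card_unique, Nat.cast_one, div_one, Fintype.sum_unique,
    Nat.zero_sub]

end ESZ

open ESZ in
theorem ESZ_thm (hESR : Stmt_ESR) : Stmt_ESZ := by
  intro d
  induction d with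
  | zero =>
    intro F
    rw [hESR 0 F]
    simp only [zero, pow_zero, div_one, sub_self, zero_mul]
  | succ d ih =>
    intro F
    have h1 : Esk (d + 1 + 1) F = (1 - 1 / 3 ^ d) * Esk d F +
        1 / 3 ^ d * (2 / 3 * Esk d F + 1 / 3 * Esk (d + 1) (fun c => F (c + 1))) := by
      rw [hESR (d + 1) F, ← ih]
      congr 1
      · rcases Nat.eq_zero_or_pos d with rfl | hd
        · rw [pow_zero, div_one, sub_self, zero_mul, zero_mul]
        · have e : d - 1 + 1 = d := Nat.sub_add_cancel hd
          have e2 := hESR (d - 1) F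
          rw [e] at e2
          rw [e2]
      · congr 1
        rw [hESR d (fun c => F (c + 1)), ← lin]
        congr 1
        funext c
        have h3 : (1 - 1 / 3 ^ c) * F (c - 1 + 1) = (1 - 1 / 3 ^ c) * F c := by
          rcases Nat.eq_zero_or_pos c with rfl | hc
          · rw [pow_zero, div_one, sub_self, zero_mul, zero_mul]
          · rw [Nat.sub_add_cancel hc]
        rw [h3, Nat.add_sub_cancel, pow_succ]
        have h4 : (3 : ℝ) ^ c ≠ 0 := by positivity
        field_simp
        ring
    rw [h1, Nat.add_sub_cancel, pow_succ]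
    have h4 : (3 : ℝ) ^ d ≠ 0 := by positivity
    field_simp
    ring

end Pool.Agent.PTK
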