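import Pool.Agent.PTK.StZ
import Pool.Agent.PT.F2B

/-!
# PTK_F2E: `b` a local cube and `x` not, tame places
-/

set_option autoImplicit false

open NumberField IsDedekindDomain Finset
open scoped nonZeroDivisors Pointwise

namespace Pool.Agent.PTK

open Pool.Agent.Lib_helper18 Pool.Agent.Lib_helper18.Eis Pool.Agent.Lib_helper84.Cub
open Pool.Agent.PT Pool.Agent.PTE Pool.Agent.PT3 Pool.Agent.PTL Pool.Agent.PTN

theorem F2E_thm (hSTM : STM) (hSPP : SPP) (hLCI : Stmt_LCI) (hIF2 : Stmt_IF2) : Stmt_F2E := by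
  intro π B b x p q p' q' hB hb hx hsol hLb hLx
  have hLSym : LSym π.1 (tm π.1) 1 := hSTM π.1 π.2.1 (hSPP.2.2.2.1 π).1
  have h1 : ¬ (3 ∣ V π.1 x ∧ ch π.1 x = 0) :=
    fun h => hLx ((hLCI.1 π x hx.ne).2 h)
  obtain ⟨j, hj, hj'⟩ := PT.F2B.tm_smul (hx.sym π) h1
  obtain ⟨N0, hN0⟩ := hIF2 π.1 (tm π.1) 1 hLSym b x p q p' q' hb.ne hx.ne hsol
  refine ⟨N0, fun r hr => ?_⟩
  have h2 := hN0 r hr
  have h3 : ASE (tm π.1) B p q p' q' r = j * ASE (tm π.1) x p q p' q' r := by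
    unfold ASE
    rw [hj, hj, hj, hj]
    ring
  rw [h3, h2, hj, hj, hj']
  ring

end Pool.Agent.PTK
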