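import Pool.Agent.PTK.StZ
import Pool.Agent.PT.F3R

/-!
# PTK_F3E: two noncubes at a place dividing `B`

Copy of `PT/F3R.lean` with variables in `Z[w]` instead of `ℤ`.
-/

set_option autoImplicit false

open NumberField IsDedekindDomain Finset
open scoped nonZeroDivisors Pointwise

namespace Pool.Agent.PTK

open Pool.Agent.Lib_helper18 Pool.Agent.Lib_helper18.Eis Pool.Agent.Lib_helper84.Cub
open Pool.Agent.PT Pool.Agent.PTE Pool.Agent.PT3 Pool.Agent.PTL Pool.Agent.PTN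

namespace F3E

/-- the main computation, over `Z[w]` -/
theorem main (hSTM : STM) (π : PP) (B b x p q p' q' : Eis) (hBne : B ≠ 0)
    (hBcf : V π.1 B ≤ 2) (b0 : b ≠ 0) (x0 : x ≠ 0)
    (heq : p ^ 3 + b * q ^ 3 = x * (p' ^ 3 + b * q' ^ 3)) (hn1 : p ^ 3 + b * q ^ 3 ≠ 0)
    (hdvd : π.1 ∣ B) (hVb : ¬ 3 ∣ V π.1 b) (hVx : ¬ 3 ∣ V π.1 x) :
    UVE (tm π.1) B b x p q p' q' =
      (if 3 ∣ V π.1 b + V π.1 B then - tm π.1 w x else 0) +
      (if 3 ∣ V π.1 x + V π.1 B then - tm π.1 w b else 0) := by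
  have hπ : Prime π.1 := π.2.1
  have h3 := PT.F3R.not_dvd_three π
  have S := hSTM π.1 hπ h3
  have B0 : B ≠ 0 := hBne
  have w0 : w ≠ 0 := isUnit_w.ne_zero
  have Vw : V π.1 w = 0 := V_eq_zero (not_dvd_of_isUnit hπ isUnit_w)
  have tw : ∀ y : Eis, tm π.1 w y = (V π.1 y : ZMod 3) * ch π.1 w := by
    intro y
    unfold tm
    rw [Vw]
    push_cast
    ring
  have hv : (V π.1 B : ZMod 3) ≠ 0 := by
    rw [Ne, ← PT.F3R.three_dvd_iff']
    have h1 : V π.1 B ≠ 0 := fun h => V_eq_zero_iff.1 h hdvd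
    have h2 := hBcf
    omega
  have hβ : (V π.1 b : ZMod 3) ≠ 0 := by rwa [Ne, ← PT.F3R.three_dvd_iff']
  have hξ : (V π.1 x : ZMod 3) ≠ 0 := by rwa [Ne, ← PT.F3R.three_dvd_iff']
  have skw : ∀ a c : Eis, tm π.1 a c = - tm π.1 c a := by
    intro a c
    unfold tm
    ring
  have e3 : ∀ n : ℕ, ((3 * n : ℕ) : ZMod 3) = 0 := fun n => (PT.F3R.three_dvd_iff' _).1 ⟨n, rfl⟩
  -- the valuations of the four terms
  have c1 : p ^ 3 ≠ 0 → (V π.1 (p ^ 3) : ZMod 3) = 0 := by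
    intro h
    have h1 : p ≠ 0 := fun h' => h (by rw [h']; ring)
    rw [V_pow hπ h1, e3]
  have c2 : b * q ^ 3 ≠ 0 → (V π.1 (b * q ^ 3) : ZMod 3) = V π.1 b := by
    intro h
    have h1 : q ≠ 0 := fun h' => h (by rw [h']; ring)
    rw [V_mul hπ b0 (pow_ne_zero _ h1), V_pow hπ h1, Nat.cast_add, e3, add_zero]
  have c3 : -(x * p' ^ 3) ≠ 0 → (V π.1 (-(x * p' ^ 3)) : ZMod 3) = V π.1 x := by
    intro h
    have h1 : p' ≠ 0 := fun h' => h (by rw [h']; ring)
    rw [V_neg, V_mul hπ x0 (pow_ne_zero _ h1), V_pow hπ h1, Nat.cast_add, e3, add_zero]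
  have c4 : -(x * b * q' ^ 3) ≠ 0 →
      (V π.1 (-(x * b * q' ^ 3)) : ZMod 3) = V π.1 x + V π.1 b := by
    intro h
    have h1 : q' ≠ 0 := fun h' => h (by rw [h']; ring)
    rw [V_neg, V_mul hπ (mul_ne_zero x0 b0) (pow_ne_zero _ h1), V_mul hπ x0 b0, V_pow hπ h1,
      Nat.cast_add, e3, add_zero, Nat.cast_add]
  have hG : ∀ i, GfE p q p' q' i = q * p' - w ^ i * p * q' := fun i => rfl
  have hsum : tm π.1 w (B * x * b) = ((V π.1 B : ZMod 3) +
      V π.1 x + V π.1 b) * ch π.1 w := by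
    rw [tw, V_mul hπ (mul_ne_zero B0 x0) b0, V_mul hπ B0 x0]
    push_cast
    ring
  unfold UVE
  rw [hsum, tw, tw, PT.F3R.ite3, PT.F3R.ite3, Nat.cast_add, Nat.cast_add]
  by_cases hj : (V π.1 b : ZMod 3) = V π.1 x
  · obtain ⟨f1, f2, f3, f4, f5⟩ := PT.F3R.four hπ (a := p ^ 3) (b := b * q ^ 3)
      (c := -(x * p' ^ 3)) (d := -(x * b * q' ^ 3))
      (by linear_combination heq) c1 c2 c3 c4 hβ.symm hξ.symm
      (by
        rw [← hj]
        intro h
        apply hβ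
        linear_combination h + (V π.1 b : ZMod 3) * three_zmod)
      (by
        intro h
        apply hξ
        linear_combination -h)
      (by
        intro h
        apply hβ
        linear_combination -h)
      (fun h => hn1 (by rw [h.1, h.2.1, add_zero]))
    obtain ⟨g1, g2⟩ := PT.F3R.cmp hπ (A := -(x * b)) (y := q * p') (z := p * q')
      (neg_ne_zero.2 (mul_ne_zero x0 b0)) f1 f2 f3 f4 f5 (by ring) (by ring)
    have hc : ∀ i, tm π.1 B (GfE p q p' q' i) = tm π.1 B (q * p') := by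
      intro i
      rw [skw, skw B, S.cont (q * p') (GfE p q p' q' i) B g1 B0]
      have e : GfE p q p' q' i - q * p' = p * q' * (-w ^ i) := by
        rw [hG]
        ring
      rw [e]
      exact Dvd.dvd.mul_right g2 _
    rw [hc, hc, sub_self, zero_add, ← hj]
    exact PT.F3R.fin1 _ _ _ hv hβ
  · obtain ⟨f1, f2, f3, f4, f5⟩ := PT.F3R.four hπ (a := b * q ^ 3) (b := p ^ 3)
      (c := -(x * b * q' ^ 3)) (d := -(x * p' ^ 3))
      (by linear_combination heq) c2 c1 c4 c3 hβ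
      (by
        intro h
        apply hξ
        linear_combination -h)
      hj hξ.symm
      (by
        intro h
        apply hβ
        linear_combination h)
      (fun h => hn1 (by rw [h.1, h.2.1, add_zero]))
    obtain ⟨g1, g2⟩ := PT.F3R.cmp hπ (A := -(x * b)) (y := p * q') (z := q * p')
      (neg_ne_zero.2 (mul_ne_zero x0 b0)) f1 f2 f3 f4 f5 (by ring) (by ring)
    have hc : ∀ i, tm π.1 B (GfE p q p' q' i) =
        -(tm π.1 (w ^ i) B + tm π.1 (-(p * q')) B) := by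
      intro i
      have gn : -(p * q') ≠ 0 := neg_ne_zero.2 g1
      have wi : w ^ i ≠ 0 := pow_ne_zero _ w0
      have hVi : V π.1 (w ^ i * -(p * q')) = V π.1 (p * q') := by
        rw [V_mul hπ wi gn, V_neg, V_eq_zero (not_dvd_of_isUnit hπ (isUnit_w.pow i)), zero_add]
      rw [skw, ← S.mul _ _ _ wi gn B0,
        S.cont (w ^ i * -(p * q')) (GfE p q p' q' i) B (mul_ne_zero wi gn) B0]
      have e : GfE p q p' q' i - w ^ i * -(p * q') = q * p' := by
        rw [hG]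
        ring
      rw [e, hVi]
      exact g2
    have hw2 : tm π.1 (w ^ 2) B = tm π.1 w B + tm π.1 w B := by
      rw [pow_two, S.mul _ _ _ w0 w0 B0]
    rw [hc, hc, hw2, pow_one, tw]
    have h6 := PT.F3R.fin2 _ _ _ (ch π.1 w) hv hβ hξ hj
    rw [← h6]
    ring

end F3E

theorem F3E_thm (hSTM : STM) : Stmt_F3E := by
  intro π B b x p q p' q' hB hb hx hs hdvd hVb hVx
  exact F3E.main hSTM π B b x p q p' q' hB.ne (hB.cf π) hb.ne hx.ne hs.eq hs.n1 hdvd hVb hVx

end Pool.Agent.PTK
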