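import Pool.Agent.PTK.StZ
import Pool.Agent.PT.F3U

/-!
# F4E: two noncubes at a place not dividing `B` (Eisenstein case)
-/

set_option autoImplicit false

namespace Pool.Agent.PTK

open Pool.Agent.Lib_helper18 Pool.Agent.Lib_helper18.Eis Pool.Agent.Lib_helper84.Cub
open Pool.Agent.PT Pool.Agent.PTE Pool.Agent.PT3 Pool.Agent.PTL Pool.Agent.PTN

theorem F4E_thm : Stmt_F4E := by
  intro π B b x p q p' q' hB hAb hAx hS hπB hcb hcx
  have hl : Prime π.1 := π.2.1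
  have h3 : ¬ π.1 ∣ 3 := by
    intro h
    have h1 := (dvd_three_iff hl).1 h
    have h2 : lam ∣ π.1 := h1.symm.dvd
    rw [lam_dvd_iff] at h2
    have h4 := π.2.2.1
    have h5 := π.2.2.2
    omega
  have hb : ¬ π.1 ∣ b := hAb.unr π hπB
  have hx : ¬ π.1 ∣ x := hAx.unr π hπB
  rw [PT.F3U.ch_eq hb] at hcb
  rw [PT.F3U.ch_eq hx] at hcx
  have hw : ¬ π.1 ∣ w := not_dvd_of_isUnit hl isUnit_w
  -- the maximal power
  have hpq : ¬ (p = 0 ∧ q = 0) := by
    rintro ⟨h1, h2⟩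
    apply hS.n1
    rw [h1, h2]
    ring
  obtain ⟨m, P, Q, P', Q', eP, eQ, eP', eQ', hn⟩ :=
    PT.F3U.exists_max (p' := p') (q' := q') hl hpq
  have heq : p ^ 3 + b * q ^ 3 = x * (p' ^ 3 + b * q' ^ 3) := hS.eq
  have heq2 : P ^ 3 + b * Q ^ 3 = x * (P' ^ 3 + b * Q' ^ 3) := by
    have h0 : (π.1 ^ m) ^ 3 ≠ 0 := pow_ne_zero _ (pow_ne_zero _ hl.ne_zero)
    apply mul_left_cancel₀ h0
    rw [eP, eQ, eP', eQ'] at heq
    linear_combination heq
  have hV : ∀ i, V π.1 (GfE p q p' q' i) = m + m := by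
    intro i
    have e1 : GfE p q p' q' i = π.1 ^ (m + m) * (Q * P' - w ^ i * P * Q') := by
      unfold GfE
      rw [eP, eQ, eP', eQ', pow_add]
      ring
    rw [e1]
    exact V_pow_mul hl _ (PT.F3U.key hl h3 hb hcb hx hcx heq2 hn i)
  have hVB : V π.1 B = 0 := V_eq_zero hπB
  have hVw : V π.1 w = 0 := V_eq_zero hw
  have hVP : V π.1 (B * x * b) = 0 := by
    apply V_eq_zero
    intro h
    rcases hl.dvd_or_dvd h with h1 | h1
    · rcases hl.dvd_or_dvd h1 with h2 | h2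
      · exact hπB h2
      · exact hx h2
    · exact hb h1
  unfold UVE tm
  rw [hV 1, hV 2, hVB, hVw, hVP]
  simp

end Pool.Agent.PTK
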