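import Pool.Agent.PTK.StL
import Pool.Agent.PT.F6R

/-!
# PTK_F6R: the local term of a point at a tame place where `x` has valuation prime to `3`
-/

set_option autoImplicit false

namespace Pool.Agent.PTK

open Pool.Agent.Lib_helper18 Pool.Agent.Lib_helper18.Eis Pool.Agent.Lib_helper84.Cub
open Pool.Agent.PT

namespace F6R

open Pool.Agent.PT.F6R

variable {π : Eis} {s : Eis → Eis → ZMod 3}

/-- `v ^ 3` dominates in `v ^ 3 - x u ^ 3`. -/
def DAE (π : Eis) (x u v : Eis) : Prop :=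
  v ≠ 0 ∧ (u = 0 ∨ 3 * V π v < V π x + 3 * V π u)

/-- `x u ^ 3` dominates in `v ^ 3 - x u ^ 3`. -/
def DBE (π : Eis) (x u v : Eis) : Prop :=
  u ≠ 0 ∧ (v = 0 ∨ V π x + 3 * V π u < 3 * V π v)

theorem cases_uvE {x u v : Eis} (h3 : ¬ 3 ∣ V π x) (huv : ¬ (u = 0 ∧ v = 0)) :
    DAE π x u v ∨ DBE π x u v := by
  by_cases hu : u = 0
  · left
    exact ⟨fun hv => huv ⟨hu, hv⟩, Or.inl hu⟩
  · by_cases hv : v = 0
    · right
      exact ⟨hu, Or.inl hv⟩
    · rcases lt_trichotomy (3 * V π v) (V π x + 3 * V π u) with h | h | h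
      · left
        exact ⟨hv, Or.inr h⟩
      · exfalso
        apply h3
        omega
      · right
        exact ⟨hu, Or.inr h⟩

theorem V_xuE (hπ : Prime π) {x u : Eis} (hx : x ≠ 0) (hu : u ≠ 0) :
    V π (x * u ^ 3) = V π x + 3 * V π u := by
  rw [V_mul hπ hx (pow_ne_zero _ hu), V_pow hπ hu]

/-- the symbol when `v ^ 3` dominates -/
theorem sym_DAE (L : LSym π s 1) {x u v : Eis} (hx : x ≠ 0) (h : DAE π x u v) {D : Eis}
    (hD : D ≠ 0) (hM : v ^ 3 - x * u ^ 3 ≠ 0) : s D (v ^ 3 - x * u ^ 3) = 0 := by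
  have h1 : v ^ 3 - x * u ^ 3 = v ^ 3 + -(x * u ^ 3) := by ring
  have hv := h.1
  rw [L.skew _ _ hM hD, h1, dom L (pow_ne_zero _ hv) hD, cube_left L hv hD, neg_zero]
  rcases h.2 with rfl | h2
  · left
    ring
  · by_cases hu : u = 0
    · left
      rw [hu]
      ring
    · right
      rw [V_neg, V_xuE L.prime hx hu, V_pow L.prime hv]
      exact h2

/-- the symbol when `x u ^ 3` dominates -/
theorem sym_DBE (L : LSym π s 1) {x u v : Eis} (hx : x ≠ 0) (h : DBE π x u v) {D : Eis}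
    (hD : D ≠ 0) (hM : v ^ 3 - x * u ^ 3 ≠ 0) :
    s D (v ^ 3 - x * u ^ 3) = s D x := by
  have h1 : v ^ 3 - x * u ^ 3 = -(x * u ^ 3) + v ^ 3 := by ring
  have hu := h.1
  have hxu : x * u ^ 3 ≠ 0 := mul_ne_zero hx (pow_ne_zero _ hu)
  rw [L.skew _ _ hM hD, h1, dom L (neg_ne_zero.mpr hxu) hD, neg_left L hxu hD,
    L.mul _ _ _ hx (pow_ne_zero _ hu) hD, cube_left L hu hD, add_zero, ← L.skew _ _ hx hD]
  rcases h.2 with hv | h2
  · left
    rw [hv]
    ring
  · by_cases hv : v = 0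
    · left
      rw [hv]
      ring
    · right
      rw [V_neg, V_xuE L.prime hx h.1, V_pow L.prime hv]
      exact h2

/-- one half of `SVE` -/
def halfE (s : Eis → Eis → ZMod 3) (X Y u v M n : Eis) : ZMod 3 :=
  s (DfE X Y u v 1) M - s (DfE X Y u v 2) M - s (DfE X Y u v 1) n + s (DfE X Y u v 2) n

/-- Case A: `X ^ 3` dominates in `n₀`. -/
theorem half_caseAE (L : LSym π s 1) {x X Y u v M : Eis} (hx : x ≠ 0) (hX : X ≠ 0) (hY : Y ≠ 0)
    (h3 : ¬ 3 ∣ V π x) (hM : v ^ 3 - x * u ^ 3 ≠ 0) (hD1 : DfE X Y u v 1 ≠ 0)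
    (hD2 : DfE X Y u v 2 ≠ 0)
    (hMs : M = v ^ 3 - x * u ^ 3 ∨ M = -(v ^ 3 - x * u ^ 3))
    (hA : 3 * V π X < V π x + 3 * V π Y)
    (hn : X ^ 3 + x * Y ^ 3 ≠ 0) : halfE s X Y u v M (X ^ 3 + x * Y ^ 3) = 0 := by
  have huv : ¬ (u = 0 ∧ v = 0) := by
    rintro ⟨rfl, rfl⟩
    apply hM
    ring
  have hMM : ∀ D : Eis, D ≠ 0 → s D M = s D (v ^ 3 - x * u ^ 3) := by
    intro D hD
    rcases hMs with rfl | rfl
    · rfl
    · exact neg_right L hM hD
  have hn0 : ∀ D : Eis, D ≠ 0 → s D (X ^ 3 + x * Y ^ 3) = 0 := by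
    intro D hD
    rw [L.skew _ _ hn hD, dom L (pow_ne_zero _ hX) hD, cube_left L hX hD, neg_zero]
    right
    rw [V_pow L.prime hX, V_xuE L.prime hx hY]
    exact hA
  unfold halfE
  rw [hn0 _ hD1, hn0 _ hD2, hMM _ hD1, hMM _ hD2]
  rcases cases_uvE h3 huv with h | h
  · rw [sym_DAE L hx h hD1 hM, sym_DAE L hx h hD2 hM]
    ring
  · rw [sym_DBE L hx h hD1 hM, sym_DBE L hx h hD2 hM]
    have hu := h.1
    have hXu : X * u ≠ 0 := mul_ne_zero hX hu
    have hs : ∀ i : ℕ, s (DfE X Y u v i) x = s (X * u) x := by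
      intro i
      unfold DfE
      apply dom L hXu hx
      rcases h.2 with hv | h2
      · left
        rw [hv]
        ring
      · by_cases hv : v = 0
        · left
          rw [hv]
          ring
        · right
          rw [mul_assoc, V_w L.prime i (mul_ne_zero hv hY),
            V_mul L.prime hX hu, V_mul L.prime hv hY]
          omega
    rw [hs 1, hs 2]
    ring

/-- Case B: `x Y ^ 3` dominates in `n₀`. -/
theorem half_caseBE (L : LSym π s 1) {x X Y u v M : Eis} (hx : x ≠ 0) (hX : X ≠ 0) (hY : Y ≠ 0)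
    (hM : v ^ 3 - x * u ^ 3 ≠ 0) (hD1 : DfE X Y u v 1 ≠ 0) (hD2 : DfE X Y u v 2 ≠ 0)
    (hMs : M = v ^ 3 - x * u ^ 3 ∨ M = -(v ^ 3 - x * u ^ 3))
    (hB : V π x + 3 * V π Y < 3 * V π X)
    (hn : X ^ 3 + x * Y ^ 3 ≠ 0) :
    (DAE π x u v → halfE s X Y u v M (X ^ 3 + x * Y ^ 3) = s w x) ∧
    (DBE π x u v → halfE s X Y u v M (X ^ 3 + x * Y ^ 3) = 0) := by
  have hMM : ∀ D : Eis, D ≠ 0 → s D M = s D (v ^ 3 - x * u ^ 3) := by
    intro D hD
    rcases hMs with rfl | rfl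
    · rfl
    · exact neg_right L hM hD
  have hn0 : ∀ D : Eis, D ≠ 0 → s D (X ^ 3 + x * Y ^ 3) = s D x := by
    intro D hD
    have hxY : x * Y ^ 3 ≠ 0 := mul_ne_zero hx (pow_ne_zero _ hY)
    have e : X ^ 3 + x * Y ^ 3 = x * Y ^ 3 + X ^ 3 := by ring
    rw [L.skew _ _ hn hD, e, dom L hxY hD, L.mul _ _ _ hx (pow_ne_zero _ hY) hD,
      cube_left L hY hD, add_zero, ← L.skew _ _ hx hD]
    right
    rw [V_pow L.prime hX, V_xuE L.prime hx hY]
    exact hB
  unfold halfE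
  rw [hn0 _ hD1, hn0 _ hD2, hMM _ hD1, hMM _ hD2]
  constructor
  · intro h
    rw [sym_DAE L hx h hD1 hM, sym_DAE L hx h hD2 hM]
    have hv := h.1
    have hw : ∀ i : ℕ, (w : Eis) ^ i ≠ 0 := fun i => pow_ne_zero _ w_ne
    have hs : ∀ i : ℕ, s (DfE X Y u v i) x = s (w ^ i) x + s v x + s Y x := by
      intro i
      have h1 : DfE X Y u v i = w ^ i * v * Y + X * u := by
        unfold DfE
        ring
      rw [h1, dom L (mul_ne_zero (mul_ne_zero (hw i) hv) hY) hx,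
        L.mul _ _ _ (mul_ne_zero (hw i) hv) hY hx, L.mul _ _ _ (hw i) hv hx]
      rcases h.2 with hu | h2
      · left
        rw [hu]
        ring
      · by_cases hu : u = 0
        · left
          rw [hu]
          ring
        · right
          rw [mul_assoc, V_w L.prime i (mul_ne_zero hv hY),
            V_mul L.prime hX hu, V_mul L.prime hv hY]
          omega
    have hw1 : s ((w : Eis) ^ 1) x = s w x := by rw [pow_one]
    have hw2 : s ((w : Eis) ^ 2) x = s w x + s w x := by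
      rw [pow_two, L.mul _ _ _ w_ne w_ne hx]
    rw [hs 1, hs 2, hw1, hw2]
    ring
  · intro h
    rw [sym_DBE L hx h hD1 hM, sym_DBE L hx h hD2 hM]
    ring

end F6R

open Pool.Agent.PT.F6R F6R in
theorem F6R_thm (hSTM : STM) : Stmt_F6R := by
  intro π b x p q p' q' X Y hb hx hSol hX hY hD h3
  have hSPPp : Prime π.1 := π.2.1
  have hπ3 : ¬ π.1 ∣ 3 := not_dvd_three π
  have L : LSym π.1 (tm π.1) 1 := hSTM π.1 hSPPp hπ3
  set s := tm π.1 with hs
  have hN1 := hSol.n2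
  have hbN : b * (x * q' ^ 3 - q ^ 3) = p ^ 3 - x * p' ^ 3 := by
    have h1 := hSol.eq
    linear_combination -h1
  have hN2 : x * q' ^ 3 - q ^ 3 ≠ 0 := by
    intro h
    apply hN1
    rw [← hbN, h, mul_zero]
  have hN2' : q ^ 3 - x * q' ^ 3 ≠ 0 := by
    intro h
    apply hN2
    linear_combination -h
  have hn : X ^ 3 + x * Y ^ 3 ≠ 0 := by
    intro h
    apply h3
    have h1 : X ^ 3 = -(x * Y ^ 3) := by
      linear_combination h
    have h2 := congrArg (V π.1) h1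
    rw [V_neg, V_pow L.prime hX, V_xuE L.prime hx hY] at h2
    omega
  have hSV : SVE s x p q p' q' X Y =
      halfE s X Y p' p (p ^ 3 - x * p' ^ 3) (X ^ 3 + x * Y ^ 3) -
        halfE s X Y q' q (x * q' ^ 3 - q ^ 3) (X ^ 3 + x * Y ^ 3) := rfl
  have hxY : x * Y ^ 3 ≠ 0 := mul_ne_zero hx (pow_ne_zero _ hY)
  rcases lt_trichotomy (3 * V π.1 X) (V π.1 x + 3 * V π.1 Y) with hA | hE | hB
  · -- case A
    have hV : V π.1 (X ^ 3 + x * Y ^ 3) = 3 * V π.1 X := by
      rw [V_dom L (pow_ne_zero _ hX), V_pow L.prime hX]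
      right
      rw [V_pow L.prime hX, V_xuE L.prime hx hY]
      exact hA
    refine ⟨fun _ => ?_, fun h => absurd (by rw [hV]; exact dvd_mul_right 3 _) h⟩
    rw [hSV, half_caseAE L hx hX hY h3 hN1 hD.d1 hD.d2 (Or.inl rfl) hA hn,
      half_caseAE L hx hX hY h3 hN2' hD.d3 hD.d4 (Or.inr (by ring)) hA hn, sub_zero]
  · exfalso
    apply h3
    omega
  · -- case B
    have hV : V π.1 (X ^ 3 + x * Y ^ 3) = V π.1 x + 3 * V π.1 Y := by
      have e : X ^ 3 + x * Y ^ 3 = x * Y ^ 3 + X ^ 3 := by ring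
      rw [e, V_dom L hxY, V_xuE L.prime hx hY]
      right
      rw [V_pow L.prime hX, V_xuE L.prime hx hY]
      exact hB
    refine ⟨fun h => absurd ?_ h3, fun _ => ?_⟩
    · rw [hV] at h
      exact (Nat.dvd_add_left (dvd_mul_right 3 _)).mp h
    · have huv1 : ¬ (p' = 0 ∧ p = 0) := by
        rintro ⟨rfl, rfl⟩
        apply hN1
        ring
      have huv2 : ¬ (q' = 0 ∧ q = 0) := by
        rintro ⟨rfl, rfl⟩
        apply hN2
        ring
      obtain ⟨a1, a2⟩ := half_caseBE L hx hX hY hN1 hD.d1 hD.d2 (Or.inl rfl) hB hn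
      obtain ⟨b1, b2⟩ := half_caseBE L hx hX hY hN2' hD.d3 hD.d4
        (M := x * q' ^ 3 - q ^ 3) (Or.inr (by ring)) hB hn
      have hwb : s w b = s w (p ^ 3 - x * p' ^ 3) - s w (q ^ 3 - x * q' ^ 3) := by
        have h1 : p ^ 3 - x * p' ^ 3 = -(b * (q ^ 3 - x * q' ^ 3)) := by
          rw [← hbN]
          ring
        rw [h1, neg_right L (mul_ne_zero hb hN2') w_ne,
          L.skew _ _ (mul_ne_zero hb hN2') w_ne, L.mul _ _ _ hb hN2' w_ne,
          L.skew w _ w_ne hb, L.skew w _ w_ne hN2']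
        ring
      rw [hSV, hwb]
      rcases cases_uvE h3 huv1 with h | h
      · rcases cases_uvE h3 huv2 with h' | h'
        · rw [a1 h, b1 h', sym_DAE L hx h w_ne hN1, sym_DAE L hx h' w_ne hN2']
          ring
        · rw [a1 h, b2 h', sym_DAE L hx h w_ne hN1, sym_DBE L hx h' w_ne hN2']
          ring
      · rcases cases_uvE h3 huv2 with h' | h'
        · rw [a2 h, b1 h', sym_DBE L hx h w_ne hN1, sym_DAE L hx h' w_ne hN2']
          ring
        · rw [a2 h, b2 h', sym_DBE L hx h w_ne hN1, sym_DBE L hx h' w_ne hN2']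
          ring

end Pool.Agent.PTK
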