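import Pool.Agent.PTK.StL
import Pool.Agent.PT.F7U

/-!
# PTK_F7U: the local term of a point at a tame place where `x` has valuation divisible by `3` and is
not a cube.
-/

set_option autoImplicit false

namespace Pool.Agent.PTK

open Pool.Agent.Lib_helper18 Pool.Agent.Lib_helper18.Eis Pool.Agent.Lib_helper84.Cub
open Pool.Agent.PT

theorem F7U_thm (hSTM : STM) : Stmt_F7U := by
  intro π b x p q p' q' X Y hb hx hs hX hY hD hV hc
  have h3 := Pool.Agent.PT.F7U.pp_not_dvd_three π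
  have hπ := π.2.1
  have S := hSTM π.1 hπ h3
  have hN2 : x * q' ^ 3 - q ^ 3 ≠ 0 := by
    intro h
    apply hs.n2
    have e : p ^ 3 - x * p' ^ 3 = b * (x * q' ^ 3 - q ^ 3) := by linear_combination hs.eq
    rw [e, h, mul_zero]
  have h1 := Pool.Agent.PT.F7U.half hπ h3 S x X Y p p' hx hV hc hX hY hs.n2 hD.d1 hD.d2
  have hqE : q ^ 3 - x * q' ^ 3 ≠ 0 := by
    intro h
    apply hN2
    linear_combination -h
  have h2 := Pool.Agent.PT.F7U.half hπ h3 S x X Y q q' hx hV hc hX hY hqE hD.d3 hD.d4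
  have hneg : ∀ D : Eis, tm π.1 D (x * q' ^ 3 - q ^ 3) = tm π.1 D (q ^ 3 - x * q' ^ 3) := by
    intro D
    have e : x * q' ^ 3 - q ^ 3 = -(q ^ 3 - x * q' ^ 3) := by ring
    rw [e]
    unfold tm
    rw [V_neg, Pool.Agent.PT.F7U.ch_neg hπ h3 S hqE]
  unfold SVE DfE
  rw [hneg, hneg, h1, h2, sub_zero]

end Pool.Agent.PTK
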