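import Pool.Agent.PTK.StZ2
import Pool.Agent.PTN.CBE

/-! PTK_FB (helper13): the law in a class, both residue classes, upper and lower bounds. -/

set_option autoImplicit false

open Finset

namespace Pool.Agent.PTK

open Pool.Agent.Lib_helper18 Pool.Agent.Lib_helper18.Eis Pool.Agent.Lib_helper84.Cub
open Pool.Agent.PT Pool.Agent.PTE Pool.Agent.PT3 Pool.Agent.PTL Pool.Agent.PTN

namespace FB

theorem Esk_compl (s : ℕ) (G : ℕ → ℝ) : Esk s (fun x => 1 - G x) = 1 - Esk s G := by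
  classical
  unfold Esk
  have : Nonempty {M : Matrix (Fin s) (Fin s) (ZMod 3) // M.transpose = -M} :=
    ⟨⟨0, by simp⟩⟩
  have h0 : (Fintype.card {M : Matrix (Fin s) (Fin s) (ZMod 3) // M.transpose = -M} : ℝ) ≠ 0 := by
    exact_mod_cast Fintype.card_ne_zero
  rw [finsum_eq_sum_of_fintype, finsum_eq_sum_of_fintype, Nat.card_eq_fintype_card,
    Finset.sum_sub_distrib, sub_div, Finset.sum_const, nsmul_eq_mul, mul_one, Finset.card_univ,
    div_self h0]

theorem EsD_compl (v s t : ℕ) : EsD v s (fun x => if x < t then 1 else 0) =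
    1 - EsD v s (fun x => if t ≤ x then 1 else 0) := by
  unfold EsD
  rw [← Esk_compl]
  congr 1
  funext x
  rw [← Esk_compl]
  congr 1
  funext y
  show (if x + y < t then (1 : ℝ) else 0) = 1 - (if t ≤ x + y then (1 : ℝ) else 0)
  by_cases h : x + y < t
  · rw [if_pos h, if_neg (not_le.2 h), sub_zero]
  · rw [if_neg h, if_pos (not_lt.1 h), sub_self]

theorem mono (t : ℕ) : Monotone fun x : ℕ => (if t ≤ x then (1 : ℝ) else 0) := by
  intro a b hab
  show (if t ≤ a then (1 : ℝ) else 0) ≤ if t ≤ b then (1 : ℝ) else 0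
  split_ifs
  · exact le_rfl
  · omega
  · norm_num
  · exact le_rfl

theorem nonneg (t : ℕ) : (0 : ℝ) ≤ if t ≤ 0 then (1 : ℝ) else 0 := by
  split_ifs <;> norm_num

theorem hBB (h n E q : ℕ) : ((3 ^ h * n : ℕ) : ℤ) * (q : ℤ) ^ E = BB h n E q := by
  unfold BB
  push_cast
  rfl

/-- the lower bound from the upper bound -/
theorem low (hUPL : Stmt_UPL) (hCLT : Stmt_CLT) (hSPP : SPP)
    {h n m k : ℕ} {π : Fin m → PP} {p e : Fin m → ℕ} {r f : Fin k → ℕ}
    {w0 : ZMod 3} {c : Fin m → ZMod 3} (hN : NF n π p e r f) {a v s t : ℕ} (ha : a = 1 ∨ a = 2)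
    (R : ℤ → Prop)
    (hR : ∀ A : ℤ, A ≠ 0 → CubeRank.GenBy A (CubeRank.rr A) → CubeRank.rr A < t → R A)
    (hgen : ∃ M : ℕ, ∀ E q : ℕ, (E = 1 ∨ E = 2) → q.Prime → M < q → q % 3 = a →
      InCT E π w0 c q → ∃ d, CubeRank.GenBy (BB h n E q) d)
    (hU : UpS (fun E => {q | q % 3 = a ∧ InCT E π w0 c q})
      (fun E q => (if t ≤ CubeRank.rr (BB h n E q) then (1 : ℝ) else 0))
      (EsD v s (fun x => if t ≤ x then 1 else 0) / 3 ^ (m + 1))) :
    BelowA ((3 ^ h * n : ℕ) : ℤ) a (Kl π w0 c) (fun A => tf (R A))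
      (EsD v s (fun x => if x < t then 1 else 0) / 3 ^ (m + 1)) := by
  obtain ⟨M, hM⟩ := hgen
  have key := hUPL ((3 ^ h * n : ℕ) : ℤ) a (M + ∑ i, p i) (Kl π w0 c) R
    (fun E => {q | q % 3 = a ∧ InCT E π w0 c q})
    (fun E q => (if t ≤ CubeRank.rr (BB h n E q) then (1 : ℝ) else 0))
    (EsD v s (fun x => if t ≤ x then 1 else 0) / 3 ^ (m + 1)) (1 / 3 ^ (m + 1)) 1 zero_le_one
    (fun E q hE hq hqM hqS => by
      have hp : ∀ i, p i < q := by
        intro i
        have := Finset.single_le_sum (f := p) (fun j _ => Nat.zero_le _) (Finset.mem_univ i)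
        omega
      exact ⟨hqS.1, CBE.kl_of hSPP hN hq hp hqS.2⟩)
    (fun E q hE hq hqM hqS => by
      rw [hBB]
      show 1 - (if t ≤ CubeRank.rr (BB h n E q) then (1 : ℝ) else 0) ≤ tf (R (BB h n E q))
      unfold tf
      by_cases hlt : t ≤ CubeRank.rr (BB h n E q)
      · rw [if_pos hlt, sub_self]
        split_ifs <;> norm_num
      · obtain ⟨d, hd⟩ := hM E q hE hq (by omega) hqS.1 hqS.2
        have hRB : R (BB h n E q) := by
          refine hR _ ?_ (CubeRank.gen_rr hd) (not_le.1 hlt)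
          unfold BB
          refine mul_ne_zero (mul_ne_zero (pow_ne_zero _ (by norm_num)) ?_) (pow_ne_zero _ ?_)
          · exact_mod_cast CBE.n_ne hN
          · exact_mod_cast hq.ne_zero
        rw [if_neg hlt, if_pos hRB, sub_zero])
    (by
      obtain ⟨K, hK⟩ := hCLT m π p hN.pp hN.p1 hN.pπ hN.pinj w0 c a ha
      exact ⟨K, fun σ h1 h2 => (hK σ h1 h2).1⟩)
    hU
  have e1 : EsD v s (fun x => if x < t then 1 else 0) / 3 ^ (m + 1) =
      1 * (1 / 3 ^ (m + 1)) - EsD v s (fun x => if t ≤ x then 1 else 0) / 3 ^ (m + 1) := by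
    rw [EsD_compl, one_mul, sub_div]
  rw [e1]
  exact key

end FB

/-- PTK_FB. -/
theorem FB_thm (hFL2 : Stmt_FL2) (hFL1 : Stmt_FL1) (hUPA : Stmt_UPA) (hUPL : Stmt_UPL)
    (hCLT : Stmt_CLT) (hCLN : Stmt_CLN) (hCLU : Stmt_CLU) (hSPP : SPP) : Stmt_FB := by
  intro h n m k π p e r f w0 c hN hh a ha
  have hup : ∀ F : ℕ → ℝ, Monotone F → 0 ≤ F 0 →
      UpS (fun E => {q | q % 3 = a ∧ InCT E π w0 c q}) (fun E q => F (CubeRank.rr (BB h n E q)))
        (EsD (vN h n π p e r w0 c) (sN h n π p e r w0 c + if a = 1 then 1 else 0) F /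
          3 ^ (m + 1)) := by
    intro F hF hF0
    rcases ha with rfl | rfl
    · rw [if_pos rfl]
      exact hFL1 h n m k π p e r f w0 c hN hh F hF hF0
    · rw [if_neg (by norm_num), add_zero]
      exact hFL2 h n m k π p e r f w0 c hN hh F hF hF0
  refine ⟨fun F hF hF0 => ?_, fun t R hR => ?_⟩
  · exact hUPA h n m k π p e r f w0 c a (fun A => F (CubeRank.rr A)) _ hN (hup F hF hF0)
  · refine FB.low hUPL hCLT hSPP hN ha R hR ?_ (hup _ (FB.mono t) (FB.nonneg t))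
    rcases ha with rfl | rfl
    · obtain ⟨⟨M, hM⟩, -⟩ := hCLU h n m k π p e r f w0 c hN hh
      exact ⟨M, fun E q hE hq hqM hq3 hqc => ⟨_, hM E q hE hq hqM hq3 hqc⟩⟩
    · obtain ⟨⟨M, hM⟩, -⟩ := hCLN h n m k π p e r f w0 c hN hh
      exact ⟨M, fun E q hE hq hqM hq3 hqc => ⟨_, hM E q hE hq hqM hq3 hqc⟩⟩

end Pool.Agent.PTK
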