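import Pool.Agent.PTK.StZ2
import Pool.Agent.PTK.AM1

/-! PTK_FL1 (helper25): the law in a class, `q = 1 (mod 3)`. -/

set_option autoImplicit false

open Finset

namespace Pool.Agent.PTK

open Pool.Agent.Lib_helper18 Pool.Agent.Lib_helper18.Eis Pool.Agent.Lib_helper84.Cub
open Pool.Agent.PT Pool.Agent.PTE Pool.Agent.PT3 Pool.Agent.PTL Pool.Agent.PTN

namespace FL1

lemma Esk_lin (s : ℕ) (A B : ℕ → ℝ) (a b : ℝ) :
    Esk s (fun x => a * A x + b * B x) = a * Esk s A + b * Esk s B := by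
  classical
  unfold Esk
  have : Fintype {M : Matrix (Fin s) (Fin s) (ZMod 3) // M.transpose = -M} :=
    Fintype.ofFinite _
  rw [finsum_eq_sum_of_fintype, finsum_eq_sum_of_fintype, finsum_eq_sum_of_fintype,
    Finset.sum_add_distrib, ← Finset.mul_sum, ← Finset.mul_sum]
  ring

lemma alg (e1 e2 x y : ℝ) (hx : x ≠ 0) (hy : y ≠ 0) :
    ((x - 1) * (e1 * (2 / x / y)) + 2 * (e2 * (1 / x / y))) / 2 =
      ((1 - 1 / x) * e1 + 1 / x * e2) / y := by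
  field_simp

end FL1

/-- PTK_FL1: the law in a class, `q = 1 (mod 3)`. -/
theorem FL1_thm (hUPS : Stmt_UPS) (hNHPT : Stmt_NHPT) (hPLU : Stmt_PLU) (hPLE : Stmt_PLE)
    (hNBU : Stmt_NBU) (hNBX : Stmt_NBX) (hPAT : Stmt_PAT) (hZPV : Stmt_ZPV) (hESZ : Stmt_ESZ)
    (hZBA : Stmt_ZBA) (hMSF : Stmt_MSF) (hCNM : Stmt_CNM) (hZKQ : Stmt_ZKQ)
    (hJDG : Stmt_JDG) (hJDZ : Stmt_JDZ) : Stmt_FL1 := by
  intro h n m k π p e r f w0 c hN hh F hF hF0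
  obtain ⟨d, v, hd, hHB⟩ := hNHPT h n m k π p e r f w0 c hN hh
  have hHB' : HB h n π w0 c v := hHB
  have hn : 0 < n := by
    rw [hN.eq]
    refine Nat.mul_pos (Finset.prod_pos fun i _ => pow_pos (hN.pp i).pos _)
      (Finset.prod_pos fun j _ => pow_pos (hN.rp j).pos _)
  choose s τ b X Y P Q P' Q' hPl using fun δ : {δ : Fin d → ZMod 3 // δ ≠ 0} =>
    hPLU h n m k π p e r f w0 c d v hN hh hHB' δ.1 δ.2
  obtain ⟨s₀, τ₀, b₀, X₀, Y₀, P₀, Q₀, P₀', Q₀', hs₀, hPl₀⟩ := hPLE h n m k π p e r f w0 c hN hh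
  have hsd : s₀ = d := hs₀.trans hd.symm
  subst hsd
  obtain ⟨M, hM⟩ := hPAT s₀ v (fun i => (hHB.1 i).1.ne)
  obtain ⟨M₁, hM₁⟩ := hZPV h n m k π p e r f w0 c s₀ τ₀ b₀ X₀ Y₀ P₀ Q₀ P₀' Q₀' s₀ v hN hh hPl₀ hHB'
  obtain ⟨l, y, hy⟩ := hZBA h n m k π p e r w0 c hh
  obtain ⟨U, V, U', V', hU⟩ := hMSF h n m k π p e r f w0 c hN hh l y hy
  obtain ⟨NN, α, β, hαβ⟩ := hCNM.1 l
  obtain ⟨N₀, hN₀⟩ := hZKQ h n m k π p e r f w0 c hN hh l y U V U' V' hy hU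
  have hMn : MnS h n π p e r w0 c y U V U' V' α β := ⟨hy, hU, hαβ⟩
  set S : ℕ → Set ℕ := fun E => {q | q % 3 = 1 ∧ InCT E π w0 c q} with hS
  set κ : {δ : Fin s₀ → ZMod 3 // δ ≠ 0} → ℕ → ℕ → ℕ := fun δ E q =>
    kU h n (b δ) (X δ) (Y δ) (P δ) (Q δ) (P' δ) (Q' δ) E q with hκ
  set κ₀ : ℕ → ℕ → ℕ := fun E q => kS h n b₀ X₀ Y₀ P₀ Q₀ P₀' Q₀' E q with hκ₀
  set ky : ℕ → ℕ → ℕ := fun E q => kY h n π e y U V U' V' E q with hky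
  set R : ℕ → ℕ → ℕ := fun E q => CubeRank.rr (BB h n E q) with hR
  set TP : {δ : Fin s₀ → ZMod 3 // δ ≠ 0} → ℕ → Set ℕ := fun δ E =>
    {q | q % 3 = 1 ∧ InCT E π w0 c q ∧ q ∈ Pat v δ.1} with hTP
  set TZ : ℕ → Set ℕ := fun E => {q | q % 3 = 1 ∧ InCT E π w0 c q ∧ q ∈ ZP b₀} with hTZ
  have main : ∀ E q, (E = 1 ∨ E = 2) → q.Prime → M + M₁ + n + 3 + N₀ < q → q ∈ S E →
      ∃ w, (fun E q => 3 ^ ky E q) E q = 3 ^ w ∧ ((q ∈ TZ E ∧ R E q ≤ w + (κ₀ E q + 1)) ∨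
        ∃ δ δ' : {δ : Fin s₀ → ZMod 3 // δ ≠ 0}, δ ≠ δ' ∧
        q ∈ TP δ E ∧ q ∈ TP δ' E ∧ R E q ≤ w + κ δ E q ∧ R E q ≤ w + κ δ' E q) := by
    intro E q hE hq hMq hqS
    have hqn : ¬ q ∣ n := fun hdvd => by
      have := Nat.le_of_dvd hn hdvd
      omega
    have hw : Nat.log 3 (Nat.card (WqS h n π p e r w0 c (BB h n E q))) ≤ ky E q :=
      (hN₀ E q hE hq (by omega) (Or.inl hqS.1) hqS.2).2
    refine ⟨ky E q, rfl, ?_⟩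
    rcases hM q hq (by omega) hqS.1 with hZ | ⟨δ, δ', hδ, hδ', hne, hP, hP'⟩
    · left
      have hZ' : q ∈ ZP b₀ := hM₁ q hq (by omega) hZ
      refine ⟨⟨hqS.1, hqS.2, hZ'⟩, ?_⟩
      have g := hNBX h n m k π p e r f w0 c s₀ τ₀ b₀ X₀ Y₀ P₀ Q₀ P₀' Q₀' E q hN hh hPl₀ hE hq
        (by omega) hqS.1 hqS.2 hqn hZ'
      have g2 := CubeRank.rr_le g
      show CubeRank.rr (BB h n E q) ≤ ky E q + (kS h n b₀ X₀ Y₀ P₀ Q₀ P₀' Q₀' E q + 1)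
      omega
    · right
      refine ⟨⟨δ, hδ⟩, ⟨δ', hδ'⟩, fun hh => hne (congrArg Subtype.val hh), ⟨hqS.1, hqS.2, hP⟩,
        ⟨hqS.1, hqS.2, hP'⟩, ?_, ?_⟩
      · have g := hNBU h n m k π p e r f w0 c s₀ v δ _ _ _ _ _ _ _ _ _ E q hN hh hδ (hPl ⟨δ, hδ⟩)
          hE hq (by omega) hqS.1 hqS.2 hqn hP
        exact (CubeRank.rr_le g).trans (Nat.add_le_add_right hw _)
      · have g := hNBU h n m k π p e r f w0 c s₀ v δ' _ _ _ _ _ _ _ _ _ E q hN hh hδ'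
          (hPl ⟨δ', hδ'⟩) hE hq (by omega) hqS.1 hqS.2 hqn hP'
        exact (CubeRank.rr_le g).trans (Nat.add_le_add_right hw _)
  have hmo : ∀ i a : ℕ, Monotone fun b : ℕ => F (a + b + i) :=
    fun i a x x' hx => hF (by omega)
  have hnn : ∀ a, 0 ≤ F a := fun a => hF0.trans (hF (Nat.zero_le _))
  have hA := fun δ : {δ : Fin s₀ → ZMod 3 // δ ≠ 0} =>
    hJDG h n m k π p e r f w0 c s₀ v δ.1 _ _ _ _ _ _ _ _ _ hN hh δ.2 (hPl δ) l NN y U V U' V'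
      α β hMn (fun a b => F (a + b)) (hmo 0) (fun a => hnn _)
  have hZ := hJDZ h n m k π p e r f w0 c s₀ τ₀ b₀ X₀ Y₀ P₀ Q₀ P₀' Q₀' hN hh hPl₀ l NN y U V U' V'
      α β hMn (fun a b => F (a + b + 1)) (hmo 1) (fun a => hnn _)
  have h3d : (3 : ℝ) ^ s₀ ≠ 0 := by positivity
  have h3m : (3 : ℝ) ^ (m + 1) ≠ 0 := by positivity
  have hlog : ∀ a : ℕ, Nat.log 3 (3 ^ a) = a := fun a => Nat.log_pow (by norm_num) a
  have g := AM1.gen hUPS S TP TZ R (fun E q => 3 ^ ky E q) κ κ₀ (M + M₁ + n + 3 + N₀) main F hF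
    (fun a b => F (Nat.log 3 a + b)) (fun a b => hnn _)
    (fun w a => by
      show F (w + a) ≤ F (Nat.log 3 (3 ^ w) + a)
      rw [hlog])
    (x := Esk l (fun a => Esk (s₀ - 1) (fun b => F (a + b))) * (2 / 3 ^ s₀ / 3 ^ (m + 1)))
    (y := Esk l (fun a => Esk s₀ (fun b => F (a + b + 1))) * (1 / 3 ^ s₀ / 3 ^ (m + 1)))
    (fun δ => by
      have a1 := hA δ
      simp only [hlog]
      exact a1)
    (by
      simp only [hlog]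
      exact hZ)
  rw [FL1.alg _ _ _ _ h3d h3m] at g
  have e1 : (1 - 1 / (3 : ℝ) ^ s₀) * Esk l (fun a => Esk (s₀ - 1) (fun b => F (a + b))) +
      1 / 3 ^ s₀ * Esk l (fun a => Esk s₀ (fun b => F (a + b + 1))) =
      EsD (vN h n π p e r w0 c) (sN h n π p e r w0 c + 1) F := by
    rw [← FL1.Esk_lin, ← hy.card, ← hd]
    unfold EsD
    congr 1
    funext a
    exact hESZ s₀ (fun b => F (a + b))
  rw [e1] at g
  exact g

end Pool.Agent.PTK
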