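import Pool.Agent.PTK.StZ2
import Pool.Agent.PTK.AV2

/-! PTK_FL2 (helper33): the law in a class, `q = 2 (mod 3)`. -/

set_option autoImplicit false

open Finset

namespace Pool.Agent.PTK

open Pool.Agent.Lib_helper18 Pool.Agent.Lib_helper18.Eis Pool.Agent.Lib_helper84.Cub
open Pool.Agent.PT Pool.Agent.PTE Pool.Agent.PT3 Pool.Agent.PTL Pool.Agent.PTN

theorem FL2_thm (hUPS : Stmt_UPS) (hPLE : Stmt_PLE) (hZBA : Stmt_ZBA) (hMSF : Stmt_MSF)
    (hCNM : Stmt_CNM) (hNBW : Stmt_NBW) (hZKQ : Stmt_ZKQ) (hJD2 : Stmt_JD2) : Stmt_FL2 := by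
  intro h n m k π p e r f w0 c hN hh F hF hF0
  obtain ⟨s, τ, b, X, Y, P, Q, P', Q', hs, hS⟩ := hPLE h n m k π p e r f w0 c hN hh
  obtain ⟨l, y, hy⟩ := hZBA h n m k π p e r w0 c hh
  obtain ⟨U, R, U', R', hU⟩ := hMSF h n m k π p e r f w0 c hN hh l y hy
  obtain ⟨N, α, β, hαβ⟩ := hCNM.1 l
  obtain ⟨N₀, hN₀⟩ := hZKQ h n m k π p e r f w0 c hN hh l y U R U' R' hy hU
  have hJ := hJD2 h n m k π p e r f w0 c s τ b X Y P Q P' Q' hN hh hS l N y U R U' R' α β
    ⟨hy, hU, hαβ⟩ (fun a b => F (a + b)) (fun a x x' hx => hF (by omega))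
    (fun a => hF0.trans (hF (Nat.zero_le _)))
  have key := hUPS.1 Unit (fun E => {q | q % 3 = 2 ∧ InCT E π w0 c q})
    (fun E q => F (CubeRank.rr (BB h n E q)))
    (fun _ => fun E => {q | q % 3 = 2 ∧ InCT E π w0 c q})
    (fun _ E q => F (kY h n π e y U R U' R' E q + kS h n b X Y P Q P' Q' E q))
    (fun _ => Esk l (fun a => Esk s (fun b => F (a + b))) / 3 ^ (m + 1)) 1
    (max (max 3 n) N₀) one_pos
    (fun i E q => hF0.trans (hF (Nat.zero_le _)))
    (fun E q hE hq hM hqS => by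
      rw [Fintype.sum_unique, if_pos hqS, one_mul]
      have h3 : 3 < q := lt_of_le_of_lt ((le_max_left _ _).trans (le_max_left _ _)) hM
      have hnq : n < q := lt_of_le_of_lt ((le_max_right _ _).trans (le_max_left _ _)) hM
      have hN0q : N₀ < q := lt_of_le_of_lt (le_max_right _ _) hM
      have hdv : ¬ q ∣ n := fun hd => absurd (Nat.le_of_dvd (AV2.nf_pos hN) hd) (by omega)
      have hg := CubeRank.rr_le (hNBW h n m k π p e r f w0 c s τ b X Y P Q P' Q' E q hN hh hS.adm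
        hS.sys hS.sw hS.lam hS.gen hE hq h3 hqS.1 hqS.2 hdv)
      have hk := (hN₀ E q hE hq hN0q (Or.inr hqS.1) hqS.2).2
      refine hF (hg.trans ?_)
      exact Nat.add_le_add_right hk _)
    (fun i => hJ)
  rw [Fintype.sum_unique, div_one] at key
  rw [← hs, ← hy.card]
  exact key

end Pool.Agent.PTK
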