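import Pool.Agent.PTK.StG
import Pool.Agent.PT.GC

/-!
# The average rank of prime twists: the commutators in the governing field over `K`
-/

set_option autoImplicit false

open NumberField IsDedekindDomain Finset
open scoped nonZeroDivisors Pointwise

namespace Pool.Agent.PTK

open Pool.Agent.Lib_helper18 Pool.Agent.Lib_helper18.Eis Pool.Agent.Lib_helper84.Cub
open Pool.Agent.PT Pool.Agent.PTL

namespace GCK

section alg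

variable {L : Type} [Field L]

theorem om (ι : Eis →+* L) : ι w ^ 2 + ι w + 1 = 0 := by
  have h := congrArg ι w_rel
  rwa [map_add, map_add, map_pow, map_one, map_zero] at h

/-- the norm form -/
theorem nrm (ι : Eis →+* L) {ρ : L} {x : Eis} (hρ : ρ ^ 3 = ι x) (p q : Eis) :
    (ι p + ι q * ρ) * ((ι p + ι q * ι w * ρ) * (ι p + ι q * ι w ^ 2 * ρ)) =
      ι (p ^ 3 + x * q ^ 3) := by
  rw [map_add, map_mul, map_pow, map_pow, ← hρ]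
  linear_combination (ι p ^ 2 * ι q * ρ + ι p * ι q ^ 2 * ρ ^ 2 * ι w +
    ι q ^ 3 * ρ ^ 3 * (ι w - 1)) * om ι

end alg

section aut

variable {L : Type} [Field L] [NumberField L]

theorem fix {ι : Eis →+* L} {g : L ≃ₐ[ℚ] L} (hg : g (ι w) = ι w) (a : Eis) : g (ι a) = ι a := by
  rw [eq_re_add_im a, map_add, map_mul, map_add, map_mul, hg]
  simp only [map_intCast]

theorem cj {ι : Eis →+* L} {g : L ≃ₐ[ℚ] L} (hg : g (ι w) = ι w ^ 2) (a : Eis) :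
    g (ι a) = ι (conj a) := by
  conv_lhs => rw [eq_re_add_im a, map_add, map_mul, map_add, map_mul, hg]
  conv_rhs => rw [eq_re_add_im a, map_add, map_mul, map_add, map_mul, conj_w, map_pow]
  simp only [map_intCast]

/-- the nonvanishing of the linear forms -/
def Nz (ι : Eis →+* L) (x p q p' q' : Eis) : Prop := ∀ ρ : L, ρ ^ 3 = ι x →
  aDE ι p q p' q' ρ ≠ 0 ∧ aNE ι p q p' q' ρ ≠ 0

theorem root_mul (ι : Eis →+* L) {ρ : L} {x : Eis} (hρ : ρ ^ 3 = ι x) : (ι w * ρ) ^ 3 = ι x := by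
  rw [mul_pow, GC.om3 (om ι), one_mul, hρ]

theorem ne3 {ι : Eis →+* L} {x p q p' q' : Eis} (h : Nz ι x p q p' q') {ρ : L}
    (hρ : ρ ^ 3 = ι x) :
    (ι p + ι q * ρ) ≠ 0 ∧ (ι p + ι q * ι w * ρ) ≠ 0 ∧ (ι p + ι q * ι w ^ 2 * ρ) ≠ 0 ∧
      (ι p' + ι q' * ρ) ≠ 0 ∧ (ι p' + ι q' * ι w * ρ) ≠ 0 ∧
      (ι p' + ι q' * ι w ^ 2 * ρ) ≠ 0 := by
  have hc := GC.om3 (om ι)
  obtain ⟨h1, h2⟩ := h ρ hρ
  obtain ⟨h3, h4⟩ := h (ι w * ρ) (root_mul ι hρ)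
  unfold aDE at h1 h3
  unfold aNE at h2 h4
  refine ⟨?_, left_ne_zero_of_mul h1, left_ne_zero_of_mul h2, ?_, right_ne_zero_of_mul h2,
    right_ne_zero_of_mul h1⟩
  · have h5 := left_ne_zero_of_mul h4
    have e : ι p + ι q * ι w ^ 2 * (ι w * ρ) = ι p + ι q * ρ := by
      linear_combination (ι q * ρ) * hc
    rwa [e] at h5
  · have h5 := right_ne_zero_of_mul h3
    have e : ι p' + ι q' * ι w ^ 2 * (ι w * ρ) = ι p' + ι q' * ρ := by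
      linear_combination (ι q' * ρ) * hc
    rwa [e] at h5

/-- an automorphism fixing `ω` and `ρ` acts by a root of unity on `A` -/
theorem fixA {ι : Eis →+* L} {x p q p' q' : Eis} (hnz : Nz ι x p q p' q') {ρ A : L}
    (h : L ≃ₐ[ℚ] L) (hρ : ρ ^ 3 = ι x) (hhω : h (ι w) = ι w) (hhρ : h ρ = ρ)
    (hA : A ^ 3 * aDE ι p q p' q' ρ = aNE ι p q p' q' ρ) : ∃ e : ℕ, h A = ι w ^ e * A := by
  have hD := (hnz ρ hρ).1
  have h1 : h (aDE ι p q p' q' ρ) = aDE ι p q p' q' ρ := by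
    unfold aDE
    simp only [map_mul, map_add, map_pow, fix hhω, hhρ]
  have h2 : h (aNE ι p q p' q' ρ) = aNE ι p q p' q' ρ := by
    unfold aNE
    simp only [map_mul, map_add, map_pow, fix hhω, hhρ]
  have h3 := congrArg h hA
  rw [map_mul, map_pow, h1, h2, ← hA] at h3
  exact GC.cube_eq (om ι) (mul_right_cancel₀ hD h3)

/-- an automorphism fixing `ω` and mapping `ρ` to `ωρ` -/
theorem movA {ι : Eis →+* L} {x b p q p' q' : Eis} (hnz : Nz ι x p q p' q') {ρ t A : L}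
    (g : L ≃ₐ[ℚ] L) (hρ : ρ ^ 3 = ι x) (ht : t ^ 3 = ι b) (hs : SolE x b p q p' q')
    (hgω : g (ι w) = ι w) (hgρ : g ρ = ι w * ρ)
    (hA : A ^ 3 * aDE ι p q p' q' ρ = aNE ι p q p' q' ρ) :
    ∃ e : ℕ, g A * (ι p + ι q * ι w ^ 2 * ρ) =
      ι w ^ e * (A * t * (ι p' + ι q' * ι w ^ 2 * ρ)) := by
  have h3 := congrArg g hA
  have hN := nrm ι hρ p q
  have hN' := nrm ι hρ p' q'
  obtain ⟨n1, n2, n3, n4, n5, n6⟩ := ne3 hnz hρ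
  have hnz' := mul_ne_zero n4 n2
  unfold aDE aNE at h3 hA
  simp only [map_mul, map_pow, map_add, fix hgω, hgρ] at h3
  have hc := GC.om3 (om ι)
  have h4 : g A ^ 3 * ((ι p + ι q * ι w ^ 2 * ρ) * (ι p' + ι q' * ρ)) =
      (ι p + ι q * ρ) * (ι p' + ι q' * ι w ^ 2 * ρ) := by
    have e1 : ι p + ι q * ι w * (ι w * ρ) = ι p + ι q * ι w ^ 2 * ρ := by ring
    have e2 : ι p' + ι q' * ι w ^ 2 * (ι w * ρ) = ι p' + ι q' * ρ := by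
      linear_combination (ι q' * ρ) * hc
    have e3 : ι p + ι q * ι w ^ 2 * (ι w * ρ) = ι p + ι q * ρ := by
      linear_combination (ι q * ρ) * hc
    have e4 : ι p' + ι q' * ι w * (ι w * ρ) = ι p' + ι q' * ι w ^ 2 * ρ := by ring
    rw [e1, e2, e3, e4] at h3
    exact h3
  have heq : ι (p ^ 3 + x * q ^ 3) = ι b * ι (p' ^ 3 + x * q' ^ 3) := by
    rw [hs.eq, map_mul]
  rw [← hN, ← hN'] at heq
  apply GC.cube_eq (om ι)
  apply mul_right_cancel₀ hnz'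
  rw [mul_pow, mul_pow, mul_pow, ht]
  calc g A ^ 3 * (ι p + ι q * ι w ^ 2 * ρ) ^ 3 * ((ι p' + ι q' * ρ) * (ι p + ι q * ι w * ρ))
      = (g A ^ 3 * ((ι p + ι q * ι w ^ 2 * ρ) * (ι p' + ι q' * ρ))) *
          ((ι p + ι q * ι w ^ 2 * ρ) ^ 2 * (ι p + ι q * ι w * ρ)) := by ring
    _ = (ι p + ι q * ρ) * ((ι p + ι q * ι w * ρ) * (ι p + ι q * ι w ^ 2 * ρ)) *
          ((ι p' + ι q' * ι w ^ 2 * ρ) * (ι p + ι q * ι w ^ 2 * ρ)) := by rw [h4]; ring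
    _ = (A ^ 3 * ((ι p + ι q * ι w * ρ) * (ι p' + ι q' * ι w ^ 2 * ρ))) *
          (ι b * ((ι p' + ι q' * ι w ^ 2 * ρ) ^ 2 * (ι p' + ι q' * ρ))) := by rw [heq, hA]; ring
    _ = A ^ 3 * ι b * (ι p' + ι q' * ι w ^ 2 * ρ) ^ 3 * ((ι p' + ι q' * ρ) *
          (ι p + ι q * ι w * ρ)) := by ring

theorem mv {ι : Eis →+* L} {x b p q p' q' : Eis} (hnz : Nz ι x p q p' q') {ρ t A : L}
    (g h : L ≃ₐ[ℚ] L) (c : ℕ) (hρ : ρ ^ 3 = ι x) (ht : t ^ 3 = ι b) (hs : SolE x b p q p' q')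
    (hgω : g (ι w) = ι w) (hhω : h (ι w) = ι w) (hgρ : g ρ = ι w * ρ)
    (hhρ : h ρ = ρ) (hht : h t = ι w ^ c * t)
    (hA : A ^ 3 * aDE ι p q p' q' ρ = aNE ι p q p' q' ρ) :
    h (g A) = ι w ^ c * g (h A) := by
  obtain ⟨e, he⟩ := movA hnz g hρ ht hs hgω hgρ hA
  obtain ⟨e', he'⟩ := fixA hnz h hρ hhω hhρ hA
  have hnz' := (ne3 hnz hρ).2.2.1
  apply mul_right_cancel₀ hnz'
  have h1 := congrArg h he
  simp only [map_mul, map_pow, map_add, fix hhω, hhρ, hht, he'] at h1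
  rw [h1, he']
  simp only [map_mul, map_pow, hgω]
  linear_combination (- ι w ^ c * ι w ^ e') * he

/-- the action of an automorphism on the roots -/
def Act {s : ℕ} (ι : Eis →+* L) (x : Eis) (b : Fin s → Eis) (a₀ : ZMod 3) (a : Fin s → ZMod 3)
    (g : L ≃ₐ[ℚ] L) : Prop :=
  g (ι w) = ι w ∧ (∀ ρ : L, ρ ^ 3 = ι x → g ρ = ι w ^ a₀.val * ρ) ∧
    ∀ (j : Fin s) (ρ : L), ρ ^ 3 = ι (b j) → g ρ = ι w ^ (a j).val * ρ

/-- the action of the conjugate on a root -/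
theorem cjr {ι : Eis →+* L} {g σ : L ≃ₐ[ℚ] L} (hg : g (ι w) = ι w ^ 2) (hσ : σ (ι w) = ι w)
    {y t : Eis} (hy : y * conj y = t ^ 3) {ρ : L} (hρ : ρ ^ 3 = ι y) {a : ℕ}
    (ha : σ ρ = ι w ^ a * ρ) : (g⁻¹ * σ * g) ρ = ι w ^ a * ρ := by
  rcases eq_or_ne ρ 0 with rfl | h0
  · rw [map_zero, mul_zero]
  have h1 : (g ρ * ρ) ^ 3 = (ι t) ^ 3 := by
    rw [mul_pow, ← map_pow, hρ, cj hg, ← map_mul, mul_comm (conj y), hy, map_pow]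
  obtain ⟨k, hk⟩ := GC.cube_eq (om ι) h1
  have hk' : g ρ * ρ = ι (w ^ k * t) := by rw [hk, map_mul, map_pow]
  have h2 : σ (g ρ) * (ι w ^ a * ρ) = g ρ * ρ := by
    rw [← ha, ← map_mul, hk', fix hσ]
  have h3 : σ (g ρ) * ι w ^ a = g ρ := by
    apply mul_right_cancel₀ h0
    rw [← h2]
    ring
  have hc := GC.om3 (om ι)
  have h4 : σ (g ρ) = g (ι w ^ a * ρ) := by
    rw [map_mul, map_pow, hg, ← h3]
    have h5 : (ι w ^ 2) ^ a * (σ (g ρ) * ι w ^ a) = (ι w ^ 3) ^ a * σ (g ρ) := by ring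
    rw [h3] at h5 ⊢
    rw [h5, hc, one_pow, one_mul]
  rw [AlgEquiv.mul_apply, AlgEquiv.mul_apply, h4, ← AlgEquiv.mul_apply, inv_mul_cancel]
  rfl

theorem cjAct {s : ℕ} {ι : Eis →+* L} {x : Eis} {b : Fin s → Eis} {a₀ : ZMod 3}
    {a : Fin s → ZMod 3} {g σ : L ≃ₐ[ℚ] L} (hg : g (ι w) = ι w ^ 2)
    (hx : ∃ t : Eis, x * conj x = t ^ 3) (hb : ∀ j, ∃ t : Eis, b j * conj (b j) = t ^ 3)
    (h : Act ι x b a₀ a σ) : Act ι x b a₀ a (g⁻¹ * σ * g) := by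
  refine ⟨?_, fun ρ hρ => ?_, fun j ρ hρ => ?_⟩
  · have h1 : σ (ι w ^ 2) = ι w ^ 2 := by rw [map_pow, h.1]
    rw [AlgEquiv.mul_apply, AlgEquiv.mul_apply, hg, h1, ← hg, ← AlgEquiv.mul_apply,
      inv_mul_cancel]
    rfl
  · obtain ⟨t, ht⟩ := hx
    exact cjr hg h.1 ht hρ (h.2.1 ρ hρ)
  · obtain ⟨t, ht⟩ := hb j
    exact cjr hg h.1 ht hρ (h.2.2 j ρ hρ)

/-- the commutator -/
theorem com {s : ℕ} {ι : Eis →+* L} {x : Eis} {b p q p' q' : Fin s → Eis}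
    {v : Fin s → ZMod 3} (hsol : ∀ j, SolE x (b j) (p j) (q j) (p' j) (q' j))
    (hnz : ∀ j, Nz ι x (p j) (q j) (p' j) (q' j)) (hr : ∀ j, ∃ θ : L, θ ^ 3 = ι (b j))
    {σ τ : L ≃ₐ[ℚ] L} (hσ : Act ι x b 1 0 σ) (hτ : Act ι x b 0 v τ) (j : Fin s) (ρ A : L)
    (hρ : ρ ^ 3 = ι x)
    (hA : A ^ 3 * aDE ι (p j) (q j) (p' j) (q' j) ρ = aNE ι (p j) (q j) (p' j) (q' j) ρ) :
    ((σ * τ)⁻¹ * (τ * σ)) A = ι w ^ (v j).val * A := by
  obtain ⟨θ, hθ⟩ := hr j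
  apply GC.comm_apply σ τ _ hσ.1 hτ.1
  refine mv (hnz j) σ τ _ hρ hθ (hsol j) hσ.1 hτ.1 ?_ ?_ (hτ.2.2 j θ hθ) hA
  · rw [hσ.2.1 ρ hρ, show (1 : ZMod 3).val = 1 from rfl, pow_one]
  · rw [hτ.2.1 ρ hρ, ZMod.val_zero, pow_zero, one_mul]

end aut

theorem val_neg : ∀ v : ZMod 3, (2 * v.val) % 3 = (-v).val % 3 := by decide

end GCK

/-- the commutators in the governing field over `K` -/
theorem GCK_thm (hGKK : Stmt_GKK) : Stmt_GCK := by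
  intro s x b p q p' q' f L _ _ ζ ι hS hG v
  have hω := GCK.om ι
  have hf : 0 < f := by
    rcases Nat.eq_zero_or_pos f with h | h
    · exfalso
      have h1 := hG.hω
      rw [h, Nat.zero_div, pow_zero] at h1
      rw [h1] at hω
      norm_num at hω
    · exact h
  obtain ⟨σ, hσ⟩ := hGKK s x b p q p' q' f L ζ ι hS hG 1 0
  obtain ⟨τ, hτ⟩ := hGKK s x b p q p' q' f L ζ ι hS hG 0 v
  have hσ' : GCK.Act ι x b 1 0 σ := hσ
  have hτ' : GCK.Act ι x b 0 v τ := hτ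
  have hnz : ∀ j, GCK.Nz ι x (p j) (q j) (p' j) (q' j) := fun j ρ hρ => hG.D j ρ hρ
  refine ⟨(σ * τ)⁻¹ * (τ * σ), ?_, fun ρ hρ => ?_, fun j ρ hρ => ?_, fun j ρ A hρ hA => ⟨?_, ?_⟩⟩
  · have hz : ∀ g : L ≃ₐ[ℚ] L, ∃ i : ℕ, g ζ = ζ ^ i := by
      intro g
      have h1 : (g ζ) ^ f = 1 := by rw [← map_pow, hG.prim.pow_eq_one, map_one]
      haveI : NeZero f := ⟨hf.ne'⟩
      obtain ⟨i, _, hi⟩ := hG.prim.eq_pow_of_pow_eq_one h1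
      exact ⟨i, hi.symm⟩
    obtain ⟨i, hi⟩ := hz σ
    obtain ⟨j, hj⟩ := hz τ
    have h1 : τ (σ ζ) = ι w ^ 0 * σ (τ ζ) := by
      rw [hi, hj, map_pow, map_pow, hi, hj, pow_zero, one_mul, ← pow_mul, ← pow_mul, mul_comm]
    rw [GC.comm_apply σ τ 0 hσ'.1 hτ'.1 ζ h1, pow_zero, one_mul]
  · have h1 : τ (σ ρ) = ι w ^ 0 * σ (τ ρ) := by
      rw [hσ'.2.1 ρ hρ, hτ'.2.1 ρ hρ, map_mul, map_mul, map_pow, map_pow, hσ'.1, hτ'.1,
        hσ'.2.1 ρ hρ, hτ'.2.1 ρ hρ]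
      ring
    rw [GC.comm_apply σ τ 0 hσ'.1 hτ'.1 ρ h1, pow_zero, one_mul]
  · have h1 : τ (σ ρ) = ι w ^ 0 * σ (τ ρ) := by
      rw [hσ'.2.2 j ρ hρ, hτ'.2.2 j ρ hρ, map_mul, map_mul, map_pow, map_pow, hσ'.1, hτ'.1,
        hσ'.2.2 j ρ hρ, hτ'.2.2 j ρ hρ]
      ring
    rw [GC.comm_apply σ τ 0 hσ'.1 hτ'.1 ρ h1, pow_zero, one_mul]
  · exact GCK.com hS.sol hnz hG.rb hσ' hτ' j ρ A hρ hA
  · intro g hg
    have h1 := GCK.com hS.sol hnz hG.rb (GCK.cjAct hg hS.cx hS.cb hσ')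
      (GCK.cjAct hg hS.cx hS.cb hτ') j ρ A hρ hA
    have h2 : ((g⁻¹ * σ * g) * (g⁻¹ * τ * g))⁻¹ * ((g⁻¹ * τ * g) * (g⁻¹ * σ * g)) =
        g⁻¹ * ((σ * τ)⁻¹ * (τ * σ)) * g := by group
    rw [h2] at h1
    have h3 := congrArg g h1
    rw [← AlgEquiv.mul_apply, ← mul_assoc, ← mul_assoc, mul_inv_cancel, one_mul,
      AlgEquiv.mul_apply, map_mul, map_pow, hg, ← pow_mul] at h3
    rw [h3, pow_eq_pow_mod _ (GC.om3 hω), GCK.val_neg, ← pow_eq_pow_mod _ (GC.om3 hω)]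

end Pool.Agent.PTK
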