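import Pool.Agent.PTK.StG
import Pool.Agent.PTK.GCK
import Pool.Agent.PT.GALD

/-!
# The average rank of prime twists: summary of the governing field over `K`
-/

set_option autoImplicit false

open NumberField IsDedekindDomain Finset
open scoped nonZeroDivisors Pointwise

namespace Pool.Agent.PTK

open Pool.Agent.Lib_helper18 Pool.Agent.Lib_helper18.Eis Pool.Agent.Lib_helper84.Cub
open Pool.Agent.PT Pool.Agent.PTL

namespace GAK

variable {L : Type} [Field L] [NumberField L]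

/-- an automorphism fixes or squares `ω` -/
theorem cases_om (ι : Eis →+* L) (τ : L ≃ₐ[ℚ] L) : τ (ι w) = ι w ∨ τ (ι w) = ι w ^ 2 := by
  have h := GCK.om ι
  have h1 := congrArg τ h
  rw [map_add, map_add, map_pow, map_one, map_zero] at h1
  have hc := GC.om3 h
  have h2 : (τ (ι w) - ι w) * (τ (ι w) - ι w ^ 2) = 0 := by
    linear_combination h1 + hc - τ (ι w) * h
  rcases mul_eq_zero.1 h2 with h3 | h3
  · exact Or.inl (sub_eq_zero.1 h3)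
  · exact Or.inr (sub_eq_zero.1 h3)

theorem om4 (ι : Eis →+* L) : (ι w ^ 2) ^ 2 = ι w := by
  have hc := GC.om3 (GCK.om ι)
  linear_combination ι w * hc

theorem fxk_conj0 {s : ℕ} {x : Eis} {b : Fin s → Eis} {ι : Eis →+* L} {g τ : L ≃ₐ[ℚ] L}
    (hτ : τ (ι w) = ι w) (h : FxK x b ι g) : FxK x b ι (τ * g * τ⁻¹) := by
  have hτ' : τ⁻¹ (ι w) = ι w := by
    conv_lhs => rw [← hτ]
    rw [← AlgEquiv.mul_apply, inv_mul_cancel]
    rfl
  have key : ∀ y : Eis, (∀ ρ : L, ρ ^ 3 = ι y → g (g ρ) = ρ) →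
      ∀ ρ : L, ρ ^ 3 = ι y → (τ * g * τ⁻¹) ((τ * g * τ⁻¹) ρ) = ρ := by
    intro y hy ρ hρ
    have h1 : (τ⁻¹ ρ) ^ 3 = ι y := by rw [← map_pow, hρ, GCK.fix hτ']
    have h2 := hy _ h1
    have h3 : (τ * g * τ⁻¹) ((τ * g * τ⁻¹) ρ) = τ (g (g (τ⁻¹ ρ))) := by
      rw [← AlgEquiv.mul_apply, show (τ * g * τ⁻¹) * (τ * g * τ⁻¹) = τ * (g * (g * τ⁻¹)) by group]
      rfl
    rw [h3, h2, ← AlgEquiv.mul_apply, mul_inv_cancel]
    rfl
  exact ⟨key x h.1, fun j => key (b j) (h.2 j)⟩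

theorem fxk_conj {s : ℕ} {x : Eis} {b : Fin s → Eis} {ι : Eis →+* L} {g : L ≃ₐ[ℚ] L}
    (τ : L ≃ₐ[ℚ] L) (hg : g (ι w) = ι w ^ 2) (h : FxK x b ι g) :
    FxK x b ι (τ * g * τ⁻¹) := by
  rcases cases_om ι τ with hτ | hτ
  · exact fxk_conj0 hτ h
  · have h1 : g (ι w ^ 2) = ι w := by rw [map_pow, hg, om4]
    have h2 : g⁻¹ (ι w) = ι w ^ 2 := by
      conv_lhs => rw [← h1]
      rw [← AlgEquiv.mul_apply, inv_mul_cancel]
      rfl
    have h3 : (τ * g⁻¹) (ι w) = ι w := by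
      rw [AlgEquiv.mul_apply, h2, map_pow, hτ, om4]
    have h4 := fxk_conj0 h3 h
    rwa [show (τ * g⁻¹) * g * (τ * g⁻¹)⁻¹ = τ * g * τ⁻¹ by group] at h4

theorem pow_fix {g : L ≃ₐ[ℚ] L} {ρ : L} (h : (g * g) ρ = ρ) (k : ℕ) : ((g * g) ^ k) ρ = ρ := by
  induction k with
  | zero => rfl
  | succ k ih => rw [pow_succ, AlgEquiv.mul_apply, h, ih]

theorem fxk_pow {s : ℕ} {x : Eis} {b : Fin s → Eis} {ι : Eis →+* L} {g : L ≃ₐ[ℚ] L}
    (h : FxK x b ι g) (k : ℕ) : FxK x b ι (g ^ k) := by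
  have key : ∀ ρ : L, g (g ρ) = ρ → (g ^ k) ((g ^ k) ρ) = ρ := by
    intro ρ hρ
    rw [← AlgEquiv.mul_apply, ← (Commute.refl g).mul_pow k]
    exact pow_fix hρ k
  exact ⟨fun ρ hρ => key ρ (h.1 ρ hρ), fun j ρ hρ => key ρ (h.2 j ρ hρ)⟩

/-- `z` fixes `ω` and the roots, `g² = 1` on the roots: then `z` fixes `g ρ` -/
theorem fix_g {ι : Eis →+* L} {g z : L ≃ₐ[ℚ] L} (hg : g (ι w) = ι w ^ 2) (hz : z (ι w) = ι w)
    {y t : Eis} (hy : y * conj y = t ^ 3) {ρ : L} (hρ : ρ ^ 3 = ι y) (hzρ : z ρ = ρ) :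
    z (g ρ) = g ρ := by
  rcases eq_or_ne ρ 0 with rfl | h0
  · rw [map_zero, map_zero]
  have h1 : (g ρ * ρ) ^ 3 = (ι t) ^ 3 := by
    rw [mul_pow, ← map_pow, hρ, GCK.cj hg, ← map_mul, mul_comm (conj y), hy, map_pow]
  obtain ⟨k, hk⟩ := GC.cube_eq (GCK.om ι) h1
  have hk' : g ρ * ρ = ι (w ^ k * t) := by rw [hk, map_mul, map_pow]
  apply mul_right_cancel₀ h0
  calc z (g ρ) * ρ = z (g ρ) * z ρ := by rw [hzρ]
    _ = g ρ * ρ := by rw [← map_mul, hk', GCK.fix hz]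

theorem fxk_mul {s : ℕ} {x : Eis} {b : Fin s → Eis} {ι : Eis →+* L} {g z : L ≃ₐ[ℚ] L}
    (hx : ∃ t : Eis, x * conj x = t ^ 3) (hb : ∀ j, ∃ t : Eis, b j * conj (b j) = t ^ 3)
    (hg : g (ι w) = ι w ^ 2) (hz : z (ι w) = ι w) (hzx : ∀ ρ : L, ρ ^ 3 = ι x → z ρ = ρ)
    (hzb : ∀ (j : Fin s) (ρ : L), ρ ^ 3 = ι (b j) → z ρ = ρ) (h : FxK x b ι g) :
    FxK x b ι (g * z) := by
  refine ⟨fun ρ hρ => ?_, fun j ρ hρ => ?_⟩
  · obtain ⟨t, ht⟩ := hx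
    rw [AlgEquiv.mul_apply, AlgEquiv.mul_apply, hzx ρ hρ, fix_g hg hz ht hρ (hzx ρ hρ)]
    exact h.1 ρ hρ
  · obtain ⟨t, ht⟩ := hb j
    rw [AlgEquiv.mul_apply, AlgEquiv.mul_apply, hzb j ρ hρ, fix_g hg hz ht hρ (hzb j ρ hρ)]
    exact h.2 j ρ hρ

theorem inv_fix {z : L ≃ₐ[ℚ] L} {y : L} (h : z y = y) : z⁻¹ y = y := by
  conv_lhs => rw [← h]
  rw [← AlgEquiv.mul_apply, inv_mul_cancel]
  rfl

theorem val_calc : ∀ c d : ZMod 3,
    (2 * (2 * c.val + (-c).val) + d.val) % 3 = (d - c).val % 3 := by decide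

end GAK

theorem GAK_thm (hGZK : Stmt_GZK) (hGCHI : GCHI) (hGTK : Stmt_GTK) (hGCK : Stmt_GCK)
    (hGFK : Stmt_GFK) : Stmt_GAK := by
  classical
  intro s x b p q p' q' f hSys hf h9
  obtain ⟨L, hF, hN, ζ, ι, hG⟩ := hGZK s x b p q p' q' f hSys hf h9
  haveI := hG.gal
  obtain ⟨χ, hχs, hχζ, hχF⟩ := hGCHI L f ζ hf hG.prim
  obtain ⟨N₀, hFr⟩ := hGFK s x b p q p' q' f L ζ ι hSys hG
  have hω3 : ι w ^ 3 = 1 := GC.om3 (GCK.om ι)
  have hf1 : 1 < f := by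
    obtain ⟨c, hc⟩ := h9
    omega
  have hT := hGTK s x b p q p' q' f L ζ ι hSys hG
  -- action on ω
  have hM : ∀ g : L ≃ₐ[ℚ] L, M2 (χ g) → g (ι w) = ι w ^ 2 := by
    intro g hg
    rw [hG.hω, map_pow, hχζ g, ← pow_mul, mul_comm, pow_mul, ← hG.hω]
    apply GALD.om_congr hω3
    unfold M2 at hg
    omega
  let F : (L ≃ₐ[ℚ] L) → Prop := fun g => g (ι w) = ι w ^ 2 ∧ FxK x b ι g
  let t : (L ≃ₐ[ℚ] L) → Fin s → ZMod 3 := fun g j =>
    if h : F g then ((hT j).1 g h.1 h.2).choose else 0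
  have ht : ∀ (g : L ≃ₐ[ℚ] L) (j : Fin s), F g → IsTK x p q p' q' ι g j (t g j) := by
    intro g j h
    have e : t g j = ((hT j).1 g h.1 h.2).choose := dif_pos h
    rw [e]
    exact ((hT j).1 g h.1 h.2).choose_spec.1
  have htu : ∀ (g : L ≃ₐ[ℚ] L) (j : Fin s) (c : ZMod 3), F g →
      IsTK x p q p' q' ι g j c → t g j = c := by
    intro g j c h hc
    exact ((hT j).1 g h.1 h.2).unique (ht g j h) hc
  have hconj : ∀ g τ : L ≃ₐ[ℚ] L, F g → (τ * g * τ⁻¹) (ι w) = ι w ^ 2 := by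
    intro g τ hg
    rcases GAK.cases_om ι τ with hτ | hτ
    · rw [AlgEquiv.mul_apply, AlgEquiv.mul_apply, GAK.inv_fix hτ, hg.1, map_pow, hτ]
    · have h2 : τ⁻¹ (ι w) = ι w ^ 2 := by
        have h1 : τ (ι w ^ 2) = ι w := by rw [map_pow, hτ, GAK.om4]
        conv_lhs => rw [← h1]
        rw [← AlgEquiv.mul_apply, inv_mul_cancel]
        rfl
      rw [AlgEquiv.mul_apply, AlgEquiv.mul_apply, h2, map_pow, hg.1, GAK.om4, hτ]
  refine ⟨L, hF, hN, hG.gal, χ, F, t, N₀, hχs, ?_, ?_, ?_, ?_⟩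
  · intro g τ _ hg
    have hF' : F (τ * g * τ⁻¹) := ⟨hconj g τ hg, GAK.fxk_conj τ hg.1 hg.2⟩
    refine ⟨hF', funext fun j => ?_⟩
    exact htu _ _ _ hF' ((hT j).2.1 g τ _ hg.1 hg.2 (ht g j hg)).2
  · intro g k _ hg hk
    have hF' : F (g ^ k) := by
      refine ⟨?_, GAK.fxk_pow hg.2 k⟩
      rw [GALD.pow_om hω3 g hg.1 k]
      apply GALD.om_congr hω3
      rw [GALD.two_pow_odd hk]
    refine ⟨hF', funext fun j => ?_⟩
    rw [Pi.smul_apply, smul_eq_mul]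
    exact htu _ _ _ hF' ((hT j).2.2 g _ k hg.1 hg.2 hk (ht g j hg)).2
  · intro a v v' ha
    obtain ⟨z, hzζ, hzx, hzb, hzA⟩ := hGCK s x b p q p' q' f L ζ ι hSys hG
      (fun j => v j - v' j)
    have hzω : z (ι w) = ι w := by rw [hG.hω, map_pow, hzζ]
    have hχz : χ z = 1 := by
      have h1 := hχζ z
      rw [hzζ] at h1
      haveI : NeZero f := ⟨hf.ne'⟩
      have h2 : ((χ z : ZMod f)).val = 1 := by
        apply hG.prim.pow_inj (ZMod.val_lt _) hf1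
        rw [← h1, pow_one]
      apply Units.ext
      have h3 := ZMod.natCast_zmod_val (χ z : ZMod f)
      rw [h2] at h3
      rw [← h3]
      simp
    have hFz : ∀ g : L ≃ₐ[ℚ] L, F g → F (g * z) := by
      intro g hg
      refine ⟨?_, GAK.fxk_mul hSys.cx hSys.cb hg.1 hzω hzx hzb hg.2⟩
      rw [AlgEquiv.mul_apply, hzω, hg.1]
    have hFz' : ∀ g : L ≃ₐ[ℚ] L, F (g * z) → F g := by
      intro g hg
      have h1 : F (g * z * z⁻¹) := by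
        refine ⟨?_, GAK.fxk_mul hSys.cx hSys.cb hg.1 (GAK.inv_fix hzω)
          (fun ρ hρ => GAK.inv_fix (hzx ρ hρ)) (fun j ρ hρ => GAK.inv_fix (hzb j ρ hρ)) hg.2⟩
        rw [AlgEquiv.mul_apply, GAK.inv_fix hzω, hg.1]
      rwa [mul_inv_cancel_right] at h1
    have key : ∀ g : L ≃ₐ[ℚ] L, F g → ∀ j, t (g * z) j = t g j - (v j - v' j) := by
      intro g hg j
      apply htu _ _ _ (hFz g hg)
      intro ρ A hρ hA
      obtain ⟨h1, h2⟩ := hzA j ρ A hρ hA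
      have h3 := h2 g hg.1
      have h4 := ht g j hg ρ A hρ hA
      rw [AlgEquiv.mul_apply, AlgEquiv.mul_apply, h1, map_mul, map_pow, hg.1, map_mul, map_pow,
        map_pow, hzω, h3, map_mul, map_mul, map_pow, map_pow, map_pow, hg.1, h4]
      rw [← mul_assoc, ← mul_assoc, ← pow_mul, ← pow_mul, ← pow_mul, ← pow_add, ← pow_add]
      congr 1
      apply GALD.om_congr hω3
      have h5 := GAK.val_calc (v j - v' j) (t g j)
      omega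
    apply Nat.card_congr
    refine Equiv.subtypeEquiv (Equiv.mulRight z) ?_
    intro g
    have hχ : χ (g * z) = χ g := by rw [map_mul, hχz, mul_one]
    show (χ g = a ∧ F g ∧ t g = v) ↔ (χ (g * z) = a ∧ F (g * z) ∧ t (g * z) = v')
    rw [hχ]
    constructor
    · rintro ⟨h1, h2, h3⟩
      refine ⟨h1, hFz g h2, funext fun j => ?_⟩
      rw [key g h2 j, h3]
      ring
    · rintro ⟨h1, h2, h3⟩
      refine ⟨h1, hFz' g h2, funext fun j => ?_⟩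
      have h4 := congrFun h3 j
      rw [key g (hFz' g h2) j] at h4
      linear_combination h4
  · intro Q hQ hQp hN₀ P g hP hQP hst
    haveI := hP
    obtain ⟨h1, h2⟩ := hFr Q hQp hN₀ P hP hQP
    obtain ⟨k, hk, hfr⟩ := h1 g hst
    refine ⟨k, hk, hχF Q hQ hQp P (g ^ k) hP hQP hfr, ?_⟩
    intro hQ3 hx hb
    obtain ⟨h3, h4⟩ := h2 (g ^ k) hfr hQ3
    obtain ⟨h5, h6⟩ := h4 hx hb
    refine ⟨⟨h3, h5⟩, fun j r hr => ?_⟩
    exact h6 j r _ hr (ht (g ^ k) j ⟨h3, h5⟩)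

end Pool.Agent.PTK
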