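import Pool.Agent.PTK.StG

/-!
# PTK, module GFK: Frobenius elements and `t` (helper92)

Model: `PT/GFR.lean`.
-/

set_option autoImplicit false

open NumberField IsDedekindDomain Finset
open scoped nonZeroDivisors Pointwise

namespace Pool.Agent.PTK

open Pool.Agent.Lib_helper18 Pool.Agent.Lib_helper18.Eis Pool.Agent.Lib_helper84.Cub
open Pool.Agent.PT Pool.Agent.PTL

namespace GFK

theorem hom_eq {S : Type*} [CommRing S] (κ : Eis →+* S) (a : Eis) :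
    κ a = (a.re : S) + (a.im : S) * κ w := by
  have h : a = (a.re : Eis) + (a.im : Eis) * w := by
    ext <;> simp
  conv_lhs => rw [h]
  rw [map_add, map_mul, map_intCast, map_intCast]

theorem hom_rel {S : Type*} [CommRing S] (κ : Eis →+* S) : κ w ^ 2 + κ w + 1 = 0 := by
  have := congrArg κ w_rel
  rwa [map_add, map_add, map_pow, map_one, map_zero] at this

theorem lf_prod (p q r : Eis) : LfE p q 0 r * LfE p q 1 r * LfE p q 2 r =
    p ^ 3 + q ^ 3 * r ^ 3 := by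
  have h1 := w_rel
  have h2 := w_cube
  simp only [LfE]
  linear_combination (p ^ 2 * q * r + p * q ^ 2 * r ^ 2) * h1 +
    (p * q ^ 2 * r ^ 2 + q ^ 3 * r ^ 3) * h2

/-- the linear forms are prime to `Q` -/
theorem lf_not_dvd {Q : ℕ} {x p q r : Eis} (hb : ¬ (Q : Eis) ∣ p ^ 3 + x * q ^ 3)
    (hr : (Q : Eis) ∣ r ^ 3 - x) : ¬ (Q : Eis) ∣ LfE p q 1 r ∧ ¬ (Q : Eis) ∣ LfE p q 2 r := by
  have key : ¬ (Q : Eis) ∣ LfE p q 0 r * LfE p q 1 r * LfE p q 2 r := by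
    rw [lf_prod]
    intro h
    refine hb ?_
    have h2 : p ^ 3 + x * q ^ 3 = p ^ 3 + q ^ 3 * r ^ 3 - (r ^ 3 - x) * q ^ 3 := by ring
    rw [h2]
    exact dvd_sub h (Dvd.dvd.mul_right hr _)
  exact ⟨fun h => key (Dvd.dvd.mul_right (Dvd.dvd.mul_left h _) _),
    fun h => key (Dvd.dvd.mul_left h _)⟩

theorem N_Q (Q : ℕ) : N (Q : Eis) = Q * Q := by
  have h3 := N_cast (Q : Eis)
  rw [Eis.norm_natCast] at h3
  have h4 : ((N (Q : Eis) : ℕ) : ℤ) = ((Q * Q : ℕ) : ℤ) := by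
    rw [h3]
    push_cast
    ring
  exact_mod_cast h4

theorem not_dvd_of_lt {Q : ℕ} {z : Eis} (hz : z ≠ 0) (h : N z < Q) : ¬ (Q : Eis) ∣ z := by
  rintro ⟨d, rfl⟩
  have hd : d ≠ 0 := by
    rintro rfl
    exact hz (mul_zero _)
  have h1 := N_pos hd
  rw [N_mul, N_Q] at h
  rcases Nat.eq_zero_or_pos Q with h0 | h0
  · rw [h0] at h
    omega
  · have h2 : 1 ≤ Q * N d := Nat.mul_pos h0 h1
    nlinarith

/-- the general comparison modulo `P` -/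
theorem key {L : Type} [Field L] [NumberField L] {Q : ℕ} (hQ : Q.Prime)
    {P : Ideal (𝓞 L)} (hP : P.IsPrime) (hQP : (Q : 𝓞 L) ∈ P) (hQ3 : Q % 3 = 2)
    {φ : L ≃ₐ[ℚ] L} (hφ : IsArithFrobAt ℤ φ P) (κ : Eis →+* 𝓞 L) {E : Eis}
    (hE : ¬ (Q : Eis) ∣ E) {y : 𝓞 L}
    (hy : Ideal.Quotient.mk P y ^ 3 = Ideal.Quotient.mk P (κ E)) {k : ℕ}
    (hk : φ • (φ • y) = κ w ^ k * y) : (k : ZMod 3) = sym (Q : Eis) E := by
  have hfin := GFR.quo_finite hQ hP hQP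
  have hmax : P.IsMaximal :=
    Ideal.Quotient.maximal_of_isField _ (Finite.isField_of_domain (𝓞 L ⧸ P))
  let _ : Field (𝓞 L ⧸ P) := Ideal.Quotient.field P
  have hq := prime_inert hQ hQ3
  have hq3 := n3 hQ hQ3
  let ψ : Eis →+* 𝓞 L ⧸ P := (Ideal.Quotient.mk P).comp κ
  set z : 𝓞 L ⧸ P := ψ w with hz
  have hzrel : z ^ 2 + z + 1 = 0 := hom_rel ψ
  have hz3 := GFR.omega_cube hzrel
  have h3Q : ¬ (Q : ℤ) ∣ 3 := by
    intro h3
    have h4 : Q ∣ 3 := by exact_mod_cast h3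
    have h5 := (Nat.prime_dvd_prime_iff_eq hQ Nat.prime_three).1 h4
    omega
  have hz1 : z ≠ 1 := by
    intro h3
    rw [h3] at hzrel
    refine h3Q ((GFR.int_mk hQ hP hQP 3).1 ?_)
    push_cast
    linear_combination hzrel
  have hψQ : ψ (Q : Eis) = 0 := by
    rw [map_natCast, ← map_natCast (Ideal.Quotient.mk P)]
    exact Ideal.Quotient.eq_zero_iff_mem.2 hQP
  have hsym := map_pow_eq hq hq3 hE ψ hψQ
  set a := Ideal.Quotient.mk P y with ha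
  have hmkA : a ^ 3 = ψ E := hy
  rw [← hmkA, ← hz] at hsym
  have hN := N_Q Q
  have hM : 3 * ((N (Q : Eis) - 1) / 3) + 1 = Q * Q := by
    rw [three_mul_div hq hq3, hN]
  have ha0 : a ≠ 0 := by
    intro h3
    rw [h3] at hsym
    have h5 : 0 < (N (Q : Eis) - 1) / 3 := by
      have h6 := hQ.two_le
      by_contra h7
      have h8 : (N (Q : Eis) - 1) / 3 = 0 := by omega
      rw [h8] at hM
      nlinarith
    have h6 : z ≠ 0 := by
      intro h7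
      rw [h7] at hz3
      norm_num at hz3
    rw [zero_pow (by norm_num), zero_pow h5.ne'] at hsym
    exact pow_ne_zero _ h6 hsym.symm
  have hfinal : z ^ k = z ^ (sym (Q : Eis) E).val := by
    have h3 := congrArg (Ideal.Quotient.mk P) hk
    have h4 : Ideal.Quotient.mk P (κ w) = z := rfl
    rw [GFR.frob_mk hQ hP hQP hφ, GFR.frob_mk hQ hP hQP hφ, map_mul, map_pow, h4, ← ha, ← pow_mul,
      ← hM, pow_succ, pow_mul, hsym] at h3
    exact (mul_right_cancel₀ ha0 h3).symm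
  have horder : orderOf z = 3 := by
    have := Fact.mk Nat.prime_three
    exact orderOf_eq_prime hz3 hz1
  have h3 := IsPrimitiveRoot.orderOf z
  rw [horder] at h3
  rw [GFR.pow_mod3 hz3 k] at hfinal
  have h4 : k % 3 = (sym (Q : Eis) E).val :=
    h3.pow_inj (Nat.mod_lt k (by norm_num)) (ZMod.val_lt _) hfinal
  rw [← ZMod.natCast_mod k 3, h4, ZMod.natCast_val, ZMod.cast_id', id_eq]

theorem cube_eq {F : Type*} [Field F] {ω y ρ : F} (hω : ω ^ 2 + ω + 1 = 0)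
    (h : y ^ 3 = ρ ^ 3) : y = ρ ∨ y = ω * ρ ∨ y = ω ^ 2 * ρ := by
  have hω3 := GFR.omega_cube hω
  have h2 : (y - ρ) * ((y - ω * ρ) * (y - ω ^ 2 * ρ)) = 0 := by
    linear_combination h + (-y ^ 2 * ρ + y * ρ ^ 2) * hω + (y * ρ ^ 2 - ρ ^ 3) * hω3
  rcases mul_eq_zero.1 h2 with h3 | h3
  · exact Or.inl (sub_eq_zero.1 h3)
  rcases mul_eq_zero.1 h3 with h4 | h4
  · exact Or.inr (Or.inl (sub_eq_zero.1 h4))
  · exact Or.inr (Or.inr (sub_eq_zero.1 h4))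

/-- the lift of `ι` to the ring of integers -/
theorem exists_lift {L : Type} [Field L] [NumberField L] (ι : Eis →+* L) :
    ∃ κ : Eis →+* 𝓞 L, ∀ a, ((κ a : 𝓞 L) : L) = ι a := by
  let ωB : 𝓞 L := ⟨ι w, GFR.isIntegral_omega (hom_rel ι)⟩
  have hωB : ωB ^ 2 + ωB + 1 = 0 := by
    apply RingOfIntegers.coe_injective
    change ι w ^ 2 + ι w + 1 = 0
    exact hom_rel ι
  refine ⟨GFR.lift ωB hωB, fun a => ?_⟩
  have h1 := hom_eq ((algebraMap (𝓞 L) L).comp (GFR.lift ωB hωB)) a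
  have h2 := hom_eq ι a
  have h3 : ((algebraMap (𝓞 L) L).comp (GFR.lift ωB hωB)) w = ι w := by
    rw [RingHom.comp_apply, GFR.lift_w]
    rfl
  rw [h3] at h1
  rw [h2, ← h1]
  rfl

section Main

variable {L : Type} [Field L] [NumberField L] {Q : ℕ} (hQ : Q.Prime)
    {P : Ideal (𝓞 L)} (hP : P.IsPrime) (hQP : (Q : 𝓞 L) ∈ P) (hQ3 : Q % 3 = 2)
    {φ : L ≃ₐ[ℚ] L} (hφ : IsArithFrobAt ℤ φ P) (ι : Eis →+* L)

include hQ hP hQP hQ3 hφ

theorem sq_w : φ (φ (ι w)) = ι w := by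
  have h1 := GFR.frob_omega hQ hP hQP hQ3 hφ (hom_rel ι)
  have h3 := GFR.omega_cube (hom_rel ι)
  rw [h1, map_pow, h1]
  linear_combination ι w * h3

theorem sq_a (a : Eis) : φ (φ (ι a)) = ι a := by
  have h := sq_w hQ hP hQP hQ3 hφ ι
  rw [hom_eq ι a]
  simp only [map_add, map_mul, map_intCast, h]

/-- a root of an element with trivial symbol is fixed by the square of the Frobenius element -/
theorem fix {c : Eis} (hc : ¬ (Q : Eis) ∣ c) (hs : sym (Q : Eis) c = 0) {ρ : L}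
    (hρ : ρ ^ 3 = ι c) : φ (φ ρ) = ρ := by
  obtain ⟨κ, hκ⟩ := exists_lift ι
  have hint : IsIntegral ℤ ρ := by
    refine IsIntegral.of_pow (n := 3) (by norm_num) ?_
    rw [hρ, ← hκ]
    exact RingOfIntegers.isIntegral_coe _
  let y : 𝓞 L := ⟨ρ, hint⟩
  have hy : y ^ 3 = κ c := by
    apply RingOfIntegers.coe_injective
    change ρ ^ 3 = ((κ c : 𝓞 L) : L)
    rw [hκ, hρ]
  have hcube : (φ (φ ρ)) ^ 3 = ρ ^ 3 := by
    rw [← map_pow, ← map_pow, hρ, sq_a hQ hP hQP hQ3 hφ]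
  have hrel := hom_rel ι
  obtain ⟨k, hk⟩ : ∃ k : ℕ, φ (φ ρ) = ι w ^ k * ρ := by
    rcases cube_eq hrel hcube with h | h | h
    · exact ⟨0, by rw [h, pow_zero, one_mul]⟩
    · exact ⟨1, by rw [h, pow_one]⟩
    · exact ⟨2, h⟩
  have hkk : φ • (φ • y) = κ w ^ k * y := by
    apply RingOfIntegers.coe_injective
    rw [map_mul, map_pow]
    change φ (φ ρ) = ((κ w : 𝓞 L) : L) ^ k * ρ
    rw [hκ, hk]
  have h1 := key hQ hP hQP hQ3 hφ κ hc (y := y) (by rw [← map_pow, hy]) hkk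
  rw [hs] at h1
  have h2 : 3 ∣ k := (ZMod.natCast_eq_zero_iff k 3).1 h1
  obtain ⟨m, rfl⟩ := h2
  rw [hk, pow_mul, GFR.omega_cube hrel, one_pow, one_mul]

theorem core {x p q p' q' r : Eis} (h0 : ¬ (Q : Eis) ∣ x) (hsx : sym (Q : Eis) x = 0)
    (h1 : ¬ (Q : Eis) ∣ p ^ 3 + x * q ^ 3)
    (h2 : ¬ (Q : Eis) ∣ p' ^ 3 + x * q' ^ 3) (hr : (Q : Eis) ∣ r ^ 3 - x)
    (hroot : ∃ θ : L, θ ^ 3 = ι x)
    (hA : ∀ ρ : L, ρ ^ 3 = ι x → ∃ A : L, A ^ 3 * aDE ι p q p' q' ρ = aNE ι p q p' q' ρ)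
    {t : ZMod 3} (ht : ∀ ρ A : L, ρ ^ 3 = ι x →
      A ^ 3 * aDE ι p q p' q' ρ = aNE ι p q p' q' ρ → φ (φ A) = ι w ^ t.val * A) :
    t = TAUE Q p q p' q' r := by
  obtain ⟨κ, hκ⟩ := exists_lift ι
  have hrel := hom_rel ι
  have hω3 := GFR.omega_cube hrel
  have hfin := GFR.quo_finite hQ hP hQP
  have hmax : P.IsMaximal :=
    Ideal.Quotient.maximal_of_isField _ (Finite.isField_of_domain (𝓞 L ⧸ P))
  let _ : Field (𝓞 L ⧸ P) := Ideal.Quotient.field P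
  have hq := prime_inert hQ hQ3
  have hq3 := n3 hQ hQ3
  let ψ : Eis →+* 𝓞 L ⧸ P := (Ideal.Quotient.mk P).comp κ
  have hψrel : ψ w ^ 2 + ψ w + 1 = 0 := hom_rel ψ
  have hψ3 := GFR.omega_cube hψrel
  have hψQ : ψ (Q : Eis) = 0 := by
    rw [map_natCast, ← map_natCast (Ideal.Quotient.mk P)]
    exact Ideal.Quotient.eq_zero_iff_mem.2 hQP
  have hψr : ψ r ^ 3 = ψ x := by
    obtain ⟨d, hd⟩ := hr
    have h3 := congrArg ψ hd
    rw [map_sub, map_pow, map_mul, hψQ, zero_mul] at h3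
    exact sub_eq_zero.1 h3
  -- a root of `x` congruent to `r`
  obtain ⟨ρB, hρB, hρr⟩ : ∃ ρB : 𝓞 L, ρB ^ 3 = κ x ∧ Ideal.Quotient.mk P ρB = ψ r := by
    obtain ⟨θ, hθ⟩ := hroot
    have hint : IsIntegral ℤ θ := by
      refine IsIntegral.of_pow (n := 3) (by norm_num) ?_
      rw [hθ, ← hκ]
      exact RingOfIntegers.isIntegral_coe _
    let θB : 𝓞 L := ⟨θ, hint⟩
    have hθB : θB ^ 3 = κ x := by
      apply RingOfIntegers.coe_injective
      change θ ^ 3 = ((κ x : 𝓞 L) : L)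
      rw [hκ, hθ]
    have hκ3 : κ w ^ 3 = 1 := GFR.omega_cube (hom_rel κ)
    have hc3 : (ψ r) ^ 3 = (Ideal.Quotient.mk P θB) ^ 3 := by
      rw [hψr, ← map_pow, hθB]
      rfl
    rcases cube_eq hψrel hc3 with h | h | h
    · exact ⟨θB, hθB, h.symm⟩
    · refine ⟨κ w * θB, ?_, ?_⟩
      · rw [mul_pow, hκ3, one_mul, hθB]
      · rw [map_mul, h]
        rfl
    · refine ⟨κ w ^ 2 * θB, ?_, ?_⟩
      · rw [mul_pow, ← pow_mul, mul_comm 2 3, pow_mul, hκ3, one_pow, one_mul, hθB]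
      · rw [map_mul, map_pow, h]
        rfl
  have hρ : (ρB : L) ^ 3 = ι x := by
    rw [← hκ, ← hρB]
    rfl
  obtain ⟨A, hAA⟩ := hA (ρB : L) hρ
  -- the elements of the ring of integers
  let dD : 𝓞 L := (κ p + κ q * κ w * ρB) * (κ p' + κ q' * κ w ^ 2 * ρB)
  let dN : 𝓞 L := (κ p + κ q * κ w ^ 2 * ρB) * (κ p' + κ q' * κ w * ρB)
  have hdD : algebraMap (𝓞 L) L dD = aDE ι p q p' q' (ρB : L) := by
    simp only [dD, aDE, map_mul, map_add, map_pow, hκ]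
  have hdN : algebraMap (𝓞 L) L dN = aNE ι p q p' q' (ρB : L) := by
    simp only [dN, aNE, map_mul, map_add, map_pow, hκ]
  have hA' : (A * aDE ι p q p' q' (ρB : L)) ^ 3 = algebraMap (𝓞 L) L (dN * dD ^ 2) := by
    rw [map_mul, map_pow, hdD, hdN, ← hAA]
    ring
  have hAint : IsIntegral ℤ (A * aDE ι p q p' q' (ρB : L)) := by
    refine IsIntegral.of_pow (n := 3) (by norm_num) ?_
    rw [hA']
    exact RingOfIntegers.isIntegral_coe _
  let AB : 𝓞 L := ⟨A * aDE ι p q p' q' (ρB : L), hAint⟩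
  have hAB : AB ^ 3 = dN * dD ^ 2 := by
    apply RingOfIntegers.coe_injective
    rw [← hA']
    rfl
  have hφρ : φ (φ (ρB : L)) = ρB := fix hQ hP hQP hQ3 hφ ι h0 hsx hρ
  have hφD : φ (φ (aDE ι p q p' q' (ρB : L))) = aDE ι p q p' q' (ρB : L) := by
    simp only [aDE, map_mul, map_add, map_pow, sq_a hQ hP hQP hQ3 hφ, hφρ]
  have hφφ : φ • (φ • AB) = κ w ^ t.val * AB := by
    apply RingOfIntegers.coe_injective
    rw [map_mul, map_pow]
    change φ (φ (A * aDE ι p q p' q' (ρB : L))) =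
      ((κ w : 𝓞 L) : L) ^ t.val * (A * aDE ι p q p' q' (ρB : L))
    rw [hκ, map_mul, map_mul, hφD, ht _ A hρ hAA]
    ring
  obtain ⟨e1, e2⟩ := lf_not_dvd h1 hr
  obtain ⟨e1', e2'⟩ := lf_not_dvd h2 hr
  set E : Eis := LfE p q 2 r * LfE p' q' 1 r * (LfE p q 1 r * LfE p' q' 2 r) ^ 2 with hE
  have hEd : ¬ (Q : Eis) ∣ E := by
    intro h3
    rcases hq.dvd_or_dvd h3 with h4 | h4
    · rcases hq.dvd_or_dvd h4 with h5 | h5
      · exact e2 h5
      · exact e1' h5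
    · rcases hq.dvd_or_dvd (hq.dvd_of_dvd_pow h4) with h5 | h5
      · exact e1 h5
      · exact e2' h5
  have hmkA : Ideal.Quotient.mk P AB ^ 3 = Ideal.Quotient.mk P (κ E) := by
    rw [← map_pow, hAB, hE]
    have hψκ : ∀ a : Eis, Ideal.Quotient.mk P (κ a) = ψ a := fun a => rfl
    simp only [dD, dN, LfE, map_mul, map_add, map_pow, hρr, pow_one, hψκ]
  have hsym := key hQ hP hQP hQ3 hφ κ hEd hmkA hφφ
  rw [ZMod.natCast_val, ZMod.cast_id', id_eq] at hsym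
  rw [hsym, hE]
  have g1 : ¬ (Q : Eis) ∣ LfE p q 2 r * LfE p' q' 1 r := fun h3 =>
    (hq.dvd_or_dvd h3).elim e2 e1'
  have g2 : ¬ (Q : Eis) ∣ LfE p q 1 r * LfE p' q' 2 r := fun h3 =>
    (hq.dvd_or_dvd h3).elim e1 e2'
  have g3 : ¬ (Q : Eis) ∣ (LfE p q 1 r * LfE p' q' 2 r) ^ 2 := fun h3 =>
    g2 (hq.dvd_of_dvd_pow h3)
  rw [sym_mul hq hq3 g1 g3, sym_mul hq hq3 e2 e1', sym_pow hq hq3 g2, sym_mul hq hq3 e1 e2']
  unfold TAUE
  have h2z : ((2 : ℕ) : ZMod 3) = -1 := by decide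
  rw [h2z]
  ring

end Main

end GFK

open GFK

theorem GFK_thm : Stmt_GFK := by
  classical
  intro s x b p q p' q' f L _ _ ζ ι hS hG
  have hgal := hG.gal
  let B : Fin s → ℕ := fun j => N (b j) + N (p j ^ 3 + x * q j ^ 3) +
    N (p' j ^ 3 + x * q' j ^ 3)
  refine ⟨N x + ∑ j, B j, fun Q hQ hQN P hP hQP => ⟨fun g hg => ?_, fun φ hφ hQ3 => ?_⟩⟩
  · have hfin := GFR.quo_finite hQ hP hQP
    exact GFR.exists_frob_gen (R := ℤ) P g hg
  · have hφω := GFR.frob_omega hQ hP hQP hQ3 hφ (hom_rel ι)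
    refine ⟨hφω, fun hsx hsb => ?_⟩
    have hx0 : x ≠ 0 := by
      intro h0
      refine hS.ind 1 (fun _ => 0) (Or.inl (by norm_num)) ⟨0, ?_⟩
      rw [h0]
      simp
    have hxQ : ¬ (Q : Eis) ∣ x := not_dvd_of_lt hx0 (by omega)
    have hBj : ∀ j, B j < Q := by
      intro j
      have h1 : B j ≤ ∑ i, B i :=
        Finset.single_le_sum (f := B) (fun _ _ => Nat.zero_le _) (Finset.mem_univ j)
      omega
    have hb0 : ∀ j, b j ≠ 0 := by
      intro j h0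
      refine hS.ind 0 (Pi.single j 1) (Or.inr ⟨j, by simp⟩) ⟨0, ?_⟩
      have h1 : ∏ i, b i ^ (Pi.single j 1 : Fin s → ℕ) i = 0 := by
        refine Finset.prod_eq_zero (Finset.mem_univ j) ?_
        rw [Pi.single_eq_same, pow_one, h0]
      rw [h1]
      simp
    have hbQ : ∀ j, ¬ (Q : Eis) ∣ b j := by
      intro j
      have h1 := hBj j
      simp only [B] at h1
      exact not_dvd_of_lt (hb0 j) (by omega)
    refine ⟨⟨fun ρ hρ => fix hQ hP hQP hQ3 hφ ι hxQ hsx hρ,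
      fun j ρ hρ => fix hQ hP hQP hQ3 hφ ι (hbQ j) (hsb j) hρ⟩, fun j r t hr ht => ?_⟩
    have h1 := hBj j
    simp only [B] at h1
    have hsol := hS.sol j
    have hn1 : p j ^ 3 + x * q j ^ 3 ≠ 0 := hsol.n1
    have hn2 : p' j ^ 3 + x * q' j ^ 3 ≠ 0 := by
      intro h0
      refine hn1 ?_
      have h3 := hsol.eq
      rw [h0, mul_zero] at h3
      exact h3
    exact core hQ hP hQP hQ3 hφ ι hxQ hsx (not_dvd_of_lt hn1 (by omega))
      (not_dvd_of_lt hn2 (by omega)) hr hG.rx (fun ρ hρ => hG.A j ρ hρ) ht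

end Pool.Agent.PTK
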