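import Pool.Agent.PTK.StG
import Pool.Agent.PT.GT

/-!
# GTK: existence, uniqueness and properties of `t`
-/

set_option autoImplicit false
set_option linter.unusedSectionVars false

open NumberField IsDedekindDomain Finset
open scoped nonZeroDivisors Pointwise

namespace Pool.Agent.PTK

open Pool.Agent.Lib_helper18 Pool.Agent.Lib_helper18.Eis Pool.Agent.Lib_helper84.Cub
open Pool.Agent.PT Pool.Agent.PTL

namespace GTK

open Pool.Agent.PT.GT (E E_pow E_add E_zero E_inj of_cube map_ω cube_one ω_ne_zero E_ne_zero map_E')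

variable {L : Type} [Field L] [NumberField L] {ι : Eis →+* L}

theorem rel (ι : Eis →+* L) : ι w ^ 2 + ι w + 1 = 0 := by
  rw [← map_pow, ← map_add, ← map_one ι, ← map_add, w_rel, map_zero]

theorem ι_eq (ι : Eis →+* L) (a : Eis) : ι a = (a.re : L) + (a.im : L) * ι w := by
  conv_lhs => rw [eq_re_add_im a]
  rw [map_add, map_mul, map_intCast, map_intCast]

/-- An automorphism which fixes `ω` fixes the image of `Z[w]`. -/
theorem fix_ι {h : L ≃ₐ[ℚ] L} (hh : h (ι w) = ι w) (a : Eis) : h (ι a) = ι a := by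
  rw [ι_eq ι a, map_add, map_mul, map_intCast, map_intCast, hh]

theorem map_aD {h : L ≃ₐ[ℚ] L} (hh : h (ι w) = ι w) (p q p' q' : Eis) (ρ : L) :
    h (aDE ι p q p' q' ρ) = aDE ι p q p' q' (h ρ) := by
  unfold aDE
  simp only [map_mul, map_add, map_pow, fix_ι hh]

theorem map_aN {h : L ≃ₐ[ℚ] L} (hh : h (ι w) = ι w) (p q p' q' : Eis) (ρ : L) :
    h (aNE ι p q p' q' ρ) = aNE ι p q p' q' (h ρ) := by
  unfold aNE
  simp only [map_mul, map_add, map_pow, fix_ι hh]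

theorem nrm (ι : Eis →+* L) {ρ : L} {x : Eis} (p q : Eis) (hρ : ρ ^ 3 = ι x) :
    (ι p + ι q * ρ) * ((ι p + ι q * ι w * ρ) * (ι p + ι q * ι w ^ 2 * ρ)) =
      ι (p ^ 3 + x * q ^ 3) := by
  rw [map_add, map_mul, map_pow, map_pow, ← hρ]
  linear_combination ((ι p) ^ 2 * ι q * ρ + ι p * (ι q) ^ 2 * ρ ^ 2 * ι w +
    (ι q) ^ 3 * ρ ^ 3 * (ι w - 1)) * rel ι

/-- The step from `ρ` to `ω ρ`. -/
theorem step {h : L ≃ₐ[ℚ] L} (hh : h (ι w) = ι w) {x b p q p' q' : Eis}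
    (hsol : SolE x b p q p' q') (hb : ∀ θ : L, θ ^ 3 = ι b → h θ = θ) {ρ A A' c : L}
    (hρ : ρ ^ 3 = ι x) (hhρ : h ρ = ρ)
    (hD : aDE ι p q p' q' ρ ≠ 0) (hN : aNE ι p q p' q' ρ ≠ 0)
    (hD' : aDE ι p q p' q' (ι w * ρ) ≠ 0)
    (hA : A ^ 3 * aDE ι p q p' q' ρ = aNE ι p q p' q' ρ)
    (hA' : A' ^ 3 * aDE ι p q p' q' (ι w * ρ) = aNE ι p q p' q' (ι w * ρ))
    (hc : h A = c * A) : h A' = c * A' := by
  have r := rel ι
  have h3 := cube_one r
  have e1 : ι q * ι w ^ 2 * (ι w * ρ) = ι q * ρ := by linear_combination (ι q * ρ) * h3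
  have e2 : ι q' * ι w ^ 2 * (ι w * ρ) = ι q' * ρ := by linear_combination (ι q' * ρ) * h3
  have e3 : ι q * ι w * (ι w * ρ) = ι q * ι w ^ 2 * ρ := by ring
  have e4 : ι q' * ι w * (ι w * ρ) = ι q' * ι w ^ 2 * ρ := by ring
  have hn := nrm ι p q hρ
  have hn' := nrm ι p' q' hρ
  have heq : ι (p ^ 3 + x * q ^ 3) = ι b * ι (p' ^ 3 + x * q' ^ 3) := by
    rw [hsol.eq, map_mul]
  unfold aDE at hD hD' hA hA'
  unfold aNE at hN hA hA'
  rw [e2, e3] at hD'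
  rw [e1, e2, e3, e4] at hA'
  rw [← hn, ← hn'] at heq
  obtain ⟨d1, d2'⟩ := mul_ne_zero_iff.1 hD
  obtain ⟨d2, d1'⟩ := mul_ne_zero_iff.1 hN
  obtain ⟨-, d0'⟩ := mul_ne_zero_iff.1 hD'
  have hA0 : A ≠ 0 := by
    rintro rfl
    apply hN
    rw [← hA]
    ring
  have hθ : (A' * (ι p + ι q * ι w ^ 2 * ρ) / (A * (ι p' + ι q' * ι w ^ 2 * ρ))) ^ 3 = ι b := by
    rw [div_pow, div_eq_iff (pow_ne_zero _ (mul_ne_zero hA0 d2')), mul_pow, mul_pow]
    apply mul_right_cancel₀ (mul_ne_zero d1 d0')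
    generalize ι p + ι q * ρ = l0 at *
    generalize ι p' + ι q' * ρ = l0' at *
    generalize ι p + ι q * ι w * ρ = l1 at *
    generalize ι p' + ι q' * ι w * ρ = l1' at *
    generalize ι p + ι q * ι w ^ 2 * ρ = l2 at *
    generalize ι p' + ι q' * ι w ^ 2 * ρ = l2' at *
    linear_combination (l2 ^ 2 * l1) * hA' + (l2 * l2') * heq - (ι b * l2' ^ 2 * l0') * hA
  have hfix := hb _ hθ
  simp only [map_div₀, map_mul, map_add, map_pow, fix_ι hh, hhρ, hc] at hfix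
  have hc0 : c ≠ 0 := by
    rintro rfl
    rw [zero_mul] at hc
    exact hA0 ((map_eq_zero_iff h h.injective).1 hc)
  rw [div_eq_div_iff (mul_ne_zero (mul_ne_zero hc0 hA0) d2') (mul_ne_zero hA0 d2')] at hfix
  apply mul_right_cancel₀ (mul_ne_zero d2 (mul_ne_zero hA0 d2'))
  linear_combination hfix

/-- The square of an automorphism which inverts `ω`. -/
theorem sq_ω {g : L ≃ₐ[ℚ] L} (hg : g (ι w) = ι w ^ 2) : (g * g) (ι w) = ι w := by
  have h3 := cube_one (rel ι)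
  change g (g (ι w)) = ι w
  rw [hg, map_pow, hg]
  linear_combination (ι w) * h3

end GTK

open GTK in
open Pool.Agent.PT.GT (E E_pow E_add E_zero E_inj of_cube map_ω cube_one ω_ne_zero E_ne_zero
  map_E') in
/-- GTK: existence, uniqueness and properties of `t`. -/
theorem GTK_thm : Stmt_GTK := by
  intro s x b p q p' q' f L _ _ ζ ι hS hG j
  have r := rel ι
  have h3 := cube_one r
  have hA0 : ∀ (ρ A : L), ρ ^ 3 = ι x →
      A ^ 3 * aDE ι (p j) (q j) (p' j) (q' j) ρ = aNE ι (p j) (q j) (p' j) (q' j) ρ → A ≠ 0 := by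
    rintro ρ A hρ hA rfl
    apply (hG.D j ρ hρ).2
    rw [← hA]
    ring
  -- one witness is enough
  have all : ∀ (h : L ≃ₐ[ℚ] L) (t : ZMod 3) (ρ₀ A₀ : L), h (ι w) = ι w →
      (∀ ρ : L, ρ ^ 3 = ι x → h ρ = ρ) → (∀ θ : L, θ ^ 3 = ι (b j) → h θ = θ) →
      ρ₀ ^ 3 = ι x →
      A₀ ^ 3 * aDE ι (p j) (q j) (p' j) (q' j) ρ₀ = aNE ι (p j) (q j) (p' j) (q' j) ρ₀ →
      h A₀ = E (ι w) t * A₀ → ∀ ρ A : L, ρ ^ 3 = ι x →
      A ^ 3 * aDE ι (p j) (q j) (p' j) (q' j) ρ = aNE ι (p j) (q j) (p' j) (q' j) ρ →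
      h A = E (ι w) t * A := by
    intro h t ρ₀ A₀ hh hx hb hρ₀ hA₀ ht
    have hpow : ∀ n : ℕ, (ι w ^ n * ρ₀) ^ 3 = ι x := by
      intro n
      rw [mul_pow, hρ₀, ← pow_mul, mul_comm n 3, pow_mul, h3, one_pow, one_mul]
    have key : ∀ n : ℕ, ∀ A : L,
        A ^ 3 * aDE ι (p j) (q j) (p' j) (q' j) (ι w ^ n * ρ₀) =
          aNE ι (p j) (q j) (p' j) (q' j) (ι w ^ n * ρ₀) → h A = E (ι w) t * A := by
      intro n
      induction n with
      | zero =>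
        intro A hA
        rw [pow_zero, one_mul] at hA
        have hD := (hG.D j ρ₀ hρ₀).1
        have e2 : A ^ 3 = A₀ ^ 3 := mul_right_cancel₀ hD (hA.trans hA₀.symm)
        obtain ⟨k, hk⟩ := of_cube r e2
        rw [hk, map_mul, map_E' hh, ht]
        ring
      | succ n ih =>
        intro A' hA'
        obtain ⟨A, hA⟩ := hG.A j _ (hpow n)
        have e1 : ι w ^ (n + 1) * ρ₀ = ι w * (ι w ^ n * ρ₀) := by rw [pow_succ]; ring
        have hD' := (hG.D j _ (hpow (n + 1))).1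
        rw [e1] at hA' hD'
        exact step hh (hS.sol j) hb (hpow n) (hx _ (hpow n)) (hG.D j _ (hpow n)).1
          (hG.D j _ (hpow n)).2 hD' hA hA' (ih A hA)
    intro ρ A hρ hA
    obtain ⟨k, hk⟩ := of_cube r (hρ.trans hρ₀.symm)
    rw [hk] at hA
    exact key k.val A hA
  obtain ⟨ρ₀, hρ₀⟩ := hG.rx
  obtain ⟨A₀, hA₀⟩ := hG.A j ρ₀ hρ₀
  have hA₀0 := hA0 ρ₀ A₀ hρ₀ hA₀
  -- conjugation by an automorphism which fixes `ω`
  have conjA : ∀ (g τ : L ≃ₐ[ℚ] L) (t : ZMod 3), τ (ι w) = ι w → FxK x b ι g →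
      IsTK x p q p' q' ι g j t →
      FxK x b ι (τ * g * τ⁻¹) ∧ IsTK x p q p' q' ι (τ * g * τ⁻¹) j t := by
    intro g τ t hτ hF hT
    have hτ' : τ⁻¹ (ι w) = ι w := by
      have h5 : τ⁻¹ (τ (ι w)) = ι w := τ.symm_apply_apply _
      rwa [hτ] at h5
    have hττ : ∀ y : L, τ (τ⁻¹ y) = y := fun y => τ.apply_symm_apply y
    have hτt : ∀ y : L, τ⁻¹ (τ y) = y := fun y => τ.symm_apply_apply y
    have c1 : ∀ y : L, (τ * g * τ⁻¹) ((τ * g * τ⁻¹) y) = τ (g (g (τ⁻¹ y))) := by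
      intro y
      change τ (g (τ⁻¹ (τ (g (τ⁻¹ y))))) = _
      rw [hτt]
    refine ⟨⟨?_, ?_⟩, ?_⟩
    · intro ρ hρ
      rw [c1, hF.1 (τ⁻¹ ρ) (by rw [← map_pow, hρ, fix_ι hτ']), hττ]
    · intro i ρ hρ
      rw [c1, hF.2 i (τ⁻¹ ρ) (by rw [← map_pow, hρ, fix_ι hτ']), hττ]
    · intro ρ A hρ hA
      have e1 := congrArg (τ⁻¹ : L ≃ₐ[ℚ] L) hA
      rw [map_mul, map_pow, map_aD hτ', map_aN hτ'] at e1
      rw [c1, hT (τ⁻¹ ρ) (τ⁻¹ A) (by rw [← map_pow, hρ, fix_ι hτ']) e1, map_mul, map_pow, hτ, hττ]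
  refine ⟨?_, ?_, ?_⟩
  · intro g hg hF
    have hh : (g * g) (ι w) = ι w := sq_ω hg
    have e1 := congrArg (g * g : L ≃ₐ[ℚ] L) hA₀
    rw [map_mul, map_pow, map_aD hh, map_aN hh] at e1
    have e0 : (g * g) ρ₀ = ρ₀ := hF.1 ρ₀ hρ₀
    rw [e0] at e1
    have e2 : ((g * g) A₀) ^ 3 = A₀ ^ 3 :=
      mul_right_cancel₀ (hG.D j ρ₀ hρ₀).1 (e1.trans hA₀.symm)
    obtain ⟨t, ht⟩ := of_cube r e2
    refine ⟨t, ?_, ?_⟩
    · intro ρ A hρ hA
      exact all (g * g) t ρ₀ A₀ hh hF.1 (hF.2 j) hρ₀ hA₀ ht ρ A hρ hA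
    · intro t' ht'
      have h5 : (g * g) A₀ = E (ι w) t' * A₀ := ht' ρ₀ A₀ hρ₀ hA₀
      rw [ht] at h5
      exact (E_inj r (mul_right_cancel₀ hA₀0 h5)).symm
  · intro g τ t hg hF hT
    rcases map_ω r τ with hτ | hτ
    · exact conjA g τ t hτ hF hT
    · have hgi : g⁻¹ (ι w) = ι w ^ 2 := by
        have h5 : g⁻¹ (g (ι w ^ 2)) = ι w ^ 2 := g.symm_apply_apply _
        have h6 : g (ι w ^ 2) = ι w := by
          rw [map_pow, hg]
          linear_combination (ι w) * h3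
        rwa [h6] at h5
      have hτ' : (τ * g⁻¹) (ι w) = ι w := by
        change τ (g⁻¹ (ι w)) = ι w
        rw [hgi, map_pow, hτ]
        linear_combination (ι w) * h3
      have h7 := conjA g (τ * g⁻¹) t hτ' hF hT
      have h8 : (τ * g⁻¹) * g * (τ * g⁻¹)⁻¹ = τ * g * τ⁻¹ := by group
      rwa [h8] at h7
  · intro g t k hg hF _ hT
    have hh : (g * g) (ι w) = ι w := sq_ω hg
    have hsq : ∀ (n : ℕ) (y : L), (g ^ n) ((g ^ n) y) = ((g * g) ^ n) y := by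
      intro n y
      change (g ^ n * g ^ n) y = _
      rw [← (Commute.refl g).mul_pow]
    have hfix : ∀ (n : ℕ) (y : L), g (g y) = y → ((g * g) ^ n) y = y := by
      intro n y hy
      induction n with
      | zero => rfl
      | succ n ih =>
        rw [pow_succ']
        change g (g (((g * g) ^ n) y)) = y
        rw [ih, hy]
    refine ⟨⟨?_, ?_⟩, ?_⟩
    · intro ρ hρ
      rw [hsq, hfix _ _ (hF.1 ρ hρ)]
    · intro i ρ hρ
      rw [hsq, hfix _ _ (hF.2 i ρ hρ)]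
    · intro ρ A hρ hA
      have h5 : ∀ n : ℕ, ((g * g) ^ n) A = E (ι w) ((n : ZMod 3) * t) * A := by
        intro n
        induction n with
        | zero =>
          rw [Nat.cast_zero, zero_mul, E_zero, one_mul]
          rfl
        | succ n ih =>
          rw [pow_succ']
          change (g * g) (((g * g) ^ n) A) = _
          rw [ih, map_mul, map_E' hh]
          have h6 : (g * g) A = E (ι w) t * A := hT ρ A hρ hA
          rw [h6, Nat.cast_succ, add_mul, one_mul, E_add r]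
          ring
      rw [hsq, h5]
      rfl

end Pool.Agent.PTK
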