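import Pool.Agent.PTK.StG
import Pool.Agent.PTK.GTK

/-!
# GKK: Kummer theory over `K = Q(w)`
-/

set_option autoImplicit false

open NumberField IsDedekindDomain Finset
open scoped nonZeroDivisors Pointwise

namespace Pool.Agent.PTK

open Pool.Agent.Lib_helper18 Pool.Agent.Lib_helper18.Eis Pool.Agent.Lib_helper84.Cub
open Pool.Agent.PT Pool.Agent.PTL

namespace GKK

variable {L : Type} [Field L] [NumberField L] {ι : Eis →+* L}

/-- `ι` is injective. -/
theorem inj (ι : Eis →+* L) : Function.Injective ι := by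
  rw [injective_iff_map_eq_zero]
  intro a ha
  have h1 : ι (a * conj a) = 0 := by rw [map_mul, ha, zero_mul]
  rw [mul_conj, map_intCast] at h1
  have h2 : a.norm = 0 := by exact_mod_cast h1
  exact norm_eq_zero.1 h2

theorem mem_F (ι : Eis →+* L) (a : Eis) : ι a ∈ IntermediateField.adjoin ℚ {ι w} := by
  rw [GTK.ι_eq ι a]
  refine add_mem ?_ (mul_mem ?_ (IntermediateField.mem_adjoin_simple_self ℚ (ι w)))
  · exact intCast_mem _ _
  · exact intCast_mem _ _

/-- The elements of `ℚ(ω)` are fractions. -/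
theorem frac (ι : Eis →+* L) {y : L} (hy : y ∈ IntermediateField.adjoin ℚ {ι w}) :
    ∃ u v : Eis, v ≠ 0 ∧ y * ι v = ι u := by
  have hi := inj ι
  induction hy using IntermediateField.adjoin_induction with
  | mem x hx =>
    rw [Set.mem_singleton_iff] at hx
    exact ⟨w, 1, one_ne_zero, by rw [hx, map_one, mul_one]⟩
  | algebraMap q =>
    refine ⟨(q.num : Eis), (q.den : Eis), ?_, ?_⟩
    · intro h
      have h1 := congrArg Eis.re h
      rw [natCast_re, zero_re] at h1
      exact q.den_nz (by exact_mod_cast h1)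
    · rw [map_intCast, map_natCast]
      have h1 : (q : ℚ) * q.den = q.num := Rat.mul_den_eq_num q
      have h2 := congrArg (algebraMap ℚ L) h1
      rw [map_mul, map_natCast, map_intCast] at h2
      exact h2
  | add x y _ _ hx hy =>
    obtain ⟨u, v, hv, h1⟩ := hx
    obtain ⟨u', v', hv', h2⟩ := hy
    refine ⟨u * v' + u' * v, v * v', mul_ne_zero hv hv', ?_⟩
    rw [map_mul, map_add, map_mul, map_mul]
    linear_combination ι v' * h1 + ι v * h2
  | inv x _ hx =>
    obtain ⟨u, v, hv, h1⟩ := hx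
    by_cases hx0 : x = 0
    · exact ⟨0, 1, one_ne_zero, by rw [hx0, inv_zero, zero_mul, map_zero]⟩
    · refine ⟨v, u, ?_, ?_⟩
      · rintro rfl
        rw [map_zero] at h1
        rcases mul_eq_zero.1 h1 with h2 | h2
        · exact hx0 h2
        · exact hv (hi (by rw [h2, map_zero]))
      · rw [← h1, ← mul_assoc, inv_mul_cancel₀ hx0, one_mul]
  | mul x y _ _ hx hy =>
    obtain ⟨u, v, hv, h1⟩ := hx
    obtain ⟨u', v', hv', h2⟩ := hy
    refine ⟨u * u', v * v', mul_ne_zero hv hv', ?_⟩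
    rw [map_mul, map_mul, ← h1, ← h2]
    ring

/-- An element of `Z[w]` which is a cube in `ℚ(ω)` is a cube. -/
theorem cube_of (ι : Eis →+* L) {β : L} (hβ : β ∈ IntermediateField.adjoin ℚ {ι w}) {a : Eis}
    (h : ι a = β ^ 3) : ∃ t : Eis, t ^ 3 = a := by
  obtain ⟨u, v, hv, h1⟩ := frac ι hβ
  have h2 : u ^ 3 = v ^ 3 * a := by
    apply inj ι
    rw [map_pow, ← h1, map_mul, map_pow, h]
    ring
  obtain ⟨t, rfl⟩ := (IsIntegrallyClosed.pow_dvd_pow_iff (R := Eis) three_ne_zero).1
    (⟨a, h2⟩ : v ^ 3 ∣ u ^ 3)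
  refine ⟨t, ?_⟩
  apply mul_left_cancel₀ (pow_ne_zero 3 hv)
  rw [← h2]
  ring

end GKK

open GKK in
/-- GKK: Kummer theory over `K`. -/
theorem GKK_thm (hKUM : KUM) : Stmt_GKK := by
  intro s x b p q p' q' f L _ _ ζ ι hS hG a₀ a
  have hω := GTK.rel ι
  have := hG.gal
  have hx0 : x ≠ 0 := by
    rintro rfl
    refine hS.ind 1 (fun _ => 0) (Or.inl (by norm_num)) ⟨0, ?_⟩
    rw [pow_one, zero_mul]
    ring
  have hb0 : ∀ j, b j ≠ 0 := by
    intro j hj
    refine hS.ind 0 (fun l => if l = j then 1 else 0) (Or.inr ⟨j, by simp⟩) ⟨0, ?_⟩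
    rw [zero_pow three_ne_zero, pow_zero, one_mul]
    symm
    exact Finset.prod_eq_zero (Finset.mem_univ j) (by simp [hj])
  obtain ⟨θ₀, hθ₀⟩ := hG.rx
  choose θ hθ using hG.rb
  let F := IntermediateField.adjoin ℚ {ι w}
  let c : Option (Fin s) → Eis := fun i => i.elim x b
  have hc0 : ∀ i, c i ≠ 0 := by
    rintro (_ | j)
    · exact hx0
    · exact hb0 j
  let A : Option (Fin s) → L := fun i => i.elim θ₀ θ
  have hA : ∀ i, A i ^ 3 = ι (c i) := by
    rintro (_ | j)
    · exact hθ₀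
    · exact hθ j
  obtain ⟨g, hg⟩ := hKUM F L ⟨ι w, mem_F ι w⟩ (Option (Fin s)) (fun i => ⟨ι (c i), mem_F ι _⟩) A
    (by
      apply Subtype.ext
      push_cast
      exact hω)
    (by
      intro i h
      have h1 : ι (c i) = 0 := congrArg Subtype.val h
      exact hc0 i (inj ι (by rw [h1, map_zero])))
    (fun i => hA i)
    (by
      rintro n ⟨β, hβ⟩
      by_contra hcon
      push Not at hcon
      have h1 : ι (∏ i, c i ^ n i) = (β : L) ^ 3 := by
        have h2 := congrArg (algebraMap F L) hβ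
        rw [map_pow, map_prod] at h2
        rw [map_prod]
        refine Eq.trans ?_ h2
        refine Finset.prod_congr rfl fun i _ => ?_
        rw [map_pow, map_pow]
        rfl
      obtain ⟨t, ht⟩ := cube_of ι β.2 h1
      rw [Fintype.prod_option] at ht
      refine hS.ind (n none) (fun j => n (some j)) ?_ ⟨t, ht⟩
      obtain ⟨i, hi⟩ := hcon
      rcases i with _ | j
      · exact Or.inl hi
      · exact Or.inr ⟨j, hi⟩)
    (fun i => i.elim a₀ a)
  have hgω : g (ι w) = ι w := g.commutes (⟨ι w, mem_F ι w⟩ : F)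
  have hroot : ∀ (i : Option (Fin s)) (ρ : L), ρ ^ 3 = ι (c i) →
      g ρ = ι w ^ (i.elim a₀ a : ZMod 3).val * ρ := by
    intro i ρ hρ
    obtain ⟨k, hk⟩ := Pool.Agent.PT.GT.of_cube hω (hρ.trans (hA i).symm)
    have h2 := hg i
    change g (A i) = ι w ^ (i.elim a₀ a : ZMod 3).val * A i at h2
    rw [hk, map_mul, h2, Pool.Agent.PT.GT.E, map_pow, hgω]
    ring
  refine ⟨g.restrictScalars ℚ, hgω, fun ρ hρ => ?_, fun j ρ hρ => ?_⟩
  · exact hroot none ρ hρ
  · exact hroot (some j) ρ hρ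

end Pool.Agent.PTK
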