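import Pool.Agent.PTK.StG
import Pool.Agent.PT.GZERO

/-!
# PTK_GZK: existence of the governing field over `K = Q(w)`
-/

set_option autoImplicit false

open NumberField IsDedekindDomain Finset
open scoped nonZeroDivisors Pointwise

namespace Pool.Agent.PTK

open Pool.Agent.Lib_helper18 Pool.Agent.Lib_helper18.Eis Pool.Agent.Lib_helper84.Cub
open Pool.Agent.PT Pool.Agent.PTL

namespace GZK

theorem lift_apply {S : Type*} [CommRing S] (z : S) (hz : z ^ 2 + z + 1 = 0) (a : Eis) :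
    GFR.lift z hz a = (a.re : S) + (a.im : S) * z := rfl

theorem lift_map {S T : Type*} [CommRing S] [CommRing T] (g : S →+* T) (z : S) (z' : T)
    (hz : z ^ 2 + z + 1 = 0) (hz' : z' ^ 2 + z' + 1 = 0) (h : g z = z') (a : Eis) :
    g (GFR.lift z hz a) = GFR.lift z' hz' a := by
  rw [lift_apply, lift_apply, map_add, map_mul, map_intCast, map_intCast, h]

theorem ne_zero {L : Type} [Field L] [CharZero L] (ι : Eis →+* L) {a : Eis} (ha : a ≠ 0) :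
    ι a ≠ 0 := by
  intro h
  have h1 : ι (a * conj a) = ((a.norm : ℤ) : L) := by
    rw [Eis.mul_conj, map_intCast]
  rw [map_mul, h, zero_mul] at h1
  have h2 : a.norm = 0 := by exact_mod_cast h1.symm
  exact ha (Eis.norm_eq_zero.1 h2)

lemma ne_of_prod {L : Type} [Field L] [CharZero L] (ι : Eis →+* L) {x p q p' q' : Eis} {ρ : L}
    (h1 : p ^ 3 + x * q ^ 3 ≠ 0) (h2 : p' ^ 3 + x * q' ^ 3 ≠ 0) (hρ : ρ ^ 3 = ι x) :
    aDE ι p q p' q' ρ ≠ 0 ∧ aNE ι p q p' q' ρ ≠ 0 := by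
  have hω : ι w ^ 2 + ι w + 1 = 0 := by
    rw [← map_pow, ← map_add, ← map_one ι, ← map_add, w_rel, map_zero]
  have h3 : ι w ^ 3 = 1 := by linear_combination (ι w - 1) * hω
  have key : aDE ι p q p' q' ρ * aNE ι p q p' q' ρ * ((ι p + ι q * ρ) * (ι p' + ι q' * ρ)) =
      ι (p ^ 3 + x * q ^ 3) * ι (p' ^ 3 + x * q' ^ 3) := by
    have e1 : ∀ u v : L, (u + v * ι w ^ 2 * ρ) * (u + v * ι w * ρ) * (u + v * ρ) =
        u ^ 3 + v ^ 3 * ρ ^ 3 := by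
      intro u v
      linear_combination (u ^ 2 * v * ρ + u * v ^ 2 * ρ ^ 2 * ι w) * hω + v ^ 3 * ρ ^ 3 * h3
    have e2 := e1 (ι p) (ι q)
    have e3 := e1 (ι p') (ι q')
    rw [hρ] at e2 e3
    unfold aDE aNE
    simp only [map_add, map_mul, map_pow]
    linear_combination ((ι p' + ι q' * ι w ^ 2 * ρ) * (ι p' + ι q' * ι w * ρ) *
      (ι p' + ι q' * ρ)) * e2 + ((ι p) ^ 3 + (ι q) ^ 3 * ι x) * e3
  have hne : ι (p ^ 3 + x * q ^ 3) * ι (p' ^ 3 + x * q' ^ 3) ≠ 0 :=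
    mul_ne_zero (ne_zero ι h1) (ne_zero ι h2)
  rw [← key] at hne
  exact ⟨left_ne_zero_of_mul (left_ne_zero_of_mul hne),
    right_ne_zero_of_mul (left_ne_zero_of_mul hne)⟩

lemma finite_roots {L : Type} [Field L] (c : L) : {ρ : L | ρ ^ 3 = c}.Finite := by
  classical
  refine (Polynomial.nthRoots 3 c).toFinset.finite_toSet.subset ?_
  intro ρ hρ
  simp only [Finset.mem_coe, Multiset.mem_toFinset]
  exact (Polynomial.mem_nthRoots (by norm_num)).2 hρ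

end GZK

open GZK in
theorem GZK_thm : Stmt_GZK := by
  intro s x b p q p' q' f hSys hf h9
  have : NeZero (f : AlgebraicClosure ℚ) := ⟨Nat.cast_ne_zero.2 hf.ne'⟩
  have : NeZero f := ⟨hf.ne'⟩
  obtain ⟨ζ, hζ⟩ := HasEnoughRootsOfUnity.exists_primitiveRoot (AlgebraicClosure ℚ) f
  have hω := GZERO.rel_of_prim (GZERO.prim_pow hf h9 hζ)
  let κ : Eis →+* AlgebraicClosure ℚ := GFR.lift (ζ ^ (f / 3)) hω
  have hN : ∀ j, p j ^ 3 + x * q j ^ 3 ≠ 0 ∧ p' j ^ 3 + x * q' j ^ 3 ≠ 0 := by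
    intro j
    have h1 := hSys.sol j
    refine ⟨h1.n1, fun h2 => h1.n1 ?_⟩
    rw [h1.eq, h2, mul_zero]
  have hA : ∀ (j : Fin s) (ρ : AlgebraicClosure ℚ), ∃ A : AlgebraicClosure ℚ, ρ ^ 3 = κ x →
      A ^ 3 * aDE κ (p j) (q j) (p' j) (q' j) ρ = aNE κ (p j) (q j) (p' j) (q' j) ρ := by
    intro j ρ
    obtain ⟨A, hA⟩ := IsAlgClosed.exists_pow_nat_eq
      (aNE κ (p j) (q j) (p' j) (q' j) ρ / aDE κ (p j) (q j) (p' j) (q' j) ρ) (n := 3)
      (by norm_num)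
    refine ⟨A, fun hρ => ?_⟩
    rw [hA, div_mul_cancel₀]
    exact (ne_of_prod κ (hN j).1 (hN j).2 hρ).1
  choose A hA using hA
  obtain ⟨L, iF, iN, iG, ι, hι⟩ := GZERO.exists_field
    (({ζ} ∪ ({ρ | ρ ^ 3 = κ x} ∪ ⋃ j : Fin s, {ρ | ρ ^ 3 = κ (b j)})) ∪
      ⋃ j : Fin s, A j '' {ρ | ρ ^ 3 = κ x})
    (((Set.finite_singleton ζ).union ((finite_roots _).union
      (Set.finite_iUnion fun j => finite_roots _))).union
      (Set.finite_iUnion fun j => (finite_roots _).image _))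
  have hinj : Function.Injective ι := ι.injective
  obtain ⟨z, hz⟩ := hι ζ (Or.inl (Or.inl rfl))
  have hzp : IsPrimitiveRoot z f := by
    refine IsPrimitiveRoot.of_map_of_injective (f := ι) ?_ hinj
    rw [hz]
    exact hζ
  have hrel := GZERO.rel_of_prim (GZERO.prim_pow hf h9 hzp)
  let μ : Eis →+* L := GFR.lift (z ^ (f / 3)) hrel
  have hmap : ∀ a : Eis, ι (μ a) = κ a := fun a =>
    lift_map ι (z ^ (f / 3)) (ζ ^ (f / 3)) hrel hω (by rw [map_pow, hz]) a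
  have hNmap : ∀ (u v u' v' : Eis) (ρ : L), ι (aNE μ u v u' v' ρ) = aNE κ u v u' v' (ι ρ) := by
    intro u v u' v' ρ
    unfold aNE
    simp only [map_mul, map_add, map_pow, hmap]
  have hDmap : ∀ (u v u' v' : Eis) (ρ : L), ι (aDE μ u v u' v' ρ) = aDE κ u v u' v' (ι ρ) := by
    intro u v u' v' ρ
    unfold aDE
    simp only [map_mul, map_add, map_pow, hmap]
  have hroot : ∀ a : Eis, (∀ θ : AlgebraicClosure ℚ, θ ^ 3 = κ a → ∃ y : L, ι y = θ) →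
      ∃ θ : L, θ ^ 3 = μ a := by
    intro a ha
    obtain ⟨θ, hθ⟩ := IsAlgClosed.exists_pow_nat_eq (κ a) (n := 3) (by norm_num)
    obtain ⟨y, hy⟩ := ha θ hθ
    refine ⟨y, hinj ?_⟩
    rw [map_pow, hy, hθ, hmap]
  refine ⟨L, iF, iN, z, μ, iG, hzp, h9, GFR.lift_w _ _, ?_, ?_, ?_, ?_⟩
  · exact hroot x fun θ hθ => hι θ (Or.inl (Or.inr (Or.inl hθ)))
  · intro j
    exact hroot (b j) fun θ hθ => hι θ (Or.inl (Or.inr (Or.inr (Set.mem_iUnion.2 ⟨j, hθ⟩))))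
  · intro j ρ hρ
    have hρ' : (ι ρ) ^ 3 = κ x := by rw [← map_pow, hρ, hmap]
    obtain ⟨y, hy⟩ := hι (A j (ι ρ)) (Or.inr (Set.mem_iUnion.2 ⟨j, ⟨ι ρ, hρ', rfl⟩⟩))
    refine ⟨y, hinj ?_⟩
    rw [map_mul, map_pow, hy, hDmap, hNmap]
    exact hA j (ι ρ) hρ'
  · intro j ρ hρ
    exact ne_of_prod μ (hN j).1 (hN j).2 hρ

end Pool.Agent.PTK
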