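import Pool.Agent.PTK.StL
import Pool.Agent.PT.IF1

/-!
# PTK_IF1: the identity of the two norm residue symbols over `Z[w]`
-/

set_option autoImplicit false

namespace Pool.Agent.PTK

open Pool.Agent.Lib_helper18 Pool.Agent.Lib_helper18.Eis Pool.Agent.Lib_helper84.Cub
open Pool.Agent.PT

namespace IF1

open Pool.Agent.PT.IF1 (key degen le_V dvd_V V_le dvd_cancel two_mul_eq_zero three_mul_eq s_one
  s_neg s_cube w_ne dvd_sub3 dvd_add3 w2_cube w_sub_ne)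

theorem cast_ne {n : Eis} (h : n ≠ 0) : n ≠ 0 := h

/-- The numbers attached to a solution. -/
theorem consts {b x p q p' q' : Eis} (_hb : b ≠ 0) (hS : SolE b x p q p' q') :
    p' ^ 3 + b * q' ^ 3 ≠ 0 ∧ x * q' ^ 3 - q ^ 3 ≠ 0 ∧ GfE p q p' q' 1 ≠ 0 ∧
      GfE p q p' q' 2 ≠ 0 := by
  refine ⟨?_, ?_, hS.g1, hS.g2⟩
  · intro h
    apply hS.n1
    rw [hS.eq, h, mul_zero]
  · intro h
    apply hS.n2
    have h3 := hS.eq
    linear_combination h3 + b * h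

/-- The linear forms do not vanish, and their valuations are bounded. -/
theorem forms {π : Eis} (hπ : Prime π) {b x p q p' q' : Eis} (hb : b ≠ 0)
    (hS : SolE b x p q p' q') {N : ℕ}
    (hN1 : V π ((p ^ 3 + b * q ^ 3 : Eis) : Eis) < N)
    (hN2 : V π ((p' ^ 3 + b * q' ^ 3 : Eis) : Eis) < N)
    (hN3 : V π ((p ^ 3 - x * p' ^ 3 : Eis) : Eis) < N)
    (hN4 : V π ((q ^ 3 - x * q' ^ 3 : Eis) : Eis) < N) {r z : Eis}
    (hr : π ^ N ∣ r ^ 3 - (b : Eis)) (hz : π ^ N ∣ z ^ 3 - (x : Eis)) {t : Eis}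
    (ht : t ^ 3 = 1) :
    ((p + t * r * q ≠ 0 ∧ V π (p + t * r * q) ≤ V π ((p ^ 3 + b * q ^ 3 : Eis) : Eis)) ∧
    (p' + t * r * q' ≠ 0 ∧ V π (p' + t * r * q') ≤ V π ((p' ^ 3 + b * q' ^ 3 : Eis) : Eis))) ∧
    ((p - t * z * p' ≠ 0 ∧ V π (p - t * z * p') ≤ V π ((p ^ 3 - x * p' ^ 3 : Eis) : Eis)) ∧
    (q - t * z * q' ≠ 0 ∧ V π (q - t * z * q') ≤ V π ((q ^ 3 - x * q' ^ 3 : Eis) : Eis))) := by
  obtain ⟨c1, c2, -, -⟩ := consts hb hS
  have c3 : q ^ 3 - x * q' ^ 3 ≠ 0 := by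
    intro h
    apply c2
    linear_combination -h
  have e1 : ∀ u v : Eis, (u : Eis) + t * r * v = u + t * (r * v) := fun u v => by ring
  have e2 : ∀ u v : Eis, (u : Eis) - t * z * v = u - t * (z * v) := fun u v => by ring
  refine ⟨⟨?_, ?_⟩, ?_, ?_⟩
  · rw [e1]
    refine V_le (c' := (p : Eis) ^ 3 + (r * q) ^ 3) hπ (cast_ne hS.n1) hN1 ?_ (dvd_add3 ht)
    have e3 : (p : Eis) ^ 3 + (r * q) ^ 3 - ((p ^ 3 + b * q ^ 3 : Eis) : Eis) =
        (r ^ 3 - b) * q ^ 3 := by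
      ring
    rw [e3]
    exact Dvd.dvd.mul_right hr _
  · rw [e1]
    refine V_le (c' := (p' : Eis) ^ 3 + (r * q') ^ 3) hπ (cast_ne c1) hN2 ?_ (dvd_add3 ht)
    have e3 : (p' : Eis) ^ 3 + (r * q') ^ 3 - ((p' ^ 3 + b * q' ^ 3 : Eis) : Eis) =
        (r ^ 3 - b) * q' ^ 3 := by
      ring
    rw [e3]
    exact Dvd.dvd.mul_right hr _
  · rw [e2]
    refine V_le (c' := (p : Eis) ^ 3 - (z * p') ^ 3) hπ (cast_ne hS.n2) hN3 ?_ (dvd_sub3 ht)
    have e3 : (p : Eis) ^ 3 - (z * p') ^ 3 - ((p ^ 3 - x * p' ^ 3 : Eis) : Eis) =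
        (z ^ 3 - x) * (-p' ^ 3) := by
      ring
    rw [e3]
    exact Dvd.dvd.mul_right hz _
  · rw [e2]
    refine V_le (c' := (q : Eis) ^ 3 - (z * q') ^ 3) hπ (cast_ne c3) hN4 ?_ (dvd_sub3 ht)
    have e3 : (q : Eis) ^ 3 - (z * q') ^ 3 - ((q ^ 3 - x * q' ^ 3 : Eis) : Eis) =
        (z ^ 3 - x) * (-q' ^ 3) := by
      ring
    rw [e3]
    exact Dvd.dvd.mul_right hz _

theorem sum_dvd {π : Eis} {b x p q p' q' : Eis} (hS : SolE b x p q p' q') {N : ℕ} {r z : Eis}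
    (hr : π ^ N ∣ r ^ 3 - (b : Eis)) (hz : π ^ N ∣ z ^ 3 - (x : Eis)) :
    π ^ N ∣ (p : Eis) ^ 3 + (-(z * p')) ^ 3 + (r * q) ^ 3 + (-(z * (r * q'))) ^ 3 := by
  obtain ⟨u, hu⟩ := hr
  obtain ⟨v, hv⟩ := hz
  have h1 : (p : Eis) ^ 3 + b * q ^ 3 = x * (p' ^ 3 + b * q' ^ 3) := by
    exact hS.eq
  refine ⟨u * (q ^ 3 - z ^ 3 * q' ^ 3) - v * (p' ^ 3 + b * q' ^ 3), ?_⟩
  linear_combination ((q : Eis) ^ 3 - z ^ 3 * q' ^ 3) * hu -
    ((p' : Eis) ^ 3 + b * q' ^ 3) * hv + h1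

/-- The identity for one cube root `z` of `x`, in the nondegenerate case. -/
theorem core {π : Eis} {s : Eis → Eis → ZMod 3} {e : ℕ} (hs : LSym π s e)
    (b x p q p' q' : Eis) (hb : b ≠ 0) (hx : x ≠ 0) (hS : SolE b x p q p' q') :
    ∃ K : ℕ, ∀ (M N : ℕ), K + 3 * M ≤ N → ∀ r z : Eis, π ^ N ∣ r ^ 3 - (b : Eis) →
      π ^ N ∣ z ^ 3 - (x : Eis) →
      ¬ π ^ M ∣ (p + w * (-(z * p')) + w * (r * q) + -(z * (r * q'))) → ∀ B : Eis, B ≠ 0 →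
      s (p - w ^ 2 * z * p') B + s (q - w * z * q') B + s (p + w ^ 2 * r * q) B +
        s (p' + w * r * q') B + s (GfE p q p' q' 2) B =
      s (w ^ 2) B + s (p - w * z * p') B + s (q - w ^ 2 * z * q') B + s (p + w * r * q) B +
        s (p' + w ^ 2 * r * q') B + s (GfE p q p' q' 1) B := by
  have hπ := hs.prime
  have he := hs.pos
  obtain ⟨c1, c2, cG1, cG2⟩ := consts hb hS
  refine ⟨2 * V π (b : Eis) + 2 * V π (x : Eis) + V π ((p ^ 3 + b * q ^ 3 : Eis) : Eis) +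
    V π ((p' ^ 3 + b * q' ^ 3 : Eis) : Eis) + V π ((p ^ 3 - x * p' ^ 3 : Eis) : Eis) +
    V π ((q ^ 3 - x * q' ^ 3 : Eis) : Eis) + V π (GfE p q p' q' 2) + e + 1, ?_⟩
  intro M N hN r z hr hz hE B hB
  obtain ⟨⟨-, vQ1⟩, -, vH1⟩ := forms hπ hb hS (by omega) (by omega) (by omega) (by omega) hr hz
    w_cube
  obtain ⟨⟨vP2, -⟩, vF2, -⟩ := forms hπ hb hS (by omega) (by omega) (by omega) (by omega) hr hz
    w2_cube
  have vr : r ≠ 0 ∧ V π r ≤ V π (b : Eis) := V_le (c' := r ^ 3) hπ (cast_ne hb)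
    (by omega : V π (b : Eis) < N) hr (dvd_pow_self r three_ne_zero)
  have vz : z ≠ 0 ∧ V π z ≤ V π (x : Eis) := V_le (c' := z ^ 3) hπ (cast_ne hx)
    (by omega : V π (x : Eis) < N) hz (dvd_pow_self z three_ne_zero)
  obtain ⟨E1, hE1⟩ : ∃ E1 : Eis, E1 = p + w * (-(z * p')) + w * (r * q) + -(z * (r * q')) :=
    ⟨_, rfl⟩
  obtain ⟨E2, hE2⟩ : ∃ E2 : Eis,
      E2 = p + w ^ 2 * (-(z * p')) + w ^ 2 * (r * q) + -(z * (r * q')) := ⟨_, rfl⟩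
  rw [← hE1] at hE
  have hE0 : E1 ≠ 0 := by
    rintro h
    rw [h] at hE
    exact hE (dvd_zero _)
  have hEV : V π E1 < M := by
    by_contra hcon
    exact hE (dvd_V (not_lt.mp hcon))
  have hkey := (sum_dvd hS hr hz).trans
    (key w_rel (p : Eis) (-(z * p')) (r * q) (-(z * (r * q'))))
  rw [← hE1, ← hE2] at hkey
  obtain ⟨F2, hF2⟩ : ∃ F2 : Eis, F2 = p - w ^ 2 * z * p' := ⟨_, rfl⟩
  obtain ⟨H1, hH1⟩ : ∃ H1 : Eis, H1 = q - w * z * q' := ⟨_, rfl⟩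
  obtain ⟨P2, hP2⟩ : ∃ P2 : Eis, P2 = p + w ^ 2 * r * q := ⟨_, rfl⟩
  obtain ⟨Q1, hQ1⟩ : ∃ Q1 : Eis, Q1 = p' + w * r * q' := ⟨_, rfl⟩
  obtain ⟨F1, hF1⟩ : ∃ F1 : Eis, F1 = p - w * z * p' := ⟨_, rfl⟩
  obtain ⟨H2, hH2⟩ : ∃ H2 : Eis, H2 = q - w ^ 2 * z * q' := ⟨_, rfl⟩
  obtain ⟨P1, hP1⟩ : ∃ P1 : Eis, P1 = p + w * r * q := ⟨_, rfl⟩
  obtain ⟨Q2, hQ2⟩ : ∃ Q2 : Eis, Q2 = p' + w ^ 2 * r * q' := ⟨_, rfl⟩
  obtain ⟨G1, hG1⟩ : ∃ G1 : Eis, G1 = GfE p q p' q' 1 := ⟨_, rfl⟩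
  obtain ⟨G2, hG2⟩ : ∃ G2 : Eis, G2 = GfE p q p' q' 2 := ⟨_, rfl⟩
  have eL : ((p : Eis) + w ^ 2 * (-(z * p'))) * (r * q + w * (-(z * (r * q')))) *
      (((p : Eis) + w ^ 2 * (r * q)) * (-(z * p') + w * (-(z * (r * q'))))) *
      (-(z * p') * (r * q) - w ^ 2 * ((p : Eis) * (-(z * (r * q'))))) * E1 ^ 3 =
      F2 * (r * H1) * (P2 * (-(z * Q1))) * (-(z * (r * G2))) * E1 ^ 3 := by
    rw [hF2, hH1, hP2, hQ1, hG2]
    unfold GfE
    ring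
  have eR : w ^ 2 * (((p : Eis) + w * (-(z * p'))) * (r * q + w ^ 2 * (-(z * (r * q')))) *
      (((p : Eis) + w * (r * q)) * (-(z * p') + w ^ 2 * (-(z * (r * q'))))) *
      (-(z * p') * (r * q) - w * ((p : Eis) * (-(z * (r * q'))))) * E2 ^ 3) =
      w ^ 2 * (F1 * (r * H2) * (P1 * (-(z * Q2))) * (-(z * (r * G1))) * E2 ^ 3) := by
    rw [hF1, hH2, hP1, hQ2, hG1]
    unfold GfE
    ring
  rw [eL, eR] at hkey
  rw [← hF2, ← hH1, ← hP2, ← hQ1, ← hF1, ← hH2, ← hP1, ← hQ2, ← hG1, ← hG2]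
  rw [← hF2] at vF2
  rw [← hH1] at vH1
  rw [← hP2] at vP2
  rw [← hQ1] at vQ1
  rw [← hG2] at hN cG2
  obtain ⟨hr0, hrV⟩ := vr
  obtain ⟨hz0, hzV⟩ := vz
  obtain ⟨hF0, hFV⟩ := vF2
  obtain ⟨hH0, hHV⟩ := vH1
  obtain ⟨hP0, hPV⟩ := vP2
  obtain ⟨hQ0, hQV⟩ := vQ1
  have n1 := mul_ne_zero hr0 hH0
  have n2 := mul_ne_zero hF0 n1
  have n3 := mul_ne_zero hz0 hQ0
  have n3' := neg_ne_zero.mpr n3
  have n4 := mul_ne_zero hP0 n3'
  have n5 := mul_ne_zero n2 n4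
  have n6 := mul_ne_zero hr0 cG2
  have n7 := mul_ne_zero hz0 n6
  have n7' := neg_ne_zero.mpr n7
  have n8 := mul_ne_zero n5 n7'
  have n9 := pow_ne_zero 3 hE0
  have n10 := mul_ne_zero n8 n9
  obtain ⟨L, hL⟩ : ∃ L : Eis, L = F2 * (r * H1) * (P2 * (-(z * Q1))) * (-(z * (r * G2))) *
      E1 ^ 3 := ⟨_, rfl⟩
  have hLV : V π L + e ≤ N := by
    rw [hL, V_mul hπ n8 n9, V_mul hπ n5 n7', V_mul hπ n2 n4, V_mul hπ hF0 n1, V_mul hπ hr0 hH0,
      V_mul hπ hP0 n3', V_neg, V_mul hπ hz0 hQ0, V_neg, V_mul hπ hz0 n6, V_mul hπ hr0 cG2,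
      V_pow hπ hE0]
    omega
  rw [← hL] at hkey n10
  obtain ⟨R, hR⟩ : ∃ R : Eis, R = w ^ 2 * (F1 * (r * H2) * (P1 * (-(z * Q2))) *
      (-(z * (r * G1))) * E2 ^ 3) := ⟨_, rfl⟩
  rw [← hR] at hkey
  have hd : π ^ (V π L + e) ∣ R - L := (pow_dvd_pow π hLV).trans hkey
  have hR0 : R ≠ 0 := (V_le hπ n10 (by omega) hd (dvd_refl R)).1
  have hcont := hs.cont L R B n10 hB hd
  rw [hR] at hR0
  have m1 := right_ne_zero_of_mul hR0
  have m0 := left_ne_zero_of_mul hR0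
  have m2 := right_ne_zero_of_mul m1
  have m3 := left_ne_zero_of_mul m1
  have m4 := right_ne_zero_of_mul m3
  have m5 := left_ne_zero_of_mul m3
  have m6 := right_ne_zero_of_mul m5
  have m7 := left_ne_zero_of_mul m5
  have m8 := right_ne_zero_of_mul m7
  have m9 := left_ne_zero_of_mul m7
  have m10 := right_ne_zero_of_mul m8
  have m11 := left_ne_zero_of_mul m6
  have m12 := right_ne_zero_of_mul m6
  have m13 := neg_ne_zero.mp m12
  have m14 := right_ne_zero_of_mul m13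
  have m15 := neg_ne_zero.mp m4
  have m16 := right_ne_zero_of_mul m15
  have m17 := right_ne_zero_of_mul m16
  have hE20 : E2 ≠ 0 := by
    intro h
    rw [h] at m2
    exact m2 (zero_pow three_ne_zero)
  have hsL : s L B = s F2 B + (s r B + s H1 B) + (s P2 B + (s z B + s Q1 B)) +
      (s z B + (s r B + s G2 B)) := by
    rw [hL, hs.mul _ _ _ n8 n9 hB, hs.mul _ _ _ n5 n7' hB, hs.mul _ _ _ n2 n4 hB,
      hs.mul _ _ _ hF0 n1 hB, hs.mul _ _ _ hr0 hH0 hB, hs.mul _ _ _ hP0 n3' hB,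
      s_neg hs hB n3, hs.mul _ _ _ hz0 hQ0 hB, s_neg hs hB n7, hs.mul _ _ _ hz0 n6 hB,
      hs.mul _ _ _ hr0 cG2 hB, s_cube hs hB hE0, add_zero]
  have hsR : s R B = s (w ^ 2) B + (s F1 B + (s r B + s H2 B) + (s P1 B + (s z B + s Q2 B)) +
      (s z B + (s r B + s G1 B))) := by
    rw [hR, hs.mul _ _ _ m0 m1 hB, hs.mul _ _ _ m3 m2 hB, hs.mul _ _ _ m5 m4 hB,
      hs.mul _ _ _ m7 m6 hB, hs.mul _ _ _ m9 m8 hB, hs.mul _ _ _ hr0 m10 hB,
      hs.mul _ _ _ m11 m12 hB, s_neg hs hB m13, hs.mul _ _ _ hz0 m14 hB, s_neg hs hB m15,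
      hs.mul _ _ _ hz0 m16 hB, hs.mul _ _ _ hr0 m17 hB, s_cube hs hB hE20, add_zero]
  rw [hsL, hsR] at hcont
  linear_combination -hcont

/-- Both roots `z`, `w z` cannot be degenerate. -/
theorem not_both {π : Eis} (hπ : Prime π)
    (b x p q p' q' : Eis) (hb : b ≠ 0) (hx : x ≠ 0) (hS : SolE b x p q p' q') :
    ∃ M0 : ℕ, ∀ N : ℕ, M0 ≤ N → ∀ r z : Eis, π ^ N ∣ r ^ 3 - (b : Eis) →
      π ^ N ∣ z ^ 3 - (x : Eis) →
      π ^ M0 ∣ (p + w * (-(z * p')) + w * (r * q) + -(z * (r * q'))) →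
      π ^ M0 ∣ (p + w * (-((w * z) * p')) + w * (r * q) + -((w * z) * (r * q'))) → False := by
  obtain ⟨c1, c2, cG1, cG2⟩ := consts hb hS
  have h30 : (3 : Eis) ≠ 0 := by
    have h := Pool.Agent.PT.IF1.cast_ne (n := 3) (by norm_num)
    rwa [Int.cast_ofNat] at h
  refine ⟨(V π (3 : Eis) + V π (x : Eis) + V π (b : Eis) + V π (GfE p q p' q' 1)) +
    (V π (w - 1 : Eis) + V π (x : Eis) + V π (b : Eis) + V π (p' : Eis) + V π (q' : Eis) + 1),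
    ?_⟩
  intro N hN r z hr hz h1 h2
  obtain ⟨hr0, hrV⟩ : r ≠ 0 ∧ V π r ≤ V π (b : Eis) := V_le (c' := r ^ 3) hπ (cast_ne hb)
    (by omega : V π (b : Eis) < N) hr (dvd_pow_self r three_ne_zero)
  obtain ⟨hz0, hzV⟩ : z ≠ 0 ∧ V π z ≤ V π (x : Eis) := V_le (c' := z ^ 3) hπ (cast_ne hx)
    (by omega : V π (x : Eis) < N) hz (dvd_pow_self z three_ne_zero)
  have hw0 : (w : Eis) ≠ 0 := w_ne
  have hVw : V π (w : Eis) = 0 := by
    apply V_eq_zero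
    intro h
    have h3 : π ∣ 1 := by
      rw [← w_cube]
      exact h.trans (dvd_pow_self w three_ne_zero)
    exact hπ.not_isUnit (isUnit_of_dvd_one h3)
  have hwz : π ^ N ∣ (w * z) ^ 3 - (x : Eis) := by
    have e1 : (w * z) ^ 3 = z ^ 3 := by
      rw [mul_pow, w_cube, one_mul]
    rw [e1]
    exact hz
  -- one degenerate root
  have key1 : ∀ y : Eis, y ≠ 0 → V π y ≤ V π (x : Eis) → π ^ N ∣ y ^ 3 - (x : Eis) →
      ∀ M : ℕ, M ≤ N → π ^ M ∣ (p + w * (-(y * p')) + w * (r * q) + -(y * (r * q'))) →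
      π ^ (M - (V π (3 : Eis) + V π (x : Eis) + V π (b : Eis) + V π (GfE p q p' q' 1))) ∣
        (-(y * p') + r * q) ∧
      π ^ (M - (V π (3 : Eis) + V π (x : Eis) + V π (b : Eis) + V π (GfE p q p' q' 1))) ∣
        ((p : Eis) - y * (r * q')) := by
    intro y hy hyV hyx M hM hE
    have e1 := degen w_cube (p : Eis) (-(y * p')) (r * q) (-(y * (r * q')))
    have e2 : π ^ M ∣ 3 * (-(y * p') + r * q) *
        (-(y * p') * (r * q) - w * ((p : Eis) * (-(y * (r * q'))))) := by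
      rw [e1]
      exact dvd_sub (Dvd.dvd.mul_right hE _) ((pow_dvd_pow π hM).trans (sum_dvd hS hr hyx))
    have e3 : 3 * (-(y * p') + r * q) *
        (-(y * p') * (r * q) - w * ((p : Eis) * (-(y * (r * q'))))) =
        (-(3 * (y * (r * GfE p q p' q' 1)))) * (-(y * p') + r * q) := by
      unfold GfE
      ring
    rw [e3] at e2
    have f1 := mul_ne_zero hr0 cG1
    have f2 := mul_ne_zero hy f1
    have f3 := mul_ne_zero h30 f2
    have e4 := dvd_cancel hπ (neg_ne_zero.mpr f3) (K := V π (3 : Eis) + V π (x : Eis) +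
      V π (b : Eis) + V π (GfE p q p' q' 1)) (by
        rw [V_neg, V_mul hπ h30 f2, V_mul hπ hy f1, V_mul hπ hr0 cG1]
        omega) e2
    refine ⟨e4, ?_⟩
    have e5 : (p : Eis) - y * (r * q') =
        (p + w * (-(y * p')) + w * (r * q) + -(y * (r * q'))) -
          w * (-(y * p') + r * q) := by ring
    rw [e5]
    exact dvd_sub ((pow_dvd_pow π (by omega)).trans hE) (Dvd.dvd.mul_left e4 _)
  obtain ⟨a1, a2⟩ := key1 z hz0 hzV hz _ hN h1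
  obtain ⟨a3, a4⟩ := key1 (w * z) (mul_ne_zero hw0 hz0)
    (by rw [V_mul hπ hw0 hz0, hVw, zero_add]; exact hzV) hwz _ hN h2
  rw [Nat.add_sub_cancel_left] at a1 a2 a3 a4
  have b1 : π ^ (V π (w - 1 : Eis) + V π (x : Eis) + V π (b : Eis) + V π (p' : Eis) +
      V π (q' : Eis) + 1) ∣ (w - 1) * (z * p') := by
    have := dvd_sub a1 a3
    have e1 : -(z * (p' : Eis)) + r * q - (-(w * z * p') + r * q) = (w - 1) * (z * p') := by ring
    rwa [e1] at this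
  have b2 : π ^ (V π (w - 1 : Eis) + V π (x : Eis) + V π (b : Eis) + V π (p' : Eis) +
      V π (q' : Eis) + 1) ∣ (w - 1) * (z * (r * q')) := by
    have := dvd_sub a2 a4
    have e1 : (p : Eis) - z * (r * q') - (p - w * z * (r * q')) = (w - 1) * (z * (r * q')) := by
      ring
    rwa [e1] at this
  by_cases hp : p' = 0
  · have hq : q' ≠ 0 := by
      rintro rfl
      apply c1
      rw [hp]
      ring
    have hqE := cast_ne hq
    have f1 := mul_ne_zero hr0 hqE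
    have f2 := mul_ne_zero hz0 f1
    have h3 := le_V hπ (mul_ne_zero w_sub_ne f2) b2
    rw [V_mul hπ w_sub_ne f2, V_mul hπ hz0 f1, V_mul hπ hr0 hqE] at h3
    omega
  · have hpE := cast_ne hp
    have f2 := mul_ne_zero hz0 hpE
    have h3 := le_V hπ (mul_ne_zero w_sub_ne f2) b1
    rw [V_mul hπ w_sub_ne f2, V_mul hπ hz0 hpE] at h3
    omega

end IF1

open Pool.Agent.PTK.IF1 (consts core not_both forms sum_dvd cast_ne) in
open Pool.Agent.PT.IF1 (key degen le_V dvd_V V_le dvd_cancel two_mul_eq_zero three_mul_eq s_one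
  s_neg s_cube w_ne dvd_sub3 dvd_add3 w2_cube w_sub_ne) in
/-- IF1: `α_b α_x = w⁻¹ k_0` modulo cubes. -/
theorem IF1_thm : Stmt_IF1 := by
  intro π s e hs b x p q p' q' hb hx hS
  have hπ := hs.prime
  have he := hs.pos
  obtain ⟨c1, c2, cG1, cG2⟩ := consts hb hS
  obtain ⟨K, hK⟩ := core hs b x p q p' q' hb hx hS
  obtain ⟨M0, hM0⟩ := not_both hπ b x p q p' q' hb hx hS
  refine ⟨K + 3 * M0 + M0 + V π (b : Eis) + V π ((p ^ 3 + b * q ^ 3 : Eis) : Eis) +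
    V π ((p' ^ 3 + b * q' ^ 3 : Eis) : Eis) + V π ((p ^ 3 - x * p' ^ 3 : Eis) : Eis) +
    V π ((q ^ 3 - x * q' ^ 3 : Eis) : Eis) + e + 1, ?_⟩
  intro r ξ hr hξ B hB
  obtain ⟨N, hN⟩ : ∃ N : ℕ, N = K + 3 * M0 + M0 + V π (b : Eis) +
    V π ((p ^ 3 + b * q ^ 3 : Eis) : Eis) +
    V π ((p' ^ 3 + b * q' ^ 3 : Eis) : Eis) + V π ((p ^ 3 - x * p' ^ 3 : Eis) : Eis) +
    V π ((q ^ 3 - x * q' ^ 3 : Eis) : Eis) + e + 1 := ⟨_, rfl⟩
  rw [← hN] at hr hξ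
  have hw1 := w_cube
  have forms1 := fun (t : Eis) (ht : t ^ 3 = 1) => forms hπ hb hS (N := N) (by omega) (by omega)
    (by omega) (by omega) hr hξ ht
  obtain ⟨⟨⟨nP0, -⟩, nQ0, -⟩, ⟨nF0, -⟩, nH0, -⟩ := forms1 1 (one_pow 3)
  obtain ⟨⟨⟨nP1, -⟩, nQ1, -⟩, ⟨nF1, -⟩, nH1, -⟩ := forms1 w w_cube
  obtain ⟨⟨⟨nP2, -⟩, nQ2, -⟩, ⟨nF2, -⟩, nH2, -⟩ := forms1 (w ^ 2) w2_cube
  -- the main equation
  have hmain : s (p - w ^ 2 * ξ * p') B + s (q - w * ξ * q') B + s (p + w ^ 2 * r * q) B +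
        s (p' + w * r * q') B + s (GfE p q p' q' 2) B =
      s (w ^ 2) B + s (p - w * ξ * p') B + s (q - w ^ 2 * ξ * q') B + s (p + w * r * q) B +
        s (p' + w ^ 2 * r * q') B + s (GfE p q p' q' 1) B := by
    by_cases h1 : π ^ M0 ∣ ((p : Eis) + w * (-((ξ : Eis) * p')) + w * ((r : Eis) * q) +
        -((ξ : Eis) * (r * q')))
    swap
    · exact hK M0 N (by omega) r ξ hr hξ h1 B hB
    by_cases h2 : π ^ M0 ∣ ((p : Eis) + w * (-((w * (ξ : Eis)) * p')) + w * ((r : Eis) * q) +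
        -((w * (ξ : Eis)) * (r * q')))
    · exact absurd (hM0 N (by omega) r ξ hr hξ h1 h2) id
    have hwz : π ^ N ∣ (w * (ξ : Eis)) ^ 3 - (x : Eis) := by
      have e1 : (w * (ξ : Eis)) ^ 3 = (ξ : Eis) ^ 3 := by
        rw [mul_pow, w_cube, one_mul]
      rw [e1]
      exact hξ
    have h3 := hK M0 N (by omega) r (w * ξ) hr hwz h2 B hB
    have e1 : (p : Eis) - w ^ 2 * (w * ξ) * p' = p - 1 * ξ * p' := by
      linear_combination (-(ξ : Eis) * p') * hw1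
    have e2 : (q : Eis) - w * (w * ξ) * q' = q - w ^ 2 * ξ * q' := by ring
    have e3 : (p : Eis) - w * (w * ξ) * p' = p - w ^ 2 * ξ * p' := by ring
    have e4 : (q : Eis) - w ^ 2 * (w * ξ) * q' = q - 1 * ξ * q' := by
      linear_combination (-(ξ : Eis) * q') * hw1
    rw [e1, e2, e3, e4] at h3
    -- the sums
    have hrel := w_rel
    have g1 : s (p - 1 * ξ * p') B + s (p - w * ξ * p') B + s (p - w ^ 2 * ξ * p') B =
        s ((p ^ 3 - x * p' ^ 3 : Eis) : Eis) B := by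
      rw [← hs.mul _ _ _ nF0 nF1 hB, ← hs.mul _ _ _ (mul_ne_zero nF0 nF1) nF2 hB]
      apply hs.cont _ _ _ (cast_ne hS.n2) hB
      have e5 : ((p : Eis) - 1 * ξ * p') * (p - w * ξ * p') * (p - w ^ 2 * ξ * p') -
          ((p ^ 3 - x * p' ^ 3 : Eis) : Eis) = ((ξ : Eis) ^ 3 - x) * (-p' ^ 3) := by
        linear_combination (-(p : Eis) ^ 2 * (ξ * p') + w * p * (ξ * p') ^ 2 -
          (w - 1) * ((ξ : Eis) * p') ^ 3) * hrel
      rw [e5]
      exact Dvd.dvd.mul_right ((pow_dvd_pow π (by omega)).trans hξ) _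
    have c3 : q ^ 3 - x * q' ^ 3 ≠ 0 := by
      intro h
      apply c2
      linear_combination -h
    have g2 : s (q - 1 * ξ * q') B + s (q - w * ξ * q') B + s (q - w ^ 2 * ξ * q') B =
        s ((q ^ 3 - x * q' ^ 3 : Eis) : Eis) B := by
      rw [← hs.mul _ _ _ nH0 nH1 hB, ← hs.mul _ _ _ (mul_ne_zero nH0 nH1) nH2 hB]
      apply hs.cont _ _ _ (cast_ne c3) hB
      have e5 : ((q : Eis) - 1 * ξ * q') * (q - w * ξ * q') * (q - w ^ 2 * ξ * q') -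
          ((q ^ 3 - x * q' ^ 3 : Eis) : Eis) = ((ξ : Eis) ^ 3 - x) * (-q' ^ 3) := by
        linear_combination (-(q : Eis) ^ 2 * (ξ * q') + w * q * (ξ * q') ^ 2 -
          (w - 1) * ((ξ : Eis) * q') ^ 3) * hrel
      rw [e5]
      exact Dvd.dvd.mul_right ((pow_dvd_pow π (by omega)).trans hξ) _
    have g3 : s ((p ^ 3 - x * p' ^ 3 : Eis) : Eis) B = s ((q ^ 3 - x * q' ^ 3 : Eis) : Eis) B := by
      have e5 : ((p ^ 3 - x * p' ^ 3 : Eis) : Eis) = -((b : Eis) *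
          ((q ^ 3 - x * q' ^ 3 : Eis) : Eis)) := by
        have e6 : (p ^ 3 - x * p' ^ 3 : Eis) = -(b * (q ^ 3 - x * q' ^ 3)) := by
          have h6 := hS.eq
          linear_combination h6
        rw [e6]
      have hbE := cast_ne hb
      have hcE := cast_ne c3
      rw [e5, s_neg hs hB (mul_ne_zero hbE hcE), hs.mul _ _ _ hbE hcE hB]
      have e7 : s (b : Eis) B = 0 := by
        have hr0 : (r : Eis) ≠ 0 := (V_le (c' := (r : Eis) ^ 3) hπ hbE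
          (by omega : V π (b : Eis) < N) hr (dvd_pow_self (r : Eis) three_ne_zero)).1
        rw [← hs.cont (b : Eis) ((r : Eis) ^ 3) B hbE hB ((pow_dvd_pow π (by omega)).trans hr),
          s_cube hs hB hr0]
      rw [e7, zero_add]
    have t1 := three_mul_eq (s ((p : Eis) - w ^ 2 * ξ * p') B)
    have t2 := three_mul_eq (s ((q : Eis) - w ^ 2 * ξ * q') B)
    linear_combination h3 + t1 - t2 - g1 + g2 - g3
  -- conclusion
  have f1 : LfE p q 2 r = p + w ^ 2 * r * q := by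
    unfold LfE
    ring
  have f2 : LfE p' q' 1 r = p' + w * r * q' := by
    unfold LfE
    ring
  have f3 : LfE p q 1 r = p + w * r * q := by
    unfold LfE
    ring
  have f4 : LfE p' q' 2 r = p' + w ^ 2 * r * q' := by
    unfold LfE
    ring
  have f5 : LfE p (-p') 2 ξ = p - w ^ 2 * ξ * p' := by
    unfold LfE
    ring
  have f6 : LfE (-q) q' 1 ξ = -(q - w * ξ * q') := by
    unfold LfE
    ring
  have f7 : LfE p (-p') 1 ξ = p - w * ξ * p' := by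
    unfold LfE
    ring
  have f8 : LfE (-q) q' 2 ξ = -(q - w ^ 2 * ξ * q') := by
    unfold LfE
    ring
  unfold ASE
  rw [f1, f2, f3, f4, f5, f6, f7, f8, hs.skew _ _ nP2 hB, hs.skew _ _ nQ1 hB,
    hs.skew _ _ nP1 hB, hs.skew _ _ nQ2 hB, hs.skew _ _ nF2 hB,
    hs.skew _ _ (neg_ne_zero.mpr nH1) hB, hs.skew _ _ nF1 hB,
    hs.skew _ _ (neg_ne_zero.mpr nH2) hB, s_neg hs hB nH1, s_neg hs hB nH2,
    hs.skew _ _ cG1 hB, hs.skew _ _ cG2 hB]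
  have hw2 : s (w ^ 2) B = s w B + s w B := by
    rw [pow_two, hs.mul _ _ _ w_ne w_ne hB]
  rw [hw2] at hmain
  have t3 := three_mul_eq (s w B)
  linear_combination -hmain - t3

end Pool.Agent.PTK
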