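import Pool.Agent.PTK.StL

/-!
# PTK_IF2: `(x, α_b) = (x, k_0) + (w, x)`
-/

set_option autoImplicit false

namespace Pool.Agent.PTK

open Pool.Agent.Lib_helper18 Pool.Agent.Lib_helper18.Eis Pool.Agent.Lib_helper84.Cub
open Pool.Agent.PT hiding IF2

namespace IF2

theorem not_dvd {π a : Eis} (hπ : Prime π) (ha : a ≠ 0) {N : ℕ} (hN : V π a < N) :
    ¬ π ^ N ∣ a := by
  intro h
  have h1 := (fin hπ ha).le_multiplicity_of_pow_dvd h
  unfold V at hN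
  omega

theorem near_ne {π a a' : Eis} (hπ : Prime π) (ha : a ≠ 0) {N : ℕ} (hN : V π a < N)
    (h : π ^ N ∣ a' - a) : a' ≠ 0 := by
  rintro rfl
  rw [zero_sub, dvd_neg] at h
  exact not_dvd hπ ha hN h

theorem wi_cube (i : ℕ) : (w ^ i) ^ 3 = 1 := by
  rw [← pow_mul, mul_comm, pow_mul, w_cube, one_pow]

theorem w_ne : w ≠ 0 := by
  intro h
  have := congrArg Eis.im h
  simp at this

/-- each linear form divides the norm form -/
theorem form_dvd (X Y ξ : Eis) (i : ℕ) : X + w ^ i * ξ * Y ∣ X ^ 3 + ξ ^ 3 * Y ^ 3 := by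
  refine ⟨X ^ 2 - X * (w ^ i * ξ * Y) + (w ^ i * ξ * Y) ^ 2, ?_⟩
  have h := wi_cube i
  have : (X + w ^ i * ξ * Y) * (X ^ 2 - X * (w ^ i * ξ * Y) + (w ^ i * ξ * Y) ^ 2) =
      X ^ 3 + (w ^ i) ^ 3 * ξ ^ 3 * Y ^ 3 := by ring
  rw [this, h, one_mul]

theorem form_prod (X Y ξ : Eis) : (X + w ^ 0 * ξ * Y) * (X + w ^ 1 * ξ * Y) *
    (X + w ^ 2 * ξ * Y) = X ^ 3 + ξ ^ 3 * Y ^ 3 := by
  linear_combination (X ^ 2 * ξ * Y + X * ξ ^ 2 * Y ^ 2 * w) * w_rel +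
    (ξ ^ 3 * Y ^ 3) * w_cube

section

variable {π : Eis} {s : Eis → Eis → ZMod 3} {e : ℕ}

theorem mul_right (hS : LSym π s e) {a b c : Eis} (ha : a ≠ 0) (hb : b ≠ 0) (hc : c ≠ 0) :
    s c (a * b) = s c a + s c b := by
  rw [hS.skew (a * b) c (mul_ne_zero ha hb) hc, hS.mul a b c ha hb hc, hS.skew c a hc ha,
    hS.skew c b hc hb]
  ring

theorem cont_right (hS : LSym π s e) {a a' b : Eis} (ha : a ≠ 0) (ha' : a' ≠ 0) (hb : b ≠ 0)
    (h : π ^ (V π a + e) ∣ a' - a) : s b a' = s b a := by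
  rw [hS.skew a' b ha' hb, hS.cont a a' b ha hb h, hS.skew b a hb ha]
  ring

end

end IF2

open IF2 in
theorem IF2_thm (hSTAR : STAR) : Stmt_IF2 := by
  intro π s e hS b x p q p' q' hb hx hsol
  set n0 : Eis := p' ^ 3 + b * q' ^ 3 with hn0def
  set g0 : Eis := p ^ 3 + b * q ^ 3 with hg0def
  have hg0 : g0 = x * n0 := by
    rw [hn0def, hg0def]
    exact hsol.eq
  have hg0ne : g0 ≠ 0 := by
    rw [hg0def]
    exact hsol.n1
  have hn0ne : n0 ≠ 0 := by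
    intro h
    apply hg0ne
    rw [hg0, h, mul_zero]
  have hxe : x ≠ 0 := hx
  have hbe : b ≠ 0 := hb
  have hD1 := hsol.g1
  have hD2 := hsol.g2
  refine ⟨V π b + V π n0 + V π g0 + e + 1, ?_⟩
  intro r hr
  set N0 := V π b + V π n0 + V π g0 + e + 1 with hN0
  have hr0 : r ≠ 0 := by
    rintro h
    have : r ^ 3 ≠ 0 := near_ne hS.prime hbe (by omega) hr
    exact this (by rw [h]; ring)
  have hFdvd : π ^ N0 ∣ (p' ^ 3 + r ^ 3 * q' ^ 3) - n0 := by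
    have : (p' ^ 3 + r ^ 3 * q' ^ 3) - n0 =
        (r ^ 3 - b) * q' ^ 3 := by rw [hn0def]; ring
    rw [this]
    exact hr.mul_right _
  have hGdvd : π ^ N0 ∣ (p ^ 3 + r ^ 3 * q ^ 3) - g0 := by
    have : (p ^ 3 + r ^ 3 * q ^ 3) - g0 =
        (r ^ 3 - b) * q ^ 3 := by rw [hg0def]; ring
    rw [this]
    exact hr.mul_right _
  set n1 : Eis := p' ^ 3 + r ^ 3 * q' ^ 3 with hn1
  set g1 : Eis := p ^ 3 + r ^ 3 * q ^ 3 with hg1
  have hn1ne : n1 ≠ 0 := near_ne hS.prime hn0ne (by omega) hFdvd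
  have hg1ne : g1 ≠ 0 := near_ne hS.prime hg0ne (by omega) hGdvd
  let F : ℕ → Eis := fun i => p' + w ^ i * r * q'
  let G : ℕ → Eis := fun i => p + w ^ i * r * q
  have hF : ∀ i, F i ≠ 0 := fun i => ne_zero_of_dvd_ne_zero hn1ne (form_dvd _ _ _ i)
  have hG : ∀ i, G i ≠ 0 := fun i => ne_zero_of_dvd_ne_zero hg1ne (form_dvd _ _ _ i)
  have hFL : ∀ i, LfE p' q' i r = F i := fun i => by unfold LfE; ring
  have hGL : ∀ i, LfE p q i r = G i := fun i => by unfold LfE; ring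
  have hFp : F 0 * F 1 * F 2 = n1 := form_prod _ _ _
  have hGp : G 0 * G 1 * G 2 = g1 := form_prod _ _ _
  -- replace `n1`, `g1` by the integers `n0`, `g0`
  have cn : ∀ c : Eis, c ≠ 0 → s c n1 = s c n0 := fun c hc =>
    cont_right hS hn0ne hn1ne hc ((pow_dvd_pow π (by omega)).trans hFdvd)
  have cn' : ∀ c : Eis, c ≠ 0 → s n1 c = s n0 c := fun c hc =>
    hS.cont _ _ _ hn0ne hc ((pow_dvd_pow π (by omega)).trans hFdvd)
  have cg : ∀ c : Eis, c ≠ 0 → s c g1 = s c x + s c n0 := fun c hc => by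
    rw [cont_right hS hg0ne hg1ne hc ((pow_dvd_pow π (by omega)).trans hGdvd), hg0,
      mul_right hS hxe hn0ne hc]
  obtain ⟨s1, s2⟩ := hSTAR π s e hS p' q' p q r F G
    (GfE p q p' q') (fun i => rfl) (fun i => rfl) (fun i => by unfold GfE; ring) hr0 hF
  obtain ⟨t1, _⟩ := hSTAR π s e hS p q p q r G G
    (fun i => p * q - w ^ i * p * q) (fun i => rfl) (fun i => rfl) (fun i => rfl) hr0 hG
  have s3 := s2 hG hD1 hD2
  rw [hFp, cn _ (hF 1), cn _ (hF 2), cn _ w_ne] at s1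
  rw [hGp, cg _ (hG 1), cg _ (hG 2), cg _ w_ne] at t1
  rw [hFp, hGp, cg _ hD1, cg _ hD2, cn _ hD1, cn _ hD2, cn _ w_ne, cn' _ (hG 2), cn' _ (hG 1),
    cg _ (hF 1), cg _ (hF 2), hS.skew _ _ (hG 2) hn0ne, hS.skew _ _ (hG 1) hn0ne] at s3
  unfold ASE
  rw [hFL, hFL, hGL, hGL, hS.skew _ _ (hG 2) hxe, hS.skew _ _ (hF 1) hxe, hS.skew _ _ (hG 1) hxe,
    hS.skew _ _ (hF 2) hxe, hS.skew _ _ hD1 hxe, hS.skew _ _ hD2 hxe]
  have h3 : (3 : ZMod 3) = 0 := rfl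
  linear_combination s3 + s1 + t1 + s w n0 * h3

end Pool.Agent.PTK
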