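import Pool.Agent.PTK.StL
import Pool.Agent.PT.IF4

/-!
# IF4: the local term of a point over `K` when `x` is a local cube
-/

set_option autoImplicit false

namespace Pool.Agent.PTK

open Pool.Agent.Lib_helper18 Pool.Agent.Lib_helper18.Eis Pool.Agent.Lib_helper84.Cub
open Pool.Agent.PT Pool.Agent.PT.IF4

theorem IF4_thm (hSTAR : STAR) : Stmt_IF4 := by
  intro π s e hs b x p q p' q' X Y cb cx hsol hX hY cn0 hD
  have hN12 : p ^ 3 - x * p' ^ 3 = b * (x * q' ^ 3 - q ^ 3) := by linear_combination hsol.eq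
  have cN1 : p ^ 3 - x * p' ^ 3 ≠ 0 := hsol.n2
  have cN2 : x * q' ^ 3 - q ^ 3 ≠ 0 := by
    intro h
    rw [h, mul_zero] at hN12
    exact cN1 hN12
  refine ⟨V π (X ^ 3 + x * Y ^ 3) + V π (p ^ 3 - x * p' ^ 3) +
    V π (x * q' ^ 3 - q ^ 3) + V π x + e + 1, ?_⟩
  intro ξ hξ
  set N : ℕ := V π (X ^ 3 + x * Y ^ 3) + V π (p ^ 3 - x * p' ^ 3) +
    V π (x * q' ^ 3 - q ^ 3) + V π x + e + 1 with hN
  have hξ0 : ξ ≠ 0 := by
    intro h
    have := (approx hs cx (N := N) (by omega) hξ).1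
    apply this
    rw [h]
    ring
  -- the products
  have eF : LfE X Y 0 ξ * LfE X Y 1 ξ * LfE X Y 2 ξ = X ^ 3 + (ξ * Y) ^ 3 := by
    rw [← prod3]
    simp only [LfE]
    ring
  have eG : LfE p (-p') 0 ξ * LfE p (-p') 1 ξ * LfE p (-p') 2 ξ
      = p ^ 3 + (ξ * (-p')) ^ 3 := by
    rw [← prod3]
    simp only [LfE]
    ring
  have eG' : LfE (-q) q' 0 ξ * LfE (-q) q' 1 ξ * LfE (-q) q' 2 ξ
      = (-q) ^ 3 + (ξ * q') ^ 3 := by
    rw [← prod3]
    simp only [LfE]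
    ring
  obtain ⟨hF0, hF⟩ := approx hs cn0 (a' := X ^ 3 + (ξ * Y) ^ 3) (N := N)
    (by omega) (by
      have e1 : X ^ 3 + (ξ * Y) ^ 3 - (X ^ 3 + x * Y ^ 3)
          = (ξ ^ 3 - x) * Y ^ 3 := by ring
      rw [e1]
      exact Dvd.dvd.mul_right hξ _)
  obtain ⟨hG0, hG⟩ := approx hs cN1 (a' := p ^ 3 + (ξ * (-p')) ^ 3) (N := N)
    (by omega) (by
      have e1 : p ^ 3 + (ξ * (-p')) ^ 3 - (p ^ 3 - x * p' ^ 3)
          = (ξ ^ 3 - x) * (-p' ^ 3) := by ring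
      rw [e1]
      exact Dvd.dvd.mul_right hξ _)
  obtain ⟨hG0', hG'⟩ := approx hs cN2 (a' := (-q) ^ 3 + (ξ * q') ^ 3) (N := N)
    (by omega) (by
      have e1 : (-q) ^ 3 + (ξ * q') ^ 3 - (x * q' ^ 3 - q ^ 3)
          = (ξ ^ 3 - x) * (q' ^ 3) := by ring
      rw [e1]
      exact Dvd.dvd.mul_right hξ _)
  have nF : ∀ i, LfE X Y i ξ ≠ 0 := by
    intro i
    have := lin_ne _ _ hF0 i
    intro h
    apply this
    rw [← h]
    simp only [LfE]
    ring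
  have nG : ∀ i, LfE p (-p') i ξ ≠ 0 := by
    intro i
    have := lin_ne _ _ hG0 i
    intro h
    apply this
    rw [← h]
    simp only [LfE]
    ring
  have nG' : ∀ i, LfE (-q) q' i ξ ≠ 0 := by
    intro i
    have := lin_ne _ _ hG0' i
    intro h
    apply this
    rw [← h]
    simp only [LfE]
    ring
  obtain ⟨nD1, nD2, nD1', nD2'⟩ := hD
  have S1 := (hSTAR π s e hs X Y p (-p') ξ (fun i => LfE X Y i ξ) (fun i => LfE p (-p') i ξ)
    (fun i => -DfE X Y p' p i) (fun i => by simp only [LfE]; ring)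
    (fun i => by simp only [LfE]; ring)
    (fun i => by simp only [DfE]; ring) hξ0 nF).2 nG (neg_ne_zero.2 nD1)
    (neg_ne_zero.2 nD2)
  have S2 := (hSTAR π s e hs X Y (-q) q' ξ (fun i => LfE X Y i ξ) (fun i => LfE (-q) q' i ξ)
    (fun i => DfE X Y q' q i) (fun i => by simp only [LfE]; ring)
    (fun i => by simp only [LfE]; ring)
    (fun i => by simp only [DfE]; ring) hξ0 nF).2 nG' nD1' nD2'
  simp only [eF, eG, eG'] at S1 S2
  have hw : w ≠ 0 := by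
    intro h
    have := congrArg Eis.im h
    simp at this
  rw [s_neg hs nD1 hG0, s_neg hs nD2 hG0, s_neg hs nD1 hF0, s_neg hs nD2 hF0,
    (hG _ nD1).2, (hG _ nD2).2, (hF _ nD1).2, (hF _ nD2).2, (hF _ hw).2, (hF _ (nG 2)).1,
    (hF _ (nG 1)).1, (hG _ (nF 1)).2, (hG _ (nF 2)).2] at S1
  rw [(hG' _ nD1').2, (hG' _ nD2').2, (hF _ nD1').2, (hF _ nD2').2, (hF _ hw).2,
    (hF _ (nG' 2)).1, (hF _ (nG' 1)).1, (hG' _ (nF 1)).2, (hG' _ (nF 2)).2] at S2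
  have hb1 : ∀ i, s (LfE X Y i ξ) (p ^ 3 - x * p' ^ 3)
      = s (LfE X Y i ξ) b + s (LfE X Y i ξ) (x * q' ^ 3 - q ^ 3) := by
    intro i
    rw [← mul_right hs (nF i) cb cN2, hN12]
  rw [hb1 1, hb1 2] at S1
  unfold SVE ASE
  linear_combination S1 - S2

end Pool.Agent.PTK
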