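import Pool.Agent.PTK.StL
import Pool.Agent.PT.IF4B

/-!
# IF4B: the symbol of `F_1 / F_2` and `n_0` over `K`
-/

set_option autoImplicit false

namespace Pool.Agent.PTK

open Pool.Agent.Lib_helper18 Pool.Agent.Lib_helper18.Eis Pool.Agent.Lib_helper84.Cub
open Pool.Agent.PT Pool.Agent.PT.IF4B

theorem IF4B_thm (hSTAR : STAR) : Stmt_IF4B := by
  intro π s e hs x X Y hx' _ _ hn'
  have hw : w ≠ 0 := by
    intro h
    have h1 := congrArg Eis.im h
    simp at h1
  set n0 : Eis := X ^ 3 + x * Y ^ 3 with hn0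
  refine ⟨V π n0 + V π x + e + 1, fun ξ hξ => ?_⟩
  have hξ0 : ξ ≠ 0 := by
    intro h
    rw [h] at hξ
    refine not_dvd hs.prime hx' (N := V π n0 + V π x + e + 1) (by omega) ?_
    have h1 : (0 : Eis) ^ 3 - x = -x := by ring
    rw [h1, dvd_neg] at hξ
    exact hξ
  have hprod := prod_eq X ξ Y
  have hdvd : π ^ (V π n0 + V π x + e + 1) ∣ X ^ 3 + ξ ^ 3 * Y ^ 3 - n0 := by
    have h1 : X ^ 3 + ξ ^ 3 * Y ^ 3 - n0 = (ξ ^ 3 - x) * Y ^ 3 := by
      rw [hn0]
      ring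
    rw [h1]
    exact Dvd.dvd.mul_right hξ _
  have hne : X ^ 3 + ξ ^ 3 * Y ^ 3 ≠ 0 := by
    intro h
    rw [h, zero_sub, dvd_neg] at hdvd
    exact not_dvd hs.prime hn' (by omega) hdvd
  set F : ℕ → Eis := fun i => X + w ^ i * ξ * Y with hF
  have hF3 : F 0 * F 1 * F 2 = X ^ 3 + ξ ^ 3 * Y ^ 3 := hprod
  have hF0 : F 0 ≠ 0 := by
    intro h
    rw [h, zero_mul, zero_mul] at hF3
    exact hne hF3.symm
  have hF1 : F 1 ≠ 0 := by
    intro h
    rw [h, mul_zero, zero_mul] at hF3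
    exact hne hF3.symm
  have hF2 : F 2 ≠ 0 := by
    intro h
    rw [h, mul_zero] at hF3
    exact hne hF3.symm
  have hFi : ∀ i, F i ≠ 0 := by
    intro i
    have h1 : F i = F (i % 3) := by
      simp only [hF]
      rw [w_pow i]
    rw [h1]
    have h2 : i % 3 < 3 := Nat.mod_lt _ (by norm_num)
    interval_cases i % 3
    · exact hF0
    · exact hF1
    · exact hF2
  have h1 := (hSTAR π s e hs X Y 0 0 ξ F (fun _ => 0) (fun _ => 0)
    (fun _ => rfl) (fun i => by simp) (fun i => by simp) hξ0 hFi).1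
  have hcont : ∀ b : Eis, b ≠ 0 → s b (F 0 * F 1 * F 2) = s b n0 := by
    intro b hb
    rw [hs.skew _ b (hF3 ▸ hne) hb, hs.skew n0 b hn' hb, hF3]
    congr 1
    refine hs.cont n0 _ b hn' hb ((pow_dvd_pow π ?_).trans hdvd)
    omega
  rw [hcont _ hF1, hcont _ hF2, hcont _ hw] at h1
  have h2 : ∀ i, LfE X Y i ξ = F i := by
    intro i
    simp only [LfE, hF]
    ring
  rw [h2, h2]
  exact h1

end Pool.Agent.PTK
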