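import Pool.Agent.PTK.StL
import Pool.Agent.PT.LEV

/-!
# The average rank of prime twists: the local term of a point at `lam` when `b` is a local cube
(classes in `Z[w]`)
-/

set_option autoImplicit false

namespace Pool.Agent.PTK

open Pool.Agent.Lib_helper18 Pool.Agent.Lib_helper18.Eis Pool.Agent.Lib_helper84.Cub
open Pool.Agent.PT

namespace IIA

/-- close elements have the same symbols -/
theorem close (hL : LSym lam sl 4) {a a0 : Eis} {N : ℕ} (h0 : a0 ≠ 0)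
    (hN : V lam a0 + 4 ≤ N) (h : lam ^ N ∣ a - a0) :
    a ≠ 0 ∧ ∀ y : Eis, y ≠ 0 → sl a y = sl a0 y := by
  refine ⟨?_, fun y hy => hL.cont _ _ y h0 hy ((pow_dvd_pow lam hN).trans h)⟩
  rintro rfl
  have h1 : lam ^ N ∣ a0 := by
    have := (dvd_neg (a := lam ^ N)).2 h
    simpa using this
  have h2 := (fin prime_lam h0).le_multiplicity_of_pow_dvd h1
  unfold V at hN
  omega

theorem cube_close (hL : LSym lam sl 4) {a h0 m : Eis} {N : ℕ} (hh : h0 ≠ 0) (hm : m ≠ 0)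
    (hN : V lam (h0 ^ 3 * m) + 4 ≤ N) (h : lam ^ N ∣ a - h0 ^ 3 * m) :
    a ≠ 0 ∧ ∀ y : Eis, y ≠ 0 → sl a y = sl m y := by
  obtain ⟨h1, h2⟩ := close hL (mul_ne_zero (pow_ne_zero 3 hh) hm) hN h
  refine ⟨h1, fun y hy => ?_⟩
  rw [h2 y hy, hL.mul _ _ _ (pow_ne_zero 3 hh) hm hy, LEV.cube_left hL hh hy, zero_add]

/-- linear forms at good approximations of a cube root do not vanish -/
theorem lf_ne {π : Eis} (hπ : Prime π) {p q r b : Eis} {N : ℕ} (hn : p ^ 3 + b * q ^ 3 ≠ 0)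
    (hN : V π (p ^ 3 + b * q ^ 3) < N) (hr : π ^ N ∣ r ^ 3 - b) (i : ℕ) : LfE p q i r ≠ 0 := by
  intro h0
  unfold LfE at h0
  have h1 : q * w ^ i * r = -p := by linear_combination h0
  have h2 : (q * w ^ i * r) ^ 3 = (-p) ^ 3 := by rw [h1]
  have h3 : (w ^ i) ^ 3 = 1 := by rw [← pow_mul, mul_comm, pow_mul, w_cube, one_pow]
  have h4 : p ^ 3 + b * q ^ 3 = (-q ^ 3) * (r ^ 3 - b) := by
    linear_combination h2 - q ^ 3 * r ^ 3 * h3
  have h5 : π ^ N ∣ p ^ 3 + b * q ^ 3 := by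
    rw [h4]
    exact Dvd.dvd.mul_left hr _
  have h6 := (fin hπ hn).le_multiplicity_of_pow_dvd h5
  exact absurd h6 (not_le.2 hN)

end IIA

theorem IIA_thm (hSLC : SLC) (hIIAG : Stmt_IIAG) : Stmt_IIA := by
  intro b x p q p' q' X Y hb hx hLC hS hX hY hn hD
  have hL : LSym lam sl 4 := hSLC
  have heq := hS.eq
  have hn1 := hS.n1
  have hn2 := hS.n2
  have hH0 : p' ^ 3 + b * q' ^ 3 ≠ 0 := by
    intro h0
    apply hn1
    rw [heq, h0, mul_zero]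
  have hn3 : x * q' ^ 3 - q ^ 3 ≠ 0 := by
    intro h0
    apply hn2
    linear_combination heq + b * h0
  obtain ⟨H0, hH0d⟩ : ∃ H0, H0 = p' ^ 3 + b * q' ^ 3 := ⟨_, rfl⟩
  rw [← hH0d] at hH0
  set N0 := V lam (H0 ^ 3 * (X ^ 3 + x * Y ^ 3)) + V lam (H0 ^ 3 * (p ^ 3 - x * p' ^ 3)) +
    V lam (H0 ^ 3 * (x * q' ^ 3 - q ^ 3)) + V lam (p ^ 3 + b * q ^ 3) +
    V lam (p' ^ 3 + b * q' ^ 3) + V lam b + 5 with hN0
  refine ⟨N0, fun r hr => ?_⟩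
  obtain ⟨δ, hδ⟩ : ∃ δ : Eis, δ = r ^ 3 - b := ⟨_, rfl⟩
  have hδd : lam ^ N0 ∣ δ := by
    rw [hδ]
    exact hr
  have cls : ∀ {a a0 c : Eis}, a = a0 + δ * c → lam ^ N0 ∣ a - a0 := by
    intro a a0 c h
    have : a - a0 = δ * c := by
      rw [h]
      ring
    rw [this]
    exact Dvd.dvd.mul_right hδd _
  -- nonvanishing
  have hr0 : r ≠ 0 := by
    have h1 := IIA.close hL (a := r ^ 3) (a0 := b) (N := N0) hb (by omega)
      (cls (c := 1) (by rw [hδ]; ring))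
    intro h0
    apply h1.1
    rw [h0]
    ring
  obtain ⟨F, hF⟩ : ∃ F, F = p ^ 3 + r ^ 3 * q ^ 3 := ⟨_, rfl⟩
  obtain ⟨H, hH⟩ : ∃ H, H = p' ^ 3 + r ^ 3 * q' ^ 3 := ⟨_, rfl⟩
  have hFne : F ≠ 0 := (IIA.close hL (a := F) (a0 := p ^ 3 + b * q ^ 3) (N := N0) hn1 (by omega)
    (cls (c := q ^ 3) (by rw [hδ, hF]; ring))).1
  have hHne : H ≠ 0 := (IIA.close hL (a := H) (a0 := p' ^ 3 + b * q' ^ 3) (N := N0)
    (by rw [← hH0d]; exact hH0) (by omega) (cls (c := q' ^ 3) (by rw [hδ, hH]; ring))).1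
  have hHe : H = H0 + δ * q' ^ 3 := by rw [hH, hδ, hH0d]; ring
  have hFe : F = x * H0 + δ * q ^ 3 := by
    rw [hF, hδ, hH0d]
    linear_combination heq
  -- close numbers
  obtain ⟨k1, k1'⟩ := IIA.cube_close hL (a := (X * H) ^ 3 + F * H ^ 2 * Y ^ 3) (h0 := H0)
    (m := X ^ 3 + x * Y ^ 3) (N := N0) hH0 hn (by omega)
    (cls (c := X ^ 3 * (3 * H0 ^ 2 * q' ^ 3 + 3 * H0 * δ * q' ^ 6 + δ ^ 2 * q' ^ 9) +
      Y ^ 3 * (x * H0 * (2 * H0 * q' ^ 3 + δ * q' ^ 6) +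
        q ^ 3 * (H0 + δ * q' ^ 3) ^ 2)) (by rw [hHe, hFe]; ring))
  obtain ⟨k2, k2'⟩ := IIA.cube_close hL (a := (p * H) ^ 3 - F * H ^ 2 * p' ^ 3) (h0 := H0)
    (m := p ^ 3 - x * p' ^ 3) (N := N0) hH0 hn2 (by omega)
    (cls (c := p ^ 3 * (3 * H0 ^ 2 * q' ^ 3 + 3 * H0 * δ * q' ^ 6 + δ ^ 2 * q' ^ 9) -
      p' ^ 3 * (x * H0 * (2 * H0 * q' ^ 3 + δ * q' ^ 6) +
        q ^ 3 * (H0 + δ * q' ^ 3) ^ 2)) (by rw [hHe, hFe]; ring))
  obtain ⟨k3, k3'⟩ := IIA.cube_close hL (a := F * H ^ 2 * q' ^ 3 - (q * H) ^ 3) (h0 := H0)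
    (m := x * q' ^ 3 - q ^ 3) (N := N0) hH0 hn3 (by omega)
    (cls (c := q' ^ 3 * (x * H0 * (2 * H0 * q' ^ 3 + δ * q' ^ 6) +
        q ^ 3 * (H0 + δ * q' ^ 3) ^ 2) -
      q ^ 3 * (3 * H0 ^ 2 * q' ^ 3 + 3 * H0 * δ * q' ^ 6 + δ ^ 2 * q' ^ 9))
      (by rw [hHe, hFe]; ring))
  have eD : ∀ i, DfE (X * H) Y p' (p * H) i = H * DfE X Y p' p i := by
    intro i
    unfold DfE
    ring
  have eD' : ∀ i, DfE (X * H) Y q' (q * H) i = H * DfE X Y q' q i := by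
    intro i
    unfold DfE
    ring
  have eG : ∀ i, GfE (p * H) (q * H) p' q' i = H * GfE p q p' q' i := by
    intro i
    unfold GfE
    ring
  have eL : ∀ i, LfE (p * H) (q * H) i r = H * LfE p q i r := by
    intro i
    unfold LfE
    ring
  -- the global identity
  have hSt : SolE (r ^ 3) (F * H ^ 2) (p * H) (q * H) p' q' := by
    refine ⟨⟨?_, ?_⟩, k2, ?_, ?_⟩
    · rw [← hH]
      linear_combination (-(H ^ 3)) * hF
    · have : (p * H) ^ 3 + r ^ 3 * (q * H) ^ 3 = F * H ^ 3 := by rw [hF]; ring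
      rw [this]
      exact mul_ne_zero hFne (pow_ne_zero 3 hHne)
    · rw [eG]
      exact mul_ne_zero hHne hS.g1
    · rw [eG]
      exact mul_ne_zero hHne hS.g2
  have hDt : DNE (X * H) Y (p * H) (q * H) p' q' := by
    refine ⟨?_, ?_, ?_, ?_⟩
    · rw [eD]
      exact mul_ne_zero hHne hD.d1
    · rw [eD]
      exact mul_ne_zero hHne hD.d2
    · rw [eD']
      exact mul_ne_zero hHne hD.d3
    · rw [eD']
      exact mul_ne_zero hHne hD.d4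
  have key := hIIAG r (F * H ^ 2) (p * H) (q * H) p' q' (X * H) Y hr0
    (mul_ne_zero hFne (pow_ne_zero 2 hHne)) hSt (mul_ne_zero hX hHne) hY k1 hDt
  -- the forms
  have hLf : ∀ i, LfE p q i r ≠ 0 :=
    IIA.lf_ne prime_lam (N := N0) hn1 (by omega) hr
  have hLf' : ∀ i, LfE p' q' i r ≠ 0 :=
    IIA.lf_ne prime_lam (N := N0) (b := b) (by rw [← hH0d]; exact hH0) (by omega) hr
  -- symbols
  have skl : ∀ {m a : Eis}, a ≠ 0 → m ≠ 0 → (∀ y : Eis, y ≠ 0 → sl a y = sl m y) →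
      ∀ y : Eis, y ≠ 0 → sl y a = sl y m := by
    intro m a ha hm h y hy
    rw [hL.skew _ _ ha hy, hL.skew _ _ hm hy, h y hy]
  have j1 := skl k1 hn k1'
  have j2 := skl k2 hn2 k2'
  have j3 := skl k3 hn3 k3'
  have c1 : ∀ {m : Eis} (hm : m ≠ 0) {u v : Eis} (hu : u ≠ 0) (hv : v ≠ 0),
      sl (H * u) m - sl (H * v) m = sl u m - sl v m := by
    intro m hm u v hu hv
    rw [hL.mul _ _ _ hHne hu hm, hL.mul _ _ _ hHne hv hm]
    ring
  have c2 : ∀ {m : Eis} (hm : m ≠ 0) {u v : Eis} (hu : u ≠ 0) (hv : v ≠ 0),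
      sl m (H * u) - sl m (H * v) = sl m u - sl m v := by
    intro m hm u v hu hv
    rw [LEV.mul_right hL hHne hu hm, LEV.mul_right hL hHne hv hm]
    ring
  unfold SVE ASE at key
  unfold SVE ASE
  rw [eD, eD, eD', eD', eG, eG, eL, eL] at key
  have f1 := hD.d1
  have f2 := hD.d2
  have f3 := hD.d3
  have f4 := hD.d4
  have f5 := hS.g1
  have f6 := hS.g2
  have g1 := c1 k2 f1 f2
  have g2 := c1 k1 f1 f2
  have g3 := c1 k3 f3 f4
  have g4 := c1 k1 f3 f4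
  have g5 := c2 k1 f5 f6
  have g6 := c2 k1 (hLf 2) (hLf 1)
  rw [j2 _ f1, j2 _ f2] at g1
  rw [j1 _ f1, j1 _ f2] at g2
  rw [j3 _ f3, j3 _ f4] at g3
  rw [j1 _ f3, j1 _ f4] at g4
  rw [k1' _ f5, k1' _ f6] at g5
  rw [k1' _ (hLf 2), k1' _ (hLf 1)] at g6
  have g7 := k1' _ (hLf' 1)
  have g8 := k1' _ (hLf' 2)
  have g9 := j1 _ LEV.w_ne
  linear_combination key - g1 + g2 + g3 - g4 + g5 + g9 - g6 - g7 + g8

end Pool.Agent.PTK
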