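import Pool.Agent.PTK.StL
import Pool.Agent.PT.LEV
import Pool.Agent.PT.LFIN

/-!
# The average rank of prime twists: the local term of a point at `λ` when `b` is a cube

Copy of `PT3/IIAG.lean` with `Eis` in place of `ℤ`.
-/

set_option autoImplicit false

namespace Pool.Agent.PTK

open Pool.Agent.Lib_helper18 Pool.Agent.Lib_helper18.Eis Pool.Agent.Lib_helper84.Cub
open Pool.Agent.PT

namespace IIAG

/-- the right side of the identity -/
noncomputable def RS (s : Eis → Eis → ZMod 3) (n : Eis) (p q p' q' r : Eis) : ZMod 3 :=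
  s n (GfE p q p' q' 1) - s n (GfE p q p' q' 2) + s w n - ASE s n p q p' q' r

/-- Linear forms at good approximations of a cube root do not vanish. -/
theorem lf_ne {π : Eis} (hπ : Prime π) {p q r b : Eis} {N : ℕ} (hn : p ^ 3 + b * q ^ 3 ≠ 0)
    (hN : V π (p ^ 3 + b * q ^ 3) < N) (hr : π ^ N ∣ r ^ 3 - b)
    (i : ℕ) : LfE p q i r ≠ 0 := by
  intro h0
  unfold LfE at h0
  have h1 : q * w ^ i * r = -p := by linear_combination h0
  have h2 : (q * w ^ i * r) ^ 3 = (-p) ^ 3 := by rw [h1]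
  have h3 : (w ^ i) ^ 3 = 1 := by rw [← pow_mul, mul_comm, pow_mul, w_cube, one_pow]
  have h4 : p ^ 3 + b * q ^ 3 = (-q ^ 3) * (r ^ 3 - b) := by
    linear_combination h2 - q ^ 3 * r ^ 3 * h3
  have h5 : π ^ N ∣ p ^ 3 + b * q ^ 3 := by
    rw [h4]
    exact Dvd.dvd.mul_left hr _
  have h6 := (fin hπ hn).le_multiplicity_of_pow_dvd h5
  exact absurd h6 (not_le.2 hN)

/-- the linear forms do not vanish -/
theorem lf_ne' {π : Eis} (hπ : Prime π) {p q r : Eis} (hn : p ^ 3 + r ^ 3 * q ^ 3 ≠ 0) (i : ℕ) :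
    LfE p q i r ≠ 0 := by
  refine lf_ne hπ (b := r ^ 3) hn (Nat.lt_succ_self _) ?_ i
  rw [sub_self]
  exact dvd_zero _

theorem sol_n {b x p q p' q' : Eis} (h : SolE b x p q p' q') : p' ^ 3 + b * q' ^ 3 ≠ 0 := by
  intro h0
  apply h.n1
  rw [h.eq, h0, mul_zero]

section Sym

variable {π : Eis} {s : Eis → Eis → ZMod 3} {e : ℕ} {p q p' q' r x : Eis}

theorem RS_congr (h : LSym π s e) (hS : SolE (r ^ 3) x p q p' q') {n m : Eis} (hn : n ≠ 0)
    (hm : m ≠ 0) (hnm : ∀ A : Eis, A ≠ 0 → s n A = s m A) :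
    RS s n p q p' q' r = RS s m p q p' q' r := by
  have l1 := lf_ne' h.prime hS.n1
  have l2 := lf_ne' h.prime (sol_n hS)
  unfold RS ASE
  rw [hnm _ hS.g1, hnm _ hS.g2,
    h.skew n w hn LEV.w_ne, h.skew m w hm LEV.w_ne, hnm _ LEV.w_ne, hnm _ (l1 2), hnm _ (l2 1),
    hnm _ (l1 1), hnm _ (l2 2)]

theorem RS_zero (h : LSym π s e) (hS : SolE (r ^ 3) x p q p' q') {n : Eis} (hn : n ≠ 0)
    (h0 : ∀ A : Eis, A ≠ 0 → s n A = 0) : RS s n p q p' q' r = 0 := by
  have l1 := lf_ne' h.prime hS.n1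
  have l2 := lf_ne' h.prime (sol_n hS)
  unfold RS ASE
  rw [h0 _ hS.g1, h0 _ hS.g2,
    h.skew n w hn LEV.w_ne, h0 _ LEV.w_ne, h0 _ (l1 2), h0 _ (l2 1), h0 _ (l1 1), h0 _ (l2 2)]
  ring

/-- IF2 -/
theorem RS_x (h : LSym π s e) (hIF2 : Stmt_IF2) (hr : r ≠ 0) (hx : x ≠ 0)
    (hS : SolE (r ^ 3) x p q p' q') : RS s x p q p' q' r = 0 := by
  obtain ⟨N0, h1⟩ := hIF2 π s e h (r ^ 3) x p q p' q' (pow_ne_zero 3 hr) hx hS
  have h2 := h1 r (by rw [sub_self]; exact dvd_zero _)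
  unfold RS
  rw [h2, sub_self]

/-- a symbol of a cube on the right -/
theorem cube_right (h : LSym π s e) {c y : Eis} (hc : c ≠ 0) (hy : y ≠ 0) : s y (c ^ 3) = 0 := by
  rw [h.skew (c ^ 3) y (pow_ne_zero 3 hc) hy, LEV.cube_left h hc hy, neg_zero]

/-- the case where `x` is a local cube -/
theorem case_cube (h : LSym π s e) (hIF1 : Stmt_IF1) (hIF4 : Stmt_IF4) (hr : r ≠ 0) (hx : x ≠ 0)
    (hS : SolE (r ^ 3) x p q p' q') {X Y : Eis} (hX : X ≠ 0) (hY : Y ≠ 0)
    (hn : X ^ 3 + x * Y ^ 3 ≠ 0) (hD : DNE X Y p q p' q') (hL : LCE π x) :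
    SVE s x p q p' q' X Y = RS s (X ^ 3 + x * Y ^ 3) p q p' q' r := by
  have hr3 : r ^ 3 ≠ 0 := pow_ne_zero 3 hr
  obtain ⟨N1, h1⟩ := hIF4 π s e h (r ^ 3) x p q p' q' X Y hr3 hx hS hX hY hn hD
  obtain ⟨N2, h2⟩ := hIF1 π s e h (r ^ 3) x p q p' q' hr3 hx hS
  obtain ⟨ξ, hξ⟩ := hL (N1 + N2 + V π (X ^ 3 + x * Y ^ 3) + 1)
  have a1 := h1 ξ ((pow_dvd_pow _ (by omega)).trans hξ)
  have a2 := h2 r ξ (by rw [sub_self]; exact dvd_zero _)
    ((pow_dvd_pow _ (by omega)).trans hξ) (X ^ 3 + x * Y ^ 3) hn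
  have hF := lf_ne h.prime hn (N := N1 + N2 + V π (X ^ 3 + x * Y ^ 3) + 1)
    (by omega) hξ
  rw [cube_right h hr (hF 1), cube_right h hr (hF 2)] at a1
  unfold RS
  rw [a1]
  linear_combination a2

end Sym

/-- the continuity of the symbol, in terms of valuations -/
theorem s_close {π : Eis} {s : Eis → Eis → ZMod 3} (h : LSym π s 1) {a c : Eis} (ha : a ≠ 0)
    (hc : c ≠ 0) (hV : V π a < V π c) {A : Eis} (hA : A ≠ 0) : s (a + c) A = s a A := by
  refine h.cont a (a + c) A ha hA ?_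
  rw [add_sub_cancel_left]
  exact (pow_dvd_pow _ hV).trans (pow_multiplicity_dvd _ _)

/-- the tame places -/
theorem tame (hSTM : STM) (hSPP : SPP) (hLCI : Stmt_LCI) (hIF1 : Stmt_IF1) (hIF2 : Stmt_IF2)
    (hIF4 : Stmt_IF4) (hF6R : Stmt_F6R) (hF7U : Stmt_F7U) (π : PP) {r x p q p' q' X Y : Eis}
    (hr : r ≠ 0) (hx : x ≠ 0) (hS : SolE (r ^ 3) x p q p' q') (hX : X ≠ 0) (hY : Y ≠ 0)
    (hn : X ^ 3 + x * Y ^ 3 ≠ 0) (hD : DNE X Y p q p' q') :
    SVE (tm π.1) x p q p' q' X Y = RS (tm π.1) (X ^ 3 + x * Y ^ 3) p q p' q' r := by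
  have h3 := (hSPP.2.2.2.1 π).1
  have h : LSym π.1 (tm π.1) 1 := hSTM π.1 π.2.1 h3
  have hπ := π.2.1
  have hr3 : r ^ 3 ≠ 0 := pow_ne_zero 3 hr
  have hX3 : X ^ 3 ≠ 0 := pow_ne_zero 3 hX
  have hY3 : Y ^ 3 ≠ 0 := pow_ne_zero 3 hY
  have hxY : x * Y ^ 3 ≠ 0 := mul_ne_zero hx hY3
  have hsX : ∀ A : Eis, A ≠ 0 → tm π.1 (X ^ 3) A = 0 := fun A hA =>
    LEV.cube_left h hX hA
  have hsx : ∀ A : Eis, A ≠ 0 → tm π.1 (x * Y ^ 3) A = tm π.1 x A :=
    fun A hA => by rw [h.mul _ _ _ hx hY3 hA, LEV.cube_left h hY hA, add_zero]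
  have vX : V π.1 (X ^ 3) = 3 * V π.1 X := V_pow hπ hX 3
  have vx : V π.1 (x * Y ^ 3) = V π.1 x + 3 * V π.1 Y := by
    rw [V_mul hπ hx hY3, V_pow hπ hY]
  by_cases hVx : 3 ∣ V π.1 x
  · by_cases hcx : ch π.1 x = 0
    · exact case_cube h hIF1 hIF4 hr hx hS hX hY hn hD ((hLCI.1 π x hx).2 ⟨hVx, hcx⟩)
    · -- valuation divisible by three, not a cube
      rw [hF7U π (r ^ 3) x p q p' q' X Y hr3 hx hS hX hY hD hVx hcx]
      have hVx0 : (V π.1 x : ZMod 3) = 0 := LEV.cast3.2 hVx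
      have hVw : (V π.1 w : ZMod 3) = 0 := by
        rw [V_eq_zero (not_dvd_w hπ)]; rfl
      -- the valuation of `n0`
      have hVn : 3 ∣ V π.1 (X ^ 3 + x * Y ^ 3) := by
        rcases lt_trichotomy (V π.1 (X ^ 3)) (V π.1 (x * Y ^ 3)) with
          hlt | heq | hlt
        · have e1 : V π.1 (X ^ 3 + x * Y ^ 3) = V π.1 (X ^ 3) := by
            rw [add_comm]
            exact (fin hπ hX3).multiplicity_add_of_gt hlt
          rw [e1, vX]
          exact dvd_mul_right _ _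
        · by_cases hgt : V π.1 (X ^ 3) < V π.1 (X ^ 3 + x * Y ^ 3)
          · exfalso
            apply hcx
            have e1 : tm π.1 (x * Y ^ 3) π.1 = 0 := by
              have e2 := s_close h (a := -(X ^ 3))
                (c := X ^ 3 + x * Y ^ 3) (neg_ne_zero.2 hX3) hn
                (by rw [V_neg]; exact hgt) hπ.ne_zero
              rw [neg_add_cancel_left, LEV.neg_left h hX3 hπ.ne_zero,
                hsX _ hπ.ne_zero] at e2
              exact e2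
            rw [hsx _ hπ.ne_zero] at e1
            unfold tm at e1
            rw [V_self, hVx0] at e1
            simpa using e1
          · have hle : V π.1 (X ^ 3) ≤ V π.1 (X ^ 3 + x * Y ^ 3) := by
              apply (fin hπ hn).le_multiplicity_of_pow_dvd
              refine dvd_add (pow_multiplicity_dvd _ _) ?_
              change π.1 ^ (V π.1 (X ^ 3)) ∣ _
              rw [heq]
              exact pow_multiplicity_dvd _ _
            have e1 : V π.1 (X ^ 3 + x * Y ^ 3) = V π.1 (X ^ 3) := by omega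
            rw [e1, vX]
            exact dvd_mul_right _ _
        · have e1 : V π.1 (X ^ 3 + x * Y ^ 3) = V π.1 (x * Y ^ 3) :=
            (fin hπ hxY).multiplicity_add_of_gt hlt
          rw [e1, vx]
          exact (Nat.dvd_add_right hVx).2 (dvd_mul_right _ _)
      have hVn0 : (V π.1 (X ^ 3 + x * Y ^ 3) : ZMod 3) = 0 := LEV.cast3.2 hVn
      have h2 := RS_x h hIF2 hr hx hS
      unfold RS ASE tm at h2 ⊢
      rw [hVx0, hVw] at h2
      rw [hVn0, hVw]
      have e1 : ∀ c d t : ZMod 3, c ≠ 0 → c * t = 0 → d * t = 0 := by decide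
      have e2 := e1 (ch π.1 x) (ch π.1 (X ^ 3 + x * Y ^ 3))
        ((V π.1 (GfE p q p' q' 1) : ZMod 3) - (V π.1 (GfE p q p' q' 2) : ZMod 3) -
          ((V π.1 (LfE p q 2 r) : ZMod 3) + (V π.1 (LfE p' q' 1 r) : ZMod 3) -
            (V π.1 (LfE p q 1 r) : ZMod 3) - (V π.1 (LfE p' q' 2 r) : ZMod 3))) hcx
        (by linear_combination h2)
      linear_combination -e2
  · -- valuation not divisible by three
    have hSV : SVE (tm π.1) x p q p' q' X Y = 0 := by
      have h6 := hF6R π (r ^ 3) x p q p' q' X Y hr3 hx hS hX hY hD hVx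
      by_cases hVn : 3 ∣ V π.1 (X ^ 3 + x * Y ^ 3)
      · exact h6.1 hVn
      · rw [h6.2 hVn, cube_right h hr LEV.w_ne, neg_zero]
    rw [hSV]
    rcases lt_trichotomy (V π.1 (X ^ 3)) (V π.1 (x * Y ^ 3)) with
      hlt | heq | hlt
    · refine (RS_zero h hS hn fun A hA => ?_).symm
      rw [s_close h hX3 hxY hlt hA, hsX A hA]
    · exfalso
      omega
    · rw [RS_congr h hS hn hx, RS_x h hIF2 hr hx hS]
      intro A hA
      rw [add_comm, s_close h hxY hX3 hlt hA, hsx A hA]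

end IIAG

open IIAG in
/-- PTK_IIAG: the local term of a point at `λ` when `b` is the cube of an element of `Z[w]`.
Proof (copy of `PT3/IIAG.lean`). Both sides are sums of terms of a symbol at the place `λ`; the sums
of the same terms over all places are `0` (`Stmt_SVF` for the left side, the product formula `SSL`
for the right side), so it suffices to prove the equality at the tame places `π`. If `x` is a local
cube: `Stmt_IF4` and `Stmt_IF1` (`case_cube`). If `3 ∣ V x` and `ch x ≠ 0`: the left side is `0`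
(`Stmt_F7U`), `3 ∣ V n₀` for `n₀ = X³ + x Y³`, so the right side is `ch n₀` times a number which times `ch x` is
`0` by `Stmt_IF2`. If `3 ∤ V x`: the left side is `0` (`Stmt_F6R`, `b` is a cube); `n₀` is close to a
cube or to `x` times a cube, and the right side is `0` (`Stmt_IF2` in the second case). -/
theorem IIAG_thm (hSTM : STM) (hSPP : SPP) (hSSL : SSL) (hLCI : Stmt_LCI) (hIF1 : Stmt_IF1)
    (hIF2 : Stmt_IF2) (hIF4 : Stmt_IF4) (hF6R : Stmt_F6R) (hF7U : Stmt_F7U)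
    (hSVF : Stmt_SVF) : Stmt_IIAG := by
  intro r x p q p' q' X Y hr hx hS hX hY hn hD
  have hr3 : r ^ 3 ≠ 0 := pow_ne_zero 3 hr
  obtain ⟨π0, -⟩ := hSPP.2.2.2.2.1 2 Nat.prime_two (by norm_num)
  have l1 := lf_ne' π0.2.1 hS.n1
  have l2 := lf_ne' π0.2.1 (sol_n hS)
  have key : ∀ a b : Eis, a ≠ 0 → b ≠ 0 → LFIN.FZ (fun v : Pl => sy v a b) :=
    fun a b ha hb => hSSL.2.2.2 a b ha hb
  have hSV : LFIN.FZ (fun v : Pl => SVE (sy v) x p q p' q' X Y) :=
    hSVF (r ^ 3) x p q p' q' X Y hr3 hx hS hX hY hn hD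
  have hG1 := hS.g1
  have hG2 := hS.g2
  have hRS : LFIN.FZ (fun v : Pl => RS (sy v) (X ^ 3 + x * Y ^ 3) p q p' q' r) := by
    unfold RS ASE
    exact (((key _ _ hn hG1).sub (key _ _ hn hG2)).add (key _ _ LEV.w_ne hn)).sub
      ((((key _ _ hn (l1 2)).add (key _ _ hn (l2 1))).sub (key _ _ hn (l1 1))).sub
        (key _ _ hn (l2 2)))
  have hE := (hSV.sub hRS).2
  have h0 : ∀ v : Pl, v ≠ none → SVE (sy v) x p q p' q' X Y -
      RS (sy v) (X ^ 3 + x * Y ^ 3) p q p' q' r = 0 := by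
    intro v hv
    cases v with
    | none => exact absurd rfl hv
    | some π =>
      exact sub_eq_zero.2 (tame hSTM hSPP hLCI hIF1 hIF2 hIF4 hF6R hF7U π hr hx hS hX hY hn hD)
  rw [finsum_eq_single _ none h0] at hE
  exact sub_eq_zero.1 hE

end Pool.Agent.PTK
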