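import Pool.Agent.PTK.StL
import Pool.Agent.Lib_helper84.Cub.CaseThreeLoc

/-!
# LFV: the valuations of the linear forms of a point when `x` is a local cube
-/

set_option autoImplicit false

namespace Pool.Agent.PTK

open Pool.Agent.Lib_helper18 Pool.Agent.Lib_helper18.Eis Pool.Agent.Lib_helper84.Cub
open Pool.Agent.PT

namespace LFV

theorem prod3 (X T : Eis) :
    (X + w ^ 0 * T) * (X + w ^ 1 * T) * (X + w ^ 2 * T) = X ^ 3 + T ^ 3 := by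
  have h1 := w_rel
  have h2 := w_cube
  linear_combination (X + T) * X * T * h1 + (X + T) * T ^ 2 * h2

/-- Two of the three linear forms cannot both be divisible by `l`. -/
theorem two_forms {l X T : Eis} (hl : Prime l) (h3 : ¬ l ∣ 3) (h : ¬ (l ∣ X ∧ l ∣ T))
    {i j : ℕ} (hij : (i : ZMod 3) ≠ j) (hi : l ∣ X + w ^ i * T) (hj : l ∣ X + w ^ j * T) :
    False := by
  have h1 : l ∣ (w ^ i - w ^ j) * T := by
    have e : (w ^ i - w ^ j) * T = (X + w ^ i * T) - (X + w ^ j * T) := by ring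
    rw [e]
    exact dvd_sub hi hj
  rcases hl.dvd_or_dvd h1 with h2 | h2
  · exact hij (w_pow_sub_dvd h3 h2)
  · refine h ⟨?_, h2⟩
    exact (dvd_add_left (h2.mul_left _)).1 hi

end LFV

open LFV in
theorem LFV_thm (hSPP : SPP) : Stmt_LFV := by
  intro π x X Y hx hX hY hn _ hn3
  have hπ := π.2.1
  have h3 := (hSPP.2.2.2.1 π).1
  refine ⟨V π.1 x + V π.1 (X ^ 3 + x * Y ^ 3) + 1, fun ξ hξ => ?_⟩
  set N0 : ℕ := V π.1 x + V π.1 (X ^ 3 + x * Y ^ 3) + 1 with hN0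
  have hξ' : π.1 ^ N0 ∣ x - ξ ^ 3 := by
    rw [← dvd_neg, neg_sub]
    exact hξ
  obtain ⟨hξ3, -⟩ := V_congr hπ hξ' hx (by omega)
  have hξ0 : ξ ≠ 0 := by
    rintro rfl
    exact hξ3 (by ring)
  have hT0 : Y * ξ ≠ 0 := mul_ne_zero hY hξ0
  -- the product
  have hd : π.1 ^ N0 ∣ (X ^ 3 + x * Y ^ 3) - (X ^ 3 + (Y * ξ) ^ 3) := by
    have e : (X ^ 3 + x * Y ^ 3) - (X ^ 3 + (Y * ξ) ^ 3) = (x - ξ ^ 3) * Y ^ 3 := by ring
    rw [e]
    exact Dvd.dvd.mul_right hξ' _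
  obtain ⟨hne, hV⟩ := V_congr hπ hd hn (by omega)
  -- the common power
  set m : ℕ := min (V π.1 X) (V π.1 (Y * ξ)) with hm
  obtain ⟨X', hX'⟩ : π.1 ^ m ∣ X :=
    (pow_dvd_pow _ (min_le_left _ _)).trans (pow_multiplicity_dvd _ _)
  obtain ⟨T', hT'⟩ : π.1 ^ m ∣ Y * ξ :=
    (pow_dvd_pow _ (min_le_right _ _)).trans (pow_multiplicity_dvd _ _)
  have hnd : ¬ (π.1 ∣ X' ∧ π.1 ∣ T') := by
    rintro ⟨⟨a, ha⟩, b, hb⟩
    have h4 : m + 1 ≤ V π.1 X := (fin hπ hX).le_multiplicity_of_pow_dvd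
      ⟨a, by rw [hX', ha, pow_succ]; ring⟩
    have h5 : m + 1 ≤ V π.1 (Y * ξ) := (fin hπ hT0).le_multiplicity_of_pow_dvd
      ⟨b, by rw [hT', hb, pow_succ]; ring⟩
    have h6 : m + 1 ≤ m := by
      conv_rhs => rw [hm]
      exact le_min h4 h5
    omega
  have hF : ∀ i : ℕ, X + w ^ i * (Y * ξ) = π.1 ^ m * (X' + w ^ i * T') := by
    intro i
    rw [hX', hT']
    ring
  have hprod := prod3 X (Y * ξ)
  have hpne : (X + w ^ 0 * (Y * ξ)) * (X + w ^ 1 * (Y * ξ)) * (X + w ^ 2 * (Y * ξ)) ≠ 0 := by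
    rw [hprod]
    exact hne
  have n0 : X + w ^ 0 * (Y * ξ) ≠ 0 := fun h => hpne (by rw [h, zero_mul, zero_mul])
  have n1 : X + w ^ 1 * (Y * ξ) ≠ 0 := fun h => hpne (by rw [h, mul_zero, zero_mul])
  have n2 : X + w ^ 2 * (Y * ξ) ≠ 0 := fun h => hpne (by rw [h, mul_zero])
  have hVF : ∀ i : ℕ, X + w ^ i * (Y * ξ) ≠ 0 →
      V π.1 (X + w ^ i * (Y * ξ)) = m + V π.1 (X' + w ^ i * T') := by
    intro i hi
    have h4 : X' + w ^ i * T' ≠ 0 := by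
      intro h
      apply hi
      rw [hF, h, mul_zero]
    rw [hF, V_mul hπ (pow_ne_zero _ hπ.ne_zero) h4, V_pow hπ hπ.ne_zero, V_self, mul_one]
  have hsum : 3 ∣ V π.1 (X' + w ^ 0 * T') + V π.1 (X' + w ^ 1 * T') + V π.1 (X' + w ^ 2 * T') := by
    have h4 : V π.1 ((X + w ^ 0 * (Y * ξ)) * (X + w ^ 1 * (Y * ξ)) * (X + w ^ 2 * (Y * ξ))) =
        V π.1 (X ^ 3 + x * Y ^ 3) := by
      rw [hprod, hV]
    rw [V_mul hπ (mul_ne_zero n0 n1) n2, V_mul hπ n0 n1, hVF 0 n0, hVF 1 n1, hVF 2 n2] at h4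
    omega
  have z : ∀ i j : ℕ, (i : ZMod 3) ≠ j → V π.1 (X' + w ^ i * T') ≠ 0 →
      V π.1 (X' + w ^ j * T') = 0 := by
    intro i j hij hi
    by_contra hj
    have h4 : π.1 ∣ X' + w ^ i * T' := by
      by_contra h
      exact hi (V_eq_zero h)
    have h5 : π.1 ∣ X' + w ^ j * T' := by
      by_contra h
      exact hj (V_eq_zero h)
    exact two_forms hπ h3 hnd hij h4 h5
  have e : ∀ i : ℕ, LfE X Y i ξ = X + w ^ i * (Y * ξ) := by
    intro i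
    unfold LfE
    ring
  rw [e, e, hVF 1 n1, hVF 2 n2, ZMod.natCast_eq_natCast_iff']
  have d01 : ((0 : ℕ) : ZMod 3) ≠ ((1 : ℕ) : ZMod 3) := by decide
  have d02 : ((0 : ℕ) : ZMod 3) ≠ ((2 : ℕ) : ZMod 3) := by decide
  have d12 : ((1 : ℕ) : ZMod 3) ≠ ((2 : ℕ) : ZMod 3) := by decide
  by_cases h4 : V π.1 (X' + w ^ 1 * T') = 0
  · by_cases h5 : V π.1 (X' + w ^ 2 * T') = 0
    · rw [h4, h5]
    · have h6 := z 2 0 d02.symm h5
      rw [h4, h6] at hsum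
      omega
  · have h5 := z 1 2 d12 h4
    have h6 := z 1 0 d01.symm h4
    rw [h5, h6] at hsum
    omega

end Pool.Agent.PTK
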