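import Pool.Agent.PTK.StC

/-! PTK_LIN (helper87): completion to independent families. -/

set_option autoImplicit false

namespace Pool.Agent.PTK

theorem LIN_thm : Stmt_LIN := by
  intro M V y hy
  classical
  by_cases hV : y ∈ V
  · -- `y` in `V`: drop a basis vector
    set b := Module.finBasis (ZMod 3) V with hb
    set y' : V := ⟨y, hV⟩ with hy'
    have hne : y' ≠ 0 := by
      intro h
      exact hy (congrArg Subtype.val h)
    obtain ⟨i, hi⟩ : ∃ i, b.repr y' i ≠ 0 := by
      by_contra hcon
      push Not at hcon
      apply hne
      apply b.repr.injective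
      ext i
      rw [hcon i]
      simp
    obtain ⟨s, hs⟩ : ∃ s, Module.finrank (ZMod 3) V = s + 1 := by
      have : 0 < Module.finrank (ZMod 3) V := i.pos
      exact ⟨Module.finrank (ZMod 3) V - 1, by omega⟩
    set i' : Fin (s + 1) := Fin.cast hs i with hi'
    set u' : Fin s → V := fun j => b (Fin.cast hs.symm (i'.succAbove j)) with hu'
    have hinj : Function.Injective (fun j : Fin s => Fin.cast hs.symm (i'.succAbove j)) := by
      intro a c h
      exact Fin.succAbove_right_injective (Fin.cast_injective _ h)
    have hli : LinearIndependent (ZMod 3) u' := b.linearIndependent.comp _ hinj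
    have hnot : y' ∉ Submodule.span (ZMod 3) (Set.range u') := by
      intro hmem
      have h1 : Submodule.span (ZMod 3) (Set.range u') ≤ LinearMap.ker (b.coord i) := by
        rw [Submodule.span_le]
        rintro _ ⟨j, rfl⟩
        rw [SetLike.mem_coe, LinearMap.mem_ker, Module.Basis.coord_apply, hu']
        simp only
        rw [b.repr_self, Finsupp.single_apply, if_neg]
        intro h
        have h2 : i'.succAbove j = i' := by
          rw [hi']
          apply Fin.ext
          have := congrArg Fin.val h
          simpa using this
        exact Fin.succAbove_ne i' j h2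
      have h2 := h1 hmem
      rw [LinearMap.mem_ker, Module.Basis.coord_apply] at h2
      exact hi h2
    refine ⟨s, fun j => (u' j : Fin M → ZMod 3), fun j => (u' j).2, ?_, fun h => absurd hV h,
      fun _ => hs.symm⟩
    rw [linearIndependent_finCons]
    refine ⟨hli.map' V.subtype (Submodule.ker_subtype V), ?_⟩
    intro hmem
    apply hnot
    have e : Set.range (fun j => (u' j : Fin M → ZMod 3)) = V.subtype '' Set.range u' := by
      rw [← Set.range_comp]; rfl
    rw [e, ← Submodule.map_span] at hmem
    obtain ⟨z, hz, hzy⟩ := hmem
    have : z = y' := Subtype.ext hzy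
    rwa [this] at hz
  · -- `y` not in `V`
    set b := Module.finBasis (ZMod 3) V with hb
    refine ⟨Module.finrank (ZMod 3) V, fun j => (b j : Fin M → ZMod 3), fun j => (b j).2, ?_,
      fun _ => rfl, fun h => absurd h hV⟩
    rw [linearIndependent_finCons]
    refine ⟨b.linearIndependent.map' V.subtype (Submodule.ker_subtype V), ?_⟩
    intro hmem
    apply hV
    refine Submodule.span_le.mpr ?_ hmem
    rintro _ ⟨j, rfl⟩
    exact (b j).2

end Pool.Agent.PTK
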