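import Pool.Agent.PTK.StC
import Pool.Agent.PTN.MAINN

/-!
# PTK_MAI: the theorem
-/

set_option autoImplicit false

open NumberField IsDedekindDomain Finset
open scoped nonZeroDivisors Pointwise

namespace Pool.Agent.PTK

open Pool.Agent.Lib_helper18 Pool.Agent.Lib_helper18.Eis Pool.Agent.Lib_helper84.Cub
open Pool.Agent.PT Pool.Agent.PTE Pool.Agent.PT3 Pool.Agent.PTL Pool.Agent.PTN

namespace MAI

theorem aD'_le (d : ℕ) : aD' d ≤ 10 / 3 := by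
  unfold aD'
  split_ifs <;> norm_num

theorem bD'_le (d : ℕ) : bD' d ≤ 104 / 15 := by
  unfold bD'
  split_ifs <;> norm_num

end MAI

open MAINN in
/-- PTK_MAI -/
theorem MAI_thm (hNFE : Stmt_NFE) (hTRU : Stmt_TRU) (hSUMA : Stmt_SUMA) (hAVR : Stmt_AVR)
    (hAVA : Stmt_AVA) : Stmt_MAI := by
  classical
  intro N hN0 hcf m0 hm
  obtain ⟨h, n, m, k, π, p, e, r, f, hNF, hh, -, hNeq, hm', -⟩ := hNFE N hN0 hcf
  have hmm : m0 = m := by rw [hm, hm']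
  clear hm hm'
  subst hmm hNeq
  have : NeZero (9 * (3 ^ h * n)) := ⟨by
    have : n ≠ 0 := by
      rintro rfl
      simp at hN0
    positivity⟩
  obtain ⟨-, T2⟩ := hTRU h n m0 k π p e r f hNF
  obtain ⟨a1, a2⟩ := hAVA h n m0 k π p e r f hNF hh
  refine ⟨a1, a2, fun u => ?_⟩
  obtain ⟨b1, b2⟩ := hAVR h n m0 k π p e r f (cl π u).1 (cl π u).2 hNF hh
  have hW : ∀ q E : ℕ, q.Prime → 9 * (3 ^ h * n) < q → (E = 1 ∨ E = 2) →
      (∃ x : ℤ, ((9 * (3 ^ h * n) : ℕ) : ℤ) ∣ (q : ℤ) ^ E -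
        ((u : ZMod (9 * (3 ^ h * n))).val : ℤ) * x ^ 3) →
      Kl π (cl π u).1 (cl π u).2 ((q : ℤ) ^ E) := by
    rintro q E hq hqN hE ⟨x, hx⟩
    refine T2 u (cl π u).1 (cl π u).2 _ x ((kl_iff π u _).2 rfl) ?_ hx
    have h1 : Nat.Coprime q (9 * (3 ^ h * n)) := by
      rw [Nat.Prime.coprime_iff_not_dvd hq]
      intro hd
      have := Nat.le_of_dvd (Nat.pos_of_ne_zero (NeZero.ne _)) hd
      omega
    exact (Nat.isCoprime_iff_coprime.2 h1).pow_left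
  have h3 : (0 : ℝ) < 3 ^ (m0 + 1) := by positivity
  constructor
  · have c1 := (hSUMA ((3 ^ h * n : ℕ) : ℤ) 2 m0 π (fun A => (CubeRank.rr A : ℝ))).2.2.1 _ _ _
      (div_le_div_of_nonneg_right (MAI.aD'_le (dN h n (cl π u).1)) h3.le) b1
    exact aboveA_mono (fun A => Nat.cast_nonneg _) _ hW c1
  · have c1 := (hSUMA ((3 ^ h * n : ℕ) : ℤ) 2 m0 π (fun A => √3 ^ CubeRank.rr A)).2.2.1 _ _ _
      (div_le_div_of_nonneg_right (MAI.bD'_le (dN h n (cl π u).1)) h3.le) b2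
    exact aboveA_mono (fun A => by positivity) _ hW c1

end Pool.Agent.PTK
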