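import Pool.Agent.PTK.StC
import Pool.Agent.PTN.NBKN

/-!
# PTK_NBW: the bound for the rank by the classes of the points and the corank of the matrix
-/

set_option autoImplicit false

namespace Pool.Agent.PTK

open Pool.Agent.Lib_helper18 Pool.Agent.Lib_helper18.Eis Pool.Agent.Lib_helper84.Cub
open Pool.Agent.PT Pool.Agent.PTE Pool.Agent.PT3 Pool.Agent.PTL Pool.Agent.PTN

open Pool.Agent.PTN.NBKN in
/-- PTK_NBW: the bound for the rank. -/
theorem NBW_thm (hK : Stmt_KID) (hA : Stmt_NADT) (hL : Stmt_NPLU) (hTENT : TENT)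
    (hWGR : Stmt_WGR) : Stmt_NBW := by
  classical
  intro h n m k π p e r f w0 c s τ b X Y P Q P' Q' E q hNF hh hAdm hSys hSw hLam hgen hEE hq hq3
    hq2 hInC hqn
  obtain ⟨hBG, hTy, hE⟩ := hA h n m k π p e r f w0 c E q hNF hh hEE hq hq2 hInC hqn
  obtain ⟨⟨d, hd⟩, hY₁⟩ := hWGR h n m k π p e r f w0 c E q hNF hh hEE hq hq3 hq2 hInC hqn
  have H := key hA hL hTENT hNF hh hAdm hSys hSw hLam hgen hEE hq hq3 hq2 hInC hqn
  have hcf : CubeRank.CubeFree (BB h n E q) := cubeFree_BB hNF hh hEE hq hq3 hqn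
  have h3B : 3 ≤ (BB h n E q).natAbs := three_le_BB hNF hEE hq3
  obtain ⟨B, hB⟩ : ∃ B : ℤ, B = BB h n E q := ⟨_, rfl⟩
  rw [← hB] at hBG hTy hE hY₁ H hcf h3B hd ⊢
  have hB0 : B ≠ 0 := hTy.1
  have habs : 3 ≤ |B| := by
    rw [Int.abs_eq_natAbs]
    exact_mod_cast h3B
  have hnc : ¬ ∃ t : ℤ, t ^ 3 = B := CubeRank.GenPf.not_cube hcf habs
  obtain ⟨M, hM⟩ : ∃ M : Matrix (Fin s) (Fin s) (ZMod 3), M = MaT b X Y P Q P' Q' B := ⟨_, rfl⟩
  rw [← hM] at H ⊢
  choose g u y j hu hy hz hker using H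
  let Ψ₂ : ℤ → LinearMap.ker M.mulVecLin := fun z =>
    if hs : S2 B z then ⟨fun i => (g z hs i : ZMod 3), by
      rw [LinearMap.mem_ker]
      funext a
      exact hker z hs a⟩ else 0
  choose yv hyv g₁ g₂ hg₁ hg₂ hyg using hY₁
  let Y₁ : Eis → WqS h n π p e r w0 c B := fun ζ =>
    if hs : S1 B ζ then ⟨yv ζ hs, hyv ζ hs⟩ else ⟨yv 1 (Or.inl rfl), hyv 1 (Or.inl rfl)⟩
  have hidx := hK B hB0 hcf hnc (WqS h n π p e r w0 c B) (LinearMap.ker M.mulVecLin) Y₁ Ψ₂
    (by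
      intro ζ ζ' h1 h2 h12
      have h3 : yv ζ h1 = yv ζ' h2 := by
        have h4 := congrArg (fun x : WqS h n π p e r w0 c B => (x : Fin (m + 1) → ZMod 3)) h12
        simp only [Y₁, dif_pos h1, dif_pos h2] at h4
        exact h4
      have e1 := hyg ζ h1
      have e2 := hyg ζ' h2
      rw [h3] at e1
      refine ⟨g₁ ζ h1 * g₂ ζ' h2, g₁ ζ' h2 * g₂ ζ h1, mul_ne_zero (hg₁ ζ h1) (hg₂ ζ' h2),
        mul_ne_zero (hg₁ ζ' h2) (hg₂ ζ h1), ?_⟩
      linear_combination (g₂ ζ' h2) ^ 3 * e1 - (g₂ ζ h1) ^ 3 * e2)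
    (by
      intro z z' h1 h2 h12
      have h3 : ∀ i, (g z h1 i : ZMod 3) = g z' h2 i := by
        intro i
        have h4 := congrArg (fun x : LinearMap.ker M.mulVecLin => (x : Fin s → ZMod 3) i) h12
        simp only [Ψ₂, dif_pos h1, dif_pos h2] at h4
        exact h4
      obtain ⟨A1, A2, hA1, hA2, hAA⟩ := BKER.prod_cube b (fun i => (hAdm i).1.ne) (g z h1)
        (g z' h2) h3
      have e1 := hz z h1
      have e2 := hz z' h2
      have hu1 := hu z h1
      have hu2 := hu z' h2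
      have hy1 := hy z h1
      have hy2 := hy z' h2
      generalize (∏ i, b i ^ g z h1 i) = P1 at *
      generalize (∏ i, b i ^ g z' h2 i) = P2 at *
      generalize u z h1 = u1 at *
      generalize u z' h2 = u2 at *
      generalize y z h1 = y1 at *
      generalize y z' h2 = y2 at *
      generalize j z h1 = j1 at *
      generalize j z' h2 = j2 at *
      refine ⟨B ^ j1 * y1 * A1 * u2, y2 * A2 * u1, j2 + 2 * j1, ?_, ?_, ?_⟩
      · exact mul_ne_zero (mul_ne_zero (mul_ne_zero (pow_ne_zero _ hB0) hy1) hA1) hu2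
      · exact mul_ne_zero (mul_ne_zero hy2 hA2) hu1
      · have e3 : B ^ (j2 + 2 * j1) = B ^ j2 * (B ^ j1) ^ 2 := by
          rw [pow_add, mul_comm 2 j1, pow_mul]
        rw [e3]
        generalize B ^ j1 = C1 at *
        generalize B ^ j2 = C2 at *
        linear_combination (-(C1 ^ 2 * A1 ^ 3 * u2 ^ 3)) * e1 +
          (C1 ^ 2 * u1 ^ 3 * u2 ^ 3) * hAA + (C1 ^ 2 * A2 ^ 3 * u1 ^ 3) * e2)
  have hkr : Module.finrank (ZMod 3) (LinearMap.ker M.mulVecLin) = s - M.rank := by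
    have h1 := LinearMap.finrank_range_add_finrank_ker M.mulVecLin
    rw [Module.finrank_fintype_fun_eq_card, Fintype.card_fin] at h1
    have h2 : Module.finrank (ZMod 3) (LinearMap.range M.mulVecLin) = M.rank := rfl
    omega
  refine CubeRank.gen' B hcf h3B _ hidx.1 (hidx.2.trans ?_)
  rw [Module.natCard_eq_pow_finrank (K := ZMod 3) (V := LinearMap.ker M.mulVecLin),
    Nat.card_zmod, hkr, hd, Nat.log_pow (by norm_num : 1 < 3), pow_add]

end Pool.Agent.PTK
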