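import Pool.Agent.PTK.StN

/-!
# PTK, module NDS: the solution as a quotient of linear forms (helper54)
-/

set_option autoImplicit false

open NumberField IsDedekindDomain Finset
open scoped nonZeroDivisors Pointwise

namespace Pool.Agent.PTK

open Pool.Agent.Lib_helper18 Pool.Agent.Lib_helper18.Eis Pool.Agent.Lib_helper84.Cub
open Pool.Agent.PT

namespace NDS

variable {x : Eis} {L : Type} [Field L] [NumberField L] {ι : Eis →+* L} {θ : L} {σ : L ≃ₐ[ℚ] L}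

theorem norm_lin (h : CubE x L ι θ σ) (α β : Eis) :
    (ι α + ι β * θ) * σ (ι α + ι β * θ) * σ (σ (ι α + ι β * θ)) = ι (α ^ 3 + x * β ^ 3) := by
  have hw : ι w ^ 2 + ι w + 1 = 0 := by
    have : w ^ 2 + w + 1 = (0 : Eis) := by
      decide
    rw [← map_pow, ← map_one ι, ← map_add, ← map_add, this, map_zero]
  have h3 : ι w ^ 3 = 1 := by
    linear_combination (ι w - 1) * hw
  have e1 : σ (ι α + ι β * θ) = ι α + ι β * (ι w * θ) := by
    rw [map_add, map_mul, h.sι, h.sι, h.sθ]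
  have e2 : σ (σ (ι α + ι β * θ)) = ι α + ι β * (ι w * (ι w * θ)) := by
    rw [e1, map_add, map_mul, map_mul, h.sι, h.sι, h.sι, h.sθ]
  rw [e2, e1, map_add, map_mul, map_pow, map_pow, ← h.cube]
  linear_combination (ι α ^ 2 * ι β * θ + ι α * ι β ^ 2 * θ ^ 2 * ι w) * hw
    + ι β ^ 3 * θ ^ 3 * h3

theorem norm_ne (h : CubE x L ι θ σ) {α β : Eis} (hne : ι α + ι β * θ ≠ 0) :
    α ^ 3 + x * β ^ 3 ≠ 0 := by
  intro h0
  have h1 := norm_lin h α β
  rw [h0, map_zero] at h1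
  have hs : ∀ y : L, y ≠ 0 → σ y ≠ 0 := fun y hy => (map_ne_zero σ).mpr hy
  exact (mul_ne_zero (mul_ne_zero hne (hs _ hne)) (hs _ (hs _ hne))) h1

end NDS

theorem NDS_thm : Stmt_NDS := by
  intro x L _ _ ι θ σ _ hF y z hy hz hN
  obtain ⟨m, a, b, d, hm, e⟩ := hF.rep z
  have hmL : (m : L) ≠ 0 := by exact_mod_cast hm
  have hm' : ι (m : Eis) = (m : L) := map_intCast ι m
  have hmE : (m : Eis) ≠ 0 := by
    intro h0
    rw [h0, map_zero] at hm'
    exact hmL hm'.symm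
  -- killing the coefficient of `θ ^ 2`
  obtain ⟨γ, δ, hγδ, h2⟩ : ∃ γ δ : Eis, ¬ (γ = 0 ∧ δ = 0) ∧ b * δ + d * γ = 0 := by
    by_cases h3 : b = 0 ∧ d = 0
    · refine ⟨1, 0, by simp, ?_⟩
      rw [h3.1, h3.2]
      ring
    · refine ⟨b, -d, ?_, by ring⟩
      rintro ⟨h4, h5⟩
      exact h3 ⟨h4, neg_eq_zero.1 h5⟩
  have hlin : ι γ + ι δ * θ ≠ 0 := by
    intro h0
    have h1 := hF.lin γ δ 0 (by rw [map_zero, zero_mul, add_zero]; exact h0)
    exact hγδ ⟨h1.1, h1.2.1⟩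
  have h3 : ((m : L) * z) * (ι γ + ι δ * θ) =
      ι (a * γ + d * δ * x) + ι (a * δ + b * γ) * θ := by
    have h4 : ι b * ι δ + ι d * ι γ = 0 := by
      rw [← map_mul, ← map_mul, ← map_add, h2, map_zero]
    have h5 := hF.cube
    rw [e]
    simp only [map_add, map_mul]
    linear_combination θ ^ 2 * h4 + ι d * ι δ * h5
  have h4 : (m : Eis) ^ 3 * y * (γ ^ 3 + x * δ ^ 3) =
      (a * γ + d * δ * x) ^ 3 + x * (a * δ + b * γ) ^ 3 := by
    apply hF.inj
    rw [← NDS.norm_lin hF (a * γ + d * δ * x) (a * δ + b * γ), ← h3, map_mul, map_mul, map_pow,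
      hm', ← NDS.norm_lin hF γ δ, ← hN]
    simp only [map_mul, map_intCast]
    ring
  have h5 := NDS.norm_ne hF hlin
  refine ⟨a * γ + d * δ * x, a * δ + b * γ, m * γ, m * δ, ?_, ?_⟩
  · rw [← h4]
    ring
  · rw [← h4]
    exact mul_ne_zero (mul_ne_zero (pow_ne_zero 3 hmE) hy) h5

end Pool.Agent.PTK
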