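import Pool.Agent.PTK.StN

/-!
# PTK_NFL: existence of the field `K(x^(1/3))`
-/

set_option autoImplicit false

open Polynomial

namespace Pool.Agent.PTK

open Pool.Agent.Lib_helper18 Pool.Agent.Lib_helper18.Eis Pool.Agent.Lib_helper84.Cub
open Pool.Agent.PT

namespace NFL

/-- the field `Q(w)` -/
abbrev F : Type := FractionRing Eis

theorem no_root {x : Eis} (hx : ¬ ∃ c : Eis, c ^ 3 = x) (b : F) : b ^ 3 ≠ algebraMap Eis F x := by
  intro hb
  have h1 : IsIntegral Eis b := IsIntegral.of_pow (n := 3) (by norm_num)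
    (by rw [hb]; exact isIntegral_algebraMap)
  obtain ⟨c, hc⟩ := IsIntegrallyClosed.isIntegral_iff.mp h1
  exact hx ⟨c, IsFractionRing.injective Eis F (by rw [map_pow, hc, hb])⟩

/-- From ring endomorphisms to the final statement. -/
theorem build (x : Eis) (L : Type) [Field L] [CharZero L] (ι : Eis →+* L) (θ : L)
    (σ0 : L →+* L) (inj : Function.Injective ι) (cube : θ ^ 3 = ι x)
    (sθ : σ0 θ = ι w * θ) (sι : ∀ a : Eis, σ0 (ι a) = ι a)
    (rep : ∀ z : L, ∃ (m : ℤ) (a b d : Eis), m ≠ 0 ∧ (m : L) * z = ι a + ι b * θ + ι d * θ ^ 2)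
    (lin : ∀ a b d : Eis, ι a + ι b * θ + ι d * θ ^ 2 = 0 → a = 0 ∧ b = 0 ∧ d = 0) :
    ∃ (L : Type) (_ : Field L) (_ : NumberField L) (ι : Eis →+* L) (θ : L) (σ : L ≃ₐ[ℚ] L),
      CubE x L ι θ σ := by
  classical
  have hfin : FiniteDimensional ℚ L := by
    refine Module.finite_def.mpr ⟨(Finset.range 2 ×ˢ Finset.range 3).image
      (fun ij : ℕ × ℕ => ι w ^ ij.1 * θ ^ ij.2), ?_⟩
    rw [eq_top_iff]
    rintro z -
    obtain ⟨m, a, b, d, hm, h⟩ := rep z
    have hmL : (m : L) ≠ 0 := Int.cast_ne_zero.mpr hm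
    have hs : ∀ i < 2, ∀ j < 3, ι w ^ i * θ ^ j ∈ Submodule.span ℚ
        (((Finset.range 2 ×ˢ Finset.range 3).image
          (fun ij : ℕ × ℕ => ι w ^ ij.1 * θ ^ ij.2) : Finset L) : Set L) := by
      intro i hi j hj
      apply Submodule.subset_span
      rw [Finset.mem_coe, Finset.mem_image]
      exact ⟨(i, j), by simp [hi, hj], rfl⟩
    have he : ∀ a : Eis, ι a = (a.re : L) + (a.im : L) * ι w := by
      intro a
      conv_lhs => rw [eq_re_add_im a]
      simp
    have hz : z = ((a.re : ℚ) / m) • (ι w ^ 0 * θ ^ 0) + ((a.im : ℚ) / m) • (ι w ^ 1 * θ ^ 0) +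
        ((b.re : ℚ) / m) • (ι w ^ 0 * θ ^ 1) + ((b.im : ℚ) / m) • (ι w ^ 1 * θ ^ 1) +
        ((d.re : ℚ) / m) • (ι w ^ 0 * θ ^ 2) + ((d.im : ℚ) / m) • (ι w ^ 1 * θ ^ 2) := by
      apply mul_left_cancel₀ hmL
      rw [h, he a, he b, he d]
      simp only [Rat.smul_def]
      push_cast
      field_simp
      ring
    rw [hz]
    refine Submodule.add_mem _ (Submodule.add_mem _ (Submodule.add_mem _ (Submodule.add_mem _
      (Submodule.add_mem _ ?_ ?_) ?_) ?_) ?_) ?_ <;>
    exact Submodule.smul_mem _ _ (hs _ (by norm_num) _ (by norm_num))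
  have hNF : NumberField L := { to_charZero := inferInstance, to_finiteDimensional := hfin }
  have key : ∀ g : L →+* L, ∃ g' : L ≃ₐ[ℚ] L, ∀ z, g' z = g z := by
    intro g
    have hb : Function.Bijective g.toRatAlgHom :=
      Algebra.IsAlgebraic.algHom_bijective _
    exact ⟨AlgEquiv.ofBijective g.toRatAlgHom hb, fun z => rfl⟩
  obtain ⟨σ, hσ⟩ := key σ0
  exact ⟨L, inferInstance, hNF, ι, θ, σ, inj, cube, by rw [hσ, sθ], fun a => by rw [hσ, sι],
    rep, lin⟩

end NFL

open Pool.Agent.PTK.NFL in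
theorem NFL_thm : Stmt_NFL := by
  intro x hx0 hx
  let f : F[X] := X ^ 3 - C (algebraMap Eis F x)
  have hf : Irreducible f :=
    X_pow_sub_C_irreducible_of_prime Nat.prime_three (fun b => no_root hx b)
  have : Fact (Irreducible f) := ⟨hf⟩
  have hdeg : f.natDegree = 3 := natDegree_X_pow_sub_C
  have hmonic : f.Monic := monic_X_pow_sub_C _ (by norm_num)
  let L := AdjoinRoot f
  let θ : L := AdjoinRoot.root f
  let ι : Eis →+* L := (AdjoinRoot.of f).comp (algebraMap Eis F)
  have hinj : Function.Injective ι :=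
    (AdjoinRoot.of f).injective.comp (IsFractionRing.injective Eis F)
  have hchar : CharZero Eis := ⟨fun a b h => by
    have := congrArg Eis.re h
    simpa using this⟩
  have hcL : CharZero L := charZero_of_injective_ringHom hinj
  have hcube : θ ^ 3 = ι x := by
    have h := AdjoinRoot.eval₂_root f
    simp only [f, eval₂_sub, eval₂_pow, eval₂_X, eval₂_C] at h
    exact sub_eq_zero.mp h
  -- lin
  have hlin : ∀ a b d : Eis, ι a + ι b * θ + ι d * θ ^ 2 = 0 → a = 0 ∧ b = 0 ∧ d = 0 := by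
    intro a b d h
    let g : F[X] := C (algebraMap Eis F a) + C (algebraMap Eis F b) * X +
      C (algebraMap Eis F d) * X ^ 2
    have hg : AdjoinRoot.mk f g = 0 := by
      simp only [g, map_add, map_mul, map_pow, AdjoinRoot.mk_C, AdjoinRoot.mk_X]
      exact h
    rw [AdjoinRoot.mk_eq_zero] at hg
    have hg0 : g = 0 := by
      by_contra hne
      have h1 := natDegree_le_of_dvd hg hne
      have h2 : g.natDegree ≤ 2 := by
        simp only [g]
        compute_degree
      omega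
    have c0 := congrArg (fun q => coeff q 0) hg0
    have c1 := congrArg (fun q => coeff q 1) hg0
    have c2 := congrArg (fun q => coeff q 2) hg0
    simp [g, coeff_X, coeff_C] at c0 c1 c2
    exact ⟨c0, c1, c2⟩
  -- rep
  have hF : ∀ z : F, ∃ (m : ℤ) (a : Eis), m ≠ 0 ∧ (m : F) * z = algebraMap Eis F a := by
    intro z
    obtain ⟨⟨u, v⟩, huv⟩ := IsLocalization.surj (nonZeroDivisors Eis) z
    have hv : (v : Eis) ≠ 0 := nonZeroDivisors.coe_ne_zero v
    simp only at huv
    refine ⟨(v : Eis).norm, u * conj v, fun h => hv (norm_eq_zero.mp h), ?_⟩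
    have h1 : (((v : Eis).norm : ℤ) : F) = algebraMap Eis F ((v : Eis) * conj v) := by
      rw [mul_conj]; simp
    rw [h1, map_mul, map_mul, ← huv]
    ring
  have hrep : ∀ z : L, ∃ (m : ℤ) (a b d : Eis), m ≠ 0 ∧
      (m : L) * z = ι a + ι b * θ + ι d * θ ^ 2 := by
    intro z
    obtain ⟨g0, rfl⟩ := AdjoinRoot.mk_surjective z
    obtain ⟨g, hgd, hgz⟩ : ∃ g : F[X], g.natDegree < 3 ∧ AdjoinRoot.mk f g0 = AdjoinRoot.mk f g := by
      refine ⟨g0 %ₘ f, ?_, ?_⟩
      · have := natDegree_modByMonic_lt g0 hmonic (fun h => by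
          rw [h] at hdeg; simp at hdeg)
        rwa [hdeg] at this
      · rw [AdjoinRoot.mk_eq_mk]
        exact ⟨g0 /ₘ f, by
          have := modByMonic_add_div g0 f
          linear_combination (-1 : F[X]) * this⟩
    obtain ⟨m0, a, hm0, ha⟩ := hF (g.coeff 0)
    obtain ⟨m1, b, hm1, hb⟩ := hF (g.coeff 1)
    obtain ⟨m2, d, hm2, hd⟩ := hF (g.coeff 2)
    refine ⟨m0 * m1 * m2, ((m1 * m2 : ℤ) : Eis) * a, ((m0 * m2 : ℤ) : Eis) * b, ((m0 * m1 : ℤ) : Eis) * d,
      by simp [hm0, hm1, hm2], ?_⟩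
    have hg3 : g = C (g.coeff 0) + C (g.coeff 1) * X + C (g.coeff 2) * X ^ 2 := by
      conv_lhs => rw [g.as_sum_range' 3 hgd]
      simp [Finset.sum_range_succ, ← C_mul_X_pow_eq_monomial]
    have e : AdjoinRoot.mk f g0 = AdjoinRoot.of f (g.coeff 0) + AdjoinRoot.of f (g.coeff 1) * θ +
        AdjoinRoot.of f (g.coeff 2) * θ ^ 2 := by
      rw [hgz]
      conv_lhs => rw [hg3]
      simp only [map_add, map_mul, map_pow, AdjoinRoot.mk_C, AdjoinRoot.mk_X]
      rfl
    have ha' : (m0 : L) * AdjoinRoot.of f (g.coeff 0) = ι a := by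
      have := congrArg (AdjoinRoot.of f) ha
      rw [map_mul, map_intCast] at this
      exact this
    have hb' : (m1 : L) * AdjoinRoot.of f (g.coeff 1) = ι b := by
      have := congrArg (AdjoinRoot.of f) hb
      rw [map_mul, map_intCast] at this
      exact this
    have hd' : (m2 : L) * AdjoinRoot.of f (g.coeff 2) = ι d := by
      have := congrArg (AdjoinRoot.of f) hd
      rw [map_mul, map_intCast] at this
      exact this
    rw [e, map_mul, map_mul, map_mul, ← ha', ← hb', ← hd']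
    have hm : ((m0 * m1 * m2 : ℤ) : L) = (m0 : L) * m1 * m2 := by
      rw [Int.cast_mul, Int.cast_mul]
    have hi : ∀ k l : ℤ, ι ((k * l : ℤ) : Eis) = (k : L) * l := fun k l => by
      rw [map_intCast, Int.cast_mul]
    rw [hm, hi, hi, hi]
    ring
  have hw3 : ι w ^ 3 = 1 := by rw [← map_pow, w_cube, map_one]
  -- sigma
  let σ0 : L →+* L := AdjoinRoot.lift (AdjoinRoot.of f) (ι w * θ) (by
    simp only [f, eval₂_sub, eval₂_pow, eval₂_X, eval₂_C]
    rw [mul_pow, hw3, hcube, one_mul]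
    exact sub_self _)
  exact build x L ι θ σ0 hinj hcube (AdjoinRoot.lift_root _) (fun a => AdjoinRoot.lift_of _)
    hrep hlin

end Pool.Agent.PTK
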