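import Pool.Agent.PTK.StN
import Pool.Agent.PT.NGEN
import Pool.Agent.PT.NCNT

/-!
# A set of places and sufficiently many units with independent symbols (over `K`)
-/

set_option autoImplicit false

open NumberField IsDedekindDomain Finset
open scoped nonZeroDivisors Pointwise

namespace Pool.Agent.PTK

open Pool.Agent.Lib_helper18 Pool.Agent.Lib_helper18.Eis Pool.Agent.Lib_helper84.Cub
open Pool.Agent.PT

namespace NGN

open Pool.Agent.PT.NGEN

theorem nine_of {x : Eis} (h : lam ^ 4 ∣ x ^ 2 - 1) :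
    ∃ ε : ℤ, (ε = 1 ∨ ε = -1) ∧ (9 : ℤ) ∣ x.re - ε ∧ (9 : ℤ) ∣ x.im := by
  obtain ⟨h1, h2⟩ := Pool.Agent.PT.NCNT.nine_dvd h
  have hre : (x ^ 2 - 1).re = x.re * x.re - x.im * x.im - 1 := by
    rw [pow_two]
    simp
  have him : (x ^ 2 - 1).im = x.im * (2 * x.re - x.im) := by
    rw [pow_two]
    simp
    ring
  rw [hre] at h1
  rw [him] at h2
  generalize x.re = a at *
  generalize x.im = b at *
  have key : ∀ α β : ZMod 9, α * α - β * β - 1 = 0 → β * (2 * α - β) = 0 →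
      (α = 1 ∨ α = -1) ∧ β = 0 := by decide
  have hcast : ∀ n : ℤ, ((n : ZMod 9) = 0 ↔ (9 : ℤ) ∣ n) := fun n => by
    have := ZMod.intCast_zmod_eq_zero_iff_dvd n 9
    simpa using this
  rw [← hcast] at h1 h2
  push_cast at h1 h2
  obtain ⟨h3, h4⟩ := key _ _ h1 h2
  rw [hcast] at h4
  rcases h3 with h3 | h3
  · refine ⟨1, Or.inl rfl, ?_, h4⟩
    rw [← hcast]
    push_cast
    rw [h3, sub_self]
  · refine ⟨-1, Or.inr rfl, ?_, h4⟩
    rw [← hcast]
    push_cast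
    rw [h3, sub_self]

theorem prim_of {x : Eis} (h : lam ^ 4 ∣ x ^ 2 - 1) : Prim x := by
  obtain ⟨ε, hε, h1, h2⟩ := nine_of h
  refine ⟨by omega, ?_⟩
  rcases hε with rfl | rfl <;> omega

theorem dvd_sub_of {x : Eis} {ε : ℤ} (h1 : (9 : ℤ) ∣ x.re - ε) (h2 : (9 : ℤ) ∣ x.im) :
    lam ^ 4 ∣ x - (ε : Eis) := by
  have h3 : ((9 : ℤ) : Eis) ∣ x - (ε : Eis) := by
    rw [intCast_dvd_iff]
    refine ⟨?_, ?_⟩
    · simpa using h1
    · simpa using h2
  refine dvd_trans ⟨w, ?_⟩ h3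
  decide

theorem lce_lam (hLCI : Stmt_LCI) {x : Eis} (h : lam ^ 4 ∣ x ^ 2 - 1) : LCE (uni none) x := by
  obtain ⟨ε, hε, h1, h2⟩ := nine_of h
  have h3 := dvd_sub_of h1 h2
  have hl1 : ¬ lam ∣ 1 := fun h => prime_lam.not_unit (isUnit_of_dvd_one h)
  change LCE lam x
  refine hLCI.2.1 x (ε : Eis) 1 ?_ hl1 ?_
  · rcases hε with rfl | rfl
    · simpa using hl1
    · intro h4
      apply hl1
      have h5 : (1 : Eis) = (((-1 : ℤ) : Eis)) * (-1) := by decide
      rw [h5]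
      exact h4.mul_right _
  · have h4 : (ε : Eis) ^ 3 = (ε : Eis) := by
      rcases hε with rfl | rfl
      · decide
      · decide
    rw [h4, one_pow, mul_one]
    exact h3

/-- the symbol of `x` at a prime not dividing it -/
theorem ch_eqE (hSPP : SPP) (hSREC : SREC) {x : Eis} (hx : Prim x) (D : Finset PP)
    (hD : ∀ π : PP, π ∈ D ↔ π.1 ∣ x) (ρ : PP) (hρ : ρ ∉ D) :
    ch ρ.1 x = ∑ π ∈ D, (V π.1 x : ZMod 3) * sym π.1 ρ.1 := by
  classical
  have h1 := hSREC.1 ρ.1 x (ppPrim ρ) hx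
  have hρx : ¬ ρ.1 ∣ x := fun h => hρ ((hD ρ).2 h)
  rw [sl_eq (insert ρ D) (fun v hv => by
    rcases hv with hv | hv
    · rw [eq_of_dvd hSPP hv]
      exact Finset.mem_insert_self _ _
    · exact Finset.mem_insert_of_mem ((hD v).2 hv)), Finset.sum_insert hρ, neg_eq_zero] at h1
  have h2 : tm ρ.1 ρ.1 x = - ch ρ.1 x := by
    unfold tm
    rw [V_eq_zero hρx, V_self]
    push_cast
    ring
  have h3' : ∑ π ∈ D, tm π.1 ρ.1 x = ∑ π ∈ D, (V π.1 x : ZMod 3) * sym π.1 ρ.1 := by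
    apply Finset.sum_congr rfl
    intro π hπ
    have hne : π ≠ ρ := fun h => hρ (h ▸ hπ)
    have hd1 : ¬ π.1 ∣ ρ.1 := fun hd => hne (eq_of_dvd hSPP hd)
    unfold tm
    rw [V_eq_zero hd1, ch_of_not_dvd hd1]
    push_cast
    ring
  rw [h2, h3'] at h1
  rw [← add_right_inj (-ch ρ.1 x), h1]
  ring

theorem tm_eqE (hSPP : SPP) {x : Eis} {π ρ : PP} (hne : π ≠ ρ) :
    tm π.1 ρ.1 x = (V π.1 x : ZMod 3) * sym π.1 ρ.1 := by
  have hd1 : ¬ π.1 ∣ ρ.1 := fun hd => hne (eq_of_dvd hSPP hd)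
  unfold tm
  rw [V_eq_zero hd1, ch_of_not_dvd hd1]
  push_cast
  ring

/-- `x` is divisible by an element of `PP` -/
theorem exists_dvdE (hSPP : SPP) {x : Eis} (h0 : x ≠ 0) (hx : Prim x)
    (hc : ¬ ∃ c : Eis, c ^ 3 = x) : ∃ π : PP, π.1 ∣ x := by
  have hxu : ¬ IsUnit x := by
    intro h
    have h1 : Prim (1 : Eis) := ⟨by simp, by decide⟩
    rcases Prim.unit h1 h (by rw [one_mul]; exact hx) with h' | h'
    · exact hc ⟨1, by rw [h']; decide⟩
    · exact hc ⟨-1, by rw [h']; decide⟩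
  obtain ⟨l, hl, hlx⟩ := WfDvdMonoid.exists_irreducible_factor hxu h0
  have hlP : Prime l := hl.prime
  have hl3 : ¬ l ∣ 3 := by
    intro h
    rw [dvd_three_iff hlP] at h
    exact hx.not_lam_dvd (h.symm.dvd.trans hlx)
  obtain ⟨π, hπ⟩ := hSPP.1 l hlP hl3
  exact ⟨π, hπ.symm.dvd.trans hlx⟩

open Classical in
/-- from a finite type to `Fin e` -/
theorem transferE {κ : Type} [Fintype κ] (x : Eis) (S₀ S : Finset Pl) (d : κ → Eis) (hS : S₀ ⊆ S)
    (hLC : ∀ v ∈ S, v ∉ S₀ → LCE (uni v) x)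
    (hcard : (S.filter fun v => ¬ LCE (uni v) x).card = Fintype.card κ + 1)
    (hd0 : ∀ i, d i ≠ 0) (hdS : ∀ i (v : Pl), uni v ∣ d i → v ∈ S)
    (hmul : ∀ n m : κ → ℕ, ∏ i, d i ^ n i = ∏ i, d i ^ m i → n = m)
    (hind : ∀ n : κ → ZMod 3, (∀ v : Pl, ∑ i, n i * sy v (d i) x = 0) → n = 0) :
    ∃ (S : Finset Pl) (e : ℕ) (d : Fin e → Eis), S₀ ⊆ S ∧ (∀ v ∈ S, v ∉ S₀ → LCE (uni v) x) ∧
    (S.filter fun v => ¬ LCE (uni v) x).card = e + 1 ∧
    (∀ i, d i ≠ 0) ∧ (∀ i (v : Pl), uni v ∣ d i → v ∈ S) ∧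
    (∀ n m : Fin e → ℕ, ∏ i, d i ^ n i = ∏ i, d i ^ m i → n = m) ∧
    (∀ n : Fin e → ZMod 3, (∀ v : Pl, ∑ i, n i * sy v (d i) x = 0) → n = 0) := by
  let E : Fin (Fintype.card κ) ≃ κ := (Fintype.equivFin κ).symm
  refine ⟨S, Fintype.card κ, fun i => d (E i), hS, hLC, hcard, fun i => hd0 _,
    fun i v h => hdS _ v h, ?_, ?_⟩
  · intro n m h
    have h1 : ∀ n : Fin (Fintype.card κ) → ℕ,
        ∏ i, d (E i) ^ n i = ∏ k, d k ^ n (E.symm k) := by
      intro n
      rw [← E.prod_comp]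
      simp
    rw [h1, h1] at h
    have h2 := hmul _ _ h
    funext i
    have := congrFun h2 (E i)
    simpa using this
  · intro n h
    have h1 := hind (fun k => n (E.symm k)) (fun v => by
      rw [← h v, ← E.sum_comp]
      simp)
    funext i
    have := congrFun h1 (E i)
    simpa using this

theorem V_castE {x : Eis} (π : PP) (h : π.1 ∣ x) (h2 : V π.1 x ≤ 2) :
    (V π.1 x : ZMod 3) * (V π.1 x : ZMod 3) = 1 ∧ ¬ 3 ∣ V π.1 x := by
  have h1 : V π.1 x ≠ 0 := fun h' => (V_eq_zero_iff.1 h') h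
  have h3 : V π.1 x = 1 ∨ V π.1 x = 2 := by omega
  rcases h3 with h3 | h3
  · rw [h3]
    exact ⟨by decide, by decide⟩
  · rw [h3]
    exact ⟨by decide, by decide⟩

end NGN

open Pool.Agent.PT.NGEN NGN in
open Classical in
/-- a set of places and sufficiently many units with independent symbols -/
theorem NGN_thm (hSPP : SPP) (hSREC : SREC) (hLCI : Stmt_LCI)
    (hNAUX : NAUX) : Stmt_NGN := by
  intro x S₀ hx0 hx9 hV hcube hnone hS0 hS0'
  have hxP : Prim x := prim_of hx9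
  obtain ⟨D, hD⟩ : ∃ D : Finset PP, ∀ π : PP, π ∈ D ↔ π.1 ∣ x := by
    refine ⟨(hSPP.2.2.1 x hx0).toFinset, fun π => ?_⟩
    rw [Set.Finite.mem_toFinset]
    rfl
  obtain ⟨π₀, hπ₀⟩ := exists_dvdE hSPP hx0 hxP hcube
  have hπ₀D : π₀ ∈ D := (hD π₀).2 hπ₀
  have hVD : ∀ π ∈ D, (V π.1 x : ZMod 3) * (V π.1 x : ZMod 3) = 1 ∧
      ¬ 3 ∣ V π.1 x := fun π hπ => V_castE π ((hD π).1 hπ) (hV π)
  let κ : Type := {k // k ∈ D.erase π₀}
  -- the vectors
  let r : κ → PP → ZMod 3 := fun k π => if π = k.1 then 1 else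
    if π = π₀ then - (V k.1.1 x : ZMod 3) * (V π₀.1 x : ZMod 3) else 0
  have hkD : ∀ k : κ, k.1 ∈ D ∧ k.1 ≠ π₀ := fun k =>
    ⟨Finset.mem_of_mem_erase k.2, Finset.ne_of_mem_erase k.2⟩
  have hr0 : ∀ k : κ, ∑ π ∈ D, (V π.1 x : ZMod 3) * r k π = 0 := by
    intro k
    obtain ⟨hk1, hk2⟩ := hkD k
    have h1 : ∑ π ∈ D, (V π.1 x : ZMod 3) * r k π =
        ∑ π ∈ ({k.1, π₀} : Finset PP), (V π.1 x : ZMod 3) * r k π := by
      symm
      apply Finset.sum_subset
      · intro π hπ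
        rcases Finset.mem_insert.1 hπ with rfl | hπ
        · exact hk1
        · rw [Finset.mem_singleton.1 hπ]
          exact hπ₀D
      · intro π _ hπ
        rw [Finset.mem_insert, Finset.mem_singleton, not_or] at hπ
        simp only [r]
        rw [if_neg hπ.1, if_neg hπ.2, mul_zero]
    have hr1 : r k k.1 = 1 := if_pos rfl
    have hr2 : r k π₀ = - (V k.1.1 x : ZMod 3) * (V π₀.1 x : ZMod 3) := by
      change (if π₀ = k.1 then (1 : ZMod 3) else
        if π₀ = π₀ then - (V k.1.1 x : ZMod 3) * (V π₀.1 x : ZMod 3) else 0) = _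
      rw [if_neg hk2.symm, if_pos rfl]
    rw [h1, Finset.sum_pair hk2, hr1, hr2]
    have h2 := (hVD π₀ hπ₀D).1
    calc (V k.1.1 x : ZMod 3) * 1 + (V π₀.1 x : ZMod 3) *
          (- (V k.1.1 x : ZMod 3) * (V π₀.1 x : ZMod 3))
        = (V k.1.1 x : ZMod 3) * (1 - (V π₀.1 x : ZMod 3) *
          (V π₀.1 x : ZMod 3)) := by ring
      _ = 0 := by rw [h2, sub_self, mul_zero]
  have hrk : ∀ k l : κ, r k l.1 = if l = k then 1 else 0 := by
    intro k l
    simp only [r]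
    by_cases h : l = k
    · rw [h, if_pos rfl, if_pos rfl]
    · rw [if_neg (fun h' => h (Subtype.ext h')), if_neg (hkD l).2, if_neg h]
  -- the auxiliary primes
  have hex : ∀ (k : κ) (A : Finset PP), ∃ ρ : PP, ρ ∉ A ∧ ∃ ε : ZMod 3, ε ≠ 0 ∧
      ∀ π ∈ D, sym ρ.1 π.1 = ε * r k π := by
    intro k A
    obtain ⟨ρ, hρ, ε, hε, h⟩ := hNAUX D.card (fun i => (D.equivFin.symm i).1)
      (fun i => r k (D.equivFin.symm i).1) A (fun i j h => by
        exact D.equivFin.symm.injective (Subtype.ext h))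
    refine ⟨ρ, hρ, ε, hε, fun π hπ => ?_⟩
    have := h (D.equivFin ⟨π, hπ⟩)
    simpa using this
  let A₀ : Finset PP := (S₀.biUnion fun v => match v with
    | none => ∅
    | some π => {π})
  have hA₀ : ∀ π : PP, π ∈ A₀ ↔ some π ∈ S₀ := by
    intro π
    simp only [A₀, Finset.mem_biUnion]
    constructor
    · rintro ⟨v, hv, hπ⟩
      cases v with
      | none => simp at hπ
      | some π' =>
        have : π = π' := by simpa using hπ
        rw [this]
        exact hv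
    · intro h
      exact ⟨some π, h, by simp⟩
  obtain ⟨ρ, hρ1, hρ2⟩ := choose_distinct (κ := κ) (α := PP)
    (fun k ρ => ∃ ε : ZMod 3, ε ≠ 0 ∧ ∀ π ∈ D, sym ρ.1 π.1 = ε * r k π) A₀ hex Finset.univ
  have hρS : ∀ k, some (ρ k) ∉ S₀ := fun k h => (hρ1 k (Finset.mem_univ _)).2 ((hA₀ _).2 h)
  have hρD : ∀ k, ρ k ∉ D := fun k h => hρS k (hS0 _ ((hD _).1 h))
  have hρinj : ∀ k l, ρ k = ρ l → k = l := fun k l h =>
    hρ2 k (Finset.mem_univ _) l (Finset.mem_univ _) h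
  choose ε hε hsym using fun k => (hρ1 k (Finset.mem_univ _)).1
  have hsym' : ∀ k, ∀ π ∈ D, sym π.1 (ρ k).1 = ε k * r k π := by
    intro k π hπ
    have hne : π ≠ ρ k := fun h => hρD k (h ▸ hπ)
    rw [← recPP hSPP hSREC hne]
    exact hsym k π hπ
  have htm : ∀ k, ∀ π ∈ D, tm π.1 (ρ k).1 x =
      (V π.1 x : ZMod 3) * (ε k * r k π) := by
    intro k π hπ
    have hne : π ≠ ρ k := fun h => hρD k (h ▸ hπ)
    rw [tm_eqE hSPP hne, hsym' k π hπ]
  have htm0 : ∀ k, ∑ π ∈ D, tm π.1 (ρ k).1 x = 0 := by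
    intro k
    rw [Finset.sum_congr rfl (htm k)]
    have h1 : ∀ π ∈ D, (V π.1 x : ZMod 3) * (ε k * r k π) =
        ε k * ((V π.1 x : ZMod 3) * r k π) := fun π _ => by ring
    rw [Finset.sum_congr rfl h1, ← Finset.mul_sum, hr0 k, mul_zero]
  have hLCρ : ∀ k, LCE (ρ k).1 x := by
    intro k
    rw [hLCI.1 (ρ k) x hx0]
    have hnd : ¬ (ρ k).1 ∣ x := fun h => hρD k ((hD _).2 h)
    refine ⟨by rw [V_eq_zero hnd]; exact dvd_zero _, ?_⟩
    rw [ch_eqE hSPP hSREC hxP D hD (ρ k) (hρD k)]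
    have h1 : ∀ π ∈ D, (V π.1 x : ZMod 3) * sym π.1 (ρ k).1 =
        ε k * ((V π.1 x : ZMod 3) * r k π) := fun π hπ => by
      rw [hsym' k π hπ]
      ring
    rw [Finset.sum_congr rfl h1, ← Finset.mul_sum, hr0 k, mul_zero]
  have hLCD : ∀ π ∈ D, ¬ LCE π.1 x := by
    intro π hπ h
    exact (hVD π hπ).2 ((hLCI.1 π x hx0).1 h).1
  -- the set of places
  let S : Finset Pl := S₀ ∪ Finset.univ.image (fun k : κ => some (ρ k))
  have hmemS : ∀ v, v ∈ S ↔ v ∈ S₀ ∨ ∃ k, some (ρ k) = v := by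
    intro v
    simp [S]
  have hLCS : ∀ v ∈ S, v ∉ S₀ → LCE (uni v) x := by
    intro v hv hv0
    rcases (hmemS v).1 hv with h | ⟨k, rfl⟩
    · exact absurd h hv0
    · exact hLCρ k
  have hSsub : S₀ ⊆ S := fun v hv => (hmemS v).2 (Or.inl hv)
  have hcκ : Fintype.card κ + 1 = D.card := by
    have h1 : Fintype.card κ = (D.erase π₀).card := Fintype.card_coe _
    rw [h1, Finset.card_erase_of_mem hπ₀D]
    have : 0 < D.card := Finset.card_pos.2 ⟨π₀, hπ₀D⟩
    omega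
  have hfilter : ∀ v, v ∈ S.filter (fun v => ¬ LCE (uni v) x) ↔
      v ∈ D.image some := by
    intro v
    rw [Finset.mem_filter, hmemS]
    cases v with
    | none =>
      constructor
      · rintro ⟨_, h⟩
        exact absurd (lce_lam hLCI hx9) h
      · intro h
        simp at h
    | some π =>
      constructor
      · rintro ⟨h1, h2⟩
        rw [Finset.mem_image]
        rcases h1 with h1 | ⟨k, hk⟩
        · exact ⟨π, (hD π).2 (hS0' π h1 h2), rfl⟩
        · exfalso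
          have : ρ k = π := by simpa using hk
          exact h2 (this ▸ hLCρ k)
      · intro h
        rw [Finset.mem_image] at h
        obtain ⟨π', hπ', he⟩ := h
        have : π' = π := by simpa using he
        subst this
        exact ⟨Or.inl (hS0 _ ((hD _).1 hπ')), hLCD _ hπ'⟩
  have hVρ : ∀ k l, V (ρ k).1 (ρ l).1 = if l = k then 1 else 0 := by
    intro k l
    by_cases h : l = k
    · rw [h, if_pos rfl]
      exact V_self
    · rw [if_neg h]
      apply V_eq_zero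
      intro hd
      exact h (hρinj _ _ (eq_of_dvd hSPP hd)).symm
  have hρdS : ∀ (k : κ) (v : Pl), uni v ∣ (ρ k).1 → v ∈ S := by
    intro k v hv
    cases v with
    | none => exact hSsub hnone
    | some π =>
      have : π = ρ k := eq_of_dvd hSPP hv
      rw [this]
      exact (hmemS _).2 (Or.inr ⟨k, rfl⟩)
  -- independence, first part
  have hsum : ∀ (n : κ → ZMod 3) (l : κ), ∑ k, n k * tm l.1.1 (ρ k).1 x =
      (V l.1.1 x : ZMod 3) * (ε l * n l) := by
    intro n l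
    rw [Finset.sum_eq_single l]
    · rw [htm l l.1 (hkD l).1, hrk, if_pos rfl]
      ring
    · intro k _ hk
      rw [htm k l.1 (hkD l).1, hrk, if_neg (fun h => hk h.symm)]
      ring
    · intro h
      exact absurd (Finset.mem_univ _) h
  have hzero : ∀ (l : κ) (a : ZMod 3), (V l.1.1 x : ZMod 3) * (ε l * a) = 0 → a = 0 := by
    intro l a h
    have h1 := (hVD l.1 (hkD l).1).1
    have h2 : (V l.1.1 x : ZMod 3) ≠ 0 := by
      intro h0
      rw [h0, mul_zero] at h1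
      exact zero_ne_one h1
    rcases mul_eq_zero.1 h with h | h
    · exact absurd h h2
    · rcases mul_eq_zero.1 h with h | h
      · exact absurd h (hε l)
      · exact h
  refine transferE (κ := κ) x S₀ S (fun k => (ρ k).1) hSsub hLCS ?_
    (fun k => (ρ k).2.1.ne_zero) hρdS ?_ ?_
  · have h1 : S.filter (fun v => ¬ LCE (uni v) x) = D.image some := by
      ext v
      rw [hfilter]
    rw [h1, Finset.card_image_of_injective _ (Option.some_injective _), hcκ]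
  · apply mul_indep
    · exact fun k => (ρ k).2.1.ne_zero
    · intro k
      refine ⟨(ρ k).1, (ρ k).2.1, ?_, ?_⟩
      · rw [hVρ, if_pos rfl]
        exact one_ne_zero
      · intro l hl
        rw [hVρ, if_neg hl]
  · intro n h
    funext l
    have h1 := h (some l.1)
    change ∑ k, n k * tm l.1.1 (ρ k).1 x = 0 at h1
    rw [hsum] at h1
    exact hzero l _ h1

end Pool.Agent.PTK
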