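import Pool.Agent.PTK.StN
import Pool.Agent.PT.NNS

/-!
# PTK, module NNS: norms have trivial symbols with the base class (helper54)

Copy of `PT/NNS.lean`.
-/

set_option autoImplicit false

open NumberField IsDedekindDomain Finset
open scoped nonZeroDivisors Pointwise

namespace Pool.Agent.PTK

open Pool.Agent.Lib_helper18 Pool.Agent.Lib_helper18.Eis Pool.Agent.Lib_helper84.Cub
open Pool.Agent.PT

namespace NNS

variable {x : Eis} {L : Type} [Field L] [NumberField L] {ι : Eis →+* L} {θ : L} {σ : L ≃ₐ[ℚ] L}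

lemma norm_lin (h : CubE x L ι θ σ) (α β : Eis) :
    (ι α + ι β * θ) * σ (ι α + ι β * θ) * σ (σ (ι α + ι β * θ)) = ι (α ^ 3 + x * β ^ 3) := by
  have hw : ι w ^ 2 + ι w + 1 = 0 := by
    have : w ^ 2 + w + 1 = (0 : Eis) := by
      decide
    rw [← map_pow, ← map_one ι, ← map_add, ← map_add, this, map_zero]
  have h3 : ι w ^ 3 = 1 := by
    linear_combination (ι w - 1) * hw
  have e1 : σ (ι α + ι β * θ) = ι α + ι β * (ι w * θ) := by
    rw [map_add, map_mul, h.sι, h.sι, h.sθ]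
  have e2 : σ (σ (ι α + ι β * θ)) = ι α + ι β * (ι w * (ι w * θ)) := by
    rw [e1, map_add, map_mul, map_mul, h.sι, h.sι, h.sι, h.sθ]
  rw [e2, e1, map_add, map_mul, map_pow, map_pow, ← h.cube]
  linear_combination (ι α ^ 2 * ι β * θ + ι α * ι β ^ 2 * θ ^ 2 * ι w) * hw
    + ι β ^ 3 * θ ^ 3 * h3

lemma norm_ne (h : CubE x L ι θ σ) {α β : Eis} (hne : ι α + ι β * θ ≠ 0) :
    α ^ 3 + x * β ^ 3 ≠ 0 := by
  intro h0
  have h1 := norm_lin h α β
  rw [h0, map_zero] at h1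
  have hs : ∀ y : L, y ≠ 0 → σ y ≠ 0 := fun y hy => (map_ne_zero σ).mpr hy
  exact (mul_ne_zero (mul_ne_zero hne (hs _ hne)) (hs _ (hs _ hne))) h1

end NNS

theorem NNS_thm : Stmt_NNS := by
  intro x L _ _ ι θ σ hxE hF π s e hs z a b hz ha hb hzab
  obtain ⟨m, a0, b0, d0, hm, hrep⟩ := hF.rep z
  have hmL : (m : L) ≠ 0 := by exact_mod_cast hm
  have hmE : (m : Eis) ≠ 0 := by
    intro h0
    have h1 : ι (m : Eis) = (m : L) := map_intCast ι m
    rw [h0, map_zero] at h1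
    exact hmL h1.symm
  obtain ⟨γ, δ, α, β, hγδ, hαβ⟩ : ∃ γ δ α β : Eis, ι γ + ι δ * θ ≠ 0 ∧
      z * (ι γ + ι δ * θ) * (m : L) = ι α + ι β * θ := by
    by_cases hbd : b0 = 0 ∧ d0 = 0
    · refine ⟨1, 0, a0, 0, ?_, ?_⟩
      · simp
      · rw [hbd.1, hbd.2] at hrep
        simp only [map_zero, zero_mul, add_zero, map_one, mul_one] at hrep ⊢
        rw [mul_comm]; exact hrep
    · refine ⟨b0, -d0, a0 * b0 - d0 ^ 2 * x, b0 ^ 2 - a0 * d0, ?_, ?_⟩
      · intro h0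
        have h1 := hF.lin b0 (-d0) 0 (by rw [map_zero, zero_mul, add_zero]; exact h0)
        exact hbd ⟨h1.1, neg_eq_zero.mp h1.2.1⟩
      · rw [map_sub, map_sub, map_neg, map_mul, map_mul, map_mul, map_pow, map_pow, ← hF.cube]
        linear_combination (ι b0 - ι d0 * θ) * hrep
  have hαβ0 : ι α + ι β * θ ≠ 0 := by
    rw [← hαβ]
    exact mul_ne_zero (mul_ne_zero hz hγδ) hmL
  have hN1 := NNS.norm_ne hF hγδ
  have hN2 := NNS.norm_ne hF hαβ0
  have hkey : a * ((m : Eis) ^ 3 * (γ ^ 3 + x * δ ^ 3)) = b * (α ^ 3 + x * β ^ 3) := by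
    apply hF.inj
    have hm' : ι (m : Eis) = (m : L) := map_intCast ι m
    have hsm : ∀ k : ℤ, σ (k : L) = (k : L) := fun k => map_intCast σ k
    rw [map_mul, map_mul, map_mul, map_pow, hm', ← NNS.norm_lin hF γ δ, ← NNS.norm_lin hF α β, ← hαβ,
      ← hzab]
    simp only [map_mul, hsm]
    ring
  have hl : s (a * ((m : Eis) ^ 3 * (γ ^ 3 + x * δ ^ 3))) x = s a x := by
    rw [hs.mul _ _ _ ha (mul_ne_zero (pow_ne_zero 3 hmE) hN1) hxE,
      hs.mul _ _ _ (pow_ne_zero 3 hmE) hN1 hxE, Pool.Agent.PT.NNS.cube_left hs hmE hxE,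
      Pool.Agent.PT.NNS.norm_symbol hs hxE hN1, add_zero, add_zero]
  have hr : s (b * (α ^ 3 + x * β ^ 3)) x = s b x := by
    rw [hs.mul _ _ _ hb hN2 hxE, Pool.Agent.PT.NNS.norm_symbol hs hxE hN2, add_zero]
  rw [← hl, hkey, hr]

end Pool.Agent.PTK
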