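import Pool.Agent.PTK.StN
import Pool.Agent.PT.NTR

/-!
# PTK_NTR: the primes of `L = K(x^(1/3))` above the primes of `Z[w]`
-/

set_option autoImplicit false

open NumberField IsDedekindDomain Finset
open scoped nonZeroDivisors Pointwise

namespace Pool.Agent.PTK

open Pool.Agent.Lib_helper18 Pool.Agent.Lib_helper18.Eis Pool.Agent.Lib_helper84.Cub
open Pool.Agent.PT

namespace NTR

open Pool.Agent.PT.NTR (uni_prime isIntegral_io io coe_io val_le_one val_lt_iff exists_place lt_iff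
  eq_one_of reduce exists_map io_ne_zero abv_finite transitive trace_dvd)

variable {L : Type} [Field L] [NumberField L]

/-- `Z[w]` is integrally closed -/
theorem isUnit_of_int {ι : Eis →+* L} (hinj : Function.Injective ι) {u : Eis} {z : L}
    (hz : IsIntegral ℤ z) (h : ι u * z = 1) : IsUnit u := by
  have hu : u ≠ 0 := by
    rintro rfl
    rw [map_zero, zero_mul] at h
    exact zero_ne_one h
  let f : FractionRing Eis →+* L := IsFractionRing.lift hinj
  have hf : ∀ a : Eis, f (algebraMap Eis (FractionRing Eis) a) = ι a := fun a =>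
    IsFractionRing.lift_algebraMap hinj a
  have huK : algebraMap Eis (FractionRing Eis) u ≠ 0 := by
    rw [Ne, IsFractionRing.to_map_eq_zero_iff]
    exact hu
  have h1 : f ((algebraMap Eis (FractionRing Eis) u)⁻¹) = z := by
    rw [map_inv₀, hf]
    exact (eq_inv_of_mul_eq_one_right h).symm
  have h3 : IsIntegral Eis ((algebraMap Eis (FractionRing Eis) u)⁻¹) := by
    obtain ⟨q, hq, hq0⟩ := hz
    refine ⟨q.map (Int.castRingHom Eis), hq.map _, ?_⟩
    rw [Polynomial.eval₂_map]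
    apply f.injective
    rw [Polynomial.hom_eval₂, h1, map_zero, ← hq0]
    congr 1
    exact RingHom.ext_int _ _
  obtain ⟨y, hy⟩ := IsIntegrallyClosed.isIntegral_iff.mp h3
  have h4 : algebraMap Eis (FractionRing Eis) (u * y) = algebraMap Eis (FractionRing Eis) 1 := by
    rw [map_mul, hy, map_one, mul_inv_cancel₀ huK]
  have h5 : u * y = 1 := IsFractionRing.injective Eis (FractionRing Eis) h4
  exact IsUnit.of_mul_eq_one y h5

theorem not_isUnit_io {ι : Eis →+* L} (hinj : Function.Injective ι) (v : Pl) :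
    ¬ IsUnit (io ι (uni v)) := by
  intro hu
  obtain ⟨z, hz⟩ := hu.exists_right_inv
  have h1 : ι (uni v) * (z : L) = 1 := by
    have := congrArg (algebraMap (𝓞 L) L) hz
    rw [map_mul, map_one] at this
    exact this
  exact (uni_prime v).not_isUnit (isUnit_of_int hinj z.2 h1)

theorem abv_nonempty {ι : Eis →+* L} (hinj : Function.Injective ι) (v : Pl) :
    (Abv ι v).Nonempty := by
  obtain ⟨M, hM, hmem⟩ := exists_max_ideal_of_mem_nonunits
    (show io ι (uni v) ∈ nonunits (𝓞 L) from not_isUnit_io hinj v)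
  have h0 : M ≠ ⊥ := by
    intro h
    rw [h, Ideal.mem_bot] at hmem
    exact io_ne_zero hinj (uni_prime v).ne_zero hmem
  refine ⟨⟨M, hM.isPrime, h0⟩, ?_⟩
  show HeightOneSpectrum.valuation L _ (ι (uni v)) < 1
  rw [Pool.Agent.PT.NTR.val_lt_iff]
  exact hmem

theorem reduced (hSPP : SPP) {x : Eis} {ι : Eis →+* L} {θ : L} {σ : L ≃ₐ[ℚ] L}
    (hF : CubE x L ι θ σ)
    (hσ3 : ∀ z : L, σ (σ (σ z)) = z)
    (hfix : ∀ z : L, σ z = z → ∃ a b : Eis, b ≠ 0 ∧ z * ι b = ι a)
    {π : PP} {P : HeightOneSpectrum (𝓞 L)} (hx : ¬ π.1 ∣ x)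
    (hP : P ∈ Abv ι (some π)) {y u : L} (hy : IsIntegral ℤ y) (hu : IsIntegral ℤ u)
    (hyu : y ^ 2 = ι π.1 * u) : ∃ t : L, IsIntegral ℤ t ∧ y = ι π.1 * t := by
  have hinj := hF.inj
  have hθi : IsIntegral ℤ θ := by
    refine IsIntegral.of_pow (n := 3) (by norm_num) ?_
    rw [hF.cube]
    exact isIntegral_io ι x
  have hint : ∀ (Q : HeightOneSpectrum (𝓞 L)) (y : L), IsIntegral ℤ y → Q.valuation L y ≤ 1 :=
    fun Q y hy => Q.valuation_le_one (⟨y, hy⟩ : 𝓞 L)
  have hσi : ∀ z : L, IsIntegral ℤ z → IsIntegral ℤ (σ z) := fun z hz => map_isIntegral_int σ hz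
  have hPlt : P.valuation L (ι π.1) < 1 := hP
  -- small valuations of all conjugates
  have key : ∀ z t : L, IsIntegral ℤ t → z ^ 2 = ι π.1 * t → P.valuation L z < 1 := by
    intro z t ht hzt
    have h1 : P.valuation L z ^ 2 < 1 := by
      rw [← map_pow, hzt, map_mul]
      exact mul_lt_one_of_lt_of_le hPlt (hint P t ht)
    by_contra hcon
    push Not at hcon
    exact absurd (one_le_pow₀ hcon (n := 2)) (not_le.mpr h1)
  have hy1 : σ y ^ 2 = ι π.1 * σ u := by
    rw [← map_pow, hyu, map_mul, hF.sι]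
  have hy2 : σ (σ y) ^ 2 = ι π.1 * σ (σ u) := by
    rw [← map_pow, hy1, map_mul, hF.sι]
  have k0 := key y u hu hyu
  have k1 := key (σ y) (σ u) (hσi _ hu) hy1
  have k2 := key (σ (σ y)) (σ (σ u)) (hσi _ (hσi _ hu)) hy2
  have htr : ∀ t : L, IsIntegral ℤ t → ∃ s : L, IsIntegral ℤ s ∧
      y * t + σ (y * t) + σ (σ (y * t)) = ι π.1 * s := by
    intro t ht
    refine trace_dvd hSPP hinj hσ3 hfix hP (hy.mul ht) ?_ ?_ ?_
    · rw [map_mul]
      exact mul_lt_one_of_lt_of_le k0 (hint P t ht)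
    · rw [map_mul, map_mul]
      exact mul_lt_one_of_lt_of_le k1 (hint P _ (hσi _ ht))
    · rw [map_mul, map_mul, map_mul]
      exact mul_lt_one_of_lt_of_le k2 (hint P _ (hσi _ (hσi _ ht)))
  obtain ⟨s0, hs0, e0⟩ := htr 1 isIntegral_one
  obtain ⟨s1, hs1, e1⟩ := htr θ hθi
  obtain ⟨s2, hs2, e2⟩ := htr (θ ^ 2) (hθi.pow 2)
  have hw : ι w ^ 2 + ι w + 1 = 0 := by
    rw [← map_pow, ← map_one ι, ← map_add, ← map_add, w_rel, map_zero]
  have hw3 : ι w ^ 3 = 1 := by rw [← map_pow, w_cube, map_one]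
  have hcube := hF.cube
  have hmain : 3 * ι x * y = ι π.1 * (ι x * s0 + θ * s2 + θ ^ 2 * s1) := by
    have h1 : 3 * ι x * y = ι x * (y * 1 + σ (y * 1) + σ (σ (y * 1))) +
        θ * (y * θ ^ 2 + σ (y * θ ^ 2) + σ (σ (y * θ ^ 2))) +
        θ ^ 2 * (y * θ + σ (y * θ) + σ (σ (y * θ))) := by
      simp only [map_mul, map_pow, hF.sθ, hF.sι, mul_one]
      rw [← hcube]
      have hw4 : ι w ^ 4 = ι w := by
        calc ι w ^ 4 = ι w ^ 3 * ι w := by ring
          _ = ι w := by rw [hw3, one_mul]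
      have e1' : θ ^ 3 * (σ y * (ι w ^ 2 + ι w + 1)) = 0 := by rw [hw]; ring
      have e2' : θ ^ 3 * (σ (σ y) * (ι w ^ 4 + ι w ^ 2 + 1)) = 0 := by
        rw [hw4]
        have : ι w + ι w ^ 2 + 1 = 0 := by rw [← hw]; ring
        rw [this]; ring
      linear_combination (-1 : L) * e1' - e2'
    rw [h1, e0, e1, e2]
    ring
  have h3 : ¬ π.1 ∣ (3 * x : Eis) := by
    intro h
    rcases π.2.1.dvd_or_dvd h with h | h
    · exact (hSPP.2.2.2.1 π).1 h
    · exact hx h
  obtain ⟨m, n, hmn⟩ := (π.2.1.coprime_iff_not_dvd.mpr h3 : IsCoprime π.1 (3 * x : Eis))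
  have hxi : IsIntegral ℤ (ι x) := isIntegral_io ι x
  refine ⟨ι m * y + ι n * (ι x * s0 + θ * s2 + θ ^ 2 * s1), ?_, ?_⟩
  · exact ((isIntegral_io ι m).mul hy).add ((isIntegral_io ι n).mul
      (((hxi.mul hs0).add (hθi.mul hs2)).add ((hθi.pow 2).mul hs1)))
  · have h5 : y = y * ι (m * π.1 + n * (3 * x : Eis)) := by rw [hmn, map_one, mul_one]
    have h6 : ι (m * π.1 + n * (3 * x : Eis)) = ι m * ι π.1 + ι n * (3 * ι x) := by
      simp only [map_add, map_mul, map_ofNat]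
    rw [h6] at h5
    calc y = y * (ι m * ι π.1 + ι n * (3 * ι x)) := h5
      _ = ι m * ι π.1 * y + ι n * (3 * ι x * y) := by ring
      _ = _ := by rw [hmain]; ring

theorem unram (hSPP : SPP) {x : Eis} {ι : Eis →+* L} {θ : L} {σ : L ≃ₐ[ℚ] L}
    (hF : CubE x L ι θ σ)
    (hσ3 : ∀ z : L, σ (σ (σ z)) = z)
    (hfix : ∀ z : L, σ z = z → ∃ a b : Eis, b ≠ 0 ∧ z * ι b = ι a)
    (π : PP) (P : HeightOneSpectrum (𝓞 L)) (hx : ¬ π.1 ∣ x)
    (hP : P ∈ Abv ι (some π)) : P.valuation L (ι π.1) = WithZero.exp (-1 : ℤ) := by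
  have hinj := hF.inj
  have hp0 : io ι π.1 ≠ 0 := io_ne_zero hinj π.2.1.ne_zero
  set p := io ι π.1 with hp
  have hnot : p ∉ P.asIdeal ^ 2 := by
    intro hmem
    have hdvd : P.asIdeal ^ 2 ∣ Ideal.span {p} := Ideal.dvd_span_singleton.mpr hmem
    obtain ⟨J', hJ'⟩ := hdvd
    set J : Ideal (𝓞 L) := P.asIdeal * J' with hJ
    have hpJ : Ideal.span {p} = P.asIdeal * J := by rw [hJ', hJ, pow_two, mul_assoc]
    have hJ2 : J * J ≤ Ideal.span {p} := by
      have h1 : J * J = Ideal.span {p} * J' := by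
        rw [hJ', hJ]; ring
      rw [h1]
      exact Ideal.mul_le_left
    have hpne : Ideal.span {p} ≠ (0 : Ideal (𝓞 L)) := fun h => hp0 (Ideal.span_singleton_eq_bot.mp h)
    have hJ0 : J ≠ 0 := by
      intro h
      rw [h, mul_zero] at hpJ
      exact hpne hpJ
    have hnle : ¬ J ≤ Ideal.span {p} := by
      intro hle
      have h1 : J = P.asIdeal * J := le_antisymm (by rw [← hpJ]; exact hle) Ideal.mul_le_right
      have h2 : (1 : Ideal (𝓞 L)) * J = P.asIdeal * J := by rw [one_mul]; exact h1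
      have h3 : (1 : Ideal (𝓞 L)) = P.asIdeal := mul_right_cancel₀ hJ0 h2
      exact P.isPrime.ne_top (by rw [← h3, Ideal.one_eq_top])
    obtain ⟨y, hyJ, hyp⟩ := Set.not_subset.mp hnle
    have hy2 : y * y ∈ Ideal.span {p} := hJ2 (Ideal.mul_mem_mul hyJ hyJ)
    obtain ⟨u, hu⟩ := Ideal.mem_span_singleton.mp hy2
    have hu' : (y : L) ^ 2 = ι π.1 * (u : L) := by
      have := congrArg (algebraMap (𝓞 L) L) hu
      rw [map_mul, map_mul, ← pow_two] at this
      exact this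
    obtain ⟨t, ht, hyt⟩ := reduced hSPP hF hσ3 hfix hx hP y.2 u.2 hu'
    apply hyp
    show y ∈ Ideal.span {p}
    rw [Ideal.mem_span_singleton]
    set t' : 𝓞 L := ⟨t, ht⟩ with ht'
    exact ⟨t', RingOfIntegers.ext (hyt.trans (map_mul (algebraMap (𝓞 L) L) p t').symm)⟩
  have hval : P.valuation L (ι π.1) = P.intValuation p := P.valuation_of_algebraMap p
  rw [hval, P.intValuation_eq_exp_neg_multiplicity hp0]
  have hlt : P.intValuation p < 1 := by rw [← hval]; exact hP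
  set k := multiplicity P.asIdeal (Ideal.span {p}) with hk
  have hk' := P.intValuation_eq_exp_neg_multiplicity hp0
  rw [← hk] at hk'
  have hk1 : 1 ≤ k := by
    by_contra h
    have h0 : k = 0 := by omega
    rw [h0] at hk'
    rw [hk'] at hlt
    simp at hlt
  have hk2 : k < 2 := by
    by_contra h
    push Not at h
    apply hnot
    rw [← P.intValuation_le_pow_iff_mem, hk', WithZero.exp_le_exp]
    push_cast
    omega
  have hk3 : k = 1 := by omega
  rw [hk3]
  norm_num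

end NTR

theorem NTR_thm (hSPP : SPP) (hNHN : Stmt_NHN) : Stmt_NTR := by
  intro x L _ _ ι θ σ hx0 hx3 hF
  obtain ⟨hσ3, hfix, -⟩ := hNHN x L ι θ σ hx0 hF
  exact ⟨fun P a => Pool.Agent.PT.NTR.val_le_one ι P a,
    fun P => Pool.Agent.PT.NTR.exists_place hSPP ι P,
    fun P => Pool.Agent.PT.NTR.exists_map σ P,
    fun v => ⟨Pool.Agent.PT.NTR.abv_finite hF.inj v, NTR.abv_nonempty hF.inj v⟩,
    fun v P P' hP hP' => Pool.Agent.PT.NTR.transitive hSPP hF.inj hσ3 hfix v P P' hP hP',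
    fun π P hπ hP => NTR.unram hSPP hF hσ3 hfix π P hπ hP⟩

end Pool.Agent.PTK
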