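import Pool.Agent.PTK.StC

/-!
# The average rank of prime twists, PT: a class of a point that is not a cube gives a point of this class over `K`
-/

set_option autoImplicit false

open NumberField IsDedekindDomain Finset
open scoped nonZeroDivisors Pointwise

namespace Pool.Agent.PTK

open Pool.Agent.Lib_helper18 Pool.Agent.Lib_helper18.Eis Pool.Agent.Lib_helper84.Cub
open Pool.Agent.PT Pool.Agent.PTE Pool.Agent.PT3 Pool.Agent.PTL Pool.Agent.PTN

namespace PTK_PT

theorem int_ne {n : ℤ} (h : n ≠ 0) : ((n : ℤ) : Eis) ≠ 0 := by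
  intro e
  apply h
  have := congrArg Eis.re e
  rwa [intCast_re, zero_re] at this

end PTK_PT

theorem PT_thm : Stmt_PT := by
  intro B x hB _ hc h
  obtain ⟨ζ, g, g', hS, hg, hg', e⟩ := h
  rcases hS with rfl | ⟨x0, y0, z0, _, hz, e0, hζ⟩
  · exfalso
    rw [one_mul] at e
    obtain ⟨t, ht⟩ := (IsIntegrallyClosed.pow_dvd_pow_iff (three_ne_zero)).1
      (Dvd.intro_left x e.symm : g' ^ 3 ∣ g ^ 3)
    rw [ht, mul_pow, mul_comm] at e
    exact hc ⟨t, mul_right_cancel₀ (pow_ne_zero 3 hg') e⟩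
  · have hB' := PTK_PT.int_ne hB
    have hz' := PTK_PT.int_ne hz
    have e1 : (x0 : Eis) ^ 3 + (y0 : Eis) ^ 3 = (B : Eis) * (z0 : Eis) ^ 3 := by
      exact_mod_cast congrArg (fun n : ℤ => (n : Eis)) e0
    have hw := w_rel
    -- the three factors
    have e2 : ((x0 : Eis) + y0) * ((x0 : Eis) + w * y0) * ((x0 : Eis) + w ^ 2 * y0) =
        (B : Eis) * (z0 : Eis) ^ 3 := by
      rw [← e1]
      linear_combination ((x0 : Eis) ^ 2 * y0 + w * (x0 : Eis) * y0 ^ 2 +
        (w - 1) * (y0 : Eis) ^ 3) * hw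
    have n1 : ((x0 : Eis) + y0) * ((x0 : Eis) + w * y0) * ((x0 : Eis) + w ^ 2 * y0) ≠ 0 := by
      rw [e2]
      exact mul_ne_zero hB' (pow_ne_zero 3 hz')
    have n2 : (x0 : Eis) + w ^ 2 * y0 ≠ 0 := right_ne_zero_of_mul n1
    have n3 : w ≠ (0 : Eis) := by
      intro h
      have := w_cube
      rw [h] at this
      norm_num at this
    have hw3 := w_cube
    generalize ha : w ^ 2 * ((x0 : Eis) + w ^ 2 * y0) = a2
    have na : a2 ≠ 0 := by
      rw [← ha]
      exact mul_ne_zero (pow_ne_zero 2 n3) n2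
    refine ⟨g' ^ 2 * g * a2, g' ^ 3, ⟨mul_ne_zero (mul_ne_zero (pow_ne_zero 2 hg') hg) na,
      pow_ne_zero 3 hg', g' * g ^ 2 * (-(z0 : Eis) * a2),
      mul_ne_zero (mul_ne_zero hg' (pow_ne_zero 2 hg)) (mul_ne_zero (neg_ne_zero.2 hz') na), ?_⟩⟩
    have e3 : ζ * (a2 ^ 3 + ζ) = (B : Eis) * (-(z0 : Eis) * a2) ^ 3 := by
      have k1 : ζ = w * ((x0 : Eis) + w * y0) * a2 ^ 2 := by
        rw [hζ, ← ha]
        linear_combination (-(w ^ 2) * ((x0 : Eis) + w * y0) * ((x0 : Eis) + w ^ 2 * y0) ^ 2) * hw3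
      have k2 : a2 + w * ((x0 : Eis) + w * y0) = -((x0 : Eis) + y0) := by
        rw [← ha]
        linear_combination ((x0 : Eis) + (w ^ 2 - w + 1) * y0) * hw
      have k3 : w * ((x0 : Eis) + w * y0) * a2 * ((x0 : Eis) + y0) =
          (B : Eis) * (z0 : Eis) ^ 3 := by
        rw [← ha, ← e2]
        linear_combination (((x0 : Eis) + y0) * ((x0 : Eis) + w * y0) *
          ((x0 : Eis) + w ^ 2 * y0)) * hw3
      calc ζ * (a2 ^ 3 + ζ) = (w * ((x0 : Eis) + w * y0) * a2 ^ 4) *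
            (a2 + w * ((x0 : Eis) + w * y0)) := by
            rw [k1]
            ring
        _ = -(w * ((x0 : Eis) + w * y0) * a2 * ((x0 : Eis) + y0)) * a2 ^ 3 := by
            rw [k2]
            ring
        _ = _ := by
            rw [k3]
            ring
    linear_combination (g' ^ 3 * g ^ 6) * e3 -
      (g' ^ 3 * g ^ 3 * a2 ^ 3 + g' ^ 3 * (x * g' ^ 3 + ζ * g ^ 3)) * e

end Pool.Agent.PTK
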