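import Pool.Agent.PTK.StC
import Pool.Agent.PTN.KID

/-!
# The average rank of prime twists: the classes of the points form a group
-/

set_option autoImplicit false

namespace Pool.Agent.PTK.S1G

open Pool.Agent.Lib_helper18 Pool.Agent.Lib_helper18.Eis Pool.Agent.Lib_helper84.Cub
open Pool.Agent.PT Pool.Agent.PTN WeierstrassCurve.Affine

variable {K : Type} [Field K] [CharZero K] {ι : Eis →+* K} {c : K →ₐ[ℚ] K}

/-- an identity up to cubes in the field gives one in the ring -/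
theorem descend (hK : KF K ι c) {a b : Eis} {u v : K} (hu : u ≠ 0) (hv : v ≠ 0)
    (h : ι a * u ^ 3 = ι b * v ^ 3) :
    ∃ g g' : Eis, g ≠ 0 ∧ g' ≠ 0 ∧ a * g ^ 3 = b * g' ^ 3 := by
  obtain ⟨e1, d1, hd1, h1⟩ := hK.frac u
  obtain ⟨e2, d2, hd2, h2⟩ := hK.frac v
  have hd1K : (d1 : K) ≠ 0 := by exact_mod_cast hd1
  have hd2K : (d2 : K) ≠ 0 := by exact_mod_cast hd2
  have hg : ι (e1 * (d2 : Eis)) = u * d1 * d2 := by rw [map_mul, map_intCast, h1]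
  have hg' : ι (e2 * (d1 : Eis)) = v * d2 * d1 := by rw [map_mul, map_intCast, h2]
  refine ⟨e1 * (d2 : Eis), e2 * (d1 : Eis), fun h0 => ?_, fun h0 => ?_, hK.inj ?_⟩
  · rw [h0, map_zero] at hg
    exact mul_ne_zero (mul_ne_zero hu hd1K) hd2K hg.symm
  · rw [h0, map_zero] at hg'
    exact mul_ne_zero (mul_ne_zero hv hd2K) hd1K hg'.symm
  · rw [map_mul, map_mul, map_pow, map_pow, hg, hg']
    linear_combination (d1 : K) ^ 3 * (d2 : K) ^ 3 * h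

end Pool.Agent.PTK.S1G

namespace Pool.Agent.PTK

open Pool.Agent.Lib_helper18 Pool.Agent.Lib_helper18.Eis Pool.Agent.Lib_helper84.Cub
open Pool.Agent.PT Pool.Agent.PTE Pool.Agent.PT3 Pool.Agent.PTL Pool.Agent.PTN
open WeierstrassCurve.Affine

theorem S1G_thm (h0 : Stmt_KEX) (h2 : Stmt_KEMB) (h4 : Stmt_KAD) (h7 : Stmt_KMI) : Stmt_S1G := by
  classical
  intro B hB hcf hnc ζ ζ' hζ hζ'
  obtain ⟨K, fK, cK, dK, ι, c, hK⟩ := h0
  obtain ⟨cc, j, hcc, hj, -, -, -⟩ := h2 K ι c B hK hB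
  obtain ⟨hk0, hadd⟩ := h4 K ι c B hK hB
  -- a point with the given class
  have hpt : ∀ ζ, S1 B ζ → ∃ (P : CubeRank.GA B) (g : K), g ≠ 0 ∧
      kap ι (j P) = ι ζ * g ^ 3 := by
    rintro ζ (rfl | ⟨x, y, z, hco, hz, he, rfl⟩)
    · exact ⟨0, 1, one_ne_zero, by rw [map_zero, KID.kap_zero, map_one]; ring⟩
    · obtain ⟨P, hP⟩ := (CubeRank.basics B hB).2.1 x y z hz hco he
      obtain ⟨g, hg, e⟩ := h7 K ι c B hK hB j hj P x y z hP
      exact ⟨P, g, hg, e⟩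
  -- the class of a point
  have hcl : ∀ P : CubeRank.GA B, ∃ ζ : Eis, S1 B ζ ∧ ∃ g : K, g ≠ 0 ∧
      kap ι (j P) = ι ζ * g ^ 3 := by
    intro P
    by_cases hP : P = 0
    · refine ⟨1, Or.inl rfl, 1, one_ne_zero, ?_⟩
      rw [hP, map_zero, KID.kap_zero, map_one]; ring
    · obtain ⟨a, b, z, hC⟩ := (CubeRank.basics B hB).1 hcf P hP
      obtain ⟨g, hg, e⟩ := h7 K ι c B hK hB j hj P a b z hC
      exact ⟨_, Or.inr ⟨a, b, z, hC.2.1, hC.1, hC.2.2.1, rfl⟩, g, hg, e⟩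
  obtain ⟨P, g1, hg1, e1⟩ := hpt ζ hζ
  obtain ⟨P', g2, hg2, e2⟩ := hpt ζ' hζ'
  obtain ⟨ζ'', hS, g3, hg3, e3⟩ := hcl (P - P')
  have hp' := hk0 (j P')
  obtain ⟨k, hk, ek⟩ := KID.kap_sub hk0 hadd (j P) (j P')
  have hζ0 : ι ζ' ≠ 0 := by
    intro h
    rw [e2, h, zero_mul] at hp'
    exact hp' rfl
  rw [map_sub, ek, e1, e2] at e3
  have e4 : ι (ζ'' * ζ') * (g3 * g2) ^ 3 = ι ζ * (g1 * k) ^ 3 := by
    rw [map_mul]
    field_simp at e3
    linear_combination -e3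
  obtain ⟨g, g', hg, hg', e5⟩ := S1G.descend hK (mul_ne_zero hg3 hg2) (mul_ne_zero hg1 hk) e4
  exact ⟨ζ'', g, g', hS, hg, hg', e5⟩

end Pool.Agent.PTK
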