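import Pool.Agent.PTK.StL

/-!
# PTK_SVF: the sum of the local terms of a point
-/

set_option autoImplicit false

namespace Pool.Agent.PTK

open Pool.Agent.Lib_helper18 Pool.Agent.Lib_helper18.Eis Pool.Agent.Lib_helper84.Cub
open Pool.Agent.PT

namespace SVF

/-- Finite support and sum zero. -/
def FZ (f : Pl → ZMod 3) : Prop := (Function.support f).Finite ∧ ∑ᶠ v : Pl, f v = 0

lemma FZ.add {f g : Pl → ZMod 3} (hf : FZ f) (hg : FZ g) : FZ (fun v => f v + g v) := by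
  refine ⟨(hf.1.union hg.1).subset (Function.support_add f g), ?_⟩
  rw [finsum_add_distrib hf.1 hg.1, hf.2, hg.2, add_zero]

lemma FZ.sub {f g : Pl → ZMod 3} (hf : FZ f) (hg : FZ g) : FZ (fun v => f v - g v) := by
  refine ⟨(hf.1.union hg.1).subset (Function.support_sub f g), ?_⟩
  rw [finsum_sub_distrib hf.1 hg.1, hf.2, hg.2, sub_zero]

lemma N''_ne {b x p q p' q' : Eis} (h : SolE b x p q p' q') : x * q' ^ 3 - q ^ 3 ≠ 0 := by
  intro h1
  apply h.n2
  have h2 := h.eq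
  have h3 : p ^ 3 - x * p' ^ 3 = b * (x * q' ^ 3 - q ^ 3) := by linear_combination h2
  rw [h3, h1, mul_zero]

end SVF

open SVF in
/-- PTK_SVF. -/
theorem SVF_thm (hSSL : SSL) : Stmt_SVF := by
  have key : ∀ a b : Eis, a ≠ 0 → b ≠ 0 → FZ (fun v : Pl => sy v a b) :=
    fun a b ha hb => hSSL.2.2.2 a b ha hb
  intro b x p q p' q' X Y _ _ hs _ _ hn hD
  have hN2 := N''_ne hs
  exact (((((key _ _ hD.d1 hs.n2).sub (key _ _ hD.d2 hs.n2)).sub (key _ _ hD.d1 hn)).add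
    (key _ _ hD.d2 hn)).sub ((((key _ _ hD.d3 hN2).sub (key _ _ hD.d4 hN2)).sub
    (key _ _ hD.d3 hn)).add (key _ _ hD.d4 hn)))

end Pool.Agent.PTK
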