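import Pool.Agent.PTK.StC
import Pool.Agent.PT3.HYPT

/-!
# PTK_SYK: the system for a vector `y` and independent vectors of `V0`
-/

set_option autoImplicit false

open NumberField IsDedekindDomain Finset
open scoped nonZeroDivisors Pointwise

namespace Pool.Agent.PTK

open Pool.Agent.Lib_helper18 Pool.Agent.Lib_helper18.Eis Pool.Agent.Lib_helper84.Cub
open Pool.Agent.PT Pool.Agent.PTE Pool.Agent.PT3 Pool.Agent.PTL Pool.Agent.PTN

namespace SYK

variable {n m k : ℕ} {π : Fin m → PP} {p e : Fin m → ℕ} {r f : Fin k → ℕ}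

/-- exchange of the base and the norm -/
theorem swap {b x P Q P' Q' : Eis} (h : SolE b x P Q P' Q') :
    SolE x b P (-P') (-Q) Q' where
  eq := by
    have := h.eq
    linear_combination this
  n1 := by
    intro h0
    exact h.n2 (by linear_combination h0)
  n2 := by
    intro h0
    exact h.n1 (by linear_combination h0)
  g1 := by
    intro h0
    apply h.g1
    unfold GfE at h0 ⊢
    linear_combination h0
  g2 := by
    intro h0
    apply h.g2
    unfold GfE at h0 ⊢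
    linear_combination h0

theorem natEis_ne {a : ℕ} (ha : a ≠ 0) : (a : Eis) ≠ 0 := by
  intro h0
  have := congrArg Eis.re h0
  simp only [natCast_re, zero_re] at this
  exact ha (by exact_mod_cast this)

theorem lam_two : ¬ lam ∣ (2 : Eis) := by
  rintro ⟨t, ht⟩
  have h1 := congrArg Eis.norm ht
  rw [norm_mul] at h1
  have h2 : (2 : Eis).norm = 4 := by
    have : (2 : Eis) = ((2 : ℕ) : Eis) := by push_cast; rfl
    rw [this, norm_natCast]
    norm_num
  have h3 : lam.norm = 3 := by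
    simp [Eis.norm, lam]
  rw [h2, h3] at h1
  omega

/-- `b` is a local cube at `λ` -/
theorem lc (hLCI : Stmt_LCI) {b : Eis} (h : lam ^ 4 ∣ b ^ 2 - 1) : LCE lam b := by
  have h1 : lam ^ 4 ∣ (b - 1) * (b + 1) := by
    have : b ^ 2 - 1 = (b - 1) * (b + 1) := by ring
    rwa [this] at h
  have h0 : ¬ lam ∣ (1 : Eis) := fun h2 => prime_lam.not_isUnit (isUnit_of_dvd_one h2)
  by_cases h2 : lam ∣ b - 1
  · have h3 : ¬ lam ∣ b + 1 := fun h3 => lam_two (by
      have h4 := dvd_sub h3 h2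
      have h5 : b + 1 - (b - 1) = 2 := by ring
      rwa [h5] at h4)
    have h4 : lam ^ 4 ∣ b - 1 := prime_lam.pow_dvd_of_dvd_mul_right 4 h3 h1
    refine hLCI.2.1 b 1 1 h0 h0 ?_
    have h5 : b * 1 ^ 3 - 1 ^ 3 = b - 1 := by ring
    rw [h5]
    exact h4
  · have h4 : lam ^ 4 ∣ b + 1 := prime_lam.pow_dvd_of_dvd_mul_left 4 h2 h1
    refine hLCI.2.1 b (-1) 1 (fun h5 => h0 (by simpa using h5)) h0 ?_
    have h5 : b * 1 ^ 3 - (-1) ^ 3 = b + 1 := by ring
    rw [h5]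
    exact h4

/-- the valuations of `n` -/
theorem Vn_le (hSPP : SPP) (hn : NF n π p e r f) (σ : PP) : V σ.1 (n : Eis) ≤ 2 := by
  by_cases hd : σ.1 ∣ (n : Eis)
  · rcases HYPS.cls hSPP hn σ.2.1 hd with ⟨i, h1 | h1⟩ | ⟨j, h1⟩
    · rw [EHYP.V_assoc h1, EHYP.V_n_i hSPP hn i]
      have := hn.pe i
      omega
    · have h2 := EHYP.V_conj (π i).2.1 (HYPS.n_ne0 hn)
      rw [conj_natCast] at h2
      rw [EHYP.V_assoc h1, h2, EHYP.V_n_i hSPP hn i]
      have := hn.pe i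
      omega
    · rw [EHYP.V_assoc h1, EHYP.V_n_j hSPP hn j]
      have := hn.rf j
      omega
  · rw [V_eq_zero hd]
    exact Nat.zero_le _

theorem VN_le (hSPP : SPP) (hn : NF n π p e r f) (h : ℕ) (σ : PP) :
    V σ.1 ((3 ^ h * n : ℕ) : Eis) ≤ 2 := by
  have h3 : (3 : Eis) ≠ 0 := HYPT.three_ne
  push_cast
  rw [V_mul σ.2.1 (pow_ne_zero _ h3) (HYPS.n_ne0 hn), V_pow σ.2.1 h3,
    V_eq_zero (hSPP.2.2.2.1 σ).1, mul_zero, zero_add]
  exact Vn_le hSPP hn σ

end SYK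

open SYK in
theorem SYK_thm (hSPP : SPP) (hLCI : Stmt_LCI) (hHNE : Stmt_HNE) (hZA : Stmt_ZA) (hZI : Stmt_ZI)
    (hZL : Stmt_ZL) (hZT : Stmt_ZT) : Stmt_SYK := by
  intro h n m k π p e r f w0 c hn hh y hy s u hu hli
  have hy0 : y ≠ 0 := by
    have := hli.ne_zero 0
    simpa using this
  have hu0 : ∀ j, u j ≠ 0 := fun j => by
    have := hli.ne_zero j.succ
    simpa using this
  have hAy := hZA n m k π p e r f hn y
  have hAu := fun j => hZA n m k π p e r f hn (u j)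
  have hL : ∀ j, lam ^ 4 ∣ zN π e (u j) ^ 2 - 1 := fun j =>
    hZL n m k π p e r f hn (u j) (hu j).2.1 (hu j).2.2
  have hcy : ¬ ∃ c : Eis, c ^ 3 = zN π e y := fun h1 => hy0 (hAy.2.2.2.2.2.2.2.2.2 h1)
  have hcu : ∀ j, ¬ ∃ c : Eis, c ^ 3 = zN π e (u j) := fun j h1 =>
    hu0 j ((hAu j).2.2.2.2.2.2.2.2.2 h1)
  have hT := fun j => hZT h n m k π p e r f w0 c hn hh (u j) (hu j).1 y hy
  have hsol : ∀ j, ∃ P Q P' Q' : Eis, SolE (zN π e (u j)) (zN π e y) P Q P' Q' := fun j =>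
    hHNE (zN π e (u j)) (zN π e y) (hAu j).1 (hL j) (hcu j) (hAu j).2.2.2.2.1 hAy.1 hcy
      (hT j).1 (hT j).2
  choose P Q P' Q' hS using hsol
  refine ⟨P, fun j => - P' j, fun j => - Q j, Q', ⟨?_, fun j => swap (hS j), hAy.2.2.1,
    fun j => (hAu j).2.2.1⟩, fun j => ⟨?_, swap (hS j), (hAu j).1, hAy.1, lc hLCI (hL j), ?_,
    VN_le hSPP hn h⟩⟩
  · rintro c₀ d hcd ⟨t, ht⟩
    have h1 : ∑ i, ((Fin.cons c₀ d : Fin (s + 1) → ℕ) i : ZMod 3) •
        (Fin.cons y u : Fin (s + 1) → Fin (m + 1) → ZMod 3) i = 0 := by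
      refine hZI n m k π p e r f hn (s + 1) _ _ ⟨t, ?_⟩
      rw [Fin.prod_univ_succ]
      simpa using ht
    have h2 := Fintype.linearIndependent_iff.1 hli _ h1
    rcases hcd with h3 | ⟨i, h3⟩
    · exact h3 ((ZMod.natCast_eq_zero_iff _ 3).1 (by simpa using h2 0))
    · exact h3 ((ZMod.natCast_eq_zero_iff _ 3).1 (by simpa using h2 i.succ))
  · have := EHYP.n_ne hn
    positivity
  · intro σ hσ
    have h1 : ¬ σ.1 ∣ (n : Eis) := fun h2 => hσ (by
      push_cast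
      exact Dvd.dvd.mul_left h2 _)
    exact ⟨(hAu j).2.2.2.1 σ h1, hAy.2.2.2.1 σ h1⟩

end Pool.Agent.PTK
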