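import Pool.Agent.PTK.StC

/-! PTK_VDIM (helper87): the codimension of `V0`. -/

set_option autoImplicit false

namespace Pool.Agent.PTK

open Pool.Agent.Lib_helper18 Pool.Agent.Lib_helper18.Eis Pool.Agent.Lib_helper84.Cub
open Pool.Agent.PT Pool.Agent.PTE Pool.Agent.PT3 Pool.Agent.PTL Pool.Agent.PTN

namespace VDIM

/-- one linear condition lowers the dimension by at most one -/
lemma step {M : ℕ} (S : Submodule (ZMod 3) (Fin M → ZMod 3)) (l : (Fin M → ZMod 3) →ₗ[ZMod 3] ZMod 3) :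
    Module.finrank (ZMod 3) S ≤
      Module.finrank (ZMod 3) (S ⊓ LinearMap.ker l : Submodule (ZMod 3) (Fin M → ZMod 3)) + 1 := by
  have h1 := LinearMap.finrank_range_add_finrank_ker (l.comp S.subtype)
  have h2 : Module.finrank (ZMod 3) (LinearMap.range (l.comp S.subtype)) ≤ 1 := by
    have := Submodule.finrank_le (LinearMap.range (l.comp S.subtype))
    rwa [Module.finrank_self] at this
  have h3 : Module.finrank (ZMod 3) (LinearMap.ker (l.comp S.subtype)) =
      Module.finrank (ZMod 3) (S ⊓ LinearMap.ker l : Submodule (ZMod 3) (Fin M → ZMod 3)) := by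
    rw [LinearMap.ker_comp, ← Submodule.map_comap_subtype]
    exact (Submodule.finrank_map_subtype_eq _ _).symm
  omega

end VDIM

open VDIM

theorem VDIM_thm : Stmt_VDIM := by
  classical
  intro h n m k π p e r w0 c hh
  unfold vN v0N
  set VSS := VS h n π p e r w0 c with hVSS
  set l1 : (Fin (m + 1) → ZMod 3) →ₗ[ZMod 3] ZMod 3 := LinearMap.proj 0 with hl1
  set l2 : (Fin (m + 1) → ZMod 3) →ₗ[ZMod 3] ZMod 3 :=
    ∑ i : Fin m, ((e i : ZMod 3) * sym (π i).1 3) • LinearMap.proj i.succ with hl2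
  have e1 : ∀ y, l1 y = y 0 := fun y => rfl
  have e2 : ∀ y, l2 y = ∑ i : Fin m, y i.succ * ((e i : ZMod 3) * sym (π i).1 3) := by
    intro y
    rw [hl2, LinearMap.sum_apply]
    refine Finset.sum_congr rfl fun i _ => ?_
    rw [LinearMap.smul_apply, LinearMap.proj_apply, smul_eq_mul, mul_comm]
  have hmem : ∀ y, y ∈ V0 h n π p e r w0 c ↔ y ∈ VSS ∧ l1 y = 0 ∧ l2 y = 0 := by
    intro y
    rw [e1, e2]
    exact Iff.rfl
  -- the column `inl 0`
  have hcol : ∀ y ∈ VSS, h ≠ 0 → y 0 * (wt ((n : ℤ) ^ 2) + w0) + l2 y = 0 := by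
    intro y hy h0
    have h1 := hy.2 (Sum.inl 0) (fun h' => absurd h' h0)
    rw [Matrix.vecMul, dotProduct, Fin.sum_univ_succ] at h1
    rw [e2]
    exact h1
  have hact : ∀ y ∈ VSS, ¬ actR h n w0 → l1 y = 0 := fun y hy ha => hy.1 ha
  unfold dN
  by_cases h1 : h = 1
  · rw [if_pos h1, add_zero]
    apply Submodule.finrank_mono
    intro y hy
    have ha : ¬ actR h n w0 := by
      rintro (h2 | ⟨h2, -⟩) <;> omega
    have hy0 := hact y hy ha
    have hc := hcol y hy (by omega)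
    rw [e1] at hy0
    rw [hy0, zero_mul, zero_add] at hc
    exact (hmem y).mpr ⟨hy, hy0, hc⟩
  rw [if_neg h1]
  by_cases h2 : h = 0 ∧ wt ((n : ℤ) ^ 2) + w0 = 0
  · rw [if_pos h2]
    have s1 := step VSS l1
    have s2 := step (VSS ⊓ LinearMap.ker l1) l2
    have s3 : Module.finrank (ZMod 3) (VSS ⊓ LinearMap.ker l1 ⊓ LinearMap.ker l2 :
        Submodule (ZMod 3) (Fin (m + 1) → ZMod 3)) ≤
        Module.finrank (ZMod 3) (V0 h n π p e r w0 c) := by
      apply Submodule.finrank_mono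
      rintro y ⟨⟨hy, h3⟩, h4⟩
      exact (hmem y).mpr ⟨hy, h3, h4⟩
    omega
  rw [if_neg h2]
  by_cases h3 : h = 0
  · have ha : ¬ actR h n w0 := by
      rintro (h4 | h4)
      · omega
      · exact h2 h4
    have s1 := step VSS l2
    have s3 : Module.finrank (ZMod 3) (VSS ⊓ LinearMap.ker l2 :
        Submodule (ZMod 3) (Fin (m + 1) → ZMod 3)) ≤
        Module.finrank (ZMod 3) (V0 h n π p e r w0 c) := by
      apply Submodule.finrank_mono
      rintro y ⟨hy, h4⟩
      exact (hmem y).mpr ⟨hy, hact y hy ha, h4⟩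
    omega
  · have s1 := step VSS l1
    have s3 : Module.finrank (ZMod 3) (VSS ⊓ LinearMap.ker l1 :
        Submodule (ZMod 3) (Fin (m + 1) → ZMod 3)) ≤
        Module.finrank (ZMod 3) (V0 h n π p e r w0 c) := by
      apply Submodule.finrank_mono
      rintro y ⟨hy, h4⟩
      have hy0 : y 0 = 0 := h4
      have hc := hcol y hy h3
      rw [hy0, zero_mul, zero_add] at hc
      exact (hmem y).mpr ⟨hy, h4, hc⟩
    omega

end Pool.Agent.PTK
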