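import Pool.Agent.PTK.StC

/-!
# The average rank of prime twists, ZA: general properties of `zN`
-/

set_option autoImplicit false

open NumberField IsDedekindDomain Finset
open scoped nonZeroDivisors Pointwise

namespace Pool.Agent.PTK

open Pool.Agent.Lib_helper18 Pool.Agent.Lib_helper18.Eis Pool.Agent.Lib_helper84.Cub
open Pool.Agent.PT Pool.Agent.PTE Pool.Agent.PT3 Pool.Agent.PTL Pool.Agent.PTN

namespace ZA

open Pool.Agent.PT.EHYP Pool.Agent.PT3.HYPT

variable {n m k : ℕ} {π : Fin m → PP} {p e : Fin m → ℕ} {r f : Fin k → ℕ}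

/-- products of powers of the primes -/
noncomputable def pr (π : Fin m → PP) (c : ℕ) (g h : Fin m → ℕ) : Eis :=
  w ^ c * ∏ i, ((π i).1 ^ g i * conj (π i).1 ^ h i)

theorem f_ne (π : Fin m → PP) (g h : Fin m → ℕ) (i : Fin m) :
    (π i).1 ^ g i * conj (π i).1 ^ h i ≠ 0 :=
  mul_ne_zero (pow_ne_zero _ (π i).2.1.ne_zero) (pow_ne_zero _ (prime_conj (π i).2.1).ne_zero)

theorem pr_ne (π : Fin m → PP) (c : ℕ) (g h : Fin m → ℕ) : pr π c g h ≠ 0 :=
  mul_ne_zero (pow_ne_zero _ w_ne) (Finset.prod_ne_zero_iff.2 fun i _ => f_ne π g h i)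

theorem prim_i (π : Fin m → PP) (i : Fin m) : Prim (π i).1 := by
  have h := (π i).2.2
  exact ⟨h.2, by omega⟩

theorem prim_c (π : Fin m → PP) (i : Fin m) : Prim (conj (π i).1) := by
  obtain ⟨h1, h2⟩ := (π i).2.2
  refine ⟨?_, ?_⟩
  · rw [conj_im]
    omega
  · rw [conj_re]
    omega

theorem lam_ndvd (π : Fin m → PP) (c : ℕ) (g h : Fin m → ℕ) : ¬ lam ∣ pr π c g h := by
  have hl : Prime lam := prime_lam
  intro hd
  rcases hl.dvd_or_dvd hd with h1 | h1
  · exact not_dvd_of_isUnit hl (isUnit_w.pow c) h1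
  · obtain ⟨i, -, hi⟩ := hl.exists_mem_finset_dvd h1
    rcases hl.dvd_or_dvd hi with h2 | h2
    · exact (prim_i π i).not_lam_dvd (hl.dvd_of_dvd_pow h2)
    · exact (prim_c π i).not_lam_dvd (hl.dvd_of_dvd_pow h2)

theorem pr_mul (π : Fin m → PP) (c c' : ℕ) (g h g' h' : Fin m → ℕ) :
    pr π c g h * pr π c' g' h' = pr π (c + c') (fun i => g i + g' i) (fun i => h i + h' i) := by
  unfold pr
  rw [pow_add, mul_mul_mul_comm, ← Finset.prod_mul_distrib]
  congr 1
  refine Finset.prod_congr rfl fun i _ => ?_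
  rw [pow_add, pow_add]
  ring

theorem pr_cube (π : Fin m → PP) (c : ℕ) (g h : Fin m → ℕ) :
    pr π (3 * c) (fun i => 3 * g i) (fun i => 3 * h i) = pr π c g h ^ 3 := by
  unfold pr
  rw [mul_pow, ← Finset.prod_pow, ← pow_mul, mul_comm 3 c]
  congr 1
  refine Finset.prod_congr rfl fun i _ => ?_
  change (π i).1 ^ (3 * g i) * conj (π i).1 ^ (3 * h i) = _
  rw [mul_pow, ← pow_mul, ← pow_mul, mul_comm 3 (g i), mul_comm 3 (h i)]

theorem pr_conj (π : Fin m → PP) (c : ℕ) (g h : Fin m → ℕ) :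
    conj (pr π c g h) = pr π (2 * c) h g := by
  unfold pr
  rw [map_mul, map_pow, conj_w, map_prod, ← pow_mul]
  congr 1
  refine Finset.prod_congr rfl fun i _ => ?_
  rw [map_mul, map_pow, map_pow, conj_conj, mul_comm]

theorem sl_pr (hSSL : SSL) (hSREC : SREC) (hLCL : LCL) (π : Fin m → PP) (c : ℕ)
    (g h : Fin m → ℕ) : sl (pr π c g h) 4 = c := by
  have h4 : (4 : Eis) ≠ 0 := by
    intro h
    have := congrArg Eis.re h
    rw [ofNat_re, zero_re] at this
    norm_num at this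
  have hp4 : Prim 4 := ⟨by rw [ofNat_im]; exact dvd_zero _, by rw [ofNat_re]; norm_num⟩
  have hF := add3_sl hSSL h4
  have hw : sl w 4 = 1 := by
    have h1 := hLCL.2.2.2.2.1 4 (by norm_num)
    push_cast at h1
    rw [h1, (lw_four hLCL).2, neg_neg]
  have k1 := hF _ _ (pow_ne_zero c w_ne) (Finset.prod_ne_zero_iff.2 fun i _ => f_ne π g h i :
    (∏ i, ((π i).1 ^ g i * conj (π i).1 ^ h i)) ≠ 0)
  have k2 := hF.pow w_ne c
  have k3 := hF.prod Finset.univ _ fun i _ => f_ne π g h i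
  simp only at k1 k2 k3
  unfold pr
  rw [k1, k2, k3, hw, mul_one, Finset.sum_eq_zero, add_zero]
  intro i _
  have k4 := hF _ _ (pow_ne_zero (g i) (π i).2.1.ne_zero)
    (pow_ne_zero (h i) (prime_conj (π i).2.1).ne_zero)
  have k5 := hF.pow (π i).2.1.ne_zero (g i)
  have k6 := hF.pow (prime_conj (π i).2.1).ne_zero (h i)
  simp only at k4 k5 k6
  rw [k4, k5, k6, hSREC.1 _ _ (prim_i π i) hp4, hSREC.1 _ _ (prim_c π i) hp4, mul_zero, mul_zero,
    add_zero]

theorem V_pr {l : Eis} (hl : Prime l) (π : Fin m → PP) (c : ℕ) (g h : Fin m → ℕ) :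
    V l (pr π c g h) = ∑ i, (g i * V l (π i).1 + h i * V l (conj (π i).1)) := by
  unfold pr
  rw [V_mul hl (pow_ne_zero _ w_ne) (Finset.prod_ne_zero_iff.2 fun i _ => f_ne π g h i),
    V_eq_zero (not_dvd_of_isUnit hl (isUnit_w.pow c)), zero_add,
    V_prod hl _ _ fun i _ => f_ne π g h i]
  refine Finset.sum_congr rfl fun i _ => ?_
  rw [V_mul hl (pow_ne_zero _ (π i).2.1.ne_zero)
    (pow_ne_zero _ (prime_conj (π i).2.1).ne_zero), V_pow hl (π i).2.1.ne_zero,
    V_pow hl (prime_conj (π i).2.1).ne_zero]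

theorem V_i (hn : NF n π p e r f) (c : ℕ) (g h : Fin m → ℕ) (i : Fin m) :
    V (π i).1 (pr π c g h) = g i := by
  rw [V_pr (π i).2.1, Finset.sum_eq_single i]
  · rw [V_self_i hn, V_conj_i hn, if_pos rfl, mul_one, mul_zero, add_zero]
  · intro j _ hj
    rw [V_self_i hn, V_conj_i hn, if_neg hj, mul_zero, mul_zero, add_zero]
  · intro h
    exact absurd (Finset.mem_univ i) h

theorem V_ci (hn : NF n π p e r f) (c : ℕ) (g h : Fin m → ℕ) (i : Fin m) :
    V (conj (π i).1) (pr π c g h) = h i := by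
  rw [V_pr (prime_conj (π i).2.1), Finset.sum_eq_single i]
  · rw [V_conj_self hn, V_conj_conj hn, if_pos rfl, mul_one, mul_zero, zero_add]
  · intro j _ hj
    rw [V_conj_self hn, V_conj_conj hn, if_neg hj, mul_zero, mul_zero, add_zero]
  · intro h
    exact absurd (Finset.mem_univ i) h

theorem dvd_pr (hSPP : SPP) (π : Fin m → PP) (c : ℕ) (g h : Fin m → ℕ) (σ : PP)
    (hd : σ.1 ∣ pr π c g h) : ∃ i, (g i ≠ 0 ∧ σ = π i) ∨ (h i ≠ 0 ∧ σ.1 = conj (π i).1) := by
  have hl := σ.2.1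
  rcases hl.dvd_or_dvd hd with h1 | h1
  · exact absurd h1 (not_dvd_of_isUnit hl (isUnit_w.pow c))
  · obtain ⟨i, -, hi⟩ := hl.exists_mem_finset_dvd h1
    refine ⟨i, ?_⟩
    rcases hl.dvd_or_dvd hi with h2 | h2
    · left
      refine ⟨fun h0 => ?_, ?_⟩
      · rw [h0, pow_zero] at h2
        exact not_dvd_of_isUnit hl isUnit_one h2
      · exact hSPP.2.1 _ _ (hl.associated_of_dvd (π i).2.1 (hl.dvd_of_dvd_pow h2))
    · right
      refine ⟨fun h0 => ?_, ?_⟩
      · rw [h0, pow_zero] at h2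
        exact not_dvd_of_isUnit hl isUnit_one h2
      · obtain ⟨π', hπ'⟩ := (hSPP.2.2.2.1 (π i)).2
        rw [← hπ']
        have h3 : Associated σ.1 π'.1 := by
          rw [hπ']
          exact hl.associated_of_dvd (prime_conj (π i).2.1) (hl.dvd_of_dvd_pow h2)
        rw [hSPP.2.1 _ _ h3]

theorem zN_eq (π : Fin m → PP) (e : Fin m → ℕ) (y : Fin (m + 1) → ZMod 3) :
    zN π e y = pr π (- y 0).val (fun i => ((e i : ZMod 3) * y i.succ).val)
      (fun i => (2 * ((e i : ZMod 3) * y i.succ)).val) := rfl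

theorem three_dvd (a : ZMod 3) : 3 ∣ a.val + (2 * a).val := by
  revert a
  decide

theorem carry (a b : ZMod 3) : ∃ c : ℕ, a.val + b.val = (a + b).val + 3 * c := by
  refine ⟨(a.val + b.val) / 3, ?_⟩
  revert a b
  decide

theorem val_le (a : ZMod 3) : a.val ≤ 2 := by
  revert a
  decide

theorem e_sq' (hn : NF n π p e r f) (i : Fin m) : (e i : ZMod 3) * (e i : ZMod 3) = 1 := by
  rcases hn.pe i with h | h
  · rw [h]
    decide
  · rw [h]
    decide

theorem pd_n (hn : NF n π p e r f) (i : Fin m) : (p i : Eis) ∣ (n : Eis) := by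
  have h1 : p i ∣ n := by
    rw [hn.eq]
    refine Dvd.dvd.mul_right ?_ _
    have h1 : p i ^ e i ∣ ∏ i, p i ^ e i := Finset.dvd_prod_of_mem _ (Finset.mem_univ i)
    refine (dvd_pow_self _ ?_).trans h1
    have := hn.pe i
    omega
  obtain ⟨d, hd⟩ := h1
  exact ⟨(d : Eis), by rw [hd]; push_cast; rfl⟩

end ZA

theorem ZA_thm (hSPP : SPP) (hSSL : SSL) (hSREC : SREC) (hLCL : LCL) : Stmt_ZA := by
  intro n m k π p e r f hn y
  have hyv : NPSI.yv π e (zN π e y) = y := by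
    funext j
    refine Fin.cases ?_ (fun i => ?_) j
    · change - sl (zN π e y) 4 = y 0
      rw [ZA.zN_eq, ZA.sl_pr hSSL hSREC hLCL, ZMod.natCast_zmod_val, neg_neg]
    · change (e i : ZMod 3) * (V (π i).1 (zN π e y) : ZMod 3) = y i.succ
      rw [ZA.zN_eq, ZA.V_i hn, ZMod.natCast_zmod_val, ← mul_assoc, ZA.e_sq' hn, one_mul]
  refine ⟨?_, ?_, ?_, ?_, ?_, ?_, ?_, hyv, ?_, ?_⟩
  · rw [ZA.zN_eq]
    exact ZA.pr_ne _ _ _ _
  · rw [ZA.zN_eq]
    exact ZA.lam_ndvd _ _ _ _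
  · rw [ZA.zN_eq, ZA.pr_conj, ZA.pr_mul]
    have h1 := fun i : Fin m => ZA.three_dvd ((e i : ZMod 3) * y i.succ)
    choose c hc using h1
    refine ⟨ZA.pr π (- y 0).val c c, ?_⟩
    rw [← ZA.pr_cube]
    congr 1
    · omega
    · funext i
      exact hc i
    · funext i
      rw [add_comm]
      exact hc i
  · intro σ hσ hd
    rw [ZA.zN_eq] at hd
    obtain ⟨i, hi⟩ := ZA.dvd_pr hSPP _ _ _ _ _ hd
    apply hσ
    refine Dvd.dvd.trans ?_ (ZA.pd_n hn i)
    rw [hn.pπ i]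
    rcases hi with ⟨-, hi⟩ | ⟨-, hi⟩
    · rw [hi]
      exact dvd_mul_right _ _
    · rw [hi]
      exact dvd_mul_left _ _
  · intro σ
    rw [ZA.zN_eq]
    by_cases hd : σ.1 ∣ ZA.pr π (- y 0).val (fun i => ((e i : ZMod 3) * y i.succ).val)
      (fun i => (2 * ((e i : ZMod 3) * y i.succ)).val)
    · obtain ⟨i, hi⟩ := ZA.dvd_pr hSPP _ _ _ _ _ hd
      rcases hi with ⟨-, hi⟩ | ⟨-, hi⟩
      · rw [hi, ZA.V_i hn]
        exact ZA.val_le _
      · rw [hi, ZA.V_ci hn]
        exact ZA.val_le _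
    · rw [V_eq_zero hd]
      exact Nat.zero_le _
  · intro σ hd
    rw [ZA.zN_eq] at hd
    obtain ⟨i, hi⟩ := ZA.dvd_pr hSPP _ _ _ _ _ hd
    refine ⟨i, ?_⟩
    rcases hi with ⟨h0, hi⟩ | ⟨h0, hi⟩
    · refine ⟨fun h1 => h0 ?_, Or.inl hi⟩
      rw [h1, mul_zero]
      rfl
    · refine ⟨fun h1 => h0 ?_, Or.inr hi⟩
      rw [h1, mul_zero, mul_zero]
      rfl
  · intro i hi
    have h1 : (e i : ZMod 3) * y i.succ ≠ 0 := by
      intro h
      apply hi
      have := congrArg (fun t => (e i : ZMod 3) * t) h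
      simp only [← mul_assoc, ZA.e_sq' hn, one_mul, mul_zero] at this
      exact this
    have h2 : 2 * ((e i : ZMod 3) * y i.succ) ≠ 0 := by
      generalize (e i : ZMod 3) * y i.succ = a at h1
      revert a
      decide
    have k1 : ((e i : ZMod 3) * y i.succ).val ≠ 0 := fun h => h1 ((ZMod.val_eq_zero _).1 h)
    have k2 : (2 * ((e i : ZMod 3) * y i.succ)).val ≠ 0 := fun h => h2 ((ZMod.val_eq_zero _).1 h)
    have h3 : (π i).1 ^ ((e i : ZMod 3) * y i.succ).val *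
        conj (π i).1 ^ (2 * ((e i : ZMod 3) * y i.succ)).val ∣ zN π e y := by
      unfold zN
      exact Dvd.dvd.mul_left (Finset.dvd_prod_of_mem _ (Finset.mem_univ i)) _
    exact ⟨((dvd_pow_self _ k1).trans (dvd_mul_right _ _)).trans h3,
      ((dvd_pow_self _ k2).trans (dvd_mul_left _ _)).trans h3⟩
  · intro y'
    have h1 := fun i : Fin m => ZA.carry ((e i : ZMod 3) * y i.succ) ((e i : ZMod 3) * y' i.succ)
    have h2 := fun i : Fin m => ZA.carry (2 * ((e i : ZMod 3) * y i.succ))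
      (2 * ((e i : ZMod 3) * y' i.succ))
    obtain ⟨c0, hc0⟩ := ZA.carry (- y 0) (- y' 0)
    choose c hc using h1
    choose d hd using h2
    refine ⟨1, ZA.pr π c0 c d, one_ne_zero, ZA.pr_ne _ _ _ _, ?_⟩
    rw [one_pow, mul_one, ZA.zN_eq, ZA.zN_eq, ZA.zN_eq, ← ZA.pr_cube, ZA.pr_mul, ZA.pr_mul]
    congr 1
    · rw [hc0]
      congr 2
      rw [Pi.add_apply, neg_add]
    · funext i
      rw [hc i]
      congr 2
      rw [Pi.add_apply, mul_add]
    · funext i
      rw [hd i]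
      congr 2
      rw [Pi.add_apply, mul_add, mul_add]
  · rintro ⟨t, ht⟩
    rw [← hyv, ← ht]
    have ht0 : t ≠ 0 := by
      rintro rfl
      have : zN π e y ≠ 0 := by
        rw [ZA.zN_eq]
        exact ZA.pr_ne _ _ _ _
      apply this
      rw [← ht]
      ring
    funext j
    refine Fin.cases ?_ (fun i => ?_) j
    · change - sl (t ^ 3) 4 = 0
      have h4 : (4 : Eis) ≠ 0 := by
        intro h
        have := congrArg Eis.re h
        rw [ofNat_re, zero_re] at this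
        norm_num at this
      have h5 : sl (t ^ 3) 4 = ((3 : ℕ) : ZMod 3) * sl t 4 := (EHYP.add3_sl hSSL h4).pow ht0 3
      rw [h5]
      push_cast
      rw [EHYP.three_zero, neg_zero]
    · change (e i : ZMod 3) * (V (π i).1 (t ^ 3) : ZMod 3) = 0
      rw [V_pow (π i).2.1 ht0]
      push_cast
      rw [EHYP.three_zero, mul_zero]

end Pool.Agent.PTK
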