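import Pool.Agent.PTK.ZAUX

/-!
# PTK_ZC: the symbols of the classes of `VS`
-/

set_option autoImplicit false

namespace Pool.Agent.PTK

open Pool.Agent.Lib_helper18 Pool.Agent.Lib_helper18.Eis Pool.Agent.Lib_helper84.Cub
open Pool.Agent.PT Pool.Agent.PTE Pool.Agent.PT3 Pool.Agent.PTN Pool.Agent.PT.EHYP
open Pool.Agent.PT3.HYPT

open ZAUX in
/-- PTK_ZC. -/
theorem ZC_thm (hSTM : STM) (hSPP : SPP) (hSSL : SSL) (hSCJ : SCJ) (hLCL : LCL)
    (hZA : Stmt_ZA) : Stmt_ZC := by
  classical
  intro h n m k π p e r f w0 c hn hh y hy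
  obtain ⟨hz, ⟨t, hzt⟩, hsupp, hval, hfour⟩ := cls hZA hn y
  have hi : ∀ i, Prime (π i).1 := fun i => (π i).2.1
  have h3 : ∀ i, ¬ (π i).1 ∣ 3 := fun i => (hSPP.2.2.2.1 (π i)).1
  have hsl := sl_int hSSL hLCL hz
  -- the value of the symbol at `lam`
  have hslx : ∀ x : ℤ, x ≠ 0 → ¬ (3 : ℤ) ∣ x → sl (zN π e y) (x : Eis) = wt (x ^ 2) * y 0 := by
    intro x hx hx3
    obtain ⟨h1, h2⟩ := hLCL.2.2.2.1 x hx3
    rw [hsl x hx, h1, h2, ← hfour]
    ring
  -- elements prime to `π i`
  have htm : ∀ i (x : Eis), ¬ (π i).1 ∣ x →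
      tm (π i).1 (zN π e y) x = - ((e i : ZMod 3) * y i.succ * sym (π i).1 x) := by
    intro i x hx
    unfold tm
    rw [V_eq_zero hx, ch_of_not_dvd (hi i) hx, hval i]
    simp
  obtain ⟨-, hcol⟩ := hy
  constructor
  · intro i'
    have hcol' := hcol (Sum.inl i'.succ) (fun _ h => by
      rw [Sum.inl.injEq] at h
      exact Fin.succ_ne_zero i' h)
    have h1 : Matrix.vecMul y (PTN.Nm h n π p e r w0 c) (Sum.inl i'.succ) =
        y 0 * wt ((p i' : ℤ) ^ 2) +
          ∑ i, y i.succ *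
          (if i' = i then (e i : ZMod 3) * sym (π i).1 (conj (π i).1) -
            ch (π i).1 ((3 ^ h * n : ℕ) : Eis) - c i
          else (e i : ZMod 3) * sym (π i).1 (p i' : Eis)) := by
      simp [Matrix.vecMul, dotProduct, PTN.Nm, Fin.sum_univ_succ]
    rw [h1] at hcol'
    have hp0 : (p i' : ℤ) ≠ 0 := by exact_mod_cast (hn.pp i').ne_zero
    have hp3 : ¬ (3 : ℤ) ∣ (p i' : ℤ) := fun h5 => by
      have h6 : 3 ∣ p i' := by exact_mod_cast h5
      have := hn.p1 i'
      omega
    have h2 := prodz hSTM hSPP hSCJ hn ∅ (by simp) hz hzt hsupp hp0 (by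
      intro σ hσ
      right
      rw [Int.cast_natCast, hn.pπ i'] at hσ
      refine ⟨i', ?_⟩
      rcases σ.2.1.dvd_or_dvd hσ with h4 | h4
      · left
        exact hSPP.2.1 _ _ (σ.2.1.associated_of_dvd (π i').2.1 h4)
      · right
        obtain ⟨κ, hκ⟩ := (hSPP.2.2.2.1 (π i')).2
        rw [← hκ] at h4 ⊢
        rw [hSPP.2.1 _ _ (σ.2.1.associated_of_dvd κ.2.1 h4)])
    rw [hslx _ hp0 hp3, Finset.sum_empty, sub_zero] at h2
    have h4 : ∀ i, tm (π i).1 (zN π e y) ((p i' : ℤ) : Eis) =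
        (if i' = i then ch (π i).1 (zN π e y) -
          (e i : ZMod 3) * y i.succ * sym (π i).1 (conj (π i).1) else
          - ((e i : ZMod 3) * y i.succ * sym (π i).1 (p i' : Eis))) := by
      intro i
      rw [Int.cast_natCast]
      split_ifs with hii
      · subst hii
        have hcj : ¬ (π i').1 ∣ conj (π i').1 := fun h5 =>
          not_assoc hn i' i' ((hi i').associated_of_dvd (prime_conj (π i').2.1) h5)
        unfold tm
        rw [hn.pπ i', V_mul (hi i') (hi i').ne_zero (prime_conj (π i').2.1).ne_zero, V_self,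
          V_eq_zero hcj, ch_mul (hi i') (h3 i') (hi i').ne_zero
            (prime_conj (π i').2.1).ne_zero, ch_self (hi i') (h3 i'),
          ch_of_not_dvd (hi i') hcj, hval i']
        push_cast
        ring
      · have hnd : ¬ (π i).1 ∣ (p i' : Eis) := by
          rw [hn.pπ i']
          intro h5
          rcases (hi i).dvd_or_dvd h5 with h5 | h5
          · exact hii (assoc_iff hn i i' ((hi i).associated_of_dvd (π i').2.1 h5)).symm
          · exact not_assoc hn i i' ((hi i).associated_of_dvd (prime_conj (π i').2.1) h5)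
        exact htm i _ hnd
    rw [Finset.sum_congr rfl fun i _ => h4 i] at h2
    rw [← Finset.add_sum_erase _ _ (Finset.mem_univ i'), if_pos rfl] at h2 hcol'
    have h5 : ∑ i ∈ Finset.univ.erase i', (if i' = i then ch (π i).1 (zN π e y) -
          (e i : ZMod 3) * y i.succ * sym (π i).1 (conj (π i).1) else
          - ((e i : ZMod 3) * y i.succ * sym (π i).1 (p i' : Eis))) =
        - ∑ i ∈ Finset.univ.erase i', y i.succ *
          (if i' = i then (e i : ZMod 3) * sym (π i).1 (conj (π i).1) -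
            ch (π i).1 ((3 ^ h * n : ℕ) : Eis) - c i
          else (e i : ZMod 3) * sym (π i).1 (p i' : Eis)) := by
      rw [← Finset.sum_neg_distrib]
      refine Finset.sum_congr rfl fun i hi' => ?_
      have h6 : ¬ i' = i := fun h => (Finset.mem_erase.1 hi').1 h.symm
      rw [if_neg h6, if_neg h6]
      ring
    rw [h5] at h2
    linear_combination hcol' - h2
  · intro j ρ hρ
    have hcol' := hcol (Sum.inr j) (fun _ h => by cases h)
    have h1 : Matrix.vecMul y (PTN.Nm h n π p e r w0 c) (Sum.inr j) =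
        y 0 * wt ((r j : ℤ) ^ 2) +
          ∑ i, y i.succ * ((e i : ZMod 3) * sym (π i).1 (r j : Eis)) := by
      simp [Matrix.vecMul, dotProduct, PTN.Nm, Fin.sum_univ_succ]
    rw [h1] at hcol'
    have hr0 : (r j : ℤ) ≠ 0 := by exact_mod_cast (hn.rp j).ne_zero
    have hr3 : ¬ (3 : ℤ) ∣ (r j : ℤ) := fun h5 => by
      have h6 : 3 ∣ r j := by exact_mod_cast h5
      have := hn.r2 j
      omega
    have hjI := inert hSPP (hn.rp j) (hn.r2 j)
    have hρ1 : ∀ i, ρ ≠ π i := by
      rintro i rfl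
      exact not_assoc_nat hn i (r j) (by rw [hρ])
    have hρ2 : ∀ i, ρ.1 ≠ conj (π i).1 := by
      intro i h4
      apply not_assoc_nat hn i (r j)
      have h5 := congrArg conj h4
      rw [conj_conj, hρ, conj_natCast] at h5
      rw [h5]
    have h2 := prodz hSTM hSPP hSCJ hn {ρ} (by
      intro ρ' hρ'
      rw [Finset.mem_singleton] at hρ'
      subst hρ'
      exact ⟨hρ1, hρ2⟩) hz hzt hsupp hr0 (by
      intro σ hσ
      left
      rw [Finset.mem_singleton]
      rw [Int.cast_natCast, ← hρ] at hσ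
      exact hSPP.2.1 _ _ (σ.2.1.associated_of_dvd ρ.2.1 hσ))
    rw [hslx _ hr0 hr3, Finset.sum_singleton] at h2
    have hρz : ¬ ρ.1 ∣ zN π e y := by
      intro h4
      obtain ⟨i, h5 | h5⟩ := hsupp ρ h4
      · exact hρ1 i h5
      · exact hρ2 i h5
    have h4 : tm ρ.1 (zN π e y) ((r j : ℤ) : Eis) = ch ρ.1 (zN π e y) := by
      unfold tm
      rw [Int.cast_natCast, V_eq_zero hρz, ← hρ, V_self]
      simp
    have h5 : ∀ i, tm (π i).1 (zN π e y) ((r j : ℤ) : Eis) =
        - (y i.succ * ((e i : ZMod 3) * sym (π i).1 (r j : Eis))) := by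
      intro i
      rw [Int.cast_natCast, htm i _ (fun h5 =>
        not_assoc_nat hn i (r j) ((hi i).associated_of_dvd hjI.1 h5))]
      ring
    rw [h4, Finset.sum_congr rfl fun i _ => h5 i, Finset.sum_neg_distrib] at h2
    linear_combination h2 - hcol'

end Pool.Agent.PTK
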