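import Pool.Agent.PTK.StC

/-!
# Module PTK_ZL: the classes of `V0` are local cubes at `lam` (MP_8e0b0b_nt, by helper62)
-/

set_option autoImplicit false

open NumberField IsDedekindDomain Finset
open scoped nonZeroDivisors Pointwise

namespace Pool.Agent.PTK

open Pool.Agent.Lib_helper18 Pool.Agent.Lib_helper18.Eis Pool.Agent.Lib_helper84.Cub
open Pool.Agent.PT Pool.Agent.PTE Pool.Agent.PT3 Pool.Agent.PTL Pool.Agent.PTN
open Pool.Agent.PT.EHYP

namespace ZL

theorem three_re : (3 : Eis).re = 3 := by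
  rw [three_eq_cast]
  exact intCast_re 3

theorem three_im : (3 : Eis).im = 0 := by
  rw [three_eq_cast]
  exact intCast_im 3

theorem three_ne : (3 : Eis) ≠ 0 := by
  intro h
  have := congrArg Eis.re h
  rw [three_re] at this
  simp at this

theorem prim_PP (σ : PP) : Prim σ.1 := by
  refine ⟨σ.2.2.2, ?_⟩
  have := σ.2.2.1
  omega

theorem wt_zero {n : ℤ} (h : n % 9 = 1) : wt n = 0 := by
  obtain ⟨k, hk⟩ : ∃ k, n = 1 + 3 * (3 * k) := ⟨n / 9, by omega⟩
  rw [wt_eq hk]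
  push_cast
  exact three_zero _

theorem of_wt {n : ℤ} (h3 : n % 3 = 1) (h : wt n = 0) : n % 9 = 1 := by
  obtain ⟨k, hk⟩ : ∃ k, n = 1 + 3 * k := ⟨n / 3, by omega⟩
  rw [wt_eq hk, ZMod.intCast_zmod_eq_zero_iff_dvd] at h
  push_cast at h
  omega

/-- `sl π 3 = sym π 3` -/
theorem sl_three (hSPP : SPP) (σ : PP) : sl σ.1 3 = sym σ.1 3 := by
  have h3 := (hSPP.2.2.2.1 σ).1
  unfold sl
  rw [finsum_eq_single _ σ]
  · unfold tm
    rw [V_eq_zero h3, V_self, ch_of_not_dvd σ.2.1 h3]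
    simp
  · intro τ hτ
    have h4 : ¬ τ.1 ∣ σ.1 := by
      intro h
      exact hτ (hSPP.2.1 τ σ (τ.2.1.associated_of_dvd σ.2.1 h))
    unfold tm
    rw [V_eq_zero (hSPP.2.2.2.1 τ).1, V_eq_zero h4]
    simp

theorem sl_conj_three (hSPP : SPP) (hSCJ : SCJ) (σ : PP) : sl (conj σ.1) 3 = - sym σ.1 3 := by
  have h := hSCJ.2.1 σ.1 3 σ.2.1.ne_zero three_ne
  have e : conj 3 = 3 := conj_natCast 3
  rw [e] at h
  rw [h, sl_three hSPP]

/-- `sl z 3 = wt (re²)` if the norm is `1` modulo `9` -/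
theorem sl_prim (hSSL : SSL) (hSREC : SREC) {z : Eis} (hz : Prim z) (hn : z.norm % 9 = 1) :
    sl z 3 = wt (z.re ^ 2) := by
  have hz0 : z ≠ 0 := by
    rintro rfl
    exact hz.2 (by simp)
  have hF := add3_sl hSSL hz0
  have hlam : lam ≠ 0 := by
    intro h
    have := congrArg Eis.re h
    simp at this
  have e : (3 : Eis) = -1 * (w ^ 2 * lam ^ 2) := by
    ext
    · rw [three_re]
      simp [pow_two]
    · rw [three_im]
      simp [pow_two]
  have h1 : sl 3 z = 2 * sl w z + 2 * sl lam z := by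
    have h2 := hF (-1) (w ^ 2 * lam ^ 2) (by simp)
      (mul_ne_zero (pow_ne_zero _ w_ne) (pow_ne_zero _ hlam))
    have h3 := hF (w ^ 2) (lam ^ 2) (pow_ne_zero _ w_ne) (pow_ne_zero _ hlam)
    have h4 := hF.pow w_ne 2
    have h5 := hF.pow hlam 2
    have h6 := hF.neg_one
    simp only at h2 h3 h4 h5 h6
    rw [e, h2, h3, h4, h5, h6]
    push_cast
    ring
  have h2 := hSSL.2.1 3 z three_ne hz0
  have h3 := hSSL.2.1 w z w_ne hz0
  have h4 := hSSL.2.1 lam z hlam hz0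
  rw [hSREC.2.1 z hz, wt_zero hn] at h3
  rw [hSREC.2.2.1 z hz] at h4
  rw [h2, h1]
  have h5 := three_zero (wt (z.re ^ 2))
  linear_combination (-2) * h3 + (-2) * h4 + h5

theorem final {z : Eis} (hz : Prim z) (hn : z.norm % 9 = 1) (hr : z.re ^ 2 % 9 = 1) :
    lam ^ 4 ∣ z ^ 2 - 1 := by
  obtain ⟨b, hb⟩ := hz.1
  have h3 := hz.2
  have h1 : (9 : ℤ) ∣ z.im := by
    have e1 : z.norm = z.re ^ 2 - 3 * (z.re * b) + 9 * b ^ 2 := by
      rw [norm_def, hb]
      ring
    have e2 : (3 : ℤ) ∣ z.re * b := by omega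
    have e3 : (3 : ℤ) ∣ b := (Int.prime_three.dvd_or_dvd e2).resolve_left h3
    rw [hb]
    obtain ⟨c, rfl⟩ := e3
    exact ⟨c, by ring⟩
  have h9 : ((9 : ℤ) : Eis) ∣ z ^ 2 - 1 := by
    rw [intCast_dvd_iff]
    obtain ⟨c, hc⟩ := h1
    constructor
    · have e1 : (z ^ 2 - 1).re = z.re ^ 2 - 1 - 9 * (z.im * c) := by
        simp [pow_two]
        rw [hc]
        ring
      rw [e1]
      omega
    · have e1 : (z ^ 2 - 1).im = 9 * (c * (2 * z.re - z.im)) := by
        simp [pow_two]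
        rw [hc]
        ring
      rw [e1]
      exact dvd_mul_right _ _
  refine dvd_trans ⟨w, ?_⟩ h9
  have e4 : lam ^ 2 = -3 * w := by
    ext
    · simp [pow_two, three_im]
    · simp [pow_two, three_im, three_re]
  have e5 : lam ^ 4 = 9 * w ^ 2 := by
    have : lam ^ 4 = (lam ^ 2) ^ 2 := by ring
    rw [this, e4]
    ring
  rw [e5]
  have e6 : w ^ 2 * w = 1 := by
    have := w_cube
    rw [← this]
    ring
  have e7 : ((9 : ℤ) : Eis) = 9 := by push_cast; rfl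
  rw [e7, mul_assoc, e6, mul_one]

end ZL

theorem ZL_thm (hSPP : SPP) (hSSL : SSL) (hSREC : SREC) (hSCJ : SCJ) : Stmt_ZL := by
  classical
  intro n m k π p e r f hn y hy0 hsum
  obtain ⟨g, hg⟩ : ∃ g : Fin m → ZMod 3, g = fun i => (e i : ZMod 3) * y i.succ := ⟨_, rfl⟩
  have hz : zN π e y = ∏ i, ((π i).1 ^ (g i).val * conj (π i).1 ^ (2 * g i).val) := by
    unfold zN
    rw [hy0, neg_zero, ZMod.val_zero, pow_zero, one_mul, hg]
  have hexp : ∀ a : ZMod 3, (a.val = 0 ∧ (2 * a).val = 0) ∨ a.val + (2 * a).val = 3 := by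
    decide
  have hcn : ∀ i, (conj (π i).1) ≠ 0 := fun i => (prime_conj (π i).2.1).ne_zero
  have hP : Prim (zN π e y) ∧ (zN π e y).norm % 9 = 1 := by
    rw [hz]
    refine Finset.prod_induction _ (fun x => Prim x ∧ x.norm % 9 = 1) ?_ ?_ ?_
    · rintro a b ⟨ha, ha'⟩ ⟨hb, hb'⟩
      refine ⟨ha.mul hb, ?_⟩
      rw [Eis.norm_mul, Int.mul_emod, ha', hb']
      norm_num
    · exact ⟨Eis.prim_one, by simp [norm_def]⟩
    · intro i _
      refine ⟨((ZL.prim_PP (π i)).pow _).mul ((ZL.prim_PP (π i)).conj.pow _), ?_⟩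
      have h1 : (conj (π i).1).norm = p i := by
        rw [norm_conj, norm_eq hn]
      have hpw : ∀ (x : Eis) (k : ℕ), (x ^ k).norm = x.norm ^ k := by
        intro x k
        induction k with
        | zero => simp [norm_def]
        | succ k ih => rw [pow_succ, Eis.norm_mul, ih, pow_succ]
      rw [Eis.norm_mul, hpw, hpw, h1, norm_eq hn, ← pow_add]
      rcases hexp (g i) with ⟨h2, h3⟩ | h2
      · rw [h2, h3]
        norm_num
      · rw [h2]
        have h4 := hn.p1 i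
        obtain ⟨c, hc⟩ : ∃ c : ℤ, (p i : ℤ) = 1 + 3 * c := ⟨(p i : ℤ) / 3, by omega⟩
        have h5 : (p i : ℤ) ^ 3 = 1 + 9 * (c + 3 * c ^ 2 + 3 * c ^ 3) := by
          rw [hc]
          ring
        rw [h5]
        omega
  have hsl : sl (zN π e y) 3 = 0 := by
    have hF := add3_sl hSSL ZL.three_ne
    rw [hz]
    have h1 : sl (∏ i, ((π i).1 ^ (g i).val * conj (π i).1 ^ (2 * g i).val)) 3 =
        ∑ i, sl ((π i).1 ^ (g i).val * conj (π i).1 ^ (2 * g i).val) 3 :=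
      hF.prod Finset.univ
        (fun i => (π i).1 ^ (g i).val * conj (π i).1 ^ (2 * g i).val) (fun i _ =>
          mul_ne_zero (pow_ne_zero _ (π i).2.1.ne_zero) (pow_ne_zero _ (hcn i)))
    rw [h1]
    have h2 : ∀ i, sl ((π i).1 ^ (g i).val * conj (π i).1 ^ (2 * g i).val) 3 =
        - (g i * sym (π i).1 3) := by
      intro i
      have h3 : sl ((π i).1 ^ (g i).val * conj (π i).1 ^ (2 * g i).val) 3 =
          sl ((π i).1 ^ (g i).val) 3 + sl (conj (π i).1 ^ (2 * g i).val) 3 :=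
        hF ((π i).1 ^ (g i).val) (conj (π i).1 ^ (2 * g i).val)
          (pow_ne_zero _ (π i).2.1.ne_zero) (pow_ne_zero _ (hcn i))
      have h4 : sl ((π i).1 ^ (g i).val) 3 = ((g i).val : ZMod 3) * sl (π i).1 3 :=
        hF.pow (π i).2.1.ne_zero (g i).val
      have h5 : sl (conj (π i).1 ^ (2 * g i).val) 3 =
          ((2 * g i).val : ZMod 3) * sl (conj (π i).1) 3 := hF.pow (hcn i) (2 * g i).val
      rw [h3, h4, h5, ZL.sl_three hSPP, ZL.sl_conj_three hSPP hSCJ, ZMod.natCast_zmod_val,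
        ZMod.natCast_zmod_val]
      ring
    rw [Finset.sum_congr rfl fun i _ => h2 i, Finset.sum_neg_distrib, neg_eq_zero, ← hsum]
    refine Finset.sum_congr rfl fun i _ => ?_
    rw [hg]
    ring
  rw [ZL.sl_prim hSSL hSREC hP.1 hP.2] at hsl
  exact ZL.final hP.1 hP.2 (ZL.of_wt (sq_mod_three hP.1.2) hsl)

end Pool.Agent.PTK
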