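import Pool.Agent.PTK.ZAUX

/-!
# PTK_ZS: the classes of `VS` are in the minus part of the Selmer group
-/

set_option autoImplicit false

namespace Pool.Agent.PTK

open Pool.Agent.Lib_helper18 Pool.Agent.Lib_helper18.Eis Pool.Agent.Lib_helper84.Cub
open Pool.Agent.PT Pool.Agent.PTE Pool.Agent.PT3 Pool.Agent.PTN Pool.Agent.PT.EHYP
open Pool.Agent.PT3.HYPT

open ZAUX in
/-- PTK_ZS. -/
theorem ZS_thm (hSTM : STM) (hSPP : SPP) (hSSL : SSL) (hSCJ : SCJ) (hLCL : LCL)
    (hZA : Stmt_ZA) (hZC : Stmt_ZC) : Stmt_ZS := by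
  classical
  intro h n m k π p e r f w0 c E q hn hh hE hq hq2 hcl hqn y hy
  obtain ⟨hz, ⟨t, hzt⟩, hsupp, hval, hfour⟩ := cls hZA hn y
  obtain ⟨hZ1, hZ2⟩ := hZC h n m k π p e r f w0 c hn hh y hy
  obtain ⟨hw, hqs⟩ := hcl
  have hD := dat hSPP hn (h := h) hE hq hq2 hqn
  have hq3 : ¬ 3 ∣ q := by omega
  have hqI := inert hSPP hq hq2
  have hn0 := HYPS.n_ne0 hn
  obtain ⟨hlv, hlw⟩ := lvw hLCL hn (h := h) hq hq3 hw
  have hi : ∀ i, Prime (π i).1 := fun i => (π i).2.1
  have h3 : ∀ i, ¬ (π i).1 ∣ 3 := fun i => (hSPP.2.2.2.1 (π i)).1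
  have hB0 := int_ne hD.ne
  have : Fact (Nat.Prime 3) := ⟨Nat.prime_three⟩
  have hqi : ∀ i, ¬ (π i).1 ∣ (q : Eis) := fun i h5 =>
    not_assoc_nat hn i q ((hi i).associated_of_dvd hqI.1 h5)
  have hcB : ∀ i, ch (π i).1 ((BB h n E q : ℤ) : Eis) =
      ch (π i).1 ((3 ^ h * n : ℕ) : Eis) + c i := fun i => by
    have h1 : ((3 ^ h * n : ℕ) : Eis) = 3 ^ h * (n : Eis) := by push_cast; rfl
    have h2 := (add3_ch (hi i) (h3 i)).pow hqI.1.ne_zero E
    rw [BB_cast, h1, ch_mul (hi i) (h3 i) (mul_ne_zero (pow_ne_zero _ three_ne) hn0)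
      (pow_ne_zero _ hqI.1.ne_zero), h2, ch_of_not_dvd (hi i) (hqi i), hqs i]
  -- the place `q`
  obtain ⟨ρ, hρ⟩ := hSPP.2.2.2.2.1 q hq hq2
  -- the symbol at `π i`
  have hpi : ∀ i, tm (π i).1 (zN π e y) ((BB h n E q : ℤ) : Eis) = 0 := by
    intro i
    unfold tm
    rw [hD.vB i, hcB i, hZ1 i, hval i]
    ring
  have hcj : ∀ i (κ : PP), κ.1 = conj (π i).1 →
      tm κ.1 (zN π e y) ((BB h n E q : ℤ) : Eis) = 0 := by
    intro i κ hκ
    rw [tm_conj_int hSTM hSPP hSCJ hκ hz hzt hD.ne, hpi i]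
  -- the symbol at the other places except `q`
  have hoth : ∀ σ : PP, σ ≠ ρ → tm σ.1 (zN π e y) ((BB h n E q : ℤ) : Eis) = 0 := by
    intro σ hσρ
    by_cases hπ : ∃ i, σ = π i ∨ σ.1 = conj (π i).1
    · obtain ⟨i, rfl | h4⟩ := hπ
      · exact hpi i
      · exact hcj i σ h4
    · have hσz : ¬ σ.1 ∣ zN π e y := fun h4 => hπ (hsupp σ h4)
      by_cases hσB : σ.1 ∣ ((BB h n E q : ℤ) : Eis)
      · rcases (dvd_iff hSPP hE σ).1 hσB with h5 | h5
        · rcases HYPS.cls hSPP hn σ.2.1 h5 with ⟨i, h6 | h6⟩ | ⟨j, h6⟩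
          · exact absurd ⟨i, Or.inl (hSPP.2.1 _ _ h6)⟩ hπ
          · exfalso
            apply hπ
            obtain ⟨κ, hκ⟩ := (hSPP.2.2.2.1 (π i)).2
            refine ⟨i, Or.inr ?_⟩
            rw [← hκ] at h6 ⊢
            rw [hSPP.2.1 _ _ h6]
          · obtain ⟨ρj, hρj⟩ := hSPP.2.2.2.2.1 (r j) (hn.rp j) (hn.r2 j)
            have h7 : σ = ρj := hSPP.2.1 _ _ (by rw [hρj]; exact h6)
            have h8 := hZ2 j σ (by rw [h7, hρj])
            unfold tm
            rw [h8, V_eq_zero hσz]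
            simp
        · exfalso
          apply hσρ
          rw [← hρ] at h5
          exact hSPP.2.1 _ _ (σ.2.1.associated_of_dvd ρ.2.1 h5)
      · exact DCONST.tm_zero hσz hσB
  -- the symbol at `lam` with `3`
  have hρ1 : ∀ i, ρ ≠ π i := by
    rintro i rfl
    exact not_assoc_nat hn i q (by rw [hρ])
  have hρ2 : ∀ i, ρ.1 ≠ conj (π i).1 := by
    intro i h4
    apply not_assoc_nat hn i q
    have h5 := congrArg conj h4
    rw [conj_conj, hρ, conj_natCast] at h5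
    rw [h5]
  have hsl3 : sl (zN π e y) 3 = - ∑ i, y i.succ * ((e i : ZMod 3) * sym (π i).1 3) := by
    have h2 := prodz hSTM hSPP hSCJ hn ∅ (by simp) hz hzt hsupp (x := 3) (by norm_num) (by
      intro σ hσ
      exfalso
      push_cast at hσ
      exact (hSPP.2.2.2.1 σ).1 hσ)
    rw [Finset.sum_empty, sub_zero] at h2
    push_cast at h2
    rw [h2, ← Finset.sum_neg_distrib]
    refine Finset.sum_congr rfl fun i _ => ?_
    unfold tm
    rw [V_eq_zero (h3 i), ch_of_not_dvd (hi i) (h3 i), hval i]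
    push_cast
    ring
  have hsl4 : sl (zN π e y) 4 = - y 0 := by rw [← hfour, neg_neg]
  have hcol0 : h ≠ 0 → y 0 * (wt ((n : ℤ) ^ 2) + w0) +
      ∑ i, y i.succ * ((e i : ZMod 3) * sym (π i).1 3) = 0 := by
    intro h0
    have h1 := hy.2 (Sum.inl 0) (fun h4 => absurd h4 h0)
    rw [← h1]
    simp [Matrix.vecMul, dotProduct, PTN.Nm, Fin.sum_univ_succ]
  have hact : ¬ actR h n w0 → y 0 = 0 := hy.1
  have hslB : sl (zN π e y) ((BB h n E q : ℤ) : Eis) = 0 := by
    rw [sl_int hSSL hLCL hz _ hD.ne, hlv, hlw, hsl3, hsl4]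
    obtain rfl | rfl | rfl : h = 0 ∨ h = 1 ∨ h = 2 := by omega
    · by_cases h4 : wt ((n : ℤ) ^ 2) + w0 = 0
      · rw [h4]
        simp
      · have h5 : y 0 = 0 := hact (by
          rintro (h6 | h6)
          · omega
          · exact h4 h6.2)
        rw [h5]
        simp
    · have h5 : y 0 = 0 := hact (by
        rintro (h6 | h6)
        · omega
        · omega)
      have h6 := hcol0 (by omega)
      rw [h5, zero_mul, zero_add] at h6
      rw [h5, h6]
      simp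
    · have h6 := hcol0 (by omega)
      have h7 := three_zero (∑ i, y i.succ * ((e i : ZMod 3) * sym (π i).1 3))
      push_cast
      linear_combination h6 - h7
  have hρB : tm ρ.1 (zN π e y) ((BB h n E q : ℤ) : Eis) = 0 := by
    have h4 : sl (zN π e y) ((BB h n E q : ℤ) : Eis) =
        - tm ρ.1 (zN π e y) ((BB h n E q : ℤ) : Eis) := by
      unfold sl
      rw [finsum_eq_single _ ρ fun σ hσ => hoth σ hσ]
    rw [hslB] at h4
    exact neg_eq_zero.1 h4.symm
  have hall : ∀ σ : PP, tm σ.1 (zN π e y) ((BB h n E q : ℤ) : Eis) = 0 := by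
    intro σ
    by_cases h4 : σ = ρ
    · rw [h4]
      exact hρB
    · exact hoth σ h4
  refine ⟨hz, ⟨t, hzt⟩, hall, ?_, ?_⟩
  · intro σ hσB
    have hσz : ¬ σ.1 ∣ zN π e y := by
      intro h4
      apply hσB
      obtain ⟨i, h5⟩ := hsupp σ h4
      have hVB : (π i).1 ∣ ((BB h n E q : ℤ) : Eis) := by
        by_contra h6
        have h7 := hD.vB i
        rw [V_eq_zero h6] at h7
        have := hD.e12 i
        omega
      rcases h5 with rfl | h5
      · exact hVB
      · rw [h5]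
        have h6 := conj_dvd hVB
        rwa [conj_intCast] at h6
    rw [V_eq_zero hσz]
    exact dvd_zero 3
  · intro hlv1
    rw [hlv] at hlv1
    have h1 : h = 1 := by
      obtain rfl | rfl | rfl : h = 0 ∨ h = 1 ∨ h = 2 := by omega
      · exact absurd hlv1 (by decide)
      · rfl
      · exact absurd hlv1 (by decide)
    subst h1
    have h5 : y 0 = 0 := hact (by
      rintro (h6 | h6)
      · omega
      · omega)
    have h6 := hcol0 (by omega)
    rw [h5, zero_mul, zero_add] at h6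
    exact ⟨by rw [hsl3, h6, neg_zero], by rw [hsl4, h5, neg_zero]⟩

end Pool.Agent.PTK
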