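import Pool.Agent.PTK.ZAUX

/-!
# PTK_ZT: the symbols of two classes of `VS`
-/

set_option autoImplicit false

namespace Pool.Agent.PTK

open Pool.Agent.Lib_helper18 Pool.Agent.Lib_helper18.Eis Pool.Agent.Lib_helper84.Cub
open Pool.Agent.PT Pool.Agent.PTE Pool.Agent.PT3 Pool.Agent.PTN Pool.Agent.PT.EHYP
open Pool.Agent.PT3.HYPT

open ZAUX in
/-- PTK_ZT. -/
theorem ZT_thm (hSTM : STM) (hSPP : SPP) (hSCJ : SCJ) (hLCI : Stmt_LCI)
    (hZA : Stmt_ZA) (hZC : Stmt_ZC) : Stmt_ZT := by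
  classical
  intro h n m k π p e r f w0 c hn hh y hy y' hy'
  obtain ⟨hz, ⟨t, hzt⟩, hsupp, hval, -⟩ := cls hZA hn y
  obtain ⟨hz', ⟨t', hzt'⟩, hsupp', hval', -⟩ := cls hZA hn y'
  obtain ⟨hZ1, -⟩ := hZC h n m k π p e r f w0 c hn hh y hy
  obtain ⟨hZ1', -⟩ := hZC h n m k π p e r f w0 c hn hh y' hy'
  have hpi : ∀ i, tm (π i).1 (zN π e y) (zN π e y') = 0 := by
    intro i
    unfold tm
    rw [hval i, hval' i, hZ1 i, hZ1' i]
    ring
  constructor
  · intro σ
    by_cases hπ : ∃ i, σ = π i ∨ σ.1 = conj (π i).1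
    · obtain ⟨i, rfl | h4⟩ := hπ
      · exact hpi i
      · rw [tm_conj_two hSTM hSPP hSCJ h4 hz hzt hz' hzt', hpi i, neg_zero]
    · exact DCONST.tm_zero (fun h4 => hπ (hsupp σ h4)) fun h4 => hπ (hsupp' σ h4)
  · intro σ hσ' hσ
    obtain ⟨-, -, -, -, -, h6, -, -, -, -⟩ := hZA n m k π p e r f hn y'
    obtain ⟨-, -, -, -, -, -, h7, -, -, -⟩ := hZA n m k π p e r f hn y
    obtain ⟨i, -, hi⟩ := h6 σ hσ'
    by_cases hyi : y i.succ = 0
    · exfalso
      apply hσ
      have hV0 : 3 ∣ V (π i).1 (zN π e y) := by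
        rw [← ZMod.natCast_eq_zero_iff, hval i, hyi, mul_zero]
      have hc0 : ch (π i).1 (zN π e y) = 0 := by rw [hZ1 i, hyi, zero_mul]
      rcases hi with rfl | hi
      · exact (hLCI.1 (π i) _ hz).2 ⟨hV0, hc0⟩
      · have hp0 : (p i : ℤ) ≠ 0 := by exact_mod_cast (hn.pp i).ne_zero
        have hV1 : 3 ∣ V σ.1 (zN π e y) := by
          have h8 := V_add_conj (π i).2.1 hz hzt
          rw [hi]
          omega
        refine (hLCI.1 σ _ hz).2 ⟨hV1, ?_⟩
        have h9 := tm_conj_int hSTM hSPP hSCJ hi hz hzt hp0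
        have hcj : ¬ (π i).1 ∣ conj (π i).1 := fun h5 =>
          not_assoc hn i i ((π i).2.1.associated_of_dvd (prime_conj (π i).2.1) h5)
        have hVp : V (π i).1 (p i : Eis) = 1 := by
          rw [hn.pπ i, V_mul (π i).2.1 (π i).2.1.ne_zero (prime_conj (π i).2.1).ne_zero, V_self,
            V_eq_zero hcj]
        have hVσ : V σ.1 (p i : Eis) = 1 := by
          have h10 := V_conj (a := (p i : Eis)) (π i).2.1 (by
            rw [hn.pπ i]
            exact mul_ne_zero (π i).2.1.ne_zero (prime_conj (π i).2.1).ne_zero)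
          rw [conj_natCast, ← hi, hVp] at h10
          exact h10
        rw [Int.cast_natCast] at h9
        unfold tm at h9
        rw [hVp, hVσ, hc0, (ZMod.natCast_eq_zero_iff _ 3).2 hV0,
          (ZMod.natCast_eq_zero_iff _ 3).2 hV1] at h9
        simpa using h9
    · obtain ⟨g1, g2⟩ := h7 i hyi
      rcases hi with rfl | hi
      · exact g1
      · rw [hi]
        exact g2

end Pool.Agent.PTK
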