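import Pool.Agent.PTN.Final
import Pool.Agent.PTK.VDIM
import Pool.Agent.PTK.LCI
import Pool.Agent.PTK.NFL
import Pool.Agent.PTK.NRK
import Pool.Agent.PTK.NHN
import Pool.Agent.PTK.NTR
import Pool.Agent.PTK.NCN
import Pool.Agent.PTK.NFX
import Pool.Agent.PTK.NHO
import Pool.Agent.PTK.NNS
import Pool.Agent.PTK.NGN
import Pool.Agent.PTK.NMN
import Pool.Agent.PTK.NDS
import Pool.Agent.PTK.HNE
import Pool.Agent.PTK.ZA
import Pool.Agent.PTK.ZI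
import Pool.Agent.PTK.ZL
import Pool.Agent.PTK.ZC
import Pool.Agent.PTK.ZT
import Pool.Agent.PTK.SYK
import Pool.Agent.PTK.IF4
import Pool.Agent.PTK.IF4B
import Pool.Agent.PTK.F6R
import Pool.Agent.PTK.F7U
import Pool.Agent.PTK.LFV
import Pool.Agent.PTK.DP1
import Pool.Agent.PTK.IF2
import Pool.Agent.PTK.IF1
import Pool.Agent.PTK.SVF
import Pool.Agent.PTK.IIAG
import Pool.Agent.PTK.IIA
import Pool.Agent.PTK.DP2
import Pool.Agent.PTK.DP3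
import Pool.Agent.PTK.DP4
import Pool.Agent.PTK.DCK
import Pool.Agent.PTK.ZS
import Pool.Agent.PTK.PT
import Pool.Agent.PTK.GZK
import Pool.Agent.PTK.GTK
import Pool.Agent.PTK.GKK
import Pool.Agent.PTK.GCK
import Pool.Agent.PTK.GFK
import Pool.Agent.PTK.GAK
import Pool.Agent.PTK.DNS
import Pool.Agent.PTK.BDK
import Pool.Agent.PTK.CTK
import Pool.Agent.PTK.LIN
import Pool.Agent.PTK.AVW
import Pool.Agent.PTK.S1G
import Pool.Agent.PTK.WGR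
import Pool.Agent.PTK.NBW
import Pool.Agent.PTK.CRK
import Pool.Agent.PTK.AVC
import Pool.Agent.PTK.AVR
import Pool.Agent.PTK.AVA
import Pool.Agent.PTK.MAI

/-!
# The average rank of prime twists: assembly
-/

set_option autoImplicit false

namespace Pool.Agent.PTK.Final

open Pool.Agent.PT Pool.Agent.PT.Final Pool.Agent.PT.FinalB Pool.Agent.PTE Pool.Agent.PTE.Final
open Pool.Agent.PT3 Pool.Agent.PT3.Final Pool.Agent.PTN Pool.Agent.PTN.Final Pool.Agent.PTK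

theorem fVDIM : Stmt_VDIM := VDIM_thm

theorem fLCI : Stmt_LCI := LCI_thm fSPP

theorem fNFL : Stmt_NFL := NFL_thm

theorem fNRK : Stmt_NRK := NRK_thm

theorem fNHN : Stmt_NHN := NHN_thm

theorem fNTR : Stmt_NTR := NTR_thm fSPP fNHN

theorem fNCN : Stmt_NCN := NCN_thm fSPP fLCI fNHN fNTR

theorem fNFX : Stmt_NFX := NFX_thm fSPP fNHN fNTR

theorem fNHO : Stmt_NHO := NHO_thm fSPP fNHN fNTR

theorem fNNS : Stmt_NNS := NNS_thm

theorem fNGN : Stmt_NGN := NGN_thm fSPP fSREC fLCI fNAUX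

theorem fNMN : Stmt_NMN := NMN_thm fSTM fSPP fSSL fSLC fHERBQ fSUN fNRK fNHN fNTR fNCN fNFX fNHO
  fNNS fNGN

theorem fNDS : Stmt_NDS := NDS_thm

theorem fHNE : Stmt_HNE := HNE_thm fNFL fNMN fNDS

theorem fZA : Stmt_ZA := ZA_thm fSPP fSSL fSREC fLCL

theorem fZI : Stmt_ZI := ZI_thm fZA

theorem fZL : Stmt_ZL := ZL_thm fSPP fSSL fSREC fSCJ

theorem fZC : Stmt_ZC := ZC_thm fSTM fSPP fSSL fSCJ fLCL fZA

theorem fZT : Stmt_ZT := ZT_thm fSTM fSPP fSCJ fLCI fZA fZC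

theorem fSYK : Stmt_SYK := SYK_thm fSPP fLCI fHNE fZA fZI fZL fZT

theorem fIF4 : Stmt_IF4 := IF4_thm fSTAR

theorem fIF4B : Stmt_IF4B := IF4B_thm fSTAR

theorem fF6R : Stmt_F6R := F6R_thm fSTM

theorem fF7U : Stmt_F7U := F7U_thm fSTM

theorem fLFV : Stmt_LFV := LFV_thm fSPP

theorem fDP1 : Stmt_DP1 := DP1_thm fSTM fSPP fIF4 fIF4B fF6R fF7U fLFV fLCI

theorem fIF2 : Stmt_IF2 := IF2_thm fSTAR

theorem fIF1 : Stmt_IF1 := IF1_thm

theorem fSVF : Stmt_SVF := SVF_thm fSSL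

theorem fIIAG : Stmt_IIAG := IIAG_thm fSTM fSPP fSSL fLCI fIF1 fIF2 fIF4 fF6R fF7U fSVF

theorem fIIA : Stmt_IIA := IIA_thm fSLC fIIAG

theorem fDP2 : Stmt_DP2 := DP2_thm fSLC fIF2 fIIA

theorem fDP3 : Stmt_DP3 := DP3_thm fSTM fSPP fIF4 fF7U fLFV fLCI

theorem fDP4 : Stmt_DP4 := DP4_thm fSTM fSPP fIF4 fLCI

theorem fDCK : Stmt_DCK := DCK_thm fSPP fDP1 fDP2 fDP3 fDP4 fSVF

theorem fZS : Stmt_ZS := ZS_thm fSTM fSPP fSSL fSCJ fLCL fZA fZC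

theorem fPT : Stmt_PT := PT_thm

theorem fGZK : Stmt_GZK := GZK_thm

theorem fGTK : Stmt_GTK := GTK_thm

theorem fGKK : Stmt_GKK := GKK_thm fKUM

theorem fGCK : Stmt_GCK := GCK_thm fGKK

theorem fGFK : Stmt_GFK := GFK_thm

theorem fGAK : Stmt_GAK := GAK_thm fGZK fGCHI fGTK fGCK fGFK

theorem fDNS : Stmt_DNS := DNS_thm fDIR

theorem fBDK : Stmt_BDK := BDK_thm fLCI fGAK fDNS

theorem fCTK : Stmt_CTK := CTK_thm fSPP fCLSC fSYK fDCK fZS fPT fBDK fZA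

theorem fLIN : Stmt_LIN := LIN_thm

theorem fAVW : Stmt_AVW := AVW_thm fVDIM fCTK fLIN fCLT

theorem fS1G : Stmt_S1G := S1G_thm fKEX fKEMB fKAD fKMI

theorem fWGR : Stmt_WGR := WGR_thm fSPP fSSL fSCJ fLCL fNKIN fZA fZS fS1G

theorem fNBW : Stmt_NBW := NBW_thm fKID fNADT fNPLU fTENT fWGR

theorem fCRK : Stmt_CRK := CRK_thm fNBAS fESYT fDCOT fCLSC fNBW fBDG fTENT fNADT fWGR

theorem fAVC : Stmt_AVC := AVC_thm fCRK fDOMG fLAW

theorem fAVR : Stmt_AVR := AVR_thm fSPP fAVW fAVC fCLT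

theorem fAVA : Stmt_AVA := AVA_thm fSUMA fAVR

theorem fMAI : Stmt_MAI := MAI_thm fNFE fTRU fSUMA fAVR fAVA

end Pool.Agent.PTK.Final
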