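import Pool.Agent.PTK.StJ
import Pool.Agent.PTK.GFK
import Pool.Agent.PTE.GFRS

/-!
# PTK, module GFKU: Frobenius elements and `t`, primes `= 1 (mod 3)` (helper88)

Models: `PTK/GFK.lean`, `PTE/GFRS.lean`.
-/

set_option autoImplicit false

open NumberField IsDedekindDomain Finset
open scoped nonZeroDivisors Pointwise

namespace Pool.Agent.PTK

open Pool.Agent.Lib_helper18 Pool.Agent.Lib_helper18.Eis Pool.Agent.Lib_helper84.Cub
open Pool.Agent.PT Pool.Agent.PTE Pool.Agent.PT3 Pool.Agent.PTL Pool.Agent.PTN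

namespace GFKU

open Pool.Agent.PTE.GFRS (Dat cases_root)

/-- the data at the prime `P`, for a given prime `ρ` below `P` -/
theorem exists_dat (hSPLT : SPLT) (hSPP : SPP) {L : Type} [Field L] [NumberField L] {Q : ℕ}
    (hQ : Q.Prime) {P : Ideal (𝓞 L)} (hP : P.IsPrime) (hQP : (Q : 𝓞 L) ∈ P) (hQ3 : Q % 3 = 1)
    {φ : L ≃ₐ[ℚ] L} (hφ : IsArithFrobAt ℤ φ P) (κ : Eis →+* 𝓞 L) {ρ : PP}
    (hρQ : (Q : Eis) = ρ.1 * conj ρ.1) (hρP : κ ρ.1 ∈ P) :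
    ∃ (F : Type) (_ : Field F) (mk : 𝓞 L →+* F) (z : F) (ψ : Eis →+* F),
      (∀ a, mk (κ a) = ψ a) ∧ Dat Q φ (κ w) ρ.1 mk z ψ := by
  have hfin := GFR.quo_finite hQ hP hQP
  have hmax : P.IsMaximal :=
    Ideal.Quotient.maximal_of_isField _ (Finite.isField_of_domain (𝓞 L ⧸ P))
  let _ : Field (𝓞 L ⧸ P) := Ideal.Quotient.field P
  have h3 : κ w ^ 2 + κ w + 1 = 0 := GFK.hom_rel κ
  let ψ : Eis →+* 𝓞 L ⧸ P := (Ideal.Quotient.mk P).comp κ
  set z : 𝓞 L ⧸ P := ψ w with hz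
  have hzrel : z ^ 2 + z + 1 = 0 := GFK.hom_rel ψ
  have h3Q : ¬ (Q : ℤ) ∣ 3 := by
    intro h3
    have h4 : Q ∣ 3 := by exact_mod_cast h3
    have h5 := (Nat.prime_dvd_prime_iff_eq hQ Nat.prime_three).1 h4
    omega
  have hz1 : z ≠ 1 := by
    intro h3
    rw [h3] at hzrel
    refine h3Q ((GFR.int_mk hQ hP hQP 3).1 ?_)
    push_cast
    linear_combination hzrel
  have hN : N ρ.1 = Q := by
    have h1 := mul_conj ρ.1
    rw [← hρQ] at h1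
    have h2 : ((Q : ℤ) : Eis) = ((ρ.1.norm : ℤ) : Eis) := by
      rw [Int.cast_natCast]
      exact h1
    have h3 : (Q : ℤ) = ρ.1.norm := by
      have h4 := congrArg Eis.re h2
      simpa using h4
    have h4 := N_cast ρ.1
    rw [← h3] at h4
    exact_mod_cast h4
  have hωL : ((κ w : 𝓞 L) : L) ^ 2 + ((κ w : 𝓞 L) : L) + 1 = 0 := by
    have h4 := congrArg (fun x : 𝓞 L => (x : L)) h3
    simpa using h4
  exact ⟨𝓞 L ⧸ P, inferInstance, Ideal.Quotient.mk P, z, ψ, fun a => rfl,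
    { hQ := hQ
      rel := hzrel
      ne1 := hz1
      ωz := rfl
      ψw := rfl
      ψρ := Ideal.Quotient.eq_zero_iff_mem.2 hρP
      i0 := fun n => GFR.int_mk hQ hP hQP n
      fr := fun x => GFR.frob_mk hQ hP hQP hφ x
      fω := PTE.GFRS.frob_omega hQ hP hQP hQ3 hφ hωL
      rω := h3
      hq := ρ.2.1
      h3 := (hSPP.2.2.2.1 ρ).1
      hN := hN
      hd := (hSPLT.2 Q ρ hQ hQ3 hρQ).2.2.2.1 }⟩

/-- the linear forms are prime to `ρ` -/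
theorem lf_not_dvd {ρ x p q r : Eis} (hb : ¬ ρ ∣ p ^ 3 + x * q ^ 3)
    (hr : ρ ∣ r ^ 3 - x) : ¬ ρ ∣ LfE p q 1 r ∧ ¬ ρ ∣ LfE p q 2 r := by
  have key : ¬ ρ ∣ LfE p q 0 r * LfE p q 1 r * LfE p q 2 r := by
    rw [GFK.lf_prod]
    intro h
    refine hb ?_
    have h2 : p ^ 3 + x * q ^ 3 = p ^ 3 + q ^ 3 * r ^ 3 - (r ^ 3 - x) * q ^ 3 := by ring
    rw [h2]
    exact dvd_sub h (Dvd.dvd.mul_right hr _)
  exact ⟨fun h => key (Dvd.dvd.mul_right (Dvd.dvd.mul_left h _) _),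
    fun h => key (Dvd.dvd.mul_left h _)⟩

section Main

variable {L : Type} [Field L] [NumberField L] {F : Type} [Field F] {Q : ℕ}
  {φ : L ≃ₐ[ℚ] L} {κ : Eis →+* 𝓞 L} {ρ : Eis} {mk : 𝓞 L →+* F} {z : F} {ψ : Eis →+* F}
  (D : Dat Q φ (κ w) ρ mk z ψ) (hψ : ∀ a, mk (κ a) = ψ a)

include D

theorem psi_ne {e : Eis} (he : ¬ ρ ∣ e) : ψ e ≠ 0 := by
  intro h0
  have h4 := map_pow_eq D.hq D.h3 he ψ D.ψρ
  rw [h0, D.ψw] at h4
  have h5 := D.three_mul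
  have h6 := D.hQ.two_le
  rw [zero_pow (by omega)] at h4
  exact pow_ne_zero _ D.z0 h4.symm

variable (ι : Eis →+* L) (hκ : ∀ a, ((κ a : 𝓞 L) : L) = ι a)

include hκ

theorem fw : φ (ι w) = ι w := by
  have h := D.fω
  rwa [hκ] at h

theorem fa (a : Eis) : φ (ι a) = ι a := by
  have h := fw D ι hκ
  rw [GFK.hom_eq ι a]
  simp only [map_add, map_mul, map_intCast, h]

include hψ

/-- a root of an element with trivial symbol is fixed -/
theorem fix {c : Eis} (hc : ¬ ρ ∣ c) (hs : sym ρ c = 0) {θ : L} (hθ : θ ^ 3 = ι c) :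
    φ θ = θ := by
  have hint : IsIntegral ℤ θ := by
    refine IsIntegral.of_pow (n := 3) (by norm_num) ?_
    rw [hθ, ← hκ]
    exact RingOfIntegers.isIntegral_coe _
  let y : 𝓞 L := ⟨θ, hint⟩
  have hy : y ^ 3 = κ c := by
    apply RingOfIntegers.coe_injective
    change θ ^ 3 = ((κ c : 𝓞 L) : L)
    rw [hκ, hθ]
  have hmy : mk y ^ 3 = ψ c := by rw [← map_pow, hy, hψ]
  have hmy0 : mk y ≠ 0 := by
    intro h0
    rw [h0, zero_pow (by norm_num)] at hmy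
    exact psi_ne D hc hmy.symm
  have hcube : (φ • y) ^ 3 = y ^ 3 := by
    rw [hy]
    apply RingOfIntegers.coe_injective
    change (φ θ) ^ 3 = ((κ c : 𝓞 L) : L)
    rw [hκ, ← map_pow, hθ, fa D ι hκ]
  obtain ⟨k, hk⟩ := cases_root D.rω hcube
  have h1 : mk (φ • y) = mk y := by
    rw [D.fr, D.pow_Q hc hmy, hs, ZMod.val_zero, pow_zero, one_mul]
  rw [hk, map_mul, map_pow, D.ωz] at h1
  have h2 : z ^ k = 1 := by
    refine mul_right_cancel₀ hmy0 ?_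
    rw [h1, one_mul]
  have h3 : 3 ∣ k := by
    rw [← D.order]
    exact orderOf_dvd_of_pow_eq_one h2
  obtain ⟨l, rfl⟩ := h3
  have h4 : φ • y = y := by
    rw [hk, pow_mul, GFR.omega_cube D.rω, one_pow, one_mul]
  exact congrArg (fun x : 𝓞 L => (x : L)) h4

theorem core {x p q p' q' r : Eis} (h0 : ¬ ρ ∣ x) (hsx : sym ρ x = 0)
    (h1 : ¬ ρ ∣ p ^ 3 + x * q ^ 3)
    (h2 : ¬ ρ ∣ p' ^ 3 + x * q' ^ 3) (hr : ρ ∣ r ^ 3 - x)
    (hroot : ∃ θ : L, θ ^ 3 = ι x)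
    (hA : ∀ θ : L, θ ^ 3 = ι x → ∃ A : L, A ^ 3 * aDE ι p q p' q' θ = aNE ι p q p' q' θ)
    {t : ZMod 3} (ht : ∀ θ A : L, θ ^ 3 = ι x →
      A ^ 3 * aDE ι p q p' q' θ = aNE ι p q p' q' θ → φ A = ι w ^ t.val * A) :
    t = TAUP ρ p q p' q' r := by
  have hψr : ψ r ^ 3 = ψ x := by
    obtain ⟨d, hd⟩ := hr
    have h3 := congrArg ψ hd
    rw [map_sub, map_pow, map_mul, D.ψρ, zero_mul] at h3
    exact sub_eq_zero.1 h3
  -- a root of `x` congruent to `r`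
  obtain ⟨ρB, hρB, hρr⟩ : ∃ ρB : 𝓞 L, ρB ^ 3 = κ x ∧ mk ρB = ψ r := by
    obtain ⟨θ, hθ⟩ := hroot
    have hint : IsIntegral ℤ θ := by
      refine IsIntegral.of_pow (n := 3) (by norm_num) ?_
      rw [hθ, ← hκ]
      exact RingOfIntegers.isIntegral_coe _
    let θB : 𝓞 L := ⟨θ, hint⟩
    have hθB : θB ^ 3 = κ x := by
      apply RingOfIntegers.coe_injective
      change θ ^ 3 = ((κ x : 𝓞 L) : L)
      rw [hκ, hθ]
    have hc3 : (ψ r) ^ 3 = (mk θB) ^ 3 := by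
      rw [hψr, ← map_pow, hθB, hψ]
    obtain ⟨k, hk⟩ := cases_root D.rel hc3
    refine ⟨κ w ^ k * θB, ?_, ?_⟩
    · rw [mul_pow, ← pow_mul, mul_comm k 3, pow_mul, GFR.omega_cube D.rω, one_pow, one_mul, hθB]
    · rw [map_mul, map_pow, D.ωz, hk]
  have hρ : (ρB : L) ^ 3 = ι x := by
    rw [← hκ, ← hρB]
    rfl
  obtain ⟨A, hAA⟩ := hA (ρB : L) hρ
  -- the elements of the ring of integers
  let dD : 𝓞 L := (κ p + κ q * κ w * ρB) * (κ p' + κ q' * κ w ^ 2 * ρB)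
  let dN : 𝓞 L := (κ p + κ q * κ w ^ 2 * ρB) * (κ p' + κ q' * κ w * ρB)
  have hdD : algebraMap (𝓞 L) L dD = aDE ι p q p' q' (ρB : L) := by
    simp only [dD, aDE, map_mul, map_add, map_pow, hκ]
  have hdN : algebraMap (𝓞 L) L dN = aNE ι p q p' q' (ρB : L) := by
    simp only [dN, aNE, map_mul, map_add, map_pow, hκ]
  have hA' : (A * aDE ι p q p' q' (ρB : L)) ^ 3 = algebraMap (𝓞 L) L (dN * dD ^ 2) := by
    rw [map_mul, map_pow, hdD, hdN, ← hAA]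
    ring
  have hAint : IsIntegral ℤ (A * aDE ι p q p' q' (ρB : L)) := by
    refine IsIntegral.of_pow (n := 3) (by norm_num) ?_
    rw [hA']
    exact RingOfIntegers.isIntegral_coe _
  let AB : 𝓞 L := ⟨A * aDE ι p q p' q' (ρB : L), hAint⟩
  have hAB : AB ^ 3 = dN * dD ^ 2 := by
    apply RingOfIntegers.coe_injective
    rw [← hA']
    rfl
  have hφρ : φ (ρB : L) = ρB := fix D hψ ι hκ h0 hsx hρ
  have hφD : φ (aDE ι p q p' q' (ρB : L)) = aDE ι p q p' q' (ρB : L) := by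
    simp only [aDE, map_mul, map_add, map_pow, fa D ι hκ, hφρ]
  have hφφ : φ • AB = κ w ^ t.val * AB := by
    apply RingOfIntegers.coe_injective
    rw [map_mul, map_pow]
    change φ (A * aDE ι p q p' q' (ρB : L)) =
      ((κ w : 𝓞 L) : L) ^ t.val * (A * aDE ι p q p' q' (ρB : L))
    rw [hκ, map_mul, hφD, ht _ A hρ hAA]
    ring
  have hq := D.hq
  obtain ⟨e1, e2⟩ := lf_not_dvd h1 hr
  obtain ⟨e1', e2'⟩ := lf_not_dvd h2 hr
  set E : Eis := LfE p q 2 r * LfE p' q' 1 r * (LfE p q 1 r * LfE p' q' 2 r) ^ 2 with hE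
  have hEd : ¬ ρ ∣ E := by
    intro h3
    rcases hq.dvd_or_dvd h3 with h4 | h4
    · rcases hq.dvd_or_dvd h4 with h5 | h5
      · exact e2 h5
      · exact e1' h5
    · rcases hq.dvd_or_dvd (hq.dvd_of_dvd_pow h4) with h5 | h5
      · exact e1 h5
      · exact e2' h5
  have hmkA : mk AB ^ 3 = ψ E := by
    rw [← map_pow, hAB, hE]
    simp only [dD, dN, LfE, map_mul, map_add, map_pow, hρr, pow_one, hψ]
  have ha0 : mk AB ≠ 0 := by
    intro h3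
    rw [h3, zero_pow (by norm_num)] at hmkA
    exact psi_ne D hEd hmkA.symm
  have hfinal : z ^ t.val = z ^ (sym ρ E).val := by
    have h3 := congrArg mk hφφ
    rw [D.fr, D.pow_Q hEd hmkA, map_mul, map_pow, D.ωz] at h3
    exact (mul_right_cancel₀ ha0 h3).symm
  have ht' : t = sym ρ E := D.pow_inj hfinal
  rw [ht', hE]
  have g1 : ¬ ρ ∣ LfE p q 2 r * LfE p' q' 1 r := fun h3 =>
    (hq.dvd_or_dvd h3).elim e2 e1'
  have g2 : ¬ ρ ∣ LfE p q 1 r * LfE p' q' 2 r := fun h3 =>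
    (hq.dvd_or_dvd h3).elim e1 e2'
  have g3 : ¬ ρ ∣ (LfE p q 1 r * LfE p' q' 2 r) ^ 2 := fun h3 =>
    g2 (hq.dvd_of_dvd_pow h3)
  rw [sym_mul hq D.h3 g1 g3, sym_mul hq D.h3 e2 e1', sym_pow hq D.h3 g2,
    sym_mul hq D.h3 e1 e2']
  unfold TAUP
  have h2z : ((2 : ℕ) : ZMod 3) = -1 := by decide
  rw [h2z]
  ring

end Main

/-- The element `z` is not zero and has a small norm. -/
def Sm (Q : ℕ) (z : Eis) : Prop := z ≠ 0 ∧ N z < Q

theorem N_eq {Q : ℕ} {ρ : Eis} (h : (Q : Eis) = ρ * conj ρ) : N ρ = Q := by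
  have h1 := mul_conj ρ
  rw [← h] at h1
  have h2 : ((Q : ℤ) : Eis) = ((ρ.norm : ℤ) : Eis) := by
    rw [Int.cast_natCast]
    exact h1
  have h3 : (Q : ℤ) = ρ.norm := by
    have h4 := congrArg Eis.re h2
    simpa using h4
  have h4 := N_cast ρ
  rw [← h3] at h4
  exact_mod_cast h4

theorem Sm.not_dvd {Q : ℕ} {ρ z : Eis} (h : Sm Q z) (hρ : (Q : Eis) = ρ * conj ρ) : ¬ ρ ∣ z := by
  rintro ⟨d, rfl⟩
  have hd : d ≠ 0 := by
    rintro rfl
    exact h.1 (mul_zero _)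
  have h1 := N_pos hd
  have h2 := h.2
  rw [N_mul, N_eq hρ] at h2
  nlinarith

end GFKU

open GFKU

theorem GFKU_thm (hSPP : SPP) (_hSCJ : SCJ) (hSPLT : SPLT) : Stmt_GFKU := by
  classical
  intro k x u P Q P' Q' f L _ _ ζ ι hS hG
  have hgal := hG.gal
  obtain ⟨κ, hκ⟩ := GFK.exists_lift ι
  let B : Fin k → ℕ := fun j => N (u j) + N (P j ^ 3 + x * Q j ^ 3) +
    N (P' j ^ 3 + x * Q' j ^ 3)
  refine ⟨N x + ∑ j, B j, fun n hn hnN hn3 I hI hnI φ hφ ρ hρ hsx hsu => ?_⟩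
  -- the elements with a small norm
  have hx0 : x ≠ 0 := by
    intro h0
    refine hS.ind 1 (fun _ => 0) (Or.inl (by norm_num)) ⟨0, ?_⟩
    rw [h0]
    simp
  have hu0 : ∀ j, u j ≠ 0 := by
    intro j h0
    refine hS.ind 0 (Pi.single j 1) (Or.inr ⟨j, by simp⟩) ⟨0, ?_⟩
    have h1 : ∏ i, u i ^ (Pi.single j 1 : Fin k → ℕ) i = 0 := by
      refine Finset.prod_eq_zero (Finset.mem_univ j) ?_
      rw [Pi.single_eq_same, pow_one, h0]
    rw [h1]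
    simp
  have hBj : ∀ j, B j < n := by
    intro j
    have h1 : B j ≤ ∑ i, B i :=
      Finset.single_le_sum (f := B) (fun _ _ => Nat.zero_le _) (Finset.mem_univ j)
    omega
  have sx : Sm n x := ⟨hx0, by omega⟩
  have su : ∀ j, Sm n (u j) := fun j => ⟨hu0 j, by have := hBj j; simp only [B] at this; omega⟩
  have s1 : ∀ j, Sm n (P j ^ 3 + x * Q j ^ 3) := fun j =>
    ⟨(hS.sol j).n1, by have := hBj j; simp only [B] at this; omega⟩
  have s2 : ∀ j, Sm n (P' j ^ 3 + x * Q' j ^ 3) := by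
    intro j
    refine ⟨?_, by have := hBj j; simp only [B] at this; omega⟩
    intro h0
    refine (hS.sol j).n1 ?_
    rw [(hS.sol j).eq, h0, mul_zero]
  -- the other prime
  obtain ⟨hna, ⟨ρ', hρ'⟩, hdv, -, hcj, -⟩ := hSPLT.2 n ρ hn hn3 hρ
  have hρ'n : (n : Eis) = ρ'.1 * conj ρ'.1 := by
    rw [hρ', conj_conj, mul_comm]
    exact hρ
  have hconj : ∀ a : Eis, Sm n a → sym ρ.1 a = 0 → (∃ t : Eis, a * conj a = t ^ 3) →
      sym ρ'.1 a = 0 := by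
    intro a ha hs ⟨t, ht⟩
    have hda := ha.not_dvd hρ
    have hda' := ha.not_dvd hρ'n
    have hdc : ¬ ρ.1 ∣ conj a := by
      intro h
      have h1 : conj ρ.1 ∣ a := by
        have h2 := map_dvd conj h
        rwa [conj_conj] at h2
      rw [hρ'] at hda'
      exact hda' h1
    have h3 := (hSPP.2.2.2.1 ρ).1
    have h4 : ¬ ρ.1 ∣ t := by
      intro h
      have h5 : ρ.1 ∣ a * conj a := by
        rw [ht]
        exact Dvd.dvd.pow h (by norm_num)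
      exact (ρ.2.1.dvd_or_dvd h5).elim hda hdc
    have h5 : sym ρ.1 (a * conj a) = 0 := by
      rw [ht, sym_pow ρ.2.1 h3 h4]
      have h6 : ((3 : ℕ) : ZMod 3) = 0 := by decide
      rw [h6, zero_mul]
    rw [sym_mul ρ.2.1 h3 hda hdc, hs, zero_add] at h5
    have h6 := hcj (conj a) hdc
    rw [conj_conj, h5, neg_zero] at h6
    rw [hρ']
    exact h6
  have hsx' := hconj x sx hsx hS.cx
  have hsu' : ∀ j, sym ρ'.1 (u j) = 0 := fun j => hconj (u j) (su j) (hsu j) (hS.cb j)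
  -- the statement for one prime ideal
  have main : ∀ (J : Ideal (𝓞 L)) (σ : L ≃ₐ[ℚ] L) (π : PP), J.IsPrime → (n : 𝓞 L) ∈ J →
      IsArithFrobAt ℤ σ J → (n : Eis) = π.1 * conj π.1 → κ π.1 ∈ J → sym π.1 x = 0 →
      (∀ j, sym π.1 (u j) = 0) →
      (σ (ι w) = ι w ∧ FxU x u ι σ) ∧ ∀ (j : Fin k) (r : Eis) (t : ZMod 3), π.1 ∣ r ^ 3 - x →
        IsTU x P Q P' Q' ι σ j t → t = TAUP π.1 (P j) (Q j) (P' j) (Q' j) r := by
    intro J σ π hJ hnJ hσ hπ hπJ hsx hsu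
    obtain ⟨F, _, mk, z, ψ, hψ, D⟩ := GFKU.exists_dat hSPLT hSPP hn hJ hnJ hn3 hσ κ hπ hπJ
    refine ⟨⟨fw D ι hκ, fun θ hθ => fix D hψ ι hκ (sx.not_dvd hπ) hsx hθ,
      fun j θ hθ => fix D hψ ι hκ ((su j).not_dvd hπ) (hsu j) hθ⟩, fun j r t hr ht => ?_⟩
    exact core D hψ ι hκ (sx.not_dvd hπ) hsx ((s1 j).not_dvd hπ) ((s2 j).not_dvd hπ) hr hG.rx
      (fun θ hθ => hG.A j θ hθ) (fun θ A h1 h2 => ht θ A ⟨h1, h2⟩)
  -- the conjugate prime ideal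
  have hcon : ∀ (c : L ≃ₐ[ℚ] L), c (ι w) = ι w ^ 2 → ∀ a : Eis, κ (conj a) ∈ I →
      κ a ∈ c • I := by
    intro c hc a ha
    have h1 : c • (κ (conj a)) = κ a := by
      apply RingOfIntegers.coe_injective
      change c ((κ (conj a) : 𝓞 L) : L) = ((κ a : 𝓞 L) : L)
      rw [hκ, hκ, GFK.hom_eq ι (conj a)]
      have h2 := GFK.hom_eq (ι.comp conj) (conj a)
      rw [RingHom.comp_apply, RingHom.comp_apply, conj_conj, conj_w, map_pow] at h2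
      rw [map_add, map_mul, map_intCast, map_intCast, hc]
      exact h2.symm
    rw [← h1]
    exact Ideal.smul_mem_pointwise_smul c _ I ha
  have hP : ∀ (c : L ≃ₐ[ℚ] L), (c • I).IsPrime ∧ (n : 𝓞 L) ∈ c • I := by
    intro c
    refine ⟨inferInstance, ?_⟩
    have h1 : c • (n : 𝓞 L) = (n : 𝓞 L) := by
      apply RingOfIntegers.coe_injective
      have h7 : ((n : 𝓞 L) : L) = (n : L) := map_natCast (algebraMap (𝓞 L) L) n
      change c (((n : 𝓞 L)) : L) = (((n : 𝓞 L)) : L)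
      rw [h7, map_natCast]
    rw [← h1]
    exact Ideal.smul_mem_pointwise_smul c _ I hnI
  have hmem : κ ρ.1 ∈ I ∨ κ ρ'.1 ∈ I := by
    refine hI.mem_or_mem ?_
    rw [← map_mul, hρ', ← hρ, map_natCast]
    exact hnI
  rcases hmem with hm | hm
  · obtain ⟨⟨a1, a2⟩, a3⟩ := main I φ ρ hI hnI hφ hρ hm hsx hsu
    refine ⟨a1, a2, fun c hc j r r' t t' hr hr' ht ht' => ?_⟩
    have hm' : κ ρ'.1 ∈ c • I := hcon c hc _ (by rw [hρ', conj_conj]; exact hm)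
    obtain ⟨-, b3⟩ := main (c • I) (c * φ * c⁻¹) ρ' (hP c).1 (hP c).2 (hφ.conj c) hρ'n hm'
      hsx' hsu'
    rw [← hρ'] at hr' ⊢
    rw [a3 j r t hr ht, b3 j r' t' hr' ht']
  · obtain ⟨⟨a1, a2⟩, a3⟩ := main I φ ρ' hI hnI hφ hρ'n hm hsx' hsu'
    refine ⟨a1, a2, fun c hc j r r' t t' hr hr' ht ht' => ?_⟩
    have hm' : κ ρ.1 ∈ c • I := hcon c hc _ (by rw [← hρ']; exact hm)
    obtain ⟨-, b3⟩ := main (c • I) (c * φ * c⁻¹) ρ (hP c).1 (hP c).2 (hφ.conj c) hρ hm'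
      hsx hsu
    rw [← hρ'] at hr' ⊢
    rw [a3 j r' t hr' ht, b3 j r t' hr ht', add_comm]

end Pool.Agent.PTK
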