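import Pool.Agent.PTK.StJ
import Pool.Agent.PTK.GTK

/-!
# GTU (helper9): existence, uniqueness and properties of `t` for `Q = 1 (mod 3)`
-/

set_option autoImplicit false
set_option linter.unusedSectionVars false

open NumberField IsDedekindDomain Finset
open scoped nonZeroDivisors Pointwise

namespace Pool.Agent.PTK

open Pool.Agent.Lib_helper18 Pool.Agent.Lib_helper18.Eis Pool.Agent.Lib_helper84.Cub
open Pool.Agent.PT Pool.Agent.PTE Pool.Agent.PT3 Pool.Agent.PTL Pool.Agent.PTN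

namespace GTU

open Pool.Agent.PT.GT (E E_pow E_add E_zero E_inj of_cube map_ω cube_one ω_ne_zero E_ne_zero map_E')
open GTK (rel ι_eq fix_ι map_aD map_aN)

variable {L : Type} [Field L] [NumberField L] {ι : Eis →+* L}

/-- An automorphism with `σ ω = ω²` acts on the image of `Z[w]` as the conjugation. -/
theorem conj_ι {h : L ≃ₐ[ℚ] L} (hh : h (ι w) = ι w ^ 2) (a : Eis) : h (ι a) = ι (conj a) := by
  rw [ι_eq ι a, ι_eq ι (conj a), map_add, map_mul, map_intCast, map_intCast, hh, conj_re, conj_im]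
  push_cast
  linear_combination (a.im : L) * rel ι

theorem inv_ω {τ : L ≃ₐ[ℚ] L} (hτ : τ (ι w) = ι w) : τ⁻¹ (ι w) = ι w := by
  have h5 : τ⁻¹ (τ (ι w)) = ι w := τ.symm_apply_apply _
  rwa [hτ] at h5

theorem inv_ω2 {τ : L ≃ₐ[ℚ] L} (hτ : τ (ι w) = ι w ^ 2) : τ⁻¹ (ι w) = ι w ^ 2 := by
  have h3 := cube_one (rel ι)
  have h5 : τ⁻¹ (τ (ι w ^ 2)) = ι w ^ 2 := τ.symm_apply_apply _
  have h6 : τ (ι w ^ 2) = ι w := by
    rw [map_pow, hτ]
    linear_combination (ι w) * h3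
  rwa [h6] at h5

/-- `g` fixes the conjugates of the roots of `z`. -/
theorem fix_root {g τ : L ≃ₐ[ℚ] L} (hg : g (ι w) = ι w) {z : Eis}
    (hz : ∃ T : Eis, z * conj z = T ^ 3) (hfix : ∀ ρ : L, ρ ^ 3 = ι z → g ρ = ρ) {ρ : L}
    (hρ : ρ ^ 3 = ι z) : g (τ⁻¹ ρ) = τ⁻¹ ρ := by
  have r := rel ι
  rcases map_ω r τ with hτ | hτ
  · exact hfix _ (by rw [← map_pow, hρ, fix_ι (inv_ω hτ)])
  · obtain ⟨T, hT⟩ := hz
    by_cases h0 : ρ = 0
    · rw [h0, map_zero, map_zero]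
    · have h1 : (τ⁻¹ ρ * ρ) ^ 3 = (ι T) ^ 3 := by
        rw [mul_pow, ← map_pow, hρ, conj_ι (inv_ω2 hτ), ← map_mul, ← map_pow, ← hT, mul_comm]
      obtain ⟨k, hk⟩ := of_cube r h1
      have h2 : g (τ⁻¹ ρ * ρ) = τ⁻¹ ρ * ρ := by
        rw [hk, map_mul, map_E' hg, fix_ι hg]
      rw [map_mul, hfix ρ hρ] at h2
      exact mul_right_cancel₀ h0 h2

end GTU

open GTU in
open GTK (rel fix_ι map_aD map_aN step) in
open Pool.Agent.PT.GT (E E_pow E_add E_zero E_inj of_cube map_ω cube_one ω_ne_zero E_ne_zero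
  map_E') in
/-- GTU: existence, uniqueness and properties of `t`. -/
theorem GTU_thm : Stmt_GTU := by
  intro k x u P Q P' Q' f L _ _ ζ ι hS hG
  have r := rel ι
  have h3 := cube_one r
  refine ⟨?_, ?_, ?_⟩
  · intro g τ hg hF
    have hττ : ∀ y : L, τ (τ⁻¹ y) = y := fun y => τ.apply_symm_apply y
    refine ⟨?_, ?_⟩
    · intro ρ hρ
      change τ (g (τ⁻¹ ρ)) = ρ
      rw [fix_root hg hS.cx hF.1 hρ, hττ]
    · intro j ρ hρ
      change τ (g (τ⁻¹ ρ)) = ρ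
      rw [fix_root hg (hS.cb j) (hF.2 j) hρ, hττ]
  · intro g l hF
    have hfix : ∀ y : L, g y = y → (g ^ l) y = y := by
      intro y hy
      induction l with
      | zero => rfl
      | succ n ih =>
        rw [pow_succ']
        change g ((g ^ n) y) = y
        rw [ih, hy]
    exact ⟨fun ρ hρ => hfix _ (hF.1 ρ hρ), fun j ρ hρ => hfix _ (hF.2 j ρ hρ)⟩
  intro j
  have hA0 : ∀ (ρ A : L), ρ ^ 3 = ι x →
      A ^ 3 * aDE ι (P j) (Q j) (P' j) (Q' j) ρ = aNE ι (P j) (Q j) (P' j) (Q' j) ρ → A ≠ 0 := by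
    rintro ρ A hρ hA rfl
    apply (hG.D j ρ hρ).2
    rw [← hA]
    ring
  -- one witness is enough
  have all : ∀ (h : L ≃ₐ[ℚ] L) (t : ZMod 3) (ρ₀ A₀ : L), h (ι w) = ι w →
      (∀ ρ : L, ρ ^ 3 = ι x → h ρ = ρ) → (∀ θ : L, θ ^ 3 = ι (u j) → h θ = θ) →
      ρ₀ ^ 3 = ι x →
      A₀ ^ 3 * aDE ι (P j) (Q j) (P' j) (Q' j) ρ₀ = aNE ι (P j) (Q j) (P' j) (Q' j) ρ₀ →
      h A₀ = E (ι w) t * A₀ → ∀ ρ A : L, ρ ^ 3 = ι x →
      A ^ 3 * aDE ι (P j) (Q j) (P' j) (Q' j) ρ = aNE ι (P j) (Q j) (P' j) (Q' j) ρ →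
      h A = E (ι w) t * A := by
    intro h t ρ₀ A₀ hh hx hb hρ₀ hA₀ ht
    have hpow : ∀ n : ℕ, (ι w ^ n * ρ₀) ^ 3 = ι x := by
      intro n
      rw [mul_pow, hρ₀, ← pow_mul, mul_comm n 3, pow_mul, h3, one_pow, one_mul]
    have key : ∀ n : ℕ, ∀ A : L,
        A ^ 3 * aDE ι (P j) (Q j) (P' j) (Q' j) (ι w ^ n * ρ₀) =
          aNE ι (P j) (Q j) (P' j) (Q' j) (ι w ^ n * ρ₀) → h A = E (ι w) t * A := by
      intro n
      induction n with
      | zero =>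
        intro A hA
        rw [pow_zero, one_mul] at hA
        have hD := (hG.D j ρ₀ hρ₀).1
        have e2 : A ^ 3 = A₀ ^ 3 := mul_right_cancel₀ hD (hA.trans hA₀.symm)
        obtain ⟨k, hk⟩ := of_cube r e2
        rw [hk, map_mul, map_E' hh, ht]
        ring
      | succ n ih =>
        intro A' hA'
        obtain ⟨A, hA⟩ := hG.A j _ (hpow n)
        have e1 : ι w ^ (n + 1) * ρ₀ = ι w * (ι w ^ n * ρ₀) := by rw [pow_succ]; ring
        have hD' := (hG.D j _ (hpow (n + 1))).1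
        rw [e1] at hA' hD'
        exact step hh (hS.sol j) hb (hpow n) (hx _ (hpow n)) (hG.D j _ (hpow n)).1
          (hG.D j _ (hpow n)).2 hD' hA hA' (ih A hA)
    intro ρ A hρ hA
    obtain ⟨k, hk⟩ := of_cube r (hρ.trans hρ₀.symm)
    rw [hk] at hA
    exact key k.val A hA
  obtain ⟨ρ₀, hρ₀⟩ := hG.rx
  obtain ⟨A₀, hA₀⟩ := hG.A j ρ₀ hρ₀
  have hA₀0 := hA0 ρ₀ A₀ hρ₀ hA₀
  refine ⟨?_, ?_, ?_⟩
  · intro g hg hF
    have e1 := congrArg g hA₀
    rw [map_mul, map_pow, map_aD hg, map_aN hg, hF.1 ρ₀ hρ₀] at e1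
    have e2 : (g A₀) ^ 3 = A₀ ^ 3 :=
      mul_right_cancel₀ (hG.D j ρ₀ hρ₀).1 (e1.trans hA₀.symm)
    obtain ⟨t, ht⟩ := of_cube r e2
    refine ⟨t, ?_, ?_⟩
    · intro ρ A hPA
      exact all g t ρ₀ A₀ hg hF.1 (hF.2 j) hρ₀ hA₀ ht ρ A hPA.1 hPA.2
    · intro t' ht'
      have h5 : g A₀ = E (ι w) t' * A₀ := ht' ρ₀ A₀ ⟨hρ₀, hA₀⟩
      rw [ht] at h5
      exact (E_inj r (mul_right_cancel₀ hA₀0 h5)).symm
  · intro g τ t hg hF hτ hT
    have hτ' := inv_ω hτ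
    have hττ : ∀ y : L, τ (τ⁻¹ y) = y := fun y => τ.apply_symm_apply y
    intro ρ A hPA
    obtain ⟨hρ, hA⟩ := hPA
    have e1 := congrArg (τ⁻¹ : L ≃ₐ[ℚ] L) hA
    rw [map_mul, map_pow, map_aD hτ', map_aN hτ'] at e1
    change τ (g (τ⁻¹ A)) = _
    rw [hT (τ⁻¹ ρ) (τ⁻¹ A) ⟨by rw [← map_pow, hρ, fix_ι hτ'], e1⟩, map_mul, map_pow, hτ, hττ]
  · intro g t l hg hT ρ A hPA
    have h5 : ∀ n : ℕ, (g ^ n) A = E (ι w) ((n : ZMod 3) * t) * A := by
      intro n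
      induction n with
      | zero =>
        rw [Nat.cast_zero, zero_mul, E_zero, one_mul]
        rfl
      | succ n ih =>
        rw [pow_succ']
        change g ((g ^ n) A) = _
        rw [ih, map_mul, map_E' hg]
        have h6 : g A = E (ι w) t * A := hT ρ A hPA
        rw [h6, Nat.cast_succ, add_mul, one_mul, E_add r]
        ring
    exact h5 l

end Pool.Agent.PTK
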