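import Pool.Agent.PTK.StJ
import Pool.Agent.PTN.GALDU
import Pool.Agent.PTK.GAK

/-!
# The joint governing field: summary for `Q = 1 (mod 3)`, generic pattern
-/

set_option autoImplicit false

open NumberField IsDedekindDomain Finset
open scoped nonZeroDivisors Pointwise

namespace Pool.Agent.PTK

open Pool.Agent.Lib_helper18 Pool.Agent.Lib_helper18.Eis Pool.Agent.Lib_helper84.Cub
open Pool.Agent.PT Pool.Agent.PTE Pool.Agent.PT3 Pool.Agent.PTL Pool.Agent.PTN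
open Pool.Agent.PT.GALD Pool.Agent.PTE.GALDS

namespace JAU

variable {L : Type} [Field L] [NumberField L]

theorem inv_sq {ι : Eis →+* L} {τ : L ≃ₐ[ℚ] L} (hτ : τ (ι w) = ι w ^ 2) :
    τ⁻¹ (ι w) = ι w ^ 2 := by
  have h1 : τ (ι w ^ 2) = ι w := by rw [map_pow, hτ, GAK.om4]
  conv_lhs => rw [← h1]
  rw [← AlgEquiv.mul_apply, inv_mul_cancel]
  rfl

theorem conj_om {ι : Eis →+* L} {g : L ≃ₐ[ℚ] L} (hg : g (ι w) = ι w) (τ : L ≃ₐ[ℚ] L) :
    (τ * g * τ⁻¹) (ι w) = ι w := by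
  rcases GAK.cases_om ι τ with hτ | hτ
  · rw [AlgEquiv.mul_apply, AlgEquiv.mul_apply, GAK.inv_fix hτ, hg, hτ]
  · rw [AlgEquiv.mul_apply, AlgEquiv.mul_apply, inv_sq hτ, map_pow, hg, map_pow, hτ, GAK.om4]

theorem mul_om {ι : Eis →+* L} {g h : L ≃ₐ[ℚ] L} (hg : g (ι w) = ι w ^ 2)
    (hh : h (ι w) = ι w ^ 2) : (g * h) (ι w) = ι w := by
  rw [AlgEquiv.mul_apply, hh, map_pow, hg, GAK.om4]

theorem pow_fix {g : L ≃ₐ[ℚ] L} {y : L} (h : g y = y) (l : ℕ) : (g ^ l) y = y := by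
  induction l with
  | zero => rfl
  | succ l ih => rw [pow_succ, AlgEquiv.mul_apply, h, ih]

theorem neg_val : ∀ a c : ZMod 3, (2 * (-a).val + c.val) % 3 = (c + a).val % 3 := by decide

theorem two_mul_two : ∀ a : ZMod 3, 2 * a + 2 * a = a := by decide

end JAU

theorem JAU_thm (hJZ : Stmt_JZ) (hGCHI : GCHI) (hGTS : GTS) (hGKUM : GKUM)
    (hGFRU : Stmt_GFRU) (hGTU : Stmt_GTU) (hGFKU : Stmt_GFKU) (hJC1 : Stmt_JC1)
    (hJC2 : Stmt_JC2) : Stmt_JAU := by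
  classical
  intro s b p q p' q' k x u P Q P' Q' f hSys hSysK hf h9
  obtain ⟨L, hF, hN, ζ, ι, hJ⟩ := hJZ (s + 1) k b p q p' q' x u P Q P' Q' f hSys hSysK hf h9
  have hG := hJ.plus
  have hGK := hJ.minus
  have hgal := hG.gal
  obtain ⟨χ, hχs, hχζ, hχF⟩ := hGCHI L f ζ hf hG.prim
  obtain ⟨N₁, hFr⟩ := hGFRU s b p q p' q' f L ζ (ι w) hSys hG
  obtain ⟨N₂, hFrK⟩ := hGFKU k x u P Q P' Q' f L ζ ι hSysK hGK
  have hω3 : ι w ^ 3 = 1 := om_cube hG.rel
  have hf1 : 1 < f := by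
    obtain ⟨c, hc⟩ := h9
    omega
  have h3f : 3 ∣ f := (by norm_num : (3 : ℕ) ∣ 9).trans h9
  have hfz : NeZero f := ⟨hf.ne'⟩
  obtain ⟨hT1, hT⟩ := hGTS s b p q p' q' f L ζ (ι w) hSys hG
  obtain ⟨hU1, hU2, hU⟩ := hGTU k x u P Q P' Q' f L ζ ι hSysK hGK
  -- action on ω
  have hωχ : ∀ g : L ≃ₐ[ℚ] L, g (ι w) = ι w ^ ((χ g : ZMod f)).val := by
    intro g
    rw [hG.hω, map_pow, hχζ g, ← pow_mul, mul_comm, pow_mul, ← hG.hω]
  have hM : ∀ g : L ≃ₐ[ℚ] L, M1 (χ g) → g (ι w) = ι w := by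
    intro g hg
    rw [hωχ g]
    conv_rhs => rw [← pow_one (ι w)]
    apply om_congr hω3
    unfold M1 at hg
    omega
  -- an automorphism with `c ω = ω²`
  obtain ⟨c, hc⟩ : ∃ c : L ≃ₐ[ℚ] L, c (ι w) = ι w ^ 2 := by
    have h1 : (f - 1).Coprime f := by
      have h2 : (f - 1).Coprime (f - 1 + 1) := by simp
      rwa [Nat.sub_add_cancel hf] at h2
    obtain ⟨c, hc⟩ := hχs (ZMod.unitOfCoprime (f - 1) h1)
    refine ⟨c, ?_⟩
    rw [hωχ c, hc, ZMod.coe_unitOfCoprime, ZMod.val_natCast, Nat.mod_eq_of_lt (by omega)]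
    apply om_congr hω3
    omega
  have hc' : c⁻¹ (ι w) = ι w ^ 2 := JAU.inv_sq hc
  have hb0 : ∀ j, b j ≠ 0 := by
    intro j h0
    refine hSys.ind (Pi.single j 1) ⟨j, by simp⟩ ⟨0, ?_⟩
    have h1 : ∏ i, b i ^ (Pi.single j 1 : Fin (s + 1) → ℕ) i = 0 := by
      refine Finset.prod_eq_zero (Finset.mem_univ j) ?_
      rw [Pi.single_eq_same, pow_one, h0]
    rw [h1]
    norm_num
  have hz1 : ∀ z : L ≃ₐ[ℚ] L, z ζ = ζ → z (ι w) = ι w ∧ χ z = 1 := by
    intro z hzζ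
    refine ⟨by rw [hG.hω, map_pow, hzζ], ?_⟩
    have h1 := hχζ z
    rw [hzζ] at h1
    have h2 : ((χ z : ZMod f)).val = 1 := by
      apply hG.prim.pow_inj (ZMod.val_lt _) hf1
      rw [← h1, pow_one]
    apply Units.ext
    have h3 := ZMod.natCast_zmod_val (χ z : ZMod f)
    rw [h2] at h3
    rw [← h3]
    simp
  let t : (L ≃ₐ[ℚ] L) → Fin s → Fin s → ZMod 3 := fun g j i =>
    if h : j ≠ i ∧ g (ι w) = ι w ∧ Fx b g then ((hT j i h.1).1 g h.2.1 h.2.2).choose else 0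
  have ht : ∀ (g : L ≃ₐ[ℚ] L) (j i : Fin s), j ≠ i → g (ι w) = ι w → Fx b g →
      IsTS b p q p' q' (ι w) g j.castSucc i.castSucc (t g j i) := by
    intro g j i hji hg hF
    have h : j ≠ i ∧ g (ι w) = ι w ∧ Fx b g := ⟨hji, hg, hF⟩
    have e : t g j i = ((hT j i h.1).1 g h.2.1 h.2.2).choose := dif_pos h
    rw [e]
    exact ((hT j i h.1).1 g h.2.1 h.2.2).choose_spec.1
  have htu : ∀ (g : L ≃ₐ[ℚ] L) (j i : Fin s) (c : ZMod 3), j ≠ i → g (ι w) = ι w → Fx b g →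
      IsTS b p q p' q' (ι w) g j.castSucc i.castSucc c → t g j i = c := by
    intro g j i c hji hg hF hc
    exact ((hT j i hji).1 g hg hF).unique (ht g j i hji hg hF) hc
  -- the minus part
  let F₂ : (L ≃ₐ[ℚ] L) → Prop := fun g => g (ι w) = ι w ∧ FxU x u ι g
  let t₂ : (L ≃ₐ[ℚ] L) → Fin k → ZMod 3 := fun g j =>
    if h : F₂ g then ((hU j).1 g h.1 h.2).choose else 0
  have ht₂ : ∀ (g : L ≃ₐ[ℚ] L) (j : Fin k), F₂ g → IsTU x P Q P' Q' ι g j (t₂ g j) := by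
    intro g j h
    have e : t₂ g j = ((hU j).1 g h.1 h.2).choose := dif_pos h
    rw [e]
    exact ((hU j).1 g h.1 h.2).choose_spec.1
  have htu₂ : ∀ (g : L ≃ₐ[ℚ] L) (j : Fin k) (c : ZMod 3), F₂ g →
      IsTU x P Q P' Q' ι g j c → t₂ g j = c := by
    intro g j c h hc
    exact ((hU j).1 g h.1 h.2).unique (ht₂ g j h) hc
  have hF₂c : ∀ g τ : L ≃ₐ[ℚ] L, F₂ g → F₂ (τ * g * τ⁻¹) := fun g τ h =>
    ⟨JAU.conj_om h.1 τ, hU1 g τ h.1 h.2⟩
  have htc : ∀ (g τ : L ≃ₐ[ℚ] L) (j : Fin k), F₂ g → τ (ι w) = ι w →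
      t₂ (τ * g * τ⁻¹) j = t₂ g j := by
    intro g τ j hg hτ
    exact htu₂ _ _ _ (hF₂c g τ hg) ((hU j).2.1 g τ _ hg.1 hg.2 hτ (ht₂ g j hg))
  let T : (L ≃ₐ[ℚ] L) → Fin k → ZMod 3 := fun g j => t₂ g j + t₂ (c * g * c⁻¹) j
  refine ⟨L, hF, hN, hG.gal, χ, Fx b, t, F₂, T, max N₁ N₂, hχs, ?_, ?_, ?_, ?_, ?_, ?_, ?_⟩
  · intro g τ hg hFg
    obtain ⟨_, h1, _⟩ := hT1 g (hM g hg) hFg
    obtain ⟨h2, h3⟩ := h1 τ
    refine ⟨h3, fun j i hji => ?_⟩
    exact htu _ _ _ _ hji h2 h3 ((hT j i hji).2.1 g τ _ (hM g hg) hFg (ht g j i hji (hM g hg) hFg))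
  · intro g l hg hFg hl
    obtain ⟨_, _, h1⟩ := hT1 g (hM g hg) hFg
    obtain ⟨h2, h3⟩ := h1 l
    refine ⟨h3 hl, fun j i hji => ?_⟩
    exact htu _ _ _ _ hji h2 (h3 hl) ((hT j i hji).2.2 g _ l (hM g hg)
      (ht g j i hji (hM g hg) hFg))
  · intro g τ _ hg
    refine ⟨hF₂c g τ hg, funext fun j => ?_⟩
    show t₂ (τ * g * τ⁻¹) j + t₂ (c * (τ * g * τ⁻¹) * c⁻¹) j = t₂ g j + t₂ (c * g * c⁻¹) j
    rcases GAK.cases_om ι τ with hτ | hτ
    · rw [htc g τ j hg hτ]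
      have e : c * (τ * g * τ⁻¹) * c⁻¹ = (c * τ * c⁻¹) * (c * g * c⁻¹) * (c * τ * c⁻¹)⁻¹ := by
        group
      rw [e, htc (c * g * c⁻¹) (c * τ * c⁻¹) j (hF₂c g c hg) (JAU.conj_om hτ c)]
    · have e1 : τ * g * τ⁻¹ = (τ * c⁻¹) * (c * g * c⁻¹) * (τ * c⁻¹)⁻¹ := by group
      have e2 : c * (τ * g * τ⁻¹) * c⁻¹ = (c * τ) * g * (c * τ)⁻¹ := by group
      rw [e2, htc g (c * τ) j hg (JAU.mul_om hc hτ), e1,
        htc (c * g * c⁻¹) (τ * c⁻¹) j (hF₂c g c hg) (JAU.mul_om hτ hc')]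
      ring
  · intro g l _ hg
    have hpow : ∀ (g : L ≃ₐ[ℚ] L), F₂ g → F₂ (g ^ l) := by
      intro g hg
      exact ⟨JAU.pow_fix hg.1 l, hU2 g l hg.2⟩
    have ht' : ∀ (g : L ≃ₐ[ℚ] L), F₂ g → ∀ j, t₂ (g ^ l) j = l * t₂ g j := by
      intro g hg j
      exact htu₂ _ _ _ (hpow g hg) ((hU j).2.2 g _ l hg.1 (ht₂ g j hg))
    refine ⟨hpow g hg, funext fun j => ?_⟩
    show t₂ (g ^ l) j + t₂ (c * g ^ l * c⁻¹) j = (l : ZMod 3) * (t₂ g j + t₂ (c * g * c⁻¹) j)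
    have e : c * g ^ l * c⁻¹ = (c * g * c⁻¹) ^ l := by rw [conj_pow]
    rw [e, ht' g hg j, ht' _ (hF₂c g c hg) j]
    ring
  · intro a v v' y y' ha
    obtain ⟨z₁, hz₁, hz₁P, hz₁M⟩ := hJC1 (s + 1) k b p q p' q' x u P Q P' Q' f L ζ ι hSys hSysK
      hJ (fun j => 2 * (y' j - y j))
    obtain ⟨z₂, hz₂, hz₂P, hz₂M⟩ := hJC2 (s + 1) k b p q p' q' x u P Q P' Q' f L ζ ι hSys hSysK
      hJ (fun j i => if h : j ≠ Fin.last s ∧ i ≠ Fin.last s then
        v' (j.castPred h.1) (i.castPred h.2) - v (j.castPred h.1) (i.castPred h.2) else 0)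
    obtain ⟨hz₁ω, hχz₁⟩ := hz1 z₁ hz₁.ze
    obtain ⟨hz₂ω, hχz₂⟩ := hz1 z₂ hz₂.ze
    set z := z₁ * z₂ with hz
    have hzω : z (ι w) = ι w := by rw [hz, AlgEquiv.mul_apply, hz₂ω, hz₁ω]
    have hχz : χ z = 1 := by rw [hz, map_mul, hχz₁, hχz₂, mul_one]
    have hzρ : ∀ (j : Fin (s + 1)) (ρ : L), ρ ^ 3 = (b j : L) → z ρ = ρ := by
      intro j ρ hρ
      rw [hz, AlgEquiv.mul_apply, hz₂.rb j ρ hρ, hz₁.rb j ρ hρ]
    have hzx : ∀ ρ : L, ρ ^ 3 = ι x → z ρ = ρ := by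
      intro ρ hρ
      rw [hz, AlgEquiv.mul_apply, hz₂.rx ρ hρ, hz₁.rx ρ hρ]
    have hzu : ∀ (j : Fin k) (ρ : L), ρ ^ 3 = ι (u j) → z ρ = ρ := by
      intro j ρ hρ
      rw [hz, AlgEquiv.mul_apply, hz₂.ru j ρ hρ, hz₁.ru j ρ hρ]
    have hFz : ∀ g : L ≃ₐ[ℚ] L, Fx b (g * z) ↔ Fx b g := by
      intro g
      have h1 : ∀ (j : Fin (s + 1)) (ρ : L), ρ ^ 3 = (b j : L) → (g * z) ρ = g ρ := by
        intro j ρ hρ
        rw [AlgEquiv.mul_apply, hzρ j ρ hρ]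
      unfold Fx
      constructor
      · rintro ⟨h2, h3⟩
        exact ⟨fun j ρ hρ => by rw [← h1 _ ρ hρ]; exact h2 j ρ hρ,
          fun ρ hρ => by rw [← h1 _ ρ hρ]; exact h3 ρ hρ⟩
      · rintro ⟨h2, h3⟩
        exact ⟨fun j ρ hρ => by rw [h1 _ ρ hρ]; exact h2 j ρ hρ,
          fun ρ hρ => by rw [h1 _ ρ hρ]; exact h3 ρ hρ⟩
    have hF₂z : ∀ g : L ≃ₐ[ℚ] L, F₂ (g * z) ↔ F₂ g := by
      intro g
      have h1 : ∀ ρ : L, ρ ^ 3 = ι x → (g * z) ρ = g ρ := by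
        intro ρ hρ
        rw [AlgEquiv.mul_apply, hzx ρ hρ]
      have h2 : ∀ (j : Fin k) (ρ : L), ρ ^ 3 = ι (u j) → (g * z) ρ = g ρ := by
        intro j ρ hρ
        rw [AlgEquiv.mul_apply, hzu j ρ hρ]
      have h3 : (g * z) (ι w) = g (ι w) := by rw [AlgEquiv.mul_apply, hzω]
      show ((g * z) (ι w) = ι w ∧ FxU x u ι (g * z)) ↔ (g (ι w) = ι w ∧ FxU x u ι g)
      rw [h3]
      unfold FxU
      constructor
      · rintro ⟨h4, h5, h6⟩
        exact ⟨h4, fun ρ hρ => by rw [← h1 ρ hρ]; exact h5 ρ hρ,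
          fun j ρ hρ => by rw [← h2 j ρ hρ]; exact h6 j ρ hρ⟩
      · rintro ⟨h4, h5, h6⟩
        exact ⟨h4, fun ρ hρ => by rw [h1 ρ hρ]; exact h5 ρ hρ,
          fun j ρ hρ => by rw [h2 j ρ hρ]; exact h6 j ρ hρ⟩
    have key : ∀ g : L ≃ₐ[ℚ] L, g (ι w) = ι w → Fx b g → ∀ j i, j < i →
        t (g * z) j i = (v' j i - v j i) + t g j i := by
      intro g hg hFg j i hji
      have hgz : (g * z) (ι w) = ι w := by rw [AlgEquiv.mul_apply, hzω, hg]
      apply htu _ _ _ _ hji.ne hgz ((hFz g).2 hFg)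
      intro ρ A hρ hA
      have h1 := ht g j i hji.ne hg hFg ρ A hρ hA
      have hlt : j.castSucc < i.castSucc := Fin.castSucc_lt_castSucc_iff.2 hji
      have h2 := hz₂P j.castSucc i.castSucc ρ A hlt ⟨hρ, hA⟩
      have h2' := hz₁P j.castSucc i.castSucc ρ A hlt.ne ⟨hρ, hA⟩
      have h3 : j.castSucc ≠ Fin.last s ∧ i.castSucc ≠ Fin.last s :=
        ⟨(Fin.castSucc_lt_last j).ne, (Fin.castSucc_lt_last i).ne⟩
      simp only [dif_pos h3, Fin.castPred_castSucc] at h2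
      rw [AlgEquiv.mul_apply, hz, AlgEquiv.mul_apply, h2, map_mul, map_pow, hz₁ω, h2', map_mul,
        map_pow, hg, h1, ← mul_assoc, om_add hω3]
    have key₂ : ∀ g : L ≃ₐ[ℚ] L, F₂ g → T (g * z) = T g + (y' - y) := by
      intro g hg
      funext j
      have hgz : F₂ (g * z) := (hF₂z g).2 hg
      have e1 : t₂ (g * z) j = 2 * (y' j - y j) + t₂ g j := by
        apply htu₂ _ _ _ hgz
        intro ρ A hA
        have h1 := ht₂ g j hg ρ A hA
        rw [AlgEquiv.mul_apply, hz, AlgEquiv.mul_apply, (hz₂M j ρ A hA).1, (hz₁M j ρ A hA).1,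
          map_mul, map_pow, hg.1, h1, ← mul_assoc, om_add hω3]
      have e2 : t₂ (c * (g * z) * c⁻¹) j = t₂ (c * g * c⁻¹) j + 2 * (y' j - y j) := by
        apply htu₂ _ _ _ (hF₂c _ c hgz)
        intro ρ A hA
        have h1 := ht₂ (c * g * c⁻¹) j (hF₂c g c hg) ρ A hA
        have h2 : (c * (g * z) * c⁻¹) A = c (g (z₁ (z₂ (c⁻¹ A)))) := by
          rw [hz]
          rfl
        have h3 : (c * g * c⁻¹) A = c (g (c⁻¹ A)) := rfl
        rw [h3] at h1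
        rw [h2, (hz₂M j ρ A hA).2 c⁻¹ hc', (hz₁M j ρ A hA).2 c⁻¹ hc', map_mul, map_pow, hg.1,
          map_mul, map_pow, hc, h1, ← mul_assoc, ← pow_mul, ← pow_add]
        congr 1
        apply om_congr hω3
        exact JAU.neg_val _ _
      show t₂ (g * z) j + t₂ (c * (g * z) * c⁻¹) j =
        t₂ g j + t₂ (c * g * c⁻¹) j + (y' j - y j)
      rw [e1, e2]
      have e3 := JAU.two_mul_two (y' j - y j)
      linear_combination e3
    apply Nat.card_congr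
    refine Equiv.subtypeEquiv (Equiv.mulRight z) ?_
    intro g
    have hχ : χ (g * z) = χ g := by rw [map_mul, hχz, mul_one]
    show (χ g = a ∧ Fx b g ∧ F₂ g ∧ T g = y ∧ ∀ j i, j < i → t g j i = v j i) ↔
      (χ (g * z) = a ∧ Fx b (g * z) ∧ F₂ (g * z) ∧ T (g * z) = y' ∧
        ∀ j i, j < i → t (g * z) j i = v' j i)
    rw [hχ, hFz g, hF₂z g]
    constructor
    · rintro ⟨h1, h2, h3, h4, h5⟩
      refine ⟨h1, h2, h3, ?_, fun j i hji => ?_⟩
      · rw [key₂ g h3, h4]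
        abel
      · rw [key g (hM g (by rw [h1]; exact ha)) h2 j i hji, h5 j i hji]
        ring
    · rintro ⟨h1, h2, h3, h4, h5⟩
      refine ⟨h1, h2, h3, ?_, fun j i hji => ?_⟩
      · rw [key₂ g h3] at h4
        funext j
        have h6 := congrFun h4 j
        simp only [Pi.add_apply, Pi.sub_apply] at h6
        linear_combination h6
      · have h6 := h5 j i hji
        rw [key g (hM g (by rw [h1]; exact ha)) h2 j i hji] at h6
        linear_combination h6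
  · intro a ha
    choose θ hθ using hG.root
    have hθ0 : ∀ j, θ j ≠ 0 := by
      intro j h0
      have h1 := hθ j
      rw [h0] at h1
      apply hb0 j
      have h2 : ((b j : ℤ) : L) = 0 := by rw [← h1]; norm_num
      exact_mod_cast h2
    have hex : ∀ (g : L ≃ₐ[ℚ] L) (j : Fin (s + 1)), ∃ u : ZMod 3,
        g (θ j) = ι w ^ u.val * θ j := by
      intro g j
      apply cube_root hG.rel
      rw [← map_pow, hθ j, map_intCast]
    choose uu huu using hex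
    have huniq : ∀ (g : L ≃ₐ[ℚ] L) (j : Fin (s + 1)) (u : ZMod 3),
        g (θ j) = ι w ^ u.val * θ j → uu g j = u := by
      intro g j u h
      apply om_zmod_inj hG.rel (hθ0 j)
      rw [← huu g j, h]
    -- criterion for `Fx`
    have hFu : ∀ g : L ≃ₐ[ℚ] L, g (ι w) = ι w → (Fx b g ↔
        (∀ j : Fin s, uu g j.castSucc = 0) ∧ uu g (Fin.last s) ≠ 0) := by
      intro g hg
      constructor
      · rintro ⟨h1, h2⟩
        refine ⟨fun j => ?_, fun h0 => ?_⟩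
        · apply huniq
          rw [h1 j _ (hθ _)]
          simp
        · apply h2 _ (hθ _)
          rw [huu, h0]
          simp
      · rintro ⟨h1, h2⟩
        have h3 : ∀ (j : Fin (s + 1)) (ρ : L), ρ ^ 3 = (b j : L) →
            g ρ = ι w ^ (uu g j).val * ρ := by
          intro j ρ hρ
          obtain ⟨u, hu⟩ := cube_root hG.rel (θ := θ j) (ρ := ρ) (by rw [hρ, hθ])
          rw [hu, map_mul, map_pow, hg, huu]
          ring
        refine ⟨fun j ρ hρ => ?_, fun ρ hρ h4 => ?_⟩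
        · rw [h3 _ ρ hρ, h1 j]
          simp
        · rw [h3 _ ρ hρ] at h4
          have hρ0 : ρ ≠ 0 := by
            intro h0
            rw [h0] at hρ
            apply hb0 (Fin.last s)
            have h5 : ((b (Fin.last s) : ℤ) : L) = 0 := by rw [← hρ]; norm_num
            exact_mod_cast h5
          apply h2
          apply om_zmod_inj hG.rel hρ0
          rw [h4]
          simp
    have hfib : ∀ w₁ w' : Fin (s + 1) → ZMod 3,
        (univ.filter fun g : L ≃ₐ[ℚ] L => χ g = a ∧ uu g = w₁).card =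
        (univ.filter fun g : L ≃ₐ[ℚ] L => χ g = a ∧ uu g = w').card := by
      intro w₁ w'
      obtain ⟨z, hzζ, hzρ⟩ := hGKUM (s + 1) b p q p' q' f L ζ (ι w) hSys hG (w' - w₁)
      obtain ⟨hzω, hχz⟩ := hz1 z hzζ
      have key : ∀ g : L ≃ₐ[ℚ] L, g (ι w) = ι w → uu (g * z) = (w' - w₁) + uu g := by
        intro g hg
        funext j
        apply huniq
        rw [AlgEquiv.mul_apply, hzρ j _ (hθ j), map_mul, map_pow, hg, huu, ← mul_assoc,
          om_add hω3]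
        rfl
      refine Finset.card_bij (fun g _ => g * z) ?_ ?_ ?_
      · intro g hg
        rw [mem_filter] at hg ⊢
        obtain ⟨_, h1, h2⟩ := hg
        refine ⟨mem_univ _, by rw [map_mul, hχz, mul_one, h1], ?_⟩
        rw [key g (hM g (by rw [h1]; exact ha)), h2]
        abel
      · intro g _ g' _ e
        exact mul_right_cancel e
      · intro g hg
        rw [mem_filter] at hg
        obtain ⟨_, h1, h2⟩ := hg
        have h3 : g * z⁻¹ * z = g := inv_mul_cancel_right g z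
        have h4 : χ (g * z⁻¹) = a := by rw [map_mul, map_inv, hχz, inv_one, mul_one, h1]
        refine ⟨g * z⁻¹, ?_, h3⟩
        rw [mem_filter]
        refine ⟨mem_univ _, h4, ?_⟩
        have h5 := key (g * z⁻¹) (hM _ (by rw [h4]; exact ha))
        rw [h3, h2] at h5
        funext j
        have h7 := congrFun h5 j
        simp only [Pi.add_apply, Pi.sub_apply] at h7
        linear_combination (-1 : ZMod 3) * h7
    have hsub : ∀ (D : Finset (Fin (s + 1) → ZMod 3)),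
        (univ.filter fun g : L ≃ₐ[ℚ] L => χ g = a ∧ uu g ∈ D).card =
        D.card * (univ.filter fun g : L ≃ₐ[ℚ] L => χ g = a ∧ uu g = 0).card := by
      intro D
      rw [Finset.card_eq_sum_card_fiberwise (f := uu) (t := D)]
      · rw [← smul_eq_mul, ← Finset.sum_const]
        refine Finset.sum_congr rfl fun w₁ hw => ?_
        rw [← hfib w₁ 0, Finset.filter_filter]
        congr 1
        apply Finset.filter_congr
        intro g _
        constructor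
        · rintro ⟨⟨h1, _⟩, h2⟩
          exact ⟨h1, h2⟩
        · rintro ⟨h1, h2⟩
          exact ⟨⟨h1, by rw [h2]; exact hw⟩, h2⟩
      · intro g hg
        have h1 := (mem_filter.1 (Finset.mem_coe.1 hg)).2.2
        exact h1
    have h1 : Nat.card {g : L ≃ₐ[ℚ] L // χ g = a} =
        3 ^ (s + 1) * (univ.filter fun g : L ≃ₐ[ℚ] L => χ g = a ∧ uu g = 0).card := by
      rw [Nat.card_eq_fintype_card, Fintype.card_subtype]
      have h2 := hsub univ
      simp only [mem_univ, and_true] at h2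
      rw [h2, Finset.card_univ, Fintype.card_fun, ZMod.card, Fintype.card_fin]
    have h2 : Nat.card {g : L ≃ₐ[ℚ] L // χ g = a ∧ Fx b g} =
        2 * (univ.filter fun g : L ≃ₐ[ℚ] L => χ g = a ∧ uu g = 0).card := by
      rw [Nat.card_eq_fintype_card, Fintype.card_subtype]
      have h2 := hsub (univ.filter fun w₁ : Fin (s + 1) → ZMod 3 =>
        (∀ j : Fin s, w₁ j.castSucc = 0) ∧ w₁ (Fin.last s) ≠ 0)
      rw [card_good] at h2
      rw [← h2]
      congr 1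
      apply Finset.filter_congr
      intro g _
      constructor
      · rintro ⟨h3, h4⟩
        refine ⟨h3, mem_filter.2 ⟨mem_univ _, ?_⟩⟩
        exact (hFu g (hM g (by rw [h3]; exact ha))).1 h4
      · rintro ⟨h3, h4⟩
        exact ⟨h3, (hFu g (hM g (by rw [h3]; exact ha))).2 (mem_filter.1 h4).2⟩
    rw [h1, h2]
    ring
  · intro N hN hNp hN₀ I g hI hNI hst
    have hfin := GFR.quo_finite hNp hI hNI
    obtain ⟨l, hl, hfr⟩ := GFR.exists_frob_gen (R := ℤ) I g hst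
    have hχl := hχF N hN hNp I (g ^ l) hI hNI hfr
    refine ⟨l, hl, hχl, fun hN3 ρ hρ => ?_⟩
    obtain ⟨h1, h2⟩ := hFr N hNp (lt_of_le_of_lt (le_max_left _ _) hN₀) hN3 I hI hNI (g ^ l) hfr
      ρ hρ
    have hM1 : M1 (χ (g ^ l)) := by
      unfold M1
      rw [hχl, ZMod.coe_unitOfCoprime, ZMod.val_natCast, Nat.mod_mod_of_dvd _ h3f]
      exact hN3
    refine ⟨h1, fun hF j i hji r hr => ?_, fun hx hu => ?_⟩
    · exact h2 hF j i hji r _ hr (ht (g ^ l) j i hji (hM _ hM1) hF)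
    · obtain ⟨h3, h4, h5⟩ := hFrK N hNp (lt_of_le_of_lt (le_max_right _ _) hN₀) hN3 I hI hNI
        (g ^ l) hfr ρ hρ hx hu
      have h6 : F₂ (g ^ l) := ⟨h3, h4⟩
      refine ⟨h6, fun j r r' hr hr' => ?_⟩
      exact h5 c hc j r r' _ _ hr hr' (ht₂ (g ^ l) j h6) (ht₂ _ j (hF₂c (g ^ l) c h6))

end Pool.Agent.PTK
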