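import Pool.Agent.PTK.StJ
import Pool.Agent.PTK.GAK
import Pool.Agent.PTE.GALDS
import Pool.Agent.PTN.GFRU

/-!
# The average of `3^r` for prime twists: the joint governing field, all classes cubes

`Q = 1 (mod 3)` and all rational classes are cubes modulo `Q`.
-/

set_option autoImplicit false

open NumberField IsDedekindDomain Finset
open scoped nonZeroDivisors Pointwise

namespace Pool.Agent.PTK

open Pool.Agent.Lib_helper18 Pool.Agent.Lib_helper18.Eis Pool.Agent.Lib_helper84.Cub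
open Pool.Agent.PT Pool.Agent.PTE Pool.Agent.PT3 Pool.Agent.PTL Pool.Agent.PTN
open Pool.Agent.PT.GALD Pool.Agent.PTE.GALDS

namespace JAZ

section aut

variable {L : Type} [Field L] [NumberField L]

/-- `g` fixes `ω` and the cube roots of all the `b j` -/
def F0 {s : ℕ} (b : Fin s → ℤ) (ι : Eis →+* L) (g : L ≃ₐ[ℚ] L) : Prop :=
  g (ι w) = ι w ∧ ∀ (j : Fin s) (ρ : L), ρ ^ 3 = (b j : L) → g ρ = ρ

theorem inv_sq {ι : Eis →+* L} {τ : L ≃ₐ[ℚ] L} (h : τ (ι w) = ι w ^ 2) :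
    τ⁻¹ (ι w) = ι w ^ 2 := by
  have h1 : τ (ι w ^ 2) = ι w := by rw [map_pow, h, GAK.om4]
  conv_lhs => rw [← h1]
  rw [← AlgEquiv.mul_apply, inv_mul_cancel]
  rfl

theorem conj_fix {ι : Eis →+* L} {g : L ≃ₐ[ℚ] L} (τ : L ≃ₐ[ℚ] L) (hg : g (ι w) = ι w) :
    (τ * g * τ⁻¹) (ι w) = ι w := by
  rcases GAK.cases_om ι τ with hτ | hτ
  · rw [AlgEquiv.mul_apply, AlgEquiv.mul_apply, GAK.inv_fix hτ, hg, hτ]
  · rw [AlgEquiv.mul_apply, AlgEquiv.mul_apply, inv_sq hτ, map_pow, hg, map_pow, hτ, GAK.om4]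

theorem conj_pt {g τ : L ≃ₐ[ℚ] L} {ρ : L} (h : g (τ⁻¹ ρ) = τ⁻¹ ρ) : (τ * g * τ⁻¹) ρ = ρ := by
  rw [AlgEquiv.mul_apply, AlgEquiv.mul_apply, h, ← AlgEquiv.mul_apply, mul_inv_cancel]
  rfl

theorem pow_pt {g : L ≃ₐ[ℚ] L} {ρ : L} (h : g ρ = ρ) (l : ℕ) : (g ^ l) ρ = ρ := by
  induction l with
  | zero => rfl
  | succ l ih => rw [pow_succ, AlgEquiv.mul_apply, h, ih]

theorem F0.conj {s : ℕ} {b : Fin s → ℤ} {ι : Eis →+* L} {g : L ≃ₐ[ℚ] L} (h : F0 b ι g)
    (τ : L ≃ₐ[ℚ] L) : F0 b ι (τ * g * τ⁻¹) := by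
  refine ⟨conj_fix τ h.1, fun j ρ hρ => conj_pt (h.2 j _ ?_)⟩
  rw [← map_pow, hρ, map_intCast]

theorem F0.pow {s : ℕ} {b : Fin s → ℤ} {ι : Eis →+* L} {g : L ≃ₐ[ℚ] L} (h : F0 b ι g)
    (l : ℕ) : F0 b ι (g ^ l) :=
  ⟨pow_pt h.1 l, fun j ρ hρ => pow_pt (h.2 j ρ hρ) l⟩

theorem neg_one_val {f : ℕ} (hf : 1 < f) : (((-1 : (ZMod f)ˣ) : ZMod f)).val = f - 1 := by
  obtain ⟨n, rfl⟩ : ∃ n, f = n + 1 := ⟨f - 1, by omega⟩
  rw [Units.val_neg, Units.val_one]
  exact ZMod.val_neg_one n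

theorem two_neg : ∀ v : ZMod 3, (2 * (-v).val) % 3 = v.val % 3 := by decide

/-- the action of the conjugate of `z` -/
theorem conj_z {ι : Eis →+* L} {c z : L ≃ₐ[ℚ] L} (hc : c (ι w) = ι w ^ 2) {v : ZMod 3} {A : L}
    (h : z (c⁻¹ A) = ι w ^ (-v).val * c⁻¹ A) : (c * z * c⁻¹) A = ι w ^ v.val * A := by
  rw [AlgEquiv.mul_apply, AlgEquiv.mul_apply, h, map_mul, map_pow, hc, ← pow_mul,
    ← AlgEquiv.mul_apply, mul_inv_cancel]
  congr 1
  exact om_congr (GC.om3 (GCK.om ι)) (two_neg v)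

theorem three_card : (4 : ZMod 3) = 1 := by decide

end aut

end JAZ

open JAZ in
theorem JAZ_thm (hJZ : Stmt_JZ) (hGCHI : GCHI) (hGKUM : GKUM) (hGTU : Stmt_GTU)
    (hGFKU : Stmt_GFKU) (hJC1 : Stmt_JC1) (hSPLT : SPLT) (hSPP : SPP) : Stmt_JAZ := by
  classical
  intro s b p q p' q' k x u P Q P' Q' f hSys hSysK hf h9
  obtain ⟨L, hF, hN, ζ, ι, hG⟩ := hJZ s k b p q p' q' x u P Q P' Q' f hSys hSysK hf h9
  have hGp := hG.plus
  have hGm := hG.minus
  have := hGp.gal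
  obtain ⟨χ, hχs, hχζ, hχF⟩ := hGCHI L f ζ hf hGp.prim
  obtain ⟨N₁, hFr⟩ := hGFKU k x u P Q P' Q' f L ζ ι hSysK hGm
  obtain ⟨hT1, hT2, hT⟩ := hGTU k x u P Q P' Q' f L ζ ι hSysK hGm
  have hω3 : ι w ^ 3 = 1 := GC.om3 (GCK.om ι)
  have hf1 : 1 < f := by
    obtain ⟨c, hc⟩ := h9
    omega
  have h3f : 3 ∣ f := (by norm_num : (3 : ℕ) ∣ 9).trans h9
  have hfz : NeZero f := ⟨hf.ne'⟩
  -- action on ω
  have hωχ : ∀ g : L ≃ₐ[ℚ] L, g (ι w) = ι w ^ ((χ g : ZMod f)).val := by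
    intro g
    rw [hGm.hω, map_pow, hχζ g, ← pow_mul, mul_comm, pow_mul, ← hGm.hω]
  have hM : ∀ g : L ≃ₐ[ℚ] L, M1 (χ g) → g (ι w) = ι w := by
    intro g hg
    rw [hωχ g]
    conv_rhs => rw [← pow_one (ι w)]
    apply om_congr hω3
    unfold M1 at hg
    omega
  obtain ⟨c, hc⟩ : ∃ c : L ≃ₐ[ℚ] L, c (ι w) = ι w ^ 2 := by
    obtain ⟨c, hc⟩ := hχs (-1)
    refine ⟨c, ?_⟩
    rw [hωχ c, hc, neg_one_val hf1]
    apply om_congr hω3
    omega
  have hz1 : ∀ z : L ≃ₐ[ℚ] L, z ζ = ζ → z (ι w) = ι w ∧ χ z = 1 := by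
    intro z hzζ
    refine ⟨by rw [hGm.hω, map_pow, hzζ], ?_⟩
    have h1 := hχζ z
    rw [hzζ] at h1
    have h2 : ((χ z : ZMod f)).val = 1 := by
      apply hGp.prim.pow_inj (ZMod.val_lt _) hf1
      rw [← h1, pow_one]
    apply Units.ext
    have h3 := ZMod.natCast_zmod_val (χ z : ZMod f)
    rw [h2] at h3
    rw [← h3]
    simp
  have hb0 : ∀ j, b j ≠ 0 := PTE.GFRS.ne_zero hSys
  -- the class of the minus part
  let F2 : (L ≃ₐ[ℚ] L) → Prop := fun g => g (ι w) = ι w ∧ FxU x u ι g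
  let t : (L ≃ₐ[ℚ] L) → Fin k → ZMod 3 := fun g j =>
    if h : F2 g then ((hT j).1 g h.1 h.2).choose else 0
  have ht : ∀ (g : L ≃ₐ[ℚ] L) (j : Fin k), F2 g → IsTU x P Q P' Q' ι g j (t g j) := by
    intro g j h
    have e : t g j = ((hT j).1 g h.1 h.2).choose := dif_pos h
    rw [e]
    exact ((hT j).1 g h.1 h.2).choose_spec.1
  have htu : ∀ (g : L ≃ₐ[ℚ] L) (j : Fin k) (a : ZMod 3), F2 g →
      IsTU x P Q P' Q' ι g j a → t g j = a := by
    intro g j a h ha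
    exact ((hT j).1 g h.1 h.2).unique (ht g j h) ha
  let T : (L ≃ₐ[ℚ] L) → Fin k → ZMod 3 := fun g j => t g j + t (c * g * c⁻¹) j
  have hF2c : ∀ g τ : L ≃ₐ[ℚ] L, F2 g → F2 (τ * g * τ⁻¹) := fun g τ hg =>
    ⟨conj_fix τ hg.1, hT1 g τ hg.1 hg.2⟩
  have hF2p : ∀ (g : L ≃ₐ[ℚ] L) (l : ℕ), F2 g → F2 (g ^ l) := fun g l hg =>
    ⟨pow_pt hg.1 l, hT2 g l hg.2⟩
  have htc : ∀ (g σ : L ≃ₐ[ℚ] L) (j : Fin k), F2 g → σ (ι w) = ι w →
      t (σ * g * σ⁻¹) j = t g j := fun g σ j hg hσ =>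
    htu _ _ _ (hF2c g σ hg) ((hT j).2.1 g σ _ hg.1 hg.2 hσ (ht g j hg))
  have htp : ∀ (g : L ≃ₐ[ℚ] L) (l : ℕ) (j : Fin k), F2 g → t (g ^ l) j = l * t g j :=
    fun g l j hg => htu _ _ _ (hF2p g l hg) ((hT j).2.2 g _ l hg.1 (ht g j hg))
  -- the bound
  let B : ℕ := ∑ j, (b j).natAbs
  have hB : ∀ j, (b j).natAbs ≤ B := fun j =>
    Finset.single_le_sum (f := fun j => (b j).natAbs) (fun _ _ => Nat.zero_le _)
      (Finset.mem_univ j)
  refine ⟨L, hF, hN, hGp.gal, χ, F0 b ι, F2, T, max N₁ B, hχs, fun g τ _ h => h.conj τ,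
    fun g l _ h => h.pow l, ?_, ?_, ?_, ?_, ?_⟩
  · intro g τ _ hg
    refine ⟨hF2c g τ hg, funext fun j => ?_⟩
    show t (τ * g * τ⁻¹) j + t (c * (τ * g * τ⁻¹) * c⁻¹) j = t g j + t (c * g * c⁻¹) j
    rcases GAK.cases_om ι τ with hτ | hτ
    · have e : c * (τ * g * τ⁻¹) * c⁻¹ =
          (c * τ * c⁻¹) * (c * g * c⁻¹) * (c * τ * c⁻¹)⁻¹ := by group
      rw [e, htc g τ j hg hτ, htc _ _ j (hF2c g c hg) (conj_fix c hτ)]
    · have e1 : τ * g * τ⁻¹ = (τ * c⁻¹) * (c * g * c⁻¹) * (τ * c⁻¹)⁻¹ := by group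
      have e2 : c * (τ * g * τ⁻¹) * c⁻¹ = (c * τ) * g * (c * τ)⁻¹ := by group
      have h1 : (τ * c⁻¹) (ι w) = ι w := by
        rw [AlgEquiv.mul_apply, inv_sq hc, map_pow, hτ, GAK.om4]
      have h2 : (c * τ) (ι w) = ι w := by
        rw [AlgEquiv.mul_apply, hτ, map_pow, hc, GAK.om4]
      rw [e2, htc g _ j hg h2, e1, htc _ _ j (hF2c g c hg) h1, add_comm]
  · intro g l _ hg
    refine ⟨hF2p g l hg, funext fun j => ?_⟩
    show t (g ^ l) j + t (c * g ^ l * c⁻¹) j = (l : ZMod 3) • (t g j + t (c * g * c⁻¹) j)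
    have e : c * g ^ l * c⁻¹ = (c * g * c⁻¹) ^ l := by rw [conj_pow]
    rw [e, htp g l j hg, htp _ l j (hF2c g c hg), smul_eq_mul]
    ring
  · intro a y y' ha
    obtain ⟨z, hzF, -, hzA⟩ := hJC1 s k b p q p' q' x u P Q P' Q' f L ζ ι hSys hSysK hG
      (fun j => 2 * (y' j - y j))
    obtain ⟨hzω, hχz⟩ := hz1 z hzF.ze
    have hF0z : ∀ g : L ≃ₐ[ℚ] L, F0 b ι (g * z) ↔ F0 b ι g := by
      intro g
      have h1 : ∀ (j : Fin s) (ρ : L), ρ ^ 3 = (b j : L) → (g * z) ρ = g ρ := by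
        intro j ρ hρ
        rw [AlgEquiv.mul_apply, hzF.rb j ρ hρ]
      have h2 : (g * z) (ι w) = g (ι w) := by rw [AlgEquiv.mul_apply, hzω]
      unfold F0
      rw [h2]
      refine and_congr_right fun _ => ?_
      constructor
      · intro h j ρ hρ
        rw [← h1 j ρ hρ]
        exact h j ρ hρ
      · intro h j ρ hρ
        rw [h1 j ρ hρ]
        exact h j ρ hρ
    have hF2z : ∀ g : L ≃ₐ[ℚ] L, F2 (g * z) ↔ F2 g := by
      intro g
      have h1 : ∀ ρ : L, ρ ^ 3 = ι x → (g * z) ρ = g ρ := by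
        intro ρ hρ
        rw [AlgEquiv.mul_apply, hzF.rx ρ hρ]
      have h1' : ∀ (j : Fin k) (ρ : L), ρ ^ 3 = ι (u j) → (g * z) ρ = g ρ := by
        intro j ρ hρ
        rw [AlgEquiv.mul_apply, hzF.ru j ρ hρ]
      have h2 : (g * z) (ι w) = g (ι w) := by rw [AlgEquiv.mul_apply, hzω]
      show ((g * z) (ι w) = ι w ∧ FxU x u ι (g * z)) ↔ (g (ι w) = ι w ∧ FxU x u ι g)
      rw [h2]
      refine and_congr_right fun _ => ?_
      unfold FxU
      constructor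
      · rintro ⟨h3, h4⟩
        exact ⟨fun ρ hρ => by rw [← h1 ρ hρ]; exact h3 ρ hρ,
          fun j ρ hρ => by rw [← h1' j ρ hρ]; exact h4 j ρ hρ⟩
      · rintro ⟨h3, h4⟩
        exact ⟨fun ρ hρ => by rw [h1 ρ hρ]; exact h3 ρ hρ,
          fun j ρ hρ => by rw [h1' j ρ hρ]; exact h4 j ρ hρ⟩
    have key : ∀ g : L ≃ₐ[ℚ] L, F2 g → ∀ j, T (g * z) j = (y' j - y j) + T g j := by
      intro g hg j
      show t (g * z) j + t (c * (g * z) * c⁻¹) j =
        (y' j - y j) + (t g j + t (c * g * c⁻¹) j)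
      have e1 : t (g * z) j = 2 * (y' j - y j) + t g j := by
        apply htu _ _ _ ((hF2z g).2 hg)
        intro ρ A hA
        rw [AlgEquiv.mul_apply, (hzA j ρ A hA).1, map_mul, map_pow, hg.1,
          ht g j hg ρ A hA, ← mul_assoc, om_add hω3]
      have hg' := hF2c g c hg
      have e2 : t (c * (g * z) * c⁻¹) j = 2 * (y' j - y j) + t (c * g * c⁻¹) j := by
        apply htu _ _ _ (hF2c _ c ((hF2z g).2 hg))
        intro ρ A hA
        have h1 := conj_z hc ((hzA j ρ A hA).2 c⁻¹ (inv_sq hc))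
        have h2 : c * (g * z) * c⁻¹ = (c * g * c⁻¹) * (c * z * c⁻¹) := by group
        rw [h2, AlgEquiv.mul_apply, h1, map_mul, map_pow, hg'.1,
          ht _ j hg' ρ A hA, ← mul_assoc, om_add hω3]
      rw [e1, e2]
      linear_combination (y' j - y j) * three_card
    apply Nat.card_congr
    refine Equiv.subtypeEquiv (Equiv.mulRight z) ?_
    intro g
    have hχ : χ (g * z) = χ g := by rw [map_mul, hχz, mul_one]
    show (χ g = a ∧ F0 b ι g ∧ F2 g ∧ T g = y) ↔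
      (χ (g * z) = a ∧ F0 b ι (g * z) ∧ F2 (g * z) ∧ T (g * z) = y')
    rw [hχ, hF0z g, hF2z g]
    refine and_congr_right fun _ => and_congr_right fun _ => and_congr_right fun hg => ?_
    constructor
    · intro h
      funext j
      rw [key g hg j, h]
      ring
    · intro h
      funext j
      have h4 := congrFun h j
      rw [key g hg j] at h4
      linear_combination h4
  · intro a ha
    choose θ hθ using hGp.root
    have hθ0 : ∀ j, θ j ≠ 0 := by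
      intro j h0
      have h1 := hθ j
      rw [h0] at h1
      apply hb0 j
      have h2 : ((b j : ℤ) : L) = 0 := by rw [← h1]; norm_num
      exact_mod_cast h2
    have hex : ∀ (g : L ≃ₐ[ℚ] L) (j : Fin s), ∃ u : ZMod 3, g (θ j) = ι w ^ u.val * θ j := by
      intro g j
      apply cube_root hGp.rel
      rw [← map_pow, hθ j, map_intCast]
    choose uu huu using hex
    have huniq : ∀ (g : L ≃ₐ[ℚ] L) (j : Fin s) (u : ZMod 3), g (θ j) = ι w ^ u.val * θ j →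
        uu g j = u := by
      intro g j u h
      apply om_zmod_inj hGp.rel (hθ0 j)
      rw [← huu g j, h]
    -- criterion for `F0`
    have hFu : ∀ g : L ≃ₐ[ℚ] L, g (ι w) = ι w → (F0 b ι g ↔ uu g = 0) := by
      intro g hg
      constructor
      · rintro ⟨_, h1⟩
        funext j
        apply huniq
        rw [h1 j _ (hθ _)]
        simp
      · intro h1
        refine ⟨hg, fun j ρ hρ => ?_⟩
        obtain ⟨u, hu⟩ := cube_root hGp.rel (θ := θ j) (ρ := ρ) (by rw [hρ, hθ])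
        rw [hu, map_mul, map_pow, hg, huu, h1]
        simp
    have hfib : ∀ w w' : Fin s → ZMod 3,
        (univ.filter fun g : L ≃ₐ[ℚ] L => χ g = a ∧ uu g = w).card =
        (univ.filter fun g : L ≃ₐ[ℚ] L => χ g = a ∧ uu g = w').card := by
      intro v v'
      obtain ⟨z, hzζ, hzρ⟩ := hGKUM s b p q p' q' f L ζ (ι w) hSys hGp (v' - v)
      obtain ⟨hzω, hχz⟩ := hz1 z hzζ
      have key : ∀ g : L ≃ₐ[ℚ] L, g (ι w) = ι w → uu (g * z) = (v' - v) + uu g := by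
        intro g hg
        funext j
        apply huniq
        rw [AlgEquiv.mul_apply, hzρ j _ (hθ j), map_mul, map_pow, hg, huu, ← mul_assoc,
          om_add hω3]
        rfl
      refine Finset.card_bij (fun g _ => g * z) ?_ ?_ ?_
      · intro g hg
        rw [mem_filter] at hg ⊢
        obtain ⟨_, h1, h2⟩ := hg
        refine ⟨mem_univ _, by rw [map_mul, hχz, mul_one, h1], ?_⟩
        rw [key g (hM g (by rw [h1]; exact ha)), h2]
        abel
      · intro g _ g' _ e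
        exact mul_right_cancel e
      · intro g hg
        rw [mem_filter] at hg
        obtain ⟨_, h1, h2⟩ := hg
        have h3 : g * z⁻¹ * z = g := inv_mul_cancel_right g z
        have h4 : χ (g * z⁻¹) = a := by rw [map_mul, map_inv, hχz, inv_one, mul_one, h1]
        refine ⟨g * z⁻¹, ?_, h3⟩
        rw [mem_filter]
        refine ⟨mem_univ _, h4, ?_⟩
        have h5 := key (g * z⁻¹) (hM _ (by rw [h4]; exact ha))
        rw [h3, h2] at h5
        funext j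
        have h7 := congrFun h5 j
        simp only [Pi.add_apply, Pi.sub_apply] at h7
        linear_combination (-1 : ZMod 3) * h7
    have h1 : Nat.card {g : L ≃ₐ[ℚ] L // χ g = a} =
        3 ^ s * (univ.filter fun g : L ≃ₐ[ℚ] L => χ g = a ∧ uu g = 0).card := by
      rw [Nat.card_eq_fintype_card, Fintype.card_subtype,
        Finset.card_eq_sum_card_fiberwise (f := uu) (t := univ) (fun _ _ => by simp)]
      have h2 : ∀ v ∈ (univ : Finset (Fin s → ZMod 3)),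
          (Finset.filter (fun g => uu g = v) (univ.filter fun g : L ≃ₐ[ℚ] L => χ g = a)).card =
          (univ.filter fun g : L ≃ₐ[ℚ] L => χ g = a ∧ uu g = 0).card := by
        intro v _
        rw [Finset.filter_filter]
        exact hfib v 0
      rw [Finset.sum_congr rfl h2, Finset.sum_const, smul_eq_mul, Finset.card_univ,
        Fintype.card_fun, ZMod.card, Fintype.card_fin]
    have h2 : Nat.card {g : L ≃ₐ[ℚ] L // χ g = a ∧ F0 b ι g} =
        (univ.filter fun g : L ≃ₐ[ℚ] L => χ g = a ∧ uu g = 0).card := by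
      rw [Nat.card_eq_fintype_card, Fintype.card_subtype]
      congr 1
      apply Finset.filter_congr
      intro g _
      refine and_congr_right fun h3 => ?_
      exact hFu g (hM g (by rw [h3]; exact ha))
    rw [h1, h2]
  · intro N hN' hNp hN₀ I g hI hNI hst
    have hfin := GFR.quo_finite hNp hI hNI
    obtain ⟨l, hl, hfr⟩ := GFR.exists_frob_gen (R := ℤ) I g hst
    refine ⟨l, hl, hχF N hN' hNp I (g ^ l) hI hNI hfr, fun hN3 ρ hρ => ⟨fun hsym => ?_,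
      fun hx hu => ?_⟩⟩
    · -- the rational classes
      have hb : ∀ j, ¬ (N : ℤ) ∣ b j := fun j =>
        GFR.not_dvd_of_lt (hb0 j)
          (lt_of_le_of_lt ((hB j).trans (le_max_right _ _)) hN₀)
      obtain ⟨ωB, ρ₀, K, _, mk, z, ψ, hωB, hρ₀, D⟩ :=
        PTE.GFRS.exists_dat hSPLT hSPP hNp hI hNI hN3 hfr hGp.rel
      obtain ⟨-, -, h3, h4, h5, -⟩ := hSPLT.2 N ρ₀ hNp hN3 hρ₀
      have hC : GFRU.CJ ρ₀.1 N := ⟨h4, h5⟩
      have hsym' : ∀ j, sym ρ₀.1 (b j : Eis) = 0 := by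
        intro j
        rcases h3 ρ ⟨conj ρ.1, hρ⟩ with h6 | h6
        · rw [← h6]
          exact hsym j
        · have h7 := hC.int (hb j)
          rw [← h6, hsym j] at h7
          exact neg_eq_zero.1 h7.symm
      have hfω := D.fω
      rw [hωB] at hfω
      refine ⟨hfω, fun j θ hθ => ?_⟩
      obtain ⟨θB, rfl, hθB⟩ := PTE.GFRS.exists_int hθ
      by_contra h8
      exact D.sym_ne hθB (hb _)
        (fun h => h8 (congrArg (fun x : 𝓞 L => (x : L)) h)) (hsym' j)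
    · obtain ⟨h1, h2, h3⟩ := hFr N hNp (lt_of_le_of_lt (le_max_left _ _) hN₀) hN3 I hI hNI
        (g ^ l) hfr ρ hρ hx hu
      have h4 : F2 (g ^ l) := ⟨h1, h2⟩
      refine ⟨h4, fun j r r' hr hr' => ?_⟩
      exact h3 c hc j r r' _ _ hr hr' (ht _ j h4) (ht _ j (hF2c _ c h4))

end Pool.Agent.PTK
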