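import Pool.Agent.PTK.StJ
import Pool.Agent.PTK.GCK

/-!
# The average of `3^r`: commutators for the minus part which are trivial on the plus part
-/

set_option autoImplicit false

open NumberField IsDedekindDomain Finset
open scoped nonZeroDivisors Pointwise

namespace Pool.Agent.PTK

open Pool.Agent.Lib_helper18 Pool.Agent.Lib_helper18.Eis Pool.Agent.Lib_helper84.Cub
open Pool.Agent.PT Pool.Agent.PTE Pool.Agent.PT3 Pool.Agent.PTL Pool.Agent.PTN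

namespace JC1

variable {L : Type} [Field L] [NumberField L]

/-- two automorphisms which fix `ω` and multiply `A` by powers of `ω` commute on `A` -/
theorem rot {ι : Eis →+* L} (σ τ : L ≃ₐ[ℚ] L) (hσ : σ (ι w) = ι w) (hτ : τ (ι w) = ι w) {A : L}
    {m n : ℕ} (h1 : σ A = ι w ^ m * A) (h2 : τ A = ι w ^ n * A) :
    ((σ * τ)⁻¹ * (τ * σ)) A = A := by
  have h : τ (σ A) = ι w ^ 0 * σ (τ A) := by
    rw [h1, h2, map_mul, map_mul, map_pow, map_pow, hσ, hτ, h1, h2]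
    ring
  rw [GC.comm_apply σ τ 0 hσ hτ A h, pow_zero, one_mul]

/-- an automorphism which fixes `ω` and `ρ` acts by a root of unity on `A` -/
theorem fixP {ω ρ A : L} {p q p' q' : ℤ} (h : L ≃ₐ[ℚ] L) (hω : ω ^ 2 + ω + 1 = 0)
    (hhω : h ω = ω) (hhρ : h ρ = ρ) (hD : aD ω p q p' q' ρ ≠ 0)
    (hA : A ^ 3 * aD ω p q p' q' ρ = aN ω p q p' q' ρ) : ∃ e : ℕ, h A = ω ^ e * A := by
  have h1 : h (aD ω p q p' q' ρ) = aD ω p q p' q' ρ := by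
    unfold aD
    simp only [map_mul, map_add, map_pow, map_intCast, hhω, hhρ]
  have h2 : h (aN ω p q p' q' ρ) = aN ω p q p' q' ρ := by
    unfold aN
    simp only [map_mul, map_add, map_pow, map_intCast, hhω, hhρ]
  have h3 := congrArg h hA
  rw [map_mul, map_pow, h1, h2, ← hA] at h3
  exact GC.cube_eq hω (mul_right_cancel₀ hD h3)

end JC1

/-- the commutators for the minus part -/
theorem JC1_thm (hJKU : Stmt_JKU) : Stmt_JC1 := by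
  intro s k b p q p' q' x u P Q P' Q' f L _ _ ζ ι hSG hS hJ v
  have hG := hJ.minus
  have hGP := hJ.plus
  have hω := GCK.om ι
  have hf : 0 < f := by
    rcases Nat.eq_zero_or_pos f with h | h
    · exfalso
      have h1 := hG.hω
      rw [h, Nat.zero_div, pow_zero] at h1
      rw [h1] at hω
      norm_num at hω
    · exact h
  obtain ⟨σ, s1, s2, s3, s4⟩ :=
    hJKU s k b p q p' q' x u P Q P' Q' f L ζ ι hSG hS hJ 1 0 0
  obtain ⟨τ, t1, t2, t3, t4⟩ :=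
    hJKU s k b p q p' q' x u P Q P' Q' f L ζ ι hSG hS hJ 0 v 0
  have hσ' : GCK.Act ι x u 1 0 σ := ⟨s1, s2, s3⟩
  have hτ' : GCK.Act ι x u 0 v τ := ⟨t1, t2, t3⟩
  have hnz : ∀ j, GCK.Nz ι x (P j) (Q j) (P' j) (Q' j) := fun j ρ hρ => hG.D j ρ hρ
  have hσb : ∀ (i : Fin s) (ρ : L), ρ ^ 3 = (b i : L) → σ ρ = ρ := fun i ρ hρ => by
    rw [s4 i ρ hρ, Pi.zero_apply, ZMod.val_zero, pow_zero, one_mul]
  have hτb : ∀ (i : Fin s) (ρ : L), ρ ^ 3 = (b i : L) → τ ρ = ρ := fun i ρ hρ => by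
    rw [t4 i ρ hρ, Pi.zero_apply, ZMod.val_zero, pow_zero, one_mul]
  refine ⟨(σ * τ)⁻¹ * (τ * σ), ⟨?_, fun ρ hρ => ?_, fun j ρ hρ => ?_, fun i ρ hρ => ?_⟩,
    fun j i ρ A hji hA => ?_, fun j ρ A hA => ⟨?_, ?_⟩⟩
  · have hz : ∀ g : L ≃ₐ[ℚ] L, ∃ i : ℕ, g ζ = ζ ^ i := by
      intro g
      have h1 : (g ζ) ^ f = 1 := by rw [← map_pow, hG.prim.pow_eq_one, map_one]
      haveI : NeZero f := ⟨hf.ne'⟩
      obtain ⟨i, _, hi⟩ := hG.prim.eq_pow_of_pow_eq_one h1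
      exact ⟨i, hi.symm⟩
    obtain ⟨i, hi⟩ := hz σ
    obtain ⟨j, hj⟩ := hz τ
    have h1 : τ (σ ζ) = ι w ^ 0 * σ (τ ζ) := by
      rw [hi, hj, map_pow, map_pow, hi, hj, pow_zero, one_mul, ← pow_mul, ← pow_mul, mul_comm]
    rw [GC.comm_apply σ τ 0 hσ'.1 hτ'.1 ζ h1, pow_zero, one_mul]
  · exact JC1.rot σ τ hσ'.1 hτ'.1 (hσ'.2.1 ρ hρ) (hτ'.2.1 ρ hρ)
  · exact JC1.rot σ τ hσ'.1 hτ'.1 (hσ'.2.2 j ρ hρ) (hτ'.2.2 j ρ hρ)
  · exact JC1.rot σ τ hσ'.1 hτ'.1 (s4 i ρ hρ) (t4 i ρ hρ)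
  · obtain ⟨hρ, hA⟩ := hA
    have hD := (hGP.D j i hji ρ hρ).1
    obtain ⟨m, hm⟩ := JC1.fixP σ hω s1 (hσb j ρ hρ) hD hA
    obtain ⟨n, hn⟩ := JC1.fixP τ hω t1 (hτb j ρ hρ) hD hA
    exact JC1.rot σ τ s1 t1 hm hn
  · exact GCK.com hS.sol hnz hG.rb hσ' hτ' j ρ A hA.1 hA.2
  · intro g hg
    have h1 := GCK.com hS.sol hnz hG.rb (GCK.cjAct hg hS.cx hS.cb hσ')
      (GCK.cjAct hg hS.cx hS.cb hτ') j ρ A hA.1 hA.2
    have h2 : ((g⁻¹ * σ * g) * (g⁻¹ * τ * g))⁻¹ * ((g⁻¹ * τ * g) * (g⁻¹ * σ * g)) =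
        g⁻¹ * ((σ * τ)⁻¹ * (τ * σ)) * g := by group
    rw [h2] at h1
    have h3 := congrArg g h1
    rw [← AlgEquiv.mul_apply, ← mul_assoc, ← mul_assoc, mul_inv_cancel, one_mul,
      AlgEquiv.mul_apply, map_mul, map_pow, hg, ← pow_mul] at h3
    rw [h3, pow_eq_pow_mod _ (GC.om3 hω), GCK.val_neg, ← pow_eq_pow_mod _ (GC.om3 hω)]

end Pool.Agent.PTK
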