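import Pool.Agent.PTK.StJ
import Pool.Agent.PTK.GCK
import Pool.Agent.PT.GC

/-!
# The joint governing field: commutators for the plus part which are trivial on the minus part
-/

set_option autoImplicit false

open NumberField IsDedekindDomain Finset
open scoped nonZeroDivisors Pointwise

namespace Pool.Agent.PTK

open Pool.Agent.Lib_helper18 Pool.Agent.Lib_helper18.Eis Pool.Agent.Lib_helper84.Cub
open Pool.Agent.PT Pool.Agent.PTE Pool.Agent.PT3 Pool.Agent.PTL Pool.Agent.PTN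

namespace JC2

section rel

variable {s : ℕ} {b : Fin s → ℤ} {p q p' q' : Fin s → Fin s → ℤ} {L : Type} [Field L]
    [NumberField L] {ζ ω : L}

/-- `GC.all` with a property `H` of the automorphisms which is closed under products -/
theorem all (hω : ω ^ 2 + ω + 1 = 0) (hζ : ∀ z : L ≃ₐ[ℚ] L, z ζ = ζ → z ω = ω)
    (H : (L ≃ₐ[ℚ] L) → Prop) (H1 : H 1) (Hm : ∀ z z', H z → H z' → H (z * z'))
    (hel : ∀ j₀ i₀ : Fin s, j₀ < i₀ → ∃ z : L ≃ₐ[ℚ] L,
      GC.R b p q p' q' ζ ω (fun j i => if (j, i) = (j₀, i₀) then 1 else 0) z ∧ H z)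
    (v : Fin s → Fin s → ZMod 3) : ∃ z : L ≃ₐ[ℚ] L, GC.R b p q p' q' ζ ω v z ∧ H z := by
  let S : AddSubmonoid (Fin s → Fin s → ZMod 3) :=
    { carrier := {v | ∃ z : L ≃ₐ[ℚ] L, GC.R b p q p' q' ζ ω v z ∧ H z}
      zero_mem' := ⟨1, GC.R_zero (fun _ _ _ => rfl), H1⟩
      add_mem' := by
        rintro v v' ⟨z, hz, hz1⟩ ⟨z', hz', hz1'⟩
        exact ⟨z * z', GC.R_add hω hζ hz hz', Hm _ _ hz1 hz1'⟩ }
  have h1 : ∀ x : Fin s × Fin s,
      (fun j i => if (j, i) = x then v x.1 x.2 else 0 : Fin s → Fin s → ZMod 3) ∈ S := by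
    rintro ⟨j₀, i₀⟩
    by_cases hji : j₀ < i₀
    · have h2 : (fun j i => if (j, i) = (j₀, i₀) then v j₀ i₀ else 0 : Fin s → Fin s → ZMod 3) =
          (v j₀ i₀).val • (fun j i => if (j, i) = (j₀, i₀) then 1 else 0 :
            Fin s → Fin s → ZMod 3) := by
        funext j i
        rw [Pi.smul_apply, Pi.smul_apply]
        split_ifs with h
        · rw [nsmul_one, ZMod.natCast_val, ZMod.cast_id', id]
        · rw [smul_zero]
      change (fun j i => if (j, i) = (j₀, i₀) then v j₀ i₀ else 0 : Fin s → Fin s → ZMod 3) ∈ S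
      rw [h2]
      exact S.nsmul_mem (hel j₀ i₀ hji) _
    · refine ⟨1, GC.R_zero (fun j i hji' => ?_), H1⟩
      rw [if_neg]
      intro h
      rw [Prod.mk.injEq] at h
      rw [h.1, h.2] at hji'
      exact hji hji'
  have h3 : v = ∑ x : Fin s × Fin s,
      (fun j i => if (j, i) = x then v x.1 x.2 else 0 : Fin s → Fin s → ZMod 3) := by
    funext j i
    rw [Finset.sum_apply, Finset.sum_apply, Finset.sum_ite_eq, if_pos (Finset.mem_univ _)]
  have h4 : v ∈ S := by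
    rw [h3]
    exact S.sum_mem (fun x _ => h1 x)
  exact h4

end rel

section com

variable {k : ℕ} {L : Type} [Field L] [NumberField L] {ι : Eis →+* L} {x : Eis}
  {u P Q P' Q' : Fin k → Eis}

/-- commutators of automorphisms which fix `ω` and the roots of `x` are trivial on `A` -/
theorem comA (hnz : ∀ j, GCK.Nz ι x (P j) (Q j) (P' j) (Q' j)) {σ τ : L ≃ₐ[ℚ] L}
    (hσ : GCK.Act ι x u 0 0 σ) (hτ : GCK.Act ι x u 0 0 τ) (j : Fin k) (ρ A : L)
    (hA : PrM x P Q P' Q' ι j ρ A) : ((σ * τ)⁻¹ * (τ * σ)) A = A := by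
  have f0 : ∀ g : L ≃ₐ[ℚ] L, GCK.Act ι x u 0 0 g → g ρ = ρ := by
    intro g hg
    rw [hg.2.1 ρ hA.1, ZMod.val_zero, pow_zero, one_mul]
  obtain ⟨e, he⟩ := GCK.fixA (hnz j) σ hA.1 hσ.1 (f0 σ hσ) hA.2
  obtain ⟨e', he'⟩ := GCK.fixA (hnz j) τ hA.1 hτ.1 (f0 τ hτ) hA.2
  have h1 : τ (σ A) = ι w ^ 0 * σ (τ A) := by
    rw [he, he', map_mul, map_mul, map_pow, map_pow, hσ.1, hτ.1, he, he', pow_zero, one_mul]
    ring
  rw [GC.comm_apply σ τ 0 hσ.1 hτ.1 A h1, pow_zero, one_mul]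

/-- the same for the conjugates of `A` -/
theorem comgA (hnz : ∀ j, GCK.Nz ι x (P j) (Q j) (P' j) (Q' j))
    (hx : ∃ t : Eis, x * conj x = t ^ 3) (hu : ∀ j, ∃ t : Eis, u j * conj (u j) = t ^ 3)
    {σ τ : L ≃ₐ[ℚ] L} (hσ : GCK.Act ι x u 0 0 σ) (hτ : GCK.Act ι x u 0 0 τ) (j : Fin k)
    (ρ A : L) (hA : PrM x P Q P' Q' ι j ρ A) (g : L ≃ₐ[ℚ] L) (hg : g (ι w) = ι w ^ 2) :
    ((σ * τ)⁻¹ * (τ * σ)) (g A) = g A := by
  have h1 := comA hnz (GCK.cjAct hg hx hu hσ) (GCK.cjAct hg hx hu hτ) j ρ A hA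
  have h2 : ((g⁻¹ * σ * g) * (g⁻¹ * τ * g))⁻¹ * ((g⁻¹ * τ * g) * (g⁻¹ * σ * g)) =
      g⁻¹ * ((σ * τ)⁻¹ * (τ * σ)) * g := by group
  rw [h2] at h1
  have h3 := congrArg g h1
  rw [← AlgEquiv.mul_apply, ← mul_assoc, ← mul_assoc, mul_inv_cancel, one_mul,
    AlgEquiv.mul_apply] at h3
  exact h3

end com

end JC2

/-- commutators for the plus part which are trivial on the minus part -/
theorem JC2_thm (hJKU : Stmt_JKU) : Stmt_JC2 := by
  intro s k b p q p' q' x u P Q P' Q' f L _ _ ζ ι hS hSK hG v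
  have hω := GCK.om ι
  have hf : 0 < f := by
    rcases Nat.eq_zero_or_pos f with h | h
    · exfalso
      have h1 := hG.minus.hω
      rw [h, Nat.zero_div, pow_zero] at h1
      rw [h1] at hω
      norm_num at hω
    · exact h
  have hζ : ∀ z : L ≃ₐ[ℚ] L, z ζ = ζ → z (ι w) = ι w := by
    intro z hz
    rw [hG.minus.hω, map_pow, hz]
  have hnz : ∀ j, GCK.Nz ι x (P j) (Q j) (P' j) (Q' j) := fun j ρ hρ => hG.minus.D j ρ hρ
  choose θ hθ using hG.plus.root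
  have hg1 : ∀ i : Fin s, ∃ g : L ≃ₐ[ℚ] L, GCK.Act ι x u 0 0 g ∧
      ∀ (l : Fin s) (ρ : L), ρ ^ 3 = (b l : L) →
        g ρ = ι w ^ ((Pi.single i 1 : Fin s → ZMod 3) l).val * ρ := by
    intro i
    obtain ⟨g, h0, h1, h2, h3⟩ := hJKU s k b p q p' q' x u P Q P' Q' f L ζ ι hS hSK hG 0 0
      (Pi.single i 1)
    exact ⟨g, ⟨h0, h1, h2⟩, h3⟩
  choose g hgK hgv using hg1
  have hgω : ∀ i, g i (ι w) = ι w := fun i => (hgK i).1
  have hgρ : ∀ (j : Fin s) (ρ : L), ρ ^ 3 = (b j : L) → g j ρ = ι w * ρ := by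
    intro j ρ hρ
    rw [hgv j j ρ hρ, Pi.single_eq_same, show (1 : ZMod 3).val = 1 from rfl, pow_one]
  have hgρ' : ∀ (i j : Fin s) (ρ : L), ρ ^ 3 = (b j : L) → j ≠ i → g i ρ = ρ := by
    intro i j ρ hρ hji
    rw [hgv i j ρ hρ, Pi.single_eq_of_ne hji, ZMod.val_zero, pow_zero, one_mul]
  have hz : ∀ g : L ≃ₐ[ℚ] L, ∃ i : ℕ, g ζ = ζ ^ i := by
    intro g
    have h1 : (g ζ) ^ f = 1 := by rw [← map_pow, hG.minus.prim.pow_eq_one, map_one]
    haveI : NeZero f := ⟨hf.ne'⟩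
    obtain ⟨i, _, hi⟩ := hG.minus.prim.eq_pow_of_pow_eq_one h1
    exact ⟨i, hi.symm⟩
  obtain ⟨z, hzR, hz1, hz2, hz3⟩ := JC2.all (b := b) (p := p) (q := q) (p' := p') (q' := q')
    (ζ := ζ) hω hζ
    (fun z => (∀ ρ : L, ρ ^ 3 = ι x → z ρ = ρ) ∧
      (∀ (j : Fin k) (ρ : L), ρ ^ 3 = ι (u j) → z ρ = ρ) ∧
      ∀ (j : Fin k) (ρ A : L), PrM x P Q P' Q' ι j ρ A → z A = A ∧
        ∀ g : L ≃ₐ[ℚ] L, g (ι w) = ι w ^ 2 → z (g A) = g A)
    ⟨fun _ _ => rfl, fun _ _ _ => rfl, fun _ _ _ _ => ⟨rfl, fun _ _ => rfl⟩⟩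
    (by
      rintro z z' ⟨h1, h2, h3⟩ ⟨h1', h2', h3'⟩
      refine ⟨fun ρ hρ => ?_, fun j ρ hρ => ?_, fun j ρ A hA => ⟨?_, fun g hg => ?_⟩⟩
      · rw [AlgEquiv.mul_apply, h1' ρ hρ, h1 ρ hρ]
      · rw [AlgEquiv.mul_apply, h2' j ρ hρ, h2 j ρ hρ]
      · rw [AlgEquiv.mul_apply, (h3' j ρ A hA).1, (h3 j ρ A hA).1]
      · rw [AlgEquiv.mul_apply, (h3' j ρ A hA).2 g hg, (h3 j ρ A hA).2 g hg])
    (by
      intro j i hji
      refine ⟨(g j * g i)⁻¹ * (g i * g j), ⟨?_, fun l ρ hρ => ?_, fun l k hlk ρ A hρ hA => ?_⟩,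
        fun ρ hρ => ?_, fun l ρ hρ => ?_, fun l ρ A hA => ⟨?_, fun τ hτ => ?_⟩⟩
      · obtain ⟨m, hm⟩ := hz (g j)
        obtain ⟨n, hn⟩ := hz (g i)
        have h1 : g i (g j ζ) = ι w ^ 0 * g j (g i ζ) := by
          rw [hm, hn, map_pow, map_pow, hm, hn, pow_zero, one_mul, ← pow_mul, ← pow_mul, mul_comm]
        rw [GC.comm_apply (g j) (g i) 0 (hgω j) (hgω i) ζ h1, pow_zero, one_mul]
      · have h1 : g i (g j ρ) = ι w ^ 0 * g j (g i ρ) := by
          rw [pow_zero, one_mul]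
          by_cases h2 : l = i
          · subst h2
            rw [hgρ l ρ hρ, hgρ' j l ρ hρ (ne_of_gt hji), hgρ l ρ hρ, map_mul, hgω j,
              hgρ' j l ρ hρ (ne_of_gt hji)]
          · by_cases h3 : l = j
            · subst h3
              rw [hgρ l ρ hρ, hgρ' i l ρ hρ h2, hgρ l ρ hρ, map_mul, hgω i, hgρ' i l ρ hρ h2]
            · rw [hgρ' i l ρ hρ h2, hgρ' j l ρ hρ h3, hgρ' i l ρ hρ h2]
        rw [GC.comm_apply (g j) (g i) 0 (hgω j) (hgω i) ρ h1, pow_zero, one_mul]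
      · have hsol := (hS.sol l k hlk.ne).toSolW
        by_cases h2 : (l, k) = (j, i)
        · rw [Prod.mk.injEq] at h2
          obtain ⟨rfl, rfl⟩ := h2
          simp only [if_true]
          have h1 : g k (g l A) = ι w ^ 1 * g l (g k A) :=
            GC.mv (g l) (g k) 1 hω hρ (hθ k) hsol (hgω l) (hgω k) (hgρ l ρ hρ)
              (hgρ' k l ρ hρ hlk.ne) (by rw [pow_one]; exact hgρ k _ (hθ k)) hA
          exact GC.comm_apply (g l) (g k) 1 (hgω l) (hgω k) A h1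
        · simp only [if_neg h2]
          have h1 : g i (g j A) = ι w ^ 0 * g j (g i A) := by
            by_cases h3 : l = j
            · subst h3
              have h4 : k ≠ i := fun h => h2 (by rw [h])
              exact GC.mv (g l) (g i) 0 hω hρ (hθ k) hsol (hgω l) (hgω i) (hgρ l ρ hρ)
                (hgρ' i l ρ hρ hji.ne)
                (by rw [pow_zero, one_mul]; exact hgρ' i k _ (hθ k) h4) hA
            · by_cases h4 : l = i
              · subst h4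
                have h5 : k ≠ j := (hji.trans hlk).ne'
                have h6 := GC.mv (g l) (g j) 0 hω hρ (hθ k) hsol (hgω l) (hgω j) (hgρ l ρ hρ)
                  (hgρ' j l ρ hρ hji.ne')
                  (by rw [pow_zero, one_mul]; exact hgρ' j k _ (hθ k) h5) hA
                rw [pow_zero, one_mul] at h6 ⊢
                exact h6.symm
              · rw [pow_zero, one_mul]
                exact GC.fx (g j) (g i) hω hρ hsol (hgω j) (hgω i) (hgρ' j l ρ hρ h3)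
                  (hgρ' i l ρ hρ h4) hA
          have h5 := GC.comm_apply (g j) (g i) 0 (hgω j) (hgω i) A h1
          rw [ZMod.val_zero]
          exact h5
      · have f0 : ∀ i, g i ρ = ρ := fun i => by
          rw [(hgK i).2.1 ρ hρ, ZMod.val_zero, pow_zero, one_mul]
        have h1 : g i (g j ρ) = ι w ^ 0 * g j (g i ρ) := by
          rw [f0 i, f0 j, f0 i, pow_zero, one_mul]
        rw [GC.comm_apply (g j) (g i) 0 (hgω j) (hgω i) ρ h1, pow_zero, one_mul]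
      · have f0 : ∀ i, g i ρ = ρ := fun i => by
          rw [(hgK i).2.2 l ρ hρ, Pi.zero_apply, ZMod.val_zero, pow_zero, one_mul]
        have h1 : g i (g j ρ) = ι w ^ 0 * g j (g i ρ) := by
          rw [f0 i, f0 j, f0 i, pow_zero, one_mul]
        rw [GC.comm_apply (g j) (g i) 0 (hgω j) (hgω i) ρ h1, pow_zero, one_mul]
      · exact JC2.comA hnz (hgK j) (hgK i) l ρ A hA
      · exact JC2.comgA hnz hSK.cx hSK.cb (hgK j) (hgK i) l ρ A hA τ hτ)
    v
  exact ⟨z, ⟨hzR.1, hz1, hz2, fun i ρ hρ => hzR.2.1 i ρ hρ⟩,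
    fun j i ρ A hji hA => hzR.2.2 j i hji ρ A hA.1 hA.2, hz3⟩

end Pool.Agent.PTK
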