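import Pool.Agent.PTK.StJ
import Pool.Agent.PTK.GKK

/-!
# JKU: Kummer theory over `K = Q(w)` for all classes together
-/

set_option autoImplicit false

open NumberField IsDedekindDomain Finset
open scoped nonZeroDivisors Pointwise

namespace Pool.Agent.PTK

open Pool.Agent.Lib_helper18 Pool.Agent.Lib_helper18.Eis Pool.Agent.Lib_helper84.Cub
open Pool.Agent.PT Pool.Agent.PTE Pool.Agent.PT3 Pool.Agent.PTL Pool.Agent.PTN

namespace JKU

/-- A rational integer whose square is a cube in `Eis` is a cube. -/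
theorem cube_int {D : ℤ} (hD : D ≠ 0) {r : Eis} (h : r ^ 3 = (D : Eis) ^ 2) :
    ∃ m : ℤ, m ^ 3 = D := by
  have h1 : r.norm ^ 3 = (D ^ 2) ^ 2 := by
    have h2 := congrArg Eis.norm h
    rw [norm_pow, norm_pow, norm_intCast] at h2
    exact h2
  have h3 : D ^ 3 ∣ r.norm ^ 3 := ⟨D, by rw [h1]; ring⟩
  have h4 : D ∣ r.norm := (Int.pow_dvd_pow_iff three_ne_zero).1 h3
  obtain ⟨m, hm⟩ := h4
  refine ⟨m, ?_⟩
  rw [hm] at h1
  have h5 : D ^ 3 * m ^ 3 = D ^ 3 * D := by rw [← mul_pow, h1]; ring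
  exact mul_left_cancel₀ (pow_ne_zero 3 hD) h5

theorem cast_zero {n : ℤ} (h : (n : Eis) = 0) : n = 0 := by
  have h1 := congrArg Eis.re h
  rw [intCast_re, zero_re] at h1
  exact h1

/-- Divisibility of cubes. -/
theorem dvd_cube {a b : Eis} (h : a ^ 3 ∣ b ^ 3) : a ∣ b :=
  (IsIntegrallyClosed.pow_dvd_pow_iff (R := Eis) three_ne_zero).1 h

theorem x_ne {k : ℕ} {x : Eis} {u P Q P' Q' : Fin k → Eis} (hK : SysK x u P Q P' Q') :
    x ≠ 0 := by
  rintro rfl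
  refine hK.ind 1 (fun _ => 0) (Or.inl (by norm_num)) ⟨0, ?_⟩
  rw [pow_one, zero_mul]
  ring

theorem u_ne {k : ℕ} {x : Eis} {u P Q P' Q' : Fin k → Eis} (hK : SysK x u P Q P' Q')
    (j : Fin k) : u j ≠ 0 := by
  intro hj
  refine hK.ind 0 (fun l => if l = j then 1 else 0) (Or.inr ⟨j, by simp⟩) ⟨0, ?_⟩
  rw [zero_pow three_ne_zero, pow_zero, one_mul]
  symm
  exact Finset.prod_eq_zero (Finset.mem_univ j) (by simp [hj])

theorem b_ne {s : ℕ} {b : Fin s → ℤ} {p q p' q' : Fin s → Fin s → ℤ} (hG : SysG b p q p' q')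
    (j : Fin s) : b j ≠ 0 := by
  intro hj
  refine hG.ind (fun l => if l = j then 1 else 0) ⟨j, by simp⟩ ⟨0, ?_⟩
  rw [zero_pow three_ne_zero]
  symm
  exact Finset.prod_eq_zero (Finset.mem_univ j) (by simp [hj])

/-- Independence of all classes. -/
theorem indep {s k : ℕ} {b : Fin s → ℤ} {p q p' q' : Fin s → Fin s → ℤ}
    {x : Eis} {u P Q P' Q' : Fin k → Eis} (hG : SysG b p q p' q') (hK : SysK x u P Q P' Q')
    (c₀ : ℕ) (c : Fin k → ℕ) (d : Fin s → ℕ) (t : Eis)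
    (h : t ^ 3 = (x ^ c₀ * ∏ j, u j ^ c j) * ∏ i, (b i : Eis) ^ d i) :
    3 ∣ c₀ ∧ (∀ j, 3 ∣ c j) ∧ ∀ i, 3 ∣ d i := by
  have hx0 : x ≠ 0 := x_ne hK
  have hu0 : ∀ j, u j ≠ 0 := u_ne hK
  have hb0 : ∀ i, b i ≠ 0 := b_ne hG
  obtain ⟨tx, htx⟩ := hK.cx
  choose tu htu using hK.cb
  obtain ⟨Z, hZ⟩ : ∃ Z : Eis, Z = x ^ c₀ * ∏ j, u j ^ c j := ⟨_, rfl⟩
  obtain ⟨D, hD⟩ : ∃ D : ℤ, D = ∏ i, b i ^ d i := ⟨_, rfl⟩
  obtain ⟨t₁, ht₁⟩ : ∃ t₁ : Eis, t₁ = tx ^ c₀ * ∏ j, tu j ^ c j := ⟨_, rfl⟩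
  have hDE : (∏ i, (b i : Eis) ^ d i) = (D : Eis) := by
    rw [hD, Int.cast_prod]
    exact Finset.prod_congr rfl fun i _ => (Int.cast_pow _ _).symm
  have hD0 : D ≠ 0 := by
    rw [hD]
    exact Finset.prod_ne_zero_iff.2 fun i _ => pow_ne_zero _ (hb0 i)
  have hZ0 : Z ≠ 0 := by
    rw [hZ]
    exact mul_ne_zero (pow_ne_zero _ hx0)
      (Finset.prod_ne_zero_iff.2 fun i _ => pow_ne_zero _ (hu0 i))
  rw [hDE, ← hZ] at h
  have hZZ : Z * conj Z = t₁ ^ 3 := by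
    rw [hZ, ht₁, map_mul, map_pow, map_prod]
    have e1 : ∀ j, conj (u j ^ c j) = conj (u j) ^ c j := fun j => map_pow _ _ _
    calc (x ^ c₀ * ∏ j, u j ^ c j) * (conj x ^ c₀ * ∏ j, conj (u j ^ c j))
        = (x * conj x) ^ c₀ * ∏ j, (u j * conj (u j)) ^ c j := by
          simp only [e1, mul_pow, Finset.prod_mul_distrib]
          ring
      _ = (tx ^ 3) ^ c₀ * ∏ j, (tu j ^ 3) ^ c j := by
          rw [htx]
          congr 1
          exact Finset.prod_congr rfl fun j _ => by rw [htu j]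
      _ = (tx ^ c₀ * ∏ j, tu j ^ c j) ^ 3 := by
          rw [mul_pow, ← Finset.prod_pow]
          congr 1
          · rw [← pow_mul, ← pow_mul, mul_comm]
          · exact Finset.prod_congr rfl fun j _ => by rw [← pow_mul, ← pow_mul, mul_comm]
  have ht₁0 : t₁ ≠ 0 := by
    rintro rfl
    rw [zero_pow three_ne_zero, mul_conj] at hZZ
    have h2 : Z.norm = 0 := cast_zero hZZ
    exact hZ0 (norm_eq_zero.1 h2)
  have hc : conj t ^ 3 = conj Z * D := by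
    rw [← map_pow, h, map_mul, conj_intCast]
  have hNN : (t * conj t) ^ 3 = t₁ ^ 3 * (D : Eis) ^ 2 := by
    rw [mul_pow, h, hc, ← hZZ]
    ring
  obtain ⟨r, hr⟩ := dvd_cube (⟨_, hNN⟩ : t₁ ^ 3 ∣ (t * conj t) ^ 3)
  have hr3 : r ^ 3 = (D : Eis) ^ 2 := by
    apply mul_left_cancel₀ (pow_ne_zero 3 ht₁0)
    rw [← hNN, hr]
    ring
  obtain ⟨m, hm⟩ := cube_int hD0 hr3
  have hd : ∀ i, 3 ∣ d i := by
    by_contra hcon
    push Not at hcon
    exact hG.ind d hcon ⟨m, by rw [hm, hD]⟩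
  have hm0 : (m : Eis) ≠ 0 := by
    intro h0
    have h1 : ((m ^ 3 : ℤ) : Eis) = 0 := by
      rw [Int.cast_pow, h0, zero_pow three_ne_zero]
    rw [hm] at h1
    exact hD0 (cast_zero h1)
  have h3 : t ^ 3 = (m : Eis) ^ 3 * Z := by
    rw [h, ← hm, Int.cast_pow]
    ring
  obtain ⟨t', ht'⟩ := dvd_cube (⟨Z, h3⟩ : (m : Eis) ^ 3 ∣ t ^ 3)
  have h4 : t' ^ 3 = Z := by
    apply mul_left_cancel₀ (pow_ne_zero 3 hm0)
    rw [← h3, ht']
    ring
  have h5 : ¬ (¬ 3 ∣ c₀ ∨ ∃ j, ¬ 3 ∣ c j) := fun hcon =>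
    hK.ind c₀ c hcon ⟨t', by rw [h4, hZ]⟩
  push Not at h5
  exact ⟨h5.1, h5.2, hd⟩

end JKU

open JKU in
/-- JKU: Kummer theory over `K` for all classes together. -/
theorem JKU_thm (hKUM : KUM) : Stmt_JKU := by
  intro s k b p q p' q' x u P Q P' Q' f L _ _ ζ ι hSG hSK hJ a₀ a v
  have hω := GTK.rel ι
  have := hJ.minus.gal
  obtain ⟨θ₀, hθ₀⟩ := hJ.minus.rx
  choose θ hθ using hJ.minus.rb
  choose η hη using hJ.plus.root
  let F := IntermediateField.adjoin ℚ {ι w}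
  let c : Option (Fin k) ⊕ Fin s → Eis :=
    Sum.elim (fun i => i.elim x u) (fun i => (b i : Eis))
  let V : Option (Fin k) ⊕ Fin s → ZMod 3 := Sum.elim (fun i => i.elim a₀ a) v
  have hc0 : ∀ i, c i ≠ 0 := by
    rintro ((_ | j) | i)
    · exact x_ne hSK
    · exact u_ne hSK j
    · intro h0
      have h1 : (b i : Eis) = 0 := h0
      exact b_ne hSG i (cast_zero h1)
  let A : Option (Fin k) ⊕ Fin s → L := Sum.elim (fun i => i.elim θ₀ θ) η
  have hA : ∀ i, A i ^ 3 = ι (c i) := by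
    rintro ((_ | j) | i)
    · exact hθ₀
    · exact hθ j
    · exact (hη i).trans (map_intCast ι (b i)).symm
  obtain ⟨g, hg⟩ := hKUM F L ⟨ι w, GKK.mem_F ι w⟩ (Option (Fin k) ⊕ Fin s)
    (fun i => ⟨ι (c i), GKK.mem_F ι _⟩) A
    (by
      apply Subtype.ext
      push_cast
      exact hω)
    (by
      intro i h
      have h1 : ι (c i) = 0 := congrArg Subtype.val h
      exact hc0 i (GKK.inj ι (by rw [h1, map_zero])))
    (fun i => hA i)
    (by
      rintro n ⟨β, hβ⟩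
      have h1 : ι (∏ i, c i ^ n i) = (β : L) ^ 3 := by
        have h2 := congrArg (algebraMap F L) hβ
        rw [map_pow, map_prod] at h2
        rw [map_prod]
        refine Eq.trans ?_ h2
        refine Finset.prod_congr rfl fun i _ => ?_
        rw [map_pow, map_pow]
        rfl
      obtain ⟨t, ht⟩ := GKK.cube_of ι β.2 h1
      rw [Fintype.prod_sum_type, Fintype.prod_option] at ht
      obtain ⟨h3, h4, h5⟩ := indep hSG hSK (n (Sum.inl none)) (fun j => n (Sum.inl (some j)))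
        (fun i => n (Sum.inr i)) t ht
      rintro ((_ | j) | i)
      · exact h3
      · exact h4 j
      · exact h5 i)
    V
  have hgω : g (ι w) = ι w := g.commutes (⟨ι w, GKK.mem_F ι w⟩ : F)
  have hroot : ∀ (i : Option (Fin k) ⊕ Fin s) (ρ : L), ρ ^ 3 = ι (c i) →
      g ρ = ι w ^ (V i).val * ρ := by
    intro i ρ hρ
    obtain ⟨l, hl⟩ := Pool.Agent.PT.GT.of_cube hω (hρ.trans (hA i).symm)
    have h2 := hg i
    change g (A i) = ι w ^ (V i).val * A i at h2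
    rw [hl, map_mul, h2, Pool.Agent.PT.GT.E, map_pow, hgω]
    ring
  refine ⟨g.restrictScalars ℚ, hgω, fun ρ hρ => ?_, fun j ρ hρ => ?_, fun i ρ hρ => ?_⟩
  · exact hroot (Sum.inl none) ρ hρ
  · exact hroot (Sum.inl (some j)) ρ hρ
  · exact hroot (Sum.inr i) ρ (hρ.trans (map_intCast ι (b i)).symm)

end Pool.Agent.PTK
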