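import Pool.Agent.PTK.StJ
import Pool.Agent.PT.GZERO
import Pool.Agent.PT.GFR

/-!
# JZ: existence of the joint governing field
-/

set_option autoImplicit false

open NumberField IsDedekindDomain Finset
open scoped nonZeroDivisors Pointwise

namespace Pool.Agent.PTK

open Pool.Agent.Lib_helper18 Pool.Agent.Lib_helper18.Eis Pool.Agent.Lib_helper84.Cub
open Pool.Agent.PT Pool.Agent.PTE Pool.Agent.PT3 Pool.Agent.PTL Pool.Agent.PTN

namespace JZ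

/-- ring homomorphisms from the Eisenstein integers to fields of characteristic zero are injective -/
theorem inj0 {L : Type} [Field L] [CharZero L] (ι : Eis →+* L) : Function.Injective ι := by
  rw [injective_iff_map_eq_zero]
  intro a ha
  have h1 : ι (a * conj a) = 0 := by rw [map_mul, ha, zero_mul]
  rw [mul_conj, map_intCast] at h1
  have h2 : a.norm = 0 := by exact_mod_cast h1
  exact norm_eq_zero.1 h2

theorem ne_of_prodE {L : Type} [Field L] [CharZero L] (ι : Eis →+* L) {p q p' q' x : Eis} {ρ : L}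
    (h1 : p ^ 3 + x * q ^ 3 ≠ 0) (h2 : p' ^ 3 + x * q' ^ 3 ≠ 0) (hρ : ρ ^ 3 = ι x) :
    aDE ι p q p' q' ρ ≠ 0 ∧ aNE ι p q p' q' ρ ≠ 0 := by
  have hω : ι w ^ 2 + ι w + 1 = 0 := by
    rw [← map_pow, ← map_add, ← map_one ι, ← map_add, w_rel, map_zero]
  have h3 : ι w ^ 3 = 1 := by linear_combination (ι w - 1) * hω
  have key : aDE ι p q p' q' ρ * aNE ι p q p' q' ρ *
      ((ι p + ι q * ρ) * (ι p' + ι q' * ρ)) =
      ι (p ^ 3 + x * q ^ 3) * ι (p' ^ 3 + x * q' ^ 3) := by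
    have e1 : ∀ u v : L, (u + v * ι w ^ 2 * ρ) * (u + v * ι w * ρ) * (u + v * ρ) =
        u ^ 3 + v ^ 3 * ρ ^ 3 := by
      intro u v
      linear_combination (u ^ 2 * v * ρ + u * v ^ 2 * ρ ^ 2 * ι w) * hω + v ^ 3 * ρ ^ 3 * h3
    have e2 := e1 (ι p) (ι q)
    have e3 := e1 (ι p') (ι q')
    rw [hρ] at e2 e3
    unfold aDE aNE
    rw [map_add, map_add, map_mul, map_mul, map_pow, map_pow, map_pow, map_pow]
    linear_combination ((ι p' + ι q' * ι w ^ 2 * ρ) * (ι p' + ι q' * ι w * ρ) *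
      (ι p' + ι q' * ρ)) * e2 + ((ι p) ^ 3 + ι q ^ 3 * ι x) * e3
  have hi := inj0 ι
  have hne : ι (p ^ 3 + x * q ^ 3) * ι (p' ^ 3 + x * q' ^ 3) ≠ 0 :=
    mul_ne_zero ((map_ne_zero_iff ι hi).2 h1) ((map_ne_zero_iff ι hi).2 h2)
  rw [← key] at hne
  exact ⟨left_ne_zero_of_mul (left_ne_zero_of_mul hne),
    right_ne_zero_of_mul (left_ne_zero_of_mul hne)⟩

theorem fin_roots (c : AlgebraicClosure ℚ) : {ρ : AlgebraicClosure ℚ | ρ ^ 3 = c}.Finite := by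
  classical
  refine (Polynomial.nthRoots 3 c).toFinset.finite_toSet.subset ?_
  intro ρ hρ
  simp only [Finset.mem_coe, Multiset.mem_toFinset]
  exact (Polynomial.mem_nthRoots (by norm_num)).2 hρ

end JZ

open JZ Pool.Agent.PT.GZERO in
/-- JZ: existence of the joint governing field. -/
theorem JZ_thm : Stmt_JZ := by
  intro s k b p q p' q' x u P Q P' Q' f hSys hSysK hf h9
  have : NeZero (f : AlgebraicClosure ℚ) := ⟨Nat.cast_ne_zero.2 hf.ne'⟩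
  have : NeZero f := ⟨hf.ne'⟩
  obtain ⟨ζ, hζ⟩ := HasEnoughRootsOfUnity.exists_primitiveRoot (AlgebraicClosure ℚ) f
  have hω := rel_of_prim (prim_pow hf h9 hζ)
  set ι₀ : Eis →+* AlgebraicClosure ℚ := GFR.lift (ζ ^ (f / 3)) hω with hι₀
  -- the plus part
  have hN : ∀ j i, j ≠ i → p j i ^ 3 + b j * q j i ^ 3 ≠ 0 ∧
      p' j i ^ 3 + b j * q' j i ^ 3 ≠ 0 := by
    intro j i hji
    have h1 := hSys.sol j i hji
    refine ⟨h1.n1, fun h2 => h1.n1 ?_⟩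
    rw [h1.eq, h2, mul_zero]
  have hA : ∀ (j i : Fin s) (ρ : AlgebraicClosure ℚ), ∃ A : AlgebraicClosure ℚ, j ≠ i →
      ρ ^ 3 = (b j : AlgebraicClosure ℚ) →
      A ^ 3 * aD (ζ ^ (f / 3)) (p j i) (q j i) (p' j i) (q' j i) ρ =
        aN (ζ ^ (f / 3)) (p j i) (q j i) (p' j i) (q' j i) ρ := by
    intro j i ρ
    obtain ⟨A, hA⟩ := IsAlgClosed.exists_pow_nat_eq
      (aN (ζ ^ (f / 3)) (p j i) (q j i) (p' j i) (q' j i) ρ /
        aD (ζ ^ (f / 3)) (p j i) (q j i) (p' j i) (q' j i) ρ) (n := 3) (by norm_num)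
    refine ⟨A, fun hji hρ => ?_⟩
    rw [hA, div_mul_cancel₀]
    exact (ne_of_prod hω (hN j i hji).1 (hN j i hji).2 hρ).1
  choose A hA using hA
  -- the minus part
  have hNK : ∀ j, P j ^ 3 + x * Q j ^ 3 ≠ 0 ∧ P' j ^ 3 + x * Q' j ^ 3 ≠ 0 := by
    intro j
    have h1 := hSysK.sol j
    refine ⟨h1.n1, fun h2 => h1.n1 ?_⟩
    rw [h1.eq, h2, mul_zero]
  have hB : ∀ (j : Fin k) (ρ : AlgebraicClosure ℚ), ∃ A : AlgebraicClosure ℚ, ρ ^ 3 = ι₀ x →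
      A ^ 3 * aDE ι₀ (P j) (Q j) (P' j) (Q' j) ρ = aNE ι₀ (P j) (Q j) (P' j) (Q' j) ρ := by
    intro j ρ
    obtain ⟨A, hA⟩ := IsAlgClosed.exists_pow_nat_eq
      (aNE ι₀ (P j) (Q j) (P' j) (Q' j) ρ / aDE ι₀ (P j) (Q j) (P' j) (Q' j) ρ) (n := 3)
      (by norm_num)
    refine ⟨A, fun hρ => ?_⟩
    rw [hA, div_mul_cancel₀]
    exact (ne_of_prodE ι₀ (hNK j).1 (hNK j).2 hρ).1
  choose B hB using hB
  have hroot : ∀ c : AlgebraicClosure ℚ, ∃ θ : AlgebraicClosure ℚ, θ ^ 3 = c :=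
    fun c => IsAlgClosed.exists_pow_nat_eq _ (by norm_num)
  obtain ⟨L, iF, iN, iG, ι, hι⟩ := exists_field
    ({ζ} ∪ ((⋃ j : Fin s, {ρ | ρ ^ 3 = (b j : AlgebraicClosure ℚ)}) ∪
      ({ρ | ρ ^ 3 = ι₀ x} ∪ ((⋃ j : Fin k, {ρ | ρ ^ 3 = ι₀ (u j)}) ∪
        ((⋃ j : Fin s, ⋃ i : Fin s, A j i '' {ρ | ρ ^ 3 = (b j : AlgebraicClosure ℚ)}) ∪
          ⋃ j : Fin k, B j '' {ρ | ρ ^ 3 = ι₀ x})))))
    ((Set.finite_singleton ζ).union ((Set.finite_iUnion fun j => fin_roots _).union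
      ((fin_roots _).union ((Set.finite_iUnion fun j => fin_roots _).union
        ((Set.finite_iUnion fun j => Set.finite_iUnion fun i => (fin_roots _).image _).union
          (Set.finite_iUnion fun j => (fin_roots _).image _))))))
  have hinj : Function.Injective ι := ι.injective
  obtain ⟨z, hz⟩ := hι ζ (Or.inl rfl)
  have hzp : IsPrimitiveRoot z f := by
    refine IsPrimitiveRoot.of_map_of_injective (f := ι) ?_ hinj
    rw [hz]
    exact hζ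
  have hzω : ι (z ^ (f / 3)) = ζ ^ (f / 3) := by rw [map_pow, hz]
  have hrel := rel_of_prim (prim_pow hf h9 hzp)
  set κ : Eis →+* L := GFR.lift (z ^ (f / 3)) hrel with hκ
  have hκw : κ w = z ^ (f / 3) := GFR.lift_w _ _
  have hcomp : ∀ a : Eis, ι (κ a) = ι₀ a := by
    intro a
    change ι ((a.re : L) + (a.im : L) * z ^ (f / 3)) =
      (a.re : AlgebraicClosure ℚ) + (a.im : AlgebraicClosure ℚ) * ζ ^ (f / 3)
    rw [map_add, map_mul, map_intCast, map_intCast, hzω]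
  have hNmap : ∀ (u v u' v' : ℤ) (ρ : L), ι (aN (z ^ (f / 3)) u v u' v' ρ) =
      aN (ζ ^ (f / 3)) u v u' v' (ι ρ) := by
    intro u v u' v' ρ
    unfold aN
    simp only [map_mul, map_add, map_pow, map_intCast, hz]
  have hDmap : ∀ (u v u' v' : ℤ) (ρ : L), ι (aD (z ^ (f / 3)) u v u' v' ρ) =
      aD (ζ ^ (f / 3)) u v u' v' (ι ρ) := by
    intro u v u' v' ρ
    unfold aD
    simp only [map_mul, map_add, map_pow, map_intCast, hz]
  have hNmapE : ∀ (a c a' c' : Eis) (ρ : L), ι (aNE κ a c a' c' ρ) =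
      aNE ι₀ a c a' c' (ι ρ) := by
    intro a c a' c' ρ
    unfold aNE
    simp only [map_mul, map_add, map_pow, hcomp]
  have hDmapE : ∀ (a c a' c' : Eis) (ρ : L), ι (aDE κ a c a' c' ρ) =
      aDE ι₀ a c a' c' (ι ρ) := by
    intro a c a' c' ρ
    unfold aDE
    simp only [map_mul, map_add, map_pow, hcomp]
  refine ⟨L, iF, iN, z, κ, ?_, ?_⟩
  · rw [hκw]
    refine ⟨iG, hzp, h9, rfl, hrel, ?_, ?_, ?_⟩
    · intro j
      obtain ⟨θ, hθ⟩ := hroot (b j : AlgebraicClosure ℚ)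
      obtain ⟨y, hy⟩ := hι θ (Or.inr (Or.inl (Set.mem_iUnion.2 ⟨j, hθ⟩)))
      refine ⟨y, hinj ?_⟩
      rw [map_pow, hy, hθ, map_intCast]
    · intro j i hji ρ hρ
      have hρ' : (ι ρ) ^ 3 = (b j : AlgebraicClosure ℚ) := by rw [← map_pow, hρ, map_intCast]
      obtain ⟨y, hy⟩ := hι (A j i (ι ρ)) (Or.inr (Or.inr (Or.inr (Or.inr (Or.inl
        (Set.mem_iUnion.2 ⟨j, Set.mem_iUnion.2 ⟨i, ⟨ι ρ, hρ', rfl⟩⟩⟩))))))
      refine ⟨y, hinj ?_⟩
      rw [map_mul, map_pow, hy, hDmap, hNmap]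
      exact hA j i (ι ρ) hji hρ'
    · intro j i hji ρ hρ
      exact ne_of_prod hrel (hN j i hji).1 (hN j i hji).2 hρ
  · refine ⟨iG, hzp, h9, hκw, ?_, ?_, ?_, ?_⟩
    · obtain ⟨θ, hθ⟩ := hroot (ι₀ x)
      obtain ⟨y, hy⟩ := hι θ (Or.inr (Or.inr (Or.inl hθ)))
      refine ⟨y, hinj ?_⟩
      rw [map_pow, hy, hθ, hcomp]
    · intro j
      obtain ⟨θ, hθ⟩ := hroot (ι₀ (u j))
      obtain ⟨y, hy⟩ := hι θ (Or.inr (Or.inr (Or.inr (Or.inl (Set.mem_iUnion.2 ⟨j, hθ⟩)))))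
      refine ⟨y, hinj ?_⟩
      rw [map_pow, hy, hθ, hcomp]
    · intro j ρ hρ
      have hρ' : (ι ρ) ^ 3 = ι₀ x := by rw [← map_pow, hρ, hcomp]
      obtain ⟨y, hy⟩ := hι (B j (ι ρ)) (Or.inr (Or.inr (Or.inr (Or.inr (Or.inr
        (Set.mem_iUnion.2 ⟨j, ⟨ι ρ, hρ', rfl⟩⟩))))))
      refine ⟨y, hinj ?_⟩
      rw [map_mul, map_pow, hy, hDmapE, hNmapE]
      exact hB j (ι ρ) hρ'
    · intro j ρ hρ
      exact ne_of_prodE κ (hNK j).1 (hNK j).2 hρ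

end Pool.Agent.PTK
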