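import Pool.Agent.PTK.StK
import Pool.Agent.PTL.AL

/-!
# LAM: the mean corank
-/

set_option autoImplicit false

namespace Pool.Agent.PTK

open Pool.Agent.PTL

namespace LAM

theorem even_le {s : ℕ} (hs : s % 2 = 0) :
    Esk s (fun c => (c : ℝ)) ≤ 1 / 4 * (4 - 3 / 3 ^ s) + -(1 / 4) := by
  refine AL.Esk_le s (fun c => (c : ℝ)) (1 / 4) (-(1 / 4)) (by norm_num) fun c hc => ?_
  have h2 := AL.pow_even (c := c) (by
    rintro rfl
    omega)
  have h4 : (4 * c + 1 : ℝ) ≤ 3 ^ c := by exact_mod_cast h2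
  linarith

theorem odd_le {s : ℕ} (hs : s % 2 = 1) :
    Esk s (fun c => (c : ℝ)) ≤ 1 / 12 * (4 - 3 / 3 ^ s) + 3 / 4 := by
  refine AL.Esk_le s (fun c => (c : ℝ)) (1 / 12) (3 / 4) (by norm_num) fun c hc => ?_
  have h2 := AL.pow_odd (c := c) (by omega)
  have h4 : (12 * c : ℝ) ≤ 3 ^ c + 9 := by exact_mod_cast h2
  linarith

theorem pow_ge (d : ℕ) (hd : 4 ≤ d) : 81 * (d + 1) ≤ 5 * 3 ^ d := by
  induction d, hd using Nat.le_induction with
  | base => norm_num
  | succ d hd ih =>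
    rw [pow_succ]
    omega

theorem le_all (s : ℕ) : Esk s (fun c => (c : ℝ)) ≤ 13 / 12 := by
  refine (AL.Esk_id s).trans ?_
  split_ifs <;> norm_num

end LAM

open LAM in
theorem LAM_thm : Stmt_LAM := by
  refine ⟨le_all, ?_⟩
  intro d
  rcases Nat.lt_or_ge d 4 with h | h
  · interval_cases d
    · norm_num
    · have h1 := even_le (s := 0) rfl
      norm_num at h1 ⊢
      linarith
    · have h1 := odd_le (s := 1) rfl
      norm_num at h1 ⊢
      linarith
    · have h1 := even_le (s := 2) rfl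
      norm_num at h1 ⊢
      linarith
  · have h1 := le_all (d - 1)
    have h2 : (0 : ℝ) < 3 ^ d := by positivity
    have h3 : (81 * (d + 1) : ℝ) ≤ 5 * 3 ^ d := by exact_mod_cast pow_ge d h
    have h4 : ((d : ℝ) + 1) / 3 ^ d ≤ 5 / 81 := by
      rw [div_le_div_iff₀ h2 (by norm_num)]
      linarith
    have h5 : (1 : ℝ) / 3 ^ d ≤ 1 := by
      rw [div_le_one h2]
      exact one_le_pow₀ (by norm_num)
    have h6 : (0 : ℝ) < 1 / 3 ^ d := by positivity
    have h7 : (1 - 1 / 3 ^ d) * Esk (d - 1) (fun c => (c : ℝ)) ≤ (1 - 1 / 3 ^ d) * (13 / 12) :=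
      mul_le_mul_of_nonneg_left h1 (by linarith)
    nlinarith

end Pool.Agent.PTK
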