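import Pool.Agent.PTK.StK
import Pool.Agent.PTK.CTK

/-!
# PTK_MSK: the primes for which `zN π e y` is the class of a point are in `SPK`, `SMK`
-/

set_option autoImplicit false

open NumberField IsDedekindDomain Finset
open scoped nonZeroDivisors Pointwise

namespace Pool.Agent.PTK

open Pool.Agent.Lib_helper18 Pool.Agent.Lib_helper18.Eis Pool.Agent.Lib_helper84.Cub
open Pool.Agent.PT Pool.Agent.PTE Pool.Agent.PT3 Pool.Agent.PTL Pool.Agent.PTN

open CTK in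
/-- PTK_MSK. -/
theorem MSK_thm (hSPP : SPP) (hDCK : Stmt_DCK) (hZS : Stmt_ZS) (hPT : Stmt_PT)
    (hZA : Stmt_ZA) : Stmt_MSK := by
  classical
  intro h n m k π p e r f w0 c hNF hh y hy s u P Q P' Q' hu hSys hHyp
  have hn0 : 0 < n := PT.FINA.pos_of_nf hNF
  have hN0 : 0 < 3 ^ h * n := Nat.mul_pos (pow_pos (by norm_num) _) hn0
  have hBB : ∀ E q : ℕ, ((BB h n E q : ℤ) : Eis) = ((3 ^ h * n : ℕ) : Eis) * (q : Eis) ^ E := by
    intro E q
    unfold BB
    push_cast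
    ring
  obtain ⟨hx0, -⟩ := hZA n m k π p e r f hNF y
  have hxnc : ¬ ∃ t : Eis, t ^ 3 = zN π e y := by
    rintro ⟨t, ht⟩
    refine hSys.ind 1 (fun _ => 0) (Or.inl (by norm_num)) ⟨t, ?_⟩
    rw [ht]
    simp
  have hnd : ∀ (v : Fin (m + 1) → ZMod 3) (q : ℕ), q.Prime → q % 3 = 2 → ¬ q ∣ n →
      ¬ (q : Eis) ∣ zN π e v := by
    intro v q hq hq3 hqn
    obtain ⟨-, -, -, h4, -⟩ := hZA n m k π p e r f hNF v
    obtain ⟨σ, hσ⟩ := hSPP.2.2.2.2.1 q hq hq3
    have h5 := h4 σ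
    rw [hσ] at h5
    exact h5 fun h6 => hqn (nat_dvd h6)
  -- the conductor
  choose F0 hF0 hF1 using fun j => hDCK (3 ^ h * n) (zN π e (u j)) (zN π e y) (P j) (Q j) (P' j)
    (Q' j) (hHyp j)
  refine ⟨∏ j, F0 j, Finset.prod_pos fun j _ => hF0 j, ?_⟩
  intro F hFpos hFdvd κ hκ1
  have hFd : ∀ j, F0 j ∣ F := fun j => (Finset.dvd_prod_of_mem F0 (mem_univ j)).trans hFdvd
  choose C Φ N₀ hC using fun j => hF1 j F hFpos (hFd j)
  have hMN : ∀ j, N₀ j ≤ ∑ j, N₀ j := fun j =>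
    Finset.single_le_sum (f := N₀) (fun i _ => Nat.zero_le _) (mem_univ j)
  have hmain : ∀ (E q : ℕ), (E = 1 ∨ E = 2) → q.Prime → 3 ^ h * n + F + ∑ j, N₀ j < q →
      q ∈ QY h n π e w0 c y E →
      ∃ hQ : q.Coprime F, sym (q : Eis) (zN π e y) = 0 ∧
        (∀ j, sym (q : Eis) (zN π e (u j)) = 0) ∧
        ∀ (j : Fin s) (ξ : Eis), (q : Eis) ∣ ξ ^ 3 - zN π e y →
          C j + E * ((Φ j (ZMod.unitOfCoprime q hQ)).toAdd -
            TAUE q (P j) (Q j) (P' j) (Q' j) ξ) = 0 := by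
    intro E q hE hq hqM ⟨hq3, hIn, hOcc⟩
    have hqN : ¬ q ∣ 3 ^ h * n := fun h => by
      have := Nat.le_of_dvd hN0 h
      omega
    have hqn : ¬ q ∣ n := fun h => hqN (Dvd.dvd.mul_left h _)
    have hQ : q.Coprime F := by
      rw [Nat.Prime.coprime_iff_not_dvd hq]
      intro h
      have := Nat.le_of_dvd hFpos h
      omega
    have hSel : ∀ v ∈ VS h n π p e r w0 c, ∀ σ : PP,
        tm σ.1 (zN π e v) (((3 ^ h * n : ℕ) : Eis) * (q : Eis) ^ E) = 0 := by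
      intro v hv σ
      have h1 := (hZS h n m k π p e r f w0 c E q hNF hh hE hq hq3 hIn hqn v hv).sym σ
      rwa [hBB] at h1
    have hB0 : BB h n E q ≠ 0 := by
      unfold BB
      have h3 : (3 : ℤ) ^ h ≠ 0 := pow_ne_zero _ (by norm_num)
      have h4 : (n : ℤ) ≠ 0 := by exact_mod_cast hn0.ne'
      have h5 : (q : ℤ) ^ E ≠ 0 := pow_ne_zero _ (by exact_mod_cast hq.ne_zero)
      exact mul_ne_zero (mul_ne_zero h3 h4) h5
    obtain ⟨X, Y, hpt⟩ := hPT (BB h n E q) (zN π e y) hB0 hx0 hxnc hOcc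
    rw [hBB] at hpt
    refine ⟨hQ, sym_zero hSPP hq hq3 hE hqN (hnd y q hq hq3 hqn) (hSel y hy),
      fun j => sym_zero hSPP hq hq3 hE hqN (hnd (u j) q hq hq3 hqn) (hSel (u j) (hu j).1), ?_⟩
    intro j ξ hξ
    exact hC j E q hQ hE hq (by have := hMN j; omega) hq3 (hSel (u j) (hu j).1) (hSel y hy)
      X Y ξ hpt hξ
  refine ⟨C, assemble Φ, 3 ^ h * n + F + ∑ j, N₀ j, ?_⟩
  intro q hq hqM
  constructor
  · intro hqY
    obtain ⟨hQ, h2, h3, h4⟩ := hmain 1 q (Or.inl rfl) hq hqM hqY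
    obtain ⟨hq3, hIn, -⟩ := hqY
    refine ⟨hQ, hq3, ?_, h2, h3, ?_⟩
    · rw [hκ1]
      funext i
      refine Fin.cases ?_ (fun i => ?_) i
      · rw [Fin.cons_zero, Fin.cons_zero]
        have h5 := hIn.1
        rw [pow_one] at h5
        exact h5
      · rw [Fin.cons_succ, Fin.cons_succ]
        have h5 := hIn.2 i
        rw [Nat.cast_one, one_mul] at h5
        exact h5
    · intro j ξ hξ
      have h5 := h4 j ξ hξ
      rw [assemble_apply]
      rw [Nat.cast_one, one_mul] at h5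
      linear_combination -h5
  · intro hqY
    obtain ⟨hQ, h2, h3, h4⟩ := hmain 2 q (Or.inr rfl) hq hqM hqY
    obtain ⟨hq3, hIn, -⟩ := hqY
    refine ⟨hQ, hq3, ?_, h2, h3, ?_⟩
    · rw [hκ1]
      funext i
      refine Fin.cases ?_ (fun i => ?_) i
      · rw [Fin.cons_zero, Pi.neg_apply, Fin.cons_zero]
        have h5 := hIn.1
        rw [CL.wt_sq2 hq3] at h5
        exact neg_of_two h5
      · rw [Fin.cons_succ, Pi.neg_apply, Fin.cons_succ]
        exact neg_of_two (hIn.2 i)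
    · intro j ξ hξ
      have h5 := h4 j ξ hξ
      rw [assemble_apply]
      rw [show ((2 : ℕ) : ZMod 3) = -1 from by decide] at h5
      linear_combination h5

end Pool.Agent.PTK
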