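import Pool.Agent.PTK.StK
import Pool.Agent.PTL.CL
import Pool.Agent.PT.BFINA
import Pool.Agent.PT.FINA

/-!
# PTK_MSP: the primes with large corank are in `SP`, `SM`
-/

set_option autoImplicit false

open NumberField IsDedekindDomain Finset
open scoped nonZeroDivisors Pointwise

namespace Pool.Agent.PTK

open Pool.Agent.Lib_helper18 Pool.Agent.Lib_helper18.Eis Pool.Agent.Lib_helper84.Cub
open Pool.Agent.PT Pool.Agent.PTE Pool.Agent.PT3 Pool.Agent.PTL Pool.Agent.PTN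

namespace MSP

theorem neg_of_two {x y : ZMod 3} (h : ((2 : ℕ) : ZMod 3) * x = y) : x = -y := by
  rw [← h]
  clear h y
  revert x
  decide

end MSP

open MSP in
/-- PTK_MSP: the primes with large corank are in `SP`, `SM`. -/
theorem MSP_thm (hDCOT : DCOT) (hTENT : TENT) (hNADT : Stmt_NADT) : Stmt_MSP := by
  classical
  intro h n m k π p e r f w0 c s τ' b X Y P Q P' Q' hNF hh hPl
  have hn0 : 0 < n := PT.FINA.pos_of_nf hNF
  have hN0 : 0 < 3 ^ h * n := Nat.mul_pos (pow_pos (by norm_num) _) hn0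
  have hBB : ∀ E q : ℕ, BB h n E q = ((3 ^ h * n : ℕ) : ℤ) * (q : ℤ) ^ E := by
    intro E q
    unfold BB
    push_cast
    ring
  have hAdN := hPl.adm
  have hSys := hPl.sys
  have hSw := hPl.sw
  have hLam := hPl.lam
  have hAdC : ∀ i, AdC h n π w0 c (b i) := fun i => (hAdN i).1
  have hb0 : ∀ i, b i ≠ 0 := fun i => (hAdC i).ne
  -- the conductor
  have hD : ∀ j i : Fin s, ∃ f₀ : ℕ, 0 < f₀ ∧ (j ≠ i → ∀ f : ℕ, 0 < f → f₀ ∣ f →
      ∃ (C : ZMod 3) (Φ : (ZMod f)ˣ →* Multiplicative (ZMod 3)),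
        ∀ (E q : ℕ) (hQ : q.Coprime f), q.Prime → q % 3 = 2 →
          AG (BB h n E q) (b i) →
          ∀ r : ℤ, (q : ℤ) ∣ r ^ 3 - b j →
            OT (BB h n E q) (b j) (X j) (Y j) (b i) (P j i) (Q j i) (P' j i) (Q' j i) =
            C + E * ((Φ (ZMod.unitOfCoprime q hQ)).toAdd -
              TAUV q (P j i) (Q j i) (P' j i) (Q' j i) r)) := by
    intro j i
    by_cases hji : j = i
    · exact ⟨1, one_pos, fun h => absurd hji h⟩
    · obtain ⟨f₀, h0, h1⟩ := hDCOT (3 ^ h * n) (b j) (X j) (Y j) (b i) (P j i) (Q j i) (P' j i)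
        (Q' j i) hN0 (hSys.sol j i hji) (hb0 j) (hb0 i)
      refine ⟨f₀, h0, fun _ f hf hd => ?_⟩
      obtain ⟨C, Φ, h2⟩ := h1 f hf hd
      refine ⟨C, Φ, fun E q hQ hq hq3 hAG r hr => ?_⟩
      rw [hBB] at hAG ⊢
      exact h2 E q hQ hq hq3 hAG r hr
  choose F0 hF0 hF1 using hD
  refine ⟨∏ j, ∏ i, F0 j i, Finset.prod_pos fun j _ => Finset.prod_pos fun i _ => hF0 j i, ?_⟩
  intro F hFpos hdF κ hκ
  have hFd : ∀ j i, F0 j i ∣ F := fun j i =>
    ((Finset.dvd_prod_of_mem (fun i => F0 j i) (mem_univ i)).trans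
      (Finset.dvd_prod_of_mem (fun j => ∏ i, F0 j i) (mem_univ j))).trans hdF
  have hC : ∀ j i : Fin s, ∃ (C : ZMod 3) (Φ : (ZMod F)ˣ →* Multiplicative (ZMod 3)),
      j ≠ i → ∀ (E q : ℕ) (hQ : q.Coprime F), q.Prime → q % 3 = 2 →
          AG (BB h n E q) (b i) →
          ∀ r : ℤ, (q : ℤ) ∣ r ^ 3 - b j →
            OT (BB h n E q) (b j) (X j) (Y j) (b i) (P j i) (Q j i) (P' j i) (Q' j i) =
            C + E * ((Φ (ZMod.unitOfCoprime q hQ)).toAdd -
              TAUV q (P j i) (Q j i) (P' j i) (Q' j i) r) := by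
    intro j i
    by_cases hji : j = i
    · exact ⟨0, 1, fun h => absurd hji h⟩
    · obtain ⟨C, Φ, h⟩ := hF1 j i hji F hFpos (hFd j i)
      exact ⟨C, Φ, fun _ => h⟩
  choose C Φ hC using hC
  let Φ' : (ZMod F)ˣ →* Multiplicative (Fin s → Fin s → ZMod 3) := PT.FINA.assemble Φ
  obtain ⟨M, hM⟩ : ∃ M, M = n + F := ⟨_, rfl⟩
  -- the matrix
  have hmat : ∀ (E q : ℕ), (E = 1 ∨ E = 2) → q.Prime → M < q → q % 3 = 2 → InCT E π w0 c q →
      ∃ hQ : q.Coprime F, ∀ τ : Fin s → Fin s → ZMod 3,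
        (∀ j i, j ≠ i → ∀ r : ℤ, (q : ℤ) ∣ r ^ 3 - b j →
          τ j i = TAUV q (P j i) (Q j i) (P' j i) (Q' j i) r) →
        MaT b X Y P Q P' Q' (BB h n E q) = alt fun j i =>
          C j i + E * ((Φ j i (ZMod.unitOfCoprime q hQ)).toAdd - τ j i) := by
    intro E q hE hq hqM hq3 hIn
    have hqn : ¬ q ∣ n := fun h => by
      have := Nat.le_of_dvd hn0 h
      omega
    have hQ : q.Coprime F := by
      rw [Nat.Prime.coprime_iff_not_dvd hq]
      intro h
      have := Nat.le_of_dvd hFpos h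
      omega
    obtain ⟨hBG, hTy, hiff⟩ := hNADT h n m k π p e r f w0 c E q hNF hh hE hq hq3 hIn hqn
    have hAG : ∀ i, AG (BB h n E q) (b i) := fun i =>
      ((hiff (b i) (hAdC i).supp).1 (hAdN i)).1
    refine ⟨hQ, ?_⟩
    intro τ hτ
    have hent : ∀ j i, j ≠ i → MaT b X Y P Q P' Q' (BB h n E q) j i =
        C j i + E * ((Φ j i (ZMod.unitOfCoprime q hQ)).toAdd - τ j i) := by
      intro j i hji
      obtain ⟨ρ, hρ⟩ := BFINA.exists_root hq hq3 (b j)
      rw [MaT, if_neg hji, hC j i hji E q hQ hq hq3 (hAG i) ρ hρ, ← hτ j i hji ρ hρ]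
    have hanti := (hTENT s τ' b X Y P Q P' Q' (BB h n E q) hSys hSw hBG hAG (hLam _ hTy) hb0).1
    ext j i
    rw [alt]
    rcases lt_trichotomy j i with h | h | h
    · rw [if_pos h, hent j i h.ne]
    · subst h
      rw [if_neg (lt_irrefl _), if_neg (lt_irrefl _), MaT, if_pos rfl]
    · rw [if_neg (not_lt.2 h.le), if_pos h, hanti j i, hent i j h.ne]
  refine ⟨C, Φ', M, ?_⟩
  intro q t hq hqM hq3
  constructor
  · intro hIn hrr
    obtain ⟨hQ, hm⟩ := hmat 1 q (Or.inl rfl) hq hqM hq3 hIn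
    refine ⟨hQ, hq3, ?_, ?_⟩
    · rw [hκ]
      funext i
      refine Fin.cases ?_ (fun i => ?_) i
      · rw [Fin.cons_zero, Fin.cons_zero]
        have h5 := hIn.1
        rw [pow_one] at h5
        exact h5
      · rw [Fin.cons_succ, Fin.cons_succ]
        have h5 := hIn.2 i
        rw [Nat.cast_one, one_mul] at h5
        exact h5
    · intro τ hτ
      have e1 : (fun j i => C j i + ((1 : ℕ) : ZMod 3) *
          ((Φ j i (ZMod.unitOfCoprime q hQ)).toAdd - τ j i)) =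
          C + (Φ' (ZMod.unitOfCoprime q hQ)).toAdd - τ := by
        funext j i
        show C j i + ((1 : ℕ) : ZMod 3) * ((Φ j i (ZMod.unitOfCoprime q hQ)).toAdd - τ j i) =
          C j i + (Φ j i (ZMod.unitOfCoprime q hQ)).toAdd - τ j i
        rw [Nat.cast_one]
        ring
      rw [← e1, ← hm τ hτ]
      exact hrr
  · intro hIn hrr
    obtain ⟨hQ, hm⟩ := hmat 2 q (Or.inr rfl) hq hqM hq3 hIn
    refine ⟨hQ, hq3, ?_, ?_⟩
    · rw [hκ]
      funext i
      refine Fin.cases ?_ (fun i => ?_) i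
      · rw [Fin.cons_zero, Pi.neg_apply, Fin.cons_zero]
        have h5 := hIn.1
        rw [CL.wt_sq2 hq3] at h5
        exact neg_of_two h5
      · rw [Fin.cons_succ, Pi.neg_apply, Fin.cons_succ]
        exact neg_of_two (hIn.2 i)
    · intro τ hτ
      have e1 : (fun j i => C j i + ((2 : ℕ) : ZMod 3) *
          ((Φ j i (ZMod.unitOfCoprime q hQ)).toAdd - τ j i)) =
          C - (Φ' (ZMod.unitOfCoprime q hQ)).toAdd + τ := by
        funext j i
        show C j i + ((2 : ℕ) : ZMod 3) * ((Φ j i (ZMod.unitOfCoprime q hQ)).toAdd - τ j i) =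
          C j i - (Φ j i (ZMod.unitOfCoprime q hQ)).toAdd + τ j i
        rw [show ((2 : ℕ) : ZMod 3) = -1 from by decide]
        ring
      rw [← e1, ← hm τ hτ]
      exact hrr

end Pool.Agent.PTK
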