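import Pool.Agent.PTK.StK
import Pool.Agent.PTE.FINAS

/-!
# PTK: the primes with large corank, `q = 1 (mod 3)`
-/

set_option autoImplicit false

open NumberField IsDedekindDomain Finset
open scoped nonZeroDivisors Pointwise

namespace Pool.Agent.PTK

open Pool.Agent.Lib_helper18 Pool.Agent.Lib_helper18.Eis Pool.Agent.Lib_helper84.Cub
open Pool.Agent.PT Pool.Agent.PTE Pool.Agent.PT3 Pool.Agent.PTL Pool.Agent.PTN

namespace MSPU

theorem BB_eq (h n E q : ℕ) : BB h n E q = ((3 ^ h * n : ℕ) : ℤ) * (q : ℤ) ^ E := by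
  unfold BB
  push_cast
  rfl

theorem cons_eq {m : ℕ} {x y : Fin (m + 1) → ZMod 3} (h0 : x 0 = y 0)
    (h1 : ∀ i : Fin m, x i.succ = y i.succ) : x = y := by
  funext i
  exact Fin.cases h0 h1 i

theorem neg_of_two {x y : ZMod 3} (h : 2 * x = y) : x = -y := by
  revert x y
  decide

/-- the restriction of a system to the first indices -/
theorem sysG_restr {s : ℕ} {b : Fin (s + 1) → ℤ} {P Q P' Q' : Fin (s + 1) → Fin (s + 1) → ℤ}
    (h : SysG b P Q P' Q') : SysG (rv b) (rs P) (rs Q) (rs P') (rs Q') where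
  ind := by
    rintro c ⟨i, hi⟩ ⟨t, ht⟩
    refine h.ind (Fin.snoc (α := fun _ => ℕ) c 0) ⟨i.castSucc, ?_⟩ ⟨t, ?_⟩
    · rw [Fin.snoc_castSucc]
      exact hi
    · rw [ht, Fin.prod_univ_castSucc, Fin.snoc_last, pow_zero, mul_one]
      refine Finset.prod_congr rfl fun j _ => ?_
      rw [Fin.snoc_castSucc]
      rfl
  sol j i hji := h.sol j.castSucc i.castSucc fun h1 => hji (Fin.castSucc_injective _ h1)

theorem sw_restr {s : ℕ} {P Q P' Q' : Fin (s + 1) → Fin (s + 1) → ℤ}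
    (h : SwS P Q P' Q') : SwS (rs P) (rs Q) (rs P') (rs Q') :=
  fun j i hji => h j.castSucc i.castSucc fun h1 => hji (Fin.castSucc_injective _ h1)

end MSPU

open MSPU in
/-- PTK_MSPU: the primes with large corank are in `SPU`, `SMU`, `q = 1 (mod 3)`. -/
theorem MSPU_thm (hDCOU : DCOU) (hTENT : TENT) (hNADU : Stmt_NADU) (hSPLT : SPLT) :
    Stmt_MSPU := by
  intro h n m k π p e r f w0 c d v δ s τ b X Y P Q P' Q' hNF hh _ hPl
  have hSys := hPl.sys
  have hSw := hPl.sw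
  have hAdN := hPl.adm
  have hn : 0 < n := FINAS.pos_of_nf hNF
  have hN0 : 0 < 3 ^ h * n := Nat.mul_pos (pow_pos (by norm_num) _) hn
  have hb : ∀ i, b i ≠ 0 := fun i => (hAdN i).1.ne
  have hD : ∀ j i : Fin s, ∃ f₀ : ℕ, 0 < f₀ ∧ ∀ F : ℕ, 0 < F → f₀ ∣ F →
      ∃ (C : ZMod 3) (Φ : (ZMod F)ˣ →* Multiplicative (ZMod 3)) (N₀ : ℕ), j ≠ i →
        ∀ (E q : ℕ) (hQ : q.Coprime F) (ρ : PP), (E = 1 ∨ E = 2) → q.Prime → N₀ < q →
          q % 3 = 1 → (q : Eis) = ρ.1 * conj ρ.1 →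
          AG (BB h n E q) (b j.castSucc) → AG (BB h n E q) (b i.castSucc) →
          ∀ t : ℤ, (q : ℤ) ∣ t ^ 3 - b j.castSucc →
          OT (BB h n E q) (b j.castSucc) (X j) (Y j) (b i.castSucc) (rs P j i) (rs Q j i)
            (rs P' j i) (rs Q' j i) = C + E * ((Φ (ZMod.unitOfCoprime q hQ)).toAdd +
              TAUVS ρ.1 (rs P j i) (rs Q j i) (rs P' j i) (rs Q' j i) t) := by
    intro j i
    by_cases hji : j = i
    · exact ⟨1, one_pos, fun F _ _ => ⟨0, 1, 0, fun h => absurd hji h⟩⟩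
    · obtain ⟨f₀, hf₀, hf⟩ := hDCOU (3 ^ h * n) (b j.castSucc) (X j) (Y j) (b i.castSucc)
        (rs P j i) (rs Q j i) (rs P' j i) (rs Q' j i) hN0
        (hSys.sol j.castSucc i.castSucc fun h => hji (Fin.castSucc_injective _ h)) (hb _) (hb _)
      refine ⟨f₀, hf₀, fun F hF hd => ?_⟩
      obtain ⟨C, Φ, N₀, h'⟩ := hf F hF hd
      refine ⟨C, Φ, N₀, fun _ E q hQ ρ hE hqp hqN hq3 hqρ hAj hAi t ht => ?_⟩
      rw [BB_eq] at hAj hAi ⊢
      exact h' E q hQ ρ hE hqp hqN hq3 hqρ hAj hAi t ht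
  choose f₀ hf₀ hD1 using hD
  refine ⟨∏ j, ∏ i, f₀ j i, Finset.prod_pos fun j _ => Finset.prod_pos fun i _ => hf₀ j i,
    fun F hF hdF κ hκ => ?_⟩
  have hfF : ∀ j i, f₀ j i ∣ F := fun j i =>
    ((Finset.dvd_prod_of_mem (fun i => f₀ j i) (mem_univ i)).trans
      (Finset.dvd_prod_of_mem (fun j => ∏ i, f₀ j i) (mem_univ j))).trans hdF
  choose C Φ N₀ hD2 using fun j i => hD1 j i F hF (hfF j i)
  have hN : ∀ j i, N₀ j i ≤ ∑ j, ∑ i, N₀ j i := by
    intro j i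
    exact (Finset.single_le_sum (f := fun i => N₀ j i) (fun i _ => Nat.zero_le _)
      (mem_univ i)).trans (Finset.single_le_sum (f := fun j => ∑ i, N₀ j i)
        (fun j _ => Nat.zero_le _) (mem_univ j))
  obtain ⟨M, hM⟩ : ∃ M, M = n + F + 3 + ∑ j, ∑ i, N₀ j i := ⟨_, rfl⟩
  -- the matrix
  have hmat : ∀ (E q t : ℕ), (E = 1 ∨ E = 2) → q.Prime → M < q → q % 3 = 1 → q ∈ Pat v δ →
      InCT E π w0 c q → t ≤ kU h n b X Y P Q P' Q' E q →
      ∃ (hQ : q.Coprime F) (ρ : PP), (q : Eis) = ρ.1 * conj ρ.1 ∧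
        (∀ j : Fin s, sym ρ.1 (b j.castSucc : Eis) = 0) ∧ sym ρ.1 (b (Fin.last s) : Eis) ≠ 0 ∧
        ∀ τ' : Fin s → Fin s → ZMod 3,
        (∀ j i, j ≠ i → ∀ r : ℤ, (q : ℤ) ∣ r ^ 3 - b j.castSucc →
          τ' j i = TAUVS ρ.1 (rs P j i) (rs Q j i) (rs P' j i) (rs Q' j i) r) →
        t ≤ s - (alt fun j i =>
          C j i + E * ((Φ j i (ZMod.unitOfCoprime q hQ)).toAdd + τ' j i)).rank := by
    intro E q t hE hq hqM hq3 hqP hIn htk
    obtain ⟨ρ, hqρ, hpat⟩ := hqP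
    have hqn : ¬ q ∣ n := fun h => by
      have := Nat.le_of_dvd hn h
      omega
    have hQ : q.Coprime F := by
      rw [Nat.Prime.coprime_iff_not_dvd hq]
      intro h
      have := Nat.le_of_dvd hF h
      omega
    have h3q : 3 < q := by omega
    have hρn : ¬ ρ.1 ∣ (n : Eis) := by
      intro h2
      have h4 := (hSPLT.2 q ρ hq hq3 hqρ).2.2.2.1 (n : ℤ)
      rw [Int.cast_natCast] at h4
      exact hqn (Int.natCast_dvd_natCast.1 (h4.1 h2))
    obtain ⟨hiff, -⟩ := hPl.pat ρ hρn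
    obtain ⟨hb0, hb1⟩ := hiff.2 hpat
    obtain ⟨hBG, hTy, hA⟩ := hNADU h n m k π p e r f w0 c E q ρ hNF hh hE hq hq3 hIn hqn hqρ
    have hAG : ∀ i : Fin s, AG (BB h n E q) (b i.castSucc) := fun i =>
      ((hA _ (hAdN i.castSucc).1.supp).1 ⟨hAdN i.castSucc, hb0 i⟩).1
    have hskew := (hTENT s τ (rv b) X Y _ _ _ _ _ (sysG_restr hSys) (sw_restr hSw) hBG
      hAG (hPl.lam _ hTy) (fun i => hb _)).1
    refine ⟨hQ, ρ, hqρ, hb0, hb1, fun τ' hτ' => ?_⟩
    have hent : ∀ j i, j ≠ i →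
        MaT (rv b) X Y (rs P) (rs Q) (rs P') (rs Q') (BB h n E q) j i =
        C j i + E * ((Φ j i (ZMod.unitOfCoprime q hQ)).toAdd + τ' j i) := by
      intro j i hji
      have hqb : ¬ (q : ℤ) ∣ b j.castSucc := fun h => by
        rcases (hq.dvd_mul).1 ((hAdN j.castSucc).1.supp q hq h) with h1 | h1
        · have := Nat.le_of_dvd (by norm_num) h1
          omega
        · exact hqn h1
      obtain ⟨x, hx⟩ := (hSPLT.2 q ρ hq hq3 hqρ).2.2.2.2.2 _ hqb (hb0 j)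
      unfold MaT
      rw [if_neg hji]
      refine (hD2 j i hji E q hQ ρ hE hq (by have := hN j i; omega) hq3 hqρ (hAG j) (hAG i) x
        hx).trans ?_
      rw [← hτ' j i hji x hx]
    have hMa : MaT (rv b) X Y (rs P) (rs Q) (rs P') (rs Q') (BB h n E q) = alt fun j i =>
        C j i + E * ((Φ j i (ZMod.unitOfCoprime q hQ)).toAdd + τ' j i) := by
      ext j i
      rw [alt]
      rcases lt_trichotomy j i with h | h | h
      · rw [if_pos h, hent j i h.ne]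
      · subst h
        rw [if_neg (lt_irrefl _), if_neg (lt_irrefl _), MaT, if_pos rfl]
      · rw [if_neg (not_lt.2 h.le), if_pos h, hskew j i, hent i j h.ne]
    rw [← hMa]
    exact htk
  refine ⟨C, FINAS.assemble Φ, M, fun q t hq hqM hq3 hqP => ⟨fun hIn htk => ?_,
    fun hIn htk => ?_⟩⟩
  · obtain ⟨hQ, ρ, hqρ, hb0, hb1, hm⟩ := hmat 1 q t (Or.inl rfl) hq hqM hq3 hqP hIn htk
    obtain ⟨hw, hc⟩ := hIn
    refine ⟨hQ, ρ, ⟨hq3, ?_, hqρ, hb0, hb1⟩, fun τ' hτ' => ?_⟩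
    · rw [hκ]
      refine cons_eq ?_ fun i => ?_
      · rw [Fin.cons_zero, Fin.cons_zero]
        rw [pow_one] at hw
        exact hw
      · rw [Fin.cons_succ, Fin.cons_succ, ← hc i, Nat.cast_one, one_mul]
    · have e1 : (fun j i => C j i + ((1 : ℕ) : ZMod 3) *
          ((Φ j i (ZMod.unitOfCoprime q hQ)).toAdd + τ' j i)) =
          C + (FINAS.assemble Φ (ZMod.unitOfCoprime q hQ)).toAdd + τ' := by
        funext j i
        show C j i + ((1 : ℕ) : ZMod 3) * ((Φ j i (ZMod.unitOfCoprime q hQ)).toAdd + τ' j i) =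
          C j i + (Φ j i (ZMod.unitOfCoprime q hQ)).toAdd + τ' j i
        rw [Nat.cast_one]
        ring
      rw [← e1]
      exact hm τ' hτ'
  · obtain ⟨hQ, ρ, hqρ, hb0, hb1, hm⟩ := hmat 2 q t (Or.inr rfl) hq hqM hq3 hqP hIn htk
    obtain ⟨hw, hc⟩ := hIn
    refine ⟨hQ, ρ, ⟨hq3, ?_, hqρ, hb0, hb1⟩, fun τ' hτ' => ?_⟩
    · rw [hκ]
      refine cons_eq ?_ fun i => ?_
      · rw [Fin.cons_zero, Pi.neg_apply, Fin.cons_zero]
        have h3 : ¬ (3 : ℤ) ∣ (q : ℤ) := by omega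
        have h4 := sq_mod_three h3
        have h5 : ((q : ℤ) ^ 2) ^ 2 = (q : ℤ) ^ 2 * (q : ℤ) ^ 2 := by ring
        rw [h5, wt_mul h4 h4] at hw
        exact neg_of_two (by rw [two_mul]; exact hw)
      · rw [Fin.cons_succ, Pi.neg_apply, Fin.cons_succ]
        exact neg_of_two (hc i)
    · have e1 : (fun j i => C j i + ((2 : ℕ) : ZMod 3) *
          ((Φ j i (ZMod.unitOfCoprime q hQ)).toAdd + τ' j i)) =
          C - (FINAS.assemble Φ (ZMod.unitOfCoprime q hQ)).toAdd - τ' := by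
        funext j i
        show C j i + ((2 : ℕ) : ZMod 3) * ((Φ j i (ZMod.unitOfCoprime q hQ)).toAdd + τ' j i) =
          C j i - (Φ j i (ZMod.unitOfCoprime q hQ)).toAdd - τ' j i
        rw [show ((2 : ℕ) : ZMod 3) = -1 from by decide]
        ring
      rw [← e1]
      exact hm τ' hτ'

end Pool.Agent.PTK
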