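import Pool.Agent.PTK.StK
import Pool.Agent.PTN.NBKU

/-!
# PTK_NBU: the bound for the rank, `q = 1 (mod 3)`, generic pattern
-/

set_option autoImplicit false

namespace Pool.Agent.PTK

open Pool.Agent.Lib_helper18 Pool.Agent.Lib_helper18.Eis Pool.Agent.Lib_helper84.Cub
open Pool.Agent.PT Pool.Agent.PTE Pool.Agent.PT3 Pool.Agent.PTL Pool.Agent.PTN

open Pool.Agent.PTN.NBKU in
/-- PTK_NBU: the bound for the rank, `q = 1 (mod 3)`, generic pattern.
Proof. As `NBKU_thm` (PTN/NBKU.lean) with `WGU` in place of `NPSU`: the index of the points is at most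
the product of the numbers of the classes in the minus part, at most `Nat.card WqS` by the second
bound of `WGU` (`b (Fin.last s)` is admissible and has a nonzero symbol at the `ρ` of `Pat v δ`), and in
the plus part, at most the number of the elements of the kernel of the matrix (`TENT`). -/
theorem NBU_thm (hK : Stmt_KID) (_hI : Stmt_NKIN) (hA : Stmt_NADU) (hL : Stmt_NPLU)
    (hTENT : TENT) (_hSPP : SPP) (hSPLT : SPLT) (hWGU : Stmt_WGU) : Stmt_NBU := by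
  classical
  intro h n m k π p e r f w0 c d v₀ δ s τ b X Y P Q P' Q' E q hN hh _ hPl hE hq hq3 hq1 hIn hqn
    hPat
  obtain ⟨ρ, hqρ, hpat⟩ := hPat
  have hρn : ¬ ρ.1 ∣ (n : Eis) := by
    intro h2
    have h4 := (hSPLT.2 q ρ hq hq1 hqρ).2.2.2.1 (n : ℤ)
    rw [Int.cast_natCast] at h4
    exact hqn (Int.natCast_dvd_natCast.1 (h4.1 h2))
  obtain ⟨hiff, hsp⟩ := hPl.pat ρ hρn
  obtain ⟨h0, h1⟩ := hiff.2 hpat
  have hgen := hsp h0 h1
  have hAd := hPl.adm
  have hSys := hPl.sys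
  have hSw := hPl.sw
  have hT := hPl.lam
  have hq3' : q ≠ 3 := by omega
  have hB0 : BB h n E q ≠ 0 := BB_ne hN hq
  have hcf := cubeFree (h := h) hN hh hE hq hq3' hqn
  have habs := abs_ge (h := h) hN hE hq hq3
  have hnc : ¬ ∃ t : ℤ, t ^ 3 = BB h n E q := by
    apply CubeRank.GenPf.not_cube hcf
    have h2 : ((BB h n E q).natAbs : ℤ) = |BB h n E q| := Int.natCast_natAbs _
    rw [← h2]
    exact_mod_cast habs
  obtain ⟨hBG, hTy, hAdm⟩ := hA h n m k π p e r f w0 c E q ρ hN hh hE hq hq1 hIn hqn hqρ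
  obtain ⟨⟨dd, hdd⟩, W, _, Ψ₁, -, hW, hΨ₁⟩ := hWGU h n m k π p e r f w0 c E q ρ hN hh hE hq hq3 hq1
    hIn hqn hqρ
  replace hW := hW ⟨_, hAd (Fin.last s), h1⟩
  unfold kU
  rw [hdd] at hW ⊢
  rw [Nat.log_pow (by norm_num : 1 < 3)]
  set B := BB h n E q with hBdef
  set M := MaT (rv b) X Y (rs P) (rs Q) (rs P') (rs Q') B with hM
  have hsupp : ∀ i : Fin (s + 1), ∀ l : ℕ, l.Prime → (l : ℤ) ∣ b i → l ∣ 3 * n := fun i =>
    (hAd i).1.supp
  have hAG : ∀ i : Fin s, AG B (rv b i) := fun i =>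
    ((hAdm (b i.castSucc) (hsupp _)).1 ⟨hAd _, h0 i⟩).1
  have hne : ∀ i : Fin s, rv b i ≠ 0 := fun i => (hAd i.castSucc).1.ne
  have hker := (hTENT s τ (rv b) X Y _ _ _ _ B (ECLU.sysG_restr hSys) (ECLU.sw_restr hSw) hBG hAG
    (hT B hTy) hne).2
  -- the class of a point of the isogenous curve
  have hz : ∀ z : ℤ, S2 B z → ∃ (g : Fin s → ℕ) (u v : ℤ) (j : ℕ), u ≠ 0 ∧ v ≠ 0 ∧
      z * B ^ j * u ^ 3 = (∏ i, rv b i ^ g i) * v ^ 3 ∧
      ∀ j, ∑ i, M j i * (g i : ZMod 3) = 0 := by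
    rintro z (rfl | ⟨A, m', hA0, hsum, hprod, hcop, rfl⟩)
    · exact ⟨fun _ => 0, 1, 1, 0, one_ne_zero, one_ne_zero, by simp, fun j => by simp⟩
    · obtain ⟨z', X1, Y1, u, v, j, hu, hv, hz', hPt, hAGz, hLoc, hs⟩ :=
        hL h n m k π p e r f E q A m' hN hh hE hq hq3' hqn hA0 hsum hprod hcop
      obtain ⟨g1, g2⟩ := (hAdm z' hs).2 ⟨hAGz, hLoc⟩
      obtain ⟨g, u', v', hu', hv', hg⟩ := hgen z' g1 g2
      change z' * u' ^ 3 = (∏ i, rv b i ^ g i) * v' ^ 3 at hg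
      refine ⟨g, v * u', v' * u, j, mul_ne_zero hv hu', mul_ne_zero hv' hu, ?_, ?_⟩
      · have e1 : A 0 ^ 2 * A 1 * B ^ j * (v * u') ^ 3 =
            (A 0 ^ 2 * A 1 * B ^ j * v ^ 3) * u' ^ 3 := by ring
        rw [e1, ← hz']
        linear_combination (u ^ 3) * hg
      · by_cases hex : ∃ i, ¬ 3 ∣ g i
        · exact hker g _ _ hex (pt_transport hPt hu' hv' hg)
        · push Not at hex
          intro j
          refine Finset.sum_eq_zero (fun i _ => ?_)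
          rw [(ZMod.natCast_eq_zero_iff (g i) 3).2 (hex i), mul_zero]
  choose! g u v j hu hv hzg hzM using hz
  let Ψ₂ : ℤ → LinearMap.ker M.mulVecLin := fun z =>
    if hS : S2 B z then ⟨fun i => (g z i : ZMod 3), by
      rw [LinearMap.mem_ker]
      funext j'
      exact hzM z hS j'⟩ else 0
  have hΨ₂ : ∀ z z', S2 B z → S2 B z' → Ψ₂ z = Ψ₂ z' →
      ∃ (u v : ℤ) (j : ℕ), u ≠ 0 ∧ v ≠ 0 ∧ z * u ^ 3 = z' * B ^ j * v ^ 3 := by
    intro z z' hS hS' hΨ
    have h2 : ∀ i, (g z i : ZMod 3) = g z' i := by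
      intro i
      have h3 := congrArg (fun x : LinearMap.ker M.mulVecLin => (x : Fin s → ZMod 3) i) hΨ
      simp only [Ψ₂, dif_pos hS, dif_pos hS'] at h3
      exact h3
    obtain ⟨A, A', hA0, hA0', hAA⟩ := BKER.prod_cube (rv b) hne (g z) (g z') h2
    refine ⟨B ^ j z * (u z * A * v z'), u z' * A' * v z, j z' + 2 * j z,
      mul_ne_zero (pow_ne_zero _ hB0) (mul_ne_zero (mul_ne_zero (hu z hS) hA0) (hv z' hS')),
      mul_ne_zero (mul_ne_zero (hu z' hS') hA0') (hv z hS), ?_⟩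
    have e1 := hzg z hS
    have e2 := hzg z' hS'
    generalize (∏ i, rv b i ^ g z i) = w1 at *
    generalize (∏ i, rv b i ^ g z' i) = w2 at *
    rw [pow_add, mul_comm 2 (j z), pow_mul]
    generalize B ^ j z = β at *
    generalize B ^ j z' = β' at *
    linear_combination (β ^ 2 * A ^ 3 * v z' ^ 3) * e1 - (β ^ 2 * A' ^ 3 * v z ^ 3) * e2 +
      (β ^ 2 * v z ^ 3 * v z' ^ 3) * hAA
  obtain ⟨hfin, hidx⟩ := hK B hB0 hcf hnc W (LinearMap.ker M.mulVecLin) Ψ₁ Ψ₂ hΨ₁ hΨ₂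
  have hkerd : Module.finrank (ZMod 3) (LinearMap.ker M.mulVecLin) = s - M.rank := by
    have h2 := LinearMap.finrank_range_add_finrank_ker M.mulVecLin
    rw [Module.finrank_fintype_fun_eq_card, Fintype.card_fin] at h2
    have h3 : Module.finrank (ZMod 3) (LinearMap.range M.mulVecLin) = M.rank := rfl
    omega
  rw [Module.natCard_eq_pow_finrank (K := ZMod 3) (V := LinearMap.ker M.mulVecLin), Nat.card_zmod,
    hkerd] at hidx
  refine CubeRank.gen' B hcf habs _ hfin (hidx.trans ?_)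
  rw [pow_add]
  exact Nat.mul_le_mul_right _ hW

end Pool.Agent.PTK
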