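import Pool.Agent.PTK.StK
import Pool.Agent.PTN.NBK0

/-!
# PTK_NBZ: the bound for the rank, `q = 1 (mod 3)`, without the matrix
-/

set_option autoImplicit false

open NumberField IsDedekindDomain Finset
open scoped nonZeroDivisors Pointwise

namespace Pool.Agent.PTK

open Pool.Agent.Lib_helper18 Pool.Agent.Lib_helper18.Eis Pool.Agent.Lib_helper84.Cub
open Pool.Agent.PT Pool.Agent.PTE Pool.Agent.PT3 Pool.Agent.PTL Pool.Agent.PTN

open Pool.Agent.PTN.NBK0 in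
/-- PTK_NBZ: the bound for the rank, `q = 1 (mod 3)`, without the matrix. As `NBK0_thm` with `WGU` in
place of `NPSU`. -/
theorem NBZ_thm (hK : Stmt_KID) (hA : Stmt_NADU) (hL : Stmt_NPLU) (hV : Stmt_NVEC)
    (hSPLT : SPLT) (hWGU : Stmt_WGU) : Stmt_NBZ := by
  classical
  intro h n m k π p e r f w0 c E q hN hh hE hq hq3 hq1 hcl hqn
  obtain ⟨ρ, hρ⟩ := hSPLT.1 q hq hq1
  have hB0 : BB h n E q ≠ 0 := BB_ne hN hq
  have hcf := cubeFree_BB hN hh hE hq hq3 hqn
  have h3le : 3 ≤ (BB h n E q).natAbs := three_le hN hE hq hq3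
  have hnc : ¬ ∃ t : ℤ, t ^ 3 = BB h n E q :=
    CubeRank.GenPf.not_cube hcf (by rw [Int.abs_eq_natAbs]; exact_mod_cast h3le)
  obtain ⟨⟨dd, hdd⟩, W, hWfin, Y, hWc, -, hY⟩ := hWGU h n m k π p e r f w0 c E q ρ hN hh hE hq hq3
    hq1 hcl hqn hρ
  obtain ⟨-, -, hAd⟩ := hA h n m k π p e r f w0 c E q ρ hN hh hE hq hq1 hcl hqn hρ
  obtain ⟨hV1, hV2, -⟩ := hV h n m k π p e r f w0 c hN hh
  have hrep : ∀ z : ℤ, S2 (BB h n E q) z →
      ∃ z' : ℤ, Rp h n π p e r w0 c (BB h n E q) z z' := by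
    rintro z (rfl | ⟨a, m', ha, hs, hpr, hco, rfl⟩)
    · refine ⟨1, one_ne_zero, ?_, ?_, 1, 1, 0, one_ne_zero, one_ne_zero, by ring⟩
      · intro l hl hd
        have h1 : l ∣ 1 := by exact_mod_cast hd
        exact absurd (Nat.dvd_one.1 h1) hl.one_lt.ne'
      · rw [exv_one]
        exact Submodule.zero_mem _
    · obtain ⟨z', X, Y', u, v, j, hu, hv, he, -, hag, hloc, hsupp⟩ :=
        hL h n m k π p e r f E q a m' hN hh hE hq (by omega) hqn ha hs hpr hco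
      have hadm := ((hAd z' hsupp).2 ⟨hag, hloc⟩).1
      exact ⟨z', hag.ne, hsupp, (hV1 z' hag.ne hsupp).1 hadm, u, v, j, hu, hv, he⟩
  have hUfin : Finite (US h n π p e r w0 c) := inferInstance
  let Ψ : ℤ → US h n π p e r w0 c := fun z =>
    if hz : ∃ z' : ℤ, Rp h n π p e r w0 c (BB h n E q) z z' then
      ⟨exv p r hz.choose, hz.choose_spec.2.2.1⟩ else 0
  have hΨ : ∀ z (hz : ∃ z' : ℤ, Rp h n π p e r w0 c (BB h n E q) z z'),
      (Ψ z : Col m k → ZMod 3) = exv p r hz.choose := by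
    intro z hz
    change ((if hz : ∃ z' : ℤ, Rp h n π p e r w0 c (BB h n E q) z z' then
      (⟨exv p r hz.choose, hz.choose_spec.2.2.1⟩ : US h n π p e r w0 c) else 0 :
      US h n π p e r w0 c) : Col m k → ZMod 3) = _
    rw [dif_pos hz]
  have hkid := hK (BB h n E q) hB0 hcf hnc W (US h n π p e r w0 c) Y Ψ hY ?_
  · obtain ⟨hfi, hidx⟩ := hkid
    refine CubeRank.gen' (BB h n E q) hcf h3le _ hfi (hidx.trans ?_)
    have hU : Nat.card (US h n π p e r w0 c) = 3 ^ sN h n π p e r w0 c := by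
      have h1 := Module.natCard_eq_pow_finrank (K := ZMod 3) (V := US h n π p e r w0 c)
      rw [Nat.card_zmod] at h1
      exact h1
    have hW1 : Nat.card W ≤ 3 ^ (dd + 1) := by
      rw [hdd] at hWc
      rw [pow_succ']
      exact hWc
    rw [hdd, Nat.log_pow (by norm_num : 1 < 3), hU, pow_add]
    exact Nat.mul_le_mul_right _ hW1
  · intro z z' h1 h2 he
    have hz := hrep z h1
    have hz' := hrep z' h2
    have he' : exv p r hz.choose = exv p r hz'.choose := by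
      rw [← hΨ z hz, ← hΨ z' hz', he]
    obtain ⟨g1, g2, -, u1, v1, j1, hu1, hv1, e1⟩ := hz.choose_spec
    obtain ⟨g1', g2', -, u2, v2, j2, hu2, hv2, e2⟩ := hz'.choose_spec
    obtain ⟨a, b, ha, hb, hab⟩ := (hV2 _ _ g1 g1' g2 g2').2 he'
    exact ⟨BB h n E q ^ j1 * v1 * a * u2, v2 * b * u1, j2 + 2 * j1,
      mul_ne_zero (mul_ne_zero (mul_ne_zero (pow_ne_zero _ hB0) hv1) ha) hu2,
      mul_ne_zero (mul_ne_zero hv2 hb) hu1, join e1 e2 hab⟩

end Pool.Agent.PTK
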