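import Pool.Agent.PTK.StK

/-!
# PTK_PLE: existence of a system for the plus part
-/

set_option autoImplicit false

open NumberField IsDedekindDomain Finset
open scoped nonZeroDivisors Pointwise

namespace Pool.Agent.PTK

open Pool.Agent.Lib_helper18 Pool.Agent.Lib_helper18.Eis Pool.Agent.Lib_helper84.Cub
open Pool.Agent.PT Pool.Agent.PTE Pool.Agent.PT3 Pool.Agent.PTL Pool.Agent.PTN

theorem PLE_thm (hNBAS : Stmt_NBAS) (hESYT : ESYT) : Stmt_PLE := by
  intro h n m k π p e r f w0 c hNF hh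
  obtain ⟨s, τ, b, X, Y, hs, hadm, hV, hind, h3, hlam, hgen⟩ :=
    hNBAS h n m k π p e r f w0 c hNF hh
  obtain ⟨P, Q, P', Q', hSys, hSw⟩ := hESYT h n m k π p e r f w0 c s b hNF
    (fun i => (hadm i).1) hV hind h3
  exact ⟨s, τ, b, X, Y, P, Q, P', Q', hs, ⟨hadm, hSys, hSw, hlam, hgen⟩⟩

end Pool.Agent.PTK
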