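import Pool.Agent.PTK.StK

/-!
# Existence of the systems, `q = 1 (mod 3)`
-/

set_option autoImplicit false

open NumberField IsDedekindDomain Finset
open scoped nonZeroDivisors Pointwise

namespace Pool.Agent.PTK

open Pool.Agent.Lib_helper18 Pool.Agent.Lib_helper18.Eis Pool.Agent.Lib_helper84.Cub
open Pool.Agent.PT Pool.Agent.PTE Pool.Agent.PT3 Pool.Agent.PTL Pool.Agent.PTN

/-- PTK_PLU: existence of the systems. -/
theorem PLU_thm (hESYT : ESYT) : Stmt_PLU := by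
  intro h n m k π p e r f w0 c d v hNF hh hHB δ hδ
  obtain ⟨hv, hspan, hδ'⟩ := hHB
  obtain ⟨s, τ, b, X, Y, hs, hAdN, hV, hind, h3, hLam, hρ⟩ := hδ' δ hδ
  obtain ⟨P, Q, P', Q', hSys, hSw⟩ := hESYT h n m k π p e r f w0 c (s + 1) b hNF
    (fun i => (hAdN i).1) hV hind h3
  exact ⟨s, τ, b, X, Y, P, Q, P', Q', ⟨hs, hAdN, hSys, hSw, hLam, hρ⟩⟩

end Pool.Agent.PTK
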