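import Pool.Agent.PTK.StK
import Pool.Agent.PTN.CAB

/-!
# The average of `3^r`: from `UpS` to `AboveA`
-/

set_option autoImplicit false

open NumberField IsDedekindDomain Finset
open scoped nonZeroDivisors Pointwise

namespace Pool.Agent.PTK

open Pool.Agent.Lib_helper18 Pool.Agent.Lib_helper18.Eis Pool.Agent.Lib_helper84.Cub
open Pool.Agent.PT Pool.Agent.PTE Pool.Agent.PT3 Pool.Agent.PTL Pool.Agent.PTN

namespace UPA

/-- a term with a weight in `[0, 1]` -/
theorem term_le (P : Prop) [Decidable P] (a b : ℝ) (h0 : 0 ≤ b) (h1 : b ≤ 1) :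
    |if P then a * b else 0| ≤ |a| := by
  split_ifs
  · rw [abs_mul, abs_of_nonneg h0]
    exact mul_le_of_le_one_right (abs_nonneg a) h1
  · rw [abs_zero]
    exact abs_nonneg a

end UPA

open Classical in
/-- from `UpS` to `AboveA` -/
theorem UPA_thm (hSPP : SPP) : Stmt_UPA := by
  intro h n m k π p e r f w0 c a F x hN hU
  obtain ⟨S, hS⟩ : ∃ S : ℕ → Set ℕ, S = fun E => {q : ℕ | q % 3 = a ∧ InCT E π w0 c q} :=
    ⟨_, rfl⟩
  rw [← hS] at hU
  obtain ⟨K, hK⟩ := hU
  refine ⟨K + ∑ E ∈ ({1, 2} : Finset ℕ), ∑ q ∈ univ.image p, 2 * |F (BB h n E q)|,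
    fun σ h1 h2 T => ?_⟩
  have e1 := hK σ h1 h2 T
  have e2 : SumA ((3 ^ h * n : ℕ) : ℤ) a (Kl π w0 c) F σ T ≤
      ∑ E ∈ ({1, 2} : Finset ℕ), ∑ q ∈ T,
        (if q.Prime ∧ q ∈ S E then
          F (BB h n E q) * (q : ℝ) ^ (-σ) else 0) +
      ∑ E ∈ ({1, 2} : Finset ℕ), ∑ q ∈ univ.image p, 2 * |F (BB h n E q)| := by
    unfold SumA
    rw [← Finset.sum_add_distrib]
    refine Finset.sum_le_sum fun E _ => ?_
    have hB : ∀ q : ℕ, ((3 ^ h * n : ℕ) : ℤ) * (q : ℤ) ^ E = BB h n E q := by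
      intro q
      unfold BB
      push_cast
      ring
    have e3 : ∑ q ∈ T, (if q ∈ univ.image p then 2 * |F (BB h n E q)| else 0) ≤
        ∑ q ∈ univ.image p, 2 * |F (BB h n E q)| := by
      rw [← Finset.sum_filter]
      refine Finset.sum_le_sum_of_subset_of_nonneg ?_ fun q _ _ =>
        mul_nonneg zero_le_two (abs_nonneg _)
      intro q hq
      exact (Finset.mem_filter.1 hq).2
    refine le_trans ?_ (add_le_add_right e3 _)
    rw [← Finset.sum_add_distrib]
    refine Finset.sum_le_sum fun q _ => ?_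
    rw [hB]
    by_cases hqp : q ∈ univ.image p
    · rw [if_pos hqp]
      obtain ⟨i, _, hi⟩ := Finset.mem_image.1 hqp
      have hq : q.Prime := hi ▸ hN.pp i
      have hq0 : 0 ≤ (q : ℝ) ^ (-σ) := Real.rpow_nonneg (Nat.cast_nonneg q) _
      have hq1 : (q : ℝ) ^ (-σ) ≤ 1 :=
        Real.rpow_le_one_of_one_le_of_nonpos (by exact_mod_cast hq.one_lt.le) (by linarith)
      have t1 := UPA.term_le (q.Prime ∧ q % 3 = a ∧ Kl π w0 c ((q : ℤ) ^ E)) (F (BB h n E q))
        ((q : ℝ) ^ (-σ)) hq0 hq1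
      have t2 := UPA.term_le
        (q.Prime ∧ q ∈ S E) (F (BB h n E q))
        ((q : ℝ) ^ (-σ)) hq0 hq1
      have t3 := (abs_le.1 t1).2
      have t4 := (abs_le.1 t2).1
      linarith
    · rw [if_neg hqp, add_zero]
      by_cases hq : q.Prime
      · have hqi : ∀ i, q ≠ p i := fun i hi =>
          hqp (Finset.mem_image.2 ⟨i, mem_univ _, hi.symm⟩)
        have hiff := CAB.kl_iff hSPP hN w0 c hq hqi E
        refine le_of_eq ?_
        refine if_congr ?_ rfl rfl
        rw [hiff, hS]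
        rfl
      · rw [if_neg fun hc => hq hc.1, if_neg fun hc => hq hc.1]
  rw [← add_assoc]
  exact e2.trans (add_le_add e1 (le_refl _))

end Pool.Agent.PTK
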