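import Pool.Agent.PTK.StK

/-!
# Module UPS (helper57): the calculus of `UpS`
-/

set_option autoImplicit false

open Finset

namespace Pool.Agent.PTK

namespace UPS

theorem log_nn (σ : ℝ) (h1 : 1 < σ) (h2 : σ ≤ 2) : 0 ≤ Real.log (1 / (σ - 1)) := by
  apply Real.log_nonneg
  rw [le_div_iff₀ (by linarith)]
  linarith

theorem rpow_le_one' (q : ℕ) (hq : q.Prime) (σ : ℝ) (h1 : 1 < σ) : (q : ℝ) ^ (-σ) ≤ 1 := by
  apply Real.rpow_le_one_of_one_le_of_nonpos
  · exact_mod_cast hq.one_lt.le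
  · linarith

end UPS

open Classical in
theorem UPS_thm : Stmt_UPS := by
  refine ⟨?_, ?_, ?_⟩
  · intro ι _ S G T G' x c M hc hG' hyp hU
    choose K hK using hU
    refine ⟨(∑ i, K i) / c + ∑ E ∈ ({1, 2} : Finset ℕ), ∑ q ∈ range (M + 1), |G E q|, ?_⟩
    intro σ h1 h2 U
    have term : ∀ E ∈ ({1, 2} : Finset ℕ), ∀ q ∈ U,
        (if q.Prime ∧ q ∈ S E then G E q * (q : ℝ) ^ (-σ) else 0) ≤
        (1 / c) * ∑ i, (if q.Prime ∧ q ∈ T i E then G' i E q * (q : ℝ) ^ (-σ) else 0) +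
          (if q ∈ range (M + 1) then |G E q| else 0) := by
      intro E hE q _
      have hp : 0 ≤ (q : ℝ) ^ (-σ) := Real.rpow_nonneg (Nat.cast_nonneg _) _
      have n1 : 0 ≤ (1 / c) * ∑ i, (if q.Prime ∧ q ∈ T i E then G' i E q * (q : ℝ) ^ (-σ) else 0) := by
        refine mul_nonneg (by positivity) (Finset.sum_nonneg fun i _ => ?_)
        split_ifs
        · exact mul_nonneg (hG' _ _ _) hp
        · exact le_rfl
      have n2 : 0 ≤ (if q ∈ range (M + 1) then |G E q| else 0) := by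
        split_ifs
        · exact abs_nonneg _
        · exact le_rfl
      by_cases hq : q.Prime ∧ q ∈ S E
      · rw [if_pos hq]
        by_cases hM : M < q
        · have hE' : E = 1 ∨ E = 2 := by simpa using hE
          have h3 := hyp E q hE' hq.1 hM hq.2
          have h4 : G E q * (q : ℝ) ^ (-σ) ≤ (1 / c) *
              ∑ i, (if q.Prime ∧ q ∈ T i E then G' i E q * (q : ℝ) ^ (-σ) else 0) := by
            have h5 : ∑ i, (if q.Prime ∧ q ∈ T i E then G' i E q * (q : ℝ) ^ (-σ) else 0) =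
                (∑ i, (if q ∈ T i E then G' i E q else 0)) * (q : ℝ) ^ (-σ) := by
              rw [Finset.sum_mul]
              refine Finset.sum_congr rfl fun i _ => ?_
              by_cases h6 : q ∈ T i E
              · rw [if_pos ⟨hq.1, h6⟩, if_pos h6]
              · rw [if_neg (fun h => h6 h.2), if_neg h6, zero_mul]
            rw [h5, ← mul_assoc]
            refine mul_le_mul_of_nonneg_right ?_ hp
            rw [one_div, ← div_eq_inv_mul, le_div_iff₀ hc, mul_comm]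
            exact h3
          linarith
        · have hr : q ∈ range (M + 1) := by
            rw [mem_range]
            omega
          rw [if_pos hr]
          have h7 : G E q * (q : ℝ) ^ (-σ) ≤ |G E q| := by
            calc G E q * (q : ℝ) ^ (-σ) ≤ |G E q| * (q : ℝ) ^ (-σ) :=
                  mul_le_mul_of_nonneg_right (le_abs_self _) hp
              _ ≤ |G E q| * 1 :=
                  mul_le_mul_of_nonneg_left (UPS.rpow_le_one' q hq.1 σ h1) (abs_nonneg _)
              _ = |G E q| := mul_one _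
          linarith
      · rw [if_neg hq]
        linarith
    have s1 : ∑ E ∈ ({1, 2} : Finset ℕ), ∑ q ∈ U,
        (if q.Prime ∧ q ∈ S E then G E q * (q : ℝ) ^ (-σ) else 0) ≤
        ∑ E ∈ ({1, 2} : Finset ℕ), ∑ q ∈ U,
        ((1 / c) * ∑ i, (if q.Prime ∧ q ∈ T i E then G' i E q * (q : ℝ) ^ (-σ) else 0) +
          (if q ∈ range (M + 1) then |G E q| else 0)) :=
      Finset.sum_le_sum fun E hE => Finset.sum_le_sum fun q hq => term E hE q hq
    have s2 : ∑ E ∈ ({1, 2} : Finset ℕ), ∑ q ∈ U,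
        ((1 / c) * ∑ i, (if q.Prime ∧ q ∈ T i E then G' i E q * (q : ℝ) ^ (-σ) else 0) +
          (if q ∈ range (M + 1) then |G E q| else 0)) =
        (1 / c) * ∑ i, ∑ E ∈ ({1, 2} : Finset ℕ), ∑ q ∈ U,
          (if q.Prime ∧ q ∈ T i E then G' i E q * (q : ℝ) ^ (-σ) else 0) +
        ∑ E ∈ ({1, 2} : Finset ℕ), ∑ q ∈ U, (if q ∈ range (M + 1) then |G E q| else 0) := by
      simp only [Finset.sum_add_distrib, ← Finset.mul_sum]
      congr 2
      have hcomm : ∀ g : ι → ℕ → ℕ → ℝ, ∑ E ∈ ({1, 2} : Finset ℕ), ∑ q ∈ U, ∑ i, g i E q =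
          ∑ i, ∑ E ∈ ({1, 2} : Finset ℕ), ∑ q ∈ U, g i E q := by
        intro g
        have h8 : ∀ E ∈ ({1, 2} : Finset ℕ), ∑ q ∈ U, ∑ i, g i E q = ∑ i, ∑ q ∈ U, g i E q :=
          fun E _ => Finset.sum_comm
        rw [Finset.sum_congr rfl h8]
        exact Finset.sum_comm
      exact hcomm fun i E q => if q.Prime ∧ q ∈ T i E then G' i E q * (q : ℝ) ^ (-σ) else 0
    have s3 : ∑ i, ∑ E ∈ ({1, 2} : Finset ℕ), ∑ q ∈ U,
          (if q.Prime ∧ q ∈ T i E then G' i E q * (q : ℝ) ^ (-σ) else 0) ≤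
        ∑ i, (x i * Real.log (1 / (σ - 1)) + K i) :=
      Finset.sum_le_sum fun i _ => hK i σ h1 h2 U
    have s4 : ∑ E ∈ ({1, 2} : Finset ℕ), ∑ q ∈ U, (if q ∈ range (M + 1) then |G E q| else 0) ≤
        ∑ E ∈ ({1, 2} : Finset ℕ), ∑ q ∈ range (M + 1), |G E q| := by
      refine Finset.sum_le_sum fun E _ => ?_
      rw [← Finset.sum_filter]
      refine Finset.sum_le_sum_of_subset_of_nonneg ?_ fun _ _ _ => abs_nonneg _
      intro q hq
      exact (Finset.mem_filter.1 hq).2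
    have s5 : (1 / c) * ∑ i, ∑ E ∈ ({1, 2} : Finset ℕ), ∑ q ∈ U,
          (if q.Prime ∧ q ∈ T i E then G' i E q * (q : ℝ) ^ (-σ) else 0) ≤
        (1 / c) * ∑ i, (x i * Real.log (1 / (σ - 1)) + K i) :=
      mul_le_mul_of_nonneg_left s3 (by positivity)
    have s6 : (1 / c) * ∑ i, (x i * Real.log (1 / (σ - 1)) + K i) =
        (∑ i, x i) / c * Real.log (1 / (σ - 1)) + (∑ i, K i) / c := by
      rw [Finset.sum_add_distrib, ← Finset.sum_mul]
      ring
    rw [s2] at s1
    linarith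
  · rintro S G x y hxy ⟨K, hK⟩
    refine ⟨K, fun σ h1 h2 U => (hK σ h1 h2 U).trans ?_⟩
    have h3 := mul_le_mul_of_nonneg_right hxy (UPS.log_nn σ h1 h2)
    linarith
  · rintro S G x c hc ⟨K, hK⟩
    refine ⟨c * K, fun σ h1 h2 U => ?_⟩
    have h3 := mul_le_mul_of_nonneg_left (hK σ h1 h2 U) hc
    have h4 : ∑ E ∈ ({1, 2} : Finset ℕ), ∑ q ∈ U,
        (if q.Prime ∧ q ∈ S E then c * G E q * (q : ℝ) ^ (-σ) else 0) =
        c * ∑ E ∈ ({1, 2} : Finset ℕ), ∑ q ∈ U,
        (if q.Prime ∧ q ∈ S E then G E q * (q : ℝ) ^ (-σ) else 0) := by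
      rw [Finset.mul_sum]
      refine Finset.sum_congr rfl fun E _ => ?_
      rw [Finset.mul_sum]
      refine Finset.sum_congr rfl fun q _ => ?_
      split_ifs
      · ring
      · ring
    rw [h4]
    calc _ ≤ c * (x * Real.log (1 / (σ - 1)) + K) := h3
      _ = c * x * Real.log (1 / (σ - 1)) + c * K := by ring

end Pool.Agent.PTK
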