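import Pool.Agent.PTK.StC
import Pool.Agent.PTN.NBK0

/-!
# The average rank of prime twists: the number of the vectors is a power of `3` (module WGR)
-/

set_option autoImplicit false

open NumberField IsDedekindDomain Finset
open scoped nonZeroDivisors Pointwise

namespace Pool.Agent.PTK

open Pool.Agent.Lib_helper18 Pool.Agent.Lib_helper18.Eis Pool.Agent.Lib_helper84.Cub
open Pool.Agent.PT Pool.Agent.PTE Pool.Agent.PT3 Pool.Agent.PTL Pool.Agent.PTN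

namespace WGR

theorem zN_zero {m : ℕ} (π : Fin m → PP) (e : Fin m → ℕ) : zN π e 0 = 1 := by
  unfold zN
  simp

theorem occ_one (B : ℤ) : Occ B 1 :=
  ⟨1, 1, 1, Or.inl rfl, one_ne_zero, one_ne_zero, rfl⟩

end WGR

theorem WGR_thm (hSPP : SPP) (hSSL : SSL) (hSCJ : SCJ) (hLCL : LCL) (hNKIN : Stmt_NKIN)
    (hZA : Stmt_ZA) (hZS : Stmt_ZS) (hS1G : Stmt_S1G) : Stmt_WGR := by
  intro h n m k π p e r f w0 c E q hNF hh hE hq hq3 hq2 hcl hqn
  have : Fact (Nat.Prime 3) := ⟨Nat.prime_three⟩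
  have hB0 : BB h n E q ≠ 0 := NBK0.BB_ne hNF hq
  have hcf := NBK0.cubeFree_BB hNF hh hE hq hq3 hqn
  have h3le : 3 ≤ (BB h n E q).natAbs := NBK0.three_le hNF hE hq hq3
  have hnc : ¬ ∃ t : ℤ, t ^ 3 = BB h n E q :=
    CubeRank.GenPf.not_cube hcf (by rw [Int.abs_eq_natAbs]; exact_mod_cast h3le)
  have h27 := NBK0.not_27 hNF hh hE hq hq3 hqn
  have hA := hZA n m k π p e r f hNF
  have hsub : ∀ y ∈ WqS h n π p e r w0 c (BB h n E q), ∀ y' ∈ WqS h n π p e r w0 c (BB h n E q),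
      y + -y' ∈ WqS h n π p e r w0 c (BB h n E q) := by
    rintro y ⟨hy, ζ, g, g', hζ, hg, hg', e1⟩ y' ⟨hy', ζ', g2, g2', hζ', hg2, hg2', e2⟩
    obtain ⟨ζ'', a, b, hζ'', ha, hb, e3⟩ := hS1G _ hB0 hcf hnc ζ ζ' hζ hζ'
    obtain ⟨-, -, -, -, -, -, -, -, hadd, -⟩ := hA (y + -y')
    obtain ⟨u, v, hu, hv, e4⟩ := hadd y'
    rw [neg_add_cancel_right] at e4
    refine ⟨add_mem hy (neg_mem hy'), ζ'', g2' * a * g * v, u * g' * b * g2, hζ'',
      mul_ne_zero (mul_ne_zero (mul_ne_zero hg2' ha) hg) hv,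
      mul_ne_zero (mul_ne_zero (mul_ne_zero hu hg') hb) hg2, ?_⟩
    have hz' : zN π e y' ≠ 0 := (hA y').1
    apply mul_right_cancel₀ hz'
    linear_combination (a ^ 3 * g ^ 3 * v ^ 3 * ζ'') * (-e2) + (g ^ 3 * g2 ^ 3 * v ^ 3) * e3 +
      (b ^ 3 * g2 ^ 3 * v ^ 3) * e1 - (g' ^ 3 * b ^ 3 * g2 ^ 3) * e4
  have hne : (WqS h n π p e r w0 c (BB h n E q)).Nonempty :=
    ⟨0, zero_mem _, by rw [WGR.zN_zero]; exact WGR.occ_one _⟩
  refine ⟨?_, ?_⟩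
  · let W : AddSubgroup (Fin (m + 1) → ZMod 3) :=
      AddSubgroup.ofSub (WqS h n π p e r w0 c (BB h n E q)) hne hsub
    let W' : Submodule (ZMod 3) (Fin (m + 1) → ZMod 3) := AddSubgroup.toZModSubmodule 3 W
    refine ⟨Module.finrank (ZMod 3) W', ?_⟩
    have h1 := Module.natCard_eq_pow_finrank (K := ZMod 3) (V := W')
    rw [Nat.card_zmod] at h1
    exact h1
  · intro ζ hζ
    have hSel : SelM (BB h n E q) ζ := NBK0.selM_of_S1 hSPP hNKIN hB0 h27 hζ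
    have hy := NPSI.yv_mem hSPP hSSL hSCJ hLCL hNF hh hE hq hq2 hcl hqn hSel
    have hSelz := hZS h n m k π p e r f w0 c E q hNF hh hE hq hq2 hcl hqn _ hy
    obtain ⟨-, -, -, -, -, -, -, hyv, -, -⟩ := hA (NPSI.yv π e ζ)
    obtain ⟨g, g', hg, hg', heq⟩ := NPSI.yv_inj hSPP hSSL hLCL hNF hE hq hq2 hqn hSel hSelz hyv.symm
    exact ⟨_, ⟨hy, ζ, g, g', hζ, hg, hg', heq⟩, g, g', hg, hg', heq⟩

end Pool.Agent.PTK
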