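import Pool.Agent.PTK.StK
import Pool.Agent.PTK.WGR
import Pool.Agent.PTN.NPSU

/-!
# PTK_WGU: the classes of the rational points, `q = 1 (mod 3)` (helper85)
-/

set_option autoImplicit false

open NumberField IsDedekindDomain Finset
open scoped nonZeroDivisors Pointwise

namespace Pool.Agent.PTK

open Pool.Agent.Lib_helper18 Pool.Agent.Lib_helper18.Eis Pool.Agent.Lib_helper84.Cub
open Pool.Agent.PT Pool.Agent.PTE Pool.Agent.PT3 Pool.Agent.PTL Pool.Agent.PTN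
open Pool.Agent.PT.EHYP

namespace WGU

section
variable {h n m k : ℕ} {π : Fin m → PP} {p e : Fin m → ℕ} {r f : Fin k → ℕ} {w0 : ZMod 3}
  {c : Fin m → ZMod 3} {E q : ℕ} {ρ : PP}

/-- a class of the minus part with valuation divisible by `3` at `ρ` has a vector in `VS` -/
theorem vec (hSTM : STM) (hSPP : SPP) (hSSL : SSL) (hSCJ : SCJ) (hLCL : LCL) (hZA : Stmt_ZA)
    (hZSU : Stmt_ZSU) (hN : NF n π p e r f) (hh : h ≤ 2) (hE : E = 1 ∨ E = 2) (hq : q.Prime)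
    (hq1 : q % 3 = 1) (hcl : InCT E π w0 c q) (hqn : ¬ q ∣ n)
    (hρ : (q : Eis) = ρ.1 * conj ρ.1) (hD : NPSU.Dat h n E q π e w0 c ρ) {z : Eis}
    (hz : SelM (BB h n E q) z) (hV : (V ρ.1 z : ZMod 3) = 0) :
    ∃ y ∈ VS h n π p e r w0 c, ∃ g g' : Eis, g ≠ 0 ∧ g' ≠ 0 ∧
      z * g ^ 3 = zN π e y * g' ^ 3 := by
  have hA := hZA n m k π p e r f hN
  have hy := NPSU.fst_mem (NPSU.mem_YY hSPP hSSL hSCJ hLCL hN hh hE hq hq1 hqn hρ hD hz) hV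
  obtain ⟨y, hyd⟩ : ∃ y, y = (NPSU.YY π e ρ z).1 := ⟨_, rfl⟩
  rw [← hyd] at hy
  obtain ⟨a1, -, -, a4, -, -, -, a8, -, -⟩ := hA y
  have hz' := hZSU h n m k π p e r f w0 c E q hN hh hE hq hq1 hcl hqn y hy
  have hz2 := NPSU.SelM_mul hSTM hSPP hSSL hD.ne hz hz'
  have hne := hz.ne
  have h40 : (4 : Eis) ≠ 0 := by
    have := HYPU.cast_ne (x := 4) (by norm_num)
    exact_mod_cast this
  have h0 : NPSI.yv π e (zN π e y) = (NPSU.YY π e ρ z).1 := a8.trans hyd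
  have h3 : -sl (zN π e y) 4 = -sl z 4 := congrFun h0 0
  have h4 : ∀ i : Fin m, (e i : ZMod 3) * (V (π i).1 (zN π e y) : ZMod 3) =
      (e i : ZMod 3) * (V (π i).1 z : ZMod 3) := fun i => congrFun h0 i.succ
  have h5 : ∀ i : Fin m, (V (π i).1 z : ZMod 3) = (V (π i).1 (zN π e y) : ZMod 3) := by
    intro i
    have h6 := HYPS.e_sq hN i
    linear_combination -(e i : ZMod 3) * h4 i - ((V (π i).1 z : ZMod 3) -
      (V (π i).1 (zN π e y) : ZMod 3)) * h6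
  have h2 : (V ρ.1 z : ZMod 3) = (V ρ.1 (zN π e y) : ZMod 3) := by
    rw [hV, V_eq_zero (a4 ρ hD.rn)]
    rfl
  have hVz : ∀ τ : PP, (V τ.1 z : ZMod 3) = (V τ.1 (zN π e y) : ZMod 3) →
      (V τ.1 (z * zN π e y ^ 2) : ZMod 3) = 0 := by
    intro τ hτ
    rw [V_mul τ.2.1 hne (pow_ne_zero _ a1), V_pow τ.2.1 a1]
    push_cast
    rw [hτ]
    linear_combination three_zero (V τ.1 (zN π e y) : ZMod 3)
  have h6 : sl (z * zN π e y ^ 2) 4 = 0 := by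
    have h7 := add3_sl hSSL h40
    have h8 := h7 z (zN π e y ^ 2) hne (pow_ne_zero _ a1)
    have h9 := h7.pow a1 2
    simp only at h8 h9
    rw [h8, h9]
    push_cast
    linear_combination three_zero (sl (zN π e y) 4) + h3
  obtain ⟨γ, hγ⟩ := NPSU.cube hSPP hSSL hLCL hN hE hq hq1 hqn hρ hD hz2 h6
    (fun i => hVz _ (h5 i)) (hVz _ h2)
  refine ⟨y, hy, zN π e y, γ, a1, ?_, ?_⟩
  · rintro rfl
    rw [zero_pow (by norm_num)] at hγ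
    exact mul_ne_zero hne (pow_ne_zero _ a1) hγ
  · rw [← hγ]
    ring

/-- if there is an admissible class with nonzero symbol at `ρ`, the valuations at `ρ` of the
minus part are divisible by `3` -/
theorem val (hSPP : SPP) (hSSL : SSL) (hSCJ : SCJ) (hLCL : LCL) (hV : Stmt_NVEC)
    (hN : NF n π p e r f) (hh : h ≤ 2) (hE : E = 1 ∨ E = 2) (hq : q.Prime)
    (hq1 : q % 3 = 1) (hqn : ¬ q ∣ n)
    (hρ : (q : Eis) = ρ.1 * conj ρ.1) (hD : NPSU.Dat h n E q π e w0 c ρ)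
    (hx : ∃ x : ℤ, AdN h n π w0 c x ∧ sym ρ.1 (x : Eis) ≠ 0) {z : Eis}
    (hz : SelM (BB h n E q) z) : (V ρ.1 z : ZMod 3) = 0 := by
  obtain ⟨hV1, -, -⟩ := hV h n m k π p e r f w0 c hN hh
  obtain ⟨x, hx1, hx2⟩ := hx
  have h1 := (hV1 x hx1.1.ne hx1.1.supp).1 hx1
  have h2 := NPSU.sum_col hSPP hN ρ hD.rn hx1.1.ne hx1.1.supp
  have h3 := NPSU.mem_YY hSPP hSSL hSCJ hLCL hN hh hE hq hq1 hqn hρ hD hz
  exact NPSU.snd_zero h1 (by rw [h2]; exact hx2) _ h3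

end

end WGU

open WGU in
theorem WGU_thm (hSTM : STM) (hSPP : SPP) (hSSL : SSL) (hSCJ : SCJ) (hLCL : LCL)
    (hNVEC : Stmt_NVEC) (hNKIN : Stmt_NKIN) (hZA : Stmt_ZA) (hZSU : Stmt_ZSU)
    (hS1G : Stmt_S1G) : Stmt_WGU := by
  classical
  intro h n m k π p e r f w0 c E q ρ hNF hh hE hq hq3 hq1 hcl hqn hρ
  have : Fact (Nat.Prime 3) := ⟨Nat.prime_three⟩
  have hD : NPSU.Dat h n E q π e w0 c ρ := NPSU.dat hSPP hLCL hNF hE hq hq1 hcl hqn hρ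
  have hB0 : BB h n E q ≠ 0 := NBK0.BB_ne hNF hq
  have hcf := NBK0.cubeFree_BB hNF hh hE hq hq3 hqn
  have h3le : 3 ≤ (BB h n E q).natAbs := NBK0.three_le hNF hE hq hq3
  have hnc : ¬ ∃ t : ℤ, t ^ 3 = BB h n E q :=
    CubeRank.GenPf.not_cube hcf (by rw [Int.abs_eq_natAbs]; exact_mod_cast h3le)
  have h27 := NBK0.not_27 hNF hh hE hq hq3 hqn
  have hA := hZA n m k π p e r f hNF
  have hsub : ∀ y ∈ WqS h n π p e r w0 c (BB h n E q), ∀ y' ∈ WqS h n π p e r w0 c (BB h n E q),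
      y + -y' ∈ WqS h n π p e r w0 c (BB h n E q) := by
    rintro y ⟨hy, ζ, g, g', hζ, hg, hg', e1⟩ y' ⟨hy', ζ', g2, g2', hζ', hg2, hg2', e2⟩
    obtain ⟨ζ'', a, b, hζ'', ha, hb, e3⟩ := hS1G _ hB0 hcf hnc ζ ζ' hζ hζ'
    obtain ⟨-, -, -, -, -, -, -, -, hadd, -⟩ := hA (y + -y')
    obtain ⟨u, v, hu, hv, e4⟩ := hadd y'
    rw [neg_add_cancel_right] at e4
    refine ⟨add_mem hy (neg_mem hy'), ζ'', g2' * a * g * v, u * g' * b * g2, hζ'',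
      mul_ne_zero (mul_ne_zero (mul_ne_zero hg2' ha) hg) hv,
      mul_ne_zero (mul_ne_zero (mul_ne_zero hu hg') hb) hg2, ?_⟩
    have hz' : zN π e y' ≠ 0 := (hA y').1
    apply mul_right_cancel₀ hz'
    linear_combination (a ^ 3 * g ^ 3 * v ^ 3 * ζ'') * (-e2) + (g ^ 3 * g2 ^ 3 * v ^ 3) * e3 +
      (b ^ 3 * g2 ^ 3 * v ^ 3) * e1 - (g' ^ 3 * b ^ 3 * g2 ^ 3) * e4
  have hne : (WqS h n π p e r w0 c (BB h n E q)).Nonempty :=
    ⟨0, zero_mem _, by rw [WGR.zN_zero]; exact WGR.occ_one _⟩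
  have hsel : ∀ z, S1 (BB h n E q) z → SelM (BB h n E q) z := fun z hz =>
    NBK0.selM_of_S1 hSPP hNKIN hB0 h27 hz
  -- two classes with the same valuation at `ρ`
  have hrel : ∀ z z' : Eis, S1 (BB h n E q) z → S1 (BB h n E q) z' →
      (V ρ.1 z : ZMod 3) = (V ρ.1 z' : ZMod 3) →
      ∃ y ∈ WqS h n π p e r w0 c (BB h n E q), ∃ g g' : Eis, g ≠ 0 ∧ g' ≠ 0 ∧
        z * g ^ 3 = zN π e y * z' * g' ^ 3 := by
    intro z z' hz hz' ht
    obtain ⟨z'', g, g', hz'', hg, hg', e1⟩ := hS1G _ hB0 hcf hnc z z' hz hz'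
    have n1 := (hsel z hz).ne
    have n2 := (hsel z' hz').ne
    have n3 := (hsel z'' hz'').ne
    have hV0 : (V ρ.1 z'' : ZMod 3) = 0 := by
      have h1 := congrArg (V ρ.1) e1
      rw [V_mul ρ.2.1 (mul_ne_zero n3 n2) (pow_ne_zero _ hg), V_mul ρ.2.1 n3 n2,
        V_mul ρ.2.1 n1 (pow_ne_zero _ hg'), V_pow ρ.2.1 hg, V_pow ρ.2.1 hg'] at h1
      have h2 : ((V ρ.1 z'' + V ρ.1 z' + 3 * V ρ.1 g : ℕ) : ZMod 3) =
          ((V ρ.1 z + 3 * V ρ.1 g' : ℕ) : ZMod 3) := by rw [h1]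
      push_cast at h2
      linear_combination h2 + ht - three_zero (V ρ.1 g : ZMod 3) +
        three_zero (V ρ.1 g' : ZMod 3)
    obtain ⟨y, hy, a, b, ha, hb, e2⟩ := vec hSTM hSPP hSSL hSCJ hLCL hZA hZSU hNF hh hE hq hq1
      hcl hqn hρ hD (hsel z'' hz'') hV0
    refine ⟨y, ⟨hy, z'', a, b, hz'', ha, hb, e2⟩, g' * a, b * g, mul_ne_zero hg' ha,
      mul_ne_zero hb hg, ?_⟩
    linear_combination (-(a ^ 3)) * e1 + z' * g ^ 3 * e2
  refine ⟨?_, ?_⟩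
  · let W : AddSubgroup (Fin (m + 1) → ZMod 3) :=
      AddSubgroup.ofSub (WqS h n π p e r w0 c (BB h n E q)) hne hsub
    let W' : Submodule (ZMod 3) (Fin (m + 1) → ZMod 3) := AddSubgroup.toZModSubmodule 3 W
    refine ⟨Module.finrank (ZMod 3) W', ?_⟩
    have h1 := Module.natCard_eq_pow_finrank (K := ZMod 3) (V := W')
    rw [Nat.card_zmod] at h1
    exact h1
  -- representatives
  have hrep : ∀ t : ZMod 3, ∃ zt : Eis, ∀ z, S1 (BB h n E q) z → (V ρ.1 z : ZMod 3) = t →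
      ∃ y ∈ WqS h n π p e r w0 c (BB h n E q), ∃ g g' : Eis, g ≠ 0 ∧ g' ≠ 0 ∧
        z * g ^ 3 = zN π e y * zt * g' ^ 3 := by
    intro t
    by_cases ht : ∃ z, S1 (BB h n E q) z ∧ (V ρ.1 z : ZMod 3) = t
    · obtain ⟨z', hz', ht'⟩ := ht
      exact ⟨z', fun z hz hzt => hrel z z' hz hz' (hzt.trans ht'.symm)⟩
    · exact ⟨1, fun z hz hzt => absurd ⟨z, hz, hzt⟩ ht⟩
  choose zt hzt using hrep
  obtain ⟨y0, hy0⟩ := hne
  have hYex : ∀ z, ∃ y : WqS h n π p e r w0 c (BB h n E q), S1 (BB h n E q) z →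
      ∃ g g' : Eis, g ≠ 0 ∧ g' ≠ 0 ∧
        z * g ^ 3 = zN π e y.1 * zt (V ρ.1 z : ZMod 3) * g' ^ 3 := by
    intro z
    by_cases hz : S1 (BB h n E q) z
    · obtain ⟨y, hy, h1⟩ := hzt _ z hz rfl
      exact ⟨⟨y, hy⟩, fun _ => h1⟩
    · exact ⟨⟨y0, hy0⟩, fun h1 => absurd h1 hz⟩
  choose Y hY using hYex
  have hinj : ∀ z z' : Eis, S1 (BB h n E q) z → S1 (BB h n E q) z' → Y z = Y z' →
      (V ρ.1 z : ZMod 3) = (V ρ.1 z' : ZMod 3) →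
      ∃ g g' : Eis, g ≠ 0 ∧ g' ≠ 0 ∧ z * g ^ 3 = z' * g' ^ 3 := by
    intro z z' hz hz' hyy ht
    obtain ⟨g1, g2, hg1, hg2, e1⟩ := hY z hz
    obtain ⟨g1', g2', hg1', hg2', e2⟩ := hY z' hz'
    rw [← hyy, ← ht] at e2
    refine ⟨g1 * g2', g1' * g2, mul_ne_zero hg1 hg2', mul_ne_zero hg1' hg2, ?_⟩
    linear_combination g2' ^ 3 * e1 - g2 ^ 3 * e2
  have hfin : Finite (WqS h n π p e r w0 c (BB h n E q)) := inferInstance
  by_cases hx : ∃ x : ℤ, AdN h n π w0 c x ∧ sym ρ.1 (x : Eis) ≠ 0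
  · refine ⟨WqS h n π p e r w0 c (BB h n E q), hfin, Y, by omega, fun _ => le_refl _, ?_⟩
    intro z z' hz hz' hyy
    refine hinj z z' hz hz' hyy ?_
    rw [val hSPP hSSL hSCJ hLCL hNVEC hNF hh hE hq hq1 hqn hρ hD hx (hsel z hz),
      val hSPP hSSL hSCJ hLCL hNVEC hNF hh hE hq hq1 hqn hρ hD hx (hsel z' hz')]
  · refine ⟨WqS h n π p e r w0 c (BB h n E q) × ZMod 3, inferInstance,
      fun z => (Y z, (V ρ.1 z : ZMod 3)), ?_, fun h1 => absurd h1 hx, ?_⟩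
    · rw [Nat.card_prod, Nat.card_zmod, mul_comm]
    · intro z z' hz hz' hyy
      have h1 := congrArg Prod.fst hyy
      have h2 := congrArg Prod.snd hyy
      exact hinj z z' hz hz' h1 h2

end Pool.Agent.PTK
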