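import Pool.Agent.PTK.StK
import Pool.Agent.PTK.AVW

/-!
# PTK_WSUM: sums weighted by the number of the classes of points
-/

set_option autoImplicit false

open NumberField IsDedekindDomain Finset
open scoped nonZeroDivisors Pointwise

namespace Pool.Agent.PTK

open Pool.Agent.Lib_helper18 Pool.Agent.Lib_helper18.Eis Pool.Agent.Lib_helper84.Cub
open Pool.Agent.PT Pool.Agent.PTE Pool.Agent.PT3 Pool.Agent.PTL Pool.Agent.PTN

namespace WSUM

open Classical in
/-- one summand of a vector -/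
noncomputable def tm1 {m : ℕ} (h n : ℕ) (π : Fin m → PP) (e : Fin m → ℕ) (S : ℕ → Set ℕ)
    (G : ℕ → ℕ → ℝ) (y : Fin (m + 1) → ZMod 3) (E : ℕ) (σ : ℝ) (q : ℕ) : ℝ :=
  if q.Prime ∧ q ∈ {q | q ∈ S E ∧ Occ (BB h n E q) (zN π e y)} then G E q * (q : ℝ) ^ (-σ) else 0

open Classical in
/-- one prime -/
theorem point (h n : ℕ) {m k : ℕ} (π : Fin m → PP) (p e : Fin m → ℕ) (r : Fin k → ℕ)
    (w0 : ZMod 3) (c : Fin m → ZMod 3) (S : ℕ → Set ℕ) (G : ℕ → ℕ → ℝ) (E : ℕ) (σ : ℝ) (q : ℕ) :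
    (if q.Prime ∧ q ∈ S E then
        (Nat.card (WqS h n π p e r w0 c (BB h n E q)) : ℝ) * G E q * (q : ℝ) ^ (-σ) else 0) =
      ∑ y : Fin (m + 1) → ZMod 3, (if y ∈ VS h n π p e r w0 c then
        tm1 h n π e S G y E σ q else 0) := by
  by_cases hq : q.Prime ∧ q ∈ S E
  · rw [if_pos hq]
    have h2 : Nat.card (WqS h n π p e r w0 c (BB h n E q)) =
        (Finset.univ.filter fun y : Fin (m + 1) → ZMod 3 =>
          y ∈ VS h n π p e r w0 c ∧ Occ (BB h n E q) (zN π e y)).card :=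
      AVW.card_set fun y => y ∈ VS h n π p e r w0 c ∧ Occ (BB h n E q) (zN π e y)
    have e1 : ∀ y : Fin (m + 1) → ZMod 3, (if y ∈ VS h n π p e r w0 c then
        tm1 h n π e S G y E σ q else 0) =
        if y ∈ VS h n π p e r w0 c ∧ Occ (BB h n E q) (zN π e y) then
          G E q * (q : ℝ) ^ (-σ) else 0 := by
      intro y
      by_cases h3 : y ∈ VS h n π p e r w0 c
      · rw [if_pos h3]
        by_cases h4 : Occ (BB h n E q) (zN π e y)
        · rw [if_pos ⟨h3, h4⟩]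
          exact if_pos ⟨hq.1, hq.2, h4⟩
        · rw [if_neg fun h5 => h4 h5.2]
          exact if_neg fun h5 => h4 h5.2.2
      · rw [if_neg h3, if_neg fun h5 => h3 h5.1]
    rw [Finset.sum_congr rfl fun y _ => e1 y, ← Finset.sum_filter, Finset.sum_const,
      nsmul_eq_mul, h2, mul_assoc]
  · rw [if_neg hq]
    symm
    refine Finset.sum_eq_zero fun y _ => ?_
    by_cases h3 : y ∈ VS h n π p e r w0 c
    · rw [if_pos h3]
      exact if_neg fun h5 => hq ⟨h5.1, h5.2.1⟩
    · rw [if_neg h3]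

end WSUM

open WSUM in
/-- sums weighted by the number of the classes of points -/
theorem WSUM_thm (hVDIM : Stmt_VDIM) (hLIN : Stmt_LIN) : Stmt_WSUM := by
  classical
  intro h n m k π p e r f w0 c hNF hh S G x₀ hx₀ hG hS hH
  have hle : V0 h n π p e r w0 c ≤ VS h n π p e r w0 c := fun y hy => hy.1
  -- the bound for every vector
  have hy : ∀ y : Fin (m + 1) → ZMod 3, ∃ K : ℝ, y ∈ VS h n π p e r w0 c →
      ∀ σ : ℝ, 1 < σ → σ ≤ 2 → ∀ T : Finset ℕ,
      ∑ q ∈ T, tm1 h n π e S G y 1 σ q + ∑ q ∈ T, tm1 h n π e S G y 2 σ q ≤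
        AVW.aw (V0 h n π p e r w0 c) y * x₀ * Real.log (1 / (σ - 1)) + K := by
    intro y
    by_cases hyV : y ∈ VS h n π p e r w0 c
    · by_cases hy0 : y = 0
      · obtain ⟨K, hK⟩ := hS
        refine ⟨K, fun _ σ h1 h2 T => ?_⟩
        have h3 := hK σ h1 h2 T
        rw [Finset.sum_pair (by norm_num : (1 : ℕ) ≠ 2)] at h3
        rw [AVW.aw, if_pos hy0, one_mul]
        have h4 : ∀ E : ℕ, ∑ q ∈ T, tm1 h n π e S G y E σ q ≤
            ∑ q ∈ T, (if q.Prime ∧ q ∈ S E then G E q * (q : ℝ) ^ (-σ) else 0) := by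
          intro E
          refine Finset.sum_le_sum fun q _ => ?_
          have h0 : 0 ≤ G E q * (q : ℝ) ^ (-σ) :=
            mul_nonneg (hG E q) (Real.rpow_nonneg (Nat.cast_nonneg q) _)
          unfold tm1
          by_cases h5 : q.Prime ∧ q ∈ {q | q ∈ S E ∧ Occ (BB h n E q) (zN π e y)}
          · rw [if_pos h5, if_pos ⟨h5.1, h5.2.1⟩]
          · rw [if_neg h5]
            split_ifs
            · exact h0
            · exact le_refl _
        exact (add_le_add (h4 1) (h4 2)).trans h3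
      · obtain ⟨s, u, hu, hind, hs1, hs2⟩ := hLIN (m + 1) (V0 h n π p e r w0 c) y hy0
        obtain ⟨K, hK⟩ := hH y hyV s u hu hind
        refine ⟨K, fun _ σ h1 h2 T => ?_⟩
        have e1 : (1 : ℝ) / 3 ^ s = AVW.aw (V0 h n π p e r w0 c) y := by
          rw [AVW.aw, if_neg hy0]
          by_cases hyV0 : y ∈ V0 h n π p e r w0 c
          · rw [if_pos hyV0, ← hs2 hyV0, pow_succ]
            field_simp
          · rw [if_neg hyV0, ← hs1 hyV0]
        have h3 := hK σ h1 h2 T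
        rw [Finset.sum_pair (by norm_num : (1 : ℕ) ≠ 2)] at h3
        rw [← e1, one_div_mul_eq_div]
        refine le_trans (le_of_eq ?_) h3
        congr 1 <;> exact Finset.sum_congr rfl fun q _ => by unfold tm1; congr
    · exact ⟨0, fun h1 => absurd h1 hyV⟩
  choose K hK using hy
  refine ⟨∑ y : Fin (m + 1) → ZMod 3, (if y ∈ VS h n π p e r w0 c then K y else 0),
    fun σ h1 h2 T => ?_⟩
  have hL : 0 ≤ Real.log (1 / (σ - 1)) := by
    apply Real.log_nonneg
    rw [le_div_iff₀ (by linarith)]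
    linarith
  rw [Finset.sum_pair (by norm_num : (1 : ℕ) ≠ 2)]
  have hpt : ∀ E : ℕ, ∑ q ∈ T, (if q.Prime ∧ q ∈ S E then
        (Nat.card (WqS h n π p e r w0 c (BB h n E q)) : ℝ) * G E q * (q : ℝ) ^ (-σ) else 0) =
      ∑ y : Fin (m + 1) → ZMod 3, ∑ q ∈ T, (if y ∈ VS h n π p e r w0 c then
        tm1 h n π e S G y E σ q else 0) := by
    intro E
    rw [Finset.sum_comm]
    exact Finset.sum_congr rfl fun q _ => by
      rw [← point h n π p e r w0 c S G E σ q]
  have hpt1 := hpt 1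
  have hpt2 := hpt 2
  have h3 : ∀ y : Fin (m + 1) → ZMod 3,
      (∑ q ∈ T, (if y ∈ VS h n π p e r w0 c then tm1 h n π e S G y 1 σ q else 0)) +
      (∑ q ∈ T, (if y ∈ VS h n π p e r w0 c then tm1 h n π e S G y 2 σ q else 0)) ≤
      (if y ∈ VS h n π p e r w0 c then AVW.aw (V0 h n π p e r w0 c) y else 0) * x₀ *
        Real.log (1 / (σ - 1)) + (if y ∈ VS h n π p e r w0 c then K y else 0) := by
    intro y
    by_cases hyV : y ∈ VS h n π p e r w0 c
    · simp only [if_pos hyV]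
      exact hK y hyV σ h1 h2 T
    · simp only [if_neg hyV]
      rw [Finset.sum_const_zero, zero_mul, zero_mul]
  have h4 := AVW.sum_aw (VS h n π p e r w0 c) (V0 h n π p e r w0 c) hle (dN h n w0)
    (hVDIM h n m k π p e r w0 c hh)
  have h5 : ∑ y : Fin (m + 1) → ZMod 3,
      ((∑ q ∈ T, (if y ∈ VS h n π p e r w0 c then tm1 h n π e S G y 1 σ q else 0)) +
      (∑ q ∈ T, (if y ∈ VS h n π p e r w0 c then tm1 h n π e S G y 2 σ q else 0))) ≤
      (3 + 3 ^ dN h n w0) * x₀ * Real.log (1 / (σ - 1)) +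
        ∑ y : Fin (m + 1) → ZMod 3, (if y ∈ VS h n π p e r w0 c then K y else 0) := by
    refine (Finset.sum_le_sum fun y _ => h3 y).trans ?_
    rw [Finset.sum_add_distrib, ← Finset.sum_mul, ← Finset.sum_mul]
    gcongr
  rw [Finset.sum_add_distrib, ← hpt1, ← hpt2] at h5
  exact h5

end Pool.Agent.PTK
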