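import Pool.Agent.PTK.StC

/-!
# Module PTK_ZI: independence of the classes `zN` (MP_8e0b0b_nt, by helper30)
-/

set_option autoImplicit false

open NumberField IsDedekindDomain Finset
open scoped nonZeroDivisors Pointwise

namespace Pool.Agent.PTK

open Pool.Agent.Lib_helper18 Pool.Agent.Lib_helper18.Eis Pool.Agent.Lib_helper84.Cub
open Pool.Agent.PT Pool.Agent.PTE Pool.Agent.PT3 Pool.Agent.PTL Pool.Agent.PTN

namespace ZI

/-- equality up to cubes -/
def R (a b : Eis) : Prop := ∃ g g' : Eis, g ≠ 0 ∧ g' ≠ 0 ∧ a * g ^ 3 = b * g' ^ 3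

lemma R_refl (a : Eis) : R a a := ⟨1, 1, one_ne_zero, one_ne_zero, rfl⟩

lemma R_trans {a b c : Eis} (h : R a b) (h' : R b c) : R a c := by
  obtain ⟨g, g', h1, h2, h3⟩ := h
  obtain ⟨k, k', h4, h5, h6⟩ := h'
  refine ⟨g * k, g' * k', mul_ne_zero h1 h4, mul_ne_zero h2 h5, ?_⟩
  linear_combination k ^ 3 * h3 + g' ^ 3 * h6

lemma R_mul {a b a' b' : Eis} (h : R a b) (h' : R a' b') : R (a * a') (b * b') := by
  obtain ⟨g, g', h1, h2, h3⟩ := h
  obtain ⟨k, k', h4, h5, h6⟩ := h'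
  refine ⟨g * k, g' * k', mul_ne_zero h1 h4, mul_ne_zero h2 h5, ?_⟩
  linear_combination (a' * k ^ 3) * h3 + (b * g' ^ 3) * h6

lemma zN_zero {m : ℕ} (π : Fin m → PP) (e : Fin m → ℕ) : zN π e 0 = 1 := by
  unfold zN
  simp

lemma cube_of {t a : Eis} (h : R (t ^ 3) a) : ∃ u : Eis, u ^ 3 = a := by
  obtain ⟨g, g', h1, h2, h3⟩ := h
  have h4 : g' ^ 3 ∣ (t * g) ^ 3 := ⟨a, by rw [mul_pow, h3, mul_comm]⟩
  have h5 : g' ∣ t * g := (IsIntegrallyClosed.pow_dvd_pow_iff (three_ne_zero)).1 h4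
  obtain ⟨u, hu⟩ := h5
  refine ⟨u, ?_⟩
  have h6 : g' ^ 3 * u ^ 3 = g' ^ 3 * a := by
    rw [← mul_pow, ← hu, mul_pow, h3, mul_comm]
  exact mul_left_cancel₀ (pow_ne_zero 3 h2) h6

end ZI

theorem ZI_thm (hZA : Stmt_ZA) : Stmt_ZI := by
  classical
  intro n m k π p e r f hNF s Y c ht
  have hadd : ∀ y y' : Fin (m + 1) → ZMod 3, ZI.R (zN π e y * zN π e y') (zN π e (y + y')) := by
    intro y y'
    obtain ⟨-, -, -, -, -, -, -, -, h1, -⟩ := hZA n m k π p e r f hNF y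
    exact h1 y'
  have hpow : ∀ (y : Fin (m + 1) → ZMod 3) (a : ℕ), ZI.R (zN π e y ^ a)
      (zN π e ((a : ZMod 3) • y)) := by
    intro y a
    induction a with
    | zero =>
      rw [pow_zero, Nat.cast_zero, zero_smul, ZI.zN_zero]
      exact ZI.R_refl 1
    | succ a ih =>
      rw [pow_succ, Nat.cast_add, Nat.cast_one, add_smul, one_smul]
      exact ZI.R_trans (ZI.R_mul ih (ZI.R_refl _)) (hadd _ _)
  have hprod : ∀ S : Finset (Fin s), ZI.R (∏ i ∈ S, zN π e (Y i) ^ c i)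
      (zN π e (∑ i ∈ S, (c i : ZMod 3) • Y i)) := by
    intro S
    induction S using Finset.induction_on with
    | empty =>
      rw [Finset.prod_empty, Finset.sum_empty, ZI.zN_zero]
      exact ZI.R_refl 1
    | insert a S ha ih =>
      rw [Finset.prod_insert ha, Finset.sum_insert ha]
      exact ZI.R_trans (ZI.R_mul (hpow _ _) ih) (hadd _ _)
  obtain ⟨t, ht⟩ := ht
  have h1 := hprod Finset.univ
  rw [← ht] at h1
  obtain ⟨-, -, -, -, -, -, -, -, -, h2⟩ := hZA n m k π p e r f hNF (∑ i, (c i : ZMod 3) • Y i)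
  exact h2 (ZI.cube_of h1)

end Pool.Agent.PTK
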