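import Pool.Agent.PTK.StC
import Pool.Agent.PT.DCONST

/-!
# The average rank of prime twists: tools for the symbols of the classes (`ZC`, `ZS`, `ZT`)
-/

set_option autoImplicit false

namespace Pool.Agent.PTK

open Pool.Agent.Lib_helper18 Pool.Agent.Lib_helper18.Eis Pool.Agent.Lib_helper84.Cub
open Pool.Agent.PT Pool.Agent.PTE Pool.Agent.PT3 Pool.Agent.PT.EHYP Pool.Agent.PT3.HYPT

namespace ZAUX

/-- the conjugate place -/
lemma tm_conj_int (hSTM : STM) (hSPP : SPP) (hSCJ : SCJ) {σ κ : PP} (hκ : κ.1 = conj σ.1)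
    {z t : Eis} (hz : z ≠ 0) (hzt : z * conj z = t ^ 3) {x : ℤ} (hx : x ≠ 0) :
    tm κ.1 z (x : Eis) = tm σ.1 z (x : Eis) := by
  have hx0 : (x : Eis) ≠ 0 := int_ne hx
  have h3 := (hSPP.2.2.2.1 σ).1
  have h3' := (hSPP.2.2.2.1 κ).1
  have hcz : conj z ≠ 0 := by
    intro h0
    apply hz
    have h1 := congrArg conj h0
    rwa [conj_conj, map_zero] at h1
  have ht : t ≠ 0 := by
    rintro rfl
    rw [zero_pow (by norm_num)] at hzt
    exact mul_ne_zero hz hcz hzt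
  have hc := hSCJ.1 σ.1 z (x : Eis) σ.2.1 h3 hz hx0
  rw [conj_intCast, ← hκ] at hc
  have hA := add3_tm hSTM κ.2.1 h3' hx0
  have h1 := hA z (conj z) hz hcz
  have h2 := hA.pow ht 3
  simp only at h1 h2
  rw [hzt, h2] at h1
  have h4 := three_zero (tm κ.1 t (x : Eis))
  push_cast at h1
  linear_combination h4 - h1 - hc

/-- the conjugate place, two elements -/
lemma tm_conj_two (hSTM : STM) (hSPP : SPP) (hSCJ : SCJ) {σ κ : PP} (hκ : κ.1 = conj σ.1)
    {z t z' t' : Eis} (hz : z ≠ 0) (hzt : z * conj z = t ^ 3) (hz' : z' ≠ 0)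
    (hzt' : z' * conj z' = t' ^ 3) : tm κ.1 z z' = - tm σ.1 z z' := by
  have h3 := (hSPP.2.2.2.1 σ).1
  have h3' := (hSPP.2.2.2.1 κ).1
  have hne : ∀ a : Eis, a ≠ 0 → conj a ≠ 0 := by
    intro a ha h0
    apply ha
    have h1 := congrArg conj h0
    rwa [conj_conj, map_zero] at h1
  have ht : ∀ a s : Eis, a ≠ 0 → a * conj a = s ^ 3 → s ≠ 0 := by
    rintro a s ha h rfl
    rw [zero_pow (by norm_num)] at h
    exact mul_ne_zero ha (hne a ha) h
  have hc := hSCJ.1 σ.1 z z' σ.2.1 h3 hz hz'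
  rw [← hκ] at hc
  have hs := hSTM κ.1 κ.2.1 h3'
  have hA : ∀ a s b : Eis, a ≠ 0 → a * conj a = s ^ 3 → b ≠ 0 →
      tm κ.1 (conj a) b = - tm κ.1 a b := by
    intro a s b ha has hb
    have hA := add3_tm hSTM κ.2.1 h3' hb
    have h1 := hA a (conj a) ha (hne a ha)
    have h2 := hA.pow (ht a s ha has) 3
    simp only at h1 h2
    rw [has, h2] at h1
    have h4 := three_zero (tm κ.1 s b)
    push_cast at h1
    linear_combination h4 - h1
  rw [hA z t _ hz hzt (hne z' hz'), hs.skew (conj z') z (hne z' hz') hz,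
    hA z' t' z hz' hzt' hz, hs.skew z z' hz hz'] at hc
  linear_combination hc

/-- a sum over the places -/
lemma sum_places (hSPP : SPP) {n m k : ℕ} {π : Fin m → PP} {p e : Fin m → ℕ} {r f : Fin k → ℕ}
    (hn : NF n π p e r f) (T : Finset PP) (F : PP → ZMod 3)
    (hT : ∀ ρ ∈ T, (∀ i, ρ ≠ π i) ∧ ∀ i, ρ.1 ≠ conj (π i).1)
    (hF : ∀ i (κ : PP), κ.1 = conj (π i).1 → F κ = F (π i))
    (h0 : ∀ σ : PP, σ ∉ T → (∀ i, σ ≠ π i) → (∀ i, σ.1 ≠ conj (π i).1) → F σ = 0) :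
    ∑ᶠ σ : PP, F σ = - ∑ i, F (π i) + ∑ ρ ∈ T, F ρ := by
  classical
  choose κ hκ using fun i => (hSPP.2.2.2.1 (π i)).2
  have hg : Function.Injective (Sum.elim π κ) := by
    rintro (i | i) (j | j) hij
    · have h1 : π i = π j := hij
      rw [assoc_iff hn i j (by rw [h1])]
    · have h1 : π i = κ j := hij
      exact absurd (by rw [h1, hκ j]) (not_assoc hn i j)
    · have h1 : κ i = π j := hij
      exact absurd (by rw [← h1, hκ i]) (not_assoc hn j i)
    · have h1 : κ i = κ j := hij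
      have h2 : conj (π i).1 = conj (π j).1 := by rw [← hκ i, ← hκ j, h1]
      have h3 : (π i).1 = (π j).1 := by rw [← conj_conj (π i).1, h2, conj_conj]
      rw [assoc_iff hn i j (by rw [h3])]
  have hdis : Disjoint (Finset.univ.image (Sum.elim π κ)) T := by
    rw [Finset.disjoint_left]
    intro σ hσ hσT
    obtain ⟨y, -, hy⟩ := Finset.mem_image.1 hσ
    obtain ⟨g1, g2⟩ := hT σ hσT
    rcases y with i | i
    · exact g1 i hy.symm
    · apply g2 i
      have h1 : κ i = σ := hy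
      rw [← h1, hκ i]
  have hsup : Function.support F ⊆
      (((Finset.univ.image (Sum.elim π κ)) ∪ T : Finset PP) : Set PP) := by
    intro σ hσ
    by_contra hnm
    apply hσ
    rw [Finset.mem_coe, Finset.mem_union, not_or] at hnm
    have hn' : ∀ y, Sum.elim π κ y ≠ σ := by
      intro y hy
      apply hnm.1
      rw [Finset.mem_image]
      exact ⟨y, Finset.mem_univ _, hy⟩
    refine h0 σ hnm.2 (fun i hi => hn' (Sum.inl i) hi.symm) fun i hi => hn' (Sum.inr i) ?_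
    refine hSPP.2.1 _ _ ?_
    change Associated (κ i).1 σ.1
    rw [hκ i, ← hi]
  rw [finsum_eq_sum_of_support_subset _ hsup, Finset.sum_union hdis,
    Finset.sum_image fun a _ b _ hab => hg hab, Fintype.sum_sum_type]
  have h1 : ∑ i, F (Sum.elim π κ (Sum.inr i)) = ∑ i, F (Sum.elim π κ (Sum.inl i)) :=
    Finset.sum_congr rfl fun i _ => hF i (κ i) (hκ i)
  rw [h1]
  change ∑ i, F (π i) + ∑ i, F (π i) + _ = _
  have h2 := three_zero (∑ i, F (π i))
  linear_combination h2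

/-- The product formula for a class and a rational integer. -/
lemma prodz (hSTM : STM) (hSPP : SPP) (hSCJ : SCJ) {n m k : ℕ} {π : Fin m → PP}
    {p e : Fin m → ℕ} {r f : Fin k → ℕ} (hn : NF n π p e r f) (T : Finset PP)
    (hT : ∀ ρ ∈ T, (∀ i, ρ ≠ π i) ∧ ∀ i, ρ.1 ≠ conj (π i).1)
    {z t : Eis} (hz : z ≠ 0) (hzt : z * conj z = t ^ 3)
    (hsupp : ∀ σ : PP, σ.1 ∣ z → ∃ i, σ = π i ∨ σ.1 = conj (π i).1) {x : ℤ} (hx : x ≠ 0)
    (hxT : ∀ σ : PP, σ.1 ∣ (x : Eis) → σ ∈ T ∨ ∃ i, σ = π i ∨ σ.1 = conj (π i).1) :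
    sl z (x : Eis) = ∑ i, tm (π i).1 z (x : Eis) - ∑ ρ ∈ T, tm ρ.1 z (x : Eis) := by
  unfold sl
  rw [sum_places hSPP hn T (fun σ => tm σ.1 z (x : Eis)) hT
    (fun i κ hκ => tm_conj_int hSTM hSPP hSCJ hκ hz hzt hx) (by
      intro σ hσT h1 h2
      have hno : ¬ ∃ i, σ = π i ∨ σ.1 = conj (π i).1 := by
        rintro ⟨i, h | h⟩
        · exact h1 i h
        · exact h2 i h
      exact DCONST.tm_zero (fun h => hno (hsupp σ h)) (fun h => by
        rcases hxT σ h with h3 | h3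
        · exact hσT h3
        · exact hno h3))]
  ring

/-- the classes `zN` -/
structure Cls {m : ℕ} (π : Fin m → PP) (e : Fin m → ℕ) (y : Fin (m + 1) → ZMod 3) : Prop where
  ne : zN π e y ≠ 0
  nrm : ∃ t : Eis, zN π e y * conj (zN π e y) = t ^ 3
  supp : ∀ σ : PP, σ.1 ∣ zN π e y → ∃ i, σ = π i ∨ σ.1 = conj (π i).1
  val : ∀ i, (V (π i).1 (zN π e y) : ZMod 3) = (e i : ZMod 3) * y i.succ
  four : - sl (zN π e y) 4 = y 0

lemma cls (hZA : Stmt_ZA) {n m k : ℕ} {π : Fin m → PP} {p e : Fin m → ℕ} {r f : Fin k → ℕ}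
    (hn : NF n π p e r f) (y : Fin (m + 1) → ZMod 3) : Cls π e y := by
  obtain ⟨h1, -, h3, -, -, h6, -, h8, -, -⟩ := hZA n m k π p e r f hn y
  refine ⟨h1, h3, fun σ hσ => ?_, fun i => ?_, ?_⟩
  · obtain ⟨i, -, h⟩ := h6 σ hσ
    exact ⟨i, h⟩
  · have h9 := congrFun h8 i.succ
    unfold PTN.NPSI.yv at h9
    rw [Fin.cons_succ] at h9
    have h10 : (e i : ZMod 3) * (e i : ZMod 3) = 1 := by
      rcases hn.pe i with h1 | h1 <;> rw [h1] <;> decide
    rw [← h9]
    linear_combination (-(V (π i).1 (zN π e y) : ZMod 3)) * h10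
  · have h9 := congrFun h8 0
    unfold PTN.NPSI.yv at h9
    rwa [Fin.cons_zero] at h9

end ZAUX

end Pool.Agent.PTK
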