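import Pool.Agent.PTK.StK
import Pool.Agent.PTK.ZAUX
import Pool.Agent.PTN.NPSU
import Pool.Agent.PT.ENF

/-!
# PTK_ZSU: the classes of `VS` are in the minus part of the Selmer group, `q = 1 (mod 3)`
-/

set_option autoImplicit false

namespace Pool.Agent.PTK

open Pool.Agent.Lib_helper18 Pool.Agent.Lib_helper18.Eis Pool.Agent.Lib_helper84.Cub
open Pool.Agent.PT Pool.Agent.PTE Pool.Agent.PT3 Pool.Agent.PTN Pool.Agent.PT.EHYP
open Pool.Agent.PT3.HYPT

open ZAUX in
/-- PTK_ZSU. -/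
theorem ZSU_thm (hSTM : STM) (hSPP : SPP) (hSSL : SSL) (hSCJ : SCJ) (hLCL : LCL)
    (hZA : Stmt_ZA) (hZC : Stmt_ZC) : Stmt_ZSU := by
  classical
  intro h n m k π p e r f w0 c E q hn hh hE hq hq1 hcl hqn y hy
  obtain ⟨hz, ⟨t, hzt⟩, hsupp, hval, hfour⟩ := cls hZA hn y
  obtain ⟨hZ1, hZ2⟩ := hZC h n m k π p e r f w0 c hn hh y hy
  -- the place `q`
  obtain ⟨ρ, hρ⟩ := ENF.exists_pi hSPP hq hq1
  obtain ⟨κρ, hκρ⟩ := (hSPP.2.2.2.1 ρ).2
  have hD := NPSU.dat hSPP hLCL hn (h := h) hE hq hq1 hcl hqn hρ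
  have h' := HYPU.ext hn hE ρ hq hq1 hqn hρ
  have hlv := hD.bv
  have hlw := hD.bw
  have hi : ∀ i, Prime (π i).1 := fun i => (π i).2.1
  have h3 : ∀ i, ¬ (π i).1 ∣ 3 := fun i => (hSPP.2.2.2.1 (π i)).1
  have hB0 := int_ne hD.ne
  have : Fact (Nat.Prime 3) := ⟨Nat.prime_three⟩
  have hρκ : ρ ≠ κρ := by
    intro h4
    have h6 := not_assoc h' 0 0
    simp only [Fin.cons_zero] at h6
    apply h6
    rw [← hκρ, ← h4]
  -- the symbol at `π i`
  have hpi : ∀ i, tm (π i).1 (zN π e y) ((BB h n E q : ℤ) : Eis) = 0 := by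
    intro i
    unfold tm
    rw [hD.vi i, hD.ci i, hZ1 i, hval i]
    ring
  have hcj : ∀ i (κ : PP), κ.1 = conj (π i).1 →
      tm κ.1 (zN π e y) ((BB h n E q : ℤ) : Eis) = 0 := by
    intro i κ hκ
    rw [tm_conj_int hSTM hSPP hSCJ hκ hz hzt hD.ne, hpi i]
  -- the symbol at the other places except `q`
  have hoth : ∀ σ : PP, σ ≠ ρ → σ ≠ κρ → tm σ.1 (zN π e y) ((BB h n E q : ℤ) : Eis) = 0 := by
    intro σ hσρ hσκ
    by_cases hπ : ∃ i, σ = π i ∨ σ.1 = conj (π i).1
    · obtain ⟨i, rfl | h4⟩ := hπ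
      · exact hpi i
      · exact hcj i σ h4
    · have hσz : ¬ σ.1 ∣ zN π e y := fun h4 => hπ (hsupp σ h4)
      by_cases hσB : σ.1 ∣ ((BB h n E q : ℤ) : Eis)
      · rcases (dvd_iff hSPP hE σ).1 hσB with h5 | h5
        · rcases HYPS.cls hSPP hn σ.2.1 h5 with ⟨i, h6 | h6⟩ | ⟨j, h6⟩
          · exact absurd ⟨i, Or.inl (hSPP.2.1 _ _ h6)⟩ hπ
          · exfalso
            apply hπ
            obtain ⟨κ, hκ⟩ := (hSPP.2.2.2.1 (π i)).2
            refine ⟨i, Or.inr ?_⟩
            rw [← hκ] at h6 ⊢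
            rw [hSPP.2.1 _ _ h6]
          · obtain ⟨ρj, hρj⟩ := hSPP.2.2.2.2.1 (r j) (hn.rp j) (hn.r2 j)
            have h7 : σ = ρj := hSPP.2.1 _ _ (by rw [hρj]; exact h6)
            have h8 := hZ2 j σ (by rw [h7, hρj])
            unfold tm
            rw [h8, V_eq_zero hσz]
            simp
        · exfalso
          rw [hρ] at h5
          rcases σ.2.1.dvd_or_dvd h5 with h5 | h5
          · exact hσρ (hSPP.2.1 _ _ (σ.2.1.associated_of_dvd ρ.2.1 h5))
          · apply hσκ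
            rw [← hκρ] at h5
            exact hSPP.2.1 _ _ (σ.2.1.associated_of_dvd κρ.2.1 h5)
      · exact DCONST.tm_zero hσz hσB
  -- the symbol at `lam` with `3`
  have hsl3 : sl (zN π e y) 3 = - ∑ i, y i.succ * ((e i : ZMod 3) * sym (π i).1 3) := by
    have h2 := prodz hSTM hSPP hSCJ hn ∅ (by simp) hz hzt hsupp (x := 3) (by norm_num) (by
      intro σ hσ
      exfalso
      push_cast at hσ
      exact (hSPP.2.2.2.1 σ).1 hσ)
    rw [Finset.sum_empty, sub_zero] at h2
    push_cast at h2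
    rw [h2, ← Finset.sum_neg_distrib]
    refine Finset.sum_congr rfl fun i _ => ?_
    unfold tm
    rw [V_eq_zero (h3 i), ch_of_not_dvd (hi i) (h3 i), hval i]
    push_cast
    ring
  have hsl4 : sl (zN π e y) 4 = - y 0 := by rw [← hfour, neg_neg]
  have hcol0 : h ≠ 0 → y 0 * (wt ((n : ℤ) ^ 2) + w0) +
      ∑ i, y i.succ * ((e i : ZMod 3) * sym (π i).1 3) = 0 := by
    intro h0
    have h1 := hy.2 (Sum.inl 0) (fun h4 => absurd h4 h0)
    rw [← h1]
    simp [Matrix.vecMul, dotProduct, PTN.Nm, Fin.sum_univ_succ]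
  have hact : ¬ actR h n w0 → y 0 = 0 := hy.1
  have hslB : sl (zN π e y) ((BB h n E q : ℤ) : Eis) = 0 := by
    rw [sl_int hSSL hLCL hz _ hD.ne, hlv, hlw, hsl3, hsl4]
    obtain rfl | rfl | rfl : h = 0 ∨ h = 1 ∨ h = 2 := by omega
    · by_cases h4 : wt ((n : ℤ) ^ 2) + w0 = 0
      · rw [h4]
        simp
      · have h5 : y 0 = 0 := hact (by
          rintro (h6 | h6)
          · omega
          · exact h4 h6.2)
        rw [h5]
        simp
    · have h5 : y 0 = 0 := hact (by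
        rintro (h6 | h6)
        · omega
        · omega)
      have h6 := hcol0 (by omega)
      rw [h5, zero_mul, zero_add] at h6
      rw [h5, h6]
      simp
    · have h6 := hcol0 (by omega)
      have h7 := three_zero (∑ i, y i.succ * ((e i : ZMod 3) * sym (π i).1 3))
      push_cast
      linear_combination h6 - h7
  have hκB : tm κρ.1 (zN π e y) ((BB h n E q : ℤ) : Eis) =
      tm ρ.1 (zN π e y) ((BB h n E q : ℤ) : Eis) :=
    tm_conj_int hSTM hSPP hSCJ hκρ hz hzt hD.ne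
  have hρB : tm ρ.1 (zN π e y) ((BB h n E q : ℤ) : Eis) = 0 := by
    have h4 : sl (zN π e y) ((BB h n E q : ℤ) : Eis) =
        - (tm ρ.1 (zN π e y) ((BB h n E q : ℤ) : Eis) +
          tm κρ.1 (zN π e y) ((BB h n E q : ℤ) : Eis)) := by
      unfold sl
      have hsup : Function.support (fun σ : PP => tm σ.1 (zN π e y) ((BB h n E q : ℤ) : Eis)) ⊆
          (({ρ, κρ} : Finset PP) : Set PP) := by
        intro σ hσ
        by_contra hnm
        apply hσ
        rw [Finset.mem_coe, Finset.mem_insert, Finset.mem_singleton, not_or] at hnm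
        exact hoth σ hnm.1 hnm.2
      rw [finsum_eq_sum_of_support_subset _ hsup, Finset.sum_pair hρκ]
    rw [hslB, hκB] at h4
    have h5 := three_zero (tm ρ.1 (zN π e y) ((BB h n E q : ℤ) : Eis))
    linear_combination h5 - h4
  have hall : ∀ σ : PP, tm σ.1 (zN π e y) ((BB h n E q : ℤ) : Eis) = 0 := by
    intro σ
    by_cases h4 : σ = ρ
    · rw [h4]
      exact hρB
    · by_cases h5 : σ = κρ
      · rw [h5, hκB]
        exact hρB
      · exact hoth σ h4 h5
  refine ⟨hz, ⟨t, hzt⟩, hall, ?_, ?_⟩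
  · intro σ hσB
    have hσz : ¬ σ.1 ∣ zN π e y := by
      intro h4
      apply hσB
      obtain ⟨i, h5⟩ := hsupp σ h4
      have hVB : (π i).1 ∣ ((BB h n E q : ℤ) : Eis) := by
        by_contra h6
        have h7 := hD.vi i
        rw [V_eq_zero h6] at h7
        have := hn.pe i
        omega
      rcases h5 with rfl | h5
      · exact hVB
      · rw [h5]
        have h6 := conj_dvd hVB
        rwa [conj_intCast] at h6
    rw [V_eq_zero hσz]
    exact dvd_zero 3
  · intro hlv1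
    rw [hlv] at hlv1
    have h1 : h = 1 := by
      obtain rfl | rfl | rfl : h = 0 ∨ h = 1 ∨ h = 2 := by omega
      · exact absurd hlv1 (by decide)
      · rfl
      · exact absurd hlv1 (by decide)
    subst h1
    have h5 : y 0 = 0 := hact (by
      rintro (h6 | h6)
      · omega
      · omega)
    have h6 := hcol0 (by omega)
    rw [h5, zero_mul, zero_add] at h6
    exact ⟨by rw [hsl3, h6, neg_zero], by rw [hsl4, h5, neg_zero]⟩

end Pool.Agent.PTK
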