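import Pool.Agent.PTK.AV1
import Pool.Agent.PTK.AV2
import Pool.Agent.PTK.AVF
import Pool.Agent.PTK.AVG
import Pool.Agent.PTK.AVZ
import Pool.Agent.PTK.BDJ
import Pool.Agent.PTK.BDJU
import Pool.Agent.PTK.BDJZ
import Pool.Agent.PTK.CT0
import Pool.Agent.PTK.CTJ
import Pool.Agent.PTK.CTU
import Pool.Agent.PTK.CTZ
import Pool.Agent.PTK.CU0
import Pool.Agent.PTK.CZ0
import Pool.Agent.PTK.DCK
import Pool.Agent.PTK.DCKU
import Pool.Agent.PTK.DNS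
import Pool.Agent.PTK.DNS1
import Pool.Agent.PTK.DP1
import Pool.Agent.PTK.DP2
import Pool.Agent.PTK.DP3
import Pool.Agent.PTK.DP4
import Pool.Agent.PTK.DP4U
import Pool.Agent.PTK.F6R
import Pool.Agent.PTK.F7U
import Pool.Agent.PTK.GFK
import Pool.Agent.PTK.GFKU
import Pool.Agent.PTK.GTK
import Pool.Agent.PTK.GTU
import Pool.Agent.PTK.HNE
import Pool.Agent.PTK.IF1
import Pool.Agent.PTK.IF2
import Pool.Agent.PTK.IF4
import Pool.Agent.PTK.IF4B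
import Pool.Agent.PTK.IIA
import Pool.Agent.PTK.IIAG
import Pool.Agent.PTK.JAL
import Pool.Agent.PTK.JAU
import Pool.Agent.PTK.JAZ
import Pool.Agent.PTK.JC1
import Pool.Agent.PTK.JC2
import Pool.Agent.PTK.JKU
import Pool.Agent.PTK.JZ
import Pool.Agent.PTK.KUP
import Pool.Agent.PTK.LAM
import Pool.Agent.PTK.LCI
import Pool.Agent.PTK.LFV
import Pool.Agent.PTK.LIN
import Pool.Agent.PTK.MAJ
import Pool.Agent.PTK.MSK
import Pool.Agent.PTK.MSKU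
import Pool.Agent.PTK.MSP
import Pool.Agent.PTK.MSPU
import Pool.Agent.PTK.NBU
import Pool.Agent.PTK.NBW
import Pool.Agent.PTK.NBZ
import Pool.Agent.PTK.NCN
import Pool.Agent.PTK.NDS
import Pool.Agent.PTK.NFL
import Pool.Agent.PTK.NFX
import Pool.Agent.PTK.NGN
import Pool.Agent.PTK.NHN
import Pool.Agent.PTK.NHO
import Pool.Agent.PTK.NMN
import Pool.Agent.PTK.NNS
import Pool.Agent.PTK.NRK
import Pool.Agent.PTK.NTR
import Pool.Agent.PTK.PAT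
import Pool.Agent.PTK.PLE
import Pool.Agent.PTK.PLU
import Pool.Agent.PTK.PT
import Pool.Agent.PTK.S1G
import Pool.Agent.PTK.SVF
import Pool.Agent.PTK.SYK
import Pool.Agent.PTK.UPA
import Pool.Agent.PTK.UPS
import Pool.Agent.PTK.VDIM
import Pool.Agent.PTK.WGR
import Pool.Agent.PTK.WGU
import Pool.Agent.PTK.WSUM
import Pool.Agent.PTK.ZA
import Pool.Agent.PTK.ZC
import Pool.Agent.PTK.ZI
import Pool.Agent.PTK.ZL
import Pool.Agent.PTK.ZS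
import Pool.Agent.PTK.ZSU
import Pool.Agent.PTK.ZT
import Pool.Agent.PTN.Final


/-!
# The averages of the rank and of `3 ^ r` for prime twists: assembly
-/

namespace Pool.Agent.PTK.FinalJ

open Pool.Agent.PTK

theorem jUPS : Stmt_UPS := UPS_thm 

theorem jUPA : Stmt_UPA := UPA_thm Pool.Agent.PT.Final.fSPP

theorem jKUP : Stmt_KUP := KUP_thm Pool.Agent.PTN.Final.fDOMG Pool.Agent.PTN.Final.fLAW

theorem jLAM : Stmt_LAM := LAM_thm 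

theorem jVDIM : Stmt_VDIM := VDIM_thm 

theorem jLIN : Stmt_LIN := LIN_thm 

theorem jWSUM : Stmt_WSUM := WSUM_thm jVDIM jLIN

theorem jPLE : Stmt_PLE := PLE_thm Pool.Agent.PTN.Final.fNBAS Pool.Agent.PT3.Final.fESYT

theorem jLCI : Stmt_LCI := LCI_thm Pool.Agent.PT.Final.fSPP

theorem jNFL : Stmt_NFL := NFL_thm 

theorem jNRK : Stmt_NRK := NRK_thm 

theorem jNHN : Stmt_NHN := NHN_thm 

theorem jNTR : Stmt_NTR := NTR_thm Pool.Agent.PT.Final.fSPP jNHN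

theorem jNCN : Stmt_NCN := NCN_thm Pool.Agent.PT.Final.fSPP jLCI jNHN jNTR

theorem jNFX : Stmt_NFX := NFX_thm Pool.Agent.PT.Final.fSPP jNHN jNTR

theorem jNHO : Stmt_NHO := NHO_thm Pool.Agent.PT.Final.fSPP jNHN jNTR

theorem jNNS : Stmt_NNS := NNS_thm 

theorem jNGN : Stmt_NGN := NGN_thm Pool.Agent.PT.Final.fSPP Pool.Agent.PT.Final.fSREC jLCI Pool.Agent.PT.Final.fNAUX

theorem jNMN : Stmt_NMN := NMN_thm Pool.Agent.PT.Final.fSTM Pool.Agent.PT.Final.fSPP Pool.Agent.PT.Final.fSSL Pool.Agent.PT.Final.fSLC Pool.Agent.PT.Final.fHERBQ Pool.Agent.PT.Final.fSUN jNRK jNHN jNTR jNCN jNFX jNHO jNNS jNGN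

theorem jNDS : Stmt_NDS := NDS_thm 

theorem jHNE : Stmt_HNE := HNE_thm jNFL jNMN jNDS

theorem jZA : Stmt_ZA := ZA_thm Pool.Agent.PT.Final.fSPP Pool.Agent.PT.Final.fSSL Pool.Agent.PT.Final.fSREC Pool.Agent.PT3.Final.fLCL

theorem jZI : Stmt_ZI := ZI_thm jZA

theorem jZL : Stmt_ZL := ZL_thm Pool.Agent.PT.Final.fSPP Pool.Agent.PT.Final.fSSL Pool.Agent.PT.Final.fSREC Pool.Agent.PT.Final.fSCJ

theorem jZC : Stmt_ZC := ZC_thm Pool.Agent.PT.Final.fSTM Pool.Agent.PT.Final.fSPP Pool.Agent.PT.Final.fSSL Pool.Agent.PT.Final.fSCJ Pool.Agent.PT3.Final.fLCL jZA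

theorem jZT : Stmt_ZT := ZT_thm Pool.Agent.PT.Final.fSTM Pool.Agent.PT.Final.fSPP Pool.Agent.PT.Final.fSCJ jLCI jZA jZC

theorem jSYK : Stmt_SYK := SYK_thm Pool.Agent.PT.Final.fSPP jLCI jHNE jZA jZI jZL jZT

theorem jMSP : Stmt_MSP := MSP_thm Pool.Agent.PT3.Final.fDCOT Pool.Agent.PT3.Final.fTENT Pool.Agent.PTN.Final.fNADT

theorem jIF4 : Stmt_IF4 := IF4_thm Pool.Agent.PT.Final.fSTAR

theorem jIF4B : Stmt_IF4B := IF4B_thm Pool.Agent.PT.Final.fSTAR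

theorem jF6R : Stmt_F6R := F6R_thm Pool.Agent.PT.Final.fSTM

theorem jF7U : Stmt_F7U := F7U_thm Pool.Agent.PT.Final.fSTM

theorem jLFV : Stmt_LFV := LFV_thm Pool.Agent.PT.Final.fSPP

theorem jDP1 : Stmt_DP1 := DP1_thm Pool.Agent.PT.Final.fSTM Pool.Agent.PT.Final.fSPP jIF4 jIF4B jF6R jF7U jLFV jLCI

theorem jIF2 : Stmt_IF2 := IF2_thm Pool.Agent.PT.Final.fSTAR

theorem jIF1 : Stmt_IF1 := IF1_thm 

theorem jSVF : Stmt_SVF := SVF_thm Pool.Agent.PT.Final.fSSL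

theorem jIIAG : Stmt_IIAG := IIAG_thm Pool.Agent.PT.Final.fSTM Pool.Agent.PT.Final.fSPP Pool.Agent.PT.Final.fSSL jLCI jIF1 jIF2 jIF4 jF6R jF7U jSVF

theorem jIIA : Stmt_IIA := IIA_thm Pool.Agent.PT.Final.fSLC jIIAG

theorem jDP2 : Stmt_DP2 := DP2_thm Pool.Agent.PT.Final.fSLC jIF2 jIIA

theorem jDP3 : Stmt_DP3 := DP3_thm Pool.Agent.PT.Final.fSTM Pool.Agent.PT.Final.fSPP jIF4 jF7U jLFV jLCI

theorem jDP4 : Stmt_DP4 := DP4_thm Pool.Agent.PT.Final.fSTM Pool.Agent.PT.Final.fSPP jIF4 jLCI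

theorem jDCK : Stmt_DCK := DCK_thm Pool.Agent.PT.Final.fSPP jDP1 jDP2 jDP3 jDP4 jSVF

theorem jZS : Stmt_ZS := ZS_thm Pool.Agent.PT.Final.fSTM Pool.Agent.PT.Final.fSPP Pool.Agent.PT.Final.fSSL Pool.Agent.PT.Final.fSCJ Pool.Agent.PT3.Final.fLCL jZA jZC

theorem jPT : Stmt_PT := PT_thm 

theorem jMSK : Stmt_MSK := MSK_thm Pool.Agent.PT.Final.fSPP jDCK jZS jPT jZA

theorem jJZ : Stmt_JZ := JZ_thm 

theorem jGTK : Stmt_GTK := GTK_thm 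

theorem jGFK : Stmt_GFK := GFK_thm 

theorem jJKU : Stmt_JKU := JKU_thm Pool.Agent.PT.Final.fKUM

theorem jJC1 : Stmt_JC1 := JC1_thm jJKU

theorem jJC2 : Stmt_JC2 := JC2_thm jJKU

theorem jJAL : Stmt_JAL := JAL_thm jJZ Pool.Agent.PT.Final.fGCHI Pool.Agent.PT3.Final.fGTG Pool.Agent.PT3.Final.fGFRG jGTK jGFK jJC1 jJC2

theorem jDNS : Stmt_DNS := DNS_thm Pool.Agent.PT.Final.fDIR

theorem jBDJ : Stmt_BDJ := BDJ_thm jLCI Pool.Agent.PTN.Final.fEQX jJAL jDNS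

theorem jCTJ : Stmt_CTJ := CTJ_thm Pool.Agent.PT.Final.fCLSC jSYK jMSP jMSK jBDJ

theorem jCT0 : Stmt_CT0 := CT0_thm Pool.Agent.PT.Final.fCLSC jMSP Pool.Agent.PTN.Final.fBDG

theorem jS1G : Stmt_S1G := S1G_thm Pool.Agent.PTN.Final.fKEX Pool.Agent.PTN.Final.fKEMB Pool.Agent.PTN.Final.fKAD Pool.Agent.PTN.Final.fKMI

theorem jWGR : Stmt_WGR := WGR_thm Pool.Agent.PT.Final.fSPP Pool.Agent.PT.Final.fSSL Pool.Agent.PT.Final.fSCJ Pool.Agent.PT3.Final.fLCL Pool.Agent.PTN.Final.fNKIN jZA jZS jS1G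

theorem jNBW : Stmt_NBW := NBW_thm Pool.Agent.PTN.Final.fKID Pool.Agent.PTN.Final.fNADT Pool.Agent.PTN.Final.fNPLU Pool.Agent.PT3.Final.fTENT jWGR

theorem jAV2 : Stmt_AV2 := AV2_thm jUPS jUPA jKUP jLAM jWSUM jPLE jCTJ jCT0 jNBW jWGR

theorem jPLU : Stmt_PLU := PLU_thm Pool.Agent.PT3.Final.fESYT

theorem jZSU : Stmt_ZSU := ZSU_thm Pool.Agent.PT.Final.fSTM Pool.Agent.PT.Final.fSPP Pool.Agent.PT.Final.fSSL Pool.Agent.PT.Final.fSCJ Pool.Agent.PT3.Final.fLCL jZA jZC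

theorem jWGU : Stmt_WGU := WGU_thm Pool.Agent.PT.Final.fSTM Pool.Agent.PT.Final.fSPP Pool.Agent.PT.Final.fSSL Pool.Agent.PT.Final.fSCJ Pool.Agent.PT3.Final.fLCL Pool.Agent.PTN.Final.fNVEC Pool.Agent.PTN.Final.fNKIN jZA jZSU jS1G

theorem jNBU : Stmt_NBU := NBU_thm Pool.Agent.PTN.Final.fKID Pool.Agent.PTN.Final.fNKIN Pool.Agent.PTN.Final.fNADU Pool.Agent.PTN.Final.fNPLU Pool.Agent.PT3.Final.fTENT Pool.Agent.PT.Final.fSPP Pool.Agent.PTE.Final.fSPLT jWGU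

theorem jNBZ : Stmt_NBZ := NBZ_thm Pool.Agent.PTN.Final.fKID Pool.Agent.PTN.Final.fNADU Pool.Agent.PTN.Final.fNPLU Pool.Agent.PTN.Final.fNVEC Pool.Agent.PTE.Final.fSPLT jWGU

theorem jPAT : Stmt_PAT := PAT_thm 

theorem jMSPU : Stmt_MSPU := MSPU_thm Pool.Agent.PT3.Final.fDCOU Pool.Agent.PT3.Final.fTENT Pool.Agent.PTN.Final.fNADU Pool.Agent.PTE.Final.fSPLT

theorem jDP4U : Stmt_DP4U := DP4U_thm Pool.Agent.PT.Final.fSTM Pool.Agent.PT.Final.fSPP jIF4 jLCI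

theorem jDCKU : Stmt_DCKU := DCKU_thm Pool.Agent.PT.Final.fSPP jDP1 jDP2 jDP3 jDP4U jSVF

theorem jMSKU : Stmt_MSKU := MSKU_thm jDCKU jZSU jPT jZA

theorem jGTU : Stmt_GTU := GTU_thm 

theorem jGFKU : Stmt_GFKU := GFKU_thm Pool.Agent.PT.Final.fSPP Pool.Agent.PT.Final.fSCJ Pool.Agent.PTE.Final.fSPLT

theorem jJAU : Stmt_JAU := JAU_thm jJZ Pool.Agent.PT.Final.fGCHI Pool.Agent.PTE.Final.fGTS Pool.Agent.PTE.Final.fGKUM Pool.Agent.PTN.Final.fGFRU jGTU jGFKU jJC1 jJC2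

theorem jDNS1 : Stmt_DNS1 := DNS1_thm Pool.Agent.PT.Final.fDIR

theorem jBDJU : Stmt_BDJU := BDJU_thm Pool.Agent.PT.Final.fSPP Pool.Agent.PTE.Final.fSPLT jLCI Pool.Agent.PTN.Final.fEQX jJAU jDNS1

theorem jCTU : Stmt_CTU := CTU_thm Pool.Agent.PT.Final.fCLSC Pool.Agent.PTE.Final.fCLSCS jSYK jMSPU jMSKU jBDJU

theorem jCU0 : Stmt_CU0 := CU0_thm Pool.Agent.PT.Final.fCLSC Pool.Agent.PTE.Final.fCLSCS jMSPU Pool.Agent.PTN.Final.fBDU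

theorem jAVG : Stmt_AVG := AVG_thm jKUP jWSUM jCTU jCU0

theorem jJAZ : Stmt_JAZ := JAZ_thm jJZ Pool.Agent.PT.Final.fGCHI Pool.Agent.PTE.Final.fGKUM jGTU jGFKU jJC1 Pool.Agent.PTE.Final.fSPLT Pool.Agent.PT.Final.fSPP

theorem jBDJZ : Stmt_BDJZ := BDJZ_thm Pool.Agent.PT.Final.fSPP Pool.Agent.PTE.Final.fSPLT jJAZ jDNS1

theorem jCTZ : Stmt_CTZ := CTZ_thm Pool.Agent.PTE.Final.fSPLT Pool.Agent.PT.Final.fSPP Pool.Agent.PT.Final.fCLSC Pool.Agent.PTE.Final.fCLSCS jPLE jSYK jMSKU jBDJZ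

theorem jCZ0 : Stmt_CZ0 := CZ0_thm Pool.Agent.PTE.Final.fSPLT Pool.Agent.PTN.Final.fCLT Pool.Agent.PTN.Final.fSMT Pool.Agent.PTN.Final.fDLL

theorem jAVZ : Stmt_AVZ := AVZ_thm jKUP jWSUM jCTZ jCZ0

theorem jAV1 : Stmt_AV1 := AV1_thm jUPS jUPA jLAM Pool.Agent.PTN.Final.fNHPT jPLU jNBU jNBZ jWGU jPAT jAVG jAVZ Pool.Agent.PTE.Final.fSPLT

theorem jAVF : Stmt_AVF := AVF_thm Pool.Agent.PTN.Final.fSUMA jAV2 jAV1

theorem jMAJ : Stmt_MAJ := MAJ_thm Pool.Agent.PTN.Final.fNFE Pool.Agent.PTN.Final.fTRU Pool.Agent.PTN.Final.fSUMA jAVF jAV2 jAV1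

end Pool.Agent.PTK.FinalJ
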