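import Pool.Agent.PTK.StM
import Pool.Agent.PTN.GFRU
import Pool.Agent.PT.SPP

/-!
# Frobenius elements when all the `b j` are cubes modulo `Q`, for both prime factors
-/

set_option autoImplicit false

open NumberField IsDedekindDomain Finset
open scoped nonZeroDivisors Pointwise

namespace Pool.Agent.PTK

open Pool.Agent.Lib_helper18 Pool.Agent.Lib_helper18.Eis Pool.Agent.Lib_helper84.Cub
open Pool.Agent.PT Pool.Agent.PTE Pool.Agent.PT3 Pool.Agent.PTL Pool.Agent.PTN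

/-- GFZ: Frobenius elements when all the `b j` are cubes modulo `Q`, `Q = 1 (mod 3)`. -/
theorem GFZ_thm (hSPLT : SPLT) : Stmt_GFZ := by
  classical
  intro s b p q p' q' f L _ _ ζ ω hS hG
  let B : Fin s → Fin s → ℕ := fun j i => (b j).natAbs +
    (p j i ^ 3 + b j * q j i ^ 3).natAbs + (p' j i ^ 3 + b j * q' j i ^ 3).natAbs
  refine ⟨∑ j, ∑ i, B j i, fun Q hQ hQN hQ3 P hP hQP φ hφ ρ hρQ hsym => ?_⟩
  have hB : ∀ j i, B j i < Q := by
    intro j i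
    refine lt_of_le_of_lt ?_ hQN
    have h1 : B j i ≤ ∑ i, B j i :=
      Finset.single_le_sum (f := fun i => B j i) (fun _ _ => Nat.zero_le _) (Finset.mem_univ i)
    refine h1.trans ?_
    exact Finset.single_le_sum (f := fun j => ∑ i, B j i) (fun _ _ => Nat.zero_le _)
      (Finset.mem_univ j)
  have hb : ∀ j, ¬ (Q : ℤ) ∣ b j := fun j =>
    GFR.not_dvd_of_lt (PTE.GFRS.ne_zero hS j)
      (by have := hB j j; simp only [B] at this; omega)
  have hd1 : ∀ j i : Fin s, j ≠ i →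
      ¬ (Q : ℤ) ∣ p j i ^ 3 + b j * q j i ^ 3 ∧
      ¬ (Q : ℤ) ∣ p' j i ^ 3 + b j * q' j i ^ 3 := by
    intro j i hji
    have hsol := hS.sol j i hji
    have h2 : p' j i ^ 3 + b j * q' j i ^ 3 ≠ 0 := by
      intro h0
      refine hsol.n1 ?_
      rw [hsol.eq, h0, mul_zero]
    have hBji := hB j i
    simp only [B] at hBji
    have e1 := GFR.not_dvd_of_lt (Q := Q) hsol.n1 (by omega)
    have e2 := GFR.not_dvd_of_lt (Q := Q) h2 (by omega)
    exact ⟨e1, e2⟩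
  obtain ⟨ωB, ρ₀, F, _, mk, z, ψ, rfl, hρ₀, D⟩ :=
    PTE.GFRS.exists_dat hSPLT SPP_thm hQ hP hQP hQ3 hφ hG.rel
  -- the statement for the prime factor compatible with `P`
  have key1 : (∀ j : Fin s, sym ρ₀.1 (b j : Eis) = 0) →
      ∀ (j : Fin s) (θ : L), θ ^ 3 = (b j : L) → φ θ = θ := by
    intro h1 j θ hθ
    obtain ⟨θB, rfl, hθB⟩ := PTE.GFRS.exists_int hθ
    by_contra h3
    exact D.sym_ne hθB (hb _)
      (fun h => h3 (congrArg (fun x : 𝓞 L => (x : L)) h)) (h1 j)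
  have key2 : (∀ (j : Fin s) (θ : L), θ ^ 3 = (b j : L) → φ θ = θ) →
      ∀ j i : Fin s, j ≠ i → ∀ (r : ℤ) (t : ZMod 3), (Q : ℤ) ∣ r ^ 3 - b j →
      IsTS b p q p' q' (ωB : L) φ j i t →
      t = TAUVS ρ₀.1 (p j i) (q j i) (p' j i) (q' j i) r := by
    intro hF j i hji r t hr ht
    obtain ⟨e1, e2⟩ := hd1 j i hji
    obtain ⟨θ₀, hθ₀⟩ := hG.root j
    obtain ⟨θ₁, rfl, hθ₁⟩ := PTE.GFRS.exists_int hθ₀
    obtain ⟨θ, hθ, hrθ⟩ := D.exists_root hr hθ₁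
    have hθL : (θ : L) ^ 3 = (b j : L) := by
      rw [← map_pow, hθ, map_intCast]
    obtain ⟨A, hA⟩ := hG.A j i hji θ hθL
    exact D.core e1 e2 hr hrθ (hF j θ hθL) hA (ht θ A hθL hA)
  -- the other prime factor
  obtain ⟨-, -, h3, h4, h5, -⟩ := hSPLT.2 Q ρ₀ hQ hQ3 hρ₀
  have hC : GFRU.CJ ρ₀.1 Q := ⟨h4, h5⟩
  rcases h3 ρ ⟨conj ρ.1, hρQ⟩ with h6 | h6
  · rw [h6] at hsym ⊢
    have hF := key1 hsym
    exact ⟨D.fω, hF, key2 hF⟩
  · rw [h6] at hsym ⊢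
    have hF := key1 fun j => by
      have h7 := hsym j
      rwa [hC.int (hb _), neg_eq_zero] at h7
    refine ⟨D.fω, hF, fun j i hji r t hr ht => ?_⟩
    rw [hC.tauvs (hd1 j i hji).1 (hd1 j i hji).2 hr]
    exact key2 hF j i hji r t hr ht

end Pool.Agent.PTK
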