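import Pool.Agent.PTK.StM
import Pool.Agent.PTE.GTS

/-!
# GTZ (helper44): existence, uniqueness and properties of `t` on the elements fixing all roots of
the `b j`, `Q = 1 (mod 3)`
-/

set_option autoImplicit false
set_option linter.unusedSectionVars false

open NumberField IsDedekindDomain Finset
open scoped nonZeroDivisors Pointwise

namespace Pool.Agent.PTK

open Pool.Agent.Lib_helper18 Pool.Agent.Lib_helper18.Eis Pool.Agent.Lib_helper84.Cub
open Pool.Agent.PT Pool.Agent.PTE Pool.Agent.PT3 Pool.Agent.PTL Pool.Agent.PTN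

open Pool.Agent.PT.GT in
/-- GTZ: existence, uniqueness and properties of `t` on the elements fixing all roots. -/
theorem GTZ_thm : Stmt_GTZ := by
  intro s b p q p' q' f L _ _ ζ ω hS hG
  have rel := hG.rel
  have h3 := cube_one rel
  have hω0 := ω_ne_zero rel
  refine ⟨?_, ?_⟩
  · intro g τ hg hF
    have hinv : ∀ (j : Fin s) (ρ : L), ρ ^ 3 = (b j : L) → (τ⁻¹ ρ) ^ 3 = (b j : L) := by
      intro j ρ hρ
      rw [← map_pow, hρ, map_intCast]
    refine ⟨?_, ?_⟩
    · rw [GTS.conj_apply]
      have h1 : g (τ⁻¹ ω) = τ⁻¹ ω := by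
        rcases map_ω rel (τ⁻¹ : L ≃ₐ[ℚ] L) with h | h
        · rw [h, hg]
        · rw [h, map_pow, hg]
      rw [h1, GTS.apply_inv]
    · intro j ρ hρ
      rw [GTS.conj_apply, hF j _ (hinv _ ρ hρ), GTS.apply_inv]
  · intro j i hji
    have hsol := hS.sol _ _ hji
    have hAne : ∀ ρ A : L, ρ ^ 3 = (b j : L) →
        A ^ 3 * aD ω (p j i) (q j i)
          (p' j i) (q' j i) ρ =
        aN ω (p j i) (q j i)
          (p' j i) (q' j i) ρ → A ≠ 0 := by
      rintro ρ A hρ hA rfl
      apply (hG.D _ _ hji ρ hρ).2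
      rw [← hA]
      ring
    refine ⟨?_, ?_, ?_⟩
    · intro g hg hF
      obtain ⟨ρ, hρ⟩ := hG.root j
      obtain ⟨θ, hθ⟩ := hG.root i
      obtain ⟨A, hA⟩ := hG.A _ _ hji ρ hρ
      have hA0 := hAne ρ A hρ hA
      obtain ⟨hD, hN⟩ := hG.D _ _ hji ρ hρ
      have hgρ := hF j ρ hρ
      have e1 : (g A) ^ 3 = A ^ 3 := by
        have h1 := congrArg g hA
        rw [map_mul, map_pow, map_aD' hg, map_aN' hg, hgρ, ← hA] at h1
        exact mul_right_cancel₀ hD h1
      obtain ⟨t, ht⟩ := of_cube rel e1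
      have hW : GTS.W ω (p j i) (q j i)
          (p' j i) (q' j i) g t ρ := by
        intro A' hA'
        have e2 : A' ^ 3 = A ^ 3 := mul_right_cancel₀ hD (hA'.trans hA.symm)
        obtain ⟨m, hm⟩ := of_cube rel e2
        rw [hm, map_mul, map_E' hg, ht]
        ring
      refine ⟨t, ?_, ?_⟩
      · intro ρ' A' hρ' hA'
        exact GTS.W_all rel hρ hρ' hθ hsol.toSolW hg (hF j) (hF i θ hθ)
          (hG.A _ _ hji) hW A' hA'
      · intro t' ht'
        have h1 : g A = E ω t' * A := ht' ρ A hρ hA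
        rw [ht] at h1
        exact (E_inj rel (mul_right_cancel₀ hA0 h1)).symm
    · intro g τ t hg hF ht ρ A hρ hA
      have hρ' : (τ⁻¹ ρ) ^ 3 = (b j : L) := by rw [← map_pow, hρ, map_intCast]
      have hA0 := hAne ρ A hρ hA
      have e1 := congrArg (τ⁻¹ : L ≃ₐ[ℚ] L) hA
      rw [map_mul, map_pow] at e1
      rw [GTS.conj_apply]
      change τ (g (τ⁻¹ A)) = E ω t * A
      rcases map_ω rel (τ⁻¹ : L ≃ₐ[ℚ] L) with hτ | hτ
      · rw [map_aD' hτ, map_aN' hτ] at e1
        have h1 : g (τ⁻¹ A) = E ω t * τ⁻¹ A := ht _ _ hρ' e1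
        have hτω : τ ω = ω := by
          have := congrArg τ hτ
          rw [GTS.apply_inv] at this
          exact this.symm
        rw [h1, map_mul, map_E' hτω, GTS.apply_inv]
      · rw [map_aD rel hτ, map_aN rel hτ] at e1
        have hA1 : τ⁻¹ A ≠ 0 := by
          rw [Ne, EmbeddingLike.map_eq_zero_iff]
          exact hA0
        have h1 : g ((τ⁻¹ A)⁻¹) = E ω t * (τ⁻¹ A)⁻¹ := by
          apply ht _ _ hρ'
          rw [inv_pow, ← e1]
          field_simp
        have hτω : τ ω = ω ^ 2 := by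
          have h4 := congrArg τ hτ
          rw [GTS.apply_inv, map_pow] at h4
          rcases map_ω rel τ with h5 | h5
          · exfalso
            rw [h5] at h4
            apply ω_ne_one rel
            have h6 : ω * (ω - 1) = 0 := by linear_combination -h4
            rcases mul_eq_zero.1 h6 with h7 | h7
            · exact absurd h7 hω0
            · exact sub_eq_zero.1 h7
          · exact h5
        have h2 : g (τ⁻¹ A) = E ω (-t) * τ⁻¹ A := by
          rw [map_inv₀] at h1
          rw [E_neg rel]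
          have h4 := congrArg (fun x => x⁻¹) h1
          simp only [inv_inv, mul_inv] at h4
          exact h4
        rw [h2, map_mul, map_E rel hτω, neg_neg, GTS.apply_inv]
    · intro g t k hg ht ρ A hρ hA
      have h1 : g A = E ω t * A := ht ρ A hρ hA
      exact GTS.pow_E rel hg h1 k

end Pool.Agent.PTK
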