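import Pool.Agent.PTK.StW

/-!
# PTK_JPG: joint averages, `q = 1 (mod 3)`, one pattern
-/

set_option autoImplicit false

open NumberField IsDedekindDomain Finset
open scoped nonZeroDivisors Pointwise

namespace Pool.Agent.PTK

open Pool.Agent.Lib_helper18 Pool.Agent.Lib_helper18.Eis Pool.Agent.Lib_helper84.Cub
open Pool.Agent.PT Pool.Agent.PTE Pool.Agent.PT3 Pool.Agent.PTL Pool.Agent.PTN

namespace JPG

theorem Esk_nonneg (s : ℕ) (F : ℕ → ℝ) (hF : ∀ c, 0 ≤ F c) : 0 ≤ Esk s F := by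
  unfold Esk
  exact div_nonneg (finsum_nonneg fun M => hF _) (Nat.cast_nonneg _)

end JPG

/-- PTK_JPG -/
theorem JPG_thm (hKUM : Stmt_KUM) (hWSM : Stmt_WSM) (hMTU : Stmt_MTU) : Stmt_JPG := by
  intro h n m k π p e r f w0 c d v δ s τ b X Y P Q P' Q' hNF hh hδ hPl k₀ F hF hF0
  have hd : d - 1 = s := by
    have := hPl.dim
    omega
  have hFn : ∀ c, 0 ≤ F c := fun c => hF0.trans (hF (Nat.zero_le c))
  have hEn : 0 ≤ Esk (d - 1) F := JPG.Esk_nonneg _ _ hFn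
  have hkU : ∀ E q : ℕ, kU h n b X Y P Q P' Q' E q ≤ s := fun E q => Nat.sub_le _ _
  refine hWSM h n m k π p e r f w0 c hNF hh k₀
    (fun E => {q | q % 3 = 1 ∧ InCT E π w0 c q ∧ q ∈ Pat v δ})
    (fun E q => F (kU h n b X Y P Q P' Q' E q)) (Esk (d - 1) F * (2 / 3 ^ d / 3 ^ (m + 1)))
    (by positivity) (fun E q => hFn _) ?_
  intro M N y α β hT
  have hset : ∀ E : ℕ, ∀ t : ℕ,
      {q | q ∈ {q | q ∈ {q | q % 3 = 1 ∧ InCT E π w0 c q ∧ q ∈ Pat v δ} ∧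
        ∀ j, Occ (BB h n E q) (zN π e (y (α j)))} ∧ t ≤ kU h n b X Y P Q P' Q' E q} =
      {q | (q ∈ QM h n π e w0 c y α 1 E ∧ q ∈ Pat v δ) ∧
        t ≤ kU h n b X Y P Q P' Q' E q} := by
    intro E t
    ext q
    constructor
    · rintro ⟨⟨⟨h1, h2, h3⟩, h4⟩, h5⟩
      exact ⟨⟨⟨h1, h2, h4⟩, h3⟩, h5⟩
    · rintro ⟨⟨⟨h1, h2, h4⟩, h3⟩, h5⟩
      exact ⟨⟨⟨h1, h2, h3⟩, h4⟩, h5⟩
  have h1 := hKUM
    (fun E => {q | q ∈ {q | q % 3 = 1 ∧ InCT E π w0 c q ∧ q ∈ Pat v δ} ∧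
        ∀ j, Occ (BB h n E q) (zN π e (y (α j)))})
    (fun E q => kU h n b X Y P Q P' Q' E q) s 0 (2 / 3 ^ d / 3 ^ N / 3 ^ (m + 1))
    (by positivity) (fun E q _ _ _ _ => hkU E q)
    (fun t => by
      obtain ⟨K, hK⟩ := hMTU h n m k π p e r f w0 c d v δ s τ b X Y P Q P' Q' hNF hh hδ hPl
        M N y α β hT t
      refine ⟨K, fun σ h1 h2 => ?_⟩
      have h3 := hK σ h1 h2
      rw [← hset 1 t, ← hset 2 t] at h3
      exact h3) F hF hF0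
  have h2 : Esk s F * (2 / 3 ^ d / 3 ^ N / 3 ^ (m + 1)) =
      Esk (d - 1) F * (2 / 3 ^ d / 3 ^ (m + 1)) / (3 : ℝ) ^ N := by
    rw [hd]
    field_simp
  rw [h2] at h1
  exact h1

end Pool.Agent.PTK
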