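import Pool.Agent.PTK.StW

/-!
# PTK_JPZ: joint averages, `q = 1 (mod 3)`, zero pattern
-/

set_option autoImplicit false

open NumberField IsDedekindDomain Finset
open scoped nonZeroDivisors Pointwise

namespace Pool.Agent.PTK

open Pool.Agent.Lib_helper18 Pool.Agent.Lib_helper18.Eis Pool.Agent.Lib_helper84.Cub
open Pool.Agent.PT Pool.Agent.PTE Pool.Agent.PT3 Pool.Agent.PTL Pool.Agent.PTN

namespace JPZ

theorem Esk_nonneg (s : ℕ) (F : ℕ → ℝ) (hF : ∀ c, 0 ≤ F c) : 0 ≤ Esk s F := by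
  unfold Esk
  haveI := Fintype.ofFinite {M : Matrix (Fin s) (Fin s) (ZMod 3) // M.transpose = -M}
  rw [finsum_eq_sum_of_fintype]
  exact div_nonneg (Finset.sum_nonneg fun M _ => hF _) (Nat.cast_nonneg _)

end JPZ

open JPZ in
theorem JPZ_thm (hWSM : Stmt_WSM) (hKUM : Stmt_KUM) (hMTZ : Stmt_MTZ) : Stmt_JPZ := by
  intro h n m k π p e r f w0 c s τ b X Y P Q P' Q' hNF hh hS k₀ F hF hF0
  have hFn : ∀ c, 0 ≤ F c := fun c => hF0.trans (hF (Nat.zero_le c))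
  refine hWSM h n m k π p e r f w0 c hNF hh k₀
    (fun E => {q | q % 3 = 1 ∧ InCT E π w0 c q ∧ q ∈ ZP b})
    (fun E q => F (kS h n b X Y P Q P' Q' E q)) (Esk s F * (1 / 3 ^ s / 3 ^ (m + 1)))
    (mul_nonneg (Esk_nonneg s F hFn) (by positivity)) (fun E q => hFn _) ?_
  intro M N y α β hT
  have h1 := hKUM
    (fun E => {q | q ∈ {q | q % 3 = 1 ∧ InCT E π w0 c q ∧ q ∈ ZP b} ∧
      ∀ j, Occ (BB h n E q) (zN π e (y (α j)))})
    (fun E q => kS h n b X Y P Q P' Q' E q) s 0 (1 / 3 ^ s / 3 ^ N / 3 ^ (m + 1))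
    (by positivity) (fun E q _ _ _ _ => Nat.sub_le _ _) ?_ F hF hF0
  · have e1 : Esk s F * (1 / 3 ^ s / 3 ^ N / 3 ^ (m + 1)) =
        Esk s F * (1 / 3 ^ s / 3 ^ (m + 1)) / 3 ^ N := by
      field_simp
    rw [e1] at h1
    exact h1
  · intro t
    obtain ⟨K, hK⟩ := hMTZ h n m k π p e r f w0 c s τ b X Y P Q P' Q' hNF hh hS M N y α β hT t
    refine ⟨K, fun σ h1 h2 => ?_⟩
    have h3 := hK σ h1 h2
    have hset : ∀ E : ℕ, {q | q ∈ {q | q ∈ {q | q % 3 = 1 ∧ InCT E π w0 c q ∧ q ∈ ZP b} ∧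
        ∀ j, Occ (BB h n E q) (zN π e (y (α j)))} ∧ t ≤ kS h n b X Y P Q P' Q' E q} =
        {q | (q ∈ QM h n π e w0 c y α 1 E ∧ q ∈ ZP b) ∧
          t ≤ kS h n b X Y P Q P' Q' E q} := by
      intro E
      ext q
      refine and_congr_left fun _ => ?_
      constructor
      · rintro ⟨⟨a1, a2, a3⟩, a4⟩
        exact ⟨⟨a1, a2, a4⟩, a3⟩
      · rintro ⟨⟨a1, a2, a4⟩, a3⟩
        exact ⟨⟨a1, a2, a3⟩, a4⟩
    rw [← hset, ← hset] at h3
    exact h3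

end Pool.Agent.PTK
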