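import Pool.Agent.PTK.StW

/-!
# PTK_KUM: from tails to averages, for every monotone function
-/

set_option autoImplicit false

namespace Pool.Agent.PTK

open Pool.Agent.PT Pool.Agent.PTL Pool.Agent.PTN

theorem KUM_thm (hDOMG : Stmt_DOMG) (hLAW : Stmt_LAW) : Stmt_KUM := by
  intro S R s M x hx hR hT F hF h0
  obtain ⟨K, hK⟩ := hDOMG S R (fun t => x * LI s t) M s F hR hT hF h0
  refine ⟨K, fun σ h1 h2 T => ?_⟩
  refine (hK σ h1 h2 T).trans (le_of_eq ?_)
  have e := hLAW.1 s 0 F
  simp only [Nat.sub_zero, zero_add] at e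
  rw [← e]
  have : F 0 * (x * LI s 0) + ∑ t ∈ Finset.range s, (F (t + 1) - F t) * (x * LI s (t + 1)) =
      (F 0 * LI s 0 + ∑ t ∈ Finset.range s, (F (t + 1) - F t) * LI s (t + 1)) * x := by
    rw [add_mul, Finset.sum_mul]
    congr 1
    · ring
    · exact Finset.sum_congr rfl fun t _ => by ring
  rw [this]

end Pool.Agent.PTK
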