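import Pool.Agent.PTK.StM

/-!
# PTK_LRR: the class of a point of the isogenous curve at `3`
-/

set_option autoImplicit false

open Finset

namespace Pool.Agent.PTK

open Pool.Agent.Lib_helper18 Pool.Agent.Lib_helper18.Eis Pool.Agent.Lib_helper84.Cub
open Pool.Agent.PT Pool.Agent.PTE Pool.Agent.PT3 Pool.Agent.PTL Pool.Agent.PTN

namespace LRR

theorem wt_res' {A : ℤ} {c : ℤ} (s t : ℤ) (hA : A % 9 = c) (h : c ^ 2 = 1 + 3 * (3 * s + t)) :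
    wt (A ^ 2) = (t : ZMod 3) := by
  obtain ⟨k, hk⟩ : ∃ k : ℤ, A = 9 * k + c := ⟨A / 9, by omega⟩
  have h3 : A ^ 2 = 1 + 3 * (3 * (9 * k ^ 2 + 2 * k * c + s) + t) := by
    rw [hk]
    linear_combination h
  have e : (A ^ 2 - 1) / 3 = 3 * (9 * k ^ 2 + 2 * k * c + s) + t := by omega
  unfold wt
  rw [e]
  push_cast
  have h4 : (3 : ZMod 3) = 0 := by decide
  rw [h4]
  ring

theorem cls (hLCL : LCL) {A : ℤ} (hA : ¬ (3 : ℤ) ∣ A) : lv A = 0 ∧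
    ((A % 9 = 1 ∨ A % 9 = 8) ∧ lw A = 0 ∨ (A % 9 = 2 ∨ A % 9 = 7) ∧ lw A = 1 ∨
      (A % 9 = 4 ∨ A % 9 = 5) ∧ lw A = 2) := by
  obtain ⟨h1, h2⟩ := hLCL.2.2.2.1 A hA
  refine ⟨h1, ?_⟩
  rw [h2]
  have hr : A % 9 = 1 ∨ A % 9 = 2 ∨ A % 9 = 4 ∨ A % 9 = 5 ∨ A % 9 = 7 ∨ A % 9 = 8 := by omega
  rcases hr with h | h | h | h | h | h
  · exact Or.inl ⟨Or.inl h, by rw [wt_res' 0 0 h (by norm_num)]; decide⟩
  · exact Or.inr (Or.inl ⟨Or.inl h, by rw [wt_res' 0 1 h (by norm_num)]; decide⟩)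
  · exact Or.inr (Or.inr ⟨Or.inl h, by rw [wt_res' 1 2 h (by norm_num)]; decide⟩)
  · exact Or.inr (Or.inr ⟨Or.inr h, by rw [wt_res' 2 2 h (by norm_num)]; decide⟩)
  · exact Or.inr (Or.inl ⟨Or.inr h, by rw [wt_res' 5 1 h (by norm_num)]; decide⟩)
  · exact Or.inl ⟨Or.inr h, by rw [wt_res' 7 0 h (by norm_num)]; decide⟩

/-- two numbers prime to `3` with sum divisible by `9` -/
theorem opp (hLCL : LCL) {A B : ℤ} (hA : ¬ (3 : ℤ) ∣ A) (hB : ¬ (3 : ℤ) ∣ B) (h : (9 : ℤ) ∣ A + B) :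
    lw A = lw B := by
  obtain ⟨-, h1⟩ := cls hLCL hA
  obtain ⟨-, h2⟩ := cls hLCL hB
  rcases h1 with ⟨h1, e1⟩ | ⟨h1, e1⟩ | ⟨h1, e1⟩ <;>
  rcases h2 with ⟨h2, e2⟩ | ⟨h2, e2⟩ | ⟨h2, e2⟩ <;>
  first
    | (exfalso; omega)
    | rw [e1, e2]

/-- three numbers prime to `3` with sum zero -/
theorem thr (hLCL : LCL) {A B C : ℤ} (hA : ¬ (3 : ℤ) ∣ A) (hB : ¬ (3 : ℤ) ∣ B) (hC : ¬ (3 : ℤ) ∣ C)
    (h : A + B + C = 0) : lw A + lw B + lw C = 1 := by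
  obtain ⟨-, h1⟩ := cls hLCL hA
  obtain ⟨-, h2⟩ := cls hLCL hB
  obtain ⟨-, h3⟩ := cls hLCL hC
  rcases h1 with ⟨h1, e1⟩ | ⟨h1, e1⟩ | ⟨h1, e1⟩ <;>
  rcases h2 with ⟨h2, e2⟩ | ⟨h2, e2⟩ | ⟨h2, e2⟩ <;>
  rcases h3 with ⟨h3, e3⟩ | ⟨h3, e3⟩ | ⟨h3, e3⟩ <;>
  first
    | (exfalso; omega)
    | (rw [e1, e2, e3]; decide)

/-- `3` divides exactly one of the three numbers -/
theorem one (hLCL : LCL) {A C D B : ℤ} (hA0 : A ≠ 0) (hA : (3 : ℤ) ∣ A) (hC : ¬ (3 : ℤ) ∣ C)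
    (h : A + C + D = 0) (h1 : lv A + lv C + lv D = lv B) (h2 : lw A + lw C + lw D = lw B)
    (h3 : lv B ≠ 1) :
    lv C = 0 ∧ lv D = 0 ∧ lv A = lv B ∧ lw C = lw D ∧ lw A - lw C = lw B := by
  have hD : ¬ (3 : ℤ) ∣ D := by omega
  obtain ⟨c0, -⟩ := cls hLCL hC
  obtain ⟨d0, -⟩ := cls hLCL hD
  rw [c0, d0, add_zero, add_zero] at h1
  have h9 : (9 : ℤ) ∣ A := by
    by_contra hcon
    obtain ⟨a, rfl⟩ := hA
    have ha : ¬ (3 : ℤ) ∣ a := fun h => hcon (by obtain ⟨t, rfl⟩ := h; exact ⟨t, by ring⟩)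
    have ha0 : a ≠ 0 := fun h => ha (h ▸ dvd_zero _)
    have e := (hLCL.2.1 3 a (by norm_num) ha0).1
    rw [hLCL.2.2.1.1, (cls hLCL ha).1, add_zero] at e
    exact h3 (h1.symm.trans e)
  have e : lw C = lw D := opp hLCL hC hD (by omega)
  refine ⟨c0, d0, h1, e, ?_⟩
  rw [← h2, ← e]
  have h4 : (3 : ZMod 3) = 0 := by decide
  linear_combination (-lw C) * h4

theorem main (hLCL : LCL) : ∀ (n : ℕ) (P Q R B : ℤ), P.natAbs ≤ n → P ≠ 0 → Q ≠ 0 → R ≠ 0 →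
    B ≠ 0 → P + Q + R = 0 → lv (P * Q * R) = lv B → lw (P * Q * R) = lw B → lv B ≠ 1 →
    ∃ κ : ZMod 3, lv Q - lv R = κ * lv B ∧ lw Q - lw R = κ * lw B := by
  intro n
  induction n with
  | zero =>
    intro P Q R B hn hP
    exact absurd (Int.natAbs_eq_zero.1 (Nat.le_zero.1 hn)) hP
  | succ n ih =>
    intro P Q R B hn hP hQ hR hB hs h1 h2 h3
    have hPQ : P * Q ≠ 0 := mul_ne_zero hP hQ
    have f1 : lv P + lv Q + lv R = lv B := by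
      rw [← h1, (hLCL.2.1 _ _ hPQ hR).1, (hLCL.2.1 _ _ hP hQ).1]
    have f2 : lw P + lw Q + lw R = lw B := by
      rw [← h2, (hLCL.2.1 _ _ hPQ hR).2, (hLCL.2.1 _ _ hP hQ).2]
    by_cases hp : (3 : ℤ) ∣ P
    · by_cases hq : (3 : ℤ) ∣ Q
      · -- all divisible
        have hr : (3 : ℤ) ∣ R := by omega
        obtain ⟨p, rfl⟩ := hp
        obtain ⟨q, rfl⟩ := hq
        obtain ⟨r, rfl⟩ := hr
        have p0 : p ≠ 0 := fun h => hP (by rw [h, mul_zero])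
        have q0 : q ≠ 0 := fun h => hQ (by rw [h, mul_zero])
        have r0 : r ≠ 0 := fun h => hR (by rw [h, mul_zero])
        have t0 : (3 : ℤ) ≠ 0 := by norm_num
        obtain ⟨a1, b1⟩ := hLCL.2.1 3 p t0 p0
        obtain ⟨a2, b2⟩ := hLCL.2.1 3 q t0 q0
        obtain ⟨a3, b3⟩ := hLCL.2.1 3 r t0 r0
        obtain ⟨c1, c2⟩ := hLCL.2.2.1
        have h4 : (3 : ZMod 3) = 0 := by decide
        rw [a1, a2, a3, c1] at f1
        rw [b1, b2, b3, c2] at f2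
        obtain ⟨κ, k1, k2⟩ := ih p q r B (by omega) p0 q0 r0 hB (by omega)
          (by
            rw [(hLCL.2.1 _ _ (mul_ne_zero p0 q0) r0).1, (hLCL.2.1 _ _ p0 q0).1]
            linear_combination f1 - h4)
          (by
            rw [(hLCL.2.1 _ _ (mul_ne_zero p0 q0) r0).2, (hLCL.2.1 _ _ p0 q0).2]
            linear_combination f2) h3
        refine ⟨κ, ?_, ?_⟩
        · rw [a2, a3, ← k1]
          ring
        · rw [b2, b3, ← k2]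
          ring
      · -- only `P`
        obtain ⟨c0, d0, e1, e2, e3⟩ := one hLCL hP hp hq hs f1 f2 h3
        exact ⟨0, by rw [c0, d0]; ring, by rw [e2]; ring⟩
    · by_cases hq : (3 : ℤ) ∣ Q
      · -- only `Q`
        obtain ⟨c0, d0, e1, e2, e3⟩ := one (D := R) (B := B) hLCL hQ hq hp (by omega)
          (by rw [← f1]; ring) (by rw [← f2]; ring) h3
        refine ⟨1, ?_, ?_⟩
        · rw [d0, e1]
          ring
        · rw [← e3, e2]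
          ring
      · by_cases hr : (3 : ℤ) ∣ R
        · -- only `R`
          obtain ⟨c0, d0, e1, e2, e3⟩ := one (D := Q) (B := B) hLCL hR hr hp (by omega)
            (by rw [← f1]; ring) (by rw [← f2]; ring) h3
          refine ⟨-1, ?_, ?_⟩
          · rw [d0, e1]
            ring
          · rw [← e3, e2]
            ring
        · -- none
          have g := thr hLCL hp hq hr hs
          rw [f2] at g
          refine ⟨lw Q - lw R, ?_, ?_⟩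
          · rw [← f1, (cls hLCL hp).1, (cls hLCL hq).1, (cls hLCL hr).1]
            ring
          · rw [g, mul_one]

end LRR

theorem LRR_thm (hLCL : LCL) : Stmt_LRR := by
  intro R B hR hB hs h1 h2 h3
  exact LRR.main hLCL _ (R 0) (R 1) (R 2) B le_rfl (hR 0) (hR 1) (hR 2) hB hs h1 h2 h3

end Pool.Agent.PTK
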