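import Pool.Agent.PTK.StW
import Mathlib.LinearAlgebra.FiniteDimensional.Lemmas
import Mathlib.FieldTheory.Finiteness

/-!
# LSM: the sum over the tuples
-/

set_option autoImplicit false

open Finset

namespace Pool.Agent.PTK

namespace LSM

instance : Fact (Nat.Prime 3) := ⟨Nat.prime_three⟩

variable {M' : ℕ}

/-- a subspace -/
abbrev Sub (M' : ℕ) := Submodule (ZMod 3) (Fin M' → ZMod 3)

/-- the dimension -/
noncomputable abbrev dm (W : Sub M') : ℕ := Module.finrank (ZMod 3) W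

theorem gM_nonneg (k : ℕ) : ∀ j, 0 ≤ gM k j := by
  induction k with
  | zero => exact fun j => by simp [gM]
  | succ k ih =>
    intro j
    have h1 := ih j
    have h2 := ih (j - 1)
    have h3 : (1 : ℝ) ≤ 3 ^ j := one_le_pow₀ (by norm_num)
    have h4 : (0 : ℝ) ≤ 3 ^ j - 1 := by linarith
    unfold gM
    positivity

theorem dm_sup (U W : Sub M') : dm (U ⊔ W) + dm (U ⊓ W) = dm U + dm W :=
  Submodule.finrank_sup_add_finrank_inf_eq U W

theorem dm_single (U : Sub M') {y : Fin M' → ZMod 3} (hy : y ∉ U) :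
    dm (U ⊔ Submodule.span (ZMod 3) {y}) = dm U + 1 := by
  have h0 : y ≠ 0 := by
    rintro rfl
    exact hy U.zero_mem
  have h1 := dm_sup U (Submodule.span (ZMod 3) {y})
  have h2 : dm (Submodule.span (ZMod 3) {y}) = 1 := finrank_span_singleton h0
  have h3 : U ⊓ Submodule.span (ZMod 3) {y} = ⊥ := by
    rw [← disjoint_iff]
    exact (Submodule.disjoint_span_singleton' h0).2 hy
  have h4 : dm (U ⊓ Submodule.span (ZMod 3) {y}) = 0 := by
    rw [h3]
    exact finrank_bot _ _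
  omega

theorem sum_mem (V W : Sub M') (hW : W ≤ V) (c : ℝ) [Fintype V] [DecidablePred fun y : V => (y : Fin M' → ZMod 3) ∈ W] :
    ∑ y : V, (if (y : Fin M' → ZMod 3) ∈ W then c else 0) = 3 ^ dm W * c := by
  rw [Finset.sum_ite, Finset.sum_const_zero, add_zero, Finset.sum_const, nsmul_eq_mul]
  congr 1
  have h1 : Nat.card {y : V // (y : Fin M' → ZMod 3) ∈ W} = Nat.card W :=
    Nat.card_congr
      { toFun := fun y => ⟨y.1.1, y.2⟩
        invFun := fun y => ⟨⟨y.1, hW y.2⟩, y.2⟩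
        left_inv := fun _ => rfl
        right_inv := fun _ => rfl }
  have h2 := Module.natCard_eq_pow_finrank (K := ZMod 3) (V := W)
  rw [Nat.card_zmod, ← h1, Nat.card_eq_fintype_card, Fintype.card_subtype] at h2
  exact_mod_cast h2

theorem nTe_two {a₀ δ v v₀ : ℕ} : nTe (a₀ + 1) δ v v₀ = nTe a₀ δ v v₀ + (v - δ - 1 - a₀) := by
  unfold nTe
  rw [sum_range_succ]
  ring

theorem nTe_three {a₀ δ v v₀ : ℕ} (h : δ + 1 + a₀ ≤ v) :
    nTe a₀ (δ + 1) v v₀ + a₀ = nTe a₀ δ v v₀ + v₀ := by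
  unfold nTe
  have h1 : ∑ i ∈ range a₀, (v - δ - 1 - i) = ∑ i ∈ range a₀, (v - (δ + 1) - 1 - i) + a₀ := by
    have h2 : ∀ i ∈ range a₀, v - δ - 1 - i = (v - (δ + 1) - 1 - i) + 1 := by
      intro i hi
      rw [Finset.mem_range] at hi
      omega
    rw [Finset.sum_congr rfl h2, Finset.sum_add_distrib, Finset.sum_const, Finset.card_range]
    simp
  rw [h1]
  ring

/-- the bound in the claim -/
noncomputable def bd (V V₀ : Sub M') (k : ℕ) (U : Sub M') : ℝ :=
  3 ^ (dm U * k) * gM k (dm V - dm V₀ - (dm U - dm (U ⊓ V₀))) / 3 ^ nUe V V₀ U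

theorem step (V V₀ : Sub M') (hV : V₀ ≤ V) (k : ℕ) (U : Sub M') (hU : U ≤ V) [Fintype V] :
    ∑ y : V, bd V V₀ k (U ⊔ Submodule.span (ZMod 3) {(y : Fin M' → ZMod 3)}) ≤
      bd V V₀ (k + 1) U := by
  classical
  have e1 := dm_sup U V₀
  have e2 : dm (U ⊔ V₀) ≤ dm V := Submodule.finrank_mono (sup_le hU hV)
  have e3 : dm (U ⊓ V₀) ≤ dm U := Submodule.finrank_mono inf_le_left
  have e4 : dm (U ⊓ V₀) ≤ dm V₀ := Submodule.finrank_mono inf_le_right
  obtain ⟨δ, hδ⟩ : ∃ δ, dm U = dm (U ⊓ V₀) + δ := ⟨dm U - dm (U ⊓ V₀), by omega⟩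
  obtain ⟨j, hj⟩ : ∃ j, dm V = dm V₀ + δ + j := ⟨dm V - (dm V₀ + δ), by omega⟩
  set a₀ := dm (U ⊓ V₀) with ha₀
  have hj1 : dm V - dm V₀ - (dm U - a₀) = j := by omega
  set c := 3 ^ (dm U * k) / (3 : ℝ) ^ nUe V V₀ U with hc
  have hc0 : 0 < c := by positivity
  have key : ∀ y : V, bd V V₀ k (U ⊔ Submodule.span (ZMod 3) {(y : Fin M' → ZMod 3)}) ≤
      (if (y : Fin M' → ZMod 3) ∈ U then c * gM k j else 0) +
      (if (y : Fin M' → ZMod 3) ∈ U ⊔ V₀ then
        c * 3 ^ k * gM k j * 3 ^ (dm U + 1) / 3 ^ j / 3 ^ (dm V₀ + δ) - 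
          c * 3 ^ k * gM k (j - 1) * 3 ^ dm U / 3 ^ (dm V₀ + δ) else 0) +
      c * 3 ^ k * gM k (j - 1) * 3 ^ dm U / 3 ^ (dm V₀ + δ) := by
    intro y
    have hg1 := gM_nonneg k j
    have hg2 := gM_nonneg k (j - 1)
    by_cases h1 : (y : Fin M' → ZMod 3) ∈ U
    · have h2 : U ⊔ Submodule.span (ZMod 3) {(y : Fin M' → ZMod 3)} = U := by
        rw [sup_eq_left, Submodule.span_singleton_le_iff_mem]
        exact h1
      rw [if_pos h1, if_pos (Submodule.mem_sup_left h1), h2]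
      have h3 : bd V V₀ k U = c * gM k j := by
        unfold bd
        rw [← ha₀, hj1, hc]
        ring
      rw [h3]
      have h4 : 0 ≤ c * 3 ^ k * gM k j * 3 ^ (dm U + 1) / 3 ^ j / 3 ^ (dm V₀ + δ) := by positivity
      linarith
    · have h2 := dm_single U h1
      have h3 : U ⊔ Submodule.span (ZMod 3) {(y : Fin M' → ZMod 3)} ⊔ V₀ =
          (U ⊔ V₀) ⊔ Submodule.span (ZMod 3) {(y : Fin M' → ZMod 3)} := sup_right_comm _ _ _
      have h4 := dm_sup (U ⊔ Submodule.span (ZMod 3) {(y : Fin M' → ZMod 3)}) V₀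
      rw [h3] at h4
      rw [if_neg h1, zero_add]
      by_cases h5 : (y : Fin M' → ZMod 3) ∈ U ⊔ V₀
      · have h6 : (U ⊔ V₀) ⊔ Submodule.span (ZMod 3) {(y : Fin M' → ZMod 3)} = U ⊔ V₀ := by
          rw [sup_eq_left, Submodule.span_singleton_le_iff_mem]
          exact h5
        rw [h6] at h4
        rw [if_pos h5, sub_add_cancel]
        have h7 : dm ((U ⊔ Submodule.span (ZMod 3) {(y : Fin M' → ZMod 3)}) ⊓ V₀) = a₀ + 1 := by
          omega
        have h8 : a₀ + 1 ≤ dm V₀ := by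
          rw [← h7]
          exact Submodule.finrank_mono inf_le_right
        have h9 : nUe V V₀ (U ⊔ Submodule.span (ZMod 3) {(y : Fin M' → ZMod 3)}) =
            nUe V V₀ U + (dm V₀ + j - 1 - a₀) := by
          unfold nUe
          change nTe (dm ((U ⊔ Submodule.span (ZMod 3) {(y : Fin M' → ZMod 3)}) ⊓ V₀))
            (dm (U ⊔ Submodule.span (ZMod 3) {(y : Fin M' → ZMod 3)}) -
              dm ((U ⊔ Submodule.span (ZMod 3) {(y : Fin M' → ZMod 3)}) ⊓ V₀)) (dm V) (dm V₀) =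
            nTe (dm (U ⊓ V₀)) (dm U - dm (U ⊓ V₀)) (dm V) (dm V₀) + (dm V₀ + j - 1 - a₀)
          rw [h7, h2, ← ha₀]
          have i1 : dm U + 1 - (a₀ + 1) = δ := by omega
          have i2 : dm U - a₀ = δ := by omega
          rw [i1, i2, nTe_two]
          congr 1
          omega
        unfold bd
        rw [h7, h2, h9]
        have i1 : dm V - dm V₀ - (dm U + 1 - (a₀ + 1)) = j := by omega
        rw [i1, hc]
        have i2 : (3 : ℝ) ^ (dm V₀ + δ) * 3 ^ j = 3 ^ (dm U + 1) * 3 ^ (dm V₀ + j - 1 - a₀) := by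
          rw [← pow_add, ← pow_add]
          congr 1
          omega
        rw [add_mul, one_mul, pow_add 3 (dm U * k) k, pow_add 3 (nUe V V₀ U)]
        refine le_of_eq ?_
        rw [div_div _ ((3 : ℝ) ^ j) _, mul_comm ((3 : ℝ) ^ j), i2]
        field_simp
      · have h6 := dm_single _ h5
        rw [h6] at h4
        rw [if_neg h5, zero_add]
        have h7 : dm ((U ⊔ Submodule.span (ZMod 3) {(y : Fin M' → ZMod 3)}) ⊓ V₀) = a₀ := by
          omega
        have h8 : dm (U ⊔ V₀) + 1 ≤ dm V := by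
          rw [← h6]
          refine Submodule.finrank_mono (sup_le (sup_le hU hV) ?_)
          rw [Submodule.span_singleton_le_iff_mem]
          exact y.2
        have h9 : nUe V V₀ (U ⊔ Submodule.span (ZMod 3) {(y : Fin M' → ZMod 3)}) + a₀ =
            nUe V V₀ U + dm V₀ := by
          unfold nUe
          change nTe (dm ((U ⊔ Submodule.span (ZMod 3) {(y : Fin M' → ZMod 3)}) ⊓ V₀))
            (dm (U ⊔ Submodule.span (ZMod 3) {(y : Fin M' → ZMod 3)}) -
              dm ((U ⊔ Submodule.span (ZMod 3) {(y : Fin M' → ZMod 3)}) ⊓ V₀)) (dm V) (dm V₀) + a₀ =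
            nTe (dm (U ⊓ V₀)) (dm U - dm (U ⊓ V₀)) (dm V) (dm V₀) + dm V₀
          rw [h7, h2, ← ha₀]
          have i1 : dm U + 1 - a₀ = δ + 1 := by omega
          have i2 : dm U - a₀ = δ := by omega
          rw [i1, i2, nTe_three]
          omega
        unfold bd
        rw [h7, h2]
        have i1 : dm V - dm V₀ - (dm U + 1 - a₀) = j - 1 := by omega
        rw [i1, hc]
        have i2 : (3 : ℝ) ^ nUe V V₀ (U ⊔ Submodule.span (ZMod 3) {(y : Fin M' → ZMod 3)}) * 3 ^ a₀ =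
            3 ^ nUe V V₀ U * 3 ^ dm V₀ := by
          rw [← pow_add, ← pow_add, h9]
        rw [hδ, pow_add 3 (dm V₀) δ, pow_add 3 a₀ δ, add_mul (a₀ + δ) 1 k, one_mul, pow_add 3 _ k]
        refine le_of_eq ?_
        have i3 : (3 : ℝ) ^ nUe V V₀ (U ⊔ Submodule.span (ZMod 3) {(y : Fin M' → ZMod 3)}) =
            3 ^ nUe V V₀ U * 3 ^ dm V₀ / 3 ^ a₀ := by
          rw [eq_div_iff (by positivity)]
          exact i2
        rw [i3]
        field_simp
  refine (Finset.sum_le_sum fun y _ => key y).trans (le_of_eq ?_)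
  rw [Finset.sum_add_distrib, Finset.sum_add_distrib, sum_mem V U hU, sum_mem V (U ⊔ V₀) (sup_le hU hV),
    Finset.sum_const, Finset.card_univ, nsmul_eq_mul]
  have hcard : (Fintype.card V : ℝ) = 3 ^ dm V := by
    have h2 := Module.natCard_eq_pow_finrank (K := ZMod 3) (V := V)
    rw [Nat.card_zmod, Nat.card_eq_fintype_card] at h2
    exact_mod_cast h2
  have hs : dm (U ⊔ V₀) = dm V₀ + δ := by omega
  rw [hcard, hs, hj]
  unfold bd
  rw [← ha₀, hj1]
  have hg : gM (k + 1) j = (1 + 3 ^ (k + 1) / 3 ^ j) * gM k j + (3 ^ j - 1) * 3 ^ k * gM k (j - 1) := rfl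
  rw [hg, hc, pow_add 3 (dm V₀ + δ) j, mul_add (dm U) k 1, mul_one, pow_add 3 (dm U * k) (dm U),
    pow_add 3 k 1, pow_add 3 (dm U) 1, pow_one]
  field_simp
  ring

theorem span_cons {V : Sub M'} (U : Sub M') (k : ℕ) (y : V) (Y : Fin k → V) :
    U ⊔ Submodule.span (ZMod 3) (Set.range fun i => ((Fin.cons y Y : Fin (k + 1) → V) i :
      Fin M' → ZMod 3)) =
    (U ⊔ Submodule.span (ZMod 3) {(y : Fin M' → ZMod 3)}) ⊔
      Submodule.span (ZMod 3) (Set.range fun i => (Y i : Fin M' → ZMod 3)) := by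
  rw [sup_assoc, ← Submodule.span_union]
  congr 2
  ext z
  simp [Fin.exists_fin_succ, eq_comm]

theorem claim (V V₀ : Sub M') (hV : V₀ ≤ V) [Fintype V] (k : ℕ) : ∀ U : Sub M', U ≤ V →
    ∑ Y : Fin k → V, (1 : ℝ) / 3 ^ nUe V V₀ (U ⊔ Submodule.span (ZMod 3)
      (Set.range fun i => (Y i : Fin M' → ZMod 3))) ≤ bd V V₀ k U := by
  induction k with
  | zero =>
    intro U hU
    have h1 : ∀ Y : Fin 0 → V, U ⊔ Submodule.span (ZMod 3)
        (Set.range fun i => (Y i : Fin M' → ZMod 3)) = U := by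
      intro Y
      rw [Set.range_eq_empty, Submodule.span_empty, sup_bot_eq]
    simp only [h1]
    simp [bd, gM]
  | succ k ih =>
    intro U hU
    rw [← (Fin.consEquiv fun _ => V).sum_comp, Fintype.sum_prod_type]
    refine le_trans (Finset.sum_le_sum fun y _ => ?_) (step V V₀ hV k U hU)
    have h2 : U ⊔ Submodule.span (ZMod 3) {(y : Fin M' → ZMod 3)} ≤ V := by
      refine sup_le hU ?_
      rw [Submodule.span_singleton_le_iff_mem]
      exact y.2
    refine le_trans (le_of_eq ?_) (ih _ h2)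
    refine Finset.sum_congr rfl fun Y _ => ?_
    have h3 := span_cons U k y Y
    change (1 : ℝ) / 3 ^ nUe V V₀ (U ⊔ Submodule.span (ZMod 3) (Set.range fun i =>
      ((Fin.cons y Y : Fin (k + 1) → V) i : Fin M' → ZMod 3))) = _
    rw [h3]

end LSM

open LSM in
theorem LSM_thm : Stmt_LSM := by
  classical
  intro M' V V₀ hV k
  have : Fintype V := Fintype.ofFinite _
  rw [finsum_eq_sum_of_fintype]
  have h1 := claim V V₀ hV k ⊥ bot_le
  simp only [bot_sup_eq] at h1
  refine h1.trans (le_of_eq ?_)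
  have h2 : dm (⊥ : Sub M') = 0 := finrank_bot _ _
  have h3 : dm ((⊥ : Sub M') ⊓ V₀) = 0 := by
    rw [bot_inf_eq]
    exact h2
  have h4 : nUe V V₀ ⊥ = 0 := by
    unfold nUe
    change nTe (dm ((⊥ : Sub M') ⊓ V₀)) (dm (⊥ : Sub M') - dm ((⊥ : Sub M') ⊓ V₀)) (dm V) (dm V₀) = 0
    rw [h2, h3]
    simp [nTe]
  unfold bd
  rw [h4, h2, h3]
  simp

end Pool.Agent.PTK
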