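import Pool.Agent.PTK.StW

/-!
# PTK_LTE (helper44): a test configuration for a subspace
-/

set_option autoImplicit false

open NumberField IsDedekindDomain Finset
open scoped nonZeroDivisors Pointwise

namespace Pool.Agent.PTK

open Pool.Agent.Lib_helper18 Pool.Agent.Lib_helper18.Eis Pool.Agent.Lib_helper84.Cub
open Pool.Agent.PT Pool.Agent.PTE Pool.Agent.PT3 Pool.Agent.PTL Pool.Agent.PTN

namespace LTE

variable {K E : Type} [Field K] [AddCommGroup E] [Module K E]

/-- a complement of `A` in `B` -/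
theorem compl {A B : Submodule K E} (h : A ≤ B) :
    ∃ C : Submodule K E, C ≤ B ∧ Disjoint A C ∧ A ⊔ C = B := by
  obtain ⟨C, hC⟩ := exists_isCompl A
  refine ⟨C ⊓ B, inf_le_right, hC.disjoint.mono_right inf_le_left, ?_⟩
  rw [← sup_inf_assoc_of_le C h, hC.sup_eq_top, top_inf_eq]

theorem finrank_compl [FiniteDimensional K E] {A B C : Submodule K E} (hd : Disjoint A C)
    (hs : A ⊔ C = B) : Module.finrank K A + Module.finrank K C = Module.finrank K B := by
  have h := Submodule.finrank_sup_add_finrank_inf_eq A C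
  rw [hs, hd.eq_bot, finrank_bot, add_zero] at h
  exact h.symm

/-- a basis of `C` -/
theorem fam [FiniteDimensional K E] (C : Submodule K E) :
    ∃ x : Fin (Module.finrank K C) → E, LinearIndependent K x ∧ ∀ i, x i ∈ C := by
  refine ⟨fun i => (Module.finBasis K C i : E), ?_, fun i => (Module.finBasis K C i).2⟩
  exact (Module.finBasis K C).linearIndependent.map' C.subtype C.ker_subtype

theorem app {a b : ℕ} {x : Fin a → E} {z : Fin b → E} {A B : Submodule K E}
    (hx : LinearIndependent K x) (hz : LinearIndependent K z) (hA : ∀ i, x i ∈ A)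
    (hB : ∀ i, z i ∈ B) (hd : Disjoint A B) : LinearIndependent K (Fin.append x z) := by
  have h1 : LinearIndependent K (Sum.elim x z) := by
    refine hx.sum_type hz (hd.mono ?_ ?_)
    · rw [Submodule.span_le]
      rintro _ ⟨i, rfl⟩
      exact hA i
    · rw [Submodule.span_le]
      rintro _ ⟨i, rfl⟩
      exact hB i
  have h2 : Fin.append x z ∘ finSumFinEquiv = Sum.elim x z := by
    funext i
    rcases i with i | i
    · simp
    · simp
  rw [← h2] at h1
  exact (linearIndependent_equiv finSumFinEquiv).1 h1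

theorem app_mem {a b : ℕ} {x : Fin a → E} {z : Fin b → E} {A : Submodule K E}
    (hx : ∀ i, x i ∈ A) (hz : ∀ i, z i ∈ A) (i : Fin (a + b)) : Fin.append x z i ∈ A := by
  refine Fin.addCases (fun i => ?_) (fun i => ?_) i
  · rw [Fin.append_left]
    exact hx i
  · rw [Fin.append_right]
    exact hz i

theorem app_lt {a b : ℕ} {x : Fin a → E} {z : Fin b → E} {A : Submodule K E} {n : ℕ}
    (hx : ∀ i : Fin a, i.val < n → x i ∈ A) (hz : ∀ i : Fin b, a + i.val < n → z i ∈ A)
    (i : Fin (a + b)) (hi : i.val < n) : Fin.append x z i ∈ A := by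
  revert hi
  refine Fin.addCases (fun i => ?_) (fun i => ?_) i
  · intro hi
    rw [Fin.append_left]
    exact hx i (by simpa using hi)
  · intro hi
    rw [Fin.append_right]
    exact hz i (by simpa using hi)

theorem app_ge {a b : ℕ} {x : Fin a → E} {z : Fin b → E} {A : Submodule K E} {l n : ℕ}
    (hx : ∀ i : Fin a, l ≤ i.val → i.val < n → x i ∈ A)
    (hz : ∀ i : Fin b, l ≤ a + i.val → a + i.val < n → z i ∈ A)
    (i : Fin (a + b)) (hl : l ≤ i.val) (hi : i.val < n) : Fin.append x z i ∈ A := by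
  revert hi hl
  refine Fin.addCases (fun i => ?_) (fun i => ?_) i
  · intro hl hi
    rw [Fin.append_left]
    exact hx i (by simpa using hl) (by simpa using hi)
  · intro hl hi
    rw [Fin.append_right]
    exact hz i (by simpa using hl) (by simpa using hi)

/-- the adapted basis -/
theorem basis [FiniteDimensional K E] {V V₀ U : Submodule K E} (h0 : V₀ ≤ V) (hU : U ≤ V) :
    ∃ (M δ : ℕ) (y : Fin M → E), LinearIndependent K y ∧ (∀ i, y i ∈ V) ∧
      M = Module.finrank K V ∧
      Module.finrank K ↥(U ⊓ V₀) + δ = Module.finrank K U ∧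
      δ + Module.finrank K V₀ ≤ M ∧
      Module.finrank K ↥(U ⊓ V₀) ≤ Module.finrank K V₀ ∧
      (∀ i : Fin M, i.val < δ + Module.finrank K ↥(U ⊓ V₀) → y i ∈ U) ∧
      ∀ i : Fin M, δ ≤ i.val → i.val < δ + Module.finrank K V₀ → y i ∈ V₀ := by
  obtain ⟨C1, hC1, hd1, hs1⟩ := compl (inf_le_left : U ⊓ V₀ ≤ U)
  obtain ⟨C2, hC2, hd2, hs2⟩ := compl (inf_le_right : U ⊓ V₀ ≤ V₀)
  obtain ⟨C3, hC3, hd3, hs3⟩ := compl (sup_le hU h0 : U ⊔ V₀ ≤ V)
  have f1 := finrank_compl hd1 hs1
  have f2 := finrank_compl hd2 hs2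
  have f3 := finrank_compl hd3 hs3
  have f4 := Submodule.finrank_sup_add_finrank_inf_eq U V₀
  obtain ⟨c, hc, hcm⟩ := fam C1
  obtain ⟨b, hb, hbm⟩ := fam (U ⊓ V₀)
  obtain ⟨d, hdl, hdm⟩ := fam C2
  obtain ⟨e, he, hem⟩ := fam C3
  have hx0 : LinearIndependent K (Fin.append b d) := app hb hdl hbm hdm hd2
  have hx0m : ∀ i, Fin.append b d i ∈ V₀ :=
    app_mem (fun i => (hbm i).2) (fun i => hC2 (hdm i))
  have hd13 : Disjoint C1 V₀ := by
    rw [Submodule.disjoint_def]
    intro x hx hx'
    exact Submodule.disjoint_def.1 hd1 x ⟨hC1 hx, hx'⟩ hx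
  have hx1 : LinearIndependent K (Fin.append c (Fin.append b d)) := app hc hx0 hcm hx0m hd13
  have hx1m : ∀ i, Fin.append c (Fin.append b d) i ∈ U ⊔ V₀ :=
    app_mem (fun i => Submodule.mem_sup_left (hC1 (hcm i)))
      (fun i => Submodule.mem_sup_right (hx0m i))
  refine ⟨_, Module.finrank K C1, Fin.append (Fin.append c (Fin.append b d)) e,
    app hx1 he hx1m hem hd3,
    app_mem (fun i => (sup_le hU h0) (hx1m i)) (fun i => hC3 (hem i)), ?_, f1, ?_, ?_, ?_, ?_⟩
  · omega
  · omega
  · omega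
  · refine app_lt (app_lt (fun i _ => hC1 (hcm i)) fun i hi =>
      app_lt (n := Module.finrank K ↥(U ⊓ V₀)) (fun i _ => (hbm i).1) (fun i hi => ?_) i
        (by omega)) fun i hi => ?_
    · exfalso
      omega
    · exfalso
      omega
  · refine app_ge (app_ge (fun i hl _ => ?_) fun i _ _ => hx0m i) fun i _ hi => ?_
    · exfalso
      have := i.2
      omega
    · exfalso
      omega

end LTE

open LTE in
theorem LTE_thm : Stmt_LTE := by
  intro M' V V₀ U h0 hU
  obtain ⟨M, δ, y, hli, hyV, hM, hδ, hle, hle0, hyU, hy0⟩ := basis h0 hU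
  set a₀ := Module.finrank (ZMod 3) ↥(U ⊓ V₀) with ha₀
  set v₀ := Module.finrank (ZMod 3) V₀ with hv₀
  let T : Type := (Fin δ × Fin v₀) ⊕ (Σ i : Fin a₀, Fin (M - δ - 1 - i))
  let A : T → ℕ := Sum.elim (fun x => x.1.val) (fun x => δ + x.1.val)
  let B : T → ℕ := Sum.elim (fun x => δ + x.2.val) (fun x => δ + x.1.val + 1 + x.2.val)
  have hAB : ∀ t : T, A t < B t := by
    rintro (⟨i, j⟩ | ⟨i, j⟩)
    · change i.val < δ + j.val
      have := i.2
      omega
    · change δ + i.val < δ + i.val + 1 + j.val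
      omega
  have hB : ∀ t : T, B t < M := by
    rintro (⟨i, j⟩ | ⟨i, j⟩)
    · change δ + j.val < M
      have := j.2
      omega
    · change δ + i.val + 1 + j.val < M
      have := j.2
      omega
  have hinj : ∀ t t' : T, A t = A t' → B t = B t' → t = t' := by
    rintro (⟨i, j⟩ | ⟨i, j⟩) (⟨i', j'⟩ | ⟨i', j'⟩) h1 h2
    · change i.val = i'.val at h1
      change δ + j.val = δ + j'.val at h2
      have e1 : i = i' := Fin.ext h1
      have e2 : j = j' := Fin.ext (by omega)
      rw [e1, e2]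
    · exfalso
      change i.val = δ + i'.val at h1
      have := i.2
      omega
    · exfalso
      change δ + i.val = i'.val at h1
      have := i'.2
      omega
    · change δ + i.val = δ + i'.val at h1
      change δ + i.val + 1 + j.val = δ + i'.val + 1 + j'.val at h2
      have e1 : i = i' := Fin.ext (by omega)
      subst e1
      have e2 : j = j' := Fin.ext (by omega)
      rw [e2]
  have hAU : ∀ t : T, A t < δ + a₀ := by
    rintro (⟨i, j⟩ | ⟨i, j⟩)
    · change i.val < δ + a₀
      have := i.2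
      omega
    · change δ + i.val < δ + a₀
      have := i.2
      omega
  have hW : ∀ t : T, (δ ≤ A t ∧ A t < δ + v₀) ∨ (δ ≤ B t ∧ B t < δ + v₀) := by
    rintro (⟨i, j⟩ | ⟨i, j⟩)
    · right
      change δ ≤ δ + j.val ∧ δ + j.val < δ + v₀
      have := j.2
      omega
    · left
      change δ ≤ δ + i.val ∧ δ + i.val < δ + v₀
      have := i.2
      omega
  let φ : Fin (Fintype.card T) → T := (Fintype.equivFin T).symm
  refine ⟨M, Fintype.card T, y, fun j => ⟨A (φ j), (hAB _).trans (hB _)⟩,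
    fun j => ⟨B (φ j), hB _⟩, ⟨hli, hyV, fun j => hAB _, ?_, ?_⟩, ?_, ?_⟩
  · intro j j' h1 h2
    have h3 : φ j = φ j' := hinj _ _ (congrArg Fin.val h1) (congrArg Fin.val h2)
    exact (Fintype.equivFin T).symm.injective h3
  · intro j
    rcases hW (φ j) with h | h
    · exact Or.inl (hy0 _ h.1 h.2)
    · exact Or.inr (hy0 _ h.1 h.2)
  · intro j
    exact hyU _ (hAU (φ j))
  · have h1 : Fintype.card T = δ * v₀ + ∑ i : Fin a₀, (M - δ - 1 - i.val) := by
      simp only [T, Fintype.card_sum, Fintype.card_prod, Fintype.card_sigma, Fintype.card_fin]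
    rw [h1, nUe, nTe, ← ha₀, ← hv₀, ← hM, ← Finset.sum_range fun i => M - δ - 1 - i]
    have h2 : Module.finrank (ZMod 3) U - a₀ = δ := by omega
    rw [h2]

end Pool.Agent.PTK
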