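import Pool.Agent.PTK.StM
import Pool.Agent.PTK.GAK
import Pool.Agent.PT.GALD

/-!
# MAL: summary of the joint governing field with pairs of classes, `Q = 2 (mod 3)`
-/

set_option autoImplicit false

open NumberField IsDedekindDomain Finset
open scoped nonZeroDivisors Pointwise

namespace Pool.Agent.PTK

open Pool.Agent.Lib_helper18 Pool.Agent.Lib_helper18.Eis Pool.Agent.Lib_helper84.Cub
open Pool.Agent.PT Pool.Agent.PTE Pool.Agent.PT3 Pool.Agent.PTL Pool.Agent.PTN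

namespace MAL

/-- one class, with no norm, is a system of stage 1 -/
theorem sys1 {M N : ℕ} {z : Fin M → Eis} {α β : Fin N → Fin M} {P Q P' Q' : Fin N → Eis}
    (hS : SysZ z α β P Q P' Q') (i : Fin M) :
    SysK (z i) (Fin.elim0 : Fin 0 → Eis) Fin.elim0 Fin.elim0 Fin.elim0 Fin.elim0 := by
  refine ⟨fun c₀ c h hc => ?_, fun j => j.elim0, hS.cz i, fun j => j.elim0⟩
  refine hS.ind (Function.update 0 i c₀) ⟨i, ?_⟩ ?_
  · rw [Function.update_self]
    rcases h with h | ⟨j, _⟩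
    · exact h
    · exact j.elim0
  · obtain ⟨t, ht⟩ := hc
    refine ⟨t, ht.trans ?_⟩
    rw [Finset.univ_eq_empty, Finset.prod_empty, mul_one, Finset.prod_eq_single i,
      Function.update_self]
    · intro j _ hj
      rw [Function.update_of_ne hj, Pi.zero_apply, pow_zero]
    · intro h
      exact absurd (Finset.mem_univ _) h

/-- the governing field for one class -/
theorem gov1 {M N : ℕ} {z : Fin M → Eis} {α : Fin N → Fin M} {P Q P' Q' : Fin N → Eis}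
    {f : ℕ} {L : Type} [Field L] [NumberField L] {ζ : L} {ι : Eis →+* L}
    (hG : GovZ z α P Q P' Q' f L ζ ι) (i : Fin M) :
    GovK (z i) (Fin.elim0 : Fin 0 → Eis) Fin.elim0 Fin.elim0 Fin.elim0 Fin.elim0 f L ζ ι :=
  ⟨hG.gal, hG.prim, hG.nine, hG.hω, hG.rz i, fun j => j.elim0, fun j => j.elim0,
    fun j => j.elim0⟩

end MAL

theorem MAL_thm (hMZF : Stmt_MZF) (hGCHI : GCHI) (hGTG : GTG) (hGFRG : GFRG) (hGTK : Stmt_GTK)
    (hGFK : Stmt_GFK) (hMC1 : Stmt_MC1) (hMC2 : Stmt_MC2) : Stmt_MAL := by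
  classical
  intro s b p q p' q' M N z α β P Q P' Q' f hSG hSZ hf h9
  obtain ⟨L, hF, hN, ζ, ι, hJ⟩ := hMZF s M N b p q p' q' z α β P Q P' Q' f hSG hSZ hf h9
  have hG := hJ.minus
  have hGp := hJ.plus
  haveI := hG.gal
  obtain ⟨χ, hχs, hχζ, hχF⟩ := hGCHI L f ζ hf hG.prim
  obtain ⟨N₁, hFr1⟩ := hGFRG s b p q p' q' f L ζ (ι w) hSG hGp
  choose N₂ hFr2 using fun r : Fin N => hGFK 1 (z (α r)) (fun _ => z (β r)) (fun _ => P r)
    (fun _ => Q r) (fun _ => P' r) (fun _ => Q' r) f L ζ ι (hSZ.one r) (hG.one r)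
  choose N₃ hFr3 using fun i : Fin M => hGFK 0 (z i) Fin.elim0 Fin.elim0 Fin.elim0 Fin.elim0
    Fin.elim0 f L ζ ι (MAL.sys1 hSZ i) (MAL.gov1 hG i)
  have hω3 : ι w ^ 3 = 1 := GC.om3 (GCK.om ι)
  have hf1 : 1 < f := by
    obtain ⟨c, hc⟩ := h9
    omega
  have hTp := hGTG s b p q p' q' f L ζ (ι w) hSG hGp
  have hT := fun r : Fin N => hGTK 1 (z (α r)) (fun _ => z (β r)) (fun _ => P r)
    (fun _ => Q r) (fun _ => P' r) (fun _ => Q' r) f L ζ ι (hSZ.one r) (hG.one r) 0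
  -- action on ω
  have hM : ∀ g : L ≃ₐ[ℚ] L, M2 (χ g) → g (ι w) = ι w ^ 2 := by
    intro g hg
    rw [hG.hω, map_pow, hχζ g, ← pow_mul, mul_comm, pow_mul, ← hG.hω]
    apply GALD.om_congr hω3
    unfold M2 at hg
    omega
  -- the plus part
  let tt : (L ≃ₐ[ℚ] L) → Fin s → Fin s → ZMod 3 := fun g j i =>
    if h : j ≠ i ∧ g (ι w) = ι w ^ 2 then ((hTp j i h.1).1 g h.2).choose else 0
  have htt : ∀ (g : L ≃ₐ[ℚ] L) (j i : Fin s), j ≠ i → g (ι w) = ι w ^ 2 →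
      IsT b p q p' q' (ι w) g j i (tt g j i) := by
    intro g j i hji hg
    have h : j ≠ i ∧ g (ι w) = ι w ^ 2 := ⟨hji, hg⟩
    have e : tt g j i = ((hTp j i h.1).1 g h.2).choose := dif_pos h
    rw [e]
    exact ((hTp j i h.1).1 g h.2).choose_spec.1
  have httu : ∀ (g : L ≃ₐ[ℚ] L) (j i : Fin s) (c : ZMod 3), j ≠ i → g (ι w) = ι w ^ 2 →
      IsT b p q p' q' (ι w) g j i c → tt g j i = c := by
    intro g j i c hji hg hc
    exact ((hTp j i hji).1 g hg).unique (htt g j i hji hg) hc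
  -- the minus part
  let F : (L ≃ₐ[ℚ] L) → Prop := fun g => g (ι w) = ι w ^ 2 ∧
    ∀ (i : Fin M) (ρ : L), ρ ^ 3 = ι (z i) → g (g ρ) = ρ
  have hFx : ∀ (g : L ≃ₐ[ℚ] L), F g → ∀ r : Fin N,
      FxK (z (α r)) (fun _ : Fin 1 => z (β r)) ι g := fun g hg r => ⟨hg.2 _, fun _ => hg.2 _⟩
  let t : (L ≃ₐ[ℚ] L) → Fin N → ZMod 3 := fun g r =>
    if h : F g then ((hT r).1 g h.1 (hFx g h r)).choose else 0
  have ht : ∀ (g : L ≃ₐ[ℚ] L) (r : Fin N), F g → IsTK (z (α r)) (fun _ : Fin 1 => P r)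
      (fun _ => Q r) (fun _ => P' r) (fun _ => Q' r) ι g 0 (t g r) := by
    intro g r h
    have e : t g r = ((hT r).1 g h.1 (hFx g h r)).choose := dif_pos h
    rw [e]
    exact ((hT r).1 g h.1 (hFx g h r)).choose_spec.1
  have htu : ∀ (g : L ≃ₐ[ℚ] L) (r : Fin N) (c : ZMod 3), F g →
      IsTK (z (α r)) (fun _ : Fin 1 => P r) (fun _ => Q r) (fun _ => P' r) (fun _ => Q' r)
        ι g 0 c → t g r = c := by
    intro g r c h hc
    exact ((hT r).1 g h.1 (hFx g h r)).unique (ht g r h) hc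
  have hconj : ∀ g τ : L ≃ₐ[ℚ] L, F g → (τ * g * τ⁻¹) (ι w) = ι w ^ 2 := by
    intro g τ hg
    rcases GAK.cases_om ι τ with hτ | hτ
    · rw [AlgEquiv.mul_apply, AlgEquiv.mul_apply, GAK.inv_fix hτ, hg.1, map_pow, hτ]
    · have h2 : τ⁻¹ (ι w) = ι w ^ 2 := by
        have h1 : τ (ι w ^ 2) = ι w := by rw [map_pow, hτ, GAK.om4]
        conv_lhs => rw [← h1]
        rw [← AlgEquiv.mul_apply, inv_mul_cancel]
        rfl
      rw [AlgEquiv.mul_apply, AlgEquiv.mul_apply, h2, map_pow, hg.1, GAK.om4, hτ]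
  have hFk : ∀ (g : L ≃ₐ[ℚ] L), F g → ∀ i : Fin M, FxK (z i) z ι g :=
    fun g hg i => ⟨hg.2 i, hg.2⟩
  refine ⟨L, hF, hN, hG.gal, χ, tt, F, t,
    max N₁ (max (Finset.univ.sup N₂) (Finset.univ.sup N₃)), hχs, ?_, ?_, ?_, ?_, ?_, ?_⟩
  · intro g τ hg j i hji
    have h1 : χ (τ * g * τ⁻¹) = χ g := by
      rw [map_mul, map_mul, map_inv, mul_comm (χ τ), mul_inv_cancel_right]
    apply httu _ _ _ _ hji
    · apply hM
      rw [h1]
      exact hg
    · exact (hTp j i hji).2.1 g τ _ (hM g hg) (htt g j i hji (hM g hg))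
  · intro g l hg hl j i hji
    apply httu _ _ _ _ hji
    · rw [GALD.pow_om hω3 g (hM g hg) l]
      apply GALD.om_congr hω3
      rw [GALD.two_pow_odd hl]
    · exact (hTp j i hji).2.2 g _ l (hM g hg) hl (htt g j i hji (hM g hg))
  · intro g τ _ hg
    have hF' : F (τ * g * τ⁻¹) :=
      ⟨hconj g τ hg, fun i => (GAK.fxk_conj τ hg.1 (hFk g hg i)).1⟩
    refine ⟨hF', funext fun r => ?_⟩
    exact htu _ _ _ hF' ((hT r).2.1 g τ _ hg.1 (hFx g hg r) (ht g r hg)).2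
  · intro g l _ hg hl
    have hF' : F (g ^ l) := by
      refine ⟨?_, fun i => (GAK.fxk_pow (hFk g hg i) l).1⟩
      rw [GALD.pow_om hω3 g hg.1 l]
      apply GALD.om_congr hω3
      rw [GALD.two_pow_odd hl]
    refine ⟨hF', funext fun r => ?_⟩
    rw [Pi.smul_apply, smul_eq_mul]
    exact htu _ _ _ hF' ((hT r).2.2 g _ l hg.1 (hFx g hg r) hl (ht g r hg)).2
  · intro a v v' y y' ha
    obtain ⟨z₁, h1F, h1p, h1m⟩ := hMC1 s M N b p q p' q' z α β P Q P' Q' f L ζ ι hSG hSZ hJ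
      (fun j => y j - y' j)
    obtain ⟨z₂, h2F, h2p, h2m⟩ := hMC2 s M N b p q p' q' z α β P Q P' Q' f L ζ ι hSG hSZ hJ
      (fun j i => v j i - v' j i)
    obtain ⟨σ, hσ⟩ : ∃ σ, σ = z₁ * z₂ := ⟨_, rfl⟩
    have hza : ∀ y : L, σ y = z₁ (z₂ y) := fun y => by rw [hσ]; rfl
    have hzζ : σ ζ = ζ := by rw [hza, h2F.ze, h1F.ze]
    have hzω : σ (ι w) = ι w := by rw [hG.hω, map_pow, hzζ]
    have h1ω : z₁ (ι w) = ι w := by rw [hG.hω, map_pow, h1F.ze]
    have hzz : ∀ (i : Fin M) (ρ : L), ρ ^ 3 = ι (z i) → σ ρ = ρ := fun i ρ hρ => by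
      rw [hza, h2F.rz i ρ hρ, h1F.rz i ρ hρ]
    have hzb : ∀ (j : Fin s) (ρ : L), ρ ^ 3 = (b j : L) → σ ρ = ρ := fun j ρ hρ => by
      rw [hza, h2F.rb j ρ hρ, h1F.rb j ρ hρ]
    have hzP : ∀ (j i : Fin s), j < i → ∀ (ρ A : L), PrP b p q p' q' ι j i ρ A →
        σ A = ι w ^ (v j i - v' j i).val * A := by
      intro j i hji ρ A hA
      rw [hza, h2p j i ρ A hji hA, map_mul, map_pow, h1ω, h1p j i ρ A hji.ne hA]
    have hzM : ∀ (j : Fin N) (ρ A : L), PrW z α P Q P' Q' ι j ρ A →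
        σ A = ι w ^ (y j - y' j).val * A ∧
        ∀ g : L ≃ₐ[ℚ] L, g (ι w) = ι w ^ 2 → σ (g A) = ι w ^ (- (y j - y' j)).val * g A := by
      intro j ρ A hA
      obtain ⟨e1, e2⟩ := h1m j ρ A hA
      obtain ⟨e3, e4⟩ := h2m j ρ A hA
      refine ⟨by rw [hza, e3, e1], fun g hg => ?_⟩
      rw [hza, e4 g hg, e2 g hg]
    have hχz : χ σ = 1 := by
      have h1 := hχζ σ
      rw [hzζ] at h1
      haveI : NeZero f := ⟨hf.ne'⟩
      have h2 : ((χ σ : ZMod f)).val = 1 := by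
        apply hG.prim.pow_inj (ZMod.val_lt _) hf1
        rw [← h1, pow_one]
      apply Units.ext
      have h3 := ZMod.natCast_zmod_val (χ σ : ZMod f)
      rw [h2] at h3
      rw [← h3]
      simp
    have hFz : ∀ g : L ≃ₐ[ℚ] L, F g → F (g * σ) := by
      intro g hg
      refine ⟨?_, fun i =>
        (GAK.fxk_mul (hSZ.cz i) hSZ.cz hg.1 hzω (hzz i) hzz (hFk g hg i)).1⟩
      rw [AlgEquiv.mul_apply, hzω, hg.1]
    have hFz' : ∀ g : L ≃ₐ[ℚ] L, F (g * σ) → F g := by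
      intro g hg
      have h1 : F (g * σ * σ⁻¹) := by
        refine ⟨?_, fun i => (GAK.fxk_mul (hSZ.cz i) hSZ.cz hg.1 (GAK.inv_fix hzω)
          (fun ρ hρ => GAK.inv_fix (hzz i ρ hρ)) (fun j ρ hρ => GAK.inv_fix (hzz j ρ hρ))
          (hFk _ hg i)).1⟩
        rw [AlgEquiv.mul_apply, GAK.inv_fix hzω, hg.1]
      rwa [mul_inv_cancel_right] at h1
    have key : ∀ g : L ≃ₐ[ℚ] L, F g → ∀ j, t (g * σ) j = t g j - (y j - y' j) := by
      intro g hg j
      apply htu _ _ _ (hFz g hg)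
      intro ρ A hρ hA
      obtain ⟨h1, h2⟩ := hzM j ρ A ⟨hρ, hA⟩
      have h3 := h2 g hg.1
      have h4 := ht g j hg ρ A hρ hA
      rw [AlgEquiv.mul_apply, AlgEquiv.mul_apply, h1, map_mul, map_pow, hg.1, map_mul, map_pow,
        map_pow, hzω, h3, map_mul, map_mul, map_pow, map_pow, map_pow, hg.1, h4]
      rw [← mul_assoc, ← mul_assoc, ← pow_mul, ← pow_mul, ← pow_mul, ← pow_add, ← pow_add]
      congr 1
      apply GALD.om_congr hω3
      have h5 := GAK.val_calc (y j - y' j) (t g j)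
      omega
    have keyp : ∀ g : L ≃ₐ[ℚ] L, g (ι w) = ι w ^ 2 → ∀ j i, j < i →
        tt (g * σ) j i = tt g j i - (v j i - v' j i) := by
      intro g hg j i hji
      have hgz : (g * σ) (ι w) = ι w ^ 2 := by rw [AlgEquiv.mul_apply, hzω, hg]
      apply httu _ _ _ _ hji.ne hgz
      intro ρ A hρ hgρ hA
      rw [AlgEquiv.mul_apply, hzb j ρ hρ] at hgρ
      have h1 := htt g j i hji.ne hg ρ A hρ hgρ hA
      rw [AlgEquiv.mul_apply, hzP j i hji ρ A ⟨hρ, hA⟩, map_mul, map_pow, hg, mul_assoc, h1,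
        ← pow_mul, ← pow_add]
      apply GALD.om_congr hω3
      have : ((2 * (v j i - v' j i).val + (tt g j i).val : ℕ) : ZMod 3) =
          (((tt g j i - (v j i - v' j i)).val : ℕ) : ZMod 3) := by
        push_cast
        rw [ZMod.natCast_zmod_val, ZMod.natCast_zmod_val, ZMod.natCast_zmod_val]
        have h3 : (3 : ZMod 3) = 0 := by decide
        linear_combination (v j i - v' j i) * h3
      exact (ZMod.natCast_eq_natCast_iff' _ _ 3).mp this
    apply Nat.card_congr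
    refine Equiv.subtypeEquiv (Equiv.mulRight σ) ?_
    intro g
    have hχ : χ (g * σ) = χ g := by rw [map_mul, hχz, mul_one]
    show (χ g = a ∧ F g ∧ t g = y ∧ ∀ j i, j < i → tt g j i = v j i) ↔
      (χ (g * σ) = a ∧ F (g * σ) ∧ t (g * σ) = y' ∧ ∀ j i, j < i → tt (g * σ) j i = v' j i)
    rw [hχ]
    constructor
    · rintro ⟨h1, h2, h3, h4⟩
      refine ⟨h1, hFz g h2, funext fun j => ?_, fun j i hji => ?_⟩
      · rw [key g h2 j, h3]
        ring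
      · rw [keyp g (hM g (by rw [h1]; exact ha)) j i hji, h4 j i hji]
        ring
    · rintro ⟨h1, h2, h3, h4⟩
      refine ⟨h1, hFz' g h2, funext fun j => ?_, fun j i hji => ?_⟩
      · have h5 := congrFun h3 j
        rw [key g (hFz' g h2) j] at h5
        linear_combination h5
      · have h5 := h4 j i hji
        rw [keyp g (hM g (by rw [h1]; exact ha)) j i hji] at h5
        linear_combination h5
  · intro q₀ hq hqp hN₀ I g hI hqI hst
    haveI := hI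
    have hN₂ : ∀ r, N₂ r < q₀ := fun r => (Finset.le_sup (f := N₂) (Finset.mem_univ r)).trans_lt
      (((le_max_left _ _).trans (le_max_right _ _)).trans_lt hN₀)
    have hN₃ : ∀ i, N₃ i < q₀ := fun i => (Finset.le_sup (f := N₃) (Finset.mem_univ i)).trans_lt
      (((le_max_right _ _).trans (le_max_right _ _)).trans_lt hN₀)
    obtain ⟨h1, h2⟩ := hFr1 q₀ hqp ((le_max_left _ _).trans_lt hN₀) I hI hqI
    obtain ⟨l, hl, hfr⟩ := h1 g hst
    refine ⟨l, hl, hχF q₀ hq hqp I (g ^ l) hI hqI hfr, ?_⟩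
    intro hq3
    obtain ⟨h3, h4⟩ := h2 (g ^ l) hfr hq3
    refine ⟨fun j i hji r hr => h4 j i hji r _ hr (htt (g ^ l) j i hji h3), fun hz => ?_⟩
    have hF' : F (g ^ l) := ⟨h3, fun i =>
      (((hFr3 i q₀ hqp (hN₃ i) I hI hqI).2 (g ^ l) hfr hq3).2 (hz i)
        (fun j => j.elim0)).1.1⟩
    refine ⟨hF', fun r ξ hξ => ?_⟩
    exact (((hFr2 r q₀ hqp (hN₂ r) I hI hqI).2 (g ^ l) hfr hq3).2 (hz _)
      (fun _ => hz _)).2 0 ξ _ hξ (ht (g ^ l) r hF')

end Pool.Agent.PTK
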