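import Pool.Agent.PTK.StW
import Pool.Agent.PTN.MAINN

/-!
# PTK_MAM: all moments, the theorem
-/

set_option autoImplicit false

open NumberField IsDedekindDomain Finset
open scoped nonZeroDivisors Pointwise

namespace Pool.Agent.PTK

open Pool.Agent.Lib_helper18 Pool.Agent.Lib_helper18.Eis Pool.Agent.Lib_helper84.Cub
open Pool.Agent.PT Pool.Agent.PTE Pool.Agent.PT3 Pool.Agent.PTL Pool.Agent.PTN

namespace MAM

open MAINN

theorem aW_le (d : ℕ) : aW d ≤ 335 / 108 := by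
  unfold aW
  split_ifs <;> norm_num

theorem aW_one {d : ℕ} (h : d ≤ 1) : aW d = 9 / 4 := by
  unfold aW
  rw [if_pos h]

theorem cM_one {d : ℕ} (h : d ≤ 1) (k : ℕ) : cM k d = MoB k := by
  unfold cM
  rw [if_pos h]

theorem cM_le (hGMB : Stmt_GMB) (k d : ℕ) : cM k d * MoB k ≤ 3 * MoB k ^ 2 := by
  obtain ⟨-, -, -, g2, -, g1, -, -⟩ := hGMB
  have h1 := g1 k
  have h2 := g2 k
  have h3 : cM k d ≤ 3 * MoB k := by
    unfold cM
    split_ifs
    · linarith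
    · exact h2
  have h4 : cM k d * MoB k ≤ 3 * MoB k * MoB k :=
    mul_le_mul_of_nonneg_right h3 (by linarith)
  linarith [h4, (by ring : 3 * MoB k * MoB k = 3 * MoB k ^ 2)]

theorem tail_le (hGMB : Stmt_GMB) (k : ℕ) (c : ℝ) (hc : 0 ≤ c) :
    c * MoB k ^ 2 / 3 ^ (k * (2 * k + 1)) ≤ c * (64 / 25) / 3 ^ k ^ 2 := by
  obtain ⟨-, -, -, -, -, -, -, g⟩ := hGMB
  have h1 := g k
  have h2 : (3 : ℝ) ^ (k * (2 * k + 1)) = 3 ^ (k * (k + 1)) * 3 ^ k ^ 2 := by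
    rw [← pow_add]
    congr 1
    ring
  rw [h2, div_le_div_iff₀ (by positivity) (by positivity)]
  have h3 : c * MoB k ^ 2 ≤ c * (64 / 25 * 3 ^ (k * (k + 1))) := mul_le_mul_of_nonneg_left h1 hc
  calc c * MoB k ^ 2 * 3 ^ k ^ 2 ≤ c * (64 / 25 * 3 ^ (k * (k + 1))) * 3 ^ k ^ 2 :=
        mul_le_mul_of_nonneg_right h3 (by positivity)
    _ = c * (64 / 25) * (3 ^ (k * (k + 1)) * 3 ^ k ^ 2) := by ring

theorem key {h n m : ℕ} (π : Fin m → PP) [NeZero (9 * (3 ^ h * n))] (hn3 : ¬ 3 ∣ n)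
    (u : (ZMod (9 * (3 ^ h * n)))ˣ) (h0 : h = 0) : (wt ((n : ℤ) ^ 2) + (cl π u).1 = 0) ↔
        ((3 ^ h * n) * (u : ZMod (9 * (3 ^ h * n))).val) % 9 = 1 ∨
        ((3 ^ h * n) * (u : ZMod (9 * (3 ^ h * n))).val) % 9 = 8 := by
  have hn3' : ¬ (3 : ℤ) ∣ (n : ℤ) := by
    intro hd
    exact hn3 (by exact_mod_cast hd)
  have hu3 : ¬ (3 : ℤ) ∣ (((u : ZMod (9 * (3 ^ h * n))).val : ℕ) : ℤ) := by
    intro hd
    have hd' : 3 ∣ (u : ZMod (9 * (3 ^ h * n))).val := by exact_mod_cast hd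
    have hco := ZMod.val_coe_unit_coprime u
    have h3 : 3 ∣ 9 * (3 ^ h * n) := Dvd.dvd.mul_right (by norm_num) _
    have := Nat.dvd_gcd hd' h3
    rw [hco] at this
    omega
  have h1 : ¬ (3 : ℤ) ∣ (n : ℤ) * (((u : ZMod (9 * (3 ^ h * n))).val : ℕ) : ℤ) := by
    intro hd
    rcases Int.prime_three.dvd_or_dvd hd with h1 | h1
    · exact hn3' h1
    · exact hu3 h1
  have h2 := wt_zero_iff h1
  rw [mul_pow, wt_mul (sq_mod_three hn3') (sq_mod_three hu3)] at h2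
  show wt ((n : ℤ) ^ 2) + wt ((((u : ZMod (9 * (3 ^ h * n))).val : ℕ) : ℤ) ^ 2) = 0 ↔ _
  rw [h2]
  have h3 : (3 : ℕ) ^ h * n = n := by rw [h0, pow_zero, one_mul]
  generalize (u : ZMod (9 * (3 ^ h * n))).val = U
  rw [h3]
  constructor
  · rintro (h4 | h4)
    · left; zify; exact h4
    · right; zify; exact h4
  · rintro (h4 | h4)
    · left; zify at h4; exact h4
    · right; zify at h4; exact h4

theorem dvd_iff {h n : ℕ} (hn3 : ¬ 3 ∣ n) : 3 ∣ 3 ^ h * n ↔ h ≠ 0 := by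
  constructor
  · rintro h1 rfl
    rw [pow_zero, one_mul] at h1
    exact hn3 h1
  · intro h1
    exact (dvd_pow_self 3 h1).mul_right n

theorem dN_le {h n : ℕ} {w0 : ZMod 3} (H : h ≠ 0 ∨ ¬ wt ((n : ℤ) ^ 2) + w0 = 0) :
    dN h n w0 ≤ 1 := by
  unfold dN
  split_ifs with h1 h2
  · norm_num
  · rcases H with H | H
    · exact absurd h2.1 H
    · exact absurd h2.2 H
  · exact le_rfl

end MAM

open MAINN in
/-- PTK_MAM -/
theorem MAM_thm (hNFE : Stmt_NFE) (hTRU : Stmt_TRU) (hSUMA : Stmt_SUMA) (hGMB : Stmt_GMB)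
    (hMTL : Stmt_MTL) (hAMF : Stmt_AMF) (hAM2 : Stmt_AM2) (hAM1 : Stmt_AM1) : Stmt_MAM := by
  classical
  intro N hN0 hcf m0 hm a ha
  obtain ⟨h, n, m, k, π, p, e, r, f, hNF, hh, -, hNeq, hm', -⟩ := hNFE N hN0 hcf
  have hmm : m0 = m := by rw [hm, hm']
  clear hm hm'
  subst hmm hNeq
  have hn3 : ¬ 3 ∣ n := n_three hNF
  have : NeZero (9 * (3 ^ h * n)) := ⟨by
    have : n ≠ 0 := by
      rintro rfl
      simp at hN0
    positivity⟩
  obtain ⟨-, T2⟩ := hTRU h n m0 k π p e r f hNF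
  obtain ⟨a1, a2, a3, a4⟩ := hAMF h n m0 k π p e r f hNF hh a ha
  have mono : ∀ (F : ℤ → ℝ) (W : ℤ → Prop) (x y : ℝ), x ≤ y →
      AboveA ((3 ^ h * n : ℕ) : ℤ) a W F x → AboveA ((3 ^ h * n : ℕ) : ℤ) a W F y :=
    fun F => (hSUMA ((3 ^ h * n : ℕ) : ℤ) a m0 π F).2.2.1
  refine ⟨a1, a2, a3, fun k₀ => ?_, fun h3 => ?_, fun u => ?_⟩
  · have h1 := hMTL _ _ _ k₀ (2 * k₀ + 1) _ (a3 k₀)
    refine mono _ _ _ _ ?_ h1
    have h2 := MAM.tail_le hGMB k₀ (5 / 3) (by norm_num)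
    refine h2.trans (le_of_eq ?_)
    norm_num
  · obtain ⟨b1, b2⟩ := a4 ((MAM.dvd_iff hn3).1 h3)
    refine ⟨b1, b2, fun k₀ => ?_⟩
    have h1 := hMTL _ _ _ k₀ (2 * k₀ + 1) _ (b2 k₀)
    refine mono _ _ _ _ ?_ h1
    have h2 := MAM.tail_le hGMB k₀ 1 (by norm_num)
    rw [one_mul, one_mul] at h2
    exact h2
  · have hW : ∀ q E : ℕ, q.Prime → 9 * (3 ^ h * n) < q → (E = 1 ∨ E = 2) →
        (∃ x : ℤ, ((9 * (3 ^ h * n) : ℕ) : ℤ) ∣ (q : ℤ) ^ E -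
          ((u : ZMod (9 * (3 ^ h * n))).val : ℤ) * x ^ 3) →
        Kl π (cl π u).1 (cl π u).2 ((q : ℤ) ^ E) := by
      rintro q E hq hqN hE ⟨x, hx⟩
      refine T2 u (cl π u).1 (cl π u).2 _ x ((kl_iff π u _).2 rfl) ?_ hx
      have h1 : Nat.Coprime q (9 * (3 ^ h * n)) := by
        rw [Nat.Prime.coprime_iff_not_dvd hq]
        intro hd
        have := Nat.le_of_dvd (Nat.pos_of_ne_zero (NeZero.ne _)) hd
        omega
      exact (Nat.isCoprime_iff_coprime.2 h1).pow_left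
    have h3 : (0 : ℝ) < 3 ^ (m0 + 1) := by positivity
    obtain ⟨c1, c2⟩ : AboveA ((3 ^ h * n : ℕ) : ℤ) a (Kl π (cl π u).1 (cl π u).2)
        (fun A => (CubeRank.rr A : ℝ)) (aW (dN h n (cl π u).1) / 3 ^ (m0 + 1)) ∧
        ∀ k₀ : ℕ, AboveA ((3 ^ h * n : ℕ) : ℤ) a (Kl π (cl π u).1 (cl π u).2)
          (fun A => 3 ^ (k₀ * CubeRank.rr A))
          (cM k₀ (dN h n (cl π u).1) * MoB k₀ / 3 ^ (m0 + 1)) := by
      rcases ha with rfl | rfl
      · exact hAM1 h n m0 k π p e r f (cl π u).1 (cl π u).2 hNF hh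
      · exact hAM2 h n m0 k π p e r f (cl π u).1 (cl π u).2 hNF hh
    refine ⟨?_, fun k₀ => ?_, fun H => ?_⟩
    · exact aboveA_mono (fun A => Nat.cast_nonneg _) _ hW
        (mono _ _ _ _ (div_le_div_of_nonneg_right (MAM.aW_le _) h3.le) c1)
    · exact aboveA_mono (fun A => by positivity) _ hW
        (mono _ _ _ _ (div_le_div_of_nonneg_right (MAM.cM_le hGMB k₀ _) h3.le) (c2 k₀))
    · have hd : dN h n (cl π u).1 ≤ 1 := by
        refine MAM.dN_le ?_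
        by_cases h0 : h = 0
        · right
          rw [MAM.key π hn3 u h0]
          rcases H with H | H
          · exact absurd h0 ((MAM.dvd_iff hn3).1 H)
          · rintro (h4 | h4)
            · exact H.1 h4
            · exact H.2 h4
        · exact Or.inl h0
      rw [MAM.aW_one hd] at c1
      refine ⟨aboveA_mono (fun A => Nat.cast_nonneg _) _ hW c1, fun k₀ => ?_⟩
      have c3 := c2 k₀
      rw [MAM.cM_one hd, ← pow_two] at c3
      exact aboveA_mono (fun A => by positivity) _ hW c3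

end Pool.Agent.PTK
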