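import Pool.Agent.PTK.StM
import Pool.Agent.PTK.JAU

/-!
# All moments: the joint governing field, summary for `Q = 1 (mod 3)`, generic pattern

Copy of `PTK/JAU.lean` for several base classes.
-/

set_option autoImplicit false

open NumberField IsDedekindDomain Finset
open scoped nonZeroDivisors Pointwise

namespace Pool.Agent.PTK

open Pool.Agent.Lib_helper18 Pool.Agent.Lib_helper18.Eis Pool.Agent.Lib_helper84.Cub
open Pool.Agent.PT Pool.Agent.PTE Pool.Agent.PT3 Pool.Agent.PTL Pool.Agent.PTN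
open Pool.Agent.PT.GALD Pool.Agent.PTE.GALDS

namespace MAU

/-- one class of a system, no pairs -/
theorem sysZero {M N : ℕ} {z : Fin M → Eis} {α β : Fin N → Fin M} {P Q P' Q' : Fin N → Eis}
    (hS : SysZ z α β P Q P' Q') (i : Fin M) :
    SysK (z i) (Fin.elim0 : Fin 0 → Eis) Fin.elim0 Fin.elim0 Fin.elim0 Fin.elim0 := by
  refine ⟨fun c₀ c h hc => ?_, fun j => j.elim0, hS.cz i, fun j => j.elim0⟩
  have h1 : ¬ 3 ∣ c₀ := by
    rcases h with h | ⟨j, _⟩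
    · exact h
    · exact j.elim0
  obtain ⟨t, ht⟩ := hc
  refine hS.ind (Pi.single i c₀) ⟨i, by rwa [Pi.single_eq_same]⟩ ⟨t, ht.trans ?_⟩
  have e1 : ∏ j, z j ^ (Pi.single i c₀ : Fin M → ℕ) j = z i ^ c₀ := by
    rw [Finset.prod_eq_single i]
    · rw [Pi.single_eq_same]
    · intro j _ hj
      rw [Pi.single_eq_of_ne hj, pow_zero]
    · intro h
      exact absurd (Finset.mem_univ i) h
  rw [e1]
  simp

theorem govZero {M N : ℕ} {z : Fin M → Eis} {α : Fin N → Fin M} {P Q P' Q' : Fin N → Eis}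
    {f : ℕ} {L : Type} [Field L] [NumberField L] {ζ : L} {ι : Eis →+* L}
    (hG : GovZ z α P Q P' Q' f L ζ ι) (i : Fin M) :
    GovK (z i) (Fin.elim0 : Fin 0 → Eis) Fin.elim0 Fin.elim0 Fin.elim0 Fin.elim0 f L ζ ι :=
  ⟨hG.gal, hG.prim, hG.nine, hG.hω, hG.rz i, fun j => j.elim0, fun j => j.elim0,
    fun j => j.elim0⟩

/-- the relation between `g` and `t_r(g)` -/
def IsTW {M N : ℕ} (z : Fin M → Eis) (α : Fin N → Fin M) (P Q P' Q' : Fin N → Eis) {L : Type}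
    [Field L] [NumberField L] (ι : Eis →+* L) (g : L ≃ₐ[ℚ] L) (r : Fin N) (t : ZMod 3) : Prop :=
  IsTU (z (α r)) (fun _ : Fin 1 => P r) (fun _ => Q r) (fun _ => P' r) (fun _ => Q' r) ι g 0 t

/-- `g` fixes the roots of all classes -/
def FxZ {M : ℕ} (z : Fin M → Eis) {L : Type} [Field L] [NumberField L] (ι : Eis →+* L)
    (g : L ≃ₐ[ℚ] L) : Prop :=
  ∀ (i : Fin M) (ρ : L), ρ ^ 3 = ι (z i) → g ρ = ρ

theorem FxZ.one {M : ℕ} {z : Fin M → Eis} {L : Type} [Field L] [NumberField L] {ι : Eis →+* L}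
    {g : L ≃ₐ[ℚ] L} (h : FxZ z ι g) (i j : Fin M) : FxU (z i) (fun _ : Fin 1 => z j) ι g :=
  ⟨h i, fun _ => h j⟩

theorem FxZ.zero {M : ℕ} {z : Fin M → Eis} {L : Type} [Field L] [NumberField L] {ι : Eis →+* L}
    {g : L ≃ₐ[ℚ] L} (h : FxZ z ι g) (i : Fin M) :
    FxU (z i) (Fin.elim0 : Fin 0 → Eis) ι g :=
  ⟨h i, fun j => j.elim0⟩

end MAU

theorem MAU_thm (hMZF : Stmt_MZF) (hGCHI : GCHI) (hGTS : GTS) (hGKUM : GKUM)
    (hGFRU : Stmt_GFRU) (hGTU : Stmt_GTU) (hGFKU : Stmt_GFKU) (hMC1 : Stmt_MC1)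
    (hMC2 : Stmt_MC2) : Stmt_MAU := by
  classical
  intro s b p q p' q' M N z α β P Q P' Q' f hSys hSysZ hf h9
  obtain ⟨L, hF, hN, ζ, ι, hJ⟩ := hMZF (s + 1) M N b p q p' q' z α β P Q P' Q' f hSys hSysZ hf h9
  have hG := hJ.plus
  have hGK := hJ.minus
  have hgal := hG.gal
  obtain ⟨χ, hχs, hχζ, hχF⟩ := hGCHI L f ζ hf hG.prim
  obtain ⟨N₁, hFr⟩ := hGFRU s b p q p' q' f L ζ (ι w) hSys hG
  have hFrZ := fun r : Fin N => hGFKU 1 (z (α r)) (fun _ => z (β r)) (fun _ => P r) (fun _ => Q r)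
    (fun _ => P' r) (fun _ => Q' r) f L ζ ι (hSysZ.one r) (hGK.one r)
  have hFr0 := fun i : Fin M => hGFKU 0 (z i) Fin.elim0 Fin.elim0 Fin.elim0 Fin.elim0 Fin.elim0
    f L ζ ι (MAU.sysZero hSysZ i) (MAU.govZero hGK i)
  choose N₂ hFrK using hFrZ
  choose N₃ hFr1 using hFr0
  have hω3 : ι w ^ 3 = 1 := om_cube hG.rel
  have hf1 : 1 < f := by
    obtain ⟨c, hc⟩ := h9
    omega
  have h3f : 3 ∣ f := (by norm_num : (3 : ℕ) ∣ 9).trans h9
  have hfz : NeZero f := ⟨hf.ne'⟩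
  obtain ⟨hT1, hT⟩ := hGTS s b p q p' q' f L ζ (ι w) hSys hG
  have hU := fun r : Fin N => hGTU 1 (z (α r)) (fun _ => z (β r)) (fun _ => P r) (fun _ => Q r)
    (fun _ => P' r) (fun _ => Q' r) f L ζ ι (hSysZ.one r) (hGK.one r)
  have hU0 := fun i : Fin M => hGTU 0 (z i) Fin.elim0 Fin.elim0 Fin.elim0 Fin.elim0 Fin.elim0
    f L ζ ι (MAU.sysZero hSysZ i) (MAU.govZero hGK i)
  -- action on ω
  have hωχ : ∀ g : L ≃ₐ[ℚ] L, g (ι w) = ι w ^ ((χ g : ZMod f)).val := by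
    intro g
    rw [hG.hω, map_pow, hχζ g, ← pow_mul, mul_comm, pow_mul, ← hG.hω]
  have hM : ∀ g : L ≃ₐ[ℚ] L, M1 (χ g) → g (ι w) = ι w := by
    intro g hg
    rw [hωχ g]
    conv_rhs => rw [← pow_one (ι w)]
    apply om_congr hω3
    unfold M1 at hg
    omega
  -- an automorphism with `c ω = ω²`
  obtain ⟨c, hc⟩ : ∃ c : L ≃ₐ[ℚ] L, c (ι w) = ι w ^ 2 := by
    have h1 : (f - 1).Coprime f := by
      have h2 : (f - 1).Coprime (f - 1 + 1) := by simp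
      rwa [Nat.sub_add_cancel hf] at h2
    obtain ⟨c, hc⟩ := hχs (ZMod.unitOfCoprime (f - 1) h1)
    refine ⟨c, ?_⟩
    rw [hωχ c, hc, ZMod.coe_unitOfCoprime, ZMod.val_natCast, Nat.mod_eq_of_lt (by omega)]
    apply om_congr hω3
    omega
  have hc' : c⁻¹ (ι w) = ι w ^ 2 := JAU.inv_sq hc
  have hb0 : ∀ j, b j ≠ 0 := by
    intro j h0
    refine hSys.ind (Pi.single j 1) ⟨j, by simp⟩ ⟨0, ?_⟩
    have h1 : ∏ i, b i ^ (Pi.single j 1 : Fin (s + 1) → ℕ) i = 0 := by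
      refine Finset.prod_eq_zero (Finset.mem_univ j) ?_
      rw [Pi.single_eq_same, pow_one, h0]
    rw [h1]
    norm_num
  have hz1 : ∀ y : L ≃ₐ[ℚ] L, y ζ = ζ → y (ι w) = ι w ∧ χ y = 1 := by
    intro y hzζ
    refine ⟨by rw [hG.hω, map_pow, hzζ], ?_⟩
    have h1 := hχζ y
    rw [hzζ] at h1
    have h2 : ((χ y : ZMod f)).val = 1 := by
      apply hG.prim.pow_inj (ZMod.val_lt _) hf1
      rw [← h1, pow_one]
    apply Units.ext
    have h3 := ZMod.natCast_zmod_val (χ y : ZMod f)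
    rw [h2] at h3
    rw [← h3]
    simp
  let t : (L ≃ₐ[ℚ] L) → Fin s → Fin s → ZMod 3 := fun g j i =>
    if h : j ≠ i ∧ g (ι w) = ι w ∧ Fx b g then ((hT j i h.1).1 g h.2.1 h.2.2).choose else 0
  have ht : ∀ (g : L ≃ₐ[ℚ] L) (j i : Fin s), j ≠ i → g (ι w) = ι w → Fx b g →
      IsTS b p q p' q' (ι w) g j.castSucc i.castSucc (t g j i) := by
    intro g j i hji hg hF
    have h : j ≠ i ∧ g (ι w) = ι w ∧ Fx b g := ⟨hji, hg, hF⟩
    have e : t g j i = ((hT j i h.1).1 g h.2.1 h.2.2).choose := dif_pos h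
    rw [e]
    exact ((hT j i h.1).1 g h.2.1 h.2.2).choose_spec.1
  have htu : ∀ (g : L ≃ₐ[ℚ] L) (j i : Fin s) (c : ZMod 3), j ≠ i → g (ι w) = ι w → Fx b g →
      IsTS b p q p' q' (ι w) g j.castSucc i.castSucc c → t g j i = c := by
    intro g j i c hji hg hF hc
    exact ((hT j i hji).1 g hg hF).unique (ht g j i hji hg hF) hc
  -- the minus part
  let F₂ : (L ≃ₐ[ℚ] L) → Prop := fun g => g (ι w) = ι w ∧ MAU.FxZ z ι g
  have hone : ∀ (g : L ≃ₐ[ℚ] L) (r : Fin N), F₂ g →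
      FxU (z (α r)) (fun _ : Fin 1 => z (β r)) ι g := fun g r h => h.2.one (α r) (β r)
  let t₂ : (L ≃ₐ[ℚ] L) → Fin N → ZMod 3 := fun g r =>
    if h : F₂ g then (((hU r).2.2 0).1 g h.1 (hone g r h)).choose else 0
  have ht₂ : ∀ (g : L ≃ₐ[ℚ] L) (r : Fin N), F₂ g →
      MAU.IsTW z α P Q P' Q' ι g r (t₂ g r) := by
    intro g r h
    have e : t₂ g r = (((hU r).2.2 0).1 g h.1 (hone g r h)).choose := dif_pos h
    rw [e]
    exact (((hU r).2.2 0).1 g h.1 (hone g r h)).choose_spec.1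
  have htu₂ : ∀ (g : L ≃ₐ[ℚ] L) (r : Fin N) (c : ZMod 3), F₂ g →
      MAU.IsTW z α P Q P' Q' ι g r c → t₂ g r = c := by
    intro g r c h hc
    exact (((hU r).2.2 0).1 g h.1 (hone g r h)).unique (ht₂ g r h) hc
  have hF₂c : ∀ g τ : L ≃ₐ[ℚ] L, F₂ g → F₂ (τ * g * τ⁻¹) := fun g τ h =>
    ⟨JAU.conj_om h.1 τ, fun i => ((hU0 i).1 g τ h.1 (h.2.zero i)).1⟩
  have htc : ∀ (g τ : L ≃ₐ[ℚ] L) (j : Fin N), F₂ g → τ (ι w) = ι w →
      t₂ (τ * g * τ⁻¹) j = t₂ g j := by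
    intro g τ j hg hτ
    exact htu₂ _ _ _ (hF₂c g τ hg)
      (((hU j).2.2 0).2.1 g τ _ hg.1 (hone g j hg) hτ (ht₂ g j hg))
  let T : (L ≃ₐ[ℚ] L) → Fin N → ZMod 3 := fun g j => t₂ g j + t₂ (c * g * c⁻¹) j
  refine ⟨L, hF, hN, hG.gal, χ, Fx b, t, F₂, T,
    max N₁ (max (univ.sup N₂) (univ.sup N₃)), hχs, ?_, ?_, ?_, ?_, ?_, ?_, ?_⟩
  · intro g τ hg hFg
    obtain ⟨_, h1, _⟩ := hT1 g (hM g hg) hFg
    obtain ⟨h2, h3⟩ := h1 τ
    refine ⟨h3, fun j i hji => ?_⟩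
    exact htu _ _ _ _ hji h2 h3 ((hT j i hji).2.1 g τ _ (hM g hg) hFg (ht g j i hji (hM g hg) hFg))
  · intro g l hg hFg hl
    obtain ⟨_, _, h1⟩ := hT1 g (hM g hg) hFg
    obtain ⟨h2, h3⟩ := h1 l
    refine ⟨h3 hl, fun j i hji => ?_⟩
    exact htu _ _ _ _ hji h2 (h3 hl) ((hT j i hji).2.2 g _ l (hM g hg)
      (ht g j i hji (hM g hg) hFg))
  · intro g τ _ hg
    refine ⟨hF₂c g τ hg, funext fun j => ?_⟩
    show t₂ (τ * g * τ⁻¹) j + t₂ (c * (τ * g * τ⁻¹) * c⁻¹) j = t₂ g j + t₂ (c * g * c⁻¹) j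
    rcases GAK.cases_om ι τ with hτ | hτ
    · rw [htc g τ j hg hτ]
      have e : c * (τ * g * τ⁻¹) * c⁻¹ = (c * τ * c⁻¹) * (c * g * c⁻¹) * (c * τ * c⁻¹)⁻¹ := by
        group
      rw [e, htc (c * g * c⁻¹) (c * τ * c⁻¹) j (hF₂c g c hg) (JAU.conj_om hτ c)]
    · have e1 : τ * g * τ⁻¹ = (τ * c⁻¹) * (c * g * c⁻¹) * (τ * c⁻¹)⁻¹ := by group
      have e2 : c * (τ * g * τ⁻¹) * c⁻¹ = (c * τ) * g * (c * τ)⁻¹ := by group
      rw [e2, htc g (c * τ) j hg (JAU.mul_om hc hτ), e1,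
        htc (c * g * c⁻¹) (τ * c⁻¹) j (hF₂c g c hg) (JAU.mul_om hτ hc')]
      ring
  · intro g l _ hg
    have hpow : ∀ (g : L ≃ₐ[ℚ] L), F₂ g → F₂ (g ^ l) := by
      intro g hg
      exact ⟨JAU.pow_fix hg.1 l, fun i => ((hU0 i).2.1 g l (hg.2.zero i)).1⟩
    have ht' : ∀ (g : L ≃ₐ[ℚ] L), F₂ g → ∀ j, t₂ (g ^ l) j = l * t₂ g j := by
      intro g hg j
      exact htu₂ _ _ _ (hpow g hg) (((hU j).2.2 0).2.2 g _ l hg.1 (ht₂ g j hg))
    refine ⟨hpow g hg, funext fun j => ?_⟩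
    show t₂ (g ^ l) j + t₂ (c * g ^ l * c⁻¹) j = (l : ZMod 3) * (t₂ g j + t₂ (c * g * c⁻¹) j)
    have e : c * g ^ l * c⁻¹ = (c * g * c⁻¹) ^ l := by rw [conj_pow]
    rw [e, ht' g hg j, ht' _ (hF₂c g c hg) j]
    ring
  · intro a v v' y y' ha
    obtain ⟨z₁, hz₁, hz₁P, hz₁M⟩ := hMC1 (s + 1) M N b p q p' q' z α β P Q P' Q' f L ζ ι hSys
      hSysZ hJ (fun j => 2 * (y' j - y j))
    obtain ⟨z₂, hz₂, hz₂P, hz₂M⟩ := hMC2 (s + 1) M N b p q p' q' z α β P Q P' Q' f L ζ ι hSys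
      hSysZ hJ (fun j i => if h : j ≠ Fin.last s ∧ i ≠ Fin.last s then
        v' (j.castPred h.1) (i.castPred h.2) - v (j.castPred h.1) (i.castPred h.2) else 0)
    obtain ⟨hz₁ω, hχz₁⟩ := hz1 z₁ hz₁.ze
    obtain ⟨hz₂ω, hχz₂⟩ := hz1 z₂ hz₂.ze
    set y₀ := z₁ * z₂ with hz
    have hzω : y₀ (ι w) = ι w := by rw [hz, AlgEquiv.mul_apply, hz₂ω, hz₁ω]
    have hχz : χ y₀ = 1 := by rw [hz, map_mul, hχz₁, hχz₂, mul_one]
    have hzρ : ∀ (j : Fin (s + 1)) (ρ : L), ρ ^ 3 = (b j : L) → y₀ ρ = ρ := by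
      intro j ρ hρ
      rw [hz, AlgEquiv.mul_apply, hz₂.rb j ρ hρ, hz₁.rb j ρ hρ]
    have hzu : ∀ (i : Fin M) (ρ : L), ρ ^ 3 = ι (z i) → y₀ ρ = ρ := by
      intro i ρ hρ
      rw [hz, AlgEquiv.mul_apply, hz₂.rz i ρ hρ, hz₁.rz i ρ hρ]
    have hFz : ∀ g : L ≃ₐ[ℚ] L, Fx b (g * y₀) ↔ Fx b g := by
      intro g
      have h1 : ∀ (j : Fin (s + 1)) (ρ : L), ρ ^ 3 = (b j : L) → (g * y₀) ρ = g ρ := by
        intro j ρ hρ
        rw [AlgEquiv.mul_apply, hzρ j ρ hρ]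
      unfold Fx
      constructor
      · rintro ⟨h2, h3⟩
        exact ⟨fun j ρ hρ => by rw [← h1 _ ρ hρ]; exact h2 j ρ hρ,
          fun ρ hρ => by rw [← h1 _ ρ hρ]; exact h3 ρ hρ⟩
      · rintro ⟨h2, h3⟩
        exact ⟨fun j ρ hρ => by rw [h1 _ ρ hρ]; exact h2 j ρ hρ,
          fun ρ hρ => by rw [h1 _ ρ hρ]; exact h3 ρ hρ⟩
    have hF₂z : ∀ g : L ≃ₐ[ℚ] L, F₂ (g * y₀) ↔ F₂ g := by
      intro g
      have h2 : ∀ (j : Fin M) (ρ : L), ρ ^ 3 = ι (z j) → (g * y₀) ρ = g ρ := by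
        intro j ρ hρ
        rw [AlgEquiv.mul_apply, hzu j ρ hρ]
      have h3 : (g * y₀) (ι w) = g (ι w) := by rw [AlgEquiv.mul_apply, hzω]
      show ((g * y₀) (ι w) = ι w ∧ MAU.FxZ z ι (g * y₀)) ↔ (g (ι w) = ι w ∧ MAU.FxZ z ι g)
      rw [h3]
      constructor
      · rintro ⟨h4, h6⟩
        exact ⟨h4, fun j ρ hρ => by rw [← h2 j ρ hρ]; exact h6 j ρ hρ⟩
      · rintro ⟨h4, h6⟩
        exact ⟨h4, fun j ρ hρ => by rw [h2 j ρ hρ]; exact h6 j ρ hρ⟩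
    have key : ∀ g : L ≃ₐ[ℚ] L, g (ι w) = ι w → Fx b g → ∀ j i, j < i →
        t (g * y₀) j i = (v' j i - v j i) + t g j i := by
      intro g hg hFg j i hji
      have hgz : (g * y₀) (ι w) = ι w := by rw [AlgEquiv.mul_apply, hzω, hg]
      apply htu _ _ _ _ hji.ne hgz ((hFz g).2 hFg)
      intro ρ A hρ hA
      have h1 := ht g j i hji.ne hg hFg ρ A hρ hA
      have hlt : j.castSucc < i.castSucc := Fin.castSucc_lt_castSucc_iff.2 hji
      have h2 := hz₂P j.castSucc i.castSucc ρ A hlt ⟨hρ, hA⟩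
      have h2' := hz₁P j.castSucc i.castSucc ρ A hlt.ne ⟨hρ, hA⟩
      have h3 : j.castSucc ≠ Fin.last s ∧ i.castSucc ≠ Fin.last s :=
        ⟨(Fin.castSucc_lt_last j).ne, (Fin.castSucc_lt_last i).ne⟩
      simp only [dif_pos h3, Fin.castPred_castSucc] at h2
      rw [AlgEquiv.mul_apply, hz, AlgEquiv.mul_apply, h2, map_mul, map_pow, hz₁ω, h2', map_mul,
        map_pow, hg, h1, ← mul_assoc, om_add hω3]
    have key₂ : ∀ g : L ≃ₐ[ℚ] L, F₂ g → T (g * y₀) = T g + (y' - y) := by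
      intro g hg
      funext j
      have hgz : F₂ (g * y₀) := (hF₂z g).2 hg
      have e1 : t₂ (g * y₀) j = 2 * (y' j - y j) + t₂ g j := by
        apply htu₂ _ _ _ hgz
        intro ρ A hA
        have h1 := ht₂ g j hg ρ A hA
        rw [AlgEquiv.mul_apply, hz, AlgEquiv.mul_apply, (hz₂M j ρ A hA).1, (hz₁M j ρ A hA).1,
          map_mul, map_pow, hg.1, h1, ← mul_assoc, om_add hω3]
      have e2 : t₂ (c * (g * y₀) * c⁻¹) j = t₂ (c * g * c⁻¹) j + 2 * (y' j - y j) := by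
        apply htu₂ _ _ _ (hF₂c _ c hgz)
        intro ρ A hA
        have h1 := ht₂ (c * g * c⁻¹) j (hF₂c g c hg) ρ A hA
        have h2 : (c * (g * y₀) * c⁻¹) A = c (g (z₁ (z₂ (c⁻¹ A)))) := by
          rw [hz]
          rfl
        have h3 : (c * g * c⁻¹) A = c (g (c⁻¹ A)) := rfl
        rw [h3] at h1
        rw [h2, (hz₂M j ρ A hA).2 c⁻¹ hc', (hz₁M j ρ A hA).2 c⁻¹ hc', map_mul, map_pow, hg.1,
          map_mul, map_pow, hc, h1, ← mul_assoc, ← pow_mul, ← pow_add]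
        congr 1
        apply om_congr hω3
        exact JAU.neg_val _ _
      show t₂ (g * y₀) j + t₂ (c * (g * y₀) * c⁻¹) j =
        t₂ g j + t₂ (c * g * c⁻¹) j + (y' j - y j)
      rw [e1, e2]
      have e3 := JAU.two_mul_two (y' j - y j)
      linear_combination e3
    apply Nat.card_congr
    refine Equiv.subtypeEquiv (Equiv.mulRight y₀) ?_
    intro g
    have hχ : χ (g * y₀) = χ g := by rw [map_mul, hχz, mul_one]
    show (χ g = a ∧ Fx b g ∧ F₂ g ∧ T g = y ∧ ∀ j i, j < i → t g j i = v j i) ↔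
      (χ (g * y₀) = a ∧ Fx b (g * y₀) ∧ F₂ (g * y₀) ∧ T (g * y₀) = y' ∧
        ∀ j i, j < i → t (g * y₀) j i = v' j i)
    rw [hχ, hFz g, hF₂z g]
    constructor
    · rintro ⟨h1, h2, h3, h4, h5⟩
      refine ⟨h1, h2, h3, ?_, fun j i hji => ?_⟩
      · rw [key₂ g h3, h4]
        abel
      · rw [key g (hM g (by rw [h1]; exact ha)) h2 j i hji, h5 j i hji]
        ring
    · rintro ⟨h1, h2, h3, h4, h5⟩
      refine ⟨h1, h2, h3, ?_, fun j i hji => ?_⟩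
      · rw [key₂ g h3] at h4
        funext j
        have h6 := congrFun h4 j
        simp only [Pi.add_apply, Pi.sub_apply] at h6
        linear_combination h6
      · have h6 := h5 j i hji
        rw [key g (hM g (by rw [h1]; exact ha)) h2 j i hji] at h6
        linear_combination h6
  · intro a ha
    choose θ hθ using hG.root
    have hθ0 : ∀ j, θ j ≠ 0 := by
      intro j h0
      have h1 := hθ j
      rw [h0] at h1
      apply hb0 j
      have h2 : ((b j : ℤ) : L) = 0 := by rw [← h1]; norm_num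
      exact_mod_cast h2
    have hex : ∀ (g : L ≃ₐ[ℚ] L) (j : Fin (s + 1)), ∃ u : ZMod 3,
        g (θ j) = ι w ^ u.val * θ j := by
      intro g j
      apply cube_root hG.rel
      rw [← map_pow, hθ j, map_intCast]
    choose uu huu using hex
    have huniq : ∀ (g : L ≃ₐ[ℚ] L) (j : Fin (s + 1)) (u : ZMod 3),
        g (θ j) = ι w ^ u.val * θ j → uu g j = u := by
      intro g j u h
      apply om_zmod_inj hG.rel (hθ0 j)
      rw [← huu g j, h]
    -- criterion for `Fx`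
    have hFu : ∀ g : L ≃ₐ[ℚ] L, g (ι w) = ι w → (Fx b g ↔
        (∀ j : Fin s, uu g j.castSucc = 0) ∧ uu g (Fin.last s) ≠ 0) := by
      intro g hg
      constructor
      · rintro ⟨h1, h2⟩
        refine ⟨fun j => ?_, fun h0 => ?_⟩
        · apply huniq
          rw [h1 j _ (hθ _)]
          simp
        · apply h2 _ (hθ _)
          rw [huu, h0]
          simp
      · rintro ⟨h1, h2⟩
        have h3 : ∀ (j : Fin (s + 1)) (ρ : L), ρ ^ 3 = (b j : L) →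
            g ρ = ι w ^ (uu g j).val * ρ := by
          intro j ρ hρ
          obtain ⟨u, hu⟩ := cube_root hG.rel (θ := θ j) (ρ := ρ) (by rw [hρ, hθ])
          rw [hu, map_mul, map_pow, hg, huu]
          ring
        refine ⟨fun j ρ hρ => ?_, fun ρ hρ h4 => ?_⟩
        · rw [h3 _ ρ hρ, h1 j]
          simp
        · rw [h3 _ ρ hρ] at h4
          have hρ0 : ρ ≠ 0 := by
            intro h0
            rw [h0] at hρ
            apply hb0 (Fin.last s)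
            have h5 : ((b (Fin.last s) : ℤ) : L) = 0 := by rw [← hρ]; norm_num
            exact_mod_cast h5
          apply h2
          apply om_zmod_inj hG.rel hρ0
          rw [h4]
          simp
    have hfib : ∀ w₁ w' : Fin (s + 1) → ZMod 3,
        (univ.filter fun g : L ≃ₐ[ℚ] L => χ g = a ∧ uu g = w₁).card =
        (univ.filter fun g : L ≃ₐ[ℚ] L => χ g = a ∧ uu g = w').card := by
      intro w₁ w'
      obtain ⟨y₀, hzζ, hzρ⟩ := hGKUM (s + 1) b p q p' q' f L ζ (ι w) hSys hG (w' - w₁)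
      obtain ⟨hzω, hχz⟩ := hz1 y₀ hzζ
      have key : ∀ g : L ≃ₐ[ℚ] L, g (ι w) = ι w → uu (g * y₀) = (w' - w₁) + uu g := by
        intro g hg
        funext j
        apply huniq
        rw [AlgEquiv.mul_apply, hzρ j _ (hθ j), map_mul, map_pow, hg, huu, ← mul_assoc,
          om_add hω3]
        rfl
      refine Finset.card_bij (fun g _ => g * y₀) ?_ ?_ ?_
      · intro g hg
        rw [mem_filter] at hg ⊢
        obtain ⟨_, h1, h2⟩ := hg
        refine ⟨mem_univ _, by rw [map_mul, hχz, mul_one, h1], ?_⟩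
        rw [key g (hM g (by rw [h1]; exact ha)), h2]
        abel
      · intro g _ g' _ e
        exact mul_right_cancel e
      · intro g hg
        rw [mem_filter] at hg
        obtain ⟨_, h1, h2⟩ := hg
        have h3 : g * y₀⁻¹ * y₀ = g := inv_mul_cancel_right g y₀
        have h4 : χ (g * y₀⁻¹) = a := by rw [map_mul, map_inv, hχz, inv_one, mul_one, h1]
        refine ⟨g * y₀⁻¹, ?_, h3⟩
        rw [mem_filter]
        refine ⟨mem_univ _, h4, ?_⟩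
        have h5 := key (g * y₀⁻¹) (hM _ (by rw [h4]; exact ha))
        rw [h3, h2] at h5
        funext j
        have h7 := congrFun h5 j
        simp only [Pi.add_apply, Pi.sub_apply] at h7
        linear_combination (-1 : ZMod 3) * h7
    have hsub : ∀ (D : Finset (Fin (s + 1) → ZMod 3)),
        (univ.filter fun g : L ≃ₐ[ℚ] L => χ g = a ∧ uu g ∈ D).card =
        D.card * (univ.filter fun g : L ≃ₐ[ℚ] L => χ g = a ∧ uu g = 0).card := by
      intro D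
      rw [Finset.card_eq_sum_card_fiberwise (f := uu) (t := D)]
      · rw [← smul_eq_mul, ← Finset.sum_const]
        refine Finset.sum_congr rfl fun w₁ hw => ?_
        rw [← hfib w₁ 0, Finset.filter_filter]
        congr 1
        apply Finset.filter_congr
        intro g _
        constructor
        · rintro ⟨⟨h1, _⟩, h2⟩
          exact ⟨h1, h2⟩
        · rintro ⟨h1, h2⟩
          exact ⟨⟨h1, by rw [h2]; exact hw⟩, h2⟩
      · intro g hg
        have h1 := (mem_filter.1 (Finset.mem_coe.1 hg)).2.2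
        exact h1
    have h1 : Nat.card {g : L ≃ₐ[ℚ] L // χ g = a} =
        3 ^ (s + 1) * (univ.filter fun g : L ≃ₐ[ℚ] L => χ g = a ∧ uu g = 0).card := by
      rw [Nat.card_eq_fintype_card, Fintype.card_subtype]
      have h2 := hsub univ
      simp only [mem_univ, and_true] at h2
      rw [h2, Finset.card_univ, Fintype.card_fun, ZMod.card, Fintype.card_fin]
    have h2 : Nat.card {g : L ≃ₐ[ℚ] L // χ g = a ∧ Fx b g} =
        2 * (univ.filter fun g : L ≃ₐ[ℚ] L => χ g = a ∧ uu g = 0).card := by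
      rw [Nat.card_eq_fintype_card, Fintype.card_subtype]
      have h2 := hsub (univ.filter fun w₁ : Fin (s + 1) → ZMod 3 =>
        (∀ j : Fin s, w₁ j.castSucc = 0) ∧ w₁ (Fin.last s) ≠ 0)
      rw [card_good] at h2
      rw [← h2]
      congr 1
      apply Finset.filter_congr
      intro g _
      constructor
      · rintro ⟨h3, h4⟩
        refine ⟨h3, mem_filter.2 ⟨mem_univ _, ?_⟩⟩
        exact (hFu g (hM g (by rw [h3]; exact ha))).1 h4
      · rintro ⟨h3, h4⟩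
        exact ⟨h3, (hFu g (hM g (by rw [h3]; exact ha))).2 (mem_filter.1 h4).2⟩
    rw [h1, h2]
    ring
  · intro q₀ hq hNp hN₀ I g hI hNI hst
    have hfin := GFR.quo_finite hNp hI hNI
    obtain ⟨l, hl, hfr⟩ := GFR.exists_frob_gen (R := ℤ) I g hst
    have hχl := hχF q₀ hq hNp I (g ^ l) hI hNI hfr
    refine ⟨l, hl, hχl, fun hN3 ρ hρ => ?_⟩
    have hb1 : N₁ < q₀ := lt_of_le_of_lt (le_max_left _ _) hN₀
    have hb2 : ∀ r, N₂ r < q₀ := fun r => lt_of_le_of_lt ((Finset.le_sup (mem_univ r)).trans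
      ((le_max_left _ _).trans (le_max_right _ _))) hN₀
    have hb3 : ∀ i, N₃ i < q₀ := fun i => lt_of_le_of_lt ((Finset.le_sup (mem_univ i)).trans
      ((le_max_right _ _).trans (le_max_right _ _))) hN₀
    obtain ⟨h1, h2⟩ := hFr q₀ hNp hb1 hN3 I hI hNI (g ^ l) hfr ρ hρ
    have hM1 : M1 (χ (g ^ l)) := by
      unfold M1
      rw [hχl, ZMod.coe_unitOfCoprime, ZMod.val_natCast, Nat.mod_mod_of_dvd _ h3f]
      exact hN3
    refine ⟨h1, fun hF j i hji r hr => ?_, fun hz => ?_⟩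
    · exact h2 hF j i hji r _ hr (ht (g ^ l) j i hji (hM _ hM1) hF)
    · have h6 : F₂ (g ^ l) := ⟨hM _ hM1, fun i => (hFr1 i q₀ hNp (hb3 i) hN3 I hI hNI (g ^ l) hfr
        ρ hρ (hz i) (fun j => j.elim0)).2.1.1⟩
      refine ⟨h6, fun r ξ ξ' hξ hξ' => ?_⟩
      obtain ⟨_, _, h5⟩ := hFrK r q₀ hNp (hb2 r) hN3 I hI hNI (g ^ l) hfr ρ hρ (hz (α r))
        (fun _ => hz (β r))
      exact h5 c hc 0 ξ ξ' _ _ hξ hξ' (ht₂ (g ^ l) r h6) (ht₂ _ r (hF₂c (g ^ l) c h6))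

end Pool.Agent.PTK
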