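import Pool.Agent.PTK.StM
import Pool.Agent.PTK.JAZ

/-!
# All moments of `3^r` for prime twists: the joint governing field, all classes cubes

`Q = 1 (mod 3)` and all rational classes are cubes modulo `Q`; several base classes.
-/

set_option autoImplicit false

open NumberField IsDedekindDomain Finset
open scoped nonZeroDivisors Pointwise

namespace Pool.Agent.PTK

open Pool.Agent.Lib_helper18 Pool.Agent.Lib_helper18.Eis Pool.Agent.Lib_helper84.Cub
open Pool.Agent.PT Pool.Agent.PTE Pool.Agent.PT3 Pool.Agent.PTL Pool.Agent.PTN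
open Pool.Agent.PT.GALD Pool.Agent.PTE.GALDS

namespace MAZ

/-- the empty family -/
def nil : Fin 0 → Eis := fun j => j.elim0

theorem sys0 {M N : ℕ} {z : Fin M → Eis} {α β : Fin N → Fin M} {P Q P' Q' : Fin N → Eis}
    (hS : SysZ z α β P Q P' Q') (i : Fin M) : SysK (z i) nil nil nil nil nil := by
  classical
  refine ⟨fun c₀ c h hc => ?_, fun j => j.elim0, hS.cz i, fun j => j.elim0⟩
  have h3 : ¬ 3 ∣ c₀ := by
    rcases h with h | ⟨j, _⟩
    · exact h
    · exact j.elim0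
  refine hS.ind (Pi.single i c₀) ⟨i, by rwa [Pi.single_eq_same]⟩ ?_
  obtain ⟨t, ht⟩ := hc
  refine ⟨t, ht.trans ?_⟩
  rw [Finset.univ_eq_empty, Finset.prod_empty, mul_one,
    Finset.prod_eq_single i (fun j _ hj => by rw [Pi.single_eq_of_ne hj, pow_zero])
      (fun h => absurd (Finset.mem_univ i) h), Pi.single_eq_same]

theorem gov0 {M N : ℕ} {z : Fin M → Eis} {α : Fin N → Fin M} {P Q P' Q' : Fin N → Eis}
    {f : ℕ} {L : Type} [Field L] [NumberField L] {ζ : L} {ι : Eis →+* L}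
    (hG : GovZ z α P Q P' Q' f L ζ ι) (i : Fin M) : GovK (z i) nil nil nil nil nil f L ζ ι :=
  ⟨hG.gal, hG.prim, hG.nine, hG.hω, hG.rz i, fun j => j.elim0, fun j => j.elim0,
    fun j => j.elim0⟩

end MAZ

open JAZ in
theorem MAZ_thm (hMZF : Stmt_MZF) (hMC1 : Stmt_MC1) (hMC2 : Stmt_MC2) (hGTZ : Stmt_GTZ)
    (hGFZ : Stmt_GFZ) (hGTU : Stmt_GTU) (hGFKU : Stmt_GFKU) (hGCHI : GCHI) (hGKUM : GKUM) :
    Stmt_MAZ := by
  classical
  intro s b p q p' q' M N z α β P Q P' Q' f hSys hSysZ hf h9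
  obtain ⟨L, hF, hN, ζ, ι, hG⟩ := hMZF s M N b p q p' q' z α β P Q P' Q' f hSys hSysZ hf h9
  have hGp := hG.plus
  have hGm := hG.minus
  have := hGp.gal
  obtain ⟨χ, hχs, hχζ, hχF⟩ := hGCHI L f ζ hf hGp.prim
  obtain ⟨Nz, hFrZ⟩ := hGFZ s b p q p' q' f L ζ (ι w) hSys hGp
  have hFr1 := fun i => hGFKU 0 (z i) MAZ.nil MAZ.nil MAZ.nil MAZ.nil MAZ.nil f L ζ ι
    (MAZ.sys0 hSysZ i) (MAZ.gov0 hGm i)
  choose N₁ hFr₁ using hFr1
  have hFr2 := fun r => hGFKU 1 (z (α r)) (fun _ => z (β r)) (fun _ => P r) (fun _ => Q r)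
    (fun _ => P' r) (fun _ => Q' r) f L ζ ι (hSysZ.one r) (hGm.one r)
  choose N₂ hFr₂ using hFr2
  have hU := fun r => hGTU 1 (z (α r)) (fun _ => z (β r)) (fun _ => P r) (fun _ => Q r)
    (fun _ => P' r) (fun _ => Q' r) f L ζ ι (hSysZ.one r) (hGm.one r)
  have hU0 := fun i => hGTU 0 (z i) MAZ.nil MAZ.nil MAZ.nil MAZ.nil MAZ.nil f L ζ ι
    (MAZ.sys0 hSysZ i) (MAZ.gov0 hGm i)
  obtain ⟨hZ0, hZ⟩ := hGTZ s b p q p' q' f L ζ (ι w) hSys hGp
  have hω3 : ι w ^ 3 = 1 := GC.om3 (GCK.om ι)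
  have hf1 : 1 < f := by
    obtain ⟨c, hc⟩ := h9
    omega
  have h3f : 3 ∣ f := (by norm_num : (3 : ℕ) ∣ 9).trans h9
  have hfz : NeZero f := ⟨hf.ne'⟩
  -- action on ω
  have hωχ : ∀ g : L ≃ₐ[ℚ] L, g (ι w) = ι w ^ ((χ g : ZMod f)).val := by
    intro g
    rw [hGm.hω, map_pow, hχζ g, ← pow_mul, mul_comm, pow_mul, ← hGm.hω]
  have hM : ∀ g : L ≃ₐ[ℚ] L, M1 (χ g) → g (ι w) = ι w := by
    intro g hg
    rw [hωχ g]
    conv_rhs => rw [← pow_one (ι w)]
    apply om_congr hω3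
    unfold M1 at hg
    omega
  obtain ⟨c, hc⟩ : ∃ c : L ≃ₐ[ℚ] L, c (ι w) = ι w ^ 2 := by
    obtain ⟨c, hc⟩ := hχs (-1)
    refine ⟨c, ?_⟩
    rw [hωχ c, hc, neg_one_val hf1]
    apply om_congr hω3
    omega
  have hz1 : ∀ z : L ≃ₐ[ℚ] L, z ζ = ζ → z (ι w) = ι w ∧ χ z = 1 := by
    intro z hzζ
    refine ⟨by rw [hGm.hω, map_pow, hzζ], ?_⟩
    have h1 := hχζ z
    rw [hzζ] at h1
    have h2 : ((χ z : ZMod f)).val = 1 := by
      apply hGp.prim.pow_inj (ZMod.val_lt _) hf1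
      rw [← h1, pow_one]
    apply Units.ext
    have h3 := ZMod.natCast_zmod_val (χ z : ZMod f)
    rw [h2] at h3
    rw [← h3]
    simp
  have hb0 : ∀ j, b j ≠ 0 := PTE.GFRS.ne_zero hSys
  -- the class of the plus part
  let tt : (L ≃ₐ[ℚ] L) → Fin s → Fin s → ZMod 3 := fun g j i =>
    if h : j ≠ i ∧ F0 b ι g then ((hZ j i h.1).1 g h.2.1 h.2.2).choose else 0
  have htt : ∀ (g : L ≃ₐ[ℚ] L) (j i : Fin s), j ≠ i → F0 b ι g →
      IsTS b p q p' q' (ι w) g j i (tt g j i) := by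
    intro g j i hji hg
    have h : j ≠ i ∧ F0 b ι g := ⟨hji, hg⟩
    have e : tt g j i = ((hZ j i h.1).1 g h.2.1 h.2.2).choose := dif_pos h
    rw [e]
    exact ((hZ j i h.1).1 g h.2.1 h.2.2).choose_spec.1
  have httu : ∀ (g : L ≃ₐ[ℚ] L) (j i : Fin s) (a : ZMod 3), j ≠ i → F0 b ι g →
      IsTS b p q p' q' (ι w) g j i a → tt g j i = a := by
    intro g j i a hji hg ha
    exact ((hZ j i hji).1 g hg.1 hg.2).unique (htt g j i hji hg) ha
  -- the class of the minus part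
  let F2 : (L ≃ₐ[ℚ] L) → Prop := fun g =>
    g (ι w) = ι w ∧ ∀ (i : Fin M) (ρ : L), ρ ^ 3 = ι (z i) → g ρ = ρ
  have hFU : ∀ (g : L ≃ₐ[ℚ] L) (r : Fin N), F2 g →
      FxU (z (α r)) (fun _ : Fin 1 => z (β r)) ι g := fun g r hg =>
    ⟨hg.2 (α r), fun _ => hg.2 (β r)⟩
  let t : (L ≃ₐ[ℚ] L) → Fin N → ZMod 3 := fun g r =>
    if h : F2 g then (((hU r).2.2 0).1 g h.1 (hFU g r h)).choose else 0
  have ht : ∀ (g : L ≃ₐ[ℚ] L) (r : Fin N), F2 g →
      IsTU (z (α r)) (fun _ : Fin 1 => P r) (fun _ => Q r) (fun _ => P' r) (fun _ => Q' r)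
        ι g 0 (t g r) := by
    intro g r h
    have e : t g r = (((hU r).2.2 0).1 g h.1 (hFU g r h)).choose := dif_pos h
    rw [e]
    exact (((hU r).2.2 0).1 g h.1 (hFU g r h)).choose_spec.1
  have htu : ∀ (g : L ≃ₐ[ℚ] L) (r : Fin N) (a : ZMod 3), F2 g →
      IsTU (z (α r)) (fun _ : Fin 1 => P r) (fun _ => Q r) (fun _ => P' r) (fun _ => Q' r)
        ι g 0 a → t g r = a := by
    intro g r a h ha
    exact (((hU r).2.2 0).1 g h.1 (hFU g r h)).unique (ht g r h) ha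
  let T : (L ≃ₐ[ℚ] L) → Fin N → ZMod 3 := fun g r => t g r + t (c * g * c⁻¹) r
  have hF2c : ∀ g τ : L ≃ₐ[ℚ] L, F2 g → F2 (τ * g * τ⁻¹) := fun g τ hg =>
    ⟨conj_fix τ hg.1, fun i => ((hU0 i).1 g τ hg.1 ⟨hg.2 i, fun j => j.elim0⟩).1⟩
  have hF2p : ∀ (g : L ≃ₐ[ℚ] L) (l : ℕ), F2 g → F2 (g ^ l) := fun g l hg =>
    ⟨pow_pt hg.1 l, fun i ρ hρ => pow_pt (hg.2 i ρ hρ) l⟩
  have htc : ∀ (g σ : L ≃ₐ[ℚ] L) (r : Fin N), F2 g → σ (ι w) = ι w →
      t (σ * g * σ⁻¹) r = t g r := fun g σ r hg hσ =>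
    htu _ _ _ (hF2c g σ hg) (((hU r).2.2 0).2.1 g σ _ hg.1 (hFU g r hg) hσ (ht g r hg))
  have htp : ∀ (g : L ≃ₐ[ℚ] L) (l : ℕ) (r : Fin N), F2 g → t (g ^ l) r = l * t g r :=
    fun g l r hg => htu _ _ _ (hF2p g l hg) (((hU r).2.2 0).2.2 g _ l hg.1 (ht g r hg))
  -- the bound
  have hB1 : ∀ i, N₁ i ≤ ∑ i, N₁ i := fun i =>
    Finset.single_le_sum (f := N₁) (fun _ _ => Nat.zero_le _) (Finset.mem_univ i)
  have hB2 : ∀ r, N₂ r ≤ ∑ r, N₂ r := fun r =>
    Finset.single_le_sum (f := N₂) (fun _ _ => Nat.zero_le _) (Finset.mem_univ r)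
  refine ⟨L, hF, hN, hGp.gal, χ, F0 b ι, tt, F2, T, Nz + ∑ i, N₁ i + ∑ r, N₂ r, hχs,
    fun g τ _ h => ⟨h.conj τ, fun j i hji => ?_⟩, fun g l _ h => ⟨h.pow l, fun j i hji => ?_⟩,
    ?_, ?_, ?_, ?_, ?_⟩
  · exact httu _ _ _ _ hji (h.conj τ) ((hZ j i hji).2.1 g τ _ h.1 h.2 (htt g j i hji h))
  · exact httu _ _ _ _ hji (h.pow l) ((hZ j i hji).2.2 g _ l h.1 (htt g j i hji h))
  · intro g τ _ hg
    refine ⟨hF2c g τ hg, funext fun j => ?_⟩
    show t (τ * g * τ⁻¹) j + t (c * (τ * g * τ⁻¹) * c⁻¹) j = t g j + t (c * g * c⁻¹) j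
    rcases GAK.cases_om ι τ with hτ | hτ
    · have e : c * (τ * g * τ⁻¹) * c⁻¹ =
          (c * τ * c⁻¹) * (c * g * c⁻¹) * (c * τ * c⁻¹)⁻¹ := by group
      rw [e, htc g τ j hg hτ, htc _ _ j (hF2c g c hg) (conj_fix c hτ)]
    · have e1 : τ * g * τ⁻¹ = (τ * c⁻¹) * (c * g * c⁻¹) * (τ * c⁻¹)⁻¹ := by group
      have e2 : c * (τ * g * τ⁻¹) * c⁻¹ = (c * τ) * g * (c * τ)⁻¹ := by group
      have h1 : (τ * c⁻¹) (ι w) = ι w := by
        rw [AlgEquiv.mul_apply, inv_sq hc, map_pow, hτ, GAK.om4]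
      have h2 : (c * τ) (ι w) = ι w := by
        rw [AlgEquiv.mul_apply, hτ, map_pow, hc, GAK.om4]
      rw [e2, htc g _ j hg h2, e1, htc _ _ j (hF2c g c hg) h1, add_comm]
  · intro g l _ hg
    refine ⟨hF2p g l hg, funext fun j => ?_⟩
    show t (g ^ l) j + t (c * g ^ l * c⁻¹) j = (l : ZMod 3) • (t g j + t (c * g * c⁻¹) j)
    have e : c * g ^ l * c⁻¹ = (c * g * c⁻¹) ^ l := by rw [conj_pow]
    rw [e, htp g l j hg, htp _ l j (hF2c g c hg), smul_eq_mul]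
    ring
  · intro a v v' y y' ha
    obtain ⟨z₁, hz₁, hz₁P, hz₁M⟩ := hMC1 s M N b p q p' q' z α β P Q P' Q' f L ζ ι hSys hSysZ hG
      (fun j => 2 * (y' j - y j))
    obtain ⟨z₂, hz₂, hz₂P, hz₂M⟩ := hMC2 s M N b p q p' q' z α β P Q P' Q' f L ζ ι hSys hSysZ hG
      (fun j i => v' j i - v j i)
    obtain ⟨hz₁ω, hχz₁⟩ := hz1 z₁ hz₁.ze
    obtain ⟨hz₂ω, hχz₂⟩ := hz1 z₂ hz₂.ze
    set zz := z₁ * z₂ with hzz
    have hzω : zz (ι w) = ι w := by rw [hzz, AlgEquiv.mul_apply, hz₂ω, hz₁ω]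
    have hχz : χ zz = 1 := by rw [hzz, map_mul, hχz₁, hχz₂, mul_one]
    have hzb : ∀ (j : Fin s) (ρ : L), ρ ^ 3 = (b j : L) → zz ρ = ρ := by
      intro j ρ hρ
      rw [hzz, AlgEquiv.mul_apply, hz₂.rb j ρ hρ, hz₁.rb j ρ hρ]
    have hzr : ∀ (i : Fin M) (ρ : L), ρ ^ 3 = ι (z i) → zz ρ = ρ := by
      intro i ρ hρ
      rw [hzz, AlgEquiv.mul_apply, hz₂.rz i ρ hρ, hz₁.rz i ρ hρ]
    have hF0z : ∀ g : L ≃ₐ[ℚ] L, F0 b ι (g * zz) ↔ F0 b ι g := by
      intro g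
      have h1 : ∀ (j : Fin s) (ρ : L), ρ ^ 3 = (b j : L) → (g * zz) ρ = g ρ := by
        intro j ρ hρ
        rw [AlgEquiv.mul_apply, hzb j ρ hρ]
      have h2 : (g * zz) (ι w) = g (ι w) := by rw [AlgEquiv.mul_apply, hzω]
      unfold F0
      rw [h2]
      refine and_congr_right fun _ => ?_
      constructor
      · intro h j ρ hρ
        rw [← h1 j ρ hρ]
        exact h j ρ hρ
      · intro h j ρ hρ
        rw [h1 j ρ hρ]
        exact h j ρ hρ
    have hF2z : ∀ g : L ≃ₐ[ℚ] L, F2 (g * zz) ↔ F2 g := by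
      intro g
      have h1 : ∀ (i : Fin M) (ρ : L), ρ ^ 3 = ι (z i) → (g * zz) ρ = g ρ := by
        intro i ρ hρ
        rw [AlgEquiv.mul_apply, hzr i ρ hρ]
      have h2 : (g * zz) (ι w) = g (ι w) := by rw [AlgEquiv.mul_apply, hzω]
      show ((g * zz) (ι w) = ι w ∧ ∀ (i : Fin M) (ρ : L), ρ ^ 3 = ι (z i) → (g * zz) ρ = ρ) ↔
        (g (ι w) = ι w ∧ ∀ (i : Fin M) (ρ : L), ρ ^ 3 = ι (z i) → g ρ = ρ)
      rw [h2]
      refine and_congr_right fun _ => ?_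
      constructor
      · intro h i ρ hρ
        rw [← h1 i ρ hρ]
        exact h i ρ hρ
      · intro h i ρ hρ
        rw [h1 i ρ hρ]
        exact h i ρ hρ
    have key0 : ∀ g : L ≃ₐ[ℚ] L, F0 b ι g → ∀ j i, j < i →
        tt (g * zz) j i = (v' j i - v j i) + tt g j i := by
      intro g hg j i hji
      apply httu _ _ _ _ hji.ne ((hF0z g).2 hg)
      intro ρ A hρ hA
      have h1 := htt g j i hji.ne hg ρ A hρ hA
      have h2 := hz₂P j i ρ A hji ⟨hρ, hA⟩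
      have h3 := hz₁P j i ρ A hji.ne ⟨hρ, hA⟩
      rw [AlgEquiv.mul_apply, hzz, AlgEquiv.mul_apply, h2, map_mul, map_pow, hz₁ω, h3, map_mul,
        map_pow, hg.1, h1, ← mul_assoc, om_add hω3]
    have key : ∀ g : L ≃ₐ[ℚ] L, F2 g → ∀ j, T (g * zz) j = (y' j - y j) + T g j := by
      intro g hg j
      show t (g * zz) j + t (c * (g * zz) * c⁻¹) j =
        (y' j - y j) + (t g j + t (c * g * c⁻¹) j)
      have e1 : t (g * zz) j = 2 * (y' j - y j) + t g j := by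
        apply htu _ _ _ ((hF2z g).2 hg)
        intro ρ A hA
        have h1 := ht g j hg ρ A hA
        rw [AlgEquiv.mul_apply, hzz, AlgEquiv.mul_apply, (hz₂M j ρ A hA).1, (hz₁M j ρ A hA).1,
          map_mul, map_pow, hg.1, h1, ← mul_assoc, om_add hω3]
      have hg' := hF2c g c hg
      have e2 : t (c * (g * zz) * c⁻¹) j = 2 * (y' j - y j) + t (c * g * c⁻¹) j := by
        apply htu _ _ _ (hF2c _ c ((hF2z g).2 hg))
        intro ρ A hA
        have h0 : zz (c⁻¹ A) = ι w ^ (-(2 * (y' j - y j))).val * c⁻¹ A := by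
          rw [hzz, AlgEquiv.mul_apply, (hz₂M j ρ A hA).2 c⁻¹ (inv_sq hc),
            (hz₁M j ρ A hA).2 c⁻¹ (inv_sq hc)]
        have h1 := conj_z hc h0
        have h2 : c * (g * zz) * c⁻¹ = (c * g * c⁻¹) * (c * zz * c⁻¹) := by group
        rw [h2, AlgEquiv.mul_apply, h1, map_mul, map_pow, hg'.1,
          ht _ j hg' ρ A hA, ← mul_assoc, om_add hω3]
      rw [e1, e2]
      linear_combination (y' j - y j) * three_card
    apply Nat.card_congr
    refine Equiv.subtypeEquiv (Equiv.mulRight zz) ?_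
    intro g
    have hχ : χ (g * zz) = χ g := by rw [map_mul, hχz, mul_one]
    show (χ g = a ∧ F0 b ι g ∧ F2 g ∧ T g = y ∧ ∀ j i, j < i → tt g j i = v j i) ↔
      (χ (g * zz) = a ∧ F0 b ι (g * zz) ∧ F2 (g * zz) ∧ T (g * zz) = y' ∧
        ∀ j i, j < i → tt (g * zz) j i = v' j i)
    rw [hχ, hF0z g, hF2z g]
    refine and_congr_right fun _ => and_congr_right fun hg0 => and_congr_right fun hg =>
      and_congr ?_ ?_
    · constructor
      · intro h
        funext j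
        rw [key g hg j, h]
        ring
      · intro h
        funext j
        have h4 := congrFun h j
        rw [key g hg j] at h4
        linear_combination h4
    · constructor
      · intro h j i hji
        rw [key0 g hg0 j i hji, h j i hji]
        ring
      · intro h j i hji
        have h4 := h j i hji
        rw [key0 g hg0 j i hji] at h4
        linear_combination h4
  · intro a ha
    choose θ hθ using hGp.root
    have hθ0 : ∀ j, θ j ≠ 0 := by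
      intro j h0
      have h1 := hθ j
      rw [h0] at h1
      apply hb0 j
      have h2 : ((b j : ℤ) : L) = 0 := by rw [← h1]; norm_num
      exact_mod_cast h2
    have hex : ∀ (g : L ≃ₐ[ℚ] L) (j : Fin s), ∃ u : ZMod 3, g (θ j) = ι w ^ u.val * θ j := by
      intro g j
      apply cube_root hGp.rel
      rw [← map_pow, hθ j, map_intCast]
    choose uu huu using hex
    have huniq : ∀ (g : L ≃ₐ[ℚ] L) (j : Fin s) (u : ZMod 3), g (θ j) = ι w ^ u.val * θ j →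
        uu g j = u := by
      intro g j u h
      apply om_zmod_inj hGp.rel (hθ0 j)
      rw [← huu g j, h]
    -- criterion for `F0`
    have hFu : ∀ g : L ≃ₐ[ℚ] L, g (ι w) = ι w → (F0 b ι g ↔ uu g = 0) := by
      intro g hg
      constructor
      · rintro ⟨_, h1⟩
        funext j
        apply huniq
        rw [h1 j _ (hθ _)]
        simp
      · intro h1
        refine ⟨hg, fun j ρ hρ => ?_⟩
        obtain ⟨u, hu⟩ := cube_root hGp.rel (θ := θ j) (ρ := ρ) (by rw [hρ, hθ])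
        rw [hu, map_mul, map_pow, hg, huu, h1]
        simp
    have hfib : ∀ w w' : Fin s → ZMod 3,
        (univ.filter fun g : L ≃ₐ[ℚ] L => χ g = a ∧ uu g = w).card =
        (univ.filter fun g : L ≃ₐ[ℚ] L => χ g = a ∧ uu g = w').card := by
      intro v v'
      obtain ⟨z, hzζ, hzρ⟩ := hGKUM s b p q p' q' f L ζ (ι w) hSys hGp (v' - v)
      obtain ⟨hzω, hχz⟩ := hz1 z hzζ
      have key : ∀ g : L ≃ₐ[ℚ] L, g (ι w) = ι w → uu (g * z) = (v' - v) + uu g := by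
        intro g hg
        funext j
        apply huniq
        rw [AlgEquiv.mul_apply, hzρ j _ (hθ j), map_mul, map_pow, hg, huu, ← mul_assoc,
          om_add hω3]
        rfl
      refine Finset.card_bij (fun g _ => g * z) ?_ ?_ ?_
      · intro g hg
        rw [mem_filter] at hg ⊢
        obtain ⟨_, h1, h2⟩ := hg
        refine ⟨mem_univ _, by rw [map_mul, hχz, mul_one, h1], ?_⟩
        rw [key g (hM g (by rw [h1]; exact ha)), h2]
        abel
      · intro g _ g' _ e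
        exact mul_right_cancel e
      · intro g hg
        rw [mem_filter] at hg
        obtain ⟨_, h1, h2⟩ := hg
        have h3 : g * z⁻¹ * z = g := inv_mul_cancel_right g z
        have h4 : χ (g * z⁻¹) = a := by rw [map_mul, map_inv, hχz, inv_one, mul_one, h1]
        refine ⟨g * z⁻¹, ?_, h3⟩
        rw [mem_filter]
        refine ⟨mem_univ _, h4, ?_⟩
        have h5 := key (g * z⁻¹) (hM _ (by rw [h4]; exact ha))
        rw [h3, h2] at h5
        funext j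
        have h7 := congrFun h5 j
        simp only [Pi.add_apply, Pi.sub_apply] at h7
        linear_combination (-1 : ZMod 3) * h7
    have h1 : Nat.card {g : L ≃ₐ[ℚ] L // χ g = a} =
        3 ^ s * (univ.filter fun g : L ≃ₐ[ℚ] L => χ g = a ∧ uu g = 0).card := by
      rw [Nat.card_eq_fintype_card, Fintype.card_subtype,
        Finset.card_eq_sum_card_fiberwise (f := uu) (t := univ) (fun _ _ => by simp)]
      have h2 : ∀ v ∈ (univ : Finset (Fin s → ZMod 3)),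
          (Finset.filter (fun g => uu g = v) (univ.filter fun g : L ≃ₐ[ℚ] L => χ g = a)).card =
          (univ.filter fun g : L ≃ₐ[ℚ] L => χ g = a ∧ uu g = 0).card := by
        intro v _
        rw [Finset.filter_filter]
        exact hfib v 0
      rw [Finset.sum_congr rfl h2, Finset.sum_const, smul_eq_mul, Finset.card_univ,
        Fintype.card_fun, ZMod.card, Fintype.card_fin]
    have h2 : Nat.card {g : L ≃ₐ[ℚ] L // χ g = a ∧ F0 b ι g} =
        (univ.filter fun g : L ≃ₐ[ℚ] L => χ g = a ∧ uu g = 0).card := by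
      rw [Nat.card_eq_fintype_card, Fintype.card_subtype]
      congr 1
      apply Finset.filter_congr
      intro g _
      refine and_congr_right fun h3 => ?_
      exact hFu g (hM g (by rw [h3]; exact ha))
    rw [h1, h2]
  · intro q₀ hq hq₀ hN₀ I g hI hNI hst
    have hfin := GFR.quo_finite hq₀ hI hNI
    obtain ⟨l, hl, hfr⟩ := GFR.exists_frob_gen (R := ℤ) I g hst
    have hχl := hχF q₀ hq hq₀ I (g ^ l) hI hNI hfr
    refine ⟨l, hl, hχl, fun hN3 ρ hρ => ⟨fun hsym => ?_, fun hsym => ?_⟩⟩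
    · -- the rational classes
      obtain ⟨h1, h2, h3⟩ := hFrZ q₀ hq₀ (by omega) hN3 I hI hNI (g ^ l) hfr ρ hρ hsym
      have h4 : F0 b ι (g ^ l) := ⟨h1, h2⟩
      exact ⟨h4, fun j i hji r hr => h3 j i hji r _ hr (htt _ j i hji h4)⟩
    · have hM1 : M1 (χ (g ^ l)) := by
        unfold M1
        rw [hχl, ZMod.coe_unitOfCoprime, ZMod.val_natCast, Nat.mod_mod_of_dvd _ h3f]
        exact hN3
      have h4 : F2 (g ^ l) := by
        refine ⟨hM _ hM1, fun i => ?_⟩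
        have h5 := hB1 i
        exact (hFr₁ i q₀ hq₀ (by omega) hN3 I hI hNI (g ^ l) hfr ρ hρ (hsym i)
          (fun j => j.elim0)).2.1.1
      refine ⟨h4, fun r ξ ξ' hξ hξ' => ?_⟩
      have h5 := hB2 r
      exact (hFr₂ r q₀ hq₀ (by omega) hN3 I hI hNI (g ^ l) hfr ρ hρ (hsym (α r))
        (fun _ => hsym (β r))).2.2 c hc 0 ξ ξ' _ _ hξ hξ' (ht _ r h4)
        (ht _ r (hF2c _ c h4))

end Pool.Agent.PTK
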