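import Pool.Agent.PTK.StM
import Pool.Agent.PTK.JC1

/-!
# All moments of `3^r`: commutators for the minus part which are trivial on the plus part
-/

set_option autoImplicit false

open NumberField IsDedekindDomain Finset
open scoped nonZeroDivisors Pointwise

namespace Pool.Agent.PTK

open Pool.Agent.Lib_helper18 Pool.Agent.Lib_helper18.Eis Pool.Agent.Lib_helper84.Cub
open Pool.Agent.PT Pool.Agent.PTE Pool.Agent.PT3 Pool.Agent.PTL Pool.Agent.PTN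

namespace MC1

variable {L : Type} [Field L] [NumberField L]

/-- the action of an automorphism on the roots of all classes -/
def Act {M : ℕ} (ι : Eis →+* L) (z : Fin M → Eis) (a : Fin M → ZMod 3) (g : L ≃ₐ[ℚ] L) : Prop :=
  g (ι w) = ι w ∧ ∀ (i : Fin M) (ρ : L), ρ ^ 3 = ι (z i) → g ρ = ι w ^ (a i).val * ρ

theorem cjAct {M : ℕ} {ι : Eis →+* L} {z : Fin M → Eis} {a : Fin M → ZMod 3}
    {g σ : L ≃ₐ[ℚ] L} (hg : g (ι w) = ι w ^ 2) (hz : ∀ i, ∃ t : Eis, z i * conj (z i) = t ^ 3)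
    (h : Act ι z a σ) : Act ι z a (g⁻¹ * σ * g) := by
  refine ⟨?_, fun i ρ hρ => ?_⟩
  · have h1 : σ (ι w ^ 2) = ι w ^ 2 := by rw [map_pow, h.1]
    rw [AlgEquiv.mul_apply, AlgEquiv.mul_apply, hg, h1, ← hg, ← AlgEquiv.mul_apply,
      inv_mul_cancel]
    rfl
  · obtain ⟨t, ht⟩ := hz i
    exact GCK.cjr hg h.1 ht hρ (h.2 i ρ hρ)

theorem Act.fix {M : ℕ} {ι : Eis →+* L} {z : Fin M → Eis} {k : Fin M} {c : ZMod 3}
    {g : L ≃ₐ[ℚ] L} (h : Act ι z (Pi.single k c) g) {i : Fin M} (hi : i ≠ k) {ρ : L}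
    (hρ : ρ ^ 3 = ι (z i)) : g ρ = ρ := by
  rw [h.2 i ρ hρ, Pi.single_eq_of_ne hi, ZMod.val_zero, pow_zero, one_mul]

theorem Act.mov {M : ℕ} {ι : Eis →+* L} {z : Fin M → Eis} {k : Fin M}
    {g : L ≃ₐ[ℚ] L} (h : Act ι z (Pi.single k 1) g) {ρ : L}
    (hρ : ρ ^ 3 = ι (z k)) : g ρ = ι w * ρ := by
  rw [h.2 k ρ hρ, Pi.single_eq_same, show (1 : ZMod 3).val = 1 from rfl, pow_one]

/-- the commutator of the index `r` -/
theorem com {M N : ℕ} {ι : Eis →+* L} {z : Fin M → Eis} {α β : Fin N → Fin M}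
    {P Q P' Q' : Fin N → Eis} (hS : SysZ z α β P Q P' Q')
    (hnz : ∀ r, GCK.Nz ι (z (α r)) (P r) (Q r) (P' r) (Q' r))
    (hr : ∀ i, ∃ θ : L, θ ^ 3 = ι (z i)) {σ τ : L ≃ₐ[ℚ] L} (r : Fin N)
    (hσ : Act ι z (Pi.single (α r) 1) σ) (hτ : Act ι z (Pi.single (β r) 1) τ)
    (r' : Fin N) (ρ A : L) (hA : PrW z α P Q P' Q' ι r' ρ A) :
    ((σ * τ)⁻¹ * (τ * σ)) A = ι w ^ ((Pi.single r 1 : Fin N → ZMod 3) r').val * A := by
  obtain ⟨hρ, hA⟩ := hA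
  obtain ⟨θ, hθ⟩ := hr (β r')
  have hlt := hS.lt r
  have hlt' := hS.lt r'
  by_cases hrr : r' = r
  · subst hrr
    rw [Pi.single_eq_same, show (1 : ZMod 3).val = 1 from rfl]
    apply GC.comm_apply σ τ _ hσ.1 hτ.1
    refine GCK.mv (hnz r') σ τ _ hρ hθ (hS.sol r') hσ.1 hτ.1 (hσ.mov hρ)
      (hτ.fix (ne_of_lt hlt) hρ) ?_ hA
    rw [hτ.mov hθ, pow_one]
  · rw [Pi.single_eq_of_ne hrr, ZMod.val_zero]
    apply GC.comm_apply σ τ _ hσ.1 hτ.1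
    by_cases h1 : α r' = α r
    · have h2 : β r' ≠ β r := fun h => hrr (hS.inj r' r h1 h)
      refine GCK.mv (hnz r') σ τ _ hρ hθ (hS.sol r') hσ.1 hτ.1 ?_
        (hτ.fix (by rw [h1]; exact ne_of_lt hlt) hρ) ?_ hA
      · rw [h1] at hρ
        exact hσ.mov hρ
      · rw [hτ.fix h2 hθ, pow_zero, one_mul]
    · by_cases h3 : α r' = β r
      · have h4 : β r' ≠ α r := by
          intro h
          rw [h, h3] at hlt'
          exact absurd (hlt.trans hlt') (lt_irrefl _)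
        have h5 := GCK.mv (hnz r') τ σ 0 hρ hθ (hS.sol r') hτ.1 hσ.1
          (by rw [h3] at hρ; exact hτ.mov hρ) (hσ.fix h1 hρ)
          (by rw [hσ.fix h4 hθ, pow_zero, one_mul]) hA
        rw [pow_zero, one_mul] at h5 ⊢
        exact h5.symm
      · obtain ⟨e, he⟩ := GCK.fixA (hnz r') σ hρ hσ.1 (hσ.fix h1 hρ) hA
        obtain ⟨e', he'⟩ := GCK.fixA (hnz r') τ hρ hτ.1 (hτ.fix h3 hρ) hA
        rw [he, he', map_mul, map_mul, map_pow, map_pow, hσ.1, hτ.1, he, he']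
        ring

/-- the relation between the automorphism and the vector -/
def R {s M N : ℕ} (b : Fin s → ℤ) (p q p' q' : Fin s → Fin s → ℤ)
    (z : Fin M → Eis) (α : Fin N → Fin M) (P Q P' Q' : Fin N → Eis) (ζ : L) (ι : Eis →+* L)
    (v : Fin N → ZMod 3) (g : L ≃ₐ[ℚ] L) : Prop :=
  FxW b z ζ ι g ∧
    (∀ (j i : Fin s) (ρ A : L), j ≠ i → PrP b p q p' q' ι j i ρ A → g A = A) ∧
    ∀ (r : Fin N) (ρ A : L), PrW z α P Q P' Q' ι r ρ A → g A = ι w ^ (v r).val * A ∧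
      ∀ τ : L ≃ₐ[ℚ] L, τ (ι w) = ι w ^ 2 → g (τ A) = ι w ^ (- v r).val * τ A

section rel

variable {s M N : ℕ} {b : Fin s → ℤ} {p q p' q' : Fin s → Fin s → ℤ}
    {z : Fin M → Eis} {α : Fin N → Fin M} {P Q P' Q' : Fin N → Eis} {ζ : L} {ι : Eis →+* L}

theorem R_zero : R b p q p' q' z α P Q P' Q' ζ ι 0 (1 : L ≃ₐ[ℚ] L) := by
  refine ⟨⟨rfl, fun _ _ _ => rfl, fun _ _ _ => rfl⟩, fun _ _ _ _ _ _ => rfl,
    fun r ρ A _ => ⟨?_, fun τ _ => ?_⟩⟩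
  · rw [Pi.zero_apply, ZMod.val_zero, pow_zero, one_mul]
    rfl
  · rw [Pi.zero_apply, neg_zero, ZMod.val_zero, pow_zero, one_mul]
    rfl

theorem R_add (hζ : ∀ g : L ≃ₐ[ℚ] L, g ζ = ζ → g (ι w) = ι w)
    {v v' : Fin N → ZMod 3} {g g' : L ≃ₐ[ℚ] L}
    (h : R b p q p' q' z α P Q P' Q' ζ ι v g) (h' : R b p q p' q' z α P Q P' Q' ζ ι v' g') :
    R b p q p' q' z α P Q P' Q' ζ ι (v + v') (g * g') := by
  have hω := GC.om3 (GCK.om ι)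
  refine ⟨⟨?_, fun i ρ hρ => ?_, fun i ρ hρ => ?_⟩, fun j i ρ A hji hA => ?_,
    fun r ρ A hA => ⟨?_, fun τ hτ => ?_⟩⟩
  · rw [AlgEquiv.mul_apply, h'.1.ze, h.1.ze]
  · rw [AlgEquiv.mul_apply, h'.1.rz i ρ hρ, h.1.rz i ρ hρ]
  · rw [AlgEquiv.mul_apply, h'.1.rb i ρ hρ, h.1.rb i ρ hρ]
  · rw [AlgEquiv.mul_apply, h'.2.1 j i ρ A hji hA, h.2.1 j i ρ A hji hA]
  · rw [AlgEquiv.mul_apply, (h'.2.2 r ρ A hA).1, map_mul, map_pow, hζ g h.1.ze,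
      (h.2.2 r ρ A hA).1, Pi.add_apply, GC.pow_val_add hω]
    ring
  · rw [AlgEquiv.mul_apply, (h'.2.2 r ρ A hA).2 τ hτ, map_mul, map_pow, hζ g h.1.ze,
      (h.2.2 r ρ A hA).2 τ hτ, Pi.add_apply, neg_add, GC.pow_val_add hω]
    ring

theorem all (hζ : ∀ g : L ≃ₐ[ℚ] L, g ζ = ζ → g (ι w) = ι w)
    (hel : ∀ r : Fin N, ∃ g : L ≃ₐ[ℚ] L,
      R b p q p' q' z α P Q P' Q' ζ ι (Pi.single r 1) g)
    (v : Fin N → ZMod 3) : ∃ g : L ≃ₐ[ℚ] L, R b p q p' q' z α P Q P' Q' ζ ι v g := by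
  let S : AddSubmonoid (Fin N → ZMod 3) :=
    { carrier := {v | ∃ g : L ≃ₐ[ℚ] L, R b p q p' q' z α P Q P' Q' ζ ι v g}
      zero_mem' := ⟨1, R_zero⟩
      add_mem' := by
        rintro v v' ⟨g, hg⟩ ⟨g', hg'⟩
        exact ⟨g * g', R_add hζ hg hg'⟩ }
  have h1 : ∀ r : Fin N, (Pi.single r (v r) : Fin N → ZMod 3) ∈ S := by
    intro r
    have h2 : (Pi.single r (v r) : Fin N → ZMod 3) =
        (v r).val • (Pi.single r 1 : Fin N → ZMod 3) := by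
      rw [← Pi.single_smul, nsmul_one, ZMod.natCast_val, ZMod.cast_id', id]
    rw [h2]
    exact S.nsmul_mem (hel r) _
  have h3 : v = ∑ r, (Pi.single r (v r) : Fin N → ZMod 3) :=
    (Finset.univ_sum_single v).symm
  have h4 : v ∈ S := by
    rw [h3]
    exact S.sum_mem (fun r _ => h1 r)
  exact h4

end rel

end MC1

/-- the commutators for the minus part -/
theorem MC1_thm (hMKU : Stmt_MKU) : Stmt_MC1 := by
  intro s M N b p q p' q' z α β P Q P' Q' f L _ _ ζ ι hSG hS hW v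
  have hG := hW.minus
  have hGP := hW.plus
  have hω := GCK.om ι
  have hf : 0 < f := by
    rcases Nat.eq_zero_or_pos f with h | h
    · exfalso
      have h1 := hG.hω
      rw [h, Nat.zero_div, pow_zero] at h1
      rw [h1] at hω
      norm_num at hω
    · exact h
  have hζ : ∀ g : L ≃ₐ[ℚ] L, g ζ = ζ → g (ι w) = ι w := by
    intro g hg
    rw [hG.hω, map_pow, hg]
  have hnz : ∀ r, GCK.Nz ι (z (α r)) (P r) (Q r) (P' r) (Q' r) := fun r ρ hρ => hG.D r ρ hρ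
  apply MC1.all hζ
  intro r
  obtain ⟨σ, s1, s2, s3⟩ := hMKU s M N b p q p' q' z α β P Q P' Q' f L ζ ι hSG hS hW
    (Pi.single (α r) 1) 0
  obtain ⟨τ, t1, t2, t3⟩ := hMKU s M N b p q p' q' z α β P Q P' Q' f L ζ ι hSG hS hW
    (Pi.single (β r) 1) 0
  have hσ' : MC1.Act ι z (Pi.single (α r) 1) σ := ⟨s1, s2⟩
  have hτ' : MC1.Act ι z (Pi.single (β r) 1) τ := ⟨t1, t2⟩
  have hσb : ∀ (i : Fin s) (ρ : L), ρ ^ 3 = (b i : L) → σ ρ = ρ := fun i ρ hρ => by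
    rw [s3 i ρ hρ, Pi.zero_apply, ZMod.val_zero, pow_zero, one_mul]
  have hτb : ∀ (i : Fin s) (ρ : L), ρ ^ 3 = (b i : L) → τ ρ = ρ := fun i ρ hρ => by
    rw [t3 i ρ hρ, Pi.zero_apply, ZMod.val_zero, pow_zero, one_mul]
  refine ⟨(σ * τ)⁻¹ * (τ * σ), ⟨?_, fun i ρ hρ => ?_, fun i ρ hρ => ?_⟩,
    fun j i ρ A hji hA => ?_, fun r' ρ A hA => ⟨?_, ?_⟩⟩
  · have hz : ∀ g : L ≃ₐ[ℚ] L, ∃ i : ℕ, g ζ = ζ ^ i := by
      intro g
      have h1 : (g ζ) ^ f = 1 := by rw [← map_pow, hG.prim.pow_eq_one, map_one]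
      haveI : NeZero f := ⟨hf.ne'⟩
      obtain ⟨i, _, hi⟩ := hG.prim.eq_pow_of_pow_eq_one h1
      exact ⟨i, hi.symm⟩
    obtain ⟨i, hi⟩ := hz σ
    obtain ⟨j, hj⟩ := hz τ
    have h1 : τ (σ ζ) = ι w ^ 0 * σ (τ ζ) := by
      rw [hi, hj, map_pow, map_pow, hi, hj, pow_zero, one_mul, ← pow_mul, ← pow_mul, mul_comm]
    rw [GC.comm_apply σ τ 0 s1 t1 ζ h1, pow_zero, one_mul]
  · exact JC1.rot σ τ s1 t1 (s2 i ρ hρ) (t2 i ρ hρ)
  · exact JC1.rot σ τ s1 t1 (s3 i ρ hρ) (t3 i ρ hρ)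
  · obtain ⟨hρ, hA⟩ := hA
    have hD := (hGP.D j i hji ρ hρ).1
    obtain ⟨m, hm⟩ := JC1.fixP σ hω s1 (hσb j ρ hρ) hD hA
    obtain ⟨n, hn⟩ := JC1.fixP τ hω t1 (hτb j ρ hρ) hD hA
    exact JC1.rot σ τ s1 t1 hm hn
  · exact MC1.com hS hnz hG.rz r hσ' hτ' r' ρ A hA
  · intro g hg
    have h1 := MC1.com hS hnz hG.rz r (MC1.cjAct hg hS.cz hσ') (MC1.cjAct hg hS.cz hτ') r' ρ A hA
    have h2 : ((g⁻¹ * σ * g) * (g⁻¹ * τ * g))⁻¹ * ((g⁻¹ * τ * g) * (g⁻¹ * σ * g)) =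
        g⁻¹ * ((σ * τ)⁻¹ * (τ * σ)) * g := by group
    rw [h2] at h1
    have h3 := congrArg g h1
    rw [← AlgEquiv.mul_apply, ← mul_assoc, ← mul_assoc, mul_inv_cancel, one_mul,
      AlgEquiv.mul_apply, map_mul, map_pow, hg, ← pow_mul] at h3
    rw [h3, pow_eq_pow_mod _ (GC.om3 hω), GCK.val_neg, ← pow_eq_pow_mod _ (GC.om3 hω)]

end Pool.Agent.PTK
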