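import Pool.Agent.PTK.StM
import Pool.Agent.PTK.JC2

/-!
# The joint governing field with several base classes: commutators for the plus part which are
trivial on the minus part
-/

set_option autoImplicit false

open NumberField IsDedekindDomain Finset
open scoped nonZeroDivisors Pointwise

namespace Pool.Agent.PTK

open Pool.Agent.Lib_helper18 Pool.Agent.Lib_helper18.Eis Pool.Agent.Lib_helper84.Cub
open Pool.Agent.PT Pool.Agent.PTE Pool.Agent.PT3 Pool.Agent.PTL Pool.Agent.PTN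

namespace MC2

variable {M N : ℕ} {L : Type} [Field L] [NumberField L] {ι : Eis →+* L} {z : Fin M → Eis}
  {α β : Fin N → Fin M} {P Q P' Q' : Fin N → Eis}

/-- `g` fixes `ω` and the roots of the classes -/
def Fz (ι : Eis →+* L) (z : Fin M → Eis) (g : L ≃ₐ[ℚ] L) : Prop :=
  g (ι w) = ι w ∧ ∀ (i : Fin M) (ρ : L), ρ ^ 3 = ι (z i) → g ρ = ρ

theorem act {g : L ≃ₐ[ℚ] L} (hg : Fz ι z g) (i j : Fin M) :
    GCK.Act ι (z i) (fun _ : Fin 1 => z j) 0 0 g := by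
  refine ⟨hg.1, fun ρ hρ => ?_, fun _ ρ hρ => ?_⟩
  · rw [hg.2 i ρ hρ, ZMod.val_zero, pow_zero, one_mul]
  · rw [hg.2 j ρ hρ, Pi.zero_apply, ZMod.val_zero, pow_zero, one_mul]

/-- commutators are trivial on the minus part -/
theorem com (hD : ∀ (r : Fin N) (ρ : L), ρ ^ 3 = ι (z (α r)) →
      aDE ι (P r) (Q r) (P' r) (Q' r) ρ ≠ 0 ∧ aNE ι (P r) (Q r) (P' r) (Q' r) ρ ≠ 0)
    (hz : ∀ i, ∃ t : Eis, z i * conj (z i) = t ^ 3)
    {σ τ : L ≃ₐ[ℚ] L} (hσ : Fz ι z σ) (hτ : Fz ι z τ) (r : Fin N) (ρ A : L)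
    (hA : PrW z α P Q P' Q' ι r ρ A) : ((σ * τ)⁻¹ * (τ * σ)) A = A ∧
      ∀ g : L ≃ₐ[ℚ] L, g (ι w) = ι w ^ 2 → ((σ * τ)⁻¹ * (τ * σ)) (g A) = g A := by
  have hnz : ∀ j : Fin 1, GCK.Nz ι (z (α r)) ((fun _ : Fin 1 => P r) j)
      ((fun _ : Fin 1 => Q r) j) ((fun _ : Fin 1 => P' r) j) ((fun _ : Fin 1 => Q' r) j) :=
    fun _ ρ hρ => hD r ρ hρ
  have hA' : PrM (z (α r)) (fun _ : Fin 1 => P r) (fun _ : Fin 1 => Q r)
      (fun _ : Fin 1 => P' r) (fun _ : Fin 1 => Q' r) ι 0 ρ A := hA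
  exact ⟨JC2.comA hnz (act hσ (α r) (α r)) (act hτ (α r) (α r)) 0 ρ A hA',
    fun g hg => JC2.comgA hnz (hz _) (fun _ => hz _) (act hσ (α r) (α r)) (act hτ (α r) (α r))
      0 ρ A hA' g hg⟩

end MC2

/-- commutators for the plus part which are trivial on the minus part -/
theorem MC2_thm (hMKU : Stmt_MKU) : Stmt_MC2 := by
  intro s M N b p q p' q' z α β P Q P' Q' f L _ _ ζ ι hS hSZ hG v
  have hω := GCK.om ι
  have hf : 0 < f := by
    rcases Nat.eq_zero_or_pos f with h | h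
    · exfalso
      have h1 := hG.minus.hω
      rw [h, Nat.zero_div, pow_zero] at h1
      rw [h1] at hω
      norm_num at hω
    · exact h
  have hζ : ∀ z : L ≃ₐ[ℚ] L, z ζ = ζ → z (ι w) = ι w := by
    intro z hz
    rw [hG.minus.hω, map_pow, hz]
  choose θ hθ using hG.plus.root
  have hg1 : ∀ i : Fin s, ∃ g : L ≃ₐ[ℚ] L, MC2.Fz ι z g ∧
      ∀ (l : Fin s) (ρ : L), ρ ^ 3 = (b l : L) →
        g ρ = ι w ^ ((Pi.single i 1 : Fin s → ZMod 3) l).val * ρ := by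
    intro i
    obtain ⟨g, h0, h1, h3⟩ := hMKU s M N b p q p' q' z α β P Q P' Q' f L ζ ι hS hSZ hG 0
      (Pi.single i 1)
    refine ⟨g, ⟨h0, fun l ρ hρ => ?_⟩, h3⟩
    rw [h1 l ρ hρ, Pi.zero_apply, ZMod.val_zero, pow_zero, one_mul]
  choose g hgK hgv using hg1
  have hgω : ∀ i, g i (ι w) = ι w := fun i => (hgK i).1
  have hgρ : ∀ (j : Fin s) (ρ : L), ρ ^ 3 = (b j : L) → g j ρ = ι w * ρ := by
    intro j ρ hρ
    rw [hgv j j ρ hρ, Pi.single_eq_same, show (1 : ZMod 3).val = 1 from rfl, pow_one]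
  have hgρ' : ∀ (i j : Fin s) (ρ : L), ρ ^ 3 = (b j : L) → j ≠ i → g i ρ = ρ := by
    intro i j ρ hρ hji
    rw [hgv i j ρ hρ, Pi.single_eq_of_ne hji, ZMod.val_zero, pow_zero, one_mul]
  have hzi : ∀ g : L ≃ₐ[ℚ] L, ∃ i : ℕ, g ζ = ζ ^ i := by
    intro g
    have h1 : (g ζ) ^ f = 1 := by rw [← map_pow, hG.minus.prim.pow_eq_one, map_one]
    have : NeZero f := ⟨hf.ne'⟩
    obtain ⟨i, _, hi⟩ := hG.minus.prim.eq_pow_of_pow_eq_one h1
    exact ⟨i, hi.symm⟩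
  obtain ⟨g₀, hzR, hz2, hz3⟩ := JC2.all (b := b) (p := p) (q := q) (p' := p') (q' := q')
    (ζ := ζ) hω hζ
    (fun g₀ => (∀ (j : Fin M) (ρ : L), ρ ^ 3 = ι (z j) → g₀ ρ = ρ) ∧
      ∀ (j : Fin N) (ρ A : L), PrW z α P Q P' Q' ι j ρ A → g₀ A = A ∧
        ∀ g : L ≃ₐ[ℚ] L, g (ι w) = ι w ^ 2 → g₀ (g A) = g A)
    ⟨fun _ _ _ => rfl, fun _ _ _ _ => ⟨rfl, fun _ _ => rfl⟩⟩
    (by
      rintro z z' ⟨h2, h3⟩ ⟨h2', h3'⟩
      refine ⟨fun j ρ hρ => ?_, fun j ρ A hA => ⟨?_, fun g hg => ?_⟩⟩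
      · rw [AlgEquiv.mul_apply, h2' j ρ hρ, h2 j ρ hρ]
      · rw [AlgEquiv.mul_apply, (h3' j ρ A hA).1, (h3 j ρ A hA).1]
      · rw [AlgEquiv.mul_apply, (h3' j ρ A hA).2 g hg, (h3 j ρ A hA).2 g hg])
    (by
      intro j i hji
      refine ⟨(g j * g i)⁻¹ * (g i * g j), ⟨?_, fun l ρ hρ => ?_, fun l k hlk ρ A hρ hA => ?_⟩,
        fun l ρ hρ => ?_, fun l ρ A hA => ?_⟩
      · obtain ⟨m, hm⟩ := hzi (g j)
        obtain ⟨n, hn⟩ := hzi (g i)
        have h1 : g i (g j ζ) = ι w ^ 0 * g j (g i ζ) := by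
          rw [hm, hn, map_pow, map_pow, hm, hn, pow_zero, one_mul, ← pow_mul, ← pow_mul, mul_comm]
        rw [GC.comm_apply (g j) (g i) 0 (hgω j) (hgω i) ζ h1, pow_zero, one_mul]
      · have h1 : g i (g j ρ) = ι w ^ 0 * g j (g i ρ) := by
          rw [pow_zero, one_mul]
          by_cases h2 : l = i
          · subst h2
            rw [hgρ l ρ hρ, hgρ' j l ρ hρ (ne_of_gt hji), hgρ l ρ hρ, map_mul, hgω j,
              hgρ' j l ρ hρ (ne_of_gt hji)]
          · by_cases h3 : l = j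
            · subst h3
              rw [hgρ l ρ hρ, hgρ' i l ρ hρ h2, hgρ l ρ hρ, map_mul, hgω i, hgρ' i l ρ hρ h2]
            · rw [hgρ' i l ρ hρ h2, hgρ' j l ρ hρ h3, hgρ' i l ρ hρ h2]
        rw [GC.comm_apply (g j) (g i) 0 (hgω j) (hgω i) ρ h1, pow_zero, one_mul]
      · have hsol := (hS.sol l k hlk.ne).toSolW
        by_cases h2 : (l, k) = (j, i)
        · rw [Prod.mk.injEq] at h2
          obtain ⟨rfl, rfl⟩ := h2
          simp only [if_true]
          have h1 : g k (g l A) = ι w ^ 1 * g l (g k A) :=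
            GC.mv (g l) (g k) 1 hω hρ (hθ k) hsol (hgω l) (hgω k) (hgρ l ρ hρ)
              (hgρ' k l ρ hρ hlk.ne) (by rw [pow_one]; exact hgρ k _ (hθ k)) hA
          exact GC.comm_apply (g l) (g k) 1 (hgω l) (hgω k) A h1
        · simp only [if_neg h2]
          have h1 : g i (g j A) = ι w ^ 0 * g j (g i A) := by
            by_cases h3 : l = j
            · subst h3
              have h4 : k ≠ i := fun h => h2 (by rw [h])
              exact GC.mv (g l) (g i) 0 hω hρ (hθ k) hsol (hgω l) (hgω i) (hgρ l ρ hρ)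
                (hgρ' i l ρ hρ hji.ne)
                (by rw [pow_zero, one_mul]; exact hgρ' i k _ (hθ k) h4) hA
            · by_cases h4 : l = i
              · subst h4
                have h5 : k ≠ j := (hji.trans hlk).ne'
                have h6 := GC.mv (g l) (g j) 0 hω hρ (hθ k) hsol (hgω l) (hgω j) (hgρ l ρ hρ)
                  (hgρ' j l ρ hρ hji.ne')
                  (by rw [pow_zero, one_mul]; exact hgρ' j k _ (hθ k) h5) hA
                rw [pow_zero, one_mul] at h6 ⊢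
                exact h6.symm
              · rw [pow_zero, one_mul]
                exact GC.fx (g j) (g i) hω hρ hsol (hgω j) (hgω i) (hgρ' j l ρ hρ h3)
                  (hgρ' i l ρ hρ h4) hA
          have h5 := GC.comm_apply (g j) (g i) 0 (hgω j) (hgω i) A h1
          rw [ZMod.val_zero]
          exact h5
      · have f0 : ∀ i, g i ρ = ρ := fun i => (hgK i).2 l ρ hρ
        have h1 : g i (g j ρ) = ι w ^ 0 * g j (g i ρ) := by
          rw [f0 i, f0 j, f0 i, pow_zero, one_mul]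
        rw [GC.comm_apply (g j) (g i) 0 (hgω j) (hgω i) ρ h1, pow_zero, one_mul]
      · exact MC2.com hG.minus.D hSZ.cz (hgK j) (hgK i) l ρ A hA)
    v
  exact ⟨g₀, ⟨hzR.1, hz2, fun i ρ hρ => hzR.2.1 i ρ hρ⟩,
    fun j i ρ A hji hA => hzR.2.2 j i hji ρ A hA.1 hA.2, hz3⟩

end Pool.Agent.PTK
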