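import Pool.Agent.PTK.StM
import Pool.Agent.PTK.JKU

/-!
# MKU: Kummer theory over `K = Q(w)` for all classes together, several base classes
-/

set_option autoImplicit false

open NumberField IsDedekindDomain Finset
open scoped nonZeroDivisors Pointwise

namespace Pool.Agent.PTK

open Pool.Agent.Lib_helper18 Pool.Agent.Lib_helper18.Eis Pool.Agent.Lib_helper84.Cub
open Pool.Agent.PT Pool.Agent.PTE Pool.Agent.PT3 Pool.Agent.PTL Pool.Agent.PTN

namespace MKU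

theorem z_ne {M N : ℕ} {z : Fin M → Eis} {α β : Fin N → Fin M} {P Q P' Q' : Fin N → Eis}
    (hS : SysZ z α β P Q P' Q') (j : Fin M) : z j ≠ 0 := by
  intro hj
  refine hS.ind (fun l => if l = j then 1 else 0) ⟨j, by simp⟩ ⟨0, ?_⟩
  rw [zero_pow three_ne_zero]
  symm
  exact Finset.prod_eq_zero (Finset.mem_univ j) (by simp [hj])

/-- Independence of all classes. -/
theorem indep {s M N : ℕ} {b : Fin s → ℤ} {p q p' q' : Fin s → Fin s → ℤ}
    {z : Fin M → Eis} {α β : Fin N → Fin M} {P Q P' Q' : Fin N → Eis}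
    (hG : SysG b p q p' q') (hS : SysZ z α β P Q P' Q')
    (c : Fin M → ℕ) (d : Fin s → ℕ) (t : Eis)
    (h : t ^ 3 = (∏ j, z j ^ c j) * ∏ i, (b i : Eis) ^ d i) :
    (∀ j, 3 ∣ c j) ∧ ∀ i, 3 ∣ d i := by
  have hz0 : ∀ j, z j ≠ 0 := z_ne hS
  have hb0 : ∀ i, b i ≠ 0 := JKU.b_ne hG
  choose tz htz using hS.cz
  obtain ⟨Z, hZ⟩ : ∃ Z : Eis, Z = ∏ j, z j ^ c j := ⟨_, rfl⟩
  obtain ⟨D, hD⟩ : ∃ D : ℤ, D = ∏ i, b i ^ d i := ⟨_, rfl⟩
  obtain ⟨t₁, ht₁⟩ : ∃ t₁ : Eis, t₁ = ∏ j, tz j ^ c j := ⟨_, rfl⟩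
  have hDE : (∏ i, (b i : Eis) ^ d i) = (D : Eis) := by
    rw [hD, Int.cast_prod]
    exact Finset.prod_congr rfl fun i _ => (Int.cast_pow _ _).symm
  have hD0 : D ≠ 0 := by
    rw [hD]
    exact Finset.prod_ne_zero_iff.2 fun i _ => pow_ne_zero _ (hb0 i)
  have hZ0 : Z ≠ 0 := by
    rw [hZ]
    exact Finset.prod_ne_zero_iff.2 fun i _ => pow_ne_zero _ (hz0 i)
  rw [hDE, ← hZ] at h
  have hZZ : Z * conj Z = t₁ ^ 3 := by
    rw [hZ, ht₁, map_prod, ← Finset.prod_mul_distrib, ← Finset.prod_pow]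
    refine Finset.prod_congr rfl fun j _ => ?_
    rw [map_pow, ← mul_pow, htz j, ← pow_mul, ← pow_mul, mul_comm]
  have ht₁0 : t₁ ≠ 0 := by
    rintro rfl
    rw [zero_pow three_ne_zero, mul_conj] at hZZ
    have h2 : Z.norm = 0 := JKU.cast_zero hZZ
    exact hZ0 (norm_eq_zero.1 h2)
  have hc : conj t ^ 3 = conj Z * D := by
    rw [← map_pow, h, map_mul, conj_intCast]
  have hNN : (t * conj t) ^ 3 = t₁ ^ 3 * (D : Eis) ^ 2 := by
    rw [mul_pow, h, hc, ← hZZ]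
    ring
  obtain ⟨r, hr⟩ := JKU.dvd_cube (⟨_, hNN⟩ : t₁ ^ 3 ∣ (t * conj t) ^ 3)
  have hr3 : r ^ 3 = (D : Eis) ^ 2 := by
    apply mul_left_cancel₀ (pow_ne_zero 3 ht₁0)
    rw [← hNN, hr]
    ring
  obtain ⟨m, hm⟩ := JKU.cube_int hD0 hr3
  have hd : ∀ i, 3 ∣ d i := by
    by_contra hcon
    push Not at hcon
    exact hG.ind d hcon ⟨m, by rw [hm, hD]⟩
  have hm0 : (m : Eis) ≠ 0 := by
    intro h0
    have h1 : ((m ^ 3 : ℤ) : Eis) = 0 := by
      rw [Int.cast_pow, h0, zero_pow three_ne_zero]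
    rw [hm] at h1
    exact hD0 (JKU.cast_zero h1)
  have h3 : t ^ 3 = (m : Eis) ^ 3 * Z := by
    rw [h, ← hm, Int.cast_pow]
    ring
  obtain ⟨t', ht'⟩ := JKU.dvd_cube (⟨Z, h3⟩ : (m : Eis) ^ 3 ∣ t ^ 3)
  have h4 : t' ^ 3 = Z := by
    apply mul_left_cancel₀ (pow_ne_zero 3 hm0)
    rw [← h3, ht']
    ring
  have h5 : ¬ ∃ j, ¬ 3 ∣ c j := fun hcon => hS.ind c hcon ⟨t', by rw [h4, hZ]⟩
  push Not at h5
  exact ⟨h5, hd⟩

end MKU

open MKU in
/-- MKU: Kummer theory over `K` for all classes together. -/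
theorem MKU_thm (hKUM : KUM) : Stmt_MKU := by
  intro s M N b p q p' q' z α β P Q P' Q' f L _ _ ζ ι hSG hSZ hJ a v
  have hω := GTK.rel ι
  have := hJ.minus.gal
  choose θ hθ using hJ.minus.rz
  choose η hη using hJ.plus.root
  let F := IntermediateField.adjoin ℚ {ι w}
  let c : Fin M ⊕ Fin s → Eis := Sum.elim z (fun i => (b i : Eis))
  let V : Fin M ⊕ Fin s → ZMod 3 := Sum.elim a v
  have hc0 : ∀ i, c i ≠ 0 := by
    rintro (j | i)
    · exact z_ne hSZ j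
    · intro h0
      have h1 : (b i : Eis) = 0 := h0
      exact JKU.b_ne hSG i (JKU.cast_zero h1)
  let A : Fin M ⊕ Fin s → L := Sum.elim θ η
  have hA : ∀ i, A i ^ 3 = ι (c i) := by
    rintro (j | i)
    · exact hθ j
    · exact (hη i).trans (map_intCast ι (b i)).symm
  obtain ⟨g, hg⟩ := hKUM F L ⟨ι w, GKK.mem_F ι w⟩ (Fin M ⊕ Fin s)
    (fun i => ⟨ι (c i), GKK.mem_F ι _⟩) A
    (by
      apply Subtype.ext
      push_cast
      exact hω)
    (by
      intro i h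
      have h1 : ι (c i) = 0 := congrArg Subtype.val h
      exact hc0 i (GKK.inj ι (by rw [h1, map_zero])))
    (fun i => hA i)
    (by
      rintro n ⟨β', hβ⟩
      have h1 : ι (∏ i, c i ^ n i) = (β' : L) ^ 3 := by
        have h2 := congrArg (algebraMap F L) hβ
        rw [map_pow, map_prod] at h2
        rw [map_prod]
        refine Eq.trans ?_ h2
        refine Finset.prod_congr rfl fun i _ => ?_
        rw [map_pow, map_pow]
        rfl
      obtain ⟨t, ht⟩ := GKK.cube_of ι β'.2 h1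
      rw [Fintype.prod_sum_type] at ht
      obtain ⟨h4, h5⟩ := indep hSG hSZ (fun j => n (Sum.inl j)) (fun i => n (Sum.inr i)) t ht
      rintro (j | i)
      · exact h4 j
      · exact h5 i)
    V
  have hgω : g (ι w) = ι w := g.commutes (⟨ι w, GKK.mem_F ι w⟩ : F)
  have hroot : ∀ (i : Fin M ⊕ Fin s) (ρ : L), ρ ^ 3 = ι (c i) →
      g ρ = ι w ^ (V i).val * ρ := by
    intro i ρ hρ
    obtain ⟨l, hl⟩ := Pool.Agent.PT.GT.of_cube hω (hρ.trans (hA i).symm)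
    have h2 := hg i
    change g (A i) = ι w ^ (V i).val * A i at h2
    rw [hl, map_mul, h2, Pool.Agent.PT.GT.E, map_pow, hgω]
    ring
  refine ⟨g.restrictScalars ℚ, hgω, fun j ρ hρ => ?_, fun i ρ hρ => ?_⟩
  · exact hroot (Sum.inl j) ρ hρ
  · exact hroot (Sum.inr i) ρ (hρ.trans (map_intCast ι (b i)).symm)

end Pool.Agent.PTK
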