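import Pool.Agent.PTK.StK
import Pool.Agent.PTK.CTK
import Pool.Agent.PT.CLSC

/-!
# PTK_MSKU: the primes for which a class is the class of a point, `q = 1 (mod 3)`
-/

set_option autoImplicit false

open NumberField IsDedekindDomain Finset
open scoped nonZeroDivisors Pointwise

namespace Pool.Agent.PTK

open Pool.Agent.Lib_helper18 Pool.Agent.Lib_helper18.Eis Pool.Agent.Lib_helper84.Cub
open Pool.Agent.PT Pool.Agent.PTE Pool.Agent.PT3 Pool.Agent.PTL Pool.Agent.PTN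

namespace MSKU

/-- a prime factor of a prime `q = 1 (mod 3)` divides no number prime to `q` -/
theorem not_dvd {ρ : PP} {q : ℕ} (hq : q.Prime) (hρ : (q : Eis) = ρ.1 * conj ρ.1) {N : ℕ}
    (hqN : ¬ q ∣ N) : ¬ ρ.1 ∣ (N : Eis) := by
  have : Fact q.Prime := ⟨hq⟩
  rw [dvd_natCast_iff (CLSC.norm_of _ _ hρ)]
  exact hqN

/-- the symbol at a prime factor of `q` vanishes -/
theorem sym_zero {ρ : PP} {q : ℕ} (hq : q.Prime) (hq3 : q % 3 = 1)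
    (hρ : (q : Eis) = ρ.1 * conj ρ.1) {E N : ℕ}
    (hE : E = 1 ∨ E = 2) (hqN : ¬ q ∣ N) {z : Eis} (hz : ¬ ρ.1 ∣ z)
    (htm : ∀ σ : PP, tm σ.1 z ((N : Eis) * (q : Eis) ^ E) = 0) : sym ρ.1 z = 0 := by
  have : Fact q.Prime := ⟨hq⟩
  have hn := CLSC.norm_of _ _ hρ
  have hp : Prime ρ.1 := ρ.2.1
  have hN : ¬ ρ.1 ∣ (N : Eis) := not_dvd hq hρ hqN
  have hcp : conj ρ.1 ≠ 0 := fun h => hp.ne_zero (by
    have h1 := congrArg conj h
    rwa [conj_conj, map_zero] at h1)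
  have hq0 : (q : Eis) ≠ 0 := by
    rw [hρ]
    exact mul_ne_zero hp.ne_zero hcp
  have hc : ¬ ρ.1 ∣ conj ρ.1 := not_dvd_conj hq3 hn
  have hV : V ρ.1 (q : Eis) = 1 := by
    rw [hρ, mul_comm, V_mul_not_dvd hp hc hp.ne_zero, V_self]
  have h1 := htm ρ
  unfold tm at h1
  rw [V_mul_not_dvd hp hN (pow_ne_zero _ hq0), V_pow hp hq0, hV,
    V_eq_zero hz, EHYP.ch_of_not_dvd hp hz, Nat.cast_zero, zero_mul, sub_zero, mul_one] at h1
  exact CTK.zero_of_mul hE h1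

theorem wt_sq {q : ℕ} (hq : q % 3 = 1) : wt (((q : ℤ) ^ 2) ^ 2) = 2 * wt ((q : ℤ) ^ 2) := by
  have h : ¬ (3 : ℤ) ∣ (q : ℤ) := by omega
  have h1 := sq_mod_three h
  have h2 : ((q : ℤ) ^ 2) ^ 2 = (q : ℤ) ^ 2 * (q : ℤ) ^ 2 := by ring
  rw [h2, wt_mul h1 h1]
  ring

end MSKU

open MSKU in
/-- PTK_MSKU. -/
theorem MSKU_thm (hDCKU : Stmt_DCKU) (hZSU : Stmt_ZSU)
    (hPT : Stmt_PT) (hZA : Stmt_ZA) : Stmt_MSKU := by
  classical
  intro h n m k π p e r f w0 c hNF hh y hy s u P Q P' Q' hu hSys hHyp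
  have hn0 : 0 < n := PT.FINA.pos_of_nf hNF
  have hN0 : 0 < 3 ^ h * n := Nat.mul_pos (pow_pos (by norm_num) _) hn0
  have hBB : ∀ E q : ℕ, ((BB h n E q : ℤ) : Eis) = ((3 ^ h * n : ℕ) : Eis) * (q : Eis) ^ E := by
    intro E q
    unfold BB
    push_cast
    ring
  have hxnc : ¬ ∃ t : Eis, t ^ 3 = zN π e y := by
    rintro ⟨t, ht⟩
    exact hSys.ind 1 0 (Or.inl (by norm_num)) ⟨t, by simpa using ht⟩
  obtain ⟨hx0, -⟩ := hZA n m k π p e r f hNF y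
  have hnd : ∀ (v : Fin (m + 1) → ZMod 3) (q : ℕ) (ρ : PP), q.Prime →
      (q : Eis) = ρ.1 * conj ρ.1 → ¬ q ∣ n → ¬ ρ.1 ∣ zN π e v := by
    intro v q ρ hq hρ hqn
    obtain ⟨-, -, -, h4, -⟩ := hZA n m k π p e r f hNF v
    exact h4 ρ (not_dvd hq hρ hqn)
  -- the conductor
  choose F0 hF0 hF1 using fun j => hDCKU (3 ^ h * n) (zN π e (u j)) (zN π e y) (P j) (Q j) (P' j)
    (Q' j) (hHyp j)
  refine ⟨∏ j, F0 j, Finset.prod_pos fun j _ => hF0 j, fun F hFpos hFd κ hκ1 => ?_⟩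
  choose C Φ N₀ hC using fun j => hF1 j F hFpos
    ((Finset.dvd_prod_of_mem F0 (mem_univ j)).trans hFd)
  have hMN : ∀ j, N₀ j ≤ ∑ j, N₀ j := fun j =>
    Finset.single_le_sum (f := N₀) (fun i _ => Nat.zero_le _) (mem_univ j)
  have hmain : ∀ (E q : ℕ), (E = 1 ∨ E = 2) → q.Prime → 3 ^ h * n + F + ∑ j, N₀ j < q →
      q ∈ QYU h n π e w0 c y E →
      ∃ hQ : q.Coprime F, ∀ ρ : PP, (q : Eis) = ρ.1 * conj ρ.1 → sym ρ.1 (zN π e y) = 0 ∧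
        (∀ j, sym ρ.1 (zN π e (u j)) = 0) ∧
        ∀ (j : Fin s) (ξ ξ' : Eis), ρ.1 ∣ ξ ^ 3 - zN π e y → conj ρ.1 ∣ ξ' ^ 3 - zN π e y →
          C j + E * ((Φ j (ZMod.unitOfCoprime q hQ)).toAdd -
            TAUP ρ.1 (P j) (Q j) (P' j) (Q' j) ξ -
            TAUP (conj ρ.1) (P j) (Q j) (P' j) (Q' j) ξ') = 0 := by
    intro E q hE hq hqM ⟨hq3, hIn, hOcc⟩
    have hqN : ¬ q ∣ 3 ^ h * n := fun h => by
      have := Nat.le_of_dvd hN0 h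
      omega
    have hqn : ¬ q ∣ n := fun h => hqN (Dvd.dvd.mul_left h _)
    have hQ : q.Coprime F := by
      rw [Nat.Prime.coprime_iff_not_dvd hq]
      intro h
      have := Nat.le_of_dvd hFpos h
      omega
    have hSel : ∀ v ∈ VS h n π p e r w0 c, ∀ σ : PP,
        tm σ.1 (zN π e v) (((3 ^ h * n : ℕ) : Eis) * (q : Eis) ^ E) = 0 := by
      intro v hv σ
      have h1 := (hZSU h n m k π p e r f w0 c E q hNF hh hE hq hq3 hIn hqn v hv).sym σ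
      rwa [hBB] at h1
    have hB0 : BB h n E q ≠ 0 := by
      unfold BB
      have h3 : (3 : ℤ) ^ h ≠ 0 := pow_ne_zero _ (by norm_num)
      have h4 : (n : ℤ) ≠ 0 := by exact_mod_cast hn0.ne'
      have h5 : (q : ℤ) ^ E ≠ 0 := pow_ne_zero _ (by exact_mod_cast hq.ne_zero)
      exact mul_ne_zero (mul_ne_zero h3 h4) h5
    obtain ⟨X, Y, hpt⟩ := hPT (BB h n E q) (zN π e y) hB0 hx0 hxnc hOcc
    rw [hBB] at hpt
    refine ⟨hQ, fun ρ hρ => ⟨sym_zero hq hq3 hρ hE hqN (hnd y q ρ hq hρ hqn) (hSel y hy),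
      fun j => sym_zero hq hq3 hρ hE hqN (hnd (u j) q ρ hq hρ hqn) (hSel (u j) (hu j).1), ?_⟩⟩
    intro j ξ ξ' hξ hξ'
    exact hC j E q hQ ρ hE hq (by have := hMN j; omega) hq3 hρ (hSel (u j) (hu j).1) (hSel y hy)
      X Y ξ ξ' hpt hξ hξ'
  refine ⟨C, CTK.assemble Φ, 3 ^ h * n + F + ∑ j, N₀ j, fun q hq hqM => ⟨fun hqY => ?_,
    fun hqY => ?_⟩⟩
  · obtain ⟨hQ, h2⟩ := hmain 1 q (Or.inl rfl) hq hqM hqY
    obtain ⟨hq3, hIn, -⟩ := hqY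
    refine ⟨hQ, hq3, ?_, fun ρ hρ => ⟨(h2 ρ hρ).1, (h2 ρ hρ).2.1, fun j ξ ξ' hξ hξ' => ?_⟩⟩
    · rw [hκ1]
      funext i
      refine Fin.cases ?_ (fun i => ?_) i
      · rw [Fin.cons_zero, Fin.cons_zero]
        have h5 := hIn.1
        rw [pow_one] at h5
        exact h5
      · rw [Fin.cons_succ, Fin.cons_succ]
        have h5 := hIn.2 i
        rw [Nat.cast_one, one_mul] at h5
        exact h5
    · have h5 := (h2 ρ hρ).2.2 j ξ ξ' hξ hξ'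
      rw [CTK.assemble_apply]
      rw [Nat.cast_one, one_mul] at h5
      linear_combination -h5
  · obtain ⟨hQ, h2⟩ := hmain 2 q (Or.inr rfl) hq hqM hqY
    obtain ⟨hq3, hIn, -⟩ := hqY
    refine ⟨hQ, hq3, ?_, fun ρ hρ => ⟨(h2 ρ hρ).1, (h2 ρ hρ).2.1, fun j ξ ξ' hξ hξ' => ?_⟩⟩
    · rw [hκ1]
      funext i
      refine Fin.cases ?_ (fun i => ?_) i
      · rw [Fin.cons_zero, Pi.neg_apply, Fin.cons_zero]
        have h5 := hIn.1
        rw [wt_sq hq3] at h5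
        exact CTK.neg_of_two h5
      · rw [Fin.cons_succ, Pi.neg_apply, Fin.cons_succ]
        exact CTK.neg_of_two (hIn.2 i)
    · have h5 := (h2 ρ hρ).2.2 j ξ ξ' hξ hξ'
      rw [CTK.assemble_apply]
      rw [show ((2 : ℕ) : ZMod 3) = -1 from by decide] at h5
      linear_combination h5

end Pool.Agent.PTK
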