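import Pool.Agent.PTK.StW
import Pool.Agent.PTK.CTK
import Pool.Agent.PTK.MSKU
import Pool.Agent.PT3.HYPT

/-!
# PTK_MS1: the primes of `QM` are in `SPZU`, `SMZU` (`q = 1 (mod 3)`, several base classes)
-/

set_option autoImplicit false

open NumberField IsDedekindDomain Finset
open scoped nonZeroDivisors Pointwise

namespace Pool.Agent.PTK

open Pool.Agent.Lib_helper18 Pool.Agent.Lib_helper18.Eis Pool.Agent.Lib_helper84.Cub
open Pool.Agent.PT Pool.Agent.PTE Pool.Agent.PT3 Pool.Agent.PTL Pool.Agent.PTN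

namespace MS1

/-- a class of a system is no cube -/
theorem not_cube {M N : ℕ} {z : Fin M → Eis} {α β : Fin N → Fin M} {P Q P' Q' : Fin N → Eis}
    (hS : SysZ z α β P Q P' Q') (i : Fin M) : ¬ ∃ t : Eis, t ^ 3 = z i := by
  rintro ⟨t, ht⟩
  refine hS.ind (Pi.single i 1) ⟨i, by rw [Pi.single_eq_same]; norm_num⟩ ⟨t, ?_⟩
  rw [Fintype.prod_eq_single i, Pi.single_eq_same, pow_one, ht]
  intro l hl
  rw [Pi.single_eq_of_ne hl, pow_zero]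

/-- `lv B ≠ 1` for `h ≠ 1` -/
theorem lv_ne (hLCL : LCL) {n m k : ℕ} {π : Fin m → PP} {p e : Fin m → ℕ} {r f : Fin k → ℕ}
    (hNF : NF n π p e r f) {h E q : ℕ} {w0 : ZMod 3} {c : Fin m → ZMod 3} (hh : h ≤ 2)
    (h1 : h ≠ 1) (hq : q.Prime) (hq3 : ¬ 3 ∣ q) (hIn : InCT E π w0 c q) : lv (BB h n E q) ≠ 1 := by
  rw [(HYPT.lvw hLCL hNF hq hq3 hIn.1).1]
  interval_cases h
  · decide
  · exact absurd rfl h1
  · decide

end MS1

open MSKU in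
/-- PTK_MS1. -/
theorem MS1_thm (hDCKU : Stmt_DCKU) (hDXL : Stmt_DXL) (hPT : Stmt_PT) (hPTX : Stmt_PTX)
    (hZSU : Stmt_ZSU) (hZA : Stmt_ZA) (hLCL : LCL) : Stmt_MS1 := by
  classical
  intro h n m k π p e r f w0 c hNF hh M N y α β hT P Q P' Q' hSys hHyp
  have hn0 : 0 < n := PT.FINA.pos_of_nf hNF
  have hN0 : 0 < 3 ^ h * n := Nat.mul_pos (pow_pos (by norm_num) _) hn0
  have hBB : ∀ E q : ℕ, ((BB h n E q : ℤ) : Eis) = ((3 ^ h * n : ℕ) : Eis) * (q : Eis) ^ E := by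
    intro E q
    unfold BB
    push_cast
    ring
  have hBZ : ∀ E q : ℕ, BB h n E q = ((3 ^ h * n : ℕ) : ℤ) * (q : ℤ) ^ E := by
    intro E q
    unfold BB
    push_cast
    ring
  have hxnc : ∀ i, ¬ ∃ t : Eis, t ^ 3 = zN π e (y i) := fun i => MS1.not_cube hSys i
  have hx0 : ∀ i, zN π e (y i) ≠ 0 := fun i => (hZA n m k π p e r f hNF (y i)).1
  have hB0 : ∀ E q : ℕ, q.Prime → BB h n E q ≠ 0 := by
    intro E q hq
    unfold BB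
    have h3 : (3 : ℤ) ^ h ≠ 0 := pow_ne_zero _ (by norm_num)
    have h4 : (n : ℤ) ≠ 0 := by exact_mod_cast hn0.ne'
    have h5 : (q : ℤ) ^ E ≠ 0 := pow_ne_zero _ (by exact_mod_cast hq.ne_zero)
    exact mul_ne_zero (mul_ne_zero h3 h4) h5
  have hnd : ∀ (v : Fin (m + 1) → ZMod 3) (q : ℕ) (ρ : PP), q.Prime →
      (q : Eis) = ρ.1 * conj ρ.1 → ¬ q ∣ n → ¬ ρ.1 ∣ zN π e v := by
    intro v q ρ hq hρ hqn
    obtain ⟨-, -, -, h4, -⟩ := hZA n m k π p e r f hNF v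
    exact h4 ρ (not_dvd hq hρ hqn)
  -- the relation for one pair
  have hrel : ∀ j, ∃ f₀ : ℕ, 0 < f₀ ∧ ∀ F : ℕ, 0 < F → f₀ ∣ F →
      ∃ (C : ZMod 3) (Φ : (ZMod F)ˣ →* Multiplicative (ZMod 3)) (N₀ : ℕ),
      ∀ (E q : ℕ) (hQ : q.Coprime F) (ρ : PP), (E = 1 ∨ E = 2) → q.Prime → N₀ < q → q % 3 = 1 →
        (q : Eis) = ρ.1 * conj ρ.1 → InCT E π w0 c q →
        (∀ σ : PP, tm σ.1 (zN π e (y (β j))) (((3 ^ h * n : ℕ) : Eis) * (q : Eis) ^ E) = 0) →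
        (∀ σ : PP, tm σ.1 (zN π e (y (α j))) (((3 ^ h * n : ℕ) : Eis) * (q : Eis) ^ E) = 0) →
        Occ (BB h n E q) (zN π e (y (α j))) →
        ∀ ξ ξ' : Eis, ρ.1 ∣ ξ ^ 3 - zN π e (y (α j)) → conj ρ.1 ∣ ξ' ^ 3 - zN π e (y (α j)) →
          C + E * ((Φ (ZMod.unitOfCoprime q hQ)).toAdd -
            TAUP ρ.1 (P j) (Q j) (P' j) (Q' j) ξ -
            TAUP (conj ρ.1) (P j) (Q j) (P' j) (Q' j) ξ') = 0 := by
    intro j
    rcases hHyp j with hD | ⟨h1, hX⟩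
    · obtain ⟨F0, hF0, hF1⟩ := hDCKU (3 ^ h * n) (zN π e (y (β j))) (zN π e (y (α j))) (P j) (Q j)
        (P' j) (Q' j) hD
      refine ⟨F0, hF0, fun F hF hd => ?_⟩
      obtain ⟨C, Φ, N₀, hC⟩ := hF1 F hF hd
      refine ⟨C, Φ, N₀, fun E q hQ ρ hE hq hN hq3 hρ hIn hb hx hocc ξ ξ' hξ hξ' => ?_⟩
      obtain ⟨X, Y, hpt⟩ := hPT (BB h n E q) (zN π e (y (α j))) (hB0 E q hq) (hx0 _) (hxnc _) hocc
      rw [hBB] at hpt
      exact hC E q hQ ρ hE hq hN hq3 hρ hb hx X Y ξ ξ' hpt hξ hξ'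
    · obtain ⟨F0, hF0, hF1⟩ := hDXL (3 ^ h * n) (zN π e (y (β j))) (zN π e (y (α j))) (P j) (Q j)
        (P' j) (Q' j) hX
      refine ⟨F0, hF0, fun F hF hd => ?_⟩
      obtain ⟨C, Φ, N₀, hC⟩ := hF1 F hF hd
      refine ⟨C, Φ, N₀, fun E q hQ ρ hE hq hN hq3 hρ hIn hb hx hocc ξ ξ' hξ hξ' => ?_⟩
      obtain ⟨X, Y, hpt, hgp⟩ := hPTX (BB h n E q) (zN π e (y (α j))) (hB0 E q hq)
        (MS1.lv_ne hLCL hNF hh h1 hq (by omega) hIn) (hx0 _) (hxnc _) hocc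
      rw [hBB] at hpt
      rw [hBZ] at hgp
      exact hC E q hQ ρ hE hq hN hq3 hρ hb hx X Y ξ ξ' hpt hgp hξ hξ'
  choose F0 hF0 hF1 using hrel
  refine ⟨∏ j, F0 j, Finset.prod_pos fun j _ => hF0 j, fun F hFpos hFd κ hκ1 => ?_⟩
  choose C Φ N₀ hC using fun j => hF1 j F hFpos
    ((Finset.dvd_prod_of_mem F0 (mem_univ j)).trans hFd)
  have hMN : ∀ j, N₀ j ≤ ∑ j, N₀ j := fun j =>
    Finset.single_le_sum (f := N₀) (fun i _ => Nat.zero_le _) (mem_univ j)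
  have hmain : ∀ (E q : ℕ), (E = 1 ∨ E = 2) → q.Prime → 3 ^ h * n + F + ∑ j, N₀ j < q →
      q ∈ QM h n π e w0 c y α 1 E →
      ∃ hQ : q.Coprime F, ∀ ρ : PP, (q : Eis) = ρ.1 * conj ρ.1 →
        (∀ i, sym ρ.1 (zN π e (y i)) = 0) ∧
        ∀ (j : Fin N) (ξ ξ' : Eis), ρ.1 ∣ ξ ^ 3 - zN π e (y (α j)) →
          conj ρ.1 ∣ ξ' ^ 3 - zN π e (y (α j)) →
          C j + E * ((Φ j (ZMod.unitOfCoprime q hQ)).toAdd -
            TAUP ρ.1 (P j) (Q j) (P' j) (Q' j) ξ -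
            TAUP (conj ρ.1) (P j) (Q j) (P' j) (Q' j) ξ') = 0 := by
    intro E q hE hq hqM ⟨hq3, hIn, hOcc⟩
    have hqN : ¬ q ∣ 3 ^ h * n := fun h => by
      have := Nat.le_of_dvd hN0 h
      omega
    have hqn : ¬ q ∣ n := fun h => hqN (Dvd.dvd.mul_left h _)
    have hQ : q.Coprime F := by
      rw [Nat.Prime.coprime_iff_not_dvd hq]
      intro h
      have := Nat.le_of_dvd hFpos h
      omega
    have hSel : ∀ v ∈ VS h n π p e r w0 c, ∀ σ : PP,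
        tm σ.1 (zN π e v) (((3 ^ h * n : ℕ) : Eis) * (q : Eis) ^ E) = 0 := by
      intro v hv σ
      have h1 := (hZSU h n m k π p e r f w0 c E q hNF hh hE hq hq3 hIn hqn v hv).sym σ
      rwa [hBB] at h1
    refine ⟨hQ, fun ρ hρ => ⟨fun i => sym_zero hq hq3 hρ hE hqN (hnd (y i) q ρ hq hρ hqn)
      (hSel (y i) (hT.mem i)), ?_⟩⟩
    intro j ξ ξ' hξ hξ'
    exact hC j E q hQ ρ hE hq (by have := hMN j; omega) hq3 hρ hIn (hSel _ (hT.mem _))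
      (hSel _ (hT.mem _)) (hOcc j) ξ ξ' hξ hξ'
  refine ⟨C, CTK.assemble Φ, 3 ^ h * n + F + ∑ j, N₀ j, fun q hq hqM => ⟨fun hqY => ?_,
    fun hqY => ?_⟩⟩
  · obtain ⟨hQ, h2⟩ := hmain 1 q (Or.inl rfl) hq hqM hqY
    obtain ⟨hq3, hIn, -⟩ := hqY
    refine ⟨hQ, hq3, ?_, fun ρ hρ => ⟨(h2 ρ hρ).1, fun j ξ ξ' hξ hξ' => ?_⟩⟩
    · rw [hκ1]
      funext i
      refine Fin.cases ?_ (fun i => ?_) i
      · rw [Fin.cons_zero, Fin.cons_zero]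
        have h5 := hIn.1
        rw [pow_one] at h5
        exact h5
      · rw [Fin.cons_succ, Fin.cons_succ]
        have h5 := hIn.2 i
        rw [Nat.cast_one, one_mul] at h5
        exact h5
    · have h5 := (h2 ρ hρ).2 j ξ ξ' hξ hξ'
      rw [CTK.assemble_apply]
      rw [Nat.cast_one, one_mul] at h5
      linear_combination -h5
  · obtain ⟨hQ, h2⟩ := hmain 2 q (Or.inr rfl) hq hqM hqY
    obtain ⟨hq3, hIn, -⟩ := hqY
    refine ⟨hQ, hq3, ?_, fun ρ hρ => ⟨(h2 ρ hρ).1, fun j ξ ξ' hξ hξ' => ?_⟩⟩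
    · rw [hκ1]
      funext i
      refine Fin.cases ?_ (fun i => ?_) i
      · rw [Fin.cons_zero, Pi.neg_apply, Fin.cons_zero]
        have h5 := hIn.1
        rw [wt_sq hq3] at h5
        exact CTK.neg_of_two h5
      · rw [Fin.cons_succ, Pi.neg_apply, Fin.cons_succ]
        exact CTK.neg_of_two (hIn.2 i)
    · have h5 := (h2 ρ hρ).2 j ξ ξ' hξ hξ'
      rw [CTK.assemble_apply]
      rw [show ((2 : ℕ) : ZMod 3) = -1 from by decide] at h5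
      linear_combination h5

end Pool.Agent.PTK
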