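import Pool.Agent.PTK.StW
import Pool.Agent.PTK.CTK
import Pool.Agent.PT3.HYPT

/-!
# PTK_MS2: the primes of `QM` are in `SPZ`, `SMZ`
-/

set_option autoImplicit false

open NumberField IsDedekindDomain Finset
open scoped nonZeroDivisors Pointwise

namespace Pool.Agent.PTK

open Pool.Agent.Lib_helper18 Pool.Agent.Lib_helper18.Eis Pool.Agent.Lib_helper84.Cub
open Pool.Agent.PT Pool.Agent.PTE Pool.Agent.PT3 Pool.Agent.PTL Pool.Agent.PTN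

namespace MS2

theorem BB_eis (h n E q : ℕ) :
    ((BB h n E q : ℤ) : Eis) = ((3 ^ h * n : ℕ) : Eis) * (q : Eis) ^ E := by
  unfold BB
  push_cast
  ring

theorem BB_int (h n E q : ℕ) : ((3 ^ h * n : ℕ) : ℤ) * (q : ℤ) ^ E = BB h n E q := by
  unfold BB
  push_cast
  ring

theorem BB_ne {h n E q : ℕ} (hn : 0 < n) (hq : q.Prime) : BB h n E q ≠ 0 := by
  unfold BB
  have h3 : (3 : ℤ) ^ h ≠ 0 := pow_ne_zero _ (by norm_num)
  have h4 : (n : ℤ) ≠ 0 := by exact_mod_cast hn.ne'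
  have h5 : (q : ℤ) ^ E ≠ 0 := pow_ne_zero _ (by exact_mod_cast hq.ne_zero)
  exact mul_ne_zero (mul_ne_zero h3 h4) h5

theorem lv_BB_ne {n m k : ℕ} {π : Fin m → PP} {p e : Fin m → ℕ} {r f : Fin k → ℕ}
    (hLCL : LCL) (hn : NF n π p e r f) {h E q : ℕ} (hq : q.Prime) (hq3 : ¬ 3 ∣ q)
    (hh : h ≤ 2) (h1 : h ≠ 1) : lv (BB h n E q) ≠ 1 := by
  rw [(HYPT.lvw hLCL hn (h := h) (E := E) hq hq3 rfl).1]
  have h2 : h = 0 ∨ h = 2 := by omega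
  rcases h2 with rfl | rfl
  · rw [Nat.cast_zero]
    decide
  · decide

/-- the relation for one pair -/
theorem pair (hDCK : Stmt_DCK) (hDXK : Stmt_DXK) (hPT : Stmt_PT) (hPTX : Stmt_PTX)
    (hLCL : LCL) {n m k : ℕ} {π : Fin m → PP} {p e : Fin m → ℕ} {r f : Fin k → ℕ}
    (hn : NF n π p e r f) {h : ℕ} (hh : h ≤ 2) {b x P Q P' Q' : Eis} (hx0 : x ≠ 0)
    (hxnc : ¬ ∃ t : Eis, t ^ 3 = x)
    (H : HypD (3 ^ h * n) b x P Q P' Q' ∨ (h ≠ 1 ∧ HypX (3 ^ h * n) b x P Q P' Q')) :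
    ∃ f₀ : ℕ, 0 < f₀ ∧ ∀ f : ℕ, 0 < f → f₀ ∣ f →
    ∃ (C : ZMod 3) (Φ : (ZMod f)ˣ →* Multiplicative (ZMod 3)) (N₀ : ℕ),
    ∀ (E q : ℕ) (hQ : q.Coprime f), (E = 1 ∨ E = 2) → q.Prime → N₀ < q → q % 3 = 2 →
      (∀ σ : PP, tm σ.1 b (((3 ^ h * n : ℕ) : Eis) * (q : Eis) ^ E) = 0) →
      (∀ σ : PP, tm σ.1 x (((3 ^ h * n : ℕ) : Eis) * (q : Eis) ^ E) = 0) →
      Occ (BB h n E q) x → ∀ ξ : Eis, (q : Eis) ∣ ξ ^ 3 - x →
        C + E * ((Φ (ZMod.unitOfCoprime q hQ)).toAdd - TAUE q P Q P' Q' ξ) = 0 := by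
  have hn0 : 0 < n := PT.FINA.pos_of_nf hn
  rcases H with H | ⟨h1, H⟩
  · obtain ⟨f₀, hf₀, hf⟩ := hDCK _ _ _ _ _ _ _ H
    refine ⟨f₀, hf₀, fun f hf1 hf2 => ?_⟩
    obtain ⟨C, Φ, N₀, hC⟩ := hf f hf1 hf2
    refine ⟨C, Φ, N₀, ?_⟩
    intro E q hQ hE hq hqN hq3 hb hx hOcc ξ hξ
    obtain ⟨X, Y, hpt⟩ := hPT (BB h n E q) x (BB_ne hn0 hq) hx0 hxnc hOcc
    rw [BB_eis] at hpt
    exact hC E q hQ hE hq hqN hq3 hb hx X Y ξ hpt hξ
  · obtain ⟨f₀, hf₀, hf⟩ := hDXK _ _ _ _ _ _ _ H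
    refine ⟨f₀, hf₀, fun f hf1 hf2 => ?_⟩
    obtain ⟨C, Φ, N₀, hC⟩ := hf f hf1 hf2
    refine ⟨C, Φ, N₀, ?_⟩
    intro E q hQ hE hq hqN hq3 hb hx hOcc ξ hξ
    obtain ⟨X, Y, hpt, hg⟩ := hPTX (BB h n E q) x (BB_ne hn0 hq)
      (lv_BB_ne hLCL hn hq (by omega) hh h1) hx0 hxnc hOcc
    rw [BB_eis] at hpt
    rw [← BB_int] at hg
    exact hC E q hQ hE hq hqN hq3 hb hx X Y ξ hpt hg hξ

/-- the classes of a system are not cubes -/
theorem SysZ_nc {M N : ℕ} {z : Fin M → Eis} {α β : Fin N → Fin M} {P Q P' Q' : Fin N → Eis}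
    (hS : SysZ z α β P Q P' Q') (i : Fin M) : ¬ ∃ t : Eis, t ^ 3 = z i := by
  rintro ⟨t, ht⟩
  refine hS.ind (Pi.single i 1) ⟨i, ?_⟩ ⟨t, ?_⟩
  · rw [Pi.single_eq_same]
    norm_num
  · have h1 : ∏ j, z j ^ (Pi.single i 1 : Fin M → ℕ) j = z i := by
      rw [Finset.prod_eq_single i]
      · rw [Pi.single_eq_same, pow_one]
      · intro j _ hj
        rw [Pi.single_eq_of_ne hj, pow_zero]
      · intro hi
        exact absurd (mem_univ i) hi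
    rw [ht, h1]

end MS2

open CTK MS2 in
/-- PTK_MS2. -/
theorem MS2_thm (hSPP : SPP) (hLCL : LCL) (hDCK : Stmt_DCK) (hDXK : Stmt_DXK) (hPT : Stmt_PT)
    (hPTX : Stmt_PTX) (hZS : Stmt_ZS) (hZA : Stmt_ZA) : Stmt_MS2 := by
  classical
  intro h n m k π p e r f w0 c hNF hh M N y α β hT P Q P' Q' hSys hHyp
  have hn0 : 0 < n := PT.FINA.pos_of_nf hNF
  have hN0 : 0 < 3 ^ h * n := Nat.mul_pos (pow_pos (by norm_num) _) hn0
  have hx0 : ∀ i, zN π e (y i) ≠ 0 := fun i => (hZA n m k π p e r f hNF (y i)).1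
  have hnd : ∀ (v : Fin (m + 1) → ZMod 3) (q : ℕ), q.Prime → q % 3 = 2 → ¬ q ∣ n →
      ¬ (q : Eis) ∣ zN π e v := by
    intro v q hq hq3 hqn
    obtain ⟨-, -, -, h4, -⟩ := hZA n m k π p e r f hNF v
    obtain ⟨σ, hσ⟩ := hSPP.2.2.2.2.1 q hq hq3
    have h5 := h4 σ
    rw [hσ] at h5
    exact h5 fun h6 => hqn (nat_dvd h6)
  -- the conductor
  choose F0 hF0 hF1 using fun j => pair hDCK hDXK hPT hPTX hLCL hNF hh (hx0 (α j))
    (SysZ_nc hSys (α j)) (hHyp j)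
  refine ⟨∏ j, F0 j, Finset.prod_pos fun j _ => hF0 j, ?_⟩
  intro F hFpos hFdvd κ hκ1
  have hFd : ∀ j, F0 j ∣ F := fun j => (Finset.dvd_prod_of_mem F0 (mem_univ j)).trans hFdvd
  choose C Φ N₀ hC using fun j => hF1 j F hFpos (hFd j)
  have hMN : ∀ j, N₀ j ≤ ∑ j, N₀ j := fun j =>
    Finset.single_le_sum (f := N₀) (fun i _ => Nat.zero_le _) (mem_univ j)
  have hmain : ∀ (E q : ℕ), (E = 1 ∨ E = 2) → q.Prime → 3 ^ h * n + F + ∑ j, N₀ j < q →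
      q ∈ QM h n π e w0 c y α 2 E →
      ∃ hQ : q.Coprime F, (∀ i, sym (q : Eis) (zN π e (y i)) = 0) ∧
        ∀ (j : Fin N) (ξ : Eis), (q : Eis) ∣ ξ ^ 3 - zN π e (y (α j)) →
          C j + E * ((Φ j (ZMod.unitOfCoprime q hQ)).toAdd -
            TAUE q (P j) (Q j) (P' j) (Q' j) ξ) = 0 := by
    intro E q hE hq hqM ⟨hq3, hIn, hOcc⟩
    have hqN : ¬ q ∣ 3 ^ h * n := fun h => by
      have := Nat.le_of_dvd hN0 h
      omega
    have hqn : ¬ q ∣ n := fun h => hqN (Dvd.dvd.mul_left h _)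
    have hQ : q.Coprime F := by
      rw [Nat.Prime.coprime_iff_not_dvd hq]
      intro h
      have := Nat.le_of_dvd hFpos h
      omega
    have hSel : ∀ i, ∀ σ : PP,
        tm σ.1 (zN π e (y i)) (((3 ^ h * n : ℕ) : Eis) * (q : Eis) ^ E) = 0 := by
      intro i σ
      have h1 := (hZS h n m k π p e r f w0 c E q hNF hh hE hq hq3 hIn hqn (y i)
        (hT.mem i)).sym σ
      rwa [BB_eis] at h1
    refine ⟨hQ, fun i => sym_zero hSPP hq hq3 hE hqN (hnd (y i) q hq hq3 hqn) (hSel i), ?_⟩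
    intro j ξ hξ
    exact hC j E q hQ hE hq (by have := hMN j; omega) hq3 (hSel (β j)) (hSel (α j)) (hOcc j)
      ξ hξ
  refine ⟨C, assemble Φ, 3 ^ h * n + F + ∑ j, N₀ j, ?_⟩
  intro q hq hqM
  constructor
  · intro hqY
    obtain ⟨hQ, h2, h4⟩ := hmain 1 q (Or.inl rfl) hq hqM hqY
    obtain ⟨hq3, hIn, -⟩ := hqY
    refine ⟨hQ, hq3, ?_, h2, ?_⟩
    · rw [hκ1]
      funext i
      refine Fin.cases ?_ (fun i => ?_) i
      · rw [Fin.cons_zero, Fin.cons_zero]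
        have h5 := hIn.1
        rw [pow_one] at h5
        exact h5
      · rw [Fin.cons_succ, Fin.cons_succ]
        have h5 := hIn.2 i
        rw [Nat.cast_one, one_mul] at h5
        exact h5
    · intro j ξ hξ
      have h5 := h4 j ξ hξ
      rw [assemble_apply]
      rw [Nat.cast_one, one_mul] at h5
      linear_combination -h5
  · intro hqY
    obtain ⟨hQ, h2, h4⟩ := hmain 2 q (Or.inr rfl) hq hqM hqY
    obtain ⟨hq3, hIn, -⟩ := hqY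
    refine ⟨hQ, hq3, ?_, h2, ?_⟩
    · rw [hκ1]
      funext i
      refine Fin.cases ?_ (fun i => ?_) i
      · rw [Fin.cons_zero, Pi.neg_apply, Fin.cons_zero]
        have h5 := hIn.1
        rw [CL.wt_sq2 hq3] at h5
        exact neg_of_two h5
      · rw [Fin.cons_succ, Pi.neg_apply, Fin.cons_succ]
        exact neg_of_two (hIn.2 i)
    · intro j ξ hξ
      have h5 := h4 j ξ hξ
      rw [assemble_apply]
      rw [show ((2 : ℕ) : ZMod 3) = -1 from by decide] at h5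
      linear_combination h5

end Pool.Agent.PTK
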