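import Pool.Agent.PTK.StW

/-!
# PTK_MTL: from moments to tails
-/

set_option autoImplicit false

open NumberField IsDedekindDomain Finset
open scoped nonZeroDivisors Pointwise

namespace Pool.Agent.PTK

open Pool.Agent.Lib_helper18 Pool.Agent.Lib_helper18.Eis Pool.Agent.Lib_helper84.Cub
open Pool.Agent.PT Pool.Agent.PTE Pool.Agent.PT3 Pool.Agent.PTL Pool.Agent.PTN

namespace MTL

theorem tf_le (k t r : ℕ) : tf (t ≤ r) ≤ (1 / 3 ^ (k * t)) * (3 : ℝ) ^ (k * r) := by
  unfold tf
  split_ifs with h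
  · rw [one_div, inv_mul_eq_div, le_div_iff₀ (by positivity), one_mul]
    exact pow_le_pow_right₀ (by norm_num) (Nat.mul_le_mul_left k h)
  · positivity

end MTL

/-- PTK_MTL -/
theorem MTL_thm : Stmt_MTL := by
  classical
  rintro n a W k t x ⟨K, hK⟩
  refine ⟨K / 3 ^ (k * t), fun σ h1 h2 T => ?_⟩
  have h3 := hK σ h1 h2 T
  have h4 : SumA n a W (fun A => tf (t ≤ CubeRank.rr A)) σ T ≤
      (1 / 3 ^ (k * t)) * SumA n a W (fun A => (3 : ℝ) ^ (k * CubeRank.rr A)) σ T := by
    unfold SumA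
    rw [Finset.mul_sum]
    refine Finset.sum_le_sum fun e _ => ?_
    rw [Finset.mul_sum]
    refine Finset.sum_le_sum fun q _ => ?_
    split_ifs with hc
    · rw [← mul_assoc]
      exact mul_le_mul_of_nonneg_right (MTL.tf_le k t _) (Real.rpow_nonneg (Nat.cast_nonneg q) _)
    · rw [mul_zero]
  refine h4.trans ((mul_le_mul_of_nonneg_left h3 (by positivity)).trans (le_of_eq ?_))
  ring

end Pool.Agent.PTK
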