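import Pool.Agent.PTK.StW
import Pool.Agent.PTL.CL

/-!
# PTK_MTZ: the joint density, `q = 1 (mod 3)`, all rational classes cubes modulo `q`
-/

set_option autoImplicit false

open NumberField IsDedekindDomain Finset
open scoped nonZeroDivisors Pointwise

namespace Pool.Agent.PTK

open Pool.Agent.Lib_helper18 Pool.Agent.Lib_helper18.Eis Pool.Agent.Lib_helper84.Cub
open Pool.Agent.PT Pool.Agent.PTE Pool.Agent.PT3 Pool.Agent.PTL Pool.Agent.PTN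

/-- PTK_MTZ. -/
theorem MTZ_thm (hCLSC : CLSC) (hCLSCS : CLSCS) (hMSY : Stmt_MSY) (hMPZ : Stmt_MPZ)
    (hMS1 : Stmt_MS1) (hBMZ : Stmt_BMZ) : Stmt_MTZ := by
  classical
  intro h n m k π p e r f w0 c s τ b X Y P Q P' Q' hNF hh hPl Mm N y α β hT t
  obtain ⟨P1, Q1, P1', Q1', hSys, hHyp⟩ := hMSY h n m k π p e r f w0 c hNF hh Mm N y α β hT
  obtain ⟨f0, hf0, hf1⟩ := hMPZ h n m k π p e r f w0 c s τ b X Y P Q P' Q' hNF hh hPl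
  obtain ⟨g0, hg0, hg1⟩ := hMS1 h n m k π p e r f w0 c hNF hh Mm N y α β hT P1 Q1 P1' Q1' hSys hHyp
  obtain ⟨F, hF, hF9, hpF, hfF, hgF⟩ : ∃ F : ℕ, 0 < F ∧ 9 ∣ F ∧ (∀ i, p i ∣ F) ∧
      f0 ∣ F ∧ g0 ∣ F := by
    refine ⟨9 * (∏ i, p i) * (f0 * g0), ?_, ?_, ?_, ?_, ?_⟩
    · have h1 : 0 < ∏ i, p i := Finset.prod_pos fun i _ => (hNF.pp i).pos
      positivity
    · exact Dvd.dvd.mul_right (Dvd.intro _ rfl) _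
    · intro i
      exact Dvd.dvd.mul_right (Dvd.dvd.mul_left (Finset.dvd_prod_of_mem p (mem_univ i)) _) _
    · exact Dvd.dvd.mul_left (Dvd.intro _ rfl) _
    · exact Dvd.dvd.mul_left (Dvd.intro_left _ rfl) _
  obtain ⟨κ, hκ1, hκ2⟩ := hCLSC m π p hNF.pp hNF.p1 hNF.pπ hNF.pinj F hF hF9 hpF
  have hκ3 := hCLSCS F m κ hF hF9 hκ2
  obtain ⟨C, Φ, N1, hN1⟩ := hf1 F hF hfF κ hκ1
  obtain ⟨C', Φ', N2, hN2⟩ := hg1 F hF hgF κ hκ1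
  obtain ⟨K, hK⟩ := hBMZ s b P Q P' Q' Mm N (fun i => zN π e (y i)) α β P1 Q1 P1' Q1' F m t
    κ (Fin.cons w0 c) C Φ C' Φ' hPl.sys hSys hF hF9 hκ3
  obtain ⟨M, hM⟩ : ∃ M, M = N1 + N2 := ⟨_, rfl⟩
  refine ⟨K + 2 * (2 * ((Finset.range (M + 1)).card : ℝ)), fun σ h1 hσ2 => ?_⟩
  have hB := hK σ h1 hσ2
  have hsub1 : ∀ q : ℕ, q.Prime → M < q →
      q ∈ {q : ℕ | (q ∈ QM h n π e w0 c y α 1 1 ∧ q ∈ ZP b) ∧
        t ≤ kS h n b X Y P Q P' Q' 1 q} →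
      q ∈ SPF b P Q P' Q' t κ (Fin.cons w0 c) C Φ ∩
        SPZU (fun i => zN π e (y i)) α P1 Q1 P1' Q1' κ (Fin.cons w0 c) C' Φ' := by
    intro q hq hqM ⟨⟨hqY, hqP⟩, hqt⟩
    exact ⟨((hN1 q t hq (by omega) hqY.1 hqP).1 hqY.2.1 hqt),
      (hN2 q hq (by omega)).1 hqY⟩
  have hsub2 : ∀ q : ℕ, q.Prime → M < q →
      q ∈ {q : ℕ | (q ∈ QM h n π e w0 c y α 1 2 ∧ q ∈ ZP b) ∧
        t ≤ kS h n b X Y P Q P' Q' 2 q} →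
      q ∈ SMF b P Q P' Q' t κ (Fin.cons w0 c) C Φ ∩
        SMZU (fun i => zN π e (y i)) α P1 Q1 P1' Q1' κ (Fin.cons w0 c) C' Φ' := by
    intro q hq hqM ⟨⟨hqY, hqP⟩, hqt⟩
    exact ⟨((hN1 q t hq (by omega) hqY.1 hqP).2 hqY.2.1 hqt),
      (hN2 q hq (by omega)).2 hqY⟩
  have i1 := CL.sm_le_add _ _ M hsub1 h1
  have i2 := CL.sm_le_add _ _ M hsub2 h1
  have e2 : (1 / 3 ^ s / 3 ^ N / 3 ^ (m + 1) * LI s t : ℝ) =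
      1 / 3 ^ s * LI s t / 3 ^ N / 3 ^ (m + 1) := by
    ring
  rw [e2]
  linarith

end Pool.Agent.PTK
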