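import Pool.Agent.PTK.StM
import Pool.Agent.PTK.JZ

/-!
# MZF: existence of the joint governing field, several base classes
-/

set_option autoImplicit false

open NumberField IsDedekindDomain Finset
open scoped nonZeroDivisors Pointwise

namespace Pool.Agent.PTK

open Pool.Agent.Lib_helper18 Pool.Agent.Lib_helper18.Eis Pool.Agent.Lib_helper84.Cub
open Pool.Agent.PT Pool.Agent.PTE Pool.Agent.PT3 Pool.Agent.PTL Pool.Agent.PTN

open JZ Pool.Agent.PT.GZERO in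
/-- MZF: existence of the joint governing field. -/
theorem MZF_thm : Stmt_MZF := by
  intro s M N b p q p' q' z α β P Q P' Q' f hSys hSysZ hf h9
  have : NeZero (f : AlgebraicClosure ℚ) := ⟨Nat.cast_ne_zero.2 hf.ne'⟩
  have : NeZero f := ⟨hf.ne'⟩
  obtain ⟨ζ, hζ⟩ := HasEnoughRootsOfUnity.exists_primitiveRoot (AlgebraicClosure ℚ) f
  have hω := rel_of_prim (prim_pow hf h9 hζ)
  set ι₀ : Eis →+* AlgebraicClosure ℚ := GFR.lift (ζ ^ (f / 3)) hω with hι₀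
  -- the plus part
  have hN : ∀ j i, j ≠ i → p j i ^ 3 + b j * q j i ^ 3 ≠ 0 ∧
      p' j i ^ 3 + b j * q' j i ^ 3 ≠ 0 := by
    intro j i hji
    have h1 := hSys.sol j i hji
    refine ⟨h1.n1, fun h2 => h1.n1 ?_⟩
    rw [h1.eq, h2, mul_zero]
  have hA : ∀ (j i : Fin s) (ρ : AlgebraicClosure ℚ), ∃ A : AlgebraicClosure ℚ, j ≠ i →
      ρ ^ 3 = (b j : AlgebraicClosure ℚ) →
      A ^ 3 * aD (ζ ^ (f / 3)) (p j i) (q j i) (p' j i) (q' j i) ρ =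
        aN (ζ ^ (f / 3)) (p j i) (q j i) (p' j i) (q' j i) ρ := by
    intro j i ρ
    obtain ⟨A, hA⟩ := IsAlgClosed.exists_pow_nat_eq
      (aN (ζ ^ (f / 3)) (p j i) (q j i) (p' j i) (q' j i) ρ /
        aD (ζ ^ (f / 3)) (p j i) (q j i) (p' j i) (q' j i) ρ) (n := 3) (by norm_num)
    refine ⟨A, fun hji hρ => ?_⟩
    rw [hA, div_mul_cancel₀]
    exact (ne_of_prod hω (hN j i hji).1 (hN j i hji).2 hρ).1
  choose A hA using hA
  -- the minus part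
  have hNK : ∀ r, P r ^ 3 + z (α r) * Q r ^ 3 ≠ 0 ∧ P' r ^ 3 + z (α r) * Q' r ^ 3 ≠ 0 := by
    intro r
    have h1 := hSysZ.sol r
    refine ⟨h1.n1, fun h2 => h1.n1 ?_⟩
    rw [h1.eq, h2, mul_zero]
  have hB : ∀ (r : Fin N) (ρ : AlgebraicClosure ℚ), ∃ A : AlgebraicClosure ℚ,
      ρ ^ 3 = ι₀ (z (α r)) →
      A ^ 3 * aDE ι₀ (P r) (Q r) (P' r) (Q' r) ρ = aNE ι₀ (P r) (Q r) (P' r) (Q' r) ρ := by
    intro r ρ
    obtain ⟨A, hA⟩ := IsAlgClosed.exists_pow_nat_eq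
      (aNE ι₀ (P r) (Q r) (P' r) (Q' r) ρ / aDE ι₀ (P r) (Q r) (P' r) (Q' r) ρ) (n := 3)
      (by norm_num)
    refine ⟨A, fun hρ => ?_⟩
    rw [hA, div_mul_cancel₀]
    exact (ne_of_prodE ι₀ (hNK r).1 (hNK r).2 hρ).1
  choose B hB using hB
  have hroot : ∀ c : AlgebraicClosure ℚ, ∃ θ : AlgebraicClosure ℚ, θ ^ 3 = c :=
    fun c => IsAlgClosed.exists_pow_nat_eq _ (by norm_num)
  obtain ⟨L, iF, iN, iG, ι, hι⟩ := exists_field
    ({ζ} ∪ ((⋃ j : Fin s, {ρ | ρ ^ 3 = (b j : AlgebraicClosure ℚ)}) ∪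
      ((⋃ j : Fin M, {ρ | ρ ^ 3 = ι₀ (z j)}) ∪
        ((⋃ j : Fin s, ⋃ i : Fin s, A j i '' {ρ | ρ ^ 3 = (b j : AlgebraicClosure ℚ)}) ∪
          ⋃ r : Fin N, B r '' {ρ | ρ ^ 3 = ι₀ (z (α r))}))))
    ((Set.finite_singleton ζ).union ((Set.finite_iUnion fun j => fin_roots _).union
      ((Set.finite_iUnion fun j => fin_roots _).union
        ((Set.finite_iUnion fun j => Set.finite_iUnion fun i => (fin_roots _).image _).union
          (Set.finite_iUnion fun j => (fin_roots _).image _)))))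
  have hinj : Function.Injective ι := ι.injective
  obtain ⟨y₀, hz⟩ := hι ζ (Or.inl rfl)
  have hzp : IsPrimitiveRoot y₀ f := by
    refine IsPrimitiveRoot.of_map_of_injective (f := ι) ?_ hinj
    rw [hz]
    exact hζ
  have hzω : ι (y₀ ^ (f / 3)) = ζ ^ (f / 3) := by rw [map_pow, hz]
  have hrel := rel_of_prim (prim_pow hf h9 hzp)
  set κ : Eis →+* L := GFR.lift (y₀ ^ (f / 3)) hrel with hκ
  have hκw : κ w = y₀ ^ (f / 3) := GFR.lift_w _ _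
  have hcomp : ∀ a : Eis, ι (κ a) = ι₀ a := by
    intro a
    change ι ((a.re : L) + (a.im : L) * y₀ ^ (f / 3)) =
      (a.re : AlgebraicClosure ℚ) + (a.im : AlgebraicClosure ℚ) * ζ ^ (f / 3)
    rw [map_add, map_mul, map_intCast, map_intCast, hzω]
  have hNmap : ∀ (u v u' v' : ℤ) (ρ : L), ι (aN (y₀ ^ (f / 3)) u v u' v' ρ) =
      aN (ζ ^ (f / 3)) u v u' v' (ι ρ) := by
    intro u v u' v' ρ
    unfold aN
    simp only [map_mul, map_add, map_pow, map_intCast, hz]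
  have hDmap : ∀ (u v u' v' : ℤ) (ρ : L), ι (aD (y₀ ^ (f / 3)) u v u' v' ρ) =
      aD (ζ ^ (f / 3)) u v u' v' (ι ρ) := by
    intro u v u' v' ρ
    unfold aD
    simp only [map_mul, map_add, map_pow, map_intCast, hz]
  have hNmapE : ∀ (a c a' c' : Eis) (ρ : L), ι (aNE κ a c a' c' ρ) =
      aNE ι₀ a c a' c' (ι ρ) := by
    intro a c a' c' ρ
    unfold aNE
    simp only [map_mul, map_add, map_pow, hcomp]
  have hDmapE : ∀ (a c a' c' : Eis) (ρ : L), ι (aDE κ a c a' c' ρ) =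
      aDE ι₀ a c a' c' (ι ρ) := by
    intro a c a' c' ρ
    unfold aDE
    simp only [map_mul, map_add, map_pow, hcomp]
  refine ⟨L, iF, iN, y₀, κ, ?_, ?_⟩
  · rw [hκw]
    refine ⟨iG, hzp, h9, rfl, hrel, ?_, ?_, ?_⟩
    · intro j
      obtain ⟨θ, hθ⟩ := hroot (b j : AlgebraicClosure ℚ)
      obtain ⟨y, hy⟩ := hι θ (Or.inr (Or.inl (Set.mem_iUnion.2 ⟨j, hθ⟩)))
      refine ⟨y, hinj ?_⟩
      rw [map_pow, hy, hθ, map_intCast]
    · intro j i hji ρ hρ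
      have hρ' : (ι ρ) ^ 3 = (b j : AlgebraicClosure ℚ) := by rw [← map_pow, hρ, map_intCast]
      obtain ⟨y, hy⟩ := hι (A j i (ι ρ)) (Or.inr (Or.inr (Or.inr (Or.inl
        (Set.mem_iUnion.2 ⟨j, Set.mem_iUnion.2 ⟨i, ⟨ι ρ, hρ', rfl⟩⟩⟩)))))
      refine ⟨y, hinj ?_⟩
      rw [map_mul, map_pow, hy, hDmap, hNmap]
      exact hA j i (ι ρ) hji hρ'
    · intro j i hji ρ hρ
      exact ne_of_prod hrel (hN j i hji).1 (hN j i hji).2 hρ
  · refine ⟨iG, hzp, h9, hκw, ?_, ?_, ?_⟩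
    · intro j
      obtain ⟨θ, hθ⟩ := hroot (ι₀ (z j))
      obtain ⟨y, hy⟩ := hι θ (Or.inr (Or.inr (Or.inl (Set.mem_iUnion.2 ⟨j, hθ⟩))))
      refine ⟨y, hinj ?_⟩
      rw [map_pow, hy, hθ, hcomp]
    · intro r ρ hρ
      have hρ' : (ι ρ) ^ 3 = ι₀ (z (α r)) := by rw [← map_pow, hρ, hcomp]
      obtain ⟨y, hy⟩ := hι (B r (ι ρ)) (Or.inr (Or.inr (Or.inr (Or.inr
        (Set.mem_iUnion.2 ⟨r, ⟨ι ρ, hρ', rfl⟩⟩)))))
      refine ⟨y, hinj ?_⟩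
      rw [map_mul, map_pow, hy, hDmapE, hNmapE]
      exact hB r (ι ρ) hρ'
    · intro r ρ hρ
      exact ne_of_prodE κ (hNK r).1 (hNK r).2 hρ

end Pool.Agent.PTK
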