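import Pool.Agent.PTK.StK

/-!
# PAT (helper9): every prime has a pattern
-/

set_option autoImplicit false

open NumberField IsDedekindDomain Finset
open scoped nonZeroDivisors Pointwise

namespace Pool.Agent.PTK

open Pool.Agent.Lib_helper18 Pool.Agent.Lib_helper18.Eis Pool.Agent.Lib_helper84.Cub
open Pool.Agent.PT Pool.Agent.PTE Pool.Agent.PT3 Pool.Agent.PTL Pool.Agent.PTN

/-- PAT: every prime has a pattern. -/
theorem PAT_thm : Stmt_PAT := by
  intro d v _
  refine ⟨0, fun q _ _ _ => ?_⟩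
  by_cases hZ : q ∈ ZP v
  · exact Or.inl hZ
  · right
    have h1 : ¬ ∀ ρ : PP, (q : Eis) = ρ.1 * conj ρ.1 → ∀ i, sym ρ.1 (v i : Eis) = 0 := hZ
    push Not at h1
    obtain ⟨ρ, hρ, i, hi⟩ := h1
    refine ⟨fun i => sym ρ.1 (v i : Eis), fun i => - sym ρ.1 (v i : Eis), ?_, ?_, ?_, ?_, ?_⟩
    · intro h
      exact hi (congrFun h i)
    · intro h
      exact hi (neg_eq_zero.1 (congrFun h i))
    · intro h
      have h2 : sym ρ.1 (v i : Eis) = - sym ρ.1 (v i : Eis) := congrFun h i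
      have h3 : ∀ z : ZMod 3, z = - z → z = 0 := by decide
      exact hi (h3 _ h2)
    · exact ⟨ρ, hρ, 1, by decide, fun i => by rw [one_mul]⟩
    · exact ⟨ρ, hρ, -1, by decide, fun i => by ring⟩

end Pool.Agent.PTK
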