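import Pool.Agent.PTK.StV
import Pool.Agent.PTK.AM2
import Pool.Agent.PTN.LAW
import Pool.Agent.PTN.CAB

/-! PTK_PR2 (helper3): small ranks in a class, `q = 2 (mod 3)`. -/

set_option autoImplicit false

open Finset

namespace Pool.Agent.PTK

open Pool.Agent.Lib_helper18 Pool.Agent.Lib_helper18.Eis Pool.Agent.Lib_helper84.Cub
open Pool.Agent.PT Pool.Agent.PTE Pool.Agent.PT3 Pool.Agent.PTL Pool.Agent.PTN

namespace PR2

theorem p_ne {n m k : ℕ} {π : Fin m → PP} {p e : Fin m → ℕ} {r f : Fin k → ℕ}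
    (hN : NF n π p e r f) {q : ℕ} (hM : n < q) (i : Fin m) : q ≠ p i := by
  rintro rfl
  have h1 : p i ∣ n := by
    rw [hN.eq]
    refine Dvd.dvd.mul_right ?_ _
    refine Dvd.dvd.trans (dvd_pow_self (p i) ?_) (Finset.dvd_prod_of_mem _ (Finset.mem_univ i))
    rcases hN.pe i with h | h <;> rw [h] <;> norm_num
  exact absurd (Nat.le_of_dvd (AV2.nf_pos hN) h1) (by omega)

/-- the pointwise inequality -/
theorem point {t d κ ρ : ℕ} {D : ℝ} (hD : 0 < D) (hcase : κ < t → 3 ≤ d + κ → D + 1 ≤ 3 ^ d)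
    (hr : ρ ≤ d + κ) :
    (1 + 1 / D) - ((if t ≤ κ then 1 else 0) + 1 / D * 3 ^ d) ≤ tf (ρ ≤ 2) := by
  have h1 : (1 : ℝ) ≤ 3 ^ d := one_le_pow₀ (by norm_num)
  have h2 : (0 : ℝ) < 1 / D := by positivity
  have h3 : 1 / D * 1 ≤ 1 / D * 3 ^ d := mul_le_mul_of_nonneg_left h1 h2.le
  unfold tf
  by_cases hρ : ρ ≤ 2
  · rw [if_pos hρ]
    split_ifs <;> linarith
  · rw [if_neg hρ]
    by_cases ht : t ≤ κ
    · rw [if_pos ht]
      linarith
    · rw [if_neg ht]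
      have h4 := hcase (by omega) (by omega)
      have h5 : 1 / D * (D + 1) ≤ 1 / D * 3 ^ d := mul_le_mul_of_nonneg_left h4 h2.le
      have h6 : 1 / D * (D + 1) = 1 + 1 / D := by
        field_simp
      linarith

/-- the lower bound with two parameters -/
theorem low (hUPS : Stmt_UPS) (hUPL : Stmt_UPL) (hCLT : Stmt_CLT) (hSPP : SPP)
    (hJP2 : Stmt_JP2) (hVDIM : Stmt_VDIM) (hGMB : Stmt_GMB) (hESB : Stmt_ESB)
    (hNBW : Stmt_NBW) (hWGR : Stmt_WGR)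
    {h n m k : ℕ} {π : Fin m → PP} {p e : Fin m → ℕ} {r f : Fin k → ℕ}
    {w0 : ZMod 3} {c : Fin m → ZMod 3} {s : ℕ} {τ : Fin s → Fin 3} {b X Y : Fin s → ℤ}
    {P Q P' Q' : Fin s → Fin s → ℤ} (hN : NF n π p e r f) (hh : h ≤ 2) (hd : dN h n w0 ≤ 1)
    (hS : PlS h n π w0 c τ b X Y P Q P' Q') {t : ℕ} {D l : ℝ} (hD : 0 < D)
    (hl : LI s t ≤ l) (hcase : ∀ d κ : ℕ, κ < t → 3 ≤ d + κ → D + 1 ≤ 3 ^ d) :
    BelowA ((3 ^ h * n : ℕ) : ℤ) 2 (Kl π w0 c) (fun A => tf (CubeRank.rr A ≤ 2))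
      ((1 + 1 / D) * (1 / 3 ^ (m + 1)) - (l + 1 / D * 4) / 3 ^ (m + 1)) := by
  have hone : Esk s (fun c => (3 : ℝ) ^ (0 * c)) ≤ 1 := by
    have h1 := hESB s 0
    unfold MoB at h1
    rwa [Finset.range_zero, Finset.prod_empty] at h1
  have hmono : Monotone fun c : ℕ => (3 : ℝ) ^ (0 * c) := by
    intro a b _
    simp
  have hmono' : Monotone fun c : ℕ => (if t ≤ c then (1 : ℝ) else 0) := by
    intro a b hab
    show (if t ≤ a then (1 : ℝ) else 0) ≤ if t ≤ b then (1 : ℝ) else 0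
    split_ifs
    · exact le_rfl
    · omega
    · norm_num
    · exact le_rfl
  have hEl : Esk s (fun c => if t ≤ c then (1 : ℝ) else 0) ≤ l := by
    rw [LAW.Esk_ind]
    exact hl
  have hc0 : cM 0 (dN h n w0) = 1 := by
    unfold cM MoB
    rw [if_pos hd, Finset.range_zero, Finset.prod_empty]
  have hc1 : cM 1 (dN h n w0) = 4 := by
    rw [AM2.cM_one hGMB, if_pos hd]
  have b1 := AM2.jp hUPS hJP2 hVDIM hGMB hN hh hS 0 _ hmono' (by split_ifs <;> norm_num) hEl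
  have b2 := AM2.jp hUPS hJP2 hVDIM hGMB hN hh hS 1 (fun c => (3 : ℝ) ^ (0 * c)) hmono
    (by norm_num) hone
  rw [hc0, one_mul] at b1
  rw [hc1, mul_one] at b2
  have d2 := hUPS.2.2 _ _ _ (1 / D) (by positivity) b2
  set S : ℕ → Set ℕ := fun E => {q | q % 3 = 2 ∧ InCT E π w0 c q} with hSdef
  set G : ℕ → ℕ → ℝ := fun E q => (if t ≤ kS h n b X Y P Q P' Q' E q then (1 : ℝ) else 0) +
    1 / D * (Nat.card (WqS h n π p e r w0 c (BB h n E q)) : ℝ) with hGdef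
  have key := hUPS.1 (Fin 2) S G (fun _ => S)
    ![fun E q => (Nat.card (WqS h n π p e r w0 c (BB h n E q)) : ℝ) ^ 0 *
        (if t ≤ kS h n b X Y P Q P' Q' E q then (1 : ℝ) else 0),
      fun E q => 1 / D * ((Nat.card (WqS h n π p e r w0 c (BB h n E q)) : ℝ) ^ 1 *
        3 ^ (0 * kS h n b X Y P Q P' Q' E q))]
    ![l / 3 ^ (m + 1), 1 / D * (4 / 3 ^ (m + 1))] 1 0 one_pos
    (fun i E q => by
      fin_cases i
      · show (0 : ℝ) ≤ (Nat.card (WqS h n π p e r w0 c (BB h n E q)) : ℝ) ^ 0 *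
          (if t ≤ kS h n b X Y P Q P' Q' E q then (1 : ℝ) else 0)
        positivity
      · show (0 : ℝ) ≤ 1 / D * ((Nat.card (WqS h n π p e r w0 c (BB h n E q)) : ℝ) ^ 1 *
          3 ^ (0 * kS h n b X Y P Q P' Q' E q))
        positivity)
    (fun E q hE hq hM hqS => by
      rw [Fin.sum_univ_two, if_pos hqS, if_pos hqS]
      show 1 * ((if t ≤ kS h n b X Y P Q P' Q' E q then (1 : ℝ) else 0) +
          1 / D * (Nat.card (WqS h n π p e r w0 c (BB h n E q)) : ℝ)) ≤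
        (Nat.card (WqS h n π p e r w0 c (BB h n E q)) : ℝ) ^ 0 *
          (if t ≤ kS h n b X Y P Q P' Q' E q then (1 : ℝ) else 0) +
        1 / D * ((Nat.card (WqS h n π p e r w0 c (BB h n E q)) : ℝ) ^ 1 *
          3 ^ (0 * kS h n b X Y P Q P' Q' E q))
      simp only [zero_mul, pow_zero, pow_one, one_mul, mul_one]
      exact le_rfl)
    (fun i => by
      fin_cases i
      · exact b1
      · exact d2)
  have e1 : (∑ i : Fin 2, (![l / 3 ^ (m + 1), 1 / D * (4 / 3 ^ (m + 1))] : Fin 2 → ℝ) i) / 1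
      = (l + 1 / D * 4) / 3 ^ (m + 1) := by
    rw [Fin.sum_univ_two]
    simp only [Matrix.cons_val_zero, Matrix.cons_val_one]
    ring
  rw [e1] at key
  refine hUPL ((3 ^ h * n : ℕ) : ℤ) 2 (max 3 n) (Kl π w0 c) (fun A => CubeRank.rr A ≤ 2) S G _
    (1 / 3 ^ (m + 1)) (1 + 1 / D) (by positivity) ?_ ?_ ?_ key
  · intro E q hE hq hM hqS
    exact ⟨hqS.1, (CAB.kl_iff hSPP hN w0 c hq
      (p_ne hN (lt_of_le_of_lt (le_max_right _ _) hM)) E).2 hqS.2⟩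
  · intro E q hE hq hM hqS
    obtain ⟨d, hd', hr⟩ := AV2.rk hNBW hWGR hN hh hS hE hq hM hqS
    have hB : ((3 ^ h * n : ℕ) : ℤ) * (q : ℤ) ^ E = BB h n E q := by
      unfold BB
      push_cast
      ring
    have h1 := point (t := t) hD (fun h1 h2 => hcase d (kS h n b X Y P Q P' Q' E q) h1 h2) hr
    show (1 + 1 / D) - ((if t ≤ kS h n b X Y P Q P' Q' E q then (1 : ℝ) else 0) +
      1 / D * (Nat.card (WqS h n π p e r w0 c (BB h n E q)) : ℝ)) ≤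
        tf (CubeRank.rr (((3 ^ h * n : ℕ) : ℤ) * (q : ℤ) ^ E) ≤ 2)
    rw [hB, hd']
    push_cast
    exact h1
  · obtain ⟨K, hK⟩ := hCLT m π p hN.pp hN.p1 hN.pπ hN.pinj w0 c 2 (Or.inr rfl)
    exact ⟨K, fun σ h1 h2 => (hK σ h1 h2).1⟩

end PR2

open PR2 in
theorem PR2_thm (hUPS : Stmt_UPS) (hUPL : Stmt_UPL) (hSUMA : Stmt_SUMA) (hLAW : Stmt_LAW)
    (hCLT : Stmt_CLT) (hSPP : SPP) (hPLE : Stmt_PLE)
    (hJP2 : Stmt_JP2) (hVDIM : Stmt_VDIM) (hGMB : Stmt_GMB) (hESB : Stmt_ESB)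
    (hNBW : Stmt_NBW) (hWGR : Stmt_WGR) : Stmt_PR2 := by
  intro h n m k π p e r f w0 c hN hh hd
  obtain ⟨s, τ, b, X, Y, P, Q, P', Q', -, hS⟩ := hPLE h n m k π p e r f w0 c hN hh
  have hx : (0 : ℝ) < 1 / 3 ^ (m + 1) := by positivity
  have hmon := (hSUMA ((3 ^ h * n : ℕ) : ℤ) 2 m π (fun A => tf (CubeRank.rr A ≤ 2))).2.2.2
    (Kl π w0 c)
  rcases Nat.even_or_odd s with hs | hs
  · have h1 := low hUPS hUPL hCLT hSPP hJP2 hVDIM hGMB hESB hNBW hWGR hN hh hd hS (t := 1)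
      (D := 26) (l := 3 / 8) (by norm_num) (hLAW.2.2.1 s hs) (fun d κ h1 h2 => by
        have h3 : 3 ≤ d := by omega
        have h4 : (3 : ℝ) ^ 3 ≤ 3 ^ d := pow_le_pow_right₀ (by norm_num) h3
        linarith)
    refine hmon _ _ ?_ h1
    rw [div_eq_mul_one_div (1 / 2 : ℝ), div_eq_mul_one_div (3 / 8 + 1 / 26 * 4 : ℝ), ← sub_mul]
    exact mul_le_mul_of_nonneg_right (by norm_num) hx.le
  · have h1 := low hUPS hUPL hCLT hSPP hJP2 hVDIM hGMB hESB hNBW hWGR hN hh hd hS (t := 2)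
      (D := 8) (l := 1 / 24) (by norm_num) (hLAW.2.2.2.1 s hs) (fun d κ h1 h2 => by
        have h3 : 2 ≤ d := by omega
        have h4 : (3 : ℝ) ^ 2 ≤ 3 ^ d := pow_le_pow_right₀ (by norm_num) h3
        linarith)
    refine hmon _ _ ?_ h1
    rw [div_eq_mul_one_div (1 / 2 : ℝ), div_eq_mul_one_div (1 / 24 + 1 / 8 * 4 : ℝ), ← sub_mul]
    exact mul_le_mul_of_nonneg_right (by norm_num) hx.le

end Pool.Agent.PTK
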