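import Pool.Agent.PTK.StV
import Pool.Agent.PTK.AV1
import Pool.Agent.PTK.AM2
import Pool.Agent.PTK.PR2
import Pool.Agent.PTN.LAW
import Pool.Agent.PTN.CAB

/-! PTK_PR1 (helper99): small ranks in a class, `q = 1 (mod 3)`. -/

set_option autoImplicit false

open Finset

namespace Pool.Agent.PTK

open Pool.Agent.Lib_helper18 Pool.Agent.Lib_helper18.Eis Pool.Agent.Lib_helper84.Cub
open Pool.Agent.PT Pool.Agent.PTE Pool.Agent.PT3 Pool.Agent.PTL Pool.Agent.PTN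

namespace PR1

open AV1

open Classical in
/-- The general bound. `N` is the number of the classes of points, `κ δ`, `κ₀ + 1` the coranks,
`R` the rank. -/
theorem gen (hUPS : Stmt_UPS) {d : ℕ} (S : ℕ → Set ℕ)
    (TP : {δ : Fin d → ZMod 3 // δ ≠ 0} → ℕ → Set ℕ) (TZ : ℕ → Set ℕ)
    (R N : ℕ → ℕ → ℕ) (κ : {δ : Fin d → ZMod 3 // δ ≠ 0} → ℕ → ℕ → ℕ) (κ₀ : ℕ → ℕ → ℕ) (M : ℕ)
    (hN : ∀ E q, (E = 1 ∨ E = 2) → q.Prime → M < q → q ∈ S E → ∃ w, N E q = 3 ^ w ∧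
      ((q ∈ TZ E ∧ R E q ≤ w + (κ₀ E q + 1)) ∨ ∃ δ δ' : {δ : Fin d → ZMod 3 // δ ≠ 0}, δ ≠ δ' ∧
        q ∈ TP δ E ∧ q ∈ TP δ' E ∧ R E q ≤ w + κ δ E q ∧ R E q ≤ w + κ δ' E q))
    (F : ℕ → ℝ) (hF : Monotone F) (φ : ℕ → ℕ → ℝ) (hφ : ∀ a b, 0 ≤ φ a b)
    (h1 : ∀ w a, F (w + a) ≤ φ (3 ^ w) a) {x y : ℝ}
    (hx : ∀ δ : {δ : Fin d → ZMod 3 // δ ≠ 0},
      UpS (TP δ) (fun E q => φ (N E q) (κ δ E q)) x)
    (hy : UpS TZ (fun E q => φ (N E q) (κ₀ E q + 1)) y) :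
    UpS S (fun E q => F (R E q)) (((3 ^ d - 1) * x + 2 * y) / 2) := by
  have hy2 := hUPS.2.2 _ _ _ 2 (by norm_num) hy
  have key := hUPS.1 (Option {δ : Fin d → ZMod 3 // δ ≠ 0}) S (fun E q => F (R E q))
    (fun i => Option.rec TZ TP i)
    (fun i => Option.rec (fun E q => 2 * φ (N E q) (κ₀ E q + 1))
      (fun δ E q => φ (N E q) (κ δ E q)) i)
    (fun i => Option.rec (2 * y) (fun _ => x) i) 2 M (by norm_num) ?_ ?_ ?_
  · have e : ∑ i : Option {δ : Fin d → ZMod 3 // δ ≠ 0},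
        (Option.rec (2 * y) (fun _ => x) i : ℝ) = (3 ^ d - 1) * x + 2 * y := by
      rw [Fintype.sum_option]
      simp only [Finset.sum_const, Finset.card_univ, nsmul_eq_mul]
      rw [card_pat, add_comm]
    rw [e] at key
    exact key
  · intro i E q
    cases i with
    | none => exact mul_nonneg (by norm_num) (hφ _ _)
    | some δ => exact hφ _ _
  · intro E q hE hq hM hS
    rw [Fintype.sum_option]
    obtain ⟨w, hw, h | ⟨δ, δ', hne, hP, hP', hR, hR'⟩⟩ := hN E q hE hq hM hS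
    · have a1 : 2 * F (R E q) ≤ 2 * φ (N E q) (κ₀ E q + 1) := by
        rw [hw]
        have := (hF h.2).trans (h1 w (κ₀ E q + 1))
        linarith
      have a2 : 0 ≤ ∑ i : {δ : Fin d → ZMod 3 // δ ≠ 0},
          (if q ∈ TP i E then φ (N E q) (κ i E q) else 0) := by
        refine Finset.sum_nonneg fun i _ => ?_
        split_ifs
        · exact hφ _ _
        · exact le_rfl
      have a3 : (if q ∈ TZ E then 2 * φ (N E q) (κ₀ E q + 1) else 0) =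
          2 * φ (N E q) (κ₀ E q + 1) := if_pos h.1
      show 2 * F (R E q) ≤ (if q ∈ TZ E then 2 * φ (N E q) (κ₀ E q + 1) else 0) +
        ∑ i : {δ : Fin d → ZMod 3 // δ ≠ 0}, (if q ∈ TP i E then φ (N E q) (κ i E q) else 0)
      rw [a3]
      linarith
    · have a3 : 0 ≤ (if q ∈ TZ E then 2 * φ (N E q) (κ₀ E q + 1) else 0) := by
        split_ifs
        · exact mul_nonneg (by norm_num) (hφ _ _)
        · exact le_rfl
      have a4 : ∑ i ∈ ({δ, δ'} : Finset {δ : Fin d → ZMod 3 // δ ≠ 0}),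
          (if q ∈ TP i E then φ (N E q) (κ i E q) else 0) ≤
          ∑ i : {δ : Fin d → ZMod 3 // δ ≠ 0},
          (if q ∈ TP i E then φ (N E q) (κ i E q) else 0) := by
        refine Finset.sum_le_sum_of_subset_of_nonneg (Finset.subset_univ _) fun i _ _ => ?_
        split_ifs
        · exact hφ _ _
        · exact le_rfl
      rw [Finset.sum_pair hne] at a4
      have a5 : (if q ∈ TP δ E then φ (N E q) (κ δ E q) else 0) =
          φ (N E q) (κ δ E q) := if_pos hP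
      have a6 : (if q ∈ TP δ' E then φ (N E q) (κ δ' E q) else 0) =
          φ (N E q) (κ δ' E q) := if_pos hP'
      rw [a5, a6] at a4
      have b1 := (hF hR).trans (h1 w (κ δ E q))
      have b2 := (hF hR').trans (h1 w (κ δ' E q))
      rw [← hw] at b1 b2
      show 2 * F (R E q) ≤ (if q ∈ TZ E then 2 * φ (N E q) (κ₀ E q + 1) else 0) +
        ∑ i : {δ : Fin d → ZMod 3 // δ ≠ 0}, (if q ∈ TP i E then φ (N E q) (κ i E q) else 0)
      linarith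
  · intro i
    cases i with
    | none => exact hy2
    | some δ => exact hx δ

lemma alg (L L' z x y : ℝ) (hx : x ≠ 0) (hy : y ≠ 0) :
    ((x - 1) * (L * (2 / x / y) + z * (2 / x / y)) +
      2 * (L' * (1 / x / y) + z * (1 / x / y))) / 2 =
      ((1 - 1 / x) * L + 1 / x * L' + z) / y := by
  field_simp
  ring


/-- The lower bound with two parameters. -/
theorem low (hUPS : Stmt_UPS) (hUPL : Stmt_UPL) (hCLT : Stmt_CLT) (hSPP : SPP)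
    (hVDIM : Stmt_VDIM) (hGMB : Stmt_GMB) (hESB : Stmt_ESB) (hESZ : Stmt_ESZ)
    (hNHPT : Stmt_NHPT) (hPLU : Stmt_PLU) (hPLE : Stmt_PLE) (hNBU : Stmt_NBU)
    (hNBX : Stmt_NBX) (hZPV : Stmt_ZPV) (hWGU : Stmt_WGU) (hPAT : Stmt_PAT)
    (hJPG : Stmt_JPG) (hJPZ : Stmt_JPZ) (hSPLT : SPLT)
    {h n m k : ℕ} {π : Fin m → PP} {p e : Fin m → ℕ} {r f : Fin k → ℕ}
    {w0 : ZMod 3} {c : Fin m → ZMod 3} (hN : NF n π p e r f) (hh : h ≤ 2) (hdN : dN h n w0 ≤ 1)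
    {t : ℕ} {D l : ℝ} (hD : 0 < D) (hl : LI (sN h n π p e r w0 c + 1) t ≤ l)
    (hcase : ∀ d κ : ℕ, κ < t → 3 ≤ d + κ → D + 1 ≤ 3 ^ d) :
    BelowA ((3 ^ h * n : ℕ) : ℤ) 1 (Kl π w0 c) (fun A => tf (CubeRank.rr A ≤ 2))
      ((1 + 1 / D) * (1 / 3 ^ (m + 1)) - (l + 1 / D * 4) / 3 ^ (m + 1)) := by
  obtain ⟨d, v, hd, hHB⟩ := hNHPT h n m k π p e r f w0 c hN hh
  have hHB' : HB h n π w0 c v := hHB
  obtain ⟨s₀, τ₀, b₀, X₀, Y₀, P₀, Q₀, P₀', Q₀', hs₀, hS₀⟩ := hPLE h n m k π p e r f w0 c hN hh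
  obtain rfl : s₀ = d := hs₀.trans hd.symm
  have hn : 0 < n := AV2.nf_pos hN
  choose s τ b X Y P Q P' Q' hPl using fun δ : {δ : Fin s₀ → ZMod 3 // δ ≠ 0} =>
    hPLU h n m k π p e r f w0 c s₀ v hN hh hHB' δ.1 δ.2
  obtain ⟨M, hM⟩ := hPAT s₀ v (fun i => (hHB.1 i).1.ne)
  obtain ⟨M', hM'⟩ := hZPV h n m k π p e r f w0 c s₀ τ₀ b₀ X₀ Y₀ P₀ Q₀ P₀' Q₀' s₀ v hN hh hS₀ hHB'
  set S : ℕ → Set ℕ := fun E => {q | q % 3 = 1 ∧ InCT E π w0 c q} with hS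
  set κ : {δ : Fin s₀ → ZMod 3 // δ ≠ 0} → ℕ → ℕ → ℕ := fun δ E q =>
    kU h n (b δ) (X δ) (Y δ) (P δ) (Q δ) (P' δ) (Q' δ) E q with hκ
  set κ₀ : ℕ → ℕ → ℕ := fun E q => kS h n b₀ X₀ Y₀ P₀ Q₀ P₀' Q₀' E q with hκ₀
  set N : ℕ → ℕ → ℕ := fun E q => Nat.card (WqS h n π p e r w0 c (BB h n E q)) with hNdef
  set R : ℕ → ℕ → ℕ := fun E q => CubeRank.rr (BB h n E q) with hR
  set TP : {δ : Fin s₀ → ZMod 3 // δ ≠ 0} → ℕ → Set ℕ := fun δ E =>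
    {q | q % 3 = 1 ∧ InCT E π w0 c q ∧ q ∈ Pat v δ.1} with hTP
  set TZ : ℕ → Set ℕ := fun E => {q | q % 3 = 1 ∧ InCT E π w0 c q ∧ q ∈ ZP b₀} with hTZ
  have main : ∀ E q, (E = 1 ∨ E = 2) → q.Prime → M + M' + n + 3 < q → q ∈ S E →
      ∃ w, N E q = 3 ^ w ∧
      ((q ∈ TZ E ∧ R E q ≤ w + (κ₀ E q + 1)) ∨ ∃ δ δ' : {δ : Fin s₀ → ZMod 3 // δ ≠ 0}, δ ≠ δ' ∧
        q ∈ TP δ E ∧ q ∈ TP δ' E ∧ R E q ≤ w + κ δ E q ∧ R E q ≤ w + κ δ' E q) := by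
    intro E q hE hq hMq hqS
    have hqn : ¬ q ∣ n := fun hdvd => by
      have := Nat.le_of_dvd hn hdvd
      omega
    obtain ⟨ρ, hρ⟩ := hSPLT.1 q hq hqS.1
    obtain ⟨w, hw⟩ := (hWGU h n m k π p e r f w0 c E q ρ hN hh hE hq (by omega) hqS.1 hqS.2 hqn
      hρ).1
    refine ⟨w, hw, ?_⟩
    rcases hM q hq (by omega) hqS.1 with hZ | ⟨δ, δ', hδ, hδ', hne, hP, hP'⟩
    · left
      have hZ' := hM' q hq (by omega) hZ
      refine ⟨⟨hqS.1, hqS.2, hZ'⟩, ?_⟩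
      have g := hNBX h n m k π p e r f w0 c s₀ τ₀ b₀ X₀ Y₀ P₀ Q₀ P₀' Q₀' E q hN hh hS₀ hE hq
        (by omega) hqS.1 hqS.2 hqn hZ'
      rw [hw, Nat.log_pow (by norm_num)] at g
      have g' := CubeRank.rr_le g
      show CubeRank.rr (BB h n E q) ≤ w + (kS h n b₀ X₀ Y₀ P₀ Q₀ P₀' Q₀' E q + 1)
      omega
    · right
      refine ⟨⟨δ, hδ⟩, ⟨δ', hδ'⟩, fun hh => hne (congrArg Subtype.val hh), ⟨hqS.1, hqS.2, hP⟩,
        ⟨hqS.1, hqS.2, hP'⟩, ?_, ?_⟩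
      · have g := hNBU h n m k π p e r f w0 c s₀ v δ _ _ _ _ _ _ _ _ _ E q hN hh hδ
          (hPl ⟨δ, hδ⟩) hE hq (by omega) hqS.1 hqS.2 hqn hP
        rw [hw, Nat.log_pow (by norm_num)] at g
        exact CubeRank.rr_le g
      · have g := hNBU h n m k π p e r f w0 c s₀ v δ' _ _ _ _ _ _ _ _ _ E q hN hh hδ'
          (hPl ⟨δ', hδ'⟩) hE hq (by omega) hqS.1 hqS.2 hqn hP'
        rw [hw, Nat.log_pow (by norm_num)] at g
        exact CubeRank.rr_le g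
  -- the test functions
  set F : ℕ → ℝ := fun c => if t ≤ c then (1 : ℝ) else 0 with hFdef
  have hmono : Monotone F := by
    intro a b hab
    show (if t ≤ a then (1 : ℝ) else 0) ≤ if t ≤ b then (1 : ℝ) else 0
    split_ifs
    · exact le_rfl
    · omega
    · norm_num
    · exact le_rfl
  have hF0 : ∀ c, 0 ≤ F c := fun c => by
    show (0 : ℝ) ≤ if t ≤ c then (1 : ℝ) else 0
    split_ifs <;> norm_num
  have hone : ∀ s' : ℕ, Esk s' (fun _ => (1 : ℝ)) ≤ 1 := by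
    intro s'
    have h1 := hESB s' 0
    unfold MoB at h1
    rw [Finset.range_zero, Finset.prod_empty] at h1
    simpa using h1
  have hone0 : ∀ s' : ℕ, 0 ≤ Esk s' (fun _ => (1 : ℝ)) := fun s' =>
    AM2.Esk_nonneg fun _ => zero_le_one
  have hg0 : gM 0 (vN h n π p e r w0 c - v0N h n π p e r w0 c) = 1 := rfl
  have hg1 : gM 1 (vN h n π p e r w0 c - v0N h n π p e r w0 c) ≤ 4 := by
    have h2 : vN h n π p e r w0 c - v0N h n π p e r w0 c ≤ dN h n w0 := by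
      have h2 := hVDIM h n m k π p e r w0 c hh
      omega
    have h3 := AM2.gM_le hGMB 1 h2 (AM2.dN_le h n w0)
    rwa [AM2.cM_one hGMB, if_pos hdN] at h3
  have hg1' : 0 ≤ gM 1 (vN h n π p e r w0 c - v0N h n π p e r w0 c) := by
    rw [show (1 : ℕ) = 0 + 1 from rfl, gM]
    have e1 : (0 : ℝ) ≤ 3 ^ (vN h n π p e r w0 c - v0N h n π p e r w0 c) - 1 := by
      have : (1 : ℝ) ≤ 3 ^ (vN h n π p e r w0 c - v0N h n π p e r w0 c) :=
        one_le_pow₀ (by norm_num)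
      linarith
    have e2 : gM 0 (vN h n π p e r w0 c - v0N h n π p e r w0 c - 1) = 1 := rfl
    rw [hg0, e2]
    positivity
  have h3d : (0 : ℝ) < 3 ^ s₀ := by positivity
  have h3m : (0 : ℝ) < 3 ^ (m + 1) := by positivity
  -- the averages for the patterns
  have hx : ∀ δ : {δ : Fin s₀ → ZMod 3 // δ ≠ 0},
      UpS (TP δ) (fun E q => F (κ δ E q) + 1 / D * (N E q : ℝ))
        (Esk (s₀ - 1) F * (2 / 3 ^ s₀ / 3 ^ (m + 1)) +
          (1 / D * 4) * (2 / 3 ^ s₀ / 3 ^ (m + 1))) := by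
    intro δ
    have a1 := hJPG h n m k π p e r f w0 c s₀ v δ.1 _ _ _ _ _ _ _ _ _ hN hh δ.2 (hPl δ) 0 F
      hmono (hF0 0)
    have a2 := hJPG h n m k π p e r f w0 c s₀ v δ.1 _ _ _ _ _ _ _ _ _ hN hh δ.2 (hPl δ) 1
      (fun _ => (1 : ℝ)) monotone_const zero_le_one
    rw [hg0, one_mul] at a1
    have a3 : UpS (TP δ) (fun E q => (Nat.card (WqS h n π p e r w0 c (BB h n E q)) : ℝ) ^ 1 * 1)
        (4 * (2 / 3 ^ s₀ / 3 ^ (m + 1))) := by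
      refine hUPS.2.1 _ _ _ _ ?_ a2
      have e1 : Esk (s₀ - 1) (fun _ => (1 : ℝ)) * (2 / 3 ^ s₀ / 3 ^ (m + 1)) ≤
          1 * (2 / 3 ^ s₀ / 3 ^ (m + 1)) :=
        mul_le_mul_of_nonneg_right (hone _) (by positivity)
      rw [one_mul] at e1
      exact mul_le_mul hg1 e1 (mul_nonneg (hone0 _) (by positivity)) (by norm_num)
    have a4 := up_add a1 (hUPS.2.2 _ _ _ (1 / D) (by positivity) a3)
    have e2 : (fun E q => (Nat.card (WqS h n π p e r w0 c (BB h n E q)) : ℝ) ^ 0 *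
          F (kU h n (b δ) (X δ) (Y δ) (P δ) (Q δ) (P' δ) (Q' δ) E q) +
        1 / D * ((Nat.card (WqS h n π p e r w0 c (BB h n E q)) : ℝ) ^ 1 * 1)) =
        fun E q => F (κ δ E q) + 1 / D * (N E q : ℝ) := by
      funext E q
      rw [pow_zero, one_mul, pow_one, mul_one]
    rw [e2] at a4
    rw [mul_assoc (1 / D)]
    exact a4
  have hy : UpS TZ (fun E q => F (κ₀ E q + 1) + 1 / D * (N E q : ℝ))
        (Esk s₀ (fun c => F (c + 1)) * (1 / 3 ^ s₀ / 3 ^ (m + 1)) +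
          (1 / D * 4) * (1 / 3 ^ s₀ / 3 ^ (m + 1))) := by
    have a1 := hJPZ h n m k π p e r f w0 c s₀ τ₀ b₀ X₀ Y₀ P₀ Q₀ P₀' Q₀' hN hh hS₀ 0
      (fun c => F (c + 1)) (fun a b hab => hmono (by omega)) (hF0 _)
    have a2 := hJPZ h n m k π p e r f w0 c s₀ τ₀ b₀ X₀ Y₀ P₀ Q₀ P₀' Q₀' hN hh hS₀ 1
      (fun _ => (1 : ℝ)) monotone_const zero_le_one
    rw [hg0, one_mul] at a1
    have a3 : UpS TZ (fun E q => (Nat.card (WqS h n π p e r w0 c (BB h n E q)) : ℝ) ^ 1 * 1)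
        (4 * (1 / 3 ^ s₀ / 3 ^ (m + 1))) := by
      refine hUPS.2.1 _ _ _ _ ?_ a2
      have e1 : Esk s₀ (fun _ => (1 : ℝ)) * (1 / 3 ^ s₀ / 3 ^ (m + 1)) ≤
          1 * (1 / 3 ^ s₀ / 3 ^ (m + 1)) :=
        mul_le_mul_of_nonneg_right (hone _) (by positivity)
      rw [one_mul] at e1
      exact mul_le_mul hg1 e1 (mul_nonneg (hone0 _) (by positivity)) (by norm_num)
    have a4 := up_add a1 (hUPS.2.2 _ _ _ (1 / D) (by positivity) a3)
    have e2 : (fun E q => (Nat.card (WqS h n π p e r w0 c (BB h n E q)) : ℝ) ^ 0 *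
          F (kS h n b₀ X₀ Y₀ P₀ Q₀ P₀' Q₀' E q + 1) +
        1 / D * ((Nat.card (WqS h n π p e r w0 c (BB h n E q)) : ℝ) ^ 1 * 1)) =
        fun E q => F (κ₀ E q + 1) + 1 / D * (N E q : ℝ) := by
      funext E q
      rw [pow_zero, one_mul, pow_one, mul_one]
    rw [e2] at a4
    rw [mul_assoc (1 / D)]
    exact a4
  -- the bound
  have g := gen hUPS S TP TZ R N κ κ₀ (M + M' + n + 3) main
    (fun ρ => (1 + 1 / D) - tf (ρ ≤ 2))
    (fun a b hab => by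
      show (1 + 1 / D) - tf (a ≤ 2) ≤ (1 + 1 / D) - tf (b ≤ 2)
      unfold tf
      by_cases hb : b ≤ 2
      · rw [if_pos hb, if_pos (hab.trans hb)]
      · rw [if_neg hb]
        split_ifs <;> linarith)
    (fun a b => F b + 1 / D * (a : ℝ))
    (fun a b => by
      have := hF0 b
      positivity)
    (fun w a => by
      have h1 := PR2.point (t := t) hD (fun h1 h2 => hcase w a h1 h2) (le_refl (w + a))
      show (1 + 1 / D) - tf (w + a ≤ 2) ≤ (if t ≤ a then (1 : ℝ) else 0) +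
        1 / D * ((3 ^ w : ℕ) : ℝ)
      push_cast
      linarith)
    hx hy
  rw [alg _ _ _ _ _ h3d.ne' h3m.ne', hESZ s₀ F, LAW.Esk_ind] at g
  have g2 := hUPS.2.1 _ _ _ ((l + 1 / D * 4) / 3 ^ (m + 1)) (by
    refine div_le_div_of_nonneg_right ?_ h3m.le
    rw [← hd] at hl
    linarith) g
  refine hUPL ((3 ^ h * n : ℕ) : ℤ) 1 (max 3 n) (Kl π w0 c) (fun A => CubeRank.rr A ≤ 2) S _ _
    (1 / 3 ^ (m + 1)) (1 + 1 / D) (by positivity) ?_ ?_ ?_ g2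
  · intro E q hE hq hM hqS
    exact ⟨hqS.1, (CAB.kl_iff hSPP hN w0 c hq
      (PR2.p_ne hN (lt_of_le_of_lt (le_max_right _ _) hM)) E).2 hqS.2⟩
  · intro E q hE hq hM hqS
    have hB : ((3 ^ h * n : ℕ) : ℤ) * (q : ℤ) ^ E = BB h n E q := by
      unfold BB
      push_cast
      ring
    show (1 + 1 / D) - ((1 + 1 / D) - tf (CubeRank.rr (BB h n E q) ≤ 2)) ≤
        tf (CubeRank.rr (((3 ^ h * n : ℕ) : ℤ) * (q : ℤ) ^ E) ≤ 2)
    rw [hB]
    linarith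
  · obtain ⟨K, hK⟩ := hCLT m π p hN.pp hN.p1 hN.pπ hN.pinj w0 c 1 (Or.inl rfl)
    exact ⟨K, fun σ h1 h2 => (hK σ h1 h2).1⟩

end PR1

open PR1 in
theorem PR1_thm (hUPS : Stmt_UPS) (hUPL : Stmt_UPL) (hLAW : Stmt_LAW) (hCLT : Stmt_CLT)
    (hSPP : SPP) (hVDIM : Stmt_VDIM) (hGMB : Stmt_GMB) (hESB : Stmt_ESB) (hESZ : Stmt_ESZ)
    (hNHPT : Stmt_NHPT) (hPLU : Stmt_PLU) (hPLE : Stmt_PLE) (hNBU : Stmt_NBU)
    (hNBX : Stmt_NBX) (hZPV : Stmt_ZPV) (hWGU : Stmt_WGU) (hPAT : Stmt_PAT)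
    (hJPG : Stmt_JPG) (hJPZ : Stmt_JPZ) (hSPLT : SPLT) (hSUMA : Stmt_SUMA) : Stmt_PR1 := by
  intro h n m k π p e r f w0 c hN hh hd
  have hx : (0 : ℝ) < 1 / 3 ^ (m + 1) := by positivity
  have hmon := (hSUMA ((3 ^ h * n : ℕ) : ℤ) 1 m π (fun A => tf (CubeRank.rr A ≤ 2))).2.2.2
    (Kl π w0 c)
  rcases Nat.even_or_odd (sN h n π p e r w0 c + 1) with hs | hs
  · have h1 := low hUPS hUPL hCLT hSPP hVDIM hGMB hESB hESZ hNHPT hPLU hPLE hNBU hNBX hZPV hWGU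
      hPAT hJPG hJPZ hSPLT hN hh hd (t := 1)
      (D := 26) (l := 3 / 8) (by norm_num) (hLAW.2.2.1 _ hs) (fun d κ h1 h2 => by
        have h3 : 3 ≤ d := by omega
        have h4 : (3 : ℝ) ^ 3 ≤ 3 ^ d := pow_le_pow_right₀ (by norm_num) h3
        linarith)
    refine hmon _ _ ?_ h1
    rw [div_eq_mul_one_div (1 / 2 : ℝ), div_eq_mul_one_div (3 / 8 + 1 / 26 * 4 : ℝ), ← sub_mul]
    exact mul_le_mul_of_nonneg_right (by norm_num) hx.le
  · have h1 := low hUPS hUPL hCLT hSPP hVDIM hGMB hESB hESZ hNHPT hPLU hPLE hNBU hNBX hZPV hWGU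
      hPAT hJPG hJPZ hSPLT hN hh hd (t := 2)
      (D := 8) (l := 1 / 24) (by norm_num) (hLAW.2.2.2.1 _ hs) (fun d κ h1 h2 => by
        have h3 : 2 ≤ d := by omega
        have h4 : (3 : ℝ) ^ 2 ≤ 3 ^ d := pow_le_pow_right₀ (by norm_num) h3
        linarith)
    refine hmon _ _ ?_ h1
    rw [div_eq_mul_one_div (1 / 2 : ℝ), div_eq_mul_one_div (1 / 24 + 1 / 8 * 4 : ℝ), ← sub_mul]
    exact mul_le_mul_of_nonneg_right (by norm_num) hx.le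

end Pool.Agent.PTK
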