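import Pool.Agent.PTK.StV
import Pool.Agent.PTK.AVA

/-! PTK_PRB (helper3): small ranks, all classes. -/

set_option autoImplicit false

open Finset

namespace Pool.Agent.PTK

open Pool.Agent.Lib_helper18 Pool.Agent.Lib_helper18.Eis Pool.Agent.Lib_helper84.Cub
open Pool.Agent.PT Pool.Agent.PTE Pool.Agent.PT3 Pool.Agent.PTL Pool.Agent.PTN

namespace PRB

theorem zero_below (n : ℤ) (a : ℕ) (W : ℤ → Prop) (F : ℤ → ℝ) : BelowA n a W F 0 := by
  refine ⟨0, fun σ _ _ => ⟨∅, ?_⟩⟩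
  unfold SumA
  simp

/-- the sum of the lower bounds over the classes -/
theorem lower (h n m : ℕ) (g : ℕ → ℝ) (M : ℝ) (h0 : M ≤ g 0) (h1 : M ≤ g 1)
    (h2 : 3 * M ≤ 2 * g 1 + g 2) :
    M ≤ ∑ x : ZMod 3 × (Fin m → ZMod 3), g (dN h n x.1) / 3 ^ (m + 1) := by
  have h3 := AVA.total h n m (fun d => - g d) (-M) (by linarith) (by linarith) (by linarith)
  have h4 : ∑ x : ZMod 3 × (Fin m → ZMod 3), (fun d => - g d) (dN h n x.1) / 3 ^ (m + 1) =
      - ∑ x : ZMod 3 × (Fin m → ZMod 3), g (dN h n x.1) / 3 ^ (m + 1) := by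
    rw [← Finset.sum_neg_distrib]
    exact Finset.sum_congr rfl fun x _ => neg_div _ _
  linarith

end PRB

open PRB in
theorem PRB_thm (hNFE : Stmt_NFE) (hSUMA : Stmt_SUMA) (hPR2 : Stmt_PR2) (hPR1 : Stmt_PR1) :
    Stmt_PRB := by
  classical
  intro N hN0 hcf a ha
  obtain ⟨h, n, m, k, π, p, e, r, f, hNF, hh, hfac, hNeq, -, -⟩ := hNFE N hN0 hcf
  have h3N : 3 ∣ N → h ≠ 0 := by
    intro hd h0
    rw [h0] at hfac
    have h1 := (Nat.prime_three.dvd_iff_one_le_factorization hN0.ne').1 hd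
    omega
  clear hfac
  subst hNeq
  have hPR : ∀ (w0 : ZMod 3) (c : Fin m → ZMod 3), dN h n w0 ≤ 1 →
      BelowA ((3 ^ h * n : ℕ) : ℤ) a (Kl π w0 c) (fun A => tf (CubeRank.rr A ≤ 2))
        (1 / 2 / 3 ^ (m + 1)) := by
    intro w0 c hd
    rcases ha with rfl | rfl
    · exact hPR1 h n m k π p e r f w0 c hNF hh hd
    · exact hPR2 h n m k π p e r f w0 c hNF hh hd
  have htf : ∀ A : ℤ, 0 ≤ tf (CubeRank.rr A ≤ 2) := by
    intro A
    unfold tf
    split_ifs <;> norm_num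
  obtain ⟨-, s2, -, s4⟩ := hSUMA ((3 ^ h * n : ℕ) : ℤ) a m π (fun A => tf (CubeRank.rr A ≤ 2))
  constructor
  · have h1 := s2 (fun x => (if dN h n x.1 ≤ 1 then 1 / 2 else 0) / 3 ^ (m + 1)) htf (fun y => by
      by_cases hd : dN h n y.1 ≤ 1
      · simp only [if_pos hd]
        exact hPR y.1 y.2 hd
      · simp only [if_neg hd, zero_div]
        exact zero_below _ _ _ _)
    refine s4 _ _ _ ?_ h1
    refine lower h n m (fun d => if d ≤ 1 then 1 / 2 else 0) (1 / 3) ?_ ?_ ?_ <;> norm_num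
  · intro hd
    have hne := h3N hd
    have hd1 : ∀ w0 : ZMod 3, dN h n w0 ≤ 1 := by
      intro w0
      unfold dN
      split_ifs with h5 h6
      · omega
      · exact absurd h6.1 hne
      · exact le_rfl
    have h1 := s2 (fun _ => 1 / 2 / 3 ^ (m + 1)) htf (fun y => hPR y.1 y.2 (hd1 y.1))
    refine s4 _ _ _ ?_ h1
    refine lower h n m (fun _ => 1 / 2) (1 / 2) ?_ ?_ ?_ <;> norm_num

end Pool.Agent.PTK
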