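import Pool.Agent.PTK.StM
import Pool.Agent.PTK.PT
import Pool.Agent.PT3.HYPT
import Pool.Agent.PT3.LCL

/-!
# All moments for prime twists, PTX: a point with the same symbols of the linear forms at `λ` (helper8)
-/

set_option autoImplicit false

open NumberField IsDedekindDomain Finset
open scoped nonZeroDivisors Pointwise

namespace Pool.Agent.PTK

open Pool.Agent.Lib_helper18 Pool.Agent.Lib_helper18.Eis Pool.Agent.Lib_helper84.Cub
open Pool.Agent.PT Pool.Agent.PTE Pool.Agent.PT3 Pool.Agent.PTL Pool.Agent.PTN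

namespace PTK_PTX

/-! ### Rational integers -/

theorem cube_close {ν m ν' : ℤ} {e K : ℕ} (hν : ν = 3 ^ e * ν') (h3 : ¬ (3 : ℤ) ∣ ν') (hK : 1 ≤ K)
    (h : (3 : ℤ) ^ (3 * e + 1 + K) ∣ m ^ 3 - ν ^ 3) : (3 : ℤ) ^ (e + K) ∣ m - ν := by
  have h1 : ((3 : ℤ) ^ e) ^ 3 ∣ m ^ 3 := by
    have h2 : ((3 : ℤ) ^ e) ^ 3 ∣ m ^ 3 - ν ^ 3 := by
      refine dvd_trans ?_ h
      rw [← pow_mul]
      exact pow_dvd_pow _ (by omega)
    have h4 : ((3 : ℤ) ^ e) ^ 3 ∣ ν ^ 3 := by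
      rw [hν, mul_pow]
      exact dvd_mul_right _ _
    exact (dvd_sub_left h4).1 h2
  obtain ⟨m', hm'⟩ := (Int.pow_dvd_pow_iff (by norm_num)).1 h1
  have h5 : m ^ 3 - ν ^ 3 = (3 : ℤ) ^ (3 * e) * (m' ^ 3 - ν' ^ 3) := by
    rw [hm', hν, pow_mul']
    ring
  have h6 : (3 : ℤ) ^ (1 + K) ∣ m' ^ 3 - ν' ^ 3 := by
    rw [h5, show 3 * e + 1 + K = 3 * e + (1 + K) by ring, pow_add] at h
    exact (mul_dvd_mul_iff_left (pow_ne_zero _ (by norm_num))).1 h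
  have h7 : (3 : ℤ) ∣ m' - ν' := by
    have h8 : (3 : ℤ) ∣ m' ^ 3 - ν' ^ 3 := dvd_trans (dvd_pow_self _ (by omega)) h6
    have h9 : (3 : ℤ) ∣ m' ^ 3 - m' := by
      obtain ⟨k, r, hk, hr⟩ : ∃ k r : ℤ, m' = 3 * k + r ∧ (r = 0 ∨ r = 1 ∨ r = 2) :=
        ⟨m' / 3, m' % 3, by omega, by omega⟩
      rcases hr with rfl | rfl | rfl <;> rw [hk]
      · exact ⟨9 * k ^ 3 - k, by ring⟩
      · exact ⟨9 * k ^ 3 + 9 * k ^ 2 + 2 * k, by ring⟩
      · exact ⟨9 * k ^ 3 + 18 * k ^ 2 + 11 * k + 2, by ring⟩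
    have h10 : (3 : ℤ) ∣ ν' ^ 3 - ν' := by
      obtain ⟨k, r, hk, hr⟩ : ∃ k r : ℤ, ν' = 3 * k + r ∧ (r = 0 ∨ r = 1 ∨ r = 2) :=
        ⟨ν' / 3, ν' % 3, by omega, by omega⟩
      rcases hr with rfl | rfl | rfl <;> rw [hk]
      · exact ⟨9 * k ^ 3 - k, by ring⟩
      · exact ⟨9 * k ^ 3 + 9 * k ^ 2 + 2 * k, by ring⟩
      · exact ⟨9 * k ^ 3 + 18 * k ^ 2 + 11 * k + 2, by ring⟩
    omega
  obtain ⟨t, ht⟩ := h7
  obtain ⟨K', rfl⟩ : ∃ K', K = K' + 1 := ⟨K - 1, by omega⟩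
  have e1 : m' ^ 3 - ν' ^ 3 = 3 ^ 2 * (t * (ν' ^ 2 + 3 * (ν' * t + t ^ 2))) := by
    have e2 : m' = ν' + 3 * t := by linarith
    rw [e2]
    ring
  have e3 : (3 : ℤ) ^ K' ∣ t * (ν' ^ 2 + 3 * (ν' * t + t ^ 2)) := by
    rw [e1, show 1 + (K' + 1) = 2 + K' by ring, pow_add] at h6
    exact (mul_dvd_mul_iff_left (by norm_num)).1 h6
  have e4 : IsCoprime ((3 : ℤ) ^ K') (ν' ^ 2 + 3 * (ν' * t + t ^ 2)) := by
    apply IsCoprime.pow_left
    rw [Prime.coprime_iff_not_dvd Int.prime_three]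
    intro h11
    have h12 : (3 : ℤ) ∣ ν' ^ 2 := (dvd_add_left (dvd_mul_right _ _)).1 h11
    exact h3 (Int.prime_three.dvd_of_dvd_pow h12)
  have e5 : (3 : ℤ) ^ K' ∣ t := e4.dvd_of_dvd_mul_right e3
  have e6 : m - ν = 3 ^ (e + 1) * t := by
    rw [hm', hν, pow_add]
    linear_combination (3 ^ e : ℤ) * ht
  rw [e6, show e + (K' + 1) = (e + 1) + K' by ring, pow_add]
  exact mul_dvd_mul_left _ e5

theorem three_dvd_of_lam {k : ℕ} {n : ℤ} (h : lam ^ (2 * k) ∣ (n : Eis)) : (3 : ℤ) ^ k ∣ n := by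
  have h1 : lam ^ 2 = 3 * (-w) := by decide
  have h2 : (3 : Eis) ^ k ∣ lam ^ (2 * k) := by
    rw [pow_mul, h1, mul_pow]
    exact dvd_mul_right _ _
  have h3 : (((3 : ℤ) ^ k : ℤ) : Eis) ∣ (n : Eis) := by
    push_cast
    exact h2.trans h
  exact intCast_dvd_intCast.1 h3

theorem lam_dvd_of_three {k : ℕ} {n : ℤ} (h : (3 : ℤ) ^ k ∣ n) : lam ^ (2 * k) ∣ (n : Eis) := by
  obtain ⟨c, rfl⟩ := h
  push_cast
  rw [three_eq, mul_pow, ← pow_mul]
  exact Dvd.dvd.mul_right (dvd_mul_left _ _) _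

theorem V_lam_int {n : ℤ} (hn : n ≠ 0) : V lam (n : Eis) = 2 * padicValInt 3 n := by
  obtain ⟨k, c, h1, h2⟩ := LCL.split hn
  have h3 : padicValInt 3 n = k := by rw [h1]; exact LCL.val_eq h2
  rw [h3]
  have h4 : (n : Eis) = lam ^ (2 * k) * ((-w ^ 2) ^ k * (c : Eis)) := by
    rw [h1]
    push_cast
    rw [three_eq, mul_pow, ← pow_mul]
    ring
  rw [h4]
  apply V_pow_mul prime_lam
  intro h5
  rcases prime_lam.dvd_or_dvd h5 with h6 | h6
  · have h7 := prime_lam.dvd_of_dvd_pow h6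
    rw [dvd_neg] at h7
    exact not_dvd_of_isUnit prime_lam isUnit_w (prime_lam.dvd_of_dvd_pow h7)
  · rw [lam_dvd_iff] at h6
    simp at h6
    exact h2 h6

/-! ### Approximation at `λ` -/

theorem conj_lam : conj lam = lam * (1 + w) := by decide

theorem dvd_conj {N : ℕ} {z : Eis} (h : lam ^ N ∣ z) : lam ^ N ∣ conj z := by
  obtain ⟨c, rfl⟩ := h
  rw [map_mul, map_pow, conj_lam, mul_pow]
  exact Dvd.dvd.mul_right (dvd_mul_right _ _) _

theorem V_conj_lam {z : Eis} (hz : z ≠ 0) : V lam (conj z) = V lam z := by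
  obtain ⟨c, hc, hlc⟩ := V_split prime_lam hz
  have h1 : conj z = lam ^ (V lam z) * ((1 + w) ^ (V lam z) * conj c) := by
    conv_lhs => rw [hc]
    rw [map_mul, map_pow, conj_lam, mul_pow]
    ring
  conv_lhs => rw [h1]
  apply V_pow_mul prime_lam
  intro h5
  rcases prime_lam.dvd_or_dvd h5 with h6 | h6
  · have h7 := prime_lam.dvd_of_dvd_pow h6
    have h8 : IsUnit (1 + w) := isUnit_iff_norm.2 (by decide)
    exact not_dvd_of_isUnit prime_lam h8 h7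
  · apply hlc
    have h7 := dvd_conj (N := 1) (z := conj c) (by rwa [pow_one])
    rwa [conj_conj, pow_one] at h7

theorem V_close {a a' : Eis} (ha : a ≠ 0) (h : lam ^ (V lam a + 1) ∣ a' - a) :
    a' ≠ 0 ∧ V lam a' = V lam a := by
  obtain ⟨c, hc, hlc⟩ := V_split prime_lam ha
  obtain ⟨d, hd⟩ := h
  have h1 : a' = lam ^ (V lam a) * (c + lam * d) := by
    have h2 : a' = a + lam ^ (V lam a + 1) * d := by rw [← hd]; ring
    rw [h2, pow_succ]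
    nth_rewrite 1 [hc]
    ring
  have h3 : ¬ lam ∣ c + lam * d := fun h4 => hlc ((dvd_add_left (dvd_mul_right _ _)).1 h4)
  refine ⟨?_, ?_⟩
  · rw [h1]
    refine mul_ne_zero (pow_ne_zero _ prime_lam.ne_zero) ?_
    intro h4
    rw [h4] at h3
    exact h3 (dvd_zero _)
  · rw [h1]
    exact V_pow_mul prime_lam _ h3

/-! ### The rational integers `R i` -/

/-- the rational integers, `n` the norm of `γ`, `z = γ conj η` -/
def RR (n : ℤ) (z : Eis) : Fin 3 → ℤ :=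
  ![n + n + (z.re + z.re - z.im), -n - z.re - z.im, -n - z.re + (z.im + z.im)]

theorem RR_sum (n : ℤ) (z : Eis) : RR n z 0 + RR n z 1 + RR n z 2 = 0 := by
  change (n + n + (z.re + z.re - z.im)) + (-n - z.re - z.im) + (-n - z.re + (z.im + z.im)) = 0
  ring

theorem RR_0 (n : ℤ) (z : Eis) : ((RR n z 0 : ℤ) : Eis) = n + n + (z + conj z) := by
  change ((n + n + (z.re + z.re - z.im) : ℤ) : Eis) = _
  ext
  · rw [intCast_re]
    simp only [add_re, intCast_re, conj_re]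
    ring
  · rw [intCast_im]
    simp only [add_im, intCast_im, conj_im]
    ring

theorem RR_1 (n : ℤ) (z : Eis) : ((RR n z 1 : ℤ) : Eis) = -n + (w * z + w ^ 2 * conj z) := by
  change ((-n - z.re - z.im : ℤ) : Eis) = _
  rw [w_sq]
  ext
  · rw [intCast_re]
    simp only [add_re, sub_re, neg_re, mul_re, intCast_re, conj_re, conj_im, w_re, w_im, one_re, neg_im,
      sub_im, one_im]
    ring
  · rw [intCast_im]
    simp only [add_im, sub_re, neg_re, mul_im, intCast_im, conj_re, conj_im, w_re, w_im, one_re, neg_im,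
      sub_im, one_im]
    ring

theorem RR_2 (n : ℤ) (z : Eis) : ((RR n z 2 : ℤ) : Eis) = -n + (w ^ 2 * z + w * conj z) := by
  change ((-n - z.re + (z.im + z.im) : ℤ) : Eis) = _
  rw [w_sq]
  ext
  · rw [intCast_re]
    simp only [add_re, sub_re, neg_re, mul_re, intCast_re, conj_re, conj_im, w_re, w_im, one_re, neg_im,
      sub_im, one_im]
    ring
  · rw [intCast_im]
    simp only [add_im, sub_re, neg_re, mul_im, intCast_im, conj_re, conj_im, w_re, w_im, one_re, neg_im,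
      sub_im, one_im]
    ring

section

variable (γ η : Eis)

theorem rho_0 : (γ + η) * conj (γ + η) =
    ((RR γ.norm (γ * conj η) 0 : ℤ) : Eis) + ((η.norm - γ.norm : ℤ) : Eis) := by
  rw [RR_0]
  push_cast
  rw [← mul_conj γ, ← mul_conj η, map_mul, map_add, conj_conj]
  ring

theorem rho_1 : w * ((γ + w * η) * conj (γ + η)) =
    ((RR γ.norm (γ * conj η) 1 : ℤ) : Eis) + w ^ 2 * ((η.norm - γ.norm : ℤ) : Eis) := by
  rw [RR_1]
  push_cast
  rw [← mul_conj γ, ← mul_conj η, map_mul, map_add, conj_conj]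
  linear_combination (γ * conj γ) * w_rel

theorem rho_2 : w ^ 2 * ((γ + w ^ 2 * η) * conj (γ + η)) =
    ((RR γ.norm (γ * conj η) 2 : ℤ) : Eis) + w * ((η.norm - γ.norm : ℤ) : Eis) := by
  rw [RR_2]
  push_cast
  rw [← mul_conj γ, ← mul_conj η, map_mul, map_add, conj_conj]
  linear_combination (γ * conj γ) * w_rel + (w * η * (conj γ + conj η)) * w_cube

theorem cube_prod : (γ + η) * (γ + w * η) * (γ + w ^ 2 * η) = γ ^ 3 + η ^ 3 := by
  linear_combination (γ ^ 2 * η + w * γ * η ^ 2) * w_rel + η ^ 3 * w_cube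

end

theorem w_ne0 : w ≠ (0 : Eis) := isUnit_w.ne_zero

theorem conj_ne {z : Eis} (hz : z ≠ 0) : conj z ≠ 0 := by
  intro h0
  apply hz
  have := congrArg conj h0
  rwa [conj_conj, map_zero] at this

/-- the symbol with `w` of a class of norm a cube -/
theorem sl_w_zero (hSSL : SSL) (hSCJ : SCJ) {b : Eis} (hb : b ≠ 0)
    (hcb : ∃ t : Eis, b * conj b = t ^ 3) : sl w b = 0 := by
  obtain ⟨t, ht⟩ := hcb
  have hb' := conj_ne hb
  have ht0 : t ≠ 0 := by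
    rintro rfl
    rw [zero_pow (by norm_num)] at ht
    exact mul_ne_zero hb hb' ht
  have h1 := hSCJ.2.1 w b w_ne0 hb
  rw [conj_w] at h1
  have h2 := (EHYP.add3_sl hSSL hb').pow w_ne0 2
  rw [h2] at h1
  have hA := EHYP.add3_sl hSSL w_ne0
  have h3 := hA b (conj b) hb hb'
  have h4 := hA.pow ht0 3
  simp only at h3 h4
  rw [ht, h4] at h3
  have h5 := hSSL.2.1 w b w_ne0 hb
  have h6 := hSSL.2.1 w (conj b) w_ne0 hb'
  have h7 := EHYP.three_zero (sl t w)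
  have h8 := EHYP.three_zero (sl w b)
  push_cast at h1 h3
  rw [h7, h5, h6] at h3
  linear_combination 2 * h3 - h1

/-- the valuation and the class of the product -/
theorem key (hLRR : Stmt_LRR) (hSSL : SSL) (hSLC : SLC) (hSCJ : SCJ) (hLCL : LCL) {B : ℤ}
    (hB : B ≠ 0) (hlv : lv B ≠ 1) {a0 a1 a2 g : Eis} {z0 : ℤ} (hz : z0 ≠ 0)
    (hc : conj a2 = a1) (hs : a0 + a1 + a2 = 0) (hp : a0 * a1 * a2 = (B : Eis) * (z0 : Eis) ^ 3)
    (hg : g ≠ 0) {b : Eis} (hb : b ≠ 0) (hcb : ∃ t : Eis, b * conj b = t ^ 3)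
    (hbB : sl b (B : Eis) = 0) :
    ∃ N0 : ℕ, ∀ η : Eis, lam ^ N0 ∣ η ^ 3 - a1 * a2 ^ 2 * g ^ 3 →
      g * a2 + w * η ≠ 0 ∧ g * a2 + w ^ 2 * η ≠ 0 ∧
        sl (g * a2 + w * η) b = sl (g * a2 + w ^ 2 * η) b := by
  have hB' := PTK_PT.int_ne hB
  have hz' := PTK_PT.int_ne hz
  have hn : a0 * a1 * a2 ≠ 0 := by
    rw [hp]
    exact mul_ne_zero hB' (pow_ne_zero 3 hz')
  have ha2 : a2 ≠ 0 := right_ne_zero_of_mul hn
  have ha1 : a1 ≠ 0 := right_ne_zero_of_mul (left_ne_zero_of_mul hn)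
  have ha0 : a0 ≠ 0 := left_ne_zero_of_mul (left_ne_zero_of_mul hn)
  have hc' : conj a1 = a2 := by rw [← hc, conj_conj]
  -- the constants
  obtain ⟨γ, hγ⟩ : ∃ γ, γ = g * a2 := ⟨_, rfl⟩
  obtain ⟨E, hE⟩ : ∃ E, E = a1 * a2 ^ 2 * g ^ 3 := ⟨_, rfl⟩
  obtain ⟨D, hD⟩ : ∃ D, D = g ^ 3 * a2 ^ 2 * a0 := ⟨_, rfl⟩
  have hγ0 : γ ≠ 0 := by rw [hγ]; exact mul_ne_zero hg ha2
  have hE0 : E ≠ 0 := by
    rw [hE]
    exact mul_ne_zero (mul_ne_zero ha1 (pow_ne_zero _ ha2)) (pow_ne_zero _ hg)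
  have hD0 : D ≠ 0 := by
    rw [hD]
    exact mul_ne_zero (mul_ne_zero (pow_ne_zero _ hg) (pow_ne_zero _ ha2)) ha0
  obtain ⟨e, ν', hν, h3ν⟩ := LCL.split (norm_pos hγ0).ne'
  obtain ⟨K, hK⟩ : ∃ K, K = V lam D + V lam E + 5 := ⟨_, rfl⟩
  refine ⟨2 * (3 * e + 1 + K), fun η hη => ?_⟩
  rw [← hγ]
  rw [← hE] at hη
  -- the sum of the cubes
  have h1 : lam ^ (2 * (3 * e + 1 + K)) ∣ (γ ^ 3 + η ^ 3) - (-D) := by
    have e1 : (γ ^ 3 + η ^ 3) - (-D) = η ^ 3 - E := by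
      rw [hγ, hE, hD]
      linear_combination (g ^ 3 * a2 ^ 2) * hs
    rwa [e1]
  have hVD : V lam (-D) = V lam D := V_neg
  obtain ⟨h2, h2'⟩ := V_close (neg_ne_zero.2 hD0) ((pow_dvd_pow lam (by rw [hVD]; omega)).trans h1)
  rw [hVD] at h2'
  have h3 := cube_prod γ η
  have n012 : (γ + η) * (γ + w * η) * (γ + w ^ 2 * η) ≠ 0 := by rw [h3]; exact h2
  have n2 : γ + w ^ 2 * η ≠ 0 := right_ne_zero_of_mul n012
  have n1 : γ + w * η ≠ 0 := right_ne_zero_of_mul (left_ne_zero_of_mul n012)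
  have n0 : γ + η ≠ 0 := left_ne_zero_of_mul (left_ne_zero_of_mul n012)
  refine ⟨n1, n2, ?_⟩
  have hVsum : V lam (γ + η) + V lam (γ + w * η) + V lam (γ + w ^ 2 * η) = V lam D := by
    rw [← h2', ← h3, V_mul prime_lam (mul_ne_zero n0 n1) n2, V_mul prime_lam n0 n1]
  -- `η` and its cube
  obtain ⟨h4, h4'⟩ := V_close hE0 ((pow_dvd_pow lam (by omega)).trans hη)
  have hη0 : η ≠ 0 := by
    rintro rfl
    exact h4 (by rw [zero_pow (by norm_num)])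
  -- the norms
  have h5 : lam ^ (2 * (3 * e + 1 + K)) ∣ ((η.norm ^ 3 - γ.norm ^ 3 : ℤ) : Eis) := by
    have e1 : ((η.norm ^ 3 - γ.norm ^ 3 : ℤ) : Eis) = (η ^ 3 - E) * conj (η ^ 3) + E * conj (η ^ 3 - E) := by
      have e2 : E * conj E = (γ * conj γ) ^ 3 := by
        rw [hE, hγ]
        simp only [map_mul, map_pow, hc, hc']
        ring
      push_cast
      rw [← mul_conj γ, ← mul_conj η, ← e2, map_sub, map_pow]
      ring
    rw [e1]
    exact dvd_add (Dvd.dvd.mul_right hη _) (Dvd.dvd.mul_left (dvd_conj hη) _)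
  have h6 := cube_close hν h3ν (by omega) (three_dvd_of_lam h5)
  have h7 := lam_dvd_of_three h6
  -- the symbols and valuations of the `R i`
  have hcn : conj (γ + η) ≠ 0 := conj_ne n0
  have hVc : V lam (conj (γ + η)) = V lam (γ + η) := V_conj_lam n0
  have hVw : V lam w = 0 := V_eq_zero (not_dvd_of_isUnit prime_lam isUnit_w)
  have hVw2 : V lam (w ^ 2) = 0 := by rw [V_pow prime_lam w_ne0, hVw, mul_zero]
  have close : ∀ {ρ : Eis} {R : ℤ} {u : Eis}, ρ ≠ 0 → ρ = (R : Eis) + u * ((η.norm - γ.norm : ℤ) : Eis) →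
      V lam ρ ≤ 2 * V lam D → R ≠ 0 ∧ V lam (R : Eis) = V lam ρ ∧ ∀ c : Eis, c ≠ 0 → sl (R : Eis) c = sl ρ c := by
    intro ρ R u hρ e1 hV
    have e2 : lam ^ (V lam ρ + 4) ∣ (R : Eis) - ρ := by
      have e3 : (R : Eis) - ρ = -(u * ((η.norm - γ.norm : ℤ) : Eis)) := by rw [e1]; ring
      rw [e3, dvd_neg]
      refine Dvd.dvd.mul_left ((pow_dvd_pow lam ?_).trans h7) _
      omega
    obtain ⟨e4, e5⟩ := V_close hρ ((pow_dvd_pow lam (by omega)).trans e2)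
    refine ⟨?_, e5, fun c hc0 => hSLC.cont _ _ _ hρ hc0 e2⟩
    rintro rfl
    exact e4 (by push_cast; rfl)
  obtain ⟨r0, v0, s0⟩ := close (ρ := (γ + η) * conj (γ + η)) (u := 1) (mul_ne_zero n0 hcn)
    (by rw [one_mul]; exact rho_0 γ η) (by rw [V_mul prime_lam n0 hcn, hVc]; omega)
  obtain ⟨r1, v1, s1⟩ := close (ρ := w * ((γ + w * η) * conj (γ + η)))
    (mul_ne_zero w_ne0 (mul_ne_zero n1 hcn)) (rho_1 γ η)
    (by rw [V_mul prime_lam w_ne0 (mul_ne_zero n1 hcn), V_mul prime_lam n1 hcn, hVc, hVw]; omega)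
  obtain ⟨r2, v2, s2⟩ := close (ρ := w ^ 2 * ((γ + w ^ 2 * η) * conj (γ + η)))
    (mul_ne_zero (pow_ne_zero _ w_ne0) (mul_ne_zero n2 hcn)) (rho_2 γ η)
    (by rw [V_mul prime_lam (pow_ne_zero _ w_ne0) (mul_ne_zero n2 hcn), V_mul prime_lam n2 hcn, hVc,
      hVw2]; omega)
  rw [V_mul prime_lam n0 hcn, hVc] at v0
  rw [V_mul prime_lam w_ne0 (mul_ne_zero n1 hcn), V_mul prime_lam n1 hcn, hVc, hVw] at v1
  rw [V_mul prime_lam (pow_ne_zero _ w_ne0) (mul_ne_zero n2 hcn), V_mul prime_lam n2 hcn, hVc,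
    hVw2] at v2
  have t0 : ∀ c : Eis, c ≠ 0 → sl ((RR γ.norm (γ * conj η) 0 : ℤ) : Eis) c =
      sl (γ + η) c + sl (conj (γ + η)) c := fun c hc0 => by
    rw [s0 c hc0, hSSL.1 _ _ _ n0 hcn hc0]
  have t1 : ∀ c : Eis, c ≠ 0 → sl ((RR γ.norm (γ * conj η) 1 : ℤ) : Eis) c =
      sl w c + (sl (γ + w * η) c + sl (conj (γ + η)) c) := fun c hc0 => by
    rw [s1 c hc0, hSSL.1 _ _ _ w_ne0 (mul_ne_zero n1 hcn) hc0, hSSL.1 _ _ _ n1 hcn hc0]
  have t2 : ∀ c : Eis, c ≠ 0 → sl ((RR γ.norm (γ * conj η) 2 : ℤ) : Eis) c =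
      2 * sl w c + (sl (γ + w ^ 2 * η) c + sl (conj (γ + η)) c) := fun c hc0 => by
    rw [s2 c hc0, hSSL.1 _ _ _ (pow_ne_zero _ w_ne0) (mul_ne_zero n2 hcn) hc0,
      hSSL.1 _ _ _ n2 hcn hc0]
    have := (EHYP.add3_sl hSSL hc0).pow w_ne0 2
    rw [this]
    push_cast
    rfl
  -- the product
  obtain ⟨R, hR⟩ : ∃ R : Fin 3 → ℤ, R = RR γ.norm (γ * conj η) := ⟨_, rfl⟩
  rw [← hR] at r0 r1 r2 v0 v1 v2 t0 t1 t2
  have hRne : ∀ i, R i ≠ 0 := by
    intro i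
    fin_cases i
    · exact r0
    · exact r1
    · exact r2
  have hRsum : R 0 + R 1 + R 2 = 0 := by rw [hR]; exact RR_sum _ _
  have q0 := PTK_PT.int_ne r0
  have q1 := PTK_PT.int_ne r1
  have q2 := PTK_PT.int_ne r2
  have hP0 : R 0 * R 1 * R 2 ≠ 0 := mul_ne_zero (mul_ne_zero r0 r1) r2
  have hDE : D * E = (B : Eis) * (g ^ 2 * (z0 : Eis) * a2) ^ 3 := by
    rw [hD, hE]
    linear_combination (g ^ 6 * a2 ^ 3) * hp
  have hu : g ^ 2 * (z0 : Eis) * a2 ≠ 0 := mul_ne_zero (mul_ne_zero (pow_ne_zero _ hg) hz') ha2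
  -- valuations
  have hlvP : lv (R 0 * R 1 * R 2) = lv B := by
    have e1 : V lam ((R 0 * R 1 * R 2 : ℤ) : Eis) = V lam D + 3 * V lam (γ + η) := by
      push_cast
      rw [V_mul prime_lam (mul_ne_zero q0 q1) q2, V_mul prime_lam q0 q1]
      omega
    have e2 : V lam D + V lam E = V lam (B : Eis) + 3 * V lam (g ^ 2 * (z0 : Eis) * a2) := by
      rw [← V_mul prime_lam hD0 hE0, hDE, V_mul prime_lam hB' (pow_ne_zero _ hu), V_pow prime_lam hu]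
    have e3 : V lam E = 3 * V lam η := by rw [← h4', V_pow prime_lam hη0]
    rw [V_lam_int hP0] at e1
    rw [V_lam_int hB] at e2
    unfold lv
    have e4 : (padicValInt 3 (R 0 * R 1 * R 2) + 3 * (V lam η + 2 * V lam (g ^ 2 * (z0 : Eis) * a2) + V lam (γ + η))) % 3 =
        (padicValInt 3 B) % 3 := by omega
    have e5 := (ZMod.natCast_eq_natCast_iff' _ _ 3).2 e4
    push_cast at e5
    rw [← e5, EHYP.three_zero, add_zero]
  have hlwP : lw (R 0 * R 1 * R 2) = lw B := by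
    have e1 := hLCL.2.2.2.2.1 _ hP0
    have e2 := hLCL.2.2.2.2.1 B hB
    have e3 := hSSL.2.1 _ _ (PTK_PT.int_ne hP0) w_ne0
    have e4 := hSSL.2.1 _ _ hB' w_ne0
    have e5 : sl ((R 0 * R 1 * R 2 : ℤ) : Eis) w = sl (γ ^ 3 + η ^ 3) w := by
      push_cast
      rw [hSSL.1 _ _ _ (mul_ne_zero q0 q1) q2 w_ne0, hSSL.1 _ _ _ q0 q1 w_ne0, t0 w w_ne0, t1 w w_ne0,
        t2 w w_ne0, ← h3, hSSL.1 _ _ _ (mul_ne_zero n0 n1) n2 w_ne0, hSSL.1 _ _ _ n0 n1 w_ne0]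
      linear_combination EHYP.three_zero (sl w w) + EHYP.three_zero (sl (conj (γ + η)) w)
    have e6 : sl (γ ^ 3 + η ^ 3) w = sl (-D) w :=
      hSLC.cont _ _ _ (neg_ne_zero.2 hD0) w_ne0 ((pow_dvd_pow lam (by rw [hVD]; omega)).trans h1)
    have hA := EHYP.add3_sl hSSL w_ne0
    have e7 : sl (-D) w = sl D w := by
      have := hA (-1) D (by simp) hD0
      simp only at this
      rw [neg_one_mul] at this
      rw [this]
      have h8 := hA.neg_one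
      rw [h8, zero_add]
    have e8 : sl (η ^ 3) w = sl E w :=
      hSLC.cont _ _ _ hE0 w_ne0 ((pow_dvd_pow lam (by omega)).trans hη)
    have e9 := hA.pow hη0 3
    have e10 := hA _ _ hD0 hE0
    have e11 := hA _ _ hB' (pow_ne_zero 3 hu)
    have e12 := hA.pow hu 3
    simp only at e9 e10 e11 e12
    rw [hDE, e11, e12] at e10
    push_cast at e9 e10
    have e13 := EHYP.three_zero (sl η w)
    have e14 := EHYP.three_zero (sl (g ^ 2 * (z0 : Eis) * a2) w)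
    have e15 : lw (R 0 * R 1 * R 2) = sl ((R 0 * R 1 * R 2 : ℤ) : Eis) w := by
      linear_combination e1 - e3
    have e16 : lw B = sl (B : Eis) w := by
      linear_combination e2 - e4
    rw [e15, e16, e5, e6, e7]
    linear_combination e14 - e10 - e13 - e9 + e8
  obtain ⟨κ, k1, k2⟩ := hLRR R B hRne hB hRsum hlvP hlwP hlv
  have f1 := HYPT.sl_int hSSL hLCL hb (R 1) r1
  have f2 := HYPT.sl_int hSSL hLCL hb (R 2) r2
  have f3 := HYPT.sl_int hSSL hLCL hb B hB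
  rw [hbB] at f3
  have g1 := hSSL.2.1 _ _ hb q1
  have g2 := hSSL.2.1 _ _ hb q2
  have hw := sl_w_zero hSSL hSCJ hb hcb
  have u1 := t1 b hb
  have u2 := t2 b hb
  linear_combination u2 - u1 + g1 - g2 - f1 + f2 - k1 * sl b 3 + k2 * sl b 4 + κ * f3 + hw

end PTK_PTX

theorem PTX_thm (hLRR : Stmt_LRR) (hSSL : SSL) (hSLC : SLC) (hSCJ : SCJ) (hLCL : LCL) :
    Stmt_PTX := by
  intro B x hB hlv hx hcube h
  obtain ⟨ζ, g, g', hS, hg, hg', e⟩ := h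
  rcases hS with rfl | ⟨x0, y0, z0, _, hz, e0, hζ⟩
  · exfalso
    rw [one_mul] at e
    obtain ⟨t, ht⟩ := (IsIntegrallyClosed.pow_dvd_pow_iff (three_ne_zero)).1
      (Dvd.intro_left x e.symm : g' ^ 3 ∣ g ^ 3)
    rw [ht, mul_pow, mul_comm] at e
    exact hcube ⟨t, mul_right_cancel₀ (pow_ne_zero 3 hg') e⟩
  · have hB' := PTK_PT.int_ne hB
    have hz' := PTK_PT.int_ne hz
    have e1 : (x0 : Eis) ^ 3 + (y0 : Eis) ^ 3 = (B : Eis) * (z0 : Eis) ^ 3 := by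
      exact_mod_cast congrArg (fun n : ℤ => (n : Eis)) e0
    have hw := w_rel
    have hw3 := w_cube
    have n3 := PTK_PTX.w_ne0
    obtain ⟨a0, ha0⟩ : ∃ a0 : Eis, a0 = x0 + y0 := ⟨_, rfl⟩
    obtain ⟨a1, ha1⟩ : ∃ a1 : Eis, a1 = w * (x0 + w * y0) := ⟨_, rfl⟩
    obtain ⟨a2, ha2⟩ : ∃ a2 : Eis, a2 = w ^ 2 * (x0 + w ^ 2 * y0) := ⟨_, rfl⟩
    have hc : conj a2 = a1 := by
      rw [ha2, ha1]
      simp only [map_mul, map_add, map_pow, conj_intCast, conj_w]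
      linear_combination (w * (x0 : Eis) + (w ^ 5 + w ^ 2) * (y0 : Eis)) * hw3
    have hs : a0 + a1 + a2 = 0 := by
      rw [ha0, ha1, ha2]
      linear_combination ((x0 : Eis) + (w ^ 2 - w + 1) * y0) * hw
    have hp : a0 * a1 * a2 = (B : Eis) * (z0 : Eis) ^ 3 := by
      rw [ha0, ha1, ha2, ← e1]
      linear_combination (((x0 : Eis) + y0) * ((x0 : Eis) + w * y0) * ((x0 : Eis) + w ^ 2 * y0)) * hw3 +
        ((x0 : Eis) ^ 2 * y0 + w * (x0 : Eis) * y0 ^ 2 + (w - 1) * (y0 : Eis) ^ 3) * hw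
    have hζ' : ζ = a1 * a2 ^ 2 := by
      rw [hζ, ha1, ha2]
      linear_combination (-(w ^ 2) * ((x0 : Eis) + w * y0) * ((x0 : Eis) + w ^ 2 * y0) ^ 2) * hw3
    have hn : a0 * a1 * a2 ≠ 0 := by
      rw [hp]
      exact mul_ne_zero hB' (pow_ne_zero 3 hz')
    have na : a2 ≠ 0 := right_ne_zero_of_mul hn
    have ng : g' ^ 2 ≠ 0 := pow_ne_zero 2 hg'
    refine ⟨g' ^ 2 * g * a2, g' ^ 3, ⟨mul_ne_zero (mul_ne_zero ng hg) na,
      pow_ne_zero 3 hg', g' * g ^ 2 * (-(z0 : Eis) * a2),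
      mul_ne_zero (mul_ne_zero hg' (pow_ne_zero 2 hg)) (mul_ne_zero (neg_ne_zero.2 hz') na), ?_⟩, ?_⟩
    · have e3 : ζ * (a2 ^ 3 + ζ) = (B : Eis) * (-(z0 : Eis) * a2) ^ 3 := by
        rw [hζ']
        linear_combination (a1 * a2 ^ 4) * hs - a2 ^ 3 * hp
      linear_combination (g' ^ 3 * g ^ 6) * e3 -
        (g' ^ 3 * g ^ 3 * a2 ^ 3 + g' ^ 3 * (x * g' ^ 3 + ζ * g ^ 3)) * e
    · intro b hb _ hcb hbB
      obtain ⟨N0, hN⟩ := PTK_PTX.key hLRR hSSL hSLC hSCJ hLCL hB hlv hz hc hs hp hg hb hcb hbB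
      refine ⟨N0, fun ξ hξ => ?_⟩
      obtain ⟨m1, m2, m3⟩ := hN (g' * ξ) (by
        have e4 : (g' * ξ) ^ 3 - a1 * a2 ^ 2 * g ^ 3 = g' ^ 3 * (ξ ^ 3 - x) := by
          rw [← hζ', e]
          ring
        rw [e4]
        exact Dvd.dvd.mul_left hξ _)
      have f : ∀ i : ℕ, LfE (g' ^ 2 * g * a2) (g' ^ 3) i ξ = g' ^ 2 * (g * a2 + w ^ i * (g' * ξ)) := by
        intro i
        unfold LfE
        ring
      rw [f, f, pow_one, hSSL.1 _ _ _ ng m1 hb, hSSL.1 _ _ _ ng m2 hb, m3]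

end Pool.Agent.PTK
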