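import Pool.Agent.PTK.StV
import Pool.Agent.PTL.DOM

/-!
# UPL: from upper bounds to a lower bound
-/

set_option autoImplicit false

open NumberField IsDedekindDomain Finset
open scoped nonZeroDivisors Pointwise

namespace Pool.Agent.PTK

open Pool.Agent.Lib_helper18 Pool.Agent.Lib_helper18.Eis Pool.Agent.Lib_helper84.Cub
open Pool.Agent.PT Pool.Agent.PTE Pool.Agent.PT3 Pool.Agent.PTL Pool.Agent.PTN

namespace UPL

open BDENS

theorem tf_nonneg (P : Prop) : 0 ≤ tf P := by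
  unfold tf
  split_ifs
  · exact zero_le_one
  · exact le_rfl

open Classical in
/-- one exponent, pointwise -/
theorem point (n : ℤ) (a M : ℕ) (W R : ℤ → Prop) (S : Set ℕ) (g : ℕ → ℝ) (c₀ : ℝ) (E : ℕ)
    (h1 : ∀ q : ℕ, q.Prime → M < q → q ∈ S → q % 3 = a ∧ W ((q : ℤ) ^ E))
    (h2 : ∀ q : ℕ, q.Prime → M < q → q ∈ S → c₀ - g q ≤ tf (R (n * (q : ℤ) ^ E)))
    {σ : ℝ} (hσ : 1 < σ) (q : ℕ) :
    c₀ * ind S σ q - (if q.Prime ∧ q ∈ S then g q * (q : ℝ) ^ (-σ) else 0) ≤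
      (if q.Prime ∧ q % 3 = a ∧ W ((q : ℤ) ^ E) then
        tf (R (n * (q : ℤ) ^ E)) * (q : ℝ) ^ (-σ) else 0) +
      (if q ≤ M then |c₀ - g q| else 0) := by
  have hA : 0 ≤ (if q.Prime ∧ q % 3 = a ∧ W ((q : ℤ) ^ E) then
      tf (R (n * (q : ℤ) ^ E)) * (q : ℝ) ^ (-σ) else 0) := by
    split_ifs
    · exact mul_nonneg (tf_nonneg _) (Real.rpow_nonneg (Nat.cast_nonneg q) _)
    · exact le_rfl
  have hC : 0 ≤ (if q ≤ M then |c₀ - g q| else 0) := by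
    split_ifs
    · exact abs_nonneg _
    · exact le_rfl
  by_cases hq : q.Prime ∧ q ∈ S
  · rw [if_pos hq, ind_mem hq.1 hq.2, ← sub_mul]
    have hp0 : 0 ≤ (q : ℝ) ^ (-σ) := Real.rpow_nonneg (Nat.cast_nonneg q) _
    by_cases hqM : q ≤ M
    · rw [if_pos hqM]
      have hp1 : (q : ℝ) ^ (-σ) ≤ 1 :=
        Real.rpow_le_one_of_one_le_of_nonpos (by exact_mod_cast hq.1.one_lt.le) (by linarith)
      have e1 : (c₀ - g q) * (q : ℝ) ^ (-σ) ≤ |c₀ - g q| * (q : ℝ) ^ (-σ) :=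
        mul_le_mul_of_nonneg_right (le_abs_self _) hp0
      have e2 : |c₀ - g q| * (q : ℝ) ^ (-σ) ≤ |c₀ - g q| * 1 :=
        mul_le_mul_of_nonneg_left hp1 (abs_nonneg _)
      linarith
    · rw [if_neg hqM, add_zero]
      rw [not_le] at hqM
      obtain ⟨e1, e2⟩ := h1 q hq.1 hqM hq.2
      rw [if_pos ⟨hq.1, e1, e2⟩]
      exact mul_le_mul_of_nonneg_right (h2 q hq.1 hqM hq.2) hp0
  · rw [if_neg hq, ind_not hq, mul_zero, sub_zero]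
    exact add_nonneg hA hC

open Classical in
/-- one exponent -/
theorem one (n : ℤ) (a M : ℕ) (W R : ℤ → Prop) (S : Set ℕ) (g : ℕ → ℝ) (c₀ : ℝ) (E : ℕ)
    (hc : 0 ≤ c₀)
    (h1 : ∀ q : ℕ, q.Prime → M < q → q ∈ S → q % 3 = a ∧ W ((q : ℤ) ^ E))
    (h2 : ∀ q : ℕ, q.Prime → M < q → q ∈ S → c₀ - g q ≤ tf (R (n * (q : ℤ) ^ E)))
    {σ : ℝ} (hσ : 1 < σ) (T : Finset ℕ) (hT : sm S σ - 1 ≤ ∑ q ∈ T, ind S σ q) :
    c₀ * (sm S σ - 1) - ∑ q ∈ T, (if q.Prime ∧ q ∈ S then g q * (q : ℝ) ^ (-σ) else 0) ≤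
      ∑ q ∈ T, (if q.Prime ∧ q % 3 = a ∧ W ((q : ℤ) ^ E) then
        tf (R (n * (q : ℤ) ^ E)) * (q : ℝ) ^ (-σ) else 0) +
      ∑ q ∈ Finset.range (M + 1), |c₀ - g q| := by
  have e1 := Finset.sum_le_sum fun q (_ : q ∈ T) => point n a M W R S g c₀ E h1 h2 hσ q
  rw [Finset.sum_sub_distrib, Finset.sum_add_distrib, ← Finset.mul_sum] at e1
  have e2 : ∑ q ∈ T, (if q ≤ M then |c₀ - g q| else 0) ≤
      ∑ q ∈ Finset.range (M + 1), |c₀ - g q| := by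
    rw [← Finset.sum_filter]
    refine Finset.sum_le_sum_of_subset_of_nonneg ?_ fun q _ _ => abs_nonneg _
    intro q hq
    rw [Finset.mem_range]
    have := (Finset.mem_filter.1 hq).2
    omega
  have e3 := mul_le_mul_of_nonneg_left hT hc
  linarith

end UPL

open UPL BDENS in
theorem UPL_thm : Stmt_UPL := by
  classical
  intro n a M W R S G x y c₀ hc h1 h2 hD hU
  obtain ⟨K0, hK0⟩ := hD
  obtain ⟨K1, hK1⟩ := hU
  refine ⟨c₀ * (K0 + 2) + K1 + ∑ q ∈ Finset.range (M + 1), |c₀ - G 1 q| +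
    ∑ q ∈ Finset.range (M + 1), |c₀ - G 2 q|, fun σ hσ hσ2 => ?_⟩
  obtain ⟨T1, hT1⟩ := DOM.approx (S 1) hσ
  obtain ⟨T2, hT2⟩ := DOM.approx (S 2) hσ
  refine ⟨T1 ∪ T2, ?_⟩
  have j1 : ∑ q ∈ T1, ind (S 1) σ q ≤ ∑ q ∈ T1 ∪ T2, ind (S 1) σ q :=
    Finset.sum_le_sum_of_subset_of_nonneg Finset.subset_union_left fun q _ _ =>
      ind_nonneg _ _ _
  have j2 : ∑ q ∈ T2, ind (S 2) σ q ≤ ∑ q ∈ T1 ∪ T2, ind (S 2) σ q :=
    Finset.sum_le_sum_of_subset_of_nonneg Finset.subset_union_right fun q _ _ =>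
      ind_nonneg _ _ _
  have i1 := one n a M W R (S 1) (G 1) c₀ 1 hc (fun q => h1 1 q (Or.inl rfl))
    (fun q => h2 1 q (Or.inl rfl)) hσ (T1 ∪ T2) (hT1.trans j1)
  have i2 := one n a M W R (S 2) (G 2) c₀ 2 hc (fun q => h1 2 q (Or.inr rfl))
    (fun q => h2 2 q (Or.inr rfl)) hσ (T1 ∪ T2) (hT2.trans j2)
  have e1 := hK1 σ hσ hσ2 (T1 ∪ T2)
  rw [Finset.sum_pair (by norm_num : (1 : ℕ) ≠ 2)] at e1
  have e2 := mul_le_mul_of_nonneg_left (hK0 σ hσ hσ2) hc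
  unfold SumA
  rw [Finset.sum_pair (by norm_num : (1 : ℕ) ≠ 2)]
  have e3 : (c₀ * y - x) * Real.log (1 / (σ - 1)) =
      c₀ * (y * Real.log (1 / (σ - 1))) - x * Real.log (1 / (σ - 1)) := by ring
  rw [e3]
  linarith

end Pool.Agent.PTK
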