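import Pool.Agent.PTK.StW
import Pool.Agent.PTN.NBK0

/-!
# PTK_WSB (helper44): the vectors of the classes of points form a subspace
-/

set_option autoImplicit false

open NumberField IsDedekindDomain Finset
open scoped nonZeroDivisors Pointwise

namespace Pool.Agent.PTK

open Pool.Agent.Lib_helper18 Pool.Agent.Lib_helper18.Eis Pool.Agent.Lib_helper84.Cub
open Pool.Agent.PT Pool.Agent.PTE Pool.Agent.PT3 Pool.Agent.PTL Pool.Agent.PTN

namespace WSB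

theorem zN_zero {m : ℕ} (π : Fin m → PP) (e : Fin m → ℕ) : zN π e 0 = 1 := by
  unfold zN
  simp

theorem occ_one (B : ℤ) : Occ B 1 :=
  ⟨1, 1, 1, Or.inl rfl, one_ne_zero, one_ne_zero, rfl⟩

end WSB

theorem WSB_thm (hZA : Stmt_ZA) (hS1G : Stmt_S1G) : Stmt_WSB := by
  intro h n m k π p e r f w0 c E q hNF hh hE hq hq3 hqn
  have : Fact (Nat.Prime 3) := ⟨Nat.prime_three⟩
  have hB0 : BB h n E q ≠ 0 := NBK0.BB_ne hNF hq
  have hcf := NBK0.cubeFree_BB hNF hh hE hq hq3 hqn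
  have h3le : 3 ≤ (BB h n E q).natAbs := NBK0.three_le hNF hE hq hq3
  have hnc : ¬ ∃ t : ℤ, t ^ 3 = BB h n E q :=
    CubeRank.GenPf.not_cube hcf (by rw [Int.abs_eq_natAbs]; exact_mod_cast h3le)
  have hA := hZA n m k π p e r f hNF
  have hsub : ∀ y ∈ WqS h n π p e r w0 c (BB h n E q), ∀ y' ∈ WqS h n π p e r w0 c (BB h n E q),
      y + -y' ∈ WqS h n π p e r w0 c (BB h n E q) := by
    rintro y ⟨hy, ζ, g, g', hζ, hg, hg', e1⟩ y' ⟨hy', ζ', g2, g2', hζ', hg2, hg2', e2⟩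
    obtain ⟨ζ'', a, b, hζ'', ha, hb, e3⟩ := hS1G _ hB0 hcf hnc ζ ζ' hζ hζ'
    obtain ⟨-, -, -, -, -, -, -, -, hadd, -⟩ := hA (y + -y')
    obtain ⟨u, v, hu, hv, e4⟩ := hadd y'
    rw [neg_add_cancel_right] at e4
    refine ⟨add_mem hy (neg_mem hy'), ζ'', g2' * a * g * v, u * g' * b * g2, hζ'',
      mul_ne_zero (mul_ne_zero (mul_ne_zero hg2' ha) hg) hv,
      mul_ne_zero (mul_ne_zero (mul_ne_zero hu hg') hb) hg2, ?_⟩
    have hz' : zN π e y' ≠ 0 := (hA y').1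
    apply mul_right_cancel₀ hz'
    linear_combination (a ^ 3 * g ^ 3 * v ^ 3 * ζ'') * (-e2) + (g ^ 3 * g2 ^ 3 * v ^ 3) * e3 +
      (b ^ 3 * g2 ^ 3 * v ^ 3) * e1 - (g' ^ 3 * b ^ 3 * g2 ^ 3) * e4
  have hne : (WqS h n π p e r w0 c (BB h n E q)).Nonempty :=
    ⟨0, zero_mem _, by rw [WSB.zN_zero]; exact WSB.occ_one _⟩
  let W : AddSubgroup (Fin (m + 1) → ZMod 3) :=
    AddSubgroup.ofSub (WqS h n π p e r w0 c (BB h n E q)) hne hsub
  exact ⟨AddSubgroup.toZModSubmodule 3 W, fun _ => Iff.rfl⟩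

end Pool.Agent.PTK
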