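import Pool.Agent.PTK.StW

/-!
# PTK_WSM: sums weighted by powers of the number of the classes
-/

set_option autoImplicit false

open NumberField IsDedekindDomain Finset
open scoped nonZeroDivisors Pointwise

namespace Pool.Agent.PTK

open Pool.Agent.Lib_helper18 Pool.Agent.Lib_helper18.Eis Pool.Agent.Lib_helper84.Cub
open Pool.Agent.PT Pool.Agent.PTE Pool.Agent.PT3 Pool.Agent.PTL Pool.Agent.PTN

namespace WSM

theorem n_pos {n m k : ℕ} {π : Fin m → PP} {p e : Fin m → ℕ} {r f : Fin k → ℕ}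
    (h : NF n π p e r f) : 0 < n := by
  rw [h.eq]
  exact Nat.mul_pos (Finset.prod_pos fun i _ => pow_pos (h.pp i).pos _)
    (Finset.prod_pos fun j _ => pow_pos (h.rp j).pos _)

/-- the number of the tuples with values in a subspace -/
theorem card_tup {M : ℕ} (V W : Submodule (ZMod 3) (Fin M → ZMod 3)) (hW : W ≤ V) (k₀ : ℕ)
    [Fintype (Fin k₀ → V)] [DecidablePred fun Y : Fin k₀ → V => ∀ i, (Y i : Fin M → ZMod 3) ∈ W] :
    Nat.card W ^ k₀ ≤ (Finset.univ.filter fun Y : Fin k₀ → V =>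
      ∀ i, (Y i : Fin M → ZMod 3) ∈ W).card := by
  have h1 : Nat.card W ^ k₀ = Nat.card (Fin k₀ → W) := by
    rw [Nat.card_fun, Nat.card_eq_fintype_card (α := Fin k₀), Fintype.card_fin]
  have h2 : (Finset.univ.filter fun Y : Fin k₀ → V =>
      ∀ i, (Y i : Fin M → ZMod 3) ∈ W).card =
      Nat.card {Y : Fin k₀ → V // ∀ i, (Y i : Fin M → ZMod 3) ∈ W} := by
    rw [Nat.card_eq_fintype_card, Fintype.card_subtype]
  rw [h1, h2]
  refine Nat.card_le_card_of_injective
    (fun Z : Fin k₀ → W => (⟨fun i => ⟨(Z i : Fin M → ZMod 3), hW (Z i).2⟩, fun i => (Z i).2⟩ :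
      {Y : Fin k₀ → V // ∀ i, (Y i : Fin M → ZMod 3) ∈ W})) ?_
  intro Z Z' hZ
  funext i
  have h3 := congrFun (congrArg Subtype.val hZ) i
  exact Subtype.ext (congrArg (fun z : V => (z : Fin M → ZMod 3)) h3)

end WSM

open WSM in
theorem WSM_thm (hUPS : Stmt_UPS) (hWSB : Stmt_WSB) (hLTE : Stmt_LTE) (hLSM : Stmt_LSM) :
    Stmt_WSM := by
  classical
  intro h n m k π p e r f w0 c hNF hh k₀ S G x₀ hx₀ hG hH
  have hle : V0 h n π p e r w0 c ≤ VS h n π p e r w0 c := fun y hy => hy.1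
  obtain ⟨V, hV⟩ : ∃ V, V = VS h n π p e r w0 c := ⟨_, rfl⟩
  obtain ⟨V₀, hV₀⟩ : ∃ V₀, V₀ = V0 h n π p e r w0 c := ⟨_, rfl⟩
  rw [← hV, ← hV₀] at hle
  rw [← hV, ← hV₀] at hH
  haveI : Fintype (Fin k₀ → V) := Fintype.ofFinite _
  have hU : ∀ Y : Fin k₀ → V, Submodule.span (ZMod 3)
      (Set.range fun i => (Y i : Fin (m + 1) → ZMod 3)) ≤ V := by
    intro Y
    rw [Submodule.span_le]
    rintro _ ⟨i, rfl⟩
    exact (Y i).2
  choose M N y α β hT hy hN using fun Y : Fin k₀ → V => hLTE (m + 1) V V₀ _ hle (hU Y)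
  have h1 := hUPS.1 (Fin k₀ → V) S (fun E q => (Nat.card (WqS h n π p e r w0 c
    (BB h n E q)) : ℝ) ^ k₀ * G E q)
    (fun Y E => {q | q ∈ S E ∧ ∀ j, Occ (BB h n E q) (zN π e (y Y (α Y j)))}) (fun _ => G)
    (fun Y => x₀ / 3 ^ N Y) 1 (max 3 n) one_pos (fun _ => hG) ?_
    (fun Y => hH (M Y) (N Y) (y Y) (α Y) (β Y) (hT Y))
  · refine hUPS.2.1 _ _ _ _ ?_ h1
    rw [div_one]
    have h2 := hLSM (m + 1) V V₀ hle k₀
    rw [finsum_eq_sum_of_fintype] at h2
    have h3 : ∑ Y : Fin k₀ → V, x₀ / 3 ^ N Y = (∑ Y : Fin k₀ → V, (1 : ℝ) /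
        3 ^ nUe V V₀ (Submodule.span (ZMod 3)
          (Set.range fun i => (Y i : Fin (m + 1) → ZMod 3)))) * x₀ := by
      rw [Finset.sum_mul]
      refine Finset.sum_congr rfl fun Y _ => ?_
      rw [hN Y]
      ring
    rw [h3]
    have h4 : vN h n π p e r w0 c - v0N h n π p e r w0 c =
        Module.finrank (ZMod 3) V - Module.finrank (ZMod 3) V₀ := by
      rw [hV, hV₀]
      rfl
    rw [h4]
    exact mul_le_mul_of_nonneg_right h2 hx₀
  · intro E q hE hq hqM hqS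
    have hq3 : 3 < q := (le_max_left _ _).trans_lt hqM
    have hqn : ¬ q ∣ n := fun hd =>
      absurd (Nat.le_of_dvd (n_pos hNF) hd) (not_le.2 ((le_max_right _ _).trans_lt hqM))
    obtain ⟨W, hW⟩ := hWSB h n m k π p e r f w0 c E q hNF hh hE hq hq3 hqn
    have hWV : W ≤ V := by
      intro z hz
      rw [hV]
      exact ((hW z).1 hz).1
    have hcard : Nat.card (WqS h n π p e r w0 c (BB h n E q)) = Nat.card W :=
      Nat.card_congr (Equiv.subtypeEquivRight fun z => (hW z).symm)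
    rw [one_mul, hcard]
    refine le_trans (b := ∑ Y : Fin k₀ → V,
      if ∀ i, (Y i : Fin (m + 1) → ZMod 3) ∈ W then G E q else 0) ?_
      (Finset.sum_le_sum fun Y _ => ?_)
    swap
    · by_cases hY : ∀ i, (Y i : Fin (m + 1) → ZMod 3) ∈ W
      · rw [if_pos hY, if_pos]
        refine ⟨hqS, fun j => ?_⟩
        have h6 : Submodule.span (ZMod 3)
            (Set.range fun i => (Y i : Fin (m + 1) → ZMod 3)) ≤ W := by
          rw [Submodule.span_le]
          rintro _ ⟨i, rfl⟩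
          exact hY i
        exact ((hW _).1 (h6 (hy Y j))).2
      · rw [if_neg hY]
        split_ifs
        · exact hG E q
        · exact le_refl _
    rw [← Finset.sum_filter, Finset.sum_const, nsmul_eq_mul]
    refine mul_le_mul_of_nonneg_right ?_ (hG E q)
    exact_mod_cast card_tup V W hWV k₀

end Pool.Agent.PTK
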