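import Pool.Agent.PTK.StW
import Pool.Agent.PTK.CTZ

/-!
# PTK_ZPV: the zero pattern does not depend on the basis
-/

set_option autoImplicit false

open NumberField IsDedekindDomain Finset
open scoped nonZeroDivisors Pointwise

namespace Pool.Agent.PTK

open Pool.Agent.Lib_helper18 Pool.Agent.Lib_helper18.Eis Pool.Agent.Lib_helper84.Cub
open Pool.Agent.PT Pool.Agent.PTE Pool.Agent.PT3 Pool.Agent.PTL Pool.Agent.PTN

/-- PTK_ZPV. -/
theorem ZPV_thm (hSPLT : SPLT) (hSPP : SPP) : Stmt_ZPV := by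
  classical
  intro h n m k π p e r f w0 c s τ b X Y P Q P' Q' d v _ _ hPl hHB
  -- the basis `b` in terms of `v`
  choose g U W hU hW hrel using fun i => hHB.2.1 (b i) (hPl.adm i)
  have hvne : ∀ i, v i ≠ 0 := fun i => (hHB.1 i).1.ne
  have hbne : ∀ i, b i ≠ 0 := fun i => (hPl.adm i).1.ne
  obtain ⟨M, hM0, hMv, hMb, hMU, hMW⟩ : ∃ M : ℕ, 3 ≤ M ∧ (∀ i, (v i).natAbs ≤ M) ∧
      (∀ i, (b i).natAbs ≤ M) ∧ (∀ i, (U i).natAbs ≤ M) ∧ ∀ i, (W i).natAbs ≤ M := by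
    refine ⟨3 + ∑ i, (v i).natAbs + ∑ i, ((b i).natAbs + (U i).natAbs + (W i).natAbs), ?_, ?_,
      ?_, ?_, ?_⟩
    · omega
    · intro i
      have := Finset.single_le_sum (f := fun i => (v i).natAbs) (fun i _ => Nat.zero_le _)
        (mem_univ i)
      omega
    all_goals
      intro i
      have := Finset.single_le_sum (f := fun i => (b i).natAbs + (U i).natAbs + (W i).natAbs)
        (fun i _ => Nat.zero_le _) (mem_univ i)
      omega
  have hnd : ∀ (q : ℕ) (z : ℤ), M < q → z ≠ 0 → z.natAbs ≤ M → ¬ (q : ℤ) ∣ z := by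
    intro q z hq hz hzM hd
    have h1 := Int.natAbs_dvd_natAbs.2 hd
    have h2 := Nat.le_of_dvd (Int.natAbs_pos.2 hz) h1
    rw [Int.natAbs_natCast] at h2
    omega
  refine ⟨M, fun q hq hqM hqv ρ hρ i => ?_⟩
  have hq0 : q % 3 ≠ 0 := by
    intro h0
    have h1 : q = 3 := ((Nat.prime_dvd_prime_iff_eq Nat.prime_three hq).1
      (Nat.dvd_of_mod_eq_zero h0)).symm
    omega
  have hq2 : q % 3 ≠ 2 := by
    intro h2
    obtain ⟨π₁, hπ₁⟩ := hSPP.2.2.2.2.1 q hq h2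
    obtain ⟨π₂, hπ₂⟩ := (hSPP.2.2.2.1 ρ).2
    have h3 : Irreducible (q : Eis) := by
      rw [← hπ₁]
      exact π₁.2.1.irreducible
    rcases h3.isUnit_or_isUnit hρ with h4 | h4
    · exact ρ.2.1.not_isUnit h4
    · rw [← hπ₂] at h4
      exact π₂.2.1.not_isUnit h4
  have hq3 : q % 3 = 1 := by omega
  obtain ⟨-, -, -, hdv, -, -⟩ := hSPLT.2 q ρ hq hq3 hρ
  have hn : ∀ z : ℤ, z ≠ 0 → z.natAbs ≤ M → ¬ ρ.1 ∣ (z : Eis) := fun z hz hzM h1 =>
    hnd q z hqM hz hzM ((hdv z).1 h1)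
  exact CTZ.sym_zero_of hSPP v ρ (fun j => hn _ (hvne j) (hMv j)) (hqv ρ hρ) (g i)
    (hn _ (hbne i) (hMb i)) (hn _ (hU i) (hMU i)) (hn _ (hW i) (hMW i)) (hrel i)

end Pool.Agent.PTK
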