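import Pool.Agent.PTK.StW

/-!
# PTK_GMB: the values of `gM`
-/

set_option autoImplicit false

namespace Pool.Agent.PTK

namespace GMB

theorem gM_succ (k j : ℕ) : gM (k + 1) j =
    (1 + 3 ^ (k + 1) / 3 ^ j) * gM k j + (3 ^ j - 1) * 3 ^ k * gM k (j - 1) := rfl

theorem MoB_succ (k : ℕ) : MoB (k + 1) = MoB k * (1 + 3 ^ (k + 1)) := by
  unfold MoB
  rw [Finset.prod_range_succ]

theorem MoB_zero : MoB 0 = 1 := by
  unfold MoB
  rw [Finset.range_zero, Finset.prod_empty]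

theorem one_le (k : ℕ) : 1 ≤ MoB k := by
  induction k with
  | zero => rw [MoB_zero]
  | succ k ih =>
    rw [MoB_succ]
    have h : (1 : ℝ) ≤ 1 + 3 ^ (k + 1) := by
      have : (0 : ℝ) < 3 ^ (k + 1) := by positivity
      linarith
    exact one_le_mul_of_one_le_of_one_le ih h

theorem z0 (k : ℕ) : gM k 0 = MoB k := by
  induction k with
  | zero => rw [MoB_zero]; rfl
  | succ k ih =>
    rw [gM_succ, MoB_succ, ih, pow_zero, sub_self, zero_mul, zero_mul, div_one]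
    ring

theorem z1 (k : ℕ) : gM k 1 = MoB k := by
  induction k with
  | zero => rw [MoB_zero]; rfl
  | succ k ih =>
    rw [gM_succ, MoB_succ, ih, Nat.sub_self, z0]
    ring

theorem z2 (k : ℕ) : gM (k + 1) 2 = (1 + 3 ^ k / 3) * gM k 2 + 8 * 3 ^ k * MoB k := by
  rw [gM_succ, show (2 - 1 : ℕ) = 1 from rfl, z1]
  ring

theorem lo (k : ℕ) : MoB k ≤ gM k 2 := by
  induction k with
  | zero => rw [MoB_zero]; exact le_refl _
  | succ k ih =>
    rw [z2, MoB_succ]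
    have h1 : (0 : ℝ) < 3 ^ k := by positivity
    have h2 := one_le k
    have h3 : 0 ≤ 3 ^ k / 3 * gM k 2 := by
      apply mul_nonneg
      · positivity
      · linarith
    have h4 : 0 ≤ 3 ^ k * MoB k := by
      apply mul_nonneg h1.le
      linarith
    calc MoB k * (1 + 3 ^ (k + 1)) = MoB k + 3 * (3 ^ k * MoB k) := by ring
      _ ≤ gM k 2 + 3 ^ k / 3 * gM k 2 + 8 * (3 ^ k * MoB k) := by linarith
      _ = (1 + 3 ^ k / 3) * gM k 2 + 8 * 3 ^ k * MoB k := by ring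

theorem hi (k : ℕ) : gM k 2 ≤ 3 * MoB k := by
  induction k with
  | zero =>
    rw [MoB_zero]
    show (1 : ℝ) ≤ 3 * 1
    norm_num
  | succ k ih =>
    rw [z2, MoB_succ]
    have h1 : (0 : ℝ) ≤ 1 + 3 ^ k / 3 := by positivity
    have h2 := mul_le_mul_of_nonneg_left ih h1
    calc (1 + 3 ^ k / 3) * gM k 2 + 8 * 3 ^ k * MoB k
        ≤ (1 + 3 ^ k / 3) * (3 * MoB k) + 8 * 3 ^ k * MoB k := by linarith
      _ = 3 * (MoB k * (1 + 3 ^ (k + 1))) := by ring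

theorem sq1 (k : ℕ) : MoB (k + 1) ^ 2 ≤
    64 / 25 * (1 - 1 / (2 * 3 ^ (k + 1))) ^ 2 * 3 ^ ((k + 1) * (k + 2)) := by
  induction k with
  | zero =>
    rw [MoB_succ, MoB_zero]
    norm_num
  | succ k ih =>
    rw [MoB_succ, mul_pow]
    obtain ⟨y, hy⟩ : ∃ y : ℝ, y = 3 ^ (k + 1) := ⟨_, rfl⟩
    have hy1 : 1 ≤ y := by
      rw [hy]
      exact one_le_pow₀ (by norm_num)
    have e1 : (3 : ℝ) ^ (k + 1 + 1) = 3 * y := by rw [pow_succ, hy]; ring
    have e2 : (3 : ℝ) ^ ((k + 1 + 1) * (k + 1 + 2)) = 3 ^ ((k + 1) * (k + 2)) * (3 * y) ^ 2 := by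
      rw [hy, mul_pow, ← pow_mul, ← mul_assoc, ← pow_add, ← pow_add]
      congr 1
      ring
    rw [e2, e1]
    rw [← hy] at ih
    have h3 : (0 : ℝ) ≤ (1 + 3 * y) ^ 2 := sq_nonneg _
    have h4 := mul_le_mul_of_nonneg_right ih h3
    refine h4.trans ?_
    have h5 : (0 : ℝ) ≤ 3 ^ ((k + 1) * (k + 2)) := by positivity
    have h6 : (1 - 1 / (2 * y)) * (1 + 3 * y) ≤ (1 - 1 / (2 * (3 * y))) * (3 * y) := by
      have e3 : (1 - 1 / (2 * y)) * (1 + 3 * y) = 3 * y - 1 / 2 - 1 / (2 * y) := by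
        field_simp
        ring
      have e4 : (1 - 1 / (2 * (3 * y))) * (3 * y) = 3 * y - 1 / 2 := by
        field_simp
      rw [e3, e4]
      have : 0 ≤ 1 / (2 * y) := by positivity
      linarith
    have h7 : 0 ≤ (1 - 1 / (2 * y)) * (1 + 3 * y) := by
      apply mul_nonneg
      · have : 1 / (2 * y) ≤ 1 := by
          rw [div_le_one (by positivity)]
          linarith
        linarith
      · positivity
    have h8 := pow_le_pow_left₀ h7 h6 2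
    have h9 := mul_le_mul_of_nonneg_left h8 h5
    calc 64 / 25 * (1 - 1 / (2 * y)) ^ 2 * 3 ^ ((k + 1) * (k + 2)) * (1 + 3 * y) ^ 2
        = 64 / 25 * (3 ^ ((k + 1) * (k + 2)) * ((1 - 1 / (2 * y)) * (1 + 3 * y)) ^ 2) := by ring
      _ ≤ 64 / 25 * (3 ^ ((k + 1) * (k + 2)) * ((1 - 1 / (2 * (3 * y))) * (3 * y)) ^ 2) := by
          linarith
      _ = 64 / 25 * (1 - 1 / (2 * (3 * y))) ^ 2 * (3 ^ ((k + 1) * (k + 2)) * (3 * y) ^ 2) := by
          ring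

theorem sq (k : ℕ) : MoB k ^ 2 ≤ 64 / 25 * 3 ^ (k * (k + 1)) := by
  cases k with
  | zero =>
    rw [MoB_zero]
    norm_num
  | succ k =>
    refine (sq1 k).trans ?_
    have h1 : (0 : ℝ) ≤ 3 ^ ((k + 1) * (k + 2)) := by positivity
    have h2 : (0 : ℝ) < 1 / (2 * 3 ^ (k + 1)) := by positivity
    have h3 : (1 : ℝ) / (2 * 3 ^ (k + 1)) ≤ 1 := by
      rw [div_le_one (by positivity)]
      have : (1 : ℝ) ≤ 3 ^ (k + 1) := one_le_pow₀ (by norm_num)
      linarith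
    have h4 : (1 - 1 / (2 * 3 ^ (k + 1)) : ℝ) ^ 2 ≤ 1 := by
      apply pow_le_one₀
      · linarith
      · linarith
    have h5 := mul_le_mul_of_nonneg_right h4 h1
    calc (64 : ℝ) / 25 * (1 - 1 / (2 * 3 ^ (k + 1))) ^ 2 * 3 ^ ((k + 1) * (k + 2))
        = 64 / 25 * ((1 - 1 / (2 * 3 ^ (k + 1))) ^ 2 * 3 ^ ((k + 1) * (k + 2))) := by ring
      _ ≤ 64 / 25 * (1 * 3 ^ ((k + 1) * (k + 2))) := by linarith
      _ = 64 / 25 * 3 ^ ((k + 1) * (k + 1 + 1)) := by ring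

end GMB

open GMB in
theorem GMB_thm : Stmt_GMB := by
  refine ⟨z0, z1, lo, hi, ?_, one_le, ?_, sq⟩
  · rw [gM_succ]
    show (1 + 3 ^ (0 + 1) / 3 ^ 2) * (1 : ℝ) + (3 ^ 2 - 1) * 3 ^ 0 * 1 = 28 / 3
    norm_num
  · rw [MoB_succ, MoB_zero]
    norm_num

end Pool.Agent.PTK
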