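import Pool.Agent.PTK.StZ

/-!
# The full law of prime twists: the Hasse norm theorem for a base which is not a cube at `λ`
-/

set_option autoImplicit false

open NumberField IsDedekindDomain Finset
open scoped nonZeroDivisors Pointwise

namespace Pool.Agent.PTK

open Pool.Agent.Lib_helper18 Pool.Agent.Lib_helper18.Eis Pool.Agent.Lib_helper84.Cub
open Pool.Agent.PT

namespace HN2

theorem cube_of {y a b : Eis} (hb : b ≠ 0) (h : a ^ 3 = y * b ^ 3) : ∃ c : Eis, c ^ 3 = y := by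
  have h1 : b ^ 3 ∣ a ^ 3 := ⟨y, by rw [h, mul_comm]⟩
  have h2 : b ∣ a := (IsIntegrallyClosed.pow_dvd_pow_iff (by norm_num : (3 : ℕ) ≠ 0)).1 h1
  obtain ⟨c, rfl⟩ := h2
  refine ⟨c, mul_right_cancel₀ (pow_ne_zero 3 hb) ?_⟩
  rw [← h]
  ring

theorem sol {x y p q p' q' : Eis} (hx : x ≠ 0) (hy : ¬ ∃ c : Eis, c ^ 3 = y)
    (h : SolWE x y p q p' q') : SolE x y p q p' q' := by
  have hn : p' ^ 3 + x * q' ^ 3 ≠ 0 := by
    intro h1
    apply h.n1
    rw [h.eq, h1, mul_zero]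
  have n2 : p ^ 3 - y * p' ^ 3 ≠ 0 := by
    intro h1
    have h2 : p ^ 3 = y * p' ^ 3 := sub_eq_zero.1 h1
    rcases eq_or_ne p' 0 with h3 | h3
    · have h4 : p = 0 := by
        apply pow_eq_zero_iff (n := 3) (by norm_num) |>.1
        rw [h2, h3]
        ring
      have h5 := h.eq
      have h6 : q ^ 3 = y * q' ^ 3 := by
        apply mul_left_cancel₀ hx
        rw [h3, h4] at h5
        linear_combination h5
      rcases eq_or_ne q' 0 with h7 | h7
      · apply hn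
        rw [h3, h7]
        ring
      · exact hy (cube_of h7 h6)
    · exact hy (cube_of h3 h2)
  have g : ∀ i : ℕ, GfE p q p' q' i ≠ 0 := by
    intro i h1
    unfold GfE at h1
    have h2 : q * p' = w ^ i * p * q' := sub_eq_zero.1 h1
    have h3 : q ^ 3 * p' ^ 3 = p ^ 3 * q' ^ 3 := by
      have h4 : (w ^ i) ^ 3 = 1 := by rw [← pow_mul, mul_comm, pow_mul, w_cube, one_pow]
      calc q ^ 3 * p' ^ 3 = (q * p') ^ 3 := by ring
        _ = (w ^ i) ^ 3 * (p ^ 3 * q' ^ 3) := by rw [h2]; ring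
        _ = p ^ 3 * q' ^ 3 := by rw [h4, one_mul]
    have h5 : (p ^ 3 - y * p' ^ 3) * (p' ^ 3 + x * q' ^ 3) = 0 := by
      linear_combination (- x) * h3 - p' ^ 3 * (- h.eq)
    rcases mul_eq_zero.1 h5 with h6 | h6
    · exact n2 h6
    · exact hn h6
  exact { toSolWE := h, n2 := n2, g1 := g 1, g2 := g 2 }

end HN2

/-- the Hasse norm theorem, with nondegenerate solutions, for a base which is not a cube at `λ` -/
theorem HN2_thm (hNFL : Stmt_NFL) (hNM2 : Stmt_NM2) (hNDS : Stmt_NDS) : Stmt_HN2 := by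
  intro x y hx hp hsl hxc hV hy hyc htm hd
  obtain ⟨L, _, _, ι, θ, σ, hC⟩ := hNFL x hx hxc
  obtain ⟨z, hz, hN⟩ := hNM2 x L ι θ σ hx hp hsl hV hxc hC y hy htm hd
  obtain ⟨p, q, p', q', hs⟩ := hNDS x L ι θ σ hx hC y z hy hz hN
  exact ⟨p, q, p', q', HN2.sol hx hyc hs⟩

end Pool.Agent.PTK
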