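import Pool.Agent.PTK.StZ2

/-!
# PTK_JD2: joint averages with the matrix of the minus part, `q = 2 (mod 3)`
-/

set_option autoImplicit false

open NumberField IsDedekindDomain Finset
open scoped nonZeroDivisors Pointwise

namespace Pool.Agent.PTK

open Pool.Agent.Lib_helper18 Pool.Agent.Lib_helper18.Eis Pool.Agent.Lib_helper84.Cub
open Pool.Agent.PT Pool.Agent.PTE Pool.Agent.PT3 Pool.Agent.PTL Pool.Agent.PTN

theorem JD2_thm (hUPS : Stmt_UPS) (hKUM : Stmt_KUM) (hMD2 : Stmt_MD2) (hZKQ : Stmt_ZKQ)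
    (hCNM : Stmt_CNM) : Stmt_JD2 := by
  classical
  intro h n m k π p e r f w0 c s τ b X Y P Q P' Q' hNF hh hS l N y U R U' R' α β hM F hF hF0
  have hFn : ∀ a d, 0 ≤ F a d := fun a d => (hF0 a).trans (hF a (Nat.zero_le d))
  obtain ⟨N₀, hN₀⟩ := hZKQ h n m k π p e r f w0 c hNF hh l y U R U' R' hM.bas hM.sys
  obtain ⟨hAlt, hSum⟩ := hCNM.2 l N α β hM.prs
  have h1 := hUPS.1 (Fin N → ZMod 3) (fun E => {q | q % 3 = 2 ∧ InCT E π w0 c q})
    (fun E q => F (kY h n π e y U R U' R' E q) (kS h n b X Y P Q P' Q' E q))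
    (fun M E => QMM h n π e w0 c y U R U' R' α β M 2 E)
    (fun M E q => F (l - (altZ α β M).rank) (kS h n b X Y P Q P' Q' E q))
    (fun M => Esk s (F (l - (altZ α β M).rank)) * (1 / 3 ^ N / 3 ^ (m + 1))) 1 N₀ one_pos
    (fun M E q => hFn _ _) ?_ ?_
  · have e1 : (∑ M : Fin N → ZMod 3, Esk s (F (l - (altZ α β M).rank)) *
        (1 / 3 ^ N / 3 ^ (m + 1))) / 1 = Esk l (fun a => Esk s (F a)) / 3 ^ (m + 1) := by
      rw [← hSum (fun a => Esk s (F a)), ← Finset.sum_mul]
      field_simp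
    rw [e1] at h1
    exact h1
  · intro E q hE hq hqN hqS
    obtain ⟨hq2, hqC⟩ := hqS
    obtain ⟨hanti, -⟩ := hN₀ E q hE hq hqN (Or.inr hq2) hqC
    rw [one_mul]
    refine le_trans (b := if q ∈ QMM h n π e w0 c y U R U' R' α β
        (fun r => MY h n π e y U R U' R' E q (α r) (β r)) 2 E then
        F (l - (altZ α β (fun r => MY h n π e y U R U' R' E q (α r) (β r))).rank)
          (kS h n b X Y P Q P' Q' E q) else 0) ?_
      (Finset.single_le_sum (f := fun M : Fin N → ZMod 3 =>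
        if q ∈ QMM h n π e w0 c y U R U' R' α β M 2 E then
        F (l - (altZ α β M).rank) (kS h n b X Y P Q P' Q' E q) else 0) (fun M _ => ?_)
        (Finset.mem_univ _))
    · rw [if_pos ⟨hq2, hqC, fun r => rfl⟩, hAlt _ hanti]
      exact le_refl _
    · split_ifs
      · exact hFn _ _
      · exact le_refl _
  · intro M
    refine hKUM (fun E => QMM h n π e w0 c y U R U' R' α β M 2 E)
      (fun E q => kS h n b X Y P Q P' Q' E q) s 0 (1 / 3 ^ N / 3 ^ (m + 1)) (by positivity)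
      (fun E q _ _ _ _ => Nat.sub_le _ _) ?_ (F (l - (altZ α β M).rank)) (hF _) (hF0 _)
    intro t
    exact hMD2 h n m k π p e r f w0 c s τ b X Y P Q P' Q' hNF hh hS l N y U R U' R' α β hM M t

end Pool.Agent.PTK
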