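import Pool.Agent.PTK.StZ2

/-!
# PTK_JDG: joint averages with the matrix of the minus part, `q = 1 (mod 3)`, one pattern
-/

set_option autoImplicit false

open NumberField IsDedekindDomain Finset
open scoped nonZeroDivisors Pointwise

namespace Pool.Agent.PTK

open Pool.Agent.Lib_helper18 Pool.Agent.Lib_helper18.Eis Pool.Agent.Lib_helper84.Cub
open Pool.Agent.PT Pool.Agent.PTE Pool.Agent.PT3 Pool.Agent.PTL Pool.Agent.PTN

/-- PTK_JDG -/
theorem JDG_thm (hUPS : Stmt_UPS) (hKUM : Stmt_KUM) (hMDU : Stmt_MDU) (hZKQ : Stmt_ZKQ)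
    (hCNM : Stmt_CNM) : Stmt_JDG := by
  classical
  intro h n m k π p e r f w0 c d v δ s τ b X Y P Q P' Q' hNF hh hδ hPl l N y U R U' R' α β hM
    F hF hF0
  have hd : d - 1 = s := by
    have := hPl.dim
    omega
  have hFn : ∀ a c, 0 ≤ F a c := fun a c => (hF0 a).trans (hF a (Nat.zero_le c))
  obtain ⟨N₀, hN₀⟩ := hZKQ h n m k π p e r f w0 c hNF hh l y U R U' R' hM.bas hM.sys
  obtain ⟨hAlt, hSum⟩ := hCNM.2 l N α β hM.prs
  obtain ⟨T, hT⟩ : ∃ T : (Fin N → ZMod 3) → ℕ → Set ℕ, ∀ M E, T M E =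
      {q | q ∈ QMM h n π e w0 c y U R U' R' α β M 1 E ∧ q ∈ Pat v δ} := ⟨_, fun _ _ => rfl⟩
  have h1 := hUPS.1 (Fin N → ZMod 3)
    (fun E => {q | q % 3 = 1 ∧ InCT E π w0 c q ∧ q ∈ Pat v δ})
    (fun E q => F (kY h n π e y U R U' R' E q) (kU h n b X Y P Q P' Q' E q))
    T
    (fun M E q => F (l - (altZ α β M).rank) (kU h n b X Y P Q P' Q' E q))
    (fun M => Esk s (F (l - (altZ α β M).rank)) * (2 / 3 ^ d / 3 ^ N / 3 ^ (m + 1))) 1 N₀ one_pos
    (fun M E q => hFn _ _) ?_ ?_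
  · have e1 : (∑ M : Fin N → ZMod 3, Esk s (F (l - (altZ α β M).rank)) *
        (2 / 3 ^ d / 3 ^ N / 3 ^ (m + 1))) / 1 =
        Esk l (fun a => Esk (d - 1) (F a)) * (2 / 3 ^ d / 3 ^ (m + 1)) := by
      rw [hd, ← hSum (fun a => Esk s (F a)), ← Finset.sum_mul]
      field_simp
    rw [e1] at h1
    exact h1
  · intro E q hE hq hqN hqS
    obtain ⟨hq1, hqC, hqP⟩ := hqS
    obtain ⟨hanti, -⟩ := hN₀ E q hE hq hqN (Or.inl hq1) hqC
    rw [one_mul]
    refine le_trans (b := if q ∈ T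
        (fun r => MY h n π e y U R U' R' E q (α r) (β r)) E then
        F (l - (altZ α β (fun r => MY h n π e y U R U' R' E q (α r) (β r))).rank)
          (kU h n b X Y P Q P' Q' E q) else 0) ?_
      (Finset.single_le_sum (f := fun M : Fin N → ZMod 3 =>
        if q ∈ T M E then
        F (l - (altZ α β M).rank) (kU h n b X Y P Q P' Q' E q) else 0) (fun M _ => ?_)
        (Finset.mem_univ _))
    · have hqT : q ∈ T (fun r => MY h n π e y U R U' R' E q (α r) (β r)) E := by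
        rw [hT]
        exact ⟨⟨hq1, hqC, fun r => rfl⟩, hqP⟩
      rw [if_pos hqT, hAlt _ hanti]
      exact le_refl _
    · split_ifs
      · exact hFn _ _
      · exact le_refl _
  · intro M
    refine hKUM (T M)
      (fun E q => kU h n b X Y P Q P' Q' E q) s 0 (2 / 3 ^ d / 3 ^ N / 3 ^ (m + 1))
      (by positivity) (fun E q _ _ _ _ => Nat.sub_le _ _) ?_ (F (l - (altZ α β M).rank)) (hF _)
      (hF0 _)
    intro t
    rw [hT, hT]
    exact hMDU h n m k π p e r f w0 c d v δ s τ b X Y P Q P' Q' hNF hh hδ hPl l N y U R U' R'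
      α β hM M t

end Pool.Agent.PTK
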