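import Pool.Agent.PTK.StZ2

/-!
# PTK_JDZ: joint averages, `q = 1 (mod 3)`, zero pattern
-/

set_option autoImplicit false

open NumberField IsDedekindDomain Finset
open scoped nonZeroDivisors Pointwise

namespace Pool.Agent.PTK

open Pool.Agent.Lib_helper18 Pool.Agent.Lib_helper18.Eis Pool.Agent.Lib_helper84.Cub
open Pool.Agent.PT Pool.Agent.PTE Pool.Agent.PT3 Pool.Agent.PTL Pool.Agent.PTN

theorem JDZ_thm (hUPS : Stmt_UPS) (hKUM : Stmt_KUM) (hMDZ : Stmt_MDZ) (hZKQ : Stmt_ZKQ)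
    (hCNM : Stmt_CNM) : Stmt_JDZ := by
  classical
  intro h n m k π p e r f w0 c s τ b X Y P Q P' Q' hNF hh hS l N y U R U' R' α β hMn F hF hF0
  have hFn : ∀ a d, 0 ≤ F a d := fun a d => (hF0 a).trans (hF a (Nat.zero_le d))
  obtain ⟨N₀, hN₀⟩ := hZKQ h n m k π p e r f w0 c hNF hh l y U R U' R' hMn.bas hMn.sys
  obtain ⟨hC1, hC2⟩ := hCNM.2 l N α β hMn.prs
  have h1 := hUPS.1 (Fin N → ZMod 3) (fun E => {q | q % 3 = 1 ∧ InCT E π w0 c q ∧ q ∈ ZP b})
    (fun E q => F (kY h n π e y U R U' R' E q) (kS h n b X Y P Q P' Q' E q))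
    (fun M E => {q | q ∈ QMM h n π e w0 c y U R U' R' α β M 1 E ∧ q ∈ ZP b})
    (fun M E q => F (l - (altZ α β M).rank) (kS h n b X Y P Q P' Q' E q))
    (fun M => Esk s (F (l - (altZ α β M).rank)) * (1 / 3 ^ s / 3 ^ N / 3 ^ (m + 1)))
    1 N₀ one_pos (fun M E q => hFn _ _) ?_ ?_
  · have e1 : (∑ M : Fin N → ZMod 3, Esk s (F (l - (altZ α β M).rank)) *
        (1 / 3 ^ s / 3 ^ N / 3 ^ (m + 1))) / 1 =
        Esk l (fun a => Esk s (F a)) * (1 / 3 ^ s / 3 ^ (m + 1)) := by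
      rw [← Finset.sum_mul, ← hC2 (fun a => Esk s (F a))]
      field_simp
    rw [e1] at h1
    exact h1
  · intro E q hE hq hqN hqS
    obtain ⟨q1, q2, q3⟩ := hqS
    obtain ⟨hA, -⟩ := hN₀ E q hE hq hqN (Or.inl q1) q2
    have hM := hC1 (MY h n π e y U R U' R' E q) hA
    have hmem : q ∈ ({q | q ∈ QMM h n π e w0 c y U R U' R' α β
        (fun r => MY h n π e y U R U' R' E q (α r) (β r)) 1 E ∧ q ∈ ZP b} : Set ℕ) :=
      ⟨⟨q1, q2, fun r => rfl⟩, q3⟩
    rw [one_mul]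
    refine le_trans ?_ (Finset.single_le_sum (fun M _ => ?_)
      (Finset.mem_univ (fun r => MY h n π e y U R U' R' E q (α r) (β r))))
    · split_ifs with hc
      · have e2 : (l - (altZ α β fun r => MY h n π e y U R U' R' E q (α r) (β r)).rank) =
            kY h n π e y U R U' R' E q := by
          rw [hM]
          rfl
        exact le_of_eq (congrArg (fun x => F x (kS h n b X Y P Q P' Q' E q)) e2.symm)
      · exact absurd hmem hc
    · split_ifs
      · exact hFn _ _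
      · exact le_rfl
  · intro M
    refine hKUM (fun E => {q | q ∈ QMM h n π e w0 c y U R U' R' α β M 1 E ∧ q ∈ ZP b})
      (fun E q => kS h n b X Y P Q P' Q' E q) s 0 (1 / 3 ^ s / 3 ^ N / 3 ^ (m + 1))
      (by positivity) (fun E q _ _ _ _ => Nat.sub_le _ _) ?_
      (F (l - (altZ α β M).rank)) (hF _) (hF0 _)
    intro t
    exact hMDZ h n m k π p e r f w0 c s τ b X Y P Q P' Q' hNF hh hS l N y U R U' R' α β hMn M t

end Pool.Agent.PTK
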