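import Mathlib.Tactic.Ring
import Mathlib.Tactic.LinearCombination

/-!
# The polynomial identity for KN1
-/

set_option autoImplicit false
set_option maxRecDepth 100000
set_option maxHeartbeats 0

namespace Pool.Agent.PTK


theorem KN_id {R : Type} [CommRing R] (w a₁ a₂ s P Q δ : R) (hw : w ^ 2 + w + 1 = 0)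
    (hs : s ^ 3 = -(a₁ + a₂) * a₁ * a₂ + δ) :
    -3 * a₂ * (P - w * a₂ * Q) *
        (a₁ * (w ^ 2 * -(a₁ + a₂) * a₂ + w ^ 2 * s ^ 2 + a₂ * s) * Q -
          w ^ 2 * (-(a₁ + a₂) * a₁ + w ^ 2 * a₁ * s + s ^ 2) * P) ^ 3 -
      w ^ 2 * (1 - w) * (w - w ^ 2) * ((w - w ^ 2) * s - w ^ 2 * a₁ + w * a₂) * -(a₁ + a₂) *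
        a₁ ^ 2 * (P - w ^ 2 * a₂ * Q) * (a₂ * (a₁ - w ^ 2 * s) * Q + (a₂ - w * s) * w ^ 2 * P) ^ 3 =
    (P ^ 3 + a₁ * a₂ ^ 2 * Q ^ 3) * (3 * (1 - w) * -(a₁ + a₂) * a₁ ^ 2 * a₂) *
        ((w - w ^ 2) * s - w ^ 2 * a₁ + w * a₂) ^ 2 * ((a₂ + s) * P - a₂ * (a₁ + s) * Q) +
      δ * (- 3*w*a₁^5*a₂^3*Q^4 - 6*w*a₁^4*a₂^4*Q^4 - 9*w*a₁^4*a₂^3*s*Q^4 + 9*w*a₁^4*a₂^3*P*Q^3 + 9*w*a₁^4*a₂^2*s*P*Q^3 - 18*w*a₁^4*a₂^2*P^2*Q^2 - 3*w*a₁^4*a₂*P^3*Q - 3*w*a₁^3*a₂^5*Q^4 - 15*w*a₁^3*a₂^4*s*Q^4 + 24*w*a₁^3*a₂^4*P*Q^3 - 9*w*a₁^3*a₂^3*s^2*Q^4 + 24*w*a₁^3*a₂^3*s*P*Q^3 - 27*w*a₁^3*a₂^3*P^2*Q^2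 + 3*w*a₁^3*a₂^2*s^3*Q^4 - 9*w*a₁^3*a₂^2*s^2*P*Q^3 - 27*w*a₁^3*a₂^2*s*P^2*Q^2 + 9*w*a₁^3*a₂^2*P^3*Q - 9*w*a₁^3*a₂*s^2*P^2*Q^2 + 3*w*a₁^3*a₂*s*P^3*Q + 6*w*a₁^3*a₂*P^4 - 3*w*a₁^3*s*P^4 - 3*w*a₁^2*a₂^6*Q^4 - 6*w*a₁^2*a₂^5*s*Q^4 + 6*w*a₁^2*a₂^5*P*Q^3 + 24*w*a₁^2*a₂^4*s*P*Q^3 - 18*w*a₁^2*a₂^4*P^2*Q^2 + 18*w*a₁^2*a₂^3*s^2*P*Q^3 - 18*w*a₁^2*a₂^3*s*P^2*Q^2 + 9*w*a₁^2*a₂^3*P^3*Q - 9*w*a₁^2*a₂^2*s^3*P*Q^3 + 18*w*a₁^2*a₂^2*s^2*P^2*Q^2 + 30*w*a₁^2*a₂^2*s*P^3*Q + 6*w*a₁^2*a₂^2*P^4 + 18*w*a₁^2*a₂*s^2*P^3*Q + 6*w*a₁^2*a₂*s*P^4 - 9*w*a₁*a₂^4*s*P^2*Q^2 + 3*w*a₁*a₂^4*P^3*Q - 9*w*a₁*a₂^3*s^2*P^2*Q^2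 + 9*w*a₁*a₂^3*s*P^3*Q + 9*w*a₁*a₂^2*s^3*P^2*Q^2 - 9*w*a₁*a₂^2*s^2*P^3*Q - 9*w*a₁*a₂*s^2*P^4 - 3*w*a₂^2*s^3*P^3*Q + 3*a₁^5*a₂^2*P*Q^3 + 6*a₁^4*a₂^4*Q^4 + 9*a₁^4*a₂^3*P*Q^3 + 9*a₁^4*a₂^2*s*P*Q^3 - 18*a₁^4*a₂^2*P^2*Q^2 - 9*a₁^4*a₂*s*P^2*Q^2 + 6*a₁^4*a₂*P^3*Q - 3*a₁^4*P^4 + 6*a₁^3*a₂^5*Q^4 + 6*a₁^3*a₂^4*s*Q^4 + 9*a₁^3*a₂^4*P*Q^3 - 9*a₁^3*a₂^3*s^2*Q^4 + 30*a₁^3*a₂^3*s*P*Q^3 - 27*a₁^3*a₂^3*P^2*Q^2 - 9*a₁^3*a₂^2*s^2*P*Q^3 - 18*a₁^3*a₂^2*s*P^2*Q^2 + 24*a₁^3*a₂^2*P^3*Q - 3*a₁^3*a₂*s^3*P*Q^3 - 9*a₁^3*a₂*s^2*P^2*Q^2 + 24*a₁^3*a₂*s*P^3*Q - 3*a₁^3*a₂*P^4 - 6*a₁^3*s*P^4 -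 3*a₁^2*a₂^5*s*Q^4 - 3*a₁^2*a₂^5*P*Q^3 + 3*a₁^2*a₂^4*s*P*Q^3 - 18*a₁^2*a₂^4*P^2*Q^2 + 18*a₁^2*a₂^3*s^2*P*Q^3 - 27*a₁^2*a₂^3*s*P^2*Q^2 + 9*a₁^2*a₂^3*P^3*Q + 18*a₁^2*a₂^2*s^2*P^2*Q^2 + 24*a₁^2*a₂^2*s*P^3*Q - 6*a₁^2*a₂^2*P^4 + 9*a₁^2*a₂*s^3*P^2*Q^2 + 18*a₁^2*a₂*s^2*P^3*Q - 15*a₁^2*a₂*s*P^4 - 9*a₁*a₂^3*s^2*P^2*Q^2 + 9*a₁*a₂^3*s*P^3*Q - 3*a₁*a₂^3*P^4 - 9*a₁*a₂^2*s^2*P^3*Q - 9*a₁*a₂^2*s*P^4 - 9*a₁*a₂*s^3*P^3*Q - 9*a₁*a₂*s^2*P^4 + 3*a₂*s^3*P^4) := by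
  linear_combination (- 3*w*a₁^5*a₂^3*Q^4 - 6*w*a₁^4*a₂^4*Q^4 - 9*w*a₁^4*a₂^3*s*Q^4 + 9*w*a₁^4*a₂^3*P*Q^3 + 9*w*a₁^4*a₂^2*s*P*Q^3 - 18*w*a₁^4*a₂^2*P^2*Q^2 - 3*w*a₁^4*a₂*P^3*Q - 3*w*a₁^3*a₂^5*Q^4 - 15*w*a₁^3*a₂^4*s*Q^4 + 24*w*a₁^3*a₂^4*P*Q^3 - 9*w*a₁^3*a₂^3*s^2*Q^4 + 24*w*a₁^3*a₂^3*s*P*Q^3 - 27*w*a₁^3*a₂^3*P^2*Q^2 + 3*w*a₁^3*a₂^2*s^3*Q^4 - 9*w*a₁^3*a₂^2*s^2*P*Q^3 - 27*w*a₁^3*a₂^2*s*P^2*Q^2 + 9*w*a₁^3*a₂^2*P^3*Q - 9*w*a₁^3*a₂*s^2*P^2*Q^2 + 3*w*a₁^3*a₂*s*P^3*Q + 6*w*a₁^3*a₂*P^4 - 3*w*a₁^3*s*P^4 - 3*w*a₁^2*a₂^6*Q^4 - 6*w*a₁^2*a₂^5*s*Q^4 + 6*w*a₁^2*a₂^5*P*Q^3 + 24*w*a₁^2*a₂^4*s*P*Q^3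 - 18*w*a₁^2*a₂^4*P^2*Q^2 + 18*w*a₁^2*a₂^3*s^2*P*Q^3 - 18*w*a₁^2*a₂^3*s*P^2*Q^2 + 9*w*a₁^2*a₂^3*P^3*Q - 9*w*a₁^2*a₂^2*s^3*P*Q^3 + 18*w*a₁^2*a₂^2*s^2*P^2*Q^2 + 30*w*a₁^2*a₂^2*s*P^3*Q + 6*w*a₁^2*a₂^2*P^4 + 18*w*a₁^2*a₂*s^2*P^3*Q + 6*w*a₁^2*a₂*s*P^4 - 9*w*a₁*a₂^4*s*P^2*Q^2 + 3*w*a₁*a₂^4*P^3*Q - 9*w*a₁*a₂^3*s^2*P^2*Q^2 + 9*w*a₁*a₂^3*s*P^3*Q + 9*w*a₁*a₂^2*s^3*P^2*Q^2 - 9*w*a₁*a₂^2*s^2*P^3*Q - 9*w*a₁*a₂*s^2*P^4 - 3*w*a₂^2*s^3*P^3*Q + 3*a₁^5*a₂^2*P*Q^3 + 6*a₁^4*a₂^4*Q^4 + 9*a₁^4*a₂^3*P*Q^3 + 9*a₁^4*a₂^2*s*P*Q^3 - 18*a₁^4*a₂^2*P^2*Q^2 - 9*a₁^4*a₂*s*P^2*Q^2 + 6*a₁^4*a₂*P^3*Q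 - 3*a₁^4*P^4 + 6*a₁^3*a₂^5*Q^4 + 6*a₁^3*a₂^4*s*Q^4 + 9*a₁^3*a₂^4*P*Q^3 - 9*a₁^3*a₂^3*s^2*Q^4 + 30*a₁^3*a₂^3*s*P*Q^3 - 27*a₁^3*a₂^3*P^2*Q^2 - 9*a₁^3*a₂^2*s^2*P*Q^3 - 18*a₁^3*a₂^2*s*P^2*Q^2 + 24*a₁^3*a₂^2*P^3*Q - 3*a₁^3*a₂*s^3*P*Q^3 - 9*a₁^3*a₂*s^2*P^2*Q^2 + 24*a₁^3*a₂*s*P^3*Q - 3*a₁^3*a₂*P^4 - 6*a₁^3*s*P^4 - 3*a₁^2*a₂^5*s*Q^4 - 3*a₁^2*a₂^5*P*Q^3 + 3*a₁^2*a₂^4*s*P*Q^3 - 18*a₁^2*a₂^4*P^2*Q^2 + 18*a₁^2*a₂^3*s^2*P*Q^3 - 27*a₁^2*a₂^3*s*P^2*Q^2 + 9*a₁^2*a₂^3*P^3*Q + 18*a₁^2*a₂^2*s^2*P^2*Q^2 + 24*a₁^2*a₂^2*s*P^3*Q - 6*a₁^2*a₂^2*P^4 + 9*a₁^2*a₂*s^3*P^2*Q^2 + 18*a₁^2*a₂*s^2*P^3*Q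 - 15*a₁^2*a₂*s*P^4 - 9*a₁*a₂^3*s^2*P^2*Q^2 + 9*a₁*a₂^3*s*P^3*Q - 3*a₁*a₂^3*P^4 - 9*a₁*a₂^2*s^2*P^3*Q - 9*a₁*a₂^2*s*P^4 - 9*a₁*a₂*s^3*P^3*Q - 9*a₁*a₂*s^2*P^4 + 3*a₂*s^3*P^4) * hs + (- 1*w^16*a₁^4*a₂*s^3*P^3*Q - 1*w^16*a₁^3*a₂^2*s^3*P^3*Q - 1*w^16*a₁^3*a₂*s^4*P^3*Q - 1*w^16*a₁^2*a₂^2*s^4*P^3*Q - 3*w^15*a₁^4*a₂^2*s^3*P^2*Q^2 + 3*w^15*a₁^4*a₂^2*s^2*P^3*Q + 3*w^15*a₁^4*a₂*s^3*P^3*Q - 3*w^15*a₁^3*a₂^3*s^3*P^2*Q^2 + 3*w^15*a₁^3*a₂^3*s^2*P^3*Q - 3*w^15*a₁^3*a₂^2*s^4*P^2*Q^2 + 7*w^15*a₁^3*a₂^2*s^3*P^3*Q + 4*w^15*a₁^3*a₂*s^4*P^3*Q - 3*w^15*a₁^2*a₂^3*s^4*P^2*Q^2 + 4*w^15*a₁^2*a₂^3*s^3*P^3*Q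 + 4*w^15*a₁^2*a₂^2*s^4*P^3*Q - 3*w^14*a₁^4*a₂^3*s^3*P*Q^3 + 6*w^14*a₁^4*a₂^3*s^2*P^2*Q^2 - 3*w^14*a₁^4*a₂^3*s*P^3*Q + 9*w^14*a₁^4*a₂^2*s^3*P^2*Q^2 - 9*w^14*a₁^4*a₂^2*s^2*P^3*Q - 3*w^14*a₁^4*a₂*s^3*P^3*Q + 1*w^14*a₁^4*s^3*P^4 - 3*w^14*a₁^3*a₂^4*s^3*P*Q^3 + 6*w^14*a₁^3*a₂^4*s^2*P^2*Q^2 - 3*w^14*a₁^3*a₂^4*s*P^3*Q - 3*w^14*a₁^3*a₂^3*s^4*P*Q^3 + 18*w^14*a₁^3*a₂^3*s^3*P^2*Q^2 - 15*w^14*a₁^3*a₂^3*s^2*P^3*Q + 12*w^14*a₁^3*a₂^2*s^4*P^2*Q^2 - 18*w^14*a₁^3*a₂^2*s^3*P^3*Q - 6*w^14*a₁^3*a₂*s^4*P^3*Q + 1*w^14*a₁^3*a₂*s^3*P^4 + 1*w^14*a₁^3*s^4*P^4 - 3*w^14*a₁^2*a₂^4*s^4*P*Q^3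 + 9*w^14*a₁^2*a₂^4*s^3*P^2*Q^2 - 6*w^14*a₁^2*a₂^4*s^2*P^3*Q + 12*w^14*a₁^2*a₂^3*s^4*P^2*Q^2 - 15*w^14*a₁^2*a₂^3*s^3*P^3*Q - 6*w^14*a₁^2*a₂^2*s^4*P^3*Q + 1*w^14*a₁^2*a₂*s^4*P^4 + 3*w^13*a₁^5*a₂^2*s^2*P^2*Q^2 - 1*w^13*a₁^4*a₂^4*s^3*Q^4 + 3*w^13*a₁^4*a₂^4*s^2*P*Q^3 - 3*w^13*a₁^4*a₂^4*s*P^2*Q^2 + 1*w^13*a₁^4*a₂^4*P^3*Q + 9*w^13*a₁^4*a₂^3*s^3*P*Q^3 - 15*w^13*a₁^4*a₂^3*s^2*P^2*Q^2 + 9*w^13*a₁^4*a₂^3*s*P^3*Q - 6*w^13*a₁^4*a₂^2*s^3*P^2*Q^2 + 9*w^13*a₁^4*a₂^2*s^2*P^3*Q + 3*w^13*a₁^4*a₂*s^3*P^3*Q - 3*w^13*a₁^4*a₂*s^2*P^4 - 3*w^13*a₁^4*s^3*P^4 - 1*w^13*a₁^3*a₂^5*s^3*Q^4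 + 3*w^13*a₁^3*a₂^5*s^2*P*Q^3 - 3*w^13*a₁^3*a₂^5*s*P^2*Q^2 + 1*w^13*a₁^3*a₂^5*P^3*Q - 1*w^13*a₁^3*a₂^4*s^4*Q^4 + 15*w^13*a₁^3*a₂^4*s^3*P*Q^3 - 27*w^13*a₁^3*a₂^4*s^2*P^2*Q^2 + 13*w^13*a₁^3*a₂^4*s*P^3*Q + 12*w^13*a₁^3*a₂^3*s^4*P*Q^3 - 39*w^13*a₁^3*a₂^3*s^3*P^2*Q^2 + 30*w^13*a₁^3*a₂^3*s^2*P^3*Q - 18*w^13*a₁^3*a₂^2*s^4*P^2*Q^2 + 24*w^13*a₁^3*a₂^2*s^3*P^3*Q - 3*w^13*a₁^3*a₂^2*s^2*P^4 + 6*w^13*a₁^3*a₂*s^4*P^3*Q - 7*w^13*a₁^3*a₂*s^3*P^4 - 4*w^13*a₁^3*s^4*P^4 - 1*w^13*a₁^2*a₂^5*s^4*Q^4 + 6*w^13*a₁^2*a₂^5*s^3*P*Q^3 - 9*w^13*a₁^2*a₂^5*s^2*P^2*Q^2 + 4*w^13*a₁^2*a₂^5*s*P^3*Q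 + 12*w^13*a₁^2*a₂^4*s^4*P*Q^3 - 33*w^13*a₁^2*a₂^4*s^3*P^2*Q^2 + 21*w^13*a₁^2*a₂^4*s^2*P^3*Q - 18*w^13*a₁^2*a₂^3*s^4*P^2*Q^2 + 21*w^13*a₁^2*a₂^3*s^3*P^3*Q + 6*w^13*a₁^2*a₂^2*s^4*P^3*Q - 4*w^13*a₁^2*a₂^2*s^3*P^4 - 4*w^13*a₁^2*a₂*s^4*P^4 + 6*w^12*a₁^5*a₂^3*s^2*P*Q^3 - 6*w^12*a₁^5*a₂^3*s*P^2*Q^2 - 9*w^12*a₁^5*a₂^2*s^2*P^2*Q^2 + 3*w^12*a₁^4*a₂^4*s^3*Q^4 - 3*w^12*a₁^4*a₂^4*s^2*P*Q^3 + 3*w^12*a₁^4*a₂^4*s*P^2*Q^2 - 3*w^12*a₁^4*a₂^4*P^3*Q - 3*w^12*a₁^4*a₂^3*s^3*P*Q^3 - 9*w^12*a₁^4*a₂^3*s*P^3*Q - 9*w^12*a₁^4*a₂^2*s^3*P^2*Q^2 - 6*w^12*a₁^4*a₂^2*s^2*P^3*Q + 3*w^12*a₁^4*a₂^2*s*P^4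 - 6*w^12*a₁^4*a₂*s^3*P^3*Q + 9*w^12*a₁^4*a₂*s^2*P^4 + 3*w^12*a₁^4*s^3*P^4 + 4*w^12*a₁^3*a₂^5*s^3*Q^4 - 12*w^12*a₁^3*a₂^5*s^2*P*Q^3 + 12*w^12*a₁^3*a₂^5*s*P^2*Q^2 - 4*w^12*a₁^3*a₂^5*P^3*Q + 4*w^12*a₁^3*a₂^4*s^4*Q^4 - 24*w^12*a₁^3*a₂^4*s^3*P*Q^3 + 39*w^12*a₁^3*a₂^4*s^2*P^2*Q^2 - 22*w^12*a₁^3*a₂^4*s*P^3*Q - 18*w^12*a₁^3*a₂^3*s^4*P*Q^3 + 36*w^12*a₁^3*a₂^3*s^3*P^2*Q^2 - 33*w^12*a₁^3*a₂^3*s^2*P^3*Q + 3*w^12*a₁^3*a₂^3*s*P^4 + 12*w^12*a₁^3*a₂^2*s^4*P^2*Q^2 - 24*w^12*a₁^3*a₂^2*s^3*P^3*Q + 15*w^12*a₁^3*a₂^2*s^2*P^4 - 9*w^12*a₁^3*a₂*s^4*P^3*Q + 18*w^12*a₁^3*a₂*s^3*P^4 +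 6*w^12*a₁^3*s^4*P^4 + 1*w^12*a₁^2*a₂^6*s^3*Q^4 - 3*w^12*a₁^2*a₂^6*s^2*P*Q^3 + 3*w^12*a₁^2*a₂^6*s*P^2*Q^2 - 1*w^12*a₁^2*a₂^6*P^3*Q + 4*w^12*a₁^2*a₂^5*s^4*Q^4 - 21*w^12*a₁^2*a₂^5*s^3*P*Q^3 + 30*w^12*a₁^2*a₂^5*s^2*P^2*Q^2 - 13*w^12*a₁^2*a₂^5*s*P^3*Q - 18*w^12*a₁^2*a₂^4*s^4*P*Q^3 + 45*w^12*a₁^2*a₂^4*s^3*P^2*Q^2 - 27*w^12*a₁^2*a₂^4*s^2*P^3*Q + 12*w^12*a₁^2*a₂^3*s^4*P^2*Q^2 - 18*w^12*a₁^2*a₂^3*s^3*P^3*Q + 6*w^12*a₁^2*a₂^3*s^2*P^4 - 9*w^12*a₁^2*a₂^2*s^4*P^3*Q + 15*w^12*a₁^2*a₂^2*s^3*P^4 + 6*w^12*a₁^2*a₂*s^4*P^4 + 3*w^11*a₁^5*a₂^4*s^2*Q^4 - 6*w^11*a₁^5*a₂^4*s*P*Q^3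 + 3*w^11*a₁^5*a₂^4*P^2*Q^2 - 18*w^11*a₁^5*a₂^3*s^2*P*Q^3 + 18*w^11*a₁^5*a₂^3*s*P^2*Q^2 + 9*w^11*a₁^5*a₂^2*s^2*P^2*Q^2 - 3*w^11*a₁^5*a₂*s^2*P^3*Q + 3*w^11*a₁^4*a₂^5*s^2*Q^4 - 6*w^11*a₁^4*a₂^5*s*P*Q^3 + 3*w^11*a₁^4*a₂^5*P^2*Q^2 - 21*w^11*a₁^4*a₂^4*s^2*P*Q^3 + 18*w^11*a₁^4*a₂^4*s*P^2*Q^2 + 3*w^11*a₁^4*a₂^4*P^3*Q - 23*w^11*a₁^4*a₂^3*s^3*P*Q^3 + 39*w^11*a₁^4*a₂^3*s^2*P^2*Q^2 + 3*w^11*a₁^4*a₂^3*s*P^3*Q - 1*w^11*a₁^4*a₂^3*P^4 + 18*w^11*a₁^4*a₂^2*s^3*P^2*Q^2 + 6*w^11*a₁^4*a₂^2*s^2*P^3*Q - 9*w^11*a₁^4*a₂^2*s*P^4 + 3*w^11*a₁^4*a₂*s^3*P^3*Q - 9*w^11*a₁^4*a₂*s^2*P^4 - 3*w^11*a₁^3*a₂^5*s^3*Q^4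 + 6*w^11*a₁^3*a₂^5*s^2*P*Q^3 - 9*w^11*a₁^3*a₂^5*s*P^2*Q^2 + 6*w^11*a₁^3*a₂^5*P^3*Q - 6*w^11*a₁^3*a₂^4*s^4*Q^4 + 4*w^11*a₁^3*a₂^4*s^3*P*Q^3 - 6*w^11*a₁^3*a₂^4*s^2*P^2*Q^2 + 18*w^11*a₁^3*a₂^4*s*P^3*Q - 1*w^11*a₁^3*a₂^4*P^4 + 10*w^11*a₁^3*a₂^3*s^4*P*Q^3 - 6*w^11*a₁^3*a₂^3*s^3*P^2*Q^2 + 27*w^11*a₁^3*a₂^3*s^2*P^3*Q - 13*w^11*a₁^3*a₂^3*s*P^4 - 3*w^11*a₁^3*a₂^2*s^4*P^2*Q^2 + 21*w^11*a₁^3*a₂^2*s^3*P^3*Q - 30*w^11*a₁^3*a₂^2*s^2*P^4 + 12*w^11*a₁^3*a₂*s^4*P^3*Q - 21*w^11*a₁^3*a₂*s^3*P^4 - 3*w^11*a₁^3*s^4*P^4 - 3*w^11*a₁^2*a₂^6*s^3*Q^4 + 9*w^11*a₁^2*a₂^6*s^2*P*Q^3 - 9*w^11*a₁^2*a₂^6*s*P^2*Q^2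 + 3*w^11*a₁^2*a₂^6*P^3*Q - 6*w^11*a₁^2*a₂^5*s^4*Q^4 + 27*w^11*a₁^2*a₂^5*s^3*P*Q^3 - 36*w^11*a₁^2*a₂^5*s^2*P^2*Q^2 + 15*w^11*a₁^2*a₂^5*s*P^3*Q + 10*w^11*a₁^2*a₂^4*s^4*P*Q^3 - 24*w^11*a₁^2*a₂^4*s^3*P^2*Q^2 + 18*w^11*a₁^2*a₂^4*s^2*P^3*Q - 4*w^11*a₁^2*a₂^4*s*P^4 - 3*w^11*a₁^2*a₂^3*s^4*P^2*Q^2 + 21*w^11*a₁^2*a₂^3*s^3*P^3*Q - 21*w^11*a₁^2*a₂^3*s^2*P^4 + 12*w^11*a₁^2*a₂^2*s^4*P^3*Q - 21*w^11*a₁^2*a₂^2*s^3*P^4 - 3*w^11*a₁^2*a₂*s^4*P^4 - 3*w^10*a₁^6*a₂^3*s*P*Q^3 - 9*w^10*a₁^5*a₂^4*s^2*Q^4 + 15*w^10*a₁^5*a₂^4*s*P*Q^3 - 9*w^10*a₁^5*a₂^4*P^2*Q^2 + 15*w^10*a₁^5*a₂^3*s^2*P*Q^3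 - 18*w^10*a₁^5*a₂^3*s*P^2*Q^2 - 6*w^10*a₁^5*a₂^2*s^2*P^2*Q^2 + 6*w^10*a₁^5*a₂^2*s*P^3*Q + 9*w^10*a₁^5*a₂*s^2*P^3*Q - 12*w^10*a₁^4*a₂^5*s^2*Q^4 + 24*w^10*a₁^4*a₂^5*s*P*Q^3 - 12*w^10*a₁^4*a₂^5*P^2*Q^2 - 12*w^10*a₁^4*a₂^4*s^3*Q^4 + 57*w^10*a₁^4*a₂^4*s^2*P*Q^3 - 48*w^10*a₁^4*a₂^4*s*P^2*Q^2 + 42*w^10*a₁^4*a₂^3*s^3*P*Q^3 - 60*w^10*a₁^4*a₂^3*s^2*P^2*Q^2 + 6*w^10*a₁^4*a₂^3*s*P^3*Q + 3*w^10*a₁^4*a₂^3*P^4 - 15*w^10*a₁^4*a₂^2*s^3*P^2*Q^2 + 9*w^10*a₁^4*a₂^2*s^2*P^3*Q + 9*w^10*a₁^4*a₂^2*s*P^4 + 12*w^10*a₁^4*a₂*s^3*P^3*Q - 3*w^10*a₁^4*s^3*P^4 - 3*w^10*a₁^3*a₂^6*s^2*Q^4 +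 6*w^10*a₁^3*a₂^6*s*P*Q^3 - 3*w^10*a₁^3*a₂^6*P^2*Q^2 - 9*w^10*a₁^3*a₂^5*s^3*Q^4 + 33*w^10*a₁^3*a₂^5*s^2*P*Q^3 - 21*w^10*a₁^3*a₂^5*s*P^2*Q^2 - 3*w^10*a₁^3*a₂^5*P^3*Q + 3*w^10*a₁^3*a₂^4*s^4*Q^4 + 32*w^10*a₁^3*a₂^4*s^3*P*Q^3 - 42*w^10*a₁^3*a₂^4*s^2*P^2*Q^2 - 6*w^10*a₁^3*a₂^4*s*P^3*Q + 4*w^10*a₁^3*a₂^4*P^4 + 5*w^10*a₁^3*a₂^3*s^4*P*Q^3 - 21*w^10*a₁^3*a₂^3*s^3*P^2*Q^2 - 12*w^10*a₁^3*a₂^3*s^2*P^3*Q + 22*w^10*a₁^3*a₂^3*s*P^4 - 9*w^10*a₁^3*a₂^2*s^3*P^3*Q + 27*w^10*a₁^3*a₂^2*s^2*P^4 - 6*w^10*a₁^3*a₂*s^4*P^3*Q + 9*w^10*a₁^3*a₂*s^3*P^4 - 3*w^10*a₁^3*s^4*P^4 + 3*w^10*a₁^2*a₂^6*s^3*Q^4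 - 9*w^10*a₁^2*a₂^6*s^2*P*Q^3 + 9*w^10*a₁^2*a₂^6*s*P^2*Q^2 - 3*w^10*a₁^2*a₂^6*P^3*Q + 3*w^10*a₁^2*a₂^5*s^4*Q^4 - 10*w^10*a₁^2*a₂^5*s^3*P*Q^3 + 12*w^10*a₁^2*a₂^5*s^2*P^2*Q^2 - 6*w^10*a₁^2*a₂^5*s*P^3*Q + 1*w^10*a₁^2*a₂^5*P^4 + 5*w^10*a₁^2*a₂^4*s^4*P*Q^3 - 6*w^10*a₁^2*a₂^4*s^3*P^2*Q^2 - 12*w^10*a₁^2*a₂^4*s^2*P^3*Q + 13*w^10*a₁^2*a₂^4*s*P^4 - 24*w^10*a₁^2*a₂^3*s^3*P^3*Q + 27*w^10*a₁^2*a₂^3*s^2*P^4 - 6*w^10*a₁^2*a₂^2*s^4*P^3*Q + 9*w^10*a₁^2*a₂^2*s^3*P^4 - 3*w^10*a₁^2*a₂*s^4*P^4 - 3*w^9*a₁^6*a₂^4*s*Q^4 + 3*w^9*a₁^6*a₂^4*P*Q^3 + 9*w^9*a₁^6*a₂^3*s*P*Q^3 - 3*w^9*a₁^5*a₂^5*s*Q^4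 + 3*w^9*a₁^5*a₂^5*P*Q^3 + 6*w^9*a₁^5*a₂^4*s^2*Q^4 - 3*w^9*a₁^5*a₂^4*s*P*Q^3 + 9*w^9*a₁^5*a₂^4*P^2*Q^2 + 9*w^9*a₁^5*a₂^3*s^2*P*Q^3 + 6*w^9*a₁^5*a₂^3*s*P^2*Q^2 - 3*w^9*a₁^5*a₂^3*P^3*Q + 9*w^9*a₁^5*a₂^2*s^2*P^2*Q^2 - 18*w^9*a₁^5*a₂^2*s*P^3*Q - 9*w^9*a₁^5*a₂*s^2*P^3*Q + 15*w^9*a₁^4*a₂^5*s^2*Q^4 - 30*w^9*a₁^4*a₂^5*s*P*Q^3 + 18*w^9*a₁^4*a₂^5*P^2*Q^2 + 21*w^9*a₁^4*a₂^4*s^3*Q^4 - 54*w^9*a₁^4*a₂^4*s^2*P*Q^3 + 51*w^9*a₁^4*a₂^4*s*P^2*Q^2 - 6*w^9*a₁^4*a₂^4*P^3*Q - 27*w^9*a₁^4*a₂^3*s^3*P*Q^3 + 39*w^9*a₁^4*a₂^3*s^2*P^2*Q^2 - 27*w^9*a₁^4*a₂^3*s*P^3*Q - 3*w^9*a₁^4*a₂^3*P^4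 + 15*w^9*a₁^4*a₂^2*s^3*P^2*Q^2 - 33*w^9*a₁^4*a₂^2*s^2*P^3*Q - 24*w^9*a₁^4*a₂*s^3*P^3*Q + 9*w^9*a₁^4*a₂*s^2*P^4 + 3*w^9*a₁^4*s^3*P^4 + 9*w^9*a₁^3*a₂^6*s^2*Q^4 - 18*w^9*a₁^3*a₂^6*s*P*Q^3 + 9*w^9*a₁^3*a₂^6*P^2*Q^2 + 21*w^9*a₁^3*a₂^5*s^3*Q^4 - 63*w^9*a₁^3*a₂^5*s^2*P*Q^3 + 45*w^9*a₁^3*a₂^5*s*P^2*Q^2 - 3*w^9*a₁^3*a₂^5*P^3*Q + 3*w^9*a₁^3*a₂^4*s^4*Q^4 - 42*w^9*a₁^3*a₂^4*s^3*P*Q^3 + 48*w^9*a₁^3*a₂^4*s^2*P^2*Q^2 - 12*w^9*a₁^3*a₂^4*s*P^3*Q - 6*w^9*a₁^3*a₂^4*P^4 - 12*w^9*a₁^3*a₂^3*s^4*P*Q^3 + 33*w^9*a₁^3*a₂^3*s^3*P^2*Q^2 - 15*w^9*a₁^3*a₂^3*s^2*P^3*Q - 15*w^9*a₁^3*a₂^3*s*P^4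 + 9*w^9*a₁^3*a₂^2*s^4*P^2*Q^2 - 15*w^9*a₁^3*a₂^2*s^3*P^3*Q - 6*w^9*a₁^3*a₂*s^4*P^3*Q + 12*w^9*a₁^3*a₂*s^3*P^4 + 6*w^9*a₁^3*s^4*P^4 + 3*w^9*a₁^2*a₂^5*s^4*Q^4 - 15*w^9*a₁^2*a₂^5*s^3*P*Q^3 + 18*w^9*a₁^2*a₂^5*s^2*P^2*Q^2 - 3*w^9*a₁^2*a₂^5*s*P^3*Q - 3*w^9*a₁^2*a₂^5*P^4 - 12*w^9*a₁^2*a₂^4*s^4*P*Q^3 + 18*w^9*a₁^2*a₂^4*s^3*P^2*Q^2 + 9*w^9*a₁^2*a₂^4*s^2*P^3*Q - 15*w^9*a₁^2*a₂^4*s*P^4 + 9*w^9*a₁^2*a₂^3*s^3*P^3*Q - 9*w^9*a₁^2*a₂^3*s^2*P^4 - 15*w^9*a₁^2*a₂^2*s^4*P^3*Q + 12*w^9*a₁^2*a₂^2*s^3*P^4 + 6*w^9*a₁^2*a₂*s^4*P^4 + 9*w^8*a₁^6*a₂^4*s*Q^4 - 9*w^8*a₁^6*a₂^4*P*Q^3 - 9*w^8*a₁^6*a₂^3*s*P*Q^3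 + 3*w^8*a₁^6*a₂^2*s*P^2*Q^2 + 12*w^8*a₁^5*a₂^5*s*Q^4 - 12*w^8*a₁^5*a₂^5*P*Q^3 + 12*w^8*a₁^5*a₂^4*s^2*Q^4 - 30*w^8*a₁^5*a₂^4*s*P*Q^3 - 27*w^8*a₁^5*a₂^3*s^2*P*Q^3 + 3*w^8*a₁^5*a₂^3*s*P^2*Q^2 + 9*w^8*a₁^5*a₂^3*P^3*Q - 6*w^8*a₁^5*a₂^2*s^2*P^2*Q^2 + 18*w^8*a₁^5*a₂^2*s*P^3*Q + 3*w^8*a₁^4*a₂^6*s*Q^4 - 3*w^8*a₁^4*a₂^6*P*Q^3 + 3*w^8*a₁^4*a₂^5*s^2*Q^4 - 3*w^8*a₁^4*a₂^5*s*P*Q^3 - 9*w^8*a₁^4*a₂^5*P^2*Q^2 - 12*w^8*a₁^4*a₂^4*s^3*Q^4 + 3*w^8*a₁^4*a₂^4*s^2*P*Q^3 - 24*w^8*a₁^4*a₂^4*s*P^2*Q^2 + 15*w^8*a₁^4*a₂^4*P^3*Q - 6*w^8*a₁^4*a₂^3*s^3*P*Q^3 - 12*w^8*a₁^4*a₂^3*s^2*P^2*Q^2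 + 48*w^8*a₁^4*a₂^3*s*P^3*Q - 18*w^8*a₁^4*a₂^2*s^3*P^2*Q^2 + 54*w^8*a₁^4*a₂^2*s^2*P^3*Q - 9*w^8*a₁^4*a₂^2*s*P^4 + 15*w^8*a₁^4*a₂*s^3*P^3*Q - 18*w^8*a₁^4*a₂*s^2*P^4 - 9*w^8*a₁^3*a₂^6*s^2*Q^4 + 18*w^8*a₁^3*a₂^6*s*P*Q^3 - 9*w^8*a₁^3*a₂^6*P^2*Q^2 - 15*w^8*a₁^3*a₂^5*s^3*Q^4 + 39*w^8*a₁^3*a₂^5*s^2*P*Q^3 - 33*w^8*a₁^3*a₂^5*s*P^2*Q^2 + 9*w^8*a₁^3*a₂^5*P^3*Q - 6*w^8*a₁^3*a₂^4*s^4*Q^4 + 18*w^8*a₁^3*a₂^4*s^3*P*Q^3 - 33*w^8*a₁^3*a₂^4*s^2*P^2*Q^2 + 36*w^8*a₁^3*a₂^4*s*P^3*Q + 3*w^8*a₁^3*a₂^4*P^4 + 6*w^8*a₁^3*a₂^3*s^4*P*Q^3 - 27*w^8*a₁^3*a₂^3*s^3*P^2*Q^2 + 54*w^8*a₁^3*a₂^3*s^2*P^3*Q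 - 6*w^8*a₁^3*a₂^3*s*P^4 - 9*w^8*a₁^3*a₂^2*s^4*P^2*Q^2 + 27*w^8*a₁^3*a₂^2*s^3*P^3*Q - 36*w^8*a₁^3*a₂^2*s^2*P^4 + 3*w^8*a₁^3*a₂*s^4*P^3*Q - 21*w^8*a₁^3*a₂*s^3*P^4 - 3*w^8*a₁^3*s^4*P^4 - 3*w^8*a₁^2*a₂^6*s^3*Q^4 + 9*w^8*a₁^2*a₂^6*s^2*P*Q^3 - 9*w^8*a₁^2*a₂^6*s*P^2*Q^2 + 3*w^8*a₁^2*a₂^6*P^3*Q - 6*w^8*a₁^2*a₂^5*s^4*Q^4 + 24*w^8*a₁^2*a₂^5*s^3*P*Q^3 - 27*w^8*a₁^2*a₂^5*s^2*P^2*Q^2 + 6*w^8*a₁^2*a₂^5*s*P^3*Q + 3*w^8*a₁^2*a₂^5*P^4 + 6*w^8*a₁^2*a₂^4*s^4*P*Q^3 - 9*w^8*a₁^2*a₂^4*s^3*P^2*Q^2 + 3*w^8*a₁^2*a₂^4*s*P^4 + 15*w^8*a₁^2*a₂^3*s^3*P^3*Q - 18*w^8*a₁^2*a₂^3*s^2*P^4 + 21*w^8*a₁^2*a₂^2*s^4*P^3*Q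 - 21*w^8*a₁^2*a₂^2*s^3*P^4 + 6*w^8*a₁^2*a₂*s^4*P^4 + 1*w^7*a₁^7*a₂^4*Q^4 + 1*w^7*a₁^6*a₂^5*Q^4 - 8*w^7*a₁^6*a₂^4*s*Q^4 + 9*w^7*a₁^6*a₂^4*P*Q^3 + 3*w^7*a₁^6*a₂^3*s*P*Q^3 - 3*w^7*a₁^6*a₂^3*P^2*Q^2 - 9*w^7*a₁^6*a₂^2*s*P^2*Q^2 - 17*w^7*a₁^5*a₂^5*s*Q^4 + 18*w^7*a₁^5*a₂^5*P*Q^3 - 27*w^7*a₁^5*a₂^4*s^2*Q^4 + 39*w^7*a₁^5*a₂^4*s*P*Q^3 - 12*w^7*a₁^5*a₂^4*P^2*Q^2 + 21*w^7*a₁^5*a₂^3*s^2*P*Q^3 + 3*w^7*a₁^5*a₂^3*s*P^2*Q^2 - 9*w^7*a₁^5*a₂^3*P^3*Q - 12*w^7*a₁^5*a₂^2*s^2*P^2*Q^2 - 9*w^7*a₁^5*a₂^2*s*P^3*Q + 9*w^7*a₁^5*a₂*s^2*P^3*Q - 9*w^7*a₁^4*a₂^6*s*Q^4 + 9*w^7*a₁^4*a₂^6*P*Q^3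 - 27*w^7*a₁^4*a₂^5*s^2*Q^4 + 27*w^7*a₁^4*a₂^5*s*P*Q^3 - 9*w^7*a₁^4*a₂^5*P^2*Q^2 - 9*w^7*a₁^4*a₂^4*s^3*Q^4 + 48*w^7*a₁^4*a₂^4*s^2*P*Q^3 + 21*w^7*a₁^4*a₂^4*s*P^2*Q^2 - 18*w^7*a₁^4*a₂^4*P^3*Q + 42*w^7*a₁^4*a₂^3*s^3*P*Q^3 - 12*w^7*a₁^4*a₂^3*s^2*P^2*Q^2 - 54*w^7*a₁^4*a₂^3*s*P^3*Q + 3*w^7*a₁^4*a₂^3*P^4 - 9*w^7*a₁^4*a₂^2*s^3*P^2*Q^2 - 27*w^7*a₁^4*a₂^2*s^2*P^3*Q + 9*w^7*a₁^4*a₂^2*s*P^4 + 9*w^7*a₁^4*a₂*s^3*P^3*Q + 9*w^7*a₁^4*a₂*s^2*P^4 - 3*w^7*a₁^4*s^3*P^4 - 9*w^7*a₁^3*a₂^6*s*P*Q^3 - 6*w^7*a₁^3*a₂^5*s^3*Q^4 + 18*w^7*a₁^3*a₂^5*s^2*P*Q^3 + 18*w^7*a₁^3*a₂^5*s*P^2*Q^2 -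 12*w^7*a₁^3*a₂^5*P^3*Q + 3*w^7*a₁^3*a₂^4*s^4*Q^4 + 33*w^7*a₁^3*a₂^4*s^3*P*Q^3 + 9*w^7*a₁^3*a₂^4*s^2*P^2*Q^2 - 48*w^7*a₁^3*a₂^4*s*P^3*Q + 3*w^7*a₁^3*a₂^4*P^4 + 6*w^7*a₁^3*a₂^3*s^4*P*Q^3 - 27*w^7*a₁^3*a₂^3*s^3*P^2*Q^2 - 45*w^7*a₁^3*a₂^3*s^2*P^3*Q + 21*w^7*a₁^3*a₂^3*s*P^4 - 9*w^7*a₁^3*a₂^2*s^5*P*Q^3 + 6*w^7*a₁^3*a₂^2*s^3*P^3*Q + 36*w^7*a₁^3*a₂^2*s^2*P^4 + 3*w^7*a₁^3*a₂*s^4*P^3*Q + 9*w^7*a₁^3*a₂*s^3*P^4 - 3*w^7*a₁^3*s^4*P^4 + 3*w^7*a₁^2*a₂^6*s^3*Q^4 - 9*w^7*a₁^2*a₂^6*s^2*P*Q^3 + 9*w^7*a₁^2*a₂^6*s*P^2*Q^2 - 3*w^7*a₁^2*a₂^6*P^3*Q + 3*w^7*a₁^2*a₂^5*s^4*Q^4 - 9*w^7*a₁^2*a₂^5*s^3*P*Q^3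 + 9*w^7*a₁^2*a₂^5*s^2*P^2*Q^2 - 3*w^7*a₁^2*a₂^5*s*P^3*Q + 6*w^7*a₁^2*a₂^4*s^4*P*Q^3 - 27*w^7*a₁^2*a₂^4*s^3*P^2*Q^2 - 9*w^7*a₁^2*a₂^4*s^2*P^3*Q + 12*w^7*a₁^2*a₂^4*s*P^4 - 6*w^7*a₁^2*a₂^3*s^3*P^3*Q + 27*w^7*a₁^2*a₂^3*s^2*P^4 + 18*w^7*a₁^2*a₂^2*s^5*P^2*Q^2 - 6*w^7*a₁^2*a₂^2*s^4*P^3*Q + 9*w^7*a₁^2*a₂^2*s^3*P^4 - 12*w^7*a₁^2*a₂*s^4*P^4 - 9*w^7*a₁*a₂^2*s^5*P^3*Q - 3*w^6*a₁^7*a₂^4*Q^4 - 4*w^6*a₁^6*a₂^5*Q^4 - 4*w^6*a₁^6*a₂^4*s*Q^4 + 9*w^6*a₁^6*a₂^3*P^2*Q^2 + 9*w^6*a₁^6*a₂^2*s*P^2*Q^2 - 1*w^6*a₁^5*a₂^6*Q^4 + 5*w^6*a₁^5*a₂^5*s*Q^4 - 9*w^6*a₁^5*a₂^5*P*Q^3 + 18*w^6*a₁^5*a₂^4*s^2*Q^4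 - 21*w^6*a₁^5*a₂^4*s*P*Q^3 + 21*w^6*a₁^5*a₂^4*P^2*Q^2 - 3*w^6*a₁^5*a₂^3*s^2*P*Q^3 + 21*w^6*a₁^5*a₂^3*s*P^2*Q^2 + 27*w^6*a₁^5*a₂^2*s^2*P^2*Q^2 - 27*w^6*a₁^5*a₂^2*s*P^3*Q - 9*w^6*a₁^5*a₂*s^2*P^3*Q + 9*w^6*a₁^5*a₂*s*P^4 + 9*w^6*a₁^4*a₂^6*s*Q^4 - 9*w^6*a₁^4*a₂^6*P*Q^3 + 27*w^6*a₁^4*a₂^5*s^2*Q^4 - 30*w^6*a₁^4*a₂^5*s*P*Q^3 + 21*w^6*a₁^4*a₂^5*P^2*Q^2 + 21*w^6*a₁^4*a₂^4*s^3*Q^4 - 57*w^6*a₁^4*a₂^4*s^2*P*Q^3 + 30*w^6*a₁^4*a₂^4*s*P^2*Q^2 + 6*w^6*a₁^4*a₂^4*P^3*Q - 33*w^6*a₁^4*a₂^3*s^3*P*Q^3 + 27*w^6*a₁^4*a₂^3*s^2*P^2*Q^2 - 27*w^6*a₁^4*a₂^3*s*P^3*Q - 3*w^6*a₁^4*a₂^3*P^4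 + 9*w^6*a₁^4*a₂^2*s^3*P^2*Q^2 - 27*w^6*a₁^4*a₂^2*s^2*P^3*Q + 18*w^6*a₁^4*a₂^2*s*P^4 - 6*w^6*a₁^4*a₂*s^3*P^3*Q + 9*w^6*a₁^4*a₂*s^2*P^4 + 3*w^6*a₁^4*s^3*P^4 + 9*w^6*a₁^3*a₂^6*s^2*Q^4 - 9*w^6*a₁^3*a₂^6*s*P*Q^3 + 9*w^6*a₁^3*a₂^6*P^2*Q^2 + 21*w^6*a₁^3*a₂^5*s^3*Q^4 - 54*w^6*a₁^3*a₂^5*s^2*P*Q^3 + 18*w^6*a₁^3*a₂^5*s*P^2*Q^2 + 6*w^6*a₁^3*a₂^5*P^3*Q + 3*w^6*a₁^3*a₂^4*s^4*Q^4 - 48*w^6*a₁^3*a₂^4*s^3*P*Q^3 + 18*w^6*a₁^3*a₂^4*s^2*P^2*Q^2 - 3*w^6*a₁^3*a₂^4*s*P^3*Q - 6*w^6*a₁^3*a₂^4*P^4 - 12*w^6*a₁^3*a₂^3*s^4*P*Q^3 + 36*w^6*a₁^3*a₂^3*s^3*P^2*Q^2 - 9*w^6*a₁^3*a₂^3*s^2*P^3*Q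 - 6*w^6*a₁^3*a₂^3*s*P^4 + 9*w^6*a₁^3*a₂^2*s^5*P*Q^3 + 9*w^6*a₁^3*a₂^2*s^4*P^2*Q^2 - 6*w^6*a₁^3*a₂^2*s^3*P^3*Q + 9*w^6*a₁^3*a₂*s^5*P^2*Q^2 - 6*w^6*a₁^3*a₂*s^4*P^3*Q - 6*w^6*a₁^3*a₂*s^3*P^4 + 6*w^6*a₁^3*s^4*P^4 + 3*w^6*a₁^2*a₂^5*s^4*Q^4 - 15*w^6*a₁^2*a₂^5*s^3*P*Q^3 + 18*w^6*a₁^2*a₂^5*s^2*P^2*Q^2 - 3*w^6*a₁^2*a₂^5*s*P^3*Q - 3*w^6*a₁^2*a₂^5*P^4 - 12*w^6*a₁^2*a₂^4*s^4*P*Q^3 + 36*w^6*a₁^2*a₂^4*s^3*P^2*Q^2 + 9*w^6*a₁^2*a₂^4*s^2*P^3*Q - 15*w^6*a₁^2*a₂^4*s*P^4 + 9*w^6*a₁^2*a₂^3*s^3*P^3*Q - 9*w^6*a₁^2*a₂^3*s^2*P^4 - 18*w^6*a₁^2*a₂^2*s^5*P^2*Q^2 - 15*w^6*a₁^2*a₂^2*s^4*P^3*Q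 - 6*w^6*a₁^2*a₂^2*s^3*P^4 - 18*w^6*a₁^2*a₂*s^5*P^3*Q + 6*w^6*a₁^2*a₂*s^4*P^4 + 9*w^6*a₁*a₂^2*s^5*P^3*Q + 9*w^6*a₁*a₂*s^5*P^4 + 3*w^5*a₁^7*a₂^4*Q^4 - 1*w^5*a₁^7*a₂^3*P*Q^3 + 3*w^5*a₁^6*a₂^5*Q^4 + 15*w^5*a₁^6*a₂^4*s*Q^4 - 1*w^5*a₁^6*a₂^4*P*Q^3 - 1*w^5*a₁^6*a₂^3*s*P*Q^3 - 18*w^5*a₁^6*a₂^3*P^2*Q^2 + 3*w^5*a₁^6*a₂^2*P^3*Q - 6*w^5*a₁^5*a₂^6*Q^4 + 15*w^5*a₁^5*a₂^5*s*Q^4 + 18*w^5*a₁^5*a₂^5*P*Q^3 + 18*w^5*a₁^5*a₂^4*s^2*Q^4 - 10*w^5*a₁^5*a₂^4*s*P*Q^3 - 45*w^5*a₁^5*a₂^4*P^2*Q^2 - 27*w^5*a₁^5*a₂^3*s^2*P*Q^3 - 36*w^5*a₁^5*a₂^3*s*P^2*Q^2 + 18*w^5*a₁^5*a₂^3*P^3*Q - 9*w^5*a₁^5*a₂^2*s^2*P^2*Q^2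 + 36*w^5*a₁^5*a₂^2*s*P^3*Q - 9*w^5*a₁^5*a₂*s*P^4 - 9*w^5*a₁^4*a₂^7*Q^4 + 27*w^5*a₁^4*a₂^6*P*Q^3 + 18*w^5*a₁^4*a₂^5*s^2*Q^4 + 9*w^5*a₁^4*a₂^5*s*P*Q^3 - 45*w^5*a₁^4*a₂^5*P^2*Q^2 - 12*w^5*a₁^4*a₂^4*s^3*Q^4 - 9*w^5*a₁^4*a₂^4*s^2*P*Q^3 - 63*w^5*a₁^4*a₂^4*s*P^2*Q^2 + 21*w^5*a₁^4*a₂^4*P^3*Q - 9*w^5*a₁^4*a₂^3*s^4*Q^4 - 9*w^5*a₁^4*a₂^3*s^3*P*Q^3 + 81*w^5*a₁^4*a₂^3*s*P^3*Q + 9*w^5*a₁^4*a₂^2*s^4*P*Q^3 + 45*w^5*a₁^4*a₂^2*s^2*P^3*Q - 27*w^5*a₁^4*a₂^2*s*P^4 - 3*w^5*a₁^4*a₂*s^3*P^3*Q - 18*w^5*a₁^4*a₂*s^2*P^4 - 3*w^5*a₁^3*a₂^8*Q^4 + 9*w^5*a₁^3*a₂^7*P*Q^3 + 18*w^5*a₁^3*a₂^6*s*P*Q^3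 - 18*w^5*a₁^3*a₂^6*P^2*Q^2 - 15*w^5*a₁^3*a₂^5*s^3*Q^4 + 18*w^5*a₁^3*a₂^5*s^2*P*Q^3 - 36*w^5*a₁^3*a₂^5*s*P^2*Q^2 + 9*w^5*a₁^3*a₂^5*P^3*Q - 15*w^5*a₁^3*a₂^4*s^4*Q^4 + 15*w^5*a₁^3*a₂^4*s^3*P*Q^3 + 51*w^5*a₁^3*a₂^4*s*P^3*Q + 3*w^5*a₁^3*a₂^4*P^4 + 15*w^5*a₁^3*a₂^3*s^4*P*Q^3 - 9*w^5*a₁^3*a₂^3*s^3*P^2*Q^2 + 36*w^5*a₁^3*a₂^3*s^2*P^3*Q - 15*w^5*a₁^3*a₂^3*s*P^4 + 3*w^5*a₁^3*a₂^2*s^6*Q^4 - 27*w^5*a₁^3*a₂^2*s^4*P^2*Q^2 - 36*w^5*a₁^3*a₂^2*s^2*P^4 - 9*w^5*a₁^3*a₂*s^5*P^2*Q^2 + 3*w^5*a₁^3*a₂*s^4*P^3*Q - 3*w^5*a₁^3*a₂*s^3*P^4 - 3*w^5*a₁^3*s^4*P^4 - 3*w^5*a₁^2*a₂^6*s^3*Q^4 -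 9*w^5*a₁^2*a₂^6*s*P^2*Q^2 + 3*w^5*a₁^2*a₂^6*P^3*Q - 6*w^5*a₁^2*a₂^5*s^4*Q^4 + 24*w^5*a₁^2*a₂^5*s^3*P*Q^3 - 9*w^5*a₁^2*a₂^5*s^2*P^2*Q^2 + 6*w^5*a₁^2*a₂^5*s*P^3*Q + 3*w^5*a₁^2*a₂^5*P^4 + 24*w^5*a₁^2*a₂^4*s^4*P*Q^3 - 9*w^5*a₁^2*a₂^4*s^3*P^2*Q^2 - 9*w^5*a₁^2*a₂^4*s^2*P^3*Q + 3*w^5*a₁^2*a₂^4*s*P^4 - 9*w^5*a₁^2*a₂^3*s^4*P^2*Q^2 - 3*w^5*a₁^2*a₂^3*s^3*P^3*Q - 18*w^5*a₁^2*a₂^3*s^2*P^4 - 9*w^5*a₁^2*a₂^2*s^6*P*Q^3 + 30*w^5*a₁^2*a₂^2*s^4*P^3*Q - 3*w^5*a₁^2*a₂^2*s^3*P^4 + 18*w^5*a₁^2*a₂*s^5*P^3*Q + 6*w^5*a₁^2*a₂*s^4*P^4 - 9*w^5*a₁*a₂^4*s^4*P^2*Q^2 + 9*w^5*a₁*a₂^3*s^4*P^3*Q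 + 9*w^5*a₁*a₂^2*s^6*P^2*Q^2 - 9*w^5*a₁*a₂*s^5*P^4 - 3*w^5*a₂^2*s^6*P^3*Q + 3*w^4*a₁^7*a₂^3*P*Q^3 - 12*w^4*a₁^6*a₂^4*s*Q^4 + 7*w^4*a₁^6*a₂^4*P*Q^3 + 4*w^4*a₁^6*a₂^3*s*P*Q^3 - 9*w^4*a₁^6*a₂^2*s*P^2*Q^2 + 6*w^4*a₁^6*a₂^2*P^3*Q - 3*w^4*a₁^6*a₂*P^4 + 6*w^4*a₁^5*a₂^6*Q^4 - 21*w^4*a₁^5*a₂^5*s*Q^4 + 1*w^4*a₁^5*a₂^5*P*Q^3 - 36*w^4*a₁^5*a₂^4*s^2*Q^4 + 31*w^4*a₁^5*a₂^4*s*P*Q^3 + 18*w^4*a₁^5*a₂^3*s^2*P*Q^3 + 18*w^4*a₁^5*a₂^3*s*P^2*Q^2 + 9*w^4*a₁^5*a₂^3*P^3*Q - 9*w^4*a₁^5*a₂^2*s*P^3*Q - 9*w^4*a₁^5*a₂^2*P^4 + 9*w^4*a₁^4*a₂^7*Q^4 - 9*w^4*a₁^4*a₂^6*s*Q^4 - 9*w^4*a₁^4*a₂^6*P*Q^3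 - 45*w^4*a₁^4*a₂^5*s^2*Q^4 + 18*w^4*a₁^4*a₂^5*s*P*Q^3 - 9*w^4*a₁^4*a₂^4*s^3*Q^4 + 45*w^4*a₁^4*a₂^4*s^2*P*Q^3 + 36*w^4*a₁^4*a₂^4*s*P^2*Q^2 + 9*w^4*a₁^4*a₂^3*s^4*Q^4 + 42*w^4*a₁^4*a₂^3*s^3*P*Q^3 - 54*w^4*a₁^4*a₂^3*s*P^3*Q - 6*w^4*a₁^4*a₂^3*P^4 - 9*w^4*a₁^4*a₂^2*s^3*P^2*Q^2 - 36*w^4*a₁^4*a₂^2*s^2*P^3*Q + 9*w^4*a₁^4*a₂^2*s*P^4 - 9*w^4*a₁^4*a₂*s^4*P^2*Q^2 + 9*w^4*a₁^4*a₂*s^3*P^3*Q + 18*w^4*a₁^4*a₂*s^2*P^4 - 3*w^4*a₁^4*s^3*P^4 + 3*w^4*a₁^3*a₂^8*Q^4 - 6*w^4*a₁^3*a₂^7*P*Q^3 - 9*w^4*a₁^3*a₂^6*s^2*Q^4 - 9*w^4*a₁^3*a₂^6*s*P*Q^3 - 6*w^4*a₁^3*a₂^5*s^3*Q^4 + 27*w^4*a₁^3*a₂^5*s^2*P*Q^3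 + 18*w^4*a₁^3*a₂^5*s*P^2*Q^2 - 6*w^4*a₁^3*a₂^5*P^3*Q + 12*w^4*a₁^3*a₂^4*s^4*Q^4 + 33*w^4*a₁^3*a₂^4*s^3*P*Q^3 - 48*w^4*a₁^3*a₂^4*s*P^3*Q + 6*w^4*a₁^3*a₂^3*s^4*P*Q^3 - 27*w^4*a₁^3*a₂^3*s^3*P^2*Q^2 - 54*w^4*a₁^3*a₂^3*s^2*P^3*Q + 21*w^4*a₁^3*a₂^3*s*P^4 - 3*w^4*a₁^3*a₂^2*s^6*Q^4 - 9*w^4*a₁^3*a₂^2*s^5*P*Q^3 + 9*w^4*a₁^3*a₂^2*s^4*P^2*Q^2 + 6*w^4*a₁^3*a₂^2*s^3*P^3*Q + 54*w^4*a₁^3*a₂^2*s^2*P^4 - 3*w^4*a₁^3*a₂*s^6*P*Q^3 + 21*w^4*a₁^3*a₂*s^4*P^3*Q + 9*w^4*a₁^3*a₂*s^3*P^4 - 3*w^4*a₁^3*s^4*P^4 + 3*w^4*a₁^2*a₂^6*s^3*Q^4 + 9*w^4*a₁^2*a₂^6*s*P^2*Q^2 - 3*w^4*a₁^2*a₂^6*P^3*Q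 + 3*w^4*a₁^2*a₂^5*s^4*Q^4 - 9*w^4*a₁^2*a₂^5*s^3*P*Q^3 - 3*w^4*a₁^2*a₂^5*s*P^3*Q - 12*w^4*a₁^2*a₂^4*s^4*P*Q^3 - 27*w^4*a₁^2*a₂^4*s^3*P^2*Q^2 - 18*w^4*a₁^2*a₂^4*s^2*P^3*Q + 12*w^4*a₁^2*a₂^4*s*P^4 - 9*w^4*a₁^2*a₂^3*s^4*P^2*Q^2 - 6*w^4*a₁^2*a₂^3*s^3*P^3*Q + 36*w^4*a₁^2*a₂^3*s^2*P^4 + 9*w^4*a₁^2*a₂^2*s^6*P*Q^3 + 18*w^4*a₁^2*a₂^2*s^5*P^2*Q^2 - 6*w^4*a₁^2*a₂^2*s^4*P^3*Q + 9*w^4*a₁^2*a₂^2*s^3*P^4 + 9*w^4*a₁^2*a₂*s^6*P^2*Q^2 - 21*w^4*a₁^2*a₂*s^4*P^4 + 9*w^4*a₁*a₂^4*s^4*P^2*Q^2 - 9*w^4*a₁*a₂^2*s^6*P^2*Q^2 - 9*w^4*a₁*a₂^2*s^5*P^3*Q - 9*w^4*a₁*a₂^2*s^4*P^4 - 9*w^4*a₁*a₂*s^6*P^3*Q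 + 3*w^4*a₂^2*s^6*P^3*Q + 3*w^4*a₂*s^6*P^4 - 3*w^3*a₁^7*a₂^3*P*Q^3 + 6*w^3*a₁^6*a₂^4*s*Q^4 - 12*w^3*a₁^6*a₂^4*P*Q^3 - 9*w^3*a₁^6*a₂^3*s*P*Q^3 + 18*w^3*a₁^6*a₂^3*P^2*Q^2 + 9*w^3*a₁^6*a₂^2*s*P^2*Q^2 - 6*w^3*a₁^6*a₂^2*P^3*Q + 3*w^3*a₁^6*a₂*P^4 + 24*w^3*a₁^5*a₂^5*s*Q^4 - 24*w^3*a₁^5*a₂^5*P*Q^3 + 27*w^3*a₁^5*a₂^4*s^2*Q^4 - 51*w^3*a₁^5*a₂^4*s*P*Q^3 + 45*w^3*a₁^5*a₂^4*P^2*Q^2 + 3*w^3*a₁^5*a₂^3*s^2*P*Q^3 + 27*w^3*a₁^5*a₂^3*s*P^2*Q^2 - 24*w^3*a₁^5*a₂^3*P^3*Q + 9*w^3*a₁^5*a₂^2*s^2*P^2*Q^2 - 18*w^3*a₁^5*a₂^2*s*P^3*Q + 6*w^3*a₁^5*a₂^2*P^4 + 6*w^3*a₁^5*a₂*s*P^4 + 27*w^3*a₁^4*a₂^6*s*Q^4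 - 18*w^3*a₁^4*a₂^6*P*Q^3 + 36*w^3*a₁^4*a₂^5*s^2*Q^4 - 69*w^3*a₁^4*a₂^5*s*P*Q^3 + 45*w^3*a₁^4*a₂^5*P^2*Q^2 + 6*w^3*a₁^4*a₂^4*s^3*Q^4 - 45*w^3*a₁^4*a₂^4*s^2*P*Q^3 + 45*w^3*a₁^4*a₂^4*s*P^2*Q^2 - 21*w^3*a₁^4*a₂^4*P^3*Q - 18*w^3*a₁^4*a₂^3*s^3*P*Q^3 - 18*w^3*a₁^4*a₂^3*s*P^3*Q + 3*w^3*a₁^4*a₂^3*P^4 - 9*w^3*a₁^4*a₂^2*s^4*P*Q^3 + 9*w^3*a₁^4*a₂^2*s^3*P^2*Q^2 + 9*w^3*a₁^4*a₂^2*s*P^4 + 9*w^3*a₁^4*a₂*s^4*P^2*Q^2 - 6*w^3*a₁^4*a₂*s^3*P^3*Q - 6*w^3*a₁^4*a₂*s^2*P^4 + 3*w^3*a₁^4*s^3*P^4 + 9*w^3*a₁^3*a₂^7*s*Q^4 - 3*w^3*a₁^3*a₂^7*P*Q^3 + 9*w^3*a₁^3*a₂^6*s^2*Q^4 - 27*w^3*a₁^3*a₂^6*s*P*Q^3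 + 18*w^3*a₁^3*a₂^6*P^2*Q^2 + 6*w^3*a₁^3*a₂^5*s^3*Q^4 - 48*w^3*a₁^3*a₂^5*s^2*P*Q^3 + 27*w^3*a₁^3*a₂^5*s*P^2*Q^2 - 3*w^3*a₁^3*a₂^5*P^3*Q + 3*w^3*a₁^3*a₂^4*s^4*Q^4 - 24*w^3*a₁^3*a₂^4*s^3*P*Q^3 - 3*w^3*a₁^3*a₂^4*s*P^3*Q - 3*w^3*a₁^3*a₂^4*P^4 + 9*w^3*a₁^3*a₂^3*s^5*Q^4 - 21*w^3*a₁^3*a₂^3*s^4*P*Q^3 + 18*w^3*a₁^3*a₂^3*s^3*P^2*Q^2 + 27*w^3*a₁^3*a₂^3*s^2*P^3*Q - 12*w^3*a₁^3*a₂^3*s*P^4 + 9*w^3*a₁^3*a₂^2*s^5*P*Q^3 + 18*w^3*a₁^3*a₂^2*s^4*P^2*Q^2 - 3*w^3*a₁^3*a₂^2*s^3*P^3*Q - 27*w^3*a₁^3*a₂^2*s^2*P^4 + 3*w^3*a₁^3*a₂*s^6*P*Q^3 + 9*w^3*a₁^3*a₂*s^5*P^2*Q^2 - 24*w^3*a₁^3*a₂*s^4*P^3*Q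 - 9*w^3*a₁^3*a₂*s^3*P^4 + 6*w^3*a₁^3*s^4*P^4 + 3*w^3*a₁^2*a₂^5*s^4*Q^4 + 3*w^3*a₁^2*a₂^5*s^3*P*Q^3 + 9*w^3*a₁^2*a₂^5*s^2*P^2*Q^2 - 3*w^3*a₁^2*a₂^5*s*P^3*Q - 3*w^3*a₁^2*a₂^5*P^4 - 12*w^3*a₁^2*a₂^4*s^4*P*Q^3 + 18*w^3*a₁^2*a₂^4*s^3*P^2*Q^2 + 27*w^3*a₁^2*a₂^4*s^2*P^3*Q - 15*w^3*a₁^2*a₂^4*s*P^4 - 18*w^3*a₁^2*a₂^3*s^5*P*Q^3 + 18*w^3*a₁^2*a₂^3*s^4*P^2*Q^2 + 12*w^3*a₁^2*a₂^3*s^3*P^3*Q - 21*w^3*a₁^2*a₂^3*s^2*P^4 - 18*w^3*a₁^2*a₂^2*s^5*P^2*Q^2 - 24*w^3*a₁^2*a₂^2*s^4*P^3*Q - 9*w^3*a₁^2*a₂^2*s^3*P^4 - 9*w^3*a₁^2*a₂*s^6*P^2*Q^2 - 18*w^3*a₁^2*a₂*s^5*P^3*Q + 15*w^3*a₁^2*a₂*s^4*P^4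 + 9*w^3*a₁*a₂^3*s^5*P^2*Q^2 - 9*w^3*a₁*a₂^3*s^4*P^3*Q + 9*w^3*a₁*a₂^2*s^5*P^3*Q + 9*w^3*a₁*a₂^2*s^4*P^4 + 9*w^3*a₁*a₂*s^6*P^3*Q + 9*w^3*a₁*a₂*s^5*P^4 - 3*w^3*a₂*s^6*P^4 - 3*w^2*a₁^7*a₂^4*Q^4 - 9*w^2*a₁^6*a₂^5*Q^4 - 9*w^2*a₁^6*a₂^4*s*Q^4 + 9*w^2*a₁^6*a₂^4*P*Q^3 + 9*w^2*a₁^6*a₂^3*s*P*Q^3 - 18*w^2*a₁^6*a₂^3*P^2*Q^2 - 3*w^2*a₁^6*a₂^2*P^3*Q - 12*w^2*a₁^5*a₂^6*Q^4 - 30*w^2*a₁^5*a₂^5*s*Q^4 + 33*w^2*a₁^5*a₂^5*P*Q^3 - 12*w^2*a₁^5*a₂^4*s^2*Q^4 + 33*w^2*a₁^5*a₂^4*s*P*Q^3 - 45*w^2*a₁^5*a₂^4*P^2*Q^2 - 9*w^2*a₁^5*a₂^3*s^2*P*Q^3 - 27*w^2*a₁^5*a₂^3*s*P^2*Q^2 + 6*w^2*a₁^5*a₂^3*P^3*Q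 - 9*w^2*a₁^5*a₂^2*s^2*P^2*Q^2 + 3*w^2*a₁^5*a₂^2*s*P^3*Q + 6*w^2*a₁^5*a₂^2*P^4 - 3*w^2*a₁^5*a₂*s*P^4 - 9*w^2*a₁^4*a₂^7*Q^4 - 30*w^2*a₁^4*a₂^6*s*Q^4 + 33*w^2*a₁^4*a₂^6*P*Q^3 - 18*w^2*a₁^4*a₂^5*s^2*Q^4 + 57*w^2*a₁^4*a₂^5*s*P*Q^3 - 45*w^2*a₁^4*a₂^5*P^2*Q^2 - 6*w^2*a₁^4*a₂^4*s^3*Q^4 + 27*w^2*a₁^4*a₂^4*s^2*P*Q^3 - 45*w^2*a₁^4*a₂^4*s*P^2*Q^2 + 15*w^2*a₁^4*a₂^4*P^3*Q - 9*w^2*a₁^4*a₂^3*s^4*Q^4 + 3*w^2*a₁^4*a₂^3*s^3*P*Q^3 + 27*w^2*a₁^4*a₂^3*s*P^3*Q + 12*w^2*a₁^4*a₂^3*P^4 + 9*w^2*a₁^4*a₂^2*s^4*P*Q^3 - 18*w^2*a₁^4*a₂^2*s^3*P^2*Q^2 + 15*w^2*a₁^4*a₂^2*s^2*P^3*Q + 3*w^2*a₁^4*a₂^2*s*P^4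 - 3*w^2*a₁^4*a₂*s^3*P^3*Q - 3*w^2*a₁^3*a₂^8*Q^4 - 9*w^2*a₁^3*a₂^7*s*Q^4 + 9*w^2*a₁^3*a₂^7*P*Q^3 - 6*w^2*a₁^3*a₂^6*s^2*Q^4 + 33*w^2*a₁^3*a₂^6*s*P*Q^3 - 18*w^2*a₁^3*a₂^6*P^2*Q^2 - 9*w^2*a₁^3*a₂^5*s^3*Q^4 + 36*w^2*a₁^3*a₂^5*s^2*P*Q^3 - 27*w^2*a₁^3*a₂^5*s*P^2*Q^2 + 9*w^2*a₁^3*a₂^5*P^3*Q - 15*w^2*a₁^3*a₂^4*s^4*Q^4 + 18*w^2*a₁^3*a₂^4*s^3*P*Q^3 + 30*w^2*a₁^3*a₂^4*s*P^3*Q + 9*w^2*a₁^3*a₂^4*P^4 - 9*w^2*a₁^3*a₂^3*s^5*Q^4 + 15*w^2*a₁^3*a₂^3*s^4*P*Q^3 - 18*w^2*a₁^3*a₂^3*s^3*P^2*Q^2 + 15*w^2*a₁^3*a₂^3*s*P^4 + 3*w^2*a₁^3*a₂^2*s^6*Q^4 - 9*w^2*a₁^3*a₂^2*s^5*P*Q^3 - 27*w^2*a₁^3*a₂^2*s^4*P^2*Q^2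 + 6*w^2*a₁^3*a₂^2*s^3*P^3*Q - 9*w^2*a₁^3*a₂*s^5*P^2*Q^2 + 3*w^2*a₁^3*a₂*s^4*P^3*Q + 9*w^2*a₁^3*a₂*s^3*P^4 - 3*w^2*a₁^3*s^4*P^4 - 3*w^2*a₁^2*a₂^6*s^3*Q^4 - 9*w^2*a₁^2*a₂^6*s*P^2*Q^2 + 3*w^2*a₁^2*a₂^6*P^3*Q - 6*w^2*a₁^2*a₂^5*s^4*Q^4 + 6*w^2*a₁^2*a₂^5*s^3*P*Q^3 - 9*w^2*a₁^2*a₂^5*s^2*P^2*Q^2 + 6*w^2*a₁^2*a₂^5*s*P^3*Q + 3*w^2*a₁^2*a₂^5*P^4 + 24*w^2*a₁^2*a₂^4*s^4*P*Q^3 - 9*w^2*a₁^2*a₂^4*s^3*P^2*Q^2 - 15*w^2*a₁^2*a₂^4*s^2*P^3*Q + 9*w^2*a₁^2*a₂^4*s*P^4 + 18*w^2*a₁^2*a₂^3*s^5*P*Q^3 - 9*w^2*a₁^2*a₂^3*s^4*P^2*Q^2 + 3*w^2*a₁^2*a₂^3*s^3*P^3*Q - 9*w^2*a₁^2*a₂^2*s^6*P*Q^3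 + 18*w^2*a₁^2*a₂^2*s^5*P^2*Q^2 + 30*w^2*a₁^2*a₂^2*s^4*P^3*Q + 9*w^2*a₁^2*a₂^2*s^3*P^4 + 18*w^2*a₁^2*a₂*s^5*P^3*Q + 6*w^2*a₁^2*a₂*s^4*P^4 - 9*w^2*a₁*a₂^4*s^4*P^2*Q^2 - 9*w^2*a₁*a₂^3*s^5*P^2*Q^2 + 9*w^2*a₁*a₂^3*s^4*P^3*Q + 9*w^2*a₁*a₂^2*s^6*P^2*Q^2 - 9*w^2*a₁*a₂^2*s^5*P^3*Q - 9*w^2*a₁*a₂*s^5*P^4 - 3*w^2*a₂^2*s^6*P^3*Q + 3*w*a₁^7*a₂^4*Q^4 + 3*w*a₁^7*a₂^3*P*Q^3 + 15*w*a₁^6*a₂^5*Q^4 + 9*w*a₁^6*a₂^4*s*Q^4 + 3*w*a₁^6*a₂^4*P*Q^3 - 9*w*a₁^6*a₂^2*s*P^2*Q^2 + 9*w*a₁^6*a₂^2*P^3*Q - 3*w*a₁^6*a₂*P^4 + 21*w*a₁^5*a₂^6*Q^4 + 30*w*a₁^5*a₂^5*s*Q^4 - 15*w*a₁^5*a₂^5*P*Q^3 + 6*w*a₁^5*a₂^4*s*P*Q^3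 + 24*w*a₁^5*a₂^3*P^3*Q + 21*w*a₁^5*a₂^2*s*P^3*Q - 12*w*a₁^5*a₂^2*P^4 - 3*w*a₁^5*a₂*s*P^4 + 12*w*a₁^4*a₂^7*Q^4 + 24*w*a₁^4*a₂^6*s*Q^4 - 24*w*a₁^4*a₂^6*P*Q^3 - 15*w*a₁^4*a₂^5*s*P*Q^3 + 9*w*a₁^4*a₂^4*s^3*Q^4 + 15*w*a₁^4*a₂^4*P^3*Q + 9*w*a₁^4*a₂^3*s^4*Q^4 + 6*w*a₁^4*a₂^3*s^3*P*Q^3 + 15*w*a₁^4*a₂^3*s*P^3*Q - 21*w*a₁^4*a₂^3*P^4 + 9*w*a₁^4*a₂^2*s^3*P^2*Q^2 - 24*w*a₁^4*a₂^2*s*P^4 - 9*w*a₁^4*a₂*s^4*P^2*Q^2 + 9*w*a₁^4*a₂*s^3*P^3*Q - 3*w*a₁^4*s^3*P^4 + 3*w*a₁^3*a₂^8*Q^4 + 3*w*a₁^3*a₂^7*s*Q^4 - 9*w*a₁^3*a₂^7*P*Q^3 - 21*w*a₁^3*a₂^6*s*P*Q^3 + 12*w*a₁^3*a₂^5*s^3*Q^4 - 3*w*a₁^3*a₂^5*P^3*Q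 + 21*w*a₁^3*a₂^4*s^4*Q^4 - 3*w*a₁^3*a₂^4*s^3*P*Q^3 - 6*w*a₁^3*a₂^4*s*P^3*Q - 15*w*a₁^3*a₂^4*P^4 + 6*w*a₁^3*a₂^3*s^4*P*Q^3 - 30*w*a₁^3*a₂^3*s*P^4 - 3*w*a₁^3*a₂^2*s^6*Q^4 + 9*w*a₁^3*a₂^2*s^4*P^2*Q^2 + 6*w*a₁^3*a₂^2*s^3*P^3*Q - 3*w*a₁^3*a₂*s^6*P*Q^3 + 21*w*a₁^3*a₂*s^4*P^3*Q - 9*w*a₁^3*a₂*s^3*P^4 - 3*w*a₁^3*s^4*P^4 + 3*w*a₁^2*a₂^6*s^3*Q^4 + 9*w*a₁^2*a₂^6*s*P^2*Q^2 - 3*w*a₁^2*a₂^6*P^3*Q + 3*w*a₁^2*a₂^5*s^4*Q^4 - 9*w*a₁^2*a₂^5*s^3*P*Q^3 - 3*w*a₁^2*a₂^5*P^4 - 21*w*a₁^2*a₂^4*s^4*P*Q^3 - 9*w*a₁^2*a₂^4*s^3*P^2*Q^2 - 9*w*a₁^2*a₂^4*s*P^4 - 9*w*a₁^2*a₂^3*s^4*P^2*Q^2 - 6*w*a₁^2*a₂^3*s^3*P^3*Q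 + 9*w*a₁^2*a₂^2*s^6*P*Q^3 - 6*w*a₁^2*a₂^2*s^4*P^3*Q - 9*w*a₁^2*a₂^2*s^3*P^4 + 9*w*a₁^2*a₂*s^6*P^2*Q^2 - 21*w*a₁^2*a₂*s^4*P^4 + 9*w*a₁*a₂^4*s^4*P^2*Q^2 - 9*w*a₁*a₂^2*s^6*P^2*Q^2 - 9*w*a₁*a₂^2*s^4*P^4 - 9*w*a₁*a₂*s^6*P^3*Q + 3*w*a₂^2*s^6*P^3*Q + 3*w*a₂*s^6*P^4 - 3*a₁^7*a₂^3*P*Q^3 - 6*a₁^6*a₂^5*Q^4 - 12*a₁^6*a₂^4*P*Q^3 - 9*a₁^6*a₂^3*s*P*Q^3 + 18*a₁^6*a₂^3*P^2*Q^2 + 9*a₁^6*a₂^2*s*P^2*Q^2 - 6*a₁^6*a₂^2*P^3*Q + 3*a₁^6*a₂*P^4 - 12*a₁^5*a₂^6*Q^4 - 6*a₁^5*a₂^5*s*Q^4 - 18*a₁^5*a₂^5*P*Q^3 + 9*a₁^5*a₂^4*s^2*Q^4 - 39*a₁^5*a₂^4*s*P*Q^3 + 45*a₁^5*a₂^4*P^2*Q^2 + 9*a₁^5*a₂^3*s^2*P*Q^3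 + 27*a₁^5*a₂^3*s*P^2*Q^2 - 30*a₁^5*a₂^3*P^3*Q + 9*a₁^5*a₂^2*s^2*P^2*Q^2 - 24*a₁^5*a₂^2*s*P^3*Q + 6*a₁^5*a₂^2*P^4 + 6*a₁^5*a₂*s*P^4 - 6*a₁^4*a₂^7*Q^4 - 3*a₁^4*a₂^6*s*Q^4 - 6*a₁^4*a₂^6*P*Q^3 + 9*a₁^4*a₂^5*s^2*Q^4 - 33*a₁^4*a₂^5*s*P*Q^3 + 45*a₁^4*a₂^5*P^2*Q^2 - 6*a₁^4*a₂^4*s^3*Q^4 - 9*a₁^4*a₂^4*s^2*P*Q^3 + 45*a₁^4*a₂^4*s*P^2*Q^2 - 33*a₁^4*a₂^4*P^3*Q - 6*a₁^4*a₂^3*s^3*P*Q^3 - 9*a₁^4*a₂^3*s^2*P^2*Q^2 - 48*a₁^4*a₂^3*s*P^3*Q + 9*a₁^4*a₂^3*P^4 - 9*a₁^4*a₂^2*s^4*P*Q^3 + 9*a₁^4*a₂^2*s^3*P^2*Q^2 - 18*a₁^4*a₂^2*s^2*P^3*Q + 21*a₁^4*a₂^2*s*P^4 + 9*a₁^4*a₂*s^4*P^2*Q^2 - 6*a₁^4*a₂*s^3*P^3*Q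 + 3*a₁^4*s^3*P^4 + 3*a₁^3*a₂^7*s*Q^4 + 3*a₁^3*a₂^7*P*Q^3 - 3*a₁^3*a₂^6*s*P*Q^3 + 18*a₁^3*a₂^6*P^2*Q^2 - 6*a₁^3*a₂^5*s^3*Q^4 - 18*a₁^3*a₂^5*s^2*P*Q^3 + 27*a₁^3*a₂^5*s*P^2*Q^2 - 9*a₁^3*a₂^5*P^3*Q - 6*a₁^3*a₂^4*s^4*Q^4 - 12*a₁^3*a₂^4*s^3*P*Q^3 - 9*a₁^3*a₂^4*s^2*P^2*Q^2 - 33*a₁^3*a₂^4*s*P^3*Q + 9*a₁^3*a₂^4*P^4 + 9*a₁^3*a₂^3*s^5*Q^4 - 30*a₁^3*a₂^3*s^4*P*Q^3 + 18*a₁^3*a₂^3*s^3*P^2*Q^2 - 9*a₁^3*a₂^3*s^2*P^3*Q + 24*a₁^3*a₂^3*s*P^4 + 9*a₁^3*a₂^2*s^5*P*Q^3 + 18*a₁^3*a₂^2*s^4*P^2*Q^2 - 15*a₁^3*a₂^2*s^3*P^3*Q + 9*a₁^3*a₂^2*s^2*P^4 + 3*a₁^3*a₂*s^6*P*Q^3 + 9*a₁^3*a₂*s^5*P^2*Q^2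 - 24*a₁^3*a₂*s^4*P^3*Q + 3*a₁^3*a₂*s^3*P^4 + 6*a₁^3*s^4*P^4 + 3*a₁^2*a₂^5*s^4*Q^4 + 3*a₁^2*a₂^5*s^3*P*Q^3 + 9*a₁^2*a₂^5*s^2*P^2*Q^2 - 9*a₁^2*a₂^5*s*P^3*Q + 3*a₁^2*a₂^5*P^4 - 3*a₁^2*a₂^4*s^4*P*Q^3 + 18*a₁^2*a₂^4*s^3*P^2*Q^2 + 9*a₁^2*a₂^4*s^2*P^3*Q + 9*a₁^2*a₂^4*s*P^4 - 18*a₁^2*a₂^3*s^5*P*Q^3 + 27*a₁^2*a₂^3*s^4*P^2*Q^2 + 9*a₁^2*a₂^3*s^2*P^4 - 18*a₁^2*a₂^2*s^5*P^2*Q^2 - 24*a₁^2*a₂^2*s^4*P^3*Q + 3*a₁^2*a₂^2*s^3*P^4 - 9*a₁^2*a₂*s^6*P^2*Q^2 - 18*a₁^2*a₂*s^5*P^3*Q + 15*a₁^2*a₂*s^4*P^4 + 9*a₁*a₂^3*s^5*P^2*Q^2 - 9*a₁*a₂^3*s^4*P^3*Q + 9*a₁*a₂^2*s^5*P^3*Q + 9*a₁*a₂^2*s^4*P^4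 + 9*a₁*a₂*s^6*P^3*Q + 9*a₁*a₂*s^5*P^4 - 3*a₂*s^6*P^4) * hw

end Pool.Agent.PTK
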