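import Pool.Agent.PTK.StZ
import Pool.Agent.PTK.KNI
import Pool.Agent.PT.IF1

/-!
# KN1: a Steinberg identity
-/

set_option autoImplicit false

open scoped nonZeroDivisors Pointwise

namespace Pool.Agent.PTK

open Pool.Agent.Lib_helper18 Pool.Agent.Lib_helper18.Eis Pool.Agent.Lib_helper84.Cub
open Pool.Agent.PT Pool.Agent.PTE Pool.Agent.PT3 Pool.Agent.PTL Pool.Agent.PTN

namespace KN1

/-! ### Bounded valuations -/

/-- A rational integer whose square is a cube in `Eis` is a cube. -/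
theorem cube_int {D : ℤ} (hD : D ≠ 0) {r : Eis} (h : r ^ 3 = (D : Eis) ^ 2) :
    ∃ m : ℤ, m ^ 3 = D := by
  have h1 : r.norm ^ 3 = (D ^ 2) ^ 2 := by
    have h2 := congrArg Eis.norm h
    rw [norm_pow, norm_pow, norm_intCast] at h2
    exact h2
  have h3 : D ^ 3 ∣ r.norm ^ 3 := ⟨D, by rw [h1]; ring⟩
  have h4 : D ∣ r.norm := (Int.pow_dvd_pow_iff three_ne_zero).1 h3
  obtain ⟨m, hm⟩ := h4
  refine ⟨m, ?_⟩
  rw [hm] at h1
  have h5 : D ^ 3 * m ^ 3 = D ^ 3 * D := by rw [← mul_pow, h1]; ring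
  exact mul_left_cancel₀ (pow_ne_zero 3 hD) h5

theorem dvd_cube {a b : Eis} (h : a ^ 3 ∣ b ^ 3) : a ∣ b :=
  (IsIntegrallyClosed.pow_dvd_pow_iff (R := Eis) three_ne_zero).1 h

theorem lin_ne {B : ℤ} (hB : B ≠ 0) (hc : ¬ ∃ n : ℤ, n ^ 3 = B) {u v : Eis}
    (h : ¬ (u = 0 ∧ v = 0)) : u ^ 3 - (B : Eis) * v ^ 3 ≠ 0 := by
  intro h0
  by_cases hv : v = 0
  · subst hv
    have h1 : u ^ 3 = 0 := by linear_combination h0
    exact h ⟨(pow_eq_zero_iff three_ne_zero).1 h1, rfl⟩
  · have h1 : v ^ 3 ∣ u ^ 3 := ⟨B, by linear_combination h0⟩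
    obtain ⟨k, rfl⟩ := dvd_cube h1
    have h2 : v ^ 3 * (k ^ 3 - (B : Eis)) = 0 := by linear_combination h0
    have h3 := (mul_eq_zero.1 h2).resolve_left (pow_ne_zero _ hv)
    apply hc
    exact cube_int hB (r := k ^ 2) (by linear_combination (k ^ 3 + (B : Eis)) * h3)

/-- the norm form is not zero -/
theorem nrm_ne {B : ℤ} (hB : B ≠ 0) (hc : ¬ ∃ n : ℤ, n ^ 3 = B) {g₀ g₁ g₂ : Eis}
    (h : ¬ (g₀ = 0 ∧ g₁ = 0 ∧ g₂ = 0)) :
    g₀ ^ 3 + (B : Eis) * g₁ ^ 3 + (B : Eis) ^ 2 * g₂ ^ 3 - 3 * (B : Eis) * g₀ * g₁ * g₂ ≠ 0 := by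
  intro h0
  by_cases h1 : g₁ = 0 ∧ g₂ = 0
  · obtain ⟨rfl, rfl⟩ := h1
    have h2 : g₀ ^ 3 = 0 := by linear_combination h0
    exact h ⟨(pow_eq_zero_iff three_ne_zero).1 h2, rfl, rfl⟩
  · have h2 := lin_ne hB hc h1
    have h4 : g₀ * g₁ - (B : Eis) * g₂ ^ 2 = 0 ∧ -(g₁ ^ 2 - g₀ * g₂) = 0 := by
      by_contra hcon
      apply lin_ne hB hc hcon
      linear_combination (g₁ ^ 3 - (B : Eis) * g₂ ^ 3) * h0
    apply h2
    linear_combination (-g₁) * h4.2 + g₂ * h4.1

/-- polynomials of degree at most two have bounded valuations near the cube roots of `B` -/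
theorem bdd {π : Eis} (hπ : Prime π) {B : ℤ} (hB : B ≠ 0) (hc : ¬ ∃ n : ℤ, n ^ 3 = B)
    (g₀ g₁ g₂ : Eis) (h : ¬ (g₀ = 0 ∧ g₁ = 0 ∧ g₂ = 0)) :
    ∃ C : ℕ, ∀ s : Eis, π ^ (C + 1) ∣ s ^ 3 - (B : Eis) →
      g₀ + g₁ * s + g₂ * s ^ 2 ≠ 0 ∧ V π (g₀ + g₁ * s + g₂ * s ^ 2) ≤ C := by
  refine ⟨V π (g₀ ^ 3 + (B : Eis) * g₁ ^ 3 + (B : Eis) ^ 2 * g₂ ^ 3 -
    3 * (B : Eis) * g₀ * g₁ * g₂), fun s hs => ?_⟩
  refine IF1.V_le (c' := (g₀ + g₁ * s + g₂ * s ^ 2) * ((g₀ ^ 2 - g₁ * g₂ * B) +
    (g₂ ^ 2 * B - g₀ * g₁) * s + (g₁ ^ 2 - g₀ * g₂) * s ^ 2)) hπ (nrm_ne hB hc h)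
    (Nat.lt_succ_self _) ?_ (dvd_mul_right _ _)
  have e : (g₀ + g₁ * s + g₂ * s ^ 2) * ((g₀ ^ 2 - g₁ * g₂ * B) +
      (g₂ ^ 2 * B - g₀ * g₁) * s + (g₁ ^ 2 - g₀ * g₂) * s ^ 2) -
      (g₀ ^ 3 + (B : Eis) * g₁ ^ 3 + (B : Eis) ^ 2 * g₂ ^ 3 - 3 * (B : Eis) * g₀ * g₁ * g₂) =
      (s ^ 3 - (B : Eis)) * (g₁ * (g₁ ^ 2 - g₀ * g₂) + g₂ * (g₂ ^ 2 * B - g₀ * g₁) +
        g₂ * (g₁ ^ 2 - g₀ * g₂) * s) := by ring
  rw [e]
  exact Dvd.dvd.mul_right hs _

/-! ### Symbols -/

section Sym

variable {π : Eis} {s : Eis → Eis → ZMod 3} {e : ℕ}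

theorem h3 : (3 : ZMod 3) = 0 := rfl

theorem s_sq (hs : LSym π s e) {a c : Eis} (ha : a ≠ 0) (hc : c ≠ 0) :
    s (a ^ 2) c = 2 * s a c := by
  rw [pow_two, hs.mul _ _ _ ha ha hc]
  ring

theorem s_right_sq (hs : LSym π s e) {a c : Eis} (ha : a ≠ 0) (hc : c ≠ 0) :
    s c (a ^ 2) = 2 * s c a := by
  rw [hs.skew (a ^ 2) c (pow_ne_zero 2 ha) hc, s_sq hs ha hc, hs.skew a c ha hc]
  ring

theorem s_right_mul (hs : LSym π s e) {a b c : Eis} (ha : a ≠ 0) (hb : b ≠ 0) (hc : c ≠ 0) :
    s c (a * b) = s c a + s c b := by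
  rw [hs.skew (a * b) c (mul_ne_zero ha hb) hc, hs.mul a b c ha hb hc, hs.skew a c ha hc,
    hs.skew b c hb hc]
  ring

theorem s_self (hs : LSym π s e) {a : Eis} (ha : a ≠ 0) : s a a = 0 := by
  have h := hs.skew a a ha ha
  exact IF1.two_mul_eq_zero (by rw [eq_neg_iff_add_eq_zero] at h; exact h)

/-- The Steinberg relation for `U - W`. -/
theorem stein' (hs : LSym π s e) {U W D : Eis} (hU : U ≠ 0) (hW : W ≠ 0) (hD : D ≠ 0)
    (h : D = U - W) : s W U = s D U - s D W := by
  have h1 := hs.stein U (-W) (-D) hU (neg_ne_zero.2 hW) (neg_ne_zero.2 hD) (by rw [h]; ring)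
  rw [hs.skew (-W) U (neg_ne_zero.2 hW) hU, IF1.s_neg hs hU hW,
    IF1.s_neg hs (neg_ne_zero.2 hD) hW, hs.skew (-D) W (neg_ne_zero.2 hD) hW,
    IF1.s_neg hs hW hD, IF1.s_neg hs hU hD] at h1
  linear_combination -h1

end Sym

/-- The formal computation. -/
theorem core {s : Eis → Eis → ZMod 3} {e : ℕ} (hs : LSym lam s e)
    {t a₀ a₁ a₂ σ τ L₁ L₂ N H α β U W Z : Eis} (hw : w ≠ 0) (hl : lam ≠ 0) (ht3 : t ≠ 0)
    (h0 : a₀ ≠ 0) (h1 : a₁ ≠ 0) (h2 : a₂ ≠ 0) (hσ : σ ≠ 0) (hτ : τ ≠ 0) (hL₁ : L₁ ≠ 0)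
    (hL₂ : L₂ ≠ 0) (hN : N ≠ 0) (hH : H ≠ 0) (hα : α ≠ 0) (hβ : β ≠ 0)
    (ht : t = -w ^ 2 * lam ^ 2)
    (hB : ∀ c, c ≠ 0 → s (a₀ * a₁ * a₂) c = 0)
    (hq : ∀ c, c ≠ 0 → s (t * a₀ * τ * σ) c = 0)
    (hU : U = a₂ * L₁ * α ^ 3) (hW : W = w ^ 2 * lam * σ * a₀ * a₁ ^ 2 * L₂ * β ^ 3)
    (hZ : Z = N * (t * lam * a₀ * a₁ ^ 2 * a₂) * σ ^ 2 * H)
    (hD : U - W ≠ 0) (hZD : ∀ c, c ≠ 0 → s (U - W) c = s Z c)
    (hHe : -H = w * σ * L₁ - w ^ 2 * τ * L₂) :
    (s (w ^ 2 * lam * σ * a₀ * a₁ ^ 2 * a₂ ^ 2) N + s L₂ N - s L₁ N) -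
      (s (w ^ 2 * lam * σ * a₀ * a₁ ^ 2 * a₂ ^ 2) (a₀ * a₂ ^ 2) + s L₂ (a₀ * a₂ ^ 2) -
        s L₁ (a₀ * a₂ ^ 2)) = 0 := by
  obtain ⟨T, hT⟩ : ∃ T : Eis → ZMod 3, ∀ c, T c =
      s (w ^ 2 * lam * σ * a₀ * a₁ ^ 2 * a₂ ^ 2) c + s L₂ c - s L₁ c := ⟨_, fun _ => rfl⟩
  rw [← hT, ← hT]
  have hK : w ^ 2 * lam * σ * a₀ * a₁ ^ 2 * a₂ ^ 2 ≠ 0 := by
    repeat' (first | assumption | (with_reducible apply mul_ne_zero) |
      (with_reducible apply pow_ne_zero))
  have hTm : ∀ a b, a ≠ 0 → b ≠ 0 → T (a * b) = T a + T b := by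
    intro a b ha hb
    rw [hT, hT, hT, s_right_mul hs ha hb hK, s_right_mul hs ha hb hL₂,
      s_right_mul hs ha hb hL₁]
    ring
  have hTsq : ∀ a, a ≠ 0 → T (a ^ 2) = 2 * T a := by
    intro a ha
    rw [pow_two, hTm a a ha ha]
    ring
  have hTcube : ∀ a, a ≠ 0 → T (a ^ 3) = 0 := by
    intro a ha
    have e1 : a ^ 3 = a * a * a := by ring
    rw [e1, hTm _ _ (mul_ne_zero ha ha) ha, hTm _ _ ha ha]
    exact IF1.three_mul_eq _
  -- expansions
  have x3 : ∀ c, c ≠ 0 → s t c + s lam c = 2 * s w c := by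
    intro c hc
    have e1 : t * lam = -(w ^ 2 * lam ^ 3) := by rw [ht]; ring
    have e2 := hs.mul t lam c ht3 hl hc
    rw [e1, IF1.s_neg hs hc (by
      repeat' (first | assumption | (with_reducible apply mul_ne_zero) |
        (with_reducible apply pow_ne_zero))), hs.mul _ _ c (by
      repeat' (first | assumption | (with_reducible apply mul_ne_zero) |
        (with_reducible apply pow_ne_zero))) (by
      repeat' (first | assumption | (with_reducible apply mul_ne_zero) |
        (with_reducible apply pow_ne_zero))) hc,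
      IF1.s_cube hs hc hl, s_sq hs hw hc] at e2
    linear_combination -e2
  have xB : ∀ c, c ≠ 0 → s a₀ c + s a₁ c + s a₂ c = 0 := by
    intro c hc
    have e1 := hB c hc
    rw [hs.mul _ _ c (by
      repeat' (first | assumption | (with_reducible apply mul_ne_zero) |
        (with_reducible apply pow_ne_zero))) (by
      repeat' (first | assumption | (with_reducible apply mul_ne_zero) |
        (with_reducible apply pow_ne_zero))) hc, hs.mul _ _ c (by
      repeat' (first | assumption | (with_reducible apply mul_ne_zero) |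
        (with_reducible apply pow_ne_zero))) (by
      repeat' (first | assumption | (with_reducible apply mul_ne_zero) |
        (with_reducible apply pow_ne_zero))) hc] at e1
    exact e1
  have xq : ∀ c, c ≠ 0 → s t c + s a₀ c + s τ c + s σ c = 0 := by
    intro c hc
    have e1 := hq c hc
    rw [hs.mul _ _ c (by
      repeat' (first | assumption | (with_reducible apply mul_ne_zero) |
        (with_reducible apply pow_ne_zero))) (by
      repeat' (first | assumption | (with_reducible apply mul_ne_zero) |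
        (with_reducible apply pow_ne_zero))) hc, hs.mul _ _ c (by
      repeat' (first | assumption | (with_reducible apply mul_ne_zero) |
        (with_reducible apply pow_ne_zero))) (by
      repeat' (first | assumption | (with_reducible apply mul_ne_zero) |
        (with_reducible apply pow_ne_zero))) hc,
      hs.mul _ _ c (by
      repeat' (first | assumption | (with_reducible apply mul_ne_zero) |
        (with_reducible apply pow_ne_zero))) (by
      repeat' (first | assumption | (with_reducible apply mul_ne_zero) |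
        (with_reducible apply pow_ne_zero))) hc] at e1
    exact e1
  have xK : ∀ c, c ≠ 0 → s (w ^ 2 * lam * σ * a₀ * a₁ ^ 2 * a₂ ^ 2) c =
      2 * s w c + s lam c + s σ c + s a₀ c + 2 * s a₁ c + 2 * s a₂ c := by
    intro c hc
    rw [hs.mul _ _ c (by
      repeat' (first | assumption | (with_reducible apply mul_ne_zero) |
        (with_reducible apply pow_ne_zero))) (by
      repeat' (first | assumption | (with_reducible apply mul_ne_zero) |
        (with_reducible apply pow_ne_zero))) hc, hs.mul _ _ c (by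
      repeat' (first | assumption | (with_reducible apply mul_ne_zero) |
        (with_reducible apply pow_ne_zero))) (by
      repeat' (first | assumption | (with_reducible apply mul_ne_zero) |
        (with_reducible apply pow_ne_zero))) hc,
      hs.mul _ _ c (by
      repeat' (first | assumption | (with_reducible apply mul_ne_zero) |
        (with_reducible apply pow_ne_zero))) (by
      repeat' (first | assumption | (with_reducible apply mul_ne_zero) |
        (with_reducible apply pow_ne_zero))) hc, hs.mul _ _ c (by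
      repeat' (first | assumption | (with_reducible apply mul_ne_zero) |
        (with_reducible apply pow_ne_zero))) (by
      repeat' (first | assumption | (with_reducible apply mul_ne_zero) |
        (with_reducible apply pow_ne_zero))) hc,
      hs.mul _ _ c (by
      repeat' (first | assumption | (with_reducible apply mul_ne_zero) |
        (with_reducible apply pow_ne_zero))) (by
      repeat' (first | assumption | (with_reducible apply mul_ne_zero) |
        (with_reducible apply pow_ne_zero))) hc, s_sq hs hw hc, s_sq hs h1 hc, s_sq hs h2 hc]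
  have hU0 : U ≠ 0 := by rw [hU]; repeat' (first | assumption | (with_reducible apply mul_ne_zero) | (with_reducible apply pow_ne_zero))
  have hW0 : W ≠ 0 := by rw [hW]; repeat' (first | assumption | (with_reducible apply mul_ne_zero) | (with_reducible apply pow_ne_zero))
  have hZ0 : Z ≠ 0 := by rw [hZ]; repeat' (first | assumption | (with_reducible apply mul_ne_zero) | (with_reducible apply pow_ne_zero))
  have xU : ∀ c, c ≠ 0 → s U c = s a₂ c + s L₁ c := by
    intro c hc
    rw [hU, hs.mul _ _ c (by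
      repeat' (first | assumption | (with_reducible apply mul_ne_zero) |
        (with_reducible apply pow_ne_zero))) (by
      repeat' (first | assumption | (with_reducible apply mul_ne_zero) |
        (with_reducible apply pow_ne_zero))) hc, hs.mul _ _ c (by
      repeat' (first | assumption | (with_reducible apply mul_ne_zero) |
        (with_reducible apply pow_ne_zero))) (by
      repeat' (first | assumption | (with_reducible apply mul_ne_zero) |
        (with_reducible apply pow_ne_zero))) hc,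
      IF1.s_cube hs hc hα, add_zero]
  have xW : ∀ c, c ≠ 0 → s W c =
      2 * s w c + s lam c + s σ c + s a₀ c + 2 * s a₁ c + s L₂ c := by
    intro c hc
    rw [hW, hs.mul _ _ c (by
      repeat' (first | assumption | (with_reducible apply mul_ne_zero) |
        (with_reducible apply pow_ne_zero))) (by
      repeat' (first | assumption | (with_reducible apply mul_ne_zero) |
        (with_reducible apply pow_ne_zero))) hc, hs.mul _ _ c (by
      repeat' (first | assumption | (with_reducible apply mul_ne_zero) |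
        (with_reducible apply pow_ne_zero))) (by
      repeat' (first | assumption | (with_reducible apply mul_ne_zero) |
        (with_reducible apply pow_ne_zero))) hc,
      hs.mul _ _ c (by
      repeat' (first | assumption | (with_reducible apply mul_ne_zero) |
        (with_reducible apply pow_ne_zero))) (by
      repeat' (first | assumption | (with_reducible apply mul_ne_zero) |
        (with_reducible apply pow_ne_zero))) hc, hs.mul _ _ c (by
      repeat' (first | assumption | (with_reducible apply mul_ne_zero) |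
        (with_reducible apply pow_ne_zero))) (by
      repeat' (first | assumption | (with_reducible apply mul_ne_zero) |
        (with_reducible apply pow_ne_zero))) hc,
      hs.mul _ _ c (by
      repeat' (first | assumption | (with_reducible apply mul_ne_zero) |
        (with_reducible apply pow_ne_zero))) (by
      repeat' (first | assumption | (with_reducible apply mul_ne_zero) |
        (with_reducible apply pow_ne_zero))) hc, hs.mul _ _ c (by
      repeat' (first | assumption | (with_reducible apply mul_ne_zero) |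
        (with_reducible apply pow_ne_zero))) (by
      repeat' (first | assumption | (with_reducible apply mul_ne_zero) |
        (with_reducible apply pow_ne_zero))) hc,
      s_sq hs hw hc, s_sq hs h1 hc, IF1.s_cube hs hc hβ, add_zero]
  have hT1 : ∀ c, c ≠ 0 → T c = s W c - s U c := by
    intro c hc
    rw [hT, xK c hc, xW c hc, xU c hc]
    linear_combination s a₂ c * h3
  have hT2 : ∀ c, c ≠ 0 → T c = s (w ^ 2 * τ * L₂) c - s (w * σ * L₁) c := by
    intro c hc
    rw [hT, xK c hc, hs.mul _ _ c (by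
      repeat' (first | assumption | (with_reducible apply mul_ne_zero) |
        (with_reducible apply pow_ne_zero))) (by
      repeat' (first | assumption | (with_reducible apply mul_ne_zero) |
        (with_reducible apply pow_ne_zero))) hc,
      hs.mul _ _ c (by
      repeat' (first | assumption | (with_reducible apply mul_ne_zero) |
        (with_reducible apply pow_ne_zero))) (by
      repeat' (first | assumption | (with_reducible apply mul_ne_zero) |
        (with_reducible apply pow_ne_zero))) hc, hs.mul _ _ c (by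
      repeat' (first | assumption | (with_reducible apply mul_ne_zero) |
        (with_reducible apply pow_ne_zero))) (by
      repeat' (first | assumption | (with_reducible apply mul_ne_zero) |
        (with_reducible apply pow_ne_zero))) hc,
      hs.mul _ _ c (by
      repeat' (first | assumption | (with_reducible apply mul_ne_zero) |
        (with_reducible apply pow_ne_zero))) (by
      repeat' (first | assumption | (with_reducible apply mul_ne_zero) |
        (with_reducible apply pow_ne_zero))) hc, s_sq hs hw hc]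
    linear_combination 2 * xB c hc - xq c hc + x3 c hc + (s σ c + s w c) * h3
  -- first relation
  have E1 : T Z = T U := by
    have e1 := stein' hs hU0 hW0 hD rfl
    rw [hZD _ hU0, hZD _ hW0] at e1
    rw [hT1 Z hZ0, hT1 U hU0, s_self hs hU0, hs.skew Z W hZ0 hW0, hs.skew Z U hZ0 hU0]
    linear_combination -e1
  -- second relation
  have hU2 : w * σ * L₁ ≠ 0 := by
    repeat' (first | assumption | (with_reducible apply mul_ne_zero) |
      (with_reducible apply pow_ne_zero))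
  have hW2 : w ^ 2 * τ * L₂ ≠ 0 := by
    repeat' (first | assumption | (with_reducible apply mul_ne_zero) |
      (with_reducible apply pow_ne_zero))
  have E2 : T H = T (w * σ * L₁) := by
    have e1 := stein' hs hU2 hW2 (neg_ne_zero.2 hH) hHe
    rw [IF1.s_neg hs hU2 hH, IF1.s_neg hs hW2 hH] at e1
    rw [hT2 H hH, hT2 _ hU2, s_self hs hU2, hs.skew H _ hH hW2, hs.skew H _ hH hU2]
    linear_combination -e1
  -- second variable
  have yT : ∀ c, c ≠ 0 → (∀ d, d ≠ 0 → s c d = 0) → T c = 0 := by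
    intro c hc h
    rw [hT, hs.skew c _ hc hK, hs.skew c _ hc hL₂, hs.skew c _ hc hL₁, h _ hK, h _ hL₂, h _ hL₁]
    ring
  have yB : T a₀ + T a₁ + T a₂ = 0 := by
    have e1 := yT (a₀ * a₁ * a₂) (by
      repeat' (first | assumption | (with_reducible apply mul_ne_zero) |
        (with_reducible apply pow_ne_zero))) hB
    rw [hTm _ _ (by
      repeat' (first | assumption | (with_reducible apply mul_ne_zero) |
        (with_reducible apply pow_ne_zero))) (by
      repeat' (first | assumption | (with_reducible apply mul_ne_zero) |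
        (with_reducible apply pow_ne_zero))), hTm _ _ (by
      repeat' (first | assumption | (with_reducible apply mul_ne_zero) |
        (with_reducible apply pow_ne_zero))) (by
      repeat' (first | assumption | (with_reducible apply mul_ne_zero) |
        (with_reducible apply pow_ne_zero)))] at e1
    exact e1
  have y3 : T t + T lam = 2 * T w := by
    have e1 : T t + T lam = T (t * lam) := (hTm _ _ ht3 hl).symm
    rw [e1, hT, hT, xK _ (by
      repeat' (first | assumption | (with_reducible apply mul_ne_zero) |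
        (with_reducible apply pow_ne_zero))), xK _ hw]
    have e2 : ∀ d, d ≠ 0 → s d (t * lam) = 2 * s d w := by
      intro d hd
      rw [hs.skew (t * lam) d (by
      repeat' (first | assumption | (with_reducible apply mul_ne_zero) |
        (with_reducible apply pow_ne_zero))) hd, hs.mul _ _ _ ht3 hl hd, x3 d hd, hs.skew w d hw hd]
      ring
    rw [e2 w hw, e2 lam hl, e2 σ hσ, e2 a₀ h0, e2 a₁ h1, e2 a₂ h2, e2 L₂ hL₂, e2 L₁ hL₁]
    ring
  -- conclusion
  have f1 : T Z = T N + (T t + T lam + T a₀ + 2 * T a₁ + T a₂) + 2 * T σ + T H := by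
    rw [hZ, hTm _ _ (by
      repeat' (first | assumption | (with_reducible apply mul_ne_zero) |
        (with_reducible apply pow_ne_zero))) (by
      repeat' (first | assumption | (with_reducible apply mul_ne_zero) |
        (with_reducible apply pow_ne_zero))), hTm _ _ (by
      repeat' (first | assumption | (with_reducible apply mul_ne_zero) |
        (with_reducible apply pow_ne_zero))) (by
      repeat' (first | assumption | (with_reducible apply mul_ne_zero) |
        (with_reducible apply pow_ne_zero))),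
      hTm _ _ (by
      repeat' (first | assumption | (with_reducible apply mul_ne_zero) |
        (with_reducible apply pow_ne_zero))) (by
      repeat' (first | assumption | (with_reducible apply mul_ne_zero) |
        (with_reducible apply pow_ne_zero))), hTm _ _ (by
      repeat' (first | assumption | (with_reducible apply mul_ne_zero) |
        (with_reducible apply pow_ne_zero))) (by
      repeat' (first | assumption | (with_reducible apply mul_ne_zero) |
        (with_reducible apply pow_ne_zero))),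
      hTm _ _ (by
      repeat' (first | assumption | (with_reducible apply mul_ne_zero) |
        (with_reducible apply pow_ne_zero))) (by
      repeat' (first | assumption | (with_reducible apply mul_ne_zero) |
        (with_reducible apply pow_ne_zero))), hTm _ _ (by
      repeat' (first | assumption | (with_reducible apply mul_ne_zero) |
        (with_reducible apply pow_ne_zero))) (by
      repeat' (first | assumption | (with_reducible apply mul_ne_zero) |
        (with_reducible apply pow_ne_zero))),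
      hTm _ _ (by
      repeat' (first | assumption | (with_reducible apply mul_ne_zero) |
        (with_reducible apply pow_ne_zero))) (by
      repeat' (first | assumption | (with_reducible apply mul_ne_zero) |
        (with_reducible apply pow_ne_zero))), hTsq _ hσ, hTsq _ h1]
  have f2 : T U = T a₂ + T L₁ := by
    rw [hU, hTm _ _ (by
      repeat' (first | assumption | (with_reducible apply mul_ne_zero) |
        (with_reducible apply pow_ne_zero))) (by
      repeat' (first | assumption | (with_reducible apply mul_ne_zero) |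
        (with_reducible apply pow_ne_zero))), hTm _ _ (by
      repeat' (first | assumption | (with_reducible apply mul_ne_zero) |
        (with_reducible apply pow_ne_zero))) (by
      repeat' (first | assumption | (with_reducible apply mul_ne_zero) |
        (with_reducible apply pow_ne_zero))), hTcube _ hα,
      add_zero]
  have f3 : T (w * σ * L₁) = T w + T σ + T L₁ := by
    rw [hTm _ _ (by
      repeat' (first | assumption | (with_reducible apply mul_ne_zero) |
        (with_reducible apply pow_ne_zero))) (by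
      repeat' (first | assumption | (with_reducible apply mul_ne_zero) |
        (with_reducible apply pow_ne_zero))), hTm _ _ (by
      repeat' (first | assumption | (with_reducible apply mul_ne_zero) |
        (with_reducible apply pow_ne_zero))) (by
      repeat' (first | assumption | (with_reducible apply mul_ne_zero) |
        (with_reducible apply pow_ne_zero)))]
  have f4 : T (a₀ * a₂ ^ 2) = T a₀ + 2 * T a₂ := by
    rw [hTm _ _ (by
      repeat' (first | assumption | (with_reducible apply mul_ne_zero) |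
        (with_reducible apply pow_ne_zero))) (by
      repeat' (first | assumption | (with_reducible apply mul_ne_zero) |
        (with_reducible apply pow_ne_zero))), hTsq _ h2]
  rw [f4]
  rw [f1, f2, E2, f3] at E1
  linear_combination E1 - y3 - 2 * yB - (T w + T σ) * h3

theorem w_ne_one : (w : Eis) - 1 ≠ 0 := by decide

theorem w_sub_sq_ne : (w : Eis) - w ^ 2 ≠ 0 := by decide

theorem three_ne : (3 : Eis) ≠ 0 := by decide

/-- valuations add up -/
theorem V_add {a b : Eis} {m n : ℕ} (ha : a ≠ 0 ∧ V lam a ≤ m) (hb : b ≠ 0 ∧ V lam b ≤ n) :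
    a * b ≠ 0 ∧ V lam (a * b) ≤ m + n := by
  refine ⟨mul_ne_zero ha.1 hb.1, ?_⟩
  rw [V_mul prime_lam ha.1 hb.1]
  exact add_le_add ha.2 hb.2

end KN1

open KN1 in
theorem KN1_thm (hSLC : SLC) : Stmt_KN1 := by
  intro x₀ y₀ B a₀ a₁ a₂ hxy hB hc hne h0 h1 h2 P Q hN hL₁ hL₂
  have hs : LSym lam sl 4 := hSLC
  have hπ : Prime lam := prime_lam
  have hl : (lam : Eis) ≠ 0 := hπ.ne_zero
  have hw : (w : Eis) ≠ 0 := IF1.w_ne
  have wr := w_rel
  have wc := w_cube
  have hx0 : x₀ ≠ 0 := by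
    rintro rfl
    exact hc ⟨y₀, by rw [← hxy]; ring⟩
  have hBE : a₀ * a₁ * a₂ = (B : Eis) := by
    rw [h0, h1, h2, ← hxy]
    push_cast
    linear_combination (w * (x₀ : Eis) ^ 3 + w * (y₀ : Eis) ^ 3 + w ^ 2 * x₀ * y₀ ^ 2 +
      w ^ 2 * x₀ ^ 2 * y₀ - (x₀ : Eis) ^ 3 - (y₀ : Eis) ^ 3) * wr
  have hBE0 : (B : Eis) ≠ 0 := IF1.cast_ne hB
  have ha012 : a₀ * a₁ * a₂ ≠ 0 := by rw [hBE]; exact hBE0
  have ha2 : a₂ ≠ 0 := right_ne_zero_of_mul ha012
  have ha01 : a₀ * a₁ ≠ 0 := left_ne_zero_of_mul ha012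
  have ha0 : a₀ ≠ 0 := left_ne_zero_of_mul ha01
  have ha1 : a₁ ≠ 0 := right_ne_zero_of_mul ha01
  have hsum : a₀ = -(a₁ + a₂) := by
    rw [h0, h1, h2]
    linear_combination ((x₀ : Eis) + y₀) * wr
  have hPQ : ¬ (P = 0 ∧ Q = 0) := by
    rintro ⟨rfl, rfl⟩
    apply hN
    ring
  -- bounds
  obtain ⟨Cα, hCα⟩ := bdd hπ hB hc (w ^ 2 * a₀ * a₁ * (a₂ * Q - P)) (a₁ * (a₂ * Q - w * P))
    (w ^ 2 * (a₁ * Q - P)) (by
      rintro ⟨g0, g1, -⟩
      have g0' : a₂ * Q - P = 0 := by
        rcases mul_eq_zero.1 g0 with h | h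
        · exact absurd h (mul_ne_zero (mul_ne_zero (pow_ne_zero 2 hw) ha0) ha1)
        · exact h
      have g1' : a₂ * Q - w * P = 0 := (mul_eq_zero.1 g1).resolve_left ha1
      have g2 : (w - 1) * P = 0 := by linear_combination g0' - g1'
      have g3 : P = 0 := (mul_eq_zero.1 g2).resolve_left w_ne_one
      have g4 : a₂ * Q = 0 := by rw [g3] at g0'; linear_combination g0'
      exact hPQ ⟨g3, (mul_eq_zero.1 g4).resolve_left ha2⟩)
  obtain ⟨Cβ, hCβ⟩ := bdd hπ hB hc (a₂ * (a₁ * Q + w ^ 2 * P)) (-(w ^ 2 * a₂ * Q + P)) 0 (by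
      rintro ⟨g0, g1, -⟩
      have g0' : a₁ * Q + w ^ 2 * P = 0 := (mul_eq_zero.1 g0).resolve_left ha2
      have g2 : (w - 1) * x₀ * Q = 0 := by
        rw [h1] at g0'
        rw [h2] at g1
        linear_combination g0' + w ^ 2 * g1 + (Q * w * x₀ - Q * w ^ 2 * y₀ - Q * w ^ 3 * x₀ +
          Q * w ^ 3 * y₀ + Q * w ^ 4 * x₀ - Q * x₀) * wr
      have g3 : Q = 0 := by
        rcases mul_eq_zero.1 g2 with h | h
        · exact absurd h (mul_ne_zero w_ne_one (IF1.cast_ne hx0))
        · exact h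
      refine hPQ ⟨?_, g3⟩
      rw [g3] at g1
      linear_combination -g1)
  obtain ⟨CH, hCH⟩ := bdd hπ hB hc (a₂ * (P - a₁ * Q)) (P - a₂ * Q) 0 (by
      rintro ⟨g0, g1, -⟩
      have g0' : P - a₁ * Q = 0 := (mul_eq_zero.1 g0).resolve_left ha2
      have g2 : (w - w ^ 2) * ((x₀ - y₀ : ℤ) : Eis) * Q = 0 := by
        rw [h1] at g0'
        rw [h2] at g1
        push_cast
        linear_combination g1 - g0'
      have g3 : Q = 0 := by
        rcases mul_eq_zero.1 g2 with h | h
        · exact absurd h (mul_ne_zero w_sub_sq_ne (IF1.cast_ne (sub_ne_zero.2 hne)))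
        · exact h
      refine hPQ ⟨?_, g3⟩
      rw [g3] at g1
      linear_combination g1)
  obtain ⟨Cx, hCx⟩ := bdd hπ hB hc (x₀ : Eis) (-1) 0 (by
    rintro ⟨-, g1, -⟩
    exact (neg_ne_zero.2 one_ne_zero) g1)
  obtain ⟨Cy, hCy⟩ := bdd hπ hB hc (-(y₀ : Eis)) 1 0 (by
    rintro ⟨-, g1, -⟩
    exact one_ne_zero g1)
  obtain ⟨Cs, hCs⟩ := bdd hπ hB hc 0 1 0 (by
    rintro ⟨-, g1, -⟩
    exact one_ne_zero g1)
  obtain ⟨Cu, hCu⟩ := bdd hπ hB hc ((x₀ : Eis) + y₀) (-1) 0 (by
    rintro ⟨-, g1, -⟩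
    exact (neg_ne_zero.2 one_ne_zero) g1)
  set NN : Eis := P ^ 3 + a₁ * a₂ ^ 2 * Q ^ 3 with hNN
  obtain ⟨M₁, hM₁⟩ : ∃ M₁ : ℕ, M₁ = V lam NN + (V lam 3 + V lam lam + V lam a₀ + (V lam a₁ +
    V lam a₁) + V lam a₂) + (Cy + Cy) + CH := ⟨_, rfl⟩
  refine ⟨Cα + Cβ + CH + Cx + Cy + Cs + Cu + M₁ + V lam 3 + V lam (B : Eis) + V lam a₀ + 20,
    fun s hsB => ?_⟩
  have hd : ∀ n : ℕ, n ≤ Cα + Cβ + CH + Cx + Cy + Cs + Cu + M₁ + V lam 3 + V lam (B : Eis) +
      V lam a₀ + 20 → lam ^ n ∣ (s : Eis) ^ 3 - (B : Eis) := by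
    intro n hn
    have e1 : ((3 : ℤ) : Eis) ^ (Cα + Cβ + CH + Cx + Cy + Cs + Cu + M₁ + V lam 3 +
        V lam (B : Eis) + V lam a₀ + 20) ∣ (s : Eis) ^ 3 - (B : Eis) := by
      obtain ⟨k, hk⟩ := hsB
      refine ⟨(k : Eis), ?_⟩
      have := congrArg (fun z : ℤ => (z : Eis)) hk
      push_cast at this
      push_cast
      exact this
    have e2 : lam ∣ ((3 : ℤ) : Eis) := by
      push_cast
      exact lam_dvd_three
    exact (pow_dvd_pow lam hn).trans ((pow_dvd_pow_of_dvd e2 _).trans e1)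
  -- the elements
  obtain ⟨hα0, -⟩ := hCα s (hd _ (by omega))
  obtain ⟨hβ0, -⟩ := hCβ s (hd _ (by omega))
  have hH := hCH s (hd _ (by omega))
  have hτ := hCx s (hd _ (by omega))
  have hσ := hCy s (hd _ (by omega))
  have hs0 := hCs s (hd _ (by omega))
  have hu := hCu s (hd _ (by omega))
  obtain ⟨δ, hδ⟩ : ∃ δ : Eis, δ = (s : Eis) ^ 3 - (B : Eis) := ⟨_, rfl⟩
  have hdδ : ∀ n : ℕ, n ≤ Cα + Cβ + CH + Cx + Cy + Cs + Cu + M₁ + V lam 3 + V lam (B : Eis) +
      V lam a₀ + 20 → lam ^ n ∣ δ := by rw [hδ]; exact hd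
  have hs3 : (s : Eis) ^ 3 = -(a₁ + a₂) * a₁ * a₂ + δ := by
    rw [hδ, ← hsum, hBE]
    ring
  obtain ⟨G, hG⟩ : ∃ G : Eis, -3 * a₂ * (P - w * a₂ * Q) *
        (a₁ * (w ^ 2 * -(a₁ + a₂) * a₂ + w ^ 2 * (s : Eis) ^ 2 + a₂ * s) * Q -
          w ^ 2 * (-(a₁ + a₂) * a₁ + w ^ 2 * a₁ * s + (s : Eis) ^ 2) * P) ^ 3 -
      w ^ 2 * (1 - w) * (w - w ^ 2) * ((w - w ^ 2) * s - w ^ 2 * a₁ + w * a₂) * -(a₁ + a₂) *
        a₁ ^ 2 * (P - w ^ 2 * a₂ * Q) * (a₂ * (a₁ - w ^ 2 * s) * Q +
          (a₂ - w * s) * w ^ 2 * P) ^ 3 =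
    (P ^ 3 + a₁ * a₂ ^ 2 * Q ^ 3) * (3 * (1 - w) * -(a₁ + a₂) * a₁ ^ 2 * a₂) *
        ((w - w ^ 2) * s - w ^ 2 * a₁ + w * a₂) ^ 2 * ((a₂ + s) * P - a₂ * (a₁ + s) * Q) +
      δ * G := ⟨_, KN_id w a₁ a₂ s P Q δ wr hs3⟩
  set α : Eis := w ^ 2 * a₀ * a₁ * (a₂ * Q - P) + a₁ * (a₂ * Q - w * P) * s +
    w ^ 2 * (a₁ * Q - P) * (s : Eis) ^ 2 with hα
  set β : Eis := a₂ * (a₁ * Q + w ^ 2 * P) + -(w ^ 2 * a₂ * Q + P) * s + 0 * (s : Eis) ^ 2
    with hβ
  set H : Eis := a₂ * (P - a₁ * Q) + (P - a₂ * Q) * s + 0 * (s : Eis) ^ 2 with hHd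
  set τ : Eis := (x₀ : Eis) + (-1) * s + 0 * (s : Eis) ^ 2 with hτd
  set σ : Eis := -(y₀ : Eis) + 1 * s + 0 * (s : Eis) ^ 2 with hσd
  have eσ : σ = (s : Eis) - y₀ := by rw [hσd]; ring
  have eα : a₁ * (w ^ 2 * -(a₁ + a₂) * a₂ + w ^ 2 * (s : Eis) ^ 2 + a₂ * s) * Q -
      w ^ 2 * (-(a₁ + a₂) * a₁ + w ^ 2 * a₁ * s + (s : Eis) ^ 2) * P = α := by
    rw [hα, ← hsum]
    linear_combination (P * a₁ * s * w - P * a₁ * s * w ^ 2) * wr
  have eβ : a₂ * (a₁ - w ^ 2 * s) * Q + (a₂ - w * s) * w ^ 2 * P = β := by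
    rw [hβ]
    linear_combination (P * s - P * s * w) * wr
  have eH : (a₂ + s) * P - a₂ * (a₁ + s) * Q = H := by
    rw [hHd]
    ring
  have eσ' : (w - w ^ 2) * (s : Eis) - w ^ 2 * a₁ + w * a₂ = (w - w ^ 2) * σ := by
    rw [eσ, h1, h2]
    linear_combination (w * (y₀ : Eis) - w ^ 2 * y₀) * wr
  have elam : (1 : Eis) - w = lam := lam_eq.symm
  have ew2 : ((w : Eis) - w ^ 2) ^ 2 = -3 := by decide
  obtain ⟨U, hU⟩ : ∃ U : Eis, U = a₂ * (P - w * a₂ * Q) * α ^ 3 := ⟨_, rfl⟩
  obtain ⟨W, hW⟩ : ∃ W : Eis, W = w ^ 2 * lam * σ * a₀ * a₁ ^ 2 * (P - w ^ 2 * a₂ * Q) *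
    β ^ 3 := ⟨_, rfl⟩
  obtain ⟨Z, hZ⟩ : ∃ Z : Eis, Z = NN * (3 * lam * a₀ * a₁ ^ 2 * a₂) * σ ^ 2 * H := ⟨_, rfl⟩
  have hUWZ : 3 * ((U - W) - Z) = δ * -G := by
    rw [eα, eβ, eH, eσ', ← hsum, elam, ← hNN] at hG
    rw [hU, hW, hZ]
    linear_combination -hG + (-w ^ 2 * lam * σ * a₀ * a₁ ^ 2 * (P - w ^ 2 * a₂ * Q) * β ^ 3 -
      NN * (3 * lam * a₀ * a₁ ^ 2 * a₂) * σ ^ 2 * H) * ew2
  have hZV : Z ≠ 0 ∧ V lam Z ≤ M₁ := by
    rw [hZ, hM₁, pow_two, pow_two]
    exact V_add (V_add (V_add ⟨hN, le_rfl⟩ (V_add (V_add (V_add (V_add ⟨three_ne, le_rfl⟩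
      ⟨hl, le_rfl⟩) ⟨ha0, le_rfl⟩) (V_add ⟨ha1, le_rfl⟩ ⟨ha1, le_rfl⟩)) ⟨ha2, le_rfl⟩))
      (V_add hσ hσ)) hH
  have hclose : ∀ n, n ≤ M₁ + 4 → lam ^ n ∣ (U - W) - Z := by
    intro n hn
    have e1 : lam ^ (n + V lam 3) ∣ 3 * ((U - W) - Z) := by
      rw [hUWZ]
      exact Dvd.dvd.mul_right (hdδ _ (by omega)) _
    have e2 := IF1.dvd_cancel hπ three_ne le_rfl e1
    rwa [Nat.add_sub_cancel] at e2
  have hUW0 : U - W ≠ 0 :=
    (IF1.V_le (c := Z) (c' := U - W) (z := U - W) hπ hZV.1 (N := M₁ + 1) (by omega)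
      (hclose _ (by omega)) dvd_rfl).1
  have hcore := core hs (t := 3) (a₀ := a₀) (a₁ := a₁) (a₂ := a₂) (σ := σ) (τ := τ)
    (L₁ := P - w * a₂ * Q) (L₂ := P - w ^ 2 * a₂ * Q) (N := NN) (H := H) (α := α) (β := β)
    (U := U) (W := W) (Z := Z) hw hl three_ne ha0 ha1 ha2 hσ.1 hτ.1 hL₁ hL₂ hN hH.1 hα0 hβ0
    three_eq
    (by
      intro c hc0
      rw [hBE, ← hs.cont (B : Eis) ((s : Eis) ^ 3) c hBE0 hc0 (hd _ (by omega))]
      have e1 := hs0.1
      have e2 : (s : Eis) ≠ 0 := by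
        intro h
        rw [h] at e1
        exact e1 (by ring)
      exact IF1.s_cube hs hc0 e2)
    (by
      intro c hc0
      have e0 : 3 * a₀ * τ * σ ≠ 0 := by
        have := hτ.1
        have := hσ.1
        have := three_ne
        repeat' (first | assumption | (with_reducible apply mul_ne_zero) |
          (with_reducible apply pow_ne_zero))
      have eV : V lam (3 * a₀ * τ * σ) ≤ V lam 3 + V lam a₀ + Cx + Cy :=
        (V_add (V_add (V_add ⟨three_ne, le_rfl⟩ ⟨ha0, le_rfl⟩) hτ) hσ).2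
      have e1 : lam ^ (V lam (-(3 * a₀ * τ * σ)) + 4) ∣
          (((x₀ : Eis) + y₀) + (-1) * s + 0 * (s : Eis) ^ 2) ^ 3 - -(3 * a₀ * τ * σ) := by
        have e2 : (((x₀ : Eis) + y₀) + (-1) * s + 0 * (s : Eis) ^ 2) ^ 3 -
            -(3 * a₀ * τ * σ) = -δ := by
          rw [hδ, hτd, hσd, h0, ← hxy]
          push_cast
          ring
        rw [e2, dvd_neg, V_neg]
        exact hdδ _ (by omega)
      have e3 := hs.cont _ _ c (neg_ne_zero.2 e0) hc0 e1
      rw [IF1.s_cube hs hc0 hu.1, IF1.s_neg hs hc0 e0] at e3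
      exact e3.symm)
    hU hW hZ hUW0
    (fun c hc0 => hs.cont Z (U - W) c hZV.1 hc0 (hclose _ (by have := hZV.2; omega)))
    (by
      rw [hHd, hσd, hτd, h1, h2]
      linear_combination (-P * s + Q * s * w * y₀ + Q * s * w ^ 2 * x₀ - Q * s * w ^ 2 * y₀ -
        Q * s * w ^ 3 * x₀ + Q * s * w ^ 3 * y₀ + Q * s * w ^ 4 * x₀ + Q * w ^ 2 * x₀ * y₀ -
        Q * w ^ 3 * x₀ * y₀ + Q * w ^ 3 * x₀ ^ 2 - Q * w ^ 4 * x₀ ^ 2) * wr)
  refine ⟨?_, ?_⟩
  · rintro rfl
    apply hσ.1
    rw [eσ, sub_self]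
  · rw [eσ] at hcore
    exact hcore

end Pool.Agent.PTK
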