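import Pool.Agent.PTK.StZ

/-!
# PTK_LAE: the local form of the antisymmetry at the tame places
-/

set_option autoImplicit false

namespace Pool.Agent.PTK

open Pool.Agent.Lib_helper18 Pool.Agent.Lib_helper18.Eis Pool.Agent.Lib_helper84.Cub
open Pool.Agent.PT Pool.Agent.PTE Pool.Agent.PT3 Pool.Agent.PTL Pool.Agent.PTN

namespace LAE

theorem w_ne : (w : Eis) ≠ 0 := by
  intro h0
  have := congrArg Eis.im h0
  simp at this

theorem GfE_swap (p q p' q' : Eis) (i : ℕ) : GfE p (-p') (-q) q' i = GfE p q p' q' i := by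
  unfold GfE
  ring

/-- the swapped solution -/
theorem sol_swap {b x p q p' q' : Eis} (h : SolE b x p q p' q') : SolE x b p (-p') (-q) q' := by
  refine ⟨⟨?_, ?_⟩, ?_, ?_, ?_⟩
  · have := h.eq
    linear_combination this
  · have := h.n2
    intro h0
    apply this
    linear_combination h0
  · have := h.n1
    intro h0
    apply this
    linear_combination h0
  · rw [GfE_swap]
    exact h.g1
  · rw [GfE_swap]
    exact h.g2

/-- the tame symbols are symbols -/
theorem lsym (hSTM : STM) (hSPP : SPP) (π : PP) : LSym π.1 (tm π.1) 1 :=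
  hSTM π.1 π.2.1 (hSPP.2.2.2.1 π).1

theorem tm_swap (π a b : Eis) : tm π b a = - tm π a b := by
  unfold tm
  ring

/-- `(B, b) = 0` at the tame places -/
theorem sy_zero {B b : Eis} (h : AGE B b) (π : PP) : sy (some π) B b = 0 := by
  show tm π.1 B b = 0
  rw [tm_swap π.1 b B, h.sym π, neg_zero]

/-- `(w, x) = 0` if `x` is a local cube -/
theorem w_lc (hLCI : Stmt_LCI) {π : Eis} {s : Eis → Eis → ZMod 3} {e : ℕ} (hs : LSym π s e)
    {x : Eis} (hx : x ≠ 0) (h : LCE π x) : s w x = 0 := by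
  have h1 : s x w = 0 := hLCI.2.2 π s e x w hs h hx w_ne
  rw [hs.skew x w hx w_ne, h1, neg_zero]

/-- expansion of `(w, B x b)` -/
theorem w_mul {π : Eis} {s : Eis → Eis → ZMod 3} {e : ℕ} (hs : LSym π s e) {B x b : Eis}
    (hB : B ≠ 0) (hx : x ≠ 0) (hb : b ≠ 0) : s w (B * x * b) = s w B + s w x + s w b := by
  rw [hs.skew (B * x * b) w (mul_ne_zero (mul_ne_zero hB hx) hb) w_ne,
    hs.mul _ _ _ (mul_ne_zero hB hx) hb w_ne, hs.mul _ _ _ hB hx w_ne,
    hs.skew B w hB w_ne, hs.skew x w hx w_ne, hs.skew b w hb w_ne]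
  ring

theorem dvd_weak {π a : Eis} {M N : ℕ} (hMN : M ≤ N) (h : π ^ N ∣ a) : π ^ M ∣ a :=
  (pow_dvd_pow π hMN).trans h

theorem UVE_swap (s : Eis → Eis → ZMod 3) (B b x p q p' q' : Eis) :
    UVE s B x b p (-p') (-q) q' = UVE s B b x p q p' q' := by
  unfold UVE
  rw [GfE_swap, GfE_swap]
  have : B * b * x = B * x * b := by ring
  rw [this]

/-- the case that `b` is a local cube and `x` is not -/
theorem half (hSTM : STM) (hSPP : SPP) (hLCI : Stmt_LCI) (hAVE : Stmt_AVE) (hF2E : Stmt_F2E)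
    (π : PP) (B b x p q p' q' : Eis) (hB : BGE B) (hb : AGE B b) (hx : AGE B x)
    (hs : SolE b x p q p' q') (h1 : LCE π.1 b) (h2 : ¬ LCE π.1 x) :
    TTE π B b x p q p' q' = UVE (tm π.1) B b x p q p' q' ∧
      TTE π B x b p (-p') (-q) q' = 0 := by
  have hL := lsym hSTM hSPP π
  have hwb : tm π.1 w b = 0 := w_lc hLCI hL hb.ne h1
  obtain ⟨N0, hN⟩ := hF2E π B b x p q p' q' hB hb hx hs h1 h2
  have hA := (hAVE (some π) B b x p q p' q' hB.ne hb.ne hx.ne hs.toSolWE (sy_zero hx π) h1).2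
    _ N0 hN
  constructor
  · unfold TTE
    rw [if_pos h1, hA]
    unfold UVE
    rw [w_mul hL hB.ne hx.ne hb.ne, hwb]
    ring
  · unfold TTE
    rw [if_neg h2, hwb, neg_zero, ite_self]

/-- an admissible noncube at a place dividing `B` has valuation prime to `3` -/
theorem val_nc (hLCI : Stmt_LCI) {B b : Eis} (hB : BGE B) (hb : AGE B b) (π : PP)
    (hd : π.1 ∣ B) (h : ¬ LCE π.1 b) : ¬ 3 ∣ V π.1 b := by
  intro h3
  apply h
  rw [hLCI.1 π b hb.ne]
  refine ⟨h3, ?_⟩
  have h1 : tm π.1 b B = 0 := hb.sym π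
  have h2 : ((V π.1 b : ℕ) : ZMod 3) = 0 := by
    rw [ZMod.natCast_eq_zero_iff]
    exact h3
  unfold tm at h1
  rw [h2, zero_mul, sub_zero] at h1
  have h4 : V π.1 B ≤ 2 := hB.cf π
  have h5 : V π.1 B ≠ 0 := by
    intro h0
    exact (V_eq_zero_iff.1 h0) hd
  have h6 : ((V π.1 B : ℕ) : ZMod 3) ≠ 0 := by
    intro h0
    rw [ZMod.natCast_eq_zero_iff] at h0
    omega
  have : Fact (Nat.Prime 3) := ⟨Nat.prime_three⟩
  rcases mul_eq_zero.1 h1 with h7 | h7
  · exact absurd h7 h6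
  · exact h7

end LAE

open LAE in
theorem LAE_thm (hAVE : Stmt_AVE) (hF2E : Stmt_F2E) (hF3E : Stmt_F3E) (hF4E : Stmt_F4E)
    (hIF1 : Stmt_IF1) (hLCI : Stmt_LCI) (hSTM : STM) (hSPP : SPP) : Stmt_LAE := by
  intro π B b x p q p' q' hB hb hx hs
  have hL := lsym hSTM hSPP π
  have hs' := LAE.sol_swap hs
  by_cases h1 : LCE π.1 b
  · by_cases h2 : LCE π.1 x
    · -- both are local cubes
      obtain ⟨N0, hN⟩ := hIF1 π.1 (tm π.1) 1 hL b x p q p' q' hb.ne hx.ne hs
      obtain ⟨N1, hN1⟩ := (hAVE (some π) B b x p q p' q' hB.ne hb.ne hx.ne hs.toSolWE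
        (LAE.sy_zero hx π) h1).1
      obtain ⟨N2, hN2⟩ := (hAVE (some π) B x b p (-p') (-q) q' hB.ne hx.ne hb.ne hs'.toSolWE
        (LAE.sy_zero hb π) h2).1
      obtain ⟨r, hr⟩ := h1 (max N0 N1)
      obtain ⟨ξ, hξ⟩ := h2 (max N0 N2)
      have hwb : tm π.1 w b = 0 := LAE.w_lc hLCI hL hb.ne h1
      have hwx : tm π.1 w x = 0 := LAE.w_lc hLCI hL hx.ne h2
      have e1 := hN r ξ (LAE.dvd_weak (le_max_left _ _) hr) (LAE.dvd_weak (le_max_left _ _) hξ)
        B hB.ne
      have e2 : ASE (tm π.1) B p q p' q' r = AVE (some π) B b p q p' q' :=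
        hN1 r (LAE.dvd_weak (le_max_right _ _) hr)
      have e3 : ASE (tm π.1) B p (-p') (-q) q' ξ = AVE (some π) B x p (-p') (-q) q' :=
        hN2 ξ (LAE.dvd_weak (le_max_right _ _) hξ)
      unfold TTE
      rw [if_pos h1, if_pos h2, hwb, hwx, ← e2, ← e3]
      unfold UVE
      rw [LAE.w_mul hL hB.ne hx.ne hb.ne, hwb, hwx]
      linear_combination e1
    · obtain ⟨h3, h4⟩ := LAE.half hSTM hSPP hLCI hAVE hF2E π B b x p q p' q' hB hb hx hs h1 h2
      rw [h3, h4, add_zero]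
  · by_cases h2 : LCE π.1 x
    · obtain ⟨h3, h4⟩ := LAE.half hSTM hSPP hLCI hAVE hF2E π B x b p (-p') (-q) q' hB hx hb hs'
        h2 h1
      rw [h3, LAE.UVE_swap]
      rw [neg_neg, neg_neg] at h4
      rw [h4, zero_add]
    · -- both are not local cubes
      have hT1 : TTE π B b x p q p' q' =
          if 3 ∣ V π.1 b + V π.1 B ∧ ¬ 3 ∣ V π.1 b then - tm π.1 w x else 0 := by
        unfold TTE
        rw [if_neg h1]
      have hT2 : TTE π B x b p (-p') (-q) q' =
          if 3 ∣ V π.1 x + V π.1 B ∧ ¬ 3 ∣ V π.1 x then - tm π.1 w b else 0 := by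
        unfold TTE
        rw [if_neg h2]
      rw [hT1, hT2]
      by_cases hd : π.1 ∣ B
      · have hvb := LAE.val_nc hLCI hB hb π hd h1
        have hvx := LAE.val_nc hLCI hB hx π hd h2
        rw [hF3E π B b x p q p' q' hB hb hx hs hd hvb hvx]
        simp only [hvb, hvx, not_false_eq_true, and_true]
      · have hvb : V π.1 b = 0 := V_eq_zero (hb.unr π hd)
        have hvx : V π.1 x = 0 := V_eq_zero (hx.unr π hd)
        have hcb : ch π.1 b ≠ 0 := by
          intro h0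
          apply h1
          rw [hLCI.1 π b hb.ne]
          exact ⟨by rw [hvb]; exact dvd_zero 3, h0⟩
        have hcx : ch π.1 x ≠ 0 := by
          intro h0
          apply h2
          rw [hLCI.1 π x hx.ne]
          exact ⟨by rw [hvx]; exact dvd_zero 3, h0⟩
        rw [hF4E π B b x p q p' q' hB hb hx hs hd hcb hcx, hvb, hvx]
        simp

end Pool.Agent.PTK
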