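import Pool.Agent.PTK.StZ
import Pool.Agent.PT.LEV

/-!
# PTK_LEE: the local evaluation at the tame places
-/

set_option autoImplicit false

namespace Pool.Agent.PTK

open Pool.Agent.Lib_helper18 Pool.Agent.Lib_helper18.Eis Pool.Agent.Lib_helper84.Cub
open Pool.Agent.PT Pool.Agent.PTE

namespace LEE

/-- The relation between `B`, `x` and `n_0`. -/
theorem rel {B x X Y : Eis} (hB : B ≠ 0) (hP : PtE B x X Y) :
    X ^ 3 + x * Y ^ 3 ≠ 0 ∧ ∃ c : Eis, c ≠ 0 ∧ x * (X ^ 3 + x * Y ^ 3) = B * c ^ 3 := by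
  obtain ⟨c, hc, heq⟩ := hP.eq
  refine ⟨?_, c, hc, heq⟩
  intro h0
  rw [h0, mul_zero] at heq
  exact (mul_ne_zero hB (pow_ne_zero 3 hc)) heq.symm

/-- Linear forms at good approximations of a cube root do not vanish. -/
theorem lf_ne {π : Eis} (hπ : Prime π) {p q r b : Eis} {N : ℕ} (hn : p ^ 3 + b * q ^ 3 ≠ 0)
    (hN : V π (p ^ 3 + b * q ^ 3) < N) (hr : π ^ N ∣ r ^ 3 - b) (i : ℕ) : LfE p q i r ≠ 0 := by
  intro h0
  unfold LfE at h0
  have h1 : q * w ^ i * r = -p := by linear_combination h0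
  have h2 : (q * w ^ i * r) ^ 3 = (-p) ^ 3 := by rw [h1]
  have h3 : (w ^ i) ^ 3 = 1 := by rw [← pow_mul, mul_comm, pow_mul, w_cube, one_pow]
  have h4 : p ^ 3 + b * q ^ 3 = (-q ^ 3) * (r ^ 3 - b) := by
    linear_combination h2 - q ^ 3 * r ^ 3 * h3
  have h5 : π ^ N ∣ p ^ 3 + b * q ^ 3 := by
    rw [h4]
    exact Dvd.dvd.mul_left hr _
  have h6 := (fin hπ hn).le_multiplicity_of_pow_dvd h5
  exact absurd h6 (not_le.2 hN)

/-- A symbol of a local cube. -/
theorem lc_right {π : Eis} {s : Eis → Eis → ZMod 3} {e : ℕ} (h : LSym π s e) (hLCI : Stmt_LCI)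
    {b : Eis} (hb : b ≠ 0) (hL : LCE π b) {y : Eis} (hy : y ≠ 0) : s y b = 0 := by
  rw [h.skew b y hb hy, hLCI.2.2 π s e b y h hL hb hy, neg_zero]

/-- The swapped solution. -/
theorem swap {b x p q p' q' : Eis} (h : SolE b x p q p' q') : SolE x b p (-p') (-q) q' where
  eq := by linear_combination h.eq
  n1 := by
    intro h0
    apply h.n2
    linear_combination h0
  n2 := by
    intro h0
    apply h.n1
    linear_combination h0
  g1 := by
    intro h0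
    apply h.g1
    unfold GfE at h0 ⊢
    linear_combination h0
  g2 := by
    intro h0
    apply h.g2
    unfold GfE at h0 ⊢
    linear_combination h0

theorem nn {b x p q p' q' : Eis} (h : SolE b x p q p' q') : (-q) ^ 3 + x * q' ^ 3 ≠ 0 := by
  intro h0
  apply h.n2
  linear_combination h.eq + b * h0

theorem gf_swap (p q p' q' : Eis) (i : ℕ) : GfE p (-p') (-q) q' i = GfE p q p' q' i := by
  unfold GfE
  ring

/-- The local term of a point when `x` is a local cube. -/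
theorem SV_LC {π : Eis} {s : Eis → Eis → ZMod 3} {e : ℕ} (h : LSym π s e) (hLCI : Stmt_LCI)
    (hIF4 : Stmt_IF4) {B b x p q p' q' X Y : Eis} (hb : b ≠ 0) (hx : x ≠ 0)
    (hS : SolE b x p q p' q') (hX : X ≠ 0) (hY : Y ≠ 0) (hn : X ^ 3 + x * Y ^ 3 ≠ 0)
    (hD : DNE X Y p q p' q') (hL : LCE π x) (hrel : LEV.Rel s B x (X ^ 3 + x * Y ^ 3)) :
    ∃ N0 : ℕ, V π (X ^ 3 + x * Y ^ 3) < N0 ∧
      ∀ ξ : Eis, π ^ N0 ∣ ξ ^ 3 - x → (∀ i, LfE X Y i ξ ≠ 0) ∧
        SVE s x p q p' q' X Y = ASE s B p (-p') (-q) q' ξ +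
          s (LfE X Y 1 ξ) b - s (LfE X Y 2 ξ) b := by
  obtain ⟨N1, h1⟩ := hIF4 π s e h b x p q p' q' X Y hb hx hS hX hY hn hD
  have hn' : p ^ 3 + x * (-p') ^ 3 ≠ 0 := (swap hS).n1
  have hn'' := nn hS
  set N0 := N1 + V π (X ^ 3 + x * Y ^ 3) + V π (p ^ 3 + x * (-p') ^ 3) +
    V π ((-q) ^ 3 + x * q' ^ 3) + 1 with hN0
  refine ⟨N0, by omega, fun ξ hξ => ?_⟩
  have hF := lf_ne h.prime hn (N := N0) (by omega) hξ
  have hG := lf_ne h.prime hn' (N := N0) (by omega) hξ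
  have hG' := lf_ne h.prime hn'' (N := N0) (by omega) hξ
  refine ⟨hF, ?_⟩
  rw [h1 ξ ((pow_dvd_pow π (by omega)).trans hξ)]
  have key : ∀ y : Eis, y ≠ 0 → s B y = s (X ^ 3 + x * Y ^ 3) y := by
    intro y hy
    rw [hrel y hy, hLCI.2.2 π s e x y h hL hx hy, zero_add]
  unfold ASE
  rw [key _ (hG 2), key _ (hG' 1), key _ (hG 1), key _ (hG' 2)]

/-- The case of a functional proportional to the one of `B`. -/
theorem prop_case {π : Eis} {s : Eis → Eis → ZMod 3} {e : ℕ} (h : LSym π s e)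
    (hLCI : Stmt_LCI) (hIF4B : Stmt_IF4B) {B b x X Y : Eis} (hb : b ≠ 0) (hx : x ≠ 0)
    (hX : X ≠ 0) (hY : Y ≠ 0) (hn : X ^ 3 + x * Y ^ 3 ≠ 0) (hL : LCE π x)
    (hrel : LEV.Rel s B x (X ^ 3 + x * Y ^ 3)) (j : ZMod 3)
    (hj : ∀ y : Eis, y ≠ 0 → s b y = j * s B y) :
    ∃ N0 : ℕ, ∀ ξ : Eis, π ^ N0 ∣ ξ ^ 3 - x → (∀ i, LfE X Y i ξ ≠ 0) →
      s (LfE X Y 1 ξ) b - s (LfE X Y 2 ξ) b = s w b := by
  obtain ⟨N1, h1⟩ := hIF4B π s e h x X Y hx hX hY hn
  refine ⟨N1, fun ξ hξ hF => ?_⟩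
  have h2 := h1 ξ hξ
  have key : ∀ y : Eis, y ≠ 0 → s y b = j * s y (X ^ 3 + x * Y ^ 3) := by
    intro y hy
    rw [h.skew b y hb hy, hj y hy, hrel y hy,
      hLCI.2.2 π s e x y h hL hx hy, h.skew y _ hy hn]
    ring
  rw [key _ (hF 1), key _ (hF 2), key _ LEV.w_ne]
  linear_combination j * h2

theorem tame_prop {π : Eis} {b B : Eis} (hB : ¬ (3 ∣ V π B ∧ ch π B = 0))
    (h0 : tm π b B = 0) : ∃ j : ZMod 3, ∀ y : Eis, y ≠ 0 → tm π b y = j * tm π B y := by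
  unfold tm at h0
  obtain ⟨j, h1, h2⟩ := LEV.alg3 (V π B : ZMod 3) (ch π B) (V π b : ZMod 3)
    (ch π b) (by rwa [LEV.cast3]) h0
  refine ⟨j, fun y _ => ?_⟩
  unfold tm
  rw [h1, h2]
  ring

/-- A class that is not a local cube and whose symbol with `B` vanishes has valuation prime to
`3` at a prime dividing `B`. -/
theorem nd {π : PP} {B t : Eis} (h1 : V π.1 B ≠ 0) (h2 : V π.1 B ≤ 2) (ht : tm π.1 t B = 0)
    (hL : ¬ (3 ∣ V π.1 t ∧ ch π.1 t = 0)) : ¬ 3 ∣ V π.1 t := by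
  intro h3
  apply hL
  refine ⟨h3, ?_⟩
  unfold tm at ht
  rw [LEV.cast3.2 h3, zero_mul, sub_zero] at ht
  have h9 : (V π.1 B : ZMod 3) ≠ 0 := by
    rw [Ne, LEV.cast3]
    omega
  have : ∀ u y : ZMod 3, u ≠ 0 → u * y = 0 → y = 0 := by decide
  exact this _ _ h9 ht

end LEE

/-- PTK_LEE: the local evaluation at the tame places. -/
theorem LEE_thm (hAVE : Stmt_AVE) (hF2E : Stmt_F2E) (hF3E : Stmt_F3E) (hF4E : Stmt_F4E)
    (hSTM : STM) (hSPP : SPP) (hLCI : Stmt_LCI) (hIF1 : Stmt_IF1) (hIF4 : Stmt_IF4)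
    (hIF4B : Stmt_IF4B) (hF6R : Stmt_F6R) (hF7U : Stmt_F7U) (hLFV : Stmt_LFV) : Stmt_LEE := by
  intro π B b x p q p' q' X Y hB hb hx hS hP hD
  have hs : LSym π.1 (tm π.1) 1 := hSTM π.1 π.2.1 (hSPP.2.2.2.1 π).1
  have hB0 := hB.ne
  have hb0 := hb.ne
  have hx0 := hx.ne
  obtain ⟨hn, c, hc, heq⟩ := LEE.rel hB0 hP
  have hrel : LEV.Rel (tm π.1) B x (X ^ 3 + x * Y ^ 3) := LEV.rel_sym hs hB0 hx0 hn hc heq
  have hsBx : tm π.1 B x = 0 := by
    have h1 := hx.sym π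
    have h2 := hs.skew x B hx0 hB0
    rw [h2, h1, neg_zero]
  have hwprod : tm π.1 w (B * x * b) = tm π.1 w B + tm π.1 w x + tm π.1 w b := by
    rw [LEV.mul_right hs (mul_ne_zero hB0 hx0) hb0 LEV.w_ne, LEV.mul_right hs hB0 hx0 LEV.w_ne]
  by_cases hLb : LCE π.1 b
  · have hTT : TTE π B b x p q p' q' = AVE (some π) B b p q p' q' + tm π.1 w x := by
      unfold TTE
      exact if_pos hLb
    have hA := hAVE (some π) B b x p q p' q' hB0 hb0 hx0 hS.toSolWE hsBx hLb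
    by_cases hLx : LCE π.1 x
    · -- both cubes
      obtain ⟨N1, h1⟩ := hA.1
      obtain ⟨N2, h2⟩ := hIF1 π.1 (tm π.1) 1 hs b x p q p' q' hb0 hx0 hS
      obtain ⟨N3, _, h3⟩ := LEE.SV_LC hs hLCI hIF4 hb0 hx0 hS hP.hX hP.hY hn hD hLx hrel
      obtain ⟨r, hr⟩ := hLb (N1 + N2)
      obtain ⟨ξ, hξ⟩ := hLx (N2 + N3)
      have a1 : ASE (tm π.1) B p q p' q' r = AVE (some π) B b p q p' q' :=
        h1 r ((pow_dvd_pow π.1 (by omega)).trans hr)
      have a2 := h2 r ξ ((pow_dvd_pow _ (by omega)).trans hr)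
        ((pow_dvd_pow _ (by omega)).trans hξ) B hB0
      obtain ⟨hF, a3⟩ := h3 ξ ((pow_dvd_pow _ (by omega)).trans hξ)
      rw [LEE.lc_right hs hLCI hb0 hLb (hF 1), LEE.lc_right hs hLCI hb0 hLb (hF 2)] at a3
      have a4 := LEE.lc_right hs hLCI hb0 hLb LEV.w_ne
      have a5 := LEE.lc_right hs hLCI hx0 hLx LEV.w_ne
      rw [hTT]
      unfold UVE
      rw [hwprod, a3, a4, a5, ← a1]
      linear_combination a2
    · -- `b` is a cube, `x` is not
      obtain ⟨N1, h1⟩ := hF2E π B b x p q p' q' hB hb hx hS hLb hLx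
      have a1 := hA.2 _ N1 h1
      have a4 := LEE.lc_right hs hLCI hb0 hLb LEV.w_ne
      have a2 : SVE (tm π.1) x p q p' q' X Y = 0 := by
        by_cases hVx : 3 ∣ V π.1 x
        · refine hF7U π b x p q p' q' X Y hb0 hx0 hS hP.hX hP.hY hD hVx fun h => hLx ?_
          exact (hLCI.1 π x hx0).2 ⟨hVx, h⟩
        · have h6 := hF6R π b x p q p' q' X Y hb0 hx0 hS hP.hX hP.hY hD hVx
          by_cases hVn : 3 ∣ V π.1 (X ^ 3 + x * Y ^ 3)
          · exact h6.1 hVn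
          · rw [h6.2 hVn, a4, neg_zero]
      rw [hTT, a1, a2]
      unfold UVE
      rw [hwprod, a4]
      ring
  · have hTT : TTE π B b x p q p' q' =
        if 3 ∣ V π.1 b + V π.1 B ∧ ¬ 3 ∣ V π.1 b then - tm π.1 w x else 0 := by
      unfold TTE
      exact if_neg hLb
    by_cases hLx : LCE π.1 x
    · -- `x` is a cube, `b` is not
      have a5 := LEE.lc_right hs hLCI hx0 hLx LEV.w_ne
      have hTT0 : TTE π B b x p q p' q' = 0 := by
        rw [hTT]
        split_ifs with hcond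
        · rw [a5, neg_zero]
        · rfl
      obtain ⟨N1, h1⟩ := hF2E π B x b p (-p') (-q) q' hB hx hb (LEE.swap hS) hLx hLb
      obtain ⟨N3, hN3, h3⟩ := LEE.SV_LC hs hLCI hIF4 hb0 hx0 hS hP.hX hP.hY hn hD hLx hrel
      have hmain : ∃ N4 : ℕ, ∀ ξ : Eis, π.1 ^ N4 ∣ ξ ^ 3 - x →
          (∀ i, LfE X Y i ξ ≠ 0) →
          tm π.1 (LfE X Y 1 ξ) b - tm π.1 (LfE X Y 2 ξ) b = tm π.1 w b := by
        by_cases hLB : LCE π.1 B
        · have hB' := (hLCI.1 π B hB0).1 hLB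
          have hVB : V π.1 B = 0 := by
            have := hB.cf π
            omega
          have hπB : ¬ π.1 ∣ B := V_eq_zero_iff.1 hVB
          have hπb := hb.unr π hπB
          have hπx := hx.unr π hπB
          have hVb : V π.1 b = 0 := V_eq_zero hπb
          have hVw : V π.1 w = 0 := V_eq_zero (not_dvd_w π.2.1)
          have hVn : 3 ∣ V π.1 (X ^ 3 + x * Y ^ 3) := by
            have h7 := congrArg (V π.1) heq
            rw [V_mul π.2.1 hx0 hn, V_mul π.2.1 hB0 (pow_ne_zero 3 hc),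
              V_pow π.2.1 hc, hVB, V_eq_zero hπx] at h7
            omega
          obtain ⟨N5, h5⟩ := hLFV π x X Y hx0 hP.hX hP.hY hn
            (by rw [V_eq_zero hπx]; exact dvd_zero _) hVn
          refine ⟨N5, fun ξ hξ hF => ?_⟩
          have h8 := h5 ξ hξ
          unfold tm
          rw [hVb, hVw, h8]
          push_cast
          ring
        · obtain ⟨j, hj⟩ := LEE.tame_prop (π := π.1) (b := b) (B := B)
            (fun h => hLB ((hLCI.1 π B hB0).2 h)) (hb.sym π)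
          exact LEE.prop_case hs hLCI hIF4B hb0 hx0 hP.hX hP.hY hn hLx hrel j hj
      obtain ⟨N4, h4⟩ := hmain
      obtain ⟨ξ, hξ⟩ := hLx (N1 + N3 + N4)
      obtain ⟨hF, a3⟩ := h3 ξ ((pow_dvd_pow _ (by omega)).trans hξ)
      have a1 := h1 ξ ((pow_dvd_pow _ (by omega)).trans hξ)
      have a6 := h4 ξ ((pow_dvd_pow _ (by omega)).trans hξ) hF
      rw [LEE.gf_swap, LEE.gf_swap] at a1
      rw [hTT0, a3]
      unfold UVE
      rw [hwprod, a5]
      linear_combination a1 + a6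
    · -- no cubes
      have hLb' : ¬ (3 ∣ V π.1 b ∧ ch π.1 b = 0) :=
        fun h => hLb ((hLCI.1 π b hb0).2 h)
      have hLx' : ¬ (3 ∣ V π.1 x ∧ ch π.1 x = 0) :=
        fun h => hLx ((hLCI.1 π x hx0).2 h)
      rw [hTT]
      by_cases hπB : π.1 ∣ B
      · have hVB1 : V π.1 B ≠ 0 := fun h => (V_eq_zero_iff.1 h) hπB
        have hVB2 := hB.cf π
        have hVb := LEE.nd hVB1 hVB2 (hb.sym π) hLb'
        have hVx := LEE.nd hVB1 hVB2 (hx.sym π) hLx'
        rw [hF3E π B b x p q p' q' hB hb hx hS hπB hVb hVx]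
        have h6 := hF6R π b x p q p' q' X Y hb0 hx0 hS hP.hX hP.hY hD hVx
        have h7 := congrArg (V π.1) heq
        rw [V_mul π.2.1 hx0 hn, V_mul π.2.1 hB0 (pow_ne_zero 3 hc),
          V_pow π.2.1 hc] at h7
        have hSV : SVE (tm π.1) x p q p' q' X Y =
            if 3 ∣ V π.1 x + V π.1 B then - tm π.1 w b else 0 := by
          split_ifs with hcond
          · exact h6.2 (by omega)
          · refine h6.1 ?_
            have c1 : V π.1 x % 3 = 1 ∨ V π.1 x % 3 = 2 := by omega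
            have c2 : V π.1 B = 1 ∨ V π.1 B = 2 := by omega
            rcases c1 with c1 | c1 <;> rcases c2 with c2 | c2 <;> omega
        rw [hSV]
        by_cases hcond : 3 ∣ V π.1 b + V π.1 B
        · rw [if_pos ⟨hcond, hVb⟩, if_pos hcond]
          ring
        · rw [if_neg (fun h => hcond h.1), if_neg hcond]
          ring
      · have hπb := hb.unr π hπB
        have hπx := hx.unr π hπB
        have hVb : V π.1 b = 0 := V_eq_zero hπb
        have hVx : V π.1 x = 0 := V_eq_zero hπx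
        have hcb : ch π.1 b ≠ 0 := fun h => hLb' ⟨by rw [hVb]; exact dvd_zero _, h⟩
        have hcx : ch π.1 x ≠ 0 := fun h => hLx' ⟨by rw [hVx]; exact dvd_zero _, h⟩
        rw [hF4E π B b x p q p' q' hB hb hx hS hπB hcb hcx,
          hF7U π b x p q p' q' X Y hb0 hx0 hS hP.hX hP.hY hD (by rw [hVx]; exact dvd_zero _) hcx,
          if_neg (fun h => h.2 (by rw [hVb]; exact dvd_zero _))]
        ring

end Pool.Agent.PTK
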