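import Pool.Agent.PTK.StZ
import Pool.Agent.PT.LFIN

/-!
# PTK_LFE: finiteness of the supports, minus part
-/

set_option autoImplicit false

open NumberField IsDedekindDomain Finset
open scoped nonZeroDivisors Pointwise

namespace Pool.Agent.PTK

open Pool.Agent.Lib_helper18 Pool.Agent.Lib_helper18.Eis Pool.Agent.Lib_helper84.Cub
open Pool.Agent.PT Pool.Agent.PTE Pool.Agent.PT3 Pool.Agent.PTL Pool.Agent.PTN

namespace LFE

/-- Finite support and total sum zero. -/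
def FP (c : ZMod 3) (f : PP → ZMod 3) : Prop :=
  (Function.support f).Finite ∧ c + ∑ᶠ π : PP, f π = 0

lemma FP.add {c d : ZMod 3} {f g : PP → ZMod 3} (hf : FP c f) (hg : FP d g) :
    FP (c + d) (fun v => f v + g v) := by
  refine ⟨(hf.1.union hg.1).subset (Function.support_add f g), ?_⟩
  rw [finsum_add_distrib hf.1 hg.1]
  have h1 := hf.2
  have h2 := hg.2
  linear_combination h1 + h2

lemma FP.sub {c d : ZMod 3} {f g : PP → ZMod 3} (hf : FP c f) (hg : FP d g) :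
    FP (c - d) (fun v => f v - g v) := by
  refine ⟨(hf.1.union hg.1).subset (Function.support_sub f g), ?_⟩
  rw [finsum_sub_distrib hf.1 hg.1]
  have h1 := hf.2
  have h2 := hg.2
  linear_combination h1 - h2

lemma FP.sym (hSSL : SSL) {a b : Eis} (ha : a ≠ 0) (hb : b ≠ 0) :
    FP (sl a b) (fun π : PP => tm π.1 a b) := by
  refine ⟨?_, neg_add_cancel _⟩
  have h1 := (hSSL.2.2.2 a b ha hb).1
  refine (h1.preimage (Option.some_injective PP).injOn).subset ?_
  intro π hπ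
  exact hπ

/-- The linear forms at good approximations are prime to `π`. -/
lemma LfE_not_dvd {π b p q r : Eis} (hr : π ∣ r ^ 3 - b) (h : ¬ π ∣ p ^ 3 + b * q ^ 3) (i : ℕ) :
    ¬ π ∣ LfE p q i r := by
  intro hd
  apply h
  have h1 : p ^ 3 + b * q ^ 3 =
      LfE p q i r * (p ^ 2 - p * (q * w ^ i * r) + (q * w ^ i * r) ^ 2) -
        q ^ 3 * (r ^ 3 - b) := by
    have h2 : (w ^ i) ^ 3 = 1 := by rw [← pow_mul, mul_comm, pow_mul, w_cube, one_pow]
    unfold LfE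
    linear_combination (-(q ^ 3 * r ^ 3)) * h2
  rw [h1]
  exact dvd_sub (dvd_mul_of_dvd_left hd _) (dvd_mul_of_dvd_right hr _)

end LFE

open LFE Pool.Agent.PT.LFIN in
/-- PTK_LFE. -/
theorem LFE_thm (hAVE : Stmt_AVE) (hSTM : STM) (hSPP : SPP) (hSSL : SSL) : Stmt_LFE := by
  refine ⟨?_, ?_⟩
  · intro B b x p q p' q' hB hb hx hs
    have hn2 : p' ^ 3 + b * q' ^ 3 ≠ 0 := by
      intro h
      apply hs.n1
      rw [hs.eq, h, mul_zero]
    set M : Eis := B * b * x * (p ^ 3 + b * q ^ 3) * (p' ^ 3 + b * q' ^ 3) with hMdef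
    have hM : M ≠ 0 := mul_ne_zero (mul_ne_zero (mul_ne_zero (mul_ne_zero hB.ne hb.ne) hx.ne)
      hs.n1) hn2
    refine (hSPP.2.2.1 M hM).subset ?_
    intro π hπ
    by_contra hnd
    apply hπ
    have hd : ∀ n : Eis, n ∣ M → ¬ π.1 ∣ n := fun n hn h1 => hnd (h1.trans hn)
    have hnB := hd B ⟨b * x * (p ^ 3 + b * q ^ 3) * (p' ^ 3 + b * q' ^ 3), by rw [hMdef]; ring⟩
    have hnb := hd b ⟨B * x * (p ^ 3 + b * q ^ 3) * (p' ^ 3 + b * q' ^ 3), by rw [hMdef]; ring⟩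
    have hnx := hd x ⟨B * b * (p ^ 3 + b * q ^ 3) * (p' ^ 3 + b * q' ^ 3), by rw [hMdef]; ring⟩
    have hn1 := hd (p ^ 3 + b * q ^ 3) ⟨B * b * x * (p' ^ 3 + b * q' ^ 3), by rw [hMdef]; ring⟩
    have hn2 := hd (p' ^ 3 + b * q' ^ 3) ⟨B * b * x * (p ^ 3 + b * q ^ 3), by rw [hMdef]; ring⟩
    have hnw : ¬ π.1 ∣ w := fun h1 => π.2.1.not_isUnit (isUnit_of_dvd_unit h1 w_unit)
    show TTE π B b x p q p' q' = 0
    by_cases hLC : LCE π.1 b
    · have hTT : TTE π B b x p q p' q' = AVE (some π) B b p q p' q' + tm π.1 w x := by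
        unfold TTE
        rw [if_pos hLC]
      rw [hTT]
      have hw : tm π.1 w x = 0 := tm_zero hnw hnx
      have hsym : sy (some π) B x = 0 := by
        have h1 := (hSTM π.1 π.2.1 (hSPP.2.2.2.1 π).1).skew x B hx.ne hB.ne
        show tm π.1 B x = 0
        rw [h1, hx.sym π, neg_zero]
      obtain ⟨N0, hN0⟩ := (hAVE (some π) B b x p q p' q' hB.ne hb.ne hx.ne hs hsym hLC).1
      obtain ⟨r, hr⟩ := hLC (max N0 1)
      have hr0 : uni (some π) ^ N0 ∣ r ^ 3 - b :=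
        (pow_dvd_pow _ (le_max_left _ _)).trans hr
      have hr1 : π.1 ∣ r ^ 3 - b := by
        have h1 : π.1 ^ 1 ∣ r ^ 3 - b := (pow_dvd_pow π.1 (le_max_right N0 1)).trans hr
        rwa [pow_one] at h1
      rw [hw, ← hN0 r hr0]
      show tm π.1 B (LfE p q 2 r) + tm π.1 B (LfE p' q' 1 r) -
        tm π.1 B (LfE p q 1 r) - tm π.1 B (LfE p' q' 2 r) + 0 = 0
      rw [tm_zero hnB (LfE_not_dvd hr1 hn1 2), tm_zero hnB (LfE_not_dvd hr1 hn2 1),
        tm_zero hnB (LfE_not_dvd hr1 hn1 1), tm_zero hnB (LfE_not_dvd hr1 hn2 2)]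
      simp
    · unfold TTE
      rw [if_neg hLC, if_neg]
      rintro ⟨-, h1⟩
      apply h1
      rw [V_eq_zero hnb]
      exact dvd_zero 3
  · intro B b x p q p' q' hB hb hx hs
    have hBxb : B * x * b ≠ 0 := mul_ne_zero (mul_ne_zero hB hx) hb
    exact ((FP.sym hSSL hB hs.g1).sub (FP.sym hSSL hB hs.g2)).add (FP.sym hSSL w_ne hBxb)

end Pool.Agent.PTK
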