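import Pool.Agent.PTK.StZ
import Pool.Agent.PT3.LCL
import Pool.Agent.PT.SLE

/-!
# PTK_LKN: the class of `9 (s - y₀)(x₀ + y₀)(x₀² - x₀ y₀ + y₀²)²` at `3`
-/

set_option autoImplicit false

namespace Pool.Agent.PTK

open Pool.Agent.Lib_helper18 Pool.Agent.Lib_helper18.Eis Pool.Agent.Lib_helper84.Cub
open Pool.Agent.PT Pool.Agent.PTE Pool.Agent.PT3

namespace LKN

theorem three0 : (3 : ZMod 3) = 0 := by decide

theorem ne_zero_of {b : ℤ} (hb : ¬ (3 : ℤ) ∣ b) : b ≠ 0 := by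
  rintro rfl
  exact hb (dvd_zero _)

theorem unit {b : ℤ} (hb : ¬ (3 : ℤ) ∣ b) : lv b = 0 ∧ lw b = wt (b ^ 2) := by
  have h := PT3.LCL.spec (b := b) (k := 0) (c := b) (by ring) hb
  simpa using h

theorem mul {a b : ℤ} (ha : a ≠ 0) (hb : b ≠ 0) :
    lv (a * b) = lv a + lv b ∧ lw (a * b) = lw a + lw b := PT3.LCL.mul_spec ha hb

theorem lw_add {x : ℤ} (j : ℤ) (hx : ¬ (3 : ℤ) ∣ x) :
    lv (x + 3 * j) = 0 ∧ lw (x + 3 * j) = lw x + 2 * (x : ZMod 3) * (j : ZMod 3) := by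
  have h1 : ¬ (3 : ℤ) ∣ x + 3 * j := by omega
  obtain ⟨a, b⟩ := unit h1
  refine ⟨a, ?_⟩
  rw [b, (unit hx).2]
  obtain ⟨k, hk⟩ : ∃ k, x ^ 2 = 1 + 3 * k := ⟨x ^ 2 / 3, by
    have := sq_mod_three hx
    omega⟩
  rw [wt_eq hk, wt_eq (k := k + 2 * x * j + 3 * j ^ 2) (by linear_combination hk)]
  push_cast
  rw [three0]
  ring

theorem lw_neg {x : ℤ} (hx : ¬ (3 : ℤ) ∣ x) : lv (-x) = 0 ∧ lw (-x) = lw x := by
  have h1 : ¬ (3 : ℤ) ∣ -x := by omega
  obtain ⟨a, b⟩ := unit h1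
  refine ⟨a, ?_⟩
  rw [b, (unit hx).2, neg_sq]

theorem cont {b : ℤ} (hb : b ≠ 0) : ∃ N : ℕ, ∀ c : ℤ, (3 : ℤ) ^ N ∣ c - b →
    c ≠ 0 ∧ lv c = lv b ∧ lw c = lw b := by
  obtain ⟨k, u, hu, hu3⟩ := PT3.LCL.split hb
  refine ⟨k + 2, fun c hc => ?_⟩
  obtain ⟨d, hd⟩ := hc
  have h1 : c = 3 ^ k * (u + 3 * (3 * d)) := by
    have h0 : c = b + 3 ^ (k + 2) * d := by linear_combination hd
    rw [h0, hu]
    ring
  have h2 : ¬ (3 : ℤ) ∣ u + 3 * (3 * d) := by omega
  obtain ⟨a1, a2⟩ := PT3.LCL.spec h1 h2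
  obtain ⟨b1, b2⟩ := PT3.LCL.spec hu hu3
  refine ⟨?_, by rw [a1, b1], ?_⟩
  · rw [h1]
    exact mul_ne_zero (pow_ne_zero _ (by norm_num)) (ne_zero_of h2)
  · rw [a2, b2, ← (unit h2).2, (lw_add _ hu3).2, (unit hu3).2]
    push_cast
    rw [three0]
    ring

theorem l_three : lv 3 = 1 ∧ lw 3 = 0 := by
  have h := PT3.LCL.spec (b := 3) (k := 1) (c := 1) (by ring) (by norm_num)
  refine ⟨by simpa using h.1, ?_⟩
  rw [h.2, one_pow]
  exact wt_one

theorem l_nine : lv 9 = 2 ∧ lw 9 = 0 := by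
  have h := PT3.LCL.spec (b := 9) (k := 2) (c := 1) (by ring) (by norm_num)
  refine ⟨by simpa using h.1, ?_⟩
  rw [h.2, one_pow]
  exact wt_one

/-- the class of the number -/
theorem num {a b c : ℤ} (ha : a ≠ 0) (hb : b ≠ 0) (hc : c ≠ 0) :
    lv (9 * a * b * c ^ 2) = 2 + lv a + lv b + 2 * lv c ∧
      lw (9 * a * b * c ^ 2) = lw a + lw b + 2 * lw c := by
  obtain ⟨e1, e2⟩ := mul (a := 9) (by norm_num) ha
  have h9a : 9 * a ≠ 0 := mul_ne_zero (by norm_num) ha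
  obtain ⟨e3, e4⟩ := mul h9a hb
  obtain ⟨e5, e6⟩ := mul hc hc
  obtain ⟨e7, e8⟩ := mul (mul_ne_zero h9a hb) (mul_ne_zero hc hc)
  rw [pow_two, e7, e8, e3, e4, e1, e2, e5, e6, l_nine.1, l_nine.2]
  constructor <;> ring

theorem wt16 : wt (4 ^ 2) = 2 := by
  unfold wt
  norm_num
  decide

section
variable (hSLE : SLE)
include hSLE

theorem s1 {g h : ℤ} (hg : ¬ (3 : ℤ) ∣ g) (hh : (3 : ℤ) ∣ h) :
    sl ((g : Eis) + h * w) 4 = 0 ∧ sl ((g : Eis) + h * w) 3 = ((g * (h / 3) : ℤ) : ZMod 3) := by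
  have h4 := (hSLE g h 4 0 (by norm_num)).1 hg hh
  have h3 := (hSLE g h 1 1 (by norm_num)).1 hg hh
  constructor
  · simpa using h4
  · simpa using h3

theorem s2 {g h : ℤ} (hg : (3 : ℤ) ∣ g) (hh : ¬ (3 : ℤ) ∣ h) :
    sl ((g : Eis) + h * w) 4 = 1 ∧ sl ((g : Eis) + h * w) 3 = - ((h * (g / 3) : ℤ) : ZMod 3) := by
  have h4 := (hSLE g h 4 0 (by norm_num)).2.1 hg hh
  have h3 := (hSLE g h 1 1 (by norm_num)).2.1 hg hh
  constructor
  · rw [wt16] at h4
    have e : ((3 ^ 0 * 4 : ℤ) : Eis) = 4 := by norm_num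
    rw [e] at h4
    rw [h4]
    simp
    decide
  · have e : ((3 ^ 1 * 1 : ℤ) : Eis) = 3 := by norm_num
    rw [e, one_pow, wt_one] at h3
    rw [h3]
    simp

theorem s3 {g h : ℤ} (hh : ¬ (3 : ℤ) ∣ h) (hg : (3 : ℤ) ∣ g - h) :
    sl ((g : Eis) + h * w) 4 = 2 ∧
      sl ((g : Eis) + h * w) 3 = - ((h * ((g - h) / 3) : ℤ) : ZMod 3) := by
  have h4 := (hSLE g h 4 0 (by norm_num)).2.2 hh hg
  have h3 := (hSLE g h 1 1 (by norm_num)).2.2 hh hg
  constructor
  · rw [wt16] at h4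
    have e : ((3 ^ 0 * 4 : ℤ) : Eis) = 4 := by norm_num
    rw [e] at h4
    rw [h4]
    simp
  · have e : ((3 ^ 1 * 1 : ℤ) : Eis) = 3 := by norm_num
    rw [e, one_pow, wt_one] at h3
    rw [h3]
    simp

end

theorem zeta (x y : ℤ) : w ^ 2 * (((x : Eis) + w * y) * ((x : Eis) + w ^ 2 * y) ^ 2) =
    ((-((x ^ 2 - x * y + y ^ 2) * x) : ℤ) : Eis) + (((x ^ 2 - x * y + y ^ 2) * (y - x) : ℤ) : Eis) * w := by
  rw [w_sq, pow_two (((x : Eis) + (-1 - w) * y))]
  ext
  · simp only [mul_re, mul_im, add_re, add_im, sub_re, sub_im, neg_re, neg_im, one_re, one_im,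
      w_re, w_im, intCast_re, intCast_im]
    ring
  · simp only [mul_re, mul_im, add_re, add_im, sub_re, sub_im, neg_re, neg_im, one_re, one_im,
      w_re, w_im, intCast_re, intCast_im]
    ring

theorem lam_eq : lam = 1 - w := by decide

theorem zetaC (x a : ℤ) : w ^ 2 * (((x : Eis) + w * ((9 * a - x : ℤ) : Eis)) *
      ((x : Eis) + w ^ 2 * ((9 * a - x : ℤ) : Eis)) ^ 2) =
    lam ^ 3 * (((x ^ 3 - 15 * a * x ^ 2 + 81 * a ^ 2 * x - 162 * a ^ 3 : ℤ) : Eis) +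
      ((3 * (-(a * x ^ 2) + 9 * a ^ 2 * x - 27 * a ^ 3) : ℤ) : Eis) * w) := by
  have e3 : ∀ z : Eis, z ^ 3 = z * z * z := fun z => by ring
  rw [w_sq, lam_eq, pow_two ((x : Eis) + (-1 - w) * ((9 * a - x : ℤ) : Eis)), e3 (1 - w)]
  ext
  · simp only [mul_re, mul_im, add_re, add_im, sub_re, sub_im, neg_re, neg_im, one_re, one_im,
      w_re, w_im, intCast_re, intCast_im]
    ring
  · simp only [mul_re, mul_im, add_re, add_im, sub_re, sub_im, neg_re, neg_im, one_re, one_im,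
      w_re, w_im, intCast_re, intCast_im]
    ring

theorem sq_one {x : ℤ} (hx : ¬ (3 : ℤ) ∣ x) : (x : ZMod 3) ^ 2 = 1 := by
  have h : (x : ZMod 3) ≠ 0 := by
    rw [Ne, ZMod.intCast_zmod_eq_zero_iff_dvd]
    exact hx
  revert h
  generalize (x : ZMod 3) = X
  revert X
  decide

/-- cube roots of units modulo `27` -/
theorem root {x s : ℤ} (hx : ¬ (3 : ℤ) ∣ x) (h : (27 : ℤ) ∣ s ^ 3 - x ^ 3) :
    ∃ e : ℤ, s = x + 9 * e := by
  have h1 : (3 : ℤ) ∣ s - x := by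
    have h2 : ((s ^ 3 - x ^ 3 : ℤ) : ZMod 3) = 0 :=
      (ZMod.intCast_zmod_eq_zero_iff_dvd _ 3).2 ((by norm_num : (3 : ℤ) ∣ 27).trans h)
    have h3 : ((s - x : ℤ) : ZMod 3) = 0 := by
      push_cast at h2 ⊢
      revert h2
      generalize (s : ZMod 3) = S
      generalize (x : ZMod 3) = X
      revert S X
      decide
    exact (ZMod.intCast_zmod_eq_zero_iff_dvd _ 3).1 h3
  obtain ⟨e, he⟩ := h1
  obtain ⟨f, hf⟩ := h
  have h4 : s = x + 3 * e := by linear_combination he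
  have h5 : (3 : ℤ) ∣ x ^ 2 * e := by
    refine ⟨f - x * e ^ 2 - e ^ 3, ?_⟩
    rw [h4] at hf
    have h6 : 9 * (x ^ 2 * e) = 9 * (3 * (f - x * e ^ 2 - e ^ 3)) := by linear_combination hf
    exact mul_left_cancel₀ (by norm_num) h6
  have h6 : (3 : ℤ) ∣ e := by
    rcases Int.prime_three.dvd_or_dvd h5 with h7 | h7
    · exact absurd (Int.prime_three.dvd_of_dvd_pow h7) hx
    · exact h7
  obtain ⟨e', he'⟩ := h6
  exact ⟨e', by rw [h4, he']; ring⟩

end LKN

open LKN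

theorem LKN_thm (hSSL : SSL) (hSREC : SREC) : Stmt_LKN := by
  have hSLE : SLE := SLE_thm hSSL hSREC
  intro x y hco hx0 hy0 hxy0 hB1 hB2
  obtain ⟨N, hN⟩ := cont (pow_ne_zero 3 hx0)
  refine ⟨N + 4, fun s hs hsy => ?_⟩
  have hsy' : s - y ≠ 0 := sub_ne_zero.2 hsy
  have hs81 : (81 : ℤ) ∣ s ^ 3 - (x ^ 3 + y ^ 3) := by
    have h1 : (81 : ℤ) = 3 ^ 4 := by norm_num
    rw [h1]
    exact (pow_dvd_pow 3 (by omega)).trans hs
  have hsN : (3 : ℤ) ^ N ∣ s ^ 3 - (x ^ 3 + y ^ 3) := (pow_dvd_pow 3 (by omega)).trans hs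
  have hcube : ∀ a : ZMod 3, 3 * a = 0 := fun a => by rw [three0, zero_mul]
  by_cases hy3 : (3 : ℤ) ∣ y
  · -- case A
    obtain ⟨t, rfl⟩ := hy3
    have hx3 : ¬ (3 : ℤ) ∣ x := by
      intro h
      have h1 := hco.isUnit_of_dvd' h (dvd_mul_right 3 t)
      revert h1
      decide
    obtain ⟨e, rfl⟩ : ∃ e : ℤ, s = x + 9 * e := by
      apply root hx3
      have h1 : s ^ 3 - x ^ 3 = (s ^ 3 - (x ^ 3 + (3 * t) ^ 3)) + 27 * t ^ 3 := by ring
      rw [h1]
      exact dvd_add ((by norm_num : (27 : ℤ) ∣ 81).trans hs81) (dvd_mul_right _ _)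
    set n : ℤ := x ^ 2 - x * (3 * t) + (3 * t) ^ 2 with hn
    have hxx : ¬ (3 : ℤ) ∣ x * x := PT3.LCL.not_dvd_mul hx3 hx3
    have hn' : n = x * x + 3 * (-(x * t) + 3 * t ^ 2) := by
      rw [hn]
      ring
    have hn3 : ¬ (3 : ℤ) ∣ n := by
      rw [hn']
      omega
    obtain ⟨a1, a2⟩ := num hsy' hxy0 (ne_zero_of hn3)
    obtain ⟨b1, b2⟩ := lw_add (3 * e - t) hx3
    obtain ⟨c1, c2⟩ := lw_add t hx3
    obtain ⟨d1, d2⟩ := lw_add (-(x * t) + 3 * t ^ 2) hxx
    have e1 : x + 9 * e - 3 * t = x + 3 * (3 * e - t) := by ring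
    obtain ⟨f1, f2⟩ := mul (ne_zero_of hx3) (ne_zero_of hx3)
    have hh3 : ¬ (3 : ℤ) ∣ n * (3 * t - x) := PT3.LCL.not_dvd_mul hn3 (by omega)
    have hgh : -(n * x) - n * (3 * t - x) = 3 * (-(n * t)) := by ring
    obtain ⟨g1, g2⟩ := s3 hSLE (g := -(n * x)) hh3 ⟨_, hgh⟩
    rw [hgh, Int.mul_ediv_cancel_left _ (by norm_num)] at g2
    rw [zeta x (3 * t), ← hn, g1, g2, a1, a2, e1, b1, b2, c1, c2, hn', d1, d2, f2]
    have hX := sq_one hx3
    constructor
    · ring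
    · push_cast
      rw [three0]
      generalize (x : ZMod 3) = X at hX ⊢
      generalize (t : ZMod 3) = T
      generalize (e : ZMod 3) = E
      generalize lw x = L
      revert hX
      revert X T E L
      decide
  · by_cases hx3 : (3 : ℤ) ∣ x
    · -- case B
      obtain ⟨t, rfl⟩ := hx3
      obtain ⟨e, rfl⟩ : ∃ e : ℤ, s = y + 9 * e := by
        apply root hy3
        have h1 : s ^ 3 - y ^ 3 = (s ^ 3 - ((3 * t) ^ 3 + y ^ 3)) + 27 * t ^ 3 := by ring
        rw [h1]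
        exact dvd_add ((by norm_num : (27 : ℤ) ∣ 81).trans hs81) (dvd_mul_right _ _)
      set n : ℤ := (3 * t) ^ 2 - (3 * t) * y + y ^ 2 with hn
      have hyy : ¬ (3 : ℤ) ∣ y * y := PT3.LCL.not_dvd_mul hy3 hy3
      have hn' : n = y * y + 3 * (-(t * y) + 3 * t ^ 2) := by
        rw [hn]
        ring
      have hn3 : ¬ (3 : ℤ) ∣ n := by
        rw [hn']
        omega
      obtain ⟨a1, a2⟩ := num hsy' hxy0 (ne_zero_of hn3)
      obtain ⟨c1, c2⟩ := lw_add t hy3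
      obtain ⟨d1, d2⟩ := lw_add (-(t * y) + 3 * t ^ 2) hyy
      obtain ⟨f1, f2⟩ := mul (ne_zero_of hy3) (ne_zero_of hy3)
      have e1 : 3 * t + y = y + 3 * t := by ring
      -- the difference
      obtain ⟨k0, k1, k2⟩ := hN ((y + 9 * e - y) * (3 * (y * y + 3 * (3 * e * y + 9 * e ^ 2)))) (by
        have h1 : (y + 9 * e - y) * (3 * (y * y + 3 * (3 * e * y + 9 * e ^ 2))) - (3 * t) ^ 3 =
            (y + 9 * e) ^ 3 - ((3 * t) ^ 3 + y ^ 3) := by ring
        rw [h1]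
        exact hsN)
      have hu : ¬ (3 : ℤ) ∣ y * y + 3 * (3 * e * y + 9 * e ^ 2) := by omega
      obtain ⟨m1, m2⟩ := mul hsy' (mul_ne_zero (by norm_num : (3 : ℤ) ≠ 0) (ne_zero_of hu))
      obtain ⟨m3, m4⟩ := mul (by norm_num : (3 : ℤ) ≠ 0) (ne_zero_of hu)
      obtain ⟨m5, m6⟩ := lw_add (3 * e * y + 9 * e ^ 2) hyy
      obtain ⟨m7, m8⟩ := mul hx0 hx0
      obtain ⟨m9, m10⟩ := mul hx0 (mul_ne_zero hx0 hx0)
      have e3 : (3 * t) ^ 3 = 3 * t * (3 * t * (3 * t)) := by ring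
      rw [m1, m3, l_three.1, m5, e3, m9, m7] at k1
      rw [m2, m4, l_three.2, m6, e3, m10, m8, f2] at k2
      have hgh : -(n * (3 * t)) = 3 * (-(n * t)) := by ring
      have hh3 : ¬ (3 : ℤ) ∣ n * (y - 3 * t) := PT3.LCL.not_dvd_mul hn3 (by omega)
      obtain ⟨g1, g2⟩ := s2 hSLE (g := -(n * (3 * t))) ⟨_, hgh⟩ hh3
      rw [hgh, Int.mul_ediv_cancel_left _ (by norm_num)] at g2
      rw [hgh] at g1
      rw [zeta (3 * t) y, ← hn, hgh, g1, g2, a1, a2, e1, c1, c2, hn', d1, d2, f2]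
      have hX := sq_one hy3
      generalize lv (y + 9 * e - y) = U at k1 ⊢
      generalize lw (y + 9 * e - y) = W at k2 ⊢
      generalize lv (3 * t) = U' at k1
      generalize lw (3 * t) = W' at k2
      constructor
      · revert k1
        revert U U'
        decide
      · push_cast at k2 ⊢
        rw [three0] at k2 ⊢
        generalize (y : ZMod 3) = Y at hX k2 ⊢
        generalize (t : ZMod 3) = T
        generalize (e : ZMod 3) = E at k2
        generalize lw y = L at k2 ⊢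
        have k3 : W = L := by
          revert k2
          revert W L E Y W'
          decide
        clear k2
        subst k3
        revert hX
        revert Y T W
        decide
    · -- case C
      -- `3` divides `x + y`
      have hxy3 : (3 : ℤ) ∣ x + y := by
        by_contra hc
        have h1 : (3 : ℤ) ∣ y - x := by
          have h2 : x % 3 = 1 ∨ x % 3 = 2 := by omega
          have h3 : y % 3 = 1 ∨ y % 3 = 2 := by omega
          rcases h2 with h2 | h2 <;> rcases h3 with h3 | h3 <;> omega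
        obtain ⟨j, hj⟩ := h1
        have hxxx : ¬ (3 : ℤ) ∣ 2 * (x * (x * x)) := by
          have h2 := PT3.LCL.not_dvd_mul hx3 (PT3.LCL.not_dvd_mul hx3 hx3)
          exact PT3.LCL.not_dvd_mul (by norm_num) h2
        have h2 : x ^ 3 + y ^ 3 = 2 * (x * (x * x)) + 3 * (3 * (x ^ 2 * j + 3 * x * j ^ 2 + 3 * j ^ 3)) := by
          have h3 : y = x + 3 * j := by linear_combination hj
          rw [h3]
          ring
        have hx1 := ne_zero_of hx3
        obtain ⟨p1, p2⟩ := lw_add (3 * (x ^ 2 * j + 3 * x * j ^ 2 + 3 * j ^ 3)) hxxx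
        obtain ⟨q1, q2⟩ := mul (by norm_num : (2 : ℤ) ≠ 0) (mul_ne_zero hx1 (mul_ne_zero hx1 hx1))
        obtain ⟨q3, q4⟩ := mul hx1 (mul_ne_zero hx1 hx1)
        obtain ⟨q5, q6⟩ := mul hx1 hx1
        have q7 : lw 2 = 1 := by
          rw [(unit (by norm_num : ¬ (3 : ℤ) ∣ 2)).2]
          unfold wt
          norm_num
        rw [h2, p2, q2, q4, q6, q7] at hB2
        push_cast at hB2
        rw [three0] at hB2
        generalize lw x = L at hB2
        generalize (x : ZMod 3) = X at hB2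
        generalize (j : ZMod 3) = J at hB2
        revert hB2
        revert L X J
        decide
      obtain ⟨a₂, ha₂⟩ := hxy3
      obtain rfl : y = 3 * a₂ - x := by linear_combination ha₂
      have hm3 : ¬ (3 : ℤ) ∣ x * x := PT3.LCL.not_dvd_mul hx3 hx3
      -- `9` divides `x + y`
      have hnn : x ^ 2 - x * (3 * a₂ - x) + (3 * a₂ - x) ^ 2 =
          3 * (x * x + 3 * (a₂ ^ 2 - a₂ * x)) := by ring
      have hu3 : ¬ (3 : ℤ) ∣ x * x + 3 * (a₂ ^ 2 - a₂ * x) := by omega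
      have hx1 := ne_zero_of hx3
      have ha0 : a₂ ≠ 0 := by
        rintro rfl
        apply hxy0
        ring
      have hBn : x ^ 3 + (3 * a₂ - x) ^ 3 = (3 * a₂) * (3 * (x * x + 3 * (a₂ ^ 2 - a₂ * x))) := by
        ring
      have h3a : 3 * a₂ ≠ 0 := mul_ne_zero (by norm_num) ha0
      obtain ⟨p1, p2⟩ := mul h3a (mul_ne_zero (by norm_num : (3 : ℤ) ≠ 0) (ne_zero_of hu3))
      obtain ⟨p3, p4⟩ := mul (by norm_num : (3 : ℤ) ≠ 0) ha0
      obtain ⟨p5, p6⟩ := mul (by norm_num : (3 : ℤ) ≠ 0) (ne_zero_of hu3)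
      obtain ⟨p7, p8⟩ := lw_add (a₂ ^ 2 - a₂ * x) hm3
      have hlv : lv a₂ = 1 := by
        rw [hBn, p1, p3, p5, p7, l_three.1] at hB1
        generalize lv a₂ = U at hB1
        revert hB1
        revert U
        decide
      have h3a₂ : (3 : ℤ) ∣ a₂ := by
        by_contra hc
        rw [(unit hc).1] at hlv
        revert hlv
        decide
      obtain ⟨a, rfl⟩ := h3a₂
      -- the cube root
      obtain ⟨d, hd⟩ := hs81
      have hs3 : (3 : ℤ) ∣ s := by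
        apply Int.prime_three.dvd_of_dvd_pow (n := 3)
        refine ⟨27 * d + 9 * a * (x * x + 3 * ((3 * a) ^ 2 - 3 * a * x)), ?_⟩
        linear_combination hd
      obtain ⟨s', rfl⟩ := hs3
      have hs' : (s' : ZMod 3) = (a : ZMod 3) * (x : ZMod 3) ^ 2 := by
        have h1 : s' ^ 3 = a * (x * x + 3 * ((3 * a) ^ 2 - 3 * a * x)) + 3 * d := by
          have h2 : 27 * s' ^ 3 = 27 * (a * (x * x + 3 * ((3 * a) ^ 2 - 3 * a * x)) + 3 * d) := by
            linear_combination hd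
          exact mul_left_cancel₀ (by norm_num) h2
        have h2 := congrArg (Int.cast : ℤ → ZMod 3) h1
        push_cast at h2
        rw [three0] at h2
        generalize (s' : ZMod 3) = S at h2 ⊢
        generalize (x : ZMod 3) = X at h2 ⊢
        generalize (a : ZMod 3) = A at h2 ⊢
        generalize (d : ZMod 3) = D at h2
        revert h2
        revert S X A D
        decide
      have hxn := sq_one hx3
      -- the numbers
      obtain ⟨a1, a2⟩ := num hsy' hxy0 (c := x ^ 2 - x * (3 * (3 * a) - x) + (3 * (3 * a) - x) ^ 2)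
        (by rw [hnn]; exact mul_ne_zero (by norm_num) (ne_zero_of hu3))
      have e1 : 3 * s' - (3 * (3 * a) - x) = x + 3 * (s' - 3 * a) := by ring
      have e2 : x + (3 * (3 * a) - x) = 3 * (3 * a) := by ring
      obtain ⟨b1, b2⟩ := lw_add (s' - 3 * a) hx3
      obtain ⟨f1, f2⟩ := mul hx1 hx1
      have hlw : lw (3 * (3 * a)) = lw x := by
        rw [hBn, p2, p6, p8, l_three.2, f2] at hB2
        push_cast at hB2
        rw [three0] at hB2
        generalize lw (3 * (3 * a)) = U at hB2 ⊢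
        generalize lw x = L at hB2 ⊢
        generalize (x : ZMod 3) = X at hB2
        generalize (a : ZMod 3) = A at hB2
        revert hB2
        revert U L X A
        decide
      have hlv2 : lv (3 * (3 * a)) = 2 := by
        rw [p3, hlv, l_three.1]
        decide
      have hg3 : ¬ (3 : ℤ) ∣ x ^ 3 - 15 * a * x ^ 2 + 81 * a ^ 2 * x - 162 * a ^ 3 := by
        have h1 : x ^ 3 - 15 * a * x ^ 2 + 81 * a ^ 2 * x - 162 * a ^ 3 =
            x * (x * x) + 3 * (-5 * a * x ^ 2 + 27 * a ^ 2 * x - 54 * a ^ 3) := by ring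
        rw [h1]
        have h2 := PT3.LCL.not_dvd_mul hx3 hm3
        omega
      obtain ⟨g1, g2⟩ := s1 hSLE hg3 (dvd_mul_right (3 : ℤ) (-(a * x ^ 2) + 9 * a ^ 2 * x - 27 * a ^ 3))
      rw [Int.mul_ediv_cancel_left _ (by norm_num)] at g2
      have hz0 : ((x ^ 3 - 15 * a * x ^ 2 + 81 * a ^ 2 * x - 162 * a ^ 3 : ℤ) : Eis) +
          ((3 * (-(a * x ^ 2) + 9 * a ^ 2 * x - 27 * a ^ 3) : ℤ) : Eis) * w ≠ 0 := by
        intro h
        have h1 := congrArg Eis.re h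
        simp only [add_re, mul_re, intCast_re, intCast_im, w_re, w_im, zero_re] at h1
        apply ne_zero_of hg3
        linear_combination h1
      have hl0 : lam ≠ 0 := by decide
      have hsl : ∀ (z c : Eis), z ≠ 0 → c ≠ 0 → sl (lam ^ 3 * z) c = sl z c := by
        intro z c hz hc
        have h3 : lam ^ 3 = lam * (lam * lam) := by ring
        rw [h3, hSSL.1 _ _ _ (mul_ne_zero hl0 (mul_ne_zero hl0 hl0)) hz hc,
          hSSL.1 _ _ _ hl0 (mul_ne_zero hl0 hl0) hc, hSSL.1 _ _ _ hl0 hl0 hc]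
        generalize sl lam c = A
        generalize sl z c = B
        revert A B
        decide
      have e3 : (3 * (3 * a) - x : ℤ) = 9 * a - x := by ring
      rw [a1, a2, e1, e2, b1, b2, hlv2, hlw, hnn, p5, p6, p7, p8, l_three.1, l_three.2, f2, e3,
        zetaC, hsl _ _ hz0 (by decide), hsl _ _ hz0 (by decide), g1, g2]
      constructor
      · decide
      · push_cast
        rw [three0, hs']
        generalize (x : ZMod 3) = X at hxn ⊢
        generalize (a : ZMod 3) = A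
        generalize lw x = L
        revert hxn
        revert X A L
        decide

end Pool.Agent.PTK
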