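import Pool.Agent.PTK.StZ
import Pool.Agent.PTK.ZL
import Pool.Agent.PTK.PTX
import Pool.Agent.PT3.HYPT

/-!
# Module PTK_LMC: the classes of the minus part at `lam` (MP_8e0b0b_nt)
-/

set_option autoImplicit false

open NumberField IsDedekindDomain Finset
open scoped nonZeroDivisors Pointwise

namespace Pool.Agent.PTK

open Pool.Agent.Lib_helper18 Pool.Agent.Lib_helper18.Eis Pool.Agent.Lib_helper84.Cub
open Pool.Agent.PT Pool.Agent.PTE Pool.Agent.PT3 Pool.Agent.PTL Pool.Agent.PTN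
open Pool.Agent.PT.EHYP

namespace LMC

/-- `N ^ 2 = M ^ 3` and `3 ∤ N`, `N = 1 (mod 3)` give `N = 1 (mod 9)` -/
theorem mod_nine {N M : ℤ} (h : N ^ 2 = M ^ 3) (hN : N % 3 = 1) : N % 9 = 1 := by
  obtain ⟨n, hn⟩ : ∃ n : ℤ, N = 1 + 3 * n := ⟨N / 3, by omega⟩
  have h0 : M % 3 = 0 ∨ M % 3 = 1 ∨ M % 3 = 2 := by omega
  subst hn
  rcases h0 with h0 | h0 | h0
  · obtain ⟨m, rfl⟩ : ∃ m : ℤ, M = 3 * m := ⟨M / 3, by omega⟩
    exfalso
    have e1 : (1 + 3 * n) ^ 2 = 1 + 3 * (2 * n + 3 * n ^ 2) := by ring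
    have e2 : (3 * m) ^ 3 = 3 * (9 * m ^ 3) := by ring
    omega
  · obtain ⟨m, rfl⟩ : ∃ m : ℤ, M = 1 + 3 * m := ⟨M / 3, by omega⟩
    have e1 : (1 + 3 * n) ^ 2 = 1 + 6 * n + 9 * n ^ 2 := by ring
    have e2 : (1 + 3 * m) ^ 3 = 1 + 9 * (m + 3 * m ^ 2 + 3 * m ^ 3) := by ring
    omega
  · obtain ⟨m, rfl⟩ : ∃ m : ℤ, M = 2 + 3 * m := ⟨M / 3, by omega⟩
    exfalso
    have e1 : (1 + 3 * n) ^ 2 = 1 + 3 * (2 * n + 3 * n ^ 2) := by ring
    have e2 : (2 + 3 * m) ^ 3 = 2 + 3 * (2 + 12 * m + 18 * m ^ 2 + 9 * m ^ 3) := by ring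
    omega

theorem norm_nine {b : Eis} (hb : Prim b) (hcb : ∃ t : Eis, b * conj b = t ^ 3) :
    b.norm % 9 = 1 := by
  obtain ⟨t, ht⟩ := hcb
  have h1 : b.norm ^ 2 = t.norm ^ 3 := by
    have h2 := congrArg Eis.norm ht
    have e : (t ^ 3).norm = t.norm ^ 3 := by
      rw [pow_succ, pow_two, Eis.norm_mul, Eis.norm_mul]
      ring
    rw [Eis.norm_mul, norm_conj, e] at h2
    rw [← h2]
    ring
  refine mod_nine h1 ?_
  obtain ⟨c, hc⟩ := hb.1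
  have h3 := hb.2
  have e : b.norm = b.re ^ 2 + 3 * (3 * c ^ 2 - b.re * c) := by
    rw [norm_def, hc]
    ring
  have h4 : b.re ^ 2 % 3 = 1 := by
    have h5 : b.re % 3 = 1 ∨ b.re % 3 = 2 := by omega
    rcases h5 with h5 | h5
    · obtain ⟨m, hm⟩ : ∃ m : ℤ, b.re = 1 + 3 * m := ⟨b.re / 3, by omega⟩
      have e1 : b.re ^ 2 = 1 + 3 * (2 * m + 3 * m ^ 2) := by rw [hm]; ring
      omega
    · obtain ⟨m, hm⟩ : ∃ m : ℤ, b.re = 2 + 3 * m := ⟨b.re / 3, by omega⟩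
      have e1 : b.re ^ 2 = 1 + 3 * (1 + 4 * m + 3 * m ^ 2) := by rw [hm]; ring
      omega
  omega

theorem sq_mod_three {b : Eis} (hb : Prim b) : b.re ^ 2 % 3 = 1 := by
  have h3 := hb.2
  have h5 : b.re % 3 = 1 ∨ b.re % 3 = 2 := by omega
  rcases h5 with h5 | h5
  · obtain ⟨m, hm⟩ : ∃ m : ℤ, b.re = 1 + 3 * m := ⟨b.re / 3, by omega⟩
    have e1 : b.re ^ 2 = 1 + 3 * (2 * m + 3 * m ^ 2) := by rw [hm]; ring
    omega
  · obtain ⟨m, hm⟩ : ∃ m : ℤ, b.re = 2 + 3 * m := ⟨b.re / 3, by omega⟩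
    have e1 : b.re ^ 2 = 1 + 3 * (1 + 4 * m + 3 * m ^ 2) := by rw [hm]; ring
    omega

theorem prim_four : Prim (4 : Eis) := by
  have := prim_natCast (n := 4) (by norm_num)
  simpa using this

end LMC

theorem LMC_thm (hSSL : SSL) (hSLC : SLC) (hSREC : SREC) (hSCJ : SCJ) (hLCL : LCL)
    (hLCI : Stmt_LCI) : Stmt_LMC := by
  intro b hb hM
  have h4e : (4 : Eis) ≠ 0 := by
    intro h
    have := congrArg Eis.re h
    rw [show (4 : Eis) = ((4 : ℤ) : Eis) by push_cast; rfl, intCast_re] at this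
    simp at this
  refine ⟨PTK_PTX.sl_w_zero hSSL hSCJ hb hM.cb, ⟨fun h => ?_, fun h => ?_⟩, fun m hm =>
    HYPT.sl_int hSSL hLCL hb m hm⟩
  · exact ⟨hLCI.2.2 lam sl 4 b 3 hSLC h hb ZL.three_ne,
      hLCI.2.2 lam sl 4 b 4 hSLC h hb h4e⟩
  · obtain ⟨h3, h4⟩ := h
    obtain ⟨i, hi⟩ := exists_prim hM.nl
    have hF := add3_sl hSSL h4e
    have hw4 : sl w 4 = 1 := by
      have h5 := hLCL.2.2.2.2.1 4 (by norm_num)
      rw [(HYPT.lw_four hLCL).2] at h5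
      have e : ((4 : ℤ) : Eis) = 4 := by push_cast; rfl
      rw [e] at h5
      rw [h5]
      ring
    have h5 : sl (b * w ^ i) 4 = 0 := hSREC.1 _ _ hi LMC.prim_four
    have h6 := hF b (w ^ i) hb (pow_ne_zero i w_ne)
    have h7 := hF.pow w_ne i
    simp only at h6 h7
    rw [h5, h4, h7, hw4, zero_add, mul_one] at h6
    have h8 : 3 ∣ i := by
      have h9 : ((i : ℕ) : ZMod 3) = 0 := h6.symm
      exact (ZMod.natCast_eq_zero_iff i 3).mp h9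
    have h10 : w ^ i = 1 := by
      obtain ⟨k, rfl⟩ := h8
      rw [pow_mul, w_cube, one_pow]
    rw [h10, mul_one] at hi
    have hn := LMC.norm_nine hi hM.cb
    have h11 := ZL.sl_prim hSSL hSREC hi hn
    rw [h3] at h11
    have h12 := ZL.of_wt (LMC.sq_mod_three hi) h11.symm
    have h13 := ZL.final hi hn h12
    refine hLCI.2.1 b 1 b ?_ hM.nl ?_
    · intro h
      exact hM.nl (h.trans (one_dvd b))
    · have e : b * b ^ 3 - 1 ^ 3 = (b ^ 2 - 1) * (b ^ 2 + 1) := by ring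
      rw [e]
      exact Dvd.dvd.mul_right h13 _

end Pool.Agent.PTK
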