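import Pool.Agent.PTK.StZ2
import Pool.Agent.PTN.MAINQ

/-!
# PTK_MAW: the full law of the ranks of prime twists, the theorem
-/

set_option autoImplicit false

open NumberField IsDedekindDomain Finset
open scoped nonZeroDivisors Pointwise

namespace Pool.Agent.PTK

open Pool.Agent.Lib_helper18 Pool.Agent.Lib_helper18.Eis Pool.Agent.Lib_helper84.Cub
open Pool.Agent.PT Pool.Agent.PTE Pool.Agent.PT3 Pool.Agent.PTL Pool.Agent.PTN

namespace MAW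

/-- the tails -/
theorem tail_le (hGMB : Stmt_GMB) (k : ℕ) :
    MoB k ^ 2 / 3 ^ (k * (2 * k + 1)) ≤ 64 / 25 / (3 : ℝ) ^ k ^ 2 := by
  have h1 := hGMB.2.2.2.2.2.2.2 k
  rw [div_le_div_iff₀ (by positivity) (by positivity)]
  have h2 : (3 : ℝ) ^ (k * (2 * k + 1)) = 3 ^ (k * (k + 1)) * 3 ^ k ^ 2 := by
    rw [← pow_add]
    congr 1
    ring
  rw [h2, ← mul_assoc]
  exact mul_le_mul_of_nonneg_right h1 (by positivity)

theorem le_one' : ∀ A : ℤ, A ≠ 0 → CubeRank.GenBy A (CubeRank.rr A) → CubeRank.rr A < 2 →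
    CubeRank.rr A ≤ 1 := by
  intro A _ _ h2
  omega

theorem le_two : ∀ A : ℤ, A ≠ 0 → CubeRank.GenBy A (CubeRank.rr A) → CubeRank.rr A < 3 →
    CubeRank.rr A ≤ 2 := by
  intro A _ _ h2
  omega

end MAW

open MAINQ in
/-- PTK_MAW -/
theorem MAW_thm (hFB : Stmt_FB) (hEKN : Stmt_EKN) (hAWF : Stmt_AWF) (hMTL : Stmt_MTL)
    (hGMB : Stmt_GMB) (hALV : Stmt_ALV) (hNFE : Stmt_NFE) (hNDIM : Stmt_NDIM)
    (hNSUM : Stmt_NSUM) (hNZER : Stmt_NZER) (hNSU1 : Stmt_NSU1) (hNZE1 : Stmt_NZE1)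
    (hNZE0 : Stmt_NZE0) (hALLQ : Stmt_ALLQ) (hTRU : Stmt_TRU) (hTRC : Stmt_TRC)
    (hCLN : Stmt_CLN) (hCLU : Stmt_CLU) (hSUMA : Stmt_SUMA) : Stmt_MAW := by
  classical
  intro N hN0 hcf m k δ μ hm hk hδ hμ
  obtain ⟨h, n, m', k', π, p, e, r, f, hNF, hh, -, hNe, hm', hk'⟩ := hNFE N hN0 hcf
  have em : m' = m := hm'.trans hm.symm
  have ek : k' = k := hk'.trans hk.symm
  subst em ek
  clear hm hk hm' hk'
  subst hNe
  have hδ' : δ = if h = 1 then 1 else 0 := by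
    rw [hδ]
    by_cases h1 : h = 1
    · rw [if_pos ((delta_eq hNF hh).2 h1), if_pos h1]
    · rw [if_neg fun h2 => h1 ((delta_eq hNF hh).1 h2), if_neg h1]
  clear hδ
  subst hδ'
  have hμ' : μ = m' + (if h = 1 then 0 else 1) := by
    split_ifs at hμ ⊢ <;> omega
  have hf0 : 9 * (3 ^ h * n) ≠ 0 := by
    have := hN0
    omega
  have : NeZero (9 * (3 ^ h * n)) := ⟨hf0⟩
  obtain ⟨hT1, hT2⟩ := hTRU h n m' k' π p e r f hNF
  have hcopq : ∀ q e' : ℕ, q.Prime → 9 * (3 ^ h * n) < q →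
      IsCoprime ((q : ℤ) ^ e') ((9 * (3 ^ h * n) : ℕ) : ℤ) := by
    intro q e' hq hlt
    apply IsCoprime.pow_left
    rw [Nat.isCoprime_iff_coprime]
    exact (Nat.Prime.coprime_iff_not_dvd hq).2 fun hd =>
      absurd (Nat.le_of_dvd (Nat.pos_of_ne_zero hf0) hd) (by omega)
  have hCK : ∀ u : (ZMod (9 * (3 ^ h * n)))ˣ, ∀ e' q : ℕ, (e' = 1 ∨ e' = 2) → q.Prime →
      9 * (3 ^ h * n) < q → Cu (3 ^ h * n) u ((q : ℤ) ^ e') →
      Kl π (clu (9 * (3 ^ h * n)) π u).1 (clu (9 * (3 ^ h * n)) π u).2 ((q : ℤ) ^ e') := by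
    rintro u e' q - hq hlt ⟨x, hx⟩
    exact hT2 u _ _ _ x (kl_clu _ π u) (hcopq q e' hq hlt) hx
  have hKC : ∀ u : (ZMod (9 * (3 ^ h * n)))ˣ, ∀ e' q : ℕ, (e' = 1 ∨ e' = 2) → q.Prime →
      9 * (3 ^ h * n) < q →
      Kl π (clu (9 * (3 ^ h * n)) π u).1 (clu (9 * (3 ^ h * n)) π u).2 ((q : ℤ) ^ e') →
      Cu (3 ^ h * n) u ((q : ℤ) ^ e') := by
    rintro u e' q - hq hlt hy
    exact hTRC h n m' k' π p e r f hNF u _ _ _ (kl_clu _ π u) hy (hcopq q e' hq hlt)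
  have hφ : (0 : ℝ) ≤ ((9 * (3 ^ h * n)).totient : ℝ) := Nat.cast_nonneg _
  have hFB2 : ∀ u : (ZMod (9 * (3 ^ h * n)))ˣ,
      (∀ F : ℕ → ℝ, Monotone F → 0 ≤ F 0 →
        AboveA ((3 ^ h * n : ℕ) : ℤ) 2 (Cu (3 ^ h * n) u) (fun A => F (CubeRank.rr A))
          (EsD (vN h n π p e r (clu (9 * (3 ^ h * n)) π u).1 (clu (9 * (3 ^ h * n)) π u).2)
            (sN h n π p e r (clu (9 * (3 ^ h * n)) π u).1 (clu (9 * (3 ^ h * n)) π u).2) F /
            3 ^ (m' + 1))) ∧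
      ∀ (t : ℕ) (R : ℤ → Prop),
        (∀ A : ℤ, A ≠ 0 → CubeRank.GenBy A (CubeRank.rr A) → CubeRank.rr A < t → R A) →
        BelowA ((3 ^ h * n : ℕ) : ℤ) 2 (Cu (3 ^ h * n) u) (fun A => tf (R A))
          (EsD (vN h n π p e r (clu (9 * (3 ^ h * n)) π u).1 (clu (9 * (3 ^ h * n)) π u).2)
            (sN h n π p e r (clu (9 * (3 ^ h * n)) π u).1 (clu (9 * (3 ^ h * n)) π u).2)
            (fun x => if x < t then 1 else 0) / 3 ^ (m' + 1)) := by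
    intro u
    obtain ⟨g1, g2⟩ := hFB h n m' k' π p e r f (clu (9 * (3 ^ h * n)) π u).1
      (clu (9 * (3 ^ h * n)) π u).2 hNF hh 2 (Or.inr rfl)
    rw [if_neg (by norm_num : ¬ (2 : ℕ) = 1), add_zero] at g1 g2
    refine ⟨fun F hF h0 => ?_, fun t R hR => ?_⟩
    · exact above_of (fun A => h0.trans (hF (Nat.zero_le _))) (hCK u) (g1 F hF h0)
    · exact below_of (fun A => tf_nn _) (hKC u) (g2 t R hR)
  have hFB1 : ∀ u : (ZMod (9 * (3 ^ h * n)))ˣ,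
      (∀ F : ℕ → ℝ, Monotone F → 0 ≤ F 0 →
        AboveA ((3 ^ h * n : ℕ) : ℤ) 1 (Cu (3 ^ h * n) u) (fun A => F (CubeRank.rr A))
          (EsD (vN h n π p e r (clu (9 * (3 ^ h * n)) π u).1 (clu (9 * (3 ^ h * n)) π u).2)
            (sN h n π p e r (clu (9 * (3 ^ h * n)) π u).1 (clu (9 * (3 ^ h * n)) π u).2 + 1) F /
            3 ^ (m' + 1))) ∧
      ∀ (t : ℕ) (R : ℤ → Prop),
        (∀ A : ℤ, A ≠ 0 → CubeRank.GenBy A (CubeRank.rr A) → CubeRank.rr A < t → R A) →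
        BelowA ((3 ^ h * n : ℕ) : ℤ) 1 (Cu (3 ^ h * n) u) (fun A => tf (R A))
          (EsD (vN h n π p e r (clu (9 * (3 ^ h * n)) π u).1 (clu (9 * (3 ^ h * n)) π u).2)
            (sN h n π p e r (clu (9 * (3 ^ h * n)) π u).1 (clu (9 * (3 ^ h * n)) π u).2 + 1)
            (fun x => if x < t then 1 else 0) / 3 ^ (m' + 1)) := by
    intro u
    obtain ⟨g1, g2⟩ := hFB h n m' k' π p e r f (clu (9 * (3 ^ h * n)) π u).1
      (clu (9 * (3 ^ h * n)) π u).2 hNF hh 1 (Or.inl rfl)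
    rw [if_pos rfl] at g1 g2
    refine ⟨fun F hF h0 => ?_, fun t R hR => ?_⟩
    · exact above_of (fun A => h0.trans (hF (Nat.zero_le _))) (hCK u) (g1 F hF h0)
    · exact below_of (fun A => tf_nn _) (hKC u) (g2 t R hR)
  refine ⟨⟨fun u => vN h n π p e r (clu (9 * (3 ^ h * n)) π u).1 (clu (9 * (3 ^ h * n)) π u).2,
    fun u => sN h n π p e r (clu (9 * (3 ^ h * n)) π u).1 (clu (9 * (3 ^ h * n)) π u).2,
    ?_, ?_, ?_, ?_, ?_, ?_, ?_, ?_⟩, ?_, ?_, ?_, ?_, ?_⟩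
  · -- the relation of the dimensions
    intro u
    have h1 := dims (π := π) (p := p) (e := e) (r := r) (n := n) hNDIM hh
      (clu (9 * (3 ^ h * n)) π u).1 (clu (9 * (3 ^ h * n)) π u).2
    by_cases h2 : Nu1 (3 ^ h * n) u
    · rw [if_pos h2]
      rw [if_pos ((nu1_iff hNF u).1 h2)] at h1
      exact h1
    · rw [if_neg h2]
      rw [if_neg fun h3 => h2 ((nu1_iff hNF u).2 h3)] at h1
      exact h1
  · -- the average of `3 ^ v`
    rw [finsum_eq_sum_of_fintype,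
      sum_clu π hT1 (fun x => (3 : ℝ) ^ vN h n π p e r x.1 x.2)]
    have hS : ∑ x : ZMod 3 × (Fin m' → ZMod 3), (3 : ℝ) ^ vN h n π p e r x.1 x.2 ≤
        (5 / 3) ^ μ * 3 ^ (m' + 1) := by
      by_cases h1 : h = 1
      · subst h1
        have h2 := hNSU1 n m' k' π p e r f hNF
        have h3 : ∑ x : ZMod 3 × (Fin m' → ZMod 3), (3 : ℝ) ^ vN 1 n π p e r x.1 x.2 ≤
            3 * 5 ^ m' := by exact_mod_cast h2
        rw [hμ', if_pos rfl, add_zero, div_pow, pow_succ]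
        refine h3.trans (le_of_eq ?_)
        field_simp
      · have h2 := hNSUM h n m' k' π p e r f hNF
        have h3 : ∑ x : ZMod 3 × (Fin m' → ZMod 3), (3 : ℝ) ^ vN h n π p e r x.1 x.2 ≤
            5 ^ (m' + 1) := by exact_mod_cast h2
        rw [hμ', if_neg h1, div_pow]
        refine h3.trans (le_of_eq ?_)
        field_simp
    calc _ ≤ ((5 / 3) ^ μ * 3 ^ (m' + 1)) * (((9 * (3 ^ h * n)).totient : ℝ) / 3 ^ (m' + 1)) :=
          mul_le_mul_of_nonneg_right hS (by positivity)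
      _ = (5 / 3) ^ μ * (9 * (3 ^ h * n)).totient := by field_simp
  · -- the units with `v = 0`
    have hC := count π hT1 (fun x => vN h n π p e r x.1 x.2 = 0 ∧
      ¬ (h = 0 ∧ wt ((n : ℤ) ^ 2) + x.1 = 0))
    have e1 : Nat.card {u : (ZMod (9 * (3 ^ h * n)))ˣ //
        vN h n π p e r (clu (9 * (3 ^ h * n)) π u).1 (clu (9 * (3 ^ h * n)) π u).2 = 0 ∧
          ¬ Nu1 (3 ^ h * n) u} =
        Nat.card {u : (ZMod (9 * (3 ^ h * n)))ˣ //
          vN h n π p e r (clu (9 * (3 ^ h * n)) π u).1 (clu (9 * (3 ^ h * n)) π u).2 = 0 ∧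
            ¬ (h = 0 ∧ wt ((n : ℤ) ^ 2) + (clu (9 * (3 ^ h * n)) π u).1 = 0)} :=
      Nat.card_congr (Equiv.subtypeEquivRight fun u => by rw [nu1_iff hNF u])
    rw [e1, hC]
    have hS : (2 / 3 : ℝ) ^ μ * 3 ^ (m' + 1) ≤
        Nat.card {x : ZMod 3 × (Fin m' → ZMod 3) // vN h n π p e r x.1 x.2 = 0 ∧
          ¬ (h = 0 ∧ wt ((n : ℤ) ^ 2) + x.1 = 0)} := by
      by_cases h1 : h = 1
      · subst h1
        have h2 := hNZE1 n m' k' π p e r f hNF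
        have e2 : Nat.card {x : ZMod 3 × (Fin m' → ZMod 3) // vN 1 n π p e r x.1 x.2 = 0 ∧
            ¬ (1 = 0 ∧ wt ((n : ℤ) ^ 2) + x.1 = 0)} =
            Nat.card {x : ZMod 3 × (Fin m' → ZMod 3) // vN 1 n π p e r x.1 x.2 = 0} :=
          Nat.card_congr (Equiv.subtypeEquivRight fun x =>
            ⟨fun h3 => h3.1, fun h3 => ⟨h3, fun h4 => absurd h4.1 one_ne_zero⟩⟩)
        rw [e2, hμ', if_pos rfl, add_zero, div_pow, pow_succ]
        have h3 : (3 : ℝ) * 2 ^ m' ≤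
            Nat.card {x : ZMod 3 × (Fin m' → ZMod 3) // vN 1 n π p e r x.1 x.2 = 0} := by
          exact_mod_cast h2
        refine le_trans (le_of_eq ?_) h3
        field_simp
      · have h2 := hNZER h n m' k' π p e r f hNF
        have h3 : (2 : ℝ) ^ (m' + 1) ≤
            Nat.card {x : ZMod 3 × (Fin m' → ZMod 3) // vN h n π p e r x.1 x.2 = 0 ∧
              ¬ (h = 0 ∧ wt ((n : ℤ) ^ 2) + x.1 = 0)} := by exact_mod_cast h2
        rw [hμ', if_neg h1, div_pow]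
        refine le_trans (le_of_eq ?_) h3
        field_simp
    calc (2 / 3 : ℝ) ^ μ * (9 * (3 ^ h * n)).totient =
        ((2 / 3 : ℝ) ^ μ * 3 ^ (m' + 1)) * (((9 * (3 ^ h * n)).totient : ℝ) / 3 ^ (m' + 1)) := by
          field_simp
      _ ≤ _ := mul_le_mul_of_nonneg_right hS (by positivity)
  · -- the units with `v = 0`, `N u = ± 1`
    rintro h3N ⟨l, hl, hlN, hl9⟩
    have hh0 : h = 0 := by
      by_contra h0
      exact h3N ((dvd_pow_self 3 h0).mul_right _)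
    subst hh0
    have hj : ∃ j, wt ((r j : ℤ) ^ 2) ≠ 0 := by
      rw [pow_zero, one_mul] at hlN
      rcases EADM.prime_dvd hNF hl hlN with ⟨i, hi⟩ | ⟨j, hj⟩
      · have := hNF.p1 i
        omega
      · refine ⟨j, (FIN.p_wt (hNF.r2 j)).2 ?_⟩
        omega
    have h2 := hNZE0 n m' k' π p e r f hNF hj
    have hC := count π hT1 (fun x => vN 0 n π p e r x.1 x.2 = 0 ∧ wt ((n : ℤ) ^ 2) + x.1 = 0)
    have e1 : Nat.card {u : (ZMod (9 * (3 ^ 0 * n)))ˣ //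
        vN 0 n π p e r (clu (9 * (3 ^ 0 * n)) π u).1 (clu (9 * (3 ^ 0 * n)) π u).2 = 0 ∧
          Nu1 (3 ^ 0 * n) u} =
        Nat.card {u : (ZMod (9 * (3 ^ 0 * n)))ˣ //
          vN 0 n π p e r (clu (9 * (3 ^ 0 * n)) π u).1 (clu (9 * (3 ^ 0 * n)) π u).2 = 0 ∧
            wt ((n : ℤ) ^ 2) + (clu (9 * (3 ^ 0 * n)) π u).1 = 0} :=
      Nat.card_congr (Equiv.subtypeEquivRight fun u => by
        rw [nu1_iff hNF u]
        exact ⟨fun h3 => ⟨h3.1, h3.2.2⟩, fun h3 => ⟨h3.1, rfl, h3.2⟩⟩)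
    rw [e1, hC]
    have h3 : (2 : ℝ) ^ m' ≤
        Nat.card {x : ZMod 3 × (Fin m' → ZMod 3) // vN 0 n π p e r x.1 x.2 = 0 ∧
          wt ((n : ℤ) ^ 2) + x.1 = 0} := by exact_mod_cast h2
    calc 1 / 3 * (2 / 3 : ℝ) ^ m' * (9 * (3 ^ 0 * n)).totient =
        2 ^ m' * (((9 * (3 ^ 0 * n)).totient : ℝ) / 3 ^ (m' + 1)) := by
          rw [div_pow, pow_succ]
          field_simp
      _ ≤ _ := mul_le_mul_of_nonneg_right h3 (by positivity)
  · -- averages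
    intro u F hF h0
    exact ⟨(hFB2 u).1 F hF h0, (hFB1 u).1 F hF h0⟩
  · -- lower bounds for the ranks in a class
    intro u t
    exact ⟨(hFB2 u).2 t _ fun A _ _ h1 => h1, (hFB1 u).2 t _ fun A _ _ h1 => h1⟩
  · -- no solution
    intro u
    exact ⟨(hFB2 u).2 1 _ no_sol', (hFB1 u).2 1 _ no_sol'⟩
  · -- the numbers
    obtain ⟨-, -, e3, -, e5, e6, -, e8, e9, -⟩ := hEKN
    intro u
    have key : ∀ (a : ℕ) (R : ℤ → Prop) (x d : ℝ),
        BelowA ((3 ^ h * n : ℕ) : ℤ) a (Cu (3 ^ h * n) u) (fun A => tf (R A))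
          (x / 3 ^ (m' + 1)) → d ≤ x →
        BelowA ((3 ^ h * n : ℕ) : ℤ) a (Cu (3 ^ h * n) u) (fun A => tf (R A))
          (d / 3 ^ (m' + 1)) := fun a R x d h1 h2 =>
      (hSUMA _ a m' π _).2.2.2 _ _ _ (div_le_div_of_nonneg_right h2 (by positivity)) h1
    refine ⟨fun ho => ⟨?_, ?_⟩, fun he => ⟨?_, ?_⟩, fun hv hs => ?_, fun hv hs => ?_,
      fun hv hs => ⟨?_, ?_⟩, fun hv hs => ⟨?_, ?_⟩⟩
    · exact key 2 _ _ _ ((hFB2 u).2 2 _ MAW.le_one') (e3 _ _ ho)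
    · exact key 1 _ _ _ ((hFB1 u).2 3 _ MAW.le_two) (e5 _ _ ho.add_one)
    · exact key 2 _ _ _ ((hFB2 u).2 3 _ MAW.le_two) (e5 _ _ he)
    · exact key 1 _ _ _ ((hFB1 u).2 2 _ MAW.le_one') (e3 _ _ he.add_one)
    · exact key 2 _ _ _ ((hFB2 u).2 1 _ no_sol') (e6 _ _ hv hs)
    · exact key 1 _ _ _ ((hFB1 u).2 1 _ no_sol') (e6 _ _ hv hs.add_one)
    · have h2 := (hFB2 u).2 1 _ no_sol'
      have hv' : vN h n π p e r (clu (9 * (3 ^ h * n)) π u).1 (clu (9 * (3 ^ h * n)) π u).2 = 0 :=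
        hv
      rw [hv'] at h2
      exact key 2 _ _ _ h2 (e8 _ hs)
    · have h2 := (hFB1 u).2 2 _ MAW.le_one'
      have hv' : vN h n π p e r (clu (9 * (3 ^ h * n)) π u).1 (clu (9 * (3 ^ h * n)) π u).2 = 0 :=
        hv
      rw [hv'] at h2
      exact key 1 _ _ _ h2 (e9 _ hs.add_one)
    · have h2 := (hFB2 u).2 2 _ MAW.le_one'
      have hv' : vN h n π p e r (clu (9 * (3 ^ h * n)) π u).1 (clu (9 * (3 ^ h * n)) π u).2 = 0 :=
        hv
      rw [hv'] at h2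
      exact key 2 _ _ _ h2 (e9 _ hs)
    · have h2 := (hFB1 u).2 1 _ no_sol'
      have hv' : vN h n π p e r (clu (9 * (3 ^ h * n)) π u).1 (clu (9 * (3 ^ h * n)) π u).2 = 0 :=
        hv
      rw [hv'] at h2
      exact key 1 _ _ _ h2 (e8 _ hs.add_one)
  · -- finite generation
    choose M1 hM1 using fun x : ZMod 3 × (Fin m' → ZMod 3) =>
      (hCLN h n m' k' π p e r f x.1 x.2 hNF hh).1
    choose M2 hM2 using fun x : ZMod 3 × (Fin m' → ZMod 3) =>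
      (hCLU h n m' k' π p e r f x.1 x.2 hNF hh).1
    refine ⟨3 + ∑ x, (M1 x + M2 x), fun q E hq hM hE => ?_⟩
    have hBB : ((3 ^ h * n : ℕ) : ℤ) * (q : ℤ) ^ E = BB h n E q := by
      unfold BB
      push_cast
      ring
    rw [hBB]
    let x : ZMod 3 × (Fin m' → ZMod 3) :=
      (wt (((q : ℤ) ^ E) ^ 2), fun i => (E : ZMod 3) * sym (π i).1 (q : Eis))
    have hcl : InCT E π x.1 x.2 q := ⟨rfl, fun _ => rfl⟩
    have hx : M1 x + M2 x ≤ ∑ x, (M1 x + M2 x) :=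
      Finset.single_le_sum (f := fun x => M1 x + M2 x) (fun _ _ => Nat.zero_le _)
        (Finset.mem_univ x)
    have hq3 : q % 3 = 1 ∨ q % 3 = 2 := by
      have h1 : ¬ 3 ∣ q := by
        intro h3
        have := (Nat.prime_dvd_prime_iff_eq Nat.prime_three hq).1 h3
        omega
      omega
    rcases hq3 with h1 | h2
    · exact CubeRank.gen_rr (hM2 x E q hE hq (by omega) h1 hcl)
    · exact CubeRank.gen_rr (hM1 x E q hE hq (by omega) h2 hcl)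
  · -- the averages over all `A`: the rank, the moments and the tails
    intro a ha
    obtain ⟨a1, a2, a3⟩ := (hAWF h n m' k' π p e r f hNF hh).1 a ha
    refine ⟨a1, a2, fun k₀ => ?_, a3⟩
    exact (hSUMA _ a m' π _).2.2.1 _ _ _ (MAW.tail_le hGMB k₀)
      (hMTL _ _ _ k₀ (2 * k₀ + 1) _ (a2 k₀))
  · exact (hAWF h n m' k' π p e r f hNF hh).2.1
  · exact (hAWF h n m' k' π p e r f hNF hh).2.2
  · -- the averages over all `A`
    obtain ⟨a1, -, a3, a4⟩ := hALLQ h n m' k' π p e r f hNF hh μ hμ'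
    obtain ⟨b1, b2, b3⟩ := hALV h n m' k' π p e r f hNF hh μ hμ'
    exact ⟨a1, b1, fun hk => ⟨(a3 hk).1, b2 hk⟩, fun hk => ⟨(a4 hk).1, b3 hk⟩⟩

end Pool.Agent.PTK
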