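import Pool.Agent.PTK.StZ2
import Pool.Agent.PTL.CL

/-!
# PTK_MD2: the joint density of the entries of the minus part and the corank of the plus part
(helper64)
-/

set_option autoImplicit false

open NumberField IsDedekindDomain Finset
open scoped nonZeroDivisors Pointwise

namespace Pool.Agent.PTK

open Pool.Agent.Lib_helper18 Pool.Agent.Lib_helper18.Eis Pool.Agent.Lib_helper84.Cub
open Pool.Agent.PT Pool.Agent.PTE Pool.Agent.PT3 Pool.Agent.PTL Pool.Agent.PTN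

/-- a system of the minus part is a system for the densities -/
theorem MD2.sysZ {l N : ℕ} {z : Fin l → Eis} {U R U' R' : Fin l → Fin l → Eis}
    {α β : Fin N → Fin l} (h : SysF z U R U' R') (hp : Prs α β) :
    SysZ z α β (fun r => U (α r) (β r)) (fun r => R (α r) (β r)) (fun r => U' (α r) (β r))
      (fun r => R' (α r) (β r)) :=
  ⟨h.ind, fun i => (h.mc i).cb, hp.lt, hp.inj, fun r => h.sol _ _ (hp.lt r).ne⟩

/-- PTK_MD2. -/
theorem MD2_thm (hCLSC : CLSC) (hMSP : Stmt_MSP) (hZS2 : Stmt_ZS2) (hBM2 : Stmt_BM2) :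
    Stmt_MD2 := by
  classical
  intro h n m k π p e r f w0 c s τ b X Y P Q P' Q' hNF hh hPl l N y U R U' R' α β hMn M t
  obtain ⟨f₁, hf1, h1⟩ := hMSP h n m k π p e r f w0 c s τ b X Y P Q P' Q' hNF hh hPl
  obtain ⟨f₂, hf2, h2⟩ := hZS2 h n m k π p e r f w0 c hNF hh l N y U R U' R' α β hMn
  obtain ⟨F, hFpos, hF9, hpF, hd1, hd2⟩ : ∃ F : ℕ, 0 < F ∧ 9 ∣ F ∧ (∀ i, p i ∣ F) ∧
      f₁ ∣ F ∧ f₂ ∣ F := by
    refine ⟨9 * (∏ i, p i) * (f₁ * f₂), ?_, ?_, ?_, ?_, ?_⟩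
    · have h3 : 0 < ∏ i, p i := Finset.prod_pos fun i _ => (hNF.pp i).pos
      positivity
    · exact Dvd.dvd.mul_right (Dvd.intro _ rfl) _
    · intro i
      exact Dvd.dvd.mul_right (Dvd.dvd.mul_left (Finset.dvd_prod_of_mem p (mem_univ i)) _) _
    · exact Dvd.dvd.mul_left (Dvd.intro _ rfl) _
    · exact Dvd.dvd.mul_left (Dvd.intro_left _ rfl) _
  obtain ⟨κ, hκ1, hκ2⟩ := hCLSC m π p hNF.pp hNF.p1 hNF.pπ hNF.pinj F hFpos hF9 hpF
  have hκ : IsK π κ := hκ1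
  obtain ⟨C, Φ, N₁, h3⟩ := h1 F hFpos hd1 κ hκ
  obtain ⟨C', Φ', N₂, h4⟩ := h2 F hFpos hd2 κ hκ
  obtain ⟨K, hK⟩ := hBM2 s b P Q P' Q' l N (fun i => zN π e (y i)) α β
    (fun r => U (α r) (β r)) (fun r => R (α r) (β r)) (fun r => U' (α r) (β r))
    (fun r => R' (α r) (β r)) F m t κ
    (Fin.cons w0 c) C Φ (C' - M) Φ' hPl.sys (MD2.sysZ hMn.sys hMn.prs) hFpos hF9 hκ2
  obtain ⟨M', hM⟩ : ∃ M', M' = N₁ + N₂ := ⟨_, rfl⟩
  refine ⟨K + 2 * (2 * ((Finset.range (M' + 1)).card : ℝ)), fun σ hσ1 hσ2 => ?_⟩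
  have hB := hK σ hσ1 hσ2
  have i1 := CL.sm_le_add
    {q | q ∈ QMM h n π e w0 c y U R U' R' α β M 2 1 ∧ t ≤ kS h n b X Y P Q P' Q' 1 q}
    (SP b P Q P' Q' t κ (Fin.cons w0 c) C Φ ∩
      SPZ (fun i => zN π e (y i)) α (fun r => U (α r) (β r)) (fun r => R (α r) (β r))
        (fun r => U' (α r) (β r)) (fun r => R' (α r) (β r)) κ (Fin.cons w0 c) (C' - M) Φ') M'
    (fun q hq hqM hqS => ⟨((h3 q t hq (by omega) hqS.1.1).1 hqS.1.2.1 hqS.2),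
      (h4 q M hq (by omega)).1 hqS.1⟩) hσ1
  have i2 := CL.sm_le_add
    {q | q ∈ QMM h n π e w0 c y U R U' R' α β M 2 2 ∧ t ≤ kS h n b X Y P Q P' Q' 2 q}
    (SM b P Q P' Q' t κ (Fin.cons w0 c) C Φ ∩
      SMZ (fun i => zN π e (y i)) α (fun r => U (α r) (β r)) (fun r => R (α r) (β r))
        (fun r => U' (α r) (β r)) (fun r => R' (α r) (β r)) κ (Fin.cons w0 c) (C' - M) Φ') M'
    (fun q hq hqM hqS => ⟨((h3 q t hq (by omega) hqS.1.1).2 hqS.1.2.1 hqS.2),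
      (h4 q M hq (by omega)).2 hqS.1⟩) hσ1
  have e1 : (1 : ℝ) / 3 ^ N / 3 ^ (m + 1) * LI s t * Real.log (1 / (σ - 1)) =
      LI s t / 3 ^ N / 3 ^ (m + 1) * Real.log (1 / (σ - 1)) := by ring
  rw [e1]
  linarith

end Pool.Agent.PTK
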