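import Pool.Agent.PTK.StZ2
import Pool.Agent.PTL.CL

/-!
# PTK_MDU: the joint density with the matrix of the minus part, `q = 1 (mod 3)`, generic pattern (helper32)
-/

set_option autoImplicit false

open NumberField IsDedekindDomain Finset
open scoped nonZeroDivisors Pointwise

namespace Pool.Agent.PTK

open Pool.Agent.Lib_helper18 Pool.Agent.Lib_helper18.Eis Pool.Agent.Lib_helper84.Cub
open Pool.Agent.PT Pool.Agent.PTE Pool.Agent.PT3 Pool.Agent.PTL Pool.Agent.PTN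

/-- a system of the minus part is a system with several base classes -/
theorem MDU.sysZ {h n m k : ℕ} {π : Fin m → PP} {p e : Fin m → ℕ} {r : Fin k → ℕ}
    {w0 : ZMod 3} {c : Fin m → ZMod 3} {l N : ℕ} {y : Fin l → Fin (m + 1) → ZMod 3}
    {U R U' R' : Fin l → Fin l → Eis} {α β : Fin N → Fin l}
    (hS : MnS h n π p e r w0 c y U R U' R' α β) :
    SysZ (fun i => zN π e (y i)) α β (fun r => U (α r) (β r)) (fun r => R (α r) (β r))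
      (fun r => U' (α r) (β r)) (fun r => R' (α r) (β r)) :=
  ⟨hS.sys.ind, fun i => (hS.sys.mc i).cb, hS.prs.lt, hS.prs.inj,
    fun r => hS.sys.sol (α r) (β r) (hS.prs.lt r).ne⟩

/-- PTK_MDU. -/
theorem MDU_thm (hCLSC : CLSC) (hCLSCS : CLSCS) (hMSPU : Stmt_MSPU) (hZS1 : Stmt_ZS1)
    (hBMU : Stmt_BMU) : Stmt_MDU := by
  classical
  intro h n m k π p e r f w0 c d v δ s τ b X Y P Q P' Q' hNF hh hδ hPl l N y U R U' R' α β hS M t
  obtain ⟨f0, hf0, hf1⟩ := hMSPU h n m k π p e r f w0 c d v δ s τ b X Y P Q P' Q' hNF hh hδ hPl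
  obtain ⟨g0, hg0, hg1⟩ := hZS1 h n m k π p e r f w0 c hNF hh l N y U R U' R' α β hS
  obtain ⟨F, hF, hF9, hpF, hfF, hgF⟩ : ∃ F : ℕ, 0 < F ∧ 9 ∣ F ∧ (∀ i, p i ∣ F) ∧
      f0 ∣ F ∧ g0 ∣ F := by
    refine ⟨9 * (∏ i, p i) * (f0 * g0), ?_, ?_, ?_, ?_, ?_⟩
    · have h1 : 0 < ∏ i, p i := Finset.prod_pos fun i _ => (hNF.pp i).pos
      positivity
    · exact Dvd.dvd.mul_right (Dvd.intro _ rfl) _
    · intro i
      exact Dvd.dvd.mul_right (Dvd.dvd.mul_left (Finset.dvd_prod_of_mem p (mem_univ i)) _) _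
    · exact Dvd.dvd.mul_left (Dvd.intro _ rfl) _
    · exact Dvd.dvd.mul_left (Dvd.intro_left _ rfl) _
  obtain ⟨κ, hκ1, hκ2⟩ := hCLSC m π p hNF.pp hNF.p1 hNF.pπ hNF.pinj F hF hF9 hpF
  have hκ3 := hCLSCS F m κ hF hF9 hκ2
  obtain ⟨C, Φ, N1, hN1⟩ := hf1 F hF hfF κ hκ1
  obtain ⟨C', Φ', N2, hN2⟩ := hg1 F hF hgF κ hκ1
  obtain ⟨K, hK⟩ := hBMU s b P Q P' Q' l N (fun i => zN π e (y i)) α β
    (fun r => U (α r) (β r)) (fun r => R (α r) (β r)) (fun r => U' (α r) (β r))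
    (fun r => R' (α r) (β r)) F m t κ (Fin.cons w0 c) C Φ (C' - M) Φ' hPl.sys (MDU.sysZ hS)
    hF hF9 hκ3
  obtain ⟨M', hM⟩ : ∃ M', M' = N1 + N2 := ⟨_, rfl⟩
  refine ⟨K + 2 * (2 * ((Finset.range (M' + 1)).card : ℝ)), fun σ h1 hσ2 => ?_⟩
  have hB := hK σ h1 hσ2
  have hsub1 : ∀ q : ℕ, q.Prime → M' < q →
      q ∈ {q : ℕ | (q ∈ QMM h n π e w0 c y U R U' R' α β M 1 1 ∧ q ∈ Pat v δ) ∧
        t ≤ kU h n b X Y P Q P' Q' 1 q} →
      q ∈ SPU b P Q P' Q' t κ (Fin.cons w0 c) C Φ ∩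
        SPZU (fun i => zN π e (y i)) α (fun r => U (α r) (β r)) (fun r => R (α r) (β r))
          (fun r => U' (α r) (β r)) (fun r => R' (α r) (β r)) κ (Fin.cons w0 c) (C' - M) Φ' := by
    intro q hq hqM ⟨⟨hqY, hqP⟩, hqt⟩
    exact ⟨((hN1 q t hq (by omega) hqY.1 hqP).1 hqY.2.1 hqt),
      (hN2 q M hq (by omega)).1 hqY⟩
  have hsub2 : ∀ q : ℕ, q.Prime → M' < q →
      q ∈ {q : ℕ | (q ∈ QMM h n π e w0 c y U R U' R' α β M 1 2 ∧ q ∈ Pat v δ) ∧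
        t ≤ kU h n b X Y P Q P' Q' 2 q} →
      q ∈ SMU b P Q P' Q' t κ (Fin.cons w0 c) C Φ ∩
        SMZU (fun i => zN π e (y i)) α (fun r => U (α r) (β r)) (fun r => R (α r) (β r))
          (fun r => U' (α r) (β r)) (fun r => R' (α r) (β r)) κ (Fin.cons w0 c) (C' - M) Φ' := by
    intro q hq hqM ⟨⟨hqY, hqP⟩, hqt⟩
    exact ⟨((hN1 q t hq (by omega) hqY.1 hqP).2 hqY.2.1 hqt),
      (hN2 q M hq (by omega)).2 hqY⟩
  have i1 := CL.sm_le_add _ _ M' hsub1 h1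
  have i2 := CL.sm_le_add _ _ M' hsub2 h1
  have e2 : (2 / 3 ^ d / 3 ^ N / 3 ^ (m + 1) * LI s t : ℝ) =
      2 / 3 ^ (s + 1) * LI s t / 3 ^ N / 3 ^ (m + 1) := by
    rw [← hPl.dim]
    ring
  rw [e2]
  linarith

end Pool.Agent.PTK
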