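import Pool.Agent.PTK.StZ2
import Pool.Agent.PTL.CL

/-!
# PTK_MDZ: the joint density, `q = 1 (mod 3)`, zero pattern
-/

set_option autoImplicit false

open NumberField IsDedekindDomain Finset
open scoped nonZeroDivisors Pointwise

namespace Pool.Agent.PTK

open Pool.Agent.Lib_helper18 Pool.Agent.Lib_helper18.Eis Pool.Agent.Lib_helper84.Cub
open Pool.Agent.PT Pool.Agent.PTE Pool.Agent.PT3 Pool.Agent.PTL Pool.Agent.PTN

/-- PTK_MDZ. -/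
theorem MDZ_thm (hCLSC : CLSC) (hCLSCS : CLSCS) (hMPZ : Stmt_MPZ) (hZS1 : Stmt_ZS1)
    (hBMZ : Stmt_BMZ) : Stmt_MDZ := by
  classical
  intro h n m k π p e r f w0 c s τ b X Y P Q P' Q' hNF hh hPl l N y U R U' R' α β hT M t
  have hSys : SysZ (fun i => zN π e (y i)) α β (fun r => U (α r) (β r)) (fun r => R (α r) (β r))
      (fun r => U' (α r) (β r)) (fun r => R' (α r) (β r)) :=
    ⟨hT.sys.ind, fun i => (hT.sys.mc i).cb, hT.prs.lt, hT.prs.inj,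
      fun r => hT.sys.sol (α r) (β r) (hT.prs.lt r).ne⟩
  obtain ⟨f0, hf0, hf1⟩ := hMPZ h n m k π p e r f w0 c s τ b X Y P Q P' Q' hNF hh hPl
  obtain ⟨g0, hg0, hg1⟩ := hZS1 h n m k π p e r f w0 c hNF hh l N y U R U' R' α β hT
  obtain ⟨F, hF, hF9, hpF, hfF, hgF⟩ : ∃ F : ℕ, 0 < F ∧ 9 ∣ F ∧ (∀ i, p i ∣ F) ∧
      f0 ∣ F ∧ g0 ∣ F := by
    refine ⟨9 * (∏ i, p i) * (f0 * g0), ?_, ?_, ?_, ?_, ?_⟩
    · have h1 : 0 < ∏ i, p i := Finset.prod_pos fun i _ => (hNF.pp i).pos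
      positivity
    · exact Dvd.dvd.mul_right (Dvd.intro _ rfl) _
    · intro i
      exact Dvd.dvd.mul_right (Dvd.dvd.mul_left (Finset.dvd_prod_of_mem p (mem_univ i)) _) _
    · exact Dvd.dvd.mul_left (Dvd.intro _ rfl) _
    · exact Dvd.dvd.mul_left (Dvd.intro_left _ rfl) _
  obtain ⟨κ, hκ1, hκ2⟩ := hCLSC m π p hNF.pp hNF.p1 hNF.pπ hNF.pinj F hF hF9 hpF
  have hκ3 := hCLSCS F m κ hF hF9 hκ2
  obtain ⟨C, Φ, N1, hN1⟩ := hf1 F hF hfF κ hκ1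
  obtain ⟨C', Φ', N2, hN2⟩ := hg1 F hF hgF κ hκ1
  obtain ⟨K, hK⟩ := hBMZ s b P Q P' Q' l N (fun i => zN π e (y i)) α β
    (fun r => U (α r) (β r)) (fun r => R (α r) (β r)) (fun r => U' (α r) (β r))
    (fun r => R' (α r) (β r)) F m t
    κ (Fin.cons w0 c) C Φ (C' - M) Φ' hPl.sys hSys hF hF9 hκ3
  obtain ⟨L, hL⟩ : ∃ L, L = N1 + N2 := ⟨_, rfl⟩
  refine ⟨K + 2 * (2 * ((Finset.range (L + 1)).card : ℝ)), fun σ h1 hσ2 => ?_⟩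
  have hB := hK σ h1 hσ2
  have hsub1 : ∀ q : ℕ, q.Prime → L < q →
      q ∈ {q : ℕ | (q ∈ QMM h n π e w0 c y U R U' R' α β M 1 1 ∧ q ∈ ZP b) ∧
        t ≤ kS h n b X Y P Q P' Q' 1 q} →
      q ∈ SPF b P Q P' Q' t κ (Fin.cons w0 c) C Φ ∩
        SPZU (fun i => zN π e (y i)) α (fun r => U (α r) (β r)) (fun r => R (α r) (β r))
          (fun r => U' (α r) (β r)) (fun r => R' (α r) (β r)) κ (Fin.cons w0 c) (C' - M) Φ' := by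
    intro q hq hqM ⟨⟨hqY, hqP⟩, hqt⟩
    exact ⟨((hN1 q t hq (by omega) hqY.1 hqP).1 hqY.2.1 hqt),
      (hN2 q M hq (by omega)).1 hqY⟩
  have hsub2 : ∀ q : ℕ, q.Prime → L < q →
      q ∈ {q : ℕ | (q ∈ QMM h n π e w0 c y U R U' R' α β M 1 2 ∧ q ∈ ZP b) ∧
        t ≤ kS h n b X Y P Q P' Q' 2 q} →
      q ∈ SMF b P Q P' Q' t κ (Fin.cons w0 c) C Φ ∩
        SMZU (fun i => zN π e (y i)) α (fun r => U (α r) (β r)) (fun r => R (α r) (β r))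
          (fun r => U' (α r) (β r)) (fun r => R' (α r) (β r)) κ (Fin.cons w0 c) (C' - M) Φ' := by
    intro q hq hqM ⟨⟨hqY, hqP⟩, hqt⟩
    exact ⟨((hN1 q t hq (by omega) hqY.1 hqP).2 hqY.2.1 hqt),
      (hN2 q M hq (by omega)).2 hqY⟩
  have i1 := CL.sm_le_add _ _ L hsub1 h1
  have i2 := CL.sm_le_add _ _ L hsub2 h1
  have e2 : (1 / 3 ^ s / 3 ^ N / 3 ^ (m + 1) * LI s t : ℝ) =
      1 / 3 ^ s * LI s t / 3 ^ N / 3 ^ (m + 1) := by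
    ring
  rw [e2]
  linarith

end Pool.Agent.PTK
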