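import Pool.Agent.PTK.StW
import Pool.Agent.PTK.SYK

/-!
# PTK_MSY: the system of a test configuration
-/

set_option autoImplicit false

open NumberField IsDedekindDomain Finset
open scoped nonZeroDivisors Pointwise

namespace Pool.Agent.PTK

open Pool.Agent.Lib_helper18 Pool.Agent.Lib_helper18.Eis Pool.Agent.Lib_helper84.Cub
open Pool.Agent.PT Pool.Agent.PTE Pool.Agent.PT3 Pool.Agent.PTL Pool.Agent.PTN

namespace MSY

variable {h n m k : ℕ} {π : Fin m → PP} {p e : Fin m → ℕ} {r f : Fin k → ℕ}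
  {w0 : ZMod 3} {c : Fin m → ZMod 3}

/-- the solution with the base in `V0` -/
theorem sol (hHNE : Stmt_HNE) (hZA : Stmt_ZA) (hZL : Stmt_ZL) (hZT : Stmt_ZT)
    (hn : NF n π p e r f) (hh : h ≤ 2) {u y : Fin (m + 1) → ZMod 3}
    (hu : u ∈ V0 h n π p e r w0 c) (hy : y ∈ VS h n π p e r w0 c) (hu0 : u ≠ 0) (hy0 : y ≠ 0) :
    ∃ P Q P' Q' : Eis, SolE (zN π e u) (zN π e y) P Q P' Q' := by
  have hAy := hZA n m k π p e r f hn y
  have hAu := hZA n m k π p e r f hn u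
  have hL := hZL n m k π p e r f hn u hu.2.1 hu.2.2
  have hcy : ¬ ∃ c : Eis, c ^ 3 = zN π e y := fun h1 => hy0 (hAy.2.2.2.2.2.2.2.2.2 h1)
  have hcu : ¬ ∃ c : Eis, c ^ 3 = zN π e u := fun h1 => hu0 (hAu.2.2.2.2.2.2.2.2.2 h1)
  have hT := hZT h n m k π p e r f w0 c hn hh u hu.1 y hy
  exact hHNE (zN π e u) (zN π e y) hAu.1 hL hcu hAu.2.2.2.2.1 hAy.1 hcy hT.1 hT.2

/-- `V0 = VS` for `h = 1` -/
theorem V0_eq (hVDIM : Stmt_VDIM) {y : Fin (m + 1) → ZMod 3} (h1 : h = 1)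
    (hy : y ∈ VS h n π p e r w0 c) : y ∈ V0 h n π p e r w0 c := by
  have h2 := hVDIM h n m k π p e r w0 c (by omega)
  have h3 : dN h n w0 = 0 := by simp [dN, h1]
  rw [h3, add_zero] at h2
  have hle : V0 h n π p e r w0 c ≤ VS h n π p e r w0 c := fun x hx => hx.1
  have h4 : V0 h n π p e r w0 c = VS h n π p e r w0 c :=
    Submodule.eq_of_le_of_finrank_le hle h2
  rw [h4]
  exact hy

end MSY

open MSY in
theorem MSY_thm (hSPP : SPP) (hLCI : Stmt_LCI) (hHNE : Stmt_HNE) (hZA : Stmt_ZA) (hZI : Stmt_ZI)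
    (hZL : Stmt_ZL) (hZT : Stmt_ZT) (hVDIM : Stmt_VDIM) : Stmt_MSY := by
  intro h n m k π p e r f w0 c hn hh M N y α β hT
  have hy0 : ∀ i, y i ≠ 0 := fun i => hT.ind.ne_zero i
  have hA := fun i => hZA n m k π p e r f hn (y i)
  have hN0 : 0 < 3 ^ h * n := by
    have := EHYP.n_ne hn
    positivity
  have hunr : ∀ (i : Fin M) (σ : PP), ¬ σ.1 ∣ ((3 ^ h * n : ℕ) : Eis) → ¬ σ.1 ∣ zN π e (y i) := by
    intro i σ hσ
    refine (hA i).2.2.2.1 σ fun h2 => hσ ?_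
    push_cast
    exact Dvd.dvd.mul_left h2 _
  have hL : ∀ i, y i ∈ V0 h n π p e r w0 c → LCE lam (zN π e (y i)) := fun i hi =>
    SYK.lc hLCI (hZL n m k π p e r f hn (y i) hi.2.1 hi.2.2)
  have hpair : ∀ j : Fin N, ∃ P Q P' Q' : Eis,
      SolE (zN π e (y (α j))) (zN π e (y (β j))) P Q P' Q' ∧
      (HypD (3 ^ h * n) (zN π e (y (β j))) (zN π e (y (α j))) P Q P' Q' ∨
        (h ≠ 1 ∧ HypX (3 ^ h * n) (zN π e (y (β j))) (zN π e (y (α j))) P Q P' Q')) := by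
    intro j
    by_cases hβ : y (β j) ∈ V0 h n π p e r w0 c
    · obtain ⟨P, Q, P', Q', hs⟩ := sol hHNE hZA hZL hZT hn hh hβ (hT.mem (α j)) (hy0 _) (hy0 _)
      have hs' := SYK.swap hs
      exact ⟨P, -P', -Q, Q', hs', Or.inl ⟨hN0, hs', (hA _).1, (hA _).1, hL _ hβ,
        fun σ hσ => ⟨hunr _ σ hσ, hunr _ σ hσ⟩, SYK.VN_le hSPP hn h⟩⟩
    · have hα : y (α j) ∈ V0 h n π p e r w0 c := (hT.wl j).resolve_right hβ
      obtain ⟨P, Q, P', Q', hs⟩ := sol hHNE hZA hZL hZT hn hh hα (hT.mem (β j)) (hy0 _) (hy0 _)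
      exact ⟨P, Q, P', Q', hs, Or.inr ⟨fun h1 => hβ (V0_eq hVDIM h1 (hT.mem _)),
        ⟨hN0, hs, (hA _).1, (hA _).1, hL _ hα, (hA _).2.1, (hA _).2.2.1,
          fun σ hσ => ⟨hunr _ σ hσ, hunr _ σ hσ⟩, SYK.VN_le hSPP hn h⟩⟩⟩
  choose P Q P' Q' hs hH using hpair
  refine ⟨P, Q, P', Q', ⟨?_, fun i => (hA i).2.2.1, hT.lt, hT.inj, hs⟩, hH⟩
  rintro d ⟨i, hi⟩ hd
  have h1 := hZI n m k π p e r f hn M y d hd
  have h2 := Fintype.linearIndependent_iff.1 hT.ind (fun i => (d i : ZMod 3)) h1 i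
  exact hi ((ZMod.natCast_eq_zero_iff _ 3).1 h2)

end Pool.Agent.PTK
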