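import Pool.Agent.PTK.StZ2
import Pool.Agent.PTK.MSY
import Pool.Agent.PTK.ZL

/-!
# PTK_MSF: existence of the solutions for the matrix of the minus part
-/

set_option autoImplicit false

open NumberField IsDedekindDomain Finset
open scoped nonZeroDivisors Pointwise

namespace Pool.Agent.PTK

open Pool.Agent.Lib_helper18 Pool.Agent.Lib_helper18.Eis Pool.Agent.Lib_helper84.Cub
open Pool.Agent.PT Pool.Agent.PTE Pool.Agent.PT3 Pool.Agent.PTL Pool.Agent.PTN
open Pool.Agent.PT.EHYP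

namespace MSF

variable {h n m k : ℕ} {π : Fin m → PP} {p e : Fin m → ℕ} {r f : Fin k → ℕ}
  {w0 : ZMod 3} {c : Fin m → ZMod 3}

/-- `zN π e y` as a product of primary elements if `y 0 = 0` -/
theorem zN_eq {y : Fin (m + 1) → ZMod 3} (hy0 : y 0 = 0) :
    zN π e y = ∏ i, ((π i).1 ^ ((e i : ZMod 3) * y i.succ).val *
      conj (π i).1 ^ (2 * ((e i : ZMod 3) * y i.succ)).val) := by
  unfold zN
  rw [hy0, neg_zero, ZMod.val_zero, pow_zero, one_mul]

theorem prim (hn : NF n π p e r f) {y : Fin (m + 1) → ZMod 3} (hy0 : y 0 = 0) :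
    Prim (zN π e y) ∧ (zN π e y).norm % 9 = 1 := by
  have hexp : ∀ a : ZMod 3, (a.val = 0 ∧ (2 * a).val = 0) ∨ a.val + (2 * a).val = 3 := by
    decide
  rw [zN_eq hy0]
  refine Finset.prod_induction _ (fun x => Prim x ∧ x.norm % 9 = 1) ?_ ?_ ?_
  · rintro a b ⟨ha, ha'⟩ ⟨hb, hb'⟩
    refine ⟨ha.mul hb, ?_⟩
    rw [Eis.norm_mul, Int.mul_emod, ha', hb']
    norm_num
  · exact ⟨Eis.prim_one, by simp [norm_def]⟩
  · intro i _
    refine ⟨((ZL.prim_PP (π i)).pow _).mul ((ZL.prim_PP (π i)).conj.pow _), ?_⟩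
    have h1 : (conj (π i).1).norm = p i := by
      rw [norm_conj, norm_eq hn]
    have hpw : ∀ (x : Eis) (k : ℕ), (x ^ k).norm = x.norm ^ k := by
      intro x k
      induction k with
      | zero => simp [norm_def]
      | succ k ih => rw [pow_succ, Eis.norm_mul, ih, pow_succ]
    rw [Eis.norm_mul, hpw, hpw, h1, norm_eq hn, ← pow_add]
    rcases hexp ((e i : ZMod 3) * y i.succ) with ⟨h2, h3⟩ | h2
    · rw [h2, h3]
      norm_num
    · rw [h2]
      have h4 := hn.p1 i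
      obtain ⟨c, hc⟩ : ∃ c : ℤ, (p i : ℤ) = 1 + 3 * c := ⟨(p i : ℤ) / 3, by omega⟩
      have h5 : (p i : ℤ) ^ 3 = 1 + 9 * (c + 3 * c ^ 2 + 3 * c ^ 3) := by
        rw [hc]
        ring
      rw [h5]
      omega

theorem sl3 (hSPP : SPP) (hSSL : SSL) (hSCJ : SCJ) {y : Fin (m + 1) → ZMod 3} (hy0 : y 0 = 0) :
    sl (zN π e y) 3 = - ∑ i : Fin m, y i.succ * ((e i : ZMod 3) * sym (π i).1 3) := by
  have hcn : ∀ i, (conj (π i).1) ≠ 0 := fun i => (prime_conj (π i).2.1).ne_zero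
  have hF := add3_sl hSSL ZL.three_ne
  rw [zN_eq hy0]
  obtain ⟨g, hg⟩ : ∃ g : Fin m → ZMod 3, g = fun i => (e i : ZMod 3) * y i.succ := ⟨_, rfl⟩
  have hgi : ∀ i, (e i : ZMod 3) * y i.succ = g i := fun i => by rw [hg]
  simp only [hgi]
  have h1 : sl (∏ i, ((π i).1 ^ (g i).val * conj (π i).1 ^ (2 * g i).val)) 3 =
      ∑ i, sl ((π i).1 ^ (g i).val * conj (π i).1 ^ (2 * g i).val) 3 :=
    hF.prod Finset.univ
      (fun i => (π i).1 ^ (g i).val * conj (π i).1 ^ (2 * g i).val) (fun i _ =>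
        mul_ne_zero (pow_ne_zero _ (π i).2.1.ne_zero) (pow_ne_zero _ (hcn i)))
  rw [h1]
  have h2 : ∀ i, sl ((π i).1 ^ (g i).val * conj (π i).1 ^ (2 * g i).val) 3 =
      - (g i * sym (π i).1 3) := by
    intro i
    have h3 : sl ((π i).1 ^ (g i).val * conj (π i).1 ^ (2 * g i).val) 3 =
        sl ((π i).1 ^ (g i).val) 3 + sl (conj (π i).1 ^ (2 * g i).val) 3 :=
      hF ((π i).1 ^ (g i).val) (conj (π i).1 ^ (2 * g i).val)
        (pow_ne_zero _ (π i).2.1.ne_zero) (pow_ne_zero _ (hcn i))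
    have h4 : sl ((π i).1 ^ (g i).val) 3 = ((g i).val : ZMod 3) * sl (π i).1 3 :=
      hF.pow (π i).2.1.ne_zero (g i).val
    have h5 : sl (conj (π i).1 ^ (2 * g i).val) 3 =
        ((2 * g i).val : ZMod 3) * sl (conj (π i).1) 3 := hF.pow (hcn i) (2 * g i).val
    rw [h3, h4, h5, ZL.sl_three hSPP, ZL.sl_conj_three hSPP hSCJ, ZMod.natCast_zmod_val,
      ZMod.natCast_zmod_val]
    ring
  rw [Finset.sum_congr rfl fun i _ => h2 i, Finset.sum_neg_distrib]
  congr 1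
  refine Finset.sum_congr rfl fun i _ => ?_
  rw [hg]
  ring

/-- the solution with a base prime to `w` outside `V0` -/
theorem sol2 (hHN2 : Stmt_HN2) (hZA : Stmt_ZA) (hZT : Stmt_ZT) (hSPP : SPP) (hSSL : SSL)
    (hSREC : SREC) (hSCJ : SCJ) (hn : NF n π p e r f) (hh : h ≤ 2)
    {u y : Fin (m + 1) → ZMod 3} (hu : u ∈ VS h n π p e r w0 c)
    (hu1 : u ∉ V0 h n π p e r w0 c) (hu2 : u 0 = 0) (hy : y ∈ VS h n π p e r w0 c)
    (hu0 : u ≠ 0) (hy0 : y ≠ 0) :
    ∃ P Q P' Q' : Eis, SolE (zN π e u) (zN π e y) P Q P' Q' := by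
  have hAy := hZA n m k π p e r f hn y
  have hAu := hZA n m k π p e r f hn u
  have hcy : ¬ ∃ c : Eis, c ^ 3 = zN π e y := fun h1 => hy0 (hAy.2.2.2.2.2.2.2.2.2 h1)
  have hcu : ¬ ∃ c : Eis, c ^ 3 = zN π e u := fun h1 => hu0 (hAu.2.2.2.2.2.2.2.2.2 h1)
  have hT := hZT h n m k π p e r f w0 c hn hh u hu y hy
  have hP := prim hn hu2
  have hne : sl (zN π e u) lam ≠ 0 := by
    intro h0
    have h1 := ZL.sl_prim hSSL hSREC hP.1 hP.2
    rw [sl3 hSPP hSSL hSCJ hu2] at h1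
    rw [hSREC.2.2.1 _ hP.1, ← h1] at h0
    apply hu1
    refine ⟨hu, hu2, ?_⟩
    have h3 := three_zero (∑ i : Fin m, u i.succ * ((e i : ZMod 3) * sym (π i).1 3))
    linear_combination h0 + h3
  exact hHN2 (zN π e u) (zN π e y) hAu.1 hP.1 hne hcu hAu.2.2.2.2.1 hAy.1 hcy hT.1 hT.2

end MSF

open MSF in
theorem MSF_thm (hHNE : Stmt_HNE) (hHN2 : Stmt_HN2) (hZA : Stmt_ZA) (hZI : Stmt_ZI)
    (hZL : Stmt_ZL) (hZT : Stmt_ZT) (hSSL : SSL) (hSREC : SREC) (hSCJ : SCJ)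
    (hSPP : SPP) : Stmt_MSF := by
  intro h n m k π p e r f w0 c hn hh l y hy
  have hy0 : ∀ i, y i ≠ 0 := fun i => hy.ind.ne_zero i
  have hA := fun i => hZA n m k π p e r f hn (y i)
  have hpair : ∀ i j : Fin l, ∃ P Q P' Q' : Eis,
      i < j → SolE (zN π e (y i)) (zN π e (y j)) P Q P' Q' := by
    intro i j
    by_cases hij : i < j
    · by_cases hi : y i ∈ V0 h n π p e r w0 c
      · obtain ⟨P, Q, P', Q', hs⟩ :=
          MSY.sol hHNE hZA hZL hZT hn hh hi (hy.mem j) (hy0 _) (hy0 _)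
        exact ⟨P, Q, P', Q', fun _ => hs⟩
      · by_cases hj : y j ∈ V0 h n π p e r w0 c
        · obtain ⟨P, Q, P', Q', hs⟩ :=
            MSY.sol hHNE hZA hZL hZT hn hh hj (hy.mem i) (hy0 _) (hy0 _)
          exact ⟨P, -P', -Q, Q', fun _ => SYK.swap hs⟩
        · have h0 : y i 0 = 0 := by
            rcases hy.wd i j hij with h1 | h1 | h1
            · exact absurd h1 hi
            · exact absurd h1 hj
            · exact h1
          obtain ⟨P, Q, P', Q', hs⟩ := sol2 hHN2 hZA hZT hSPP hSSL hSREC hSCJ hn hh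
            (hy.mem i) hi h0 (hy.mem j) (hy0 _) (hy0 _)
          exact ⟨P, Q, P', Q', fun _ => hs⟩
    · exact ⟨0, 0, 0, 0, fun h1 => absurd h1 hij⟩
  choose P Q P' Q' hs using hpair
  refine ⟨fun a b => if a < b then P a b else P b a,
    fun a b => if a < b then Q a b else - P' b a,
    fun a b => if a < b then P' a b else - Q b a,
    fun a b => if a < b then Q' a b else Q' b a, ⟨?_, ?_, ?_, ?_⟩⟩
  · rintro d ⟨i, hi⟩ hd
    have h1 := hZI n m k π p e r f hn l y d hd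
    have h2 := Fintype.linearIndependent_iff.1 hy.ind (fun i => (d i : ZMod 3)) h1 i
    exact hi ((ZMod.natCast_eq_zero_iff _ 3).1 h2)
  · exact fun i => ⟨(hA i).2.1, (hA i).2.2.1⟩
  · intro j i hji
    by_cases h1 : j < i
    · simp only [h1, if_true]
      exact hs j i h1
    · have h2 : i < j := lt_of_le_of_ne (not_lt.1 h1) (Ne.symm hji)
      simp only [h1, if_false]
      exact SYK.swap (hs i j h2)
  · intro j i hji
    by_cases h1 : j < i
    · have h2 : ¬ i < j := not_lt.2 h1.le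
      refine ⟨?_, ?_, ?_, ?_⟩ <;> simp [h1, h2]
    · have h2 : i < j := lt_of_le_of_ne (not_lt.1 h1) (Ne.symm hji)
      refine ⟨?_, ?_, ?_, ?_⟩ <;> simp [h1, h2]

end Pool.Agent.PTK
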