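import Pool.Agent.PTK.StZ
import Pool.Agent.PTK.NGN

/-!
# A set of places and sufficiently many units with independent symbols, `x` not a local cube at `λ`

Hypotheses: `SPP`, `SSL`, `SREC`, `SLC`, `Stmt_LCI`, `NAUX`.
-/

set_option autoImplicit false

open NumberField IsDedekindDomain Finset
open scoped nonZeroDivisors Pointwise

namespace Pool.Agent.PTK

open Pool.Agent.Lib_helper18 Pool.Agent.Lib_helper18.Eis Pool.Agent.Lib_helper84.Cub
open Pool.Agent.PT

namespace NG2

open Pool.Agent.PT.NGEN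

theorem not_dvd_lam (hSPP : SPP) (π : PP) : ¬ π.1 ∣ lam := fun h =>
  not_three hSPP π (h.trans lam_dvd_three)

theorem not_lam_dvd (hSPP : SPP) (π : PP) : ¬ lam ∣ π.1 :=
  not_lam_dvd_of_prime π.2.1 (not_three hSPP π)

end NG2

open Pool.Agent.PT.NGEN NGN NG2 in
open Classical in
/-- a set of places and sufficiently many units with independent symbols -/
theorem NG2_thm (hSPP : SPP) (hSSL : SSL) (hSREC : SREC) (hSLC : SLC) (hLCI : Stmt_LCI)
    (hNAUX : NAUX) : Stmt_NG2 := by
  intro x S₀ hx0 hxP hxl hV hcube hnone hS0 hS0'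
  have hlam0 : lam ≠ 0 := prime_lam.ne_zero
  have hnlam : ¬ LCE lam x := fun h => hxl (hLCI.2.2 lam sl 4 x lam hSLC h hx0 hlam0)
  obtain ⟨D, hD⟩ : ∃ D : Finset PP, ∀ π : PP, π ∈ D ↔ π.1 ∣ x := by
    refine ⟨(hSPP.2.2.1 x hx0).toFinset, fun π => ?_⟩
    rw [Set.Finite.mem_toFinset]
    rfl
  obtain ⟨π₀, hπ₀⟩ := exists_dvdE hSPP hx0 hxP hcube
  have hπ₀D : π₀ ∈ D := (hD π₀).2 hπ₀
  have hVD : ∀ π ∈ D, (V π.1 x : ZMod 3) * (V π.1 x : ZMod 3) = 1 ∧
      ¬ 3 ∣ V π.1 x := fun π hπ => V_castE π ((hD π).1 hπ) (hV π)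
  let κ : Type := {k // k ∈ D.erase π₀}
  -- the vectors
  let r : κ → PP → ZMod 3 := fun k π => if π = k.1 then 1 else
    if π = π₀ then - (V k.1.1 x : ZMod 3) * (V π₀.1 x : ZMod 3) else 0
  have hkD : ∀ k : κ, k.1 ∈ D ∧ k.1 ≠ π₀ := fun k =>
    ⟨Finset.mem_of_mem_erase k.2, Finset.ne_of_mem_erase k.2⟩
  have hr0 : ∀ k : κ, ∑ π ∈ D, (V π.1 x : ZMod 3) * r k π = 0 := by
    intro k
    obtain ⟨hk1, hk2⟩ := hkD k
    have h1 : ∑ π ∈ D, (V π.1 x : ZMod 3) * r k π =
        ∑ π ∈ ({k.1, π₀} : Finset PP), (V π.1 x : ZMod 3) * r k π := by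
      symm
      apply Finset.sum_subset
      · intro π hπ
        rcases Finset.mem_insert.1 hπ with rfl | hπ
        · exact hk1
        · rw [Finset.mem_singleton.1 hπ]
          exact hπ₀D
      · intro π _ hπ
        rw [Finset.mem_insert, Finset.mem_singleton, not_or] at hπ
        simp only [r]
        rw [if_neg hπ.1, if_neg hπ.2, mul_zero]
    have hr1 : r k k.1 = 1 := if_pos rfl
    have hr2 : r k π₀ = - (V k.1.1 x : ZMod 3) * (V π₀.1 x : ZMod 3) := by
      change (if π₀ = k.1 then (1 : ZMod 3) else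
        if π₀ = π₀ then - (V k.1.1 x : ZMod 3) * (V π₀.1 x : ZMod 3) else 0) = _
      rw [if_neg hk2.symm, if_pos rfl]
    rw [h1, Finset.sum_pair hk2, hr1, hr2]
    have h2 := (hVD π₀ hπ₀D).1
    calc (V k.1.1 x : ZMod 3) * 1 + (V π₀.1 x : ZMod 3) *
          (- (V k.1.1 x : ZMod 3) * (V π₀.1 x : ZMod 3))
        = (V k.1.1 x : ZMod 3) * (1 - (V π₀.1 x : ZMod 3) *
          (V π₀.1 x : ZMod 3)) := by ring
      _ = 0 := by rw [h2, sub_self, mul_zero]
  have hrk : ∀ k l : κ, r k l.1 = if l = k then 1 else 0 := by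
    intro k l
    simp only [r]
    by_cases h : l = k
    · rw [h, if_pos rfl, if_pos rfl]
    · rw [if_neg (fun h' => h (Subtype.ext h')), if_neg (hkD l).2, if_neg h]
  -- the auxiliary primes
  have hex : ∀ (k : κ) (A : Finset PP), ∃ ρ : PP, ρ ∉ A ∧ ∃ ε : ZMod 3, ε ≠ 0 ∧
      ∀ π ∈ D, sym ρ.1 π.1 = ε * r k π := by
    intro k A
    obtain ⟨ρ, hρ, ε, hε, h⟩ := hNAUX D.card (fun i => (D.equivFin.symm i).1)
      (fun i => r k (D.equivFin.symm i).1) A (fun i j h => by
        exact D.equivFin.symm.injective (Subtype.ext h))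
    refine ⟨ρ, hρ, ε, hε, fun π hπ => ?_⟩
    have := h (D.equivFin ⟨π, hπ⟩)
    simpa using this
  let A₀ : Finset PP := (S₀.biUnion fun v => match v with
    | none => ∅
    | some π => {π})
  have hA₀ : ∀ π : PP, π ∈ A₀ ↔ some π ∈ S₀ := by
    intro π
    simp only [A₀, Finset.mem_biUnion]
    constructor
    · rintro ⟨v, hv, hπ⟩
      cases v with
      | none => simp at hπ
      | some π' =>
        have : π = π' := by simpa using hπ
        rw [this]
        exact hv
    · intro h
      exact ⟨some π, h, by simp⟩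
  obtain ⟨ρ, hρ1, hρ2⟩ := choose_distinct (κ := κ) (α := PP)
    (fun k ρ => ∃ ε : ZMod 3, ε ≠ 0 ∧ ∀ π ∈ D, sym ρ.1 π.1 = ε * r k π) A₀ hex Finset.univ
  have hρS : ∀ k, some (ρ k) ∉ S₀ := fun k h => (hρ1 k (Finset.mem_univ _)).2 ((hA₀ _).2 h)
  have hρD : ∀ k, ρ k ∉ D := fun k h => hρS k (hS0 _ ((hD _).1 h))
  have hρinj : ∀ k l, ρ k = ρ l → k = l := fun k l h =>
    hρ2 k (Finset.mem_univ _) l (Finset.mem_univ _) h
  choose ε hε hsym using fun k => (hρ1 k (Finset.mem_univ _)).1
  have hsym' : ∀ k, ∀ π ∈ D, sym π.1 (ρ k).1 = ε k * r k π := by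
    intro k π hπ
    have hne : π ≠ ρ k := fun h => hρD k (h ▸ hπ)
    rw [← recPP hSPP hSREC hne]
    exact hsym k π hπ
  have htm : ∀ k, ∀ π ∈ D, tm π.1 (ρ k).1 x =
      (V π.1 x : ZMod 3) * (ε k * r k π) := by
    intro k π hπ
    have hne : π ≠ ρ k := fun h => hρD k (h ▸ hπ)
    rw [tm_eqE hSPP hne, hsym' k π hπ]
  have htm0 : ∀ k, ∑ π ∈ D, tm π.1 (ρ k).1 x = 0 := by
    intro k
    rw [Finset.sum_congr rfl (htm k)]
    have h1 : ∀ π ∈ D, (V π.1 x : ZMod 3) * (ε k * r k π) =
        ε k * ((V π.1 x : ZMod 3) * r k π) := fun π _ => by ring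
    rw [Finset.sum_congr rfl h1, ← Finset.mul_sum, hr0 k, mul_zero]
  have hLCρ : ∀ k, LCE (ρ k).1 x := by
    intro k
    rw [hLCI.1 (ρ k) x hx0]
    have hnd : ¬ (ρ k).1 ∣ x := fun h => hρD k ((hD _).2 h)
    refine ⟨by rw [V_eq_zero hnd]; exact dvd_zero _, ?_⟩
    rw [ch_eqE hSPP hSREC hxP D hD (ρ k) (hρD k)]
    have h1 : ∀ π ∈ D, (V π.1 x : ZMod 3) * sym π.1 (ρ k).1 =
        ε k * ((V π.1 x : ZMod 3) * r k π) := fun π hπ => by
      rw [hsym' k π hπ]
      ring
    rw [Finset.sum_congr rfl h1, ← Finset.mul_sum, hr0 k, mul_zero]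
  have hLCD : ∀ π ∈ D, ¬ LCE π.1 x := by
    intro π hπ h
    exact (hVD π hπ).2 ((hLCI.1 π x hx0).1 h).1
  -- the set of places
  let S : Finset Pl := S₀ ∪ Finset.univ.image (fun k : κ => some (ρ k))
  have hmemS : ∀ v, v ∈ S ↔ v ∈ S₀ ∨ ∃ k, some (ρ k) = v := by
    intro v
    simp [S]
  have hLCS : ∀ v ∈ S, v ∉ S₀ → LCE (uni v) x := by
    intro v hv hv0
    rcases (hmemS v).1 hv with h | ⟨k, rfl⟩
    · exact absurd h hv0
    · exact hLCρ k
  have hSsub : S₀ ⊆ S := fun v hv => (hmemS v).2 (Or.inl hv)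
  have hcκ : Fintype.card κ + 1 = D.card := by
    have h1 : Fintype.card κ = (D.erase π₀).card := Fintype.card_coe _
    rw [h1, Finset.card_erase_of_mem hπ₀D]
    have : 0 < D.card := Finset.card_pos.2 ⟨π₀, hπ₀D⟩
    omega
  have hfilter : ∀ v, v ∈ S.filter (fun v => ¬ LCE (uni v) x) ↔
      v ∈ insert none (D.image some) := by
    intro v
    rw [Finset.mem_filter, hmemS, Finset.mem_insert]
    cases v with
    | none =>
      constructor
      · intro _
        exact Or.inl rfl
      · intro _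
        exact ⟨Or.inl hnone, hnlam⟩
    | some π =>
      constructor
      · rintro ⟨h1, h2⟩
        refine Or.inr ?_
        rw [Finset.mem_image]
        rcases h1 with h1 | ⟨k, hk⟩
        · exact ⟨π, (hD π).2 (hS0' π h1 h2), rfl⟩
        · exfalso
          have : ρ k = π := by simpa using hk
          exact h2 (this ▸ hLCρ k)
      · intro h
        rcases h with h | h
        · exact absurd h (by simp)
        rw [Finset.mem_image] at h
        obtain ⟨π', hπ', he⟩ := h
        have : π' = π := by simpa using he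
        subst this
        exact ⟨Or.inl (hS0 _ ((hD _).1 hπ')), hLCD _ hπ'⟩
  have hVρ : ∀ k l, V (ρ k).1 (ρ l).1 = if l = k then 1 else 0 := by
    intro k l
    by_cases h : l = k
    · rw [h, if_pos rfl]
      exact V_self
    · rw [if_neg h]
      apply V_eq_zero
      intro hd
      exact h (hρinj _ _ (eq_of_dvd hSPP hd)).symm
  have hρdS : ∀ (k : κ) (v : Pl), uni v ∣ (ρ k).1 → v ∈ S := by
    intro k v hv
    cases v with
    | none => exact hSsub hnone
    | some π =>
      have : π = ρ k := eq_of_dvd hSPP hv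
      rw [this]
      exact (hmemS _).2 (Or.inr ⟨k, rfl⟩)
  -- independence, first part
  have hsum : ∀ (n : κ → ZMod 3) (l : κ), ∑ k, n k * tm l.1.1 (ρ k).1 x =
      (V l.1.1 x : ZMod 3) * (ε l * n l) := by
    intro n l
    rw [Finset.sum_eq_single l]
    · rw [htm l l.1 (hkD l).1, hrk, if_pos rfl]
      ring
    · intro k _ hk
      rw [htm k l.1 (hkD l).1, hrk, if_neg (fun h => hk h.symm)]
      ring
    · intro h
      exact absurd (Finset.mem_univ _) h
  have hzero : ∀ (l : κ) (a : ZMod 3), (V l.1.1 x : ZMod 3) * (ε l * a) = 0 → a = 0 := by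
    intro l a h
    have h1 := (hVD l.1 (hkD l).1).1
    have h2 : (V l.1.1 x : ZMod 3) ≠ 0 := by
      intro h0
      rw [h0, mul_zero] at h1
      exact zero_ne_one h1
    rcases mul_eq_zero.1 h with h | h
    · exact absurd h h2
    · rcases mul_eq_zero.1 h with h | h
      · exact absurd h (hε l)
      · exact h
  -- the symbols of `λ`
  have hlamsum : ∑ π ∈ D, tm π.1 lam x = sl x lam := by
    have h1 := sl_eq (a := lam) (b := x) D (fun π h => by
      rcases h with h | h
      · exact absurd h (not_dvd_lam hSPP π)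
      · exact (hD π).2 h)
    have h2 := hSSL.2.1 x lam hx0 hlam0
    rw [h1] at h2
    exact neg_injective h2
  let d : Option κ → Eis := fun o => match o with
    | none => lam
    | some k => (ρ k).1
  have hd0 : ∀ o, d o ≠ 0 := by
    intro o
    cases o with
    | none => exact hlam0
    | some k => exact (ρ k).2.1.ne_zero
  refine transferE (κ := Option κ) x S₀ S d hSsub hLCS ?_ hd0 ?_ ?_ ?_
  · have h1 : S.filter (fun v => ¬ LCE (uni v) x) = insert none (D.image some) := by
      ext v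
      rw [hfilter]
    rw [h1, Finset.card_insert_of_notMem (by simp),
      Finset.card_image_of_injective _ (Option.some_injective _), Fintype.card_option, hcκ]
  · intro o v hv
    cases o with
    | none =>
      cases v with
      | none => exact hSsub hnone
      | some π => exact absurd hv (not_dvd_lam hSPP π)
    | some k => exact hρdS k v hv
  · apply mul_indep
    · exact hd0
    · intro o
      cases o with
      | none =>
        refine ⟨lam, prime_lam, ?_, ?_⟩
        · change V lam lam ≠ 0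
          rw [V_self]
          exact one_ne_zero
        · intro o' ho'
          cases o' with
          | none => exact absurd rfl ho'
          | some k => exact V_eq_zero (not_lam_dvd hSPP (ρ k))
      | some k =>
        refine ⟨(ρ k).1, (ρ k).2.1, ?_, ?_⟩
        · change V (ρ k).1 (ρ k).1 ≠ 0
          rw [hVρ, if_pos rfl]
          exact one_ne_zero
        · intro o' ho'
          cases o' with
          | none => exact V_eq_zero (not_dvd_lam hSPP (ρ k))
          | some l =>
            change V (ρ k).1 (ρ l).1 = 0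
            rw [hVρ, if_neg (fun h => ho' (by rw [h]))]
  · intro n h
    have h1 : ∀ π : PP, n none * tm π.1 lam x + ∑ k, n (some k) * tm π.1 (ρ k).1 x = 0 := by
      intro π
      have h2 := h (some π)
      rw [Fintype.sum_option] at h2
      exact h2
    have hn0 : n none = 0 := by
      have h2 : ∑ π ∈ D, (n none * tm π.1 lam x + ∑ k, n (some k) * tm π.1 (ρ k).1 x) = 0 :=
        Finset.sum_eq_zero fun π _ => h1 π
      rw [Finset.sum_add_distrib, ← Finset.mul_sum, hlamsum, Finset.sum_comm] at h2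
      have h3 : ∑ k, ∑ π ∈ D, n (some k) * tm π.1 (ρ k).1 x = 0 := by
        apply Finset.sum_eq_zero
        intro k _
        rw [← Finset.mul_sum, htm0 k, mul_zero]
      rw [h3, add_zero] at h2
      rcases mul_eq_zero.1 h2 with h4 | h4
      · exact h4
      · exact absurd h4 hxl
    funext o
    cases o with
    | none => exact hn0
    | some l =>
      have h2 := h1 l.1
      rw [hn0, zero_mul, zero_add, hsum (fun k => n (some k)) l] at h2
      exact hzero l _ h2

end Pool.Agent.PTK
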