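import Pool.Agent.PTK.StZ
import Pool.Agent.PT.NMAIN

/-!
# PTK, module NM2: the norm theorem for `K(x^(1/3)) / K`, base not a local cube at `λ`

As `PTK/NMN.lean` (helper54), with `NG2` in place of `NGN` (helper62).
-/

set_option autoImplicit false

open NumberField IsDedekindDomain Finset
open scoped nonZeroDivisors Pointwise

namespace Pool.Agent.PTK

open Pool.Agent.Lib_helper18 Pool.Agent.Lib_helper18.Eis Pool.Agent.Lib_helper84.Cub
open Pool.Agent.PT

open Pool.Agent.PT.NMAIN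

/-- NM2. -/
theorem NM2_thm (hSTM : STM) (hSPP : SPP) (hSSL : SSL) (hSLC : SLC)
    (hHERBQ : HERBQ) (hSUN : SUN) (hNRK : Stmt_NRK) (hNHN : Stmt_NHN) (hNTR : Stmt_NTR)
    (hNCN : Stmt_NCN) (hNFX : Stmt_NFX) (hNHO : Stmt_NHO) (hNNS : Stmt_NNS)
    (hNG2 : Stmt_NG2) : Stmt_NM2 := by
  classical
  intro x L _ _ ι θ σ hxE hxP hxl hV hcube hF y hyE htm hyLC
  have hx3 : ¬ lam ∣ x := hxP.not_lam_dvd
  have hι := hF.inj
  have hι0 : ∀ a : Eis, a ≠ 0 → ι a ≠ 0 := fun a ha h => ha (hι (by rw [h, map_zero]))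
  -- the set of places
  obtain ⟨S₀, hS₀⟩ : ∃ S₀ : Finset Pl, ∀ v, v ∈ S₀ ↔ v = none ∨
      ∃ π : PP, v = some π ∧ (π.1 ∣ x ∨ π.1 ∣ y) := by
    have hfin : ({v : Pl | v = none ∨ ∃ π : PP, v = some π ∧
        (π.1 ∣ x ∨ π.1 ∣ y)}).Finite := by
      have h1 := (hSPP.2.2.1 x hxE).union (hSPP.2.2.1 y hyE)
      refine ((h1.image some).insert none).subset ?_
      rintro v (rfl | ⟨π, rfl, h⟩)
      · exact Set.mem_insert _ _
      · exact Set.mem_insert_of_mem _ ⟨π, h, rfl⟩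
    exact ⟨hfin.toFinset, fun v => hfin.mem_toFinset⟩
  obtain ⟨S, e, d, hSS, hSLC', hcard, hd0, hdS, hdind, hdsym⟩ := hNG2 x S₀ hxE hxP hxl hV hcube
    ((hS₀ none).2 (Or.inl rfl)) (fun π h => (hS₀ _).2 (Or.inr ⟨π, rfl, Or.inl h⟩)) (by
      intro π h hLC
      rcases (hS₀ _).1 h with h1 | ⟨π', h1, h2⟩
      · exact absurd h1 (by simp)
      · have h3 : π = π' := Option.some.inj h1
        subst h3
        rcases h2 with h2 | h2
        · exact h2
        · exact hyLC π h2 hLC)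
  have hnone : none ∈ S := hSS ((hS₀ none).2 (Or.inl rfl))
  have hxS : ∀ π : PP, π.1 ∣ x → some π ∈ S := fun π h =>
    hSS ((hS₀ _).2 (Or.inr ⟨π, rfl, Or.inl h⟩))
  have hyS : ∀ v : Pl, uni v ∣ y → v ∈ S := by
    intro v hv
    cases v with
    | none => exact hnone
    | some π => exact hSS ((hS₀ _).2 (Or.inr ⟨π, rfl, Or.inr hv⟩))
  obtain ⟨H1, H2, -⟩ := hNHN x L ι θ σ hxE hF
  obtain ⟨-, T2, -, T4, -, -⟩ := hNTR x L ι θ σ hxE hx3 hF
  obtain ⟨X1, X2, X3⟩ := hNFX x L ι θ σ hxE hx3 hF S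
  obtain ⟨O1, O2⟩ := hNHO x L ι θ σ hxE hx3 hF S hnone hxS
  have hNC := hNCN x L ι θ σ hxE hx3 hV hF
  have hσ3 : σ ^ 3 = 1 := by
    ext z
    change σ (σ (σ z)) = z
    exact H1 z
  -- norms
  have hNval : ∀ u : Lˣ, ((∏ i ∈ range 3, σ ^ i • u : Lˣ) : L) = u * σ u * σ (σ u) := by
    intro u
    rw [prod_range_succ, prod_range_succ, prod_range_succ, prod_range_zero, one_mul]
    rfl
  have hN : ∀ u : Lˣ, ∃ a b : Eis, a ≠ 0 ∧ b ≠ 0 ∧
      ((∏ i ∈ range 3, σ ^ i • u : Lˣ) : L) * ι b = ι a := by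
    intro u
    have h1 : σ ((∏ i ∈ range 3, σ ^ i • u : Lˣ) : L) = ((∏ i ∈ range 3, σ ^ i • u : Lˣ) : L) := by
      rw [hNval, map_mul, map_mul, H1]
      ring
    obtain ⟨a, b, hb, hab⟩ := H2 _ h1
    refine ⟨a, b, ?_, hb, hab⟩
    rintro rfl
    rw [map_zero] at hab
    exact (mul_ne_zero (Units.ne_zero _) (hι0 b hb)) hab
  -- the units
  have hd' : ∀ i, ∃ u : Lˣ, (u : L) = ι (d i) := fun i => ⟨Units.mk0 _ (hι0 _ (hd0 i)), rfl⟩
  choose d' hd' using hd'
  have hpsi := fun {u : Lˣ} {a b : Eis} (ha : a ≠ 0) (hb : b ≠ 0) (h : (u : L) * ι b = ι a) v =>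
    psi_eq (L := L) (ι := ι) hSTM hSPP hSSL hι hxE ha hb h v
  have hpsi1 : ∀ (u : Lˣ) (a : Eis), a ≠ 0 → (u : L) = ι a → ∀ v, psi ι x u v = sy v a x := by
    intro u a ha h v
    rw [hpsi (u := u) ha one_ne_zero (by rw [map_one, mul_one, h]),
      sy_one hSTM hSPP hSSL v _ hxE, sub_zero]
  -- the set of primes
  obtain ⟨A, hA⟩ : ∃ A : Finset (HeightOneSpectrum (𝓞 L)),
      (A : Set (HeightOneSpectrum (𝓞 L))) = ⋃ v ∈ S, Abv ι v := by
    have hfin : (⋃ v ∈ S, Abv ι v).Finite := S.finite_toSet.biUnion fun v _ => (T4 v).1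
    exact ⟨hfin.toFinset, hfin.coe_toFinset⟩
  obtain ⟨U1, U2⟩ := hSUN L A
  rw [hA] at U1 U2
  have hAcard : A.card + 2 * (e + 1) = 3 * S.card := by
    have h1 : A = S.biUnion fun v => (T4 v).1.toFinset := by
      ext P
      rw [Finset.mem_biUnion, ← Finset.mem_coe, hA, Set.mem_iUnion₂]
      constructor
      · rintro ⟨v, hv, hP⟩
        exact ⟨v, hv, (T4 v).1.mem_toFinset.2 hP⟩
      · rintro ⟨v, hv, hP⟩
        exact ⟨v, hv, (T4 v).1.mem_toFinset.1 hP⟩
    rw [h1, Finset.card_biUnion]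
    · have h2 : ∀ v ∈ S, (T4 v).1.toFinset.card = if LCE (uni v) x then 3 else 1 := by
        intro v _
        rw [← hNC v, Nat.card_coe_set_eq, Set.ncard_eq_toFinset_card _ (T4 v).1]
      rw [Finset.sum_congr rfl h2, ← hcard, Finset.card_filter, Finset.mul_sum,
        ← Finset.sum_add_distrib, Finset.card_eq_sum_ones, Finset.mul_sum]
      refine Finset.sum_congr rfl fun v _ => ?_
      by_cases h : LCE (uni v) x
      · rw [if_pos h, if_neg (not_not.2 h)]
        rfl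
      · rw [if_neg h, if_pos h]
        rfl
    · intro v _ v' _ hne
      rw [Function.onFun, Finset.disjoint_left]
      intro P hP hP'
      rw [(T4 v).1.mem_toFinset] at hP
      rw [(T4 v').1.mem_toFinset] at hP'
      obtain ⟨v0, -, h0⟩ := T2 P
      have e1 := uni_inj hSPP (h0 _ hP)
      have e2 := uni_inj hSPP (h0 _ hP')
      exact hne (e1.symm.trans e2)
  obtain ⟨y', hy'⟩ : ∃ u : Lˣ, (u : L) = ι y := ⟨Units.mk0 _ (hι0 _ hyE), rfl⟩
  have : Fact (Nat.Prime 3) := ⟨Nat.prime_three⟩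
  have key := hHERBQ 3 Lˣ (L ≃ₐ[ℚ] L) σ (SU ι S) (SF ι σ S) Pl (psi ι x) e d' hσ3 U1 O1
    (fun u => Iff.rfl) O2 ?_ ?_ ?_ ?_ ?_ ?_ y' (X1 y' _ hy' hyS) ?_
  · obtain ⟨η, -, hη⟩ := key
    refine ⟨(η : L), η.ne_zero, ?_⟩
    rw [← hNval, ← hη, hy']
  · -- multiplicativity
    intro u hu u' hu'
    obtain ⟨a, b, ha, hb, hab⟩ := X2 u hu
    obtain ⟨a', b', ha', hb', hab'⟩ := X2 u' hu'
    funext v
    rw [Pi.add_apply, hpsi ha hb hab, hpsi ha' hb' hab',
      hpsi (u := u * u') (mul_ne_zero ha ha') (mul_ne_zero hb hb') (by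
        rw [Units.val_mul, map_mul, map_mul, ← hab, ← hab']
        ring),
      sy_mul hSTM hSPP hSSL v _ _ _ ha ha' hxE, sy_mul hSTM hSPP hSSL v _ _ _ hb hb' hxE]
    ring
  · -- norms have trivial symbols
    intro u _
    obtain ⟨a, b, ha, hb, hab⟩ := hN u
    funext v
    rw [hpsi ha hb hab]
    obtain ⟨e', he'⟩ := sy_lsym hSTM hSPP hSLC v
    rw [Pi.zero_apply, sub_eq_zero]
    exact hNNS x L ι θ σ hxE hF (uni v) (sy v) e' he' (u : L) a b u.ne_zero ha hb
      (by rw [← hNval]; exact hab)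
  · -- the units are in `E'`
    intro i
    exact X1 (d' i) (d i) (hd' i) (hdS i)
  · -- multiplicative independence
    intro n hn
    have h1 : (fun i => (n i).toNat) = fun i => (-n i).toNat := by
      apply hdind
      apply hι
      have h2 : ∏ i, (d' i) ^ ((n i).toNat) = ∏ i, (d' i) ^ ((-n i).toNat) := by
        rw [← div_eq_one, ← Finset.prod_div_distrib, ← hn]
        refine Finset.prod_congr rfl fun i _ => ?_
        rw [← zpow_natCast, ← zpow_natCast, div_eq_mul_inv, ← zpow_sub]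
        congr 1
        omega
      have h3 := congrArg (fun u : Lˣ => (u : L)) h2
      simp only [Units.coe_prod, Units.val_pow_eq_pow_val, hd'] at h3
      rw [map_prod, map_prod]
      simp only [map_pow]
      exact h3
    funext i
    have h2 : (n i).toNat = (-n i).toNat := congrFun h1 i
    rw [Pi.zero_apply]
    omega
  · -- independence of the symbols
    intro n hn
    apply hdsym n
    intro v
    have h1 := congrFun hn v
    rw [Finset.sum_apply] at h1
    rw [← Pi.zero_apply (M := fun _ : Pl => ZMod 3) v, ← h1]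
    refine Finset.sum_congr rfl fun i _ => ?_
    rw [Pi.smul_apply, smul_eq_mul, hpsi1 (d' i) (d i) (hd0 i) (hd' i)]
  · -- ranks
    change Module.finrank ℤ (Additive (SU ι S)) + 3 * e = 3 * Module.finrank ℤ (Additive (SF ι σ S)) + e
    have h1 : Module.finrank ℤ (Additive (SU ι S)) = 2 + A.card := by
      rw [← hNRK x L ι θ σ hF]
      exact U2
    rw [h1, X3]
    omega
  · -- the symbols of `y`
    funext v
    rw [hpsi1 y' _ hyE hy', Pi.zero_apply]
    have h1 : ∀ π : PP, tm π.1 y x = 0 := by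
      intro π
      have h2 := htm π
      rw [tm] at h2 ⊢
      linear_combination -h2
    cases v with
    | none =>
      change -∑ᶠ π : PP, tm π.1 y x = 0
      rw [finsum_eq_zero_of_forall_eq_zero h1, neg_zero]
    | some π => exact h1 π

end Pool.Agent.PTK
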