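import Pool.Agent.PTK.StZ
import Pool.Agent.PTK.PTX

/-!
# Full law for prime twists, PTY: the point of `PTX` has the property `GoodW` when `B` is a local cube
-/

set_option autoImplicit false

open NumberField IsDedekindDomain Finset
open scoped nonZeroDivisors Pointwise

namespace Pool.Agent.PTK

open Pool.Agent.Lib_helper18 Pool.Agent.Lib_helper18.Eis Pool.Agent.Lib_helper84.Cub
open Pool.Agent.PT Pool.Agent.PTE Pool.Agent.PT3 Pool.Agent.PTL Pool.Agent.PTN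

namespace PTY

/-! ### Local cubes -/

/-- a rational integer which is a local cube in `Z[w]` -/
theorem lvw (hSSL : SSL) (hSLC : SLC) (hLCL : LCL) (hLCI : Stmt_LCI) {B : ℤ} (hB : B ≠ 0)
    (h : LCE lam (B : Eis)) : lv B = 0 ∧ lw B = 0 := by
  have hB' := PTK_PT.int_ne hB
  constructor
  · obtain ⟨r, hr⟩ := h (V lam (B : Eis) + 1)
    obtain ⟨h1, h2⟩ := PTK_PTX.V_close hB' hr
    have hr0 : r ≠ 0 := by
      rintro rfl
      exact h1 (by rw [zero_pow (by norm_num)])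
    rw [V_pow prime_lam hr0, PTK_PTX.V_lam_int hB] at h2
    have h3 : 3 ∣ padicValInt 3 B := by omega
    unfold lv
    exact (ZMod.natCast_eq_zero_iff _ _).2 h3
  · have h1 := hLCI.2.2 lam sl 4 (B : Eis) w hSLC h hB' PTK_PTX.w_ne0
    have h2 := hLCL.2.2.2.2.1 B hB
    have h3 := hSSL.2.1 (B : Eis) w hB' PTK_PTX.w_ne0
    rw [h1, neg_zero] at h3
    rw [h3] at h2
    exact neg_eq_zero.1 h2.symm

/-- a cube times a cube -/
theorem cube_of {B z t : ℤ} (hz : z ≠ 0) (h : t ^ 3 = B * z ^ 3) : ∃ n : ℤ, n ^ 3 = B := by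
  have h1 : z ^ 3 ∣ t ^ 3 := ⟨B, by rw [h]; ring⟩
  obtain ⟨n, hn⟩ := (Int.pow_dvd_pow_iff (by norm_num)).1 h1
  refine ⟨n, ?_⟩
  have h2 : z ^ 3 * n ^ 3 = z ^ 3 * B := by
    rw [← mul_pow, ← hn, h]
    ring
  exact mul_left_cancel₀ (pow_ne_zero 3 hz) h2

theorem unit_of_coprime {x : ℤ} (h : IsCoprime x x) : x = 1 ∨ x = -1 :=
  Int.isUnit_iff.1 (isCoprime_self.1 h)

/-- `± 2` is not a cube modulo `9` -/
theorem no_two {s c : ℤ} (hc : c = 2 ∨ c = -2) : ¬ (9 : ℤ) ∣ s ^ 3 - c := by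
  intro h
  have h1 : ((s ^ 3 - c : ℤ) : ZMod 9) = 0 := (ZMod.intCast_zmod_eq_zero_iff_dvd _ 9).2 h
  push_cast at h1
  generalize (s : ZMod 9) = t at h1
  rcases hc with rfl | rfl
  · revert t
    decide
  · revert t
    decide

/-! ### Symbols -/

theorem addr (hSSL : SSL) {z : Eis} (hz : z ≠ 0) : EHYP.Add3 fun b => sl z b := by
  intro a b ha hb
  have h1 := hSSL.1 a b z ha hb hz
  simp only
  rw [hSSL.2.1 z (a * b) hz (mul_ne_zero ha hb), hSSL.2.1 z a hz ha, hSSL.2.1 z b hz hb] at h1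
  linear_combination (-1 : ZMod 3) * h1

/-- cubes and signs do not matter in the second variable -/
theorem cube_r (hSSL : SSL) {z a c : Eis} (hz : z ≠ 0) (ha : a ≠ 0) (hc : c ≠ 0) :
    sl z (c ^ 3 * a) = sl z a ∧ sl z (-(c ^ 3 * a)) = sl z a := by
  have hA := addr hSSL hz
  have h1 := hA _ _ (pow_ne_zero 3 hc) ha
  have h2 := hA.pow hc 3
  have h3 := EHYP.three_zero (sl z c)
  have h4 := hA (-1) (c ^ 3 * a) (by simp) (mul_ne_zero (pow_ne_zero 3 hc) ha)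
  have h5 := hA.neg_one
  simp only at h1 h2 h4 h5
  push_cast at h2
  rw [h2, h3, zero_add] at h1
  rw [neg_one_mul, h5, zero_add, h1] at h4
  exact ⟨h1, h4⟩

/-- cubes do not matter in the first variable -/
theorem cube_l (hSSL : SSL) {z a c : Eis} (hz : z ≠ 0) (ha : a ≠ 0) (hc : c ≠ 0) :
    sl (a * c ^ 3) z = sl a z := by
  have hA := EHYP.add3_sl hSSL hz
  have h1 := hA _ _ ha (pow_ne_zero 3 hc)
  have h2 := hA.pow hc 3
  have h3 := EHYP.three_zero (sl c z)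
  simp only at h1 h2
  push_cast at h2
  rw [h2, h3, add_zero] at h1
  exact h1

/-- the bracket of the local term of the point -/
theorem bracket (hSSL : SSL) {g' K L1 L2 D1 D2 n m N n0 : Eis}
    (hg' : g' ≠ 0) (hK : K ≠ 0) (hL1 : L1 ≠ 0) (hL2 : L2 ≠ 0) (hn : n ≠ 0) (hm : m ≠ 0)
    (e1 : D1 = g' ^ 2 * (w * L2)) (e2 : D2 = g' ^ 2 * (w ^ 2 * L1))
    (eN : ∀ c : Eis, c ≠ 0 → sl c n = sl c N) (em : ∀ c : Eis, c ≠ 0 → sl c m = sl c n0)
    (h : (sl K N + sl L2 N - sl L1 N) - (sl K n0 + sl L2 n0 - sl L1 n0) = 0) :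
    sl D1 n - sl D2 n - sl D1 m + sl D2 m =
      sl w n0 + sl K n0 - sl w n - sl K n := by
  have hw := PTK_PTX.w_ne0
  have hgg : g' ^ 2 ≠ 0 := pow_ne_zero 2 hg'
  have key : ∀ c : Eis, c ≠ 0 → sl D1 c - sl D2 c = sl L2 c - sl L1 c - sl w c := by
    intro c hc
    have hA := EHYP.add3_sl hSSL hc
    have f1 := hA _ _ hgg (mul_ne_zero hw hL2)
    have f2 := hA _ _ hw hL2
    have f3 := hA _ _ hgg (mul_ne_zero (pow_ne_zero 2 hw) hL1)
    have f4 := hA _ _ (pow_ne_zero 2 hw) hL1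
    have f5 := hA.pow hw 2
    simp only at f1 f2 f3 f4 f5
    push_cast at f5
    rw [e1, e2, f1, f2, f3, f4, f5]
    ring
  have k1 := key n hn
  have k2 := key m hm
  have q1 := eN _ hK
  have q2 := eN _ hL1
  have q3 := eN _ hL2
  have q4 := em _ hw
  have q5 := em _ hL1
  have q6 := em _ hL2
  linear_combination k1 - k2 + h - q2 + q3 + q4 + q5 - q6 + q1

end PTY

open PTY in
theorem PTY_thm (hKN1 : Stmt_KN1) (hLKN : Stmt_LKN) (hLMC : Stmt_LMC) (hLCI : Stmt_LCI)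
    (hLRR : Stmt_LRR) (hSSL : SSL) (hSLC : SLC) (hSCJ : SCJ) (hLCL : LCL) : Stmt_PTY := by
  intro B x hB hBc hBL hx hcube h
  obtain ⟨hlv, hlw⟩ := lvw hSSL hSLC hLCL hLCI hB hBL
  have hlv1 : lv B ≠ 1 := by rw [hlv]; decide
  obtain ⟨ζ, g, g', hS, hg, hg', e⟩ := h
  rcases hS with rfl | ⟨x0, y0, z0, hco, hz, e0, hζ⟩
  · exfalso
    rw [one_mul] at e
    obtain ⟨t, ht⟩ := (IsIntegrallyClosed.pow_dvd_pow_iff (three_ne_zero)).1
      (Dvd.intro_left x e.symm : g' ^ 3 ∣ g ^ 3)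
    rw [ht, mul_pow, mul_comm] at e
    exact hcube ⟨t, mul_right_cancel₀ (pow_ne_zero 3 hg') e⟩
  · have hB' := PTK_PT.int_ne hB
    have hz' := PTK_PT.int_ne hz
    have e1 : (x0 : Eis) ^ 3 + (y0 : Eis) ^ 3 = (B : Eis) * (z0 : Eis) ^ 3 := by
      exact_mod_cast congrArg (fun n : ℤ => (n : Eis)) e0
    have hw := w_rel
    have hw3 := w_cube
    have n3 := PTK_PTX.w_ne0
    obtain ⟨a0, ha0⟩ : ∃ a0 : Eis, a0 = x0 + y0 := ⟨_, rfl⟩
    obtain ⟨a1, ha1⟩ : ∃ a1 : Eis, a1 = w * (x0 + w * y0) := ⟨_, rfl⟩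
    obtain ⟨a2, ha2⟩ : ∃ a2 : Eis, a2 = w ^ 2 * (x0 + w ^ 2 * y0) := ⟨_, rfl⟩
    have hc : conj a2 = a1 := by
      rw [ha2, ha1]
      simp only [map_mul, map_add, map_pow, conj_intCast, conj_w]
      linear_combination (w * (x0 : Eis) + (w ^ 5 + w ^ 2) * (y0 : Eis)) * hw3
    have hs : a0 + a1 + a2 = 0 := by
      rw [ha0, ha1, ha2]
      linear_combination ((x0 : Eis) + (w ^ 2 - w + 1) * y0) * hw
    have hp : a0 * a1 * a2 = (B : Eis) * (z0 : Eis) ^ 3 := by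
      rw [ha0, ha1, ha2, ← e1]
      linear_combination (((x0 : Eis) + y0) * ((x0 : Eis) + w * y0) * ((x0 : Eis) + w ^ 2 * y0)) * hw3 +
        ((x0 : Eis) ^ 2 * y0 + w * (x0 : Eis) * y0 ^ 2 + (w - 1) * (y0 : Eis) ^ 3) * hw
    have hζ' : ζ = a1 * a2 ^ 2 := by
      rw [hζ, ha1, ha2]
      linear_combination (-(w ^ 2) * ((x0 : Eis) + w * y0) * ((x0 : Eis) + w ^ 2 * y0) ^ 2) * hw3
    have hn : a0 * a1 * a2 ≠ 0 := by
      rw [hp]
      exact mul_ne_zero hB' (pow_ne_zero 3 hz')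
    have na : a2 ≠ 0 := right_ne_zero_of_mul hn
    have na1 : a1 ≠ 0 := right_ne_zero_of_mul (left_ne_zero_of_mul hn)
    have na0 : a0 ≠ 0 := left_ne_zero_of_mul (left_ne_zero_of_mul hn)
    have ng : g' ^ 2 ≠ 0 := pow_ne_zero 2 hg'
    have hX0 : g' ^ 2 * g * a2 ≠ 0 := mul_ne_zero (mul_ne_zero ng hg) na
    have hY0 : g' ^ 3 ≠ 0 := pow_ne_zero 3 hg'
    refine ⟨g' ^ 2 * g * a2, g' ^ 3, ⟨hX0,
      hY0, g' * g ^ 2 * (-(z0 : Eis) * a2),
      mul_ne_zero (mul_ne_zero hg' (pow_ne_zero 2 hg)) (mul_ne_zero (neg_ne_zero.2 hz') na), ?_⟩, ?_, ?_⟩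
    · have e3 : ζ * (a2 ^ 3 + ζ) = (B : Eis) * (-(z0 : Eis) * a2) ^ 3 := by
        rw [hζ']
        linear_combination (a1 * a2 ^ 4) * hs - a2 ^ 3 * hp
      linear_combination (g' ^ 3 * g ^ 6) * e3 -
        (g' ^ 3 * g ^ 3 * a2 ^ 3 + g' ^ 3 * (x * g' ^ 3 + ζ * g ^ 3)) * e
    · intro b hb _ hcb hbB
      obtain ⟨N0, hN⟩ := PTK_PTX.key hLRR hSSL hSLC hSCJ hLCL hB hlv1 hz hc hs hp hg hb hcb hbB
      refine ⟨N0, fun ξ hξ => ?_⟩
      obtain ⟨m1, m2, m3⟩ := hN (g' * ξ) (by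
        have e4 : (g' * ξ) ^ 3 - a1 * a2 ^ 2 * g ^ 3 = g' ^ 3 * (ξ ^ 3 - x) := by
          rw [← hζ', e]
          ring
        rw [e4]
        exact Dvd.dvd.mul_left hξ _)
      have f : ∀ i : ℕ, LfE (g' ^ 2 * g * a2) (g' ^ 3) i ξ = g' ^ 2 * (g * a2 + w ^ i * (g' * ξ)) := by
        intro i
        unfold LfE
        ring
      rw [f, f, pow_one, hSSL.1 _ _ _ ng m1 hb, hSSL.1 _ _ _ ng m2 hb, m3]
    · intro b p q p' q' hb hMC hSol hD
      -- integers
      have hBz : B * z0 ^ 3 ≠ 0 := mul_ne_zero hB (pow_ne_zero 3 hz)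
      have hnc : ¬ ∃ n : ℤ, n ^ 3 = B * z0 ^ 3 := by
        rintro ⟨t, ht⟩
        exact hBc (cube_of hz ht)
      have hx0 : x0 ≠ 0 := by
        rintro rfl
        exact hBc (cube_of hz (t := y0) (by rw [← e0]; ring))
      have hy0 : y0 ≠ 0 := by
        rintro rfl
        exact hBc (cube_of hz (t := x0) (by rw [← e0]; ring))
      have hs0 : x0 + y0 ≠ 0 := by
        intro h0
        apply hBz
        rw [← e0]
        linear_combination (x0 ^ 2 - x0 * y0 + y0 ^ 2) * h0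
      have hlvz : lv (x0 ^ 3 + y0 ^ 3) = 0 := by
        rw [e0, (hLCL.2.1 _ _ hB (pow_ne_zero 3 hz)).1, (HYPT.lv_pow hLCL hz 3).1, hlv, zero_add]
        exact EHYP.three_zero _
      have hlwz : lw (x0 ^ 3 + y0 ^ 3) = 0 := by
        rw [e0, (hLCL.2.1 _ _ hB (pow_ne_zero 3 hz)).2, (HYPT.lv_pow hLCL hz 3).2, hlw, zero_add]
        exact EHYP.three_zero _
      have hLCz : LC lam (x0 ^ 3 + y0 ^ 3) :=
        (hLCL.1 _ (by rw [e0]; exact hBz)).2 ⟨hlvz, hlwz⟩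
      have hroot : ∀ k : ℕ, ∃ s : ℤ, (3 : ℤ) ^ k ∣ s ^ 3 - (x0 ^ 3 + y0 ^ 3) := by
        intro k
        obtain ⟨s, hs'⟩ := hLCz (2 * k)
        refine ⟨s, PTK_PTX.three_dvd_of_lam ?_⟩
        push_cast at hs' ⊢
        exact hs'
      have hxy : x0 ≠ y0 := by
        rintro rfl
        obtain ⟨s, hs'⟩ := hroot 2
        rcases unit_of_coprime hco with rfl | rfl
        · exact no_two (s := s) (c := 2) (Or.inl rfl) (by norm_num at hs' ⊢; exact hs')
        · exact no_two (s := s) (c := -2) (Or.inr rfl) (by norm_num at hs' ⊢; exact hs')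
      -- the forms
      have ha1' : a1 = w * (x0 : Eis) + w ^ 2 * (y0 : Eis) := by rw [ha1]; ring
      have ha2' : a2 = w ^ 2 * (x0 : Eis) + w * (y0 : Eis) := by
        rw [ha2]
        linear_combination (w * (y0 : Eis)) * hw3
      have hn1 : p ^ 3 - x * p' ^ 3 ≠ 0 := hSol.n2
      have hrel : p ^ 3 - x * p' ^ 3 = b * (x * q' ^ 3 - q ^ 3) := by
        linear_combination hSol.eq
      have hn2 : x * q' ^ 3 - q ^ 3 ≠ 0 := by
        intro h0
        rw [h0, mul_zero] at hrel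
        exact hn1 hrel
      have hm : (g' ^ 2 * g * a2) ^ 3 + x * (g' ^ 3) ^ 3 = -((g' ^ 2 * g) ^ 3 * (a0 * a2 ^ 2)) := by
        rw [hζ'] at e
        linear_combination (-(g' ^ 6)) * e + (g' ^ 6 * g ^ 3 * a2 ^ 2) * hs
      have hn0 : a0 * a2 ^ 2 ≠ 0 := mul_ne_zero na0 (pow_ne_zero 2 na)
      have hgg : g' ^ 2 * g ≠ 0 := mul_ne_zero ng hg
      have hm0 : (g' ^ 2 * g * a2) ^ 3 + x * (g' ^ 3) ^ 3 ≠ 0 := by
        rw [hm]
        exact neg_ne_zero.2 (mul_ne_zero (pow_ne_zero 3 hgg) hn0)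
      have em : ∀ c : Eis, c ≠ 0 → sl c ((g' ^ 2 * g * a2) ^ 3 + x * (g' ^ 3) ^ 3) =
          sl c (a0 * a2 ^ 2) := by
        intro c hc0
        rw [hm]
        exact (cube_r hSSL hc0 hn0 hgg).2
      have fD1 : ∀ u v : Eis, DfE (g' ^ 2 * g * a2) (g' ^ 3) u v 1 =
          g' ^ 2 * (w * (v * g' - w ^ 2 * a2 * (-(g * u)))) := by
        intro u v
        unfold DfE
        linear_combination (-(g' ^ 2 * a2 * g * u)) * hw3
      have fD2 : ∀ u v : Eis, DfE (g' ^ 2 * g * a2) (g' ^ 3) u v 2 =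
          g' ^ 2 * (w ^ 2 * (v * g' - w * a2 * (-(g * u)))) := by
        intro u v
        unfold DfE
        linear_combination (-(g' ^ 2 * a2 * g * u)) * hw3
      have fN : ∀ u v : Eis, (v * g') ^ 3 + a1 * a2 ^ 2 * (-(g * u)) ^ 3 =
          g' ^ 3 * (v ^ 3 - x * u ^ 3) := by
        intro u v
        rw [hζ'] at e
        linear_combination (-(u ^ 3)) * e
      -- the first pair
      have l2 : p * g' - w ^ 2 * a2 * (-(g * p')) ≠ 0 := by
        intro h0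
        apply hD.d1
        rw [fD1, h0, mul_zero, mul_zero]
      have l1 : p * g' - w * a2 * (-(g * p')) ≠ 0 := by
        intro h0
        apply hD.d2
        rw [fD2, h0, mul_zero, mul_zero]
      have l4 : q * g' - w ^ 2 * a2 * (-(g * q')) ≠ 0 := by
        intro h0
        apply hD.d3
        rw [fD1, h0, mul_zero, mul_zero]
      have l3 : q * g' - w * a2 * (-(g * q')) ≠ 0 := by
        intro h0
        apply hD.d4
        rw [fD2, h0, mul_zero, mul_zero]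
      have hN1 : (p * g') ^ 3 + a1 * a2 ^ 2 * (-(g * p')) ^ 3 ≠ 0 := by
        rw [fN]
        exact mul_ne_zero (pow_ne_zero 3 hg') hn1
      have hn2' : q ^ 3 - x * q' ^ 3 ≠ 0 := by
        intro h0
        apply hn2
        linear_combination -h0
      have hN2 : (q * g') ^ 3 + a1 * a2 ^ 2 * (-(g * q')) ^ 3 ≠ 0 := by
        rw [fN]
        exact mul_ne_zero (pow_ne_zero 3 hg') hn2'
      -- the approximation of the cube root
      obtain ⟨M1, hM1⟩ := hKN1 x0 y0 (B * z0 ^ 3) a0 a1 a2 e0 hBz hnc hxy ha0 ha1' ha2'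
        (p * g') (-(g * p')) hN1 l1 l2
      obtain ⟨M2, hM2⟩ := hKN1 x0 y0 (B * z0 ^ 3) a0 a1 a2 e0 hBz hnc hxy ha0 ha1' ha2'
        (q * g') (-(g * q')) hN2 l3 l4
      obtain ⟨M3, hM3⟩ := hLKN x0 y0 hco hx0 hy0 hs0 hlvz hlwz
      obtain ⟨s, hs'⟩ := hroot (M1 + M2 + M3)
      have hs1 : (3 : ℤ) ^ M1 ∣ s ^ 3 - B * z0 ^ 3 := by
        rw [← e0]
        exact (pow_dvd_pow _ (by omega)).trans hs'
      have hs2 : (3 : ℤ) ^ M2 ∣ s ^ 3 - B * z0 ^ 3 := by
        rw [← e0]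
        exact (pow_dvd_pow _ (by omega)).trans hs'
      have hs3 : (3 : ℤ) ^ M3 ∣ s ^ 3 - (x0 ^ 3 + y0 ^ 3) :=
        (pow_dvd_pow _ (by omega)).trans hs'
      obtain ⟨hsy, k1⟩ := hM1 s hs1
      obtain ⟨-, k2⟩ := hM2 s hs2
      obtain ⟨j1, j2⟩ := hM3 s hs3 hsy
      have hsy' : ((s : Eis) - (y0 : Eis)) ≠ 0 := by
        have := PTK_PT.int_ne (sub_ne_zero.2 hsy)
        push_cast at this
        exact this
      obtain ⟨K, hK⟩ : ∃ K : Eis, K = w ^ 2 * lam * ((s : Eis) - y0) * a0 * a1 ^ 2 * a2 ^ 2 := ⟨_, rfl⟩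
      rw [← hK] at k1 k2
      have hK0 : K ≠ 0 := by
        rw [hK]
        exact mul_ne_zero (mul_ne_zero (mul_ne_zero (mul_ne_zero (mul_ne_zero
          (pow_ne_zero 2 n3) prime_lam.ne_zero) hsy') na0) (pow_ne_zero 2 na1)) (pow_ne_zero 2 na)
      have b1 := bracket hSSL hg' hK0 l1 l2 hn1 hm0
        (fD1 p' p) (fD2 p' p) (fun c hc0 => by
          rw [fN]
          exact ((cube_r hSSL hc0 hn1 hg').1).symm) em k1
      have b2 := bracket hSSL hg' hK0 l3 l4 hn2 hm0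
        (fD1 q' q) (fD2 q' q) (fun c hc0 => by
          rw [fN]
          have h1 := (cube_r hSSL hc0 hn2 hg').2
          have h2 : -(g' ^ 3 * (x * q' ^ 3 - q ^ 3)) = g' ^ 3 * (q ^ 3 - x * q' ^ 3) := by ring
          rw [h2] at h1
          exact h1.symm) em k2
      -- the value
      obtain ⟨wb, -, hint⟩ := hLMC b hb hMC
      have c1 := addr hSSL n3 b (x * q' ^ 3 - q ^ 3) hb hn2
      have c2 := addr hSSL hK0 b (x * q' ^ 3 - q ^ 3) hb hn2
      simp only at c1 c2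
      rw [← hrel] at c1 c2
      have c3 := hSSL.2.1 K b hK0 hb
      have hSVE : SVE sl x p q p' q' (g' ^ 2 * g * a2) (g' ^ 3) = sl b K := by
        unfold SVE
        rw [b1, b2]
        linear_combination (-1 : ZMod 3) * c1 - c2 - c3 - wb
      -- the rational integer
      obtain ⟨k, hk⟩ : ∃ k : ℤ, k = 9 * (s - y0) * (x0 + y0) * (x0 ^ 2 - x0 * y0 + y0 ^ 2) ^ 2 := ⟨_, rfl⟩
      rw [← hk] at j1 j2
      have h12 : a1 * a2 = (x0 : Eis) ^ 2 - x0 * y0 + (y0 : Eis) ^ 2 := by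
        rw [ha1, ha2]
        linear_combination (((x0 : Eis) + w * y0) * ((x0 : Eis) + w ^ 2 * y0) + (y0 : Eis) ^ 2) * hw3 +
          ((x0 : Eis) * y0) * hw
      have hkK : (k : Eis) = K * (w * (w * lam ^ 3)) := by
        have h9 : (9 : Eis) = w * lam ^ 4 := by decide
        rw [hk, hK]
        push_cast
        rw [h9, ← h12, ← ha0]
        linear_combination (-(w * lam ^ 4 * ((s : Eis) - y0) * a0 * (a1 * a2) ^ 2)) * hw3
      have hk0 : k ≠ 0 := by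
        intro h0
        rw [h0] at hkK
        have h1 : K * (w * (w * lam ^ 3)) ≠ 0 := mul_ne_zero hK0 (mul_ne_zero n3
          (mul_ne_zero n3 (pow_ne_zero 3 prime_lam.ne_zero)))
        apply h1
        rw [← hkK]
        push_cast
        rfl
      have hA := addr hSSL hb
      have d1 := hA K (w * (w * lam ^ 3)) hK0 (mul_ne_zero n3
        (mul_ne_zero n3 (pow_ne_zero 3 prime_lam.ne_zero)))
      have d2 := hA w (w * lam ^ 3) n3 (mul_ne_zero n3 (pow_ne_zero 3 prime_lam.ne_zero))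
      have d3 := hA w (lam ^ 3) n3 (pow_ne_zero 3 prime_lam.ne_zero)
      have d4 := hA.pow prime_lam.ne_zero 3
      have d5 := hSSL.2.1 w b n3 hb
      have d6 := EHYP.three_zero (sl b lam)
      simp only at d1 d2 d3 d4
      push_cast at d4
      rw [wb, neg_zero] at d5
      have d7 : sl b K = sl b (k : Eis) := by
        rw [hkK, d1, d2, d3, d4, d5, d6]
        ring
      -- the class of `x`
      have hζ0 : ζ ≠ 0 := by
        rw [hζ']
        exact mul_ne_zero na1 (pow_ne_zero 2 na)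
      have hζx : ∀ c : Eis, c ≠ 0 → sl ζ c = sl x c := by
        intro c hc0
        rw [← cube_l hSSL hc0 hζ0 hg, e, cube_l hSSL hc0 hx hg']
      have k3 : (3 : Eis) ≠ 0 := by
        have := PTK_PT.int_ne (n := 3) (by norm_num)
        push_cast at this
        exact this
      have k4 : (4 : Eis) ≠ 0 := by
        have := PTK_PT.int_ne (n := 4) (by norm_num)
        push_cast at this
        exact this
      rw [← hζ] at j1 j2
      rw [hSVE, d7, hint k hk0, j1, j2, hζx 4 k4, hζx 3 k3]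

end Pool.Agent.PTK
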