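import Pool.Agent.PTK.StZ
import Pool.Agent.PT.LEV
import Pool.Agent.PT3.HYPT

/-!
# Full law: additivity of the local term at `lam` when the base is not a local cube and the norms are
-/

set_option autoImplicit false

namespace Pool.Agent.PTK

open Pool.Agent.Lib_helper18 Pool.Agent.Lib_helper18.Eis Pool.Agent.Lib_helper84.Cub
open Pool.Agent.PT Pool.Agent.PTE Pool.Agent.PT3 Pool.Agent.PTL Pool.Agent.PTN

namespace RAE

/-- linear forms at good approximations of a cube root do not vanish -/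
theorem lf_ne {π : Eis} (hπ : Prime π) {p q r b : Eis} {N : ℕ} (hn : p ^ 3 + b * q ^ 3 ≠ 0)
    (hN : V π (p ^ 3 + b * q ^ 3) < N) (hr : π ^ N ∣ r ^ 3 - b) (i : ℕ) : LfE p q i r ≠ 0 := by
  intro h0
  unfold LfE at h0
  have h1 : q * w ^ i * r = -p := by linear_combination h0
  have h2 : (q * w ^ i * r) ^ 3 = (-p) ^ 3 := by rw [h1]
  have h3 : (w ^ i) ^ 3 = 1 := by rw [← pow_mul, mul_comm, pow_mul, w_cube, one_pow]
  have h4 : p ^ 3 + b * q ^ 3 = (-q ^ 3) * (r ^ 3 - b) := by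
    linear_combination h2 - q ^ 3 * r ^ 3 * h3
  have h5 : π ^ N ∣ p ^ 3 + b * q ^ 3 := by
    rw [h4]
    exact Dvd.dvd.mul_left hr _
  have h6 := (fin hπ hn).le_multiplicity_of_pow_dvd h5
  exact absurd h6 (not_le.2 hN)

theorem gf_swap (p q p' q' : Eis) (i : ℕ) : GfE p (-p') (-q) q' i = GfE p q p' q' i := by
  unfold GfE
  ring

/-- base and norm exchanged -/
theorem swap {b x p q p' q' : Eis} (h : SolE b x p q p' q') : SolE x b p (-p') (-q) q' where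
  eq := by linear_combination h.eq
  n1 := by
    intro h0
    apply h.n2
    linear_combination h0
  n2 := by
    intro h0
    apply h.n1
    linear_combination h0
  g1 := by rw [gf_swap]; exact h.g1
  g2 := by rw [gf_swap]; exact h.g2

theorem lce_mul {π a b : Eis} (ha : LCE π a) (hb : LCE π b) : LCE π (a * b) := by
  intro N
  obtain ⟨r, hr⟩ := ha N
  obtain ⟨s, hs⟩ := hb N
  refine ⟨r * s, ?_⟩
  have h1 : (r * s) ^ 3 - a * b = r ^ 3 * (s ^ 3 - b) + b * (r ^ 3 - a) := by ring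
  rw [h1]
  exact dvd_add (Dvd.dvd.mul_left hs _) (Dvd.dvd.mul_left hr _)

/-- the local term through the local terms of two points -/
theorem key (hAVE : Stmt_AVE) (hIIA : Stmt_IIA) (hIF2 : Stmt_IF2) (hLCI : Stmt_LCI)
    (hSSL : SSL) (hSLC : SLC) {B b x p q p' q' X Y X' Y' : Eis} {κ : ZMod 3} (hB : B ≠ 0)
    (hb : b ≠ 0) (hx : x ≠ 0) (hbB : sl b B = 0) (hLb : ¬ LCE lam b) (hLx : LCE lam x)
    (hS : SolE b x p q p' q') (hX : X ≠ 0) (hY : Y ≠ 0) (hX' : X' ≠ 0) (hY' : Y' ≠ 0)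
    (hn : X ^ 3 + b * Y ^ 3 ≠ 0) (hn' : X' ^ 3 + b * Y' ^ 3 ≠ 0)
    (hD : DNE X Y p (-p') (-q) q') (hD' : DNE X' Y' p (-p') (-q) q')
    (hκ : ∀ z : Eis, z ≠ 0 → sl B z = κ * (sl (X ^ 3 + b * Y ^ 3) z +
      sl (X' ^ 3 + b * Y' ^ 3) z - sl b z)) :
    LTE B b x p q p' q' = κ * (SVE sl b p (-p') (-q) q' X Y + SVE sl b p (-p') (-q) q' X' Y') := by
  have hS' := swap hS
  have hw : (w : Eis) ≠ 0 := isUnit_w.ne_zero
  obtain ⟨⟨N1, h1⟩, -⟩ := hAVE none B x b p (-p') (-q) q' hB hx hb hS'.toSolWE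
    (by
      show sl B b = 0
      rw [hSSL.2.1 b B hb hB, hbB, neg_zero]) hLx
  obtain ⟨N2, h2⟩ := hIIA x b p (-p') (-q) q' X Y hx hb hLx hS' hX hY hn hD
  obtain ⟨N3, h3⟩ := hIIA x b p (-p') (-q) q' X' Y' hx hb hLx hS' hX' hY' hn' hD'
  obtain ⟨N4, h4⟩ := hIF2 lam sl 4 hSLC x b p (-p') (-q) q' hx hb hS'
  have hm1 : p ^ 3 + x * (-p') ^ 3 ≠ 0 := hS'.n1
  have hm2 : (-q) ^ 3 + x * q' ^ 3 ≠ 0 := by
    intro h0
    apply hm1
    rw [hS'.eq, h0, mul_zero]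
  obtain ⟨ξ, hξ⟩ := hLx (N1 + N2 + N3 + N4 + V lam (p ^ 3 + x * (-p') ^ 3) +
    V lam ((-q) ^ 3 + x * q' ^ 3) + 1)
  have hd : ∀ M : ℕ, M ≤ N1 + N2 + N3 + N4 + V lam (p ^ 3 + x * (-p') ^ 3) +
      V lam ((-q) ^ 3 + x * q' ^ 3) + 1 → lam ^ M ∣ ξ ^ 3 - x :=
    fun M hM => (pow_dvd_pow lam hM).trans hξ
  have e1 : ASE sl B p (-p') (-q) q' ξ = AVE none B x p (-p') (-q) q' :=
    h1 ξ (hd N1 (by omega))
  have e2 := h2 ξ (hd N2 (by omega))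
  have e3 := h3 ξ (hd N3 (by omega))
  have e4 := h4 ξ (hd N4 (by omega))
  have l1 : ∀ i, LfE p (-p') i ξ ≠ 0 := fun i =>
    lf_ne prime_lam hm1 (by omega) (hd (V lam (p ^ 3 + x * (-p') ^ 3) + 1) (by omega)) i
  have l2 : ∀ i, LfE (-q) q' i ξ ≠ 0 := fun i =>
    lf_ne prime_lam hm2 (by omega) (hd (V lam ((-q) ^ 3 + x * q' ^ 3) + 1) (by omega)) i
  have hsk : ∀ a : Eis, a ≠ 0 → sl w a = - sl a w := fun a ha => hSSL.2.1 a w ha hw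
  have k1 := hκ _ (l1 1)
  have k2 := hκ _ (l1 2)
  have k3 := hκ _ (l2 1)
  have k4 := hκ _ (l2 2)
  have k5 := hκ _ hS.g1
  have k6 := hκ _ hS.g2
  have k7 := hκ w hw
  have hxw : sl w x = 0 := by
    rw [hsk x hx, hLCI.2.2 lam sl 4 x w hSLC hLx hx hw, neg_zero]
  have hBxb : sl w (B * x * b) = sl w B + sl w b := by
    rw [hsk _ (mul_ne_zero (mul_ne_zero hB hx) hb), hSSL.1 _ _ _ (mul_ne_zero hB hx) hb hw,
      hSSL.1 _ _ _ hB hx hw]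
    have h5 := hsk x hx
    rw [hxw] at h5
    rw [hsk B hB, hsk b hb]
    linear_combination -h5
  unfold LTE
  rw [if_neg hLb, if_pos hLx, ← e1, e2, e3]
  unfold UVE
  simp only [gf_swap] at e4 ⊢
  rw [hBxb, hsk B hB, hsk _ hn, hsk _ hn', k5, k6, k7]
  rw [hsk b hb] at e4 ⊢
  unfold ASE at e4 ⊢
  rw [k1, k2, k3, k4]
  linear_combination κ * e4

/-! ### The norm modulo `9` -/

theorem dec9 : ∀ u v m : ZMod 9, (u ^ 2 - u * v + v ^ 2) ^ 2 = m ^ 3 → (u + v) * 3 ≠ 0 →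
    (1 + (2 * u - v) + (u ^ 2 - u * v + v ^ 2) = 3 ∨
      1 + (2 * u - v) + (u ^ 2 - u * v + v ^ 2) = 4) ∨
    (1 - (2 * u - v) + (u ^ 2 - u * v + v ^ 2) = 3 ∨
      1 - (2 * u - v) + (u ^ 2 - u * v + v ^ 2) = 4) := by decide

theorem lvw_of_mod (hLCL : LCL) {m : ℤ} (h : (m : ZMod 9) = 3 ∨ (m : ZMod 9) = 4) :
    m ≠ 0 ∧ (lv m ≠ 0 ∨ lw m ≠ 0) := by
  rcases h with h | h
  · have h1 : ((m - 3 : ℤ) : ZMod 9) = 0 := by push_cast; rw [h]; decide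
    rw [ZMod.intCast_zmod_eq_zero_iff_dvd] at h1
    obtain ⟨c, hc⟩ := h1
    push_cast at hc
    have h2 : m = 3 * (1 + 3 * c) := by linarith
    have h3 : ¬ (3 : ℤ) ∣ 1 + 3 * c := by omega
    have h4 : (1 : ℤ) + 3 * c ≠ 0 := by omega
    refine ⟨by omega, Or.inl ?_⟩
    rw [h2, (hLCL.2.1 3 (1 + 3 * c) (by norm_num) h4).1, hLCL.2.2.1.1, (hLCL.2.2.2.1 _ h3).1]
    decide
  · have h1 : ((m - 4 : ℤ) : ZMod 9) = 0 := by push_cast; rw [h]; decide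
    rw [ZMod.intCast_zmod_eq_zero_iff_dvd] at h1
    obtain ⟨c, hc⟩ := h1
    push_cast at hc
    have h3 : ¬ (3 : ℤ) ∣ m := by omega
    refine ⟨by omega, Or.inr ?_⟩
    rw [(hLCL.2.2.2.1 _ h3).2, wt_eq (k := 5 + 24 * c + 27 * c ^ 2) (by
      have h2 : m = 4 + 9 * c := by linarith
      rw [h2]
      ring)]
    push_cast
    have h9 : (3 : ZMod 3) = 0 := by decide
    have e5 : (5 : ZMod 3) + 24 * (c : ZMod 3) + 27 * (c : ZMod 3) ^ 2 = 2 := by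
      linear_combination (1 + 8 * (c : ZMod 3) + 9 * (c : ZMod 3) ^ 2) * h9
    rw [e5]
    decide

/-- a sign such that the norms are not local cubes -/
theorem sign {b t : Eis} (hb : ¬ lam ∣ b) (ht : b * conj b = t ^ 3) :
    ∃ e : ℤ, (e = 1 ∨ e = -1) ∧ ∀ k : ℤ,
      ((((1 + 9 * k : ℤ) : Eis) ^ 3 + b * (e : Eis) ^ 3).norm : ZMod 9) = 3 ∨
      ((((1 + 9 * k : ℤ) : Eis) ^ 3 + b * (e : Eis) ^ 3).norm : ZMod 9) = 4 := by
  have h1 : (b.re : ZMod 9) ^ 2 - b.re * b.im + (b.im : ZMod 9) ^ 2 = (b.norm : ZMod 9) := by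
    rw [norm_def]
    push_cast
    ring
  have h2 : (b.norm) ^ 2 = t.norm ^ 3 := by
    have h3 := congrArg Eis.norm ht
    rw [norm_mul, norm_conj, norm_pow] at h3
    rw [← h3]
    ring
  have h4 : ((b.re : ZMod 9) ^ 2 - b.re * b.im + (b.im : ZMod 9) ^ 2) ^ 2 =
      (t.norm : ZMod 9) ^ 3 := by
    rw [h1]
    exact_mod_cast congrArg (fun z : ℤ => (z : ZMod 9)) h2
  have h5 : ((b.re : ZMod 9) + b.im) * 3 ≠ 0 := by
    intro h0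
    apply hb
    rw [lam_dvd_iff]
    have h6 : (((b.re + b.im) * 3 : ℤ) : ZMod 9) = 0 := by push_cast; exact h0
    rw [ZMod.intCast_zmod_eq_zero_iff_dvd] at h6
    push_cast at h6
    omega
  have h9 : (9 : ZMod 9) = 0 := by decide
  have hN : ∀ e k : ℤ, e ^ 3 = e → e ^ 2 = 1 →
      ((((1 + 9 * k : ℤ) : Eis) ^ 3 + b * (e : Eis) ^ 3).norm : ZMod 9) =
      1 + (e : ZMod 9) * (2 * b.re - b.im) +
        ((b.re : ZMod 9) ^ 2 - b.re * b.im + (b.im : ZMod 9) ^ 2) := by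
    intro e k he he2
    have h6 : (((1 + 9 * k : ℤ) : Eis) ^ 3 + b * (e : Eis) ^ 3).norm =
        ((1 + 9 * k) ^ 3) ^ 2 + (1 + 9 * k) ^ 3 * e * (2 * b.re - b.im) +
          e ^ 2 * (b.re ^ 2 - b.re * b.im + b.im ^ 2) := by
      have h7 : ((1 + 9 * k : ℤ) : Eis) ^ 3 + b * (e : Eis) ^ 3 =
          ⟨(1 + 9 * k) ^ 3 + e * b.re, e * b.im⟩ := by
        have h8 : (((1 + 9 * k : ℤ) : Eis) ^ 3 + b * (e : Eis) ^ 3) =
            (((1 + 9 * k) ^ 3 : ℤ) : Eis) + b * ((e : ℤ) : Eis) := by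
          have h10 : ((e ^ 3 : ℤ) : Eis) = ((e : ℤ) : Eis) := by rw [he]
          push_cast at h10 ⊢
          rw [h10]
        rw [h8]
        ext
        · simp only [add_re, mul_re, intCast_re, intCast_im]
          ring
        · simp only [add_im, mul_im, intCast_re, intCast_im]
          ring
      rw [h7, norm_def]
      ring
    rw [h6, he2]
    push_cast
    have h10 : ((1 : ZMod 9) + 9 * k) = 1 := by rw [h9]; ring
    rw [h10]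
    ring
  rcases dec9 _ _ _ h4 h5 with h | h
  · refine ⟨1, Or.inl rfl, fun k => ?_⟩
    rw [hN 1 k (by norm_num) (by norm_num)]
    push_cast
    rw [one_mul]
    exact h
  · refine ⟨-1, Or.inr rfl, fun k => ?_⟩
    rw [hN (-1) k (by norm_num) (by norm_num)]
    push_cast
    rw [neg_one_mul, ← sub_eq_add_neg]
    exact h

/-! ### The factor -/

theorem dec3 : ∀ a1 a2 c1 c2 s3 s4 : ZMod 3, (a1 ≠ 0 ∨ a2 ≠ 0) → ¬ (s3 = 0 ∧ s4 = 0) →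
    a1 * s3 - a2 * s4 = 0 → c1 * s3 - c2 * s4 = 0 → ∃ κ : ZMod 3, c1 = κ * a1 ∧ c2 = κ * a2 := by
  decide

theorem int_ne {x : ℤ} (hx : x ≠ 0) : (x : Eis) ≠ 0 := HYPT.int_ne hx

/-- minus a cube is trivial -/
theorem neg_cube (hSSL : SSL) {c X : Eis} (hc : c ≠ 0) (hX : X ≠ 0) : sl (-X ^ 3) c = 0 := by
  have hA := EHYP.add3_sl hSSL hc
  have h1 : -X ^ 3 = -1 * X ^ 3 := by ring
  have h2 := hA (-1) (X ^ 3) (by simp) (pow_ne_zero 3 hX)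
  have h3 := hA.neg_one
  have h4 := hA.pow hX 3
  simp only at h2 h3 h4
  rw [h1, h2, h3, h4]
  have h5 : ((3 : ℕ) : ZMod 3) = 0 := rfl
  rw [h5, zero_mul, zero_add]

theorem mul_cube (hSSL : SSL) {b c Y : Eis} (hb : b ≠ 0) (hc : c ≠ 0) (hY : Y ≠ 0) :
    sl (-(b * Y ^ 3)) c = sl b c := by
  have hA := EHYP.add3_sl hSSL hc
  have h1 : -(b * Y ^ 3) = b * (-Y ^ 3) := by ring
  have h2 := hA b (-Y ^ 3) hb (neg_ne_zero.2 (pow_ne_zero 3 hY))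
  simp only at h2
  rw [h1, h2, neg_cube hSSL hc hY, add_zero]

theorem sl_n (hSSL : SSL) {b X Y : Eis} (hb : b ≠ 0) (hX : X ≠ 0) (hY : Y ≠ 0)
    (hn : X ^ 3 + b * Y ^ 3 ≠ 0) : sl b (X ^ 3 + b * Y ^ 3) = 0 := by
  have hX3 : -X ^ 3 ≠ 0 := neg_ne_zero.2 (pow_ne_zero 3 hX)
  have hY3 : -(b * Y ^ 3) ≠ 0 := neg_ne_zero.2 (mul_ne_zero hb (pow_ne_zero 3 hY))
  have h1 := hSSL.2.2.1 (X ^ 3 + b * Y ^ 3) (-X ^ 3) (-(b * Y ^ 3)) hn hX3 hY3 (by ring)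
  rw [neg_cube hSSL hY3 hX, mul_cube hSSL hb hn hY, hSSL.2.1 _ _ hX3 hn, neg_cube hSSL hn hX] at h1
  linear_combination h1

theorem sl_conj (hSSL : SSL) (hSCJ : SCJ) {b t n : Eis} (hb : b ≠ 0) (ht : b * conj b = t ^ 3)
    (hn : n ≠ 0) (h0 : sl b n = 0) : sl b (conj n) = 0 := by
  have hb' := EHYP.conj_ne hb
  have ht0 : t ≠ 0 := by
    rintro rfl
    rw [zero_pow (by norm_num)] at ht
    exact mul_ne_zero hb hb' ht
  have hA := EHYP.add3_sl hSSL hn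
  have h1 := hA b (conj b) hb hb'
  have h2 := hA.pow ht0 3
  simp only at h1 h2
  rw [ht, h2, h0] at h1
  have h3 : ((3 : ℕ) : ZMod 3) = 0 := rfl
  rw [h3, zero_mul, zero_add] at h1
  have h4 := hSCJ.2.1 (conj b) n hb' hn
  rw [conj_conj, ← h1, neg_zero] at h4
  exact h4

/-- `B` is a power of the norm at `lam` -/
theorem kappa (hLMC : Stmt_LMC) (hSSL : SSL) (hSCJ : SCJ) (hLCL : LCL) {B : ℤ} {b t X Y : Eis}
    (hB : B ≠ 0) (hb : b ≠ 0) (hM : MCl b) (ht : b * conj b = t ^ 3) (hbB : sl b (B : Eis) = 0)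
    (hLb : ¬ LCE lam b) (hX : X ≠ 0) (hY : Y ≠ 0) (hn : X ^ 3 + b * Y ^ 3 ≠ 0)
    (h9 : ((X ^ 3 + b * Y ^ 3).norm : ZMod 9) = 3 ∨ ((X ^ 3 + b * Y ^ 3).norm : ZMod 9) = 4) :
    ∃ κ : ZMod 3, ∀ z : Eis, z ≠ 0 → sl (B : Eis) z =
      κ * (sl (X ^ 3 + b * Y ^ 3) z + sl (conj (X ^ 3 + b * Y ^ 3)) z) := by
  obtain ⟨hm0, hm⟩ := lvw_of_mod hLCL h9
  have hn' := EHYP.conj_ne hn
  obtain ⟨-, hL, hI⟩ := hLMC b hb hM
  have h1 := sl_n hSSL hb hX hY hn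
  have h2 := sl_conj hSSL hSCJ hb ht hn h1
  have h3 : sl b ((X ^ 3 + b * Y ^ 3).norm : Eis) = 0 := by
    rw [← mul_conj, hSSL.2.1 _ _ (mul_ne_zero hn hn') hb, hSSL.1 _ _ _ hn hn' hb,
      hSSL.2.1 b _ hb hn, hSSL.2.1 b _ hb hn', h1, h2]
    ring
  rw [hI _ hm0] at h3
  rw [hI _ hB] at hbB
  obtain ⟨κ, k1, k2⟩ := dec3 _ _ _ _ _ _ hm (fun h => hLb (hL.2 h)) h3 hbB
  refine ⟨κ, fun z hz => ?_⟩
  have hBe := int_ne hB
  have hme := int_ne hm0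
  have h4 : sl ((X ^ 3 + b * Y ^ 3).norm : Eis) z =
      sl (X ^ 3 + b * Y ^ 3) z + sl (conj (X ^ 3 + b * Y ^ 3)) z := by
    rw [← mul_conj, hSSL.1 _ _ _ hn hn' hz]
  rw [← h4, hSSL.2.1 z _ hz hBe, hSSL.2.1 z _ hz hme, HYPT.sl_int hSSL hLCL hz _ hB,
    HYPT.sl_int hSSL hLCL hz _ hm0, k1, k2]
  ring

/-! ### Avoiding the zeros -/

theorem ev_ne {α β : Eis} (h : α ≠ 0 ∨ β ≠ 0) :
    ∀ᶠ k : ℕ in Filter.cofinite, ((1 + 9 * (k : ℤ) : ℤ) : Eis) * α + β ≠ 0 := by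
  rw [Filter.eventually_cofinite]
  by_cases hα : α = 0
  · have hβ : β ≠ 0 := by
      rcases h with h | h
      · exact absurd hα h
      · exact h
    have h1 : {k : ℕ | ¬ ((1 + 9 * (k : ℤ) : ℤ) : Eis) * α + β ≠ 0} = ∅ := by
      ext k
      simp [hα, hβ]
    rw [h1]
    exact Set.finite_empty
  · apply Set.Subsingleton.finite
    intro k hk l hl
    simp only [Set.mem_ofPred_eq, not_not] at hk hl
    have h1 : (((1 + 9 * (k : ℤ) : ℤ) : Eis) - ((1 + 9 * (l : ℤ) : ℤ) : Eis)) * α = 0 := by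
      linear_combination hk - hl
    rcases mul_eq_zero.1 h1 with h2 | h2
    · have h3 := congrArg Eis.re h2
      rw [sub_re, intCast_re, intCast_re, zero_re] at h3
      omega
    · exact absurd h2 hα

/-- the nondegeneracy at the two points for almost all `k` -/
theorem ev_dne {b x p q p' q' t : Eis} {e : ℤ} (ht : t ≠ 0) (he : e ≠ 0)
    (h : SolE b x p q p' q') :
    ∀ᶠ k : ℕ in Filter.cofinite,
      DNE ((1 + 9 * (k : ℤ) : ℤ) : Eis) (e : Eis) p (-p') (-q) q' ∧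
      DNE (t * (e : Eis)) ((1 + 9 * (k : ℤ) : ℤ) : Eis) p (-p') (-q) q' := by
  have hE := int_ne he
  have hw : ∀ i : ℕ, (w : Eis) ^ i ≠ 0 := fun i => pow_ne_zero i isUnit_w.ne_zero
  have h1 : p ≠ 0 ∨ q ≠ 0 := by
    by_contra h0
    push Not at h0
    apply h.n1
    rw [h0.1, h0.2]
    ring
  have h2 : p' ≠ 0 ∨ q' ≠ 0 := by
    by_contra h0
    push Not at h0
    apply h.n1
    rw [h.eq, h0.1, h0.2]
    ring
  have a : ∀ i : ℕ, ∀ᶠ k : ℕ in Filter.cofinite,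
      ((1 + 9 * (k : ℤ) : ℤ) : Eis) * (-q) + w ^ i * p * e ≠ 0 := fun i =>
    ev_ne (h1.symm.imp neg_ne_zero.2 fun h => mul_ne_zero (mul_ne_zero (hw i) h) hE)
  have b' : ∀ i : ℕ, ∀ᶠ k : ℕ in Filter.cofinite,
      ((1 + 9 * (k : ℤ) : ℤ) : Eis) * q' + w ^ i * (-p') * e ≠ 0 := fun i =>
    ev_ne (h2.symm.imp id fun h => mul_ne_zero (mul_ne_zero (hw i) (neg_ne_zero.2 h)) hE)
  have c : ∀ i : ℕ, ∀ᶠ k : ℕ in Filter.cofinite,
      ((1 + 9 * (k : ℤ) : ℤ) : Eis) * (w ^ i * p) + t * e * (-q) ≠ 0 := fun i =>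
    ev_ne (h1.imp (fun h => mul_ne_zero (hw i) h)
      fun h => mul_ne_zero (mul_ne_zero ht hE) (neg_ne_zero.2 h))
  have d : ∀ i : ℕ, ∀ᶠ k : ℕ in Filter.cofinite,
      ((1 + 9 * (k : ℤ) : ℤ) : Eis) * (w ^ i * (-p')) + t * e * q' ≠ 0 := fun i =>
    ev_ne (h2.imp (fun h => mul_ne_zero (hw i) (neg_ne_zero.2 h))
      fun h => mul_ne_zero (mul_ne_zero ht hE) h)
  filter_upwards [a 1, a 2, b' 1, b' 2, c 1, c 2, d 1, d 2] with k a1 a2 b1 b2 c1 c2 d1 d2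
  refine ⟨⟨a1, a2, b1, b2⟩, ⟨?_, ?_, ?_, ?_⟩⟩
  · unfold DfE
    intro h0
    apply c1
    linear_combination h0
  · unfold DfE
    intro h0
    apply c2
    linear_combination h0
  · unfold DfE
    intro h0
    apply d1
    linear_combination h0
  · unfold DfE
    intro h0
    apply d2
    linear_combination h0

end RAE

open RAE in
/-- PTK_RAE -/
theorem RAE_thm (hAVE : Stmt_AVE) (hIIA : Stmt_IIA) (hIF2 : Stmt_IF2) (hSAE : Stmt_SAE)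
    (hLMC : Stmt_LMC) (hLCI : Stmt_LCI) (hSSL : SSL) (hSLC : SLC) (hSCJ : SCJ) (hLCL : LCL) :
    Stmt_RAE := by
  intro B b x₁ x₂ p₁ q₁ p₁' q₁' p₂ q₂ p₂' q₂' p q p' q' hB hb hM hbB hLb hx₁ hx₂ hL₁ hL₂ hS₁ hS₂
    hS hP
  obtain ⟨t, ht⟩ := hM.cb
  have hb' := EHYP.conj_ne hb
  have ht0 : t ≠ 0 := by
    rintro rfl
    rw [zero_pow (by norm_num)] at ht
    exact mul_ne_zero hb hb' ht
  obtain ⟨e, he, hN⟩ := sign hM.nl ht
  have he0 : e ≠ 0 := by rcases he with h | h <;> rw [h] <;> norm_num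
  have he2 : e ^ 2 = 1 := by rcases he with h | h <;> rw [h] <;> norm_num
  obtain ⟨k, ⟨⟨hD₁, hD₁'⟩, hD₂, hD₂'⟩, hD, hD'⟩ :=
    (((ev_dne ht0 he0 hS₁).and (ev_dne ht0 he0 hS₂)).and (ev_dne ht0 he0 hS)).exists
  have hx := mul_ne_zero hx₁ hx₂
  have hL := lce_mul hL₁ hL₂
  have hBe := int_ne hB
  have hE := int_ne he0
  have hK : (1 + 9 * (k : ℤ) : ℤ) ≠ 0 := by omega
  have hX := int_ne hK
  obtain ⟨hm0, -⟩ := lvw_of_mod hLCL (hN k)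
  have h9 := hN k
  have hXc : conj ((1 + 9 * (k : ℤ) : ℤ) : Eis) = ((1 + 9 * (k : ℤ) : ℤ) : Eis) := conj_intCast _
  have hEc : conj (e : Eis) = (e : Eis) := conj_intCast _
  clear hN
  generalize ((1 + 9 * (k : ℤ) : ℤ) : Eis) = X at *
  have hn : X ^ 3 + b * (e : Eis) ^ 3 ≠ 0 := by
    intro h0
    rw [h0] at hm0
    exact hm0 norm_zero
  have hne := EHYP.conj_ne hn
  have hn'e : (t * (e : Eis)) ^ 3 + b * X ^ 3 = b * conj (X ^ 3 + b * (e : Eis) ^ 3) := by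
    rw [map_add, map_mul, map_pow, map_pow, hXc, hEc]
    linear_combination (-(e : Eis) ^ 3) * ht
  have hn' : (t * (e : Eis)) ^ 3 + b * X ^ 3 ≠ 0 := by
    rw [hn'e]
    exact mul_ne_zero hb hne
  obtain ⟨κ, hκ⟩ := kappa hLMC hSSL hSCJ hLCL hB hb hM ht hbB hLb hX hE hn h9
  have hκ' : ∀ z : Eis, z ≠ 0 → sl (B : Eis) z = κ * (sl (X ^ 3 + b * (e : Eis) ^ 3) z +
      sl ((t * (e : Eis)) ^ 3 + b * X ^ 3) z - sl b z) := by
    intro z hz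
    rw [hκ z hz, hn'e, hSSL.1 _ _ _ hb hne hz]
    ring
  have hX' := mul_ne_zero ht0 hE
  rw [key hAVE hIIA hIF2 hLCI hSSL hSLC hBe hb hx hbB hLb hL hS hX hE hX' hX hn hn' hD hD' hκ',
    key hAVE hIIA hIF2 hLCI hSSL hSLC hBe hb hx₁ hbB hLb hL₁ hS₁ hX hE hX' hX hn hn' hD₁ hD₁' hκ',
    key hAVE hIIA hIF2 hLCI hSSL hSLC hBe hb hx₂ hbB hLb hL₂ hS₂ hX hE hX' hX hn hn' hD₂ hD₂' hκ',
    hSAE b x₁ x₂ p₁ q₁ p₁' q₁' p₂ q₂ p₂' q₂' p q p' q' X e hb hx₁ hx₂ hS₁ hS₂ hS hP hX hE hn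
      hD₁ hD₂ hD,
    hSAE b x₁ x₂ p₁ q₁ p₁' q₁' p₂ q₂ p₂' q₂' p q p' q' (t * e) X hb hx₁ hx₂ hS₁ hS₂ hS hP hX' hX
      hn' hD₁' hD₂' hD']
  ring

end Pool.Agent.PTK
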