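import Pool.Agent.PTK.StZ
import Pool.Agent.PT.TADD

/-!
# PTK_SAE: additivity of the local term of a point at `lam`
-/

set_option autoImplicit false

open NumberField IsDedekindDomain Finset
open scoped nonZeroDivisors Pointwise

namespace Pool.Agent.PTK

open Pool.Agent.Lib_helper18 Pool.Agent.Lib_helper18.Eis Pool.Agent.Lib_helper84.Cub
open Pool.Agent.PT Pool.Agent.PTE Pool.Agent.PT3 Pool.Agent.PTL Pool.Agent.PTN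

namespace SAE

/-- the three linear forms multiply to the norm -/
theorem Lf_prod (p q r : Eis) : LfE p q 0 r * LfE p q 1 r * LfE p q 2 r = p ^ 3 + q ^ 3 * r ^ 3 := by
  unfold LfE
  have h1 := w_rel
  have h2 := w_cube
  linear_combination (p ^ 2 * q * r + p * q ^ 2 * r ^ 2 * w) * h1 +
    q ^ 3 * r ^ 3 * h2

/-- the linear forms are nonzero with bounded valuation at good approximations -/
theorem Lf_bound {π : Eis} (hπ : Prime π) {b p q r : Eis} {N : ℕ}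
    (hn : p ^ 3 + b * q ^ 3 ≠ 0) (hr : π ^ N ∣ r ^ 3 - b)
    (hN : V π (p ^ 3 + b * q ^ 3) < N) (i : ℕ) (hi : i = 1 ∨ i = 2) :
    LfE p q i r ≠ 0 ∧ V π (LfE p q i r) ≤ V π (p ^ 3 + b * q ^ 3) := by
  have e : p ^ 3 + b * q ^ 3 = (p ^ 3 + q ^ 3 * r ^ 3) - q ^ 3 * (r ^ 3 - b) := by
    ring
  have hnd : ¬ π ^ (V π (p ^ 3 + b * q ^ 3) + 1) ∣
      LfE p q 0 r * LfE p q 1 r * LfE p q 2 r := by
    rw [Lf_prod]
    intro h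
    have h1 : π ^ (V π (p ^ 3 + b * q ^ 3) + 1) ∣ p ^ 3 + b * q ^ 3 := by
      have h2 : π ^ (V π (p ^ 3 + b * q ^ 3) + 1) ∣ q ^ 3 * (r ^ 3 - b) :=
        Dvd.dvd.mul_left ((pow_dvd_pow π (by omega)).trans hr) _
      have h3 := dvd_sub h h2
      rwa [← e] at h3
    exact (fin hπ hn).not_pow_dvd_of_multiplicity_lt (Nat.lt_succ_self _) h1
  have hdv : LfE p q i r ∣ LfE p q 0 r * LfE p q 1 r * LfE p q 2 r := by
    rcases hi with rfl | rfl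
    · exact ⟨LfE p q 0 r * LfE p q 2 r, by ring⟩
    · exact ⟨LfE p q 0 r * LfE p q 1 r, by ring⟩
  have h0 : LfE p q i r ≠ 0 := by
    intro h
    rw [h] at hdv
    rw [zero_dvd_iff.1 hdv] at hnd
    exact hnd (dvd_zero _)
  refine ⟨h0, ?_⟩
  by_contra hlt
  push Not at hlt
  apply hnd
  exact (pow_dvd_of_le_multiplicity hlt).trans hdv

/-- evaluation of the identity at `w^i r` -/
theorem Lf_ident {b p₁ q₁ p₁' q₁' p₂ q₂ p₂' q₂' p q p' q' : Eis}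
    (R : PRelE b p₁ q₁ p₁' q₁' p₂ q₂ p₂' q₂' p q p' q') (i : ℕ) (r : Eis) :
    LfE p₁ q₁ i r * LfE p₂ q₂ i r * LfE p' q' i r - LfE p₁' q₁' i r * LfE p₂' q₂' i r * LfE p q i r =
      (r ^ 3 - b) * (q₁ * q₂ * q' - q₁' * q₂' * q) := by
  have h3 : (w ^ i) ^ 3 = 1 := by rw [← pow_mul, mul_comm, pow_mul, w_cube, one_pow]
  have e0' := R.e0
  have e1' := R.e1
  have e2' := R.e2
  unfold LfE
  generalize w ^ i = W at *
  linear_combination e0' + W * r * e1' + W ^ 2 * r ^ 2 * e2' +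
    (q₁ * q₂ * q' - q₁' * q₂' * q) * r ^ 3 * h3

/-- additivity of `ASE` at good approximations -/
theorem AS_add {π : Eis} {s : Eis → Eis → ZMod 3} {e : ℕ} (hs : LSym π s e)
    {B b p₁ q₁ p₁' q₁' p₂ q₂ p₂' q₂' p q p' q' : Eis} (hB : B ≠ 0)
    (n₁ : p₁ ^ 3 + b * q₁ ^ 3 ≠ 0) (n₂ : p₂ ^ 3 + b * q₂ ^ 3 ≠ 0)
    (n₃ : p' ^ 3 + b * q' ^ 3 ≠ 0) (m₁ : p₁' ^ 3 + b * q₁' ^ 3 ≠ 0)
    (m₂ : p₂' ^ 3 + b * q₂' ^ 3 ≠ 0) (m₃ : p ^ 3 + b * q ^ 3 ≠ 0)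
    (R : PRelE b p₁ q₁ p₁' q₁' p₂ q₂ p₂' q₂' p q p' q') :
    ∃ N0 : ℕ, ∀ r : Eis, π ^ N0 ∣ r ^ 3 - b →
      ASE s B p q p' q' r = ASE s B p₁ q₁ p₁' q₁' r + ASE s B p₂ q₂ p₂' q₂' r := by
  refine ⟨V π (p₁ ^ 3 + b * q₁ ^ 3) + V π (p₂ ^ 3 + b * q₂ ^ 3) +
    V π (p' ^ 3 + b * q' ^ 3) + V π (p₁' ^ 3 + b * q₁' ^ 3) +
    V π (p₂' ^ 3 + b * q₂' ^ 3) + V π (p ^ 3 + b * q ^ 3) + e + 1,
    fun r hr => ?_⟩
  have key : ∀ i : ℕ, i = 1 ∨ i = 2 →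
      s B (LfE p₁ q₁ i r) + s B (LfE p₂ q₂ i r) + s B (LfE p' q' i r) =
        s B (LfE p₁' q₁' i r) + s B (LfE p₂' q₂' i r) + s B (LfE p q i r) := by
    intro i hi
    have a1 := Lf_bound hs.prime n₁ hr (by omega) i hi
    have a2 := Lf_bound hs.prime n₂ hr (by omega) i hi
    have a3 := Lf_bound hs.prime n₃ hr (by omega) i hi
    have b1 := Lf_bound hs.prime m₁ hr (by omega) i hi
    have b2 := Lf_bound hs.prime m₂ hr (by omega) i hi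
    have b3 := Lf_bound hs.prime m₃ hr (by omega) i hi
    refine TADD.step_i hs hB a1.1 a2.1 a3.1 b1.1 b2.1 b3.1 ?_ hr (Lf_ident R i r)
    have h1 := b1.2
    have h2 := b2.2
    have h3 := b3.2
    omega
  have k1 := key 1 (Or.inl rfl)
  have k2 := key 2 (Or.inr rfl)
  unfold ASE
  linear_combination k1 - k2

/-- the swapped solution -/
theorem swap' {b x p q p' q' : Eis} (h : SolE b x p q p' q') : SolE x b p (-p') (-q) q' where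
  eq := by linear_combination h.eq
  n1 := by
    intro h0
    apply h.n2
    linear_combination h0
  n2 := by
    intro h0
    apply h.n1
    linear_combination h0
  g1 := by
    intro h0
    apply h.g1
    unfold GfE at h0 ⊢
    linear_combination h0
  g2 := by
    intro h0
    apply h.g2
    unfold GfE at h0 ⊢
    linear_combination h0

/-- the denominators are nonzero -/
theorem den_ne {b x p q p' q' : Eis} (S : SolE b x p q p' q') : p' ^ 3 + b * q' ^ 3 ≠ 0 := by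
  intro h
  apply S.n1
  rw [S.eq, h, mul_zero]

/-- IF4 for the swapped solution -/
theorem if4_swap (hIF4 : Stmt_IF4) {π : Eis} {s : Eis → Eis → ZMod 3} {e : ℕ} (hs : LSym π s e)
    {b x p q p' q' X Y : Eis} (hb : b ≠ 0) (hx : x ≠ 0) (S : SolE b x p q p' q') (hX : X ≠ 0)
    (hY : Y ≠ 0) (hn : X ^ 3 + b * Y ^ 3 ≠ 0) (hD : DNE X Y p (-p') (-q) q') :
    ∃ N0 : ℕ, ∀ ξ : Eis, π ^ N0 ∣ ξ ^ 3 - b →
      SVE s b p (-p') (-q) q' X Y = ASE s (X ^ 3 + b * Y ^ 3) p q p' q' ξ +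
        s (LfE X Y 1 ξ) x - s (LfE X Y 2 ξ) x := by
  obtain ⟨N0, hN0⟩ := hIF4 π s e hs x b p (-p') (-q) q' X Y hx hb (swap' S) hX hY hn hD
  refine ⟨N0, fun ξ hξ => ?_⟩
  have h := hN0 ξ hξ
  rw [neg_neg, neg_neg] at h
  exact h

/-- local additivity where `b` is a local cube -/
theorem loc_cube (hIF4 : Stmt_IF4) {π : Eis} {s : Eis → Eis → ZMod 3} {e : ℕ} (hs : LSym π s e)
    {b x₁ x₂ p₁ q₁ p₁' q₁' p₂ q₂ p₂' q₂' p q p' q' X Y : Eis} (hb : b ≠ 0) (hx₁ : x₁ ≠ 0)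
    (hx₂ : x₂ ≠ 0) (S₁ : SolE b x₁ p₁ q₁ p₁' q₁') (S₂ : SolE b x₂ p₂ q₂ p₂' q₂')
    (S : SolE b (x₁ * x₂) p q p' q') (R : PRelE b p₁ q₁ p₁' q₁' p₂ q₂ p₂' q₂' p q p' q')
    (hX : X ≠ 0) (hY : Y ≠ 0) (hn : X ^ 3 + b * Y ^ 3 ≠ 0)
    (D₁ : DNE X Y p₁ (-p₁') (-q₁) q₁') (D₂ : DNE X Y p₂ (-p₂') (-q₂) q₂')
    (D : DNE X Y p (-p') (-q) q') (hLC : LCE π b) :
    SVE s b p (-p') (-q) q' X Y =
      SVE s b p₁ (-p₁') (-q₁) q₁' X Y + SVE s b p₂ (-p₂') (-q₂) q₂' X Y := by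
  obtain ⟨N₁, h₁⟩ := if4_swap hIF4 hs hb hx₁ S₁ hX hY hn D₁
  obtain ⟨N₂, h₂⟩ := if4_swap hIF4 hs hb hx₂ S₂ hX hY hn D₂
  obtain ⟨N₃, h₃⟩ := if4_swap hIF4 hs hb (mul_ne_zero hx₁ hx₂) S hX hY hn D
  obtain ⟨N₄, h₄⟩ := AS_add hs hn S₁.n1 S₂.n1 (den_ne S) (den_ne S₁) (den_ne S₂) S.n1 R
  obtain ⟨r, hr⟩ := hLC (N₁ + N₂ + N₃ + N₄ + V π (X ^ 3 + b * Y ^ 3) + 1)
  have k : ∀ M : ℕ, M ≤ N₁ + N₂ + N₃ + N₄ + V π (X ^ 3 + b * Y ^ 3) + 1 →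
      π ^ M ∣ r ^ 3 - b := fun M hM => (pow_dvd_pow π hM).trans hr
  have l1 := (Lf_bound hs.prime hn hr (by omega) 1 (Or.inl rfl)).1
  have l2 := (Lf_bound hs.prime hn hr (by omega) 2 (Or.inr rfl)).1
  have g₁ := h₁ r (k _ (by omega))
  have g₂ := h₂ r (k _ (by omega))
  have g₃ := h₃ r (k _ (by omega))
  have g₄ := h₄ r (k _ (by omega))
  rw [TADD.LSym.right_mul hs l1 hx₁ hx₂, TADD.LSym.right_mul hs l2 hx₁ hx₂] at g₃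
  rw [g₁, g₂, g₃, g₄]
  ring

end SAE

open SAE in
/-- PTK_SAE -/
theorem SAE_thm (hSTM : STM) (hSPP : SPP) (hLCI : Stmt_LCI)
    (hIF4 : Stmt_IF4) (hF6R : Stmt_F6R) (hF7U : Stmt_F7U) (hSVF : Stmt_SVF) : Stmt_SAE := by
  intro b x₁ x₂ p₁ q₁ p₁' q₁' p₂ q₂ p₂' q₂' p q p' q' X Y hb hx₁ hx₂ S₁ S₂ S R hX hY hn D₁ D₂ D
  have hx : x₁ * x₂ ≠ 0 := mul_ne_zero hx₁ hx₂
  have hw0 : (w : Eis) ≠ 0 := by
    intro h
    have := w_cube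
    rw [h] at this
    exact absurd this (by decide)
  have hloc : ∀ π : PP, SVE (tm π.1) b p (-p') (-q) q' X Y =
      SVE (tm π.1) b p₁ (-p₁') (-q₁) q₁' X Y + SVE (tm π.1) b p₂ (-p₂') (-q₂) q₂' X Y := by
    intro π
    have hs : LSym π.1 (tm π.1) 1 := hSTM π.1 π.2.1 (hSPP.2.2.2.1 π).1
    by_cases h3 : 3 ∣ V π.1 b
    · by_cases hc : ch π.1 b = 0
      · exact loc_cube hIF4 hs hb hx₁ hx₂ S₁ S₂ S R hX hY hn D₁ D₂ D ((hLCI.1 π b hb).2 ⟨h3, hc⟩)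
      · rw [hF7U π x₁ b p₁ (-p₁') (-q₁) q₁' X Y hx₁ hb (swap' S₁) hX hY D₁ h3 hc,
          hF7U π x₂ b p₂ (-p₂') (-q₂) q₂' X Y hx₂ hb (swap' S₂) hX hY D₂ h3 hc,
          hF7U π (x₁ * x₂) b p (-p') (-q) q' X Y hx hb (swap' S) hX hY D h3 hc, add_zero]
    · have f₁ := hF6R π x₁ b p₁ (-p₁') (-q₁) q₁' X Y hx₁ hb (swap' S₁) hX hY D₁ h3
      have f₂ := hF6R π x₂ b p₂ (-p₂') (-q₂) q₂' X Y hx₂ hb (swap' S₂) hX hY D₂ h3
      have f₃ := hF6R π (x₁ * x₂) b p (-p') (-q) q' X Y hx hb (swap' S) hX hY D h3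
      by_cases hV : 3 ∣ V π.1 (X ^ 3 + b * Y ^ 3)
      · rw [f₁.1 hV, f₂.1 hV, f₃.1 hV, add_zero]
      · rw [f₁.2 hV, f₂.2 hV, f₃.2 hV, TADD.LSym.right_mul hs hw0 hx₁ hx₂]
        ring
  obtain ⟨s₁, t₁⟩ := hSVF x₁ b p₁ (-p₁') (-q₁) q₁' X Y hx₁ hb (swap' S₁) hX hY hn D₁
  obtain ⟨s₂, t₂⟩ := hSVF x₂ b p₂ (-p₂') (-q₂) q₂' X Y hx₂ hb (swap' S₂) hX hY hn D₂
  obtain ⟨s₃, t₃⟩ := hSVF (x₁ * x₂) b p (-p') (-q) q' X Y hx hb (swap' S) hX hY hn D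
  have s₁₂ : (Function.support fun v : Pl => SVE (sy v) b p₁ (-p₁') (-q₁) q₁' X Y +
      SVE (sy v) b p₂ (-p₂') (-q₂) q₂' X Y).Finite :=
    (s₁.union s₂).subset (Function.support_add _ _)
  have t₁₂ : ∑ᶠ v : Pl, (SVE (sy v) b p₁ (-p₁') (-q₁) q₁' X Y +
      SVE (sy v) b p₂ (-p₂') (-q₂) q₂' X Y) = 0 := by
    rw [finsum_add_distrib s₁ s₂, t₁, t₂, add_zero]
  have t : ∑ᶠ v : Pl, (SVE (sy v) b p (-p') (-q) q' X Y -
      (SVE (sy v) b p₁ (-p₁') (-q₁) q₁' X Y + SVE (sy v) b p₂ (-p₂') (-q₂) q₂' X Y)) = 0 := by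
    rw [finsum_sub_distrib s₃ s₁₂, t₃, t₁₂, sub_zero]
  rw [finsum_eq_single _ (none : Pl)] at t
  · exact sub_eq_zero.1 t
  · intro v hv
    rcases v with _ | π
    · exact absurd rfl hv
    · exact sub_eq_zero.2 (hloc π)

end Pool.Agent.PTK
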