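import Pool.Agent.PTK.StZ
import Pool.Agent.PTK.HNE
import Pool.Agent.PT.TADD

/-!
# PTK_TAE: additivity of the pairing in the second variable
-/

set_option autoImplicit false

open NumberField IsDedekindDomain Finset
open scoped nonZeroDivisors Pointwise

namespace Pool.Agent.PTK

open Pool.Agent.Lib_helper18 Pool.Agent.Lib_helper18.Eis Pool.Agent.Lib_helper84.Cub
open Pool.Agent.PT Pool.Agent.PTE Pool.Agent.PT3 Pool.Agent.PTL Pool.Agent.PTN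

namespace TAE

/-! ### The algebra -/

/-- the norm form of `x + y T + z T^2`, `T^3 = b` -/
def N3 (b x y z : Eis) : Eis := x ^ 3 + b * y ^ 3 + b ^ 2 * z ^ 3 - 3 * b * x * y * z

theorem N3_mul (b x y z u v t : Eis) :
    N3 b (x * u + b * (y * t + z * v)) (x * v + y * u + b * (z * t)) (x * t + y * v + z * u) =
      N3 b x y z * N3 b u v t := by
  unfold N3
  ring

/-- no zeros of `p^3 + b q^3` when `b` is not a cube -/
theorem ne_of_not_cube {b p q : Eis} (hb : ¬ ∃ c : Eis, c ^ 3 = b) (h : ¬ (p = 0 ∧ q = 0)) :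
    p ^ 3 + b * q ^ 3 ≠ 0 := by
  intro h0
  by_cases hq : q = 0
  · subst hq
    have h1 : p ^ 3 = 0 := by linear_combination h0
    exact h ⟨pow_eq_zero_iff (three_ne_zero) |>.1 h1, rfl⟩
  · obtain ⟨c, hc⟩ := HNE.cube_of (y := -b) (a := p) hq (by linear_combination h0)
    exact hb ⟨-c, by linear_combination -hc⟩

/-- the product of two elements `(p + q T)/(p' + q' T)` has this form again -/
theorem exists_prod (b : Eis) (p₁ q₁ p₁' q₁' p₂ q₂ p₂' q₂' : Eis)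
    (h1 : p₁' ^ 3 + b * q₁' ^ 3 ≠ 0) (h2 : p₂' ^ 3 + b * q₂' ^ 3 ≠ 0) :
    ∃ p q p' q' : Eis, ¬ (p' = 0 ∧ q' = 0) ∧
      (p₁ * p₂ * p' + b * (q₁ * q₂ * q') = p₁' * p₂' * p + b * (q₁' * q₂' * q)) ∧
      ((p₁ * q₂ + q₁ * p₂) * p' + p₁ * p₂ * q' = (p₁' * q₂' + q₁' * p₂') * p + p₁' * p₂' * q) ∧
      (q₁ * q₂ * p' + (p₁ * q₂ + q₁ * p₂) * q' = q₁' * q₂' * p + (p₁' * q₂' + q₁' * p₂') * q) := by
  obtain ⟨e0, he0⟩ : ∃ e0, e0 = p₁ * p₂ := ⟨_, rfl⟩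
  obtain ⟨e1, he1⟩ : ∃ e1, e1 = p₁ * q₂ + q₁ * p₂ := ⟨_, rfl⟩
  obtain ⟨e2, he2⟩ : ∃ e2, e2 = q₁ * q₂ := ⟨_, rfl⟩
  obtain ⟨f0, hf0⟩ : ∃ e0, e0 = p₁' * p₂' := ⟨_, rfl⟩
  obtain ⟨f1, hf1⟩ : ∃ e1, e1 = p₁' * q₂' + q₁' * p₂' := ⟨_, rfl⟩
  obtain ⟨f2, hf2⟩ : ∃ e2, e2 = q₁' * q₂' := ⟨_, rfl⟩
  have hN : N3 b f0 f1 f2 = (p₁' ^ 3 + b * q₁' ^ 3) * (p₂' ^ 3 + b * q₂' ^ 3) := by
    have := N3_mul b p₁' q₁' 0 p₂' q₂' 0
    unfold N3 at this ⊢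
    subst hf0 hf1 hf2
    linear_combination this
  have hN0 : N3 b f0 f1 f2 ≠ 0 := by rw [hN]; exact mul_ne_zero h1 h2
  rw [← he0, ← he1, ← he2, ← hf0, ← hf1, ← hf2]
  obtain ⟨g0, hg0⟩ : ∃ g, g = e0 * (f0 ^ 2 - b * f1 * f2) + b * (e1 * (f1 ^ 2 - f0 * f2) +
      e2 * (b * f2 ^ 2 - f0 * f1)) := ⟨_, rfl⟩
  obtain ⟨g1, hg1⟩ : ∃ g, g = e0 * (b * f2 ^ 2 - f0 * f1) + e1 * (f0 ^ 2 - b * f1 * f2) +
      b * (e2 * (f1 ^ 2 - f0 * f2)) := ⟨_, rfl⟩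
  obtain ⟨g2, hg2⟩ : ∃ g, g = e0 * (f1 ^ 2 - f0 * f2) + e1 * (b * f2 ^ 2 - f0 * f1) +
      e2 * (f0 ^ 2 - b * f1 * f2) := ⟨_, rfl⟩
  -- g * f = N e
  have k0 : g0 * f0 + b * (g1 * f2 + g2 * f1) = N3 b f0 f1 f2 * e0 := by
    unfold N3; subst hg0 hg1 hg2; ring
  have k1 : g0 * f1 + g1 * f0 + b * (g2 * f2) = N3 b f0 f1 f2 * e1 := by
    unfold N3; subst hg0 hg1 hg2; ring
  have k2 : g0 * f2 + g1 * f1 + g2 * f0 = N3 b f0 f1 f2 * e2 := by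
    unfold N3; subst hg0 hg1 hg2; ring
  by_cases hg : g1 = 0 ∧ g2 = 0
  · obtain ⟨hg1', hg2'⟩ := hg
    refine ⟨g0, 0, N3 b f0 f1 f2, 0, fun h => hN0 h.1, ?_, ?_, ?_⟩
    · rw [hg1', hg2'] at k0; linear_combination -k0
    · rw [hg1', hg2'] at k1; linear_combination -k1
    · rw [hg1', hg2'] at k2; linear_combination -k2
  · refine ⟨g0 * g1 - b * g2 ^ 2, g1 ^ 2 - g0 * g2, N3 b f0 f1 f2 * g1, - (N3 b f0 f1 f2 * g2),
      fun h => hg ⟨(mul_eq_zero.1 h.1).resolve_left hN0,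
        (mul_eq_zero.1 (neg_eq_zero.1 h.2)).resolve_left hN0⟩, ?_, ?_, ?_⟩
    · linear_combination (-g1) * k0 + b * g2 * k2
    · linear_combination (-g1) * k1 + g2 * k0
    · linear_combination (-g1) * k2 + g2 * k1

/-- the norm of the product -/
theorem norm_prod {b p₁ q₁ p₁' q₁' p₂ q₂ p₂' q₂' p q p' q' : Eis}
    (h : PRelE b p₁ q₁ p₁' q₁' p₂ q₂ p₂' q₂' p q p' q') :
    (p₁ ^ 3 + b * q₁ ^ 3) * (p₂ ^ 3 + b * q₂ ^ 3) * (p' ^ 3 + b * q' ^ 3) =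
      (p₁' ^ 3 + b * q₁' ^ 3) * (p₂' ^ 3 + b * q₂' ^ 3) * (p ^ 3 + b * q ^ 3) := by
  have h1 := N3_mul b p₁ q₁ 0 p₂ q₂ 0
  have h2 := N3_mul b p₁' q₁' 0 p₂' q₂' 0
  have h3 := N3_mul b (p₁ * p₂) (p₁ * q₂ + q₁ * p₂) (q₁ * q₂) p' q' 0
  have h4 := N3_mul b (p₁' * p₂') (p₁' * q₂' + q₁' * p₂') (q₁' * q₂') p q 0
  have h5 : N3 b (p₁ * p₂ * p' + b * ((p₁ * q₂ + q₁ * p₂) * 0 + q₁ * q₂ * q'))
      (p₁ * p₂ * q' + (p₁ * q₂ + q₁ * p₂) * p' + b * (q₁ * q₂ * 0))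
      (p₁ * p₂ * 0 + (p₁ * q₂ + q₁ * p₂) * q' + q₁ * q₂ * p') =
    N3 b (p₁' * p₂' * p + b * ((p₁' * q₂' + q₁' * p₂') * 0 + q₁' * q₂' * q))
      (p₁' * p₂' * q + (p₁' * q₂' + q₁' * p₂') * p + b * (q₁' * q₂' * 0))
      (p₁' * p₂' * 0 + (p₁' * q₂' + q₁' * p₂') * q + q₁' * q₂' * p) := by
    congr 1
    · linear_combination h.e0
    · linear_combination h.e1
    · linear_combination h.e2
  rw [h3, h4] at h5
  have g1 : N3 b (p₁ * p₂) (p₁ * q₂ + q₁ * p₂) (q₁ * q₂) =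
      (p₁ ^ 3 + b * q₁ ^ 3) * (p₂ ^ 3 + b * q₂ ^ 3) := by
    unfold N3 at h1 ⊢
    linear_combination h1
  have g2 : N3 b (p₁' * p₂') (p₁' * q₂' + q₁' * p₂') (q₁' * q₂') =
      (p₁' ^ 3 + b * q₁' ^ 3) * (p₂' ^ 3 + b * q₂' ^ 3) := by
    unfold N3 at h2 ⊢
    linear_combination h2
  have g3 : N3 b p' q' 0 = p' ^ 3 + b * q' ^ 3 := by unfold N3; ring
  have g4 : N3 b p q 0 = p ^ 3 + b * q ^ 3 := by unfold N3; ring
  rw [g1, g2, g3, g4] at h5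
  exact h5

/-! ### The linear forms -/

theorem LfE_ndvd {u b p q r : Eis} (hr : u ∣ r ^ 3 - b) (h : ¬ u ∣ p ^ 3 + b * q ^ 3) (i : ℕ) :
    ¬ u ∣ LfE p q i r := by
  intro hd
  apply h
  have h3 : (w ^ i) ^ 3 = 1 := by rw [← pow_mul, mul_comm, pow_mul, w_cube, one_pow]
  have h1 : p ^ 3 + b * q ^ 3 =
      LfE p q i r * (p ^ 2 - p * (q * w ^ i * r) + (q * w ^ i * r) ^ 2) -
        q ^ 3 * (r ^ 3 - b) := by
    unfold LfE
    linear_combination (- q ^ 3 * r ^ 3) * h3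
  rw [h1]
  exact dvd_sub (dvd_mul_of_dvd_left hd _) (dvd_mul_of_dvd_right hr _)

/-- the linear forms are nonzero with bounded valuation at good approximations -/
theorem LfE_bound {π : Eis} (hπ : Prime π) {b p q r : Eis} {N : ℕ}
    (hn : p ^ 3 + b * q ^ 3 ≠ 0) (hr : π ^ N ∣ r ^ 3 - b)
    (hN : V π (p ^ 3 + b * q ^ 3) < N) (i : ℕ) :
    LfE p q i r ≠ 0 ∧ V π (LfE p q i r) ≤ V π (p ^ 3 + b * q ^ 3) := by
  have hnd : ¬ π ^ (V π (p ^ 3 + b * q ^ 3) + 1) ∣ LfE p q i r := by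
    refine LfE_ndvd ((pow_dvd_pow π (by omega)).trans hr) ?_ i
    exact (fin hπ hn).not_pow_dvd_of_multiplicity_lt (Nat.lt_succ_self _)
  have h0 : LfE p q i r ≠ 0 := by
    intro h
    rw [h] at hnd
    exact hnd (dvd_zero _)
  refine ⟨h0, ?_⟩
  by_contra hlt
  push Not at hlt
  apply hnd
  exact pow_dvd_of_le_multiplicity hlt

/-- evaluation of the identity at `w^i r` -/
theorem LfE_ident {b p₁ q₁ p₁' q₁' p₂ q₂ p₂' q₂' p q p' q' : Eis}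
    (h : PRelE b p₁ q₁ p₁' q₁' p₂ q₂ p₂' q₂' p q p' q') (i : ℕ) (r : Eis) :
    LfE p₁ q₁ i r * LfE p₂ q₂ i r * LfE p' q' i r -
      LfE p₁' q₁' i r * LfE p₂' q₂' i r * LfE p q i r =
      (r ^ 3 - b) * (q₁ * q₂ * q' - q₁' * q₂' * q) := by
  have h3 : (w ^ i) ^ 3 = 1 := by rw [← pow_mul, mul_comm, pow_mul, w_cube, one_pow]
  have e0' := h.e0
  have e1' := h.e1
  have e2' := h.e2
  unfold LfE
  generalize w ^ i = W at *
  linear_combination e0' + W * r * e1' + W ^ 2 * r ^ 2 * e2' +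
    (q₁ * q₂ * q' - q₁' * q₂' * q) * r ^ 3 * h3

/-- additivity of `ASE` at good approximations -/
theorem ASE_add {π : Eis} {s : Eis → Eis → ZMod 3} {e : ℕ} (hs : LSym π s e)
    {B b p₁ q₁ p₁' q₁' p₂ q₂ p₂' q₂' p q p' q' : Eis} (hB : B ≠ 0)
    (n₁ : p₁ ^ 3 + b * q₁ ^ 3 ≠ 0) (n₂ : p₂ ^ 3 + b * q₂ ^ 3 ≠ 0)
    (n₃ : p' ^ 3 + b * q' ^ 3 ≠ 0) (m₁ : p₁' ^ 3 + b * q₁' ^ 3 ≠ 0)
    (m₂ : p₂' ^ 3 + b * q₂' ^ 3 ≠ 0) (m₃ : p ^ 3 + b * q ^ 3 ≠ 0)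
    (h : PRelE b p₁ q₁ p₁' q₁' p₂ q₂ p₂' q₂' p q p' q') :
    ∃ N0 : ℕ, ∀ r : Eis, π ^ N0 ∣ r ^ 3 - b →
      ASE s B p q p' q' r = ASE s B p₁ q₁ p₁' q₁' r + ASE s B p₂ q₂ p₂' q₂' r := by
  refine ⟨V π (p₁ ^ 3 + b * q₁ ^ 3) + V π (p₂ ^ 3 + b * q₂ ^ 3) +
    V π (p' ^ 3 + b * q' ^ 3) + V π (p₁' ^ 3 + b * q₁' ^ 3) +
    V π (p₂' ^ 3 + b * q₂' ^ 3) + V π (p ^ 3 + b * q ^ 3) + e + 1, fun r hr => ?_⟩
  have key : ∀ i : ℕ,
      s B (LfE p₁ q₁ i r) + s B (LfE p₂ q₂ i r) + s B (LfE p' q' i r) =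
        s B (LfE p₁' q₁' i r) + s B (LfE p₂' q₂' i r) + s B (LfE p q i r) := by
    intro i
    have a1 := LfE_bound hs.prime n₁ hr (by omega) i
    have a2 := LfE_bound hs.prime n₂ hr (by omega) i
    have a3 := LfE_bound hs.prime n₃ hr (by omega) i
    have b1 := LfE_bound hs.prime m₁ hr (by omega) i
    have b2 := LfE_bound hs.prime m₂ hr (by omega) i
    have b3 := LfE_bound hs.prime m₃ hr (by omega) i
    refine Pool.Agent.PT.TADD.step_i hs hB a1.1 a2.1 a3.1 b1.1 b2.1 b3.1 ?_ hr (LfE_ident h i r)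
    have h1 := b1.2
    have h2 := b2.2
    have h3 := b3.2
    omega
  have k1 := key 1
  have k2 := key 2
  unfold ASE
  linear_combination k1 - k2

/-! ### The local terms -/

lemma w_ne : w ≠ 0 := by
  intro h
  have h2 := congrArg Eis.im h
  simp at h2

/-- the denominators -/
theorem SolWE.den {b x p q p' q' : Eis} (h : SolWE b x p q p' q') : p' ^ 3 + b * q' ^ 3 ≠ 0 := by
  intro h1
  apply h.n1
  rw [h.eq, h1, mul_zero]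

/-- additivity of `AVE` -/
theorem AVE_add (hAVE : Stmt_AVE) {v : Pl} {e : ℕ} (hs : LSym (uni v) (sy v) e)
    {B b x₁ x₂ p₁ q₁ p₁' q₁' p₂ q₂ p₂' q₂' p q p' q' : Eis} (hB : B ≠ 0) (hb : b ≠ 0)
    (hx₁ : x₁ ≠ 0) (hx₂ : x₂ ≠ 0) (h₁ : sy v B x₁ = 0) (h₂ : sy v B x₂ = 0)
    (S₁ : SolWE b x₁ p₁ q₁ p₁' q₁') (S₂ : SolWE b x₂ p₂ q₂ p₂' q₂')
    (S : SolWE b (x₁ * x₂) p q p' q') (hR : PRelE b p₁ q₁ p₁' q₁' p₂ q₂ p₂' q₂' p q p' q')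
    (hL : LCE (uni v) b) :
    AVE v B b p q p' q' = AVE v B b p₁ q₁ p₁' q₁' + AVE v B b p₂ q₂ p₂' q₂' := by
  have h12 : sy v B (x₁ * x₂) = 0 := by
    rw [Pool.Agent.PT.TADD.LSym.right_mul hs hB hx₁ hx₂, h₁, h₂, add_zero]
  obtain ⟨⟨N₁, hN₁⟩, -⟩ := hAVE v B b x₁ p₁ q₁ p₁' q₁' hB hb hx₁ S₁ h₁ hL
  obtain ⟨⟨N₂, hN₂⟩, -⟩ := hAVE v B b x₂ p₂ q₂ p₂' q₂' hB hb hx₂ S₂ h₂ hL
  obtain ⟨-, huniq⟩ := hAVE v B b (x₁ * x₂) p q p' q' hB hb (mul_ne_zero hx₁ hx₂) S h12 hL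
  obtain ⟨N₃, hN₃⟩ := ASE_add hs hB S₁.n1 S₂.n1 (SolWE.den S) (SolWE.den S₁) (SolWE.den S₂)
    S.n1 hR
  refine huniq _ (max N₁ (max N₂ N₃)) (fun r hr => ?_)
  rw [hN₃ r ((pow_dvd_pow _ (by omega)).trans hr),
    hN₁ r ((pow_dvd_pow _ (by omega)).trans hr),
    hN₂ r ((pow_dvd_pow _ (by omega)).trans hr)]

/-- the solution with exchanged base and norm -/
theorem SolE.swap {b x p q p' q' : Eis} (h : SolE b x p q p' q') :
    SolWE x b p (-p') (-q) q' where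
  eq := by linear_combination h.eq
  n1 := by
    intro h1
    apply h.n2
    linear_combination h1

/-- the local term at `λ` when `B` is a local cube and `b` is not -/
theorem LTE_cube (hAVE : Stmt_AVE) (hLCI : Stmt_LCI) (hSLC : SLC) {B b x p q p' q' : Eis}
    (hB : B ≠ 0) (hb : b ≠ 0) (hx : x ≠ 0) (hLB : LCE lam B) (hLb : ¬ LCE lam b)
    (S : SolE b x p q p' q') : LTE B b x p q p' q' = lfE b x := by
  have hz : ∀ a c : Eis, LCE lam a → a ≠ 0 → c ≠ 0 → sl a c = 0 :=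
    fun a c h ha hc => hLCI.2.2 lam sl 4 a c hSLC h ha hc
  have hw0 : w ≠ 0 := w_ne
  unfold LTE
  rw [if_neg hLb]
  split_ifs with hLx
  · have h4 : (4 : Eis) ≠ 0 := by
      intro h
      have := congrArg Eis.re h
      revert this
      decide
    have h3 : (3 : Eis) ≠ 0 := by
      intro h
      have := congrArg Eis.re h
      revert this
      decide
    have hA : AVE none B x p (-p') (-q) q' = 0 := by
      have hS' := SolE.swap S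
      obtain ⟨-, huniq⟩ := hAVE none B x b p (-p') (-q) q' hB hx hb hS' (hz B b hLB hB hb) hLx
      refine huniq 0 (V lam (p ^ 3 + x * (-p') ^ 3) + V lam ((-q) ^ 3 + x * q' ^ 3) + 1)
        (fun r hr => ?_)
      have hr' : lam ^ (V lam (p ^ 3 + x * (-p') ^ 3) + V lam ((-q) ^ 3 + x * q' ^ 3) + 1) ∣
        r ^ 3 - x := hr
      have a : ∀ i, LfE p (-p') i r ≠ 0 := fun i =>
        (LfE_bound hSLC.prime hS'.n1 hr' (by omega) i).1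
      have a' : ∀ i, LfE (-q) q' i r ≠ 0 := fun i =>
        (LfE_bound hSLC.prime (SolWE.den hS') hr' (by omega) i).1
      unfold ASE
      show sl B (LfE p (-p') 2 r) + sl B (LfE (-q) q' 1 r) - sl B (LfE p (-p') 1 r) -
        sl B (LfE (-q) q' 2 r) = 0
      rw [hz B _ hLB hB (a 2), hz B _ hLB hB (a' 1), hz B _ hLB hB (a 1), hz B _ hLB hB (a' 2)]
      ring
    have hU : UVE sl B b x p q p' q' = sl w b := by
      unfold UVE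
      rw [hz B _ hLB hB S.g1, hz B _ hLB hB S.g2,
        Pool.Agent.PT.TADD.LSym.right_mul hSLC hw0 (mul_ne_zero hB hx) hb,
        Pool.Agent.PT.TADD.LSym.right_mul hSLC hw0 hB hx,
        hSLC.skew B w hB hw0, hz B w hLB hB hw0, hSLC.skew x w hx hw0, hz x w hLx hx hw0]
      ring
    rw [hA, hU]
    unfold lfE
    rw [hz x 3 hLx hx h3, hz x 4 hLx hx h4]
    ring
  · rfl

end TAE

open TAE in
/-- PTK_TAE: additivity of the pairing. -/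
theorem TAE_thm (hAVE : Stmt_AVE) (hLFE : Stmt_LFE) (hRAE : Stmt_RAE) (hLCI : Stmt_LCI)
    (hSTM : STM) (hSPP : SPP) (hSLC : SLC) : Stmt_TAE := by
  have hv : ∀ v : Pl, ∃ e, LSym (uni v) (sy v) e := by
    intro v
    rcases v with _ | π
    · exact ⟨4, hSLC⟩
    · exact ⟨1, hSTM π.1 π.2.1 (hSPP.2.2.2.1 π).1⟩
  have hw0 : w ≠ 0 := TAE.w_ne
  have hslz : ∀ (B x : Eis), AGE B x → sl x B = 0 := by
    intro B x hx
    unfold sl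
    rw [finsum_eq_zero_of_forall_eq_zero fun π : PP => hx.sym π, neg_zero]
  have hsy : ∀ (B x : Eis), B ≠ 0 → AGE B x → ∀ v : Pl, sy v B x = 0 := by
    intro B x hB0 hx v
    rcases v with _ | π
    · change sl B x = 0
      rw [hSLC.skew x B hx.ne hB0, hslz B x hx, neg_zero]
    · change tm π.1 B x = 0
      rw [(hSTM π.1 π.2.1 (hSPP.2.2.2.1 π).1).skew x B hx.ne hB0, hx.sym π, neg_zero]
  intro b x₁ x₂ p₁ q₁ p₁' q₁' p₂ q₂ p₂' q₂' hb hx12 hb0 hx₁ hx₂ Mb _ _ T₁ T₂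
  have S₁ := T₁.toSolWE
  have S₂ := T₂.toSolWE
  obtain ⟨p, q, p', q', hne, e0, e1, e2⟩ := exists_prod b p₁ q₁ p₁' q₁' p₂ q₂ p₂' q₂'
    (TAE.SolWE.den S₁) (TAE.SolWE.den S₂)
  have hR : PRelE b p₁ q₁ p₁' q₁' p₂ q₂ p₂' q₂' p q p' q' := ⟨e0, e1, e2⟩
  have d' : p' ^ 3 + b * q' ^ 3 ≠ 0 := ne_of_not_cube hb hne
  have hS : SolWE b (x₁ * x₂) p q p' q' := by
    have heq : p ^ 3 + b * q ^ 3 = x₁ * x₂ * (p' ^ 3 + b * q' ^ 3) := by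
      apply mul_left_cancel₀ (mul_ne_zero (TAE.SolWE.den S₁) (TAE.SolWE.den S₂))
      rw [← norm_prod hR, S₁.eq, S₂.eq]
      ring
    refine ⟨heq, ?_⟩
    rw [heq]
    exact mul_ne_zero (mul_ne_zero hx₁ hx₂) d'
  have hT : SolE b (x₁ * x₂) p q p' q' := HNE.sol hb0 hx12 hS
  refine ⟨p, q, p', q', hT, ?_⟩
  intro B hB hAb hA₁ hA₂ hcase
  have hB0 : (B : Eis) ≠ 0 := hB.ne
  have hx120 : x₁ * x₂ ≠ 0 := mul_ne_zero hx₁ hx₂
  -- the tame places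
  have htame : ∀ π : PP, TTE π B b (x₁ * x₂) p q p' q' =
      TTE π B b x₁ p₁ q₁ p₁' q₁' + TTE π B b x₂ p₂ q₂ p₂' q₂' := by
    intro π
    have hs : LSym π.1 (tm π.1) 1 := hSTM π.1 π.2.1 (hSPP.2.2.2.1 π).1
    have htw : tm π.1 w (x₁ * x₂) = tm π.1 w x₁ + tm π.1 w x₂ :=
      Pool.Agent.PT.TADD.LSym.right_mul hs hw0 hx₁ hx₂
    unfold TTE
    by_cases hL : LCE π.1 b
    · rw [if_pos hL, if_pos hL, if_pos hL, htw,
        AVE_add hAVE (v := some π) hs hB0 hb0 hx₁ hx₂ (hsy B x₁ hB0 hA₁ _) (hsy B x₂ hB0 hA₂ _)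
          S₁ S₂ hS hR hL]
      ring
    · rw [if_neg hL, if_neg hL, if_neg hL, htw]
      split_ifs <;> ring
  have hfin : ∑ᶠ π : PP, TTE π B b (x₁ * x₂) p q p' q' =
      ∑ᶠ π : PP, TTE π B b x₁ p₁ q₁ p₁' q₁' + ∑ᶠ π : PP, TTE π B b x₂ p₂ q₂ p₂' q₂' := by
    rw [← finsum_add_distrib (hLFE.1 B b x₁ p₁ q₁ p₁' q₁' hB hAb hA₁ S₁)
      (hLFE.1 B b x₂ p₂ q₂ p₂' q₂' hB hAb hA₂ S₂)]
    exact finsum_congr htame
  -- the place above `3`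
  have hlam : LTE B b (x₁ * x₂) p q p' q' =
      LTE B b x₁ p₁ q₁ p₁' q₁' + LTE B b x₂ p₂ q₂ p₂' q₂' := by
    by_cases hLb : LCE lam b
    · unfold LTE
      rw [if_pos hLb, if_pos hLb, if_pos hLb,
        Pool.Agent.PT.TADD.LSym.right_mul hSLC hw0 hx₁ hx₂,
        AVE_add hAVE (v := none) hSLC hB0 hb0 hx₁ hx₂ (hsy B x₁ hB0 hA₁ _)
          (hsy B x₂ hB0 hA₂ _) S₁ S₂ hS hR hLb]
      ring
    · by_cases hLB : LCE lam (B : Eis)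
      · rw [LTE_cube hAVE hLCI hSLC hB0 hb0 hx120 hLB hLb hT,
          LTE_cube hAVE hLCI hSLC hB0 hb0 hx₁ hLB hLb T₁,
          LTE_cube hAVE hLCI hSLC hB0 hb0 hx₂ hLB hLb T₂]
        have h4 : (4 : Eis) ≠ 0 := by
          intro h
          have := congrArg Eis.re h
          revert this
          decide
        have h3 : (3 : Eis) ≠ 0 := by
          intro h
          have := congrArg Eis.re h
          revert this
          decide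
        unfold lfE
        rw [hSLC.mul x₁ x₂ 3 hx₁ hx₂ h3, hSLC.mul x₁ x₂ 4 hx₁ hx₂ h4]
        ring
      · obtain ⟨hL₁, hL₂⟩ := (hcase.resolve_left hLb).resolve_left hLB
        have hBz : B ≠ 0 := by
          rintro rfl
          exact hB0 (by simp)
        exact hRAE B b x₁ x₂ p₁ q₁ p₁' q₁' p₂ q₂ p₂' q₂' p q p' q' hBz hb0 Mb
          (hslz B b hAb) hLb hx₁ hx₂ hL₁ hL₂ T₁ T₂ hT hR
  unfold OZE
  rw [hlam, hfin]
  ring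

end Pool.Agent.PTK
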