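import Pool.Agent.PTK.StZ
import Pool.Agent.PT.TTH

/-!
# PTK_THE: the pairing of `b` with `b^(1/3)` is zero
-/

set_option autoImplicit false

namespace Pool.Agent.PTK

open Pool.Agent.Lib_helper18 Pool.Agent.Lib_helper18.Eis Pool.Agent.Lib_helper84.Cub
open Pool.Agent.PT Pool.Agent.PTE Pool.Agent.PT3 Pool.Agent.PTL Pool.Agent.PTN

namespace THE

open Pool.Agent.PT.TTH

theorem ASE_val {π : Eis} {s : Eis → Eis → ZMod 3} {e : ℕ} (hs : LSym π s e) {B : Eis}
    (hB : B ≠ 0) {r : Eis} (hr : r ≠ 0) : ASE s B 0 1 1 0 r = - s w B := by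
  have e1 : LfE 0 1 2 r = w * (w * r) := by
    unfold LfE
    ring
  have e2 : LfE 1 0 1 r = 1 := by
    unfold LfE
    ring
  have e3 : LfE 0 1 1 r = w * r := by
    unfold LfE
    ring
  have e4 : LfE 1 0 2 r = 1 := by
    unfold LfE
    ring
  unfold ASE
  rw [e1, e2, e3, e4, LSym.mul_right hs hB TTH.w_ne (mul_ne_zero TTH.w_ne hr),
    hs.skew w B TTH.w_ne hB]
  ring

theorem sy_sym {B b : Eis} (hb : AGE B b) {e : ℕ} (v : Pl) (hs : LSym (uni v) (sy v) e)
    (hB0 : B ≠ 0) : sy v B b = 0 := by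
  rw [hs.skew _ _ hb.ne hB0]
  cases v with
  | none =>
    change - sl b B = 0
    unfold sl
    have h0 : (fun π : PP => tm π.1 b B) = fun _ => 0 := by
      funext π
      exact hb.sym π
    rw [h0, finsum_zero, neg_zero, neg_zero]
  | some π =>
    change - tm π.1 b B = 0
    rw [hb.sym π, neg_zero]

/-- the value at a place where `b` is a local cube -/
theorem AVE_val (hAVE : Stmt_AVE) {B b : Eis} (hB : BGE B) (hb : AGE B b) {e : ℕ} (v : Pl)
    (hs : LSym (uni v) (sy v) e) (hLC : LCE (uni v) b) :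
    AVE v B b 0 1 1 0 = - sy v w B := by
  have hSol : SolWE b b 0 1 1 0 := ⟨by ring, by simpa using hb.ne⟩
  refine (hAVE v B b b 0 1 1 0 hB.ne hb.ne hb.ne hSol (sy_sym hb v hs hB.ne) hLC).2
    (- sy v w B) (V (uni v) b + 1) ?_
  intro r hr
  refine ASE_val hs hB.ne ?_
  intro hr0
  rw [hr0, zero_pow three_ne_zero, zero_sub, dvd_neg] at hr
  exact (fin hs.prime hb.ne).not_pow_dvd_of_multiplicity_lt (Nat.lt_succ_self _) hr

theorem tame_eq (hAVE : Stmt_AVE) (hLCI : Stmt_LCI) (hSTM : STM) (hSPP : SPP) {B b : Eis}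
    (hB : BGE B) (hb : AGE B b) (π : PP) :
    TTE π B b b 0 1 1 0 = tm π.1 w b - tm π.1 w B := by
  have hs : LSym (uni (some π)) (sy (some π)) 1 := hSTM π.1 π.2.1 (hSPP.2.2.2.1 π).1
  by_cases hLC : LCE π.1 b
  · have hAV := AVE_val hAVE hB hb (some π) hs hLC
    unfold TTE
    rw [if_pos hLC, hAV]
    change - tm π.1 w B + tm π.1 w b = _
    ring
  · have hVw : V π.1 w = 0 := by
      rw [V_eq_zero_iff]
      intro h
      have h1 : π.1 ∣ w ^ 3 := dvd_pow h three_ne_zero
      rw [w_cube] at h1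
      exact π.2.1.not_isUnit (isUnit_of_dvd_one h1)
    have ht : ∀ x : Eis, tm π.1 w x = (V π.1 x : ZMod 3) * ch π.1 w := by
      intro x
      unfold tm
      rw [hVw]
      push_cast
      ring
    unfold TTE
    rw [if_neg hLC]
    rw [ht, ht]
    by_cases hd : π.1 ∣ B
    · have hV1 : V π.1 B ≠ 0 := by
        intro h
        exact (V_eq_zero_iff.mp h) hd
      have hV2 := hB.cf π
      have hVB : ¬ 3 ∣ V π.1 B := by omega
      have hVb : ¬ 3 ∣ V π.1 b := by
        intro h3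
        apply hLC
        refine (hLCI.1 π b hb.ne).mpr ⟨h3, ?_⟩
        have h4 := hb.sym π
        unfold tm at h4
        rw [(cast3 _).mpr h3, zero_mul, sub_zero] at h4
        rcases mul_eq_zero.mp h4 with h5 | h5
        · exact absurd ((cast3 _).mp h5) hVB
        · exact h5
      by_cases h6 : 3 ∣ V π.1 b + V π.1 B
      · rw [if_pos ⟨h6, hVb⟩]
        refine key3 _ _ _ ?_
        rw [← Nat.cast_add]
        exact (cast3 _).mpr h6
      · rw [if_neg (fun h => h6 h.1)]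
        refine key3' _ _ _ ?_ ?_ ?_
        · exact fun h => hVb ((cast3 _).mp h)
        · exact fun h => hVB ((cast3 _).mp h)
        · rw [← Nat.cast_add]
          exact fun h => h6 ((cast3 _).mp h)
    · have h1 : V π.1 B = 0 := V_eq_zero hd
      have h2 : V π.1 b = 0 := V_eq_zero (hb.unr π hd)
      rw [h1, h2, if_neg (fun h => h.2 (dvd_zero _))]
      push_cast
      ring

theorem lam_eq (hAVE : Stmt_AVE) (hLMC : Stmt_LMC) (hLCI : Stmt_LCI) (hSLC : SLC) {B b : Eis}
    (hB : BGE B) (hb : AGE B b) (hM : MCl b) (h : LCE lam b ∨ LCE lam B) :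
    LTE B b b 0 1 1 0 = sl w b - sl w B := by
  by_cases hLC : LCE lam b
  · have hAV : AVE none B b 0 1 1 0 = - sl w B := AVE_val hAVE hB hb none hSLC hLC
    unfold LTE
    rw [if_pos hLC, hAV]
    ring
  · have hLB := h.resolve_left hLC
    have h1 := hLCI.2.2 lam sl 4 B w hSLC hLB hB.ne TTH.w_ne
    have h2 : sl w B = 0 := by
      rw [hSLC.skew _ _ hB.ne TTH.w_ne, h1, neg_zero]
    unfold LTE lfE
    rw [if_neg hLC, if_neg hLC, h2, (hLMC b hb.ne hM).1]
    ring

theorem fin_tame (hSSL : SSL) {a b : Eis} (ha : a ≠ 0) (hb : b ≠ 0) :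
    (Function.support fun π : PP => tm π.1 a b).Finite := by
  have h1 := (hSSL.2.2.2 a b ha hb).1
  have h2 : (Function.support fun π : PP => tm π.1 a b) =
      (some : PP → Pl) ⁻¹' (Function.support fun v : Pl => sy v a b) := by
    ext π
    rfl
  rw [h2]
  exact h1.preimage (Option.some_injective PP).injOn

end THE

/-- PTK_THE -/
theorem THE_thm (hAVE : Stmt_AVE) (hLMC : Stmt_LMC) (hLCI : Stmt_LCI) (hSTM : STM) (hSPP : SPP)
    (hSSL : SSL) (hSLC : SLC) : Stmt_THE := by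
  intro B b hB hb hM h
  unfold OZE
  rw [THE.lam_eq hAVE hLMC hLCI hSLC hB hb hM h]
  have h1 : (fun π : PP => TTE π (B : Eis) b b 0 1 1 0) =
      fun π : PP => tm π.1 w b - tm π.1 w (B : Eis) := by
    funext π
    exact THE.tame_eq hAVE hLCI hSTM hSPP hB hb π
  rw [h1, finsum_sub_distrib (THE.fin_tame hSSL TTH.w_ne hb.ne)
    (THE.fin_tame hSSL TTH.w_ne hB.ne)]
  unfold sl
  ring

end Pool.Agent.PTK
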