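import Pool.Agent.PTK.StZ

/-!
# PTK_TLE: antisymmetry of the pairing of the minus part
-/

set_option autoImplicit false

open NumberField IsDedekindDomain Finset
open scoped nonZeroDivisors Pointwise

namespace Pool.Agent.PTK

open Pool.Agent.Lib_helper18 Pool.Agent.Lib_helper18.Eis Pool.Agent.Lib_helper84.Cub
open Pool.Agent.PT Pool.Agent.PTE Pool.Agent.PT3 Pool.Agent.PTL Pool.Agent.PTN

namespace TLE

/-- exchange of the base and the norm -/
theorem swap {b x p q p' q' : Eis} (h : SolE b x p q p' q') : SolWE x b p (-p') (-q) q' where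
  eq := by
    have := h.eq
    linear_combination this
  n1 := by
    intro h0
    exact h.n2 (by linear_combination h0)

theorem w_ne : w ≠ 0 := by decide

theorem GfE_swap (p q p' q' : Eis) (i : ℕ) : GfE p (-p') (-q) q' i = GfE p q p' q' i := by
  unfold GfE
  ring

/-- the sum of the two pairings is the contribution of `lam` -/
theorem key (hLAE : Stmt_LAE) (hLFE : Stmt_LFE) {B b x p q p' q' : Eis} (hB : BGE B)
    (hb : AGE B b) (hx : AGE B x) (hS : SolE b x p q p' q') :
    OZE B b x p q p' q' + OZE B x b p (-p') (-q) q' =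
      LTE B b x p q p' q' + LTE B x b p (-p') (-q) q' - UVE sl B b x p q p' q' := by
  have f1 := hLFE.1 B b x p q p' q' hB hb hx hS.toSolWE
  have f2 := hLFE.1 B x b p (-p') (-q) q' hB hx hb (swap hS)
  obtain ⟨-, e3⟩ := hLFE.2 B b x p q p' q' hB.ne hb.ne hx.ne hS
  have h1 : ∑ᶠ π : PP, TTE π B b x p q p' q' + ∑ᶠ π : PP, TTE π B x b p (-p') (-q) q' =
      ∑ᶠ π : PP, UVE (tm π.1) B b x p q p' q' := by
    rw [← finsum_add_distrib f1 f2]
    exact finsum_congr fun π => hLAE π B b x p q p' q' hB hb hx hS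
  unfold OZE
  linear_combination h1 + e3

end TLE

/-- antisymmetry of the pairing -/
theorem TLE_thm (hAVE : Stmt_AVE) (hLAE : Stmt_LAE) (hLFE : Stmt_LFE) (hLMC : Stmt_LMC)
    (hIF1 : Stmt_IF1) (hLCI : Stmt_LCI) (hSSL : SSL) (hSLC : SLC) : Stmt_TLE := by
  intro B b x p q p' q' hB hb hx hMb hMx hS hc
  have hB0 := hB.ne
  have hb0 := hb.ne
  have hx0 := hx.ne
  have hw0 : w ≠ 0 := TLE.w_ne
  have hk := TLE.key hLAE hLFE hB hb hx hS
  rw [hk]
  have hmul : ∀ a c : Eis, a ≠ 0 → c ≠ 0 → sl w (a * c) = sl w a + sl w c := by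
    intro a c ha hc'
    rw [hSSL.2.1 (a * c) w (mul_ne_zero ha hc') hw0, hSSL.1 a c w ha hc' hw0,
      hSSL.2.1 a w ha hw0, hSSL.2.1 c w hc' hw0]
    ring
  have hz : ∀ a c : Eis, LCE lam a → a ≠ 0 → c ≠ 0 → sl a c = 0 := fun a c h1 h2 h3 =>
    hLCI.2.2 lam sl 4 a c hSLC h1 h2 h3
  have hz' : ∀ a c : Eis, LCE lam a → a ≠ 0 → c ≠ 0 → sl c a = 0 := by
    intro a c h1 h2 h3
    rw [hSSL.2.1 a c h2 h3, hz a c h1 h2 h3, neg_zero]
  have hU : UVE sl (B : Eis) b x p q p' q' = sl B (GfE p q p' q' 1) - sl B (GfE p q p' q' 2) +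
      (sl w B + sl w x + sl w b) := by
    unfold UVE
    rw [hmul _ _ (mul_ne_zero hB0 hx0) hb0, hmul _ _ hB0 hx0]
  have hU' : UVE sl (B : Eis) x b p (-p') (-q) q' = UVE sl (B : Eis) b x p q p' q' := by
    unfold UVE
    rw [TLE.GfE_swap, TLE.GfE_swap, mul_right_comm]
  by_cases hbL : LCE lam b
  · by_cases hxL : LCE lam x
    · -- both are local cubes
      have e1 : LTE (B : Eis) b x p q p' q' = AVE none (B : Eis) b p q p' q' + sl w x := by
        unfold LTE
        rw [if_pos hbL]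
      have e2 : LTE (B : Eis) x b p (-p') (-q) q' =
          AVE none (B : Eis) x p (-p') (-q) q' + sl w b := by
        unfold LTE
        rw [if_pos hxL]
      have hBx : sl (B : Eis) x = 0 := hz' x B hxL hx0 hB0
      have hBb : sl (B : Eis) b = 0 := hz' b B hbL hb0 hB0
      obtain ⟨⟨N1, hN1⟩, -⟩ := hAVE none (B : Eis) b x p q p' q' hB0 hb0 hx0 hS.toSolWE hBx hbL
      obtain ⟨⟨N2, hN2⟩, -⟩ := hAVE none (B : Eis) x b p (-p') (-q) q' hB0 hx0 hb0 (TLE.swap hS)
        hBb hxL
      obtain ⟨N3, hN3⟩ := hIF1 lam sl 4 hSLC b x p q p' q' hb0 hx0 hS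
      obtain ⟨r, hr⟩ := hbL (max N1 N3)
      obtain ⟨ξ, hξ⟩ := hxL (max N2 N3)
      have h1 := hN1 r ((pow_dvd_pow _ (le_max_left N1 N3)).trans hr)
      have h2 := hN2 ξ ((pow_dvd_pow _ (le_max_left N2 N3)).trans hξ)
      have h3 := hN3 r ξ ((pow_dvd_pow _ (le_max_right N1 N3)).trans hr)
        ((pow_dvd_pow _ (le_max_right N2 N3)).trans hξ) B hB0
      rw [e1, e2, ← h1, ← h2, hU]
      have h4 : sy none = sl := rfl
      rw [h4]
      linear_combination h3
    · -- `b` is a local cube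
      have e1 : LTE (B : Eis) b x p q p' q' = AVE none (B : Eis) b p q p' q' + sl w x := by
        unfold LTE
        rw [if_pos hbL]
      have e2 : LTE (B : Eis) x b p (-p') (-q) q' = UVE sl (B : Eis) x b p (-p') (-q) q' -
          (AVE none (B : Eis) b p (-(-q)) (-(-p')) q' + sl w x) := by
        unfold LTE
        rw [if_neg hxL, if_pos hbL]
      rw [neg_neg, neg_neg, hU'] at e2
      rw [e1, e2]
      ring
  · by_cases hxL : LCE lam x
    · -- `x` is a local cube
      have e1 : LTE (B : Eis) b x p q p' q' = UVE sl (B : Eis) b x p q p' q' -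
          (AVE none (B : Eis) x p (-p') (-q) q' + sl w b) := by
        unfold LTE
        rw [if_neg hbL, if_pos hxL]
      have e2 : LTE (B : Eis) x b p (-p') (-q) q' =
          AVE none (B : Eis) x p (-p') (-q) q' + sl w b := by
        unfold LTE
        rw [if_pos hxL]
      rw [e1, e2]
      ring
    · -- `B` is a local cube
      have hBL : LCE lam (B : Eis) := by
        rcases hc with h | h | h
        · exact absurd h hbL
        · exact absurd h hxL
        · exact h
      have e1 : LTE (B : Eis) b x p q p' q' = lfE b x := by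
        unfold LTE
        rw [if_neg hbL, if_neg hxL]
      have e2 : LTE (B : Eis) x b p (-p') (-q) q' = lfE x b := by
        unfold LTE
        rw [if_neg hxL, if_neg hbL]
      rw [e1, e2, hU, hz _ _ hBL hB0 hS.g1, hz _ _ hBL hB0 hS.g2, hz' _ _ hBL hB0 hw0,
        (hLMC b hb0 hMb).1, (hLMC x hx0 hMx).1]
      unfold lfE
      ring

end Pool.Agent.PTK
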