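import Pool.Agent.PTK.StZ
import Pool.Agent.PTK.DX2

/-!
# PTK_TPE: the pairing vanishes on the class of a point (helper64)
-/

set_option autoImplicit false

open Finset

namespace Pool.Agent.PTK

open Pool.Agent.Lib_helper18 Pool.Agent.Lib_helper18.Eis Pool.Agent.Lib_helper84.Cub
open Pool.Agent.PT Pool.Agent.PTE Pool.Agent.PT3 Pool.Agent.PTL Pool.Agent.PTN

namespace TPE

open DPA

/-- additivity in the second variable -/
theorem mulr {u : Eis} {s : Eis → Eis → ZMod 3} {e : ℕ} (h : LSym u s e) {a b c : Eis}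
    (ha : a ≠ 0) (hb : b ≠ 0) (hc : c ≠ 0) : s c (a * b) = s c a + s c b := by
  rw [h.skew (a * b) c (mul_ne_zero ha hb) hc, h.mul a b c ha hb hc, h.skew a c ha hc,
    h.skew b c hb hc]
  ring

/-- the local identity at `lam` -/
theorem lam_case (hAVE : Stmt_AVE) (hLMC : Stmt_LMC) (hIIA : Stmt_IIA) (hIF2 : Stmt_IF2)
    (hIF4 : Stmt_IF4) (hLCI : Stmt_LCI) (hSSL : SSL) (hSLC : SLC)
    {B : ℤ} {b x p q p' q' X Y : Eis} (hB : (B : Eis) ≠ 0) (hb : AGE B b) (hx : AGE B x)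
    (mb : MCl b) (mx : MCl x) (hS : SolE b x p q p' q') (hP : PtE (B : Eis) x X Y)
    (hn : X ^ 3 + x * Y ^ 3 ≠ 0) (hD : DNE X Y p q p' q')
    (h : LCE lam b ∨ (LCE lam x ∧ GoodPt B x X Y) ∨
      (¬ LCE lam b ∧ ¬ LCE lam x ∧ LCE lam (B : Eis) ∧ GoodW x X Y)) :
    LTE B b x p q p' q' = UVE sl B b x p q p' q' - SVE sl x p q p' q' X Y := by
  have L : LSym lam sl 4 := hSLC
  have hw : w ≠ 0 := isUnit_w.ne_zero
  have sb : sl b B = 0 := DX2.sl_zero hSSL hb.ne hB hb.sym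
  have sx : sl x B = 0 := DX2.sl_zero hSSL hx.ne hB hx.sym
  have sb' : sl B b = 0 := by rw [L.skew b B hb.ne hB, sb, neg_zero]
  have sx' : sl B x = 0 := by rw [L.skew x B hx.ne hB, sx, neg_zero]
  have wb : sl w b = 0 := (hLMC b hb.ne mb).1
  have wx : sl w x = 0 := (hLMC x hx.ne mx).1
  obtain ⟨c, hc, hE⟩ := hP.eq
  have hU : UVE sl B b x p q p' q' =
      sl B (GfE p q p' q' 1) - sl B (GfE p q p' q' 2) + sl w B := by
    unfold UVE
    rw [mulr L (mul_ne_zero hB hx.ne) hb.ne hw, mulr L hB hx.ne hw, wb, wx, add_zero, add_zero]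
  rw [hU]
  unfold LTE
  by_cases hcb : LCE lam b
  · rw [if_pos hcb, wx]
    obtain ⟨N1, H1⟩ := (hAVE none B b x p q p' q' hB hb.ne hx.ne hS.toSolWE sx' hcb).1
    obtain ⟨N2, H2⟩ := hIIA b x p q p' q' X Y hb.ne hx.ne hcb hS hP.hX hP.hY hn hD
    obtain ⟨N3, H3⟩ := hIF2 lam sl 4 L b x p q p' q' hb.ne hx.ne hS
    obtain ⟨N4, H4⟩ := exists_ne L.prime (b := b) hS.n1
    obtain ⟨N5, H5⟩ := exists_ne L.prime (b := b) (SolE_n1' hS)
    obtain ⟨r, hr⟩ := hcb (N1 + N2 + N3 + N4 + N5)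
    have g1 : ASE sl B p q p' q' r = AVE none B b p q p' q' :=
      H1 r ((pow_dvd_pow _ (by omega)).trans hr)
    have g2 := H2 r ((pow_dvd_pow _ (by omega)).trans hr)
    have g3 := H3 r ((pow_dvd_pow _ (by omega)).trans hr)
    have g4 := H4 r ((pow_dvd_pow _ (by omega)).trans hr)
    have g5 := H5 r ((pow_dvd_pow _ (by omega)).trans hr)
    have r0 := ASE_rel L g4 g5 hx.ne hn hB hc hE
    have r1 := s_rel L hx.ne hn hB hc hS.g1 hE
    have r2 := s_rel L hx.ne hn hB hc hS.g2 hE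
    have r3 := s_rel L hx.ne hn hB hc hw hE
    have k1 := L.skew w x hw hx.ne
    have k2 := L.skew w _ hw hn
    have k3 := L.skew w B hw hB
    rw [k1, k2, k3] at r3
    rw [← g1, ← r0, g2, g3]
    linear_combination r1 - r2 - r3
  · rw [if_neg hcb]
    by_cases hcx : LCE lam x
    · rw [if_pos hcx, hU, wb, add_zero]
      have hG : GoodPt B x X Y := by
        rcases h with h | h | h
        · exact absurd h hcb
        · exact h.2
        · exact absurd hcx h.2.1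
      have hS' := SolE_flip hS
      obtain ⟨N1, H1⟩ := (hAVE none B x b p (-p') (-q) q' hB hx.ne hb.ne hS'.toSolWE sb' hcx).1
      obtain ⟨N2, H2⟩ := hG b hb.ne mb.nl mb.cb sb
      obtain ⟨N3, H3⟩ := hIF4 lam sl 4 L b x p q p' q' X Y hb.ne hx.ne hS hP.hX hP.hY hn hD
      obtain ⟨N4, H4⟩ := exists_ne L.prime (b := x) hS'.n1
      obtain ⟨N5, H5⟩ := exists_ne L.prime (b := x) (SolE_n1' hS')
      obtain ⟨ξ, hξ⟩ := hcx (N1 + N2 + N3 + N4 + N5)
      have g1 : ASE sl B p (-p') (-q) q' ξ = AVE none B x p (-p') (-q) q' :=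
        H1 ξ ((pow_dvd_pow _ (by omega)).trans hξ)
      have g2 := H2 ξ ((pow_dvd_pow _ (by omega)).trans hξ)
      have g3 := H3 ξ ((pow_dvd_pow _ (by omega)).trans hξ)
      have g4 := H4 ξ ((pow_dvd_pow _ (by omega)).trans hξ)
      have g5 := H5 ξ ((pow_dvd_pow _ (by omega)).trans hξ)
      have r0 := ASE_rel L g4 g5 hx.ne hn hB hc hE
      have hx0 : ∀ a : Eis, a ≠ 0 → sl x a = 0 := fun a ha =>
        hLCI.2.2 lam sl 4 x a L hcx hx.ne ha
      have r1 : ASE sl x p (-p') (-q) q' ξ = 0 := by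
        unfold ASE
        rw [hx0 _ (g4 2), hx0 _ (g5 1), hx0 _ (g4 1), hx0 _ (g5 2)]
        ring
      rw [g3, g2, ← g1, ← r0, r1]
      ring
    · rw [if_neg hcx]
      obtain ⟨-, -, hcB, hW⟩ : ¬ LCE lam b ∧ ¬ LCE lam x ∧ LCE lam (B : Eis) ∧ GoodW x X Y := by
        rcases h with h | h | h
        · exact absurd h hcb
        · exact absurd h.1 hcx
        · exact h
      have hB0 : ∀ a : Eis, a ≠ 0 → sl B a = 0 := fun a ha =>
        hLCI.2.2 lam sl 4 B a L hcB hB ha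
      have k3 : sl w B = 0 := by
        rw [L.skew B w hB hw, hB0 w hw, neg_zero]
      rw [hB0 _ hS.g1, hB0 _ hS.g2, k3, hW b p q p' q' hb.ne mb hS hD]
      unfold lfE
      ring

end TPE

/-- PTK_TPE. -/
theorem TPE_thm (hAVE : Stmt_AVE) (hLEE : Stmt_LEE) (hLFE : Stmt_LFE) (hLMC : Stmt_LMC)
    (hIIA : Stmt_IIA) (hIF2 : Stmt_IF2) (hIF4 : Stmt_IF4) (hSVF : Stmt_SVF) (hLCI : Stmt_LCI)
    (hSSL : SSL) (hSLC : SLC) : Stmt_TPE := by
  intro B b x p q p' q' X Y hB hb hx mb mx hS hP hD h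
  have hn : X ^ 3 + x * Y ^ 3 ≠ 0 := by
    obtain ⟨c, hc, e⟩ := hP.eq
    intro h0
    rw [h0, mul_zero] at e
    exact mul_ne_zero hB.ne (pow_ne_zero 3 hc) e.symm
  have hlam := TPE.lam_case hAVE hLMC hIIA hIF2 hIF4 hLCI hSSL hSLC hB.ne hb hx mb mx hS hP hn hD h
  obtain ⟨f1, e1⟩ := hLFE.2 B b x p q p' q' hB.ne hb.ne hx.ne hS
  obtain ⟨f2, e2⟩ := hSVF b x p q p' q' X Y hb.ne hx.ne hS hP.hX hP.hY hn hD
  have f3 : (Function.support fun π : PP => SVE (tm π.1) x p q p' q' X Y).Finite :=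
    f2.preimage (f := fun π : PP => (some π : Pl)) (Option.some_injective _).injOn
  have e3 : SVE sl x p q p' q' X Y + ∑ᶠ π : PP, SVE (tm π.1) x p q p' q' X Y = 0 := by
    rw [finsum_option (f := fun v : Pl => SVE (sy v) x p q p' q' X Y) f3] at e2
    exact e2
  have e4 : ∑ᶠ π : PP, TTE π B b x p q p' q' =
      ∑ᶠ π : PP, UVE (tm π.1) B b x p q p' q' - ∑ᶠ π : PP, SVE (tm π.1) x p q p' q' X Y := by
    rw [← finsum_sub_distrib f1 f3]
    exact finsum_congr fun π => hLEE π B b x p q p' q' X Y hB hb hx hS hP hD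
  unfold OZE
  rw [e4, hlam]
  linear_combination e1 - e3

end Pool.Agent.PTK
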