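import Pool.Agent.PTK.StZ2
import Pool.Agent.PTK.VDIM

/-!
# PTK_ZBA: a basis of `VS` adapted to the place above `3`
-/

set_option autoImplicit false

namespace Pool.Agent.PTK

open Pool.Agent.Lib_helper18 Pool.Agent.Lib_helper18.Eis Pool.Agent.Lib_helper84.Cub
open Pool.Agent.PT Pool.Agent.PTE Pool.Agent.PT3 Pool.Agent.PTL Pool.Agent.PTN

namespace ZBA

variable {K V : Type*} [Field K] [AddCommGroup V] [Module K V] [FiniteDimensional K V]

/-- extension of a linearly independent family by at most one vector -/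
lemma ext1 (B : Submodule K V) {a : ℕ} (y : Fin a → V) (hy : LinearIndependent K y)
    (hB : ∀ i, y i ∈ B) (hB1 : Module.finrank K B ≤ a + 1) :
    ∃ y' : Fin (Module.finrank K B) → V, LinearIndependent K y' ∧ (∀ i, y' i ∈ B) ∧
      ∀ (i : Fin (Module.finrank K B)) (h : i.val < a), y' i = y ⟨i.val, h⟩ := by
  obtain ⟨d, hd⟩ : ∃ d, d = Module.finrank K B := ⟨_, rfl⟩
  have hspan : Submodule.span K (Set.range y) ≤ B := by
    rw [Submodule.span_le]
    rintro _ ⟨i, rfl⟩
    exact hB i
  have hfs : Module.finrank K (Submodule.span K (Set.range y)) = a := by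
    rw [finrank_span_eq_card hy, Fintype.card_fin]
  have hle : a ≤ d := by
    rw [hd, ← hfs]
    exact Submodule.finrank_mono hspan
  rw [← hd] at hB1 ⊢
  rcases Nat.lt_or_ge a d with h1 | h1
  · have hda : d = a + 1 := by omega
    subst hda
    obtain ⟨v, hvB, hv⟩ : ∃ v ∈ B, v ∉ Submodule.span K (Set.range y) := by
      by_contra hcon
      push Not at hcon
      have h2 : B ≤ Submodule.span K (Set.range y) := hcon
      have h3 := Submodule.finrank_mono h2
      rw [hfs, ← hd] at h3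
      omega
    refine ⟨Fin.snoc y v, linearIndependent_finSnoc.2 ⟨hy, hv⟩, ?_, ?_⟩
    · intro i
      refine Fin.lastCases ?_ (fun j => ?_) i
      · rw [Fin.snoc_last]
        exact hvB
      · rw [Fin.snoc_castSucc]
        exact hB j
    · intro i h
      exact Fin.snoc_castSucc (α := fun _ => V) v y ⟨i.val, h⟩
  · have hda : d = a := by omega
    subst hda
    exact ⟨y, hy, hB, fun i h => rfl⟩

/-- a basis adapted to a flag of three subspaces -/
lemma flag {A B C : Submodule K V} (hAB : A ≤ B) (hBC : B ≤ C)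
    (h1 : Module.finrank K B ≤ Module.finrank K A + 1)
    (h2 : Module.finrank K C ≤ Module.finrank K B + 1) :
    ∃ y : Fin (Module.finrank K C) → V, LinearIndependent K y ∧ (∀ i, y i ∈ C) ∧
      (∀ i, i.val < Module.finrank K A → y i ∈ A) ∧
      ∀ i, i.val < Module.finrank K B → y i ∈ B := by
  set b := Module.finBasis K A with hb
  have ha : LinearIndependent K fun i => (b i : V) :=
    b.linearIndependent.map' A.subtype (Submodule.ker_subtype A)
  obtain ⟨y, hy, hyB, hyA⟩ := ext1 B (fun i => (b i : V)) ha (fun i => hAB (b i).2) h1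
  obtain ⟨z, hz, hzC, hzB⟩ := ext1 C y hy (fun i => hBC (hyB i)) h2
  refine ⟨z, hz, hzC, fun i hi => ?_, fun i hi => ?_⟩
  · have h3 : i.val < Module.finrank K B := lt_of_lt_of_le hi (Submodule.finrank_mono hAB)
    rw [hzB i h3, hyA _ hi]
    exact (b _).2
  · rw [hzB i hi]
    exact hyB _

end ZBA

open ZBA in
/-- PTK_ZBA. -/
theorem ZBA_thm (hVDIM : Stmt_VDIM) : Stmt_ZBA := by
  classical
  intro h n m k π p e r w0 c hh
  obtain ⟨S, hS⟩ : ∃ S, S = VS h n π p e r w0 c := ⟨_, rfl⟩
  obtain ⟨A, hA⟩ : ∃ A, A = V0 h n π p e r w0 c := ⟨_, rfl⟩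
  obtain ⟨l1, hl1⟩ : ∃ l1 : (Fin (m + 1) → ZMod 3) →ₗ[ZMod 3] ZMod 3, l1 = LinearMap.proj 0 :=
    ⟨_, rfl⟩
  obtain ⟨l2, hl2⟩ : ∃ l2 : (Fin (m + 1) → ZMod 3) →ₗ[ZMod 3] ZMod 3,
    l2 = ∑ i : Fin m, ((e i : ZMod 3) * sym (π i).1 3) • LinearMap.proj i.succ := ⟨_, rfl⟩
  have e1 : ∀ y, l1 y = y 0 := fun y => by rw [hl1]; rfl
  have e2 : ∀ y, l2 y = ∑ i : Fin m, y i.succ * ((e i : ZMod 3) * sym (π i).1 3) := by
    intro y
    rw [hl2, LinearMap.sum_apply]
    refine Finset.sum_congr rfl fun i _ => ?_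
    rw [LinearMap.smul_apply, LinearMap.proj_apply, smul_eq_mul, mul_comm]
  obtain ⟨B, hB⟩ : ∃ B, B = S ⊓ LinearMap.ker l1 := ⟨_, rfl⟩
  have hAeq : A = B ⊓ LinearMap.ker l2 := by
    ext y
    rw [hA, hB, Submodule.mem_inf, Submodule.mem_inf, LinearMap.mem_ker, LinearMap.mem_ker, e1, e2,
      hS, and_assoc]
    exact Iff.rfl
  have hAB : A ≤ B := by rw [hAeq]; exact inf_le_left
  have hBS : B ≤ S := by rw [hB]; exact inf_le_left
  have f1 : Module.finrank (ZMod 3) B ≤ Module.finrank (ZMod 3) A + 1 := by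
    rw [hAeq]; exact VDIM.step B l2
  have f2 : Module.finrank (ZMod 3) S ≤ Module.finrank (ZMod 3) B + 1 := by
    rw [hB]; exact VDIM.step S l1
  have f3 : Module.finrank (ZMod 3) S ≤ Module.finrank (ZMod 3) A + dN h n w0 := by
    rw [hS, hA]; exact hVDIM h n m k π p e r w0 c hh
  obtain ⟨y, hy, hyS, hyA, hyB⟩ := flag hAB hBS f1 f2
  refine ⟨_, y, hy, fun i => by rw [← hS]; exact hyS i, by rw [hS]; rfl, ?_, ?_⟩
  · by_cases ht : h = 0 ∧ wt ((n : ℤ) ^ 2) + w0 = 0
    · exact Or.inl ht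
    · right
      have hd : dN h n w0 ≤ 1 := by
        unfold dN
        split_ifs
        · exact Nat.zero_le _
        · exact le_rfl
      intro i j hij
      rw [← hA]
      by_contra hcon
      push Not at hcon
      have g1 : ¬ i.val < Module.finrank (ZMod 3) A := fun h' => hcon.1 (hyA i h')
      have g2 : ¬ j.val < Module.finrank (ZMod 3) A := fun h' => hcon.2 (hyA j h')
      have g3 := i.2
      have g4 := j.2
      apply hij
      apply Fin.ext
      omega
  · intro i j hij
    rw [← hA]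
    by_cases g1 : y i ∈ A
    · exact Or.inl g1
    · right
      by_cases g2 : y j ∈ A
      · exact Or.inl g2
      · right
        have g4 := j.2
        have g5 : i.val < j.val := hij
        have g6 : y i ∈ B := hyB i (by omega)
        rw [hB, Submodule.mem_inf, LinearMap.mem_ker, e1] at g6
        exact g6.2

end Pool.Agent.PTK
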