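import Pool.Agent.PTK.StZ2
import Pool.Agent.PTK.DCK
import Pool.Agent.PT3.EADT
import Pool.Agent.PT.F3R

/-!
# PTK_ZKE: the matrix of the minus part is alternating, and the classes of points are in the kernel
-/

set_option autoImplicit false

open NumberField IsDedekindDomain Finset
open scoped nonZeroDivisors Pointwise

namespace Pool.Agent.PTK

open Pool.Agent.Lib_helper18 Pool.Agent.Lib_helper18.Eis Pool.Agent.Lib_helper84.Cub
open Pool.Agent.PT Pool.Agent.PTE Pool.Agent.PT3 Pool.Agent.PTL Pool.Agent.PTN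

namespace ZKE

/-! ### Admissible classes -/

theorem age_mul (hSTM : STM) (hSPP : SPP) {B x y : Eis} (hB : B ≠ 0) (hx : AGE B x)
    (hy : AGE B y) : AGE B (x * y) where
  ne := mul_ne_zero hx.ne hy.ne
  sym := fun π => by
    have hs := hSTM π.1 π.2.1 (hSPP.2.2.2.1 π).1
    rw [hs.mul _ _ _ hx.ne hy.ne hB, hx.sym π, hy.sym π, add_zero]
  unr := fun π h1 h2 => by
    rcases π.2.1.dvd_or_dvd h2 with h | h
    · exact hx.unr π h1 h
    · exact hy.unr π h1 h

theorem age_one (hSTM : STM) (hSPP : SPP) {B : Eis} (hB : B ≠ 0) : AGE B 1 where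
  ne := one_ne_zero
  sym := fun π => by
    have hs := hSTM π.1 π.2.1 (hSPP.2.2.2.1 π).1
    have h1 : (1 : Eis) ≠ 0 := one_ne_zero
    have h := hs.mul 1 1 _ h1 h1 hB
    rw [one_mul] at h
    have h2 : tm π.1 1 B + 0 = tm π.1 1 B + tm π.1 1 B := by
      rw [add_zero]
      exact h
    exact (add_left_cancel h2).symm
  unr := fun π _ h2 => π.2.1.not_isUnit (isUnit_of_dvd_one h2)

theorem age_pow (hSTM : STM) (hSPP : SPP) {B x : Eis} (hB : B ≠ 0) (hx : AGE B x) (n : ℕ) :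
    AGE B (x ^ n) := by
  induction n with
  | zero =>
    rw [pow_zero]
    exact age_one hSTM hSPP hB
  | succ n ih =>
    rw [pow_succ]
    exact age_mul hSTM hSPP hB ih hx

theorem age_prod (hSTM : STM) (hSPP : SPP) {B : Eis} (hB : B ≠ 0) {s : ℕ} {b : Fin s → Eis}
    (hb : ∀ i, AGE B (b i)) (c : Fin s → ℕ) (t : Finset (Fin s)) :
    AGE B (∏ i ∈ t, b i ^ c i) := by
  classical
  induction t using Finset.induction_on with
  | empty =>
    rw [Finset.prod_empty]
    exact age_one hSTM hSPP hB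
  | insert i t hi ih =>
    rw [Finset.prod_insert hi]
    exact age_mul hSTM hSPP hB (age_pow hSTM hSPP hB (hb i) _) ih

/-! ### Classes of the minus part -/

theorem mcl_mul {x y : Eis} (hx : MCl x) (hy : MCl y) : MCl (x * y) := by
  obtain ⟨h1, t, ht⟩ := hx
  obtain ⟨h2, u, hu⟩ := hy
  refine ⟨fun h => ?_, t * u, ?_⟩
  · rcases prime_lam.dvd_or_dvd h with h | h
    · exact h1 h
    · exact h2 h
  · rw [map_mul]
    linear_combination (y * conj y) * ht + t ^ 3 * hu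

theorem mcl_one : MCl 1 := by
  refine ⟨fun h => prime_lam.not_isUnit (isUnit_of_dvd_one h), 1, ?_⟩
  rw [map_one]
  ring

theorem mcl_pow {x : Eis} (hx : MCl x) (n : ℕ) : MCl (x ^ n) := by
  induction n with
  | zero =>
    rw [pow_zero]
    exact mcl_one
  | succ n ih =>
    rw [pow_succ]
    exact mcl_mul ih hx

theorem mcl_prod {s : ℕ} {b : Fin s → Eis} (hb : ∀ i, MCl (b i)) (c : Fin s → ℕ)
    (t : Finset (Fin s)) : MCl (∏ i ∈ t, b i ^ c i) := by
  classical
  induction t using Finset.induction_on with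
  | empty =>
    rw [Finset.prod_empty]
    exact mcl_one
  | insert i t hi ih =>
    rw [Finset.prod_insert hi]
    exact mcl_mul (mcl_pow (hb i) _) ih

/-! ### Local cubes -/

theorem lce_mul {π a b : Eis} (ha : LCE π a) (hb : LCE π b) : LCE π (a * b) := by
  intro N
  obtain ⟨r, hr⟩ := ha N
  obtain ⟨s, hs⟩ := hb N
  refine ⟨r * s, ?_⟩
  have h : (r * s) ^ 3 - a * b = r ^ 3 * (s ^ 3 - b) + b * (r ^ 3 - a) := by ring
  rw [h]
  exact dvd_add (Dvd.dvd.mul_left hs _) (Dvd.dvd.mul_left hr _)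

theorem lce_one (π : Eis) : LCE π 1 := by
  intro N
  refine ⟨1, ?_⟩
  have h : (1 : Eis) ^ 3 - 1 = 0 := by ring
  rw [h]
  exact dvd_zero _

theorem lce_pow {π a : Eis} (ha : LCE π a) (n : ℕ) : LCE π (a ^ n) := by
  induction n with
  | zero =>
    rw [pow_zero]
    exact lce_one π
  | succ n ih =>
    rw [pow_succ]
    exact lce_mul ih ha

theorem lce_prod {π : Eis} {s : ℕ} {b : Fin s → Eis} {c : Fin s → ℕ}
    (hb : ∀ i, c i ≠ 0 → LCE π (b i)) (t : Finset (Fin s)) :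
    LCE π (∏ i ∈ t, b i ^ c i) := by
  classical
  induction t using Finset.induction_on with
  | empty =>
    rw [Finset.prod_empty]
    exact lce_one π
  | insert i t hi ih =>
    rw [Finset.prod_insert hi]
    refine lce_mul ?_ ih
    by_cases h : c i = 0
    · rw [h, pow_zero]
      exact lce_one π
    · exact lce_pow (hb i h) _

/-! ### The places over a large prime -/

/-- a place over `q` does not divide a number of small norm -/
theorem not_dvd_small {ϖ : PP} {q : ℕ} (hl : EADM.Below ϖ q) {M : Eis} (hM : M ≠ 0)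
    (h : M.norm.natAbs < q) : ¬ ϖ.1 ∣ M := by
  intro h1
  have h2 := (hl.dvd_nat _).1 (h1.trans (DCK.dvd_natAbs_norm M))
  have h3 : 0 < M.norm.natAbs := Int.natAbs_pos.2 (norm_pos hM).ne'
  have h4 := Nat.le_of_dvd h3 h2
  omega

/-- there is a place over every prime `q > 3` -/
theorem exists_below (hSPP : SPP) {q : ℕ} (hq : q.Prime) (h3 : 3 < q) :
    ∃ ϖ : PP, EADM.Below ϖ q := by
  have hq0 : (q : Eis) ≠ 0 := EADM.natCast_ne hq.ne_zero
  have hu : ¬ IsUnit (q : Eis) := by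
    intro h
    have h5 : ((q : ℤ) : Eis) ∣ ((1 : ℤ) : Eis) := by
      rw [Int.cast_natCast, Int.cast_one]
      exact isUnit_iff_dvd_one.1 h
    have h6 := Int.eq_one_of_dvd_one (by positivity) (intCast_dvd_intCast.1 h5)
    have := hq.one_lt
    omega
  obtain ⟨l, hl, hlq⟩ := WfDvdMonoid.exists_irreducible_factor hu hq0
  have hlp : Prime l := hl.prime
  have hl3 : ¬ l ∣ 3 := by
    intro h
    have hc : Nat.Coprime q 3 := by
      rw [Nat.coprime_primes hq Nat.prime_three]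
      omega
    have hc2 : IsCoprime (q : ℤ) (3 : ℤ) := by exact_mod_cast Nat.isCoprime_iff_coprime.2 hc
    obtain ⟨u, v, huv⟩ := hc2
    have h7 : (u : Eis) * (q : Eis) + (v : Eis) * 3 = 1 := by
      have := congrArg (Int.cast : ℤ → Eis) huv
      push_cast at this
      exact this
    apply hlp.not_isUnit
    apply isUnit_of_dvd_one
    rw [← h7]
    exact dvd_add (Dvd.dvd.mul_left hlq _) (Dvd.dvd.mul_left h _)
  obtain ⟨ϖ, hϖ⟩ := hSPP.1 l hlp hl3
  obtain ⟨p, hp⟩ := EADT.below hSPP ϖ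
  have h8 : ϖ.1 ∣ (q : Eis) := hϖ.symm.dvd.trans hlq
  have h9 := (Nat.prime_dvd_prime_iff_eq hp.pr hq).1 ((hp.dvd_nat q).1 h8)
  rw [h9] at hp
  exact ⟨ϖ, hp⟩

/-- the factor of `B` prime to the place -/
theorem split_off {ϖ : PP} {B : Eis} {E : ℕ} (hB : B ≠ 0) (hV : V ϖ.1 B = E) :
    ∃ N' : Eis, B = N' * ϖ.1 ^ E ∧ ¬ ϖ.1 ∣ N' := by
  have h1 : ϖ.1 ^ E ∣ B := (PT.F3R.pow_dvd_iff ϖ.2.1 hB E).2 hV.ge
  obtain ⟨m, hm⟩ := h1
  refine ⟨m, by rw [hm]; ring, fun h => ?_⟩
  have h2 : ϖ.1 ^ (E + 1) ∣ B := by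
    rw [hm, pow_succ]
    exact mul_dvd_mul_left _ h
  have h3 := (PT.F3R.pow_dvd_iff ϖ.2.1 hB (E + 1)).1 h2
  omega

/-- the point is not degenerate with respect to the solution -/
theorem dne_of {ϖ : PP} {E : ℕ} (hE : E = 1 ∨ E = 2) {B b x X Y p q p' q' : Eis} (hB : B ≠ 0)
    (hV : V ϖ.1 B = E) (hx : ¬ ϖ.1 ∣ x) (hs : SolE b x p q p' q') (hP : PtE B x X Y)
    (hM : ¬ ϖ.1 ∣ p ^ 3 - x * p' ^ 3) : DNE X Y p q p' q' := by
  obtain ⟨N', hN', hN'2⟩ := split_off hB hV
  obtain ⟨c₀, hc, hpt⟩ := hP.eq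
  have hM2 : ¬ ϖ.1 ∣ x * q' ^ 3 - q ^ 3 := by
    intro h
    apply hM
    have h1 : p ^ 3 - x * p' ^ 3 = b * (x * q' ^ 3 - q ^ 3) := by
      linear_combination hs.eq
    rw [h1]
    exact Dvd.dvd.mul_left h _
  have hA := fun i => DCK.dne_aux (π := ϖ) hE (X := X) (Y := Y) (u := p') (v := -p) hN' hN'2 hx
    hc hP.hY hpt (fun h => hM (by
      have h1 : p ^ 3 - x * p' ^ 3 = -((-p) ^ 3 + x * p' ^ 3) := by ring
      rw [h1]
      exact h.neg_right)) i
  have hA' := fun i => DCK.dne_aux (π := ϖ) hE (X := X) (Y := Y) (u := q') (v := -q) hN' hN'2 hx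
    hc hP.hY hpt (fun h => hM2 (by
      have h1 : x * q' ^ 3 - q ^ 3 = (-q) ^ 3 + x * q' ^ 3 := by ring
      rw [h1]
      exact h)) i
  refine ⟨?_, ?_, ?_, ?_⟩
  · intro h
    apply hA 1
    unfold DfE at h
    linear_combination h
  · intro h
    apply hA 2
    unfold DfE at h
    linear_combination h
  · intro h
    apply hA' 1
    unfold DfE at h
    linear_combination h
  · intro h
    apply hA' 2
    unfold DfE at h
    linear_combination h

/-- the conditions on `B` -/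
theorem bge {N E q : ℕ} {B : ℤ} (hSPP : SPP) (hN : 0 < N)
    (hcf : ∀ π : PP, V π.1 (N : Eis) ≤ 2) (hE : E = 1 ∨ E = 2) (hq : q.Prime) (hNq : N < q)
    (hB : B = (N : ℤ) * (q : ℤ) ^ E) : BGE (B : Eis) ∧ (N : Eis) ∣ (B : Eis) ∧
      ∀ ϖ : PP, EADM.Below ϖ q → V ϖ.1 (B : Eis) = E := by
  have hqE : q ^ E ≠ 0 := pow_ne_zero _ hq.ne_zero
  have hm : N * q ^ E ≠ 0 := mul_ne_zero hN.ne' hqE
  have hBe : (B : Eis) = ((N * q ^ E : ℕ) : Eis) := by
    rw [hB]
    push_cast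
    ring
  have hqN : N.factorization q = 0 := by
    apply Nat.factorization_eq_zero_of_not_dvd
    intro h
    have := Nat.le_of_dvd hN h
    omega
  refine ⟨⟨?_, fun ϖ => ?_⟩, ?_, fun ϖ hl => ?_⟩
  · rw [hBe]
    exact EADM.natCast_ne hm
  · obtain ⟨l, hl⟩ := EADT.below hSPP ϖ
    rw [hBe, hl.V_nat hm, Nat.factorization_mul hN.ne' hqE, Finsupp.add_apply]
    by_cases hlq : l = q
    · have h3 : (q ^ E).factorization l = E := by
        rw [hlq, hq.factorization_pow, Finsupp.single_eq_same]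
      rw [h3, hlq, hqN]
      omega
    · have h3 : (q ^ E).factorization l = 0 := by
        apply Nat.factorization_eq_zero_of_not_dvd
        intro h
        exact hlq ((Nat.prime_dvd_prime_iff_eq hl.pr hq).1 (hl.pr.dvd_of_dvd_pow h))
      have h4 := hcf ϖ
      rw [hl.V_nat hN.ne'] at h4
      omega
  · rw [hBe]
    push_cast
    exact Dvd.intro _ rfl
  · rw [hBe, hl.V_nat hm, Nat.factorization_mul hN.ne' hqE, Finsupp.add_apply, hqN,
      hq.factorization_pow, Finsupp.single_eq_same, zero_add]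

/-- the remaining row of an alternating matrix -/
theorem skew {l : ℕ} {M : Matrix (Fin l) (Fin l) (ZMod 3)} (hanti : ∀ i j, M i j = - M j i)
    (c : Fin l → ZMod 3) (j : Fin l) (hcj : c j ≠ 0)
    (hrow : ∀ i, i ≠ j → ∑ k, M i k * c k = 0) : ∑ i, M j i * c i = 0 := by
  have h1 : ∑ i, c i * ∑ k, M i k * c k = c j * ∑ k, M j k * c k := by
    rw [Finset.sum_eq_single j]
    · intro i _ hi
      rw [hrow i hi, mul_zero]
    · intro h
      exact absurd (Finset.mem_univ _) h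
  have h2 : ∑ i, c i * ∑ k, M i k * c k = - ∑ i, c i * ∑ k, M i k * c k := by
    conv_lhs =>
      simp only [Finset.mul_sum]
      rw [Finset.sum_comm]
    rw [← Finset.sum_neg_distrib]
    apply Finset.sum_congr rfl
    intro i _
    rw [Finset.mul_sum, ← Finset.sum_neg_distrib]
    apply Finset.sum_congr rfl
    intro k _
    rw [hanti k i]
    ring
  have h3 : ∑ i, c i * ∑ k, M i k * c k = 0 := by
    generalize ∑ i, c i * ∑ k, M i k * c k = z at h2
    revert h2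
    revert z
    decide
  rw [h1] at h3
  have : Fact (Nat.Prime 3) := ⟨Nat.prime_three⟩
  exact (mul_eq_zero.1 h3).resolve_left hcj

theorem cast_ne3 {n : ℕ} (h : n ≤ 2) (h0 : n ≠ 0) : (n : ZMod 3) ≠ 0 := by
  have h1 : n = 1 ∨ n = 2 := by omega
  rcases h1 with rfl | rfl <;> decide

end ZKE

open ZKE in
/-- PTK_ZKE. -/
theorem ZKE_thm (hCHE : Stmt_CHE) (hTLE : Stmt_TLE) (hTPE : Stmt_TPE) (hSTM : STM)
    (hSPP : SPP) : Stmt_ZKE := by
  classical
  intro l N z P Q P' Q' hS hN hcf hunr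
  have hz0 : ∀ i, z i ≠ 0 := by
    intro i h0
    apply hS.ind (fun k => if k = i then 1 else 0) ⟨i, by simp⟩
    refine ⟨0, ?_⟩
    rw [Finset.prod_eq_single i]
    · simp [h0]
    · intro k _ hk
      simp [hk]
    · intro h
      exact absurd (Finset.mem_univ _) h
  -- the solutions
  have hch : ∀ (j : Fin l) (d : Fin l → Fin 3), ∃ M : ℕ, (∃ i, (d i : ℕ) ≠ 0) →
      ∃ p q p' q' : Eis, SolE (z j) (∏ i, z i ^ (d i : ℕ)) p q p' q' ∧
        (p ^ 3 - (∏ i, z i ^ (d i : ℕ)) * p' ^ 3).norm.natAbs ≤ M ∧ ∀ B : ℤ, BGE B →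
        (∀ i, AGE B (z i)) →
        (LCE lam (z j) ∨ LCE lam (B : Eis) ∨ ∀ i, (d i : ℕ) ≠ 0 → LCE lam (z i)) →
        OZE B (z j) (∏ i, z i ^ (d i : ℕ)) p q p' q' =
          ∑ i, MaZ z P Q P' Q' B j i * ((d i : ℕ) : ZMod 3) := by
    intro j d
    by_cases hd : ∃ i, (d i : ℕ) ≠ 0
    · obtain ⟨p, q, p', q', h1, h2⟩ := hCHE l z P Q P' Q' hS j (fun i => (d i : ℕ))
        (fun i => by have := (d i).isLt; show (d i : ℕ) ≤ 2; omega) hd
      exact ⟨_, fun _ => ⟨p, q, p', q', h1, le_rfl, h2⟩⟩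
    · exact ⟨0, fun h => absurd h hd⟩
  choose M hM using hch
  refine ⟨N + 3 + ∑ j, ∑ d, M j d, ?_⟩
  intro E q B hE hq hqN hB hsym hTy
  have hNq : N < q := by omega
  have h3q : 3 < q := by omega
  obtain ⟨hBG, hNB, hVB⟩ := bge hSPP hN hcf hE hq hNq hB
  have hA : ∀ i, AGE (B : Eis) (z i) := fun i =>
    ⟨hz0 i, fun π => hsym π i, fun π h => hunr π i fun h' => h (h'.trans hNB)⟩
  obtain ⟨ϖ, hϖ⟩ := exists_below hSPP hq h3q
  have hϖN : ¬ ϖ.1 ∣ (N : Eis) := by
    intro h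
    have h1 := Nat.le_of_dvd hN ((hϖ.dvd_nat N).1 h)
    omega
  -- antisymmetry
  have hanti : ∀ i j, MaZ z P Q P' Q' B i j = - MaZ z P Q P' Q' B j i := by
    intro i j
    by_cases hij : i = j
    · subst hij
      simp [MaZ]
    · have hji : j ≠ i := fun h => hij h.symm
      obtain ⟨e1, e2, e3, e4⟩ := hS.sw j i hji
      have h := hTLE B (z j) (z i) (P j i) (Q j i) (P' j i) (Q' j i) hBG (hA j) (hA i) (hS.mc j)
        (hS.mc i) (hS.sol j i hji) (by
          rcases hTy with h | h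
          · exact Or.inr (Or.inr h)
          · rcases h j i hji with h | h
            · exact Or.inl h
            · exact Or.inr (Or.inl h))
      unfold MaZ
      rw [if_neg hji, if_neg hij, e1, e2, e3, e4]
      exact eq_neg_of_add_eq_zero_right h
  refine ⟨hanti, ?_⟩
  intro c hc2 hc0 X Y hP hG hW
  have hprod0 : AGE (B : Eis) (∏ i, z i ^ c i) := age_prod hSTM hSPP hBG.ne hA c Finset.univ
  have hmx : MCl (∏ i, z i ^ c i) := mcl_prod hS.mc c Finset.univ
  have hϖx : ¬ ϖ.1 ∣ ∏ i, z i ^ c i := by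
    intro h
    obtain ⟨i, -, hi⟩ := (ϖ.2.1.dvd_finsetProd_iff _).1 h
    exact hunr ϖ i hϖN (ϖ.2.1.dvd_of_dvd_pow hi)
  -- the value of a row
  have row : ∀ j, (LCE lam (z j) ∨ LCE lam (B : Eis) ∨ ∀ i, c i ≠ 0 → LCE lam (z i)) →
      (LCE lam (z j) ∨ (LCE lam (∏ i, z i ^ c i) ∧ GoodPt B (∏ i, z i ^ c i) X Y) ∨
        (¬ LCE lam (z j) ∧ ¬ LCE lam (∏ i, z i ^ c i) ∧ LCE lam (B : Eis) ∧
          GoodW (∏ i, z i ^ c i) X Y)) →
      ∑ i, MaZ z P Q P' Q' B j i * (c i : ZMod 3) = 0 := by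
    intro j h1 h2
    obtain ⟨d, hd⟩ : ∃ d : Fin l → Fin 3, ∀ i, (d i : ℕ) = c i :=
      ⟨fun i => ⟨c i, by have := hc2 i; omega⟩, fun i => rfl⟩
    have hd' : (fun i => (d i : ℕ)) = c := funext hd
    have hpr : ∏ i, z i ^ (d i : ℕ) = ∏ i, z i ^ c i :=
      Finset.prod_congr rfl fun i _ => by rw [hd i]
    obtain ⟨p₁, q₁, p₁', q₁', k1, k2, k3⟩ := hM j d (by
      obtain ⟨i, hi⟩ := hc0
      exact ⟨i, by rw [hd i]; exact hi⟩)
    rw [hpr] at k1 k2
    have k3' := k3 B hBG hA (by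
      rcases h1 with h | h | h
      · exact Or.inl h
      · exact Or.inr (Or.inl h)
      · refine Or.inr (Or.inr fun i hi => h i ?_)
        rw [← hd i]
        exact hi)
    rw [hpr] at k3'
    have hsum : ∑ i, MaZ z P Q P' Q' B j i * ((d i : ℕ) : ZMod 3) =
        ∑ i, MaZ z P Q P' Q' B j i * (c i : ZMod 3) :=
      Finset.sum_congr rfl fun i _ => by rw [hd i]
    rw [hsum] at k3'
    rw [← k3']
    have hle : M j d ≤ ∑ j, ∑ d, M j d :=
      (Finset.single_le_sum (f := fun d => M j d) (fun _ _ => Nat.zero_le _)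
        (Finset.mem_univ d)).trans (Finset.single_le_sum (f := fun j => ∑ d, M j d)
        (fun _ _ => Nat.zero_le _) (Finset.mem_univ j))
    have hMd : ¬ ϖ.1 ∣ p₁ ^ 3 - (∏ i, z i ^ c i) * p₁' ^ 3 :=
      not_dvd_small hϖ k1.n2 (by omega)
    exact hTPE B (z j) (∏ i, z i ^ c i) p₁ q₁ p₁' q₁' X Y hBG (hA j) hprod0 (hS.mc j) hmx k1 hP
      (dne_of hE hBG.ne (hVB ϖ hϖ) hϖx k1 hP hMd) h2
  have hGood : ∀ j, ¬ LCE lam (z j) → GoodPt B (∏ i, z i ^ c i) X Y := by
    intro j hj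
    rcases hG with h | h
    · exact absurd (h j) hj
    · exact h
  have rowA : ∀ j, LCE lam (z j) → ∑ i, MaZ z P Q P' Q' B j i * (c i : ZMod 3) = 0 :=
    fun j hj => row j (Or.inl hj) (Or.inl hj)
  intro j
  by_cases hj : LCE lam (z j)
  · exact rowA j hj
  by_cases hBl : LCE lam (B : Eis)
  · refine row j (Or.inr (Or.inl hBl)) ?_
    by_cases hx : LCE lam (∏ i, z i ^ c i)
    · exact Or.inr (Or.inl ⟨hx, hGood j hj⟩)
    · exact Or.inr (Or.inr ⟨hj, hx, hBl, hW hBl⟩)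
  · have hoth : ∀ i, i ≠ j → LCE lam (z i) := by
      intro i hi
      rcases hTy with h | h
      · exact absurd h hBl
      · rcases h i j hi with h | h
        · exact h
        · exact absurd h hj
    by_cases hcj : c j = 0
    · have h1 : ∀ i, c i ≠ 0 → LCE lam (z i) := by
        intro i hi
        apply hoth
        rintro rfl
        exact hi hcj
      exact row j (Or.inr (Or.inr h1))
        (Or.inr (Or.inl ⟨lce_prod h1 Finset.univ, hGood j hj⟩))
    · exact skew hanti (fun i => (c i : ZMod 3)) j (cast_ne3 (hc2 j) hcj)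
        fun i hi => rowA i (hoth i hi)

end Pool.Agent.PTK
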