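import Pool.Agent.PTK.StZ2
import Pool.Agent.PTK.MSY
import Pool.Agent.PTK.MS2
import Pool.Agent.PTK.PTY
import Pool.Agent.PTK.WGR
import Pool.Agent.PTN.NBK0

/-!
# PTK_ZKQ: the number of the classes of points is bounded by the corank of the matrix
-/

set_option autoImplicit false

open NumberField IsDedekindDomain Finset
open scoped nonZeroDivisors Pointwise

namespace Pool.Agent.PTK

open Pool.Agent.Lib_helper18 Pool.Agent.Lib_helper18.Eis Pool.Agent.Lib_helper84.Cub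
open Pool.Agent.PT Pool.Agent.PTE Pool.Agent.PT3 Pool.Agent.PTL Pool.Agent.PTN

namespace ZKQ

/-! ### Equality up to cubes -/

/-- equality up to cubes -/
def CE (x y : Eis) : Prop := ∃ g g' : Eis, g ≠ 0 ∧ g' ≠ 0 ∧ x * g ^ 3 = y * g' ^ 3

theorem CE.refl (x : Eis) : CE x x := ⟨1, 1, one_ne_zero, one_ne_zero, rfl⟩

theorem CE.symm {x y : Eis} (h : CE x y) : CE y x := by
  obtain ⟨g, g', hg, hg', e⟩ := h
  exact ⟨g', g, hg', hg, e.symm⟩

theorem CE.trans {x y z : Eis} (h : CE x y) (h' : CE y z) : CE x z := by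
  obtain ⟨g, g', hg, hg', e⟩ := h
  obtain ⟨u, v, hu, hv, e'⟩ := h'
  refine ⟨g * u, v * g', mul_ne_zero hg hu, mul_ne_zero hv hg', ?_⟩
  linear_combination (u ^ 3) * e + (g' ^ 3) * e'

theorem CE.mul {x y x' y' : Eis} (h : CE x y) (h' : CE x' y') : CE (x * x') (y * y') := by
  obtain ⟨g, g', hg, hg', e⟩ := h
  obtain ⟨u, v, hu, hv, e'⟩ := h'
  refine ⟨g * u, g' * v, mul_ne_zero hg hu, mul_ne_zero hg' hv, ?_⟩
  linear_combination (x' * u ^ 3) * e + (y * g' ^ 3) * e'

theorem occ_ce {B : ℤ} {x y : Eis} (h : Occ B x) (h' : CE x y) : Occ B y := by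
  obtain ⟨ζ, g, g', hζ, hg, hg', e⟩ := h
  obtain ⟨u, v, hu, hv, e'⟩ := h'
  refine ⟨ζ, g * u, v * g', hζ, mul_ne_zero hg hu, mul_ne_zero hv hg', ?_⟩
  linear_combination (u ^ 3) * e + (g' ^ 3) * e'

section

variable {n m k : ℕ} {π : Fin m → PP} {p e : Fin m → ℕ} {r f : Fin k → ℕ}

theorem ce_add (hZA : Stmt_ZA) (hn : NF n π p e r f) (y y' : Fin (m + 1) → ZMod 3) :
    CE (zN π e (y + y')) (zN π e y * zN π e y') := by
  obtain ⟨g, g', hg, hg', h⟩ := (hZA n m k π p e r f hn y).2.2.2.2.2.2.2.2.1 y'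
  exact ⟨g', g, hg', hg, h.symm⟩

theorem ce_smul (hZA : Stmt_ZA) (hn : NF n π p e r f) (y : Fin (m + 1) → ZMod 3) (c : ℕ) :
    CE (zN π e (c • y)) (zN π e y ^ c) := by
  induction c with
  | zero =>
    rw [zero_smul, WGR.zN_zero, pow_zero]
    exact CE.refl 1
  | succ c ih =>
    rw [succ_nsmul, pow_succ]
    exact (ce_add hZA hn _ _).trans (ih.mul (CE.refl _))

theorem ce_sum (hZA : Stmt_ZA) (hn : NF n π p e r f) {l : ℕ} (y : Fin l → Fin (m + 1) → ZMod 3)
    (c : Fin l → ℕ) (s : Finset (Fin l)) :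
    CE (zN π e (∑ i ∈ s, c i • y i)) (∏ i ∈ s, zN π e (y i) ^ c i) := by
  classical
  induction s using Finset.induction_on with
  | empty =>
    rw [Finset.sum_empty, Finset.prod_empty, WGR.zN_zero]
    exact CE.refl 1
  | insert a s ha ih =>
    rw [Finset.sum_insert ha, Finset.prod_insert ha]
    exact (ce_add hZA hn _ _).trans ((ce_smul hZA hn _ _).mul ih)

end

/-! ### Linear algebra -/

/-- the dimension of `W` is at most the dimension of the kernel -/
theorem dim_le {M l : ℕ} (W V : Submodule (ZMod 3) (Fin M → ZMod 3)) (hWV : W ≤ V)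
    (y : Fin l → Fin M → ZMod 3) (hind : LinearIndependent (ZMod 3) y) (hmem : ∀ i, y i ∈ V)
    (hcard : l = Module.finrank (ZMod 3) V) (A : Matrix (Fin l) (Fin l) (ZMod 3))
    (hA : ∀ c : Fin l → ZMod 3, c ≠ 0 → ∑ i, c i • y i ∈ W → A.mulVec c = 0) :
    Module.finrank (ZMod 3) W ≤ l - A.rank := by
  haveI : Fact (Nat.Prime 3) := ⟨Nat.prime_three⟩
  have hT : ∀ c, Fintype.linearCombination (ZMod 3) y c = ∑ i, c i • y i := fun c => by
    rw [Fintype.linearCombination_apply]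
  have hr : LinearMap.range (Fintype.linearCombination (ZMod 3) y) =
      Submodule.span (ZMod 3) (Set.range y) := Fintype.range_linearCombination (ZMod 3) y
  have hspan : Submodule.span (ZMod 3) (Set.range y) = V := by
    apply Submodule.eq_of_le_of_finrank_le
    · rw [Submodule.span_le]
      rintro _ ⟨i, rfl⟩
      exact hmem i
    · rw [finrank_span_eq_card hind, Fintype.card_fin]
      exact hcard.symm.le
  have h1 : W ≤ LinearMap.range (Fintype.linearCombination (ZMod 3) y) := by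
    rw [hr, hspan]
    exact hWV
  have h2 : (W.comap (Fintype.linearCombination (ZMod 3) y)).map
      (Fintype.linearCombination (ZMod 3) y) = W := Submodule.map_comap_eq_of_le h1
  have h3 : Module.finrank (ZMod 3) W ≤
      Module.finrank (ZMod 3) (W.comap (Fintype.linearCombination (ZMod 3) y)) := by
    conv_lhs => rw [← h2]
    exact Submodule.finrank_map_le _ _
  have h4 : W.comap (Fintype.linearCombination (ZMod 3) y) ≤ LinearMap.ker A.mulVecLin := by
    intro c hc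
    rw [Submodule.mem_comap, hT] at hc
    rw [LinearMap.mem_ker, Matrix.mulVecLin_apply]
    by_cases h0 : c = 0
    · rw [h0, Matrix.mulVec_zero]
    · exact hA c h0 hc
  have h5 := Submodule.finrank_mono h4
  have h6 := LinearMap.finrank_range_add_finrank_ker A.mulVecLin
  rw [Module.finrank_fin_fun] at h6
  have h7 : A.rank = Module.finrank (ZMod 3) (LinearMap.range A.mulVecLin) := rfl
  omega

end ZKQ

open ZKQ in
/-- PTK_ZKQ. -/
theorem ZKQ_thm (hSPP : SPP) (hSSL : SSL) (hSLC : SLC) (hLCL : LCL) (hZKE : Stmt_ZKE)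
    (hZS : Stmt_ZS) (hZSU : Stmt_ZSU) (hZA : Stmt_ZA) (hZL : Stmt_ZL) (hWSB : Stmt_WSB)
    (hVDIM : Stmt_VDIM) (hPT : Stmt_PT) (hPTX : Stmt_PTX) (hPTY : Stmt_PTY)
    (hLCI : Stmt_LCI) : Stmt_ZKQ := by
  classical
  haveI : Fact (Nat.Prime 3) := ⟨Nat.prime_three⟩
  intro h n m k π p e r f w0 c hNF hh l y U R U' R' hBas hSys
  have hn0 : 0 < n := PT.FINA.pos_of_nf hNF
  have hN0 : 0 < 3 ^ h * n := Nat.mul_pos (pow_pos (by norm_num) _) hn0
  have hA := fun i => hZA n m k π p e r f hNF (y i)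
  have hunr : ∀ (σ : PP) (i : Fin l), ¬ σ.1 ∣ ((3 ^ h * n : ℕ) : Eis) →
      ¬ σ.1 ∣ (fun i => zN π e (y i)) i := by
    intro σ i hσ
    refine (hA i).2.2.2.1 σ fun h2 => hσ ?_
    push_cast
    exact Dvd.dvd.mul_left h2 _
  obtain ⟨N₁, hN₁⟩ := hZKE l (3 ^ h * n) (fun i => zN π e (y i)) U R U' R' hSys hN0
    (fun σ => SYK.VN_le hSPP hNF h σ) hunr
  refine ⟨N₁ + 3 + n, ?_⟩
  intro E q hE hq hqN hq12 hIn
  have hq3 : 3 < q := by omega
  have hqn : ¬ q ∣ n := fun hd => absurd (Nat.le_of_dvd hn0 hd) (by omega)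
  have h3q : ¬ 3 ∣ q := by omega
  have hSel : ∀ v ∈ VS h n π p e r w0 c, SelM (BB h n E q) (zN π e v) := by
    intro v hv
    rcases hq12 with h1 | h1
    · exact hZSU h n m k π p e r f w0 c E q hNF hh hE hq h1 hIn hqn v hv
    · exact hZS h n m k π p e r f w0 c E q hNF hh hE hq h1 hIn hqn v hv
  have hB0 : BB h n E q ≠ 0 := MS2.BB_ne hn0 hq
  have hlvw := HYPT.lvw hLCL hNF (h := h) (E := E) hq h3q hIn.1
  have hL : ∀ v, v ∈ V0 h n π p e r w0 c → LCE lam (zN π e v) := fun v hv =>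
    SYK.lc hLCI (hZL n m k π p e r f hNF v hv.2.1 hv.2.2)
  have hcf := NBK0.cubeFree_BB hNF hh hE hq hq3 hqn
  have h3le : 3 ≤ (BB h n E q).natAbs := NBK0.three_le hNF hE hq hq3
  have hnc : ¬ ∃ t : ℤ, t ^ 3 = BB h n E q :=
    CubeRank.GenPf.not_cube hcf (by rw [Int.abs_eq_natAbs]; exact_mod_cast h3le)
  have hTy : TyZ (fun i => zN π e (y i)) (BB h n E q) := by
    rcases hBas.ty with ⟨h0, h1⟩ | h1
    · left
      have hlw : lw (BB h n E q) = 0 := by rw [hlvw.2]; exact h1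
      have h3B : ¬ (3 : ℤ) ∣ BB h n E q := by
        intro h4
        unfold BB at h4
        rw [h0, pow_zero, one_mul] at h4
        rcases Int.prime_three.dvd_or_dvd h4 with h5 | h5
        · exact PT.FINA.three_of_nf hNF (by exact_mod_cast h5)
        · have h6 := Int.prime_three.dvd_of_dvd_pow h5
          exact h3q (by exact_mod_cast h6)
      rw [(hLCL.2.2.2.1 _ h3B).2] at hlw
      have h9 : (9 : ℤ) ∣ (BB h n E q) ^ 2 - 1 := by
        have h5 : (3 : ℤ) ∣ (BB h n E q) ^ 2 - 1 := by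
          have : (BB h n E q) % 3 = 1 ∨ (BB h n E q) % 3 = 2 := by omega
          rcases this with h6 | h6
          · have : (BB h n E q) ^ 2 - 1 = (BB h n E q - 1) * (BB h n E q + 1) := by ring
            rw [this]
            exact Dvd.dvd.mul_right (by omega) _
          · have : (BB h n E q) ^ 2 - 1 = (BB h n E q - 1) * (BB h n E q + 1) := by ring
            rw [this]
            exact Dvd.dvd.mul_left (by omega) _
        obtain ⟨t, ht⟩ := h5
        have h7 : ((BB h n E q) ^ 2 - 1) / 3 = t := by rw [ht]; simp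
        unfold wt at hlw
        rw [h7, ZMod.intCast_zmod_eq_zero_iff_dvd _ 3] at hlw
        obtain ⟨u, hu⟩ := hlw
        refine ⟨u, ?_⟩
        rw [ht, hu]
        push_cast
        ring
      refine SYK.lc hLCI ?_
      obtain ⟨t, ht⟩ := h9
      have h10 : ((BB h n E q : ℤ) : Eis) ^ 2 - 1 = 9 * ((t : ℤ) : Eis) := by
        have := congrArg (fun x : ℤ => (x : Eis)) ht
        push_cast at this
        exact this
      rw [h10]
      exact Dvd.dvd.mul_right ⟨w, by decide⟩ _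
    · right
      intro i j hij
      rcases h1 i j hij with h2 | h2
      · exact Or.inl (hL _ h2)
      · exact Or.inr (hL _ h2)
  have hmain := hN₁ E q (BB h n E q) hE hq (by omega) (MS2.BB_int h n E q).symm
    (fun σ i => (hSel _ (hBas.mem i)).sym σ) hTy
  refine ⟨hmain.1, ?_⟩
  obtain ⟨W, hW⟩ := hWSB h n m k π p e r f w0 c E q hNF hh hE hq hq3 hqn
  have hWV : W ≤ VS h n π p e r w0 c := fun z hz => ((hW z).1 hz).1
  have hcard : Nat.card (WqS h n π p e r w0 c (BB h n E q)) = Nat.card W :=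
    Nat.card_congr (Equiv.subtypeEquivRight fun z => (hW z).symm)
  have hcardW : Nat.card W = 3 ^ Module.finrank (ZMod 3) W := by
    have h1 := Module.natCard_eq_pow_finrank (K := ZMod 3) (V := W)
    rwa [Nat.card_zmod] at h1
  rw [hcard, hcardW, Nat.log_pow (by norm_num)]
  refine dim_le W (VS h n π p e r w0 c) hWV y hBas.ind hBas.mem hBas.card _ ?_
  intro d hd0 hdW
  obtain ⟨i₀, hi₀⟩ : ∃ i, d i ≠ 0 := by
    by_contra hcon
    push Not at hcon
    exact hd0 (funext hcon)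
  have hval : ∀ i, ((d i).val : ZMod 3) = d i := fun i => ZMod.natCast_zmod_val (d i)
  have hv2 : ∀ i, (d i).val ≤ 2 := fun i => by
    have := ZMod.val_lt (d i)
    omega
  have hv0 : (d i₀).val ≠ 0 := fun h1 => hi₀ ((ZMod.val_eq_zero _).1 h1)
  have hsum : ∑ i, (d i).val • y i = ∑ i, d i • y i := by
    refine Finset.sum_congr rfl fun i _ => ?_
    rw [← Nat.cast_smul_eq_nsmul (ZMod 3), hval]
  have hOcc : Occ (BB h n E q) (∏ i, zN π e (y i) ^ (d i).val) := by
    have h1 := ((hW _).1 hdW).2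
    rw [← hsum] at h1
    exact occ_ce h1 (ce_sum hZA hNF y (fun i => (d i).val) Finset.univ)
  have hxnc : ¬ ∃ t : Eis, t ^ 3 = ∏ i, zN π e (y i) ^ (d i).val := by
    refine hSys.ind (fun i => (d i).val) ⟨i₀, fun h1 => hv0 ?_⟩
    have := hv2 i₀
    omega
  have hx0 : ∏ i, zN π e (y i) ^ (d i).val ≠ 0 :=
    Finset.prod_ne_zero_iff.2 fun i _ => pow_ne_zero _ (hA i).1
  have hpt : ∃ X Y : Eis, PtE (BB h n E q : Eis) (∏ i, zN π e (y i) ^ (d i).val) X Y ∧
      ((∀ i, LCE lam (zN π e (y i))) ∨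
        GoodPt (BB h n E q) (∏ i, zN π e (y i) ^ (d i).val) X Y) ∧
      (LCE lam ((BB h n E q : ℤ) : Eis) → GoodW (∏ i, zN π e (y i) ^ (d i).val) X Y) := by
    by_cases h1 : h = 1
    · obtain ⟨X, Y, hXY⟩ := hPT _ _ hB0 hx0 hxnc hOcc
      refine ⟨X, Y, hXY, Or.inl fun i => hL _ (MSY.V0_eq hVDIM h1 (hBas.mem i)), ?_⟩
      intro hc
      have h2 := (PTY.lvw hSSL hSLC hLCL hLCI hB0 hc).1
      rw [hlvw.1, h1] at h2
      exact absurd h2 (by decide)
    · by_cases hc : LCE lam ((BB h n E q : ℤ) : Eis)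
      · obtain ⟨X, Y, h2, h3, h4⟩ := hPTY _ _ hB0 hnc hc hx0 hxnc hOcc
        exact ⟨X, Y, h2, Or.inr h3, fun _ => h4⟩
      · obtain ⟨X, Y, h2, h3⟩ := hPTX _ _ hB0
          (MS2.lv_BB_ne hLCL hNF hq h3q hh h1) hx0 hxnc hOcc
        exact ⟨X, Y, h2, Or.inr h3, fun h4 => absurd h4 hc⟩
  obtain ⟨X, Y, hXY, hg, hw⟩ := hpt
  have hker := hmain.2 (fun i => (d i).val) hv2 ⟨i₀, hv0⟩ X Y hXY hg hw
  funext j
  have h1 := hker j
  rw [Pi.zero_apply]
  rw [← h1]
  unfold Matrix.mulVec dotProduct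
  refine Finset.sum_congr rfl fun i _ => ?_
  rw [hval]
  rfl

end Pool.Agent.PTK
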