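import Pool.Agent.PTK.StZ2
import Pool.Agent.PTK.CTK
import Pool.Agent.PTK.MSKU
import Pool.Agent.PTK.SYK

/-!
# PTK_ZS1: the primes of `QMM` are in `SPZU`, `SMZU` (`q = 1 (mod 3)`)
-/

set_option autoImplicit false

open NumberField IsDedekindDomain Finset
open scoped nonZeroDivisors Pointwise

namespace Pool.Agent.PTK

open Pool.Agent.Lib_helper18 Pool.Agent.Lib_helper18.Eis Pool.Agent.Lib_helper84.Cub
open Pool.Agent.PT Pool.Agent.PTE Pool.Agent.PT3 Pool.Agent.PTL Pool.Agent.PTN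

namespace ZS1

/-- the entry of the matrix outside the diagonal -/
theorem MaZ_ne {l : ℕ} {z : Fin l → Eis} {P Q P' Q' : Fin l → Fin l → Eis} {B : ℤ} {j i : Fin l}
    (h : j ≠ i) : MaZ z P Q P' Q' B j i =
      OZE B (z j) (z i) (P j i) (Q j i) (P' j i) (Q' j i) := by
  unfold MaZ
  rw [if_neg h]

end ZS1

open MSKU in
/-- PTK_ZS1. -/
theorem ZS1_thm (hDE1 : Stmt_DE1) (hZSU : Stmt_ZSU) (hZA : Stmt_ZA) (hSPP : SPP) :
    Stmt_ZS1 := by
  classical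
  intro h n m k π p e r f w0 c hNF hh l N y U R U' R' α β hM
  have hn0 : 0 < n := PT.FINA.pos_of_nf hNF
  have hN0 : 0 < 3 ^ h * n := Nat.mul_pos (pow_pos (by norm_num) _) hn0
  have hBB : ∀ E q : ℕ, ((BB h n E q : ℤ) : Eis) = ((3 ^ h * n : ℕ) : Eis) * (q : Eis) ^ E := by
    intro E q
    unfold BB
    push_cast
    ring
  have hA := fun i => hZA n m k π p e r f hNF (y i)
  have hunr : ∀ (i : Fin l) (σ : PP), ¬ σ.1 ∣ ((3 ^ h * n : ℕ) : Eis) → ¬ σ.1 ∣ zN π e (y i) := by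
    intro i σ hσ
    refine (hA i).2.2.2.1 σ fun h2 => hσ ?_
    push_cast
    exact Dvd.dvd.mul_left h2 _
  have hnd : ∀ (v : Fin (m + 1) → ZMod 3) (q : ℕ) (ρ : PP), q.Prime →
      (q : Eis) = ρ.1 * conj ρ.1 → ¬ q ∣ n → ¬ ρ.1 ∣ zN π e v := by
    intro v q ρ hq hρ hqn
    obtain ⟨-, -, -, h4, -⟩ := hZA n m k π p e r f hNF v
    exact h4 ρ (not_dvd hq hρ hqn)
  have hne : ∀ j, α j ≠ β j := fun j => (hM.prs.lt j).ne
  have hHyp : ∀ j, HypE (3 ^ h * n) (zN π e (y (α j))) (zN π e (y (β j))) (U (α j) (β j))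
      (R (α j) (β j)) (U' (α j) (β j)) (R' (α j) (β j)) := fun j =>
    ⟨hN0, hM.sys.sol (α j) (β j) (hne j), (hA _).1, (hA _).1,
      fun σ hσ => ⟨hunr _ σ hσ, hunr _ σ hσ⟩, SYK.VN_le hSPP hNF h⟩
  choose F0 hF0 hF1 using fun j => hDE1 (3 ^ h * n) _ _ _ _ _ _ (hHyp j)
  refine ⟨∏ j, F0 j, Finset.prod_pos fun j _ => hF0 j, fun F hFpos hFd κ hκ1 => ?_⟩
  choose C Φ N₀ hC using fun j => hF1 j F hFpos
    ((Finset.dvd_prod_of_mem F0 (mem_univ j)).trans hFd)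
  have hMN : ∀ j, N₀ j ≤ ∑ j, N₀ j := fun j =>
    Finset.single_le_sum (f := N₀) (fun i _ => Nat.zero_le _) (mem_univ j)
  have hmain : ∀ (E q : ℕ) (M : Fin N → ZMod 3), (E = 1 ∨ E = 2) → q.Prime →
      3 ^ h * n + F + ∑ j, N₀ j < q → q ∈ QMM h n π e w0 c y U R U' R' α β M 1 E →
      ∃ hQ : q.Coprime F, ∀ ρ : PP, (q : Eis) = ρ.1 * conj ρ.1 →
        (∀ i, sym ρ.1 (zN π e (y i)) = 0) ∧
        ∀ (j : Fin N) (ξ ξ' : Eis), ρ.1 ∣ ξ ^ 3 - zN π e (y (α j)) →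
          conj ρ.1 ∣ ξ' ^ 3 - zN π e (y (α j)) →
          M j = C j + E * ((Φ j (ZMod.unitOfCoprime q hQ)).toAdd -
            TAUP ρ.1 (U (α j) (β j)) (R (α j) (β j)) (U' (α j) (β j)) (R' (α j) (β j)) ξ -
            TAUP (conj ρ.1) (U (α j) (β j)) (R (α j) (β j)) (U' (α j) (β j))
              (R' (α j) (β j)) ξ') := by
    intro E q M hE hq hqM ⟨hq3, hIn, hMY⟩
    have hqN : ¬ q ∣ 3 ^ h * n := fun h => by
      have := Nat.le_of_dvd hN0 h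
      omega
    have hqn : ¬ q ∣ n := fun h => hqN (Dvd.dvd.mul_left h _)
    have hQ : q.Coprime F := by
      rw [Nat.Prime.coprime_iff_not_dvd hq]
      intro h
      have := Nat.le_of_dvd hFpos h
      omega
    have hSel : ∀ v ∈ VS h n π p e r w0 c, ∀ σ : PP,
        tm σ.1 (zN π e v) (((3 ^ h * n : ℕ) : Eis) * (q : Eis) ^ E) = 0 := by
      intro v hv σ
      have h1 := (hZSU h n m k π p e r f w0 c E q hNF hh hE hq hq3 hIn hqn v hv).sym σ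
      rwa [hBB] at h1
    refine ⟨hQ, fun ρ hρ => ⟨fun i => sym_zero hq hq3 hρ hE hqN (hnd (y i) q ρ hq hρ hqn)
      (hSel (y i) (hM.bas.mem i)), ?_⟩⟩
    intro j ξ ξ' hξ hξ'
    have h1 := hC j E q hQ ρ hE hq (by have := hMN j; omega) hq3 hρ (hSel _ (hM.bas.mem _))
      (hSel _ (hM.bas.mem _)) ξ ξ' hξ hξ'
    have h2 := hMY j
    unfold MY at h2
    rw [ZS1.MaZ_ne (hne j), hBB] at h2
    rw [← h2]
    exact h1
  refine ⟨C, CTK.assemble Φ, 3 ^ h * n + F + ∑ j, N₀ j, fun q M hq hqM => ⟨fun hqY => ?_,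
    fun hqY => ?_⟩⟩
  · obtain ⟨hQ, h2⟩ := hmain 1 q M (Or.inl rfl) hq hqM hqY
    obtain ⟨hq3, hIn, -⟩ := hqY
    refine ⟨hQ, hq3, ?_, fun ρ hρ => ⟨(h2 ρ hρ).1, fun j ξ ξ' hξ hξ' => ?_⟩⟩
    · rw [hκ1]
      funext i
      refine Fin.cases ?_ (fun i => ?_) i
      · rw [Fin.cons_zero, Fin.cons_zero]
        have h5 := hIn.1
        rw [pow_one] at h5
        exact h5
      · rw [Fin.cons_succ, Fin.cons_succ]
        have h5 := hIn.2 i
        rw [Nat.cast_one, one_mul] at h5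
        exact h5
    · have h5 := (h2 ρ hρ).2 j ξ ξ' hξ hξ'
      rw [CTK.assemble_apply, Pi.sub_apply]
      rw [Nat.cast_one, one_mul] at h5
      linear_combination h5
  · obtain ⟨hQ, h2⟩ := hmain 2 q M (Or.inr rfl) hq hqM hqY
    obtain ⟨hq3, hIn, -⟩ := hqY
    refine ⟨hQ, hq3, ?_, fun ρ hρ => ⟨(h2 ρ hρ).1, fun j ξ ξ' hξ hξ' => ?_⟩⟩
    · rw [hκ1]
      funext i
      refine Fin.cases ?_ (fun i => ?_) i
      · rw [Fin.cons_zero, Pi.neg_apply, Fin.cons_zero]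
        have h5 := hIn.1
        rw [wt_sq hq3] at h5
        exact CTK.neg_of_two h5
      · rw [Fin.cons_succ, Pi.neg_apply, Fin.cons_succ]
        exact CTK.neg_of_two (hIn.2 i)
    · have h5 := (h2 ρ hρ).2 j ξ ξ' hξ hξ'
      rw [CTK.assemble_apply, Pi.sub_apply]
      rw [show ((2 : ℕ) : ZMod 3) = -1 from by decide] at h5
      linear_combination -h5

end Pool.Agent.PTK
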