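import Pool.Agent.PTK.StZ2
import Pool.Agent.PTK.CTK
import Pool.Agent.PTK.SYK
import Pool.Agent.PT3.HYPT

/-!
# PTK_ZS2: the primes of `QMM` are in `SPZ`, `SMZ`
-/

set_option autoImplicit false

open NumberField IsDedekindDomain Finset
open scoped nonZeroDivisors Pointwise

namespace Pool.Agent.PTK

open Pool.Agent.Lib_helper18 Pool.Agent.Lib_helper18.Eis Pool.Agent.Lib_helper84.Cub
open Pool.Agent.PT Pool.Agent.PTE Pool.Agent.PT3 Pool.Agent.PTL Pool.Agent.PTN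

namespace ZS2

theorem BB_eis (h n E q : ℕ) :
    ((BB h n E q : ℤ) : Eis) = ((3 ^ h * n : ℕ) : Eis) * (q : Eis) ^ E := by
  unfold BB
  push_cast
  ring

end ZS2

open CTK ZS2 in
/-- PTK_ZS2. -/
theorem ZS2_thm (hDE2 : Stmt_DE2) (hZS : Stmt_ZS) (hZA : Stmt_ZA) (_hSTM : STM) (hSPP : SPP) :
    Stmt_ZS2 := by
  classical
  intro h n m k π p e r f w0 c hNF hh l N y U R U' R' α β hMn
  have hn0 : 0 < n := PT.FINA.pos_of_nf hNF
  have hN0 : 0 < 3 ^ h * n := Nat.mul_pos (pow_pos (by norm_num) _) hn0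
  have hx0 : ∀ i, zN π e (y i) ≠ 0 := fun i => (hZA n m k π p e r f hNF (y i)).1
  have hnd : ∀ (v : Fin (m + 1) → ZMod 3) (q : ℕ), q.Prime → q % 3 = 2 → ¬ q ∣ n →
      ¬ (q : Eis) ∣ zN π e v := by
    intro v q hq hq3 hqn
    obtain ⟨-, -, -, h4, -⟩ := hZA n m k π p e r f hNF v
    obtain ⟨σ, hσ⟩ := hSPP.2.2.2.2.1 q hq hq3
    have h5 := h4 σ
    rw [hσ] at h5
    exact h5 fun h6 => hqn (nat_dvd h6)
  have hunr : ∀ (i : Fin l) (σ : PP), ¬ σ.1 ∣ ((3 ^ h * n : ℕ) : Eis) →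
      ¬ σ.1 ∣ zN π e (y i) := by
    intro i σ hσ
    refine (hZA n m k π p e r f hNF (y i)).2.2.2.1 σ fun h2 => hσ ?_
    push_cast
    exact Dvd.dvd.mul_left h2 _
  have hne : ∀ j : Fin N, α j ≠ β j := fun j => ne_of_lt (hMn.prs.lt j)
  have hHyp : ∀ j : Fin N, HypE (3 ^ h * n) (zN π e (y (α j))) (zN π e (y (β j)))
      (U (α j) (β j)) (R (α j) (β j)) (U' (α j) (β j)) (R' (α j) (β j)) := fun j =>
    ⟨hN0, hMn.sys.sol (α j) (β j) (hne j), hx0 _, hx0 _,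
      fun σ hσ => ⟨hunr _ σ hσ, hunr _ σ hσ⟩, SYK.VN_le hSPP hNF h⟩
  -- the conductor
  choose F0 hF0 hF1 using fun j => hDE2 _ _ _ _ _ _ _ (hHyp j)
  refine ⟨∏ j, F0 j, Finset.prod_pos fun j _ => hF0 j, ?_⟩
  intro F hFpos hFdvd κ hκ1
  have hFd : ∀ j, F0 j ∣ F := fun j => (Finset.dvd_prod_of_mem F0 (mem_univ j)).trans hFdvd
  choose C Φ N₀ hC using fun j => hF1 j F hFpos (hFd j)
  have hMN : ∀ j, N₀ j ≤ ∑ j, N₀ j := fun j =>
    Finset.single_le_sum (f := N₀) (fun i _ => Nat.zero_le _) (mem_univ j)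
  have hmain : ∀ (E q : ℕ) (M : Fin N → ZMod 3), (E = 1 ∨ E = 2) → q.Prime →
      3 ^ h * n + F + ∑ j, N₀ j < q →
      q ∈ QMM h n π e w0 c y U R U' R' α β M 2 E →
      ∃ hQ : q.Coprime F, (∀ i, sym (q : Eis) (zN π e (y i)) = 0) ∧
        ∀ (j : Fin N) (ξ : Eis), (q : Eis) ∣ ξ ^ 3 - zN π e (y (α j)) →
          M j = C j + E * ((Φ j (ZMod.unitOfCoprime q hQ)).toAdd -
            TAUE q (U (α j) (β j)) (R (α j) (β j)) (U' (α j) (β j)) (R' (α j) (β j)) ξ) := by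
    intro E q M hE hq hqM ⟨hq3, hIn, hMY⟩
    have hqN : ¬ q ∣ 3 ^ h * n := fun h => by
      have := Nat.le_of_dvd hN0 h
      omega
    have hqn : ¬ q ∣ n := fun h => hqN (Dvd.dvd.mul_left h _)
    have hQ : q.Coprime F := by
      rw [Nat.Prime.coprime_iff_not_dvd hq]
      intro h
      have := Nat.le_of_dvd hFpos h
      omega
    have hSel : ∀ i, ∀ σ : PP,
        tm σ.1 (zN π e (y i)) (((3 ^ h * n : ℕ) : Eis) * (q : Eis) ^ E) = 0 := by
      intro i σ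
      have h1 := (hZS h n m k π p e r f w0 c E q hNF hh hE hq hq3 hIn hqn (y i)
        (hMn.bas.mem i)).sym σ
      rwa [BB_eis] at h1
    refine ⟨hQ, fun i => sym_zero hSPP hq hq3 hE hqN (hnd (y i) q hq hq3 hqn) (hSel i), ?_⟩
    intro j ξ hξ
    have h2 := hC j E q hQ hE hq (by have := hMN j; omega) hq3 (hSel (α j)) (hSel (β j)) ξ hξ
    have h3 := hMY j
    unfold MY MaZ at h3
    rw [if_neg (hne j), BB_eis] at h3
    rw [← h3]
    exact h2
  refine ⟨C, assemble Φ, 3 ^ h * n + F + ∑ j, N₀ j, ?_⟩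
  intro q M hq hqM
  constructor
  · intro hqY
    obtain ⟨hQ, h2, h4⟩ := hmain 1 q M (Or.inl rfl) hq hqM hqY
    obtain ⟨hq3, hIn, -⟩ := hqY
    refine ⟨hQ, hq3, ?_, h2, ?_⟩
    · rw [hκ1]
      funext i
      refine Fin.cases ?_ (fun i => ?_) i
      · rw [Fin.cons_zero, Fin.cons_zero]
        have h5 := hIn.1
        rw [pow_one] at h5
        exact h5
      · rw [Fin.cons_succ, Fin.cons_succ]
        have h5 := hIn.2 i
        rw [Nat.cast_one, one_mul] at h5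
        exact h5
    · intro j ξ hξ
      have h5 := h4 j ξ hξ
      rw [assemble_apply, Pi.sub_apply]
      rw [Nat.cast_one, one_mul] at h5
      linear_combination h5
  · intro hqY
    obtain ⟨hQ, h2, h4⟩ := hmain 2 q M (Or.inr rfl) hq hqM hqY
    obtain ⟨hq3, hIn, -⟩ := hqY
    refine ⟨hQ, hq3, ?_, h2, ?_⟩
    · rw [hκ1]
      funext i
      refine Fin.cases ?_ (fun i => ?_) i
      · rw [Fin.cons_zero, Pi.neg_apply, Fin.cons_zero]
        have h5 := hIn.1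
        rw [CL.wt_sq2 hq3] at h5
        exact neg_of_two h5
      · rw [Fin.cons_succ, Pi.neg_apply, Fin.cons_succ]
        exact neg_of_two (hIn.2 i)
    · intro j ξ hξ
      have h5 := h4 j ξ hξ
      rw [assemble_apply, Pi.sub_apply]
      rw [show ((2 : ℕ) : ZMod 3) = -1 from by decide] at h5
      linear_combination -h5

end Pool.Agent.PTK
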