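import Pool.Agent.PTK.ALV
import Pool.Agent.PTK.AVE
import Pool.Agent.PTK.AWF
import Pool.Agent.PTK.BM2
import Pool.Agent.PTK.BMU
import Pool.Agent.PTK.BMZ
import Pool.Agent.PTK.CAV
import Pool.Agent.PTK.CBV
import Pool.Agent.PTK.CHE
import Pool.Agent.PTK.CLV
import Pool.Agent.PTK.CNM
import Pool.Agent.PTK.DCKU
import Pool.Agent.PTK.DE1
import Pool.Agent.PTK.DE2
import Pool.Agent.PTK.DNS
import Pool.Agent.PTK.DNS1
import Pool.Agent.PTK.DP1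
import Pool.Agent.PTK.DP2
import Pool.Agent.PTK.DP3
import Pool.Agent.PTK.DP4U
import Pool.Agent.PTK.DX1
import Pool.Agent.PTK.DX2
import Pool.Agent.PTK.DX3
import Pool.Agent.PTK.DX4
import Pool.Agent.PTK.DXL
import Pool.Agent.PTK.EKN
import Pool.Agent.PTK.ESB
import Pool.Agent.PTK.ESR
import Pool.Agent.PTK.ESZ
import Pool.Agent.PTK.F2E
import Pool.Agent.PTK.F3E
import Pool.Agent.PTK.F4E
import Pool.Agent.PTK.F6R
import Pool.Agent.PTK.F7U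
import Pool.Agent.PTK.FB
import Pool.Agent.PTK.FL1
import Pool.Agent.PTK.FL2
import Pool.Agent.PTK.GFK
import Pool.Agent.PTK.GFKU
import Pool.Agent.PTK.GFZ
import Pool.Agent.PTK.GMB
import Pool.Agent.PTK.GTK
import Pool.Agent.PTK.GTU
import Pool.Agent.PTK.GTZ
import Pool.Agent.PTK.HN2
import Pool.Agent.PTK.HNE
import Pool.Agent.PTK.IF1
import Pool.Agent.PTK.IF2
import Pool.Agent.PTK.IF4
import Pool.Agent.PTK.IF4B
import Pool.Agent.PTK.IIA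
import Pool.Agent.PTK.IIAG
import Pool.Agent.PTK.JD2
import Pool.Agent.PTK.JDG
import Pool.Agent.PTK.JDZ
import Pool.Agent.PTK.KN1
import Pool.Agent.PTK.KUM
import Pool.Agent.PTK.LAE
import Pool.Agent.PTK.LAM
import Pool.Agent.PTK.LCI
import Pool.Agent.PTK.LEE
import Pool.Agent.PTK.LFE
import Pool.Agent.PTK.LFV
import Pool.Agent.PTK.LKN
import Pool.Agent.PTK.LMC
import Pool.Agent.PTK.LRR
import Pool.Agent.PTK.MAL
import Pool.Agent.PTK.MAU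
import Pool.Agent.PTK.MAW
import Pool.Agent.PTK.MAZ
import Pool.Agent.PTK.MC1
import Pool.Agent.PTK.MC2
import Pool.Agent.PTK.MD2
import Pool.Agent.PTK.MDU
import Pool.Agent.PTK.MDZ
import Pool.Agent.PTK.MKU
import Pool.Agent.PTK.MPZ
import Pool.Agent.PTK.MS1
import Pool.Agent.PTK.MSF
import Pool.Agent.PTK.MSP
import Pool.Agent.PTK.MSPU
import Pool.Agent.PTK.MSY
import Pool.Agent.PTK.MTL
import Pool.Agent.PTK.MTZ
import Pool.Agent.PTK.MZF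
import Pool.Agent.PTK.NBU
import Pool.Agent.PTK.NBW
import Pool.Agent.PTK.NBX
import Pool.Agent.PTK.NCN
import Pool.Agent.PTK.NDS
import Pool.Agent.PTK.NFL
import Pool.Agent.PTK.NFX
import Pool.Agent.PTK.NG2
import Pool.Agent.PTK.NGN
import Pool.Agent.PTK.NHN
import Pool.Agent.PTK.NHO
import Pool.Agent.PTK.NM2
import Pool.Agent.PTK.NMN
import Pool.Agent.PTK.NNS
import Pool.Agent.PTK.NRK
import Pool.Agent.PTK.NTR
import Pool.Agent.PTK.PAT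
import Pool.Agent.PTK.PLE
import Pool.Agent.PTK.PLU
import Pool.Agent.PTK.PT
import Pool.Agent.PTK.PTX
import Pool.Agent.PTK.PTY
import Pool.Agent.PTK.RAE
import Pool.Agent.PTK.S1G
import Pool.Agent.PTK.SAE
import Pool.Agent.PTK.SVF
import Pool.Agent.PTK.TAE
import Pool.Agent.PTK.THE
import Pool.Agent.PTK.TLE
import Pool.Agent.PTK.TPE
import Pool.Agent.PTK.UPA
import Pool.Agent.PTK.UPL
import Pool.Agent.PTK.UPS
import Pool.Agent.PTK.VDIM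
import Pool.Agent.PTK.WGR
import Pool.Agent.PTK.WGU
import Pool.Agent.PTK.WSB
import Pool.Agent.PTK.ZA
import Pool.Agent.PTK.ZBA
import Pool.Agent.PTK.ZC
import Pool.Agent.PTK.ZI
import Pool.Agent.PTK.ZKE
import Pool.Agent.PTK.ZKQ
import Pool.Agent.PTK.ZL
import Pool.Agent.PTK.ZPV
import Pool.Agent.PTK.ZS
import Pool.Agent.PTK.ZS1
import Pool.Agent.PTK.ZS2
import Pool.Agent.PTK.ZSU
import Pool.Agent.PTK.ZT
import Pool.Agent.PTN.Final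


/-!
# The law of the ranks of prime twists: assembly
-/

namespace Pool.Agent.PTK.FinalW

open Pool.Agent.PTK

theorem jUPS : Stmt_UPS := UPS_thm 

theorem jPLE : Stmt_PLE := PLE_thm Pool.Agent.PTN.Final.fNBAS Pool.Agent.PT3.Final.fESYT

theorem jVDIM : Stmt_VDIM := VDIM_thm 

theorem jZBA : Stmt_ZBA := ZBA_thm jVDIM

theorem jNFL : Stmt_NFL := NFL_thm 

theorem jNRK : Stmt_NRK := NRK_thm 

theorem jNHN : Stmt_NHN := NHN_thm 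

theorem jNTR : Stmt_NTR := NTR_thm Pool.Agent.PT.Final.fSPP jNHN

theorem jLCI : Stmt_LCI := LCI_thm Pool.Agent.PT.Final.fSPP

theorem jNCN : Stmt_NCN := NCN_thm Pool.Agent.PT.Final.fSPP jLCI jNHN jNTR

theorem jNFX : Stmt_NFX := NFX_thm Pool.Agent.PT.Final.fSPP jNHN jNTR

theorem jNHO : Stmt_NHO := NHO_thm Pool.Agent.PT.Final.fSPP jNHN jNTR

theorem jNNS : Stmt_NNS := NNS_thm 

theorem jNGN : Stmt_NGN := NGN_thm Pool.Agent.PT.Final.fSPP Pool.Agent.PT.Final.fSREC jLCI Pool.Agent.PT.Final.fNAUX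

theorem jNMN : Stmt_NMN := NMN_thm Pool.Agent.PT.Final.fSTM Pool.Agent.PT.Final.fSPP Pool.Agent.PT.Final.fSSL Pool.Agent.PT.Final.fSLC Pool.Agent.PT.Final.fHERBQ Pool.Agent.PT.Final.fSUN jNRK jNHN jNTR jNCN jNFX jNHO jNNS jNGN

theorem jNDS : Stmt_NDS := NDS_thm 

theorem jHNE : Stmt_HNE := HNE_thm jNFL jNMN jNDS

theorem jNG2 : Stmt_NG2 := NG2_thm Pool.Agent.PT.Final.fSPP Pool.Agent.PT.Final.fSSL Pool.Agent.PT.Final.fSREC Pool.Agent.PT.Final.fSLC jLCI Pool.Agent.PT.Final.fNAUX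

theorem jNM2 : Stmt_NM2 := NM2_thm Pool.Agent.PT.Final.fSTM Pool.Agent.PT.Final.fSPP Pool.Agent.PT.Final.fSSL Pool.Agent.PT.Final.fSLC Pool.Agent.PT.Final.fHERBQ Pool.Agent.PT.Final.fSUN jNRK jNHN jNTR jNCN jNFX jNHO jNNS jNG2

theorem jHN2 : Stmt_HN2 := HN2_thm jNFL jNM2 jNDS

theorem jZA : Stmt_ZA := ZA_thm Pool.Agent.PT.Final.fSPP Pool.Agent.PT.Final.fSSL Pool.Agent.PT.Final.fSREC Pool.Agent.PT3.Final.fLCL

theorem jZI : Stmt_ZI := ZI_thm jZA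

theorem jZL : Stmt_ZL := ZL_thm Pool.Agent.PT.Final.fSPP Pool.Agent.PT.Final.fSSL Pool.Agent.PT.Final.fSREC Pool.Agent.PT.Final.fSCJ

theorem jZC : Stmt_ZC := ZC_thm Pool.Agent.PT.Final.fSTM Pool.Agent.PT.Final.fSPP Pool.Agent.PT.Final.fSSL Pool.Agent.PT.Final.fSCJ Pool.Agent.PT3.Final.fLCL jZA

theorem jZT : Stmt_ZT := ZT_thm Pool.Agent.PT.Final.fSTM Pool.Agent.PT.Final.fSPP Pool.Agent.PT.Final.fSCJ jLCI jZA jZC

theorem jMSF : Stmt_MSF := MSF_thm jHNE jHN2 jZA jZI jZL jZT Pool.Agent.PT.Final.fSSL Pool.Agent.PT.Final.fSREC Pool.Agent.PT.Final.fSCJ Pool.Agent.PT.Final.fSPP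

theorem jCNM : Stmt_CNM := CNM_thm 

theorem jZS : Stmt_ZS := ZS_thm Pool.Agent.PT.Final.fSTM Pool.Agent.PT.Final.fSPP Pool.Agent.PT.Final.fSSL Pool.Agent.PT.Final.fSCJ Pool.Agent.PT3.Final.fLCL jZA jZC

theorem jS1G : Stmt_S1G := S1G_thm Pool.Agent.PTN.Final.fKEX Pool.Agent.PTN.Final.fKEMB Pool.Agent.PTN.Final.fKAD Pool.Agent.PTN.Final.fKMI

theorem jWGR : Stmt_WGR := WGR_thm Pool.Agent.PT.Final.fSPP Pool.Agent.PT.Final.fSSL Pool.Agent.PT.Final.fSCJ Pool.Agent.PT3.Final.fLCL Pool.Agent.PTN.Final.fNKIN jZA jZS jS1G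

theorem jNBW : Stmt_NBW := NBW_thm Pool.Agent.PTN.Final.fKID Pool.Agent.PTN.Final.fNADT Pool.Agent.PTN.Final.fNPLU Pool.Agent.PT3.Final.fTENT jWGR

theorem jAVE : Stmt_AVE := AVE_thm Pool.Agent.PT.Final.fSTM Pool.Agent.PT.Final.fSPP Pool.Agent.PT.Final.fSLC

theorem jLFE : Stmt_LFE := LFE_thm jAVE Pool.Agent.PT.Final.fSTM Pool.Agent.PT.Final.fSPP Pool.Agent.PT.Final.fSSL

theorem jIF1 : Stmt_IF1 := IF1_thm 

theorem jIF2 : Stmt_IF2 := IF2_thm Pool.Agent.PT.Final.fSTAR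

theorem jIF4 : Stmt_IF4 := IF4_thm Pool.Agent.PT.Final.fSTAR

theorem jF6R : Stmt_F6R := F6R_thm Pool.Agent.PT.Final.fSTM

theorem jF7U : Stmt_F7U := F7U_thm Pool.Agent.PT.Final.fSTM

theorem jSVF : Stmt_SVF := SVF_thm Pool.Agent.PT.Final.fSSL

theorem jIIAG : Stmt_IIAG := IIAG_thm Pool.Agent.PT.Final.fSTM Pool.Agent.PT.Final.fSPP Pool.Agent.PT.Final.fSSL jLCI jIF1 jIF2 jIF4 jF6R jF7U jSVF

theorem jIIA : Stmt_IIA := IIA_thm Pool.Agent.PT.Final.fSLC jIIAG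

theorem jSAE : Stmt_SAE := SAE_thm Pool.Agent.PT.Final.fSTM Pool.Agent.PT.Final.fSPP jLCI jIF4 jF6R jF7U jSVF

theorem jLMC : Stmt_LMC := LMC_thm Pool.Agent.PT.Final.fSSL Pool.Agent.PT.Final.fSLC Pool.Agent.PT.Final.fSREC Pool.Agent.PT.Final.fSCJ Pool.Agent.PT3.Final.fLCL jLCI

theorem jRAE : Stmt_RAE := RAE_thm jAVE jIIA jIF2 jSAE jLMC jLCI Pool.Agent.PT.Final.fSSL Pool.Agent.PT.Final.fSLC Pool.Agent.PT.Final.fSCJ Pool.Agent.PT3.Final.fLCL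

theorem jTAE : Stmt_TAE := TAE_thm jAVE jLFE jRAE jLCI Pool.Agent.PT.Final.fSTM Pool.Agent.PT.Final.fSPP Pool.Agent.PT.Final.fSLC

theorem jTHE : Stmt_THE := THE_thm jAVE jLMC jLCI Pool.Agent.PT.Final.fSTM Pool.Agent.PT.Final.fSPP Pool.Agent.PT.Final.fSSL Pool.Agent.PT.Final.fSLC

theorem jCHE : Stmt_CHE := CHE_thm jTAE jTHE Pool.Agent.PT.Final.fSTM Pool.Agent.PT.Final.fSPP

theorem jF2E : Stmt_F2E := F2E_thm Pool.Agent.PT.Final.fSTM Pool.Agent.PT.Final.fSPP jLCI jIF2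

theorem jF3E : Stmt_F3E := F3E_thm Pool.Agent.PT.Final.fSTM

theorem jF4E : Stmt_F4E := F4E_thm 

theorem jLAE : Stmt_LAE := LAE_thm jAVE jF2E jF3E jF4E jIF1 jLCI Pool.Agent.PT.Final.fSTM Pool.Agent.PT.Final.fSPP

theorem jTLE : Stmt_TLE := TLE_thm jAVE jLAE jLFE jLMC jIF1 jLCI Pool.Agent.PT.Final.fSSL Pool.Agent.PT.Final.fSLC

theorem jIF4B : Stmt_IF4B := IF4B_thm Pool.Agent.PT.Final.fSTAR

theorem jLFV : Stmt_LFV := LFV_thm Pool.Agent.PT.Final.fSPP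

theorem jLEE : Stmt_LEE := LEE_thm jAVE jF2E jF3E jF4E Pool.Agent.PT.Final.fSTM Pool.Agent.PT.Final.fSPP jLCI jIF1 jIF4 jIF4B jF6R jF7U jLFV

theorem jTPE : Stmt_TPE := TPE_thm jAVE jLEE jLFE jLMC jIIA jIF2 jIF4 jSVF jLCI Pool.Agent.PT.Final.fSSL Pool.Agent.PT.Final.fSLC

theorem jZKE : Stmt_ZKE := ZKE_thm jCHE jTLE jTPE Pool.Agent.PT.Final.fSTM Pool.Agent.PT.Final.fSPP

theorem jZSU : Stmt_ZSU := ZSU_thm Pool.Agent.PT.Final.fSTM Pool.Agent.PT.Final.fSPP Pool.Agent.PT.Final.fSSL Pool.Agent.PT.Final.fSCJ Pool.Agent.PT3.Final.fLCL jZA jZC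

theorem jWSB : Stmt_WSB := WSB_thm jZA jS1G

theorem jPT : Stmt_PT := PT_thm 

theorem jLRR : Stmt_LRR := LRR_thm Pool.Agent.PT3.Final.fLCL

theorem jPTX : Stmt_PTX := PTX_thm jLRR Pool.Agent.PT.Final.fSSL Pool.Agent.PT.Final.fSLC Pool.Agent.PT.Final.fSCJ Pool.Agent.PT3.Final.fLCL

theorem jKN1 : Stmt_KN1 := KN1_thm Pool.Agent.PT.Final.fSLC

theorem jLKN : Stmt_LKN := LKN_thm Pool.Agent.PT.Final.fSSL Pool.Agent.PT.Final.fSREC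

theorem jPTY : Stmt_PTY := PTY_thm jKN1 jLKN jLMC jLCI jLRR Pool.Agent.PT.Final.fSSL Pool.Agent.PT.Final.fSLC Pool.Agent.PT.Final.fSCJ Pool.Agent.PT3.Final.fLCL

theorem jZKQ : Stmt_ZKQ := ZKQ_thm Pool.Agent.PT.Final.fSPP Pool.Agent.PT.Final.fSSL Pool.Agent.PT.Final.fSLC Pool.Agent.PT3.Final.fLCL jZKE jZS jZSU jZA jZL jWSB jVDIM jPT jPTX jPTY jLCI

theorem jKUM : Stmt_KUM := KUM_thm Pool.Agent.PTN.Final.fDOMG Pool.Agent.PTN.Final.fLAW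

theorem jMSP : Stmt_MSP := MSP_thm Pool.Agent.PT3.Final.fDCOT Pool.Agent.PT3.Final.fTENT Pool.Agent.PTN.Final.fNADT

theorem jDE2 : Stmt_DE2 := DE2_thm jAVE jLCI Pool.Agent.PT.Final.fSTM Pool.Agent.PT.Final.fSPP Pool.Agent.PT.Final.fSLC

theorem jZS2 : Stmt_ZS2 := ZS2_thm jDE2 jZS jZA Pool.Agent.PT.Final.fSTM Pool.Agent.PT.Final.fSPP

theorem jMZF : Stmt_MZF := MZF_thm 

theorem jGTK : Stmt_GTK := GTK_thm 

theorem jGFK : Stmt_GFK := GFK_thm 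

theorem jMKU : Stmt_MKU := MKU_thm Pool.Agent.PT.Final.fKUM

theorem jMC1 : Stmt_MC1 := MC1_thm jMKU

theorem jMC2 : Stmt_MC2 := MC2_thm jMKU

theorem jMAL : Stmt_MAL := MAL_thm jMZF Pool.Agent.PT.Final.fGCHI Pool.Agent.PT3.Final.fGTG Pool.Agent.PT3.Final.fGFRG jGTK jGFK jMC1 jMC2

theorem jDNS : Stmt_DNS := DNS_thm Pool.Agent.PT.Final.fDIR

theorem jBM2 : Stmt_BM2 := BM2_thm jLCI Pool.Agent.PTN.Final.fEQX jMAL jDNS

theorem jMD2 : Stmt_MD2 := MD2_thm Pool.Agent.PT.Final.fCLSC jMSP jZS2 jBM2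

theorem jJD2 : Stmt_JD2 := JD2_thm jUPS jKUM jMD2 jZKQ jCNM

theorem jFL2 : Stmt_FL2 := FL2_thm jUPS jPLE jZBA jMSF jCNM jNBW jZKQ jJD2

theorem jPLU : Stmt_PLU := PLU_thm Pool.Agent.PT3.Final.fESYT

theorem jWGU : Stmt_WGU := WGU_thm Pool.Agent.PT.Final.fSTM Pool.Agent.PT.Final.fSPP Pool.Agent.PT.Final.fSSL Pool.Agent.PT.Final.fSCJ Pool.Agent.PT3.Final.fLCL Pool.Agent.PTN.Final.fNVEC Pool.Agent.PTN.Final.fNKIN jZA jZSU jS1G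

theorem jNBU : Stmt_NBU := NBU_thm Pool.Agent.PTN.Final.fKID Pool.Agent.PTN.Final.fNKIN Pool.Agent.PTN.Final.fNADU Pool.Agent.PTN.Final.fNPLU Pool.Agent.PT3.Final.fTENT Pool.Agent.PT.Final.fSPP Pool.Agent.PTE.Final.fSPLT jWGU

theorem jNBX : Stmt_NBX := NBX_thm Pool.Agent.PTN.Final.fKID Pool.Agent.PTN.Final.fNKIN Pool.Agent.PTN.Final.fNADU Pool.Agent.PTN.Final.fNPLU Pool.Agent.PT3.Final.fTENT Pool.Agent.PT.Final.fSPP Pool.Agent.PTE.Final.fSPLT jWGU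

theorem jPAT : Stmt_PAT := PAT_thm 

theorem jZPV : Stmt_ZPV := ZPV_thm Pool.Agent.PTE.Final.fSPLT Pool.Agent.PT.Final.fSPP

theorem jESR : Stmt_ESR := ESR_thm 

theorem jESZ : Stmt_ESZ := ESZ_thm jESR

theorem jMSPU : Stmt_MSPU := MSPU_thm Pool.Agent.PT3.Final.fDCOU Pool.Agent.PT3.Final.fTENT Pool.Agent.PTN.Final.fNADU Pool.Agent.PTE.Final.fSPLT

theorem jDE1 : Stmt_DE1 := DE1_thm jAVE jLCI Pool.Agent.PT.Final.fSTM Pool.Agent.PT.Final.fSPP Pool.Agent.PT.Final.fSLC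

theorem jZS1 : Stmt_ZS1 := ZS1_thm jDE1 jZSU jZA Pool.Agent.PT.Final.fSPP

theorem jGTU : Stmt_GTU := GTU_thm 

theorem jGFKU : Stmt_GFKU := GFKU_thm Pool.Agent.PT.Final.fSPP Pool.Agent.PT.Final.fSCJ Pool.Agent.PTE.Final.fSPLT

theorem jMAU : Stmt_MAU := MAU_thm jMZF Pool.Agent.PT.Final.fGCHI Pool.Agent.PTE.Final.fGTS Pool.Agent.PTE.Final.fGKUM Pool.Agent.PTN.Final.fGFRU jGTU jGFKU jMC1 jMC2

theorem jDNS1 : Stmt_DNS1 := DNS1_thm Pool.Agent.PT.Final.fDIR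

theorem jBMU : Stmt_BMU := BMU_thm Pool.Agent.PT.Final.fSPP Pool.Agent.PTE.Final.fSPLT jLCI Pool.Agent.PTN.Final.fEQX jMAU jDNS1

theorem jMDU : Stmt_MDU := MDU_thm Pool.Agent.PT.Final.fCLSC Pool.Agent.PTE.Final.fCLSCS jMSPU jZS1 jBMU

theorem jJDG : Stmt_JDG := JDG_thm jUPS jKUM jMDU jZKQ jCNM

theorem jMPZ : Stmt_MPZ := MPZ_thm Pool.Agent.PT3.Final.fDCOU Pool.Agent.PT3.Final.fTENT Pool.Agent.PTN.Final.fNADU Pool.Agent.PTE.Final.fSPLT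

theorem jGTZ : Stmt_GTZ := GTZ_thm 

theorem jGFZ : Stmt_GFZ := GFZ_thm Pool.Agent.PTE.Final.fSPLT

theorem jMAZ : Stmt_MAZ := MAZ_thm jMZF jMC1 jMC2 jGTZ jGFZ jGTU jGFKU Pool.Agent.PT.Final.fGCHI Pool.Agent.PTE.Final.fGKUM

theorem jBMZ : Stmt_BMZ := BMZ_thm Pool.Agent.PT.Final.fSPP Pool.Agent.PTE.Final.fSPLT jLCI Pool.Agent.PTN.Final.fEQX jMAZ jDNS1

theorem jMDZ : Stmt_MDZ := MDZ_thm Pool.Agent.PT.Final.fCLSC Pool.Agent.PTE.Final.fCLSCS jMPZ jZS1 jBMZ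

theorem jJDZ : Stmt_JDZ := JDZ_thm jUPS jKUM jMDZ jZKQ jCNM

theorem jFL1 : Stmt_FL1 := FL1_thm jUPS Pool.Agent.PTN.Final.fNHPT jPLU jPLE jNBU jNBX jPAT jZPV jESZ jZBA jMSF jCNM jZKQ jJDG jJDZ

theorem jUPA : Stmt_UPA := UPA_thm Pool.Agent.PT.Final.fSPP

theorem jUPL : Stmt_UPL := UPL_thm 

theorem jFB : Stmt_FB := FB_thm jFL2 jFL1 jUPA jUPL Pool.Agent.PTN.Final.fCLT Pool.Agent.PTN.Final.fCLN Pool.Agent.PTN.Final.fCLU Pool.Agent.PT.Final.fSPP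

theorem jLAM : Stmt_LAM := LAM_thm 

theorem jESB : Stmt_ESB := ESB_thm jESR

theorem jEKN : Stmt_EKN := EKN_thm jLAM jESB Pool.Agent.PTN.Final.fLAW

theorem jAWF : Stmt_AWF := AWF_thm Pool.Agent.PTN.Final.fSUMA jFB jEKN

theorem jMTL : Stmt_MTL := MTL_thm 

theorem jGMB : Stmt_GMB := GMB_thm 

theorem jMSY : Stmt_MSY := MSY_thm Pool.Agent.PT.Final.fSPP jLCI jHNE jZA jZI jZL jZT jVDIM

theorem jDP1 : Stmt_DP1 := DP1_thm Pool.Agent.PT.Final.fSTM Pool.Agent.PT.Final.fSPP jIF4 jIF4B jF6R jF7U jLFV jLCI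

theorem jDP2 : Stmt_DP2 := DP2_thm Pool.Agent.PT.Final.fSLC jIF2 jIIA

theorem jDP3 : Stmt_DP3 := DP3_thm Pool.Agent.PT.Final.fSTM Pool.Agent.PT.Final.fSPP jIF4 jF7U jLFV jLCI

theorem jDP4U : Stmt_DP4U := DP4U_thm Pool.Agent.PT.Final.fSTM Pool.Agent.PT.Final.fSPP jIF4 jLCI

theorem jDCKU : Stmt_DCKU := DCKU_thm Pool.Agent.PT.Final.fSPP jDP1 jDP2 jDP3 jDP4U jSVF

theorem jDX1 : Stmt_DX1 := DX1_thm Pool.Agent.PT.Final.fSTM Pool.Agent.PT.Final.fSPP jIF4 jIF4B jF6R jF7U jLFV jLCI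

theorem jDX2 : Stmt_DX2 := DX2_thm Pool.Agent.PT.Final.fSLC Pool.Agent.PT.Final.fSSL jLCI jIF4

theorem jDX3 : Stmt_DX3 := DX3_thm Pool.Agent.PT.Final.fSTM Pool.Agent.PT.Final.fSPP jIF4 jF7U jLFV jLCI

theorem jDX4 : Stmt_DX4 := DX4_thm Pool.Agent.PT.Final.fSTM Pool.Agent.PT.Final.fSPP jIF4 jLCI

theorem jDXL : Stmt_DXL := DXL_thm Pool.Agent.PT.Final.fSPP jSVF jDX1 jDX2 jDX3 jDX4

theorem jMS1 : Stmt_MS1 := MS1_thm jDCKU jDXL jPT jPTX jZSU jZA Pool.Agent.PT3.Final.fLCL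

theorem jMTZ : Stmt_MTZ := MTZ_thm Pool.Agent.PT.Final.fCLSC Pool.Agent.PTE.Final.fCLSCS jMSY jMPZ jMS1 jBMZ

theorem jCLV : Stmt_CLV := CLV_thm Pool.Agent.PTN.Final.fNHPT jPLE Pool.Agent.PTN.Final.fDLU Pool.Agent.PTN.Final.fSMT jPAT jZPV jNBX jMTZ jESZ

theorem jCAV : Stmt_CAV := CAV_thm Pool.Agent.PT.Final.fSPP jCLV Pool.Agent.PTN.Final.fCLU Pool.Agent.PTN.Final.fDOMG Pool.Agent.PTN.Final.fLAW

theorem jCBV : Stmt_CBV := CBV_thm jCLV Pool.Agent.PTN.Final.fCLU Pool.Agent.PTN.Final.fCLT Pool.Agent.PT.Final.fSPP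

theorem jALV : Stmt_ALV := ALV_thm jCAV jCBV Pool.Agent.PTN.Final.fLAW Pool.Agent.PTN.Final.fSUMA Pool.Agent.PTN.Final.fNDIM Pool.Agent.PTN.Final.fNSUM Pool.Agent.PTN.Final.fNZER Pool.Agent.PTN.Final.fNSU1 Pool.Agent.PTN.Final.fNZE1

theorem jMAW : Stmt_MAW := MAW_thm jFB jEKN jAWF jMTL jGMB jALV Pool.Agent.PTN.Final.fNFE Pool.Agent.PTN.Final.fNDIM Pool.Agent.PTN.Final.fNSUM Pool.Agent.PTN.Final.fNZER Pool.Agent.PTN.Final.fNSU1 Pool.Agent.PTN.Final.fNZE1 Pool.Agent.PTN.Final.fNZE0 Pool.Agent.PTN.Final.fALLQ Pool.Agent.PTN.Final.fTRU Pool.Agent.PTN.Final.fTRC Pool.Agent.PTN.Final.fCLN Pool.Agent.PTN.Final.fCLU Pool.Agent.PTN.Final.fSUMA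

end Pool.Agent.PTK.FinalW
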