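import Pool.Agent.PTN.Final
import Pool.Agent.PTK.Final
import Pool.Agent.PTK.UPS
import Pool.Agent.PTK.PLE
import Pool.Agent.PTK.ZBA
import Pool.Agent.PTK.NG2
import Pool.Agent.PTK.NM2
import Pool.Agent.PTK.HN2
import Pool.Agent.PTK.MSF
import Pool.Agent.PTK.CNM
import Pool.Agent.PTK.AVE
import Pool.Agent.PTK.LFE
import Pool.Agent.PTK.SAE
import Pool.Agent.PTK.LMC
import Pool.Agent.PTK.RAE
import Pool.Agent.PTK.TAE
import Pool.Agent.PTK.THE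
import Pool.Agent.PTK.CHE
import Pool.Agent.PTK.F2E
import Pool.Agent.PTK.F3E
import Pool.Agent.PTK.F4E
import Pool.Agent.PTK.LAE
import Pool.Agent.PTK.TLE
import Pool.Agent.PTK.LEE
import Pool.Agent.PTK.TPE
import Pool.Agent.PTK.ZKE
import Pool.Agent.PTK.ZSU
import Pool.Agent.PTK.WSB
import Pool.Agent.PTK.LRR
import Pool.Agent.PTK.PTX
import Pool.Agent.PTK.KN1
import Pool.Agent.PTK.LKN
import Pool.Agent.PTK.PTY
import Pool.Agent.PTK.ZKQ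
import Pool.Agent.PTK.KUM
import Pool.Agent.PTK.MSP
import Pool.Agent.PTK.DE2
import Pool.Agent.PTK.ZS2
import Pool.Agent.PTK.MZF
import Pool.Agent.PTK.MKU
import Pool.Agent.PTK.MC1
import Pool.Agent.PTK.MC2
import Pool.Agent.PTK.MAL
import Pool.Agent.PTK.BM2
import Pool.Agent.PTK.MD2
import Pool.Agent.PTK.JD2
import Pool.Agent.PTK.FL2
import Pool.Agent.PTK.PLU
import Pool.Agent.PTK.WGU
import Pool.Agent.PTK.NBU
import Pool.Agent.PTK.NBX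
import Pool.Agent.PTK.PAT
import Pool.Agent.PTK.ZPV
import Pool.Agent.PTK.ESR
import Pool.Agent.PTK.ESZ
import Pool.Agent.PTK.MSPU
import Pool.Agent.PTK.DE1
import Pool.Agent.PTK.ZS1
import Pool.Agent.PTK.GTU
import Pool.Agent.PTK.GFKU
import Pool.Agent.PTK.MAU
import Pool.Agent.PTK.DNS1
import Pool.Agent.PTK.BMU
import Pool.Agent.PTK.MDU
import Pool.Agent.PTK.JDG
import Pool.Agent.PTK.MPZ
import Pool.Agent.PTK.GTZ
import Pool.Agent.PTK.GFZ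
import Pool.Agent.PTK.MAZ
import Pool.Agent.PTK.BMZ
import Pool.Agent.PTK.MDZ
import Pool.Agent.PTK.JDZ
import Pool.Agent.PTK.FL1
import Pool.Agent.PTK.UPA
import Pool.Agent.PTK.UPL
import Pool.Agent.PTK.FB
import Pool.Agent.PTK.LAM
import Pool.Agent.PTK.ESB
import Pool.Agent.PTK.EKN
import Pool.Agent.PTK.AWF
import Pool.Agent.PTK.MTL
import Pool.Agent.PTK.GMB
import Pool.Agent.PTK.MSY
import Pool.Agent.PTK.DP4U
import Pool.Agent.PTK.DCKU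
import Pool.Agent.PTK.DX1
import Pool.Agent.PTK.DX2
import Pool.Agent.PTK.DX3
import Pool.Agent.PTK.DX4
import Pool.Agent.PTK.DXL
import Pool.Agent.PTK.MS1
import Pool.Agent.PTK.MTZ
import Pool.Agent.PTK.CLV
import Pool.Agent.PTK.CAV
import Pool.Agent.PTK.CBV
import Pool.Agent.PTK.ALV
import Pool.Agent.PTK.MAW

/-!
# The average rank of prime twists: assembly
-/

set_option autoImplicit false

namespace Pool.Agent.PTK.FinalZ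

open Pool.Agent.PT Pool.Agent.PT.Final Pool.Agent.PT.FinalB Pool.Agent.PTE Pool.Agent.PTE.Final
open Pool.Agent.PT3 Pool.Agent.PT3.Final Pool.Agent.PTN Pool.Agent.PTN.Final Pool.Agent.PTK Pool.Agent.PTK.Final

theorem fUPS : Stmt_UPS := UPS_thm

theorem fPLE : Stmt_PLE := PLE_thm fNBAS fESYT

theorem fZBA : Stmt_ZBA := ZBA_thm fVDIM

theorem fNG2 : Stmt_NG2 := NG2_thm fSPP fSSL fSREC fSLC fLCI fNAUX

theorem fNM2 : Stmt_NM2 := NM2_thm fSTM fSPP fSSL fSLC fHERBQ fSUN fNRK fNHN fNTR fNCN fNFX fNHO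
  fNNS fNG2

theorem fHN2 : Stmt_HN2 := HN2_thm fNFL fNM2 fNDS

theorem fMSF : Stmt_MSF := MSF_thm fHNE fHN2 fZA fZI fZL fZT fSSL fSREC fSCJ fSPP

theorem fCNM : Stmt_CNM := CNM_thm

theorem fAVE : Stmt_AVE := AVE_thm fSTM fSPP fSLC

theorem fLFE : Stmt_LFE := LFE_thm fAVE fSTM fSPP fSSL

theorem fSAE : Stmt_SAE := SAE_thm fSTM fSPP fLCI fIF4 fF6R fF7U fSVF

theorem fLMC : Stmt_LMC := LMC_thm fSSL fSLC fSREC fSCJ fLCL fLCI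

theorem fRAE : Stmt_RAE := RAE_thm fAVE fIIA fIF2 fSAE fLMC fLCI fSSL fSLC fSCJ fLCL

theorem fTAE : Stmt_TAE := TAE_thm fAVE fLFE fRAE fLCI fSTM fSPP fSLC

theorem fTHE : Stmt_THE := THE_thm fAVE fLMC fLCI fSTM fSPP fSSL fSLC

theorem fCHE : Stmt_CHE := CHE_thm fTAE fTHE fSTM fSPP

theorem fF2E : Stmt_F2E := F2E_thm fSTM fSPP fLCI fIF2

theorem fF3E : Stmt_F3E := F3E_thm fSTM

theorem fF4E : Stmt_F4E := F4E_thm

theorem fLAE : Stmt_LAE := LAE_thm fAVE fF2E fF3E fF4E fIF1 fLCI fSTM fSPP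

theorem fTLE : Stmt_TLE := TLE_thm fAVE fLAE fLFE fLMC fIF1 fLCI fSSL fSLC

theorem fLEE : Stmt_LEE := LEE_thm fAVE fF2E fF3E fF4E fSTM fSPP fLCI fIF1 fIF4 fIF4B fF6R fF7U
  fLFV

theorem fTPE : Stmt_TPE := TPE_thm fAVE fLEE fLFE fLMC fIIA fIF2 fIF4 fSVF fLCI fSSL fSLC

theorem fZKE : Stmt_ZKE := ZKE_thm fCHE fTLE fTPE fSTM fSPP

theorem fZSU : Stmt_ZSU := ZSU_thm fSTM fSPP fSSL fSCJ fLCL fZA fZC

theorem fWSB : Stmt_WSB := WSB_thm fZA fS1G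

theorem fLRR : Stmt_LRR := LRR_thm fLCL

theorem fPTX : Stmt_PTX := PTX_thm fLRR fSSL fSLC fSCJ fLCL

theorem fKN1 : Stmt_KN1 := KN1_thm fSLC

theorem fLKN : Stmt_LKN := LKN_thm fSSL fSREC

theorem fPTY : Stmt_PTY := PTY_thm fKN1 fLKN fLMC fLCI fLRR fSSL fSLC fSCJ fLCL

theorem fZKQ : Stmt_ZKQ := ZKQ_thm fSPP fSSL fSLC fLCL fZKE fZS fZSU fZA fZL fWSB fVDIM fPT fPTX
  fPTY fLCI

theorem fKUM : Stmt_KUM := KUM_thm fDOMG fLAW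

theorem fMSP : Stmt_MSP := MSP_thm fDCOT fTENT fNADT

theorem fDE2 : Stmt_DE2 := DE2_thm fAVE fLCI fSTM fSPP fSLC

theorem fZS2 : Stmt_ZS2 := ZS2_thm fDE2 fZS fZA fSTM fSPP

theorem fMZF : Stmt_MZF := MZF_thm

theorem fMKU : Stmt_MKU := MKU_thm Pool.Agent.PT.Final.fKUM

theorem fMC1 : Stmt_MC1 := MC1_thm fMKU

theorem fMC2 : Stmt_MC2 := MC2_thm fMKU

theorem fMAL : Stmt_MAL := MAL_thm fMZF fGCHI fGTG fGFRG fGTK fGFK fMC1 fMC2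

theorem fBM2 : Stmt_BM2 := BM2_thm fLCI fEQX fMAL fDNS

theorem fMD2 : Stmt_MD2 := MD2_thm fCLSC fMSP fZS2 fBM2

theorem fJD2 : Stmt_JD2 := JD2_thm fUPS fKUM fMD2 fZKQ fCNM

theorem fFL2 : Stmt_FL2 := FL2_thm fUPS fPLE fZBA fMSF fCNM fNBW fZKQ fJD2

theorem fPLU : Stmt_PLU := PLU_thm fESYT

theorem fWGU : Stmt_WGU := WGU_thm fSTM fSPP fSSL fSCJ fLCL fNVEC fNKIN fZA fZSU fS1G

theorem fNBU : Stmt_NBU := NBU_thm fKID fNKIN fNADU fNPLU fTENT fSPP fSPLT fWGU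

theorem fNBX : Stmt_NBX := NBX_thm fKID fNKIN fNADU fNPLU fTENT fSPP fSPLT fWGU

theorem fPAT : Stmt_PAT := PAT_thm

theorem fZPV : Stmt_ZPV := ZPV_thm fSPLT fSPP

theorem fESR : Stmt_ESR := ESR_thm

theorem fESZ : Stmt_ESZ := ESZ_thm fESR

theorem fMSPU : Stmt_MSPU := MSPU_thm fDCOU fTENT fNADU fSPLT

theorem fDE1 : Stmt_DE1 := DE1_thm fAVE fLCI fSTM fSPP fSLC

theorem fZS1 : Stmt_ZS1 := ZS1_thm fDE1 fZSU fZA fSPP

theorem fGTU : Stmt_GTU := GTU_thm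

theorem fGFKU : Stmt_GFKU := GFKU_thm fSPP fSCJ fSPLT

theorem fMAU : Stmt_MAU := MAU_thm fMZF fGCHI fGTS fGKUM fGFRU fGTU fGFKU fMC1 fMC2

theorem fDNS1 : Stmt_DNS1 := DNS1_thm fDIR

theorem fBMU : Stmt_BMU := BMU_thm fSPP fSPLT fLCI fEQX fMAU fDNS1

theorem fMDU : Stmt_MDU := MDU_thm fCLSC fCLSCS fMSPU fZS1 fBMU

theorem fJDG : Stmt_JDG := JDG_thm fUPS fKUM fMDU fZKQ fCNM

theorem fMPZ : Stmt_MPZ := MPZ_thm fDCOU fTENT fNADU fSPLT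

theorem fGTZ : Stmt_GTZ := GTZ_thm

theorem fGFZ : Stmt_GFZ := GFZ_thm fSPLT

theorem fMAZ : Stmt_MAZ := MAZ_thm fMZF fMC1 fMC2 fGTZ fGFZ fGTU fGFKU fGCHI fGKUM

theorem fBMZ : Stmt_BMZ := BMZ_thm fSPP fSPLT fLCI fEQX fMAZ fDNS1

theorem fMDZ : Stmt_MDZ := MDZ_thm fCLSC fCLSCS fMPZ fZS1 fBMZ

theorem fJDZ : Stmt_JDZ := JDZ_thm fUPS fKUM fMDZ fZKQ fCNM

theorem fFL1 : Stmt_FL1 := FL1_thm fUPS fNHPT fPLU fPLE fNBU fNBX fPAT fZPV fESZ fZBA fMSF fCNM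
  fZKQ fJDG fJDZ

theorem fUPA : Stmt_UPA := UPA_thm fSPP

theorem fUPL : Stmt_UPL := UPL_thm

theorem fFB : Stmt_FB := FB_thm fFL2 fFL1 fUPA fUPL fCLT fCLN fCLU fSPP

theorem fLAM : Stmt_LAM := LAM_thm

theorem fESB : Stmt_ESB := ESB_thm fESR

theorem fEKN : Stmt_EKN := EKN_thm fLAM fESB fLAW

theorem fAWF : Stmt_AWF := AWF_thm fSUMA fFB fEKN

theorem fMTL : Stmt_MTL := MTL_thm

theorem fGMB : Stmt_GMB := GMB_thm

theorem fMSY : Stmt_MSY := MSY_thm fSPP fLCI fHNE fZA fZI fZL fZT fVDIM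

theorem fDP4U : Stmt_DP4U := DP4U_thm fSTM fSPP fIF4 fLCI

theorem fDCKU : Stmt_DCKU := DCKU_thm fSPP fDP1 fDP2 fDP3 fDP4U fSVF

theorem fDX1 : Stmt_DX1 := DX1_thm fSTM fSPP fIF4 fIF4B fF6R fF7U fLFV fLCI

theorem fDX2 : Stmt_DX2 := DX2_thm fSLC fSSL fLCI fIF4

theorem fDX3 : Stmt_DX3 := DX3_thm fSTM fSPP fIF4 fF7U fLFV fLCI

theorem fDX4 : Stmt_DX4 := DX4_thm fSTM fSPP fIF4 fLCI

theorem fDXL : Stmt_DXL := DXL_thm fSPP fSVF fDX1 fDX2 fDX3 fDX4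

theorem fMS1 : Stmt_MS1 := MS1_thm fDCKU fDXL fPT fPTX fZSU fZA fLCL

theorem fMTZ : Stmt_MTZ := MTZ_thm fCLSC fCLSCS fMSY fMPZ fMS1 fBMZ

theorem fCLV : Stmt_CLV := CLV_thm fNHPT fPLE fDLU fSMT fPAT fZPV fNBX fMTZ fESZ

theorem fCAV : Stmt_CAV := CAV_thm fSPP fCLV fCLU fDOMG fLAW

theorem fCBV : Stmt_CBV := CBV_thm fCLV fCLU fCLT fSPP

theorem fALV : Stmt_ALV := ALV_thm fCAV fCBV fLAW fSUMA fNDIM fNSUM fNZER fNSU1 fNZE1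

theorem fMAW : Stmt_MAW := MAW_thm fFB fEKN fAWF fMTL fGMB fALV fNFE fNDIM fNSUM fNZER fNSU1 fNZE1
  fNZE0 fALLQ fTRU fTRC fCLN fCLU fSUMA

end Pool.Agent.PTK.FinalZ
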