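import Pool.Agent.PTK.StC

/-!
# Check of the hand-in `PrimeTwistAverage` (from `Stmt_MAI` as a hypothesis)
-/

set_option autoImplicit false

namespace Pool.Agent.PTK.HandinCheck

/-- The curve `y² = x³ - 432 A²`; it is the curve `X³ + Y³ = A` in the coordinates
`x = 12 A / (X + Y)`, `y = 36 A (X - Y) / (X + Y)`. -/
def C (A : ℤ) : WeierstrassCurve ℚ where
  a₁ := 0
  a₂ := 0
  a₃ := 0
  a₄ := 0
  a₆ := -432 * (A : ℚ) ^ 2

/-- The group `C_A(ℚ)` is generated by at most `n` points. -/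
def RankLE (A : ℤ) (n : ℕ) : Prop :=
  ∃ s : Finset (C A).toAffine.Point, s.card ≤ n ∧
    AddSubgroup.closure (s : Set (C A).toAffine.Point) = ⊤

/-- `r(A)`, the least size of a generating set of `C_A(ℚ)`. -/
noncomputable def r (A : ℤ) : ℕ := sInf {n : ℕ | RankLE A n}

open Classical in
/-- The sum of `F(A) / q ^ σ` over the pairs `(q, e)` with `e = 1, 2`, `q` in the finite set `T`, `q` prime,
`q ≡ 2 (mod 3)`, for which `q ^ e` has the property `W`; `A = n q ^ e`. -/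
noncomputable def Sum (n : ℤ) (W : ℤ → Prop) (F : ℤ → ℝ) (σ : ℝ) (T : Finset ℕ) : ℝ :=
  ∑ e ∈ ({1, 2} : Finset ℕ), ∑ q ∈ T,
    if q.Prime ∧ q % 3 = 2 ∧ W (q ^ e) then F (n * q ^ e) * (q : ℝ) ^ (-σ) else 0

/-- The sum of `F(A)` over these `A = n q ^ e` is at most `x` times `log (1 / (σ - 1))`, up to a constant. -/
def Above (n : ℤ) (W : ℤ → Prop) (F : ℤ → ℝ) (x : ℝ) : Prop :=
  ∃ K : ℝ, ∀ σ : ℝ, 1 < σ → σ ≤ 2 → ∀ T : Finset ℕ, Sum n W F σ T ≤ x * Real.log (1 / (σ - 1)) + K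

/-- `y ≡ u x³ (mod 9 n)` for some `x` -/
def Cl (n : ℕ) (u : (ZMod (9 * n))ˣ) (y : ℤ) : Prop :=
  ∃ x : ℤ, ((9 * n : ℕ) : ℤ) ∣ y - ((u : ZMod (9 * n)).val : ℤ) * x ^ 3

open Pool.Agent.PTN in
open Classical in
theorem tail {n : ℤ} {x : ℝ} (h : Above n (fun _ => True) (fun A => √3 ^ r A) x) (t : ℕ) :
    Above n (fun _ => True) (fun A => if t ≤ r A then 1 else 0) (x / √3 ^ t) := by
  obtain ⟨K, hK⟩ := h
  have h3 : (0 : ℝ) < √3 ^ t := by positivity
  have h1' : (1 : ℝ) ≤ √3 := by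
    rw [Real.one_le_sqrt]
    norm_num
  refine ⟨K / √3 ^ t, fun σ h1 h2 T => ?_⟩
  have key : √3 ^ t * Sum n (fun _ => True) (fun A => if t ≤ r A then 1 else 0) σ T ≤
      Sum n (fun _ => True) (fun A => √3 ^ r A) σ T := by
    unfold Sum
    rw [Finset.mul_sum]
    refine Finset.sum_le_sum fun e _ => ?_
    rw [Finset.mul_sum]
    refine Finset.sum_le_sum fun q _ => ?_
    have hq : (0 : ℝ) ≤ (q : ℝ) ^ (-σ) := Real.rpow_nonneg (Nat.cast_nonneg q) _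
    by_cases c1 : q.Prime ∧ q % 3 = 2 ∧ True
    · rw [if_pos c1, if_pos c1]
      by_cases c2 : t ≤ r (n * (q : ℤ) ^ e)
      · simp only [if_pos c2, one_mul]
        exact mul_le_mul_of_nonneg_right (pow_le_pow_right₀ h1' c2) hq
      · simp only [if_neg c2, zero_mul, mul_zero]
        positivity
    · rw [if_neg c1, if_neg c1, mul_zero]
  have h4 := hK σ h1 h2 T
  have h5 : √3 ^ t * Sum n (fun _ => True) (fun A => if t ≤ r A then 1 else 0) σ T ≤
      √3 ^ t * (x / √3 ^ t * Real.log (1 / (σ - 1)) + K / √3 ^ t) := by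
    refine key.trans (h4.trans (le_of_eq ?_))
    field_simp
  exact le_of_mul_le_mul_left h5 h3

open Classical in
/-- Let `n` be cube-free, with `m` prime factors `≡ 1 (mod 3)`. Let `A = n q ^ e` with `q ≡ 2 (mod 3)` prime and
`e ∈ {1, 2}`; the weight of `A` is `q ^ -σ`, and the total weight is `log (1 / (σ - 1))`; the `A` with `q ^ e` in the
class `u`, i.e. `q ^ e ≡ u x³ (mod 9 n)` for some `x`, have total weight `log (1 / (σ - 1)) / 3 ^ (m + 1)`. -/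
theorem result (hMAI : Pool.Agent.PTK.Stmt_MAI)
    (hGEN : ∀ n : ℕ, 0 < n → (∀ p : ℕ, p.Prime → ¬ p ^ 3 ∣ n) →
      ∃ M : ℕ, ∀ q e : ℕ, q.Prime → M < q → (e = 1 ∨ e = 2) → RankLE (n * q ^ e) (r (n * q ^ e)))
    (n : ℕ) (hn : 0 < n) (hcf : ∀ p : ℕ, p.Prime → ¬ p ^ 3 ∣ n) (m : ℕ)
    (hm : m = (n.primeFactors.filter (fun p => p % 3 = 1)).card) :
    -- all `A`
    Above n (fun _ => True) (fun A => r A) (26 / 9) ∧
    Above n (fun _ => True) (fun A => √3 ^ r A) (28 / 5) ∧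
    (∀ t : ℕ, Above n (fun _ => True) (fun A => if t ≤ r A then 1 else 0) (28 / 5 / √3 ^ t)) ∧
    -- the classes
    (∀ u : (ZMod (9 * n))ˣ, Above n (Cl n u) (fun A => r A) (10 / 3 / 3 ^ (m + 1)) ∧
      Above n (Cl n u) (fun A => √3 ^ r A) (104 / 15 / 3 ^ (m + 1))) ∧
    -- the groups are generated by `r(A)` points for all large `q`
    ∃ M : ℕ, ∀ q e : ℕ, q.Prime → M < q → (e = 1 ∨ e = 2) → RankLE (n * q ^ e) (r (n * q ^ e)) := by
  obtain ⟨h1, h2, h3⟩ := hMAI n hn hcf m hm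
  exact ⟨h1, h2, tail h2, h3, hGEN n hn hcf⟩

end Pool.Agent.PTK.HandinCheck
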