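import Pool.Agent.PTK.StG
import Pool.Agent.PTN.StF
import Pool.Agent.PTN.NPSI

/-!
# The average rank of prime twists: the classes

`B = BB h n E q = 3^h n q^E`, `n` in normal form, `q = 2 (mod 3)` a large prime, `q^E` in the class `(w0, c)`.
The classes of the rational points of `X³ + Y³ = B` in the minus part are `zN π e y`, `y ∈ VS h n π p e r w0 c`
(`PTN/StA.lean`: read the definitions of `Nm`, `VS`, `actR`, `SelM`, `InCT`; `PTN/NPSI.lean`).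
-/

set_option autoImplicit false

open NumberField IsDedekindDomain Finset
open scoped nonZeroDivisors Pointwise

namespace Pool.Agent.PTK

open Pool.Agent.Lib_helper18 Pool.Agent.Lib_helper18.Eis Pool.Agent.Lib_helper84.Cub
open Pool.Agent.PT Pool.Agent.PTE Pool.Agent.PT3 Pool.Agent.PTL Pool.Agent.PTN

/-- The class of the minus part with the vector `y`. -/
noncomputable def zN {m : ℕ} (π : Fin m → PP) (e : Fin m → ℕ) (y : Fin (m + 1) → ZMod 3) : Eis :=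
  w ^ (- y 0).val * ∏ i, ((π i).1 ^ ((e i : ZMod 3) * y i.succ).val *
    conj (π i).1 ^ (2 * ((e i : ZMod 3) * y i.succ)).val)

/-- The classes of `VS` that are local cubes at `λ` (see `ZL`). -/
def V0 (h n : ℕ) {m k : ℕ} (π : Fin m → PP) (p e : Fin m → ℕ) (r : Fin k → ℕ)
    (w0 : ZMod 3) (c : Fin m → ZMod 3) : Submodule (ZMod 3) (Fin (m + 1) → ZMod 3) where
  carrier := {y | y ∈ VS h n π p e r w0 c ∧ y 0 = 0 ∧
    ∑ i : Fin m, y i.succ * ((e i : ZMod 3) * sym (π i).1 3) = 0}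
  add_mem' := by
    rintro u v ⟨h1, h2, h3⟩ ⟨g1, g2, g3⟩
    refine ⟨add_mem h1 g1, by rw [Pi.add_apply, h2, g2, add_zero], ?_⟩
    simp only [Pi.add_apply, add_mul, Finset.sum_add_distrib]
    rw [h3, g3, add_zero]
  zero_mem' := ⟨zero_mem _, rfl, by simp⟩
  smul_mem' := by
    rintro t u ⟨h1, h2, h3⟩
    refine ⟨Submodule.smul_mem _ t h1, by rw [Pi.smul_apply, h2, smul_zero], ?_⟩
    simp only [Pi.smul_apply, smul_eq_mul, mul_assoc]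
    rw [← Finset.mul_sum, h3, mul_zero]

/-- the dimension of `V0` -/
noncomputable def v0N (h n : ℕ) {m k : ℕ} (π : Fin m → PP) (p e : Fin m → ℕ) (r : Fin k → ℕ)
    (w0 : ZMod 3) (c : Fin m → ZMod 3) : ℕ := Module.finrank (ZMod 3) (V0 h n π p e r w0 c)

open Classical in
/-- the bound for the codimension of `V0` in `VS` -/
noncomputable def dN (h n : ℕ) (w0 : ZMod 3) : ℕ :=
  if h = 1 then 0 else if h = 0 ∧ wt ((n : ℤ) ^ 2) + w0 = 0 then 2 else 1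

/-- PTK_VDIM: the codimension of `V0`.
Proof. `V0` is the kernel of a linear map on `VS` with image of dimension at most `dN`
(`LinearMap.finrank_range_add_finrank_ker`). `h = 1`: on `VS`, `y 0 = 0` (`actR` is false: `h = 2` or `h = 0`), and the
condition of the column `inl 0` (active, `h ≠ 0`) is `y 0 (..) + ∑ y i.succ (e i sym (π i) 3) = 0`; so
`V0 = VS`. `h = 2`: by this column the second condition follows from `y 0 = 0`. `h = 0` and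
`wt (n²) + w0 ≠ 0`: `actR` is false, so `y 0 = 0` on `VS`. -/
def Stmt_VDIM : Prop := ∀ (h n m k : ℕ) (π : Fin m → PP) (p e : Fin m → ℕ) (r : Fin k → ℕ)
  (w0 : ZMod 3) (c : Fin m → ZMod 3), h ≤ 2 →
  vN h n π p e r w0 c ≤ v0N h n π p e r w0 c + dN h n w0

/-! ### The elements `zN` -/

/-- PTK_ZA: general properties of `zN`.
Proof. `π i` and `conj (π i)` are primes, not associated to each other nor to another `π j`,
`conj (π j)`, nor to `λ` (`NF`; see `HYPT.dat`, `not_assoc`, `assoc_iff` used in PTN/NPSI.lean).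
`z conj z = ∏ (π conj π)^(a + b)`, `a = g.val`, `b = (2 g).val`, `3 ∣ a + b`, and `w conj w = 1`. `V (π i) z = g i`, `V (conj (π i)) z =
(2 g i).val`. `yv`: `e i (e i y i.succ) = y i.succ` (`e i = 1, 2`); `- sl z 4 = y 0`: `sl` is additive in the first
variable, `sl (π i) 4 = 0`, `sl (conj (π i)) 4 = 0` (`SREC`, first part: `π i` and `4` are primary),
`sl w 4 = - lw 4 = 1` (`LCL`, `HYPT.lw_four`). Additivity: both sides have exponents that are congruent modulo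
`3`. Cube: if `zN y` is a cube then `yv = 0`, so `y = 0`. -/
def Stmt_ZA : Prop := ∀ (n m k : ℕ) (π : Fin m → PP) (p e : Fin m → ℕ) (r f : Fin k → ℕ),
  NF n π p e r f → ∀ y : Fin (m + 1) → ZMod 3,
  zN π e y ≠ 0 ∧ ¬ lam ∣ zN π e y ∧ (∃ t : Eis, zN π e y * conj (zN π e y) = t ^ 3) ∧
  (∀ σ : PP, ¬ σ.1 ∣ (n : Eis) → ¬ σ.1 ∣ zN π e y) ∧ (∀ σ : PP, V σ.1 (zN π e y) ≤ 2) ∧
  (∀ σ : PP, σ.1 ∣ zN π e y → ∃ i, y i.succ ≠ 0 ∧ (σ = π i ∨ σ.1 = conj (π i).1)) ∧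
  (∀ i : Fin m, y i.succ ≠ 0 → (π i).1 ∣ zN π e y ∧ conj (π i).1 ∣ zN π e y) ∧
  NPSI.yv π e (zN π e y) = y ∧
  (∀ y' : Fin (m + 1) → ZMod 3, ∃ g g' : Eis, g ≠ 0 ∧ g' ≠ 0 ∧
    zN π e y * zN π e y' * g ^ 3 = zN π e (y + y') * g' ^ 3) ∧
  ((∃ t : Eis, t ^ 3 = zN π e y) → y = 0)

/-- PTK_ZI: independence.
Proof. `ZA` (additivity, by induction): `∏ zN (Y i) ^ c i` is `zN (∑ c i Y i)` up to cubes; a cube only if
`∑ c i Y i = 0` (last part of `ZA`: if `zN y g³ = t³ g'³`… then `zN y` is a cube: `g³ ∣ (t g')³`, so `g ∣ t g'`). -/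
def Stmt_ZI : Prop := ∀ (n m k : ℕ) (π : Fin m → PP) (p e : Fin m → ℕ) (r f : Fin k → ℕ),
  NF n π p e r f → ∀ (s : ℕ) (Y : Fin s → Fin (m + 1) → ZMod 3) (c : Fin s → ℕ),
  (∃ t : Eis, t ^ 3 = ∏ i, zN π e (Y i) ^ c i) → ∑ i, (c i : ZMod 3) • Y i = 0

/-- PTK_ZL: the classes of `V0` are local cubes at `λ`.
Proof. `z = zN π e y`, `y 0 = 0`: no factor `w`; the `π i`, `conj (π i)` are primary (`Prim`), so `z` is, up to sign,
`a + b w` with `3 ∣ b`, `3 ∤ a`. `sl z 4 = 0` (`ZA`). `sl z 3 = 0`: product formula `SSL` for `(z, 3)`: `tm σ z 3 = - V z sym σ 3`, at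
`π i` and `conj (π i)` together `- g sym (π i) 3 - 2 g sym (conj (π i)) 3 = - g sym (π i) 3 + 2 g sym (π i) 3 =
g sym (π i) 3`, `g = e i y i.succ` (`sym (conj π) 3 = - sym π 3`), so `sl z 3 = - ∑ = 0`. By `SREC`:
`sl z 3 = sl z (-1) + 2 sl z w + 2 sl z λ = 2 wt (N z) + 4 wt (a²)`, and `N z = t t'` is a cube of an integer
(`z conj z = t³`; `N t`…: `N z² = N(t)³`, and `N z` is an integer, so a cube), so `wt (N z) = 0` (`N z = ± 1`
modulo `9`) and `wt (a²) = 0`, `a = ± 1` modulo `9`; `N z = a² - a b + b² = 1 ∓ b` modulo `9` (`b² = 0`), `= ± 1`, and `3 ∣ b`, so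
`9 ∣ b`. `9 = w λ⁴`, so `λ⁴ ∣ z ∓ 1`. -/
def Stmt_ZL : Prop := ∀ (n m k : ℕ) (π : Fin m → PP) (p e : Fin m → ℕ) (r f : Fin k → ℕ),
  NF n π p e r f → ∀ y : Fin (m + 1) → ZMod 3, y 0 = 0 →
  ∑ i : Fin m, y i.succ * ((e i : ZMod 3) * sym (π i).1 3) = 0 → lam ^ 4 ∣ zN π e y ^ 2 - 1

/-- PTK_ZC: the symbols of the classes of `VS` (checked numerically).
Proof. `z = zN π e y`, `g i = e i y i.succ`; `V (π i) z = g i`, `V (conj (π i)) z = 2 g i` (modulo `3`, `ZA`). Product formula (`SSL`;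
`NPSI.lean: yv_mem`, which is the converse computation) for `(z, x)`, `x` a rational integer prime to `3` and to all `p i`, or
`x = p i'`: the terms at `σ` and `conj σ` are equal because `tm (conj σ) z x = - tm σ (conj z) x` (`SCJ`, `conj x = x`) and
`conj z = t³ / z` (`ZA`), so `tm (conj σ) z x = tm σ z x`; hence `2 ∑_i tm (π i) z x + ∑_j tm (r j) z x + sl z x = 0`, where
`sl z x = - lw x sl z 4 = lw x y 0` (`HYPT.sl_int`, `lv x = 0`; `ZA`), `lw x = wt (x²)`.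
`x = p i'`: `tm (π i) z x = - g i sym (π i) (p i')` for `i ≠ i'`, `tm (π i') z x = ch (π i') z - g i' sym (π i') (conj (π i'))` (`V (π i') x = 1`,
`ch (π i') x = sym (π i') (conj (π i'))`), `tm (r j) z x = 0` (`V z = V x = 0`). With `2 = -1`:
`ch (π i') z = g i' sym (π i') (conj (π i')) + ∑_{i ≠ i'} g i sym (π i) (p i') + y 0 wt (p i'²)`.
The condition of the column `inl i'.succ` of `Nm` for `y ∈ VS` is
`y 0 wt (p i'²) + ∑_{i ≠ i'} g i sym (π i) (p i') + y i'.succ (e i' sym (π i') (conj (π i')) - ch (π i') (3^h n) - c i') = 0`,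
so `ch (π i') z = y i'.succ (ch (π i') (3^h n) + c i')`. Second part: the same formula for `(z, r j)`: at `ρ = r j` (`V ρ x = 1`,
`V ρ z = 0`) the term is `ch ρ z`, so `- ∑ (- g i sym (π i) (r j)) + ch ρ z + y 0 wt (r j²) = 0`, and the first and third terms
are the condition of the column `inr j`, `= 0`. -/
def Stmt_ZC : Prop := ∀ (h n m k : ℕ) (π : Fin m → PP) (p e : Fin m → ℕ) (r f : Fin k → ℕ)
  (w0 : ZMod 3) (c : Fin m → ZMod 3), NF n π p e r f → h ≤ 2 →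
  ∀ y ∈ VS h n π p e r w0 c,
    (∀ i, ch (π i).1 (zN π e y) = y i.succ * (ch (π i).1 ((3 ^ h * n : ℕ) : Eis) + c i)) ∧
    ∀ (j : Fin k) (ρ : PP), ρ.1 = (r j : Eis) → ch ρ.1 (zN π e y) = 0

/-- PTK_ZS: the classes of `VS` are in the minus part of the Selmer group of `B = BB h n E q`.
Proof. `z = zN π e y`. `tm σ z B`, `B = 3^h n q^E`: `σ = π i`: `V B = e i` (`HYPT.dat`), `ch B = ch (3^h n) + c i` (`InCT`),
`V z = e i y i.succ` (`ZA`), `ZC`: `tm = e i y (..) - e i y (..) = 0`; `σ = conj (π i)`: `tm (conj σ') z B = tm σ' z B` for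
rational `B` (`SCJ`, `conj z = t³ / z`); `σ = r j`: `V z = 0`, `ch z = 0`; `σ ∤ 3 n q`: `V z = V B = 0`; `σ = q`: product formula for
`(z, B)` (`SSL`): all other terms vanish, if `sl z B = 0`: `sl z B = lv B sl z 3 - lw B sl z 4` (`HYPT.sl_int`; `lv B = h`,
`lw B = wt (n²) + w0`, `HYPT.lvw`), `sl z 4 = - y 0`, and `sl z 3 = - ∑ g i sym (π i) 3` (product formula for `(z, 3)`, see `ZL`; for
`y 0 ≠ 0` too, since `sl w 3 = 0`, `lw 3 = 0`): `h = 0`: `sl z B = (wt (n²) + w0) y 0`, and `y 0 = 0` if `wt (n²) + w0 ≠ 0` (`actR`); `h = 1`: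
`y 0 = 0` and the column `inl 0` gives `∑ = 0`; `h = 2`: `2 sl z 3 + (..) y 0 = - 2 ∑ + (..) y 0 = ∑ + (..) y 0 = 0` by the
column `inl 0`. `SelM.lam`: `lv B = 1` means `h = 1`. -/
def Stmt_ZS : Prop := ∀ (h n m k : ℕ) (π : Fin m → PP) (p e : Fin m → ℕ) (r f : Fin k → ℕ)
  (w0 : ZMod 3) (c : Fin m → ZMod 3) (E q : ℕ), NF n π p e r f → h ≤ 2 →
  (E = 1 ∨ E = 2) → q.Prime → q % 3 = 2 → InCT E π w0 c q → ¬ q ∣ n →
  ∀ y ∈ VS h n π p e r w0 c, SelM (BB h n E q) (zN π e y)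

/-- PTK_ZT: the symbols of two classes of `VS`.
Proof. `z = zN π e y`, `z' = zN π e y'`. At `π i`: `V z = e i y i.succ`, `ch z = y i.succ β`, `β` the same for both (`ZC`), so
`tm z z' = e y' y β - e y y' β = 0`. At `conj (π i)`: `tm (conj σ) (conj z) (conj z') = - tm σ z z'` (`SCJ`), `conj z = t³ / z`. At the
other places `V z = V z' = 0`. Second part: `σ ∣ z'`, `ZA`: `σ = π i` or `conj (π i)` with `y' i.succ ≠ 0`; if `y i.succ ≠ 0` then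
`σ ∣ z` (`ZA`); otherwise `V σ z = 0` and `ch σ z = 0` (`ZC`; for `conj (π i)` by conjugation), so `z` is a local cube
(`Stmt_LCI`). -/
def Stmt_ZT : Prop := ∀ (h n m k : ℕ) (π : Fin m → PP) (p e : Fin m → ℕ) (r f : Fin k → ℕ)
  (w0 : ZMod 3) (c : Fin m → ZMod 3), NF n π p e r f → h ≤ 2 →
  ∀ y ∈ VS h n π p e r w0 c, ∀ y' ∈ VS h n π p e r w0 c,
    (∀ σ : PP, tm σ.1 (zN π e y) (zN π e y') = 0) ∧
    ∀ σ : PP, σ.1 ∣ zN π e y' → ¬ LCE σ.1 (zN π e y) → σ.1 ∣ zN π e y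

/-! ### The classes of the points -/

/-- `z` is, up to cubes, the class of a rational point (or of the point at infinity) -/
def Occ (B : ℤ) (z : Eis) : Prop :=
  ∃ ζ g g' : Eis, S1 B ζ ∧ g ≠ 0 ∧ g' ≠ 0 ∧ ζ * g ^ 3 = z * g' ^ 3

/-- the vectors of the classes of the points -/
def WqS (h n : ℕ) {m k : ℕ} (π : Fin m → PP) (p e : Fin m → ℕ) (r : Fin k → ℕ)
    (w0 : ZMod 3) (c : Fin m → ZMod 3) (B : ℤ) : Set (Fin (m + 1) → ZMod 3) :=
  {y | y ∈ VS h n π p e r w0 c ∧ Occ B (zN π e y)}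

/-- PTK_S1G: the classes of the points form a group.
Proof. Take `K`, `ι`, `c` from `KEX` (PTN/StG.lean; everything there is proved: `PTN/Final.lean`), `j` from `KEMB`.
For every `ζ` with `S1 B ζ` there is `P ∈ GA B` with `kap ι (j P) = ι ζ g³`, `g ≠ 0`: `P = 0` for `ζ = 1`, otherwise
`CubeRank.basics B _`, second part, and `KMI`. By `KAD`, `kap (j (P - P'))` is `ι ζ / ι ζ'` up to a cube (`KID.kap_sub` in
PTN/KID.lean). Conversely, `P - P' = 0` or it has coordinates (`basics`, first part, `B` cube-free), and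
`KMI` gives `ζ''`. `K` is the fraction field: an identity `ι a g³ = ι b g'³` with `g, g' ∈ K` nonzero gives one with `g, g'` in
`Eis` (`KF.frac`). -/
def Stmt_S1G : Prop := ∀ B : ℤ, B ≠ 0 → CubeRank.CubeFree B → (¬ ∃ n : ℤ, n ^ 3 = B) →
  ∀ ζ ζ' : Eis, S1 B ζ → S1 B ζ' →
  ∃ ζ'' g g' : Eis, S1 B ζ'' ∧ g ≠ 0 ∧ g' ≠ 0 ∧ ζ'' * ζ' * g ^ 3 = ζ * g' ^ 3

/-- PTK_WGR: the number of the vectors is a power of `3`; every class of a point has a vector.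
Proof. `WqS` is a subgroup of `VS`: `0` (`zN 0 = 1`, `S1 B 1`); for `y, y' ∈ WqS`, `ζ, ζ'`: `ζ''` from `S1G` is
`zN y / zN y' = zN (y - y')` up to cubes (`ZA`), so `y - y' ∈ WqS`. A subgroup of `(ZMod 3)^(m+1)` is a subspace
(`AddSubgroup.toZModSubmodule`), so its cardinality is a power of `3` (`Module.natCard_eq_pow_finrank`).
Second part: `S1 B ζ` implies `SelM B ζ` (`NKIN`; for `ζ = 1` clear), `y = NPSI.yv π e ζ ∈ VS` (`NPSI.yv_mem`), and `zN π e y` is in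
`SelM` (`ZS`) with the same vector (`ZA`), so `NPSI.yv_inj` gives `ζ g³ = zN y g'³`. -/
def Stmt_WGR : Prop := ∀ (h n m k : ℕ) (π : Fin m → PP) (p e : Fin m → ℕ) (r f : Fin k → ℕ)
  (w0 : ZMod 3) (c : Fin m → ZMod 3) (E q : ℕ), NF n π p e r f → h ≤ 2 →
  (E = 1 ∨ E = 2) → q.Prime → 3 < q → q % 3 = 2 → InCT E π w0 c q → ¬ q ∣ n →
  (∃ d : ℕ, Nat.card (WqS h n π p e r w0 c (BB h n E q)) = 3 ^ d) ∧
  ∀ ζ : Eis, S1 (BB h n E q) ζ → ∃ y ∈ WqS h n π p e r w0 c (BB h n E q),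
    ∃ g g' : Eis, g ≠ 0 ∧ g' ≠ 0 ∧ ζ * g ^ 3 = zN π e y * g' ^ 3

/-- PTK_PT: a class of a point that is not a cube gives a point of this class over `K`.
Proof. `ζ ≠ 1` (otherwise `x` is a cube: `g³ = x g'³`), so `ζ = a₁ a₂²` with `a₀ = x₀ + y₀`, `a₁ = w (x₀ + w y₀)`, `a₂ = w² (x₀ + w² y₀)`
(check: `w · w⁴ = w²` in `w² (x₀ + w y₀) (x₀ + w² y₀)²`), `a₀ + a₁ + a₂ = 0`, `a₀ a₁ a₂ = x₀³ + y₀³ = B z₀³`. With
`(X, Y) = (a₂, 1)`: `X³ + ζ Y³ = a₂² (a₂ + a₁) = - a₀ a₂²`, `ζ (X³ + ζ Y³) = - a₀ a₁ a₂ a₂³ = B (- z₀ a₂)³`. Transport: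
`ζ g³ = x g'³`: `(X', Y') = (g'² g X, g'³ Y)`, `c' = g' c g²`: `x (X'³ + x Y'³) = B c'³` (multiply out:
`x g'⁶ ((g X)³ + x g'³ Y³) = x g'⁶ g³ (X³ + ζ Y³)`, and `x g'³ = ζ g³`). Nonzero: `a₂ ≠ 0`, since
`a₀ a₁ a₂ ≠ 0`. -/
def Stmt_PT : Prop := ∀ (B : ℤ) (x : Eis), B ≠ 0 → x ≠ 0 → (¬ ∃ t : Eis, t ^ 3 = x) → Occ B x →
  ∃ X Y : Eis, PtE (B : Eis) x X Y

/-! ### The number of the primes with a given class -/

/-- PTK_SYK: the system for a vector `y` and independent vectors of `V0`.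
Proof. `x = zN π e y`, `b j = zN π e (u j)`. `HNE` for the base `b j` (`λ⁴ ∣ (b j)² - 1`: `ZL`; not a cube: `ZA`, `u j ≠ 0`) and the
norm `x` (`ZT`): `SolE (b j) x P Q P' Q'`, so `SolE x (b j) P (-P') (-Q) Q'`. `SysK.ind`: `ZI` and the independence. -/
def Stmt_SYK : Prop := ∀ (h n m k : ℕ) (π : Fin m → PP) (p e : Fin m → ℕ) (r f : Fin k → ℕ)
  (w0 : ZMod 3) (c : Fin m → ZMod 3), NF n π p e r f → h ≤ 2 →
  ∀ y ∈ VS h n π p e r w0 c, ∀ (s : ℕ) (u : Fin s → Fin (m + 1) → ZMod 3),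
  (∀ j, u j ∈ V0 h n π p e r w0 c) →
  LinearIndependent (ZMod 3) (Fin.cons y u : Fin (s + 1) → Fin (m + 1) → ZMod 3) →
  ∃ P Q P' Q' : Fin s → Eis, SysK (zN π e y) (fun j => zN π e (u j)) P Q P' Q' ∧
    ∀ j, HypD (3 ^ h * n) (zN π e (u j)) (zN π e y) (P j) (Q j) (P' j) (Q' j)

/-- the primes `q` such that `zN π e y` is the class of a point -/
def QY (h n : ℕ) {m : ℕ} (π : Fin m → PP) (e : Fin m → ℕ) (w0 : ZMod 3) (c : Fin m → ZMod 3)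
    (y : Fin (m + 1) → ZMod 3) (E : ℕ) : Set ℕ :=
  {q : ℕ | q % 3 = 2 ∧ InCT E π w0 c q ∧ Occ (BB h n E q) (zN π e y)}

/-- PTK_CTK: the number of the primes with a given class.
Proof. As `CLN_thm` (PTN/CLN.lean). `SYK`; `DCK` for every `j` with `N = 3^h n` gives `f₀ j`, for `f = 9 (∏ p i) ∏ f₀ j` the numbers
`C j`, the characters `Φ j`, `κ` from `CLSC`. For a large prime `q ∈ QY .. E`: `SelM B z` for the classes
(`ZS`) gives `tm σ z B = 0` and `sym q z = 0` (`V q B = E`, `V q z = 0`); the point over `K` from `PT`; a root `ξ` is arbitrary. So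
`C j + E (Φ j q - TAUE) = 0`: `q ∈ SPK` for `E = 1` (`TAUE = C + Φ`), `q ∈ SMK` for `E = 2` (`TAUE = - C + Φ`; the class of `q` is
`-(w0, c)`). `BDK`. (`(BB h n E q : Eis) = ((3^h n : ℕ) : Eis) (q : Eis)^E`.) -/
def Stmt_CTK : Prop := ∀ (h n m k : ℕ) (π : Fin m → PP) (p e : Fin m → ℕ) (r f : Fin k → ℕ)
  (w0 : ZMod 3) (c : Fin m → ZMod 3), NF n π p e r f → h ≤ 2 →
  ∀ y ∈ VS h n π p e r w0 c, ∀ (s : ℕ) (u : Fin s → Fin (m + 1) → ZMod 3),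
  (∀ j, u j ∈ V0 h n π p e r w0 c) →
  LinearIndependent (ZMod 3) (Fin.cons y u : Fin (s + 1) → Fin (m + 1) → ZMod 3) →
  ∃ K : ℝ, ∀ σ : ℝ, 1 < σ → σ ≤ 2 →
    BDENS.sm (QY h n π e w0 c y 1) σ + BDENS.sm (QY h n π e w0 c y 2) σ ≤
      1 / 3 ^ s / 3 ^ (m + 1) * Real.log (1 / (σ - 1)) + K

/-- PTK_LIN: completion to independent families (pure linear algebra).
Proof. A basis of `V`; for `y ∉ V` it is independent together with `y`; for `0 ≠ y ∈ V` extend `y` to a basis of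
`V` and drop `y`. -/
def Stmt_LIN : Prop := ∀ (M : ℕ) (V : Submodule (ZMod 3) (Fin M → ZMod 3)) (y : Fin M → ZMod 3),
  y ≠ 0 → ∃ (s : ℕ) (u : Fin s → Fin M → ZMod 3), (∀ j, u j ∈ V) ∧
    LinearIndependent (ZMod 3) (Fin.cons y u : Fin (s + 1) → Fin M → ZMod 3) ∧
    (y ∉ V → s = Module.finrank (ZMod 3) V) ∧ (y ∈ V → s + 1 = Module.finrank (ZMod 3) V)

open Classical in
/-- PTK_AVW: the average of the number of the classes.
Proof. `Nat.card WqS = ∑ y ∈ VS, if Occ .. then 1 else 0`. So the sum is at most the sum over `y ∈ VS` of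
`sm (QY .. y 1) σ + sm (QY .. y 2) σ` (`BDENS.sm` as a series, `ind_summable`). `y = 0`: `CLT` (PTN/StD.lean, `a = 2`),
`(1 / 3^(m+1)) log + K`; `y ≠ 0`: `LIN` for `V0` and `CTK`: `3^(-v₀)` for `y ∉ V0`, `3^(1 - v₀)` for `y ∈ V0`. Total:
`1 + (3^v₀ - 1) 3^(1-v₀) + (3^v - 3^v₀) 3^(-v₀) ≤ 1 + 3 + 3^d - 1 = 3 + 3^d` (`VDIM`; for `v₀ = 0` it is `3^v ≤ 3^d`). The bound is
stated for finite sums as in `DOMG`. -/
def Stmt_AVW : Prop := ∀ (h n m k : ℕ) (π : Fin m → PP) (p e : Fin m → ℕ) (r f : Fin k → ℕ)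
  (w0 : ZMod 3) (c : Fin m → ZMod 3), NF n π p e r f → h ≤ 2 →
  ∃ K : ℝ, ∀ σ : ℝ, 1 < σ → σ ≤ 2 → ∀ T : Finset ℕ,
    ∑ E ∈ ({1, 2} : Finset ℕ), ∑ q ∈ T,
      (if q.Prime ∧ q % 3 = 2 ∧ InCT E π w0 c q then
        (Nat.card (WqS h n π p e r w0 c (BB h n E q)) : ℝ) * (q : ℝ) ^ (-σ) else 0) ≤
      (3 + 3 ^ dN h n w0) / 3 ^ (m + 1) * Real.log (1 / (σ - 1)) + K

/-! ### The bound for the rank -/

/-- PTK_NBW: the bound for the rank by the classes of the points and the corank of the matrix.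
Proof. As `NBKN_thm` (PTN/NBKN.lean) with `W₁ = WqS .. B` (finite) in `KID`: `Ψ₁ ζ` is a vector `y ∈ WqS` with `ζ g³ = zN y g'³` for
`S1 B ζ` (`WGR`, second part); if `Ψ₁ ζ = Ψ₁ ζ'` then `ζ` and `ζ'` differ by a cube. `Nat.card WqS = 3^d`, `d = Nat.log 3 ..`. -/
def Stmt_NBW : Prop := ∀ (h n m k : ℕ) (π : Fin m → PP) (p e : Fin m → ℕ) (r f : Fin k → ℕ)
  (w0 : ZMod 3) (c : Fin m → ZMod 3) (s : ℕ) (τ : Fin s → Fin 3) (b X Y : Fin s → ℤ)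
  (P Q P' Q' : Fin s → Fin s → ℤ) (E q : ℕ), NF n π p e r f → h ≤ 2 →
  (∀ i, AdN h n π w0 c (b i)) → SysG b P Q P' Q' → SwS P Q P' Q' →
  (∀ B : ℤ, TyB h n w0 B → LamS B τ b X Y) →
  (∀ x : ℤ, AdN h n π w0 c x → ∃ (g : Fin s → ℕ) (u v : ℤ), u ≠ 0 ∧ v ≠ 0 ∧
    x * u ^ 3 = (∏ i, b i ^ g i) * v ^ 3) →
  (E = 1 ∨ E = 2) → q.Prime → 3 < q → q % 3 = 2 → InCT E π w0 c q → ¬ q ∣ n →
  CubeRank.GenBy (BB h n E q) (Nat.log 3 (Nat.card (WqS h n π p e r w0 c (BB h n E q))) +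
    (s - (MaT b X Y P Q P' Q' (BB h n E q)).rank))

/-- PTK_CRK: the corank as a function of `B`, and its distribution.
Proof. As `CLN_thm` (PTN/CLN.lean, read it): `κ₀ B = s - rank (MaT b X Y P Q P' Q' B)`; the first part is `NBW` in place
of `NBKN`; for the tails the same inclusion in `SP`, `SM` and `BDG` (without the shift by `vN`). -/
def Stmt_CRK : Prop := ∀ (h n m k : ℕ) (π : Fin m → PP) (p e : Fin m → ℕ) (r f : Fin k → ℕ)
  (w0 : ZMod 3) (c : Fin m → ZMod 3), NF n π p e r f → h ≤ 2 →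
  ∃ κ₀ : ℤ → ℕ, (∀ B, κ₀ B ≤ sN h n π p e r w0 c) ∧
  (∃ M : ℕ, ∀ E q : ℕ, (E = 1 ∨ E = 2) → q.Prime → M < q → q % 3 = 2 → InCT E π w0 c q →
    CubeRank.GenBy (BB h n E q) (Nat.log 3 (Nat.card (WqS h n π p e r w0 c (BB h n E q))) +
      κ₀ (BB h n E q)) ∧
    ∃ d : ℕ, Nat.card (WqS h n π p e r w0 c (BB h n E q)) = 3 ^ d) ∧
  ∀ t : ℕ, ∃ K : ℝ, ∀ σ : ℝ, 1 < σ → σ ≤ 2 →
    BDENS.sm {q | q % 3 = 2 ∧ InCT 1 π w0 c q ∧ t ≤ κ₀ (BB h n 1 q)} σ +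
      BDENS.sm {q | q % 3 = 2 ∧ InCT 2 π w0 c q ∧ t ≤ κ₀ (BB h n 2 q)} σ ≤
      LI (sN h n π p e r w0 c) t / 3 ^ (m + 1) * Real.log (1 / (σ - 1)) + K

open Classical in
/-- PTK_AVC: the average of `3` to the corank.
Proof. `CRK`, `DOMG` (`P t = LI s t / 3^(m+1)`, `F = 3 ^ ·`, `N = sN`), `LAW` (first part with `v = 0`, and the seventh:
`Esk s (3^(0 + c)) ≤ 4 · 3^0`). -/
def Stmt_AVC : Prop := ∀ (h n m k : ℕ) (π : Fin m → PP) (p e : Fin m → ℕ) (r f : Fin k → ℕ)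
  (w0 : ZMod 3) (c : Fin m → ZMod 3), NF n π p e r f → h ≤ 2 →
  ∃ κ₀ : ℤ → ℕ,
  (∃ M : ℕ, ∀ E q : ℕ, (E = 1 ∨ E = 2) → q.Prime → M < q → q % 3 = 2 → InCT E π w0 c q →
    CubeRank.GenBy (BB h n E q) (Nat.log 3 (Nat.card (WqS h n π p e r w0 c (BB h n E q))) +
      κ₀ (BB h n E q)) ∧
    ∃ d : ℕ, Nat.card (WqS h n π p e r w0 c (BB h n E q)) = 3 ^ d) ∧
  ∃ K : ℝ, ∀ σ : ℝ, 1 < σ → σ ≤ 2 → ∀ T : Finset ℕ,
    ∑ E ∈ ({1, 2} : Finset ℕ), ∑ q ∈ T,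
      (if q.Prime ∧ q % 3 = 2 ∧ InCT E π w0 c q then
        (3 : ℝ) ^ κ₀ (BB h n E q) * (q : ℝ) ^ (-σ) else 0) ≤
      4 / 3 ^ (m + 1) * Real.log (1 / (σ - 1)) + K

/-! ### The averages of the rank -/

/-- the bound for the average of the rank in a class: `7/3`, `8/3`, `10/3` for `d = 0, 1, 2` -/
noncomputable def aD' (d : ℕ) : ℝ := if d = 0 then 7 / 3 else if d = 1 then 8 / 3 else 10 / 3

/-- the bound for the average of `3^(r/2)` in a class -/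
noncomputable def bD' (d : ℕ) : ℝ := if d = 0 then 4 else if d = 1 then 49 / 10 else 104 / 15

/-- PTK_AVR: the average of the rank in a class.
Proof. `AVW`, `AVC`, `CLT` (`a = 2`, total number). For large `q` let `w = Nat.log 3 (Nat.card WqS)` (so
`Nat.card WqS = 3^w`) and `κ = κ₀ B`: `rr B ≤ w + κ` (`CubeRank.rr_le`). For natural numbers `w`: `w ≤ 1/2 + 3^w / 6` and
`w ≤ 3/2 + 3^w / 18`; `κ ≤ 1/2 + 3^κ / 6`. So the average of `rr B` is at most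
`1/2 + (3 + 3^d)/6 + 1/2 + 4/6` (`d = 0`: `7/3`, `d = 1`: `8/3`) and `3/2 + 12/18 + 7/6 = 10/3` (`d = 2`). Second part:
`√3 ^ (w + κ) = √(3^w) √(3^κ) ≤ (t 3^w + 3^κ / t) / 2` with `t = 1`, `4/5`, `3/5`:
`(4 + 4)/2 = 4`, `(24/5 + 5)/2 = 49/10`, `(36/5 + 20/3)/2 = 104/15`. The finitely many small `q` contribute a
constant. `Kl π w0 c (q^E)` and `InCT E π w0 c q` are equivalent for `q` prime to `3 n` (see `CAB`, PTN/CAB.lean, for both
points). `(3 ^ h * n : ℕ) * q^E = BB h n E q`. -/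
def Stmt_AVR : Prop := ∀ (h n m k : ℕ) (π : Fin m → PP) (p e : Fin m → ℕ) (r f : Fin k → ℕ)
  (w0 : ZMod 3) (c : Fin m → ZMod 3), NF n π p e r f → h ≤ 2 →
  AboveA ((3 ^ h * n : ℕ) : ℤ) 2 (Kl π w0 c) (fun A => (CubeRank.rr A : ℝ))
    (aD' (dN h n w0) / 3 ^ (m + 1)) ∧
  AboveA ((3 ^ h * n : ℕ) : ℤ) 2 (Kl π w0 c) (fun A => √3 ^ CubeRank.rr A)
    (bD' (dN h n w0) / 3 ^ (m + 1))

/-- PTK_AVA: the averages over all `A`.
Proof. `SUMA` (PTN/StF.lean), `AVR`: `∑_{(w0, c)} aD' (dN) / 3^(m+1)`. `h = 1`: `7/3`; `h = 2`: `8/3`; `h = 0`: one of the three `w0` has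
`dN = 2`, the others `dN = 1`: `(2 · 8/3 + 10/3) / 3 = 26/9`. All are `≤ 26/9`. Second: `(2 · 49/10 + 104/15)/3 = 251/45 ≤ 28/5`. -/
def Stmt_AVA : Prop := ∀ (h n m k : ℕ) (π : Fin m → PP) (p e : Fin m → ℕ) (r f : Fin k → ℕ),
  NF n π p e r f → h ≤ 2 →
  AboveA ((3 ^ h * n : ℕ) : ℤ) 2 (fun _ => True) (fun A => (CubeRank.rr A : ℝ)) (26 / 9) ∧
  AboveA ((3 ^ h * n : ℕ) : ℤ) 2 (fun _ => True) (fun A => √3 ^ CubeRank.rr A) (28 / 5)

/-- PTK_MAI: the theorem.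
Proof. `NFE`, `AVA`, `AVR`, `TRU`: see `PTN/MAINN.lean` (for the classes of units `u` modulo `9 N`: `w0 = wt (U²)`,
`c i = sym (π i) U`, `U = u.val`; for large `q`, `q^e = u x³ (mod 9 N)` implies `Kl π w0 c (q^e)`), `aD' ≤ 10/3`,
`bD' ≤ 104/15`, generation by `rr` points: `PTN.Final` (first part of `CLN`), `CLT` for the last part (the total
weight of the `A` in a class, both bounds; for a unit `u` the primes powers with `Kl` are those with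
`q^e = u x³`: the classes `(w0, c)` of the units are the cosets of the cubes: this is not needed, only the upper
bound is stated). -/
def Stmt_MAI : Prop := ∀ N : ℕ, 0 < N → (∀ p : ℕ, p.Prime → ¬ p ^ 3 ∣ N) →
  ∀ m : ℕ, m = (N.primeFactors.filter (fun p => p % 3 = 1)).card →
  AboveA N 2 (fun _ => True) (fun A => (CubeRank.rr A : ℝ)) (26 / 9) ∧
  AboveA N 2 (fun _ => True) (fun A => √3 ^ CubeRank.rr A) (28 / 5) ∧
  ∀ u : (ZMod (9 * N))ˣ,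
    AboveA N 2 (fun y => ∃ x : ℤ, ((9 * N : ℕ) : ℤ) ∣ y - ((u : ZMod (9 * N)).val : ℤ) * x ^ 3)
      (fun A => (CubeRank.rr A : ℝ)) (10 / 3 / 3 ^ (m + 1)) ∧
    AboveA N 2 (fun y => ∃ x : ℤ, ((9 * N : ℕ) : ℤ) ∣ y - ((u : ZMod (9 * N)).val : ℤ) * x ^ 3)
      (fun A => √3 ^ CubeRank.rr A) (104 / 15 / 3 ^ (m + 1))

end Pool.Agent.PTK
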