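import Pool.Agent.PTK.StN
import Pool.Agent.PTL.BD
import Pool.Agent.PT.GFR

/-!
# The average rank of prime twists: the governing field over `K = Q(w)`

The base class `x` and the norms `b j` (`j : Fin s`) are elements of `Z[w]`. The statements are variants of
those of `PT/Stmts4.lean`; only the pairs `(x, b j)` occur. `ι : Eis →+* L` is the embedding of `Z[w]`
into the governing field `L`.
-/

set_option autoImplicit false

open NumberField IsDedekindDomain Finset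
open scoped nonZeroDivisors Pointwise

namespace Pool.Agent.PTK

open Pool.Agent.Lib_helper18 Pool.Agent.Lib_helper18.Eis Pool.Agent.Lib_helper84.Cub
open Pool.Agent.PT Pool.Agent.PTL

/-- the numerator of `α` -/
def aNE {L : Type} [Field L] (ι : Eis →+* L) (p q p' q' : Eis) (ρ : L) : L :=
  (ι p + ι q * ι w ^ 2 * ρ) * (ι p' + ι q' * ι w * ρ)

/-- the denominator of `α` -/
def aDE {L : Type} [Field L] (ι : Eis →+* L) (p q p' q' : Eis) (ρ : L) : L :=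
  (ι p + ι q * ι w * ρ) * (ι p' + ι q' * ι w ^ 2 * ρ)

/-- A system: base class `x`, norms `b j`; all classes satisfy `z * conj z = t³` (then complex conjugation
acts trivially on the Galois group of `K(x^(1/3), b_j^(1/3)) / K`). -/
structure SysK {s : ℕ} (x : Eis) (b p q p' q' : Fin s → Eis) : Prop where
  ind : ∀ (c₀ : ℕ) (c : Fin s → ℕ), (¬ 3 ∣ c₀ ∨ ∃ i, ¬ 3 ∣ c i) →
    ¬ ∃ t : Eis, t ^ 3 = x ^ c₀ * ∏ i, b i ^ c i
  sol : ∀ j, SolE x (b j) (p j) (q j) (p' j) (q' j)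
  cx : ∃ t : Eis, x * conj x = t ^ 3
  cb : ∀ j, ∃ t : Eis, b j * conj (b j) = t ^ 3

/-- The governing field. -/
structure GovK {s : ℕ} (x : Eis) (b p q p' q' : Fin s → Eis) (f : ℕ)
    (L : Type) [Field L] [NumberField L] (ζ : L) (ι : Eis →+* L) : Prop where
  gal : IsGalois ℚ L
  prim : IsPrimitiveRoot ζ f
  nine : 9 ∣ f
  hω : ι w = ζ ^ (f / 3)
  rx : ∃ θ : L, θ ^ 3 = ι x
  rb : ∀ j, ∃ θ : L, θ ^ 3 = ι (b j)
  A : ∀ (j : Fin s) (ρ : L), ρ ^ 3 = ι x → ∃ A : L,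
    A ^ 3 * aDE ι (p j) (q j) (p' j) (q' j) ρ = aNE ι (p j) (q j) (p' j) (q' j) ρ
  D : ∀ (j : Fin s) (ρ : L), ρ ^ 3 = ι x →
    aDE ι (p j) (q j) (p' j) (q' j) ρ ≠ 0 ∧ aNE ι (p j) (q j) (p' j) (q' j) ρ ≠ 0

/-- PTK_GZK: existence of the governing field. As `PT/GZERO.lean` (`GZERO.exists_field`). `ι` is
`GFR.lift (ζ ^ (f / 3)) rel` (`PT/GFR.lean`: `lift z hz : Eis →+* S` maps `w` to `z`), and the embedding of `L`
into the algebraic closure is compatible with it. -/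
def Stmt_GZK : Prop := ∀ (s : ℕ) (x : Eis) (b p q p' q' : Fin s → Eis) (f : ℕ),
  SysK x b p q p' q' → 0 < f → 9 ∣ f →
  ∃ (L : Type) (_ : Field L) (_ : NumberField L) (ζ : L) (ι : Eis →+* L),
    GovK x b p q p' q' f L ζ ι

/-- `g²` fixes the cube roots of `x` and of the `b j`. -/
def FxK {s : ℕ} (x : Eis) (b : Fin s → Eis) {L : Type} [Field L] [NumberField L] (ι : Eis →+* L)
    (g : L ≃ₐ[ℚ] L) : Prop :=
  (∀ ρ : L, ρ ^ 3 = ι x → g (g ρ) = ρ) ∧ ∀ (j : Fin s) (ρ : L), ρ ^ 3 = ι (b j) → g (g ρ) = ρ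

/-- The relation between `g` and `t = t_j(g)`: `g² A = ω^t A` for all `A` with `A³ = α_j(ρ)`, `ρ³ = x`. -/
def IsTK {s : ℕ} (x : Eis) (p q p' q' : Fin s → Eis) {L : Type} [Field L]
    [NumberField L] (ι : Eis →+* L) (g : L ≃ₐ[ℚ] L) (j : Fin s) (t : ZMod 3) : Prop :=
  ∀ ρ A : L, ρ ^ 3 = ι x →
    A ^ 3 * aDE ι (p j) (q j) (p' j) (q' j) ρ = aNE ι (p j) (q j) (p' j) (q' j) ρ →
    g (g A) = ι w ^ t.val * A

/-- PTK_GTK: existence, uniqueness and properties of `t`.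
Proof (see `PT/GT.lean`, `PT/GC.lean` for similar computations). Put `ω = ι w`, `h = g²`: `h` fixes `ω`, so
`h (ι a) = ι a` (`ι a = re + im ω`). (1) For one pair `(ρ, A)`: `h` fixes `α(ρ)`, so `h A = ω^t A`, `A ≠ 0`; the
same `t` for `ω^i A`. For `ω ρ`: by the computation of `GC.movA` a cube root `A'` of `α(ω ρ)` satisfies
`A' (p + q ω² ρ) = ω^e A θ (p' + q' ω² ρ)` with `θ³ = b_j` (coefficients through `ι`; the norm relation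
`∏ (p + q ω^i ρ) = b_j ∏ (p' + q' ω^i ρ)`, `SolE.eq`), and `h θ = θ`, `h ρ = ρ`; so `h A' = ω^t A'`. Uniqueness: there
is a root `ρ` (`rx`) and an `A`; `ω^t A = ω^t' A` implies `t = t'`. (2) Let `τ ω = ω` first: for a pair `(ρ, A)`,
`(τ⁻¹ ρ, τ⁻¹ A)` is a pair, so `(τ g τ⁻¹)² A = τ (h (τ⁻¹ A)) = ω^t A`, and in the same way for the roots. If
`τ ω = ω²` (the only other case) then `τ = τ' g` with `τ' = τ g⁻¹`, `τ' ω = ω`, and `τ g τ⁻¹ = τ' g τ'⁻¹`.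
(3) `(g^k)² = h^k`, and `g^k ω = ω²` for odd `k`. -/
def Stmt_GTK : Prop := ∀ (s : ℕ) (x : Eis) (b p q p' q' : Fin s → Eis) (f : ℕ)
  (L : Type) [Field L] [NumberField L] (ζ : L) (ι : Eis →+* L), SysK x b p q p' q' →
  GovK x b p q p' q' f L ζ ι →
  ∀ j,
  (∀ g : L ≃ₐ[ℚ] L, g (ι w) = ι w ^ 2 → FxK x b ι g → ∃! t : ZMod 3, IsTK x p q p' q' ι g j t) ∧
  (∀ (g τ : L ≃ₐ[ℚ] L) (t : ZMod 3), g (ι w) = ι w ^ 2 → FxK x b ι g →
    IsTK x p q p' q' ι g j t →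
    FxK x b ι (τ * g * τ⁻¹) ∧ IsTK x p q p' q' ι (τ * g * τ⁻¹) j t) ∧
  (∀ (g : L ≃ₐ[ℚ] L) (t : ZMod 3) (k : ℕ), g (ι w) = ι w ^ 2 → FxK x b ι g → Odd k →
    IsTK x p q p' q' ι g j t → FxK x b ι (g ^ k) ∧ IsTK x p q p' q' ι (g ^ k) j (k * t))

/-- PTK_GKK: Kummer theory over `K`.
Proof. `KUM` (PT/Stmts3.lean, `KUM_thm`) for `F = IntermediateField.adjoin ℚ {ι w}` (all of it is
`{ι a / m}`), `L / F` Galois. Independence: if `∏ (ι x)^.. ∏ (ι (b i))^.. = β³` with `β ∈ F` then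
`β = ι u / ι v` (`u, v ∈ Eis`, `v ≠ 0`), so `u³ = v³ x^.. ∏ b_i^..`, `v ∣ u` and the product is the cube of an
element of `Eis`, against `SysK.ind`. -/
def Stmt_GKK : Prop := ∀ (s : ℕ) (x : Eis) (b p q p' q' : Fin s → Eis) (f : ℕ)
  (L : Type) [Field L] [NumberField L] (ζ : L) (ι : Eis →+* L), SysK x b p q p' q' →
  GovK x b p q p' q' f L ζ ι →
  ∀ (a₀ : ZMod 3) (a : Fin s → ZMod 3), ∃ g : L ≃ₐ[ℚ] L, g (ι w) = ι w ∧
    (∀ ρ : L, ρ ^ 3 = ι x → g ρ = ι w ^ a₀.val * ρ) ∧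
    ∀ (j : Fin s) (ρ : L), ρ ^ 3 = ι (b j) → g ρ = ι w ^ (a j).val * ρ

/-- PTK_GCK: the commutators.
Proof. Hypothesis `Stmt_GKK`. Put `ω = ι w`. Lemma (from `GC.mv`, `GC.fx`, `GC.comm_apply` in PT/GC.lean; the
coefficients are now `ι p`, … instead of integers): let `σ, τ` fix `ω`, `σ ρ = ω ρ` for the roots of `x`, `σ θ = θ` for the
roots of all `b i`, `τ ρ = ρ` for the roots of `x`, `τ θ = ω^(a i) θ` for the roots of `b i`. Then for every pair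
`(ρ, A)` for `j`: `τ (σ A) = ω^(a j) σ (τ A)`, so `(σ τ)⁻¹ (τ σ) A = ω^(a j) A`. Given `v`, take `σ`, `τ` from `GKK` with
`a = v`, and `z = (σ τ)⁻¹ (τ σ)`. `z` fixes the roots (both `σ` and `τ` act on them by constants), and `z ζ = ζ`:
`σ ζ` and `τ ζ` are powers of `ζ`, so they commute on `ζ`. Last clause: let `g ω = ω²`. Put `σ' = g⁻¹ σ g`,
`τ' = g⁻¹ τ g`, `z' = g⁻¹ z g = (σ' τ')⁻¹ (τ' σ')`. `σ'` acts on the roots as `σ`: for `ρ³ = ι x`: `(g ρ)³ = g (ι x) =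
ι (conj x)` (`ι a = re + im ω`, `conj`: `w ↦ w²`), and `x conj x = t³`, so `g ρ = ω^k ι t / ρ`, `σ (g ρ) = ω^k ι t / (ω ρ) =
ω⁻¹ (g ρ)`, `g⁻¹ (ω⁻¹ g ρ) = ω ρ` (`g⁻¹ ω⁻¹ = ω`); in the same way for `θ³ = ι (b i)`: `σ' θ = θ`; and for `τ'`. So by the lemma
`z' A = ω^(v j) A`, and `z (g A) = g (z' A) = g (ω^(v j) A) = ω^(- v j) g A`. -/
def Stmt_GCK : Prop := ∀ (s : ℕ) (x : Eis) (b p q p' q' : Fin s → Eis) (f : ℕ)
  (L : Type) [Field L] [NumberField L] (ζ : L) (ι : Eis →+* L), SysK x b p q p' q' →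
  GovK x b p q p' q' f L ζ ι →
  ∀ v : Fin s → ZMod 3, ∃ z : L ≃ₐ[ℚ] L, z ζ = ζ ∧ (∀ ρ : L, ρ ^ 3 = ι x → z ρ = ρ) ∧
    (∀ (j : Fin s) (ρ : L), ρ ^ 3 = ι (b j) → z ρ = ρ) ∧
    ∀ (j : Fin s) (ρ A : L), ρ ^ 3 = ι x →
      A ^ 3 * aDE ι (p j) (q j) (p' j) (q' j) ρ = aNE ι (p j) (q j) (p' j) (q' j) ρ →
      z A = ι w ^ (v j).val * A ∧
      ∀ g : L ≃ₐ[ℚ] L, g (ι w) = ι w ^ 2 → z (g A) = ι w ^ (- v j).val * g A

/-- PTK_GFK: Frobenius elements and `t`.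
Proof. As `PT/GFR.lean` (`GFR.exists_frob_gen` gives the first part). Let `Q = 2 (mod 3)`, `φ` a Frobenius
element for `P`, `κ = 𝓞 L / P`, `z` the image of `ω`. `φ ω = ω²` as in GFR. `h = φ²`: `mk (h y) = (mk y) ^ (Q²)` for
`y ∈ 𝓞 L`. The homomorphism `Eis → κ`, `a ↦ mk (ι a)`, has kernel `(Q)` (`Q` is a prime of `Eis` and `κ` is a
field), and `sym (Q : Eis) a` is characterised by `a ^ ((Q² - 1) / 3) = w ^ (sym Q a)` modulo `Q` for `Q ∤ a`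
(library of helper18; see how GFR uses it). (a) Let `ρ³ = ι x`, `sym Q x = 0`, `Q` large (`Q ∤ x`):
`mk (h ρ) = (mk ρ) ^ (Q²) = mk ρ · (mk (ι x)) ^ ((Q² - 1) / 3) = mk ρ`, and `h ρ = ω^i ρ`, so `ω^i = 1` in `κ`, `i = 0`. The
same for `b j`. (b) Let `Q ∣ r³ - x`. The roots of `T³ = x` in `κ` are the images of `ω^i ρ`; so there is a
root `ρ` with `mk ρ = mk (ι r)`. For `A` with `A³ aD = aN`: `y = A aD` is integral, `y³ = aN aD²`, `h y = ω^t y` (`h` fixes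
`aD`, since `h` fixes `ρ` and `ι a`) and `mk (h y) = (mk y)^(Q²) = mk y · (mk (aN aD²)) ^ ((Q² - 1) / 3)`, and
`mk (aN aD²)` is the image of `(LfE p q 2 r) (LfE p' q' 1 r) ((LfE p q 1 r) (LfE p' q' 2 r))²`, prime to `Q` for large `Q`
(the product of the `LfE p q i r`, `i = 0, 1, 2`, is `p³ + x q³` modulo `Q`). So `ω^t = ω^(TAUE)` in `κ`. -/
def Stmt_GFK : Prop := ∀ (s : ℕ) (x : Eis) (b p q p' q' : Fin s → Eis) (f : ℕ)
  (L : Type) [Field L] [NumberField L] (ζ : L) (ι : Eis →+* L), SysK x b p q p' q' →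
  GovK x b p q p' q' f L ζ ι →
  ∃ N₀ : ℕ, ∀ Q : ℕ, Q.Prime → N₀ < Q → ∀ (P : Ideal (𝓞 L)), P.IsPrime → (Q : 𝓞 L) ∈ P →
    (∀ g : L ≃ₐ[ℚ] L, MulAction.stabilizer (L ≃ₐ[ℚ] L) P = Subgroup.zpowers g →
      ∃ k : ℕ, k.Coprime (orderOf g) ∧ IsArithFrobAt ℤ (g ^ k) P) ∧
    ∀ φ : L ≃ₐ[ℚ] L, IsArithFrobAt ℤ φ P → Q % 3 = 2 → φ (ι w) = ι w ^ 2 ∧
      (sym (Q : Eis) x = 0 → (∀ j, sym (Q : Eis) (b j) = 0) → FxK x b ι φ ∧
        ∀ (j : Fin s) (r : Eis) (t : ZMod 3), (Q : Eis) ∣ r ^ 3 - x →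
          IsTK x p q p' q' ι φ j t → t = TAUE Q (p j) (q j) (p' j) (q' j) r)

/-- PTK_GAK: summary of the governing field.
Proof. As `PT/GALD.lean`, with `GZK`, `GTK`, `GCK`, `GFK`, `GCHI`. `F g : g (ι w) = ι w ^ 2 ∧ FxK x b ι g` (if `M2 (χ g)`
then `g (ι w) = ι w ^ 2`, as in GALD), `t g j` the number of `GTK` if `F g`, `0` otherwise. Equidistribution: let
`z` be from `GCK` for the vector `2 (v' - v) = -(v' - v)`; `g ↦ g z` is a bijection of the first set onto the second one: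
`χ (g z) = χ g` (`z ζ = ζ`), `F (g z)`: on roots `ρ`: `(g z)² ρ = g z g ρ`, and `g ρ = ω^k ι t / ρ` (see `GCK`) is fixed by `z`
(or: `g ρ` is a root of `conj x`, which is a quotient), so it is `g² ρ`. `(g z)² A = g (z (g (z A)))`, with `z A = ω^u A`:
`g (z A) = ω^(-u) g A`, `z (ω^(-u) g A) = ω^(-u) ω^(-u) g A`, `g` of it is `ω^(2u) g² A = ω^(2u + t) A`. So `t (g z) = t g + 2 u`. -/
def Stmt_GAK : Prop := ∀ (s : ℕ) (x : Eis) (b p q p' q' : Fin s → Eis) (f : ℕ),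
  SysK x b p q p' q' → 0 < f → 9 ∣ f →
  ∃ (L : Type) (_ : Field L) (_ : NumberField L) (_ : IsGalois ℚ L)
    (χ : (L ≃ₐ[ℚ] L) →* (ZMod f)ˣ) (F : (L ≃ₐ[ℚ] L) → Prop)
    (t : (L ≃ₐ[ℚ] L) → Fin s → ZMod 3) (N₀ : ℕ),
    Function.Surjective χ ∧
    (∀ g τ : L ≃ₐ[ℚ] L, M2 (χ g) → F g → F (τ * g * τ⁻¹) ∧ t (τ * g * τ⁻¹) = t g) ∧
    (∀ (g : L ≃ₐ[ℚ] L) (k : ℕ), M2 (χ g) → F g → Odd k → F (g ^ k) ∧
      t (g ^ k) = (k : ZMod 3) • t g) ∧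
    (∀ (a : (ZMod f)ˣ) (v v' : Fin s → ZMod 3), M2 a →
      Nat.card {g : L ≃ₐ[ℚ] L // χ g = a ∧ F g ∧ t g = v} =
        Nat.card {g : L ≃ₐ[ℚ] L // χ g = a ∧ F g ∧ t g = v'}) ∧
    ∀ (Q : ℕ) (hQ : Q.Coprime f), Q.Prime → N₀ < Q → ∀ (P : Ideal (𝓞 L)) (g : L ≃ₐ[ℚ] L),
      P.IsPrime → (Q : 𝓞 L) ∈ P →
      MulAction.stabilizer (L ≃ₐ[ℚ] L) P = Subgroup.zpowers g →
      ∃ k : ℕ, k.Coprime (orderOf g) ∧ χ (g ^ k) = ZMod.unitOfCoprime Q hQ ∧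
        (Q % 3 = 2 → sym (Q : Eis) x = 0 → (∀ j, sym (Q : Eis) (b j) = 0) → F (g ^ k) ∧
          ∀ (j : Fin s) (r : Eis), (Q : Eis) ∣ r ^ 3 - x →
            t (g ^ k) j = TAUE Q (p j) (q j) (p' j) (q' j) r)

/-! ### Densities -/

/-- PTK_DNS: upper bound for the density of a set of primes whose Frobenius elements are in a
subset stable under passing to another generator of a conjugate cyclic subgroup.
Proof. This is the proof of `BD.dens` in PTL/BD.lean (read it) in an abstract form: the complement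
`InU g ∧ ¬ B g`, `InU g : M2 (χ g) ∧ (κ (χ g) = c ∨ κ (χ g) = -c)` (`BD.InU` or `BDENS.InU`), is stable too (two
generators of the same cyclic group: `χ h = χ g ^ k` with `k` odd and prime to `3`… as in `BDENS.stable`), the
lower bound `RI.FROBD_thm` for it, and `DIR` for the residue classes of `InU`. -/
def Stmt_DNS : Prop := ∀ (f m : ℕ) (κ : (ZMod f)ˣ →* Multiplicative (Fin (m + 1) → ZMod 3))
  (c : Fin (m + 1) → ZMod 3) (L : Type) [Field L] [NumberField L] [IsGalois ℚ L]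
  (χ : (L ≃ₐ[ℚ] L) →* (ZMod f)ˣ) (B : (L ≃ₐ[ℚ] L) → Prop) (S : Set ℕ) (N₀ : ℕ),
  0 < f → 9 ∣ f → Function.Surjective χ →
  (∀ g h τ : L ≃ₐ[ℚ] L, B g → Subgroup.zpowers h = Subgroup.zpowers (τ * g * τ⁻¹) → B h) →
  (∀ g, B g → M2 (χ g) ∧ ((κ (χ g)).toAdd = c ∨ (κ (χ g)).toAdd = -c)) →
  (∀ (Q : ℕ) (hQ : Q.Coprime f), Q.Prime → N₀ < Q → ∀ (P : Ideal (𝓞 L)) (g : L ≃ₐ[ℚ] L),
    P.IsPrime → (Q : 𝓞 L) ∈ P → MulAction.stabilizer (L ≃ₐ[ℚ] L) P = Subgroup.zpowers g →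
    (∃ k : ℕ, k.Coprime (orderOf g) ∧ χ (g ^ k) = ZMod.unitOfCoprime Q hQ) ∧ (Q ∈ S → B g)) →
  (∀ (Q : ℕ) (hQ : Q.Coprime f), Q.Prime → N₀ < Q → Q ∈ S → Q % 3 = 2 ∧
    ((κ (ZMod.unitOfCoprime Q hQ)).toAdd = c ∨ (κ (ZMod.unitOfCoprime Q hQ)).toAdd = -c)) →
  ∃ K : ℝ, ∀ σ : ℝ, 1 < σ → σ ≤ 2 → BDENS.sm S σ ≤
    (Nat.card {g : L ≃ₐ[ℚ] L // B g} : ℝ) / Nat.card (L ≃ₐ[ℚ] L) * Real.log (1 / (σ - 1)) + K

/-- the primes `Q` with prescribed `TAUE`, exponent `1`, class `c` -/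
def SPK {s f m : ℕ} (x : Eis) (b p q p' q' : Fin s → Eis)
    (κ : (ZMod f)ˣ →* Multiplicative (Fin (m + 1) → ZMod 3)) (c : Fin (m + 1) → ZMod 3)
    (C : Fin s → ZMod 3) (Φ : (ZMod f)ˣ →* Multiplicative (Fin s → ZMod 3)) : Set ℕ :=
  {Q : ℕ | ∃ hQ : Q.Coprime f, Q % 3 = 2 ∧ (κ (ZMod.unitOfCoprime Q hQ)).toAdd = c ∧
    sym (Q : Eis) x = 0 ∧ (∀ j, sym (Q : Eis) (b j) = 0) ∧
    ∀ (j : Fin s) (r : Eis), (Q : Eis) ∣ r ^ 3 - x →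
      TAUE Q (p j) (q j) (p' j) (q' j) r = C j + (Φ (ZMod.unitOfCoprime Q hQ)).toAdd j}

/-- the primes `Q` with prescribed `TAUE`, exponent `2`, class `-c` -/
def SMK {s f m : ℕ} (x : Eis) (b p q p' q' : Fin s → Eis)
    (κ : (ZMod f)ˣ →* Multiplicative (Fin (m + 1) → ZMod 3)) (c : Fin (m + 1) → ZMod 3)
    (C : Fin s → ZMod 3) (Φ : (ZMod f)ˣ →* Multiplicative (Fin s → ZMod 3)) : Set ℕ :=
  {Q : ℕ | ∃ hQ : Q.Coprime f, Q % 3 = 2 ∧ (κ (ZMod.unitOfCoprime Q hQ)).toAdd = -c ∧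
    sym (Q : Eis) x = 0 ∧ (∀ j, sym (Q : Eis) (b j) = 0) ∧
    ∀ (j : Fin s) (r : Eis), (Q : Eis) ∣ r ^ 3 - x →
      TAUE Q (p j) (q j) (p' j) (q' j) r = - C j + (Φ (ZMod.unitOfCoprime Q hQ)).toAdd j}

/-- PTK_BDK: the bound for the density, both exponents together.
Proof. As `BDE_thm` (PTL/BD.lean, read it), with `GAK`, `DNS`. A root `r` of `r³ = x` modulo `Q` exists
because `sym Q x = 0` (`Q ∤ x` for large `Q`; `LCI`-like: an element of the field `Eis / Q` with trivial symbol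
is a cube; `Stmt_LCI`, first part, and the prime `π : PP` with `π.1 = Q`, `SPP`).
`XP g : M2 (χ g) ∧ F g ∧ κ (χ g) = c ∧ t g = C + Φ (χ g)`, `XM g : M2 (χ g) ∧ F g ∧ κ (χ g) = -c ∧
t g = - C + Φ (χ g)`. If `h = g' ^ k`, `g' = τ g τ⁻¹`, `k` odd and prime to `3` (two generators of a cyclic group whose
order is divisible by `2` and, if necessary, made prime to `3`; see `BDENS.exists_pow`) then for
`k = 1 (mod 3)`, `XP` and `XM` are preserved, for `k = 2 (mod 3)` they are exchanged (`t (g'^k) = k t`,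
`Φ (χ g' ^ k) = k Φ`, `κ` the same): so `XP ∨ XM` and `XP ∧ XM` are stable. `F` is preserved (`GAK`; and
`F h → F g'` as `g'` is a power of `h`). Counting: for every unit `a` with `M2 a` the sets
`{g // χ g = a ∧ F g ∧ t g = v}` have the same size for all `3^s` vectors `v`, so
`3^s #{g // χ g = a ∧ F g ∧ t g = v} ≤ #{g // χ g = a} = #G / φ(f)`; sum over the
`φ(f) / (2 · 3^(m+1))` units `a` with `M2 a`, `κ a = c`: `3^s · 2 · 3^(m+1) #XP ≤ #G`, the same for `XM`. `DNS` for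
`S = SPK ∪ SMK`, `B = XP ∨ XM` and `S = SPK ∩ SMK`, `B = XP ∧ XM`; `BD.sm_union_inter`, `BD.card_incl`:
the sum is at most `(2 / (3^s · 2 · 3^(m+1))) log + K`. -/
def Stmt_BDK : Prop := ∀ (s : ℕ) (x : Eis) (b p q p' q' : Fin s → Eis) (f m : ℕ)
  (κ : (ZMod f)ˣ →* Multiplicative (Fin (m + 1) → ZMod 3)) (c : Fin (m + 1) → ZMod 3)
  (C : Fin s → ZMod 3) (Φ : (ZMod f)ˣ →* Multiplicative (Fin s → ZMod 3)),
  SysK x b p q p' q' → 0 < f → 9 ∣ f →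
  (∀ c : Fin (m + 1) → ZMod 3,
    Nat.card {a : (ZMod f)ˣ // M2 a ∧ (κ a).toAdd = c} * (2 * 3 ^ (m + 1)) = f.totient) →
  ∃ K : ℝ, ∀ σ : ℝ, 1 < σ → σ ≤ 2 →
    BDENS.sm (SPK x b p q p' q' κ c C Φ) σ + BDENS.sm (SMK x b p q p' q' κ c C Φ) σ ≤
      1 / 3 ^ s / 3 ^ (m + 1) * Real.log (1 / (σ - 1)) + K

end Pool.Agent.PTK
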