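import Pool.Agent.PTK.StJ

/-!
# The average of `3^r` for prime twists: classes and averages

Stage 2 of the project PTK, after the joint governing field (`StJ.lean`). Everything of `StL`, `StN`, `StG`, `StC`, `StJ` and of
`PT`, `PTE`, `PT3`, `PTL`, `PTN` may be imported or taken as a hypothesis.
-/

set_option autoImplicit false

open NumberField IsDedekindDomain Finset
open scoped nonZeroDivisors Pointwise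

namespace Pool.Agent.PTK

open Pool.Agent.Lib_helper18 Pool.Agent.Lib_helper18.Eis Pool.Agent.Lib_helper84.Cub
open Pool.Agent.PT Pool.Agent.PTE Pool.Agent.PT3 Pool.Agent.PTL Pool.Agent.PTN

/-! ### Sums over primes -/

open Classical in
/-- The sum of `G E q / q ^ σ` over `E = 1, 2` and the primes `q ∈ S E` is at most `x * log (1 / (σ - 1))`, up to a constant. -/
def UpS (S : ℕ → Set ℕ) (G : ℕ → ℕ → ℝ) (x : ℝ) : Prop :=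
  ∃ K : ℝ, ∀ σ : ℝ, 1 < σ → σ ≤ 2 → ∀ T : Finset ℕ,
    ∑ E ∈ ({1, 2} : Finset ℕ), ∑ q ∈ T,
      (if q.Prime ∧ q ∈ S E then G E q * (q : ℝ) ^ (-σ) else 0) ≤
      x * Real.log (1 / (σ - 1)) + K

open Classical in
/-- PTK_UPS: the calculus of `UpS`.
Proof. (1) For a prime `q > M` in `S E` multiply the hypothesis by `q ^ (-σ) ≥ 0`; the primes `q ≤ M` contribute at most
`∑_{E, q ≤ M} |G E q|` (`q ^ (-σ) ≤ 1`). So `∑_{E, q ∈ T} [..] G q^(-σ) ≤ (1 / c) ∑_i ∑_{E, q ∈ T} [q prime, q ∈ T i E] G' i E q q^(-σ) + const`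
(`0 ≤ G'`), and each inner sum is bounded by the hypothesis. (2) `log (1 / (σ - 1)) ≥ 0` (`FIN.log_nn` in PTL/FIN.lean). -/
def Stmt_UPS : Prop :=
  (∀ (ι : Type) [Fintype ι] (S : ℕ → Set ℕ) (G : ℕ → ℕ → ℝ) (T : ι → ℕ → Set ℕ) (G' : ι → ℕ → ℕ → ℝ) (x : ι → ℝ)
    (c : ℝ) (M : ℕ), 0 < c → (∀ i E q, 0 ≤ G' i E q) →
    (∀ E q, (E = 1 ∨ E = 2) → q.Prime → M < q → q ∈ S E →
      c * G E q ≤ ∑ i, (if q ∈ T i E then G' i E q else 0)) →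
    (∀ i, UpS (T i) (G' i) (x i)) → UpS S G ((∑ i, x i) / c)) ∧
  (∀ (S : ℕ → Set ℕ) (G : ℕ → ℕ → ℝ) (x y : ℝ), x ≤ y → UpS S G x → UpS S G y) ∧
  (∀ (S : ℕ → Set ℕ) (G : ℕ → ℕ → ℝ) (x c : ℝ), 0 ≤ c → UpS S G x →
    UpS S (fun E q => c * G E q) (c * x))

/-- PTK_UPA: from `UpS` to `AboveA`.
Proof. `(3 ^ h * n : ℕ) * q ^ E = BB h n E q`. For a prime `q` not dividing `n`, `Kl π w0 c (q ^ E)` and `InCT E π w0 c q` are equivalent; the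
finitely many other `q` contribute a constant (see `CAB_thm`, PTN/CAB.lean). -/
def Stmt_UPA : Prop := ∀ (h n m k : ℕ) (π : Fin m → PP) (p e : Fin m → ℕ) (r f : Fin k → ℕ)
  (w0 : ZMod 3) (c : Fin m → ZMod 3) (a : ℕ) (F : ℤ → ℝ) (x : ℝ), NF n π p e r f →
  UpS (fun E => {q | q % 3 = a ∧ InCT E π w0 c q}) (fun E q => F (BB h n E q)) x →
  AboveA ((3 ^ h * n : ℕ) : ℤ) a (Kl π w0 c) F x

/-- PTK_KUP: from tails to averages.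
Proof. `DOMG` (with `F = 3 ^ ·`, `F = id`, `F = 1`), `P t = x LI s t`, `N = s`, and `LAW` (first part for `v = 0`: the sum is
`x Esk s F`; seventh part: `Esk s (3 ^ (0 + c)) ≤ 4 · 3 ^ 0`; `Esk s 1 = 1`). -/
def Stmt_KUP : Prop := ∀ (S : ℕ → Set ℕ) (R : ℕ → ℕ → ℕ) (s M : ℕ) (x : ℝ), 0 ≤ x →
  (∀ E q, (E = 1 ∨ E = 2) → q.Prime → M < q → q ∈ S E → R E q ≤ s) →
  (∀ t, ∃ K : ℝ, ∀ σ : ℝ, 1 < σ → σ ≤ 2 →
    BDENS.sm {q | q ∈ S 1 ∧ t ≤ R 1 q} σ + BDENS.sm {q | q ∈ S 2 ∧ t ≤ R 2 q} σ ≤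
      x * LI s t * Real.log (1 / (σ - 1)) + K) →
  UpS S (fun E q => 3 ^ R E q) (4 * x) ∧
    UpS S (fun E q => (R E q : ℝ)) (Esk s (fun c => (c : ℝ)) * x) ∧ UpS S (fun _ _ => 1) x

/-- PTK_LAM: the mean corank.
Proof. `AL.Esk_id` (PTL/AL.lean). Second part: by `AL.Esk_le`: `s` odd: `c ≤ 3^c / 12 + 3/4` (`AL.pow_odd`), so
`Esk s id ≤ 13/12 - 1 / (4 · 3^s)`; `s` even: `c ≤ 3^c / 4 - 1/4` (`AL.pow_even`), so `Esk s id ≤ 3/4 - 3 / (4 · 3^s)`. With `s = d - 1`: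
`d = 0`: `1`. `d = 1`: `2/3`. `d = 2`: `8/9 + 3/9 = 11/9`. `d = 3`: `(26/27)(2/3) + 4/27`. `d ≥ 4`: at most `13/12 + 5/81 ≤ 11/9`
(`(d + 1) / 3^d` is decreasing). -/
def Stmt_LAM : Prop := (∀ s, Esk s (fun c => (c : ℝ)) ≤ 13 / 12) ∧
  ∀ d : ℕ, (1 - 1 / 3 ^ d) * Esk (d - 1) (fun c => (c : ℝ)) + (d + 1) / 3 ^ d ≤ 11 / 9

/-- PTK_WSUM: sums weighted by the number of the classes of points.
Proof. `Nat.card (WqS .. B) = ∑ y ∈ VS, if Occ B (zN π e y) then 1 else 0`. `UPS` (1) with `ι = VS`, `c = 1`, `M = 0`,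
`T y E = {q ∈ S E | Occ (BB h n E q) (zN π e y)}`, `G' = G` (equality of the two sides). `y = 0`: `zN π e 0` is `1` up to cubes, bound by the
hypothesis for `S` (`UPS` (1) again: `T 0 E ⊆ S E`). `y ≠ 0`: `LIN` for `V0`: `x₀ / 3^v₀` for `y ∉ V0`, `x₀ / 3^(v₀ - 1)` for `y ∈ V0`. The sum is
`(1 + (3^v₀ - 1) 3^(1 - v₀) + (3^v - 3^v₀) 3^(-v₀)) x₀ ≤ (3 + 3^d) x₀` by `VDIM` (as in `AVW_thm`, PTK/AVW.lean). -/
def Stmt_WSUM : Prop := ∀ (h n m k : ℕ) (π : Fin m → PP) (p e : Fin m → ℕ) (r f : Fin k → ℕ)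
  (w0 : ZMod 3) (c : Fin m → ZMod 3), NF n π p e r f → h ≤ 2 →
  ∀ (S : ℕ → Set ℕ) (G : ℕ → ℕ → ℝ) (x₀ : ℝ), 0 ≤ x₀ → (∀ E q, 0 ≤ G E q) → UpS S G x₀ →
  (∀ y ∈ VS h n π p e r w0 c, ∀ (s : ℕ) (u : Fin s → Fin (m + 1) → ZMod 3),
    (∀ j, u j ∈ V0 h n π p e r w0 c) →
    LinearIndependent (ZMod 3) (Fin.cons y u : Fin (s + 1) → Fin (m + 1) → ZMod 3) →
    UpS (fun E => {q | q ∈ S E ∧ Occ (BB h n E q) (zN π e y)}) G (x₀ / 3 ^ s)) →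
  UpS S (fun E q => (Nat.card (WqS h n π p e r w0 c (BB h n E q)) : ℝ) * G E q)
    ((3 + 3 ^ dN h n w0) * x₀)

/-! ### `q = 2 (mod 3)` -/

/-- a system for the plus part, `q = 2 (mod 3)` -/
structure PlS (h n : ℕ) {m : ℕ} (π : Fin m → PP) (w0 : ZMod 3) (c : Fin m → ZMod 3) {s : ℕ}
    (τ : Fin s → Fin 3) (b X Y : Fin s → ℤ) (P Q P' Q' : Fin s → Fin s → ℤ) : Prop where
  adm : ∀ i, AdN h n π w0 c (b i)
  sys : SysG b P Q P' Q'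
  sw : SwS P Q P' Q'
  lam : ∀ B : ℤ, TyB h n w0 B → LamS B τ b X Y
  gen : ∀ x : ℤ, AdN h n π w0 c x → ∃ (g : Fin s → ℕ) (u v : ℤ), u ≠ 0 ∧ v ≠ 0 ∧
    x * u ^ 3 = (∏ i, b i ^ g i) * v ^ 3

/-- the corank of the matrix of the plus part, `q = 2 (mod 3)` -/
noncomputable def kS (h n : ℕ) {s : ℕ} (b X Y : Fin s → ℤ) (P Q P' Q' : Fin s → Fin s → ℤ) (E q : ℕ) : ℕ :=
  s - (MaT b X Y P Q P' Q' (BB h n E q)).rank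

/-- `κ` is the class modulo `f` -/
def IsK {m f : ℕ} (π : Fin m → PP) (κ : (ZMod f)ˣ →* Multiplicative (Fin (m + 1) → ZMod 3)) : Prop :=
  ∀ (Q : ℕ) (hQ : Q.Coprime f), (κ (ZMod.unitOfCoprime Q hQ)).toAdd =
    Fin.cons (wt ((Q : ℤ) ^ 2)) (fun i => sym (π i).1 (Q : Eis))

/-- PTK_PLE: existence of a system for the plus part. Proof: `NBAS`, `ESYT` (`AdN` implies `AdC`). -/
def Stmt_PLE : Prop := ∀ (h n m k : ℕ) (π : Fin m → PP) (p e : Fin m → ℕ) (r f : Fin k → ℕ)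
  (w0 : ZMod 3) (c : Fin m → ZMod 3), NF n π p e r f → h ≤ 2 →
  ∃ (s : ℕ) (τ : Fin s → Fin 3) (b X Y : Fin s → ℤ) (P Q P' Q' : Fin s → Fin s → ℤ),
    s = sN h n π p e r w0 c ∧ PlS h n π w0 c τ b X Y P Q P' Q'

/-- PTK_MSP: the primes with large corank are in `SP`, `SM`.
Proof. This is the part `hmat`, `hsub1`, `hsub2` of `CLN_thm` (PTN/CLN.lean) for an arbitrary multiple `f'` of the conductor
`f₀ = ∏ F0 j i` (`DCOT`), without the rank of the curve. -/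
def Stmt_MSP : Prop := ∀ (h n m k : ℕ) (π : Fin m → PP) (p e : Fin m → ℕ) (r f : Fin k → ℕ)
  (w0 : ZMod 3) (c : Fin m → ZMod 3) (s : ℕ) (τ : Fin s → Fin 3) (b X Y : Fin s → ℤ)
  (P Q P' Q' : Fin s → Fin s → ℤ), NF n π p e r f → h ≤ 2 → PlS h n π w0 c τ b X Y P Q P' Q' →
  ∃ f₀ : ℕ, 0 < f₀ ∧ ∀ f' : ℕ, 0 < f' → f₀ ∣ f' →
  ∀ κ : (ZMod f')ˣ →* Multiplicative (Fin (m + 1) → ZMod 3), IsK π κ →
  ∃ (C : Fin s → Fin s → ZMod 3) (Φ : (ZMod f')ˣ →* Multiplicative (Fin s → Fin s → ZMod 3)) (N₀ : ℕ),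
    ∀ q t : ℕ, q.Prime → N₀ < q → q % 3 = 2 →
      (InCT 1 π w0 c q → t ≤ kS h n b X Y P Q P' Q' 1 q →
        q ∈ SP b P Q P' Q' t κ (Fin.cons w0 c) C Φ) ∧
      (InCT 2 π w0 c q → t ≤ kS h n b X Y P Q P' Q' 2 q →
        q ∈ SM b P Q P' Q' t κ (Fin.cons w0 c) C Φ)

/-- PTK_MSK: the primes for which `zN π e y` is the class of a point are in `SPK`, `SMK`.
Proof. This is the main part of `CTK_thm` (PTK/CTK.lean): `DCK` for every `j`, `ZS`, `PT`. -/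
def Stmt_MSK : Prop := ∀ (h n m k : ℕ) (π : Fin m → PP) (p e : Fin m → ℕ) (r f : Fin k → ℕ)
  (w0 : ZMod 3) (c : Fin m → ZMod 3), NF n π p e r f → h ≤ 2 →
  ∀ y ∈ VS h n π p e r w0 c, ∀ (s : ℕ) (u : Fin s → Fin (m + 1) → ZMod 3) (P Q P' Q' : Fin s → Eis),
  (∀ j, u j ∈ V0 h n π p e r w0 c) → SysK (zN π e y) (fun j => zN π e (u j)) P Q P' Q' →
  (∀ j, HypD (3 ^ h * n) (zN π e (u j)) (zN π e y) (P j) (Q j) (P' j) (Q' j)) →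
  ∃ f₀ : ℕ, 0 < f₀ ∧ ∀ f' : ℕ, 0 < f' → f₀ ∣ f' →
  ∀ κ : (ZMod f')ˣ →* Multiplicative (Fin (m + 1) → ZMod 3), IsK π κ →
  ∃ (C : Fin s → ZMod 3) (Φ : (ZMod f')ˣ →* Multiplicative (Fin s → ZMod 3)) (N₀ : ℕ),
    ∀ q : ℕ, q.Prime → N₀ < q →
      (q ∈ QY h n π e w0 c y 1 →
        q ∈ SPK (zN π e y) (fun j => zN π e (u j)) P Q P' Q' κ (Fin.cons w0 c) C Φ) ∧
      (q ∈ QY h n π e w0 c y 2 →
        q ∈ SMK (zN π e y) (fun j => zN π e (u j)) P Q P' Q' κ (Fin.cons w0 c) C Φ)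

/-- PTK_CTJ: the joint density.
Proof. `SYK` for `y`, `u`; `MSP`, `MSK`, common conductor `f' = 9 (∏ p i) f₀ f₀'`, `κ` from `CLSC`, `BDJ`, `CL.sm_le_add`
(`{q ∈ QY .. 1, t ≤ kS 1 q} ⊆ SP ∩ SPK` for large `q`). -/
def Stmt_CTJ : Prop := ∀ (h n m k : ℕ) (π : Fin m → PP) (p e : Fin m → ℕ) (r f : Fin k → ℕ)
  (w0 : ZMod 3) (c : Fin m → ZMod 3) (s : ℕ) (τ : Fin s → Fin 3) (b X Y : Fin s → ℤ)
  (P Q P' Q' : Fin s → Fin s → ℤ), NF n π p e r f → h ≤ 2 → PlS h n π w0 c τ b X Y P Q P' Q' →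
  ∀ y ∈ VS h n π p e r w0 c, ∀ (l : ℕ) (u : Fin l → Fin (m + 1) → ZMod 3),
  (∀ j, u j ∈ V0 h n π p e r w0 c) →
  LinearIndependent (ZMod 3) (Fin.cons y u : Fin (l + 1) → Fin (m + 1) → ZMod 3) →
  ∀ t : ℕ, ∃ K : ℝ, ∀ σ : ℝ, 1 < σ → σ ≤ 2 →
    BDENS.sm {q | q ∈ QY h n π e w0 c y 1 ∧ t ≤ kS h n b X Y P Q P' Q' 1 q} σ +
      BDENS.sm {q | q ∈ QY h n π e w0 c y 2 ∧ t ≤ kS h n b X Y P Q P' Q' 2 q} σ ≤
      1 / 3 ^ l / 3 ^ (m + 1) * LI s t * Real.log (1 / (σ - 1)) + K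

/-- PTK_CT0: the density of the corank. Proof: `MSP`, `CLSC`, `BDG` (as in `CLN_thm`). -/
def Stmt_CT0 : Prop := ∀ (h n m k : ℕ) (π : Fin m → PP) (p e : Fin m → ℕ) (r f : Fin k → ℕ)
  (w0 : ZMod 3) (c : Fin m → ZMod 3) (s : ℕ) (τ : Fin s → Fin 3) (b X Y : Fin s → ℤ)
  (P Q P' Q' : Fin s → Fin s → ℤ), NF n π p e r f → h ≤ 2 → PlS h n π w0 c τ b X Y P Q P' Q' →
  ∀ t : ℕ, ∃ K : ℝ, ∀ σ : ℝ, 1 < σ → σ ≤ 2 →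
    BDENS.sm {q | (q % 3 = 2 ∧ InCT 1 π w0 c q) ∧ t ≤ kS h n b X Y P Q P' Q' 1 q} σ +
      BDENS.sm {q | (q % 3 = 2 ∧ InCT 2 π w0 c q) ∧ t ≤ kS h n b X Y P Q P' Q' 2 q} σ ≤
      1 / 3 ^ (m + 1) * LI s t * Real.log (1 / (σ - 1)) + K

/-- bounds for the average of the rank in a class, `q = 2 (mod 3)` -/
noncomputable def aQ (d : ℕ) : ℝ := if d = 0 then 9 / 4 else if d = 1 then 31 / 12 else 13 / 4

/-- bounds for the average of the rank in a class, `q = 1 (mod 3)` -/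
noncomputable def cQ (d : ℕ) : ℝ := if d = 0 then 43 / 18 else if d = 1 then 49 / 18 else 61 / 18

/-- PTK_AV2: the averages in a class, `q = 2 (mod 3)`.
Proof. System from `PLE`; `S E = {q | q % 3 = 2 ∧ InCT E π w0 c q}`, `κ = kS`. `CT0`, `KUP` with `x = 1 / 3^(m+1)`: `UpS S (3^κ) (4 x)`,
`UpS S κ (13/12 x)` (`LAM`), `UpS S 1 x`. `CTJ`, `KUP` with `x / 3^l` (the set `{q ∈ S E, Occ ..}` is `QY .. E`): hypotheses of `WSUM` for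
`G = 3^κ`, `x₀ = 4 x` and `G = 1`, `x₀ = x`. So `UpS S (card WqS · 3^κ) (4 (3 + 3^d) x)`, `UpS S (card WqS) ((3 + 3^d) x)`. For large `q`: `NBW`
(fields of `PlS`) and `WGR`: `rr B ≤ w + κ`, `w = Nat.log 3 (card WqS)`, `card WqS = 3^w` (`CubeRank.rr_le`). So
`3^(rr B) ≤ card WqS · 3^κ`, and `rr B ≤ 1/2 + card WqS / 6 + κ` (`d ≤ 1`), `rr B ≤ 3/2 + card WqS / 18 + κ` (`d = 2`), see `AVR_thm`.
`1/2 + 4/6 + 13/12 = 9/4`, `1/2 + 1 + 13/12 = 31/12`, `3/2 + 12/18 + 13/12 = 13/4`. `UPS`, `UPA`. -/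
def Stmt_AV2 : Prop := ∀ (h n m k : ℕ) (π : Fin m → PP) (p e : Fin m → ℕ) (r f : Fin k → ℕ)
  (w0 : ZMod 3) (c : Fin m → ZMod 3), NF n π p e r f → h ≤ 2 →
  AboveA ((3 ^ h * n : ℕ) : ℤ) 2 (Kl π w0 c) (fun A => (CubeRank.rr A : ℝ))
    (aQ (dN h n w0) / 3 ^ (m + 1)) ∧
  AboveA ((3 ^ h * n : ℕ) : ℤ) 2 (Kl π w0 c) (fun A => 3 ^ CubeRank.rr A)
    (4 * (3 + 3 ^ dN h n w0) / 3 ^ (m + 1))

/-! ### `q = 1 (mod 3)`: the classes and the bounds -/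

/-- PTK_ZSU: the classes of `VS` are in the minus part of the Selmer group, `q = 1 (mod 3)`.
Proof. As `ZS_thm` (PTK/ZS.lean). At `π i`, `conj (π i)`, `r j` and the places prime to `3 n q` the same computation (`NPSU.dat` for the data of `B`).
At `ρ`, `conj ρ`: `tm (conj ρ) z B = tm ρ z B` (`SCJ`, `conj z = t³ / z`, `B` rational), so the product formula for `(z, B)` and `sl z B = 0` give
`2 tm ρ z B = 0`. -/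
def Stmt_ZSU : Prop := ∀ (h n m k : ℕ) (π : Fin m → PP) (p e : Fin m → ℕ) (r f : Fin k → ℕ)
  (w0 : ZMod 3) (c : Fin m → ZMod 3) (E q : ℕ), NF n π p e r f → h ≤ 2 →
  (E = 1 ∨ E = 2) → q.Prime → q % 3 = 1 → InCT E π w0 c q → ¬ q ∣ n →
  ∀ y ∈ VS h n π p e r w0 c, SelM (BB h n E q) (zN π e y)

/-- PTK_WGU: the classes of the rational points, `q = 1 (mod 3)`.
Proof. First part: as `WGR_thm` (`S1G`, `ZA`; the group `WqS` does not depend on the type of `q`). Second part: for `z` with `S1 B z` (so `SelM B z`,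
`NKIN`) put `t z = V ρ z` in `ZMod 3`. (a) If `S1 B z`, `S1 B z'`, `t z = t z'` then there is `y ∈ WqS` with `z g³ = zN y z' g'³`: by `S1G` there is `z''`,
`S1 B z''`, `z'' z' g³ = z g'³`, so `t z'' = 0`; the pair of `z''` (`NPSU.mem_YY` in PTN/NPSU.lean) is `(y, 0)` with `y ∈ VS` (`NPSU.fst_mem`), `zN π e y` is in
`SelM` (`ZSU`) with the same pair (`ZA`, `ρ ∤ n`), and `NPSU.cube` (see the end of `NPSU_thm`) gives `z'' g³ = zN y g'³`; so `y ∈ WqS`. (b) If there is an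
admissible `x` with `sym ρ x ≠ 0` then `t z = 0` for all `z` (`NPSU.snd_zero`, see `NPSU_thm`). Choose for every value `t` of `t z` a `z_t` with `S1 B z_t`
(`z_0 = 1`), and put `Y z = (y, t z)` with `y` from (a) for `z`, `z_{t z}`: `W = WqS × ZMod 3`, resp. `W = WqS` in the case (b). -/
def Stmt_WGU : Prop := ∀ (h n m k : ℕ) (π : Fin m → PP) (p e : Fin m → ℕ) (r f : Fin k → ℕ)
  (w0 : ZMod 3) (c : Fin m → ZMod 3) (E q : ℕ) (ρ : PP), NF n π p e r f → h ≤ 2 →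
  (E = 1 ∨ E = 2) → q.Prime → 3 < q → q % 3 = 1 → InCT E π w0 c q → ¬ q ∣ n →
  (q : Eis) = ρ.1 * conj ρ.1 →
  (∃ d : ℕ, Nat.card (WqS h n π p e r w0 c (BB h n E q)) = 3 ^ d) ∧
  ∃ (W : Type) (_ : Finite W) (Y : Eis → W),
    (Nat.card W ≤ 3 * Nat.card (WqS h n π p e r w0 c (BB h n E q))) ∧
    ((∃ x : ℤ, AdN h n π w0 c x ∧ sym ρ.1 (x : Eis) ≠ 0) →
      Nat.card W ≤ Nat.card (WqS h n π p e r w0 c (BB h n E q))) ∧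
    ∀ z z' : Eis, S1 (BB h n E q) z → S1 (BB h n E q) z' → Y z = Y z' →
      ∃ g g' : Eis, g ≠ 0 ∧ g' ≠ 0 ∧ z * g ^ 3 = z' * g' ^ 3

/-- a system for the plus part, `q = 1 (mod 3)`, pattern `δ` -/
structure PlU (h n : ℕ) {m : ℕ} (π : Fin m → PP) (w0 : ZMod 3) (c : Fin m → ZMod 3) {d : ℕ}
    (v : Fin d → ℤ) (δ : Fin d → ZMod 3) {s : ℕ} (τ : Fin s → Fin 3) (b : Fin (s + 1) → ℤ)
    (X Y : Fin s → ℤ) (P Q P' Q' : Fin (s + 1) → Fin (s + 1) → ℤ) : Prop where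
  dim : s + 1 = d
  adm : ∀ i, AdN h n π w0 c (b i)
  sys : SysG b P Q P' Q'
  sw : SwS P Q P' Q'
  lam : ∀ B : ℤ, TyB h n w0 B → LamS B τ (rv b) X Y
  pat : ∀ ρ : PP, ¬ ρ.1 ∣ (n : Eis) →
    (((∀ i : Fin s, sym ρ.1 (b i.castSucc : Eis) = 0) ∧
      sym ρ.1 (b (Fin.last s) : Eis) ≠ 0) ↔
      ∃ ε : ZMod 3, ε ≠ 0 ∧ ∀ i, sym ρ.1 (v i : Eis) = ε * δ i) ∧
    ((∀ i : Fin s, sym ρ.1 (b i.castSucc : Eis) = 0) →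
      sym ρ.1 (b (Fin.last s) : Eis) ≠ 0 →
      ∀ x : ℤ, AdN h n π w0 c x → sym ρ.1 (x : Eis) = 0 → ∃ (g : Fin s → ℕ) (u t : ℤ),
        u ≠ 0 ∧ t ≠ 0 ∧ x * u ^ 3 = (∏ i, b i.castSucc ^ g i) * t ^ 3)

/-- the corank of the matrix of the plus part, `q = 1 (mod 3)` -/
noncomputable def kU (h n : ℕ) {s : ℕ} (b : Fin (s + 1) → ℤ) (X Y : Fin s → ℤ)
    (P Q P' Q' : Fin (s + 1) → Fin (s + 1) → ℤ) (E q : ℕ) : ℕ :=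
  s - (MaT (rv b) X Y (rs P) (rs Q) (rs P') (rs Q') (BB h n E q)).rank

/-- PTK_PLU: existence of the systems. Proof: `HB`, `ESYT` (as at the beginning of `DLU_thm`, PTN/DLU.lean). -/
def Stmt_PLU : Prop := ∀ (h n m k : ℕ) (π : Fin m → PP) (p e : Fin m → ℕ) (r f : Fin k → ℕ)
  (w0 : ZMod 3) (c : Fin m → ZMod 3) (d : ℕ) (v : Fin d → ℤ), NF n π p e r f → h ≤ 2 →
  HB h n π w0 c v → ∀ δ : Fin d → ZMod 3, δ ≠ 0 →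
  ∃ (s : ℕ) (τ : Fin s → Fin 3) (b : Fin (s + 1) → ℤ) (X Y : Fin s → ℤ)
    (P Q P' Q' : Fin (s + 1) → Fin (s + 1) → ℤ), PlU h n π w0 c v δ τ b X Y P Q P' Q'

/-- PTK_NBU: the bound for the rank, `q = 1 (mod 3)`, generic pattern.
Proof. As `NBKU_thm` (PTN/NBKU.lean) with `WGU` in place of `NPSU` (second bound for `Nat.card W`: `b (Fin.last s)` is admissible with `sym ρ ≠ 0`, by
`pat` for the `ρ` of `Pat v δ`; `ρ ∤ n`). `Nat.card WqS = 3^w`, `w = Nat.log 3 ..`. -/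
def Stmt_NBU : Prop := ∀ (h n m k : ℕ) (π : Fin m → PP) (p e : Fin m → ℕ) (r f : Fin k → ℕ)
  (w0 : ZMod 3) (c : Fin m → ZMod 3) (d : ℕ) (v : Fin d → ℤ) (δ : Fin d → ZMod 3)
  (s : ℕ) (τ : Fin s → Fin 3) (b : Fin (s + 1) → ℤ) (X Y : Fin s → ℤ)
  (P Q P' Q' : Fin (s + 1) → Fin (s + 1) → ℤ) (E q : ℕ), NF n π p e r f → h ≤ 2 → δ ≠ 0 →
  PlU h n π w0 c v δ τ b X Y P Q P' Q' →
  (E = 1 ∨ E = 2) → q.Prime → 3 < q → q % 3 = 1 → InCT E π w0 c q → ¬ q ∣ n → q ∈ Pat v δ →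
  CubeRank.GenBy (BB h n E q) (Nat.log 3 (Nat.card (WqS h n π p e r w0 c (BB h n E q))) +
    kU h n b X Y P Q P' Q' E q)

/-- PTK_NBZ: the bound for the rank, `q = 1 (mod 3)`, without the matrix.
Proof. As `NBK0_thm` (PTN/NBK0.lean) with `WGU` in place of `NPSU` (first bound for `Nat.card W`; a `ρ` exists by `SPLT`). -/
def Stmt_NBZ : Prop := ∀ (h n m k : ℕ) (π : Fin m → PP) (p e : Fin m → ℕ) (r f : Fin k → ℕ)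
  (w0 : ZMod 3) (c : Fin m → ZMod 3) (E q : ℕ), NF n π p e r f → h ≤ 2 →
  (E = 1 ∨ E = 2) → q.Prime → 3 < q → q % 3 = 1 → InCT E π w0 c q → ¬ q ∣ n →
  CubeRank.GenBy (BB h n E q) (Nat.log 3 (Nat.card (WqS h n π p e r w0 c (BB h n E q))) + 1 +
    sN h n π p e r w0 c)

/-! ### `q = 1 (mod 3)`: densities -/

/-- the primes `q = 1 (mod 3)` such that `zN π e y` is the class of a point -/
def QYU (h n : ℕ) {m : ℕ} (π : Fin m → PP) (e : Fin m → ℕ) (w0 : ZMod 3) (c : Fin m → ZMod 3)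
    (y : Fin (m + 1) → ZMod 3) (E : ℕ) : Set ℕ :=
  {q : ℕ | q % 3 = 1 ∧ InCT E π w0 c q ∧ Occ (BB h n E q) (zN π e y)}

/-- PTK_MSPU: as `MSP`, `q = 1 (mod 3)`.
Proof. This is the part `hmat`, `hsub1`, `hsub2` of `DLU_thm` (PTN/DLU.lean) for an arbitrary multiple `f'` of the conductor `∏ f₀ j i` (`DCOU`), without
the rank of the curve. -/
def Stmt_MSPU : Prop := ∀ (h n m k : ℕ) (π : Fin m → PP) (p e : Fin m → ℕ) (r f : Fin k → ℕ)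
  (w0 : ZMod 3) (c : Fin m → ZMod 3) (d : ℕ) (v : Fin d → ℤ) (δ : Fin d → ZMod 3)
  (s : ℕ) (τ : Fin s → Fin 3) (b : Fin (s + 1) → ℤ) (X Y : Fin s → ℤ)
  (P Q P' Q' : Fin (s + 1) → Fin (s + 1) → ℤ), NF n π p e r f → h ≤ 2 → δ ≠ 0 →
  PlU h n π w0 c v δ τ b X Y P Q P' Q' →
  ∃ f₀ : ℕ, 0 < f₀ ∧ ∀ f' : ℕ, 0 < f' → f₀ ∣ f' →
  ∀ κ : (ZMod f')ˣ →* Multiplicative (Fin (m + 1) → ZMod 3), IsK π κ →
  ∃ (C : Fin s → Fin s → ZMod 3) (Φ : (ZMod f')ˣ →* Multiplicative (Fin s → Fin s → ZMod 3)) (N₀ : ℕ),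
    ∀ q t : ℕ, q.Prime → N₀ < q → q % 3 = 1 → q ∈ Pat v δ →
      (InCT 1 π w0 c q → t ≤ kU h n b X Y P Q P' Q' 1 q →
        q ∈ SPU b P Q P' Q' t κ (Fin.cons w0 c) C Φ) ∧
      (InCT 2 π w0 c q → t ≤ kU h n b X Y P Q P' Q' 2 q →
        q ∈ SMU b P Q P' Q' t κ (Fin.cons w0 c) C Φ)

/-- PTK_MSKU: as `MSK`, `q = 1 (mod 3)`.
Proof. As `MSK`, with `DCKU`, `ZSU`. For `ρ` with `q = ρ conj ρ`: `V ρ B = E`, `tm ρ z B = 0` gives `sym ρ z = 0` for the classes `z`. -/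
def Stmt_MSKU : Prop := ∀ (h n m k : ℕ) (π : Fin m → PP) (p e : Fin m → ℕ) (r f : Fin k → ℕ)
  (w0 : ZMod 3) (c : Fin m → ZMod 3), NF n π p e r f → h ≤ 2 →
  ∀ y ∈ VS h n π p e r w0 c, ∀ (s : ℕ) (u : Fin s → Fin (m + 1) → ZMod 3) (P Q P' Q' : Fin s → Eis),
  (∀ j, u j ∈ V0 h n π p e r w0 c) → SysK (zN π e y) (fun j => zN π e (u j)) P Q P' Q' →
  (∀ j, HypD (3 ^ h * n) (zN π e (u j)) (zN π e y) (P j) (Q j) (P' j) (Q' j)) →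
  ∃ f₀ : ℕ, 0 < f₀ ∧ ∀ f' : ℕ, 0 < f' → f₀ ∣ f' →
  ∀ κ : (ZMod f')ˣ →* Multiplicative (Fin (m + 1) → ZMod 3), IsK π κ →
  ∃ (C : Fin s → ZMod 3) (Φ : (ZMod f')ˣ →* Multiplicative (Fin s → ZMod 3)) (N₀ : ℕ),
    ∀ q : ℕ, q.Prime → N₀ < q →
      (q ∈ QYU h n π e w0 c y 1 →
        q ∈ SPKU (zN π e y) (fun j => zN π e (u j)) P Q P' Q' κ (Fin.cons w0 c) C Φ) ∧
      (q ∈ QYU h n π e w0 c y 2 →
        q ∈ SMKU (zN π e y) (fun j => zN π e (u j)) P Q P' Q' κ (Fin.cons w0 c) C Φ)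

/-- PTK_CTU: the joint density, `q = 1 (mod 3)`, generic pattern.
Proof. `SYK`, `MSPU`, `MSKU`, `CLSC`, `CLSCS`, `BDJU`, as `CTJ`; `2 / 3^(s + 1) = 2 / 3^d`. -/
def Stmt_CTU : Prop := ∀ (h n m k : ℕ) (π : Fin m → PP) (p e : Fin m → ℕ) (r f : Fin k → ℕ)
  (w0 : ZMod 3) (c : Fin m → ZMod 3) (d : ℕ) (v : Fin d → ℤ) (δ : Fin d → ZMod 3)
  (s : ℕ) (τ : Fin s → Fin 3) (b : Fin (s + 1) → ℤ) (X Y : Fin s → ℤ)
  (P Q P' Q' : Fin (s + 1) → Fin (s + 1) → ℤ), NF n π p e r f → h ≤ 2 → δ ≠ 0 →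
  PlU h n π w0 c v δ τ b X Y P Q P' Q' →
  ∀ y ∈ VS h n π p e r w0 c, ∀ (l : ℕ) (u : Fin l → Fin (m + 1) → ZMod 3),
  (∀ j, u j ∈ V0 h n π p e r w0 c) →
  LinearIndependent (ZMod 3) (Fin.cons y u : Fin (l + 1) → Fin (m + 1) → ZMod 3) →
  ∀ t : ℕ, ∃ K : ℝ, ∀ σ : ℝ, 1 < σ → σ ≤ 2 →
    BDENS.sm {q | (q ∈ QYU h n π e w0 c y 1 ∧ q ∈ Pat v δ) ∧
        t ≤ kU h n b X Y P Q P' Q' 1 q} σ +
      BDENS.sm {q | (q ∈ QYU h n π e w0 c y 2 ∧ q ∈ Pat v δ) ∧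
        t ≤ kU h n b X Y P Q P' Q' 2 q} σ ≤
      2 / 3 ^ d / 3 ^ l / 3 ^ (m + 1) * LI s t * Real.log (1 / (σ - 1)) + K

/-- PTK_CU0: the density of the corank, `q = 1 (mod 3)`, generic pattern. Proof: `MSPU`, `CLSC`, `CLSCS`, `BDU` (as in `DLU_thm`). -/
def Stmt_CU0 : Prop := ∀ (h n m k : ℕ) (π : Fin m → PP) (p e : Fin m → ℕ) (r f : Fin k → ℕ)
  (w0 : ZMod 3) (c : Fin m → ZMod 3) (d : ℕ) (v : Fin d → ℤ) (δ : Fin d → ZMod 3)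
  (s : ℕ) (τ : Fin s → Fin 3) (b : Fin (s + 1) → ℤ) (X Y : Fin s → ℤ)
  (P Q P' Q' : Fin (s + 1) → Fin (s + 1) → ℤ), NF n π p e r f → h ≤ 2 → δ ≠ 0 →
  PlU h n π w0 c v δ τ b X Y P Q P' Q' →
  ∀ t : ℕ, ∃ K : ℝ, ∀ σ : ℝ, 1 < σ → σ ≤ 2 →
    BDENS.sm {q | (q % 3 = 1 ∧ InCT 1 π w0 c q ∧ q ∈ Pat v δ) ∧
        t ≤ kU h n b X Y P Q P' Q' 1 q} σ +
      BDENS.sm {q | (q % 3 = 1 ∧ InCT 2 π w0 c q ∧ q ∈ Pat v δ) ∧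
        t ≤ kU h n b X Y P Q P' Q' 2 q} σ ≤
      2 / 3 ^ d / 3 ^ (m + 1) * LI s t * Real.log (1 / (σ - 1)) + K

/-- PTK_CTZ: the joint density, `q = 1 (mod 3)`, all rational classes cubes modulo `q`.
Proof. Let `b : Fin sN → ℤ` be the basis of `PLE` (a `SysG`). If `q ∈ ZP v` is large then `q ∈ ZP b` (`HB`: every `b i` is a product of the `v j` up to cubes).
`SYK`, `MSKU`, `CLSC`, `CLSCS`, `BDJZ` for `b`. -/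
def Stmt_CTZ : Prop := ∀ (h n m k : ℕ) (π : Fin m → PP) (p e : Fin m → ℕ) (r f : Fin k → ℕ)
  (w0 : ZMod 3) (c : Fin m → ZMod 3) (d : ℕ) (v : Fin d → ℤ), NF n π p e r f → h ≤ 2 →
  HB h n π w0 c v →
  ∀ y ∈ VS h n π p e r w0 c, ∀ (l : ℕ) (u : Fin l → Fin (m + 1) → ZMod 3),
  (∀ j, u j ∈ V0 h n π p e r w0 c) →
  LinearIndependent (ZMod 3) (Fin.cons y u : Fin (l + 1) → Fin (m + 1) → ZMod 3) →
  ∃ K : ℝ, ∀ σ : ℝ, 1 < σ → σ ≤ 2 →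
    BDENS.sm {q | q ∈ QYU h n π e w0 c y 1 ∧ q ∈ ZP v} σ +
      BDENS.sm {q | q ∈ QYU h n π e w0 c y 2 ∧ q ∈ ZP v} σ ≤
      1 / 3 ^ sN h n π p e r w0 c / 3 ^ l / 3 ^ (m + 1) * Real.log (1 / (σ - 1)) + K

/-- PTK_CZ0: the density of the zero pattern.
Proof. As the part on `Z_E` in `CLU_thm` (PTN/CLU.lean): `CLT` (`a = 1`) minus the lower bounds `DLL` for the nonzero patterns (`SMT` (2)). Here
`d = sN` (the `d` of `NHPT`). -/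
def Stmt_CZ0 : Prop := ∀ (h n m k : ℕ) (π : Fin m → PP) (p e : Fin m → ℕ) (r f : Fin k → ℕ)
  (w0 : ZMod 3) (c : Fin m → ZMod 3) (d : ℕ) (v : Fin d → ℤ), NF n π p e r f → h ≤ 2 →
  HB h n π w0 c v →
  ∃ K : ℝ, ∀ σ : ℝ, 1 < σ → σ ≤ 2 →
    BDENS.sm {q | q % 3 = 1 ∧ InCT 1 π w0 c q ∧ q ∈ ZP v} σ +
      BDENS.sm {q | q % 3 = 1 ∧ InCT 2 π w0 c q ∧ q ∈ ZP v} σ ≤
      1 / 3 ^ d / 3 ^ (m + 1) * Real.log (1 / (σ - 1)) + K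

/-- PTK_PAT: every prime has a pattern.
Proof. If `q ∉ ZP v` there is a `ρ` with `q = ρ conj ρ` such that the vector `x = (sym ρ (v i))_i` is not `0`. Then `q ∈ Pat v x` (`ε = 1`) and
`q ∈ Pat v (-x)` (`ε = -1`), and `x ≠ -x`. (`M = 0`.) -/
def Stmt_PAT : Prop := ∀ (d : ℕ) (v : Fin d → ℤ), (∀ i, v i ≠ 0) → ∃ M : ℕ, ∀ q : ℕ, q.Prime → M < q →
  q % 3 = 1 → q ∈ ZP v ∨ ∃ δ δ' : Fin d → ZMod 3, δ ≠ 0 ∧ δ' ≠ 0 ∧ δ ≠ δ' ∧ q ∈ Pat v δ ∧ q ∈ Pat v δ'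

/-- PTK_AVG: the averages for one pattern, `q = 1 (mod 3)`.
Proof. `S E = {q | q % 3 = 1 ∧ InCT E π w0 c q ∧ q ∈ Pat v δ}`, `κ = kU`, `x = 2 / 3^d / 3^(m+1)`. `CU0`, `KUP`: `UpS S (3^κ) (4 x)`,
`UpS S κ (Esk s id x)`, `UpS S 1 x`. `CTU`, `KUP` with `x / 3^l`: hypotheses of `WSUM` for `G = 3^κ`, `x₀ = 4 x`, and `G = 1`, `x₀ = x`. -/
def Stmt_AVG : Prop := ∀ (h n m k : ℕ) (π : Fin m → PP) (p e : Fin m → ℕ) (r f : Fin k → ℕ)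
  (w0 : ZMod 3) (c : Fin m → ZMod 3) (d : ℕ) (v : Fin d → ℤ) (δ : Fin d → ZMod 3)
  (s : ℕ) (τ : Fin s → Fin 3) (b : Fin (s + 1) → ℤ) (X Y : Fin s → ℤ)
  (P Q P' Q' : Fin (s + 1) → Fin (s + 1) → ℤ), NF n π p e r f → h ≤ 2 → δ ≠ 0 →
  PlU h n π w0 c v δ τ b X Y P Q P' Q' →
  UpS (fun E => {q | q % 3 = 1 ∧ InCT E π w0 c q ∧ q ∈ Pat v δ})
    (fun E q => (Nat.card (WqS h n π p e r w0 c (BB h n E q)) : ℝ) * 3 ^ kU h n b X Y P Q P' Q' E q)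
    ((3 + 3 ^ dN h n w0) * (4 * (2 / 3 ^ d / 3 ^ (m + 1)))) ∧
  UpS (fun E => {q | q % 3 = 1 ∧ InCT E π w0 c q ∧ q ∈ Pat v δ})
    (fun E q => (Nat.card (WqS h n π p e r w0 c (BB h n E q)) : ℝ))
    ((3 + 3 ^ dN h n w0) * (2 / 3 ^ d / 3 ^ (m + 1))) ∧
  UpS (fun E => {q | q % 3 = 1 ∧ InCT E π w0 c q ∧ q ∈ Pat v δ})
    (fun E q => (kU h n b X Y P Q P' Q' E q : ℝ))
    (Esk (d - 1) (fun c => (c : ℝ)) * (2 / 3 ^ d / 3 ^ (m + 1))) ∧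
  UpS (fun E => {q | q % 3 = 1 ∧ InCT E π w0 c q ∧ q ∈ Pat v δ}) (fun _ _ => 1)
    (2 / 3 ^ d / 3 ^ (m + 1))

/-- PTK_AVZ: the averages for the zero pattern, `q = 1 (mod 3)`.
Proof. As `AVG` with `CZ0`, `CTZ` (`d = sN`) and `WSUM` for `G = 1`, `x₀ = 1 / 3^d / 3^(m+1)` (from `sm` to `UpS`: `KUP` with `R = 0`, `s = 0`,
`LI 0 t ≤ 1`, `LI 0 0 = 1`, the set for `t ≥ 1` is empty). -/
def Stmt_AVZ : Prop := ∀ (h n m k : ℕ) (π : Fin m → PP) (p e : Fin m → ℕ) (r f : Fin k → ℕ)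
  (w0 : ZMod 3) (c : Fin m → ZMod 3) (d : ℕ) (v : Fin d → ℤ), NF n π p e r f → h ≤ 2 →
  HB h n π w0 c v → d = sN h n π p e r w0 c →
  UpS (fun E => {q | q % 3 = 1 ∧ InCT E π w0 c q ∧ q ∈ ZP v})
    (fun E q => (Nat.card (WqS h n π p e r w0 c (BB h n E q)) : ℝ))
    ((3 + 3 ^ dN h n w0) * (1 / 3 ^ d / 3 ^ (m + 1))) ∧
  UpS (fun E => {q | q % 3 = 1 ∧ InCT E π w0 c q ∧ q ∈ ZP v}) (fun _ _ => 1)
    (1 / 3 ^ d / 3 ^ (m + 1))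

/-- PTK_AV1: the averages in a class, `q = 1 (mod 3)`.
Proof. `v` from `NHPT` (`d = sN`, `HB`), for every `δ ≠ 0` a system (`PLU`). `S E = {q | q % 3 = 1 ∧ InCT E π w0 c q}`. Let `N = card WqS = 3^w`. For large `q ∈ S E` (`PAT`):
if `q ∈ ZP v` then `rr B ≤ w + 1 + d` (`NBZ`), otherwise `rr B ≤ w + κ_δ` for (at least) two `δ ≠ 0` with `q ∈ Pat v δ` (`NBU`). So
`2 · 3^(rr B) ≤ ∑_{δ ≠ 0} [q ∈ Pat v δ] N 3^(κ_δ) + [q ∈ ZP v] 2 · 3^(1 + d) N`, and `UPS` (1) with `c = 2`, `ι = Option {δ // δ ≠ 0}`: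
`(1/2) ((3^d - 1) (3 + 3^D) 4 · 2 / 3^d + 2 · 3^(1 + d) (3 + 3^D) / 3^d) / 3^(m+1) ≤ 7 (3 + 3^D) / 3^(m+1)`, `D = dN`. Rank: `w ≤ 1/2 + N/6` (`D ≤ 1`) or `w ≤ 3/2 + N/18` (`D = 2`), so
`2 rr B ≤ ∑_δ [q ∈ Pat v δ] (1/2 + N/6 + κ_δ) + [q ∈ ZP v] 2 (1/2 + N/6 + 1 + d)` (the sum over `δ` has at least two terms and all are `≥ 0`); with
`AVG`, `AVZ`: `(1 - 1/3^d)(1/2 + (3 + 3^D)/6 + Esk (d - 1) id) + (1/3^d)(1/2 + (3 + 3^D)/6 + 1 + d) ≤ 1/2 + (3 + 3^D)/6 + 11/9` (`LAM`), `= 43/18`, `49/18` for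
`D = 0, 1`, and `3/2 + 12/18 + 11/9 = 61/18` for `D = 2`. `UPA`. -/
def Stmt_AV1 : Prop := ∀ (h n m k : ℕ) (π : Fin m → PP) (p e : Fin m → ℕ) (r f : Fin k → ℕ)
  (w0 : ZMod 3) (c : Fin m → ZMod 3), NF n π p e r f → h ≤ 2 →
  AboveA ((3 ^ h * n : ℕ) : ℤ) 1 (Kl π w0 c) (fun A => (CubeRank.rr A : ℝ))
    (cQ (dN h n w0) / 3 ^ (m + 1)) ∧
  AboveA ((3 ^ h * n : ℕ) : ℤ) 1 (Kl π w0 c) (fun A => 3 ^ CubeRank.rr A)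
    (7 * (3 + 3 ^ dN h n w0) / 3 ^ (m + 1))

/-! ### The theorem -/

/-- PTK_AVF: the averages over all `A`.
Proof. As `AVA_thm` (PTK/AVA.lean): `SUMA`, `AV2`, `AV1`. `h = 1`: `dN = 0`; `h = 2`: `dN = 1`; `h = 0`: one of the three `w0` has `dN = 2`, the others `dN = 1`.
`(2 · 31/12 + 13/4)/3 = 101/36`, `(2 · 49/18 + 61/18)/3 = 53/18`, `4 (6 + 6 + 12)/3 = 32`, `7 · 8 = 56`. -/
def Stmt_AVF : Prop := ∀ (h n m k : ℕ) (π : Fin m → PP) (p e : Fin m → ℕ) (r f : Fin k → ℕ),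
  NF n π p e r f → h ≤ 2 →
  AboveA ((3 ^ h * n : ℕ) : ℤ) 2 (fun _ => True) (fun A => (CubeRank.rr A : ℝ)) (101 / 36) ∧
  AboveA ((3 ^ h * n : ℕ) : ℤ) 2 (fun _ => True) (fun A => 3 ^ CubeRank.rr A) 32 ∧
  AboveA ((3 ^ h * n : ℕ) : ℤ) 1 (fun _ => True) (fun A => (CubeRank.rr A : ℝ)) (53 / 18) ∧
  AboveA ((3 ^ h * n : ℕ) : ℤ) 1 (fun _ => True) (fun A => 3 ^ CubeRank.rr A) 56

/-- PTK_MAJ: the theorem.
Proof. As `MAI_thm` (PTK/MAI.lean): `NFE`, `AVF`, `AV2`, `AV1`, `TRU`; `aQ ≤ 13/4`, `cQ ≤ 61/18`, `dN ≤ 2`. -/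
def Stmt_MAJ : Prop := ∀ N : ℕ, 0 < N → (∀ p : ℕ, p.Prime → ¬ p ^ 3 ∣ N) →
  ∀ m : ℕ, m = (N.primeFactors.filter (fun p => p % 3 = 1)).card →
  AboveA N 2 (fun _ => True) (fun A => (CubeRank.rr A : ℝ)) (101 / 36) ∧
  AboveA N 2 (fun _ => True) (fun A => 3 ^ CubeRank.rr A) 32 ∧
  AboveA N 1 (fun _ => True) (fun A => (CubeRank.rr A : ℝ)) (53 / 18) ∧
  AboveA N 1 (fun _ => True) (fun A => 3 ^ CubeRank.rr A) 56 ∧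
  ∀ u : (ZMod (9 * N))ˣ,
    AboveA N 2 (fun y => ∃ x : ℤ, ((9 * N : ℕ) : ℤ) ∣ y - ((u : ZMod (9 * N)).val : ℤ) * x ^ 3)
      (fun A => (CubeRank.rr A : ℝ)) (13 / 4 / 3 ^ (m + 1)) ∧
    AboveA N 2 (fun y => ∃ x : ℤ, ((9 * N : ℕ) : ℤ) ∣ y - ((u : ZMod (9 * N)).val : ℤ) * x ^ 3)
      (fun A => 3 ^ CubeRank.rr A) (48 / 3 ^ (m + 1)) ∧
    AboveA N 1 (fun y => ∃ x : ℤ, ((9 * N : ℕ) : ℤ) ∣ y - ((u : ZMod (9 * N)).val : ℤ) * x ^ 3)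
      (fun A => (CubeRank.rr A : ℝ)) (61 / 18 / 3 ^ (m + 1)) ∧
    AboveA N 1 (fun y => ∃ x : ℤ, ((9 * N : ℕ) : ℤ) ∣ y - ((u : ZMod (9 * N)).val : ℤ) * x ^ 3)
      (fun A => 3 ^ CubeRank.rr A) (84 / 3 ^ (m + 1))

end Pool.Agent.PTK
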