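import Pool.Agent.PT3.Stmts
import Pool.Agent.PTN.StA

/-!
# The average rank of prime twists: the local terms over `K = Q(w)`

The classes `b`, `x` are now elements of `Z[w]` (`Eis`) and not rational integers. The statements
of this file are those of `PT/Stmts1.lean` and `PT3/Stmts.lean` with `Eis` in place of `ℤ`; the
proofs are the same ones (copy the file named in the docstring and replace `ℤ` by `Eis`, casts
disappear). They were checked numerically.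

Everything in `PT`, `PTE`, `PT3`, `PTL`, `PTN` is proved and may be imported, or taken as a
hypothesis of your theorem (for example `(hSTM : STM) (hSPP : SPP) (hSSL : SSL) (hSLC : SLC)`,
`(hLCL : LCL)`, `(hSCJ : SCJ)`); statements `Stmt_...` of `PTK` may be hypotheses too, if your docstring
says so.
-/

set_option autoImplicit false

namespace Pool.Agent.PTK

open Pool.Agent.Lib_helper18 Pool.Agent.Lib_helper18.Eis Pool.Agent.Lib_helper84.Cub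
open Pool.Agent.PT

/-! ### Definitions -/

/-- the linear form `p + q w^i r` -/
def LfE (p q : Eis) (i : ℕ) (r : Eis) : Eis := p + q * w ^ i * r

/-- the symbol of `B` with `α = [(p + q w² r)(p' + q' w r)] / [(p + q w r)(p' + q' w² r)]` -/
def ASE (s : Eis → Eis → ZMod 3) (B : Eis) (p q p' q' r : Eis) : ZMod 3 :=
  s B (LfE p q 2 r) + s B (LfE p' q' 1 r) - s B (LfE p q 1 r) - s B (LfE p' q' 2 r)

/-- `G_i = q p' - w^i p q'` -/
def GfE (p q p' q' : Eis) (i : ℕ) : Eis := q * p' - w ^ i * p * q'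

/-- `D_i = X u + w^i v Y` -/
def DfE (X Y u v : Eis) (i : ℕ) : Eis := X * u + w ^ i * v * Y

/-- The local term of the point `(X, Y)`. -/
def SVE (s : Eis → Eis → ZMod 3) (x p q p' q' X Y : Eis) : ZMod 3 :=
  (s (DfE X Y p' p 1) (p ^ 3 - x * p' ^ 3) - s (DfE X Y p' p 2) (p ^ 3 - x * p' ^ 3) -
    s (DfE X Y p' p 1) (X ^ 3 + x * Y ^ 3) + s (DfE X Y p' p 2) (X ^ 3 + x * Y ^ 3)) -
  (s (DfE X Y q' q 1) (x * q' ^ 3 - q ^ 3) - s (DfE X Y q' q 2) (x * q' ^ 3 - q ^ 3) -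
    s (DfE X Y q' q 1) (X ^ 3 + x * Y ^ 3) + s (DfE X Y q' q 2) (X ^ 3 + x * Y ^ 3))

/-- `b` is a cube in the completion at `π` -/
def LCE (π b : Eis) : Prop := ∀ N : ℕ, ∃ r : Eis, π ^ N ∣ r ^ 3 - b

/-- `η = (p + q T)/(p' + q' T)` has norm `x` from `K(b^(1/3))`. -/
structure SolWE (b x p q p' q' : Eis) : Prop where
  eq : p ^ 3 + b * q ^ 3 = x * (p' ^ 3 + b * q' ^ 3)
  n1 : p ^ 3 + b * q ^ 3 ≠ 0

/-- `SolWE` with nondegeneracy conditions (automatic when `b` and `x` are not cubes). -/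
structure SolE (b x p q p' q' : Eis) : Prop extends SolWE b x p q p' q' where
  n2 : p ^ 3 - x * p' ^ 3 ≠ 0
  g1 : GfE p q p' q' 1 ≠ 0
  g2 : GfE p q p' q' 2 ≠ 0

/-- nondegeneracy of the point `(X, Y)` with respect to `(p, q, p', q')` -/
structure DNE (X Y p q p' q' : Eis) : Prop where
  d1 : DfE X Y p' p 1 ≠ 0
  d2 : DfE X Y p' p 2 ≠ 0
  d3 : DfE X Y q' q 1 ≠ 0
  d4 : DfE X Y q' q 2 ≠ 0

/-- `(X, Y)` is a point of class `x` on the curve `X³ + Y³ = B` (over `K`). -/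
structure PtE (B x X Y : Eis) : Prop where
  hX : X ≠ 0
  hY : Y ≠ 0
  eq : ∃ c : Eis, c ≠ 0 ∧ x * (X ^ 3 + x * Y ^ 3) = B * c ^ 3

/-! ### Identities for a symbol -/

/-- PTK_IF1: `α_b α_x = w⁻¹ k_0` modulo cubes. Copy of `PT/IF1.lean` (in the integral case the
numbers `Gf .. 1`, `Gf .. 2` are never `0`; here this is assumed in `SolE`). -/
def Stmt_IF1 : Prop := ∀ (π : Eis) (s : Eis → Eis → ZMod 3) (e : ℕ), LSym π s e →
  ∀ b x p q p' q' : Eis, b ≠ 0 → x ≠ 0 → SolE b x p q p' q' →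
  ∃ N0 : ℕ, ∀ r ξ : Eis, π ^ N0 ∣ r ^ 3 - b → π ^ N0 ∣ ξ ^ 3 - x →
    ∀ B : Eis, B ≠ 0 → ASE s B p q p' q' r + ASE s B p (-p') (-q) q' ξ =
      s B (GfE p q p' q' 1) - s B (GfE p q p' q' 2) + s w B

/-- PTK_IF2: `(x, α_b) = (x, k_0) + (w, x)`. Copy of `PT/IF2.lean`. -/
def Stmt_IF2 : Prop := ∀ (π : Eis) (s : Eis → Eis → ZMod 3) (e : ℕ), LSym π s e →
  ∀ b x p q p' q' : Eis, b ≠ 0 → x ≠ 0 → SolE b x p q p' q' →
  ∃ N0 : ℕ, ∀ r : Eis, π ^ N0 ∣ r ^ 3 - b →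
    ASE s x p q p' q' r = s x (GfE p q p' q' 1) - s x (GfE p q p' q' 2) + s w x

/-- PTK_IF4: the local term of a point when `x` is a local cube. Copy of `PT/IF4.lean` (there the
`D_i` never vanish; here this is the hypothesis `DNE`). -/
def Stmt_IF4 : Prop := ∀ (π : Eis) (s : Eis → Eis → ZMod 3) (e : ℕ), LSym π s e →
  ∀ b x p q p' q' X Y : Eis, b ≠ 0 → x ≠ 0 → SolE b x p q p' q' → X ≠ 0 → Y ≠ 0 →
    X ^ 3 + x * Y ^ 3 ≠ 0 → DNE X Y p q p' q' →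
  ∃ N0 : ℕ, ∀ ξ : Eis, π ^ N0 ∣ ξ ^ 3 - x →
    SVE s x p q p' q' X Y =
      ASE s (X ^ 3 + x * Y ^ 3) p (-p') (-q) q' ξ + s (LfE X Y 1 ξ) b - s (LfE X Y 2 ξ) b

/-- PTK_IF4B: `(F_1/F_2, n_0) = (w, n_0)`. Copy of `PT/IF4B.lean`. -/
def Stmt_IF4B : Prop := ∀ (π : Eis) (s : Eis → Eis → ZMod 3) (e : ℕ), LSym π s e →
  ∀ x X Y : Eis, x ≠ 0 → X ≠ 0 → Y ≠ 0 → X ^ 3 + x * Y ^ 3 ≠ 0 →
  ∃ N0 : ℕ, ∀ ξ : Eis, π ^ N0 ∣ ξ ^ 3 - x →
    s (LfE X Y 1 ξ) (X ^ 3 + x * Y ^ 3) - s (LfE X Y 2 ξ) (X ^ 3 + x * Y ^ 3) =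
      s w (X ^ 3 + x * Y ^ 3)

/-! ### Tame places -/

/-- PTK_F6R: the local term of a point at a tame place where `x` has valuation prime to `3`.
Copy of `PT/F6R.lean`. -/
def Stmt_F6R : Prop := ∀ (π : PP) (b x p q p' q' X Y : Eis), b ≠ 0 → x ≠ 0 →
  SolE b x p q p' q' → X ≠ 0 → Y ≠ 0 → DNE X Y p q p' q' → ¬ 3 ∣ V π.1 x →
    (3 ∣ V π.1 (X ^ 3 + x * Y ^ 3) → SVE (tm π.1) x p q p' q' X Y = 0) ∧
    (¬ 3 ∣ V π.1 (X ^ 3 + x * Y ^ 3) → SVE (tm π.1) x p q p' q' X Y = - tm π.1 w b)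

/-- PTK_F7U: the local term of a point at a tame place where `x` has valuation divisible by `3` and is
not a cube. Copy of `PT/F7U.lean`. -/
def Stmt_F7U : Prop := ∀ (π : PP) (b x p q p' q' X Y : Eis), b ≠ 0 → x ≠ 0 →
  SolE b x p q p' q' → X ≠ 0 → Y ≠ 0 → DNE X Y p q p' q' → 3 ∣ V π.1 x → ch π.1 x ≠ 0 →
    SVE (tm π.1) x p q p' q' X Y = 0

/-- PTK_LFV: the valuations of the linear forms of a point when `x` is a local cube.
Proof. Let `π' = π.1`, `V = V π'`, `n₀ = X³ + x Y³ ≠ 0`, `3 ∣ V x`, `3 ∣ V n₀`, `ξ³ = x` up to `π' ^ N0`,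
`N0` large (larger than `V x` and `V n₀ + 3 V X + 3 V Y + V x`); then `V ξ³ = V x`. With
`F_i = X + Y w^i ξ`: `F_0 F_1 F_2 = X³ + Y³ ξ³` has the valuation of `n₀` (differences by a multiple
of `π' ^ N0`). If `V X ≠ V (Y ξ)` then all `V F_i` are `min (V X) (V (Y ξ))`. Otherwise
`X = π' ^ a X'`, `Y ξ = π' ^ a Z'` with units `X'`, `Z'`; `F_i = π' ^ a (X' + w^i Z')`; two of the
`X' + w^i Z'` cannot both be divisible by `π'` (their difference is `(w^i - w^j) Z'`, and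
`w^i - w^j` divides `3`), so at most one `V F_i` is different from `a`, it is `a + k`, and
`3 a + k = V n₀` gives `3 ∣ k`. -/
def Stmt_LFV : Prop := ∀ (π : PP) (x X Y : Eis), x ≠ 0 → X ≠ 0 → Y ≠ 0 →
  X ^ 3 + x * Y ^ 3 ≠ 0 → 3 ∣ V π.1 x → 3 ∣ V π.1 (X ^ 3 + x * Y ^ 3) →
  ∃ N0 : ℕ, ∀ ξ : Eis, π.1 ^ N0 ∣ ξ ^ 3 - x →
    (V π.1 (LfE X Y 1 ξ) : ZMod 3) = (V π.1 (LfE X Y 2 ξ) : ZMod 3)

/-! ### Local cubes -/

/-- PTK_LCI: local cubes. Copy of `PT/LCI.lean` (first and third part); second part: if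
`λ ∤ b` and `b c³ = a³` modulo `λ⁴` with `c`, `a` prime to `λ` then `b` is a cube in the completion at
`λ`. Proof of the second part: cubes of elements prime to `λ` are `± 1` modulo `λ⁴` (see
`NCNT.cube_mod_nine` in PT/NCNT.lean; `λ⁴ = w² 9`), so `b = ± 1` modulo `λ⁴`; since `-1` is a cube let
`b = 1` modulo `λ⁴`. By induction there is `r_N = 1` modulo `λ²` with `λ ^ (N + 4) ∣ r_N³ - b`:
`r_0 = 1`, and for `r' = r + λ ^ (N + 2) t`, `r'³ = r³ + 3 r² λ ^ (N + 2) t + ...`, `3 = - w² λ²`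
(`three_eq`), the further terms are divisible by `λ ^ (N + 5)`; `r² = 1` modulo `λ`; choose `t`. -/
def Stmt_LCI : Prop :=
  (∀ (π : PP) (b : Eis), b ≠ 0 → (LCE π.1 b ↔ 3 ∣ V π.1 b ∧ ch π.1 b = 0)) ∧
  (∀ b a c : Eis, ¬ lam ∣ a → ¬ lam ∣ c → lam ^ 4 ∣ b * c ^ 3 - a ^ 3 → LCE lam b) ∧
  (∀ (π : Eis) (s : Eis → Eis → ZMod 3) (e : ℕ) (b a : Eis), LSym π s e → LCE π b →
    b ≠ 0 → a ≠ 0 → s b a = 0)

/-! ### The place above `3` -/

/-- PTK_SVF: the sum of the local terms. Copy of the last part of `PT/LFIN.lean` (product formula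
`SSL`, fourth part, for every term). -/
def Stmt_SVF : Prop := ∀ b x p q p' q' X Y : Eis, b ≠ 0 → x ≠ 0 → SolE b x p q p' q' →
  X ≠ 0 → Y ≠ 0 → X ^ 3 + x * Y ^ 3 ≠ 0 → DNE X Y p q p' q' →
  (Function.support fun v : Pl => SVE (sy v) x p q p' q' X Y).Finite ∧
    ∑ᶠ v : Pl, SVE (sy v) x p q p' q' X Y = 0

/-- PTK_IIAG: the local term of a point at `λ` when `b` is a cube. Copy of `PT3/IIAG.lean`
(hypotheses `Stmt_LCI`, `Stmt_IF1`, `Stmt_IF2`, `Stmt_IF4`, `Stmt_F6R`, `Stmt_F7U`, `Stmt_SVF`). -/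
def Stmt_IIAG : Prop := ∀ r x p q p' q' X Y : Eis, r ≠ 0 → x ≠ 0 → SolE (r ^ 3) x p q p' q' →
  X ≠ 0 → Y ≠ 0 → X ^ 3 + x * Y ^ 3 ≠ 0 → DNE X Y p q p' q' →
  SVE sl x p q p' q' X Y =
    sl (X ^ 3 + x * Y ^ 3) (GfE p q p' q' 1) - sl (X ^ 3 + x * Y ^ 3) (GfE p q p' q' 2) +
      sl w (X ^ 3 + x * Y ^ 3) - ASE sl (X ^ 3 + x * Y ^ 3) p q p' q' r

/-- PTK_IIA: the local term of a point at `λ` when `b` is a local cube. Copy of `PT3/IIA.lean`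
(hypothesis `Stmt_IIAG`). -/
def Stmt_IIA : Prop := ∀ b x p q p' q' X Y : Eis, b ≠ 0 → x ≠ 0 → LCE lam b →
  SolE b x p q p' q' → X ≠ 0 → Y ≠ 0 → X ^ 3 + x * Y ^ 3 ≠ 0 → DNE X Y p q p' q' →
  ∃ N0 : ℕ, ∀ r : Eis, lam ^ N0 ∣ r ^ 3 - b →
  SVE sl x p q p' q' X Y =
    sl (X ^ 3 + x * Y ^ 3) (GfE p q p' q' 1) - sl (X ^ 3 + x * Y ^ 3) (GfE p q p' q' 2) +
      sl w (X ^ 3 + x * Y ^ 3) - ASE sl (X ^ 3 + x * Y ^ 3) p q p' q' r

/-! ### The global relation -/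

/-- The cubic residue symbol modulo the inert prime `Q` of
`[(p + q w² r)(p' + q' w r)] / [(p + q w r)(p' + q' w² r)]`. -/
noncomputable def TAUE (Q : ℕ) (p q p' q' r : Eis) : ZMod 3 :=
  sym (Q : Eis) (LfE p q 2 r) + sym (Q : Eis) (LfE p' q' 1 r) -
    sym (Q : Eis) (LfE p q 1 r) - sym (Q : Eis) (LfE p' q' 2 r)

/-- The general hypotheses: `x` is the base and `b` the norm. Then `SolE b x p (-p') (-q) q'` (check:
`eq` is the same equation, `n1` and `n2` are exchanged, `GfE` is unchanged), and the local term of a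
point `(X, Y)` of class `x` is `SVE (sy v) x p (-p') (-q) q' X Y`. -/
structure HypD (N : ℕ) (b x p q p' q' : Eis) : Prop where
  N0 : 0 < N
  sol : SolE x b p q p' q'
  hb : b ≠ 0
  hx : x ≠ 0
  lc : LCE lam b
  unr : ∀ π : PP, ¬ π.1 ∣ (N : Eis) → ¬ π.1 ∣ b ∧ ¬ π.1 ∣ x
  cf : ∀ π : PP, V π.1 (N : Eis) ≤ 2

/-- the hypotheses on the point: `B = N Q^E` -/
structure HypP (N : ℕ) (b x p q p' q' : Eis) (E Q : ℕ) (X Y : Eis) : Prop where
  hE : E = 1 ∨ E = 2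
  hQ : Q.Prime
  sb : ∀ σ : PP, tm σ.1 b ((N : Eis) * (Q : Eis) ^ E) = 0
  sx : ∀ σ : PP, tm σ.1 x ((N : Eis) * (Q : Eis) ^ E) = 0
  pt : PtE ((N : Eis) * (Q : Eis) ^ E) x X Y
  dn : DNE X Y p (-p') (-q) q'

/-- PTK_DP1: the local terms of a point at a place `π` dividing `f` depend on `Q^E` only through a
character of `Q`. (`Q` is prime to `f`, so `π ∤ Q`.)
Proof. Hypotheses you may use: `Stmt_IF4`, `Stmt_IF4B`, `Stmt_F6R`, `Stmt_F7U`, `Stmt_LFV`, `Stmt_LCI`.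
Put `B = N Q^E`, `n₀ = X³ + x Y³`, `x n₀ = B c³`, `s = tm π.1`, `V = V π.1`, `ch = ch π.1`.
(a) `3 ∣ V x`, `ch x = 0` (`x` is a local cube). By `IF4` (for `SolE b x p (-p') (-q) q'`), for all good `ξ`
(`π ^ N0 ∣ ξ³ - x`): `SVE = ASE s n₀ p q p' q' ξ + s F_1 b - s F_2 b`, `F_i = LfE X Y i ξ`. `s n₀ a = s B a` for
`a ≠ 0` as `x` is a local cube. The other terms are a constant: if `π ∣ N` and `3 ∤ V b` then
`s b a = i s B a` for all `a ≠ 0` with `i = V b / V B` in `ZMod 3` (`V B = V N = 1, 2`; `s b B = 0`; a general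
fact on `tm`: it depends only on the vectors `(V, ch)`), so by `IF4B`, `s F_1 b - s F_2 b = i (s F_1 B - s F_2 B) =
i (s F_1 n₀ - s F_2 n₀) = i s w n₀ = i s w B = V(b) ch w`; if `π ∣ N` and `3 ∣ V b` then `V B ch b = 0`, so
`b` is a local cube and the terms are `0` (`LCI`); if `π ∤ N` then `V b = V B = 0`,
`3 ∣ V n₀`, and they are `- (V F_1 - V F_2) ch b = 0` by `LFV`. So for all good `ξ` the number
`ASE s B p q p' q' ξ = s B (..)` is the same (namely `SVE - constant`). Fix once and for all `ξ₀` with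
`π ^ N1 ∣ ξ₀³ - x`, `N1` so large that `ASE s a p q p' q' ξ = ASE s a p q p' q' ξ₀` for all `a ≠ 0` and all
`ξ` congruent to `ξ₀` modulo `π ^ N1` (continuity in the second variable; the `LfE` at `ξ₀` are not `0`
since their product is `p³ + x q³` modulo `π ^ N1`); for every `N0` there is a `ξ` with `π ^ N0 ∣ ξ³ - x`
congruent to `ξ₀` (Hensel; or: a sequence of approximations has infinitely many terms close to one
of `w^i ξ₀`, multiply them by `w^(-i)`). See `PTL/DC.lean: place_LC` which is this argument in the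
rational case. Then `ASE s B ξ₀ = ASE s N ξ₀ + E ASE s Q ξ₀` and `ASE s Q ξ₀ = k ch Q`, `k` an integer,
is a character of `Q` modulo `f`.
(b) `3 ∤ V x`: then `π ∣ N`; `F6R`: `V n₀ = V N - V x` modulo `3`, so the value is a constant.
(c) `3 ∣ V x`, `ch x ≠ 0`: `0` by `F7U`. -/
def Stmt_DP1 : Prop := ∀ (N : ℕ) (b x p q p' q' : Eis), HypD N b x p q p' q' →
  ∀ (π : PP) (f : ℕ), 1 < f → π.1 ∣ (f : Eis) →
    ∃ (C : ZMod 3) (Φ : (ZMod f)ˣ →* Multiplicative (ZMod 3)),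
    ∀ (E Q : ℕ) (hQ : Q.Coprime f) (X Y : Eis), HypP N b x p q p' q' E Q X Y →
      SVE (tm π.1) x p (-p') (-q) q' X Y = C + E * (Φ (ZMod.unitOfCoprime Q hQ)).toAdd

/-- PTK_DP2: the same at `λ`.
Proof. Hypotheses you may use: `Stmt_IIA`, `Stmt_IF2`. By `IIA` for `SolE b x p (-p') (-q) q'` (`b` is a local
cube): for all good `r` (`λ ^ N0 ∣ r³ - b`), `SVE = R n₀` with
`R a = sl a G_1 - sl a G_2 + sl w a - ASE sl a p (-p') (-q) q' r`; `R` is additive in `a`, `R x = 0` by `IF2`,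
`R (c³) = 0`, so `R n₀ = R B = R N + E R Q`, and `R Q` depends only on `Q` modulo `9` (`SLC`: exponent
`4`, `λ⁴ ∣ 9`). The value is the same for all good `r`; fix `r₀` as in `DP1`. -/
def Stmt_DP2 : Prop := ∀ (N : ℕ) (b x p q p' q' : Eis), HypD N b x p q p' q' →
  ∀ f : ℕ, 1 < f → 9 ∣ f → ∃ (C : ZMod 3) (Φ : (ZMod f)ˣ →* Multiplicative (ZMod 3)),
    ∀ (E Q : ℕ) (hQ : Q.Coprime f) (X Y : Eis), HypP N b x p q p' q' E Q X Y →
      SVE sl x p (-p') (-q) q' X Y = C + E * (Φ (ZMod.unitOfCoprime Q hQ)).toAdd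

/-- PTK_DP3: the local terms vanish outside.
Proof. As `DP1`, (a), (c) (`π ∤ N`): `B`, `b`, `x` are prime to `π`. If `x` is a local cube, `SVE = ASE s B p q p' q' ξ`
for a good `ξ`; the `LfE` are prime to `π` because their product over `i = 0, 1, 2` is `p³ + x q³`, resp.
`p'³ + x q'³`, modulo `π`; so all symbols are `0`. -/
def Stmt_DP3 : Prop := ∀ (N : ℕ) (b x p q p' q' : Eis), HypD N b x p q p' q' →
  ∀ (π : PP) (E Q : ℕ) (X Y : Eis), HypP N b x p q p' q' E Q X Y →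
    ¬ π.1 ∣ (N : Eis) → ¬ π.1 ∣ (Q : Eis) →
    ¬ π.1 ∣ (p ^ 3 + x * q ^ 3) * (p' ^ 3 + x * q' ^ 3) →
    SVE (tm π.1) x p (-p') (-q) q' X Y = 0

/-- PTK_DP4: the local term at `Q`.
Proof. `V x = V b = 0`, `V B = E` at `π = Q`; `tm x B = 0`, `tm b B = 0` give `sym Q x = sym Q b = 0`: `x` and
`b` are local cubes (`LCI`). By `IF4` for a good `ξ'`: `SVE = ASE s B p q p' q' ξ'` (the terms with `b` vanish).
The `LfE` are prime to `Q` (as in `DP3`), so `s B (LfE ..) = - E sym Q (LfE ..)` and the value is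
`- E TAUE Q p q p' q' ξ'`. `ξ'³ = ξ³` modulo `Q`, so `ξ' = w^i ξ` modulo `Q` (`Q` is a prime of `Z[w]`, and
`∏ (ξ' - w^i ξ) = ξ'³ - ξ³`), and `TAUE` does not depend on `i`: with `l_i = p + q w^i ξ`, `l'_i` similar,
`∏ l_i = b ∏ l'_i` modulo `Q`, `sym Q b = 0`; `TAUE(ξ) = l_2 + l'_1 - l_1 - l'_2` (symbols),
`TAUE(w ξ) = l_0 + l'_2 - l_2 - l'_0`, difference `l_0 + l_1 - 2 l_2 - (l'_0 + l'_1 - 2 l'_2)`
`= ∑ l_i - ∑ l'_i = 0` modulo `3`. -/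
def Stmt_DP4 : Prop := ∀ (N : ℕ) (b x p q p' q' : Eis), HypD N b x p q p' q' →
  ∀ (π : PP) (E Q : ℕ) (X Y ξ : Eis), HypP N b x p q p' q' E Q X Y → Q % 3 = 2 →
    π.1 = (Q : Eis) → ¬ π.1 ∣ (N : Eis) →
    ¬ π.1 ∣ (p ^ 3 + x * q ^ 3) * (p' ^ 3 + x * q' ^ 3) → (Q : Eis) ∣ ξ ^ 3 - x →
    SVE (tm π.1) x p (-p') (-q) q' X Y = - (E * TAUE Q p q p' q' ξ)

/-- PTK_DCK: the relation for the Frobenius invariant of `Q`.
Proof. Hypotheses: `Stmt_DP1`, …, `Stmt_DP4`, `Stmt_SVF` (for `SolE b x p (-p') (-q) q'`). Copy the structure of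
the last part of `PT3/DCOT.lean: main`: `M` is a rational integer divisible by `N` and by
`(p³ + x q³)(p'³ + x q'³)` (times its conjugate); `f₀ = 9 |M|`; `C`, `Φ` are the sums, resp. products, of
those of the places dividing `M` and of `λ`. `DNE`: for `Q > N₀` the `D_i` do not vanish. Let
`(P, Q₁, P', Q₁') = (p, -p', -q, q')`, `D_i = X P' + w^i P Y`, `D'_i = X Q₁' + w^i Q₁ Y`. If `D_i = 0` then
`(X P')³ = - (P Y)³`, and `P' ≠ 0`, `P ≠ 0` (otherwise both are `0`, against `n2` of the solution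
`SolE b x P Q₁ P' Q₁'`: `P³ - x P'³ ≠ 0`), so `P'³ (X³ + x Y³) = - Y³ (P³ - x P'³)`, and with
`x (X³ + x Y³) = B c³`: `B (c P')³ = - x Y³ (P³ - x P'³)`. The valuation at `Q` of the left side is `E` modulo `3`,
that of the right side is `0` modulo `3` if `Q` does not divide `x (P³ - x P'³)`. The same for
`D'_i` with `x Q₁'³ - Q₁³` (`P³ - x P'³ = b (x Q₁'³ - Q₁³)`). -/
def Stmt_DCK : Prop := ∀ (N : ℕ) (b x p q p' q' : Eis), HypD N b x p q p' q' →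
  ∃ f₀ : ℕ, 0 < f₀ ∧ ∀ f : ℕ, 0 < f → f₀ ∣ f →
  ∃ (C : ZMod 3) (Φ : (ZMod f)ˣ →* Multiplicative (ZMod 3)) (N₀ : ℕ),
    ∀ (E Q : ℕ) (hQ : Q.Coprime f), (E = 1 ∨ E = 2) → Q.Prime → N₀ < Q → Q % 3 = 2 →
      (∀ σ : PP, tm σ.1 b ((N : Eis) * (Q : Eis) ^ E) = 0) →
      (∀ σ : PP, tm σ.1 x ((N : Eis) * (Q : Eis) ^ E) = 0) →
      ∀ X Y ξ : Eis, PtE ((N : Eis) * (Q : Eis) ^ E) x X Y → (Q : Eis) ∣ ξ ^ 3 - x →
        C + E * ((Φ (ZMod.unitOfCoprime Q hQ)).toAdd - TAUE Q p q p' q' ξ) = 0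

end Pool.Agent.PTK
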