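import Pool.Agent.PTK.StL
import Pool.Agent.PT.Stmts4

/-!
# The average rank of prime twists: the norm theorem for `K(x^(1/3)) / K`, `K = Q(w)`

The statements are those of `PT/Stmts3.lean` with `x` in `Z[w]` in place of a rational integer, and
without complex conjugation on `L`. The proofs are those of the files `PT/N*.lean` (copy the file named in
the docstring; replace `ℤ` by `Eis`, `CubF` by `CubE`, `LC` by `LCE`, and remove `c`). General lemmas of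
those files (for example in the namespace `Pool.Agent.PT.NTR`, as far as they do not mention `CubF`) can be
imported. `HERBQ`, `SUN`, `KUM`, `NAUX` (PT/Stmts3.lean) are general and proved.
-/

set_option autoImplicit false

open NumberField IsDedekindDomain Finset
open scoped nonZeroDivisors Pointwise

namespace Pool.Agent.PTK

open Pool.Agent.Lib_helper18 Pool.Agent.Lib_helper18.Eis Pool.Agent.Lib_helper84.Cub
open Pool.Agent.PT

/-- The data of the field `L = K(x^(1/3))`. -/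
structure CubE (x : Eis) (L : Type) [Field L] [NumberField L] (ι : Eis →+* L) (θ : L)
    (σ : L ≃ₐ[ℚ] L) : Prop where
  inj : Function.Injective ι
  cube : θ ^ 3 = ι x
  sθ : σ θ = ι w * θ
  sι : ∀ a : Eis, σ (ι a) = ι a
  rep : ∀ z : L, ∃ (m : ℤ) (a b d : Eis), m ≠ 0 ∧ (m : L) * z = ι a + ι b * θ + ι d * θ ^ 2
  lin : ∀ a b d : Eis, ι a + ι b * θ + ι d * θ ^ 2 = 0 → a = 0 ∧ b = 0 ∧ d = 0

/-- PTK_NFL: existence of the field. Copy of `PT/NFLD.lean`. (Irreducibility of `T³ - x` over the fraction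
field of `Eis`: if `b³ = x` for a fraction `b = u / v` then `u³ = x v³`, so `v³ ∣ u³`, `v ∣ u`
(`Eis` is a principal ideal domain, `pow_dvd_pow_iff` for `GCDMonoid` or by valuations), so `x` is a
cube.) -/
def Stmt_NFL : Prop := ∀ x : Eis, x ≠ 0 → (¬ ∃ c : Eis, c ^ 3 = x) →
  ∃ (L : Type) (_ : Field L) (_ : NumberField L) (ι : Eis →+* L) (θ : L) (σ : L ≃ₐ[ℚ] L),
    CubE x L ι θ σ

/-- PTK_NRK: the unit rank. Copy of `PT/NRK.lean`. -/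
def Stmt_NRK : Prop := ∀ (x : Eis) (L : Type) [Field L] [NumberField L] (ι : Eis →+* L) (θ : L)
  (σ : L ≃ₐ[ℚ] L), CubE x L ι θ σ → NumberField.Units.rank L = 2

/-- PTK_NHN: Hilbert 90. Copy of `PT/NHN.lean`. -/
def Stmt_NHN : Prop := ∀ (x : Eis) (L : Type) [Field L] [NumberField L] (ι : Eis →+* L) (θ : L)
  (σ : L ≃ₐ[ℚ] L), x ≠ 0 → CubE x L ι θ σ →
  (∀ z : L, σ (σ (σ z)) = z) ∧
  (∀ z : L, σ z = z → ∃ a b : Eis, b ≠ 0 ∧ z * ι b = ι a) ∧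
  ∀ u : Lˣ, ∏ i ∈ range 3, σ ^ i • u = 1 → ∃ v : Lˣ, u = v / σ • v

/-- PTK_NTR: the primes of `L` above the primes of `Z[w]`. Copy of `PT/NTR.lean` (most lemmas of the
namespace `Pool.Agent.PT.NTR` are general and can be cited). The only use of `c` there is
`not_isUnit_io`; here: if `ι u z = 1` with `z` integral, `u = uni v`, then `z` is integral over `Eis` and in the
fraction field, so in `ι Eis` (`Eis` is integrally closed), and `u` would be a unit; or: the norm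
`N_{L/ℚ}(z)` is an integer and `N(ι u) N(z) = 1`; `N(ι u) = ± (norm u)³`. -/
def Stmt_NTR : Prop := ∀ (x : Eis) (L : Type) [Field L] [NumberField L] (ι : Eis →+* L) (θ : L)
  (σ : L ≃ₐ[ℚ] L), x ≠ 0 → ¬ lam ∣ x → CubE x L ι θ σ →
  (∀ (P : HeightOneSpectrum (𝓞 L)) (a : Eis), P.valuation L (ι a) ≤ 1) ∧
  (∀ P : HeightOneSpectrum (𝓞 L), ∃ v : Pl, P ∈ Abv ι v ∧
    ∀ a : Eis, P.valuation L (ι a) < 1 → uni v ∣ a) ∧
  (∀ P : HeightOneSpectrum (𝓞 L), ∃ P' : HeightOneSpectrum (𝓞 L),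
    ∀ z : L, P'.valuation L (σ z) = P.valuation L z) ∧
  (∀ v : Pl, (Abv ι v).Finite ∧ (Abv ι v).Nonempty) ∧
  (∀ (v : Pl) (P P' : HeightOneSpectrum (𝓞 L)), P ∈ Abv ι v → P' ∈ Abv ι v →
    ∃ i : ℕ, ∀ z : L, P'.valuation L ((σ ^ i) z) = P.valuation L z) ∧
  (∀ (π : PP) (P : HeightOneSpectrum (𝓞 L)), ¬ π.1 ∣ x → P ∈ Abv ι (some π) →
    P.valuation L (ι π.1) = WithZero.exp (-1 : ℤ))

open Classical in
/-- PTK_NCN: the number of primes above a place. Copy of `PT/NCNT.lean` (with `Stmt_LCI`, first and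
second part, in `local_cube`). -/
def Stmt_NCN : Prop := ∀ (x : Eis) (L : Type) [Field L] [NumberField L] (ι : Eis →+* L) (θ : L)
  (σ : L ≃ₐ[ℚ] L), x ≠ 0 → ¬ lam ∣ x → (∀ π : PP, V π.1 x ≤ 2) →
  CubE x L ι θ σ → ∀ v : Pl, Nat.card (Abv ι v) = if LCE (uni v) x then 3 else 1

/-- PTK_NFX: the fixed `S`-units. Copy of `PT/NFIX.lean`. -/
def Stmt_NFX : Prop := ∀ (x : Eis) (L : Type) [Field L] [NumberField L] (ι : Eis →+* L) (θ : L)
  (σ : L ≃ₐ[ℚ] L), x ≠ 0 → ¬ lam ∣ x → CubE x L ι θ σ → ∀ S : Finset Pl,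
  (∀ (u : Lˣ) (a : Eis), (u : L) = ι a → (∀ v : Pl, uni v ∣ a → v ∈ S) → u ∈ SF ι σ S) ∧
  (∀ u ∈ SF ι σ S, ∃ a b : Eis, a ≠ 0 ∧ b ≠ 0 ∧ (u : L) * ι b = ι a) ∧
  Module.finrank ℤ (Additive (SF ι σ S)) = S.card

/-- PTK_NHO: the first cohomology of the `S`-units. Copy of `PT/NHO.lean`. -/
def Stmt_NHO : Prop := ∀ (x : Eis) (L : Type) [Field L] [NumberField L] (ι : Eis →+* L) (θ : L)
  (σ : L ≃ₐ[ℚ] L), x ≠ 0 → ¬ lam ∣ x → CubE x L ι θ σ → ∀ S : Finset Pl,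
  none ∈ S → (∀ π : PP, π.1 ∣ x → some π ∈ S) →
  (∀ u ∈ SU ι S, σ • u ∈ SU ι S) ∧
  ∀ u ∈ SU ι S, ∏ i ∈ range 3, σ ^ i • u = 1 → ∃ v ∈ SU ι S, u = v / σ • v

/-- PTK_NNS: norms have trivial symbols with `x`. Copy of `PT/NNS.lean`. -/
def Stmt_NNS : Prop := ∀ (x : Eis) (L : Type) [Field L] [NumberField L] (ι : Eis →+* L) (θ : L)
  (σ : L ≃ₐ[ℚ] L), x ≠ 0 → CubE x L ι θ σ →
  ∀ (π : Eis) (s : Eis → Eis → ZMod 3) (e : ℕ), LSym π s e →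
  ∀ (z : L) (a b : Eis), z ≠ 0 → a ≠ 0 → b ≠ 0 → z * σ z * σ (σ z) * ι b = ι a →
    s a x = s b x

open Classical in
/-- PTK_NGN: a set of places and sufficiently many units with independent symbols. Copy of the part of
`PT/NGEN.lean` where `x` is a cube modulo `9` (here `x = ± 1` modulo `λ⁴`, so `LCE lam x` by `Stmt_LCI` with
`c = 1`, `a = ± 1`; `x` is primary up to sign: `Prim x`). -/
def Stmt_NGN : Prop := ∀ (x : Eis) (S₀ : Finset Pl), x ≠ 0 → lam ^ 4 ∣ x ^ 2 - 1 →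
  (∀ π : PP, V π.1 x ≤ 2) → (¬ ∃ c : Eis, c ^ 3 = x) → none ∈ S₀ →
  (∀ π : PP, π.1 ∣ x → some π ∈ S₀) →
  (∀ π : PP, some π ∈ S₀ → ¬ LCE π.1 x → π.1 ∣ x) →
  ∃ (S : Finset Pl) (e : ℕ) (d : Fin e → Eis), S₀ ⊆ S ∧ (∀ v ∈ S, v ∉ S₀ → LCE (uni v) x) ∧
    (S.filter fun v => ¬ LCE (uni v) x).card = e + 1 ∧
    (∀ i, d i ≠ 0) ∧ (∀ i (v : Pl), uni v ∣ d i → v ∈ S) ∧
    (∀ n m : Fin e → ℕ, ∏ i, d i ^ n i = ∏ i, d i ^ m i → n = m) ∧
    (∀ n : Fin e → ZMod 3, (∀ v : Pl, ∑ i, n i * sy v (d i) x = 0) → n = 0)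

/-- PTK_NMN: the norm theorem for `L / K`. Copy of `PT/NMAIN.lean` (hypotheses: the `Stmt_N..` above,
`HERBQ`, `SUN`). -/
def Stmt_NMN : Prop := ∀ (x : Eis) (L : Type) [Field L] [NumberField L] (ι : Eis →+* L) (θ : L)
  (σ : L ≃ₐ[ℚ] L), x ≠ 0 → lam ^ 4 ∣ x ^ 2 - 1 → (∀ π : PP, V π.1 x ≤ 2) →
  (¬ ∃ c : Eis, c ^ 3 = x) → CubE x L ι θ σ →
  ∀ y : Eis, y ≠ 0 → (∀ π : PP, tm π.1 x y = 0) →
    (∀ π : PP, π.1 ∣ y → ¬ LCE π.1 x → π.1 ∣ x) →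
    ∃ z : L, z ≠ 0 ∧ z * σ z * σ (σ z) = ι y

/-- PTK_NDS: the solution as a quotient of linear forms. As the end of `PT/NDESC.lean`, directly over
`Eis` (no descent): `m z = ι a + ι b θ + ι d θ²`; choose `(γ, δ) ≠ (0, 0)` in `Eis` with `b δ + d γ = 0`; then
`m z (γ + δ θ) = (a γ + d δ x) + (a δ + b γ) θ`, take norms:
`m³ y (γ³ + x δ³) = (a γ + d δ x)³ + x (a δ + b γ)³`. So `p = a γ + d δ x`, `q = a δ + b γ`,
`p' = m γ`, `q' = m δ`. -/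
def Stmt_NDS : Prop := ∀ (x : Eis) (L : Type) [Field L] [NumberField L] (ι : Eis →+* L) (θ : L)
  (σ : L ≃ₐ[ℚ] L), x ≠ 0 → CubE x L ι θ σ → ∀ (y : Eis) (z : L), y ≠ 0 → z ≠ 0 →
    z * σ z * σ (σ z) = ι y → ∃ p q p' q' : Eis, SolWE x y p q p' q'

/-- PTK_HNE: the Hasse norm theorem used in the sequel. `NFL`, `NMN`, `NDS`. For the additional
conditions of `SolE`: `n2`: if `p³ = y p'³` then `p' = 0` (otherwise `y` is a cube: `p'³ ∣ p³`), `p = 0`, so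
`x q³ = x y q'³` and `y` would be a cube again (`q' ≠ 0` by `n1`). `g1`, `g2`: if `q p' = w^i p q'`: if `p' ≠ 0` and
`q' ≠ 0` then `p = t p'`, `w^i q = …`: `q³ p'³ = p³ q'³` and so
`p³ + x q³ = (p / p')³ (p'³ + x q'³)`, i.e. `y p'³ = p³`, against `n2`; `p' = 0` implies `p q' = 0`, `q' ≠ 0`, `p = 0`,
against `n2`; `q' = 0` implies `q p' = 0`, `p' ≠ 0`, `q = 0`, and `p³ = y p'³`. -/
def Stmt_HNE : Prop := ∀ x y : Eis, x ≠ 0 → lam ^ 4 ∣ x ^ 2 - 1 → (¬ ∃ c : Eis, c ^ 3 = x) →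
  (∀ π : PP, V π.1 x ≤ 2) → y ≠ 0 → (¬ ∃ c : Eis, c ^ 3 = y) → (∀ π : PP, tm π.1 x y = 0) →
  (∀ π : PP, π.1 ∣ y → ¬ LCE π.1 x → π.1 ∣ x) →
  ∃ p q p' q' : Eis, SolE x y p q p' q'

end Pool.Agent.PTK
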