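import Pool.Agent.PTK.StW

/-!
# Small ranks of prime twists: at least one third (one half if `3 ∣ N`) of the ranks is at most `2`

Stage 3 of the project PTK, part 3. Everything of the other statement files may be imported or taken as a hypothesis.
-/

set_option autoImplicit false

open NumberField IsDedekindDomain Finset
open scoped nonZeroDivisors Pointwise

namespace Pool.Agent.PTK

open Pool.Agent.Lib_helper18 Pool.Agent.Lib_helper18.Eis Pool.Agent.Lib_helper84.Cub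
open Pool.Agent.PT Pool.Agent.PTE Pool.Agent.PT3 Pool.Agent.PTL Pool.Agent.PTN

/-- PTK_UPL: from upper bounds to a lower bound.
Proof. For `σ` take a finite set `T` of primes for which the partial sums of the two series `BDENS.sm (S E) σ` are at least the series minus `1`
(`DOM.approx` in PTL/DOM.lean). For a prime `q > M` in `S E` (`E = 1, 2`): `tf (R A) ≥ c₀ - G E q`; the primes `≤ M` contribute a constant; the sum of the
`tf (R A) q^(-σ)` over all `q ∈ T` with `q % 3 = a ∧ W (q ^ E)` is at least that over the large `q ∈ S E` (the terms are `≥ 0`), so at least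
`c₀ (y log - K - 2 - const) - (x log + K')`. See `CBE_thm` (PTN/CBE.lean), which is the case of tails. -/
def Stmt_UPL : Prop := ∀ (n : ℤ) (a M : ℕ) (W R : ℤ → Prop) (S : ℕ → Set ℕ) (G : ℕ → ℕ → ℝ) (x y c₀ : ℝ),
  0 ≤ c₀ →
  (∀ E q : ℕ, (E = 1 ∨ E = 2) → q.Prime → M < q → q ∈ S E → q % 3 = a ∧ W ((q : ℤ) ^ E)) →
  (∀ E q : ℕ, (E = 1 ∨ E = 2) → q.Prime → M < q → q ∈ S E → c₀ - G E q ≤ tf (R (n * (q : ℤ) ^ E))) →
  (∃ K : ℝ, ∀ σ : ℝ, 1 < σ → σ ≤ 2 →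
    y * Real.log (1 / (σ - 1)) - K ≤ BDENS.sm (S 1) σ + BDENS.sm (S 2) σ) →
  UpS S G x → BelowA n a W (fun A => tf (R A)) (c₀ * y - x)

/-- PTK_PR2: small ranks in a class, `q = 2 (mod 3)`.
Proof. `S E = {q | q % 3 = 2 ∧ InCT E π w0 c q}`, system from `PLE` (`s = sN`), `κ = kS`, `card WqS = 3^w`, `rr B ≤ w + κ` for large `q` (`NBW`, `WGR`, as in `AM2`). If `s` is even:
`rr B ≥ 3` implies `κ ≥ 1` or `w ≥ 3`, so `1 - tf (rr B ≤ 2) ≤ [1 ≤ κ] + (3^w - 1) / 26`; if `s` is odd: `rr B ≥ 3` implies `κ ≥ 2` or `w ≥ 2`, so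
`1 - tf ≤ [2 ≤ κ] + (3^w - 1) / 8`. `JP2` with `(k₀, F) = (0, [t ≤ ·])` (`Esk s F = LI s t`: `Esk_ind` in
PTN/LAW.lean; `LAW`: `LI s 1 ≤ 3/8`, `LI s 2 ≤ 1/24`) and `(1, 1)`: `gM 1 (v - v₀) = 4` (`GMB`, `VDIM`, `dN ≤ 1`). `UPL` with `c₀ = 27/26`, `G = [1 ≤ κ] + 3^w / 26`, resp. `c₀ = 9/8`,
`G = [2 ≤ κ] + 3^w / 8` (the sum of two functions: `UPS` (1) with `ι = Bool`), the lower bound of the total from `CLT` (`a = 2`): `27/26 - 3/8 - 4/26 ≥ 1/2`,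
`9/8 - 1/24 - 4/8 ≥ 1/2`, times `1 / 3^(m+1)`; `SUMA` (4). -/
def Stmt_PR2 : Prop := ∀ (h n m k : ℕ) (π : Fin m → PP) (p e : Fin m → ℕ) (r f : Fin k → ℕ)
  (w0 : ZMod 3) (c : Fin m → ZMod 3), NF n π p e r f → h ≤ 2 → dN h n w0 ≤ 1 →
  BelowA ((3 ^ h * n : ℕ) : ℤ) 2 (Kl π w0 c) (fun A => tf (CubeRank.rr A ≤ 2))
    (1 / 2 / 3 ^ (m + 1))

/-- PTK_PR1: small ranks in a class, `q = 1 (mod 3)`.
Proof. As `PR2` and `AM1`: for large `q`, with `κ' = κ_δ` (`q ∈ Pat v δ`), resp. `κ' = κ + 1` (`q ∈ ZP b`), `rr B ≤ w + κ'`. `2 (1 - tf) ≤ ∑_δ [q ∈ Pat v δ] ([t ≤ κ_δ] + (3^w - 1)/D) +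
[q ∈ ZP b] 2 ([t ≤ κ + 1] + (3^w - 1)/D)` with `(t, D) = (1, 26)` if `d + 1` is even, `(2, 8)` if `d + 1` is odd; `JPG`, `JPZ`, `ESZ` (`Esk (d + 1) [t ≤ ·] = LI (d + 1) t`), `LAW`, `CLT` (`a = 1`). -/
def Stmt_PR1 : Prop := ∀ (h n m k : ℕ) (π : Fin m → PP) (p e : Fin m → ℕ) (r f : Fin k → ℕ)
  (w0 : ZMod 3) (c : Fin m → ZMod 3), NF n π p e r f → h ≤ 2 → dN h n w0 ≤ 1 →
  BelowA ((3 ^ h * n : ℕ) : ℤ) 1 (Kl π w0 c) (fun A => tf (CubeRank.rr A ≤ 2))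
    (1 / 2 / 3 ^ (m + 1))

/-- PTK_PRB: small ranks, all classes.
Proof. `NFE`, `SUMA` (2) and (4), `PR2`, `PR1`: `h ≠ 0`: `dN ≤ 1` for all classes: `1/2`. `h = 0`: `dN ≤ 1` for two of the three `w0`: `1/3` (lower bound `0` for the others). -/
def Stmt_PRB : Prop := ∀ N : ℕ, 0 < N → (∀ p : ℕ, p.Prime → ¬ p ^ 3 ∣ N) → ∀ a : ℕ, (a = 1 ∨ a = 2) →
  BelowA N a (fun _ => True) (fun A => tf (CubeRank.rr A ≤ 2)) (1 / 3) ∧
  (3 ∣ N → BelowA N a (fun _ => True) (fun A => tf (CubeRank.rr A ≤ 2)) (1 / 2))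

end Pool.Agent.PTK
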