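import Pool.Agent.PTK.StM

/-!
# All moments of `3^r` for prime twists: classes, linear algebra, averages

Stage 3 of the project PTK, part 2 (part 1: `StM.lean`). Everything of `StL`, `StN`, `StG`, `StC`, `StJ`, `StK` (all proved:
`X_thm` in `PTK/X.lean`) and of `PT`, `PTE`, `PT3`, `PTL`, `PTN` may be imported or taken as a hypothesis.
-/

set_option autoImplicit false

open NumberField IsDedekindDomain Finset
open scoped nonZeroDivisors Pointwise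

namespace Pool.Agent.PTK

open Pool.Agent.Lib_helper18 Pool.Agent.Lib_helper18.Eis Pool.Agent.Lib_helper84.Cub
open Pool.Agent.PT Pool.Agent.PTE Pool.Agent.PT3 Pool.Agent.PTL Pool.Agent.PTN

/-! ### Test configurations -/

/-- A test configuration: independent vectors of `V`, pairs `(α j, β j)`, one of the two vectors of a pair is in `V₀`. -/
structure TeC {M' : ℕ} (V V₀ : Submodule (ZMod 3) (Fin M' → ZMod 3)) {M N : ℕ}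
    (y : Fin M → Fin M' → ZMod 3) (α β : Fin N → Fin M) : Prop where
  ind : LinearIndependent (ZMod 3) y
  mem : ∀ i, y i ∈ V
  lt : ∀ j, α j < β j
  inj : ∀ j j', α j = α j' → β j = β j' → j = j'
  wl : ∀ j, y (α j) ∈ V₀ ∨ y (β j) ∈ V₀

/-- PTK_MSY: the system of a test configuration.
Proof. `SysZ.ind`: `ZI` and `TeC.ind` (as in `SYK_thm`); `cz`: `ZA`. Pair `j`: (a) if `y (β j) ∈ V0`: as in `SYK_thm` (PTK/SYK.lean):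
`HNE` for the base `z (β j)` and the norm `z (α j)`, `SolE (z (β j)) (z (α j)) P Q P' Q'`, so `SolE (z (α j)) (z (β j)) P (-P') (-Q) Q'`, and `HypD`. (b) otherwise
`y (α j) ∈ V0`: `HNE` for the base `x = z (α j)` (`λ⁴ ∣ x² - 1`: `ZL`) and the norm `b = z (β j)` (`ZT`): `SolE x b P Q P' Q'`. `HypX`: `LCE lam x` by `ZL` and the
second part of `Stmt_LCI` (`c = 1`, `a = ± 1`), `ZA`. `h ≠ 1`: for `h = 1`, `dN = 0`, and `VDIM` gives `V0 = VS`, against `y (β j) ∉ V0`. -/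
def Stmt_MSY : Prop := ∀ (h n m k : ℕ) (π : Fin m → PP) (p e : Fin m → ℕ) (r f : Fin k → ℕ)
  (w0 : ZMod 3) (c : Fin m → ZMod 3), NF n π p e r f → h ≤ 2 →
  ∀ (M N : ℕ) (y : Fin M → Fin (m + 1) → ZMod 3) (α β : Fin N → Fin M),
  TeC (VS h n π p e r w0 c) (V0 h n π p e r w0 c) y α β →
  ∃ P Q P' Q' : Fin N → Eis, SysZ (fun i => zN π e (y i)) α β P Q P' Q' ∧
    ∀ j, HypD (3 ^ h * n) (zN π e (y (β j))) (zN π e (y (α j))) (P j) (Q j) (P' j) (Q' j) ∨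
      (h ≠ 1 ∧ HypX (3 ^ h * n) (zN π e (y (β j))) (zN π e (y (α j))) (P j) (Q j) (P' j) (Q' j))

/-- the primes `q = a (mod 3)` such that the base classes of the configuration are classes of points -/
def QM (h n : ℕ) {m : ℕ} (π : Fin m → PP) (e : Fin m → ℕ) (w0 : ZMod 3) (c : Fin m → ZMod 3)
    {M N : ℕ} (y : Fin M → Fin (m + 1) → ZMod 3) (α : Fin N → Fin M) (a E : ℕ) : Set ℕ :=
  {q : ℕ | q % 3 = a ∧ InCT E π w0 c q ∧ ∀ j, Occ (BB h n E q) (zN π e (y (α j)))}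

/-- PTK_MS2: the primes of `QM` are in `SPZ`, `SMZ`.
Proof. As `MSK_thm` (PTK/MSK.lean), for every pair `j`: `HypD`: `DCK` and the point from `PT`; `HypX` (`h ≠ 1`): `DXK` and the point from `PTX` for
`B = BB h n E q` (`lv B = h ≠ 1` for a prime `q > 3`, see `HYPT.lvw`; `((3 ^ h * n : ℕ) : ℤ) * q ^ E = BB h n E q`). `f₀` is the product of those of the pairs. -/
def Stmt_MS2 : Prop := ∀ (h n m k : ℕ) (π : Fin m → PP) (p e : Fin m → ℕ) (r f : Fin k → ℕ)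
  (w0 : ZMod 3) (c : Fin m → ZMod 3), NF n π p e r f → h ≤ 2 →
  ∀ (M N : ℕ) (y : Fin M → Fin (m + 1) → ZMod 3) (α β : Fin N → Fin M),
  TeC (VS h n π p e r w0 c) (V0 h n π p e r w0 c) y α β → ∀ P Q P' Q' : Fin N → Eis,
  SysZ (fun i => zN π e (y i)) α β P Q P' Q' →
  (∀ j, HypD (3 ^ h * n) (zN π e (y (β j))) (zN π e (y (α j))) (P j) (Q j) (P' j) (Q' j) ∨
    (h ≠ 1 ∧ HypX (3 ^ h * n) (zN π e (y (β j))) (zN π e (y (α j))) (P j) (Q j) (P' j) (Q' j))) →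
  ∃ f₀ : ℕ, 0 < f₀ ∧ ∀ f' : ℕ, 0 < f' → f₀ ∣ f' →
  ∀ κ : (ZMod f')ˣ →* Multiplicative (Fin (m + 1) → ZMod 3), IsK π κ →
  ∃ (C : Fin N → ZMod 3) (Φ : (ZMod f')ˣ →* Multiplicative (Fin N → ZMod 3)) (N₀ : ℕ),
    ∀ q : ℕ, q.Prime → N₀ < q →
      (q ∈ QM h n π e w0 c y α 2 1 →
        q ∈ SPZ (fun i => zN π e (y i)) α P Q P' Q' κ (Fin.cons w0 c) C Φ) ∧
      (q ∈ QM h n π e w0 c y α 2 2 →
        q ∈ SMZ (fun i => zN π e (y i)) α P Q P' Q' κ (Fin.cons w0 c) C Φ)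

/-- PTK_MS1: the primes of `QM` are in `SPZU`, `SMZU`. As `MSKU_thm` (PTK/MSKU.lean) and `MS2`, with `DCKU`, `DXL`, `ZSU`. -/
def Stmt_MS1 : Prop := ∀ (h n m k : ℕ) (π : Fin m → PP) (p e : Fin m → ℕ) (r f : Fin k → ℕ)
  (w0 : ZMod 3) (c : Fin m → ZMod 3), NF n π p e r f → h ≤ 2 →
  ∀ (M N : ℕ) (y : Fin M → Fin (m + 1) → ZMod 3) (α β : Fin N → Fin M),
  TeC (VS h n π p e r w0 c) (V0 h n π p e r w0 c) y α β → ∀ P Q P' Q' : Fin N → Eis,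
  SysZ (fun i => zN π e (y i)) α β P Q P' Q' →
  (∀ j, HypD (3 ^ h * n) (zN π e (y (β j))) (zN π e (y (α j))) (P j) (Q j) (P' j) (Q' j) ∨
    (h ≠ 1 ∧ HypX (3 ^ h * n) (zN π e (y (β j))) (zN π e (y (α j))) (P j) (Q j) (P' j) (Q' j))) →
  ∃ f₀ : ℕ, 0 < f₀ ∧ ∀ f' : ℕ, 0 < f' → f₀ ∣ f' →
  ∀ κ : (ZMod f')ˣ →* Multiplicative (Fin (m + 1) → ZMod 3), IsK π κ →
  ∃ (C : Fin N → ZMod 3) (Φ : (ZMod f')ˣ →* Multiplicative (Fin N → ZMod 3)) (N₀ : ℕ),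
    ∀ q : ℕ, q.Prime → N₀ < q →
      (q ∈ QM h n π e w0 c y α 1 1 →
        q ∈ SPZU (fun i => zN π e (y i)) α P Q P' Q' κ (Fin.cons w0 c) C Φ) ∧
      (q ∈ QM h n π e w0 c y α 1 2 →
        q ∈ SMZU (fun i => zN π e (y i)) α P Q P' Q' κ (Fin.cons w0 c) C Φ)

/-- PTK_MT2: the joint density, `q = 2 (mod 3)`. As `CTJ_thm` (PTK/CTJ.lean) with `MSY`, `MSP`, `MS2`, `CLSC`, `BM2`. -/
def Stmt_MT2 : Prop := ∀ (h n m k : ℕ) (π : Fin m → PP) (p e : Fin m → ℕ) (r f : Fin k → ℕ)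
  (w0 : ZMod 3) (c : Fin m → ZMod 3) (s : ℕ) (τ : Fin s → Fin 3) (b X Y : Fin s → ℤ)
  (P Q P' Q' : Fin s → Fin s → ℤ), NF n π p e r f → h ≤ 2 → PlS h n π w0 c τ b X Y P Q P' Q' →
  ∀ (M N : ℕ) (y : Fin M → Fin (m + 1) → ZMod 3) (α β : Fin N → Fin M),
  TeC (VS h n π p e r w0 c) (V0 h n π p e r w0 c) y α β →
  ∀ t : ℕ, ∃ K : ℝ, ∀ σ : ℝ, 1 < σ → σ ≤ 2 →
    BDENS.sm {q | q ∈ QM h n π e w0 c y α 2 1 ∧ t ≤ kS h n b X Y P Q P' Q' 1 q} σ +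
      BDENS.sm {q | q ∈ QM h n π e w0 c y α 2 2 ∧ t ≤ kS h n b X Y P Q P' Q' 2 q} σ ≤
      1 / 3 ^ N / 3 ^ (m + 1) * LI s t * Real.log (1 / (σ - 1)) + K

/-- PTK_MTU: the joint density, `q = 1 (mod 3)`, generic pattern. As `CTU_thm` (PTK/CTU.lean) with `MSY`, `MSPU`, `MS1`, `CLSC`, `CLSCS`, `BMU`. -/
def Stmt_MTU : Prop := ∀ (h n m k : ℕ) (π : Fin m → PP) (p e : Fin m → ℕ) (r f : Fin k → ℕ)
  (w0 : ZMod 3) (c : Fin m → ZMod 3) (d : ℕ) (v : Fin d → ℤ) (δ : Fin d → ZMod 3)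
  (s : ℕ) (τ : Fin s → Fin 3) (b : Fin (s + 1) → ℤ) (X Y : Fin s → ℤ)
  (P Q P' Q' : Fin (s + 1) → Fin (s + 1) → ℤ), NF n π p e r f → h ≤ 2 → δ ≠ 0 →
  PlU h n π w0 c v δ τ b X Y P Q P' Q' →
  ∀ (M N : ℕ) (y : Fin M → Fin (m + 1) → ZMod 3) (α β : Fin N → Fin M),
  TeC (VS h n π p e r w0 c) (V0 h n π p e r w0 c) y α β →
  ∀ t : ℕ, ∃ K : ℝ, ∀ σ : ℝ, 1 < σ → σ ≤ 2 →
    BDENS.sm {q | (q ∈ QM h n π e w0 c y α 1 1 ∧ q ∈ Pat v δ) ∧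
        t ≤ kU h n b X Y P Q P' Q' 1 q} σ +
      BDENS.sm {q | (q ∈ QM h n π e w0 c y α 1 2 ∧ q ∈ Pat v δ) ∧
        t ≤ kU h n b X Y P Q P' Q' 2 q} σ ≤
      2 / 3 ^ d / 3 ^ N / 3 ^ (m + 1) * LI s t * Real.log (1 / (σ - 1)) + K

/-! ### The zero pattern -/

/-- PTK_MPZ: as `MSPU`, when all the `b i` are cubes modulo `q = 1 (mod 3)`.
Proof. As `MSPU_thm` (PTK/MSPU.lean) for the system `b` of `PlS` in place of `rv b`, `DCOU` for all pairs; a `ρ` with `q = ρ conj ρ` exists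
(`SPLT`), `NADU` for this `ρ` (`AdN ∧ sym ρ = 0` gives `AG`), `TENT`. -/
def Stmt_MPZ : Prop := ∀ (h n m k : ℕ) (π : Fin m → PP) (p e : Fin m → ℕ) (r f : Fin k → ℕ)
  (w0 : ZMod 3) (c : Fin m → ZMod 3) (s : ℕ) (τ : Fin s → Fin 3) (b X Y : Fin s → ℤ)
  (P Q P' Q' : Fin s → Fin s → ℤ), NF n π p e r f → h ≤ 2 → PlS h n π w0 c τ b X Y P Q P' Q' →
  ∃ f₀ : ℕ, 0 < f₀ ∧ ∀ f' : ℕ, 0 < f' → f₀ ∣ f' →
  ∀ κ : (ZMod f')ˣ →* Multiplicative (Fin (m + 1) → ZMod 3), IsK π κ →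
  ∃ (C : Fin s → Fin s → ZMod 3) (Φ : (ZMod f')ˣ →* Multiplicative (Fin s → Fin s → ZMod 3)) (N₀ : ℕ),
    ∀ q t : ℕ, q.Prime → N₀ < q → q % 3 = 1 → q ∈ ZP b →
      (InCT 1 π w0 c q → t ≤ kS h n b X Y P Q P' Q' 1 q →
        q ∈ SPF b P Q P' Q' t κ (Fin.cons w0 c) C Φ) ∧
      (InCT 2 π w0 c q → t ≤ kS h n b X Y P Q P' Q' 2 q →
        q ∈ SMF b P Q P' Q' t κ (Fin.cons w0 c) C Φ)

/-- PTK_MTZ: the joint density, `q = 1 (mod 3)`, all rational classes cubes modulo `q`. As `MTU`, with `MSY`, `MPZ`, `MS1`, `CLSC`, `CLSCS`, `BMZ`. -/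
def Stmt_MTZ : Prop := ∀ (h n m k : ℕ) (π : Fin m → PP) (p e : Fin m → ℕ) (r f : Fin k → ℕ)
  (w0 : ZMod 3) (c : Fin m → ZMod 3) (s : ℕ) (τ : Fin s → Fin 3) (b X Y : Fin s → ℤ)
  (P Q P' Q' : Fin s → Fin s → ℤ), NF n π p e r f → h ≤ 2 → PlS h n π w0 c τ b X Y P Q P' Q' →
  ∀ (M N : ℕ) (y : Fin M → Fin (m + 1) → ZMod 3) (α β : Fin N → Fin M),
  TeC (VS h n π p e r w0 c) (V0 h n π p e r w0 c) y α β →
  ∀ t : ℕ, ∃ K : ℝ, ∀ σ : ℝ, 1 < σ → σ ≤ 2 →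
    BDENS.sm {q | (q ∈ QM h n π e w0 c y α 1 1 ∧ q ∈ ZP b) ∧
        t ≤ kS h n b X Y P Q P' Q' 1 q} σ +
      BDENS.sm {q | (q ∈ QM h n π e w0 c y α 1 2 ∧ q ∈ ZP b) ∧
        t ≤ kS h n b X Y P Q P' Q' 2 q} σ ≤
      1 / 3 ^ s / 3 ^ N / 3 ^ (m + 1) * LI s t * Real.log (1 / (σ - 1)) + K

/-- PTK_NBX: the bound for the rank, `q = 1 (mod 3)`, all rational classes cubes modulo `q`, with the matrix.
Proof. As `NBU_thm` (PTK/NBU.lean) with `b` in place of `rv b` and the first bound of `WGU` for `Nat.card W`: the classes of the plus part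
(`NPLU`, `NADU` for a `ρ` from `SPLT`) are products of the `b i` up to cubes (`PlS.gen`), in the kernel of the matrix (`TENT`). -/
def Stmt_NBX : Prop := ∀ (h n m k : ℕ) (π : Fin m → PP) (p e : Fin m → ℕ) (r f : Fin k → ℕ)
  (w0 : ZMod 3) (c : Fin m → ZMod 3) (s : ℕ) (τ : Fin s → Fin 3) (b X Y : Fin s → ℤ)
  (P Q P' Q' : Fin s → Fin s → ℤ) (E q : ℕ), NF n π p e r f → h ≤ 2 →
  PlS h n π w0 c τ b X Y P Q P' Q' →
  (E = 1 ∨ E = 2) → q.Prime → 3 < q → q % 3 = 1 → InCT E π w0 c q → ¬ q ∣ n → q ∈ ZP b →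
  CubeRank.GenBy (BB h n E q) (Nat.log 3 (Nat.card (WqS h n π p e r w0 c (BB h n E q))) + 1 +
    kS h n b X Y P Q P' Q' E q)

/-- PTK_ZPV: the zero pattern does not depend on the basis.
Proof. The part of `CTZ_thm` (PTK/CTZ.lean): every `b i` is a product of the `v j` up to cubes (`HB`). -/
def Stmt_ZPV : Prop := ∀ (h n m k : ℕ) (π : Fin m → PP) (p e : Fin m → ℕ) (r f : Fin k → ℕ)
  (w0 : ZMod 3) (c : Fin m → ZMod 3) (s : ℕ) (τ : Fin s → Fin 3) (b X Y : Fin s → ℤ)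
  (P Q P' Q' : Fin s → Fin s → ℤ) (d : ℕ) (v : Fin d → ℤ), NF n π p e r f → h ≤ 2 →
  PlS h n π w0 c τ b X Y P Q P' Q' → HB h n π w0 c v →
  ∃ M : ℕ, ∀ q : ℕ, q.Prime → M < q → q ∈ ZP v → q ∈ ZP b

/-! ### Linear algebra -/

/-- PTK_WSB: the vectors of the classes of points form a subspace. Proof: in `WGR_thm` (PTK/WGR.lean). -/
def Stmt_WSB : Prop := ∀ (h n m k : ℕ) (π : Fin m → PP) (p e : Fin m → ℕ) (r f : Fin k → ℕ)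
  (w0 : ZMod 3) (c : Fin m → ZMod 3) (E q : ℕ), NF n π p e r f → h ≤ 2 →
  (E = 1 ∨ E = 2) → q.Prime → 3 < q → ¬ q ∣ n →
  ∃ W : Submodule (ZMod 3) (Fin (m + 1) → ZMod 3),
    ∀ y, y ∈ W ↔ y ∈ WqS h n π p e r w0 c (BB h n E q)

/-- the number of the pairs, in terms of dimensions -/
def nTe (a₀ δ v v₀ : ℕ) : ℕ := δ * v₀ + ∑ i ∈ range a₀, (v - δ - 1 - i)

/-- the number of the pairs for the subspace `U` -/
noncomputable def nUe {M' : ℕ} (V V₀ U : Submodule (ZMod 3) (Fin M' → ZMod 3)) : ℕ :=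
  nTe (Module.finrank (ZMod 3) ↥(U ⊓ V₀))
    (Module.finrank (ZMod 3) U - Module.finrank (ZMod 3) ↥(U ⊓ V₀))
    (Module.finrank (ZMod 3) V) (Module.finrank (ZMod 3) V₀)

/-- PTK_LTE: a test configuration for a subspace `U`.
Proof. Let `v = dim V`, `v₀ = dim V₀`, `a₀ = dim (U ⊓ V₀)`, `δ = dim U - a₀`. A basis of `V` in the order: `δ` vectors of `U` which together with a basis of
`U ⊓ V₀` are a basis of `U` (they are independent modulo `V₀`), a basis of `U ⊓ V₀` (`a₀` vectors), its completion to a basis of `V₀`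
(`v₀ - a₀` vectors), completion to a basis of `V` (`M = v`). Pairs `(i, i')`, `i < i'`: for `i < δ` all `i'` with `δ ≤ i' < δ + v₀`; for `δ ≤ i < δ + a₀` all
`i' > i`: `δ v₀ + ∑_{i < a₀} (v - 1 - δ - i)` pairs. Enumerate them by `Fin N`. -/
def Stmt_LTE : Prop := ∀ (M' : ℕ) (V V₀ U : Submodule (ZMod 3) (Fin M' → ZMod 3)), V₀ ≤ V → U ≤ V →
  ∃ (M N : ℕ) (y : Fin M → Fin M' → ZMod 3) (α β : Fin N → Fin M),
    TeC V V₀ y α β ∧ (∀ j, y (α j) ∈ U) ∧ N = nUe V V₀ U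

/-- the bound for the moment of order `k` of the number of the classes, `j` the codimension of `V₀` -/
noncomputable def gM : ℕ → ℕ → ℝ
  | 0, _ => 1
  | k + 1, j => (1 + 3 ^ (k + 1) / 3 ^ j) * gM k j + (3 ^ j - 1) * 3 ^ k * gM k (j - 1)

/-- PTK_LSM: the sum over the tuples.
Proof. Let `v = dim V`, `v₀ = dim V₀`, `d = v - v₀`; for a subspace `U ≤ V` let `a = dim U`, `a₀ = dim (U ⊓ V₀)`, `δ = a - a₀`, `j = d - δ`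
(`dim (U + V₀) = v₀ + δ ≤ v`). Claim: `∑_{Y : Fin k → V} 1 / 3^(nUe (U + span Y)) ≤ 3^(a k) gM k j / 3^(nUe U)`. Induction on `k`, `k = 0` clear. `Y = cons y Y'`: sum over
`y ∈ V` of the claim for `U' = U + ⟨y⟩`. (1) `y ∈ U`: `U' = U`, `3^a` vectors: total `3^a 3^(a k) gM k j / 3^(nUe U)`. (2) `y ∈ (U + V₀) \ U`: `U' = U + ⟨x⟩` with
`x ∈ V₀ \ U`, so `a₀' = a₀ + 1`, `δ' = δ`, `nUe U' = nUe U + (v - δ - 1 - a₀)` (`sum_range_succ`), at most `3^(v₀ + δ)` vectors; `v₀ + δ - (v - δ - 1 - a₀) = a + 1 - j`,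
total at most `3^(a + 1) / 3^j · 3^((a + 1) k) gM k j / 3^(nUe U) = 3^(a (k + 1)) (3^(k + 1) / 3^j) gM k j / 3^(nUe U)`. (3) `y ∈ V \ (U + V₀)`: `a₀' = a₀`, `δ' = δ + 1`,
`nUe U' = nUe U + v₀ - a₀` (every term `v - δ - 1 - i`, `i < a₀`, decreases by one; `δ + 1 + a₀ ≤ v`), `3^(v₀ + δ) (3^j - 1)` vectors: total
`3^(v₀ + δ - v₀ + a₀) (3^j - 1) 3^((a + 1) k) gM k (j - 1) / 3^(nUe U) = 3^(a (k + 1)) 3^k (3^j - 1) gM k (j - 1) / 3^(nUe U)`. Take `U = ⊥` (`nUe ⊥ = 0`). -/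
def Stmt_LSM : Prop := ∀ (M' : ℕ) (V V₀ : Submodule (ZMod 3) (Fin M' → ZMod 3)), V₀ ≤ V →
  ∀ k : ℕ, ∑ᶠ Y : Fin k → V, (1 : ℝ) /
      3 ^ nUe V V₀ (Submodule.span (ZMod 3) (Set.range fun i => (Y i : Fin M' → ZMod 3))) ≤
    gM k (Module.finrank (ZMod 3) V - Module.finrank (ZMod 3) V₀)

/-- `(1 + 3)(1 + 9) ... (1 + 3^k)`: the moment of order `k` of the size of the kernel of a large random skew-symmetric matrix -/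
noncomputable def MoB (k : ℕ) : ℝ := ∏ i ∈ range k, (1 + 3 ^ (i + 1))

/-- PTK_GMB: the values of `gM`.
Proof. Induction on `k`. `gM (k + 1) 1 = (1 + 3^k) MoB k + 2 · 3^k MoB k = (1 + 3^(k + 1)) MoB k`. `gM (k + 1) 2 ≤ (1 + 3^k / 3) 3 MoB k + 8 · 3^k MoB k =
(3 + 9 · 3^k) MoB k = 3 MoB (k + 1)`, and `gM (k + 1) 2 ≥ 8 · 3^k MoB k + MoB k ≥ MoB (k + 1)`. -/
def Stmt_GMB : Prop := (∀ k, gM k 0 = MoB k) ∧ (∀ k, gM k 1 = MoB k) ∧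
  (∀ k, MoB k ≤ gM k 2) ∧ (∀ k, gM k 2 ≤ 3 * MoB k) ∧ gM 1 2 = 28 / 3 ∧ (∀ k, 1 ≤ MoB k) ∧
  MoB 1 = 4 ∧ ∀ k, MoB k ^ 2 ≤ 64 / 25 * 3 ^ (k * (k + 1))

/-- PTK_WSM: sums weighted by powers of the number of the classes.
Proof. `ι = (Fin k₀ → VS)`; for `Y : ι` let `U = span (range Y) ≤ VS`, `(y, α, β)` from `LTE` for `V = VS`, `V₀ = V0` (`V0 ≤ VS`), `T Y E = {q | q ∈ S E ∧ ∀ j, Occ ..}`,
`x Y = x₀ / 3^(nUe U)`. For a prime `q ∈ S E`, `q > max 3 n`: `WSB` gives the subspace `W ≤ VS` with the elements `WqS`,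
`(card WqS)^k₀ = #(Fin k₀ → W) = ∑_Y [∀ i, Y i ∈ W] ≤ ∑_Y [q ∈ T Y E]` (if all `Y i ∈ W` then `U ≤ W`, `y (α j) ∈ U`). `UPS` (1) with `c = 1`, then `LSM` and `UPS` (2). -/
def Stmt_WSM : Prop := ∀ (h n m k : ℕ) (π : Fin m → PP) (p e : Fin m → ℕ) (r f : Fin k → ℕ)
  (w0 : ZMod 3) (c : Fin m → ZMod 3), NF n π p e r f → h ≤ 2 →
  ∀ (k₀ : ℕ) (S : ℕ → Set ℕ) (G : ℕ → ℕ → ℝ) (x₀ : ℝ), 0 ≤ x₀ → (∀ E q, 0 ≤ G E q) →
  (∀ (M N : ℕ) (y : Fin M → Fin (m + 1) → ZMod 3) (α β : Fin N → Fin M),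
    TeC (VS h n π p e r w0 c) (V0 h n π p e r w0 c) y α β →
    UpS (fun E => {q | q ∈ S E ∧ ∀ j, Occ (BB h n E q) (zN π e (y (α j)))}) G (x₀ / 3 ^ N)) →
  UpS S (fun E q => (Nat.card (WqS h n π p e r w0 c (BB h n E q)) : ℝ) ^ k₀ * G E q)
    (gM k₀ (vN h n π p e r w0 c - v0N h n π p e r w0 c) * x₀)

/-! ### The law of the corank of a skew-symmetric matrix -/

/-- PTK_ESR: the recursion.
Proof. A skew-symmetric matrix of size `s + 1` is `[[A, x], [-xᵀ, 0]]` with `A` skew-symmetric of size `s` and a vector `x` (bijection; the diagonal is `0` since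
`2 ≠ 0`). If `x` is in the column space of `A` (`3^(rank A)` vectors) then the rank is `rank A`: subtract `A`-combinations (congruence
`[[1, 0], [yᵀ, 1]]` with `x = A y`; `yᵀ A y = 0`). Otherwise it is `rank A + 2`. With `c = s - rank A`: the corank of the large matrix is `c + 1` with
probability `3^(rank A - s) = 1 / 3^c`, and `c - 1` otherwise (then `c ≥ 1`; for `c = 0` the factor `1 - 1 / 3^c` is `0`). (Ranks: `AL.even_rank` or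
`LinearMap.finrank_range_add_finrank_ker`; kernel of the large matrix: `{(y, t) : A y + t x = 0, xᵀ y = 0}`.) -/
def Stmt_ESR : Prop := ∀ (s : ℕ) (F : ℕ → ℝ), Esk (s + 1) F =
  Esk s (fun c => (1 - 1 / 3 ^ c) * F (c - 1) + 1 / 3 ^ c * F (c + 1))

/-- PTK_ESB: the moments.
Proof. `M s k = Esk s (3^(k c))`: by `ESR` (pointwise, also for `c = 0`): `M (s + 1) (k + 1) = 3^-(k+1) M s (k + 1) + (3^(k+1) - 3^-(k+1)) M s k`. Induction on `k` and `s`: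
`≤ MoB k (3^-(k+1) (1 + 3^(k+1)) + 3^(k+1) - 3^-(k+1)) = MoB k (1 + 3^(k+1))`. `M 0 k = 1`, `M s 0 = 1`. -/
def Stmt_ESB : Prop := ∀ s k : ℕ, Esk s (fun c => (3 : ℝ) ^ (k * c)) ≤ MoB k

/-- PTK_ESZ: the law for `q = 1 (mod 3)`.
Proof. Induction on `d` with `ESR`, for all `F`. `d = 0`: both sides are `F 1`. Step: let `T F c = (1 - 3^-c) F (c - 1) + 3^-c F (c + 1)`, `Esk (s + 1) F = Esk s (T F)`. `Esk (d + 2) F =
Esk (d + 1) (T F) = (1 - 3^-d) Esk (d - 1) (T F) + 3^-d Esk d (fun c => T F (c + 1))`; the first term is `(1 - 3^-d) Esk d F` (for `d = 0` both are `0`), and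
pointwise `3 T F (c + 1) = 2 F c + T (fun c => F (c + 1)) c` (both are `(3 - 3^-c) F c + 3^-c F (c + 2)`), so the second one is
`3^-d (2/3 Esk d F + 1/3 Esk (d + 1) (fun c => F (c + 1)))`. -/
def Stmt_ESZ : Prop := ∀ (d : ℕ) (F : ℕ → ℝ),
  (1 - 1 / 3 ^ d) * Esk (d - 1) F + 1 / 3 ^ d * Esk d (fun c => F (c + 1)) = Esk (d + 1) F

/-- PTK_KUM: from tails to averages, for every monotone function. As `KUP_thm` (PTK/KUP.lean): `DOMG`, `LAW` (first part, `v = 0`). -/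
def Stmt_KUM : Prop := ∀ (S : ℕ → Set ℕ) (R : ℕ → ℕ → ℕ) (s M : ℕ) (x : ℝ), 0 ≤ x →
  (∀ E q, (E = 1 ∨ E = 2) → q.Prime → M < q → q ∈ S E → R E q ≤ s) →
  (∀ t, ∃ K : ℝ, ∀ σ : ℝ, 1 < σ → σ ≤ 2 →
    BDENS.sm {q | q ∈ S 1 ∧ t ≤ R 1 q} σ + BDENS.sm {q | q ∈ S 2 ∧ t ≤ R 2 q} σ ≤
      x * LI s t * Real.log (1 / (σ - 1)) + K) →
  ∀ F : ℕ → ℝ, Monotone F → 0 ≤ F 0 → UpS S (fun E q => F (R E q)) (Esk s F * x)

/-! ### Joint averages -/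

/-- PTK_JP2: `q = 2 (mod 3)`.
Proof. `WSM` with `S E = {q | q % 3 = 2 ∧ InCT E π w0 c q}`, `G E q = F (kS ..)`, `x₀ = Esk s F / 3^(m+1) ≥ 0`; the hypothesis for a configuration: `KUM` for
`S' E = {q | q ∈ S E ∧ ∀ j, Occ ..} = QM .. 2 E`, `R = kS`, `x = 1 / 3^N / 3^(m+1)`, with `MT2`. -/
def Stmt_JP2 : Prop := ∀ (h n m k : ℕ) (π : Fin m → PP) (p e : Fin m → ℕ) (r f : Fin k → ℕ)
  (w0 : ZMod 3) (c : Fin m → ZMod 3) (s : ℕ) (τ : Fin s → Fin 3) (b X Y : Fin s → ℤ)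
  (P Q P' Q' : Fin s → Fin s → ℤ), NF n π p e r f → h ≤ 2 → PlS h n π w0 c τ b X Y P Q P' Q' →
  ∀ (k₀ : ℕ) (F : ℕ → ℝ), Monotone F → 0 ≤ F 0 →
  UpS (fun E => {q | q % 3 = 2 ∧ InCT E π w0 c q})
    (fun E q => (Nat.card (WqS h n π p e r w0 c (BB h n E q)) : ℝ) ^ k₀ *
      F (kS h n b X Y P Q P' Q' E q))
    (gM k₀ (vN h n π p e r w0 c - v0N h n π p e r w0 c) * (Esk s F / 3 ^ (m + 1)))

/-- PTK_JPG: `q = 1 (mod 3)`, one pattern. As `JP2`, with `MTU` (`s = d - 1`: `PlU.dim`). -/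
def Stmt_JPG : Prop := ∀ (h n m k : ℕ) (π : Fin m → PP) (p e : Fin m → ℕ) (r f : Fin k → ℕ)
  (w0 : ZMod 3) (c : Fin m → ZMod 3) (d : ℕ) (v : Fin d → ℤ) (δ : Fin d → ZMod 3)
  (s : ℕ) (τ : Fin s → Fin 3) (b : Fin (s + 1) → ℤ) (X Y : Fin s → ℤ)
  (P Q P' Q' : Fin (s + 1) → Fin (s + 1) → ℤ), NF n π p e r f → h ≤ 2 → δ ≠ 0 →
  PlU h n π w0 c v δ τ b X Y P Q P' Q' →
  ∀ (k₀ : ℕ) (F : ℕ → ℝ), Monotone F → 0 ≤ F 0 →
  UpS (fun E => {q | q % 3 = 1 ∧ InCT E π w0 c q ∧ q ∈ Pat v δ})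
    (fun E q => (Nat.card (WqS h n π p e r w0 c (BB h n E q)) : ℝ) ^ k₀ *
      F (kU h n b X Y P Q P' Q' E q))
    (gM k₀ (vN h n π p e r w0 c - v0N h n π p e r w0 c) *
      (Esk (d - 1) F * (2 / 3 ^ d / 3 ^ (m + 1))))

/-- PTK_JPZ: `q = 1 (mod 3)`, zero pattern. As `JP2`, with `MTZ`. -/
def Stmt_JPZ : Prop := ∀ (h n m k : ℕ) (π : Fin m → PP) (p e : Fin m → ℕ) (r f : Fin k → ℕ)
  (w0 : ZMod 3) (c : Fin m → ZMod 3) (s : ℕ) (τ : Fin s → Fin 3) (b X Y : Fin s → ℤ)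
  (P Q P' Q' : Fin s → Fin s → ℤ), NF n π p e r f → h ≤ 2 → PlS h n π w0 c τ b X Y P Q P' Q' →
  ∀ (k₀ : ℕ) (F : ℕ → ℝ), Monotone F → 0 ≤ F 0 →
  UpS (fun E => {q | q % 3 = 1 ∧ InCT E π w0 c q ∧ q ∈ ZP b})
    (fun E q => (Nat.card (WqS h n π p e r w0 c (BB h n E q)) : ℝ) ^ k₀ *
      F (kS h n b X Y P Q P' Q' E q))
    (gM k₀ (vN h n π p e r w0 c - v0N h n π p e r w0 c) *
      (Esk s F * (1 / 3 ^ s / 3 ^ (m + 1))))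

/-! ### Averages in a class -/

/-- the bound for the average of the rank in a class -/
noncomputable def aW (d : ℕ) : ℝ := if d ≤ 1 then 9 / 4 else 335 / 108

/-- the bound for the moments of the number of the classes -/
noncomputable def cM (k d : ℕ) : ℝ := if d ≤ 1 then MoB k else gM k 2

/-- PTK_AM2: the averages in a class, `q = 2 (mod 3)`.
Proof. As `AV2_thm` (PTK/AV2.lean). System from `PLE`. For large `q`: `rr B ≤ w + κ`, `card WqS = 3^w` (`NBW`, `WGR`). Moments: `3^(k₀ rr B) ≤ (card WqS)^k₀ 3^(k₀ κ)`: `JP2` with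
`F c = 3^(k₀ c)`, `ESB`, and `gM k₀ (v - v₀) ≤ cM k₀ dN` (`v - v₀ ≤ dN ≤ 2`: `VDIM`; `GMB`). Rank: `rr B ≤ 1/2 + card WqS / 6 + κ` (`dN ≤ 1`), `rr B ≤ 3/2 + card WqS / 18 + κ`
(`dN = 2`; see `AVR_thm`); `JP2` with `(k₀, F) = (1, 1)`, `(0, id)`, `(0, 1)` (`gM 0 _ = 1`), `LAM` (`Esk s id ≤ 13/12`), `gM 1 0 = gM 1 1 = 4`, `gM 1 2 = 28/3` (`gM 1 (v - v₀) ≤ 28/3`):
`1/2 + 4/6 + 13/12 = 9/4`, `3/2 + 28/54 + 13/12 = 335/108`. `UPS`, `UPA`. -/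
def Stmt_AM2 : Prop := ∀ (h n m k : ℕ) (π : Fin m → PP) (p e : Fin m → ℕ) (r f : Fin k → ℕ)
  (w0 : ZMod 3) (c : Fin m → ZMod 3), NF n π p e r f → h ≤ 2 →
  AboveA ((3 ^ h * n : ℕ) : ℤ) 2 (Kl π w0 c) (fun A => (CubeRank.rr A : ℝ))
    (aW (dN h n w0) / 3 ^ (m + 1)) ∧
  ∀ k₀ : ℕ, AboveA ((3 ^ h * n : ℕ) : ℤ) 2 (Kl π w0 c) (fun A => 3 ^ (k₀ * CubeRank.rr A))
    (cM k₀ (dN h n w0) * MoB k₀ / 3 ^ (m + 1))

/-- PTK_AM1: the averages in a class, `q = 1 (mod 3)`.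
Proof. As `AV1_thm` (PTK/AV1.lean). `v` from `NHPT` (`d = sN`, `HB`); for every `δ ≠ 0` a system (`PLU`), and the system `b : Fin sN → ℤ` of `PLE`. For large `q` of the class:
if `q ∈ ZP v` then `q ∈ ZP b` (`ZPV`) and `rr B ≤ w + 1 + κ` (`NBX`), otherwise `rr B ≤ w + κ_δ` for at least two `δ ≠ 0` with `q ∈ Pat v δ` (`PAT`, `NBU`). Let `N = card WqS = 3^w`, `g = gM k₀ (v - v₀)`.
Moments: `2 · 3^(k₀ rr B) ≤ ∑_δ [q ∈ Pat v δ] N^k₀ 3^(k₀ κ_δ) + [q ∈ ZP b] 2 N^k₀ 3^(k₀ (κ + 1))`; `UPS` (1) with `c = 2`, `JPG` (`F c = 3^(k₀ c)`), `JPZ` (`F c = 3^(k₀ (c + 1))`):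
`(1/2) ((3^d - 1)(2 / 3^d) Esk (d - 1) F + 2 (1 / 3^d) Esk d (F (· + 1))) g / 3^(m+1) = g Esk (d + 1) F / 3^(m+1)` (`ESZ`) `≤ g MoB k₀ / 3^(m+1)` (`ESB`). Rank: with
`l = 1/2 + N/6` or `3/2 + N/18`: `2 rr B ≤ ∑_δ [q ∈ Pat v δ] (l + κ_δ) + [q ∈ ZP b] 2 (l + κ + 1)`; `JPG`, `JPZ` with `k₀ = 0, 1`: the total is
`l-part + Esk (d + 1) id ≤ l-part + 13/12` (`ESZ` for `F = id` and for `F = 1`, `LAM`). -/
def Stmt_AM1 : Prop := ∀ (h n m k : ℕ) (π : Fin m → PP) (p e : Fin m → ℕ) (r f : Fin k → ℕ)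
  (w0 : ZMod 3) (c : Fin m → ZMod 3), NF n π p e r f → h ≤ 2 →
  AboveA ((3 ^ h * n : ℕ) : ℤ) 1 (Kl π w0 c) (fun A => (CubeRank.rr A : ℝ))
    (aW (dN h n w0) / 3 ^ (m + 1)) ∧
  ∀ k₀ : ℕ, AboveA ((3 ^ h * n : ℕ) : ℤ) 1 (Kl π w0 c) (fun A => 3 ^ (k₀ * CubeRank.rr A))
    (cM k₀ (dN h n w0) * MoB k₀ / 3 ^ (m + 1))

/-! ### The theorem -/

/-- PTK_AMF: the averages over all `A`.
Proof. As `AVF_thm` (PTK/AVF.lean): `SUMA`, `AM2`, `AM1`. `h = 1, 2`: `dN ≤ 1`. `h = 0`: one of the three `w0` has `dN = 2`, the others `dN = 1`: `(2 · 9/4 + 335/108)/3 = 821/324`,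
`(2 MoB k + gM k 2) MoB k / 3 ≤ (5/3) (MoB k)²`, for `k = 1`: `(8 + 28/3) 4 / 3 = 208/9`. -/
def Stmt_AMF : Prop := ∀ (h n m k : ℕ) (π : Fin m → PP) (p e : Fin m → ℕ) (r f : Fin k → ℕ),
  NF n π p e r f → h ≤ 2 → ∀ a : ℕ, (a = 1 ∨ a = 2) →
  AboveA ((3 ^ h * n : ℕ) : ℤ) a (fun _ => True) (fun A => (CubeRank.rr A : ℝ)) (821 / 324) ∧
  AboveA ((3 ^ h * n : ℕ) : ℤ) a (fun _ => True) (fun A => 3 ^ CubeRank.rr A) (208 / 9) ∧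
  (∀ k₀ : ℕ, AboveA ((3 ^ h * n : ℕ) : ℤ) a (fun _ => True)
    (fun A => 3 ^ (k₀ * CubeRank.rr A)) (5 / 3 * MoB k₀ ^ 2)) ∧
  (h ≠ 0 →
    AboveA ((3 ^ h * n : ℕ) : ℤ) a (fun _ => True) (fun A => (CubeRank.rr A : ℝ)) (9 / 4) ∧
    ∀ k₀ : ℕ, AboveA ((3 ^ h * n : ℕ) : ℤ) a (fun _ => True)
      (fun A => 3 ^ (k₀ * CubeRank.rr A)) (MoB k₀ ^ 2))

/-- PTK_MTL: from moments to tails. Proof: `tf (t ≤ r) ≤ 3^(k r) / 3^(k t)` pointwise. -/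
def Stmt_MTL : Prop := ∀ (n : ℤ) (a : ℕ) (W : ℤ → Prop) (k t : ℕ) (x : ℝ),
  AboveA n a W (fun A => 3 ^ (k * CubeRank.rr A)) x →
  AboveA n a W (fun A => tf (t ≤ CubeRank.rr A)) (x / 3 ^ (k * t))

/-- PTK_MAM: the theorem.
Proof. As `MAJ_thm` (PTK/MAJ.lean): `NFE`, `AMF`, `AM2`, `AM1`, `TRU`. `3 ∣ N` iff `h ≠ 0`. Tails: `MTL` with `t = 2 k + 1` and `GMB` (last part):
`(5/3)(64/25) 3^(k (k + 1)) / 3^(k (2 k + 1)) = (64/15) / 3^(k²)`. Classes of units `u`: `w0 = wt (U²)`, `aW ≤ 335/108`, `cM k dN ≤ 3 MoB k`; if `3 ∣ N` or `N u ≠ ± 1 (mod 9)` then `dN ≤ 1`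
(for `h = 0`: `wt (n²) + w0 = wt ((n U)²) = 0` iff `n U = ± 1 (mod 9)`: `FIN.wt_res`, `FIN.cls_iff` in PTL/FIN.lean, see PTN/MAINN.lean). -/
def Stmt_MAM : Prop := ∀ N : ℕ, 0 < N → (∀ p : ℕ, p.Prime → ¬ p ^ 3 ∣ N) →
  ∀ m : ℕ, m = (N.primeFactors.filter (fun p => p % 3 = 1)).card → ∀ a : ℕ, (a = 1 ∨ a = 2) →
  AboveA N a (fun _ => True) (fun A => (CubeRank.rr A : ℝ)) (821 / 324) ∧
  AboveA N a (fun _ => True) (fun A => 3 ^ CubeRank.rr A) (208 / 9) ∧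
  (∀ k : ℕ, AboveA N a (fun _ => True) (fun A => 3 ^ (k * CubeRank.rr A)) (5 / 3 * MoB k ^ 2)) ∧
  (∀ k : ℕ, AboveA N a (fun _ => True) (fun A => tf (2 * k + 1 ≤ CubeRank.rr A))
    (64 / 15 / 3 ^ k ^ 2)) ∧
  (3 ∣ N →
    AboveA N a (fun _ => True) (fun A => (CubeRank.rr A : ℝ)) (9 / 4) ∧
    (∀ k : ℕ, AboveA N a (fun _ => True) (fun A => 3 ^ (k * CubeRank.rr A)) (MoB k ^ 2)) ∧
    ∀ k : ℕ, AboveA N a (fun _ => True) (fun A => tf (2 * k + 1 ≤ CubeRank.rr A))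
      (64 / 25 / 3 ^ k ^ 2)) ∧
  ∀ u : (ZMod (9 * N))ˣ,
    AboveA N a (fun y => ∃ x : ℤ, ((9 * N : ℕ) : ℤ) ∣ y - ((u : ZMod (9 * N)).val : ℤ) * x ^ 3)
      (fun A => (CubeRank.rr A : ℝ)) (335 / 108 / 3 ^ (m + 1)) ∧
    (∀ k : ℕ, AboveA N a
      (fun y => ∃ x : ℤ, ((9 * N : ℕ) : ℤ) ∣ y - ((u : ZMod (9 * N)).val : ℤ) * x ^ 3)
      (fun A => 3 ^ (k * CubeRank.rr A)) (3 * MoB k ^ 2 / 3 ^ (m + 1))) ∧
    (3 ∣ N ∨ ((N * (u : ZMod (9 * N)).val) % 9 ≠ 1 ∧ (N * (u : ZMod (9 * N)).val) % 9 ≠ 8) →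
      AboveA N a (fun y => ∃ x : ℤ, ((9 * N : ℕ) : ℤ) ∣ y - ((u : ZMod (9 * N)).val : ℤ) * x ^ 3)
        (fun A => (CubeRank.rr A : ℝ)) (9 / 4 / 3 ^ (m + 1)) ∧
      ∀ k : ℕ, AboveA N a
        (fun y => ∃ x : ℤ, ((9 * N : ℕ) : ℤ) ∣ y - ((u : ZMod (9 * N)).val : ℤ) * x ^ 3)
        (fun A => 3 ^ (k * CubeRank.rr A)) (MoB k ^ 2 / 3 ^ (m + 1)))

end Pool.Agent.PTK
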