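import Pool.Agent.PTK.StW
import Pool.Agent.PTN.StQ

/-!
# The law of the ranks of prime twists for `q = 1 (mod 3)`: a skew-symmetric matrix of size `s + 1`

Upgrade of the law of `PTN` (hand-in PrimeTwistDistribution): for `q = 1 (mod 3)` the law is that of `v + (s + 1 - rank M)`, `M` a random
skew-symmetric matrix of size `s + 1` (before: size `s - 1`, except with probability `3^-s`, when only `v + s + 1` was known). The new input is the matrix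
for the zero pattern (`NBX`, `MTZ` of StW). Everything of the other statement files may be imported or taken as a hypothesis.
-/

set_option autoImplicit false

open NumberField IsDedekindDomain Finset
open scoped nonZeroDivisors Pointwise

namespace Pool.Agent.PTK

open Pool.Agent.Lib_helper18 Pool.Agent.Lib_helper18.Eis Pool.Agent.Lib_helper84.Cub
open Pool.Agent.PT Pool.Agent.PTE Pool.Agent.PT3 Pool.Agent.PTL Pool.Agent.PTN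

/-- PTK_CLV: the distribution of the rank in a class, `q = 1 (mod 3)`.
Proof. `d = sN`, `v` from `NHPT`, the system `b : Fin sN → ℤ` from `PLE`; `τ = t - vN`. (1) Primes not in `ZP v`: as in `CLU_thm` (PTN/CLU.lean; `DLU`, `SMT`, every such prime is in
`Pat v δ` for two `δ ≠ 0`: `PAT`): `≤ (1 - 1 / 3^d) LI (d - 1) τ / 3^(m+1) log + K`. (2) Primes in `ZP v`, large: `q ∈ ZP b` (`ZPV`), `rr B ≤ vN + 1 + kS` (`NBX`; `WqS ⊆ VS` gives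
`Nat.log 3 (card WqS) ≤ vN`; `CubeRank.rr_le`), so `t ≤ rr B` implies `τ - 1 ≤ kS`; `MTZ` for the empty configuration (`M = N = 0`; `QM .. 1 E` is then `q % 3 = 1 ∧ InCT`):
`≤ (1 / 3^d) LI d (τ - 1) / 3^(m+1) log + K`. (3) The sum of the two bounds is `LI (d + 1) τ / 3^(m+1)`: `ESZ` for `F c = [τ ≤ c]` (`Esk_ind` in PTN/LAW.lean;
`[τ ≤ c + 1] = [τ - 1 ≤ c]`). -/
def Stmt_CLV : Prop := ∀ (h n m k : ℕ) (π : Fin m → PP) (p e : Fin m → ℕ) (r f : Fin k → ℕ)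
  (w0 : ZMod 3) (c : Fin m → ZMod 3), NF n π p e r f → h ≤ 2 →
  ∀ t : ℕ, ∃ K : ℝ, ∀ σ : ℝ, 1 < σ → σ ≤ 2 →
    BDENS.sm (WR h n π w0 c 1 1 t) σ + BDENS.sm (WR h n π w0 c 1 2 t) σ ≤
      LI (sN h n π p e r w0 c + 1) (t - vN h n π p e r w0 c) / 3 ^ (m + 1) *
        Real.log (1 / (σ - 1)) + K

/-- PTK_CAV: averages in a class, `q = 1 (mod 3)`. As `CAB_thm` (PTN/CAB.lean), first part, with `CLV` in place of `CLN` (and the first part of `CLU`); `LAW` (first part) for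
`s = sN + 1`. -/
def Stmt_CAV : Prop := ∀ (h n m k : ℕ) (π : Fin m → PP) (p e : Fin m → ℕ) (r f : Fin k → ℕ)
  (w0 : ZMod 3) (c : Fin m → ZMod 3), NF n π p e r f → h ≤ 2 →
  ∀ F : ℕ → ℝ, Monotone F → 0 ≤ F 0 →
  AboveA ((3 ^ h * n : ℕ) : ℤ) 1 (Kl π w0 c) (fun A => F (CubeRank.rr A))
    (Esk (sN h n π p e r w0 c + 1) (fun x => F (vN h n π p e r w0 c + x)) / 3 ^ (m + 1))

/-- PTK_CBV: lower bounds in a class, `q = 1 (mod 3)`. As `CBE_thm` (PTN/CBE.lean), first part, with `CLV`. -/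
def Stmt_CBV : Prop := ∀ (h n m k : ℕ) (π : Fin m → PP) (p e : Fin m → ℕ) (r f : Fin k → ℕ)
  (w0 : ZMod 3) (c : Fin m → ZMod 3), NF n π p e r f → h ≤ 2 → ∀ (t : ℕ) (R : ℤ → Prop),
  (∀ A : ℤ, A ≠ 0 → CubeRank.GenBy A (CubeRank.rr A) → CubeRank.rr A < t → R A) →
  BelowA ((3 ^ h * n : ℕ) : ℤ) 1 (Kl π w0 c) (fun A => tf (R A))
    ((1 - LI (sN h n π p e r w0 c + 1) (t - vN h n π p e r w0 c)) / 3 ^ (m + 1))

open Classical in
/-- PTK_ALV: the averages over all `A`, `q = 1 (mod 3)`. As `ALLQ_thm` (PTN/ALLQ.lean), the parts for `a = 2`, with `CAV`, `CBV`; `LAW` for the size `sN + 1`. -/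
def Stmt_ALV : Prop := ∀ (h n m k : ℕ) (π : Fin m → PP) (p e : Fin m → ℕ) (r f : Fin k → ℕ),
  NF n π p e r f → h ≤ 2 → ∀ μ : ℕ, μ = m + (if h = 1 then 0 else 1) →
  AboveA ((3 ^ h * n : ℕ) : ℤ) 1 (fun _ => True) (fun A => 3 ^ CubeRank.rr A)
    (4 * (5 / 3) ^ μ) ∧
  (Even (k + if h = 1 then 1 else 0) →
    BelowA ((3 ^ h * n : ℕ) : ℤ) 1 (fun _ => True) (fun A => tf (CubeRank.rr A ≤ 1))
      (23 / 24 * (2 / 3) ^ μ)) ∧
  (Odd (k + if h = 1 then 1 else 0) →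
    BelowA ((3 ^ h * n : ℕ) : ℤ) 1 (fun _ => True)
      (fun A => tf (¬ ∃ X Y : ℚ, X ^ 3 + Y ^ 3 = (A : ℚ))) (5 / 8 * (2 / 3) ^ μ))

open Classical in
/-- PTK_MAV: the theorem.
Proof. As `MAINQ_thm` (PTN/MAINQ.lean) with `CAV`, `CBV`, `ALV` for `q = 1 (mod 3)`. (`Stmt_MAINQ` alone does not suffice because the functions `v`, `s` are
existentially quantified: repeat the proof with the new inputs.) -/
def Stmt_MAV : Prop := ∀ N : ℕ, 0 < N → (∀ p : ℕ, p.Prime → ¬ p ^ 3 ∣ N) →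
  ∀ m k δ μ : ℕ, m = (N.primeFactors.filter (fun p => p % 3 = 1)).card →
  k = (N.primeFactors.filter (fun p => p % 3 = 2)).card →
  δ = (if 3 ∣ N ∧ ¬ 9 ∣ N then 1 else 0) → μ + δ = m + 1 →
  (∃ v s : (ZMod (9 * N))ˣ → ℕ,
    (∀ u : (ZMod (9 * N))ˣ, s u + (if Nu1 N u then 1 else 0) = v u + k + δ) ∧
    (∑ᶠ u : (ZMod (9 * N))ˣ, (3 : ℝ) ^ v u ≤ (5 / 3) ^ μ * (9 * N).totient) ∧
    ((2 / 3 : ℝ) ^ μ * (9 * N).totient ≤
      Nat.card {u : (ZMod (9 * N))ˣ // v u = 0 ∧ ¬ Nu1 N u}) ∧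
    (¬ 3 ∣ N → (∃ p : ℕ, p.Prime ∧ p ∣ N ∧ (p % 9 = 2 ∨ p % 9 = 5)) →
      1 / 3 * (2 / 3 : ℝ) ^ m * (9 * N).totient ≤
        Nat.card {u : (ZMod (9 * N))ˣ // v u = 0 ∧ Nu1 N u}) ∧
    (∀ (u : (ZMod (9 * N))ˣ) (F : ℕ → ℝ), Monotone F → 0 ≤ F 0 →
      AboveA N 2 (Cu N u) (fun A => F (CubeRank.rr A))
        (Esk (s u) (fun x => F (v u + x)) / 3 ^ (m + 1)) ∧
      AboveA N 1 (Cu N u) (fun A => F (CubeRank.rr A))
        (Esk (s u + 1) (fun x => F (v u + x)) / 3 ^ (m + 1))) ∧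
    ∀ u : (ZMod (9 * N))ˣ, v u = 0 →
      (Even (s u) →
        BelowA N 2 (Cu N u) (fun A => tf (¬ ∃ X Y : ℚ, X ^ 3 + Y ^ 3 = (A : ℚ)))
          (5 / 8 / 3 ^ (m + 1)) ∧
        BelowA N 1 (Cu N u) (fun A => tf (CubeRank.rr A ≤ 1)) (23 / 24 / 3 ^ (m + 1))) ∧
      (Odd (s u) →
        BelowA N 2 (Cu N u) (fun A => tf (CubeRank.rr A ≤ 1)) (23 / 24 / 3 ^ (m + 1)) ∧
        BelowA N 1 (Cu N u) (fun A => tf (¬ ∃ X Y : ℚ, X ^ 3 + Y ^ 3 = (A : ℚ)))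
          (5 / 8 / 3 ^ (m + 1)))) ∧
  (∃ M : ℕ, ∀ q e : ℕ, q.Prime → M < q → (e = 1 ∨ e = 2) →
    CubeRank.GenBy (N * q ^ e) (CubeRank.rr (N * q ^ e))) ∧
  AboveA N 2 (fun _ => True) (fun A => 3 ^ CubeRank.rr A) (4 * (5 / 3) ^ μ) ∧
  AboveA N 1 (fun _ => True) (fun A => 3 ^ CubeRank.rr A) (4 * (5 / 3) ^ μ) ∧
  (Even (k + δ) →
    BelowA N 2 (fun _ => True)
      (fun A => tf (¬ ∃ X Y : ℚ, X ^ 3 + Y ^ 3 = (A : ℚ))) (5 / 8 * (2 / 3) ^ μ) ∧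
    BelowA N 1 (fun _ => True) (fun A => tf (CubeRank.rr A ≤ 1)) (23 / 24 * (2 / 3) ^ μ)) ∧
  (Odd (k + δ) →
    BelowA N 2 (fun _ => True) (fun A => tf (CubeRank.rr A ≤ 1)) (23 / 24 * (2 / 3) ^ μ) ∧
    BelowA N 1 (fun _ => True)
      (fun A => tf (¬ ∃ X Y : ℚ, X ^ 3 + Y ^ 3 = (A : ℚ))) (5 / 8 * (2 / 3) ^ μ))

end Pool.Agent.PTK
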