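import Pool.Agent.PTK.StX

/-!
# Full law of the ranks of prime twists: the pairing of the minus part

Stage 4 of the project PTK, part 1. The classes of the minus part (elements `z` of `Z[w]` with `z conj z` a cube) get an
alternating matrix too, as the rational classes in `PT3/Stmts.lean` (`OT`, `TADT`, `TALT`, `TPT`, `TENT`). Everything of
`StL`, …, `StX` (stages 1, 2, 3; all proved: `X_thm` in `PTK/X.lean`) and of `PT`, `PTE`, `PT3`, `PTL`, `PTN` may be imported or taken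
as a hypothesis; other statements of this file may be hypotheses if your docstring says so.

`SolE b x p q p' q'`: base `b`, norm `x`; then `SolE x b p (-p') (-q) q'`: base `x`, norm `b`. The identities at the
tame places were checked numerically (41283 random cases).
-/

set_option autoImplicit false

open NumberField IsDedekindDomain Finset
open scoped nonZeroDivisors Pointwise

namespace Pool.Agent.PTK

open Pool.Agent.Lib_helper18 Pool.Agent.Lib_helper18.Eis Pool.Agent.Lib_helper84.Cub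
open Pool.Agent.PT Pool.Agent.PTE Pool.Agent.PT3 Pool.Agent.PTL Pool.Agent.PTN

/-! ### Definitions -/

/-- The sum of the local terms `U_v = (B, G_1/G_2) + (w, B x b)`. -/
def UVE (s : Eis → Eis → ZMod 3) (B b x p q p' q' : Eis) : ZMod 3 :=
  s B (GfE p q p' q' 1) - s B (GfE p q p' q' 2) + s w (B * x * b)

open Classical in
/-- the value of `ASE` at all good approximations of a cube root of `b` -/
noncomputable def AVE (v : Pl) (B b p q p' q' : Eis) : ZMod 3 :=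
  if h : ∃ c : ZMod 3, ∃ N0 : ℕ, ∀ r : Eis, uni v ^ N0 ∣ r ^ 3 - b →
      ASE (sy v) B p q p' q' r = c then h.choose else 0

open Classical in
/-- the local term of the pair `(b, η)`, `η = (p + q T)/(p' + q' T)` of norm `x` from `K(b^(1/3))`, at a tame place -/
noncomputable def TTE (π : PP) (B b x p q p' q' : Eis) : ZMod 3 :=
  if LCE π.1 b then AVE (some π) B b p q p' q' + tm π.1 w x
  else if 3 ∣ V π.1 b + V π.1 B ∧ ¬ 3 ∣ V π.1 b then - tm π.1 w x else 0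

/-- the alternating form of two local classes at `λ` -/
noncomputable def lfE (b x : Eis) : ZMod 3 := sl b 4 * sl x 3 - sl b 3 * sl x 4

open Classical in
/-- the local term at `λ` -/
noncomputable def LTE (B b x p q p' q' : Eis) : ZMod 3 :=
  if LCE lam b then AVE none B b p q p' q' + sl w x
  else if LCE lam x then
    UVE sl B b x p q p' q' - (AVE none B x p (-p') (-q) q' + sl w b)
  else lfE b x

/-- The pairing. -/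
noncomputable def OZE (B b x p q p' q' : Eis) : ZMod 3 :=
  LTE B b x p q p' q' + ∑ᶠ π : PP, TTE π B b x p q p' q'

/-- conditions on `B` -/
structure BGE (B : Eis) : Prop where
  ne : B ≠ 0
  cf : ∀ π : PP, V π.1 B ≤ 2

/-- the conditions on the class `b` outside `3` -/
structure AGE (B b : Eis) : Prop where
  ne : b ≠ 0
  sym : ∀ π : PP, tm π.1 b B = 0
  unr : ∀ π : PP, ¬ π.1 ∣ B → ¬ π.1 ∣ b

/-- a class of the minus part, prime to `λ` -/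
structure MCl (b : Eis) : Prop where
  nl : ¬ lam ∣ b
  cb : ∃ t : Eis, b * conj b = t ^ 3

/-- `(p + qT)/(p' + q'T)` is the product of two elements, `T^3 = b` -/
structure PRelE (b p₁ q₁ p₁' q₁' p₂ q₂ p₂' q₂' p q p' q' : Eis) : Prop where
  e0 : p₁ * p₂ * p' + b * (q₁ * q₂ * q') = p₁' * p₂' * p + b * (q₁' * q₂' * q)
  e1 : (p₁ * q₂ + q₁ * p₂) * p' + p₁ * p₂ * q' = (p₁' * q₂' + q₁' * p₂') * p + p₁' * p₂' * q
  e2 : q₁ * q₂ * p' + (p₁ * q₂ + q₁ * p₂) * q' = q₁' * q₂' * p + (p₁' * q₂' + q₁' * p₂') * q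

/-! ### Tame places -/

/-- PTK_AVE: the value `AVE` is attained. Copy of `PT/ROOT.lean` and `PT/AVV.lean` (`STM`, `SPP`, `SLC`, `Stmt_LCI`). -/
def Stmt_AVE : Prop := ∀ (v : Pl) (B b x p q p' q' : Eis), B ≠ 0 → b ≠ 0 → x ≠ 0 →
  SolWE b x p q p' q' → sy v B x = 0 → LCE (uni v) b →
  (∃ N0 : ℕ, ∀ r : Eis, uni v ^ N0 ∣ r ^ 3 - b →
    ASE (sy v) B p q p' q' r = AVE v B b p q p' q') ∧
  (∀ (c : ZMod 3) (N0 : ℕ), (∀ r : Eis, uni v ^ N0 ∣ r ^ 3 - b →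
    ASE (sy v) B p q p' q' r = c) → AVE v B b p q p' q' = c)

/-- PTK_F2E: `(B, α_b) = (B, k_0) + (w, B)` when `b` is a local cube and `x` is not. As `f2bg` in `PT3/TAMG.lean` (`Stmt_IF2`). -/
def Stmt_F2E : Prop := ∀ (π : PP) (B b x p q p' q' : Eis), BGE B → AGE B b → AGE B x →
  SolE b x p q p' q' → LCE π.1 b → ¬ LCE π.1 x →
  ∃ N0 : ℕ, ∀ r : Eis, π.1 ^ N0 ∣ r ^ 3 - b →
    ASE (tm π.1) B p q p' q' r =
      tm π.1 B (GfE p q p' q' 1) - tm π.1 B (GfE p q p' q' 2) + tm π.1 w B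

/-- PTK_F3E: two noncubes at a place dividing `B`. As `f3rg` in `PT3/TAMG.lean` and `PT/F3R.lean`. -/
def Stmt_F3E : Prop := ∀ (π : PP) (B b x p q p' q' : Eis), BGE B → AGE B b → AGE B x →
  SolE b x p q p' q' → π.1 ∣ B → ¬ 3 ∣ V π.1 b → ¬ 3 ∣ V π.1 x →
    UVE (tm π.1) B b x p q p' q' =
      (if 3 ∣ V π.1 b + V π.1 B then - tm π.1 w x else 0) +
      (if 3 ∣ V π.1 x + V π.1 B then - tm π.1 w b else 0)

/-- PTK_F4E: two noncubes at a place not dividing `B`. As `f3ug` in `PT3/TAMG.lean` and `PT/F3U.lean`. -/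
def Stmt_F4E : Prop := ∀ (π : PP) (B b x p q p' q' : Eis), BGE B → AGE B b → AGE B x →
  SolE b x p q p' q' → ¬ π.1 ∣ B → ch π.1 b ≠ 0 → ch π.1 x ≠ 0 →
    UVE (tm π.1) B b x p q p' q' = 0

/-- PTK_LEE: the local evaluation at the tame places. Copy of `PT3/LEVG.lean` and the lemmas of `PT/LEV.lean` (hypotheses `Stmt_AVE`,
`Stmt_F2E`, `Stmt_F3E`, `Stmt_F4E`, `Stmt_IF1`, `Stmt_IF2`, `Stmt_IF4`, `Stmt_IF4B`, `Stmt_F6R`, `Stmt_F7U`, `Stmt_LFV`, `Stmt_LCI`). -/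
def Stmt_LEE : Prop := ∀ (π : PP) (B b x p q p' q' X Y : Eis), BGE B → AGE B b → AGE B x →
  SolE b x p q p' q' → PtE B x X Y → DNE X Y p q p' q' →
    TTE π B b x p q p' q' = UVE (tm π.1) B b x p q p' q' - SVE (tm π.1) x p q p' q' X Y

/-- PTK_LAE: the local form of the antisymmetry at the tame places. Copy of `PT3/LAMG.lean` (hypotheses `Stmt_AVE`, `Stmt_F2E`, `Stmt_F3E`,
`Stmt_F4E`, `Stmt_IF1`, `Stmt_LCI`). -/
def Stmt_LAE : Prop := ∀ (π : PP) (B b x p q p' q' : Eis), BGE B → AGE B b → AGE B x →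
  SolE b x p q p' q' →
    TTE π B b x p q p' q' + TTE π B x b p (-p') (-q) q' = UVE (tm π.1) B b x p q p' q'

/-- PTK_LFE: finiteness of the supports. Copies of `PT3/LFIG.lean` and of the second part of `PT/LFIN.lean` (product formula `SSL`). -/
def Stmt_LFE : Prop :=
  (∀ B b x p q p' q' : Eis, BGE B → AGE B b → AGE B x → SolWE b x p q p' q' →
    (Function.support fun π : PP => TTE π B b x p q p' q').Finite) ∧
  (∀ B b x p q p' q' : Eis, B ≠ 0 → b ≠ 0 → x ≠ 0 → SolE b x p q p' q' →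
    (Function.support fun π : PP => UVE (tm π.1) B b x p q p' q').Finite ∧
    UVE sl B b x p q p' q' + ∑ᶠ π : PP, UVE (tm π.1) B b x p q p' q' = 0)

/-- PTK_SAE: additivity of the local term of a point of class `b` at `λ`. Copy of `PT3/SVAD.lean` and the lemmas of `PT/TADD.lean` used there (hypotheses
`Stmt_IF4`, `Stmt_F6R`, `Stmt_F7U`, `Stmt_SVF`, `Stmt_LCI`). -/
def Stmt_SAE : Prop := ∀ b x₁ x₂ p₁ q₁ p₁' q₁' p₂ q₂ p₂' q₂' p q p' q' X Y : Eis, b ≠ 0 →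
  x₁ ≠ 0 → x₂ ≠ 0 → SolE b x₁ p₁ q₁ p₁' q₁' → SolE b x₂ p₂ q₂ p₂' q₂' →
  SolE b (x₁ * x₂) p q p' q' → PRelE b p₁ q₁ p₁' q₁' p₂ q₂ p₂' q₂' p q p' q' → X ≠ 0 → Y ≠ 0 →
  X ^ 3 + b * Y ^ 3 ≠ 0 → DNE X Y p₁ (-p₁') (-q₁) q₁' → DNE X Y p₂ (-p₂') (-q₂) q₂' →
  DNE X Y p (-p') (-q) q' →
  SVE sl b p (-p') (-q) q' X Y =
    SVE sl b p₁ (-p₁') (-q₁) q₁' X Y + SVE sl b p₂ (-p₂') (-q₂) q₂' X Y

/-! ### The place above `3` -/

/-- PTK_LMC: the classes of the minus part at `λ`.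
Proof. First part: `SCJ`: `sl (conj w) (conj b) = - sl w b`, `conj w = w²`, `conj b = t³ / b` (`PTK_PTX.sl_w_zero`). Second part: `→`: `Stmt_LCI`, third
part. `←`: up to sign `b = w^j b'` with `b' = c + d w`, `3 ∣ d`, `c = 1 (mod 3)` (`Prim`; `λ ∤ b`), `sl w 4 = 1` (`LCL`, `HYPT.lw_four`), `sl b' 4 = 0` (`SREC`, first part), so
`j = 0`; then as in `ZL`: `0 = sl b 3 = 2 sl b w + 2 sl b λ` (`3 = - w² λ²`), `sl b w = 0`, so `sl b λ = 0`, `SREC`: `wt (c²) = 0`, `c = ± 1 (mod 9)`; `N b` is a cube of a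
rational integer prime to `3` (`b conj b = t³`; `N b = c² - c d + d²`), so `N b = ± 1 (mod 9)`, `c² - c d = ± 1 (mod 9)` and `9 ∣ d`; `λ⁴ ∣ b² - 1`, `LCI` (second part). Third
part: `HYPT.sl_int`. -/
def Stmt_LMC : Prop := ∀ b : Eis, b ≠ 0 → MCl b →
  sl w b = 0 ∧ (LCE lam b ↔ sl b 3 = 0 ∧ sl b 4 = 0) ∧
  ∀ m : ℤ, m ≠ 0 → sl b (m : Eis) = lv m * sl b 3 - lw m * sl b 4

/-- PTK_RAE: additivity of the local term at `λ` when `b` is not a local cube and the norms are.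
Proof. Hypotheses: `Stmt_AVE`, `Stmt_IIA`, `Stmt_IF2`, `Stmt_SAE`, `Stmt_LMC`, `Stmt_LCI`, `SSL`, `SLC`, `SCJ`, `LCL`. For a solution of norm `x` (`x = x₁, x₂, x₁ x₂`, all local cubes at `λ`)
and a good root `ξ` of `x` let `ρ_x a = sl a G_1 - sl a G_2 + sl w a - ASE sl a p (-p') (-q) q' ξ` (`G_i = GfE p q p' q' i`). `ρ_x` is additive in `a ≠ 0` and `0` on cubes. (1) By `AVE`
(for `SolE x b p (-p') (-q) q'`; `sl B b = 0`) and `sl w x = 0` (`x` a local cube): `LTE B b x .. = ρ_x B`. (2) `IIA` with `(b, x, p, q, p', q') := (x, b, p, -p', -q, q')`: for `n = X³ + b Y³ ≠ 0`,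
`X, Y ≠ 0`, `DNE X Y p (-p') (-q) q'`: `SVE sl b p (-p') (-q) q' X Y = ρ_x n`. (3) `IF2` for the same solution: `ρ_x b = 0`. (4) Let `ε = ± 1`, `ε b = 1 (mod λ)`; `T = b + conj b`, `N = b conj b`
(rational integers), `N = 1 (mod 9)` (a cube of a rational integer, positive, prime to `3`, and `= 1 (mod 3)`). With `b = u + v w`: `T² = 4 N - 3 v²`, `ε T = 2 (mod 3)`. If `3 ∣ v` then `ε T = 2 (mod 9)` and
`(1 + ε b)(1 + ε conj b) = 1 + ε T + N = 4 (mod 9)`; if `3 ∤ v` then `ε T = - 1 (mod 9)` and `(1 - ε b)(1 - ε conj b) = 1 - ε T + N = 3 (mod 9)`. So with `X = 1 + 9 k`, `Y = ε`, resp. `Y = - ε`, and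
`n = X³ + b Y³` the rational integer `n₁ = n conj n` has `(lv n₁, lw n₁) ≠ (0, 0)`, for all `k`. (5) `sl b n = 0` (third part of `SSL` for `n + (- X³) + (- b Y³) = 0`), `sl b (conj n) = 0` (`SCJ`,
`conj b = t³ / b`), so `sl b n₁ = 0`; also `sl b B = 0`. By `LMC` the vectors `(lv n₁, lw n₁)` and `(lv B, lw B)` are orthogonal to `(sl b 3, - sl b 4) ≠ (0, 0)`, so `lv B = κ lv n₁`,
`lw B = κ lw n₁`, and `sl a B = κ sl a n₁` for all `a ≠ 0` (`HYPT.sl_int`): `ρ_x B = κ (ρ_x n + ρ_x (conj n))`. (6) `b conj n = X'³ + b Y'³` with `X' = t conj Y`, `Y' = conj X`, so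
`ρ_x (conj n) = ρ_x (X'³ + b Y'³)` (by (3)). (7) Choose `k` such that the three solutions satisfy `DNE` at `(X, Y)` and at `(X', Y')` (every form `D_i` vanishes for at most one `k`: it is
`X u + w^i v Y` with `(u, v) ≠ (0, 0)` by `SolE.n1`). Then (2) and `SAE` at the two points. -/
def Stmt_RAE : Prop := ∀ (B : ℤ) (b x₁ x₂ p₁ q₁ p₁' q₁' p₂ q₂ p₂' q₂' p q p' q' : Eis),
  B ≠ 0 → b ≠ 0 → MCl b → sl b (B : Eis) = 0 → ¬ LCE lam b → x₁ ≠ 0 → x₂ ≠ 0 → LCE lam x₁ →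
  LCE lam x₂ → SolE b x₁ p₁ q₁ p₁' q₁' → SolE b x₂ p₂ q₂ p₂' q₂' →
  SolE b (x₁ * x₂) p q p' q' → PRelE b p₁ q₁ p₁' q₁' p₂ q₂ p₂' q₂' p q p' q' →
  LTE B b (x₁ * x₂) p q p' q' = LTE B b x₁ p₁ q₁ p₁' q₁' + LTE B b x₂ p₂ q₂ p₂' q₂'

/-- the linear forms of the point at `λ`, when `B` is a local cube -/
def GoodW (x X Y : Eis) : Prop := ∀ b p q p' q' : Eis, b ≠ 0 → MCl b → SolE b x p q p' q' →
  DNE X Y p q p' q' → SVE sl x p q p' q' X Y = sl x 4 * sl b 3 - sl x 3 * sl b 4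

/-! ### Global statements -/

/-- PTK_TAE: additivity of the pairing.
Proof. As `PT3/TADT.lean`, `PT/TADD.lean` (`TADD.exists_prod` for the product; it is not `0`, since `b` is not a cube; `g1`, `g2`, `n2` as in `HNE`: `x₁ x₂` is not a cube). Tame places:
`b` a local cube: `TADD.AS_add` with `AVE`; otherwise `tm w (x₁ x₂) = tm w x₁ + tm w x₂`. The place `λ`: `sl b B = sl x_i B = 0` by the product formula. `b` a local cube: the same.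
`b` not a local cube and `B` a local cube: `LTE B b x .. = lfE b x` in all cases (if `x` is a local cube: both are `0`, as `sl B _ = 0`, `sl w x = 0` (`LCI`)), and `lfE` is
additive. `b`, `B` not local cubes: `RAE`. Supports: `LFE`. -/
def Stmt_TAE : Prop := ∀ b x₁ x₂ p₁ q₁ p₁' q₁' p₂ q₂ p₂' q₂' : Eis, (¬ ∃ c : Eis, c ^ 3 = b) →
  (¬ ∃ c : Eis, c ^ 3 = x₁ * x₂) → b ≠ 0 → x₁ ≠ 0 → x₂ ≠ 0 → MCl b → MCl x₁ → MCl x₂ →
  SolE b x₁ p₁ q₁ p₁' q₁' → SolE b x₂ p₂ q₂ p₂' q₂' →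
  ∃ p q p' q' : Eis, SolE b (x₁ * x₂) p q p' q' ∧ ∀ B : ℤ, BGE B → AGE B b → AGE B x₁ →
    AGE B x₂ → (LCE lam b ∨ LCE lam (B : Eis) ∨ (LCE lam x₁ ∧ LCE lam x₂)) →
    OZE B b (x₁ * x₂) p q p' q' = OZE B b x₁ p₁ q₁ p₁' q₁' + OZE B b x₂ p₂ q₂ p₂' q₂'

/-- PTK_THE: the pair `(b, b^(1/3))`.
Proof. As `PT3/TTHT.lean`: `TTE π B b b 0 1 1 0 = tm w b - tm w B` at every tame place (`LEE`-like cases: `b` a local cube: `ASE s B 0 1 1 0 r = s B w`; `3 ∤ V b`: `b` is `B` or `B²` up to local cubes; `V b = 0`,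
`ch b ≠ 0`: `π ∤ B`), and at `λ` too: `b` a local cube: the same; otherwise `B` is a local cube, `LTE = lfE b b = 0` and `sl w b = 0` (`LMC`), `sl w B = 0`. Product formula for
`(w, b)` and `(w, B)`. -/
def Stmt_THE : Prop := ∀ (B : ℤ) (b : Eis), BGE B → AGE B b → MCl b →
  (LCE lam b ∨ LCE lam (B : Eis)) → OZE B b b 0 1 1 0 = 0

/-- PTK_TLE: antisymmetry.
Proof. `LAE`, `LFE`, and at `λ`: `LTE B b x .. + LTE B x b .. = UVE sl B b x ..`: both local cubes: `IF1` and `AVE` (`sl B x = sl B b = 0`); one local cube: by the definition of `LTE`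
(`GfE p (-p') (-q) q' i = GfE p q p' q' i`); no local cube, `B` a local cube: `lfE b x + lfE x b = 0`, and `UVE sl .. = 0` (`sl B _ = 0`, `sl w b = sl w x = 0`: `LMC`). -/
def Stmt_TLE : Prop := ∀ (B : ℤ) (b x p q p' q' : Eis), BGE B → AGE B b → AGE B x → MCl b →
  MCl x → SolE b x p q p' q' → (LCE lam b ∨ LCE lam x ∨ LCE lam (B : Eis)) →
  OZE B b x p q p' q' + OZE B x b p (-p') (-q) q' = 0

/-- PTK_TPE: the pairing vanishes on the class of a point.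
Proof. `LEE` at the tame places, `SVF` and `LFE`: it is enough that `LTE B b x .. = UVE sl B b x .. - SVE sl x p q p' q' X Y`. Let `n₀ = X³ + x Y³`, `x n₀ = B c³`. (1) `b` a local cube: `IIA`:
`SVE = R n₀`, `R a = sl a G_1 - sl a G_2 + sl w a - ASE sl a p q p' q' r` additive in `a`, `R x = 0` (`IF2`), so `SVE = R B`; `LTE = ASE sl B .. r + sl w x` (`AVE`), `sl w b = 0`. (2) `x` a
local cube, `b` not, `GoodPt`: `IF4` and `GoodPt`: `SVE = ASE sl n₀ p (-p') (-q) q' ξ = ASE sl B .. ξ` (`sl n₀ a = sl B a`, `x` is a local cube: `LCI`) `= AVE none B x p (-p') (-q) q'`; `sl w b = 0`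
(`LMC`). (3) `b`, `x` not local cubes, `B` a local cube: `GoodW`, `UVE sl = 0` (`LMC`), and `lfE b x = - (sl x 4 sl b 3 - sl x 3 sl b 4)`. -/
def Stmt_TPE : Prop := ∀ (B : ℤ) (b x p q p' q' X Y : Eis), BGE B → AGE B b → AGE B x → MCl b →
  MCl x → SolE b x p q p' q' → PtE (B : Eis) x X Y → DNE X Y p q p' q' →
  (LCE lam b ∨ (LCE lam x ∧ GoodPt B x X Y) ∨
    (¬ LCE lam b ∧ ¬ LCE lam x ∧ LCE lam (B : Eis) ∧ GoodW x X Y)) →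
  OZE B b x p q p' q' = 0

/-! ### Points of a class when `B` is a local cube at `λ` -/

/-- PTK_KN1: a Steinberg identity (checked numerically).
Proof. Let `a₀ = x₀ + y₀`, `a₁ = w x₀ + w² y₀`, `a₂ = w² x₀ + w y₀` (`a₀ + a₁ + a₂ = 0`, `a₀ a₁ a₂ = B`), `ζ = a₁ a₂²`, `s³ = B + δ`, `3 ^ M₀ ∣ δ`, `M₀` large. `L₁ = P - w a₂ Q`, `L₂ = P - w² a₂ Q`,
`N = P³ + ζ Q³`, `n₀ = a₀ a₂²`, `K = w² λ (s - y₀) a₀ a₁² a₂²`,
`α = a₁ (w² a₀ a₂ + w² s² + a₂ s) Q - w² (a₀ a₁ + w² a₁ s + s²) P`, `β = a₂ (a₁ - w² s) Q + (a₂ - w s) w² P`, `H = (a₂ + s) P - a₂ (a₁ + s) Q`.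
(1) Identities: `U - W = Z + δ G` with a polynomial `G`, `U = a₂ L₁ α³`, `W = w² λ (s - y₀) a₀ a₁² L₂ β³`, `Z = N · 3 λ a₀ a₁² a₂ (y₀ - s)² H`: this is `KN_id` (PROVED in PTK/KNI.lean, with
`(w - w²)(s - y₀) = (w - w²) s - w² a₁ + w a₂` and `(w - w²)² = -3`: it is the identity multiplied by `-3`); `H = w (y₀ - s) L₁ + w² (x₀ - s) L₂`; `(x₀ + y₀ - s)³ = 3 a₀ (x₀ - s)(y₀ - s) - δ`.
(2) Bounded valuations: let `g = g₀ + g₁ s + g₂ s²`, `g_i ∈ Z[w]` not all `0`. `ν = g₀³ + g₁³ B + g₂³ B² - 3 g₀ g₁ g₂ B ≠ 0` (`B` is not a cube; see `TADD.ne_of_not_cube`, `N3_mul` in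
PT/TADD.lean) and `ν = g (s) h (s) + (s³ - B) k (s)`; so if `2 M₀ > V λ ν` then `g (s) ≠ 0` and `V λ (g s) ≤ V λ ν`. This applies to `α` (if its coefficients vanish then
`P = a₁ Q`, `a₂ Q = w P = P`, so `P = Q = 0`), `β` (`P = - w² a₂ Q`, `a₁ Q = - w² P = w a₂ Q`, and `a₁ - w a₂ = (w - 1) x₀ ≠ 0`), `H` (`P = a₂ Q = a₁ Q`, `a₁ - a₂ = (w - w²)(x₀ - y₀) ≠ 0`),
`x₀ - s`, `y₀ - s`, `s`; `x₀, y₀, a₀ ≠ 0`.
(3) For `M₀` large, by continuity (`SLC`): `sl (U - W) c = sl Z c`, `sl s⁶ c = sl (a₀ a₁ a₂)² c`, i.e. `(a₀ a₁ a₂)² ~ 1`, and `3 a₀ (x₀ - s)(y₀ - s) ~ 1` (`~`: equal up to cubes in the first variable of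
`sl _ c`, for all `c ≠ 0`); `-1 ~ 1`; `3 λ ~ w²` (`3 = - w² λ²`). So `K ~ w (x₀ - s) / (y₀ - s)` and `3 w λ a₀ a₁² (y₀ - s)³ n₀ ~ 1`.
(4) `SSL`, third part, for `U - W - (U - W) = 0`: `(W / U, Z / U) = 0`, i.e. `(K L₂ / L₁, N · 3 λ a₀ a₁² (y₀ - s)² H / L₁) = 0`; for `H - w (y₀ - s) L₁ - w² (x₀ - s) L₂ = 0`:
`(w (x₀ - s) L₂ / ((y₀ - s) L₁), H / (w (y₀ - s) L₁)) = 0`, i.e. `(K L₂ / L₁, H / (w (y₀ - s) L₁)) = 0`. The difference: `(K L₂ / L₁, N · 3 w λ a₀ a₁² (y₀ - s)³) = 0`, i.e. `(K L₂ / L₁, N / n₀) = 0`. -/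
def Stmt_KN1 : Prop := ∀ (x₀ y₀ B : ℤ) (a₀ a₁ a₂ : Eis), x₀ ^ 3 + y₀ ^ 3 = B → B ≠ 0 →
  (¬ ∃ n : ℤ, n ^ 3 = B) → x₀ ≠ y₀ → a₀ = x₀ + y₀ → a₁ = w * x₀ + w ^ 2 * y₀ →
  a₂ = w ^ 2 * x₀ + w * y₀ → ∀ P Q : Eis, P ^ 3 + a₁ * a₂ ^ 2 * Q ^ 3 ≠ 0 → P - w * a₂ * Q ≠ 0 →
  P - w ^ 2 * a₂ * Q ≠ 0 → ∃ M₀ : ℕ, ∀ s : ℤ, (3 : ℤ) ^ M₀ ∣ s ^ 3 - B → s ≠ y₀ ∧
    (sl (w ^ 2 * lam * (s - y₀) * a₀ * a₁ ^ 2 * a₂ ^ 2) (P ^ 3 + a₁ * a₂ ^ 2 * Q ^ 3) +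
      sl (P - w ^ 2 * a₂ * Q) (P ^ 3 + a₁ * a₂ ^ 2 * Q ^ 3) -
      sl (P - w * a₂ * Q) (P ^ 3 + a₁ * a₂ ^ 2 * Q ^ 3)) -
    (sl (w ^ 2 * lam * (s - y₀) * a₀ * a₁ ^ 2 * a₂ ^ 2) (a₀ * a₂ ^ 2) +
      sl (P - w ^ 2 * a₂ * Q) (a₀ * a₂ ^ 2) - sl (P - w * a₂ * Q) (a₀ * a₂ ^ 2)) = 0

/-- PTK_LKN: the class of `9 (s - y₀)(x₀ + y₀)(x₀² - x₀ y₀ + y₀²)²` at `3` (checked numerically, 3000 cases).
Proof. `B = x₀³ + y₀³`, `lv B = lw B = 0` (`LCL`), `s³ = B` modulo a high power of `3`. `lw` is additive, `lw (1 + 3 j) = - j` (`wt (1 + 3 j) = j`), `lw (± 1) = 0`. `ζ = w² (x₀ + w y₀)(x₀ + w² y₀)²`.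
`sl w 4 = 1`, `sl w 3 = 0`. Let `k` be the number. Modulo `3`, `x₀` and `y₀` are not both prime to `3` unless `3 ∣ x₀ + y₀` (`B = ± 2 (mod 9)` otherwise is not a cube).
(A) `3 ∣ y₀`, `τ = y₀ / (3 x₀)` modulo `3`: `s = x₀ (mod 9)`, `s - y₀ = x₀ (1 - 3 τ)`, `x₀ + y₀ = x₀ (1 + 3 τ)`, `x₀² - x₀ y₀ + y₀² = x₀² (1 - 3 τ)` modulo `9`: `lv k = 2`, `lw k = lw (x₀⁶ (1 - 3 τ)³ (1 + 3 τ)) = - τ`;
`ζ = w² x₀³ (1 + 3 τ (w + 2 w²)) (mod 9)`: `sl ζ 4 = 2`, `sl ζ 3 = - τ`. (B) `3 ∣ x₀`, `τ = x₀ / (3 y₀)`: `s = y₀ (mod 9)`, `(s - y₀)(s² + s y₀ + y₀²) = x₀³ + …`, `s² + s y₀ + y₀² = 3 y₀² (1 + 9 ..)`: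
`lv (s - y₀) = 2`, `lw (s - y₀) = lw y₀`; `lv k = 4 = 1`, `lw k = 6 lw y₀ + lw (1 + 3 τ) + 2 lw (1 - 3 τ) = τ`; `ζ = w y₀³ (1 + 3 τ (w² + 2 w)) (mod 9)`: `sl ζ 4 = 1`, `sl ζ 3 = τ`. (C) `3 ∣ a₀ = x₀ + y₀`:
`x₀² - x₀ y₀ + y₀² = a₀² - 3 x₀ y₀`, `v(B) = v(a₀) + 1` is divisible by `3`, so `v(a₀) = 2 (mod 3)`, `9 ∣ a₀`, `3 ∣ s`; `lv k = 2 + 0 + 2 + 2 = 0`; `lw k = lw (s - y₀) + lw (a₀² - 3 x₀ y₀)` (as
`lw B = 0`) `= lw x₀ - s' / x₀ - lw x₀ = - s' / x₀`, `s = 3 s'` (`y₀ = - x₀ (mod 9)`), and `s'³ = (a₀ / 9) x₀² = a₀ / 9 (mod 3)`: `lw k = - α`, `α = a₀ / (9 x₀)`. `ζ = (x₀ (w - w²))³ (1 - ε)`, `ε = a₀ / (x₀ (w - w²)) = - 3 (w - w²) α`,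
modulo `λ⁴` relative to the first factor: `sl ζ 4 = 0`, `sl ζ 3 = - α`. (For `sl ζ 3` of a unit `ζ = ± w^j (1 + 3 u) (mod 9)`: continuity `SLC` and `sl (1 + 3 (a + b w)) 3`
from `SREC` (`Prim`; `3 = - w² λ²`), or `PT/SLE.lean`.) -/
def Stmt_LKN : Prop := ∀ x₀ y₀ : ℤ, IsCoprime x₀ y₀ → x₀ ≠ 0 → y₀ ≠ 0 → x₀ + y₀ ≠ 0 →
  lv (x₀ ^ 3 + y₀ ^ 3) = 0 → lw (x₀ ^ 3 + y₀ ^ 3) = 0 →
  ∃ M₀ : ℕ, ∀ s : ℤ, (3 : ℤ) ^ M₀ ∣ s ^ 3 - (x₀ ^ 3 + y₀ ^ 3) → s ≠ y₀ →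
    lv (9 * (s - y₀) * (x₀ + y₀) * (x₀ ^ 2 - x₀ * y₀ + y₀ ^ 2) ^ 2) =
      sl (w ^ 2 * (((x₀ : Eis) + w * y₀) * ((x₀ : Eis) + w ^ 2 * y₀) ^ 2)) 4 ∧
    lw (9 * (s - y₀) * (x₀ + y₀) * (x₀ ^ 2 - x₀ * y₀ + y₀ ^ 2) ^ 2) =
      sl (w ^ 2 * (((x₀ : Eis) + w * y₀) * ((x₀ : Eis) + w ^ 2 * y₀) ^ 2)) 3

/-- PTK_PTY: as `PTX`, with the property `GoodW` when `B` is a local cube.
Proof. Hypotheses: `Stmt_KN1`, `Stmt_LKN`, `Stmt_LMC`, and those of `PTX`. The point of `PTX_thm` (PTK/PTX.lean): `ζ = a₁ a₂²`, `ζ g³ = x g'³`, `X = g'² g a₂`, `Y = g'³`; it satisfies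
`PtE` and `GoodPt` (`lv B = 0`: `LCL`). `GoodW`: let `SolE b x p q p' q'`. The forms are `X p' + w^i p Y = g'² (g a₂ p' + w^i p g')`; with `(P, Q) = (p g', - g p')`: `D_i = g'² (w^i P - a₂ Q)`, i.e.
`D_1 = g'² w L₂`, `D_2 = g'² w² L₁`; `(p³ - x p'³) g'³ = P³ + ζ Q³ =: N`; the second pair in the same way with `(P, Q) = (q g', - g q')`, `(q³ - x q'³) g'³ = N₂`; `N = b (- N₂)`.
`X³ + x Y³ = (g'² g)³ a₂² (a₁ + a₂) = - (g'² g)³ a₀ a₂²`. So (`-1` and cubes are irrelevant) the first bracket of `SVE` is `- sl w N + sl w n₀ + [sl L₂ N - sl L₁ N - sl L₂ n₀ + sl L₁ n₀]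
= - sl w N + sl w n₀ - sl K N + sl K n₀` (`KN1` for `B z₀³ = x₀³ + y₀³` in place of `B`; choose `s` for both pairs, `3 ^ M ∣ s³ - B z₀³`: it exists since `B` is a local cube; `x₀ ≠ y₀`: otherwise
`B z₀³ = 2 x₀³`, `x₀ = ± 1` is not a local cube), and `SVE = - sl w b - sl K b = sl b K` (`sl w b = 0`). `K = w² λ (s - y₀) a₀ (a₁ a₂)²`, `sl b λ = sl b 9` (`9 = w λ⁴`, `sl b w = 0`), so
`sl b K = sl b k`, `k = 9 (s - y₀)(x₀ + y₀)(x₀² - x₀ y₀ + y₀²)²` (`a₁ a₂ = x₀² - x₀ y₀ + y₀²`), and `sl b k = lv k sl b 3 - lw k sl b 4 = sl ζ 4 sl b 3 - sl ζ 3 sl b 4` (`LMC`, `LKN`);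
`sl ζ _ = sl x _`. -/
def Stmt_PTY : Prop := ∀ (B : ℤ) (x : Eis), B ≠ 0 → (¬ ∃ n : ℤ, n ^ 3 = B) →
  LCE lam (B : Eis) → x ≠ 0 → (¬ ∃ t : Eis, t ^ 3 = x) → Occ B x →
  ∃ X Y : Eis, PtE (B : Eis) x X Y ∧ GoodPt B x X Y ∧ GoodW x X Y

/-! ### The norm theorem when the base is not a local cube at `λ` -/

open Classical in
/-- PTK_NG2: a set of places and sufficiently many units with independent symbols, `x` primary, not a local cube at `λ`.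
Proof. As `NGN_thm` (PTK/NGN.lean) with the additional element `d_0 = λ` (`none ∈ S`). `x = ± ∏ π_i^(V_i)` (`Prim x`, `V_i = 1, 2`), `t` primes; the places of `S` where `x` is not a
local cube are the `π_i` and `none` (`sl x λ ≠ 0`, `LCI` third part): `t + 1`, so `e = t`. `d = λ, ρ_1, …, ρ_(t-1)` (`NAUX` as in NGN). Symbols: at `π_i`: `tm ρ_j x = V_i sym ρ_j π_i`, sum over
`i` zero, at `none`: `sl ρ_j x = 0`; the sum over the `π_i` of `tm λ x` is `- sl λ x ≠ 0` (product formula, `tm π λ x = 0` at the other `π`). So a relation has coefficient `0` at `λ`, and the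
`ρ_j` are independent as in `NGN`. Multiplicative independence: valuations at `ρ_j` and `λ`. -/
def Stmt_NG2 : Prop := ∀ (x : Eis) (S₀ : Finset Pl), x ≠ 0 → Prim x → sl x lam ≠ 0 →
  (∀ π : PP, V π.1 x ≤ 2) → (¬ ∃ c : Eis, c ^ 3 = x) → none ∈ S₀ →
  (∀ π : PP, π.1 ∣ x → some π ∈ S₀) →
  (∀ π : PP, some π ∈ S₀ → ¬ LCE π.1 x → π.1 ∣ x) →
  ∃ (S : Finset Pl) (e : ℕ) (d : Fin e → Eis), S₀ ⊆ S ∧ (∀ v ∈ S, v ∉ S₀ → LCE (uni v) x) ∧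
    (S.filter fun v => ¬ LCE (uni v) x).card = e + 1 ∧
    (∀ i, d i ≠ 0) ∧ (∀ i (v : Pl), uni v ∣ d i → v ∈ S) ∧
    (∀ n m : Fin e → ℕ, ∏ i, d i ^ n i = ∏ i, d i ^ m i → n = m) ∧
    (∀ n : Fin e → ZMod 3, (∀ v : Pl, ∑ i, n i * sy v (d i) x = 0) → n = 0)

/-- PTK_NM2: the norm theorem. As `NMN_thm` (PTK/NMN.lean) with `NG2` in place of `NGN` (`sl x y = 0` by the product formula). -/
def Stmt_NM2 : Prop := ∀ (x : Eis) (L : Type) [Field L] [NumberField L] (ι : Eis →+* L) (θ : L)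
  (σ : L ≃ₐ[ℚ] L), x ≠ 0 → Prim x → sl x lam ≠ 0 → (∀ π : PP, V π.1 x ≤ 2) →
  (¬ ∃ c : Eis, c ^ 3 = x) → CubE x L ι θ σ →
  ∀ y : Eis, y ≠ 0 → (∀ π : PP, tm π.1 x y = 0) →
    (∀ π : PP, π.1 ∣ y → ¬ LCE π.1 x → π.1 ∣ x) →
    ∃ z : L, z ≠ 0 ∧ z * σ z * σ (σ z) = ι y

/-- PTK_HN2: the Hasse norm theorem for such a base. As `HNE_thm` (PTK/HNE.lean) with `NM2`. -/
def Stmt_HN2 : Prop := ∀ x y : Eis, x ≠ 0 → Prim x → sl x lam ≠ 0 → (¬ ∃ c : Eis, c ^ 3 = x) →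
  (∀ π : PP, V π.1 x ≤ 2) → y ≠ 0 → (¬ ∃ c : Eis, c ^ 3 = y) → (∀ π : PP, tm π.1 x y = 0) →
  (∀ π : PP, π.1 ∣ y → ¬ LCE π.1 x → π.1 ∣ x) →
  ∃ p q p' q' : Eis, SolE x y p q p' q'

end Pool.Agent.PTK
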