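import Pool.Agent.PTK.StZ
import Pool.Agent.PTK.StV

/-!
# Full law of the ranks of prime twists: the matrix of the minus part, joint densities, the theorem

Stage 4 of the project PTK, part 2 (part 1: `StZ.lean`). Everything of `StL`, …, `StX`, `StZ` and of `PT`, `PTE`, `PT3`, `PTL`, `PTN` may be
imported or taken as a hypothesis; other statements of this file may be hypotheses if your docstring says so.

The law: in every class the rank of `X³ + Y³ = N q^e` is dominated by the sum of the coranks of two independent random alternating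
matrices over `F_3`, of sizes `v` (minus part) and `s` (plus part; `s + 1` if `q = 1 (mod 3)`).
-/

set_option autoImplicit false

open NumberField IsDedekindDomain Finset
open scoped nonZeroDivisors Pointwise

namespace Pool.Agent.PTK

open Pool.Agent.Lib_helper18 Pool.Agent.Lib_helper18.Eis Pool.Agent.Lib_helper84.Cub
open Pool.Agent.PT Pool.Agent.PTE Pool.Agent.PT3 Pool.Agent.PTL Pool.Agent.PTN

/-! ### The matrix of the minus part -/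

/-- Classes of the minus part with solutions for all pairs: base `z j`, norm `z i`. -/
structure SysF {l : ℕ} (z : Fin l → Eis) (P Q P' Q' : Fin l → Fin l → Eis) : Prop where
  ind : ∀ c : Fin l → ℕ, (∃ i, ¬ 3 ∣ c i) → ¬ ∃ t : Eis, t ^ 3 = ∏ i, z i ^ c i
  mc : ∀ i, MCl (z i)
  sol : ∀ j i, j ≠ i → SolE (z j) (z i) (P j i) (Q j i) (P' j i) (Q' j i)
  sw : ∀ j i, j ≠ i → P i j = P j i ∧ Q i j = - P' j i ∧ P' i j = - Q j i ∧ Q' i j = Q' j i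

/-- the matrix of the minus part -/
noncomputable def MaZ {l : ℕ} (z : Fin l → Eis) (P Q P' Q' : Fin l → Fin l → Eis) (B : ℤ) :
    Matrix (Fin l) (Fin l) (ZMod 3) := fun j i =>
  if j = i then 0 else OZE B (z j) (z i) (P j i) (Q j i) (P' j i) (Q' j i)

/-- `B` is a local cube at `λ`, or at most one of the `z i` is not -/
def TyZ {l : ℕ} (z : Fin l → Eis) (B : ℤ) : Prop :=
  LCE lam (B : Eis) ∨ ∀ i j, i ≠ j → LCE lam (z i) ∨ LCE lam (z j)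

/-- PTK_CHE: the pairing of `z j` with a product.
Proof. Hypotheses: `Stmt_TAE`, `Stmt_THE`. Induction on `∑ c i`. `∑ c i = 1`: the product is `z i`; `i ≠ j`: the solution `(P j i, ..)`; `i = j`: the solution `(0, 1, 1, 0)` of
`SolE (z j) (z j)` (`n2`, `g1`, `g2` are clear, `z j ≠ 0`), `THE` (its condition `LCE lam (z j) ∨ LCE lam B` follows from each of the three conditions, as `c j ≠ 0`). Step: choose `i` with
`c i ≠ 0`, `c = c' + e_i`, `c' ≠ 0`; `TAE` for `x₁ = ∏ z^(c')`, `x₂ = z i` (`i = j`: the solution `(0, 1, 1, 0)`); `x₁ x₂ = ∏ z^c` is not a cube (`ind`; `c i = 1, 2` is not divisible by `3`);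
`MCl` of a product (`lam` is prime; `t` is a product); `AGE B (∏ ..)`: `tm` is additive in the first variable (`STM`), a prime dividing the product divides a `z i`; a product of local
cubes is a local cube. -/
def Stmt_CHE : Prop := ∀ (l : ℕ) (z : Fin l → Eis) (P Q P' Q' : Fin l → Fin l → Eis),
  SysF z P Q P' Q' → ∀ (j : Fin l) (c : Fin l → ℕ), (∀ i, c i ≤ 2) → (∃ i, c i ≠ 0) →
  ∃ p q p' q' : Eis, SolE (z j) (∏ i, z i ^ c i) p q p' q' ∧ ∀ B : ℤ, BGE B →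
    (∀ i, AGE B (z i)) → (LCE lam (z j) ∨ LCE lam (B : Eis) ∨ ∀ i, c i ≠ 0 → LCE lam (z i)) →
    OZE B (z j) (∏ i, z i ^ c i) p q p' q' = ∑ i, MaZ z P Q P' Q' B j i * (c i : ZMod 3)

/-- PTK_ZKE: the matrix is alternating, and the classes of points are in the kernel.
Proof. Hypotheses: `Stmt_CHE`, `Stmt_TLE`, `Stmt_TPE`, `Stmt_LCI`. For `q > N₀` (`N₀ ≥ N`, `N₀ ≥ 3`): `BGE B`, `AGE B (z i)` (a place over `q` does not divide `N`, `V B = E` there). Antisymmetry: `TLE` with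
`sw` (`i ≠ j`; its condition is `TyZ`). Kernel: let `x = ∏ z^c` (not a cube, `MCl x`, `AGE B x`, as in `CHE`). For `j` let `(p, q, p', q')` be the solution of `CHE`; it does not depend on
`B`; `DNE X Y p q p' q'` for `q > N₀` (as in `Stmt_DCK`: if `D_i = X p' + w^i p Y = 0` then `p' ≠ 0` by `n2` and `p'³ (X³ + x Y³) = - Y³ (p³ - x p'³)`; with `x (X³ + x Y³) = B c₀³`:
`B (c₀ p')³ = - x Y³ (p³ - x p'³)`, and the valuations at a place over `q` are `E` and `0` modulo `3` if `q` does not divide `x (p³ - x p'³) ≠ 0`; the same for `D'_i` with `x q'³ - q³`).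
`N₀` is the maximum over all `j` and `c`. (A) `z j` is a local cube: `CHE`, and `TPE` (first case): `OZE = 0`. (B) `B` is a local cube, `z j` is not: `CHE`; `TPE`: if `x` is a local cube, second case
(`GoodPt`: not all `z i` are local cubes); otherwise the third case. (C) neither: by `TyZ` all `z i`, `i ≠ j`, are local cubes. If `c j = 0`: `CHE` (third condition), `x` is a local cube, `TPE`,
second case. If `c j ≠ 0`: `∑_{k, i} c_k M_{k i} c_i = 0` (`M` antisymmetric, `2 ≠ 0`), and `∑_i M_{k i} c_i = 0` for `k ≠ j` by (A), so `c_j ∑_i M_{j i} c_i = 0`, `c_j = ± 1`. -/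
def Stmt_ZKE : Prop := ∀ (l N : ℕ) (z : Fin l → Eis) (P Q P' Q' : Fin l → Fin l → Eis),
  SysF z P Q P' Q' → 0 < N → (∀ π : PP, V π.1 (N : Eis) ≤ 2) →
  (∀ (π : PP) (i : Fin l), ¬ π.1 ∣ (N : Eis) → ¬ π.1 ∣ z i) →
  ∃ N₀ : ℕ, ∀ (E q : ℕ) (B : ℤ), (E = 1 ∨ E = 2) → q.Prime → N₀ < q →
    B = (N : ℤ) * (q : ℤ) ^ E → (∀ (σ : PP) (i : Fin l), tm σ.1 (z i) (B : Eis) = 0) →
    TyZ z B →
    (∀ i j, MaZ z P Q P' Q' B i j = - MaZ z P Q P' Q' B j i) ∧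
    ∀ c : Fin l → ℕ, (∀ i, c i ≤ 2) → (∃ i, c i ≠ 0) → ∀ X Y : Eis,
      PtE (B : Eis) (∏ i, z i ^ c i) X Y →
      ((∀ i, LCE lam (z i)) ∨ GoodPt B (∏ i, z i ^ c i) X Y) →
      (LCE lam (B : Eis) → GoodW (∏ i, z i ^ c i) X Y) →
      ∀ j, ∑ i, MaZ z P Q P' Q' B j i * (c i : ZMod 3) = 0

/-! ### Dependence of the pairing on the prime -/

/-- the hypotheses on a pair: base `b`, norm `x` -/
structure HypE (N : ℕ) (b x p q p' q' : Eis) : Prop where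
  N0 : 0 < N
  sol : SolE b x p q p' q'
  hb : b ≠ 0
  hx : x ≠ 0
  unr : ∀ π : PP, ¬ π.1 ∣ (N : Eis) → ¬ π.1 ∣ b ∧ ¬ π.1 ∣ x
  cf : ∀ π : PP, V π.1 (N : Eis) ≤ 2

/-- PTK_DE2: the pairing as a function of the prime `Q = 2 (mod 3)` and of `E`.
Proof. As `DCOT_thm` (PT3/DCOT.lean) and `DCK_thm` (PTK/DCK.lean). `B = N Q^E`, `M` a rational integer divisible by `N` and by the norms of `p³ + b q³`, `p'³ + b q'³`, `p³ - x p'³`,
`x q'³ - q³` and of the `GfE`; `f₀ = 9 |M|`, `Q > N₀`. (a) `π ∣ M`, `b` a local cube at `π`: the term is `AVE (some π) B b + tm w x`; `ASE s B .. r` is the same for all good `r` (`AVE`; `sy (some π) B x = 0`);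
fix a good `r₀` as in `DP1_thm` (PTK/DP1.lean; `PTL/DC.lean: place_LC`): `ASE s B r₀ = ASE s N r₀ + E ASE s Q r₀`, and `ASE s Q r₀` is a multiple of `ch Q`, a character of `Q` modulo `f`.
(b) `π ∣ M`, `b` not a local cube: `TTE` depends only on `V π B = V π N`: a constant. (c) `π ∤ M`, `π ∤ Q`: `b`, `x`, `B` are units, the `LfE` at a good `r` are units: `TTE = 0`. (d) `π = Q`:
`tm b B = 0` and `V b = 0` give `ch b = 0`: `b` is a local cube, `TTE = AVE = - E TAUE Q p q p' q' ξ` (as `DP4_thm`), `tm w x = 0`. (e) `λ`: `b` a local cube: `AVE none B b + sl w x`, as (a)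
(`sl B x = 0`: product formula; `sl Q a` depends only on `Q` modulo `9`: `SLC`); `b` not, `x` a local cube: `UVE sl B b x` is additive in `B` up to the constant `sl w (x b)` and `AVE none B x p (-p') (-q) q'` as
before (`SolE x b p (-p') (-q) q'`, `sl B b = 0`); otherwise `lfE b x` is a constant. -/
def Stmt_DE2 : Prop := ∀ (N : ℕ) (b x p q p' q' : Eis), HypE N b x p q p' q' →
  ∃ f₀ : ℕ, 0 < f₀ ∧ ∀ f : ℕ, 0 < f → f₀ ∣ f →
  ∃ (C : ZMod 3) (Φ : (ZMod f)ˣ →* Multiplicative (ZMod 3)) (N₀ : ℕ),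
    ∀ (E Q : ℕ) (hQ : Q.Coprime f), (E = 1 ∨ E = 2) → Q.Prime → N₀ < Q → Q % 3 = 2 →
      (∀ σ : PP, tm σ.1 b ((N : Eis) * (Q : Eis) ^ E) = 0) →
      (∀ σ : PP, tm σ.1 x ((N : Eis) * (Q : Eis) ^ E) = 0) →
      ∀ ξ : Eis, (Q : Eis) ∣ ξ ^ 3 - b → OZE ((N : Eis) * (Q : Eis) ^ E) b x p q p' q' =
        C + E * ((Φ (ZMod.unitOfCoprime Q hQ)).toAdd - TAUE Q p q p' q' ξ)

/-- PTK_DE1: the pairing as a function of the prime `Q = 1 (mod 3)` and of `E`.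
Proof. As `DE2` and `DCKU_thm` (PTK/DCKU.lean); the places over `Q` are `ρ` and `conj ρ`: `- E TAUP ρ .. ξ - E TAUP (conj ρ) .. ξ'`. -/
def Stmt_DE1 : Prop := ∀ (N : ℕ) (b x p q p' q' : Eis), HypE N b x p q p' q' →
  ∃ f₀ : ℕ, 0 < f₀ ∧ ∀ f : ℕ, 0 < f → f₀ ∣ f →
  ∃ (C : ZMod 3) (Φ : (ZMod f)ˣ →* Multiplicative (ZMod 3)) (N₀ : ℕ),
    ∀ (E Q : ℕ) (hQ : Q.Coprime f) (ρ : PP), (E = 1 ∨ E = 2) → Q.Prime → N₀ < Q → Q % 3 = 1 →
      (Q : Eis) = ρ.1 * conj ρ.1 →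
      (∀ σ : PP, tm σ.1 b ((N : Eis) * (Q : Eis) ^ E) = 0) →
      (∀ σ : PP, tm σ.1 x ((N : Eis) * (Q : Eis) ^ E) = 0) →
      ∀ ξ ξ' : Eis, ρ.1 ∣ ξ ^ 3 - b → conj ρ.1 ∣ ξ' ^ 3 - b →
        OZE ((N : Eis) * (Q : Eis) ^ E) b x p q p' q' =
        C + E * ((Φ (ZMod.unitOfCoprime Q hQ)).toAdd - TAUP ρ.1 p q p' q' ξ -
          TAUP (conj ρ.1) p q p' q' ξ')

/-! ### The system of the minus part -/

/-- A basis of `VS` adapted to the place `λ`. -/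
structure BasZ (h n : ℕ) {m k : ℕ} (π : Fin m → PP) (p e : Fin m → ℕ) (r : Fin k → ℕ)
    (w0 : ZMod 3) (c : Fin m → ZMod 3) {l : ℕ} (y : Fin l → Fin (m + 1) → ZMod 3) : Prop where
  ind : LinearIndependent (ZMod 3) y
  mem : ∀ i, y i ∈ VS h n π p e r w0 c
  card : l = vN h n π p e r w0 c
  ty : (h = 0 ∧ wt ((n : ℤ) ^ 2) + w0 = 0) ∨
    ∀ i j, i ≠ j → y i ∈ V0 h n π p e r w0 c ∨ y j ∈ V0 h n π p e r w0 c
  wd : ∀ i j, i < j → y i ∈ V0 h n π p e r w0 c ∨ y j ∈ V0 h n π p e r w0 c ∨ y i 0 = 0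

/-- PTK_ZBA: existence of the basis (linear algebra).
Proof. `V1 = {y ∈ VS | y 0 = 0}`; `V0 ≤ V1 ≤ VS`, each of codimension at most `1` in the next (kernel of a linear functional). Basis: a basis of `V0`, then, if `V0 ≠ V1`, a vector of `V1` outside `V0`, then,
if `V1 ≠ VS`, a vector of `VS` outside `V1`. `wd`: if `i < j` are both outside `V0` they are the last two vectors, and `y i ∈ V1`. `ty`: if not `(h = 0 ∧ wt (n²) + w0 = 0)` then `dN ≤ 1`, so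
`vN ≤ v0N + 1` (`VDIM`): at most one vector is outside `V0`. -/
def Stmt_ZBA : Prop := ∀ (h n m k : ℕ) (π : Fin m → PP) (p e : Fin m → ℕ) (r : Fin k → ℕ)
  (w0 : ZMod 3) (c : Fin m → ZMod 3), h ≤ 2 →
  ∃ (l : ℕ) (y : Fin l → Fin (m + 1) → ZMod 3), BasZ h n π p e r w0 c y

/-- PTK_MSF: existence of the solutions.
Proof. `ind`, `mc`: `ZI`, `ZA` (as in `MSY_thm`, PTK/MSY.lean). For `i < j` (`z i = zN π e (y i)`; the symbols and the divisibilities from `ZT`, `V ≤ 2` from `ZA`): (a) `y i ∈ V0`: `HNE` for the base `z i`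
(`λ⁴ ∣ (z i)² - 1`: `ZL`) and the norm `z j`; (b) `y j ∈ V0`: `HNE` for the base `z j` and the norm `z i`: `SolE (z j) (z i) P Q P' Q'`, so `SolE (z i) (z j) P (-P') (-Q) Q'`; (c) otherwise `y i 0 = 0`:
`HN2` for the base `z i`: it is `Prim` (no factor `w`; products and powers of primary elements), and `sl (z i) lam ≠ 0`: `sl z 3 = - ∑ y i.succ (e i sym (π i) 3) ≠ 0` as `y i ∉ V0` (see the proof of `ZL_thm`,
PTK/ZL.lean), `sl z 3 = 2 sl z w + 2 sl z lam`, `sl z w = 0` (`3 = - w² λ²`). Define the entries for `j > i` by `sw`. -/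
def Stmt_MSF : Prop := ∀ (h n m k : ℕ) (π : Fin m → PP) (p e : Fin m → ℕ) (r f : Fin k → ℕ)
  (w0 : ZMod 3) (c : Fin m → ZMod 3), NF n π p e r f → h ≤ 2 →
  ∀ (l : ℕ) (y : Fin l → Fin (m + 1) → ZMod 3), BasZ h n π p e r w0 c y →
  ∃ P Q P' Q' : Fin l → Fin l → Eis, SysF (fun i => zN π e (y i)) P Q P' Q'

/-- an enumeration of the pairs `i < j` -/
structure Prs {l N : ℕ} (α β : Fin N → Fin l) : Prop where
  lt : ∀ r, α r < β r
  inj : ∀ r r', α r = α r' → β r = β r' → r = r'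
  sur : ∀ i j : Fin l, i < j → ∃ r, α r = i ∧ β r = j

/-- A system of the minus part. -/
structure MnS (h n : ℕ) {m k : ℕ} (π : Fin m → PP) (p e : Fin m → ℕ) (r : Fin k → ℕ)
    (w0 : ZMod 3) (c : Fin m → ZMod 3) {l N : ℕ} (y : Fin l → Fin (m + 1) → ZMod 3)
    (U R U' R' : Fin l → Fin l → Eis) (α β : Fin N → Fin l) : Prop where
  bas : BasZ h n π p e r w0 c y
  sys : SysF (fun i => zN π e (y i)) U R U' R'
  prs : Prs α β

/-- the matrix of the minus part of a class, as a function of the prime -/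
noncomputable def MY (h n : ℕ) {m : ℕ} (π : Fin m → PP) (e : Fin m → ℕ) {l : ℕ}
    (y : Fin l → Fin (m + 1) → ZMod 3) (U R U' R' : Fin l → Fin l → Eis) (E q : ℕ) :
    Matrix (Fin l) (Fin l) (ZMod 3) := MaZ (fun i => zN π e (y i)) U R U' R' (BB h n E q)

/-- the corank of the matrix of the minus part -/
noncomputable def kY (h n : ℕ) {m : ℕ} (π : Fin m → PP) (e : Fin m → ℕ) {l : ℕ}
    (y : Fin l → Fin (m + 1) → ZMod 3) (U R U' R' : Fin l → Fin l → Eis) (E q : ℕ) : ℕ :=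
  l - (MY h n π e y U R U' R' E q).rank

/-- PTK_ZKQ: the number of the classes of points is bounded by the corank of the matrix.
Proof. `ZKE` for `N = 3^h n` (`BB h n E q = N q^E`; `NF`, `ZA`), `tm σ (z i) B = 0` by `ZS`, `ZSU`. `TyZ`: if `h = 0` and `wt (n²) + w0 = 0` then `B² = 1 (mod 9)` (`wt (B²) = wt (n²) + w0`, see `HYPT.lvw`), so `B` is a
local cube (`LCI`, second part); otherwise `BasZ.ty` with `ZL` and `LCI`. Let `W` be the subspace of `VS` of `WSB` (elements `WqS`). For `0 ≠ u ∈ W` let `u = ∑ c_i y_i` (`y` is a basis of `VS`), `c_i ≤ 2` natural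
numbers; `zN u` is `∏ (zN (y i))^(c i)` up to cubes (`ZA`), so `Occ B (∏ ..)`; if `h = 1` all `y i ∈ V0` (`dN = 0`, `VDIM`) and the point is that of `PT`; if `h ≠ 1` (`lv B ≠ 1`): the point of `PTX`, and if `B` is a
local cube that of `PTY`. By `ZKE` the coordinate vector of `u` is in the kernel of the matrix: `card W ≤ 3^(l - rank)`. -/
def Stmt_ZKQ : Prop := ∀ (h n m k : ℕ) (π : Fin m → PP) (p e : Fin m → ℕ) (r f : Fin k → ℕ)
  (w0 : ZMod 3) (c : Fin m → ZMod 3), NF n π p e r f → h ≤ 2 →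
  ∀ (l : ℕ) (y : Fin l → Fin (m + 1) → ZMod 3) (U R U' R' : Fin l → Fin l → Eis),
  BasZ h n π p e r w0 c y → SysF (fun i => zN π e (y i)) U R U' R' →
  ∃ N₀ : ℕ, ∀ E q : ℕ, (E = 1 ∨ E = 2) → q.Prime → N₀ < q → (q % 3 = 1 ∨ q % 3 = 2) →
    InCT E π w0 c q →
    (∀ i j, MY h n π e y U R U' R' E q i j = - MY h n π e y U R U' R' E q j i) ∧
    Nat.log 3 (Nat.card (WqS h n π p e r w0 c (BB h n E q))) ≤ kY h n π e y U R U' R' E q

open Classical in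
/-- the alternating matrix with the entries `M` at the pairs -/
noncomputable def altZ {l N : ℕ} (α β : Fin N → Fin l) (M : Fin N → ZMod 3) :
    Matrix (Fin l) (Fin l) (ZMod 3) := fun i j =>
  (∑ r, if α r = i ∧ β r = j then M r else 0) - ∑ r, if α r = j ∧ β r = i then M r else 0

/-- PTK_CNM: the pairs and the law.
Proof. `M ↦ altZ α β M` is a bijection of `Fin N → ZMod 3` onto the matrices with `Aᵀ = - A` (the diagonal of such a matrix is `0`, as `2 ≠ 0`); so their number is `3^N`. -/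
def Stmt_CNM : Prop := (∀ l : ℕ, ∃ (N : ℕ) (α β : Fin N → Fin l), Prs α β) ∧
  ∀ (l N : ℕ) (α β : Fin N → Fin l), Prs α β →
    (∀ A : Matrix (Fin l) (Fin l) (ZMod 3), (∀ i j, A i j = - A j i) →
      altZ α β (fun r => A (α r) (β r)) = A) ∧
    ∀ g : ℕ → ℝ, (∑ M : Fin N → ZMod 3, g (l - (altZ α β M).rank)) / 3 ^ N = Esk l g

/-! ### Joint densities -/

/-- the primes `q = a (mod 3)` of the class with the entries `M` of the matrix of the minus part -/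
def QMM (h n : ℕ) {m : ℕ} (π : Fin m → PP) (e : Fin m → ℕ) (w0 : ZMod 3) (c : Fin m → ZMod 3)
    {l N : ℕ} (y : Fin l → Fin (m + 1) → ZMod 3) (U R U' R' : Fin l → Fin l → Eis)
    (α β : Fin N → Fin l) (M : Fin N → ZMod 3) (a E : ℕ) : Set ℕ :=
  {q : ℕ | q % 3 = a ∧ InCT E π w0 c q ∧
    ∀ r, MY h n π e y U R U' R' E q (α r) (β r) = M r}

/-- PTK_ZS2: the primes of `QMM` are in `SPZ`, `SMZ`.
Proof. As `MS2_thm` (PTK/MS2.lean), with `DE2` for every pair (`HypE` for `N = 3^h n`, base `z (α r)`, norm `z (β r)`: `SysF.sol`, `ZA`, `NF`; `tm σ z B = 0`: `ZS`). `M r = C r + E (Φ r - TAUE)`: `E = 1`: `TAUE = (C r - M r) + Φ r`;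
`E = 2`: `TAUE = - (C r - M r) + Φ r`. -/
def Stmt_ZS2 : Prop := ∀ (h n m k : ℕ) (π : Fin m → PP) (p e : Fin m → ℕ) (r f : Fin k → ℕ)
  (w0 : ZMod 3) (c : Fin m → ZMod 3), NF n π p e r f → h ≤ 2 →
  ∀ (l N : ℕ) (y : Fin l → Fin (m + 1) → ZMod 3) (U R U' R' : Fin l → Fin l → Eis)
    (α β : Fin N → Fin l), MnS h n π p e r w0 c y U R U' R' α β →
  ∃ f₀ : ℕ, 0 < f₀ ∧ ∀ f' : ℕ, 0 < f' → f₀ ∣ f' →
  ∀ κ : (ZMod f')ˣ →* Multiplicative (Fin (m + 1) → ZMod 3), IsK π κ →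
  ∃ (C : Fin N → ZMod 3) (Φ : (ZMod f')ˣ →* Multiplicative (Fin N → ZMod 3)) (N₀ : ℕ),
    ∀ (q : ℕ) (M : Fin N → ZMod 3), q.Prime → N₀ < q →
      (q ∈ QMM h n π e w0 c y U R U' R' α β M 2 1 →
        q ∈ SPZ (fun i => zN π e (y i)) α (fun r => U (α r) (β r)) (fun r => R (α r) (β r))
          (fun r => U' (α r) (β r)) (fun r => R' (α r) (β r)) κ (Fin.cons w0 c) (C - M) Φ) ∧
      (q ∈ QMM h n π e w0 c y U R U' R' α β M 2 2 →
        q ∈ SMZ (fun i => zN π e (y i)) α (fun r => U (α r) (β r)) (fun r => R (α r) (β r))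
          (fun r => U' (α r) (β r)) (fun r => R' (α r) (β r)) κ (Fin.cons w0 c) (C - M) Φ)

/-- PTK_ZS1: the primes of `QMM` are in `SPZU`, `SMZU`. As `MS1_thm` (PTK/MS1.lean) and `ZS2`, with `DE1`, `ZSU`. -/
def Stmt_ZS1 : Prop := ∀ (h n m k : ℕ) (π : Fin m → PP) (p e : Fin m → ℕ) (r f : Fin k → ℕ)
  (w0 : ZMod 3) (c : Fin m → ZMod 3), NF n π p e r f → h ≤ 2 →
  ∀ (l N : ℕ) (y : Fin l → Fin (m + 1) → ZMod 3) (U R U' R' : Fin l → Fin l → Eis)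
    (α β : Fin N → Fin l), MnS h n π p e r w0 c y U R U' R' α β →
  ∃ f₀ : ℕ, 0 < f₀ ∧ ∀ f' : ℕ, 0 < f' → f₀ ∣ f' →
  ∀ κ : (ZMod f')ˣ →* Multiplicative (Fin (m + 1) → ZMod 3), IsK π κ →
  ∃ (C : Fin N → ZMod 3) (Φ : (ZMod f')ˣ →* Multiplicative (Fin N → ZMod 3)) (N₀ : ℕ),
    ∀ (q : ℕ) (M : Fin N → ZMod 3), q.Prime → N₀ < q →
      (q ∈ QMM h n π e w0 c y U R U' R' α β M 1 1 →
        q ∈ SPZU (fun i => zN π e (y i)) α (fun r => U (α r) (β r)) (fun r => R (α r) (β r))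
          (fun r => U' (α r) (β r)) (fun r => R' (α r) (β r)) κ (Fin.cons w0 c) (C - M) Φ) ∧
      (q ∈ QMM h n π e w0 c y U R U' R' α β M 1 2 →
        q ∈ SMZU (fun i => zN π e (y i)) α (fun r => U (α r) (β r)) (fun r => R (α r) (β r))
          (fun r => U' (α r) (β r)) (fun r => R' (α r) (β r)) κ (Fin.cons w0 c) (C - M) Φ)

/-- PTK_MD2: the joint density, `q = 2 (mod 3)`. As `MT2_thm` (PTK/MT2.lean) with `ZS2` in place of `MS2`; the `SysZ` for `BM2`: `ind`, `cz`, `sol` from `SysF`, `lt`, `inj` from `Prs`. -/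
def Stmt_MD2 : Prop := ∀ (h n m k : ℕ) (π : Fin m → PP) (p e : Fin m → ℕ) (r f : Fin k → ℕ)
  (w0 : ZMod 3) (c : Fin m → ZMod 3) (s : ℕ) (τ : Fin s → Fin 3) (b X Y : Fin s → ℤ)
  (P Q P' Q' : Fin s → Fin s → ℤ), NF n π p e r f → h ≤ 2 → PlS h n π w0 c τ b X Y P Q P' Q' →
  ∀ (l N : ℕ) (y : Fin l → Fin (m + 1) → ZMod 3) (U R U' R' : Fin l → Fin l → Eis)
    (α β : Fin N → Fin l), MnS h n π p e r w0 c y U R U' R' α β →
  ∀ (M : Fin N → ZMod 3) (t : ℕ), ∃ K : ℝ, ∀ σ : ℝ, 1 < σ → σ ≤ 2 →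
    BDENS.sm {q | q ∈ QMM h n π e w0 c y U R U' R' α β M 2 1 ∧
        t ≤ kS h n b X Y P Q P' Q' 1 q} σ +
      BDENS.sm {q | q ∈ QMM h n π e w0 c y U R U' R' α β M 2 2 ∧
        t ≤ kS h n b X Y P Q P' Q' 2 q} σ ≤
      1 / 3 ^ N / 3 ^ (m + 1) * LI s t * Real.log (1 / (σ - 1)) + K

/-- PTK_MDU: the joint density, `q = 1 (mod 3)`, generic pattern. As `MTU_thm` (PTK/MTU.lean) with `ZS1` in place of `MS1`. -/
def Stmt_MDU : Prop := ∀ (h n m k : ℕ) (π : Fin m → PP) (p e : Fin m → ℕ) (r f : Fin k → ℕ)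
  (w0 : ZMod 3) (c : Fin m → ZMod 3) (d : ℕ) (v : Fin d → ℤ) (δ : Fin d → ZMod 3)
  (s : ℕ) (τ : Fin s → Fin 3) (b : Fin (s + 1) → ℤ) (X Y : Fin s → ℤ)
  (P Q P' Q' : Fin (s + 1) → Fin (s + 1) → ℤ), NF n π p e r f → h ≤ 2 → δ ≠ 0 →
  PlU h n π w0 c v δ τ b X Y P Q P' Q' →
  ∀ (l N : ℕ) (y : Fin l → Fin (m + 1) → ZMod 3) (U R U' R' : Fin l → Fin l → Eis)
    (α β : Fin N → Fin l), MnS h n π p e r w0 c y U R U' R' α β →
  ∀ (M : Fin N → ZMod 3) (t : ℕ), ∃ K : ℝ, ∀ σ : ℝ, 1 < σ → σ ≤ 2 →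
    BDENS.sm {q | (q ∈ QMM h n π e w0 c y U R U' R' α β M 1 1 ∧ q ∈ Pat v δ) ∧
        t ≤ kU h n b X Y P Q P' Q' 1 q} σ +
      BDENS.sm {q | (q ∈ QMM h n π e w0 c y U R U' R' α β M 1 2 ∧ q ∈ Pat v δ) ∧
        t ≤ kU h n b X Y P Q P' Q' 2 q} σ ≤
      2 / 3 ^ d / 3 ^ N / 3 ^ (m + 1) * LI s t * Real.log (1 / (σ - 1)) + K

/-- PTK_MDZ: the joint density, `q = 1 (mod 3)`, zero pattern. As `MTZ_thm` (PTK/MTZ.lean) with `ZS1` in place of `MS1`. -/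
def Stmt_MDZ : Prop := ∀ (h n m k : ℕ) (π : Fin m → PP) (p e : Fin m → ℕ) (r f : Fin k → ℕ)
  (w0 : ZMod 3) (c : Fin m → ZMod 3) (s : ℕ) (τ : Fin s → Fin 3) (b X Y : Fin s → ℤ)
  (P Q P' Q' : Fin s → Fin s → ℤ), NF n π p e r f → h ≤ 2 → PlS h n π w0 c τ b X Y P Q P' Q' →
  ∀ (l N : ℕ) (y : Fin l → Fin (m + 1) → ZMod 3) (U R U' R' : Fin l → Fin l → Eis)
    (α β : Fin N → Fin l), MnS h n π p e r w0 c y U R U' R' α β →
  ∀ (M : Fin N → ZMod 3) (t : ℕ), ∃ K : ℝ, ∀ σ : ℝ, 1 < σ → σ ≤ 2 →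
    BDENS.sm {q | (q ∈ QMM h n π e w0 c y U R U' R' α β M 1 1 ∧ q ∈ ZP b) ∧
        t ≤ kS h n b X Y P Q P' Q' 1 q} σ +
      BDENS.sm {q | (q ∈ QMM h n π e w0 c y U R U' R' α β M 1 2 ∧ q ∈ ZP b) ∧
        t ≤ kS h n b X Y P Q P' Q' 2 q} σ ≤
      1 / 3 ^ s / 3 ^ N / 3 ^ (m + 1) * LI s t * Real.log (1 / (σ - 1)) + K

/-! ### Joint averages -/

/-- PTK_JD2: `q = 2 (mod 3)`.
Proof. For large `q` of the class with the entries `M` of the matrix (`ZKQ`, `CNM`): `MY = altZ α β M`, `F (kY) (kS) = F (l - rank (altZ α β M)) (kS)`. `UPS` (1) with `ι = (Fin N → ZMod 3)`, `c = 1`,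
`T M E = QMM .. M 2 E`, `G' M E q = F (l - rank (altZ α β M)) (kS .. E q)`; the hypothesis for `M`: `KUM` with `x = 1 / 3^N / 3^(m+1)` and `MD2`: `Esk s (F (l - rank ..)) x`. The sum over `M` by `CNM`. -/
def Stmt_JD2 : Prop := ∀ (h n m k : ℕ) (π : Fin m → PP) (p e : Fin m → ℕ) (r f : Fin k → ℕ)
  (w0 : ZMod 3) (c : Fin m → ZMod 3) (s : ℕ) (τ : Fin s → Fin 3) (b X Y : Fin s → ℤ)
  (P Q P' Q' : Fin s → Fin s → ℤ), NF n π p e r f → h ≤ 2 → PlS h n π w0 c τ b X Y P Q P' Q' →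
  ∀ (l N : ℕ) (y : Fin l → Fin (m + 1) → ZMod 3) (U R U' R' : Fin l → Fin l → Eis)
    (α β : Fin N → Fin l), MnS h n π p e r w0 c y U R U' R' α β →
  ∀ F : ℕ → ℕ → ℝ, (∀ a, Monotone (F a)) → (∀ a, 0 ≤ F a 0) →
  UpS (fun E => {q | q % 3 = 2 ∧ InCT E π w0 c q})
    (fun E q => F (kY h n π e y U R U' R' E q) (kS h n b X Y P Q P' Q' E q))
    (Esk l (fun a => Esk s (F a)) / 3 ^ (m + 1))

/-- PTK_JDG: `q = 1 (mod 3)`, one pattern. As `JD2`, with `MDU` (`s = d - 1`: `PlU.dim`). -/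
def Stmt_JDG : Prop := ∀ (h n m k : ℕ) (π : Fin m → PP) (p e : Fin m → ℕ) (r f : Fin k → ℕ)
  (w0 : ZMod 3) (c : Fin m → ZMod 3) (d : ℕ) (v : Fin d → ℤ) (δ : Fin d → ZMod 3)
  (s : ℕ) (τ : Fin s → Fin 3) (b : Fin (s + 1) → ℤ) (X Y : Fin s → ℤ)
  (P Q P' Q' : Fin (s + 1) → Fin (s + 1) → ℤ), NF n π p e r f → h ≤ 2 → δ ≠ 0 →
  PlU h n π w0 c v δ τ b X Y P Q P' Q' →
  ∀ (l N : ℕ) (y : Fin l → Fin (m + 1) → ZMod 3) (U R U' R' : Fin l → Fin l → Eis)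
    (α β : Fin N → Fin l), MnS h n π p e r w0 c y U R U' R' α β →
  ∀ F : ℕ → ℕ → ℝ, (∀ a, Monotone (F a)) → (∀ a, 0 ≤ F a 0) →
  UpS (fun E => {q | q % 3 = 1 ∧ InCT E π w0 c q ∧ q ∈ Pat v δ})
    (fun E q => F (kY h n π e y U R U' R' E q) (kU h n b X Y P Q P' Q' E q))
    (Esk l (fun a => Esk (d - 1) (F a)) * (2 / 3 ^ d / 3 ^ (m + 1)))

/-- PTK_JDZ: `q = 1 (mod 3)`, zero pattern. As `JD2`, with `MDZ`. -/
def Stmt_JDZ : Prop := ∀ (h n m k : ℕ) (π : Fin m → PP) (p e : Fin m → ℕ) (r f : Fin k → ℕ)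
  (w0 : ZMod 3) (c : Fin m → ZMod 3) (s : ℕ) (τ : Fin s → Fin 3) (b X Y : Fin s → ℤ)
  (P Q P' Q' : Fin s → Fin s → ℤ), NF n π p e r f → h ≤ 2 → PlS h n π w0 c τ b X Y P Q P' Q' →
  ∀ (l N : ℕ) (y : Fin l → Fin (m + 1) → ZMod 3) (U R U' R' : Fin l → Fin l → Eis)
    (α β : Fin N → Fin l), MnS h n π p e r w0 c y U R U' R' α β →
  ∀ F : ℕ → ℕ → ℝ, (∀ a, Monotone (F a)) → (∀ a, 0 ≤ F a 0) →
  UpS (fun E => {q | q % 3 = 1 ∧ InCT E π w0 c q ∧ q ∈ ZP b})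
    (fun E q => F (kY h n π e y U R U' R' E q) (kS h n b X Y P Q P' Q' E q))
    (Esk l (fun a => Esk s (F a)) * (1 / 3 ^ s / 3 ^ (m + 1)))

/-- The average of `F(v - rank M + s - rank M')`, `M`, `M'` independent random skew-symmetric matrices of sizes `v`, `s`. -/
noncomputable def EsD (v s : ℕ) (F : ℕ → ℝ) : ℝ := Esk v (fun x => Esk s (fun y => F (x + y)))

/-- PTK_FL2: the law in a class, `q = 2 (mod 3)`.
Proof. Systems from `PLE`, `ZBA`, `MSF`, `CNM` (`l = vN`, `s = sN`). For large `q`: `rr B ≤ w + kS`, `w = Nat.log 3 (card WqS)` (`NBW`, `CubeRank.rr_le`), `w ≤ kY` (`ZKQ`), so `F (rr B) ≤ F (kY + kS)`. `UPS` (1)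
with one set and `JD2` for `F a b = F (a + b)`. -/
def Stmt_FL2 : Prop := ∀ (h n m k : ℕ) (π : Fin m → PP) (p e : Fin m → ℕ) (r f : Fin k → ℕ)
  (w0 : ZMod 3) (c : Fin m → ZMod 3), NF n π p e r f → h ≤ 2 →
  ∀ F : ℕ → ℝ, Monotone F → 0 ≤ F 0 →
  UpS (fun E => {q | q % 3 = 2 ∧ InCT E π w0 c q}) (fun E q => F (CubeRank.rr (BB h n E q)))
    (EsD (vN h n π p e r w0 c) (sN h n π p e r w0 c) F / 3 ^ (m + 1))

/-- PTK_FL1: the law in a class, `q = 1 (mod 3)`.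
Proof. As `AM1_thm` (PTK/AM1.lean): `v` from `NHPT` (`d = sN`, `HB`), for every `δ ≠ 0` a system (`PLU`), the system `b` of `PLE`, one system of the minus part (`ZBA`, `MSF`, `CNM`). For large `q` of the class: if `q ∈ ZP v` then
`q ∈ ZP b` (`ZPV`) and `rr B ≤ w + 1 + kS` (`NBX`), otherwise `rr B ≤ w + kU_δ` for at least two `δ ≠ 0` with `q ∈ Pat v δ` (`PAT`, `NBU`); `w ≤ kY` (`ZKQ`). So `2 F (rr B) ≤ ∑_δ [q ∈ Pat v δ] F (kY + kU_δ) +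
[q ∈ ZP b] 2 F (kY + kS + 1)`; `UPS` (1) with `c = 2`, `JDG`, `JDZ`: `(1/2) ((3^d - 1)(2 / 3^d) Esk l (Esk (d - 1) ..) + 2 / 3^d Esk l (Esk d ..)) / 3^(m+1)`, and `ESZ` for `F (a + ·)` and every `a` (`Esk l` is linear). -/
def Stmt_FL1 : Prop := ∀ (h n m k : ℕ) (π : Fin m → PP) (p e : Fin m → ℕ) (r f : Fin k → ℕ)
  (w0 : ZMod 3) (c : Fin m → ZMod 3), NF n π p e r f → h ≤ 2 →
  ∀ F : ℕ → ℝ, Monotone F → 0 ≤ F 0 →
  UpS (fun E => {q | q % 3 = 1 ∧ InCT E π w0 c q}) (fun E q => F (CubeRank.rr (BB h n E q)))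
    (EsD (vN h n π p e r w0 c) (sN h n π p e r w0 c + 1) F / 3 ^ (m + 1))

/-! ### The theorem -/

/-- PTK_FB: the law in a class, both residue classes, upper and lower bounds.
Proof. First part: `FL2`, `FL1`, `UPA`. Second part: `UPL` with `c₀ = 1`, `G E q = [t ≤ rr (BB h n E q)]` (for large `q` the group is generated by `rr B` points: `CLN`, `CLU`, `CubeRank.gen_rr`; so `1 - G ≤ tf (R ..)`),
the total number from `CLT`, the bound for `G` from `FL2`, `FL1` with `F x = [t ≤ x]`; `1 - EsD (t ≤ ·) = EsD (· < t)` (`Esk s 1 = 1`). See `PR2_thm` (PTK/PR2.lean) and `CBE_thm` (PTN/CBE.lean). -/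
def Stmt_FB : Prop := ∀ (h n m k : ℕ) (π : Fin m → PP) (p e : Fin m → ℕ) (r f : Fin k → ℕ)
  (w0 : ZMod 3) (c : Fin m → ZMod 3), NF n π p e r f → h ≤ 2 → ∀ a : ℕ, (a = 1 ∨ a = 2) →
  (∀ F : ℕ → ℝ, Monotone F → 0 ≤ F 0 →
    AboveA ((3 ^ h * n : ℕ) : ℤ) a (Kl π w0 c) (fun A => F (CubeRank.rr A))
      (EsD (vN h n π p e r w0 c) (sN h n π p e r w0 c + if a = 1 then 1 else 0) F /
        3 ^ (m + 1))) ∧
  ∀ (t : ℕ) (R : ℤ → Prop),
    (∀ A : ℤ, A ≠ 0 → CubeRank.GenBy A (CubeRank.rr A) → CubeRank.rr A < t → R A) →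
    BelowA ((3 ^ h * n : ℕ) : ℤ) a (Kl π w0 c) (fun A => tf (R A))
      (EsD (vN h n π p e r w0 c) (sN h n π p e r w0 c + if a = 1 then 1 else 0)
        (fun x => if x < t then 1 else 0) / 3 ^ (m + 1))

/-- PTK_EKN: the numbers.
Proof. `Esk s F` is an average of `F (s - rank M)`: linear, monotone, `Esk s 1 = 1`, and it depends only on the values `F c` with `c = s (mod 2)` (`AL.cr_parity`, `AL.even_rank` in PTL/AL.lean). (1) `EsD v s id = Esk v id + Esk s id`, `LAM`.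
(2) `EsD v s (3^(k ·)) = Esk v (3^(k ·)) Esk s (3^(k ·))`, `ESB`. (3) one of `v`, `s` is odd: `[x + y < 2] ≥ [x < 2] [y < 1]` or `≥ [x < 1] [y < 2]`, `Esk v [· < 2] ≥ 23/24` (`v` odd), `Esk s [· < 1] ≥ 5/8` (`s` even): `LAW` (3), (4),
`Esk_ind`; `(23/24)(5/8) = 115/192`. (5) both odd: `[x + y < 3] ≥ [x < 2] [y < 2]`, `(23/24)² ≥ 17/20`; both even: for even `x`, `y`: `1 - [x + y < 3] ≤ [4 ≤ x] + [4 ≤ y] + [1 ≤ x] [1 ≤ y]`, `[4 ≤ x] ≤ 3^(4 x) / 3^16`, `ESB`: `MoB 4 / 3^16 = 91840 / 43046721 ≤ 11/5000`,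
`9/64 + 22/5000 ≤ 3/20`. (4) from (3) and (5). (6) `[x + y < 1] = [x < 1] [y < 1]`, `(5/8)²`. (7) `Esk 0 G = G 0`. (8), (9): `LAW`. -/
def Stmt_EKN : Prop :=
  (∀ v s, EsD v s (fun c => (c : ℝ)) ≤ 13 / 6) ∧
  (∀ v s k : ℕ, EsD v s (fun c => (3 : ℝ) ^ (k * c)) ≤ MoB k ^ 2) ∧
  (∀ v s, Odd (v + s) → 115 / 192 ≤ EsD v s (fun x => if x < 2 then 1 else 0)) ∧
  (∀ v s, 115 / 192 ≤ EsD v s (fun x => if x < 3 then 1 else 0)) ∧
  (∀ v s, Even (v + s) → 17 / 20 ≤ EsD v s (fun x => if x < 3 then 1 else 0)) ∧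
  (∀ v s, Even v → Even s → 25 / 64 ≤ EsD v s (fun x => if x < 1 then 1 else 0)) ∧
  (∀ s F, EsD 0 s F = Esk s F) ∧
  (∀ s, Even s → 5 / 8 ≤ EsD 0 s (fun x => if x < 1 then 1 else 0)) ∧
  (∀ s, Odd s → 23 / 24 ≤ EsD 0 s (fun x => if x < 2 then 1 else 0)) ∧
  ∀ v s t, 0 ≤ EsD v s (fun x => if x < t then 1 else 0)

/-- PTK_AWF: the averages over all `A`.
Proof. `SUMA`, `FB`, `EKN`; there are `3^(m+1)` classes. Lower bounds: `x_a = ∑_y g_a y / 3^(m+1)`; for `r ≤ 1`: `g_a y = 115/192` if `vN + sN + [a = 1]` is odd, otherwise `0`; for `r ≤ 2`: `115/192` or `17/20`; for every class `y` exactly one of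
`a = 1, 2` has odd `vN + sN + [a = 1]`. -/
def Stmt_AWF : Prop := ∀ (h n m k : ℕ) (π : Fin m → PP) (p e : Fin m → ℕ) (r f : Fin k → ℕ),
  NF n π p e r f → h ≤ 2 →
  (∀ a : ℕ, (a = 1 ∨ a = 2) →
    AboveA ((3 ^ h * n : ℕ) : ℤ) a (fun _ => True) (fun A => (CubeRank.rr A : ℝ)) (13 / 6) ∧
    (∀ k₀ : ℕ, AboveA ((3 ^ h * n : ℕ) : ℤ) a (fun _ => True)
      (fun A => 3 ^ (k₀ * CubeRank.rr A)) (MoB k₀ ^ 2)) ∧
    BelowA ((3 ^ h * n : ℕ) : ℤ) a (fun _ => True) (fun A => tf (CubeRank.rr A ≤ 2))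
      (115 / 192)) ∧
  (∃ x₁ x₂ : ℝ, 0 ≤ x₁ ∧ 0 ≤ x₂ ∧ x₁ + x₂ = 115 / 192 ∧
    BelowA ((3 ^ h * n : ℕ) : ℤ) 1 (fun _ => True) (fun A => tf (CubeRank.rr A ≤ 1)) x₁ ∧
    BelowA ((3 ^ h * n : ℕ) : ℤ) 2 (fun _ => True) (fun A => tf (CubeRank.rr A ≤ 1)) x₂) ∧
  ∃ x₁ x₂ : ℝ, 0 ≤ x₁ ∧ 0 ≤ x₂ ∧ x₁ + x₂ = 115 / 192 + 17 / 20 ∧
    BelowA ((3 ^ h * n : ℕ) : ℤ) 1 (fun _ => True) (fun A => tf (CubeRank.rr A ≤ 2)) x₁ ∧
    BelowA ((3 ^ h * n : ℕ) : ℤ) 2 (fun _ => True) (fun A => tf (CubeRank.rr A ≤ 2)) x₂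

open Classical in
/-- PTK_MAW: the theorem.
Proof. As `MAV_thm` (PTK/MAV.lean: `NFE`, `NDIM`, `NSUM`, `NZER`, `TRU`, `TRC`, …; repeat it with the new inputs), with `FB` and `EKN` for the classes: `R A = (rr A ≤ t)` with `t + 1`, `R A` the negation of solvability with `t = 1`
(`DOM.no_sol`); all `A`: `AWF`, and `MTL`, `GMB` (last part) for the tails: `MoB k² / 3^(k (2 k + 1)) ≤ (64/25) / 3^(k²)`; the last three lines are those of `MAV`. -/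
def Stmt_MAW : Prop := ∀ N : ℕ, 0 < N → (∀ p : ℕ, p.Prime → ¬ p ^ 3 ∣ N) →
  ∀ m k δ μ : ℕ, m = (N.primeFactors.filter (fun p => p % 3 = 1)).card →
  k = (N.primeFactors.filter (fun p => p % 3 = 2)).card →
  δ = (if 3 ∣ N ∧ ¬ 9 ∣ N then 1 else 0) → μ + δ = m + 1 →
  (∃ v s : (ZMod (9 * N))ˣ → ℕ,
    (∀ u : (ZMod (9 * N))ˣ, s u + (if Nu1 N u then 1 else 0) = v u + k + δ) ∧
    (∑ᶠ u : (ZMod (9 * N))ˣ, (3 : ℝ) ^ v u ≤ (5 / 3) ^ μ * (9 * N).totient) ∧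
    ((2 / 3 : ℝ) ^ μ * (9 * N).totient ≤
      Nat.card {u : (ZMod (9 * N))ˣ // v u = 0 ∧ ¬ Nu1 N u}) ∧
    (¬ 3 ∣ N → (∃ p : ℕ, p.Prime ∧ p ∣ N ∧ (p % 9 = 2 ∨ p % 9 = 5)) →
      1 / 3 * (2 / 3 : ℝ) ^ m * (9 * N).totient ≤
        Nat.card {u : (ZMod (9 * N))ˣ // v u = 0 ∧ Nu1 N u}) ∧
    (∀ (u : (ZMod (9 * N))ˣ) (F : ℕ → ℝ), Monotone F → 0 ≤ F 0 →
      AboveA N 2 (Cu N u) (fun A => F (CubeRank.rr A)) (EsD (v u) (s u) F / 3 ^ (m + 1)) ∧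
      AboveA N 1 (Cu N u) (fun A => F (CubeRank.rr A))
        (EsD (v u) (s u + 1) F / 3 ^ (m + 1))) ∧
    (∀ (u : (ZMod (9 * N))ˣ) (t : ℕ),
      BelowA N 2 (Cu N u) (fun A => tf (CubeRank.rr A < t))
        (EsD (v u) (s u) (fun x => if x < t then 1 else 0) / 3 ^ (m + 1)) ∧
      BelowA N 1 (Cu N u) (fun A => tf (CubeRank.rr A < t))
        (EsD (v u) (s u + 1) (fun x => if x < t then 1 else 0) / 3 ^ (m + 1))) ∧
    (∀ u : (ZMod (9 * N))ˣ,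
      BelowA N 2 (Cu N u) (fun A => tf (¬ ∃ X Y : ℚ, X ^ 3 + Y ^ 3 = (A : ℚ)))
        (EsD (v u) (s u) (fun x => if x < 1 then 1 else 0) / 3 ^ (m + 1)) ∧
      BelowA N 1 (Cu N u) (fun A => tf (¬ ∃ X Y : ℚ, X ^ 3 + Y ^ 3 = (A : ℚ)))
        (EsD (v u) (s u + 1) (fun x => if x < 1 then 1 else 0) / 3 ^ (m + 1))) ∧
    ∀ u : (ZMod (9 * N))ˣ,
      (Odd (v u + s u) →
        BelowA N 2 (Cu N u) (fun A => tf (CubeRank.rr A ≤ 1)) (115 / 192 / 3 ^ (m + 1)) ∧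
        BelowA N 1 (Cu N u) (fun A => tf (CubeRank.rr A ≤ 2)) (17 / 20 / 3 ^ (m + 1))) ∧
      (Even (v u + s u) →
        BelowA N 2 (Cu N u) (fun A => tf (CubeRank.rr A ≤ 2)) (17 / 20 / 3 ^ (m + 1)) ∧
        BelowA N 1 (Cu N u) (fun A => tf (CubeRank.rr A ≤ 1)) (115 / 192 / 3 ^ (m + 1))) ∧
      (Even (v u) → Even (s u) →
        BelowA N 2 (Cu N u) (fun A => tf (¬ ∃ X Y : ℚ, X ^ 3 + Y ^ 3 = (A : ℚ)))
          (25 / 64 / 3 ^ (m + 1))) ∧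
      (Even (v u) → Odd (s u) →
        BelowA N 1 (Cu N u) (fun A => tf (¬ ∃ X Y : ℚ, X ^ 3 + Y ^ 3 = (A : ℚ)))
          (25 / 64 / 3 ^ (m + 1))) ∧
      (v u = 0 → Even (s u) →
        BelowA N 2 (Cu N u) (fun A => tf (¬ ∃ X Y : ℚ, X ^ 3 + Y ^ 3 = (A : ℚ)))
          (5 / 8 / 3 ^ (m + 1)) ∧
        BelowA N 1 (Cu N u) (fun A => tf (CubeRank.rr A ≤ 1)) (23 / 24 / 3 ^ (m + 1))) ∧
      (v u = 0 → Odd (s u) →
        BelowA N 2 (Cu N u) (fun A => tf (CubeRank.rr A ≤ 1)) (23 / 24 / 3 ^ (m + 1)) ∧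
        BelowA N 1 (Cu N u) (fun A => tf (¬ ∃ X Y : ℚ, X ^ 3 + Y ^ 3 = (A : ℚ)))
          (5 / 8 / 3 ^ (m + 1)))) ∧
  (∃ M : ℕ, ∀ q e : ℕ, q.Prime → M < q → (e = 1 ∨ e = 2) →
    CubeRank.GenBy (N * q ^ e) (CubeRank.rr (N * q ^ e))) ∧
  (∀ a : ℕ, (a = 1 ∨ a = 2) →
    AboveA N a (fun _ => True) (fun A => (CubeRank.rr A : ℝ)) (13 / 6) ∧
    (∀ k : ℕ, AboveA N a (fun _ => True) (fun A => 3 ^ (k * CubeRank.rr A)) (MoB k ^ 2)) ∧
    (∀ k : ℕ, AboveA N a (fun _ => True) (fun A => tf (2 * k + 1 ≤ CubeRank.rr A))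
      (64 / 25 / 3 ^ k ^ 2)) ∧
    BelowA N a (fun _ => True) (fun A => tf (CubeRank.rr A ≤ 2)) (115 / 192)) ∧
  (∃ x₁ x₂ : ℝ, 0 ≤ x₁ ∧ 0 ≤ x₂ ∧ x₁ + x₂ = 115 / 192 ∧
    BelowA N 1 (fun _ => True) (fun A => tf (CubeRank.rr A ≤ 1)) x₁ ∧
    BelowA N 2 (fun _ => True) (fun A => tf (CubeRank.rr A ≤ 1)) x₂) ∧
  (∃ x₁ x₂ : ℝ, 0 ≤ x₁ ∧ 0 ≤ x₂ ∧ x₁ + x₂ = 115 / 192 + 17 / 20 ∧
    BelowA N 1 (fun _ => True) (fun A => tf (CubeRank.rr A ≤ 2)) x₁ ∧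
    BelowA N 2 (fun _ => True) (fun A => tf (CubeRank.rr A ≤ 2)) x₂) ∧
  AboveA N 2 (fun _ => True) (fun A => 3 ^ CubeRank.rr A) (4 * (5 / 3) ^ μ) ∧
  AboveA N 1 (fun _ => True) (fun A => 3 ^ CubeRank.rr A) (4 * (5 / 3) ^ μ) ∧
  (Even (k + δ) →
    BelowA N 2 (fun _ => True)
      (fun A => tf (¬ ∃ X Y : ℚ, X ^ 3 + Y ^ 3 = (A : ℚ))) (5 / 8 * (2 / 3) ^ μ) ∧
    BelowA N 1 (fun _ => True) (fun A => tf (CubeRank.rr A ≤ 1)) (23 / 24 * (2 / 3) ^ μ)) ∧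
  (Odd (k + δ) →
    BelowA N 2 (fun _ => True) (fun A => tf (CubeRank.rr A ≤ 1)) (23 / 24 * (2 / 3) ^ μ) ∧
    BelowA N 1 (fun _ => True)
      (fun A => tf (¬ ∃ X Y : ℚ, X ^ 3 + Y ^ 3 = (A : ℚ))) (5 / 8 * (2 / 3) ^ μ))

end Pool.Agent.PTK
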